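import Mathlib

/-!
# Strongly log-concave measures with `C²` potentials: definitions

Everything lives on `ι → ℝ` with `ι` finite; the Euclidean structure is written out
(`sq u = ∑ u_i²`, `dt u v = ∑ u_i v_i`), derivatives are partial derivatives `pd i f`.
-/

namespace Pool.Agent.Lib.MP_8d00da_gt.h42k

open MeasureTheory Set Filter
open scoped Topology NNReal ENNReal ContDiff

variable {ι : Type*} [Fintype ι] [DecidableEq ι]

/-- The square of the Euclidean norm. -/
def sq (u : ι → ℝ) : ℝ := ∑ i, u i ^ 2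

/-- The Euclidean inner product. -/
def dt (u v : ι → ℝ) : ℝ := ∑ i, u i * v i

/-- The partial derivative. -/
noncomputable def pd (i : ι) (f : (ι → ℝ) → ℝ) (x : ι → ℝ) : ℝ := fderiv ℝ f x (Pi.single i 1)

/-- The square of the length of the gradient. -/
noncomputable def gs (f : (ι → ℝ) → ℝ) (x : ι → ℝ) : ℝ := ∑ i, pd i f x ^ 2

/-- The derivative in the direction `u`. -/
noncomputable def gd (f : (ι → ℝ) → ℝ) (x u : ι → ℝ) : ℝ := ∑ i, u i * pd i f x

/-- The Hessian form `D²V(x)[u,u]`. -/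
noncomputable def hs (V : (ι → ℝ) → ℝ) (x u : ι → ℝ) : ℝ :=
  ∑ i, ∑ j, u i * u j * pd i (pd j V) x

/-- The square of the Hilbert-Schmidt norm of the Hessian. -/
noncomputable def hq (f : (ι → ℝ) → ℝ) (x : ι → ℝ) : ℝ := ∑ i, ∑ j, pd i (pd j f) x ^ 2

/-- Polynomial growth. -/
def PG (f : (ι → ℝ) → ℝ) : Prop := ∃ (C : ℝ) (k : ℕ), ∀ x, |f x| ≤ C * (1 + sq x) ^ k

/-- Measurable functions of polynomial growth. -/
structure T0 (f : (ι → ℝ) → ℝ) : Prop where
  meas : Measurable f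
  pg : PG f

/-- `C¹` functions of polynomial growth (with their derivatives). -/
structure T1 (f : (ι → ℝ) → ℝ) : Prop where
  c1 : ContDiff ℝ 1 f
  pg : PG f
  pgd : ∀ i, PG (pd i f)

/-- Test functions. -/
structure Cc (φ : (ι → ℝ) → ℝ) : Prop where
  smooth : ContDiff ℝ ∞ φ
  supp : HasCompactSupport φ

/-- `C²` potentials with `κ ≤ D²V ≤ M`. -/
structure Nice (κ M : ℝ) (V : (ι → ℝ) → ℝ) : Prop where
  kpos : 0 < κ
  c2 : ContDiff ℝ 2 V
  lo : ∀ x u, κ * sq u ≤ hs V x u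
  hi : ∀ x u, hs V x u ≤ M * sq u

/-- Expectation for the probability measure with density proportional to `exp (-V)`. -/
noncomputable def ex (V f : (ι → ℝ) → ℝ) : ℝ :=
  (∫ x, f x * Real.exp (-V x)) / ∫ x, Real.exp (-V x)

/-- Covariance. -/
noncomputable def cov (V f g : (ι → ℝ) → ℝ) : ℝ :=
  ex V (fun x => f x * g x) - ex V f * ex V g

/-- Variance. -/
noncomputable def var (V f : (ι → ℝ) → ℝ) : ℝ := cov V f f

/-- Probability of a set. -/
noncomputable def pr (V : (ι → ℝ) → ℝ) (S : Set (ι → ℝ)) : ℝ := ex V (S.indicator fun _ => 1)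

/-- The mean of the `i`-th coordinate. -/
noncomputable def mn (V : (ι → ℝ) → ℝ) (i : ι) : ℝ := ex V fun x => x i

/-- The covariance matrix. -/
noncomputable def CM (V : (ι → ℝ) → ℝ) : Matrix ι ι ℝ :=
  Matrix.of fun i j => cov V (fun x => x i) (fun x => x j)

/-- `Cov(V) ≤ a`. -/
def CLe (V : (ι → ℝ) → ℝ) (a : ℝ) : Prop := ∀ θ : ι → ℝ, var V (fun x => dt θ x) ≤ a * sq θ

/-- Poincare inequality. -/
def PI (V : (ι → ℝ) → ℝ) (C : ℝ) : Prop := ∀ f : (ι → ℝ) → ℝ, T1 f → var V f ≤ C * ex V (gs f)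

/-- The generator `L φ = -Δφ + ∇V·∇φ`. -/
noncomputable def LL (V φ : (ι → ℝ) → ℝ) (x : ι → ℝ) : ℝ :=
  ∑ i, (pd i V x * pd i φ x - pd i (pd i φ) x)

/-- The row of a function through `x` in the coordinates of `s`. -/
def row (s : Finset ι) (f : (ι → ℝ) → ℝ) (x : ι → ℝ) : (s → ℝ) → ℝ :=
  fun y => f (Function.updateFinset x s y)

/-- Conditional expectation given the coordinates off `s`. -/
noncomputable def CE (V : (ι → ℝ) → ℝ) (s : Finset ι) (f : (ι → ℝ) → ℝ) (x : ι → ℝ) : ℝ :=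
  ex (row s V x) (row s f x)

/-- Conditional covariance given the coordinates off `s`. -/
noncomputable def CC (V : (ι → ℝ) → ℝ) (s : Finset ι) (f g : (ι → ℝ) → ℝ) (x : ι → ℝ) : ℝ :=
  cov (row s V x) (row s f x) (row s g x)

/-- The potential of the marginal off `s`, as a function on the whole space. -/
noncomputable def MW (V : (ι → ℝ) → ℝ) (s : Finset ι) (x : ι → ℝ) : ℝ :=
  -Real.log (∫ y, Real.exp (-(row s V x y)))

/-- The marginal off `s` times a standard Gaussian in the coordinates of `s`. -/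
noncomputable def MG (V : (ι → ℝ) → ℝ) (s : Finset ι) (x : ι → ℝ) : ℝ :=
  MW V s x + (1 / 2) * ∑ i ∈ s, x i ^ 2

/-- `f` depends only on the coordinates in `P`. -/
def Dep (P : Finset ι) (f : (ι → ℝ) → ℝ) : Prop := ∀ x x', (∀ i ∈ P, x i = x' i) → f x = f x'

/-- The tilted potential `V + t|x|²/2 - y·x`. -/
noncomputable def pt (V : (ι → ℝ) → ℝ) (t : ℝ) (y x : ι → ℝ) : ℝ := V x + t / 2 * sq x - dt y x

/-- The standard Gaussian potential. -/
noncomputable def gp (x : ι → ℝ) : ℝ := sq x / 2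

/-- `E Φ(Y_t)`, `Y_t = t X + √t g`, `X ∼ exp(-V)`, `g` standard Gaussian. -/
noncomputable def GE (V : (ι → ℝ) → ℝ) (t : ℝ) (Φ : (ι → ℝ) → ℝ) : ℝ :=
  ex V fun x => ex gp fun g => Φ fun i => t * x i + √t * g i

end Pool.Agent.Lib.MP_8d00da_gt.h42k
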