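import Mathlib
import Pool.Agent.Lib.MP_8d00da_gt.h62a.Defs
import Pool.Agent.Lib.MP_8d00da_gt.h42k.KDefs

section

section

/-!
# Polynomials, derivatives along words, Appell polynomials, Taylor formula

* `dW l w f` : derivative of the polynomial `f` along the word `w : Fin l → ι` (first letter first).
* `hP l C` : the form `∑_w C_w x^w`.
* `appell_exists` : for a linear functional `E` with `E 1 = 1` and symmetric `C` there is a
  polynomial `W` of degree `≤ l` with `E d_w W = 0` for `|w| < l` and `d_w W = l! C_w` for `|w| = l`.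
* `taylor` : the Taylor formula with operators.
-/

namespace Pool.Agent.Lib.MP_8d00da_gt.h65a

open MvPolynomial

variable {ι : Type*} [Fintype ι] [DecidableEq ι]

set_option linter.unusedSectionVars false

theorem pderiv_comm (i j : ι) (f : MvPolynomial ι ℝ) :
    pderiv i (pderiv j f) = pderiv j (pderiv i f) := by
  have h : ⁅(pderiv i : Derivation ℝ (MvPolynomial ι ℝ) (MvPolynomial ι ℝ)),
      (pderiv j : Derivation ℝ (MvPolynomial ι ℝ) (MvPolynomial ι ℝ))⁆ = 0 := by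
    apply MvPolynomial.derivation_ext
    intro k
    rw [Derivation.commutator_apply]
    simp only [pderiv_X, Pi.single_apply]
    split_ifs <;> simp
  have h2 := congrArg (fun D : Derivation ℝ (MvPolynomial ι ℝ) (MvPolynomial ι ℝ) => D f) h
  simp only [Derivation.commutator_apply, Derivation.coe_zero, Pi.zero_apply] at h2
  exact sub_eq_zero.1 h2

theorem totalDegree_pderiv_le (i : ι) (f : MvPolynomial ι ℝ) {b : ℕ} (hf : f.totalDegree ≤ b + 1) :
    (pderiv i f).totalDegree ≤ b := by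
  rw [MvPolynomial.totalDegree, Finset.sup_le_iff]
  intro m hm
  rw [MvPolynomial.mem_support_iff, coeff_pderiv] at hm
  have h1 : coeff (m + Finsupp.single i 1) f ≠ 0 := left_ne_zero_of_mul hm
  have h2 := le_totalDegree (mem_support_iff.2 h1)
  have h3 : ((m + Finsupp.single i 1).sum fun _ e => e) = (m.sum fun _ e => e) + 1 := by
    rw [Finsupp.sum_add_index' (fun _ => rfl) (fun _ _ _ => rfl), Finsupp.sum_single_index rfl]
  omega

theorem pderiv_eq_zero_of_deg (i : ι) (f : MvPolynomial ι ℝ) (hf : f.totalDegree = 0) :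
    pderiv i f = 0 := by
  rw [totalDegree_eq_zero_iff_eq_C.1 hf, pderiv_C]

/-- The derivative of `f` along the word `w`, first letter first. -/
noncomputable def dW : (l : ℕ) → (Fin l → ι) → MvPolynomial ι ℝ → MvPolynomial ι ℝ
  | 0, _, f => f
  | l + 1, w, f => dW l (Fin.tail w) (pderiv (w 0) f)

@[simp] theorem dW_zero (w : Fin 0 → ι) (f : MvPolynomial ι ℝ) : dW 0 w f = f := rfl

theorem dW_succ (l : ℕ) (w : Fin (l + 1) → ι) (f : MvPolynomial ι ℝ) :
    dW (l + 1) w f = dW l (Fin.tail w) (pderiv (w 0) f) := rfl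

theorem dW_cons (l : ℕ) (i : ι) (w : Fin l → ι) (f : MvPolynomial ι ℝ) :
    dW (l + 1) (Fin.cons i w) f = dW l w (pderiv i f) := by
  rw [dW_succ, Fin.cons_zero, Fin.tail_cons]

theorem dW_add (l : ℕ) : ∀ (w : Fin l → ι) (f g : MvPolynomial ι ℝ),
    dW l w (f + g) = dW l w f + dW l w g := by
  induction l with
  | zero => intro w f g; rfl
  | succ l ih => intro w f g; rw [dW_succ, dW_succ, dW_succ, map_add, ih]

theorem dW_smul (l : ℕ) : ∀ (w : Fin l → ι) (c : ℝ) (f : MvPolynomial ι ℝ),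
    dW l w (c • f) = c • dW l w f := by
  induction l with
  | zero => intro w c f; rfl
  | succ l ih => intro w c f; rw [dW_succ, dW_succ, Derivation.map_smul, ih]

theorem dW_sum {α : Type*} (s : Finset α) (l : ℕ) (w : Fin l → ι) (F : α → MvPolynomial ι ℝ) :
    dW l w (∑ a ∈ s, F a) = ∑ a ∈ s, dW l w (F a) := by
  classical
  induction s using Finset.induction_on with
  | empty =>
    have := dW_smul l w 0 (0 : MvPolynomial ι ℝ)
    simpa using this
  | insert a s ha ih => rw [Finset.sum_insert ha, Finset.sum_insert ha, dW_add, ih]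

theorem dW_zero_poly (l : ℕ) (w : Fin l → ι) : dW l w (0 : MvPolynomial ι ℝ) = 0 := by
  have := dW_smul l w 0 (0 : MvPolynomial ι ℝ)
  simpa using this

theorem dW_sub (l : ℕ) (w : Fin l → ι) (f g : MvPolynomial ι ℝ) :
    dW l w (f - g) = dW l w f - dW l w g := by
  have h := dW_smul l w (-1) g
  rw [sub_eq_add_neg, dW_add, show -g = (-1 : ℝ) • g by simp, h]
  simp [sub_eq_add_neg]

theorem dW_pderiv_comm (l : ℕ) : ∀ (w : Fin l → ι) (i : ι) (f : MvPolynomial ι ℝ),
    dW l w (pderiv i f) = pderiv i (dW l w f) := by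
  induction l with
  | zero => intro w i f; rfl
  | succ l ih => intro w i f; rw [dW_succ, dW_succ, pderiv_comm, ih]

theorem totalDegree_dW_le (l : ℕ) : ∀ (w : Fin l → ι) (f : MvPolynomial ι ℝ) {b : ℕ},
    f.totalDegree ≤ b + l → (dW l w f).totalDegree ≤ b := by
  induction l with
  | zero => intro w f b h; exact h
  | succ l ih =>
    intro w f b h
    rw [dW_succ]
    exact ih _ _ (totalDegree_pderiv_le _ _ h)

theorem dW_eq_zero (l : ℕ) : ∀ (w : Fin l → ι) (f : MvPolynomial ι ℝ),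
    f.totalDegree < l → dW l w f = 0 := by
  induction l with
  | zero => intro w f h; omega
  | succ l ih =>
    intro w f h
    rw [dW_succ]
    rcases Nat.eq_zero_or_pos f.totalDegree with h0 | h0
    · rw [pderiv_eq_zero_of_deg _ _ h0, dW_zero_poly]
    · apply ih
      have : f.totalDegree ≤ (f.totalDegree - 1) + 1 := by omega
      have := totalDegree_pderiv_le (w 0) f this
      omega

/-- Symmetric coefficient functions. -/
def Sy (l : ℕ) (C : (Fin l → ι) → ℝ) : Prop :=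
  ∀ (σ : Equiv.Perm (Fin l)) (w : Fin l → ι), C (w ∘ σ) = C w

/-- The form `∑_w C_w x^w`. -/
noncomputable def hP : (l : ℕ) → ((Fin l → ι) → ℝ) → MvPolynomial ι ℝ
  | 0, C => MvPolynomial.C (C Fin.elim0)
  | l + 1, C => ∑ i, X i * hP l (fun w => C (Fin.cons i w))

theorem Sy.cons {l : ℕ} {C : (Fin (l + 1) → ι) → ℝ} (h : Sy (l + 1) C) (i : ι) :
    Sy l (fun w => C (Fin.cons i w)) := by
  intro σ w
  have := h (Equiv.Perm.decomposeFin.symm (0, σ)) (Fin.cons i w)
  show C (Fin.cons i (w ∘ σ)) = C (Fin.cons i w)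
  rw [← this]
  congr 1
  funext k
  refine Fin.cases ?_ (fun k => ?_) k
  · simp [Equiv.Perm.decomposeFin_symm_apply_zero]
  · simp [Equiv.Perm.decomposeFin_symm_apply_succ]

theorem Sy.swap {l : ℕ} {C : (Fin (l + 2) → ι) → ℝ} (h : Sy (l + 2) C) (i j : ι)
    (w : Fin l → ι) : C (Fin.cons i (Fin.cons j w)) = C (Fin.cons j (Fin.cons i w)) := by
  have := h (Equiv.swap 0 1) (Fin.cons j (Fin.cons i w))
  rw [← this]
  congr 1
  funext k
  refine Fin.cases ?_ (fun k => Fin.cases ?_ (fun k => ?_) k) k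
  · simp [Equiv.swap_apply_left]
  · show _ = (Fin.cons j (Fin.cons i w) : Fin (l + 2) → ι) (Equiv.swap 0 1 1)
    rw [Equiv.swap_apply_right]
    simp
  · have h1 : (k.succ.succ : Fin (l + 2)) ≠ 0 := Fin.succ_ne_zero _
    have h2 : (k.succ.succ : Fin (l + 2)) ≠ 1 := by
      intro h
      have := congrArg Fin.val h
      simp at this
    show _ = (Fin.cons j (Fin.cons i w) : Fin (l + 2) → ι) (Equiv.swap 0 1 k.succ.succ)
    rw [Equiv.swap_apply_of_ne_of_ne h1 h2]
    simp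

theorem totalDegree_hP_le (l : ℕ) : ∀ C : (Fin l → ι) → ℝ, (hP l C).totalDegree ≤ l := by
  induction l with
  | zero => intro C; simp [hP]
  | succ l ih =>
    intro C
    rw [hP]
    refine (totalDegree_finsetSum _ _).trans (Finset.sup_le fun i _ => ?_)
    refine (totalDegree_mul _ _).trans ?_
    have := ih (fun w => C (Fin.cons i w))
    rw [totalDegree_X]
    omega

theorem pderiv_hP (l : ℕ) : ∀ (C : (Fin (l + 1) → ι) → ℝ), Sy (l + 1) C → ∀ j : ι,
    pderiv j (hP (l + 1) C) = ((l : ℝ) + 1) • hP l (fun w => C (Fin.cons j w)) := by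
  induction l with
  | zero =>
    intro C hC j
    simp only [hP, map_sum, pderiv_mul, pderiv_C, mul_zero, add_zero, pderiv_X, Pi.single_apply,
      ite_mul, one_mul, zero_mul, Finset.sum_ite_eq', Finset.mem_univ, if_true]
    simp
  | succ l ih =>
    intro C hC j
    rw [hP]
    simp only [map_sum, pderiv_mul]
    rw [Finset.sum_add_distrib]
    have h1 : ∑ i, pderiv j (X i : MvPolynomial ι ℝ) * hP (l + 1) (fun w => C (Fin.cons i w)) =
        hP (l + 1) (fun w => C (Fin.cons j w)) := by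
      rw [Finset.sum_eq_single j]
      · simp
      · intro b _ hb
        rw [pderiv_X_of_ne hb, zero_mul]
      · intro h; exact absurd (Finset.mem_univ _) h
    have h2 : ∑ i, X i * pderiv j (hP (l + 1) (fun w => C (Fin.cons i w))) =
        ((l : ℝ) + 1) • hP (l + 1) (fun w => C (Fin.cons j w)) := by
      conv_rhs => rw [hP]
      rw [Finset.smul_sum]
      refine Finset.sum_congr rfl fun i _ => ?_
      rw [ih _ (hC.cons i) j, mul_smul_comm]
      congr 3
      funext w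
      exact hC.swap i j w
    rw [h1, h2]
    push_cast
    rw [add_smul ((l : ℝ) + 1) (1 : ℝ), one_smul, add_comm]

theorem dW_hP (l : ℕ) : ∀ (C : (Fin l → ι) → ℝ), Sy l C → ∀ w : Fin l → ι,
    dW l w (hP l C) = MvPolynomial.C ((l.factorial : ℝ) * C w) := by
  induction l with
  | zero =>
    intro C hC w
    rw [dW_zero, hP, Nat.factorial_zero, Nat.cast_one, one_mul]
    congr 2
    exact Subsingleton.elim _ _
  | succ l ih =>
    intro C hC w
    rw [dW_succ, pderiv_hP l C hC, dW_smul, ih _ (hC.cons _), Fin.cons_self_tail,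
      Nat.factorial_succ, smul_eq_C_mul, ← C_mul]
    congr 1
    push_cast
    ring

theorem dW_eq_foldl (l : ℕ) : ∀ (w : Fin l → ι) (f : MvPolynomial ι ℝ),
    dW l w f = (List.ofFn w).foldl (fun g i => pderiv i g) f := by
  induction l with
  | zero => intro w f; simp
  | succ l ih =>
    intro w f
    rw [dW_succ, ih, List.ofFn_succ, List.foldl_cons]
    rfl

theorem dW_comp_perm (l : ℕ) (σ : Equiv.Perm (Fin l)) (w : Fin l → ι)
    (f : MvPolynomial ι ℝ) : dW l (w ∘ σ) f = dW l w f := by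
  rw [dW_eq_foldl, dW_eq_foldl]
  have : RightCommutative (fun (g : MvPolynomial ι ℝ) (i : ι) => pderiv i g) :=
    ⟨fun g i j => pderiv_comm j i g⟩
  exact List.Perm.foldl_eq (Equiv.Perm.ofFn_comp_perm σ w) f

/-- The correction step. -/
theorem appell_aux (E : MvPolynomial ι ℝ →ₗ[ℝ] ℝ) (hE : E 1 = 1) (l : ℕ)
    (C : (Fin l → ι) → ℝ) (hC : Sy l C) (k : ℕ) (hk : k ≤ l) :
    ∃ W : MvPolynomial ι ℝ, W.totalDegree ≤ l ∧
      (∀ w : Fin l → ι, dW l w W = MvPolynomial.C ((l.factorial : ℝ) * C w)) ∧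
      ∀ j, l - k ≤ j → j < l → ∀ w : Fin j → ι, E (dW j w W) = 0 := by
  induction k with
  | zero =>
    refine ⟨hP l C, totalDegree_hP_le l C, dW_hP l C hC, ?_⟩
    intro j h1 h2
    omega
  | succ k ih =>
    obtain ⟨W, h1, h2, h3⟩ := ih (by omega)
    set j₀ := l - (k + 1) with hj₀
    have hj₀l : j₀ < l := by omega
    set D : (Fin j₀ → ι) → ℝ := fun w => E (dW j₀ w W) / (j₀.factorial : ℝ) with hD
    have hDs : Sy j₀ D := fun σ w => by
      simp only [hD]
      rw [dW_comp_perm]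
    refine ⟨W - hP j₀ D, ?_, ?_, ?_⟩
    · refine (totalDegree_sub _ _).trans (max_le h1 ((totalDegree_hP_le _ _).trans hj₀l.le))
    · intro w
      rw [dW_sub, h2, dW_eq_zero l w (hP j₀ D) ((totalDegree_hP_le _ _).trans_lt hj₀l), sub_zero]
    · intro j hj1 hj2 w
      rw [dW_sub, map_sub]
      rcases Nat.lt_or_ge j₀ j with h | h
      · rw [h3 j (by omega) hj2, dW_eq_zero j w (hP j₀ D) ((totalDegree_hP_le _ _).trans_lt h),
          map_zero, sub_zero]
      · have hjj : j = j₀ := by omega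
        subst hjj
        have hf : ((l - (k + 1)).factorial : ℝ) ≠ 0 := by positivity
        have h5 : E (MvPolynomial.C ((j₀.factorial : ℝ) * D w)) = (j₀.factorial : ℝ) * D w := by
          have : (MvPolynomial.C ((j₀.factorial : ℝ) * D w) : MvPolynomial ι ℝ) =
              ((j₀.factorial : ℝ) * D w) • 1 := by
            rw [smul_eq_C_mul, mul_one]
          rw [this, map_smul, hE, smul_eq_mul, mul_one]
        rw [dW_hP _ _ hDs, h5]
        simp only [hD]
        field_simp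
        ring

theorem appell_exists (E : MvPolynomial ι ℝ →ₗ[ℝ] ℝ) (hE : E 1 = 1) (l : ℕ)
    (C : (Fin l → ι) → ℝ) (hC : Sy l C) :
    ∃ W : MvPolynomial ι ℝ, W.totalDegree ≤ l ∧
      (∀ w : Fin l → ι, dW l w W = MvPolynomial.C ((l.factorial : ℝ) * C w)) ∧
      ∀ j, j < l → ∀ w : Fin j → ι, E (dW j w W) = 0 := by
  obtain ⟨W, h1, h2, h3⟩ := appell_aux E hE l C hC l le_rfl
  exact ⟨W, h1, h2, fun j hj w => h3 j (by omega) hj w⟩

section Taylor

variable {H : Type*} [NormedAddCommGroup H] [InnerProductSpace ℝ H]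

open scoped InnerProductSpace

/-- `tW l w g = ⟨x_{w_l}, T_{w_{l-1}} ⋯ T_{w_0} g⟩`. -/
noncomputable def tW (T : ι → H →L[ℝ] H) (x : ι → H) : (l : ℕ) → (Fin (l + 1) → ι) → H → ℝ
  | 0, w, g => ⟪x (w 0), g⟫_ℝ
  | l + 1, w, g => tW T x l (Fin.tail w) (T (w 0) g)

theorem tW_cons (T : ι → H →L[ℝ] H) (x : ι → H) (l : ℕ) (i : ι) (w : Fin (l + 1) → ι) (g : H) :
    tW T x (l + 1) (Fin.cons i w) g = tW T x l w (T i g) := by
  rw [tW, Fin.cons_zero, Fin.tail_cons]

/-- The Taylor formula. `cl f` is the class of `f - E f`. -/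
theorem taylor (T : ι → H →L[ℝ] H) (x : ι → H) (E : MvPolynomial ι ℝ →ₗ[ℝ] ℝ)
    (cl : MvPolynomial ι ℝ →ₗ[ℝ] H) (hcl : cl 1 = 0)
    (hib : ∀ (f : MvPolynomial ι ℝ) (g : H), ⟪cl f, g⟫_ℝ =
      ∑ i, (E (pderiv i f) * ⟪x i, g⟫_ℝ + ⟪cl (pderiv i f), T i g⟫_ℝ))
    (b : ℕ) : ∀ (f : MvPolynomial ι ℝ) (_ : f.totalDegree ≤ b) (g : H),
    ⟪cl f, g⟫_ℝ = ∑ j ∈ Finset.range b, ∑ w : Fin (j + 1) → ι, E (dW (j + 1) w f) * tW T x j w g := by
  induction b with
  | zero =>
    intro f hf g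
    have h1 : f = (coeff 0 f) • (1 : MvPolynomial ι ℝ) := by
      rw [smul_eq_C_mul, mul_one]
      exact totalDegree_eq_zero_iff_eq_C.1 (Nat.le_zero.1 hf)
    rw [h1, map_smul, hcl, smul_zero, inner_zero_left]
    simp
  | succ b ih =>
    intro f hf g
    rw [hib, Finset.sum_range_succ', Finset.sum_add_distrib, add_comm]
    congr 1
    · simp_rw [fun i => ih (pderiv i f) (totalDegree_pderiv_le i f hf) (T i g)]
      rw [Finset.sum_comm]
      refine Finset.sum_congr rfl fun j _ => ?_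
      rw [← (Fin.consEquiv (fun _ : Fin (j + 2) => ι)).sum_comp, Fintype.sum_prod_type]
      refine Finset.sum_congr rfl fun i _ => Finset.sum_congr rfl fun w _ => ?_
      show _ = E (dW (j + 1 + 1) (Fin.cons i w) f) * tW T x (j + 1) (Fin.cons i w) g
      rw [dW_cons, tW_cons]
    · rw [← (Equiv.funUnique (Fin 1) ι).symm.sum_comp]
      refine Finset.sum_congr rfl fun i _ => ?_
      simp [dW, tW]

/-- From the inequality (P) for polynomials of degree `≤ l + 1` to the bound for symmetric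
coefficients. -/
theorem appell_bound (T : ι → H →L[ℝ] H) (x : ι → H) (E : MvPolynomial ι ℝ →ₗ[ℝ] ℝ)
    (hE : E 1 = 1) (cl : MvPolynomial ι ℝ →ₗ[ℝ] H) (hcl : cl 1 = 0)
    (hib : ∀ (f : MvPolynomial ι ℝ) (g : H), ⟪cl f, g⟫_ℝ =
      ∑ i, (E (pderiv i f) * ⟪x i, g⟫_ℝ + ⟪cl (pderiv i f), T i g⟫_ℝ))
    (l : ℕ) (p : ℕ → ℝ)
    (hP : ∀ f : MvPolynomial ι ℝ, f.totalDegree ≤ l + 1 →
      ‖cl f‖ ^ 2 ≤ ∑ j ∈ Finset.range (l + 1), p j * ∑ w : Fin (j + 1) → ι, E (dW (j + 1) w f) ^ 2)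
    (C : (Fin (l + 1) → ι) → ℝ) (hC : Sy (l + 1) C) (g : H) :
    (∑ w, C w * tW T x l w g) ^ 2 ≤ p l * (∑ w, C w ^ 2) * ‖g‖ ^ 2 := by
  obtain ⟨W, h1, h2, h3⟩ := appell_exists E hE (l + 1) C hC
  set F : ℝ := ((l + 1).factorial : ℝ) with hF
  have hFp : 0 < F := by positivity
  have hEC : ∀ c : ℝ, E (MvPolynomial.C c) = c := by
    intro c
    have : (MvPolynomial.C c : MvPolynomial ι ℝ) = c • 1 := by rw [smul_eq_C_mul, mul_one]
    rw [this, map_smul, hE, smul_eq_mul, mul_one]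
  have h4 : ⟪cl W, g⟫_ℝ = F * ∑ w, C w * tW T x l w g := by
    rw [taylor T x E cl hcl hib (l + 1) W h1 g, Finset.sum_range_succ, Finset.mul_sum]
    rw [Finset.sum_eq_zero, zero_add]
    · refine Finset.sum_congr rfl fun w _ => ?_
      rw [h2, hEC, mul_assoc]
    · intro j hj
      refine Finset.sum_eq_zero fun w _ => ?_
      rw [h3 (j + 1) (by have := Finset.mem_range.1 hj; omega) w, zero_mul]
  have h5 : ‖cl W‖ ^ 2 ≤ p l * (F ^ 2 * ∑ w, C w ^ 2) := by
    refine (hP W h1).trans_eq ?_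
    rw [Finset.sum_range_succ, Finset.sum_eq_zero, zero_add]
    · congr 1
      rw [Finset.mul_sum]
      refine Finset.sum_congr rfl fun w _ => ?_
      rw [h2, hEC, mul_pow]
    · intro j hj
      have : ∑ w : Fin (j + 1) → ι, E (dW (j + 1) w W) ^ 2 = 0 := by
        refine Finset.sum_eq_zero fun w _ => ?_
        rw [h3 (j + 1) (by have := Finset.mem_range.1 hj; omega) w]
        ring
      rw [this, mul_zero]
  have h6 : ⟪cl W, g⟫_ℝ ^ 2 ≤ ‖cl W‖ ^ 2 * ‖g‖ ^ 2 := by
    have := abs_real_inner_le_norm (cl W) g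
    rw [← mul_pow, ← sq_abs]
    gcongr
  have h7 : F ^ 2 * (∑ w, C w * tW T x l w g) ^ 2 ≤
      F ^ 2 * (p l * (∑ w, C w ^ 2) * ‖g‖ ^ 2) := by
    calc F ^ 2 * (∑ w, C w * tW T x l w g) ^ 2 = ⟪cl W, g⟫_ℝ ^ 2 := by rw [h4, mul_pow]
      _ ≤ ‖cl W‖ ^ 2 * ‖g‖ ^ 2 := h6
      _ ≤ (p l * (F ^ 2 * ∑ w, C w ^ 2)) * ‖g‖ ^ 2 := by gcongr
      _ = _ := by ring
  exact le_of_mul_le_mul_left h7 (by positivity)

/-- The base case: bounds for the words `tW` give (P). -/
theorem base_bound (T : ι → H →L[ℝ] H) (x : ι → H) (E : MvPolynomial ι ℝ →ₗ[ℝ] ℝ)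
    (cl : MvPolynomial ι ℝ →ₗ[ℝ] H) (hcl : cl 1 = 0)
    (hib : ∀ (f : MvPolynomial ι ℝ) (g : H), ⟪cl f, g⟫_ℝ =
      ∑ i, (E (pderiv i f) * ⟪x i, g⟫_ℝ + ⟪cl (pderiv i f), T i g⟫_ℝ))
    (b : ℕ) (B z δ : ℝ) (hB : 0 ≤ B) (hz : 0 ≤ z) (hδ : 0 < δ)
    (ht : ∀ j < b, ∀ g : H, ∑ w : Fin (j + 1) → ι, tW T x j w g ^ 2 ≤ B * z ^ j * ‖g‖ ^ 2)
    (f : MvPolynomial ι ℝ) (hf : f.totalDegree ≤ b) :
    ‖cl f‖ ^ 2 ≤ ∑ j ∈ Finset.range b, (B / δ * (1 + δ) ^ (j + 1) * z ^ j) *
      ∑ w : Fin (j + 1) → ι, E (dW (j + 1) w f) ^ 2 := by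
  set g := cl f with hg
  set q : ℕ → ℝ := fun j => ∑ w : Fin (j + 1) → ι, E (dW (j + 1) w f) ^ 2 with hq
  have hq0 : ∀ j, 0 ≤ q j := fun j => Finset.sum_nonneg fun w _ => sq_nonneg _
  -- each level
  have h1 : ∀ j ∈ Finset.range b, ∑ w : Fin (j + 1) → ι, E (dW (j + 1) w f) * tW T x j w g ≤
      √(q j * (B * z ^ j)) * ‖g‖ := by
    intro j hj
    have hcs := Finset.sum_mul_sq_le_sq_mul_sq Finset.univ
      (fun w : Fin (j + 1) → ι => E (dW (j + 1) w f)) (fun w => tW T x j w g)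
    have h2 : (∑ w : Fin (j + 1) → ι, E (dW (j + 1) w f) * tW T x j w g) ^ 2 ≤
        (√(q j * (B * z ^ j)) * ‖g‖) ^ 2 := by
      refine hcs.trans ?_
      rw [mul_pow, Real.sq_sqrt (by have := hq0 j; positivity), mul_assoc]
      exact mul_le_mul_of_nonneg_left (ht j (Finset.mem_range.1 hj) g) (hq0 j)
    exact le_of_sq_le_sq h2 (by positivity)
  have h2 : ‖g‖ ^ 2 ≤ (∑ j ∈ Finset.range b, √(q j * (B * z ^ j))) * ‖g‖ := by
    rw [Finset.sum_mul, ← real_inner_self_eq_norm_sq]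
    have h7 : ⟪g, g⟫_ℝ = ∑ j ∈ Finset.range b, ∑ w : Fin (j + 1) → ι,
        E (dW (j + 1) w f) * tW T x j w g := taylor T x E cl hcl hib b f hf g
    rw [h7]
    exact Finset.sum_le_sum h1
  have h3 : ‖g‖ ≤ ∑ j ∈ Finset.range b, √(q j * (B * z ^ j)) := by
    rcases (norm_nonneg g).eq_or_lt with h | h
    · rw [← h]; positivity
    · rw [sq] at h2
      exact le_of_mul_le_mul_right h2 h
  -- Cauchy-Schwarz with weights
  have h4 : ∀ n : ℕ, ∑ j ∈ Finset.range n, ((1 + δ) ^ (j + 1))⁻¹ ≤ 1 / δ := by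
    intro n
    have : ∑ j ∈ Finset.range n, ((1 + δ) ^ (j + 1))⁻¹ = (1 / δ) * (1 - ((1 + δ) ^ n)⁻¹) := by
      induction n with
      | zero => simp
      | succ n ih =>
        rw [Finset.sum_range_succ, ih]
        have : (1 + δ) ^ n ≠ 0 := by positivity
        have : (1 + δ) ≠ 0 := by positivity
        field_simp
        ring
    rw [this]
    have h5 : 0 ≤ ((1 + δ) ^ n)⁻¹ := by positivity
    have h6 : 0 ≤ 1 / δ := by positivity
    nlinarith
  have h5 : (∑ j ∈ Finset.range b, √(q j * (B * z ^ j))) ^ 2 ≤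
      (∑ j ∈ Finset.range b, ((1 + δ) ^ (j + 1))⁻¹) *
        ∑ j ∈ Finset.range b, (1 + δ) ^ (j + 1) * (q j * (B * z ^ j)) := by
    have := Finset.sum_mul_sq_le_sq_mul_sq (Finset.range b)
      (fun j => √((1 + δ) ^ (j + 1))⁻¹) (fun j => √((1 + δ) ^ (j + 1) * (q j * (B * z ^ j))))
    refine (le_of_eq ?_).trans (this.trans (le_of_eq ?_))
    · congr 1
      refine Finset.sum_congr rfl fun j _ => ?_
      rw [← Real.sqrt_mul (by positivity)]
      congr 1
      have : (1 + δ) ^ (j + 1) ≠ 0 := by positivity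
      field_simp
    · congr 1
      · refine Finset.sum_congr rfl fun j _ => ?_
        rw [Real.sq_sqrt (by positivity)]
      · refine Finset.sum_congr rfl fun j _ => ?_
        rw [Real.sq_sqrt (by have := hq0 j; positivity)]
  have h6 : 0 ≤ ∑ j ∈ Finset.range b, (1 + δ) ^ (j + 1) * (q j * (B * z ^ j)) :=
    Finset.sum_nonneg fun j _ => by have := hq0 j; positivity
  calc ‖g‖ ^ 2 ≤ (∑ j ∈ Finset.range b, √(q j * (B * z ^ j))) ^ 2 := by gcongr
    _ ≤ _ := h5
    _ ≤ (1 / δ) * ∑ j ∈ Finset.range b, (1 + δ) ^ (j + 1) * (q j * (B * z ^ j)) :=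
        mul_le_mul_of_nonneg_right (h4 b) h6
    _ = _ := by
        rw [Finset.mul_sum]
        refine Finset.sum_congr rfl fun j _ => ?_
        simp only [hq]
        ring

end Taylor

end Pool.Agent.Lib.MP_8d00da_gt.h65a
end

section

/-!
# Full KLS, parts (delta) and (epsilon): interface definitions

* `Rep V H`: what part (beta) delivers for a nice potential `V`;
* `KW κ M W`: the class `D²W ≥ κ (1 - Cov W)⁻¹`, `Cov W < 1`;
* `GP κ s`: growth bound `∑_{|I| = k} |T_I g|² ≤ 2 s^k |g|²` for the class `KW κ`;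
* `AP κ l m`: bound of the moments (Appell polynomials) of order `l` for the class `KW κ`.
-/

open scoped BigOperators InnerProductSpace

namespace Pool.Agent.Lib.MP_8d00da_gt.h28k

open h42k

/-- `T_{i1} (T_{i2} (... g))`. -/
def wd {ι H : Type*} [NormedAddCommGroup H] [InnerProductSpace ℝ H] (T : ι → H →L[ℝ] H) :
    List ι → H → H
  | [], g => g
  | i :: L, g => T i (wd T L g)

/-- `⟪x_{i0}, T_{i1} (T_{i2} (... g))⟫`. -/
noncomputable def xwd {ι H : Type*} [NormedAddCommGroup H] [InnerProductSpace ℝ H]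
    (T : ι → H →L[ℝ] H) (x : ι → H) : List ι → H → ℝ
  | [], _ => 0
  | i :: L, g => ⟪x i, wd T L g⟫_ℝ

/-- `∑_{|I| = k} |T_I g|²`. -/
noncomputable def aT {ι H : Type*} [Fintype ι] [NormedAddCommGroup H] [InnerProductSpace ℝ H]
    (T : ι → H →L[ℝ] H) (k : ℕ) (g : H) : ℝ :=
  ∑ I : Fin k → ι, ‖wd T (List.ofFn I) g‖ ^ 2

/-- Moment bound of order `l`. -/
def MomT {ι H : Type*} [Fintype ι] [NormedAddCommGroup H] [InnerProductSpace ℝ H]
    (T : ι → H →L[ℝ] H) (x : ι → H) (l : ℕ) (m : ℝ) : Prop :=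
  ∀ (C : (Fin l → ι) → ℝ), (∀ (σ : Equiv.Perm (Fin l)) (I : Fin l → ι), C (I ∘ σ) = C I) →
    ∀ g : H, (∑ I : Fin l → ι, C I * xwd T x (List.ofFn I) g) ^ 2
      ≤ m * (∑ I : Fin l → ι, C I ^ 2) * ‖g‖ ^ 2

/-- What part (beta) delivers for a nice potential `V`: a Hilbert space `H` of classes of functions
(`cl f` = class of `f - E f`, any value if `f` is not in `T0`), the operators
`T i : L φ ↦ ∂_i φ - E ∂_i φ` and the centred coordinates `x i`. -/
structure Rep {ι : Type} [Fintype ι] [DecidableEq ι] (V : (ι → ℝ) → ℝ) (H : Type)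
    [NormedAddCommGroup H] [InnerProductSpace ℝ H] where
  T : ι → H →L[ℝ] H
  x : ι → H
  cl : ((ι → ℝ) → ℝ) → H
  cl_add : ∀ f g, T0 f → T0 g → cl (fun x => f x + g x) = cl f + cl g
  cl_smul : ∀ (c : ℝ) f, T0 f → cl (fun x => c * f x) = c • cl f
  cl_one : cl (fun _ => 1) = 0
  nrm : ∀ f, T0 f → ‖cl f‖ ^ 2 = var V f
  ib : ∀ f, T1 f → ∀ g : H,
    ⟪cl f, g⟫_ℝ = ∑ i, (ex V (pd i f) * ⟪x i, g⟫_ℝ + ⟪cl (pd i f), T i g⟫_ℝ)
  c0 : CLe V 1 → ∀ g : H, ∑ i, ⟪x i, g⟫_ℝ ^ 2 ≤ ‖g‖ ^ 2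
  bound : ∀ κ M, Nice κ M V → ∀ g : H, κ * ∑ i, ‖T i g‖ ^ 2 ≤ ‖g‖ ^ 2
  chain : ∀ κ M, Nice κ M V → ∀ g : H, (∑ i, ‖T i g‖ ^ 2) ^ 2 ≤
    (‖g‖ ^ 2 - κ * ∑ i, ‖T i g‖ ^ 2) *
      ((∑ i, ∑ j, ‖T i (T j g) + T j (T i g)‖ ^ 2) / 4
        + (∑ i, ∑ j, (⟪x i, T j g⟫_ℝ + ⟪x j, T i g⟫_ℝ) ^ 2) / 4)

/-- The class `D²W ≥ κ (1 - Cov W)⁻¹`, `Cov W < 1` (`L Lᵀ = 1 - Cov W`, `L' = L⁻¹`). -/
def KW {ι : Type} [Fintype ι] [DecidableEq ι] (κ M : ℝ) (W : (ι → ℝ) → ℝ) : Prop :=
  Nice κ M W ∧ ∃ L L' : Matrix ι ι ℝ, L * L' = 1 ∧ L * L.transpose + CM W = 1 ∧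
    ∀ x u, κ * h42k.sq (L'.mulVec u) ≤ hs W x u

/-- Growth bound for the class `KW κ`. -/
def GP (κ s : ℝ) : Prop :=
  ∀ (ι : Type) [Fintype ι] [DecidableEq ι] (M : ℝ) (W : (ι → ℝ) → ℝ), KW κ M W →
    ∀ (H : Type) [NormedAddCommGroup H] [InnerProductSpace ℝ H] (R : Rep W H) (k : ℕ) (g : H),
      aT R.T k g ≤ 2 * s ^ k * ‖g‖ ^ 2

/-- Moment bound for the class `KW κ`. -/
def AP (κ : ℝ) (l : ℕ) (m : ℝ) : Prop :=
  ∀ (ι : Type) [Fintype ι] [DecidableEq ι] (M : ℝ) (W : (ι → ℝ) → ℝ), KW κ M W →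
    ∀ (H : Type) [NormedAddCommGroup H] [InnerProductSpace ℝ H] (R : Rep W H),
      MomT R.T R.x l m

end Pool.Agent.Lib.MP_8d00da_gt.h28k
end
end

section

section

/-!
# Polynomial growth, closure properties
-/

namespace Pool.Agent.Lib.MP_8d00da_gt.h42k

open MeasureTheory Set Filter
open scoped Topology NNReal ENNReal ContDiff

set_option linter.unusedSectionVars false
set_option linter.unusedVariables false

variable {ι : Type*} [Fintype ι] [DecidableEq ι]

variable {κ M : ℝ} {V : (ι → ℝ) → ℝ}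

variable {f g : (ι → ℝ) → ℝ}

theorem sq_nn (u : ι → ℝ) : 0 ≤ sq u := Finset.sum_nonneg fun i _ => sq_nonneg _

theorem one_le_sq (x : ι → ℝ) : 1 ≤ 1 + sq x := by
  have := sq_nn x
  linarith

theorem coord_sq_le (x : ι → ℝ) (i : ι) : x i ^ 2 ≤ sq x :=
  Finset.single_le_sum (f := fun i => x i ^ 2) (fun j _ => sq_nonneg _) (Finset.mem_univ i)

/-- Cauchy-Schwarz. -/
theorem dt_sq_le (u v : ι → ℝ) : dt u v ^ 2 ≤ sq u * sq v :=
  Finset.sum_mul_sq_le_sq_mul_sq _ _ _

theorem dt_comm (u v : ι → ℝ) : dt u v = dt v u :=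
  Finset.sum_congr rfl fun i _ => mul_comm _ _

theorem sq_add_le (u v : ι → ℝ) : sq (u + v) ≤ 2 * sq u + 2 * sq v := by
  unfold sq
  rw [Finset.mul_sum, Finset.mul_sum, ← Finset.sum_add_distrib]
  refine Finset.sum_le_sum fun i _ => ?_
  rw [Pi.add_apply]
  nlinarith [sq_nonneg (u i - v i)]

theorem sq_smul (c : ℝ) (u : ι → ℝ) : sq (fun i => c * u i) = c ^ 2 * sq u := by
  unfold sq
  rw [Finset.mul_sum]
  exact Finset.sum_congr rfl fun i _ => by ring

theorem sq_single (i : ι) (c : ℝ) : sq (Pi.single i c) = c ^ 2 := by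
  unfold sq
  rw [Finset.sum_eq_single i]
  · rw [Pi.single_eq_same]
  · intro j _ hj
    rw [Pi.single_eq_of_ne hj]
    norm_num
  · intro h
    exact absurd (Finset.mem_univ i) h

theorem continuous_sq : Continuous (sq : (ι → ℝ) → ℝ) := by
  unfold sq
  exact continuous_finsetSum _ fun i _ => (continuous_apply i).pow 2

theorem contDiff_sq {n : WithTop ℕ∞} : ContDiff ℝ n (sq : (ι → ℝ) → ℝ) := by
  unfold sq
  exact ContDiff.sum fun i _ => (contDiff_apply ℝ ℝ i).pow 2

theorem PG.const (c : ℝ) : PG (fun _ : ι → ℝ => c) := ⟨|c|, 0, fun x => by simp⟩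

theorem PG.sqf : PG (sq : (ι → ℝ) → ℝ) := ⟨1, 1, fun x => by
  rw [abs_of_nonneg (sq_nn x), one_mul, pow_one]
  linarith⟩

theorem PG.mono (hg : PG g) (h : ∀ x, |f x| ≤ |g x|) : PG f := by
  obtain ⟨C, k, hC⟩ := hg
  exact ⟨C, k, fun x => (h x).trans (hC x)⟩

theorem PG.coord (i : ι) : PG (fun x : ι → ℝ => x i) := ⟨1, 1, fun x => by
  rw [one_mul, pow_one]
  have h1 := coord_sq_le x i
  have h2 : |x i| ^ 2 = x i ^ 2 := sq_abs _
  nlinarith [sq_nonneg (|x i| - 1), abs_nonneg (x i)]⟩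

/-- A bound with nonnegative constant. -/
theorem PG.bound (hf : PG f) : ∃ (C : ℝ) (k : ℕ), 0 ≤ C ∧ ∀ x, |f x| ≤ C * (1 + sq x) ^ k := by
  obtain ⟨C, k, hC⟩ := hf
  refine ⟨C, k, ?_, hC⟩
  have h := (abs_nonneg _).trans (hC 0)
  have h1 : (0 : ℝ) < (1 + sq (0 : ι → ℝ)) ^ k := by
    have := one_le_sq (0 : ι → ℝ)
    positivity
  exact nonneg_of_mul_nonneg_left h h1

theorem PG.add (hf : PG f) (hg : PG g) : PG (fun x => f x + g x) := by
  obtain ⟨C, k, hC0, hC⟩ := hf.bound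
  obtain ⟨D, l, hD0, hD⟩ := hg.bound
  refine ⟨C + D, k + l, fun x => ?_⟩
  have h1 := one_le_sq x
  have e1 : (1 + sq x) ^ k ≤ (1 + sq x) ^ (k + l) := pow_le_pow_right₀ h1 (Nat.le_add_right _ _)
  have e2 : (1 + sq x) ^ l ≤ (1 + sq x) ^ (k + l) := pow_le_pow_right₀ h1 (Nat.le_add_left _ _)
  calc |f x + g x| ≤ |f x| + |g x| := abs_add_le _ _
    _ ≤ C * (1 + sq x) ^ k + D * (1 + sq x) ^ l := add_le_add (hC x) (hD x)
    _ ≤ C * (1 + sq x) ^ (k + l) + D * (1 + sq x) ^ (k + l) :=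
        add_le_add (mul_le_mul_of_nonneg_left e1 hC0) (mul_le_mul_of_nonneg_left e2 hD0)
    _ = (C + D) * (1 + sq x) ^ (k + l) := by ring

theorem PG.neg (hf : PG f) : PG (fun x => - f x) := hf.mono fun x => by rw [abs_neg]

theorem PG.sub (hf : PG f) (hg : PG g) : PG (fun x => f x - g x) := by
  have := hf.add hg.neg
  exact this.mono fun x => by rw [sub_eq_add_neg]

theorem PG.mul (hf : PG f) (hg : PG g) : PG (fun x => f x * g x) := by
  obtain ⟨C, k, hC0, hC⟩ := hf.bound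
  obtain ⟨D, l, hD0, hD⟩ := hg.bound
  refine ⟨C * D, k + l, fun x => ?_⟩
  rw [abs_mul]
  have h1 := one_le_sq x
  calc |f x| * |g x| ≤ (C * (1 + sq x) ^ k) * (D * (1 + sq x) ^ l) :=
        mul_le_mul (hC x) (hD x) (abs_nonneg _) (by positivity)
    _ = C * D * (1 + sq x) ^ (k + l) := by rw [pow_add]; ring

theorem PG.pow (hf : PG f) (k : ℕ) : PG (fun x => f x ^ k) := by
  induction k with
  | zero => simpa using PG.const (ι := ι) 1
  | succ k ih =>
    have := ih.mul hf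
    exact this.mono fun x => by rw [pow_succ]

theorem PG.abs (hf : PG f) : PG (fun x => |f x|) := hf.mono fun x => by rw [abs_abs]

theorem PG.sqrt (hf : PG f) : PG (fun x => √(f x)) := by
  refine ((PG.const (ι := ι) 1).add hf.abs).mono fun x => ?_
  rw [abs_of_nonneg (Real.sqrt_nonneg _), abs_of_nonneg (by positivity)]
  have h1 : √(f x) ≤ √(|f x|) := Real.sqrt_le_sqrt (le_abs_self _)
  have h2 : √(|f x|) ^ 2 = |f x| := Real.sq_sqrt (abs_nonneg _)
  nlinarith [sq_nonneg (√(|f x|) - 1), Real.sqrt_nonneg (|f x|)]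

theorem PG.sum {α : Type*} (S : Finset α) {F : α → (ι → ℝ) → ℝ} (hF : ∀ a ∈ S, PG (F a)) :
    PG (fun x => ∑ a ∈ S, F a x) := by
  classical
  induction S using Finset.induction_on with
  | empty => simpa using PG.const (ι := ι) 0
  | insert a s ha ih =>
    have h1 := (hF a (Finset.mem_insert_self a s)).add (ih fun b hb => hF b (Finset.mem_insert_of_mem hb))
    exact h1.mono fun x => by rw [Finset.sum_insert ha]

theorem PG.dtf (θ : ι → ℝ) : PG (dt θ) :=
  PG.sum Finset.univ fun i _ => (PG.const (θ i)).mul (PG.coord i)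

/-- A continuous function with compact support has polynomial growth. -/
theorem PG.of_compact (hc : Continuous f) (hs : HasCompactSupport f) : PG f := by
  obtain ⟨C, hC⟩ := hs.exists_bound_of_continuous hc
  exact ⟨C, 0, fun x => by
    rw [pow_zero, mul_one]
    exact hC x⟩

end Pool.Agent.Lib.MP_8d00da_gt.h42k
end

section

/-!
# T0, T1, test functions, calculus of partial derivatives
-/

namespace Pool.Agent.Lib.MP_8d00da_gt.h42k

open MeasureTheory Set Filter
open scoped Topology NNReal ENNReal ContDiff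

set_option linter.unusedSectionVars false
set_option linter.unusedVariables false

variable {ι : Type*} [Fintype ι] [DecidableEq ι]

variable {κ M : ℝ} {V : (ι → ℝ) → ℝ}

variable {f g φ : (ι → ℝ) → ℝ}

private theorem KA2_pd_of {f : (ι → ℝ) → ℝ} {f' : (ι → ℝ) →L[ℝ] ℝ} {x : ι → ℝ} {i : ι}
    (h : HasFDerivAt f f' x) : pd i f x = f' (Pi.single i 1) := by
  unfold pd
  rw [h.fderiv]

private theorem KA2_pdc {φ : (ι → ℝ) → ℝ} (hφ : Cc φ) (i : ι) : Cc (pd i φ) := by
  constructor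
  · have h : ContDiff ℝ ∞ (fderiv ℝ φ) := hφ.smooth.fderiv_right (by norm_cast)
    exact h.clm_apply contDiff_const
  · have h1 : HasCompactSupport (fderiv ℝ φ) := hφ.supp.fderiv ℝ
    exact h1.comp_left (g := fun L : (ι → ℝ) →L[ℝ] ℝ => L (Pi.single i 1)) rfl

theorem T0.const (c : ℝ) : T0 (fun _ : ι → ℝ => c) :=
  ⟨measurable_const, PG.const c⟩

theorem T0.coord (i : ι) : T0 (fun x : ι → ℝ => x i) :=
  ⟨measurable_pi_apply i, PG.coord i⟩

theorem T0.sqf : T0 (sq : (ι → ℝ) → ℝ) :=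
  ⟨continuous_sq.measurable, PG.sqf⟩

theorem T0.dtf (θ : ι → ℝ) : T0 (dt θ) := by
  refine ⟨?_, PG.dtf θ⟩
  unfold dt
  fun_prop

theorem T0.add (hf : T0 f) (hg : T0 g) : T0 (fun x => f x + g x) :=
  ⟨hf.meas.add hg.meas, hf.pg.add hg.pg⟩

theorem T0.sub (hf : T0 f) (hg : T0 g) : T0 (fun x => f x - g x) :=
  ⟨hf.meas.sub hg.meas, hf.pg.sub hg.pg⟩

theorem T0.neg (hf : T0 f) : T0 (fun x => - f x) :=
  ⟨hf.meas.neg, hf.pg.neg⟩

theorem T0.mul (hf : T0 f) (hg : T0 g) : T0 (fun x => f x * g x) :=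
  ⟨hf.meas.mul hg.meas, hf.pg.mul hg.pg⟩

theorem T0.pow (hf : T0 f) (k : ℕ) : T0 (fun x => f x ^ k) :=
  ⟨hf.meas.pow_const k, hf.pg.pow k⟩

theorem T0.abs (hf : T0 f) : T0 (fun x => |f x|) :=
  ⟨continuous_abs.measurable.comp hf.meas, hf.pg.abs⟩

theorem T0.sqrt (hf : T0 f) : T0 (fun x => √(f x)) :=
  ⟨hf.meas.sqrt, hf.pg.sqrt⟩

theorem T0.sum {α : Type*} (S : Finset α) {F : α → (ι → ℝ) → ℝ} (hF : ∀ a ∈ S, T0 (F a)) :
    T0 (fun x => ∑ a ∈ S, F a x) :=
  ⟨Finset.measurable_fun_sum S fun a ha => (hF a ha).meas, PG.sum S fun a ha => (hF a ha).pg⟩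

theorem T0.ind {S : Set (ι → ℝ)} (hS : MeasurableSet S) (hf : T0 f) : T0 (S.indicator f) := by
  refine ⟨hf.meas.indicator hS, hf.pg.mono fun x => ?_⟩
  by_cases hx : x ∈ S
  · rw [Set.indicator_of_mem hx]
  · rw [Set.indicator_of_notMem hx, abs_zero]
    exact abs_nonneg _

theorem T0.cmul (c : ℝ) (hf : T0 f) : T0 (fun x => c * f x) :=
  (T0.const c).mul hf

theorem T1.t0 (hf : T1 f) : T0 f :=
  ⟨hf.c1.continuous.measurable, hf.pg⟩

theorem T1.pdt0 (hf : T1 f) (i : ι) : T0 (pd i f) := by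
  refine ⟨?_, hf.pgd i⟩
  have h1 : Continuous (pd i f) := by
    have h2 : Continuous (fderiv ℝ f) := hf.c1.continuous_fderiv (by norm_num)
    exact h2.clm_apply continuous_const
  exact h1.measurable

theorem T1.gst0 (hf : T1 f) : T0 (gs f) :=
  T0.sum Finset.univ fun i _ => (hf.pdt0 i).pow 2

theorem pd_const (c : ℝ) (i : ι) (x : ι → ℝ) : pd i (fun _ => c) x = 0 := by
  unfold pd
  simp

theorem pd_coord (i j : ι) (x : ι → ℝ) : pd i (fun x => x j) x = if i = j then 1 else 0 := by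
  rw [KA2_pd_of (hasFDerivAt_apply j x), ContinuousLinearMap.proj_apply, Pi.single_apply]
  by_cases h : i = j
  · rw [if_pos h, if_pos h.symm]
  · rw [if_neg h, if_neg fun h' => h h'.symm]

theorem pd_dt (θ : ι → ℝ) (i : ι) (x : ι → ℝ) : pd i (dt θ) x = θ i := by
  have h : HasFDerivAt (fun x : ι → ℝ => ∑ j, θ j * x j)
      (∑ j, θ j • (ContinuousLinearMap.proj j : (ι → ℝ) →L[ℝ] ℝ)) x :=
    HasFDerivAt.fun_sum fun j _ => (hasFDerivAt_apply j x).const_mul (θ j)
  have h2 : pd i (dt θ) x = (∑ j, θ j • (ContinuousLinearMap.proj j : (ι → ℝ) →L[ℝ] ℝ)) (Pi.single i 1) :=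
    KA2_pd_of h
  rw [h2, _root_.sum_apply, Finset.sum_eq_single i]
  · simp
  · intro j _ hj
    simp [hj]
  · intro h
    exact absurd (Finset.mem_univ i) h

theorem pd_sq (i : ι) (x : ι → ℝ) : pd i sq x = 2 * x i := by
  have h : HasFDerivAt (fun x : ι → ℝ => ∑ j, x j ^ 2)
      (∑ j, (2 * x j) • (ContinuousLinearMap.proj j : (ι → ℝ) →L[ℝ] ℝ)) x := by
    refine HasFDerivAt.fun_sum fun j _ => ?_
    have h3 := (hasFDerivAt_apply (𝕜 := ℝ) j x).mul (hasFDerivAt_apply (𝕜 := ℝ) j x)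
    have h4 : (fun y : ι → ℝ => y j ^ 2) = fun y => y j * y j := by
      funext y
      rw [_root_.sq]
    rw [h4]
    refine h3.congr_fderiv ?_
    ext v
    simp
    ring
  have h2 : pd i sq x = (∑ j, (2 * x j) • (ContinuousLinearMap.proj j : (ι → ℝ) →L[ℝ] ℝ)) (Pi.single i 1) :=
    KA2_pd_of h
  rw [h2, _root_.sum_apply, Finset.sum_eq_single i]
  · simp
  · intro j _ hj
    simp [hj]
  · intro h
    exact absurd (Finset.mem_univ i) h

theorem pd_add (hf : Differentiable ℝ f) (hg : Differentiable ℝ g) (i : ι) (x : ι → ℝ) :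
    pd i (fun x => f x + g x) x = pd i f x + pd i g x :=
  KA2_pd_of ((hf x).hasFDerivAt.add (hg x).hasFDerivAt)

theorem pd_sub (hf : Differentiable ℝ f) (hg : Differentiable ℝ g) (i : ι) (x : ι → ℝ) :
    pd i (fun x => f x - g x) x = pd i f x - pd i g x :=
  KA2_pd_of ((hf x).hasFDerivAt.sub (hg x).hasFDerivAt)

theorem pd_cmul (hf : Differentiable ℝ f) (c : ℝ) (i : ι) (x : ι → ℝ) :
    pd i (fun x => c * f x) x = c * pd i f x :=
  KA2_pd_of ((hf x).hasFDerivAt.const_mul c)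

theorem pd_mul (hf : Differentiable ℝ f) (hg : Differentiable ℝ g) (i : ι) (x : ι → ℝ) :
    pd i (fun x => f x * g x) x = pd i f x * g x + f x * pd i g x := by
  have h : HasFDerivAt (fun x => f x * g x) _ x := (hf x).hasFDerivAt.mul (hg x).hasFDerivAt
  rw [KA2_pd_of h]
  unfold pd
  simp
  ring

theorem pd_sum {α : Type*} (S : Finset α) {F : α → (ι → ℝ) → ℝ}
    (hF : ∀ a ∈ S, Differentiable ℝ (F a)) (i : ι) (x : ι → ℝ) :
    pd i (fun x => ∑ a ∈ S, F a x) x = ∑ a ∈ S, pd i (F a) x := by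
  rw [KA2_pd_of (HasFDerivAt.fun_sum fun a ha => (hF a ha x).hasFDerivAt), _root_.sum_apply]
  rfl

/-- The derivative in the direction `u` is `∑ u_i ∂_i f`. -/
theorem fderiv_eq_gd (f : (ι → ℝ) → ℝ) (x u : ι → ℝ) : fderiv ℝ f x u = gd f x u := by
  unfold gd pd
  conv_lhs => rw [← Finset.univ_sum_single u]
  rw [map_sum]
  refine Finset.sum_congr rfl fun i _ => ?_
  have h : (Pi.single i (u i) : ι → ℝ) = u i • Pi.single i (1 : ℝ) := by
    ext j
    by_cases hj : j = i
    · subst hj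
      simp
    · simp [hj]
  rw [h, map_smul, smul_eq_mul]

theorem contDiff_pd {n : ℕ} (hf : ContDiff ℝ (n + 1 : ℕ) f) (i : ι) : ContDiff ℝ n (pd i f) := by
  have h : ContDiff ℝ n (fderiv ℝ f) := hf.fderiv_right (by norm_cast)
  exact h.clm_apply contDiff_const

theorem pd_comm (hf : ContDiff ℝ 2 f) (i j : ι) (x : ι → ℝ) :
    pd i (pd j f) x = pd j (pd i f) x := by
  have h1 : ∀ (k : ι) (l : ι), pd k (pd l f) x =
      fderiv ℝ (fderiv ℝ f) x (Pi.single k 1) (Pi.single l 1) := by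
    intro k l
    have h2 : DifferentiableAt ℝ (fderiv ℝ f) x :=
      ((hf.fderiv_right (m := 1) (by norm_num)).differentiable (by norm_num)) x
    have h3 : HasFDerivAt (pd l f)
        ((ContinuousLinearMap.apply ℝ ℝ (Pi.single l (1 : ℝ) : ι → ℝ)).comp (fderiv ℝ (fderiv ℝ f) x)) x :=
      (ContinuousLinearMap.apply ℝ ℝ (Pi.single l (1 : ℝ) : ι → ℝ)).hasFDerivAt.comp x h2.hasFDerivAt
    rw [KA2_pd_of h3]
    rfl
  rw [h1, h1]
  have h4 : IsSymmSndFDerivAt ℝ f x := (hf.contDiffAt).isSymmSndFDerivAt (by simp)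
  exact h4.eq _ _

theorem gd_sq_le (f : (ι → ℝ) → ℝ) (x u : ι → ℝ) : gd f x u ^ 2 ≤ gs f x * sq u := by
  have h := dt_sq_le u (fun i => pd i f x)
  have h1 : sq (fun i => pd i f x) = gs f x := rfl
  have h2 : dt u (fun i => pd i f x) = gd f x u := rfl
  rw [h1, h2] at h
  linarith

theorem T1.const (c : ℝ) : T1 (fun _ : ι → ℝ => c) := by
  refine ⟨contDiff_const, PG.const c, fun i => ?_⟩
  have h : pd i (fun _ : ι → ℝ => c) = fun _ => 0 := funext fun x => pd_const c i x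
  rw [h]
  exact PG.const 0

theorem T1.coord (i : ι) : T1 (fun x : ι → ℝ => x i) := by
  refine ⟨contDiff_apply ℝ ℝ i, PG.coord i, fun j => ?_⟩
  have h : pd j (fun x : ι → ℝ => x i) = fun _ => if j = i then 1 else 0 :=
    funext fun x => pd_coord j i x
  rw [h]
  exact PG.const _

theorem T1.sqf : T1 (sq : (ι → ℝ) → ℝ) := by
  refine ⟨contDiff_sq, PG.sqf, fun i => ?_⟩
  have h : pd i (sq : (ι → ℝ) → ℝ) = fun x => 2 * x i := funext fun x => pd_sq i x
  rw [h]
  exact (PG.const 2).mul (PG.coord i)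

theorem T1.dtf (θ : ι → ℝ) : T1 (dt θ) := by
  refine ⟨?_, PG.dtf θ, fun i => ?_⟩
  · unfold dt
    exact ContDiff.sum fun j _ => contDiff_const.mul (contDiff_apply ℝ ℝ j)
  · have h : pd i (dt θ) = fun _ => θ i := funext fun x => pd_dt θ i x
    rw [h]
    exact PG.const _

theorem T1.add (hf : T1 f) (hg : T1 g) : T1 (fun x => f x + g x) := by
  refine ⟨hf.c1.add hg.c1, hf.pg.add hg.pg, fun i => ?_⟩
  have h : pd i (fun x => f x + g x) = fun x => pd i f x + pd i g x :=
    funext fun x => pd_add (hf.c1.differentiable (by norm_num)) (hg.c1.differentiable (by norm_num)) i x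
  rw [h]
  exact (hf.pgd i).add (hg.pgd i)

theorem T1.sub (hf : T1 f) (hg : T1 g) : T1 (fun x => f x - g x) := by
  refine ⟨hf.c1.sub hg.c1, hf.pg.sub hg.pg, fun i => ?_⟩
  have h : pd i (fun x => f x - g x) = fun x => pd i f x - pd i g x :=
    funext fun x => pd_sub (hf.c1.differentiable (by norm_num)) (hg.c1.differentiable (by norm_num)) i x
  rw [h]
  exact (hf.pgd i).sub (hg.pgd i)

theorem T1.cmul (c : ℝ) (hf : T1 f) : T1 (fun x => c * f x) := by
  refine ⟨contDiff_const.mul hf.c1, (PG.const c).mul hf.pg, fun i => ?_⟩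
  have h : pd i (fun x => c * f x) = fun x => c * pd i f x :=
    funext fun x => pd_cmul (hf.c1.differentiable (by norm_num)) c i x
  rw [h]
  exact (PG.const c).mul (hf.pgd i)

theorem T1.mul (hf : T1 f) (hg : T1 g) : T1 (fun x => f x * g x) := by
  refine ⟨hf.c1.mul hg.c1, hf.pg.mul hg.pg, fun i => ?_⟩
  have h : pd i (fun x => f x * g x) = fun x => pd i f x * g x + f x * pd i g x :=
    funext fun x => pd_mul (hf.c1.differentiable (by norm_num)) (hg.c1.differentiable (by norm_num)) i x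
  rw [h]
  exact ((hf.pgd i).mul hg.pg).add (hf.pg.mul (hg.pgd i))

theorem T1.sum {α : Type*} (S : Finset α) {F : α → (ι → ℝ) → ℝ} (hF : ∀ a ∈ S, T1 (F a)) :
    T1 (fun x => ∑ a ∈ S, F a x) := by
  refine ⟨ContDiff.sum fun a ha => (hF a ha).c1, PG.sum S fun a ha => (hF a ha).pg, fun i => ?_⟩
  have h : pd i (fun x => ∑ a ∈ S, F a x) = fun x => ∑ a ∈ S, pd i (F a) x :=
    funext fun x => pd_sum S (fun a ha => (hF a ha).c1.differentiable (by norm_num)) i x
  rw [h]
  exact PG.sum S fun a ha => (hF a ha).pgd i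

theorem Cc.t1 (hφ : Cc φ) : T1 φ :=
  ⟨hφ.smooth.of_le (by norm_cast), PG.of_compact hφ.smooth.continuous hφ.supp,
    fun i => PG.of_compact (KA2_pdc hφ i).smooth.continuous (KA2_pdc hφ i).supp⟩

theorem Cc.pdc (hφ : Cc φ) (i : ι) : Cc (pd i φ) :=
  KA2_pdc hφ i

theorem Cc.hqt0 (hφ : Cc φ) : T0 (hq φ) :=
  T0.sum Finset.univ fun i _ => T0.sum Finset.univ fun j _ => ((hφ.pdc j).t1.pdt0 i).pow 2

end Pool.Agent.Lib.MP_8d00da_gt.h42k
end

section

/-!
# Growth of potentials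
-/

namespace Pool.Agent.Lib.MP_8d00da_gt.h42k

open MeasureTheory Set Filter
open scoped Topology NNReal ENNReal ContDiff

set_option linter.unusedSectionVars false
set_option linter.unusedVariables false

variable {ι : Type*} [Fintype ι] [DecidableEq ι]

variable {κ M : ℝ} {V : (ι → ℝ) → ℝ}

theorem Nice.comm (H : Nice κ M V) (i j : ι) (x : ι → ℝ) :
    pd i (pd j V) x = pd j (pd i V) x := pd_comm H.c2 i j x

theorem Nice.mono (H : Nice κ M V) {κ' M' : ℝ} (h0 : 0 < κ') (h1 : κ' ≤ κ) (h2 : M ≤ M') :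
    Nice κ' M' V :=
  ⟨h0, H.c2, fun x u => (mul_le_mul_of_nonneg_right h1 (sq_nn u)).trans (H.lo x u),
    fun x u => (H.hi x u).trans (mul_le_mul_of_nonneg_right h2 (sq_nn u))⟩

private theorem KA3_line {f : (ι → ℝ) → ℝ} (hf : Differentiable ℝ f) (x u : ι → ℝ) (s : ℝ) :
    HasDerivAt (fun r : ℝ => f (x + r • u)) (gd f (x + s • u) u) s := by
  have h1 : HasDerivAt (fun r : ℝ => x + r • u) u s := by
    have := ((hasDerivAt_id s).smul_const u).const_add x
    simpa using this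
  have h2 : HasFDerivAt f (fderiv ℝ f (x + s • u)) (x + s • u) :=
    (hf (x + s • u)).hasFDerivAt
  have h3 := h2.comp_hasDerivAt s h1
  rw [fderiv_eq_gd] at h3
  exact h3

private theorem KA3_c1 {f : (ι → ℝ) → ℝ} (hf : ContDiff ℝ 2 f) (i : ι) :
    ContDiff ℝ 1 (pd i f) := by
  have h : ContDiff ℝ ((1 + 1 : ℕ) : WithTop ℕ∞) f := by
    have e : (((1 + 1 : ℕ) : ℕ) : WithTop ℕ∞) = 2 := by norm_num
    rw [e]
    exact hf
  have := contDiff_pd h i
  simpa using this

/-- The Hessian form is the second derivative along lines. -/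
theorem hs_line {f : (ι → ℝ) → ℝ} (hf : ContDiff ℝ 2 f) (x u : ι → ℝ) (s : ℝ) :
    HasDerivAt (fun r : ℝ => gd f (x + r • u) u) (hs f (x + s • u) u) s ∧
    HasDerivAt (fun r : ℝ => f (x + r • u)) (gd f (x + s • u) u) s := by
  refine ⟨?_, KA3_line (hf.differentiable (by norm_num)) x u s⟩
  have h1 : ∀ i ∈ (Finset.univ : Finset ι), HasDerivAt (fun r : ℝ => u i * pd i f (x + r • u))
      (u i * gd (pd i f) (x + s • u) u) s := fun i _ =>
    (KA3_line ((KA3_c1 hf i).differentiable (by norm_num)) x u s).const_mul (u i)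
  have h2 := HasDerivAt.fun_sum h1
  have e : (∑ i, u i * gd (pd i f) (x + s • u) u) = hs f (x + s • u) u := by
    unfold hs gd
    refine Finset.sum_congr rfl fun i _ => ?_
    rw [Finset.mul_sum]
    refine Finset.sum_congr rfl fun j _ => ?_
    rw [pd_comm hf j i]
    ring
  rw [e] at h2
  exact h2

private theorem KA3_one {g g1 g2 : ℝ → ℝ} {c : ℝ} (h1 : ∀ s, HasDerivAt g (g1 s) s)
    (h2 : ∀ s, HasDerivAt g1 (g2 s) s) (h : ∀ s, c ≤ g2 s) :
    g 0 + g1 0 + c / 2 ≤ g 1 ∧ c ≤ g1 1 - g1 0 := by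
  have hm : ∀ r, 0 ≤ r → 0 ≤ g1 r - g1 0 - c * r := by
    intro r hr
    have hd : ∀ s, HasDerivAt (fun s => g1 s - c * s) (g2 s - c) s := by
      intro s
      have := (h2 s).fun_sub ((hasDerivAt_id' s).const_mul c)
      rw [mul_one] at this
      exact this
    have hmono : Monotone (fun s => g1 s - c * s) := by
      apply monotone_of_deriv_nonneg (fun s => (hd s).differentiableAt)
      intro s
      rw [(hd s).deriv]
      linarith [h s]
    have := hmono hr
    simp only at this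
    linarith
  constructor
  · have hd : ∀ s, HasDerivAt (fun s => g s - g1 0 * s - c / 2 * s ^ 2) (g1 s - g1 0 - c * s) s := by
      intro s
      have := ((h1 s).fun_sub ((hasDerivAt_id' s).const_mul (g1 0))).fun_sub
        ((hasDerivAt_pow 2 s).const_mul (c / 2))
      have e : g1 s - g1 0 - c * s = g1 s - g1 0 * 1 - c / 2 * (((2 : ℕ) : ℝ) * s ^ (2 - 1)) := by
        norm_num
        ring
      rw [e]
      exact this
    have hmono : MonotoneOn (fun s => g s - g1 0 * s - c / 2 * s ^ 2) (Icc 0 1) := by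
      apply monotoneOn_of_deriv_nonneg (convex_Icc 0 1)
      · exact fun s _ => (hd s).continuousAt.continuousWithinAt
      · exact fun s _ => (hd s).differentiableAt.differentiableWithinAt
      · intro s hs
        rw [interior_Icc] at hs
        rw [(hd s).deriv]
        exact hm s hs.1.le
    have := hmono (left_mem_Icc.2 zero_le_one) (right_mem_Icc.2 zero_le_one) zero_le_one
    simp only at this
    linarith
  · have := hm 1 zero_le_one
    linarith

theorem Nice.lower (H : Nice κ M V) (x u : ι → ℝ) :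
    V x + gd V x u + κ / 2 * sq u ≤ V (x + u) := by
  have := (KA3_one (fun s => (hs_line H.c2 x u s).2) (fun s => (hs_line H.c2 x u s).1)
    (fun s => H.lo (x + s • u) u)).1
  simp only [zero_smul, add_zero, one_smul] at this
  linarith

theorem Nice.upper (H : Nice κ M V) (x u : ι → ℝ) :
    V (x + u) ≤ V x + gd V x u + M / 2 * sq u := by
  have := (KA3_one (fun s => (hs_line H.c2 x u s).2.neg) (fun s => (hs_line H.c2 x u s).1.neg)
    (c := - (M * sq u)) (fun s => neg_le_neg (H.hi (x + s • u) u))).1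
  simp only [Pi.neg_apply, zero_smul, add_zero, one_smul] at this
  linarith

/-- `κ |u|² ≤ (∇V(x+u) - ∇V(x)) · u`. -/
theorem Nice.mono_grad (H : Nice κ M V) (x u : ι → ℝ) :
    κ * sq u ≤ gd V (x + u) u - gd V x u := by
  have := (KA3_one (fun s => (hs_line H.c2 x u s).2) (fun s => (hs_line H.c2 x u s).1)
    (fun s => H.lo (x + s • u) u)).2
  simp only [zero_smul, add_zero, one_smul] at this
  exact this

private theorem Nice.KA3_hsnn (H : Nice κ M V) (x u : ι → ℝ) : 0 ≤ hs V x u :=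
  (mul_nonneg H.kpos.le (sq_nn u)).trans (H.lo x u)

/-- The Hessian is a symmetric matrix with `0 ≤ D²V ≤ M`, so its entries and operator norm are at
most `M`: `(D²V[u,v])² ≤ D²V[u,u] D²V[v,v]` (Cauchy-Schwarz for the positive semidefinite form). -/
theorem Nice.hess_cs (H : Nice κ M V) (x u v : ι → ℝ) :
    (∑ i, ∑ j, u i * v j * pd i (pd j V) x) ^ 2 ≤ hs V x u * hs V x v := by
  set B : ℝ := ∑ i, ∑ j, u i * v j * pd i (pd j V) x with hB
  have hB' : ∑ i, ∑ j, v i * u j * pd i (pd j V) x = B := by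
    rw [hB, Finset.sum_comm]
    refine Finset.sum_congr rfl fun i _ => Finset.sum_congr rfl fun j _ => ?_
    rw [H.comm j i]
    ring
  have h1 : ∀ t : ℝ, 0 ≤ hs V x v * (t * t) + (2 * B) * t + hs V x u := by
    intro t
    have h2 := H.KA3_hsnn x (u + t • v)
    have h3 : hs V x (u + t • v) = hs V x v * (t * t) + (2 * B) * t + hs V x u := by
      have e : hs V x (u + t • v) = hs V x v * (t * t) + (B + ∑ i, ∑ j, v i * u j * pd i (pd j V) x) * t
          + hs V x u := by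
        rw [hB]
        unfold hs
        rw [← Finset.sum_add_distrib]
        simp only [Finset.sum_mul, ← Finset.sum_add_distrib]
        refine Finset.sum_congr rfl fun i _ => ?_
        refine Finset.sum_congr rfl fun j _ => ?_
        simp only [Pi.add_apply, Pi.smul_apply, smul_eq_mul]
        ring
      rw [e, hB']
      ring
    rw [← h3]
    exact h2
  have h4 := discrim_le_zero h1
  unfold discrim at h4
  nlinarith [h4]

private theorem KA3_hs_single (V : (ι → ℝ) → ℝ) (x : ι → ℝ) (i j : ι) :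
    ∑ a, ∑ b, (Pi.single i (1 : ℝ) : ι → ℝ) a * (Pi.single j (1 : ℝ) : ι → ℝ) b *
      pd a (pd b V) x = pd i (pd j V) x := by
  rw [Finset.sum_eq_single i]
  · rw [Finset.sum_eq_single j]
    · simp
    · intro b _ hb
      rw [Pi.single_eq_of_ne hb]
      ring
    · intro h
      exact absurd (Finset.mem_univ j) h
  · intro a _ ha
    refine Finset.sum_eq_zero fun b _ => ?_
    rw [Pi.single_eq_of_ne ha]
    ring
  · intro h
    exact absurd (Finset.mem_univ i) h

private theorem Nice.KA3_diag (H : Nice κ M V) (x : ι → ℝ) (i : ι) :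
    κ ≤ hs V x (Pi.single i 1) ∧ hs V x (Pi.single i 1) ≤ M := by
  have h1 := H.lo x (Pi.single i 1)
  have h2 := H.hi x (Pi.single i 1)
  rw [sq_single] at h1 h2
  constructor <;> linarith

theorem Nice.hess_entry (H : Nice κ M V) (x : ι → ℝ) (i j : ι) : |pd i (pd j V) x| ≤ M := by
  have h1 := H.hess_cs x (Pi.single i 1) (Pi.single j 1)
  rw [KA3_hs_single] at h1
  have h2 := H.KA3_diag x i
  have h3 := H.KA3_diag x j
  have hk := H.kpos
  have hM : 0 ≤ M := by linarith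
  apply abs_le_of_sq_le_sq _ hM
  refine h1.trans ?_
  rw [pow_two]
  exact mul_le_mul h2.2 h3.2 (by linarith) hM

theorem Nice.Mpos [Nonempty ι] (H : Nice κ M V) : κ ≤ M := by
  obtain ⟨i⟩ := ‹Nonempty ι›
  have h2 := H.KA3_diag 0 i
  linarith

/-- `|∂_i V(x) - ∂_i V(y)| ≤ M ∑ |x_j - y_j|`. -/
theorem Nice.pd_lip (H : Nice κ M V) (x y : ι → ℝ) (i : ι) :
    |pd i V x - pd i V y| ≤ M * ∑ j, |x j - y j| := by
  have hd : ∀ s, HasDerivAt (fun r : ℝ => pd i V (y + r • (x - y)))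
      (gd (pd i V) (y + s • (x - y)) (x - y)) s := fun s =>
    KA3_line ((KA3_c1 H.c2 i).differentiable (by norm_num)) y (x - y) s
  obtain ⟨c, -, hc⟩ := exists_hasDerivAt_eq_slope (fun r : ℝ => pd i V (y + r • (x - y)))
    (fun s => gd (pd i V) (y + s • (x - y)) (x - y)) zero_lt_one
    (fun s _ => (hd s).continuousAt.continuousWithinAt) (fun s _ => hd s)
  simp only [one_smul, zero_smul, add_zero, add_sub_cancel, sub_zero, div_one] at hc
  rw [← hc]
  unfold gd
  rw [Finset.mul_sum]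
  refine (Finset.abs_sum_le_sum_abs _ _).trans (Finset.sum_le_sum fun j _ => ?_)
  rw [abs_mul, mul_comm, Pi.sub_apply]
  exact mul_le_mul_of_nonneg_right (H.hess_entry _ j i) (abs_nonneg _)

private theorem Nice.KA3_pg1 (H : Nice κ M V) (i : ι) : PG (pd i V) := by
  have h : PG (fun x : ι → ℝ => |pd i V 0| + M * ∑ j, |x j|) :=
    (PG.const _).add ((PG.const M).mul (PG.sum _ fun j _ => (PG.coord j).abs))
  refine h.mono fun x => ?_
  refine le_trans ?_ (le_abs_self _)
  have h1 := H.pd_lip x 0 i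
  simp only [Pi.zero_apply, sub_zero] at h1
  have h2 := abs_sub_abs_le_abs_sub (pd i V x) (pd i V 0)
  linarith

private theorem Nice.KA3_pg0 (H : Nice κ M V) : PG V := by
  have h : PG (fun x : ι → ℝ => |V 0| + (∑ i, |x i * pd i V 0| + (κ + |M|) * sq x)) :=
    (PG.const _).add ((PG.sum _ fun j _ => ((PG.coord j).mul (PG.const _)).abs).add
      ((PG.const (κ + |M|)).mul PG.sqf))
  refine h.mono fun x => ?_
  refine le_trans ?_ (le_abs_self _)
  have h1 := H.lower 0 x
  have h2 := H.upper 0 x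
  rw [zero_add] at h1 h2
  have h3 : |gd V 0 x| ≤ ∑ i, |x i * pd i V 0| := Finset.abs_sum_le_sum_abs _ _
  have h4 := sq_nn x
  have h5 := abs_le.1 h3
  have h6 := abs_le.1 (le_refl |V 0|)
  have h7 : M * sq x ≤ |M| * sq x := mul_le_mul_of_nonneg_right (le_abs_self M) h4
  have h8 : 0 ≤ κ * sq x := mul_nonneg H.kpos.le h4
  have h9 : 0 ≤ |M| * sq x := mul_nonneg (abs_nonneg M) h4
  rw [abs_le]
  constructor
  · nlinarith
  · nlinarith

theorem Nice.t1 (H : Nice κ M V) : T1 V :=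
  ⟨H.c2.of_le (by norm_num), H.KA3_pg0, fun i => H.KA3_pg1 i⟩

theorem Nice.pdt1 (H : Nice κ M V) (i : ι) : T1 (pd i V) :=
  ⟨KA3_c1 H.c2 i, H.KA3_pg1 i, fun j => (PG.const M).mono fun x =>
    (H.hess_entry x j i).trans (le_abs_self M)⟩

private theorem Nice.KA3_LLt1 (H : Nice κ M V) {φ : (ι → ℝ) → ℝ} (hφ : Cc φ) : T1 (LL V φ) := by
  have h : T1 (fun x => ∑ i, (pd i V x * pd i φ x - pd i (pd i φ) x)) :=
    T1.sum _ fun i _ => ((H.pdt1 i).mul (hφ.pdc i).t1).sub ((hφ.pdc i).pdc i).t1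
  exact h

theorem Nice.LLt0 (H : Nice κ M V) {φ : (ι → ℝ) → ℝ} (hφ : Cc φ) : T0 (LL V φ) :=
  (H.KA3_LLt1 hφ).t0

/-- `L φ` is `C¹` with compact support. -/
theorem Nice.LLc1 (H : Nice κ M V) {φ : (ι → ℝ) → ℝ} (hφ : Cc φ) :
    ContDiff ℝ 1 (LL V φ) ∧ HasCompactSupport (LL V φ) ∧ T1 (LL V φ) := by
  refine ⟨(H.KA3_LLt1 hφ).c1, ?_, H.KA3_LLt1 hφ⟩
  have hK : IsCompact (⋃ i, (tsupport (pd i φ) ∪ tsupport (pd i (pd i φ)))) :=
    isCompact_iUnion fun i => (hφ.pdc i).supp.isCompact.union ((hφ.pdc i).pdc i).supp.isCompact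
  refine HasCompactSupport.intro hK fun x hx => ?_
  unfold LL
  refine Finset.sum_eq_zero fun i _ => ?_
  rw [Set.mem_iUnion, not_exists] at hx
  have h1 : x ∉ tsupport (pd i φ) := fun h => hx i (Or.inl h)
  have h2 : x ∉ tsupport (pd i (pd i φ)) := fun h => hx i (Or.inr h)
  rw [image_eq_zero_of_notMem_tsupport h1, image_eq_zero_of_notMem_tsupport h2]
  ring

theorem pd_pt (hV : Differentiable ℝ V) (t : ℝ) (y x : ι → ℝ) (i : ι) :
    pd i (pt V t y) x = pd i V x + t * x i - y i := by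
  have h1 : Differentiable ℝ (fun x : ι → ℝ => t / 2 * sq x) :=
    ((contDiff_sq (n := 1)).differentiable (by norm_num)).const_mul _
  have h2 : Differentiable ℝ (dt y) := ((T1.dtf y).c1).differentiable (by norm_num)
  have k1 : pd i (pt V t y) x = pd i (fun x => V x + t / 2 * sq x) x - pd i (dt y) x :=
    pd_sub (f := fun x => V x + t / 2 * sq x) (g := dt y) (hV.fun_add h1) h2 i x
  have k2 : pd i (fun x => V x + t / 2 * sq x) x = pd i V x + pd i (fun x => t / 2 * sq x) x :=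
    pd_add (f := V) (g := fun x => t / 2 * sq x) hV h1 i x
  rw [k1, k2, pd_cmul ((contDiff_sq (n := 1)).differentiable (by norm_num)), pd_sq, pd_dt]
  ring

private theorem KA3_hs_add {f : (ι → ℝ) → ℝ} {t : ℝ} (V : (ι → ℝ) → ℝ)
    (h : ∀ i j x, pd i (pd j f) x = pd i (pd j V) x + t * if i = j then 1 else 0) (x u : ι → ℝ) :
    hs f x u = hs V x u + t * sq u := by
  unfold hs sq
  rw [Finset.mul_sum, ← Finset.sum_add_distrib]
  refine Finset.sum_congr rfl fun i _ => ?_
  simp only [h, mul_add, Finset.sum_add_distrib]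
  congr 1
  rw [Finset.sum_eq_single i]
  · rw [if_pos rfl]
    ring
  · intro j _ hj
    rw [if_neg (Ne.symm hj)]
    ring
  · intro h
    exact absurd (Finset.mem_univ i) h

/-- The Gaussian potential. -/
theorem nice_gp : Nice 1 1 (gp : (ι → ℝ) → ℝ) := by
  have hsqd : Differentiable ℝ (sq : (ι → ℝ) → ℝ) :=
    (contDiff_sq (n := 1)).differentiable (by norm_num)
  have e0 : (gp : (ι → ℝ) → ℝ) = fun x => (1 / 2) * sq x := by
    funext x
    unfold gp
    ring
  have h1 : ∀ j : ι, pd j (gp : (ι → ℝ) → ℝ) = fun x => x j := by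
    intro j
    funext x
    rw [e0, pd_cmul hsqd, pd_sq]
    ring
  have h2 : ∀ (i j : ι) (x : ι → ℝ), pd i (pd j (gp : (ι → ℝ) → ℝ)) x =
      pd i (pd j (fun _ : ι → ℝ => (0 : ℝ))) x + 1 * if i = j then 1 else 0 := by
    intro i j x
    have h3 : pd j (fun _ : ι → ℝ => (0 : ℝ)) = fun _ => 0 := by
      funext z
      exact pd_const 0 j z
    rw [h1, pd_coord, h3, pd_const]
    ring
  have h4 : ∀ x u : ι → ℝ, hs (gp : (ι → ℝ) → ℝ) x u = 1 * sq u := by
    intro x u
    rw [KA3_hs_add _ h2]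
    have h5 : hs (fun _ : ι → ℝ => (0 : ℝ)) x u = 0 := by
      unfold hs
      refine Finset.sum_eq_zero fun i _ => Finset.sum_eq_zero fun j _ => ?_
      have h3 : pd j (fun _ : ι → ℝ => (0 : ℝ)) = fun _ => 0 := by
        funext z
        exact pd_const 0 j z
      rw [h3, pd_const]
      ring
    rw [h5]
    ring
  refine ⟨one_pos, ?_, fun x u => (h4 x u).ge, fun x u => (h4 x u).le⟩
  rw [e0]
  exact contDiff_const.mul contDiff_sq

/-- `pt V t y` is nice for `t > -κ`. -/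
theorem Nice.ptn (H : Nice κ M V) {t : ℝ} (ht : -κ < t) (y : ι → ℝ) :
    Nice (κ + t) (M + t) (pt V t y) := by
  have hVd : Differentiable ℝ V := H.c2.differentiable (by norm_num)
  have h1 : ∀ j : ι, pd j (pt V t y) = fun x => (pd j V x + t * x j) - y j := by
    intro j
    funext x
    exact pd_pt hVd t y x j
  have h2 : ∀ (i j : ι) (x : ι → ℝ), pd i (pd j (pt V t y)) x =
      pd i (pd j V) x + t * if i = j then 1 else 0 := by
    intro i j x
    have hc : Differentiable ℝ (fun x : ι → ℝ => x j) := (T1.coord j).c1.differentiable (by norm_num)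
    have hp : Differentiable ℝ (pd j V) := (KA3_c1 H.c2 j).differentiable (by norm_num)
    have k1 : pd i (fun x => (pd j V x + t * x j) - y j) x =
        pd i (fun x => pd j V x + t * x j) x - pd i (fun _ => y j) x :=
      pd_sub (f := fun x => pd j V x + t * x j) (g := fun _ => y j) (hp.fun_add (hc.const_mul t))
        (differentiable_const _) i x
    have k2 : pd i (fun x => pd j V x + t * x j) x = pd i (pd j V) x + pd i (fun x => t * x j) x :=
      pd_add (f := pd j V) (g := fun x => t * x j) hp (hc.const_mul t) i x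
    rw [h1, k1, k2, pd_cmul hc, pd_coord, pd_const]
    ring
  have h4 : ∀ x u : ι → ℝ, hs (pt V t y) x u = hs V x u + t * sq u := KA3_hs_add V h2
  refine ⟨by linarith, ?_, fun x u => ?_, fun x u => ?_⟩
  · have h5 : ContDiff ℝ 2 (dt y) := by
      unfold dt
      exact ContDiff.sum fun i _ => contDiff_const.mul (contDiff_apply ℝ ℝ i)
    exact (H.c2.add (contDiff_const.mul contDiff_sq)).sub h5
  · rw [h4, add_mul]
    linarith [H.lo x u]
  · rw [h4, add_mul]
    linarith [H.hi x u]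

end Pool.Agent.Lib.MP_8d00da_gt.h42k
end

section

/-!
# Integrability and elementary properties of expectations
-/

namespace Pool.Agent.Lib.MP_8d00da_gt.h42k

open MeasureTheory Set Filter
open scoped Topology NNReal ENNReal ContDiff

set_option linter.unusedSectionVars false
set_option linter.unusedVariables false

variable {ι : Type*} [Fintype ι] [DecidableEq ι]

variable {κ M : ℝ} {V : (ι → ℝ) → ℝ}

variable {f g : (ι → ℝ) → ℝ}

/-- Gaussians are integrable on `ι → ℝ`. -/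
private theorem KA4_gauss {b : ℝ} (hb : 0 < b) :
    Integrable fun x : ι → ℝ => Real.exp (-(b * sq x)) := by
  have h1 : Integrable (fun x : ι → ℝ => ∏ i, Real.exp (-b * x i ^ 2)) :=
    MeasureTheory.Integrable.fintype_prod (f := fun _ : ι => fun y : ℝ => Real.exp (-b * y ^ 2))
      (fun _ => integrable_exp_neg_mul_sq hb)
  refine h1.congr (Filter.Eventually.of_forall fun x => ?_)
  simp only [← Real.exp_sum]
  congr 1
  unfold sq
  rw [Finset.mul_sum, ← Finset.sum_neg_distrib]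
  exact Finset.sum_congr rfl fun i _ => by ring

private theorem KA4_poly {δ s : ℝ} (hδ : 0 < δ) (hs : 0 ≤ s) (k : ℕ) :
    (1 + s) ^ k ≤ (1 + 1 / δ) ^ k * Real.exp (δ * s * k) := by
  have h1 : 1 + s ≤ (1 + 1 / δ) * Real.exp (δ * s) := by
    have h2 : δ * s + 1 ≤ Real.exp (δ * s) := Real.add_one_le_exp _
    have h3 : (1 + 1 / δ) * (δ * s + 1) ≤ (1 + 1 / δ) * Real.exp (δ * s) := by
      gcongr
    have h4 : (1 + 1 / δ) * (δ * s + 1) = (1 + s) + (δ * s + 1 / δ) := by
      field_simp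
      ring
    have h5 : 0 ≤ δ * s + 1 / δ := by positivity
    linarith
  calc (1 + s) ^ k ≤ ((1 + 1 / δ) * Real.exp (δ * s)) ^ k := by gcongr
    _ = (1 + 1 / δ) ^ k * Real.exp (δ * s * k) := by
      rw [mul_pow, ← Real.exp_nat_mul]
      congr 2
      ring

/-- Also exponential functions of linear size are integrable. -/
theorem Nice.int_lin_exp (H : Nice κ M V) (hf : T0 f) (c : ℝ) :
    Integrable fun x => Real.exp (c * √(sq x)) * (f x * Real.exp (-V x)) := by
  obtain ⟨C, k, hC, hfb⟩ := hf.pg.bound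
  have hκ := H.kpos
  set δ : ℝ := κ / (16 * (k + 1)) with hδ
  have hδ0 : 0 < δ := by rw [hδ]; positivity
  set G : ℝ := √(gs V 0) with hG
  set A : ℝ := C * (1 + 1 / δ) ^ k * Real.exp (4 * (c + G) ^ 2 / κ - V 0) with hA
  have hbound : ∀ x, ‖Real.exp (c * √(sq x)) * (f x * Real.exp (-V x))‖ ≤
      A * Real.exp (-(κ / 4 * sq x)) := by
    intro x
    set r : ℝ := √(sq x) with hr
    have hr0 : 0 ≤ r := Real.sqrt_nonneg _
    have hr2 : r ^ 2 = sq x := Real.sq_sqrt (sq_nn x)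
    have hV : V 0 - G * r + κ / 2 * r ^ 2 ≤ V x := by
      have h1 := H.lower 0 x
      rw [zero_add] at h1
      have h2 : |gd V 0 x| ≤ G * r := by
        have hgs : 0 ≤ gs V 0 := Finset.sum_nonneg fun i _ => _root_.sq_nonneg _
        rw [hG, hr, ← Real.sqrt_mul hgs]
        exact Real.abs_le_sqrt (gd_sq_le V 0 x)
      have h3 := neg_abs_le (gd V 0 x)
      rw [hr2]
      linarith
    rw [norm_mul, norm_mul, Real.norm_eq_abs, Real.norm_eq_abs, Real.norm_eq_abs, Real.abs_exp,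
      Real.abs_exp]
    have h4 : |f x| ≤ C * ((1 + 1 / δ) ^ k * Real.exp (δ * sq x * k)) :=
      (hfb x).trans (mul_le_mul_of_nonneg_left (KA4_poly hδ0 (sq_nn x) k) hC)
    have h5 : δ * sq x * k ≤ κ / 16 * r ^ 2 := by
      rw [hr2]
      have h6 : δ * k ≤ κ / 16 := by
        rw [hδ, div_mul_eq_mul_div, div_le_div_iff₀ (by positivity) (by norm_num)]
        nlinarith
      nlinarith [sq_nn x]
    have h7 : (c + G) * r ≤ κ / 16 * r ^ 2 + 4 * (c + G) ^ 2 / κ := by
      have h8 : 0 ≤ (κ * r - 8 * (c + G)) ^ 2 / (16 * κ) := by positivity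
      have h9 : (κ * r - 8 * (c + G)) ^ 2 / (16 * κ) =
          κ / 16 * r ^ 2 + 4 * (c + G) ^ 2 / κ - (c + G) * r := by
        field_simp
        ring
      linarith
    calc Real.exp (c * r) * (|f x| * Real.exp (-V x))
        ≤ Real.exp (c * r) * ((C * ((1 + 1 / δ) ^ k * Real.exp (δ * sq x * k))) *
            Real.exp (-V x)) := by gcongr
      _ = C * (1 + 1 / δ) ^ k * Real.exp (c * r + δ * sq x * k + -V x) := by
          rw [Real.exp_add, Real.exp_add]; ring
      _ ≤ C * (1 + 1 / δ) ^ k *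
            Real.exp (4 * (c + G) ^ 2 / κ - V 0 + -(κ / 4 * sq x)) := by
          have hle : c * r + δ * sq x * k + -V x ≤
              4 * (c + G) ^ 2 / κ - V 0 + -(κ / 4 * sq x) := by
            rw [← hr2] at h5 ⊢
            nlinarith [sq_nn x, _root_.sq_nonneg r]
          gcongr
      _ = A * Real.exp (-(κ / 4 * sq x)) := by rw [Real.exp_add, hA]; ring
  have hmeas : AEStronglyMeasurable
      (fun x => Real.exp (c * √(sq x)) * (f x * Real.exp (-V x))) volume := by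
    apply AEStronglyMeasurable.mul
    · exact (Real.continuous_exp.comp
        (continuous_const.mul (Real.continuous_sqrt.comp continuous_sq))).aestronglyMeasurable
    · exact hf.meas.aestronglyMeasurable.mul
        (Real.continuous_exp.comp H.c2.continuous.neg).aestronglyMeasurable
  exact Integrable.mono' ((KA4_gauss (ι := ι) (b := κ / 4) (by positivity)).const_mul A) hmeas
    (Filter.Eventually.of_forall hbound)

/-- By `Nice.lower` at `0`: `exp (-V x) ≤ C exp (|∇V(0)| |x| - κ|x|²/2)`, Gaussian integrability. -/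
theorem Nice.int (H : Nice κ M V) (hf : T0 f) : Integrable fun x => f x * Real.exp (-V x) := by
  simpa using H.int_lin_exp hf 0

theorem Nice.intexp (H : Nice κ M V) : Integrable fun x => Real.exp (-V x) := by
  simpa using H.int (T0.const (ι := ι) 1)

theorem Nice.zpos (H : Nice κ M V) : 0 < ∫ x, Real.exp (-V x) :=
  integral_exp_pos H.intexp

theorem ex_const (H : Nice κ M V) (c : ℝ) : ex V (fun _ => c) = c := by
  unfold ex
  rw [integral_const_mul, mul_div_assoc, div_self H.zpos.ne', mul_one]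

theorem ex_add (H : Nice κ M V) (hf : T0 f) (hg : T0 g) :
    ex V (fun x => f x + g x) = ex V f + ex V g := by
  unfold ex
  rw [← add_div, ← integral_add (H.int hf) (H.int hg)]
  simp only [add_mul]

theorem ex_sub (H : Nice κ M V) (hf : T0 f) (hg : T0 g) :
    ex V (fun x => f x - g x) = ex V f - ex V g := by
  unfold ex
  rw [← sub_div, ← integral_sub (H.int hf) (H.int hg)]
  simp only [sub_mul]

theorem ex_cmul (V f : (ι → ℝ) → ℝ) (c : ℝ) : ex V (fun x => c * f x) = c * ex V f := by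
  unfold ex
  simp only [mul_assoc]
  rw [integral_const_mul, mul_div_assoc]

theorem ex_mulc (V f : (ι → ℝ) → ℝ) (c : ℝ) : ex V (fun x => f x * c) = ex V f * c := by
  simp only [mul_comm _ c]
  exact ex_cmul V f c

theorem ex_neg (V f : (ι → ℝ) → ℝ) : ex V (fun x => - f x) = - ex V f := by
  unfold ex
  simp only [neg_mul]
  rw [integral_neg, neg_div]

theorem ex_sum (H : Nice κ M V) {α : Type*} (S : Finset α) {F : α → (ι → ℝ) → ℝ}
    (hF : ∀ a ∈ S, T0 (F a)) : ex V (fun x => ∑ a ∈ S, F a x) = ∑ a ∈ S, ex V (F a) := by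
  unfold ex
  simp only [Finset.sum_mul]
  rw [integral_finsetSum S (fun a ha => H.int (hF a ha)), Finset.sum_div]

theorem ex_nonneg (V : (ι → ℝ) → ℝ) (h : ∀ x, 0 ≤ f x) : 0 ≤ ex V f := by
  unfold ex
  exact div_nonneg (integral_nonneg fun x => mul_nonneg (h x) (Real.exp_pos _).le)
    (integral_nonneg fun x => (Real.exp_pos _).le)

theorem ex_mono (H : Nice κ M V) (hf : T0 f) (hg : T0 g) (h : ∀ x, f x ≤ g x) :
    ex V f ≤ ex V g := by
  have h1 := ex_nonneg V (f := fun x => g x - f x) (fun x => sub_nonneg.2 (h x))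
  rw [ex_sub H hg hf] at h1
  linarith

theorem ex_abs_le (H : Nice κ M V) (hf : T0 f) : |ex V f| ≤ ex V (fun x => |f x|) := by
  rw [abs_le]
  constructor
  · rw [← ex_neg]
    exact ex_mono H hf.abs.neg hf fun x => neg_abs_le _
  · exact ex_mono H hf hf.abs fun x => le_abs_self _

/-- If `f² ≤ p q` pointwise (`p, q ≥ 0`), then `(E f)² ≤ E p E q`. -/
theorem ex_cs_pt (H : Nice κ M V) {p q : (ι → ℝ) → ℝ} (hf : T0 f) (hp : T0 p) (hq : T0 q)
    (hp0 : ∀ x, 0 ≤ p x) (hq0 : ∀ x, 0 ≤ q x) (h : ∀ x, f x ^ 2 ≤ p x * q x) :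
    ex V f ^ 2 ≤ ex V p * ex V q := by
  have key : ∀ t : ℝ, 0 ≤ ex V q * (t * t) + (2 * ex V f) * t + ex V p := by
    intro t
    have h1 : 0 ≤ ex V (fun x => (t * t) * q x + ((2 * t) * f x + p x)) := by
      refine ex_nonneg V fun x => ?_
      have ha := hp0 x
      have hb := hq0 x
      have hc := h x
      have h2 : |t * f x| ≤ |t| * (√(p x) * √(q x)) := by
        rw [abs_mul, ← Real.sqrt_mul ha]
        exact mul_le_mul_of_nonneg_left (Real.abs_le_sqrt hc) (abs_nonneg t)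
      have h3 := neg_abs_le (t * f x)
      have h4 : 0 ≤ (√(p x) - |t| * √(q x)) ^ 2 := _root_.sq_nonneg _
      have h5 : (√(p x) - |t| * √(q x)) ^ 2 =
          p x - 2 * (|t| * (√(p x) * √(q x))) + t * t * q x := by
        have e1 : √(p x) ^ 2 = p x := Real.sq_sqrt ha
        have e2 : √(q x) ^ 2 = q x := Real.sq_sqrt hb
        have e3 : |t| ^ 2 = t ^ 2 := sq_abs t
        calc (√(p x) - |t| * √(q x)) ^ 2 = √(p x) ^ 2 - 2 * (|t| * (√(p x) * √(q x))) +
              |t| ^ 2 * √(q x) ^ 2 := by ring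
          _ = _ := by rw [e1, e2, e3]; ring
      nlinarith
    rw [ex_add H (hq.cmul _) ((hf.cmul _).add hp), ex_add H (hf.cmul _) hp, ex_cmul, ex_cmul] at h1
    linarith
  have h2 := discrim_le_zero key
  unfold discrim at h2
  nlinarith

/-- Cauchy-Schwarz. -/
theorem ex_cs (H : Nice κ M V) (hf : T0 f) (hg : T0 g) :
    ex V (fun x => f x * g x) ^ 2 ≤ ex V (fun x => f x ^ 2) * ex V (fun x => g x ^ 2) :=
  ex_cs_pt H (hf.mul hg) (hf.pow 2) (hg.pow 2) (fun x => _root_.sq_nonneg _)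
    (fun x => _root_.sq_nonneg _) fun x => by rw [mul_pow]

/-- Jensen for the square. -/
theorem ex_sq_le (H : Nice κ M V) (hf : T0 f) : ex V f ^ 2 ≤ ex V (fun x => f x ^ 2) := by
  have h1 := ex_cs_pt H (p := fun x => f x ^ 2) (q := fun _ => 1) hf (hf.pow 2) (T0.const 1)
    (fun x => _root_.sq_nonneg _) (fun x => zero_le_one) (fun x => by simp)
  rwa [ex_const H, mul_one] at h1

/-- Expectations do not change if the potential changes by a constant. -/
theorem ex_addc (V f : (ι → ℝ) → ℝ) (c : ℝ) : ex (fun x => V x + c) f = ex V f := by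
  unfold ex
  have h1 : ∀ x, Real.exp (-(V x + c)) = Real.exp (-V x) * Real.exp (-c) := fun x => by
    rw [neg_add, Real.exp_add]
  simp only [h1, ← mul_assoc]
  rw [integral_mul_const, integral_mul_const, mul_div_mul_right _ _ (Real.exp_pos _).ne']

/-- Generalised Cauchy-Schwarz: `(∑ i, E f_i g_i)² ≤ (∑ E f_i²) (∑ E g_i²)`. -/
theorem ex_cs_sum (H : Nice κ M V) {α : Type*} (S : Finset α) {F G : α → (ι → ℝ) → ℝ}
    (hF : ∀ a ∈ S, T0 (F a)) (hG : ∀ a ∈ S, T0 (G a)) :
    (∑ a ∈ S, ex V (fun x => F a x * G a x)) ^ 2 ≤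
      (∑ a ∈ S, ex V (fun x => F a x ^ 2)) * ∑ a ∈ S, ex V (fun x => G a x ^ 2) := by
  rw [← ex_sum H S (F := fun a x => F a x * G a x) fun a ha => (hF a ha).mul (hG a ha),
    ← ex_sum H S (F := fun a x => F a x ^ 2) fun a ha => (hF a ha).pow 2,
    ← ex_sum H S (F := fun a x => G a x ^ 2) fun a ha => (hG a ha).pow 2]
  exact ex_cs_pt H (T0.sum S fun a ha => (hF a ha).mul (hG a ha))
    (T0.sum S fun a ha => (hF a ha).pow 2) (T0.sum S fun a ha => (hG a ha).pow 2)
    (fun x => Finset.sum_nonneg fun a _ => _root_.sq_nonneg _)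
    (fun x => Finset.sum_nonneg fun a _ => _root_.sq_nonneg _)
    fun x => Finset.sum_mul_sq_le_sq_mul_sq S _ _

end Pool.Agent.Lib.MP_8d00da_gt.h42k
end
end
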