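import Mathlib

section

/-!
# The Prékopa–Leindler inequality

Proved for the Lebesgue measure on the line, for products, and for every finite-dimensional real
inner product space.
-/

namespace Pool.Agent.Lib.MP_8d00da_gt.h42

open MeasureTheory Set ENNReal Filter
open scoped Pointwise Topology

lemma volume_affine_image (A : Set ℝ) {r : ℝ} (hr : 0 ≤ r) (t : ℝ) :
    volume ((fun x => r * x + t) '' A) = ENNReal.ofReal r * volume A := by
  have h1 : (fun x => r * x + t) '' A = (fun z => z + t) '' (r • A) := by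
    ext z
    simp only [mem_image, mem_smul_set, smul_eq_mul]
    constructor
    · rintro ⟨x, hx, rfl⟩
      exact ⟨r * x, ⟨x, hx, rfl⟩, rfl⟩
    · rintro ⟨_, ⟨x, hx, rfl⟩, rfl⟩
      exact ⟨x, hx, rfl⟩
  rw [h1, image_add_right, measure_preimage_add_right, Measure.addHaar_smul_of_nonneg _ hr]
  simp

/-- One-dimensional Brunn–Minkowski for compact sets. -/
lemma bm_compact {A B C : Set ℝ} (hA : IsCompact A) (hB : IsCompact B) (hAne : A.Nonempty)
    (hBne : B.Nonempty) {a : ℝ} (ha0 : 0 < a) (ha1 : a < 1)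
    (h : ∀ x ∈ A, ∀ y ∈ B, (1 - a) * x + a * y ∈ C) :
    ENNReal.ofReal (1 - a) * volume A + ENNReal.ofReal a * volume B ≤ volume C := by
  obtain ⟨p, hpA, hp⟩ := hA.exists_isGreatest hAne
  obtain ⟨q, hqB, hq⟩ := hB.exists_isLeast hBne
  set S1 : Set ℝ := (fun x => (1 - a) * x + a * q) '' A with hS1
  set S2 : Set ℝ := (fun y => a * y + (1 - a) * p) '' B with hS2
  have hsub : S1 ∪ S2 ⊆ C := by
    rintro z (⟨x, hx, rfl⟩ | ⟨y, hy, rfl⟩)
    · exact h x hx q hqB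
    · have := h p hpA y hy
      simpa [add_comm] using this
  have hinter : S1 ∩ S2 ⊆ {(1 - a) * p + a * q} := by
    rintro z ⟨⟨x, hx, rfl⟩, ⟨y, hy, hxy⟩⟩
    have h1 : x ≤ p := hp hx
    have h2 : q ≤ y := hq hy
    have h3 : (1 - a) * x + a * q = a * y + (1 - a) * p := hxy.symm
    have h4 : (1 - a) * x ≤ (1 - a) * p := mul_le_mul_of_nonneg_left h1 (by linarith)
    have h5 : a * q ≤ a * y := mul_le_mul_of_nonneg_left h2 ha0.le
    simp only [mem_singleton_iff]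
    linarith
  have hv1 : volume S1 = ENNReal.ofReal (1 - a) * volume A :=
    volume_affine_image A (by linarith) _
  have hv2 : volume S2 = ENNReal.ofReal a * volume B :=
    volume_affine_image B ha0.le _
  have hm2 : MeasurableSet S2 := (hB.image (by fun_prop)).measurableSet
  have h0 : volume (S1 ∩ S2) = 0 := measure_mono_null hinter (by simp)
  calc ENNReal.ofReal (1 - a) * volume A + ENNReal.ofReal a * volume B
      = volume S1 + volume S2 := by rw [hv1, hv2]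
    _ = volume (S1 ∪ S2) + volume (S1 ∩ S2) := (measure_union_add_inter S1 hm2).symm
    _ = volume (S1 ∪ S2) := by rw [h0, add_zero]
    _ ≤ volume C := measure_mono hsub

lemma volume_eq_iSup_compact {A : Set ℝ} (hA : MeasurableSet A) :
    volume A = ⨆ K : {K : Set ℝ // K ⊆ A ∧ IsCompact K}, volume (K : Set ℝ) := by
  rw [hA.measure_eq_iSup_isCompact, iSup_subtype]
  simp only [iSup_and]

/-- One-dimensional Brunn–Minkowski for nonempty measurable sets. -/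
lemma bm_real {A B C : Set ℝ} (hA : MeasurableSet A) (hB : MeasurableSet B) (hAne : A.Nonempty)
    (hBne : B.Nonempty) {a : ℝ} (ha0 : 0 < a) (ha1 : a < 1)
    (h : ∀ x ∈ A, ∀ y ∈ B, (1 - a) * x + a * y ∈ C) :
    ENNReal.ofReal (1 - a) * volume A + ENNReal.ofReal a * volume B ≤ volume C := by
  obtain ⟨x0, hx0⟩ := hAne
  obtain ⟨y0, hy0⟩ := hBne
  have : Nonempty {K : Set ℝ // K ⊆ A ∧ IsCompact K} := ⟨⟨∅, by simp⟩⟩
  have : Nonempty {K : Set ℝ // K ⊆ B ∧ IsCompact K} := ⟨⟨∅, by simp⟩⟩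
  rw [volume_eq_iSup_compact hA, volume_eq_iSup_compact hB]
  simp only [ENNReal.mul_iSup]
  refine ENNReal.iSup_add_iSup_le ?_
  rintro ⟨K, hKA, hK⟩ ⟨L, hLB, hL⟩
  have key := bm_compact (hK.insert x0) (hL.insert y0) (insert_nonempty _ _) (insert_nonempty _ _)
    ha0 ha1 (C := C) (fun x hx y hy => h x (insert_subset hx0 hKA hx) y (insert_subset hy0 hLB hy))
  refine le_trans (add_le_add ?_ ?_) key
  · gcongr; exact subset_insert _ _
  · gcongr; exact subset_insert _ _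

/-- The Prékopa–Leindler property of a measure on a real vector space. -/
def PLProp {X : Type*} [AddCommGroup X] [Module ℝ X] [MeasurableSpace X] (μ : Measure X) : Prop :=
  ∀ a : ℝ, 0 < a → a < 1 → ∀ u v w : X → ℝ≥0∞, Measurable u → Measurable v → Measurable w →
    (∀ x y, u x ^ (1 - a) * v y ^ a ≤ w ((1 - a) • x + a • y)) →
    (∫⁻ x, u x ∂μ) ^ (1 - a) * (∫⁻ x, v x ∂μ) ^ a ≤ ∫⁻ x, w x ∂μ

lemma layer {u : ℝ → ℝ≥0∞} (hu : Measurable u) (hu1 : ∀ x, u x ≤ 1) :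
    ∫⁻ x, u x = ∫⁻ t in Ioi (0 : ℝ), volume {x | t < (u x).toReal} := by
  rw [← lintegral_eq_lintegral_meas_lt volume (Eventually.of_forall fun x => toReal_nonneg)
    hu.ennreal_toReal.aemeasurable]
  refine lintegral_congr fun x => ?_
  rw [ENNReal.ofReal_toReal (ne_top_of_le_ne_top one_ne_top (hu1 x))]

lemma amgm (a : ℝ) (ha0 : 0 < a) (ha1 : a < 1) (x y : ℝ≥0∞) :
    x ^ (1 - a) * y ^ a ≤ ENNReal.ofReal (1 - a) * x + ENNReal.ofReal a * y := by
  have h1a : 0 < 1 - a := by linarith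
  rcases eq_or_ne x ∞ with rfl | hx
  · rw [ENNReal.mul_top (by simpa using h1a)]
    simp
  rcases eq_or_ne y ∞ with rfl | hy
  · rw [ENNReal.mul_top (by simpa using ha0)]
    simp
  lift x to NNReal using hx
  lift y to NNReal using hy
  have := NNReal.geom_mean_le_arith_mean2_weighted (1 - a).toNNReal a.toNNReal x y (by
    rw [← Real.toNNReal_add h1a.le ha0.le]; simp)
  rw [Real.coe_toNNReal _ h1a.le, Real.coe_toNNReal _ ha0.le] at this
  rw [← ENNReal.coe_rpow_of_nonneg _ h1a.le, ← ENNReal.coe_rpow_of_nonneg _ ha0.le]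
  unfold ENNReal.ofReal
  exact_mod_cast this

/-- Step 1: normalised functions. -/
lemma pl_one {a : ℝ} (ha0 : 0 < a) (ha1 : a < 1) {u v w : ℝ → ℝ≥0∞} (hu : Measurable u)
    (hv : Measurable v) (hw : Measurable w) (hu1 : ∀ x, u x ≤ 1) (hv1 : ∀ x, v x ≤ 1)
    (hus : ∀ t : ℝ≥0∞, t < 1 → ∃ x, t < u x) (hvs : ∀ t : ℝ≥0∞, t < 1 → ∃ x, t < v x)
    (h : ∀ x y, u x ^ (1 - a) * v y ^ a ≤ w ((1 - a) • x + a • y)) :
    (∫⁻ x, u x) ^ (1 - a) * (∫⁻ x, v x) ^ a ≤ ∫⁻ x, w x := by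
  have h1a : 0 < 1 - a := by linarith
  refine (amgm a ha0 ha1 _ _).trans ?_
  have hw' : ∫⁻ x, min (w x) 1 ≤ ∫⁻ x, w x := lintegral_mono fun x => min_le_left _ _
  refine le_trans ?_ hw'
  rw [layer hu hu1, layer hv hv1, layer (u := fun x => min (w x) 1) (by fun_prop)
    (fun x => min_le_right _ _)]
  rw [← lintegral_const_mul' _ _ ofReal_ne_top, ← lintegral_const_mul' _ _ ofReal_ne_top]
  rw [← lintegral_add_left']
  · refine setLIntegral_mono' measurableSet_Ioi fun t ht => ?_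
    have ht0 : 0 < t := ht
    rcases lt_or_ge t 1 with ht1 | ht1
    · have hne : ∀ {z : ℝ → ℝ≥0∞}, (∀ x, z x ≤ 1) → (∀ s : ℝ≥0∞, s < 1 → ∃ x, s < z x) →
          {x | t < (z x).toReal}.Nonempty := by
        intro z hz1 hzs
        obtain ⟨x, hx⟩ := hzs (ENNReal.ofReal t) (by
          rw [← ENNReal.ofReal_one]; exact (ENNReal.ofReal_lt_ofReal_iff one_pos).2 ht1)
        refine ⟨x, ?_⟩
        have := (ENNReal.ofReal_lt_iff_lt_toReal ht0.le (ne_top_of_le_ne_top one_ne_top (hz1 x))).1 hx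
        exact this
      refine bm_real (measurableSet_lt measurable_const hu.ennreal_toReal)
        (measurableSet_lt measurable_const hv.ennreal_toReal) (hne hu1 hus) (hne hv1 hvs) ha0 ha1 ?_
      intro x hx y hy
      simp only [mem_ofPred_eq] at hx hy ⊢
      have hx' : ENNReal.ofReal t < u x :=
        (ENNReal.ofReal_lt_iff_lt_toReal ht0.le (ne_top_of_le_ne_top one_ne_top (hu1 x))).2 hx
      have hy' : ENNReal.ofReal t < v y :=
        (ENNReal.ofReal_lt_iff_lt_toReal ht0.le (ne_top_of_le_ne_top one_ne_top (hv1 y))).2 hy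
      have hlt : ENNReal.ofReal t < min (w ((1 - a) * x + a * y)) 1 := by
        refine lt_min ?_ ?_
        · refine lt_of_lt_of_le ?_ (h x y)
          have e : ENNReal.ofReal t = ENNReal.ofReal t ^ (1 - a) * ENNReal.ofReal t ^ a := by
            rw [← ENNReal.rpow_add _ _ (by simpa using ht0) ofReal_ne_top]
            simp
          rw [e]
          exact ENNReal.mul_lt_mul (ENNReal.rpow_lt_rpow hx' h1a) (ENNReal.rpow_lt_rpow hy' ha0)
        · rw [← ENNReal.ofReal_one]; exact (ENNReal.ofReal_lt_ofReal_iff one_pos).2 ht1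
      exact (ENNReal.ofReal_lt_iff_lt_toReal ht0.le
        (ne_top_of_le_ne_top one_ne_top (min_le_right _ _))).1 hlt
    · have hem : ∀ {z : ℝ → ℝ≥0∞}, (∀ x, z x ≤ 1) → volume {x | t < (z x).toReal} = 0 := by
        intro z hz1
        have : {x | t < (z x).toReal} = ∅ := by
          ext x
          simp only [mem_ofPred_eq, mem_empty_iff_false, iff_false, not_lt]
          have : (z x).toReal ≤ 1 := by
            have := ENNReal.toReal_mono one_ne_top (hz1 x)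
            simpa using this
          linarith
        rw [this]; simp
      rw [hem hu1, hem hv1]
      simp
  · refine AEMeasurable.const_mul ?_ _
    have : Antitone fun t : ℝ => volume {x | t < (u x).toReal} := fun s t hst =>
      measure_mono fun x hx => lt_of_le_of_lt hst hx
    exact this.measurable.aemeasurable

/-- Step 2: bounded functions. -/
lemma pl_bdd {a : ℝ} (ha0 : 0 < a) (ha1 : a < 1) {u v w : ℝ → ℝ≥0∞} (hu : Measurable u)
    (hv : Measurable v) (hw : Measurable w) {M : ℝ≥0∞} (hM : M ≠ ∞) (hu1 : ∀ x, u x ≤ M)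
    (hv1 : ∀ x, v x ≤ M)
    (h : ∀ x y, u x ^ (1 - a) * v y ^ a ≤ w ((1 - a) • x + a • y)) :
    (∫⁻ x, u x) ^ (1 - a) * (∫⁻ x, v x) ^ a ≤ ∫⁻ x, w x := by
  have h1a : 0 < 1 - a := by linarith
  set U := ⨆ x, u x with hU
  set V := ⨆ x, v x with hV
  have hUM : U ≤ M := iSup_le hu1
  have hVM : V ≤ M := iSup_le hv1
  have hUt : U ≠ ∞ := ne_top_of_le_ne_top hM hUM
  have hVt : V ≠ ∞ := ne_top_of_le_ne_top hM hVM
  rcases eq_or_ne U 0 with hU0 | hU0
  · have : ∀ x, u x = 0 := fun x => by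
      have := le_iSup u x
      rw [← hU, hU0] at this
      exact le_antisymm this bot_le
    simp [this, h1a]
  rcases eq_or_ne V 0 with hV0 | hV0
  · have : ∀ x, v x = 0 := fun x => by
      have := le_iSup v x
      rw [← hV, hV0] at this
      exact le_antisymm this bot_le
    simp [this, ha0]
  have hUi : U⁻¹ ≠ ∞ := ENNReal.inv_ne_top.2 hU0
  have hVi : V⁻¹ ≠ ∞ := ENNReal.inv_ne_top.2 hV0
  have hUi0 : U⁻¹ ≠ 0 := ENNReal.inv_ne_zero.2 hUt
  have hVi0 : V⁻¹ ≠ 0 := ENNReal.inv_ne_zero.2 hVt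
  have key := pl_one ha0 ha1 (u := fun x => U⁻¹ * u x) (v := fun x => V⁻¹ * v x)
    (w := fun x => (U⁻¹ ^ (1 - a) * V⁻¹ ^ a) * w x) (by fun_prop) (by fun_prop) (by fun_prop)
    (fun x => by
      calc U⁻¹ * u x ≤ U⁻¹ * U := by gcongr; exact le_iSup u x
        _ = 1 := ENNReal.inv_mul_cancel hU0 hUt)
    (fun x => by
      calc V⁻¹ * v x ≤ V⁻¹ * V := by gcongr; exact le_iSup v x
        _ = 1 := ENNReal.inv_mul_cancel hV0 hVt)
    (fun t ht => by
      have h1 : t * U < U := by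
        calc t * U < 1 * U := (ENNReal.mul_lt_mul_iff_left hU0 hUt).2 ht
          _ = U := one_mul U
      obtain ⟨x, hx⟩ := lt_iSup_iff.1 h1
      refine ⟨x, ?_⟩
      rw [← ENNReal.mul_lt_mul_iff_left hU0 hUt]
      calc t * U < u x := hx
        _ = U⁻¹ * u x * U := by
          rw [mul_comm (U⁻¹) (u x), mul_assoc, ENNReal.inv_mul_cancel hU0 hUt, mul_one])
    (fun t ht => by
      have h1 : t * V < V := by
        calc t * V < 1 * V := (ENNReal.mul_lt_mul_iff_left hV0 hVt).2 ht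
          _ = V := one_mul V
      obtain ⟨x, hx⟩ := lt_iSup_iff.1 h1
      refine ⟨x, ?_⟩
      rw [← ENNReal.mul_lt_mul_iff_left hV0 hVt]
      calc t * V < v x := hx
        _ = V⁻¹ * v x * V := by
          rw [mul_comm (V⁻¹) (v x), mul_assoc, ENNReal.inv_mul_cancel hV0 hVt, mul_one])
    (fun x y => by
      rw [ENNReal.mul_rpow_of_nonneg _ _ h1a.le, ENNReal.mul_rpow_of_nonneg _ _ ha0.le]
      calc U⁻¹ ^ (1 - a) * u x ^ (1 - a) * (V⁻¹ ^ a * v y ^ a)
          = (U⁻¹ ^ (1 - a) * V⁻¹ ^ a) * (u x ^ (1 - a) * v y ^ a) := by ring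
        _ ≤ _ := by gcongr; exact h x y)
  rw [lintegral_const_mul _ hu, lintegral_const_mul _ hv, lintegral_const_mul _ hw,
    ENNReal.mul_rpow_of_nonneg _ _ h1a.le, ENNReal.mul_rpow_of_nonneg _ _ ha0.le] at key
  have hc0 : U⁻¹ ^ (1 - a) * V⁻¹ ^ a ≠ 0 := by
    refine mul_ne_zero ?_ ?_
    · exact (ENNReal.rpow_pos (pos_iff_ne_zero.2 hUi0) hUi).ne'
    · exact (ENNReal.rpow_pos (pos_iff_ne_zero.2 hVi0) hVi).ne'
  have hct : U⁻¹ ^ (1 - a) * V⁻¹ ^ a ≠ ∞ :=
    ENNReal.mul_ne_top (ENNReal.rpow_ne_top_of_nonneg h1a.le hUi)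
      (ENNReal.rpow_ne_top_of_nonneg ha0.le hVi)
  rw [← ENNReal.mul_le_mul_iff_right hc0 hct]
  calc (U⁻¹ ^ (1 - a) * V⁻¹ ^ a) * ((∫⁻ x, u x) ^ (1 - a) * (∫⁻ x, v x) ^ a)
      = U⁻¹ ^ (1 - a) * (∫⁻ x, u x) ^ (1 - a) * (V⁻¹ ^ a * (∫⁻ x, v x) ^ a) := by ring
    _ ≤ _ := key

/-- Prékopa–Leindler on the line. -/
theorem pl_real : PLProp (volume : Measure ℝ) := by
  intro a ha0 ha1 u v w hu hv hw h
  have h1a : 0 < 1 - a := by linarith
  have key : ∀ n : ℕ, (∫⁻ x, min (u x) n) ^ (1 - a) * (∫⁻ x, min (v x) n) ^ a ≤ ∫⁻ x, w x := by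
    intro n
    refine pl_bdd ha0 ha1 (by fun_prop) (by fun_prop) hw (M := n) (by simp)
      (fun x => min_le_right _ _) (fun x => min_le_right _ _) fun x y => ?_
    refine le_trans ?_ (h x y)
    gcongr
    · exact min_le_left _ _
    · exact min_le_left _ _
  have lim : ∀ {z : ℝ → ℝ≥0∞}, Measurable z →
      Tendsto (fun n : ℕ => ∫⁻ x, min (z x) n) atTop (𝓝 (∫⁻ x, z x)) := by
    intro z hz
    refine lintegral_tendsto_of_tendsto_of_monotone (fun n => by fun_prop) ?_ ?_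
    · refine Eventually.of_forall fun x => ?_
      intro m n hmn
      exact min_le_min le_rfl (by exact_mod_cast hmn)
    · refine Eventually.of_forall fun x => ?_
      have : Tendsto (fun n : ℕ => min (z x) (n : ℝ≥0∞)) atTop (𝓝 (min (z x) ∞)) :=
        tendsto_const_nhds.min ENNReal.tendsto_nat_nhds_top
      simpa using this
  rcases eq_or_ne (∫⁻ x, u x) 0 with hU0 | hU0
  · rw [hU0, ENNReal.zero_rpow_of_pos h1a, zero_mul]; exact bot_le
  rcases eq_or_ne (∫⁻ x, v x) 0 with hV0 | hV0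
  · rw [hV0, ENNReal.zero_rpow_of_pos ha0, mul_zero]; exact bot_le
  have hr1 : (∫⁻ x, u x) ^ (1 - a) ≠ 0 := by
    intro h0
    rcases ENNReal.rpow_eq_zero_iff.1 h0 with h | h
    · exact hU0 h.1
    · linarith [h.2]
  have hr2 : (∫⁻ x, v x) ^ a ≠ 0 := by
    intro h0
    rcases ENNReal.rpow_eq_zero_iff.1 h0 with h | h
    · exact hV0 h.1
    · linarith [h.2]
  have := ENNReal.Tendsto.mul
    ((ENNReal.continuous_rpow_const (y := 1 - a)).continuousAt.tendsto.comp (lim hu)) (Or.inl hr1)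
    ((ENNReal.continuous_rpow_const (y := a)).continuousAt.tendsto.comp (lim hv)) (Or.inl hr2)
  exact le_of_tendsto' this key

/-- The Prékopa–Leindler property is stable under products. -/
theorem PLProp.prod {X Y : Type*} [AddCommGroup X] [Module ℝ X] [MeasurableSpace X]
    [AddCommGroup Y] [Module ℝ Y] [MeasurableSpace Y] {μ : Measure X} {ν : Measure Y}
    [SFinite μ] [SFinite ν] (hμ : PLProp μ) (hν : PLProp ν) : PLProp (μ.prod ν) := by
  intro a ha0 ha1 u v w hu hv hw h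
  rw [lintegral_prod_symm' _ hu, lintegral_prod_symm' _ hv, lintegral_prod_symm' _ hw]
  refine hν a ha0 ha1 _ _ _ hu.lintegral_prod_left' hv.lintegral_prod_left'
    hw.lintegral_prod_left' fun y1 y2 => ?_
  refine hμ a ha0 ha1 (fun x => u (x, y1)) (fun x => v (x, y2))
    (fun x => w (x, (1 - a) • y1 + a • y2)) (by fun_prop) (by fun_prop) (by fun_prop)
    fun x1 x2 => ?_
  exact h (x1, y1) (x2, y2)

/-- Transfer of the Prékopa–Leindler property along a measure preserving linear map. -/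
theorem PLProp.map {X Y : Type*} [AddCommGroup X] [Module ℝ X] [MeasurableSpace X]
    [AddCommGroup Y] [Module ℝ Y] [MeasurableSpace Y] {μ : Measure X} {ν : Measure Y}
    (hμ : PLProp μ) (f : X → Y) (hf : MeasurePreserving f μ ν)
    (hlin : ∀ (a : ℝ) (x y : X), f ((1 - a) • x + a • y) = (1 - a) • f x + a • f y) :
    PLProp ν := by
  intro a ha0 ha1 u v w hu hv hw h
  rw [← hf.lintegral_comp hu, ← hf.lintegral_comp hv, ← hf.lintegral_comp hw]
  refine hμ a ha0 ha1 _ _ _ (hu.comp hf.measurable) (hv.comp hf.measurable)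
    (hw.comp hf.measurable) fun x y => ?_
  simp only [Function.comp, hlin]
  exact h _ _

theorem pl_pi : ∀ n : ℕ, PLProp (volume : Measure (Fin n → ℝ))
  | 0 => by
    intro a ha0 ha1 u v w hu hv hw h
    have h1a : 0 < 1 - a := by linarith
    have hvol : (volume : Measure (Fin 0 → ℝ)) = Measure.dirac default := by
      rw [volume_pi, Measure.pi_of_empty _ default]
    rw [hvol, lintegral_dirac, lintegral_dirac, lintegral_dirac]
    have := h default default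
    rwa [Subsingleton.elim ((1 - a) • (default : Fin 0 → ℝ) + a • default) default] at this
  | n + 1 => by
    have h1 : PLProp ((volume : Measure ℝ).prod (volume : Measure (Fin n → ℝ))) :=
      pl_real.prod (pl_pi n)
    refine h1.map (MeasurableEquiv.piFinSuccAbove (fun _ => ℝ) 0).symm
      (volume_preserving_piFinSuccAbove (fun _ => ℝ) 0).symm ?_
    intro a x y
    ext i
    refine Fin.cases ?_ (fun j => ?_) i
    · simp [MeasurableEquiv.piFinSuccAbove]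
    · simp [MeasurableEquiv.piFinSuccAbove]

/-- Prékopa–Leindler on a finite-dimensional Euclidean space. -/
theorem pl_space (F : Type*) [NormedAddCommGroup F] [InnerProductSpace ℝ F]
    [FiniteDimensional ℝ F] [MeasurableSpace F] [BorelSpace F] :
    PLProp (volume : Measure F) := by
  have h0 := pl_pi (Module.finrank ℝ F)
  have h1 : PLProp (volume : Measure (EuclideanSpace ℝ (Fin (Module.finrank ℝ F)))) := by
    refine h0.map (WithLp.toLp 2) (PiLp.volume_preserving_toLp _) ?_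
    intro a x y
    rfl
  refine h1.map (stdOrthonormalBasis ℝ F).repr.symm
    (stdOrthonormalBasis ℝ F).measurePreserving_repr_symm ?_
  intro a x y
  simp

end Pool.Agent.Lib.MP_8d00da_gt.h42
end

section

section

/-!
Scalar functions of the matrix potential (paper 323, section 5):
`r(x) = 1/(1+σx)`, `b(x) = x r(x)`, `f(x) = x b(x)^q`, the divided difference `c` of `f'`
and its bound `c ≤ ω` (5.2); the discrete layer cake (5.3).
-/

namespace Pool.Agent.Lib.MP_8d00da_gt.h42k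

/-- `r(x) = 1/(1+σ x)` -/
noncomputable def fr (σ x : ℝ) : ℝ := 1 / (1 + σ * x)

/-- `b(x) = x/(1+σ x)` -/
noncomputable def fb (σ x : ℝ) : ℝ := x / (1 + σ * x)

/-- `f(x) = x b(x)^q` -/
noncomputable def ff (q : ℕ) (σ x : ℝ) : ℝ := x * fb σ x ^ q

/-- `f'(x) = b(x)^q + q r(x) b(x)^q` -/
noncomputable def fd (q : ℕ) (σ x : ℝ) : ℝ := fb σ x ^ q + q * (fr σ x * fb σ x ^ q)

/-- `S(x,y) = r(x) r(y) Σ_{j<q} b(x)^j b(y)^{q-1-j}` -/
noncomputable def fS (q : ℕ) (σ x y : ℝ) : ℝ :=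
  fr σ x * fr σ y * ∑ j ∈ Finset.range q, fb σ x ^ j * fb σ y ^ (q - 1 - j)

/-- the divided difference of `f'` -/
noncomputable def cc (q : ℕ) (σ x y : ℝ) : ℝ :=
  fS q σ x y * (1 + q * fr σ x) - q * σ * fr σ x * fr σ y * fb σ y ^ q

/-- `ω(y) = 2 (1 + q r(y))² b(y)^q / y` -/
noncomputable def fo (q : ℕ) (σ y : ℝ) : ℝ := 2 * (1 + q * fr σ y) ^ 2 * fb σ y ^ q / y

variable {q : ℕ} {σ x y z : ℝ}

lemma one_add_pos (hσ : 0 ≤ σ) (hx : 0 ≤ x) : 0 < 1 + σ * x := by positivity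

lemma fr_pos (hσ : 0 ≤ σ) (hx : 0 ≤ x) : 0 < fr σ x := by
  unfold fr; have := one_add_pos hσ hx; positivity

lemma fr_le_one (hσ : 0 ≤ σ) (hx : 0 ≤ x) : fr σ x ≤ 1 := by
  unfold fr
  rw [div_le_one (one_add_pos hσ hx)]
  nlinarith [mul_nonneg hσ hx]

lemma fb_eq (σ x : ℝ) : fb σ x = x * fr σ x := by
  unfold fb fr; ring

lemma fb_nonneg (hσ : 0 ≤ σ) (hx : 0 ≤ x) : 0 ≤ fb σ x := by
  rw [fb_eq]; exact mul_nonneg hx (fr_pos hσ hx).le

lemma fb_le (hσ : 0 ≤ σ) (hx : 0 ≤ x) : fb σ x ≤ x := by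
  rw [fb_eq]
  calc x * fr σ x ≤ x * 1 := mul_le_mul_of_nonneg_left (fr_le_one hσ hx) hx
    _ = x := mul_one x

lemma fb_mono (hσ : 0 ≤ σ) (hx : 0 ≤ x) (hxy : x ≤ y) : fb σ x ≤ fb σ y := by
  unfold fb
  rw [div_le_div_iff₀ (one_add_pos hσ hx) (one_add_pos hσ (hx.trans hxy))]
  nlinarith

lemma fb_le_inv (hσ : 0 < σ) (hx : 0 ≤ x) : fb σ x ≤ 1 / σ := by
  unfold fb
  rw [div_le_div_iff₀ (one_add_pos hσ.le hx) hσ]
  nlinarith

lemma fr_anti (hσ : 0 ≤ σ) (hx : 0 ≤ x) (hxy : x ≤ y) : fr σ y ≤ fr σ x := by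
  unfold fr
  rw [div_le_div_iff₀ (one_add_pos hσ (hx.trans hxy)) (one_add_pos hσ hx)]
  nlinarith [mul_le_mul_of_nonneg_left hxy hσ]

lemma ff_nonneg (hσ : 0 ≤ σ) (hx : 0 ≤ x) : 0 ≤ ff q σ x := by
  unfold ff; exact mul_nonneg hx (pow_nonneg (fb_nonneg hσ hx) _)

lemma ff_le_pow (hσ : 0 ≤ σ) (hx : 0 ≤ x) : ff q σ x ≤ x ^ (q + 1) := by
  unfold ff
  rw [pow_succ']
  exact mul_le_mul_of_nonneg_left (pow_le_pow_left₀ (fb_nonneg hσ hx) (fb_le hσ hx) _) hx

/-- `b(y) - b(x) = r(x) r(y) (y - x)` -/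
lemma fb_sub (hσ : 0 ≤ σ) (hx : 0 ≤ x) (hy : 0 ≤ y) :
    fb σ y - fb σ x = fr σ x * fr σ y * (y - x) := by
  unfold fb fr
  have h1 := (one_add_pos hσ hx).ne'
  have h2 := (one_add_pos hσ hy).ne'
  field_simp
  ring

/-- `r(y) - r(x) = - σ r(x) r(y) (y - x)` -/
lemma fr_sub (hσ : 0 ≤ σ) (hx : 0 ≤ x) (hy : 0 ≤ y) :
    fr σ y - fr σ x = - (σ * fr σ x * fr σ y * (y - x)) := by
  unfold fr
  have h1 := (one_add_pos hσ hx).ne'
  have h2 := (one_add_pos hσ hy).ne'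
  field_simp
  ring

/-- `S(x,y)(y-x) = b(y)^q - b(x)^q` -/
lemma fS_mul (hσ : 0 ≤ σ) (hx : 0 ≤ x) (hy : 0 ≤ y) :
    fS q σ x y * (y - x) = fb σ y ^ q - fb σ x ^ q := by
  have h : (fb σ y - fb σ x) * ∑ j ∈ Finset.range q, fb σ x ^ j * fb σ y ^ (q - 1 - j)
      = fb σ y ^ q - fb σ x ^ q := by
    have := (Commute.all (fb σ x) (fb σ y)).geom_sum₂_mul q
    linarith [this]
  rw [← h, fb_sub hσ hx hy]
  unfold fS
  ring

lemma fS_nonneg (hσ : 0 ≤ σ) (hx : 0 ≤ x) (hy : 0 ≤ y) : 0 ≤ fS q σ x y := by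
  unfold fS
  refine mul_nonneg (mul_nonneg (fr_pos hσ hx).le (fr_pos hσ hy).le) (Finset.sum_nonneg ?_)
  intro j _
  exact mul_nonneg (pow_nonneg (fb_nonneg hσ hx) _) (pow_nonneg (fb_nonneg hσ hy) _)

lemma fS_symm (q : ℕ) (σ x y : ℝ) : fS q σ x y = fS q σ y x := by
  unfold fS
  rw [mul_comm (fr σ x)]
  congr 1
  rw [← Finset.sum_range_reflect]
  refine Finset.sum_congr rfl ?_
  intro j hj
  have hj' := Finset.mem_range.mp hj
  have : q - 1 - (q - 1 - j) = j := by omega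
  rw [this, mul_comm]

/-- the two forms of `c` agree -/
lemma cc_symm (hσ : 0 ≤ σ) (hx : 0 ≤ x) (hy : 0 ≤ y) : cc q σ x y = cc q σ y x := by
  unfold cc
  rw [fS_symm q σ y x]
  have h1 := fr_sub hσ hx hy
  have h2 := fS_mul (q := q) hσ hx hy
  -- S q (r x - r y) = q σ r r (b(y)^q - b(x)^q)
  have h3 : fS q σ x y * (fr σ x - fr σ y) = σ * fr σ x * fr σ y * (fb σ y ^ q - fb σ x ^ q) := by
    have h4 : fr σ x - fr σ y = σ * fr σ x * fr σ y * (y - x) := by linarith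
    rw [h4, ← h2]; ring
  have h5 : (q : ℝ) * (fS q σ x y * (fr σ x - fr σ y))
      = q * (σ * fr σ x * fr σ y * (fb σ y ^ q - fb σ x ^ q)) := by rw [h3]
  linarith [h5]

/-- `c(x,y)(y-x) = f'(y) - f'(x)` -/
lemma cc_mul (hσ : 0 ≤ σ) (hx : 0 ≤ x) (hy : 0 ≤ y) :
    cc q σ x y * (y - x) = fd q σ y - fd q σ x := by
  have h1 := fr_sub hσ hx hy
  have h2 := fS_mul (q := q) hσ hx hy
  unfold cc fd
  have h3 : (q : ℝ) * σ * fr σ x * fr σ y * fb σ y ^ q * (y - x)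
      = - (q * fb σ y ^ q * (fr σ y - fr σ x)) := by rw [h1]; ring
  calc (fS q σ x y * (1 + q * fr σ x) - q * σ * fr σ x * fr σ y * fb σ y ^ q) * (y - x)
      = (fS q σ x y * (y - x)) * (1 + q * fr σ x)
        - q * σ * fr σ x * fr σ y * fb σ y ^ q * (y - x) := by ring
    _ = (fb σ y ^ q - fb σ x ^ q) * (1 + q * fr σ x) + q * fb σ y ^ q * (fr σ y - fr σ x) := by
        rw [h2, h3]; ring
    _ = _ := by ring

/-- 5.2, first half: `S(x,y) ≤ 2 (1 + q r(y)) b(y)^q / y` for `0 ≤ x ≤ y`, `y > 0`. -/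
lemma fS_le (hσ : 0 ≤ σ) (hx : 0 ≤ x) (hxy : x ≤ y) (hy : 0 < y) :
    fS q σ x y ≤ 2 * (1 + q * fr σ y) * fb σ y ^ q / y := by
  have hry := fr_pos hσ hy.le
  have hrx := fr_pos hσ hx
  have hby := fb_nonneg hσ hy.le
  have hbx := fb_nonneg hσ hx
  have hbq : 0 ≤ fb σ y ^ q := pow_nonneg hby _
  have hq : (0 : ℝ) ≤ q := Nat.cast_nonneg q
  rcases le_total x (y / 2) with h | h
  · -- S (y-x) = b(y)^q - b(x)^q ≤ b(y)^q
    have h1 := fS_mul (q := q) hσ hx hy.le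
    have h2 : fS q σ x y * (y - x) ≤ fb σ y ^ q := by
      rw [h1]; linarith [pow_nonneg hbx q]
    have h3 : fS q σ x y * (y / 2) ≤ fb σ y ^ q :=
      le_trans (mul_le_mul_of_nonneg_left (by linarith) (fS_nonneg hσ hx hy.le)) h2
    rw [le_div_iff₀ hy]
    have h4 : 0 ≤ 2 * (q * fr σ y) * fb σ y ^ q := by positivity
    nlinarith [h3, h4]
  · -- S ≤ q r(x) r(y) b(y)^(q-1)
    rcases Nat.eq_zero_or_pos q with hq0 | hq0
    · subst hq0
      unfold fS
      simp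
      positivity
    have h1 : ∑ j ∈ Finset.range q, fb σ x ^ j * fb σ y ^ (q - 1 - j)
        ≤ q * fb σ y ^ (q - 1) := by
      have : ∀ j ∈ Finset.range q, fb σ x ^ j * fb σ y ^ (q - 1 - j) ≤ fb σ y ^ (q - 1) := by
        intro j hj
        have hj' := Finset.mem_range.mp hj
        have h5 : fb σ x ^ j ≤ fb σ y ^ j := pow_le_pow_left₀ hbx (fb_mono hσ hx hxy) _
        calc fb σ x ^ j * fb σ y ^ (q - 1 - j) ≤ fb σ y ^ j * fb σ y ^ (q - 1 - j) :=
              mul_le_mul_of_nonneg_right h5 (pow_nonneg hby _)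
          _ = fb σ y ^ (q - 1) := by rw [← pow_add]; congr 1; omega
      calc _ ≤ ∑ _j ∈ Finset.range q, fb σ y ^ (q - 1) := Finset.sum_le_sum this
        _ = _ := by simp
    have h2 : fr σ x ≤ 2 * fr σ y := by
      unfold fr
      have e1 := one_add_pos hσ hx
      have e2 := one_add_pos hσ hy.le
      rw [show 2 * (1 / (1 + σ * y)) = 2 / (1 + σ * y) by ring, div_le_div_iff₀ e1 e2]
      nlinarith [mul_le_mul_of_nonneg_left h hσ]
    have h3 : fb σ y ^ q = fb σ y ^ (q - 1) * (y * fr σ y) := by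
      rw [← fb_eq, ← pow_succ]; congr 1; omega
    have h4 : fS q σ x y ≤ fr σ x * fr σ y * (q * fb σ y ^ (q - 1)) := by
      unfold fS
      exact mul_le_mul_of_nonneg_left h1 (mul_nonneg hrx.le hry.le)
    have hbq1 : 0 ≤ fb σ y ^ (q - 1) := pow_nonneg hby _
    have h6 : fr σ x * fr σ y * (q * fb σ y ^ (q - 1)) ≤ 2 * (q * fr σ y) * fb σ y ^ q / y := by
      rw [le_div_iff₀ hy, h3]
      have : 0 ≤ (q : ℝ) * fb σ y ^ (q - 1) * fr σ y * y := by positivity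
      nlinarith [mul_le_mul_of_nonneg_right h2 this]
    refine h4.trans (h6.trans ?_)
    rw [div_le_div_iff_of_pos_right hy]
    nlinarith [hbq]

/-- 5.2: `c(x,y) ≤ ω(y)` for `0 ≤ x ≤ y`, `y > 0`. -/
lemma cc_le (hσ : 0 ≤ σ) (hx : 0 ≤ x) (hxy : x ≤ y) (hy : 0 < y) : cc q σ x y ≤ fo q σ y := by
  rw [cc_symm hσ hx hy.le]
  unfold cc fo
  rw [fS_symm q σ y x]
  have hry := fr_pos hσ hy.le
  have hrx := fr_pos hσ hx
  have hq : (0 : ℝ) ≤ q := Nat.cast_nonneg q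
  have h0 : 0 ≤ q * σ * fr σ y * fr σ x * fb σ x ^ q := by
    have := pow_nonneg (fb_nonneg hσ hx) q
    positivity
  have h1 := fS_le (q := q) hσ hx hxy hy
  have h2 : 0 ≤ 1 + q * fr σ y := by positivity
  have h3 := mul_le_mul_of_nonneg_right h1 h2
  have h4 : 2 * (1 + q * fr σ y) * fb σ y ^ q / y * (1 + q * fr σ y)
      = 2 * (1 + q * fr σ y) ^ 2 * fb σ y ^ q / y := by ring
  linarith

lemma fo_nonneg (hσ : 0 ≤ σ) (hy : 0 ≤ y) : 0 ≤ fo q σ y := by
  unfold fo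
  have := pow_nonneg (fb_nonneg hσ hy) q
  positivity

end Pool.Agent.Lib.MP_8d00da_gt.h42k
end

section

/-!
Discrete layer cake (paper 323, 5.3), by induction on the largest point.
-/

namespace Pool.Agent.Lib.MP_8d00da_gt.h42k

open Finset

/-- Abstract layer cake: if the weights up to `z` are at most `K0 φ(z)` and
`g(Y)(φ(Y)-φ(y)) ≤ Γ(Y)-Γ(y)`, `g` antitone, then `Σ w g(y) ≤ K0 Γ(Y)`. -/
theorem layer_abs {J : Type*} (S : Finset J) (yv w : J → ℝ) (g φ Γ : ℝ → ℝ) (K0 : ℝ)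
    (hK0 : 0 ≤ K0)
    (hg0 : ∀ z, 0 < z → 0 ≤ g z)
    (hgan : ∀ a b, 0 < a → a ≤ b → g b ≤ g a)
    (hΓ : ∀ a b, 0 < a → a ≤ b → g b * (φ b - φ a) ≤ Γ b - Γ a)
    (hΓ0 : ∀ a, 0 < a → g a * φ a ≤ Γ a)
    (hy : ∀ j ∈ S, 0 < yv j) (hw : ∀ j ∈ S, 0 ≤ w j)
    (hW : ∀ z, 0 < z → ∑ j ∈ S with yv j ≤ z, w j ≤ K0 * φ z)
    (Y : ℝ) (hY : 0 < Y) (hYj : ∀ j ∈ S, yv j ≤ Y) :
    ∑ j ∈ S, w j * g (yv j) ≤ K0 * Γ Y := by
  classical
  -- stronger claim
  have key : ∀ (T : Finset J), T ⊆ S →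
      (∀ z, 0 < z → ∑ j ∈ T with yv j ≤ z, w j ≤ K0 * φ z) →
      ∀ Y : ℝ, 0 < Y → (∀ j ∈ T, yv j ≤ Y) →
      ∑ j ∈ T, w j * g (yv j) ≤ K0 * Γ Y - g Y * (K0 * φ Y - ∑ j ∈ T, w j) := by
    intro T
    induction T using Finset.induction_on_max_value (f := yv) with
    | empty =>
      intro _ _ Y hY _
      simp only [Finset.sum_empty, sub_zero]
      have := mul_le_mul_of_nonneg_left (hΓ0 Y hY) hK0
      nlinarith [this]
    | insert m T' hm hmax ih =>
      intro hT hWT Y hY hYT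
      have hmS : m ∈ S := hT (Finset.mem_insert_self _ _)
      have hym : 0 < yv m := hy m hmS
      have hT' : T' ⊆ S := fun j hj => hT (Finset.mem_insert_of_mem hj)
      have hWT' : ∀ z, 0 < z → ∑ j ∈ T' with yv j ≤ z, w j ≤ K0 * φ z := by
        intro z hz
        refine le_trans (Finset.sum_le_sum_of_subset_of_nonneg ?_ ?_) (hWT z hz)
        · exact Finset.filter_subset_filter _ (Finset.subset_insert _ _)
        · intro j hj _
          exact hw j (hT (Finset.mem_filter.mp hj).1)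
      have h1 := ih hT' hWT' (yv m) hym hmax
      rw [Finset.sum_insert hm, Finset.sum_insert hm]
      have h2 : w m + ∑ j ∈ T', w j ≤ K0 * φ (yv m) := by
        have := hWT (yv m) hym
        have h3 : (insert m T').filter (fun j => yv j ≤ yv m) = insert m T' := by
          apply Finset.filter_true_of_mem
          intro j hj
          rcases Finset.mem_insert.mp hj with rfl | hj
          · exact le_rfl
          · exact hmax j hj
        rw [h3, Finset.sum_insert hm] at this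
        exact this
      have hmY : yv m ≤ Y := hYT m (Finset.mem_insert_self _ _)
      have h4 := hΓ (yv m) Y hym hmY
      have h5 := hgan (yv m) Y hym hmY
      have h6 := mul_le_mul_of_nonneg_left h4 hK0
      have h7 : (g (yv m) - g Y) * (w m + ∑ j ∈ T', w j) ≤ (g (yv m) - g Y) * (K0 * φ (yv m)) :=
        mul_le_mul_of_nonneg_left h2 (by linarith)
      nlinarith [h1, h6, h7]
  have h := key S (Finset.Subset.refl _) hW Y hY hYj
  have hWS : ∑ j ∈ S, w j ≤ K0 * φ Y := by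
    have := hW Y hY
    rwa [Finset.filter_true_of_mem (fun j hj => hYj j hj)] at this
  have := mul_nonneg (hg0 Y hY) (sub_nonneg.mpr hWS)
  linarith

/-- 5.3 (a): partial sums at most `K0 z^{3/2}`. -/
theorem layer_a {J : Type*} (S : Finset J) (yv w : J → ℝ) (σ K0 : ℝ) (hσ : 0 ≤ σ) (hK0 : 0 ≤ K0)
    (hy : ∀ j ∈ S, 0 < yv j) (hw : ∀ j ∈ S, 0 ≤ w j)
    (hW : ∀ z, 0 < z → ∑ j ∈ S with yv j ≤ z, w j ≤ K0 * (z * √z))
    (Y : ℝ) (hY : 0 < Y) (hYj : ∀ j ∈ S, yv j ≤ Y) :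
    ∑ j ∈ S, w j * (fr σ (yv j) ^ 2 / yv j) ≤ K0 * (3 * √(fb σ Y)) := by
  refine layer_abs S yv w (fun z => fr σ z ^ 2 / z) (fun z => z * √z) (fun z => 3 * √(fb σ z)) K0
    hK0 ?_ ?_ ?_ ?_ hy hw hW Y hY hYj
  · intro z hz
    have := fr_pos hσ hz.le
    positivity
  · intro a b ha hab
    have h1 := fr_anti hσ ha.le hab
    have h2 := fr_pos hσ (ha.le.trans hab)
    have h3 : fr σ b ^ 2 ≤ fr σ a ^ 2 := by gcongr
    have hb : 0 < b := ha.trans_le hab
    show fr σ b ^ 2 / b ≤ fr σ a ^ 2 / a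
    gcongr
  · intro a b ha hab
    have hb : 0 < b := ha.trans_le hab
    show fr σ b ^ 2 / b * (b * √b - a * √a) ≤ 3 * √(fb σ b) - 3 * √(fb σ a)
    set A := √a with hA
    set B := √b with hB
    have hApos : 0 < A := Real.sqrt_pos.mpr ha
    have hBpos : 0 < B := Real.sqrt_pos.mpr hb
    have hAB : A ≤ B := Real.sqrt_le_sqrt hab
    have ha2 : a = A ^ 2 := (Real.sq_sqrt ha.le).symm
    have hb2 : b = B ^ 2 := (Real.sq_sqrt hb.le).symm
    have hra := fr_pos hσ ha.le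
    have hrb := fr_pos hσ hb.le
    have hran := fr_anti hσ ha.le hab
    -- right side
    have hbb : fb σ b - fb σ a = fr σ a * fr σ b * (b - a) := fb_sub hσ ha.le hb.le
    have hba0 : 0 ≤ fb σ a := fb_nonneg hσ ha.le
    have hbb0 : 0 ≤ fb σ b := fb_nonneg hσ hb.le
    have hsa : √(fb σ a) ≤ A := Real.sqrt_le_sqrt (fb_le hσ ha.le)
    have hsb : √(fb σ b) ≤ B := Real.sqrt_le_sqrt (fb_le hσ hb.le)
    have hmono : √(fb σ a) ≤ √(fb σ b) := Real.sqrt_le_sqrt (fb_mono hσ ha.le hab)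
    have hdiff : (√(fb σ b) - √(fb σ a)) * (√(fb σ b) + √(fb σ a)) = fb σ b - fb σ a := by
      have e1 := Real.mul_self_sqrt hba0
      have e2 := Real.mul_self_sqrt hbb0
      nlinarith
    have h1 : fr σ b ^ 2 * (b - a) ≤ (√(fb σ b) - √(fb σ a)) * (B + A) := by
      have e1 : fr σ b ^ 2 * (b - a) ≤ fr σ a * fr σ b * (b - a) := by
        have : fr σ b ^ 2 ≤ fr σ a * fr σ b := by nlinarith
        exact mul_le_mul_of_nonneg_right this (by linarith)
      have e2 : (√(fb σ b) - √(fb σ a)) * (√(fb σ b) + √(fb σ a))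
          ≤ (√(fb σ b) - √(fb σ a)) * (B + A) :=
        mul_le_mul_of_nonneg_left (by linarith) (by linarith)
      linarith
    have h2 : fr σ b ^ 2 * (B - A) ≤ √(fb σ b) - √(fb σ a) := by
      have hpos : 0 < B + A := by linarith
      have : (fr σ b ^ 2 * (B - A)) * (B + A) ≤ (√(fb σ b) - √(fb σ a)) * (B + A) := by
        calc (fr σ b ^ 2 * (B - A)) * (B + A) = fr σ b ^ 2 * (B ^ 2 - A ^ 2) := by ring
          _ = fr σ b ^ 2 * (b - a) := by rw [← ha2, ← hb2]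
          _ ≤ _ := h1
      exact le_of_mul_le_mul_right this hpos
    have h3 : fr σ b ^ 2 / b * (b * B - a * A) ≤ 3 * (fr σ b ^ 2 * (B - A)) := by
      rw [div_mul_eq_mul_div, div_le_iff₀ hb]
      have e : b * B - a * A ≤ 3 * (B - A) * b := by
        rw [ha2, hb2]
        nlinarith [mul_nonneg (sub_nonneg.mpr hAB) (mul_nonneg (sub_nonneg.mpr hAB) hApos.le),
          mul_nonneg (sub_nonneg.mpr hAB) (sq_nonneg (B - A)), mul_pos hApos hBpos]
      have := mul_le_mul_of_nonneg_left e (sq_nonneg (fr σ b))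
      nlinarith [this]
    linarith
  · intro a ha
    show fr σ a ^ 2 / a * (a * √a) ≤ 3 * √(fb σ a)
    have hra := fr_pos hσ ha.le
    have hr1 := fr_le_one hσ ha.le
    have hA : 0 < √a := Real.sqrt_pos.mpr ha
    have h1 : fr σ a ^ 2 / a * (a * √a) = fr σ a ^ 2 * √a := by
      field_simp
    rw [h1]
    have h2 : √(fb σ a) = √a * √(fr σ a) := by
      rw [fb_eq, Real.sqrt_mul ha.le]
    have h3 : fr σ a ≤ √(fr σ a) := by
      have := Real.sqrt_le_sqrt (show fr σ a ^ 2 ≤ fr σ a by nlinarith)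
      rwa [Real.sqrt_sq hra.le] at this
    rw [h2]
    have h4 : fr σ a ^ 2 ≤ √(fr σ a) := by nlinarith
    nlinarith [mul_le_mul_of_nonneg_left h4 hA.le, Real.sqrt_nonneg (fr σ a), mul_nonneg hA.le (Real.sqrt_nonneg (fr σ a))]

/-- 5.3 (b): partial sums at most `K0 z²`. -/
theorem layer_b {J : Type*} (S : Finset J) (yv w : J → ℝ) (σ K0 : ℝ) (hσ : 0 ≤ σ) (hK0 : 0 ≤ K0)
    (hy : ∀ j ∈ S, 0 < yv j) (hw : ∀ j ∈ S, 0 ≤ w j)
    (hW : ∀ z, 0 < z → ∑ j ∈ S with yv j ≤ z, w j ≤ K0 * z ^ 2)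
    (Y : ℝ) (hY : 0 < Y) (hYj : ∀ j ∈ S, yv j ≤ Y) :
    ∑ j ∈ S, w j * (fr σ (yv j) ^ 2 / yv j) ≤ K0 * (2 * fb σ Y) := by
  refine layer_abs S yv w (fun z => fr σ z ^ 2 / z) (fun z => z ^ 2) (fun z => 2 * fb σ z) K0
    hK0 ?_ ?_ ?_ ?_ hy hw hW Y hY hYj
  · intro z hz
    have := fr_pos hσ hz.le
    positivity
  · intro a b ha hab
    have h1 := fr_anti hσ ha.le hab
    have h2 := fr_pos hσ (ha.le.trans hab)
    have h3 : fr σ b ^ 2 ≤ fr σ a ^ 2 := by gcongr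
    have hb : 0 < b := ha.trans_le hab
    show fr σ b ^ 2 / b ≤ fr σ a ^ 2 / a
    gcongr
  · intro a b ha hab
    have hb : 0 < b := ha.trans_le hab
    show fr σ b ^ 2 / b * (b ^ 2 - a ^ 2) ≤ 2 * fb σ b - 2 * fb σ a
    have hra := fr_pos hσ ha.le
    have hrb := fr_pos hσ hb.le
    have hran := fr_anti hσ ha.le hab
    have hbb : fb σ b - fb σ a = fr σ a * fr σ b * (b - a) := fb_sub hσ ha.le hb.le
    have e1 : fr σ b ^ 2 * (b - a) ≤ fr σ a * fr σ b * (b - a) := by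
      have : fr σ b ^ 2 ≤ fr σ a * fr σ b := by nlinarith
      exact mul_le_mul_of_nonneg_right this (by linarith)
    have h3 : fr σ b ^ 2 / b * (b ^ 2 - a ^ 2) ≤ 2 * (fr σ b ^ 2 * (b - a)) := by
      rw [div_mul_eq_mul_div, div_le_iff₀ hb]
      have e : b ^ 2 - a ^ 2 ≤ 2 * (b - a) * b := by nlinarith
      have := mul_le_mul_of_nonneg_left e (sq_nonneg (fr σ b))
      nlinarith [this]
    linarith
  · intro a ha
    show fr σ a ^ 2 / a * a ^ 2 ≤ 2 * fb σ a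
    have hra := fr_pos hσ ha.le
    have hr1 := fr_le_one hσ ha.le
    rw [fb_eq]
    have h1 : fr σ a ^ 2 / a * a ^ 2 = fr σ a ^ 2 * a := by
      field_simp
    rw [h1]
    nlinarith [mul_nonneg ha.le hra.le, mul_le_mul_of_nonneg_left hr1 (mul_nonneg ha.le hra.le)]

end Pool.Agent.Lib.MP_8d00da_gt.h42k
end

section

/-!
The triple sum estimate (paper 323, 5.4).

`u i j k` = third central moments in an orthonormal eigenbasis, `lam` = eigenvalues.
-/

namespace Pool.Agent.Lib.MP_8d00da_gt.h42k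

open Finset

variable {ι : Type*} [Fintype ι]

/-- `S_i(z) = Σ_{λ_j, λ_k ≤ z} u_ijk²` -/
noncomputable def SI (lam : ι → ℝ) (u : ι → ι → ι → ℝ) (i : ι) (z : ℝ) : ℝ :=
  ∑ j, ∑ k, if lam j ≤ z ∧ lam k ≤ z then u i j k ^ 2 else 0

lemma SI_nonneg (lam : ι → ℝ) (u : ι → ι → ι → ℝ) (i : ι) (z : ℝ) : 0 ≤ SI lam u i z := by
  unfold SI
  refine Finset.sum_nonneg fun j _ => Finset.sum_nonneg fun k _ => ?_
  split_ifs
  · positivity
  · exact le_rfl

omit [Fintype ι] in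
/-- the `ω`-majorant of one term -/
lemma cc_u_le {q : ℕ} {σ : ℝ} (hσ : 0 ≤ σ) (lam : ι → ℝ) (hlam : ∀ i, 0 ≤ lam i)
    (u : ι → ι → ι → ℝ)
    (h2 : ∀ i j k, u i j k = u i k j)
    (h3 : ∀ i j k, lam i = 0 → u i j k = 0) (h12 : ∀ i j k, u i j k = u j i k) (i j k : ι) :
    cc q σ (lam j) (lam k) * u i j k ^ 2 ≤ fo q σ (max (lam j) (lam k)) * u i j k ^ 2 := by
  rcases eq_or_ne (u i j k) 0 with h | h
  · simp [h]
  have hj : 0 < lam j := by
    rcases (hlam j).lt_or_eq with h' | h'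
    · exact h'
    · exact absurd (by rw [h12]; exact h3 j i k h'.symm) h
  have hk : 0 < lam k := by
    rcases (hlam k).lt_or_eq with h' | h'
    · exact h'
    · exact absurd (by rw [h2, h12]; exact h3 k i j h'.symm) h
  refine mul_le_mul_of_nonneg_right ?_ (sq_nonneg _)
  rcases le_total (lam j) (lam k) with hjk | hjk
  · rw [max_eq_right hjk]
    exact cc_le hσ hj.le hjk hk
  · rw [max_eq_left hjk, cc_symm hσ hj.le hk.le]
    exact cc_le hσ hk.le hjk hj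

/-- Part (a): pairs with `max(λ_j,λ_k) ≥ λ_i`, regrouped by the index of the maximum. -/
lemma part_a {q : ℕ} {σ : ℝ} (hσ : 0 ≤ σ) (lam : ι → ℝ) (hlam : ∀ i, 0 ≤ lam i)
    (u : ι → ι → ι → ℝ)
    (h2 : ∀ i j k, u i j k = u i k j) (h12 : ∀ i j k, u i j k = u j i k) :
    ∑ i, ∑ j, ∑ k, (if lam i ≤ max (lam j) (lam k) then
        fo q σ (max (lam j) (lam k)) * u i j k ^ 2 else 0)
      ≤ 2 * ∑ m, fo q σ (lam m) * SI lam u m (lam m) := by
  -- termwise: ≤ [λ_j ≤ λ_k, λ_i ≤ λ_k] ω(λ_k) u² + [λ_k ≤ λ_j, λ_i ≤ λ_j] ω(λ_j) u²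
  have hterm : ∀ i j k, (if lam i ≤ max (lam j) (lam k) then
        fo q σ (max (lam j) (lam k)) * u i j k ^ 2 else 0)
      ≤ (if lam i ≤ lam k ∧ lam j ≤ lam k then fo q σ (lam k) * u i j k ^ 2 else 0)
        + (if lam i ≤ lam j ∧ lam k ≤ lam j then fo q σ (lam j) * u i j k ^ 2 else 0) := by
    intro i j k
    have e1 : 0 ≤ (if lam i ≤ lam k ∧ lam j ≤ lam k then fo q σ (lam k) * u i j k ^ 2 else 0) := by
      split_ifs
      · exact mul_nonneg (fo_nonneg hσ (hlam k)) (sq_nonneg _)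
      · exact le_rfl
    have e2 : 0 ≤ (if lam i ≤ lam j ∧ lam k ≤ lam j then fo q σ (lam j) * u i j k ^ 2 else 0) := by
      split_ifs
      · exact mul_nonneg (fo_nonneg hσ (hlam j)) (sq_nonneg _)
      · exact le_rfl
    rcases le_total (lam j) (lam k) with hjk | hjk
    · rw [max_eq_right hjk]
      by_cases hik : lam i ≤ lam k
      · rw [if_pos hik, if_pos (And.intro hik hjk)]; linarith
      · rw [if_neg hik]; linarith
    · rw [max_eq_left hjk]
      by_cases hik : lam i ≤ lam j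
      · rw [if_pos hik, if_pos (And.intro hik hjk)]; linarith
      · rw [if_neg hik]; linarith
  have hsum1 : ∑ i, ∑ j, ∑ k,
      (if lam i ≤ lam k ∧ lam j ≤ lam k then fo q σ (lam k) * u i j k ^ 2 else 0)
      = ∑ m, fo q σ (lam m) * SI lam u m (lam m) := by
    have e1 : ∀ i, ∑ j, ∑ k,
        (if lam i ≤ lam k ∧ lam j ≤ lam k then fo q σ (lam k) * u i j k ^ 2 else 0)
        = ∑ k, ∑ j,
        (if lam i ≤ lam k ∧ lam j ≤ lam k then fo q σ (lam k) * u i j k ^ 2 else 0) :=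
      fun i => Finset.sum_comm
    rw [Finset.sum_congr rfl (fun i _ => e1 i), Finset.sum_comm]
    refine Finset.sum_congr rfl fun m _ => ?_
    unfold SI
    rw [Finset.mul_sum]
    refine Finset.sum_congr rfl fun i _ => ?_
    rw [Finset.mul_sum]
    refine Finset.sum_congr rfl fun j _ => ?_
    have : u i j m = u m i j := by rw [h2 i j m, h12 i m j]
    rw [this]
    split_ifs <;> simp
  have hsum2 : ∑ i, ∑ j, ∑ k,
      (if lam i ≤ lam j ∧ lam k ≤ lam j then fo q σ (lam j) * u i j k ^ 2 else 0)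
      = ∑ m, fo q σ (lam m) * SI lam u m (lam m) := by
    rw [Finset.sum_comm]
    refine Finset.sum_congr rfl fun m _ => ?_
    unfold SI
    rw [Finset.mul_sum]
    refine Finset.sum_congr rfl fun i _ => ?_
    rw [Finset.mul_sum]
    refine Finset.sum_congr rfl fun k _ => ?_
    rw [h12 i m k]
    split_ifs <;> simp
  calc _ ≤ ∑ i, ∑ j, ∑ k,
      ((if lam i ≤ lam k ∧ lam j ≤ lam k then fo q σ (lam k) * u i j k ^ 2 else 0)
        + (if lam i ≤ lam j ∧ lam k ≤ lam j then fo q σ (lam j) * u i j k ^ 2 else 0)) :=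
        Finset.sum_le_sum fun i _ => Finset.sum_le_sum fun j _ => Finset.sum_le_sum fun k _ =>
          hterm i j k
    _ = _ := by
        simp only [Finset.sum_add_distrib]
        rw [hsum1, hsum2]; ring

/-- Part (b): the row `i`, pairs with `max(λ_j,λ_k) < λ_i`. The bound with the two layer cake
sums. `A0`: bound with `(IL)`-type hypothesis for the first sum, `B0` for the second one. -/
lemma part_b_row {q : ℕ} {σ : ℝ} (hσ : 0 ≤ σ) (lam : ι → ℝ) (hlam : ∀ i, 0 ≤ lam i)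
    (u : ι → ι → ι → ℝ)
    (h3 : ∀ i j k, lam i = 0 → u i j k = 0) (h12 : ∀ i j k, u i j k = u j i k)
    (i : ι) (A0 B0 : ℝ)
    (hA : ∀ (S : Finset (ι × ι)), (∀ p ∈ S, 0 < max (lam p.1) (lam p.2)) →
      (∀ p ∈ S, max (lam p.1) (lam p.2) ≤ lam i) →
      ∑ p ∈ S, u i p.1 p.2 ^ 2 * (1 / max (lam p.1) (lam p.2)) ≤ A0)
    (hB : ∀ (S : Finset (ι × ι)), (∀ p ∈ S, 0 < max (lam p.1) (lam p.2)) →
      (∀ p ∈ S, max (lam p.1) (lam p.2) ≤ lam i) →
      ∑ p ∈ S, u i p.1 p.2 ^ 2 * (fr σ (max (lam p.1) (lam p.2)) ^ 2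
        / max (lam p.1) (lam p.2)) ≤ B0) :
    ∑ j, ∑ k, (if lam i ≤ max (lam j) (lam k) then 0 else
        fo q σ (max (lam j) (lam k)) * u i j k ^ 2)
      ≤ 4 * fb σ (lam i) ^ q * (A0 + q ^ 2 * B0) := by
  classical
  set S : Finset (ι × ι) := Finset.univ.filter
    (fun p => max (lam p.1) (lam p.2) < lam i ∧ u i p.1 p.2 ≠ 0) with hS
  have hpos : ∀ p ∈ S, 0 < max (lam p.1) (lam p.2) := by
    intro p hp
    have hp' := (Finset.mem_filter.mp hp).2.2
    rcases (hlam p.1).lt_or_eq with h' | h'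
    · exact lt_max_of_lt_left h'
    · exact absurd (by rw [h12]; exact h3 p.1 i p.2 h'.symm) hp'
  have hle : ∀ p ∈ S, max (lam p.1) (lam p.2) ≤ lam i := by
    intro p hp
    exact (Finset.mem_filter.mp hp).2.1.le
  have e1 : ∑ j, ∑ k, (if lam i ≤ max (lam j) (lam k) then 0 else
        fo q σ (max (lam j) (lam k)) * u i j k ^ 2)
      = ∑ p ∈ S, fo q σ (max (lam p.1) (lam p.2)) * u i p.1 p.2 ^ 2 := by
    rw [← Finset.univ_product_univ, ← Finset.sum_product'] at *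
    rw [hS, Finset.sum_filter]
    refine Finset.sum_congr (by simp) fun p _ => ?_
    by_cases hp : lam i ≤ max (lam p.1) (lam p.2)
    · rw [if_pos hp, if_neg (by intro h; exact absurd h.1 (not_lt.mpr hp))]
    · rw [if_neg hp]
      by_cases hu : u i p.1 p.2 = 0
      · simp [hu]
      · rw [if_pos ⟨not_le.mp hp, hu⟩]
  rw [e1]
  have hterm : ∀ p ∈ S, fo q σ (max (lam p.1) (lam p.2)) * u i p.1 p.2 ^ 2
      ≤ 4 * fb σ (lam i) ^ q * (u i p.1 p.2 ^ 2 * (1 / max (lam p.1) (lam p.2))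
        + q ^ 2 * (u i p.1 p.2 ^ 2 * (fr σ (max (lam p.1) (lam p.2)) ^ 2
        / max (lam p.1) (lam p.2)))) := by
    intro p hp
    set y := max (lam p.1) (lam p.2) with hy
    have hy0 : 0 < y := hpos p hp
    have hyY : y ≤ lam i := hle p hp
    have hr := fr_pos hσ hy0.le
    have hbm : fb σ y ^ q ≤ fb σ (lam i) ^ q :=
      pow_le_pow_left₀ (fb_nonneg hσ hy0.le) (fb_mono hσ hy0.le hyY) _
    have hb0 : 0 ≤ fb σ y ^ q := pow_nonneg (fb_nonneg hσ hy0.le) _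
    have hsq : (1 + q * fr σ y) ^ 2 ≤ 2 * (1 + q ^ 2 * fr σ y ^ 2) := by
      nlinarith [sq_nonneg (1 - q * fr σ y)]
    have h1 : fo q σ y ≤ 4 * fb σ (lam i) ^ q * (1 / y + q ^ 2 * (fr σ y ^ 2 / y)) := by
      unfold fo
      have e : 4 * fb σ (lam i) ^ q * (1 / y + q ^ 2 * (fr σ y ^ 2 / y))
          = (2 * (2 * (1 + q ^ 2 * fr σ y ^ 2)) * fb σ (lam i) ^ q) / y := by
        field_simp; ring
      rw [e, div_le_div_iff_of_pos_right hy0]
      have hp1 : 0 ≤ 2 * (2 * (1 + (q:ℝ) ^ 2 * fr σ y ^ 2)) := by positivity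
      calc 2 * (1 + q * fr σ y) ^ 2 * fb σ y ^ q
          ≤ 2 * (2 * (1 + q ^ 2 * fr σ y ^ 2)) * fb σ y ^ q := by
            have := mul_le_mul_of_nonneg_right hsq hb0
            nlinarith [this]
        _ ≤ _ := mul_le_mul_of_nonneg_left hbm hp1
    have := mul_le_mul_of_nonneg_right h1 (sq_nonneg (u i p.1 p.2))
    calc _ ≤ _ := this
      _ = _ := by ring
  refine (Finset.sum_le_sum hterm).trans ?_
  rw [← Finset.mul_sum, Finset.sum_add_distrib, ← Finset.mul_sum]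
  have hbi : 0 ≤ 4 * fb σ (lam i) ^ q := by
    have := pow_nonneg (fb_nonneg hσ (hlam i)) q
    positivity
  refine mul_le_mul_of_nonneg_left ?_ hbi
  have hA' := hA S hpos hle
  have hB' := hB S hpos hle
  have hq2 : (0 : ℝ) ≤ (q : ℝ) ^ 2 := by positivity
  exact add_le_add hA' (mul_le_mul_of_nonneg_left hB' hq2)

/-- weights up to `z` of a set of pairs are at most `S_i(z)` -/
lemma sum_filter_le_SI (lam : ι → ℝ) (u : ι → ι → ι → ℝ) (i : ι) (S : Finset (ι × ι)) (z : ℝ) :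
    ∑ p ∈ S with max (lam p.1) (lam p.2) ≤ z, u i p.1 p.2 ^ 2 ≤ SI lam u i z := by
  classical
  unfold SI
  rw [← Finset.sum_product']
  rw [← Finset.sum_filter (s := Finset.univ ×ˢ Finset.univ)
    (p := fun p : ι × ι => lam p.1 ≤ z ∧ lam p.2 ≤ z) (f := fun p => u i p.1 p.2 ^ 2)]
  refine Finset.sum_le_sum_of_subset_of_nonneg ?_ (fun _ _ _ => sq_nonneg _)
  intro p hp
  have := (Finset.mem_filter.mp hp).2
  simp only [Finset.mem_filter, Finset.mem_product, Finset.mem_univ, true_and]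
  exact max_le_iff.mp this

end Pool.Agent.Lib.MP_8d00da_gt.h42k
end

section

/-!
The triple sum estimate (paper 323, 5.4), final forms with explicit constants.
-/

namespace Pool.Agent.Lib.MP_8d00da_gt.h42k

open Finset

variable {ι : Type*} [Fintype ι]

lemma sqrt_fb_le {σ y : ℝ} (hσ : 0 < σ) (hy : 0 ≤ y) : √(fb σ y) ≤ 1 / √σ := by
  calc √(fb σ y) ≤ √(1 / σ) := Real.sqrt_le_sqrt (fb_le_inv hσ hy)
    _ = 1 / √σ := by rw [Real.sqrt_div zero_le_one, Real.sqrt_one]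

lemma fr_sq_mul_sqrt {σ y : ℝ} (hσ : 0 < σ) (hy : 0 ≤ y) : fr σ y ^ 2 * √y ≤ 1 / √σ := by
  have hr := fr_pos hσ.le hy
  have hr1 := fr_le_one hσ.le hy
  refine le_trans ?_ (sqrt_fb_le hσ hy)
  rw [fb_eq, Real.sqrt_mul hy]
  have h3 : fr σ y ≤ √(fr σ y) := by
    have := Real.sqrt_le_sqrt (show fr σ y ^ 2 ≤ fr σ y by nlinarith)
    rwa [Real.sqrt_sq hr.le] at this
  have h4 : fr σ y ^ 2 ≤ √(fr σ y) := by nlinarith
  calc fr σ y ^ 2 * √y ≤ √(fr σ y) * √y := mul_le_mul_of_nonneg_right h4 (Real.sqrt_nonneg _)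
    _ = _ := mul_comm _ _

lemma fo_mul {q : ℕ} {σ l T : ℝ} (hl : 0 < l) :
    fo q σ l * (l * T) = 2 * (1 + q * fr σ l) ^ 2 * fb σ l ^ q * T := by
  unfold fo; field_simp

/-- case `σ l ≤ q - 1` : `(1 + q r)² ≤ 4 q² r²` -/
lemma small_case {q : ℕ} {σ l : ℝ} (hσ : 0 < σ) (hl : 0 ≤ l) (h : σ * l ≤ q - 1) :
    (1 + q * fr σ l) ^ 2 ≤ 4 * q ^ 2 * fr σ l ^ 2 := by
  have hr := fr_pos hσ.le hl
  have h1 : 1 ≤ q * fr σ l := by
    unfold fr
    rw [mul_one_div, le_div_iff₀ (one_add_pos hσ.le hl)]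
    linarith
  nlinarith

/-- case `σ l > q - 1` : `(1 + q r)² ≤ 4` -/
lemma large_case {q : ℕ} {σ l : ℝ} (hσ : 0 < σ) (hl : 0 ≤ l) (h : (q : ℝ) - 1 < σ * l) :
    (1 + q * fr σ l) ^ 2 ≤ 4 := by
  have hr := fr_pos hσ.le hl
  have hq : (0 : ℝ) ≤ q := Nat.cast_nonneg q
  have h1 : q * fr σ l ≤ 1 := by
    unfold fr
    rw [mul_one_div, div_le_iff₀ (one_add_pos hσ.le hl)]
    linarith
  have h0 : 0 ≤ q * fr σ l := by positivity
  nlinarith

/-- decomposition of the triple sum -/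
lemma triple_split {q : ℕ} {σ : ℝ} (hσ : 0 ≤ σ) (lam : ι → ℝ) (hlam : ∀ i, 0 ≤ lam i)
    (u : ι → ι → ι → ℝ)
    (h2 : ∀ i j k, u i j k = u i k j) (h12 : ∀ i j k, u i j k = u j i k)
    (h3 : ∀ i j k, lam i = 0 → u i j k = 0) (Rb : ι → ℝ)
    (hRb : ∀ i, ∑ j, ∑ k, (if lam i ≤ max (lam j) (lam k) then 0 else
        fo q σ (max (lam j) (lam k)) * u i j k ^ 2) ≤ Rb i) :
    (1 / 2) * ∑ i, ∑ j, ∑ k, cc q σ (lam j) (lam k) * u i j k ^ 2
      ≤ ∑ i, (fo q σ (lam i) * SI lam u i (lam i) + (1 / 2) * Rb i) := by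
  have h1 : ∑ i, ∑ j, ∑ k, cc q σ (lam j) (lam k) * u i j k ^ 2
      ≤ ∑ i, ∑ j, ∑ k, ((if lam i ≤ max (lam j) (lam k) then
        fo q σ (max (lam j) (lam k)) * u i j k ^ 2 else 0)
        + (if lam i ≤ max (lam j) (lam k) then 0 else
        fo q σ (max (lam j) (lam k)) * u i j k ^ 2)) := by
    refine Finset.sum_le_sum fun i _ => Finset.sum_le_sum fun j _ => Finset.sum_le_sum fun k _ => ?_
    refine (cc_u_le hσ lam hlam u h2 h3 h12 i j k).trans (le_of_eq ?_)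
    split_ifs <;> simp
  simp only [Finset.sum_add_distrib] at h1
  have h4 := part_a (q := q) hσ lam hlam u h2 h12
  have h5 := Finset.sum_le_sum (fun i (_ : i ∈ (Finset.univ : Finset ι)) => hRb i)
  rw [Finset.sum_add_distrib, ← Finset.mul_sum]
  linarith

section
variable {q : ℕ} {σ τ : ℝ} (lam : ι → ℝ) (u : ι → ι → ι → ℝ)

/-- the layer cake hypothesis from a bound of `S_i` -/
lemma layer_hyp {φ : ℝ → ℝ} {K0 : ℝ} (i : ι)
    (h : ∀ z, 0 < z → SI lam u i z ≤ K0 * φ z) (S : Finset (ι × ι)) (z : ℝ) (hz : 0 < z) :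
    ∑ p ∈ S with max (lam p.1) (lam p.2) ≤ z, u i p.1 p.2 ^ 2 ≤ K0 * φ z :=
  (sum_filter_le_SI lam u i S z).trans (h z hz)

lemma layer_a' (i : ι) {K0 : ℝ} (hσ : 0 ≤ σ) (hK0 : 0 ≤ K0) (hi : 0 < lam i)
    (h : ∀ z, 0 < z → SI lam u i z ≤ K0 * (z * √z)) (S : Finset (ι × ι))
    (hpos : ∀ p ∈ S, 0 < max (lam p.1) (lam p.2))
    (hle : ∀ p ∈ S, max (lam p.1) (lam p.2) ≤ lam i) :
    ∑ p ∈ S, u i p.1 p.2 ^ 2 * (fr σ (max (lam p.1) (lam p.2)) ^ 2
        / max (lam p.1) (lam p.2)) ≤ K0 * (3 * √(fb σ (lam i))) :=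
  layer_a S (fun p => max (lam p.1) (lam p.2)) (fun p => u i p.1 p.2 ^ 2) σ K0 hσ hK0 hpos
    (fun _ _ => sq_nonneg _) (layer_hyp lam u i (φ := fun z => z * √z) h S) (lam i) hi hle

lemma layer_b' (i : ι) {K0 : ℝ} (hσ : 0 ≤ σ) (hK0 : 0 ≤ K0) (hi : 0 < lam i)
    (h : ∀ z, 0 < z → SI lam u i z ≤ K0 * z ^ 2) (S : Finset (ι × ι))
    (hpos : ∀ p ∈ S, 0 < max (lam p.1) (lam p.2))
    (hle : ∀ p ∈ S, max (lam p.1) (lam p.2) ≤ lam i) :
    ∑ p ∈ S, u i p.1 p.2 ^ 2 * (fr σ (max (lam p.1) (lam p.2)) ^ 2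
        / max (lam p.1) (lam p.2)) ≤ K0 * (2 * fb σ (lam i)) :=
  layer_b S (fun p => max (lam p.1) (lam p.2)) (fun p => u i p.1 p.2 ^ 2) σ K0 hσ hK0 hpos
    (fun _ _ => sq_nonneg _) (layer_hyp lam u i (φ := fun z => z ^ 2) h S) (lam i) hi hle

lemma fr_zero (y : ℝ) : fr 0 y = 1 := by unfold fr; simp
lemma fb_zero (y : ℝ) : fb 0 y = y := by unfold fb; simp

/-- the first sum of part (b), from `(IL)` -/
lemma first_a (i : ι) {K0 : ℝ} (hK0 : 0 ≤ K0) (hi : 0 < lam i)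
    (h : ∀ z, 0 < z → SI lam u i z ≤ K0 * (z * √z)) (S : Finset (ι × ι))
    (hpos : ∀ p ∈ S, 0 < max (lam p.1) (lam p.2))
    (hle : ∀ p ∈ S, max (lam p.1) (lam p.2) ≤ lam i) :
    ∑ p ∈ S, u i p.1 p.2 ^ 2 * (1 / max (lam p.1) (lam p.2)) ≤ K0 * (3 * √(lam i)) := by
  have := layer_a' lam u i (σ := 0) le_rfl hK0 hi h S hpos hle
  simpa [fr_zero, fb_zero] using this

lemma first_b (i : ι) {K0 : ℝ} (hK0 : 0 ≤ K0) (hi : 0 < lam i)
    (h : ∀ z, 0 < z → SI lam u i z ≤ K0 * z ^ 2) (S : Finset (ι × ι))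
    (hpos : ∀ p ∈ S, 0 < max (lam p.1) (lam p.2))
    (hle : ∀ p ∈ S, max (lam p.1) (lam p.2) ≤ lam i) :
    ∑ p ∈ S, u i p.1 p.2 ^ 2 * (1 / max (lam p.1) (lam p.2)) ≤ K0 * (2 * lam i) := by
  have := layer_b' lam u i (σ := 0) le_rfl hK0 hi h S hpos hle
  simpa [fr_zero, fb_zero] using this

/-- if `λ_i = 0` there is nothing in row `i` -/
lemma row_zero (hlam : ∀ i, 0 ≤ lam i) (i : ι) (hi : lam i = 0) :
    ∑ j, ∑ k, (if lam i ≤ max (lam j) (lam k) then 0 else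
        fo q σ (max (lam j) (lam k)) * u i j k ^ 2) = 0 := by
  refine Finset.sum_eq_zero fun j _ => Finset.sum_eq_zero fun k _ => ?_
  rw [if_pos]
  rw [hi]
  exact le_max_of_le_left (hlam j)

end

/-- **5.4, (IL) version.** -/
theorem triple_IL {q : ℕ} (hq : 2 ≤ q) {σ τ : ℝ} (hσ : 0 < σ) (hτ : 0 < τ) (lam : ι → ℝ)
    (hlam : ∀ i, 0 ≤ lam i) (hlamτ : ∀ i, lam i ≤ 1 / τ) (u : ι → ι → ι → ℝ)
    (h2 : ∀ i j k, u i j k = u i k j) (h12 : ∀ i j k, u i j k = u j i k)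
    (h3 : ∀ i j k, lam i = 0 → u i j k = 0)
    (IL : ∀ i z, 0 < z → SI lam u i z ≤ 4 * lam i * (z * √z) / √τ) :
    (1 / 2) * ∑ i, ∑ j, ∑ k, cc q σ (lam j) (lam k) * u i j k ^ 2
      ≤ ∑ i, (80 * q ^ 2 / (√σ * √τ) + (if (q : ℝ) - 1 < σ * lam i then 56 / τ else 0))
          * ff q σ (lam i) := by
  have hsσ : 0 < √σ := Real.sqrt_pos.mpr hσ
  have hsτ : 0 < √τ := Real.sqrt_pos.mpr hτ
  have hq' : (2 : ℝ) ≤ q := by exact_mod_cast hq
  have hττ : √τ * √τ = τ := Real.mul_self_sqrt hτ.le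
  set Rb : ι → ℝ := fun i => 48 * ff q σ (lam i) * (√(lam i) + q ^ 2 * √(fb σ (lam i))) / √τ
    with hRbdef
  have hRb : ∀ i, ∑ j, ∑ k, (if lam i ≤ max (lam j) (lam k) then 0 else
        fo q σ (max (lam j) (lam k)) * u i j k ^ 2) ≤ Rb i := by
    intro i
    rcases (hlam i).lt_or_eq with hi | hi
    · have hK0 : 0 ≤ 4 * lam i / √τ := by positivity
      have h : ∀ z, 0 < z → SI lam u i z ≤ 4 * lam i / √τ * (z * √z) := by
        intro z hz
        refine (IL i z hz).trans (le_of_eq ?_)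
        ring
      have := part_b_row (q := q) hσ.le lam hlam u h3 h12 i
        (4 * lam i / √τ * (3 * √(lam i))) (4 * lam i / √τ * (3 * √(fb σ (lam i))))
        (first_a lam u i hK0 hi h) (layer_a' lam u i hσ.le hK0 hi h)
      refine this.trans (le_of_eq ?_)
      rw [hRbdef]
      unfold ff
      ring
    · rw [row_zero lam u hlam i hi.symm, hRbdef]
      have := ff_nonneg (q := q) hσ.le (hlam i)
      positivity
  refine (triple_split hσ.le lam hlam u h2 h12 h3 Rb hRb).trans (Finset.sum_le_sum fun i _ => ?_)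
  set l := lam i with hl
  have hl0 : 0 ≤ l := hlam i
  have hff := ff_nonneg (q := q) hσ.le hl0
  have hr := fr_pos hσ.le hl0
  -- part (a), one term
  have ha : fo q σ l * SI lam u i l ≤ 8 * (1 + q * fr σ l) ^ 2 * ff q σ l * √l / √τ := by
    rcases hl0.lt_or_eq with h | h
    · have h1 := mul_le_mul_of_nonneg_left (IL i l h) (fo_nonneg (q := q) hσ.le hl0)
      refine h1.trans (le_of_eq ?_)
      have h4 : 4 * lam i * (l * √l) / √τ = l * (4 * l * √l / √τ) := by rw [← hl]; ring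
      rw [h4, fo_mul h]
      unfold ff
      ring
    · rw [← h]
      have : fo q σ 0 = 0 := by unfold fo; simp
      rw [this]
      simp
  have hsl : √l ≤ 1 / √τ := by
    calc √l ≤ √(1 / τ) := Real.sqrt_le_sqrt (hlamτ i)
      _ = 1 / √τ := by rw [Real.sqrt_div zero_le_one, Real.sqrt_one]
  have hfb := sqrt_fb_le hσ hl0
  have hA0 : 0 ≤ √l := Real.sqrt_nonneg l
  have hcoef : 0 ≤ ff q σ l / √τ := by positivity
  rw [hRbdef]
  simp only
  rw [← hl]
  have hb : (1 / 2) * (48 * ff q σ l * (√l + q ^ 2 * √(fb σ l)) / √τ)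
      = 24 * (ff q σ l / √τ) * (√l + q ^ 2 * √(fb σ l)) := by ring
  rw [hb]
  have hb2 : q ^ 2 * √(fb σ l) ≤ (q : ℝ) ^ 2 * (1 / √σ) :=
    mul_le_mul_of_nonneg_left hfb (by positivity)
  have ha' : 8 * (1 + q * fr σ l) ^ 2 * ff q σ l * √l / √τ
      = 8 * (ff q σ l / √τ) * ((1 + q * fr σ l) ^ 2 * √l) := by ring
  rw [ha'] at ha
  by_cases hcase : (q : ℝ) - 1 < σ * l
  · rw [if_pos hcase]
    have h1 := large_case hσ hl0 hcase
    have h2' : (1 + q * fr σ l) ^ 2 * √l ≤ 4 * (1 / √τ) :=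
      mul_le_mul h1 hsl hA0 (by norm_num)
    have e1 : 8 * (ff q σ l / √τ) * ((1 + q * fr σ l) ^ 2 * √l)
        ≤ 8 * (ff q σ l / √τ) * (4 * (1 / √τ)) :=
      mul_le_mul_of_nonneg_left h2' (by positivity)
    have e2 : 24 * (ff q σ l / √τ) * (√l + q ^ 2 * √(fb σ l))
        ≤ 24 * (ff q σ l / √τ) * (1 / √τ + q ^ 2 * (1 / √σ)) :=
      mul_le_mul_of_nonneg_left (add_le_add hsl hb2) (by positivity)
    have e3 : 8 * (ff q σ l / √τ) * (4 * (1 / √τ)) + 24 * (ff q σ l / √τ) * (1 / √τ + q ^ 2 * (1 / √σ))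
        = (24 * q ^ 2 / (√σ * √τ) + 56 / (√τ * √τ)) * ff q σ l := by
      field_simp
      ring
    have e4 : (24 * q ^ 2 / (√σ * √τ) + 56 / (√τ * √τ)) * ff q σ l
        ≤ (80 * q ^ 2 / (√σ * √τ) + 56 / τ) * ff q σ l := by
      rw [hττ]
      refine mul_le_mul_of_nonneg_right ?_ hff
      have : 24 * (q:ℝ) ^ 2 / (√σ * √τ) ≤ 80 * q ^ 2 / (√σ * √τ) := by
        gcongr
        norm_num
      linarith
    linarith
  · rw [if_neg hcase]
    have hcase' : σ * l ≤ q - 1 := not_lt.mp hcase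
    have h1 := small_case hσ hl0 hcase'
    have h2' : (1 + q * fr σ l) ^ 2 * √l ≤ 4 * q ^ 2 * (1 / √σ) := by
      calc (1 + q * fr σ l) ^ 2 * √l ≤ 4 * q ^ 2 * fr σ l ^ 2 * √l :=
            mul_le_mul_of_nonneg_right h1 hA0
        _ = 4 * q ^ 2 * (fr σ l ^ 2 * √l) := by ring
        _ ≤ _ := mul_le_mul_of_nonneg_left (fr_sq_mul_sqrt hσ hl0) (by positivity)
    have hsl2 : √l ≤ q ^ 2 * (1 / √σ) := by
      have h5 : l ≤ ((q : ℝ) ^ 2) ^ 2 / σ := by
        rw [le_div_iff₀ hσ]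
        have h8 : (q : ℝ) ≤ ((q : ℝ) ^ 2) ^ 2 := by
          rw [← pow_mul]
          exact le_self_pow₀ (by linarith) (by norm_num)
        linarith [mul_comm l σ]
      have h6 := Real.sqrt_le_sqrt h5
      rw [Real.sqrt_div (by positivity)] at h6
      have h7 : √(((q : ℝ) ^ 2) ^ 2) = q ^ 2 := Real.sqrt_sq (by positivity)
      rw [h7] at h6
      rw [mul_one_div]; exact h6
    have e1 : 8 * (ff q σ l / √τ) * ((1 + q * fr σ l) ^ 2 * √l)
        ≤ 8 * (ff q σ l / √τ) * (4 * q ^ 2 * (1 / √σ)) :=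
      mul_le_mul_of_nonneg_left h2' (by positivity)
    have e2 : 24 * (ff q σ l / √τ) * (√l + q ^ 2 * √(fb σ l))
        ≤ 24 * (ff q σ l / √τ) * (q ^ 2 * (1 / √σ) + q ^ 2 * (1 / √σ)) :=
      mul_le_mul_of_nonneg_left (add_le_add hsl2 hb2) (by positivity)
    have e3 : 8 * (ff q σ l / √τ) * (4 * q ^ 2 * (1 / √σ))
        + 24 * (ff q σ l / √τ) * (q ^ 2 * (1 / √σ) + q ^ 2 * (1 / √σ))
        = (80 * q ^ 2 / (√σ * √τ) + 0) * ff q σ l := by
      field_simp
      ring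
    linarith

/-- **5.4, (K) version.** -/
theorem triple_K {q : ℕ} (hq : 2 ≤ q) {σ τ K : ℝ} (hσ : 0 < σ) (hτ : 0 < τ) (hK : 0 ≤ K)
    (lam : ι → ℝ)
    (hlam : ∀ i, 0 ≤ lam i) (hlamτ : ∀ i, lam i ≤ 1 / τ) (u : ι → ι → ι → ℝ)
    (h2 : ∀ i j k, u i j k = u i k j) (h12 : ∀ i j k, u i j k = u j i k)
    (h3 : ∀ i j k, lam i = 0 → u i j k = 0)
    (IL : ∀ i z, 0 < z → SI lam u i z ≤ 4 * lam i * (z * √z) / √τ)
    (QK : ∀ i z, 0 < z → SI lam u i z ≤ K * lam i * z ^ 2) :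
    (1 / 2) * ∑ i, ∑ j, ∑ k, cc q σ (lam j) (lam k) * u i j k ^ 2
      ≤ ∑ i, (16 * q ^ 2 * K / σ + (if (q : ℝ) - 1 < σ * lam i then 56 / τ else 0))
          * ff q σ (lam i) := by
  have hsτ : 0 < √τ := Real.sqrt_pos.mpr hτ
  have hq' : (2 : ℝ) ≤ q := by exact_mod_cast hq
  have hττ : √τ * √τ = τ := Real.mul_self_sqrt hτ.le
  set Rb : ι → ℝ := fun i => if (q : ℝ) - 1 < σ * lam i then
      48 * ff q σ (lam i) * √(lam i) / √τ + 8 * q ^ 2 * K * fb σ (lam i) * ff q σ (lam i)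
    else 8 * K * ff q σ (lam i) * (lam i + q ^ 2 * fb σ (lam i)) with hRbdef
  have hRb : ∀ i, ∑ j, ∑ k, (if lam i ≤ max (lam j) (lam k) then 0 else
        fo q σ (max (lam j) (lam k)) * u i j k ^ 2) ≤ Rb i := by
    intro i
    have hff := ff_nonneg (q := q) hσ.le (hlam i)
    have hfb := fb_nonneg hσ.le (hlam i)
    rcases (hlam i).lt_or_eq with hi | hi
    · have hK0 : 0 ≤ 4 * lam i / √τ := by positivity
      have hK1 : 0 ≤ K * lam i := by positivity
      have h : ∀ z, 0 < z → SI lam u i z ≤ 4 * lam i / √τ * (z * √z) := by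
        intro z hz
        refine (IL i z hz).trans (le_of_eq ?_)
        ring
      have h' : ∀ z, 0 < z → SI lam u i z ≤ K * lam i * z ^ 2 := QK i
      by_cases hcase : (q : ℝ) - 1 < σ * lam i
      · have := part_b_row (q := q) hσ.le lam hlam u h3 h12 i
          (4 * lam i / √τ * (3 * √(lam i))) (K * lam i * (2 * fb σ (lam i)))
          (first_a lam u i hK0 hi h) (layer_b' lam u i hσ.le hK1 hi h')
        refine this.trans (le_of_eq ?_)
        rw [hRbdef]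
        simp only [if_pos hcase]
        unfold ff
        ring
      · have := part_b_row (q := q) hσ.le lam hlam u h3 h12 i
          (K * lam i * (2 * lam i)) (K * lam i * (2 * fb σ (lam i)))
          (first_b lam u i hK1 hi h') (layer_b' lam u i hσ.le hK1 hi h')
        refine this.trans (le_of_eq ?_)
        rw [hRbdef]
        simp only [if_neg hcase]
        unfold ff
        ring
    · rw [row_zero lam u hlam i hi.symm, hRbdef]
      have hl0 := hlam i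
      simp only
      split_ifs <;> positivity
  refine (triple_split hσ.le lam hlam u h2 h12 h3 Rb hRb).trans (Finset.sum_le_sum fun i _ => ?_)
  set l := lam i with hl
  have hl0 : 0 ≤ l := hlam i
  have hff := ff_nonneg (q := q) hσ.le hl0
  have hr := fr_pos hσ.le hl0
  have hr1 := fr_le_one hσ.le hl0
  have hfb := fb_le_inv hσ hl0
  have hfb0 := fb_nonneg hσ.le hl0
  have hA0 : 0 ≤ √l := Real.sqrt_nonneg l
  by_cases hcase : (q : ℝ) - 1 < σ * l
  · have ha : fo q σ l * SI lam u i l ≤ 8 * (1 + q * fr σ l) ^ 2 * ff q σ l * √l / √τ := by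
      rcases hl0.lt_or_eq with h | h
      · have h1 := mul_le_mul_of_nonneg_left (IL i l h) (fo_nonneg (q := q) hσ.le hl0)
        refine h1.trans (le_of_eq ?_)
        have h4 : 4 * lam i * (l * √l) / √τ = l * (4 * l * √l / √τ) := by rw [← hl]; ring
        rw [h4, fo_mul h]
        unfold ff
        ring
      · rw [← h]
        have : fo q σ 0 = 0 := by unfold fo; simp
        rw [this]
        simp
    have hsl : √l ≤ 1 / √τ := by
      calc √l ≤ √(1 / τ) := Real.sqrt_le_sqrt (hlamτ i)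
        _ = 1 / √τ := by rw [Real.sqrt_div zero_le_one, Real.sqrt_one]
    have h1 := large_case hσ hl0 hcase
    have h2' : (1 + q * fr σ l) ^ 2 * √l ≤ 4 * (1 / √τ) :=
      mul_le_mul h1 hsl hA0 (by norm_num)
    have e1 : 8 * (1 + q * fr σ l) ^ 2 * ff q σ l * √l / √τ
        ≤ 8 * (ff q σ l / √τ) * (4 * (1 / √τ)) := by
      calc _ = 8 * (ff q σ l / √τ) * ((1 + q * fr σ l) ^ 2 * √l) := by ring
        _ ≤ _ := mul_le_mul_of_nonneg_left h2' (by positivity)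
    have hRi : Rb i = 48 * ff q σ l * √l / √τ + 8 * q ^ 2 * K * fb σ l * ff q σ l := by
      rw [hRbdef]; simp only; rw [← hl, if_pos hcase]
    have e2 : (1 / 2) * Rb i ≤ 24 * (ff q σ l / √τ) * (1 / √τ) + 4 * q ^ 2 * K * (1 / σ) * ff q σ l := by
      rw [hRi]
      have f1 : (ff q σ l / √τ) * √l ≤ (ff q σ l / √τ) * (1 / √τ) :=
        mul_le_mul_of_nonneg_left hsl (by positivity)
      have f2 : (q ^ 2 * K * ff q σ l) * fb σ l ≤ (q ^ 2 * K * ff q σ l) * (1 / σ) :=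
        mul_le_mul_of_nonneg_left hfb (by positivity)
      calc (1 / 2) * (48 * ff q σ l * √l / √τ + 8 * q ^ 2 * K * fb σ l * ff q σ l)
          = 24 * ((ff q σ l / √τ) * √l) + 4 * ((q ^ 2 * K * ff q σ l) * fb σ l) := by ring
        _ ≤ 24 * ((ff q σ l / √τ) * (1 / √τ)) + 4 * ((q ^ 2 * K * ff q σ l) * (1 / σ)) := by
            linarith
        _ = _ := by ring
    have e3 : 8 * (ff q σ l / √τ) * (4 * (1 / √τ))
        + (24 * (ff q σ l / √τ) * (1 / √τ) + 4 * q ^ 2 * K * (1 / σ) * ff q σ l)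
        = (4 * q ^ 2 * K / σ + 56 / (√τ * √τ)) * ff q σ l := by
      field_simp
      ring
    have e4 : (4 * q ^ 2 * K / σ + 56 / (√τ * √τ)) * ff q σ l
        ≤ (16 * q ^ 2 * K / σ + 56 / τ) * ff q σ l := by
      rw [hττ]
      refine mul_le_mul_of_nonneg_right ?_ hff
      have : 4 * (q:ℝ) ^ 2 * K / σ ≤ 16 * q ^ 2 * K / σ := by
        gcongr
        norm_num
      linarith
    rw [if_pos hcase]
    linarith
  · have hcase' : σ * l ≤ q - 1 := not_lt.mp hcase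
    have ha : fo q σ l * SI lam u i l ≤ 2 * K * ff q σ l * ((1 + q * fr σ l) ^ 2 * l) := by
      rcases hl0.lt_or_eq with h | h
      · have h1 := mul_le_mul_of_nonneg_left (QK i l h) (fo_nonneg (q := q) hσ.le hl0)
        refine h1.trans (le_of_eq ?_)
        have h4 : K * lam i * l ^ 2 = l * (K * l ^ 2) := by rw [← hl]; ring
        rw [h4, fo_mul h]
        unfold ff
        ring
      · rw [← h]
        have : fo q σ 0 = 0 := by unfold fo; simp
        rw [this]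
        simp
    have h1 := small_case hσ hl0 hcase'
    have h2' : (1 + q * fr σ l) ^ 2 * l ≤ 4 * q ^ 2 * (1 / σ) := by
      have h7 : fr σ l ^ 2 * l ≤ 1 / σ := by
        have : fr σ l ^ 2 * l ≤ fr σ l * l := by
          have : fr σ l ^ 2 ≤ fr σ l := by nlinarith
          exact mul_le_mul_of_nonneg_right this hl0
        have h8 : fr σ l * l = fb σ l := by rw [fb_eq]; ring
        linarith
      calc (1 + q * fr σ l) ^ 2 * l ≤ 4 * q ^ 2 * fr σ l ^ 2 * l :=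
            mul_le_mul_of_nonneg_right h1 hl0
        _ = 4 * q ^ 2 * (fr σ l ^ 2 * l) := by ring
        _ ≤ _ := mul_le_mul_of_nonneg_left h7 (by positivity)
    have hl2 : l ≤ q ^ 2 * (1 / σ) := by
      rw [mul_one_div, le_div_iff₀ hσ]
      nlinarith
    have hRi : Rb i = 8 * K * ff q σ l * (l + q ^ 2 * fb σ l) := by
      rw [hRbdef]; simp only; rw [← hl, if_neg hcase]
    have e2 : (1 / 2) * Rb i ≤ 4 * K * ff q σ l * (q ^ 2 * (1 / σ) + q ^ 2 * (1 / σ)) := by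
      rw [hRi]
      have f1 : l + q ^ 2 * fb σ l ≤ q ^ 2 * (1 / σ) + q ^ 2 * (1 / σ) :=
        add_le_add hl2 (mul_le_mul_of_nonneg_left hfb (by positivity))
      have f2 := mul_le_mul_of_nonneg_left f1 (show 0 ≤ 4 * K * ff q σ l by positivity)
      linarith
    have e1 := mul_le_mul_of_nonneg_left h2' (show 0 ≤ 2 * K * ff q σ l by positivity)
    have e3 : 2 * K * ff q σ l * (4 * q ^ 2 * (1 / σ))
        + 4 * K * ff q σ l * (q ^ 2 * (1 / σ) + q ^ 2 * (1 / σ))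
        = (16 * q ^ 2 * K / σ + 0) * ff q σ l := by
      field_simp
      ring
    rw [if_neg hcase]
    linarith

end Pool.Agent.Lib.MP_8d00da_gt.h42k
end

section

/-!
The matrix potential (paper 323, section 5): definitions, orthonormal eigenbases, values of the
matrix functions in an eigenbasis.

`Eig A e lam`: the rows of the orthogonal matrix `e` are eigenvectors of `A` with eigenvalues
`lam`; so `(e * H * eᵀ) k l = e_k · H e_l`.
-/

namespace Pool.Agent.Lib.MP_8d00da_gt.h42k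

open Finset Matrix

variable {ι : Type*} [Fintype ι] [DecidableEq ι]

/-- `R = (1 + σ A)⁻¹` -/
noncomputable def FR (σ : ℝ) (A : Matrix ι ι ℝ) : Matrix ι ι ℝ := (1 + σ • A)⁻¹

/-- `B = A R` -/
noncomputable def FB (σ : ℝ) (A : Matrix ι ι ℝ) : Matrix ι ι ℝ := A * FR σ A

/-- `F = Tr (A B^q)` -/
noncomputable def FF (q : ℕ) (σ : ℝ) (A : Matrix ι ι ℝ) : ℝ := trace (A * FB σ A ^ q)

/-- `F'(A) = B^q + q R B^q` -/
noncomputable def FD (q : ℕ) (σ : ℝ) (A : Matrix ι ι ℝ) : Matrix ι ι ℝ :=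
  FB σ A ^ q + (q : ℝ) • (FR σ A * FB σ A ^ q)

/-- symmetric and positive semidefinite -/
structure PSD (A : Matrix ι ι ℝ) : Prop where
  symm : Aᵀ = A
  nn : ∀ θ : ι → ℝ, 0 ≤ ∑ i, ∑ j, θ i * A i j * θ j

/-- orthonormal eigenbasis (rows of `e`) -/
structure Eig (A e : Matrix ι ι ℝ) (lam : ι → ℝ) : Prop where
  orth : e * eᵀ = 1
  diag : A = eᵀ * diagonal lam * e

lemma Eig.orth' {A e : Matrix ι ι ℝ} {lam : ι → ℝ} (h : Eig A e lam) : eᵀ * e = 1 :=
  mul_eq_one_comm.mp h.orth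

/-- existence of an orthonormal eigenbasis -/
theorem exists_eig_of_symm (A : Matrix ι ι ℝ) (hA : Aᵀ = A) : ∃ e lam, Eig A e lam := by
  have hH : A.IsHermitian := by
    rw [Matrix.IsHermitian, conjTranspose_eq_transpose_of_trivial, hA]
  refine ⟨((hH.eigenvectorUnitary : Matrix ι ι ℝ))ᵀ, hH.eigenvalues, ?_, ?_⟩
  · have := (Matrix.mem_unitaryGroup_iff'.mp hH.eigenvectorUnitary.2)
    rw [star_eq_conjTranspose, conjTranspose_eq_transpose_of_trivial] at this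
    rw [transpose_transpose]; exact this
  · have := hH.spectral_theorem
    rw [Unitary.conjStarAlgAut_apply] at this
    rw [transpose_transpose]
    rw [star_eq_conjTranspose, conjTranspose_eq_transpose_of_trivial] at this
    exact this

omit [DecidableEq ι] in
/-- the quadratic form as `dotProduct` -/
lemma form_eq (A : Matrix ι ι ℝ) (θ : ι → ℝ) :
    ∑ i, ∑ j, θ i * A i j * θ j = θ ⬝ᵥ (A *ᵥ θ) := by
  simp only [dotProduct, mulVec, Finset.mul_sum, mul_assoc]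

/-- the form in the eigenbasis -/
lemma Eig.form_eq {A e : Matrix ι ι ℝ} {lam : ι → ℝ} (h : Eig A e lam) (θ : ι → ℝ) :
    ∑ i, ∑ j, θ i * A i j * θ j = ∑ k, lam k * ((e *ᵥ θ) k) ^ 2 := by
  rw [h42k.form_eq, h.diag, ← mulVec_mulVec, ← mulVec_mulVec, dotProduct_mulVec,
    vecMul_transpose]
  simp only [dotProduct, mulVec_diagonal]
  refine Finset.sum_congr rfl fun k _ => ?_
  ring

lemma sum_sq_mulVec {e : Matrix ι ι ℝ} (he : eᵀ * e = 1) (θ : ι → ℝ) :
    ∑ k, ((e *ᵥ θ) k) ^ 2 = ∑ i, θ i ^ 2 := by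
  have h1 : ∑ k, ((e *ᵥ θ) k) ^ 2 = (e *ᵥ θ) ⬝ᵥ (e *ᵥ θ) := by
    simp only [dotProduct, sq]
  have h2 : ∑ i, θ i ^ 2 = θ ⬝ᵥ θ := by simp only [dotProduct, sq]
  rw [h1, h2, dotProduct_mulVec, ← mulVec_transpose, mulVec_mulVec, he, one_mulVec]

/-- the form at a row of `e` -/
lemma Eig.form_row {A e : Matrix ι ι ℝ} {lam : ι → ℝ} (h : Eig A e lam) (k : ι) :
    ∑ i, ∑ j, (e k) i * A i j * (e k) j = lam k := by
  rw [h.form_eq]
  have h1 : ∀ l, (e *ᵥ (e k)) l = if l = k then 1 else 0 := by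
    intro l
    have := congrFun (congrFun h.orth l) k
    rw [mul_apply, one_apply] at this
    simpa [mulVec, dotProduct] using this
  simp only [h1]
  simp

lemma sum_sq_row {e : Matrix ι ι ℝ} (he : e * eᵀ = 1) (k : ι) : ∑ i, (e k) i ^ 2 = 1 := by
  have := congrFun (congrFun he k) k
  rw [mul_apply, one_apply_eq] at this
  rw [← this]
  refine Finset.sum_congr rfl fun i _ => ?_
  rw [transpose_apply, sq]

theorem Eig.psd {A e : Matrix ι ι ℝ} {lam : ι → ℝ} (h : Eig A e lam) (hlam : ∀ i, 0 ≤ lam i) :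
    PSD A := by
  refine ⟨?_, fun θ => ?_⟩
  · rw [h.diag]
    simp [transpose_mul, mul_assoc]
  · rw [h.form_eq]
    exact Finset.sum_nonneg fun k _ => mul_nonneg (hlam k) (sq_nonneg _)

theorem Eig.nonneg {A e : Matrix ι ι ℝ} {lam : ι → ℝ} (h : Eig A e lam) (hA : PSD A) (k : ι) :
    0 ≤ lam k := by
  rw [← h.form_row k]; exact hA.nn _

theorem PSD.exists_eig {A : Matrix ι ι ℝ} (hA : PSD A) :
    ∃ e lam, Eig A e lam ∧ ∀ i, 0 ≤ lam i := by
  obtain ⟨e, lam, h⟩ := exists_eig_of_symm A hA.symm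
  exact ⟨e, lam, h, h.nonneg hA⟩

/-- eigenvalues are bounded by `a` if the form is -/
theorem Eig.le {A e : Matrix ι ι ℝ} {lam : ι → ℝ} (h : Eig A e lam) {a : ℝ}
    (ha : ∀ θ : ι → ℝ, ∑ i, ∑ j, θ i * A i j * θ j ≤ a * ∑ i, θ i ^ 2) (k : ι) : lam k ≤ a := by
  have := ha (e k)
  rw [h.form_row k, sum_sq_row h.orth k, mul_one] at this
  exact this

section values
variable {A e : Matrix ι ι ℝ} {lam : ι → ℝ} {q : ℕ} {σ : ℝ}

/-- products of matrices diagonal in the basis `e` -/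
lemma conj_mul (he : e * eᵀ = 1) (d d' : ι → ℝ) :
    (eᵀ * diagonal d * e) * (eᵀ * diagonal d' * e) = eᵀ * diagonal (fun k => d k * d' k) * e := by
  calc (eᵀ * diagonal d * e) * (eᵀ * diagonal d' * e)
      = eᵀ * diagonal d * (e * eᵀ) * diagonal d' * e := by simp only [mul_assoc]
    _ = eᵀ * (diagonal d * diagonal d') * e := by rw [he]; simp only [mul_one, mul_assoc]
    _ = _ := by rw [diagonal_mul_diagonal]

lemma conj_one (he : eᵀ * e = 1) : eᵀ * diagonal (fun _ => (1 : ℝ)) * e = 1 := by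
  rw [diagonal_one, mul_one, he]

lemma conj_pow (he : e * eᵀ = 1) (d : ι → ℝ) (m : ℕ) :
    (eᵀ * diagonal d * e) ^ m = eᵀ * diagonal (fun k => d k ^ m) * e := by
  induction m with
  | zero => simp only [pow_zero]; rw [conj_one (mul_eq_one_comm.mp he)]
  | succ m ih => rw [pow_succ, ih, conj_mul he]; simp only [pow_succ]

lemma trace_conj (he : e * eᵀ = 1) (d : ι → ℝ) : trace (eᵀ * diagonal d * e) = ∑ k, d k := by
  rw [trace_mul_comm, ← mul_assoc, he, one_mul, trace_diagonal]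

lemma Eig.one_add (h : Eig A e lam) (σ : ℝ) :
    1 + σ • A = eᵀ * diagonal (fun k => 1 + σ * lam k) * e := by
  have h1 : diagonal (fun k => 1 + σ * lam k) = (1 : Matrix ι ι ℝ) + σ • diagonal lam := by
    rw [← diagonal_one, ← diagonal_smul, diagonal_add]
    rfl
  rw [h1, Matrix.mul_add, Matrix.add_mul, mul_one, h.orth', Matrix.mul_smul, Matrix.smul_mul,
    ← h.diag]

theorem Eig.FR_eq (h : Eig A e lam) (hlam : ∀ i, 0 ≤ lam i) (hσ : 0 ≤ σ) :
    FR σ A = eᵀ * diagonal (fun k => fr σ (lam k)) * e := by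
  unfold FR
  apply Matrix.inv_eq_left_inv
  rw [h.one_add σ, conj_mul h.orth]
  have : (fun k => fr σ (lam k) * (1 + σ * lam k)) = fun _ => (1 : ℝ) := by
    funext k
    unfold fr
    exact one_div_mul_cancel (one_add_pos hσ (hlam k)).ne'
  rw [this, conj_one h.orth']

theorem Eig.det_ne (h : Eig A e lam) (hlam : ∀ i, 0 ≤ lam i) (hσ : 0 ≤ σ) :
    (1 + σ • A).det ≠ 0 := by
  intro h0
  have h1 : (eᵀ * diagonal (fun k => fr σ (lam k)) * e) * (1 + σ • A) = 1 := by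
    rw [h.one_add σ, conj_mul h.orth]
    have : (fun k => fr σ (lam k) * (1 + σ * lam k)) = fun _ => (1 : ℝ) := by
      funext k
      unfold fr
      exact one_div_mul_cancel (one_add_pos hσ (hlam k)).ne'
    rw [this, conj_one h.orth']
  have h2 := congrArg Matrix.det h1
  rw [det_mul, h0, mul_zero, det_one] at h2
  exact zero_ne_one h2

theorem Eig.FB_eq (h : Eig A e lam) (hlam : ∀ i, 0 ≤ lam i) (hσ : 0 ≤ σ) :
    FB σ A = eᵀ * diagonal (fun k => fb σ (lam k)) * e := by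
  unfold FB
  rw [h.FR_eq hlam hσ]
  conv_lhs => rw [h.diag]
  rw [conj_mul h.orth]
  simp only [fb_eq]

theorem Eig.FB_pow_eq (h : Eig A e lam) (hlam : ∀ i, 0 ≤ lam i) (hσ : 0 ≤ σ) :
    FB σ A ^ q = eᵀ * diagonal (fun k => fb σ (lam k) ^ q) * e := by
  rw [h.FB_eq hlam hσ, conj_pow h.orth]

theorem Eig.FD_eq (h : Eig A e lam) (hlam : ∀ i, 0 ≤ lam i) (hσ : 0 ≤ σ) :
    FD q σ A = eᵀ * diagonal (fun k => fd q σ (lam k)) * e := by
  unfold FD
  rw [h.FB_pow_eq hlam hσ, h.FR_eq hlam hσ, conj_mul h.orth]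
  have h1 : diagonal (fun k => fd q σ (lam k))
      = diagonal (fun k => fb σ (lam k) ^ q)
        + (q : ℝ) • diagonal (fun k => fr σ (lam k) * fb σ (lam k) ^ q) := by
    rw [← diagonal_smul, diagonal_add]
    rfl
  rw [h1, Matrix.mul_add, Matrix.add_mul, Matrix.mul_smul, Matrix.smul_mul]

/-- `F = Σ f(λ_k)` -/
theorem Eig.FF_eq (h : Eig A e lam) (hlam : ∀ i, 0 ≤ lam i) (hσ : 0 ≤ σ) :
    FF q σ A = ∑ k, ff q σ (lam k) := by
  unfold FF
  rw [h.FB_pow_eq hlam hσ]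
  conv_lhs => rw [h.diag]
  rw [conj_mul h.orth, trace_conj h.orth]
  rfl

/-- `Tr A^m = Σ λ_k^m` -/
theorem Eig.trace_pow (h : Eig A e lam) (m : ℕ) : trace (A ^ m) = ∑ k, lam k ^ m := by
  conv_lhs => rw [h.diag]
  rw [conj_pow h.orth, trace_conj h.orth]

theorem Eig.trace_eq (h : Eig A e lam) : trace A = ∑ k, lam k := by
  conv_lhs => rw [h.diag]
  rw [trace_conj h.orth]

/-- `Tr (A B^{q+1}) = Σ b(λ_k) f(λ_k)` (minus `q` times this is `∂F/∂σ`) -/
theorem Eig.trace_sigma (h : Eig A e lam) (hlam : ∀ i, 0 ≤ lam i) (hσ : 0 ≤ σ) :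
    trace (A * FB σ A ^ (q + 1)) = ∑ k, fb σ (lam k) * ff q σ (lam k) := by
  rw [h.FB_pow_eq hlam hσ]
  conv_lhs => rw [h.diag]
  rw [conj_mul h.orth, trace_conj h.orth]
  refine Finset.sum_congr rfl fun k _ => ?_
  unfold ff
  ring

end values

section consequences
variable {A : Matrix ι ι ℝ} {q : ℕ} {σ : ℝ}

theorem PSD.FF_nonneg (hA : PSD A) (hσ : 0 ≤ σ) : 0 ≤ FF q σ A := by
  obtain ⟨e, lam, h, hlam⟩ := hA.exists_eig
  rw [h.FF_eq hlam hσ]
  exact Finset.sum_nonneg fun k _ => ff_nonneg hσ (hlam k)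

theorem PSD.FF_le (hA : PSD A) (hσ : 0 ≤ σ) : FF q σ A ≤ trace (A ^ (q + 1)) := by
  obtain ⟨e, lam, h, hlam⟩ := hA.exists_eig
  rw [h.FF_eq hlam hσ, h.trace_pow]
  exact Finset.sum_le_sum fun k _ => ff_le_pow hσ (hlam k)

lemma fd_nonneg {x : ℝ} (hσ : 0 ≤ σ) (hx : 0 ≤ x) : 0 ≤ fd q σ x := by
  unfold fd
  have h1 := pow_nonneg (fb_nonneg hσ hx) q
  have h2 := (fr_pos hσ hx).le
  positivity

lemma fd_le {x a : ℝ} (hσ : 0 ≤ σ) (hx : 0 ≤ x) (hxa : x ≤ a) : fd q σ x ≤ (1 + q) * a ^ q := by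
  unfold fd
  have h0 := fb_nonneg hσ hx
  have h1 : fb σ x ^ q ≤ a ^ q := pow_le_pow_left₀ h0 ((fb_le hσ hx).trans hxa) q
  have h2 := fr_pos hσ hx
  have h3 := fr_le_one hσ hx
  have hq : (0 : ℝ) ≤ q := Nat.cast_nonneg q
  have h4 : fr σ x * fb σ x ^ q ≤ 1 * a ^ q :=
    mul_le_mul h3 h1 (pow_nonneg h0 q) zero_le_one
  have h5 := mul_le_mul_of_nonneg_left h4 hq
  linarith

theorem PSD.FD_sq_nonneg (hA : PSD A) (hσ : 0 ≤ σ) : 0 ≤ trace (FD q σ A * (A * A)) := by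
  obtain ⟨e, lam, h, hlam⟩ := hA.exists_eig
  rw [h.FD_eq hlam hσ]
  conv_rhs => rw [h.diag]
  rw [conj_mul h.orth, conj_mul h.orth, trace_conj h.orth]
  exact Finset.sum_nonneg fun k _ =>
    mul_nonneg (fd_nonneg hσ (hlam k)) (mul_self_nonneg _)

/-- entries of `F'(A)` are at most `(1+q) a^q` if `A ≤ a` -/
theorem PSD.abs_FD_le (hA : PSD A) (hσ : 0 ≤ σ) {a : ℝ}
    (ha : ∀ θ : ι → ℝ, ∑ i, ∑ j, θ i * A i j * θ j ≤ a * ∑ i, θ i ^ 2) (i j : ι) :
    |FD q σ A i j| ≤ (1 + q) * a ^ q := by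
  obtain ⟨e, lam, h, hlam⟩ := hA.exists_eig
  rw [h.FD_eq hlam hσ]
  have hle := h.le ha
  have e1 : (eᵀ * diagonal (fun k => fd q σ (lam k)) * e) i j
      = ∑ k, fd q σ (lam k) * (e k i * e k j) := by
    rw [mul_apply]
    refine Finset.sum_congr rfl fun k _ => ?_
    rw [mul_diagonal, transpose_apply]
    ring
  rw [e1]
  set M := (1 + q) * a ^ q with hM
  have hM0 : ∀ k, fd q σ (lam k) ≤ M := fun k => fd_le hσ (hlam k) (hle k)
  have hcol : ∀ i, ∑ k, e k i ^ 2 = 1 := by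
    intro i
    have := congrFun (congrFun h.orth' i) i
    rw [mul_apply, one_apply_eq] at this
    rw [← this]
    refine Finset.sum_congr rfl fun k _ => ?_
    rw [transpose_apply, sq]
  calc |∑ k, fd q σ (lam k) * (e k i * e k j)|
      ≤ ∑ k, |fd q σ (lam k) * (e k i * e k j)| := Finset.abs_sum_le_sum_abs _ _
    _ ≤ ∑ k, M * ((e k i ^ 2 + e k j ^ 2) / 2) := by
        refine Finset.sum_le_sum fun k _ => ?_
        rw [abs_mul, abs_of_nonneg (fd_nonneg hσ (hlam k))]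
        have h1 : |e k i * e k j| ≤ (e k i ^ 2 + e k j ^ 2) / 2 := by
          rw [abs_le]
          constructor <;> nlinarith [sq_nonneg (e k i - e k j), sq_nonneg (e k i + e k j)]
        have h0 : 0 ≤ fd q σ (lam k) := fd_nonneg hσ (hlam k)
        have h2 : 0 ≤ (e k i ^ 2 + e k j ^ 2) / 2 := by positivity
        calc fd q σ (lam k) * |e k i * e k j| ≤ fd q σ (lam k) * ((e k i ^ 2 + e k j ^ 2) / 2) :=
              mul_le_mul_of_nonneg_left h1 h0
          _ ≤ _ := mul_le_mul_of_nonneg_right (hM0 k) h2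
    _ = M := by
        rw [← Finset.mul_sum, ← Finset.sum_div, Finset.sum_add_distrib, hcol, hcol]
        ring

/-- pointwise form of 6.6 -/
lemma cube_le {x τ : ℝ} (hq : 4 ≤ q) (hσ : 0 < σ) (hτ : 0 < τ)
    (hσ1 : 2 * σ ≤ 1) (hστ : 4 * σ ^ 2 ≤ τ) (hx : 0 ≤ x) (hxτ : x ≤ 1 / τ) :
    x ^ 3 ≤ 1 + 2 ^ q * ff q σ x := by
  have hff := ff_nonneg (q := q) hσ.le hx
  have h2q : (1 : ℝ) ≤ 2 ^ q := one_le_pow₀ (by norm_num)
  rcases le_total x 1 with h1 | h1
  · have : x ^ 3 ≤ 1 := pow_le_one₀ hx h1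
    have := mul_nonneg (zero_le_one.trans h2q) hff
    linarith
  · rcases le_total (σ * x) 1 with h2 | h2
    · -- 1+σx ≤ 2
      have h3 : x / 2 ≤ fb σ x := by
        unfold fb
        rw [div_le_div_iff₀ (by norm_num) (one_add_pos hσ.le hx)]
        nlinarith
      have h4 : (x / 2) ^ q ≤ fb σ x ^ q := pow_le_pow_left₀ (by positivity) h3 q
      have h5 : x ^ q ≤ 2 ^ q * fb σ x ^ q := by
        rw [div_pow, div_le_iff₀ (by positivity)] at h4
        linarith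
      have h6 : x ^ 2 ≤ x ^ q := pow_le_pow_right₀ h1 (by omega)
      unfold ff
      have h7 : x * x ^ 2 ≤ x * (2 ^ q * fb σ x ^ q) :=
        mul_le_mul_of_nonneg_left (h6.trans h5) hx
      nlinarith
    · have h3 : 1 / (2 * σ) ≤ fb σ x := by
        unfold fb
        rw [div_le_div_iff₀ (by positivity) (one_add_pos hσ.le hx)]
        nlinarith
      have h4 : (1 / (2 * σ)) ^ q ≤ fb σ x ^ q := pow_le_pow_left₀ (by positivity) h3 q
      have h5 : (1 : ℝ) ≤ 1 / (2 * σ) := by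
        rw [le_div_iff₀ (by positivity)]; linarith
      have h6 : (1 / (2 * σ)) ^ 4 ≤ (1 / (2 * σ)) ^ q := pow_le_pow_right₀ h5 hq
      have h7 : (1 / τ) ^ 2 ≤ (1 / (2 * σ)) ^ 4 := by
        have h8 : 1 / τ ≤ (1 / (2 * σ)) ^ 2 := by
          rw [div_pow, one_pow]
          refine one_div_le_one_div_of_le (by positivity) ?_
          nlinarith
        calc (1 / τ) ^ 2 ≤ ((1 / (2 * σ)) ^ 2) ^ 2 := pow_le_pow_left₀ (by positivity) h8 2
          _ = _ := by ring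
      have h8 : x ^ 2 ≤ (1 / τ) ^ 2 := pow_le_pow_left₀ hx hxτ 2
      unfold ff
      have h9 : x * x ^ 2 ≤ x * fb σ x ^ q :=
        mul_le_mul_of_nonneg_left (h8.trans (h7.trans (h6.trans h4))) hx
      have h10 : 0 ≤ x * fb σ x ^ q := by
        have := pow_nonneg (fb_nonneg hσ.le hx) q
        positivity
      nlinarith [mul_le_mul_of_nonneg_right h2q h10]

/-- the trace of the cube is at most `n + 2^q F` (6.6) -/
theorem PSD.trace_cube_le (hA : PSD A) (hq : 4 ≤ q) {τ : ℝ} (hσ : 0 < σ) (hτ : 0 < τ)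
    (hσ1 : 2 * σ ≤ 1) (hστ : 4 * σ ^ 2 ≤ τ)
    (ha : ∀ θ : ι → ℝ, ∑ i, ∑ j, θ i * A i j * θ j ≤ 1 / τ * ∑ i, θ i ^ 2) :
    trace (A * A * A) ≤ Fintype.card ι + 2 ^ q * FF q σ A := by
  obtain ⟨e, lam, h, hlam⟩ := hA.exists_eig
  have hle := h.le ha
  have h1 : A * A * A = A ^ 3 := by rw [pow_succ, pow_two]
  rw [h1, h.trace_pow, h.FF_eq hlam hσ.le, Finset.mul_sum]
  calc ∑ k, lam k ^ 3 ≤ ∑ k, (1 + 2 ^ q * ff q σ (lam k)) :=
        Finset.sum_le_sum fun k _ => cube_le hq hσ hτ hσ1 hστ (hlam k) (hle k)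
    _ = _ := by rw [Finset.sum_add_distrib]; simp

/-- an operator norm bound (6.5): if `A` has a direction with `θ·Aθ ≥ L |θ|²`, `L ≥ 3a`,
`σ = 1/(4a)`, then `L ≤ (7/12)^q a^{-q} F`. -/
theorem PSD.large_le (hA : PSD A) {a L : ℝ} (ha : 0 < a) (hL : 3 * a ≤ L) (θ : ι → ℝ)
    (hθ : 0 < ∑ i, θ i ^ 2) (hAL : L * ∑ i, θ i ^ 2 ≤ ∑ i, ∑ j, θ i * A i j * θ j) :
    L * (12 * a / 7) ^ q ≤ FF q (1 / (4 * a)) A := by
  obtain ⟨e, lam, h, hlam⟩ := hA.exists_eig
  have hσ : 0 < 1 / (4 * a) := by positivity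
  rw [h.FF_eq hlam hσ.le]
  -- some eigenvalue is at least L
  have hex : ∃ k, L ≤ lam k := by
    by_contra hcon
    push Not at hcon
    rw [h.form_eq, ← sum_sq_mulVec h.orth' θ, Finset.mul_sum] at hAL
    rw [← sum_sq_mulVec h.orth' θ] at hθ
    obtain ⟨k0, -, hk0⟩ := Finset.exists_ne_zero_of_sum_ne_zero hθ.ne'
    have hlt : ∑ k, lam k * ((e *ᵥ θ) k) ^ 2 < ∑ k, L * ((e *ᵥ θ) k) ^ 2 := by
      refine Finset.sum_lt_sum (fun k _ => ?_) ⟨k0, Finset.mem_univ _, ?_⟩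
      · exact mul_le_mul_of_nonneg_right (hcon k).le (sq_nonneg _)
      · exact mul_lt_mul_of_pos_right (hcon k0) (lt_of_le_of_ne (sq_nonneg _) (Ne.symm hk0))
    linarith
  obtain ⟨k, hk⟩ := hex
  have hx : 3 * a ≤ lam k := hL.trans hk
  have hx0 : 0 ≤ lam k := hlam k
  have h1 : 12 * a / 7 ≤ fb (1 / (4 * a)) (lam k) := by
    have h2 := fb_mono hσ.le (show (0:ℝ) ≤ 3 * a by positivity) hx
    have h3 : fb (1 / (4 * a)) (3 * a) = 12 * a / 7 := by
      unfold fb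
      field_simp
      ring
    rwa [h3] at h2
  have h2 : (12 * a / 7) ^ q ≤ fb (1 / (4 * a)) (lam k) ^ q :=
    pow_le_pow_left₀ (by positivity) h1 q
  have h3 : L * (12 * a / 7) ^ q ≤ ff q (1 / (4 * a)) (lam k) := by
    unfold ff
    exact mul_le_mul hk h2 (by positivity) hx0
  refine h3.trans ?_
  exact Finset.single_le_sum (f := fun k => ff q (1 / (4 * a)) (lam k))
    (fun i _ => ff_nonneg hσ.le (hlam i)) (Finset.mem_univ k)

end consequences

end Pool.Agent.Lib.MP_8d00da_gt.h42k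
end
end
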