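import Pool.Agent.Lib.MP_8d00da_gt.h25.Op
import Pool.Agent.Lib.MP_8d00da_gt.h62a.Words

section

section

/-!
# Gaussian channel: definitions and uniform polynomial growth
-/

namespace Pool.Agent.Lib.MP_8d00da_gt.h42k

open MeasureTheory Set Filter
open scoped Topology NNReal ENNReal ContDiff

set_option linter.unusedSectionVars false
set_option linter.unusedVariables false

variable {ι : Type*} [Fintype ι] [DecidableEq ι]

/-- The posterior expectation `E_{t,y} f`. -/
noncomputable def EP (V : (ι → ℝ) → ℝ) (t : ℝ) (f : (ι → ℝ) → ℝ) (y : ι → ℝ) : ℝ :=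
  ex (pt V t y) f

/-- The posterior covariance `Cov_{t,y}(f,g)`. -/
noncomputable def CP (V : (ι → ℝ) → ℝ) (t : ℝ) (f g : (ι → ℝ) → ℝ) (y : ι → ℝ) : ℝ :=
  cov (pt V t y) f g

/-- The posterior third central moment. -/
noncomputable def TC (V : (ι → ℝ) → ℝ) (t : ℝ) (f g h : (ι → ℝ) → ℝ) (y : ι → ℝ) : ℝ :=
  ex (pt V t y) fun x => (f x - EP V t f y) * (g x - EP V t g y) * (h x - EP V t h y)

/-- Polynomial growth in `y`, uniformly for `t ∈ [0,T]`. -/
def PGU (Φ : ℝ → (ι → ℝ) → ℝ) (T : ℝ) : Prop :=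
  ∃ (C : ℝ) (k : ℕ), ∀ t ∈ Set.Icc 0 T, ∀ y, |Φ t y| ≤ C * (1 + sq y) ^ k

/-- The generator `G Φ = ∂_t Φ + a·∇Φ + ½ ΔΦ` at time `t`, `a = a(t,y)` the posterior mean. -/
noncomputable def Gn (V : (ι → ℝ) → ℝ) (t : ℝ) (Φ : ℝ → (ι → ℝ) → ℝ) (y : ι → ℝ) : ℝ :=
  deriv (fun s => Φ s y) t + ∑ i, EP V t (fun x => x i) y * pd i (Φ t) y
    + 1 / 2 * ∑ i, pd i (pd i (Φ t)) y

/-- The algebra of functions of `(t,y)` generated by the posterior expectations of measurable
functions of polynomial growth. -/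
inductive AL (V : (ι → ℝ) → ℝ) : (ℝ → (ι → ℝ) → ℝ) → Prop
  | ep (f : (ι → ℝ) → ℝ) (hf : T0 f) : AL V (fun t y => EP V t f y)
  | const (c : ℝ) : AL V (fun _ _ => c)
  | add {Φ Ψ : ℝ → (ι → ℝ) → ℝ} (h1 : AL V Φ) (h2 : AL V Ψ) : AL V (fun t y => Φ t y + Ψ t y)
  | mul {Φ Ψ : ℝ → (ι → ℝ) → ℝ} (h1 : AL V Φ) (h2 : AL V Ψ) : AL V (fun t y => Φ t y * Ψ t y)

/-- `V(x) + |g|²/2` on the space of the pairs `(x,g)`. -/
noncomputable def WS (V : (ι → ℝ) → ℝ) (z : ι ⊕ ι → ℝ) : ℝ :=
  V (fun i => z (Sum.inl i)) + gp (fun i => z (Sum.inr i))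

/-- The point `t x + √t g`. -/
noncomputable def yt (t : ℝ) (z : ι ⊕ ι → ℝ) : ι → ℝ :=
  fun i => t * z (Sum.inl i) + √t * z (Sum.inr i)

/-- The potential of `Y_t = t X + √t g` (`t > 0`). -/
noncomputable def VY (V : (ι → ℝ) → ℝ) (t : ℝ) (y : ι → ℝ) : ℝ :=
  sq y / (2 * t) - Real.log (∫ x, Real.exp (-(pt V t y x)))

/-- The unnormalised posterior integral `∫ f exp(-pt V t y)`, as a function of `(t,y)`. -/
noncomputable def ZP (V f : (ι → ℝ) → ℝ) (p : ℝ × (ι → ℝ)) : ℝ :=
  ∫ x, f x * Real.exp (-(pt V p.1 p.2 x))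

end Pool.Agent.Lib.MP_8d00da_gt.h42k
end

section

/-!
# Closure properties of uniform polynomial growth (elementary)
-/

namespace Pool.Agent.Lib.MP_8d00da_gt.h42k

open MeasureTheory Set Filter
open scoped Topology NNReal ENNReal ContDiff

set_option linter.unusedSectionVars false
set_option linter.unusedVariables false

variable {ι : Type*} [Fintype ι] [DecidableEq ι]

variable {Φ Ψ : ℝ → (ι → ℝ) → ℝ} {T : ℝ}

/-- A bound with nonnegative constant. -/
theorem PGU.bound (h : PGU Φ T) : ∃ (C : ℝ) (k : ℕ), 0 ≤ C ∧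
    ∀ t ∈ Set.Icc 0 T, ∀ y, |Φ t y| ≤ C * (1 + sq y) ^ k := by
  obtain ⟨C, k, h⟩ := h
  refine ⟨|C|, k, abs_nonneg C, fun t ht y => (h t ht y).trans ?_⟩
  have h1 : (0 : ℝ) ≤ (1 + sq y) ^ k := pow_nonneg (zero_le_one.trans (one_le_sq y)) k
  exact mul_le_mul_of_nonneg_right (le_abs_self C) h1

theorem PGU.pg (h : PGU Φ T) {t : ℝ} (ht : t ∈ Set.Icc 0 T) : PG (Φ t) := by
  obtain ⟨C, k, h⟩ := h
  exact ⟨C, k, fun y => h t ht y⟩

theorem PGU.of_pg {f : (ι → ℝ) → ℝ} (hf : PG f) (T : ℝ) : PGU (fun _ => f) T := by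
  obtain ⟨C, k, h⟩ := hf
  exact ⟨C, k, fun t _ y => h y⟩

theorem PGU.const (c T : ℝ) : PGU (fun _ _ => c : ℝ → (ι → ℝ) → ℝ) T :=
  PGU.of_pg (PG.const c) T

/-- A coefficient depending on `t` only. -/
theorem PGU.coef {c : ℝ → ℝ} {K : ℝ} (hc : ∀ t ∈ Set.Icc 0 T, |c t| ≤ K) :
    PGU (fun t _ => c t : ℝ → (ι → ℝ) → ℝ) T :=
  ⟨K, 0, fun t ht y => by
    rw [pow_zero, mul_one]
    exact hc t ht⟩

theorem PGU.mono (hΨ : PGU Ψ T) (h : ∀ t ∈ Set.Icc 0 T, ∀ y, |Φ t y| ≤ |Ψ t y|) :
    PGU Φ T := by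
  obtain ⟨C, k, hC⟩ := hΨ
  exact ⟨C, k, fun t ht y => (h t ht y).trans (hC t ht y)⟩

theorem PGU.monoT (hΨ : PGU Ψ T) {T' : ℝ} (h : T' ≤ T) : PGU Ψ T' := by
  obtain ⟨C, k, hC⟩ := hΨ
  exact ⟨C, k, fun t ht y => hC t ⟨ht.1, ht.2.trans h⟩ y⟩

theorem PGU.congr (hΨ : PGU Ψ T) (h : ∀ t ∈ Set.Icc 0 T, ∀ y, Φ t y = Ψ t y) :
    PGU Φ T :=
  hΨ.mono fun t ht y => by rw [h t ht y]

theorem PGU.add (h1 : PGU Φ T) (h2 : PGU Ψ T) : PGU (fun t y => Φ t y + Ψ t y) T := by
  obtain ⟨C, k, hC, h1⟩ := h1.bound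
  obtain ⟨D, l, hD, h2⟩ := h2.bound
  refine ⟨C + D, k + l, fun t ht y => ?_⟩
  have e1 : (1 + sq y) ^ k ≤ (1 + sq y) ^ (k + l) :=
    pow_le_pow_right₀ (one_le_sq y) (Nat.le_add_right k l)
  have e2 : (1 + sq y) ^ l ≤ (1 + sq y) ^ (k + l) :=
    pow_le_pow_right₀ (one_le_sq y) (Nat.le_add_left l k)
  calc |Φ t y + Ψ t y| ≤ |Φ t y| + |Ψ t y| := abs_add_le _ _
    _ ≤ C * (1 + sq y) ^ k + D * (1 + sq y) ^ l := add_le_add (h1 t ht y) (h2 t ht y)
    _ ≤ C * (1 + sq y) ^ (k + l) + D * (1 + sq y) ^ (k + l) :=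
      add_le_add (mul_le_mul_of_nonneg_left e1 hC) (mul_le_mul_of_nonneg_left e2 hD)
    _ = (C + D) * (1 + sq y) ^ (k + l) := by ring

theorem PGU.neg (h1 : PGU Φ T) : PGU (fun t y => - Φ t y) T :=
  h1.mono fun t ht y => by rw [abs_neg]

theorem PGU.sub (h1 : PGU Φ T) (h2 : PGU Ψ T) : PGU (fun t y => Φ t y - Ψ t y) T :=
  (h1.add h2.neg).congr fun t ht y => sub_eq_add_neg _ _

theorem PGU.mul (h1 : PGU Φ T) (h2 : PGU Ψ T) : PGU (fun t y => Φ t y * Ψ t y) T := by
  obtain ⟨C, k, hC, h1⟩ := h1.bound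
  obtain ⟨D, l, hD, h2⟩ := h2.bound
  refine ⟨C * D, k + l, fun t ht y => ?_⟩
  have e0 : (0 : ℝ) ≤ (1 + sq y) ^ k := pow_nonneg (zero_le_one.trans (one_le_sq y)) k
  calc |Φ t y * Ψ t y| = |Φ t y| * |Ψ t y| := abs_mul _ _
    _ ≤ (C * (1 + sq y) ^ k) * (D * (1 + sq y) ^ l) :=
      mul_le_mul (h1 t ht y) (h2 t ht y) (abs_nonneg _) (mul_nonneg hC e0)
    _ = C * D * (1 + sq y) ^ (k + l) := by ring

theorem PGU.pow (h1 : PGU Φ T) (k : ℕ) : PGU (fun t y => Φ t y ^ k) T := by
  induction k with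
  | zero => exact (PGU.const 1 T).congr fun t ht y => pow_zero _
  | succ k ih => exact (ih.mul h1).congr fun t ht y => pow_succ _ _

theorem PGU.abs (h1 : PGU Φ T) : PGU (fun t y => |Φ t y|) T :=
  h1.mono fun t ht y => by rw [abs_abs]

theorem PGU.sum {α : Type*} (S : Finset α) {F : α → ℝ → (ι → ℝ) → ℝ} (hF : ∀ a ∈ S, PGU (F a) T) :
    PGU (fun t y => ∑ a ∈ S, F a t y) T := by
  classical
  induction S using Finset.induction_on with
  | empty => exact (PGU.const 0 T).congr fun t ht y => Finset.sum_empty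
  | insert a S ha ih =>
    have h1 := hF a (Finset.mem_insert_self a S)
    have h2 := ih fun b hb => hF b (Finset.mem_insert_of_mem hb)
    exact (h1.add h2).congr fun t ht y => Finset.sum_insert ha

end Pool.Agent.Lib.MP_8d00da_gt.h42k
end
end

section

/-!
# Linear maps and translations (1.7)
-/

namespace Pool.Agent.Lib.MP_8d00da_gt.h42k

open MeasureTheory Set Filter
open scoped Topology NNReal ENNReal ContDiff

set_option linter.unusedSectionVars false
set_option linter.unusedVariables false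

variable {ι : Type*} [Fintype ι] [DecidableEq ι]

variable {κ M : ℝ} {V f g : (ι → ℝ) → ℝ}

/-- Chain rule for the directional derivative. -/
theorem gd_comp (P : (ι → ℝ) →L[ℝ] (ι → ℝ)) (hf : Differentiable ℝ f) (x u : ι → ℝ) :
    gd (fun x => f (P x)) x u = gd f (P x) (P u) := by
  have h : fderiv ℝ (fun x => f (P x)) x = (fderiv ℝ f (P x)).comp P :=
    ((hf (P x)).hasFDerivAt.comp x P.hasFDerivAt).fderiv
  rw [← fderiv_eq_gd, ← fderiv_eq_gd, h]
  rfl

/-- Chain rule for the Hessian form. -/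
theorem hs_comp (P : (ι → ℝ) →L[ℝ] (ι → ℝ)) (hf : ContDiff ℝ 2 f) (x u : ι → ℝ) :
    hs (fun x => f (P x)) x u = hs f (P x) (P u) := by
  have hF : ContDiff ℝ 2 (fun x => f (P x)) := hf.comp P.contDiff
  have h1 := (hs_line hF x u 0).1
  have h2 := (hs_line hf (P x) (P u) 0).1
  simp only [zero_smul, add_zero] at h1 h2
  have h3 : (fun r : ℝ => gd (fun x => f (P x)) (x + r • u) u) =
      fun r : ℝ => gd f (P x + r • P u) (P u) := by
    funext r
    rw [gd_comp P (hf.differentiable (by norm_num)), map_add, map_smul]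
  rw [h3] at h1
  exact h1.unique h2

theorem pd_comp (P : (ι → ℝ) →L[ℝ] (ι → ℝ)) (hf : Differentiable ℝ f) (i : ι) (x : ι → ℝ) :
    pd i (fun x => f (P x)) x = gd f (P x) (P (Pi.single i 1)) := by
  rw [← gd_comp P hf, ← fderiv_eq_gd]
  rfl

private theorem L17_bd (P : (ι → ℝ) →L[ℝ] (ι → ℝ)) :
    ∃ C : ℝ, 1 ≤ C ∧ ∀ x, sq (P x) ≤ C * sq x := by
  have h1 : ∀ x : ι → ℝ, ‖x‖ ^ 2 ≤ sq x := by
    intro x
    have h2 : ‖x‖ ≤ √(sq x) := by
      refine (pi_norm_le_iff_of_nonneg (Real.sqrt_nonneg _)).2 fun i => ?_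
      rw [Real.norm_eq_abs]
      exact Real.abs_le_sqrt (coord_sq_le x i)
    calc ‖x‖ ^ 2 ≤ √(sq x) ^ 2 := pow_le_pow_left₀ (norm_nonneg _) h2 2
      _ = _ := Real.sq_sqrt (sq_nn x)
  have h3 : ∀ x : ι → ℝ, sq x ≤ Fintype.card ι * ‖x‖ ^ 2 := by
    intro x
    calc sq x = ∑ i, x i ^ 2 := rfl
      _ ≤ ∑ _i : ι, ‖x‖ ^ 2 := by
        refine Finset.sum_le_sum fun i _ => ?_
        rw [← sq_abs, ← Real.norm_eq_abs]
        exact pow_le_pow_left₀ (norm_nonneg _) (norm_le_pi_norm x i) 2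
      _ = _ := by rw [Finset.sum_const, Finset.card_univ, nsmul_eq_mul]
  refine ⟨max 1 (Fintype.card ι * ‖P‖ ^ 2), le_max_left _ _, fun x => ?_⟩
  calc sq (P x) ≤ Fintype.card ι * ‖P x‖ ^ 2 := h3 _
    _ ≤ Fintype.card ι * (‖P‖ * ‖x‖) ^ 2 := by
      gcongr
      exact P.le_opNorm x
    _ = Fintype.card ι * ‖P‖ ^ 2 * ‖x‖ ^ 2 := by ring
    _ ≤ Fintype.card ι * ‖P‖ ^ 2 * sq x := by
      gcongr
      exact h1 x
    _ ≤ _ := mul_le_mul_of_nonneg_right (le_max_right _ _) (sq_nn x)

theorem PG.comp_lin (hf : PG f) (P : (ι → ℝ) →L[ℝ] (ι → ℝ)) : PG (fun x => f (P x)) := by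
  obtain ⟨C, k, hC, hb⟩ := hf.bound
  obtain ⟨D, hD, hP⟩ := L17_bd P
  refine ⟨C * D ^ k, k, fun x => (hb (P x)).trans ?_⟩
  rw [mul_assoc, ← mul_pow]
  refine mul_le_mul_of_nonneg_left (pow_le_pow_left₀ (by linarith [sq_nn (P x)]) ?_ k) hC
  have := hP x
  linarith

theorem T0.comp_lin (hf : T0 f) (P : (ι → ℝ) →L[ℝ] (ι → ℝ)) : T0 (fun x => f (P x)) :=
  ⟨hf.meas.comp P.continuous.measurable, hf.pg.comp_lin P⟩

theorem T1.comp_lin (hf : T1 f) (P : (ι → ℝ) →L[ℝ] (ι → ℝ)) : T1 (fun x => f (P x)) := by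
  refine ⟨hf.c1.comp P.contDiff, hf.pg.comp_lin P, fun i => ?_⟩
  have h : pd i (fun x => f (P x)) = fun x => ∑ j, P (Pi.single i 1) j * pd j f (P x) :=
    funext fun x => pd_comp P (hf.c1.differentiable (by norm_num)) i x
  rw [h]
  exact PG.sum _ fun j _ => (PG.const _).mul ((hf.pgd j).comp_lin P)

/-- Nice potentials after a linear change of variables. -/
theorem Nice.comp_lin (H : Nice κ M V) (P : (ι → ℝ) ≃L[ℝ] (ι → ℝ)) {c c' : ℝ} (hc : 0 < c)
    (h1 : ∀ u, c * sq u ≤ sq (P u)) (h2 : ∀ u, sq (P u) ≤ c' * sq u) :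
    Nice (κ * c) (M * c') fun x => V (P x) := by
  have hh := fun x u => hs_comp (P : (ι → ℝ) →L[ℝ] (ι → ℝ)) H.c2 x u
  refine ⟨mul_pos H.kpos hc, H.c2.comp P.contDiff, fun x u => ?_, fun x u => ?_⟩
  · rw [show hs (fun x => V (P x)) x u = hs V (P x) (P u) from hh x u, mul_assoc]
    exact (mul_le_mul_of_nonneg_left (h1 u) H.kpos.le).trans (H.lo _ _)
  · rw [show hs (fun x => V (P x)) x u = hs V (P x) (P u) from hh x u, mul_assoc]
    have h3 := H.hi (P x) (P u)
    refine h3.trans ?_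
    rcases (sq_nn (P u)).eq_or_lt with h0 | h0
    · rw [← h0, mul_zero]
      have h4 : 0 ≤ sq u := sq_nn u
      have h5 : sq u = 0 := by
        have := h1 u
        rw [← h0] at this
        nlinarith
      rw [h5, mul_zero, mul_zero]
    · have hM : 0 ≤ M := by
        by_contra hM
        have h4 := H.lo (P x) (P u)
        nlinarith [mul_pos H.kpos h0]
      exact mul_le_mul_of_nonneg_left (h2 u) hM

/-- Every linear change of variables preserves nice potentials, with some constants. -/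
theorem Nice.comp_lin' (H : Nice κ M V) (P : (ι → ℝ) ≃L[ℝ] (ι → ℝ)) :
    ∃ κ' M', Nice κ' M' fun x => V (P x) := by
  obtain ⟨C, hC, hP⟩ := L17_bd (P : (ι → ℝ) →L[ℝ] (ι → ℝ))
  obtain ⟨D, hD, hQ⟩ := L17_bd (P.symm : (ι → ℝ) →L[ℝ] (ι → ℝ))
  refine ⟨_, _, H.comp_lin P (c := D⁻¹) (c' := C) (by positivity) (fun u => ?_) hP⟩
  have h1 : sq u ≤ D * sq (P u) := by
    have := hQ (P u)
    simpa using this
  rw [inv_mul_le_iff₀ (by positivity)]
  exact h1

private theorem L17_cv (P : (ι → ℝ) ≃L[ℝ] (ι → ℝ)) :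
    ∃ J : ℝ, 0 < J ∧ ∀ Φ : (ι → ℝ) → ℝ, ∫ x, Φ (P x) = J * ∫ x, Φ x := by
  have hdet : LinearMap.det (P : (ι → ℝ) →ₗ[ℝ] (ι → ℝ)) ≠ 0 :=
    (LinearEquiv.isUnit_det' P.toLinearEquiv).ne_zero
  have hmap := Measure.map_linearMap_addHaar_eq_smul_addHaar (volume : Measure (ι → ℝ)) hdet
  refine ⟨|(LinearMap.det (P : (ι → ℝ) →ₗ[ℝ] (ι → ℝ)))⁻¹|, abs_pos.2 (inv_ne_zero hdet),
    fun Φ => ?_⟩
  have h1 : ∫ x, Φ (P x) = ∫ x, Φ x ∂(Measure.map (P : (ι → ℝ) →ₗ[ℝ] (ι → ℝ)) volume) := by
    have h2 := (P.toHomeomorph.toMeasurableEquiv).measurableEmbedding.integral_map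
      (μ := (volume : Measure (ι → ℝ))) Φ
    exact h2.symm
  rw [h1, hmap, integral_smul_measure, ENNReal.toReal_ofReal (abs_nonneg _), smul_eq_mul]

/-- Expectations after a linear change of variables. -/
theorem ex_comp_lin (P : (ι → ℝ) ≃L[ℝ] (ι → ℝ)) (V f : (ι → ℝ) → ℝ) :
    ex (fun x => V (P x)) (fun x => f (P x)) = ex V f := by
  obtain ⟨J, hJ, hcv⟩ := L17_cv P
  unfold ex
  have h1 := hcv fun x => f x * Real.exp (-V x)
  have h2 := hcv fun x => Real.exp (-V x)
  rw [h1, h2, mul_div_mul_left _ _ hJ.ne']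

theorem cov_comp_lin (P : (ι → ℝ) ≃L[ℝ] (ι → ℝ)) (V f g : (ι → ℝ) → ℝ) :
    cov (fun x => V (P x)) (fun x => f (P x)) (fun x => g (P x)) = cov V f g := by
  unfold cov
  rw [ex_comp_lin P V f, ex_comp_lin P V g, ex_comp_lin P V (fun x => f x * g x)]

theorem var_comp_lin (P : (ι → ℝ) ≃L[ℝ] (ι → ℝ)) (V f : (ι → ℝ) → ℝ) :
    var (fun x => V (P x)) (fun x => f (P x)) = var V f := cov_comp_lin P V f f

/-- Translations. -/
theorem ex_translate (a : ι → ℝ) (V f : (ι → ℝ) → ℝ) :
    ex (fun x => V (x + a)) (fun x => f (x + a)) = ex V f := by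
  unfold ex
  rw [integral_add_right_eq_self (fun x => f x * Real.exp (-V x)) a,
    integral_add_right_eq_self (fun x => Real.exp (-V x)) a]

theorem cov_translate (a : ι → ℝ) (V f g : (ι → ℝ) → ℝ) :
    cov (fun x => V (x + a)) (fun x => f (x + a)) (fun x => g (x + a)) = cov V f g := by
  unfold cov
  rw [ex_translate a V f, ex_translate a V g, ex_translate a V (fun x => f x * g x)]

theorem var_translate (a : ι → ℝ) (V f : (ι → ℝ) → ℝ) :
    var (fun x => V (x + a)) (fun x => f (x + a)) = var V f := cov_translate a V f f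

theorem pd_translate (a : ι → ℝ) (f : (ι → ℝ) → ℝ) (i : ι) (x : ι → ℝ) :
    pd i (fun x => f (x + a)) x = pd i f (x + a) := by
  unfold pd
  rw [fderiv_comp_add_right]

theorem hs_translate (a : ι → ℝ) (f : (ι → ℝ) → ℝ) (x u : ι → ℝ) :
    hs (fun x => f (x + a)) x u = hs f (x + a) u := by
  unfold hs
  refine Finset.sum_congr rfl fun i _ => Finset.sum_congr rfl fun j _ => ?_
  have h : pd j (fun x => f (x + a)) = fun x => pd j f (x + a) :=
    funext fun x => pd_translate a f j x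
  rw [h, pd_translate]

theorem Nice.translate (H : Nice κ M V) (a : ι → ℝ) : Nice κ M fun x => V (x + a) := by
  refine ⟨H.kpos, H.c2.comp (contDiff_id.add contDiff_const), fun x u => ?_, fun x u => ?_⟩
  · rw [hs_translate]
    exact H.lo _ _
  · rw [hs_translate]
    exact H.hi _ _

theorem pd_addc (f : (ι → ℝ) → ℝ) (c : ℝ) (i : ι) (x : ι → ℝ) :
    pd i (fun x => f x + c) x = pd i f x := by
  unfold pd
  rw [fderiv_add_const]

theorem Nice.add_const (H : Nice κ M V) (c : ℝ) : Nice κ M fun x => V x + c := by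
  have h : ∀ x u, hs (fun x => V x + c) x u = hs V x u := by
    intro x u
    unfold hs
    refine Finset.sum_congr rfl fun i _ => Finset.sum_congr rfl fun j _ => ?_
    have h : pd j (fun x => V x + c) = pd j V := funext fun x => pd_addc V c j x
    rw [h]
  refine ⟨H.kpos, H.c2.add contDiff_const, fun x u => ?_, fun x u => ?_⟩
  · rw [h]
    exact H.lo _ _
  · rw [h]
    exact H.hi _ _

/-- The mean of a linear function. -/
theorem ex_dt (H : Nice κ M V) (θ : ι → ℝ) : ex V (dt θ) = dt θ (mn V) := by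
  have h : (dt θ : (ι → ℝ) → ℝ) = fun x => ∑ i, θ i * x i := rfl
  have h2 : dt θ (mn V) = ∑ i, θ i * mn V i := rfl
  rw [h2, h, ex_sum H Finset.univ fun i _ => (T0.coord i).cmul (θ i)]
  exact Finset.sum_congr rfl fun i _ => ex_cmul V _ _

/-- The covariance matrix after a linear change of variables: if `x = R (P x)` then
`Cov(V ∘ P) = R Cov(V) Rᵀ`. -/
theorem CM_comp_lin (H : Nice κ M V) (P : (ι → ℝ) ≃L[ℝ] (ι → ℝ)) (R : Matrix ι ι ℝ)
    (hR : ∀ x, R.mulVec (P x) = x) :
    CM (fun x => V (P x)) = R * CM V * R.transpose := by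
  have hc : ∀ i, (fun x : ι → ℝ => x i) = fun x => (fun z : ι → ℝ => ∑ k, R i k * z k) (P x) := by
    intro i
    funext x
    have h1 := congrFun (hR x) i
    simp only [Matrix.mulVec, dotProduct] at h1
    exact h1.symm
  ext i j
  have hi := hc i
  have hj := hc j
  have e1 : CM (fun x => V (P x)) i j =
      cov V (fun z => ∑ k, R i k * z k) (fun z => ∑ k, R j k * z k) := by
    simp only [CM, Matrix.of_apply]
    rw [hi, hj]
    exact cov_comp_lin P V (fun z => ∑ k, R i k * z k) (fun z => ∑ k, R j k * z k)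
  have ht : ∀ i : ι, ∀ k ∈ (Finset.univ : Finset ι), T0 (fun z : ι → ℝ => R i k * z k) :=
    fun i k _ => (T0.coord k).cmul (R i k)
  rw [e1, cov_sum H Finset.univ (ht i) (T0.sum _ (ht j))]
  simp only [Matrix.mul_apply, Matrix.transpose_apply, Finset.sum_mul]
  rw [Finset.sum_comm]
  refine Finset.sum_congr rfl fun l _ => ?_
  rw [cov_comm, cov_sum H Finset.univ (ht j) (ht i l (Finset.mem_univ l))]
  refine Finset.sum_congr rfl fun k _ => ?_
  rw [cov_cmul, cov_comm, cov_cmul]
  simp only [CM, Matrix.of_apply]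
  ring

/-- The diagonal map. -/
noncomputable def dg (c : ι → ℝ) (hc : ∀ i, c i ≠ 0) : (ι → ℝ) ≃L[ℝ] (ι → ℝ) :=
  ContinuousLinearEquiv.piCongrRight fun i =>
    ContinuousLinearEquiv.unitsEquivAut ℝ (Units.mk0 (c i) (hc i))

theorem dg_apply (c : ι → ℝ) (hc : ∀ i, c i ≠ 0) (x : ι → ℝ) (i : ι) :
    dg c hc x i = x i * c i := by
  simp [dg, ContinuousLinearEquiv.piCongrRight]

/-- The linear map of an orthogonal matrix. -/
noncomputable def ogm (U : Matrix ι ι ℝ) (hU : U * U.transpose = 1) : (ι → ℝ) ≃L[ℝ] (ι → ℝ) :=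
  (Matrix.toLin'OfInv (mul_eq_one_comm.1 hU) hU).toContinuousLinearEquiv

theorem ogm_apply (U : Matrix ι ι ℝ) (hU : U * U.transpose = 1) (x : ι → ℝ) :
    ogm U hU x = U.mulVec x := by
  rfl

theorem sq_og (U : Matrix ι ι ℝ) (hU : U * U.transpose = 1) (x : ι → ℝ) :
    sq (ogm U hU x) = sq x := by
  have h1 : ∀ z : ι → ℝ, sq z = z ⬝ᵥ z := fun z => by
    unfold sq dotProduct
    exact Finset.sum_congr rfl fun i _ => by ring
  rw [ogm_apply, h1, h1, Matrix.dotProduct_mulVec, ← Matrix.mulVec_transpose, Matrix.mulVec_mulVec,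
    mul_eq_one_comm.1 hU, Matrix.one_mulVec]

theorem Nice.comp_og (H : Nice κ M V) (U : Matrix ι ι ℝ) (hU : U * U.transpose = 1) :
    Nice κ M fun x => V (ogm U hU x) := by
  have h := H.comp_lin (ogm U hU) (c := 1) (c' := 1) one_pos
    (fun u => by rw [sq_og, one_mul]) (fun u => by rw [sq_og, one_mul])
  rwa [mul_one, mul_one] at h

theorem CM_og (H : Nice κ M V) (U : Matrix ι ι ℝ) (hU : U * U.transpose = 1) :
    CM (fun x => V (ogm U hU x)) = U.transpose * CM V * U := by
  have h := CM_comp_lin H (ogm U hU) U.transpose (fun x => by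
    rw [ogm_apply, Matrix.mulVec_mulVec, mul_eq_one_comm.1 hU, Matrix.one_mulVec])
  rwa [Matrix.transpose_transpose] at h

/-- `|∇(f ∘ U)| = |∇f| ∘ U` for orthogonal `U`. -/
theorem gs_og (hf : Differentiable ℝ f) (U : Matrix ι ι ℝ) (hU : U * U.transpose = 1)
    (x : ι → ℝ) : gs (fun x => f (ogm U hU x)) x = gs f (ogm U hU x) := by
  have h1 : ∀ i, pd i (fun x => f (ogm U hU x)) x =
      (U.transpose.mulVec fun j => pd j f (ogm U hU x)) i := by
    intro i
    have h2 := pd_comp (ogm U hU : (ι → ℝ) →L[ℝ] (ι → ℝ)) hf i x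
    rw [show pd i (fun x => f (ogm U hU x)) x =
      gd f (ogm U hU x) (ogm U hU (Pi.single i 1)) from h2, ogm_apply U hU (Pi.single i 1)]
    simp only [gd, Matrix.mulVec, dotProduct, Matrix.transpose_apply]
    refine Finset.sum_congr rfl fun j _ => ?_
    congr 1
    rw [Finset.sum_eq_single i]
    · rw [Pi.single_eq_same, mul_one]
    · intro k _ hk
      rw [Pi.single_eq_of_ne hk, mul_zero]
    · intro hi
      exact absurd (Finset.mem_univ i) hi
  have hU' : U.transpose * U.transpose.transpose = 1 := by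
    rw [Matrix.transpose_transpose]
    exact mul_eq_one_comm.1 hU
  have h3 := sq_og U.transpose hU' fun j => pd j f (ogm U hU x)
  rw [ogm_apply] at h3
  unfold gs
  simp only [h1]
  exact h3

/-- The Poincare inequality is invariant under orthogonal maps. -/
theorem PI_og (U : Matrix ι ι ℝ) (hU : U * U.transpose = 1) {C : ℝ}
    (h : PI (fun x => V (ogm U hU x)) C) : PI V C := by
  intro f hf
  have h1 := h (fun x => f (ogm U hU x)) (hf.comp_lin (ogm U hU : (ι → ℝ) →L[ℝ] (ι → ℝ)))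
  rw [var_comp_lin (ogm U hU) V f] at h1
  have h2 : gs (fun x => f (ogm U hU x)) = fun x => gs f (ogm U hU x) :=
    funext fun x => gs_og (hf.c1.differentiable (by norm_num)) U hU x
  rw [h2, ex_comp_lin (ogm U hU) V (gs f)] at h1
  exact h1

/-- `Cov(V) ≤ a` is invariant under orthogonal maps. -/
theorem CLe.comp_og {a : ℝ} (hC : CLe V a) (U : Matrix ι ι ℝ) (hU : U * U.transpose = 1) :
    CLe (fun x => V (ogm U hU x)) a := by
  intro θ
  have h1 : (fun x : ι → ℝ => dt θ x) = fun x => (fun z => dt (U.mulVec θ) z) (ogm U hU x) := by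
    funext x
    have h2 : ∀ z w : ι → ℝ, dt z w = z ⬝ᵥ w := fun z w => rfl
    show dt θ x = dt (U.mulVec θ) (ogm U hU x)
    rw [ogm_apply, h2, h2, Matrix.dotProduct_mulVec, ← Matrix.mulVec_transpose, Matrix.mulVec_mulVec,
      mul_eq_one_comm.1 hU, Matrix.one_mulVec]
  rw [h1, var_comp_lin (ogm U hU) V]
  have h3 := hC (U.mulVec θ)
  have h4 : sq (U.mulVec θ) = sq θ := by rw [← ogm_apply U hU, sq_og]
  rw [h4] at h3
  exact h3

end Pool.Agent.Lib.MP_8d00da_gt.h42k
end

section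

section

/-!
# Ground state transform, from smooth to C² test functions
-/

namespace Pool.Agent.Lib.MP_8d00da_gt.h42k

open MeasureTheory Set Filter
open scoped Topology NNReal ENNReal ContDiff

set_option linter.unusedSectionVars false
set_option linter.unusedVariables false

variable {ι : Type*} [Fintype ι] [DecidableEq ι]

variable {κ M : ℝ} {V : (ι → ℝ) → ℝ}

/-- The potential of the Schroedinger operator. -/
noncomputable def W0 (V : (ι → ℝ) → ℝ) (x : ι → ℝ) : ℝ :=
  gs V x / 4 - (∑ i, pd i (pd i V) x) / 2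

private theorem KC1_pdcont {f : (ι → ℝ) → ℝ} (hf : ContDiff ℝ 1 f) (i : ι) :
    Continuous (pd i f) := (hf.continuous_fderiv (by norm_num)).clm_apply continuous_const

private theorem KC1_pdc1 {f : (ι → ℝ) → ℝ} (hf : ContDiff ℝ 2 f) (i : ι) :
    ContDiff ℝ 1 (pd i f) := by
  have h : ContDiff ℝ ((1 + 1 : ℕ) : WithTop ℕ∞) f := by
    have e : (((1 + 1 : ℕ) : ℕ) : WithTop ℕ∞) = 2 := by norm_num
    rw [e]
    exact hf
  have := contDiff_pd h i
  simpa using this

private theorem KC1_pdsupp {f : (ι → ℝ) → ℝ} (hc : HasCompactSupport f) (i : ι) :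
    HasCompactSupport (pd i f) :=
  (hc.fderiv ℝ).comp_left (g := fun L : (ι → ℝ) →L[ℝ] ℝ => L (Pi.single i 1)) rfl

theorem W0_cont (H : Nice κ M V) : Continuous (W0 V) := by
  have h1 : ∀ i, Continuous (pd i V) := fun i => (H.pdt1 i).c1.continuous
  have h2 : ∀ i, Continuous (pd i (pd i V)) := fun i => KC1_pdcont (H.pdt1 i).c1 i
  unfold W0 gs
  exact ((continuous_finsetSum _ fun i _ => (h1 i).pow 2).div_const 4).sub
    ((continuous_finsetSum _ fun i _ => h2 i).div_const 2)

private theorem KC1_pdE (H : Nice κ M V) (i : ι) (x : ι → ℝ) :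
    pd i (fun z => Real.exp (V z / 2)) x = Real.exp (V x / 2) * (pd i V x / 2) := by
  have hd : HasFDerivAt V (fderiv ℝ V x) x := (H.c2.differentiable (by norm_num) x).hasFDerivAt
  have h1 : HasFDerivAt (fun z => V z / 2) ((1 / 2 : ℝ) • fderiv ℝ V x) x := by
    have h2 := hd.const_mul (1 / 2 : ℝ)
    have h3 : (fun z => V z / 2) = fun z => (1 / 2 : ℝ) * V z := by
      funext z
      ring
    rw [h3]
    exact h2
  have h2 := h1.exp
  unfold pd
  rw [h2.fderiv]
  simp only [_root_.smul_apply, smul_eq_mul]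
  ring

private theorem KC1_Ec2 (H : Nice κ M V) : ContDiff ℝ 2 fun z => Real.exp (V z / 2) :=
  Real.contDiff_exp.comp (H.c2.div_const 2)

private theorem KC1_pd1 (H : Nice κ M V) {ψ : (ι → ℝ) → ℝ} (hψ : Differentiable ℝ ψ) (i : ι)
    (x : ι → ℝ) : pd i (fun z => ψ z * Real.exp (V z / 2)) x =
      Real.exp (V x / 2) * (pd i ψ x + ψ x * (pd i V x / 2)) := by
  rw [pd_mul hψ ((KC1_Ec2 H).differentiable (by norm_num)), KC1_pdE H]
  ring

/-- `LL V (ψ e^{V/2}) = e^{V/2} (-Δψ + W0 ψ)`. -/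
theorem LL_ground (H : Nice κ M V) {ψ : (ι → ℝ) → ℝ} (hψ : ContDiff ℝ 2 ψ) (x : ι → ℝ) :
    LL V (fun z => ψ z * Real.exp (V z / 2)) x =
      Real.exp (V x / 2) * (W0 V x * ψ x - ∑ i, pd i (pd i ψ) x) := by
  have hψd : Differentiable ℝ ψ := hψ.differentiable (by norm_num)
  have key : ∀ i, pd i (pd i fun z => ψ z * Real.exp (V z / 2)) x =
      Real.exp (V x / 2) * (pd i (pd i ψ) x + pd i ψ x * pd i V x +
        ψ x * (pd i V x ^ 2 / 4 + pd i (pd i V) x / 2)) := by
    intro i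
    have hVi : Differentiable ℝ (pd i V) := (H.pdt1 i).c1.differentiable (by norm_num)
    have hψi : Differentiable ℝ (pd i ψ) := (KC1_pdc1 hψ i).differentiable (by norm_num)
    have hq : Differentiable ℝ fun z => pd i V z / 2 := by
      have h3 : (fun z => pd i V z / 2) = fun z => (1 / 2 : ℝ) * pd i V z := by
        funext z
        ring
      rw [h3]
      exact hVi.const_mul _
    have e1 : pd i (fun z => ψ z * Real.exp (V z / 2)) =
        fun z => (pd i ψ z + ψ z * (pd i V z / 2)) * Real.exp (V z / 2) := by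
      funext z
      rw [KC1_pd1 H hψd, mul_comm]
    have e2 : pd i (fun z => pd i V z / 2) x = pd i (pd i V) x / 2 := by
      have h3 : (fun z => pd i V z / 2) = fun z => (1 / 2 : ℝ) * pd i V z := by
        funext z
        ring
      rw [h3, pd_cmul hVi]
      ring
    rw [e1, KC1_pd1 H (hψi.fun_add (hψd.fun_mul hq)), pd_add hψi (hψd.fun_mul hq),
      pd_mul hψd hq, e2]
    ring
  unfold LL W0 gs
  rw [Finset.sum_congr rfl fun i _ => by rw [key i, KC1_pd1 H hψd i x]]
  rw [Finset.sum_div, Finset.sum_div, ← Finset.sum_sub_distrib, Finset.sum_mul,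
    ← Finset.sum_sub_distrib, Finset.mul_sum]
  refine Finset.sum_congr rfl fun i _ => ?_
  ring

/-- Expand the right side: `∇(w e^{V/2}) = e^{V/2}(∇w + w ∇V/2)`; one integration by parts of
`w ∇w·∇V = ∇(w²/2)·∇V`. -/
theorem ground_energy (H : Nice κ M V) {w : (ι → ℝ) → ℝ} (hw : ContDiff ℝ 2 w)
    (hc : HasCompactSupport w) :
    (∫ x, gs w x) + (∫ x, W0 V x * w x ^ 2) =
      ∫ x, gs (fun z => w z * Real.exp (V z / 2)) x * Real.exp (-V x) := by
  have hwd : Differentiable ℝ w := hw.differentiable (by norm_num)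
  have hw1 : ContDiff ℝ 1 w := hw.of_le (by norm_num)
  have cw : Continuous w := hw.continuous
  have cwi : ∀ i, Continuous (pd i w) := fun i => KC1_pdcont hw1 i
  have cVi : ∀ i, Continuous (pd i V) := fun i => (H.pdt1 i).c1.continuous
  have cVii : ∀ i, Continuous (pd i (pd i V)) := fun i => KC1_pdcont (H.pdt1 i).c1 i
  have hsw : HasCompactSupport fun x => w x ^ 2 := by
    have h : (fun x => w x ^ 2) = fun x => w x * w x := by
      funext x
      ring
    rw [h]
    exact hc.mul_right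
  -- the integrand
  have e1 : ∀ x, gs (fun z => w z * Real.exp (V z / 2)) x * Real.exp (-V x) =
      gs w x + (gs V x / 4) * w x ^ 2 + ∑ i, w x * pd i w x * pd i V x := by
    intro x
    have hE : Real.exp (V x / 2) ^ 2 * Real.exp (-V x) = 1 := by
      rw [← Real.exp_nat_mul, ← Real.exp_add]
      push_cast
      rw [show 2 * (V x / 2) + -V x = 0 by ring, Real.exp_zero]
    unfold gs
    rw [Finset.sum_congr rfl fun i _ => by rw [KC1_pd1 H hwd i x, mul_pow], ← Finset.mul_sum,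
      mul_right_comm, hE, one_mul, Finset.sum_div, Finset.sum_mul, ← Finset.sum_add_distrib,
      ← Finset.sum_add_distrib]
    refine Finset.sum_congr rfl fun i _ => ?_
    ring
  -- integration by parts
  have e2 : ∀ i, ∫ x, w x * pd i w x * pd i V x = -∫ x, (w x ^ 2 / 2) * pd i (pd i V) x := by
    intro i
    have hF : Differentiable ℝ fun x => w x * w x := hwd.fun_mul hwd
    have hpF : ∀ x, pd i (fun x => w x * w x) x = 2 * (w x * pd i w x) := by
      intro x
      rw [pd_mul hwd hwd]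
      ring
    have h1 := integral_mul_fderiv_eq_neg_fderiv_mul_of_integrable (μ := (volume : Measure (ι → ℝ)))
      (f := fun x => w x * w x) (g := pd i V) (v := Pi.single i 1) ?_ ?_ ?_
      (fun x _ => hF x) (fun x _ => (H.pdt1 i).c1.differentiable (by norm_num) x)
    · have h2 : ∫ x, w x * w x * pd i (pd i V) x =
          -∫ x, pd i (fun x => w x * w x) x * pd i V x := h1
      have h3 : ∫ x, pd i (fun x => w x * w x) x * pd i V x =
          2 * ∫ x, w x * pd i w x * pd i V x := by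
        rw [← integral_const_mul]
        exact integral_congr_ae (Eventually.of_forall fun x => by
          simp only [hpF]
          ring)
      have h4 : ∫ x, (w x ^ 2 / 2) * pd i (pd i V) x =
          (1 / 2) * ∫ x, w x * w x * pd i (pd i V) x := by
        rw [← integral_const_mul]
        exact integral_congr_ae (Eventually.of_forall fun x => by
          simp only
          ring)
      rw [h4, h2, h3]
      ring
    · have h2 : (fun x => fderiv ℝ (fun x => w x * w x) x (Pi.single i 1) * pd i V x) =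
          fun x => w x * (2 * pd i w x * pd i V x) := by
        funext x
        have := hpF x
        unfold pd at this ⊢
        rw [this]
        ring
      rw [h2]
      exact (cw.mul ((continuous_const.mul (cwi i)).mul (cVi i))).integrable_of_hasCompactSupport
        hc.mul_right
    · exact ((cw.mul cw).mul (cVii i)).integrable_of_hasCompactSupport
        (hc.mul_right (f' := w)).mul_right
    · exact ((cw.mul cw).mul (cVi i)).integrable_of_hasCompactSupport
        (hc.mul_right (f' := w)).mul_right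
  have i1 : Integrable (gs w) := by
    have h1 : Continuous (gs w) := by
      unfold gs
      exact continuous_finsetSum _ fun i _ => (cwi i).pow 2
    refine h1.integrable_of_hasCompactSupport (HasCompactSupport.intro hc.isCompact fun x hx => ?_)
    unfold gs
    refine Finset.sum_eq_zero fun i _ => ?_
    have h2 : pd i w x = 0 := by
      unfold pd
      rw [image_eq_zero_of_notMem_tsupport (fun h => hx (tsupport_fderiv_subset ℝ h))]
      rfl
    rw [h2]
    ring
  have i2 : Integrable fun x => (gs V x / 4) * w x ^ 2 := by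
    have h1 : Continuous (gs V) := by
      unfold gs
      exact continuous_finsetSum _ fun i _ => (cVi i).pow 2
    exact ((h1.div_const 4).mul (cw.pow 2)).integrable_of_hasCompactSupport hsw.mul_left
  have i3 : ∀ i, Integrable fun x => w x * pd i w x * pd i V x := fun i =>
    ((cw.mul (cwi i)).mul (cVi i)).integrable_of_hasCompactSupport
      (hc.mul_right (f' := pd i w)).mul_right
  have i4 : ∀ i, Integrable fun x => (w x ^ 2 / 2) * pd i (pd i V) x := fun i => by
    have h1 : (fun x => (w x ^ 2 / 2) * pd i (pd i V) x) =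
        fun x => w x ^ 2 * (pd i (pd i V) x / 2) := by
      funext x
      ring
    rw [h1]
    exact ((cw.pow 2).mul ((cVii i).div_const 2)).integrable_of_hasCompactSupport hsw.mul_right
  have i12 : Integrable fun x => gs w x + (gs V x / 4) * w x ^ 2 := i1.add i2
  rw [integral_congr_ae (Eventually.of_forall e1), integral_add i12 (integrable_finsetSum _ fun i _ => i3 i),
    integral_add i1 i2, integral_finsetSum _ fun i _ => i3 i, Finset.sum_congr rfl fun i _ => e2 i,
    Finset.sum_neg_distrib, ← integral_finsetSum _ fun i _ => i4 i]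
  have e3 : ∫ x, W0 V x * w x ^ 2 = (∫ x, (gs V x / 4) * w x ^ 2) -
      ∫ x, ∑ i, (w x ^ 2 / 2) * pd i (pd i V) x := by
    rw [← integral_sub i2 (integrable_finsetSum _ fun i _ => i4 i)]
    refine integral_congr_ae (Eventually.of_forall fun x => ?_)
    simp only
    unfold W0
    rw [← Finset.mul_sum]
    ring
  rw [e3]
  ring

/-! ### Mollification -/

open scoped Convolution in
private theorem KC1_moll {h : (ι → ℝ) → ℝ} (hh : ContDiff ℝ 1 h) (hc : HasCompactSupport h)
    (φ : ContDiffBump (0 : ι → ℝ)) (i : ι) :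
    pd i (φ.normed volume ⋆[ContinuousLinearMap.lsmul ℝ ℝ, volume] h) =
      φ.normed volume ⋆[ContinuousLinearMap.lsmul ℝ ℝ, volume] pd i h := by
  funext x
  have hli : LocallyIntegrable (φ.normed (volume : Measure (ι → ℝ))) volume :=
    φ.continuous_normed.locallyIntegrable
  have h1 := hc.hasFDerivAt_convolution_right (ContinuousLinearMap.lsmul ℝ ℝ) hli hh x
  have h2 : pd i (φ.normed volume ⋆[ContinuousLinearMap.lsmul ℝ ℝ, volume] h) x =
      (φ.normed volume ⋆[(ContinuousLinearMap.lsmul ℝ ℝ).precompR (ι → ℝ), volume] fderiv ℝ h) x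
        (Pi.single i 1) := by
    unfold pd
    rw [h1.fderiv]
  rw [h2, convolution_precompR_apply _ hli (hc.fderiv ℝ) (hh.continuous_fderiv (by norm_num))]
  rfl

open scoped Convolution in
private theorem KC1_bd {h : (ι → ℝ) → ℝ} (hh : Continuous h) {C : ℝ} (hC : ∀ x, |h x| ≤ C)
    (φ : ContDiffBump (0 : ι → ℝ)) (x : ι → ℝ) :
    |(φ.normed volume ⋆[ContinuousLinearMap.lsmul ℝ ℝ, volume] h) x| ≤ 3 * C := by
  have h1 := φ.dist_normed_convolution_le (μ := (volume : Measure (ι → ℝ))) (g := h) (x₀ := x)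
    (ε := 2 * C) hh.aestronglyMeasurable (fun y _ => by
      rw [Real.dist_eq]
      have h2 := abs_sub (h y) (h x)
      have h3 := hC y
      have h4 := hC x
      linarith)
  rw [Real.dist_eq] at h1
  have h2 := hC x
  have h3 := abs_sub_abs_le_abs_sub
    ((φ.normed volume ⋆[ContinuousLinearMap.lsmul ℝ ℝ, volume] h) x) (h x)
  linarith

open scoped Convolution in
private theorem KC1_zero {h : (ι → ℝ) → ℝ} (hh : Continuous h) {S : Set (ι → ℝ)}
    (hs : ∀ y, y ∉ S → h y = 0) (φ : ContDiffBump (0 : ι → ℝ)) (hφ : φ.rOut ≤ 1) {x : ι → ℝ}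
    (hx : x ∉ Metric.cthickening 1 S) :
    (φ.normed volume ⋆[ContinuousLinearMap.lsmul ℝ ℝ, volume] h) x = 0 := by
  have h0 : ∀ y, dist y x < 1 → h y = 0 := by
    intro y hy
    apply hs
    intro hyS
    refine hx (Metric.mem_cthickening_of_dist_le x y 1 S hyS ?_)
    rw [dist_comm]
    exact hy.le
  have hx0 : h x = 0 := h0 x (by rw [dist_self]; exact one_pos)
  have h1 := φ.dist_normed_convolution_le (μ := (volume : Measure (ι → ℝ))) (g := h) (x₀ := x)
    (ε := 0) hh.aestronglyMeasurable (fun y hy => by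
      rw [h0 y ((Metric.mem_ball.1 hy).trans_le hφ), hx0, dist_self])
  rw [hx0, dist_zero_right] at h1
  exact norm_le_zero_iff.1 h1

/-- Orthogonality to all `L φ`, `φ` smooth with compact support, implies the same for `C²` functions with
compact support: mollify `ψ` (`ContDiffBump`), the first and second derivatives converge uniformly and
the supports stay in a fixed compact set. -/
theorem orth_c2 (H : Nice κ M V) {g : (ι → ℝ) → ℝ} (hg : Measurable g)
    (hi : Integrable fun x => g x ^ 2 * Real.exp (-V x))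
    (ho : ∀ φ, Cc φ → ∫ x, g x * LL V φ x * Real.exp (-V x) = 0) {ψ : (ι → ℝ) → ℝ}
    (hψ : ContDiff ℝ 2 ψ) (hc : HasCompactSupport ψ) :
    ∫ x, g x * LL V ψ x * Real.exp (-V x) = 0 := by
  classical
  let φ : ℕ → ContDiffBump (0 : ι → ℝ) := fun n =>
    ⟨1 / ((n : ℝ) + 2), 1 / ((n : ℝ) + 1), by positivity,
      one_div_lt_one_div_of_lt (by positivity) (by linarith)⟩
  have hrO : ∀ n, (φ n).rOut = 1 / ((n : ℝ) + 1) := fun n => rfl
  have hr1 : ∀ n, (φ n).rOut ≤ 1 := by
    intro n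
    rw [hrO, div_le_one (by positivity)]
    have : (0 : ℝ) ≤ n := Nat.cast_nonneg n
    linarith
  have hrt : Tendsto (fun n => (φ n).rOut) atTop (𝓝 0) := by
    simp only [hrO]
    exact tendsto_one_div_add_atTop_nhds_zero_nat
  have hψ1 : ContDiff ℝ 1 ψ := hψ.of_le (by norm_num)
  have hψi : ∀ i, ContDiff ℝ 1 (pd i ψ) := fun i => KC1_pdc1 hψ i
  have hci : ∀ i, HasCompactSupport (pd i ψ) := fun i => KC1_pdsupp hc i
  have hcii : ∀ i, HasCompactSupport (pd i (pd i ψ)) := fun i => KC1_pdsupp (hci i) i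
  have ctii : ∀ i, Continuous (pd i (pd i ψ)) := fun i => KC1_pdcont (hψi i) i
  obtain ⟨Ψ, hΨ⟩ : ∃ Ψ : ℕ → (ι → ℝ) → ℝ, ∀ n, Ψ n =
      MeasureTheory.convolution ((φ n).normed volume) ψ (ContinuousLinearMap.lsmul ℝ ℝ) volume :=
    ⟨_, fun n => rfl⟩
  have hCc : ∀ n, Cc (Ψ n) := by
    intro n
    rw [hΨ]
    exact ⟨(φ n).hasCompactSupport_normed.contDiff_convolution_left _ (φ n).contDiff_normed
      hψ.continuous.locallyIntegrable, (φ n).hasCompactSupport_normed.convolution _ hc⟩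
  have hp1 : ∀ n i, pd i (Ψ n) = MeasureTheory.convolution ((φ n).normed volume) (pd i ψ)
      (ContinuousLinearMap.lsmul ℝ ℝ) volume := by
    intro n i
    rw [hΨ]
    exact KC1_moll hψ1 hc (φ n) i
  have hp2 : ∀ n i, pd i (pd i (Ψ n)) =
      MeasureTheory.convolution ((φ n).normed volume) (pd i (pd i ψ))
        (ContinuousLinearMap.lsmul ℝ ℝ) volume := by
    intro n i
    rw [hp1]
    exact KC1_moll (hψi i) (hci i) (φ n) i
  have ht1 : ∀ i x, Tendsto (fun n => pd i (Ψ n) x) atTop (𝓝 (pd i ψ x)) := by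
    intro i x
    simp only [hp1]
    exact ContDiffBump.convolution_tendsto_right_of_continuous hrt (hψi i).continuous x
  have ht2 : ∀ i x, Tendsto (fun n => pd i (pd i (Ψ n)) x) atTop (𝓝 (pd i (pd i ψ) x)) := by
    intro i x
    simp only [hp2]
    exact ContDiffBump.convolution_tendsto_right_of_continuous hrt (ctii i) x
  -- bounds
  have hK : IsCompact (Metric.cthickening 1 (tsupport ψ)) := hc.isCompact.cthickening
  have hB : ∀ i, ∃ B : ℝ, ∀ x ∈ Metric.cthickening 1 (tsupport ψ), ‖pd i V x‖ ≤ B := fun i =>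
    hK.exists_bound_of_continuousOn (H.pdt1 i).c1.continuous.continuousOn
  choose B hB using hB
  have hC1 : ∀ i, ∃ C : ℝ, ∀ x, ‖pd i ψ x‖ ≤ C := fun i =>
    (hψi i).continuous.bounded_above_of_compact_support (hci i)
  choose C1 hC1 using hC1
  have hC2 : ∀ i, ∃ C : ℝ, ∀ x, ‖pd i (pd i ψ) x‖ ≤ C := fun i =>
    (ctii i).bounded_above_of_compact_support (hcii i)
  choose C2 hC2 using hC2
  have hoff1 : ∀ i y, y ∉ tsupport ψ → pd i ψ y = 0 := by
    intro i y hy
    unfold pd
    rw [image_eq_zero_of_notMem_tsupport (fun h => hy (tsupport_fderiv_subset ℝ h))]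
    rfl
  have hoff2 : ∀ i y, y ∉ tsupport ψ → pd i (pd i ψ) y = 0 := by
    intro i y hy
    have h1 : tsupport (pd i ψ) ⊆ tsupport ψ :=
      closure_minimal (fun z hz => by
        by_contra hcon
        exact hz (hoff1 i z hcon)) (isClosed_tsupport ψ)
    have h2 : fderiv ℝ (pd i ψ) y = 0 :=
      image_eq_zero_of_notMem_tsupport (fun h => hy (h1 (tsupport_fderiv_subset ℝ h)))
    show fderiv ℝ (pd i ψ) y (Pi.single i 1) = 0
    rw [h2]
    rfl
  obtain ⟨D, hD⟩ : ∃ D : ℝ, D = ∑ i, (|B i| * (3 * |C1 i|) + 3 * |C2 i|) := ⟨_, rfl⟩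
  have hD0 : 0 ≤ D := by
    rw [hD]
    exact Finset.sum_nonneg fun i _ => by positivity
  have hLb : ∀ n x, |LL V (Ψ n) x| ≤ D := by
    intro n x
    unfold LL
    rw [hD]
    refine (Finset.abs_sum_le_sum_abs _ _).trans (Finset.sum_le_sum fun i _ => ?_)
    by_cases hx : x ∈ Metric.cthickening 1 (tsupport ψ)
    · have h1 : |pd i V x| ≤ |B i| := by
        have := hB i x hx
        rw [Real.norm_eq_abs] at this
        exact this.trans (le_abs_self _)
      have h2 : |pd i (Ψ n) x| ≤ 3 * |C1 i| := by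
        rw [hp1]
        exact KC1_bd (hψi i).continuous (fun y => by
          have := hC1 i y
          rw [Real.norm_eq_abs] at this
          exact this.trans (le_abs_self _)) (φ n) x
      have h3 : |pd i (pd i (Ψ n)) x| ≤ 3 * |C2 i| := by
        rw [hp2]
        exact KC1_bd (ctii i) (fun y => by
          have := hC2 i y
          rw [Real.norm_eq_abs] at this
          exact this.trans (le_abs_self _)) (φ n) x
      refine (abs_sub _ _).trans (add_le_add ?_ h3)
      rw [abs_mul]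
      exact mul_le_mul h1 h2 (abs_nonneg _) (abs_nonneg _)
    · have h1 : pd i (Ψ n) x = 0 := by
        rw [hp1]
        exact KC1_zero (hψi i).continuous (hoff1 i) (φ n) (hr1 n) hx
      have h2 : pd i (pd i (Ψ n)) x = 0 := by
        rw [hp2]
        exact KC1_zero (ctii i) (hoff2 i) (φ n) (hr1 n) hx
      rw [h1, h2, mul_zero, sub_zero, abs_zero]
      positivity
  have hVm : Measurable fun x => Real.exp (-V x) :=
    (Real.continuous_exp.comp H.c2.continuous.neg).measurable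
  have hgi : Integrable fun x => |g x| * Real.exp (-V x) := by
    refine (H.intexp.add hi).mono' ((hg.abs.mul hVm).aestronglyMeasurable)
      (Eventually.of_forall fun x => ?_)
    rw [Real.norm_eq_abs, abs_of_nonneg (by positivity)]
    have h1 : |g x| ≤ 1 + g x ^ 2 := by
      have h2 := sq_abs (g x)
      nlinarith [sq_nonneg (|g x| - 1 / 2), abs_nonneg (g x)]
    have h3 := mul_le_mul_of_nonneg_right h1 (Real.exp_pos (-V x)).le
    calc |g x| * Real.exp (-V x) ≤ (1 + g x ^ 2) * Real.exp (-V x) := h3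
      _ = _ := by
        simp only [Pi.add_apply]
        ring
  have hLm : ∀ n, Measurable (LL V (Ψ n)) := fun n => (H.LLt0 (hCc n)).meas
  have hlim : Tendsto (fun n => ∫ x, g x * LL V (Ψ n) x * Real.exp (-V x)) atTop
      (𝓝 (∫ x, g x * LL V ψ x * Real.exp (-V x))) := by
    refine tendsto_integral_of_dominated_convergence (fun x => D * (|g x| * Real.exp (-V x)))
      (fun n => ((hg.mul (hLm n)).mul hVm).aestronglyMeasurable) (hgi.const_mul D)
      (fun n => Eventually.of_forall fun x => ?_) (Eventually.of_forall fun x => ?_)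
    · rw [Real.norm_eq_abs, abs_mul, abs_mul, abs_of_pos (Real.exp_pos _)]
      have h1 := hLb n x
      have h2 : 0 ≤ |g x| * Real.exp (-V x) := by positivity
      calc |g x| * |LL V (Ψ n) x| * Real.exp (-V x) =
          |LL V (Ψ n) x| * (|g x| * Real.exp (-V x)) := by ring
        _ ≤ _ := mul_le_mul_of_nonneg_right h1 h2
    · have h1 : Tendsto (fun n => LL V (Ψ n) x) atTop (𝓝 (LL V ψ x)) := by
        unfold LL
        exact tendsto_finsetSum _ fun i _ => ((ht1 i x).const_mul _).sub (ht2 i x)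
      exact (h1.const_mul _).mul_const _
  have hz : (fun n => ∫ x, g x * LL V (Ψ n) x * Real.exp (-V x)) = fun _ => (0 : ℝ) := by
    funext n
    exact ho (Ψ n) (hCc n)
  rw [hz] at hlim
  exact (tendsto_nhds_unique hlim tendsto_const_nhds)

/-- `orth_c2` for `ψ e^{V/2}`, with `LL_ground`: `G = g e^{-V/2}` solves `-ΔG + W0 G = 0` weakly. -/
theorem orth_schr (H : Nice κ M V) {g : (ι → ℝ) → ℝ} (hg : Measurable g)
    (hi : Integrable fun x => g x ^ 2 * Real.exp (-V x))
    (ho : ∀ φ, Cc φ → ∫ x, g x * LL V φ x * Real.exp (-V x) = 0) {ψ : (ι → ℝ) → ℝ}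
    (hψ : ContDiff ℝ 2 ψ) (hc : HasCompactSupport ψ) :
    ∫ x, (g x * Real.exp (-V x / 2)) * (W0 V x * ψ x - ∑ i, pd i (pd i ψ) x) = 0 := by
  have h1 := orth_c2 H hg hi ho (ψ := fun z => ψ z * Real.exp (V z / 2))
    (hψ.mul (KC1_Ec2 H)) hc.mul_right
  rw [← h1]
  refine integral_congr_ae (Eventually.of_forall fun x => ?_)
  simp only
  rw [LL_ground H hψ]
  have h2 : Real.exp (V x / 2) * Real.exp (-V x) = Real.exp (-V x / 2) := by
    rw [← Real.exp_add]
    congr 1
    ring
  rw [← h2]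
  ring

end Pool.Agent.Lib.MP_8d00da_gt.h42k
end

section

/-!
# Mollification
-/

namespace Pool.Agent.Lib.MP_8d00da_gt.h42k

open MeasureTheory Set Filter
open scoped Topology NNReal ENNReal ContDiff

set_option linter.unusedSectionVars false
set_option linter.unusedVariables false

variable {ι : Type*} [Fintype ι] [DecidableEq ι]

variable {κ M : ℝ} {V : (ι → ℝ) → ℝ}

/-- Mollification with a bump function. -/
noncomputable def mol (ρ G : (ι → ℝ) → ℝ) (x : ι → ℝ) : ℝ := ∫ y, ρ (x - y) * G y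

/-- Approximate identity: smooth bumps `ρ_k ≥ 0` with integral `1` supported in the ball of radius
`1/(k+1)`. -/
structure AI (ρ : ℕ → (ι → ℝ) → ℝ) : Prop where
  smooth : ∀ k, ContDiff ℝ ∞ (ρ k)
  nonneg : ∀ k x, 0 ≤ ρ k x
  mass : ∀ k, ∫ x, ρ k x = 1
  supp : ∀ (k : ℕ) x, 1 / ((k : ℝ) + 1) < ‖x‖ → ρ k x = 0
  symm : ∀ k x, ρ k (-x) = ρ k x

theorem KC2_mol_eq (ρ G : (ι → ℝ) → ℝ) :
    mol ρ G = convolution G ρ (ContinuousLinearMap.mul ℝ ℝ) volume := by
  funext x
  unfold mol convolution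
  refine integral_congr_ae (Filter.Eventually.of_forall fun y => ?_)
  simp only [ContinuousLinearMap.mul_apply']
  ring

theorem KC2_pd1 {f : (ι → ℝ) → ℝ} (hf : ContDiff ℝ 2 f) (i : ι) : ContDiff ℝ 1 (pd i f) := by
  have h : ContDiff ℝ ((1 + 1 : ℕ) : WithTop ℕ∞) f := by
    have e : (((1 + 1 : ℕ) : ℕ) : WithTop ℕ∞) = 2 := by norm_num
    rw [e]
    exact hf
  exact_mod_cast contDiff_pd h i

theorem KC2_pd0 {f : (ι → ℝ) → ℝ} (hf : ContDiff ℝ 1 f) (i : ι) : Continuous (pd i f) := by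
  unfold pd
  exact (hf.continuous_fderiv (by norm_num)).clm_apply continuous_const

theorem KC2_pdc {f : (ι → ℝ) → ℝ} (hc : HasCompactSupport f) (i : ι) : HasCompactSupport (pd i f) := by
  unfold pd
  exact hc.fderiv_apply (𝕜 := ℝ) (Pi.single i 1)

theorem KC2_int_pd {f : (ι → ℝ) → ℝ} (hf : ContDiff ℝ 1 f) (hc : HasCompactSupport f) (i : ι) :
    ∫ x, pd i f x = 0 := by
  have h := integral_mul_fderiv_eq_neg_fderiv_mul_of_integrable (μ := (volume : Measure (ι → ℝ)))
    (f := fun _ => (1 : ℝ)) (g := f) (v := Pi.single i 1) (by simp) ?_ ?_ (fun x _ => by fun_prop)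
    (fun x _ => (hf.differentiable (by norm_num)) x)
  · simp only [one_mul, fderiv_fun_const, Pi.zero_apply, zero_apply, zero_mul, integral_zero,
      neg_zero] at h
    exact h
  · simp only [one_mul]
    exact (KC2_pd0 hf i).integrable_of_hasCompactSupport (KC2_pdc hc i)
  · simp only [one_mul]
    exact hf.continuous.integrable_of_hasCompactSupport hc

theorem exists_AI : ∃ ρ : ℕ → (ι → ℝ) → ℝ, AI ρ := by
  have hpos : ∀ k : ℕ, 0 < 1 / ((k : ℝ) + 1) := fun k => by positivity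
  let b : ℕ → ContDiffBump (0 : ι → ℝ) := fun k =>
    { rIn := 1 / ((k : ℝ) + 1) / 2
      rOut := 1 / ((k : ℝ) + 1)
      rIn_pos := half_pos (hpos k)
      rIn_lt_rOut := half_lt_self (hpos k) }
  refine ⟨fun k => (b k).normed volume, ⟨fun k => ?_, fun k x => ?_, fun k => ?_, fun k x hx => ?_, fun k x => ?_⟩⟩
  · exact (b k).contDiff_normed
  · exact (b k).nonneg_normed x
  · exact (b k).integral_normed
  · have h1 : x ∉ Function.support ((b k).normed volume) := by
      rw [(b k).support_normed_eq, mem_ball_zero_iff]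
      exact not_lt.mpr hx.le
    exact Function.notMem_support.mp h1
  · exact (b k).normed_neg x

/-- For locally integrable `G` the mollification is smooth and derivatives fall on the kernel. -/
theorem mol_smooth {ρ G : (ι → ℝ) → ℝ} (hρ : ContDiff ℝ ∞ ρ) (hc : HasCompactSupport ρ)
    (hG : LocallyIntegrable G) : ContDiff ℝ ∞ (mol ρ G) ∧
      (∀ i x, pd i (mol ρ G) x = ∫ y, pd i ρ (x - y) * G y) ∧
      ∀ i x, pd i (pd i (mol ρ G)) x = ∫ y, pd i (pd i ρ) (x - y) * G y := by
  have key : ∀ {σ : (ι → ℝ) → ℝ}, ContDiff ℝ ∞ σ → HasCompactSupport σ → ContDiff ℝ ∞ (mol σ G) ∧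
      ∀ i, pd i (mol σ G) = mol (pd i σ) G := by
    intro σ hσ hcσ
    rw [KC2_mol_eq]
    refine ⟨hcσ.contDiff_convolution_right (ContinuousLinearMap.mul ℝ ℝ) hG hσ, fun i => ?_⟩
    funext x
    have h1 : ContDiff ℝ 1 σ := hσ.of_le (by exact_mod_cast le_top)
    have h2 := hcσ.hasFDerivAt_convolution_right (ContinuousLinearMap.mul ℝ ℝ) hG h1 x
    unfold pd
    rw [h2.fderiv, convolution_precompR_apply (ContinuousLinearMap.mul ℝ ℝ) hG (hcσ.fderiv ℝ)
      (h1.continuous_fderiv (by norm_num))]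
    rw [KC2_mol_eq]
  have h1 := key hρ hc
  have hpd : ∀ i, ContDiff ℝ ∞ (pd i ρ) ∧ HasCompactSupport (pd i ρ) := fun i =>
    ⟨((⟨hρ, hc⟩ : Cc ρ).pdc i).smooth, ((⟨hρ, hc⟩ : Cc ρ).pdc i).supp⟩
  refine ⟨h1.1, fun i x => congrFun (h1.2 i) x, fun i x => ?_⟩
  rw [h1.2 i]
  exact congrFun ((key (hpd i).1 (hpd i).2).2 i) x

theorem KC2_memLp {G : (ι → ℝ) → ℝ} (hG : Measurable G) (hi : Integrable fun x => G x ^ 2) :
    MemLp G 2 volume :=
  (memLp_two_iff_integrable_sq hG.aestronglyMeasurable).mpr hi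

theorem KC2_norm_sq (f : Lp ℝ 2 (volume : Measure (ι → ℝ))) : ‖f‖ ^ 2 = ∫ x, (f x) ^ 2 := by
  rw [← real_inner_self_eq_norm_sq, L2.inner_def]
  refine integral_congr_ae (Filter.Eventually.of_forall fun x => ?_)
  simp only [inner, RCLike.re_to_real, star_trivial]
  ring

theorem KC2_transl {G : (ι → ℝ) → ℝ} (hG : MemLp G 2 volume) {ε : ℝ} (hε : 0 < ε) :
    ∃ δ : ℝ, 0 < δ ∧ ∀ z : ι → ℝ, ‖z‖ < δ → ∫ x, (G (x - z) - G x) ^ 2 ≤ ε := by
  let c : (ι → ℝ) → C(ι → ℝ, ι → ℝ) := fun z => ⟨fun x => x - z, by fun_prop⟩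
  have hc : Continuous c := by
    refine ContinuousMap.continuous_of_continuous_uncurry c ?_
    exact continuous_snd.sub continuous_fst
  have hmp : ∀ z, MeasurePreserving (c z) (volume : Measure (ι → ℝ)) volume :=
    fun z => measurePreserving_sub_right volume z
  have hT : Continuous (fun z => Lp.compMeasurePreserving (c z) (hmp z) (hG.toLp G)) :=
    continuous_const.compMeasurePreservingLp hc hmp (by norm_num)
  have hN : Continuous (fun z => ‖Lp.compMeasurePreserving (c z) (hmp z) (hG.toLp G) -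
      Lp.compMeasurePreserving (c 0) (hmp 0) (hG.toLp G)‖ ^ 2) := (hT.sub continuous_const).norm.pow 2
  have h0 : Tendsto (fun z => ‖Lp.compMeasurePreserving (c z) (hmp z) (hG.toLp G) -
      Lp.compMeasurePreserving (c 0) (hmp 0) (hG.toLp G)‖ ^ 2) (𝓝 0) (𝓝 0) := by
    have := hN.tendsto 0
    simpa using this
  obtain ⟨δ, hδ, hδ2⟩ := Metric.eventually_nhds_iff.mp (h0.eventually (gt_mem_nhds hε))
  refine ⟨δ, hδ, fun z hz => ?_⟩
  have h1 := (hδ2 (y := z) (by rwa [dist_zero_right])).le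
  refine le_trans (le_of_eq ?_) h1
  rw [KC2_norm_sq]
  refine integral_congr_ae ?_
  have e1 := Lp.coeFn_compMeasurePreserving (hG.toLp G) (hmp z)
  have e2 := Lp.coeFn_compMeasurePreserving (hG.toLp G) (hmp 0)
  have e3 := Lp.coeFn_sub (Lp.compMeasurePreserving (c z) (hmp z) (hG.toLp G))
    (Lp.compMeasurePreserving (c 0) (hmp 0) (hG.toLp G))
  have e4 := (hmp z).quasiMeasurePreserving.ae_eq_comp hG.coeFn_toLp
  have e5 := (hmp 0).quasiMeasurePreserving.ae_eq_comp hG.coeFn_toLp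
  filter_upwards [e1, e2, e3, e4, e5] with x h1 h2 h3 h4 h5
  rw [h3, Pi.sub_apply, h1, h2, h4, h5]
  simp only [Function.comp_apply, c, ContinuousMap.coe_mk, sub_zero]

/-- Jensen. -/
theorem KC2_jensen {ρ D : (ι → ℝ) → ℝ} (hρ : Integrable ρ) (hn : ∀ x, 0 ≤ ρ x) (hm : ∫ x, ρ x = 1)
    (h1 : Integrable fun x => ρ x * D x) (h2 : Integrable fun x => ρ x * D x ^ 2) :
    (∫ x, ρ x * D x) ^ 2 ≤ ∫ x, ρ x * D x ^ 2 := by
  obtain ⟨c, hc⟩ : ∃ c, c = ∫ x, ρ x * D x := ⟨_, rfl⟩
  have h3 : 0 ≤ ∫ x, ρ x * (D x - c) ^ 2 := integral_nonneg fun x => mul_nonneg (hn x) (sq_nonneg _)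
  have h4 : ∫ x, ρ x * (D x - c) ^ 2 = (∫ x, ρ x * D x ^ 2) - 2 * c * (∫ x, ρ x * D x) + c ^ 2 * ∫ x, ρ x := by
    have e1 : ∀ x, ρ x * (D x - c) ^ 2 = (ρ x * D x ^ 2 - 2 * c * (ρ x * D x)) + c ^ 2 * ρ x := fun x => by ring
    have i1 : Integrable (fun x => 2 * c * (ρ x * D x)) := h1.const_mul _
    have i2 : Integrable (fun x => ρ x * D x ^ 2 - 2 * c * (ρ x * D x)) := h2.sub i1
    have i3 : Integrable (fun x => c ^ 2 * ρ x) := hρ.const_mul _
    rw [integral_congr_ae (Filter.Eventually.of_forall e1), integral_add i2 i3, integral_sub h2 i1,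
      integral_const_mul, integral_const_mul]
  rw [h4, hm, ← hc] at h3
  rw [← hc]
  nlinarith

theorem KC2_ai {ρ : ℕ → (ι → ℝ) → ℝ} (hρ : AI ρ) (k : ℕ) : HasCompactSupport (ρ k) := by
  refine HasCompactSupport.intro (isCompact_closedBall (0 : ι → ℝ) (1 / ((k : ℝ) + 1))) fun x hx => ?_
  rw [mem_closedBall_zero_iff, not_le] at hx
  exact hρ.supp k x hx

/-- `L²` convergence of mollifications: for `G ∈ L²` measurable. (Continuous functions with compact
support: uniform convergence; Young's inequality; density.) -/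
theorem mol_L2 {ρ : ℕ → (ι → ℝ) → ℝ} (hρ : AI ρ) {G : (ι → ℝ) → ℝ} (hG : Measurable G)
    (hi : Integrable fun x => G x ^ 2) :
    (∀ k, Integrable fun x => mol (ρ k) G x ^ 2) ∧
    Tendsto (fun k => ∫ x, (mol (ρ k) G x - G x) ^ 2) atTop (𝓝 0) := by
  have hGL := KC2_memLp hG hi
  have hloc : LocallyIntegrable G := hGL.locallyIntegrable (by norm_num)
  have hcs := fun k => KC2_ai hρ k
  have hcont : ∀ k, Continuous (ρ k) := fun k => (hρ.smooth k).continuous
  have hint : ∀ k, Integrable (ρ k) := fun k => (hcont k).integrable_of_hasCompactSupport (hcs k)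
  have hmol : ∀ k, Continuous (mol (ρ k) G) := fun k => (mol_smooth (hρ.smooth k) (hcs k) hloc).1.continuous
  -- the product function
  have hP1 : ∀ k, Integrable (fun p : (ι → ℝ) × (ι → ℝ) => ρ k p.2 * G (p.1 - p.2) ^ 2)
      ((volume : Measure (ι → ℝ)).prod volume) := fun k =>
    (hint k).convolution_integrand (ContinuousLinearMap.mul ℝ ℝ) hi
  have hP2 : ∀ k, Integrable (fun p : (ι → ℝ) × (ι → ℝ) => ρ k p.2 * G p.1 ^ 2)
      ((volume : Measure (ι → ℝ)).prod volume) := fun k => by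
    have := hi.mul_prod (hint k)
    refine this.congr (Filter.Eventually.of_forall fun p => ?_)
    simp only
    ring
  have hP : ∀ k, Integrable (fun p : (ι → ℝ) × (ι → ℝ) => ρ k p.2 * (G (p.1 - p.2) - G p.1) ^ 2)
      ((volume : Measure (ι → ℝ)).prod volume) := fun k => by
    refine Integrable.mono' (((hP1 k).add (hP2 k)).const_mul 2) ?_ (Filter.Eventually.of_forall fun p => ?_)
    · refine Measurable.aestronglyMeasurable ?_
      exact ((hcont k).measurable.comp measurable_snd).mul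
        (((hG.comp (measurable_fst.sub measurable_snd)).sub (hG.comp measurable_fst)).pow_const 2)
    · have h0 := hρ.nonneg k p.2
      rw [Real.norm_eq_abs, abs_of_nonneg (mul_nonneg h0 (sq_nonneg _))]
      simp only [Pi.add_apply]
      nlinarith [mul_nonneg h0 (sq_nonneg (G (p.1 - p.2) + G p.1))]
  -- integrability in z for fixed x
  have hz1 : ∀ k x, Integrable (fun z => ρ k z * G (x - z)) := fun k x => by
    have h1 : LocallyIntegrable (fun z => G (x - z)) := by
      have h2 : MemLp (fun z => G (x - z)) 2 volume :=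
        hGL.comp_measurePreserving (Measure.measurePreserving_sub_left volume x)
      exact h2.locallyIntegrable (by norm_num)
    exact h1.integrable_smul_left_of_hasCompactSupport (hcont k) (hcs k)
  have hz2 : ∀ k x, Integrable (fun z => ρ k z * G (x - z) ^ 2) := fun k x => by
    have h1 : Integrable (fun z => G (x - z) ^ 2) := hi.comp_sub_left x
    exact h1.locallyIntegrable.integrable_smul_left_of_hasCompactSupport (hcont k) (hcs k)
  have hz3 : ∀ k x, Integrable (fun z => ρ k z * (G (x - z) - G x)) := fun k x => by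
    have := (hz1 k x).sub ((hint k).mul_const (G x))
    refine this.congr (Filter.Eventually.of_forall fun z => ?_)
    simp only [Pi.sub_apply]
    ring
  have hz4 : ∀ k x, Integrable (fun z => ρ k z * (G (x - z) - G x) ^ 2) := fun k x => by
    have := ((hz2 k x).sub ((hz1 k x).const_mul (2 * G x))).add ((hint k).mul_const (G x ^ 2))
    refine this.congr (Filter.Eventually.of_forall fun z => ?_)
    simp only [Pi.sub_apply, Pi.add_apply]
    ring
  have hmolz : ∀ k x, mol (ρ k) G x = ∫ z, ρ k z * G (x - z) := fun k x => by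
    unfold mol
    have := integral_sub_left_eq_self (fun y => ρ k (x - y) * G y) (volume : Measure (ι → ℝ)) x
    rw [← this]
    refine integral_congr_ae (Filter.Eventually.of_forall fun z => ?_)
    simp only [sub_sub_cancel]
  have hdiff : ∀ k x, mol (ρ k) G x - G x = ∫ z, ρ k z * (G (x - z) - G x) := fun k x => by
    have e1 : ∫ z, ρ k z * (G (x - z) - G x) = (∫ z, ρ k z * G (x - z)) - ∫ z, ρ k z * G x := by
      rw [← integral_sub (hz1 k x) ((hint k).mul_const _)]
      refine integral_congr_ae (Filter.Eventually.of_forall fun z => ?_)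
      simp only
      ring
    rw [e1, integral_mul_const, hρ.mass k, one_mul, hmolz]
  have hJ : ∀ k x, (mol (ρ k) G x - G x) ^ 2 ≤ ∫ z, ρ k z * (G (x - z) - G x) ^ 2 := fun k x => by
    rw [hdiff]
    exact KC2_jensen (hint k) (hρ.nonneg k) (hρ.mass k) (hz3 k x) (hz4 k x)
  have hJi : ∀ k, Integrable (fun x => ∫ z, ρ k z * (G (x - z) - G x) ^ 2) := fun k => (hP k).integral_prod_left
  have hDi : ∀ k, Integrable (fun x => (mol (ρ k) G x - G x) ^ 2) := fun k => by
    refine Integrable.mono' (hJi k) ?_ (Filter.Eventually.of_forall fun x => ?_)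
    · exact (((hmol k).measurable.sub hG).pow_const 2).aestronglyMeasurable
    · rw [Real.norm_eq_abs, abs_of_nonneg (sq_nonneg _)]
      exact hJ k x
  have hle : ∀ k, ∫ x, (mol (ρ k) G x - G x) ^ 2 ≤ ∫ z, ρ k z * ∫ x, (G (x - z) - G x) ^ 2 := fun k => by
    refine (integral_mono (hDi k) (hJi k) (hJ k)).trans (le_of_eq ?_)
    rw [integral_integral_swap (hP k)]
    refine integral_congr_ae (Filter.Eventually.of_forall fun z => ?_)
    simp only
    rw [integral_const_mul]
  have hNi : ∀ k, Integrable (fun z => ρ k z * ∫ x, (G (x - z) - G x) ^ 2) := fun k => by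
    refine (hP k).integral_prod_right.congr (Filter.Eventually.of_forall fun z => ?_)
    simp only
    rw [integral_const_mul]
  refine ⟨fun k => ?_, ?_⟩
  · refine Integrable.mono' (((hDi k).add hi).const_mul 2) ?_ (Filter.Eventually.of_forall fun x => ?_)
    · exact ((hmol k).measurable.pow_const 2).aestronglyMeasurable
    · rw [Real.norm_eq_abs, abs_of_nonneg (sq_nonneg _)]
      simp only [Pi.add_apply]
      nlinarith [sq_nonneg (mol (ρ k) G x - 2 * G x)]
  · rw [Metric.tendsto_atTop]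
    intro ε hε
    obtain ⟨δ, hδ, hδ2⟩ := KC2_transl hGL (half_pos hε)
    obtain ⟨n, hn⟩ := exists_nat_one_div_lt hδ
    refine ⟨n, fun k hk => ?_⟩
    rw [dist_zero_right, Real.norm_eq_abs, abs_of_nonneg (integral_nonneg fun x => sq_nonneg _)]
    refine lt_of_le_of_lt (hle k) ?_
    have h1 : ∫ z, ρ k z * ∫ x, (G (x - z) - G x) ^ 2 ≤ ∫ z, ρ k z * (ε / 2) := by
      refine integral_mono (hNi k) ((hint k).mul_const _) fun z => ?_
      by_cases hz : 1 / ((k : ℝ) + 1) < ‖z‖
      · simp only [hρ.supp k z hz, zero_mul, le_refl]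
      · refine mul_le_mul_of_nonneg_left (hδ2 z ?_) (hρ.nonneg k z)
        refine lt_of_le_of_lt (not_lt.mp hz) (lt_of_le_of_lt ?_ hn)
        have : (n : ℝ) ≤ k := by exact_mod_cast hk
        exact one_div_le_one_div_of_le (by positivity) (by linarith)
    rw [integral_mul_const, hρ.mass k, one_mul] at h1
    linarith

/-- Local version: for measurable `G` with `G²` locally integrable and a bounded measurable `χ` with compact
support. -/
theorem mol_L2_loc {ρ : ℕ → (ι → ℝ) → ℝ} (hρ : AI ρ) {G : (ι → ℝ) → ℝ} (hG : Measurable G)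
    (hi : LocallyIntegrable fun x => G x ^ 2) {χ : (ι → ℝ) → ℝ} (hχ : Measurable χ)
    (hb : ∃ B, ∀ x, |χ x| ≤ B) (hc : HasCompactSupport χ) :
    Tendsto (fun k => ∫ x, χ x ^ 2 * (mol (ρ k) G x - G x) ^ 2) atTop (𝓝 0) := by
  obtain ⟨B, hB⟩ := hb
  set K : Set (ι → ℝ) := Metric.cthickening 1 (tsupport χ) with hK
  have hKc : IsCompact K := hc.isCompact.cthickening
  have hKm : MeasurableSet K := hKc.isClosed.measurableSet
  have hG' : Measurable (K.indicator G) := hG.indicator hKm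
  have hi' : Integrable fun x => (K.indicator G x) ^ 2 := by
    have h1 : IntegrableOn (fun x => G x ^ 2) K := hi.integrableOn_isCompact hKc
    have h2 := h1.integrable_indicator hKm
    refine h2.congr (Filter.Eventually.of_forall fun x => ?_)
    by_cases hx : x ∈ K
    · simp only [Set.indicator_of_mem hx]
    · simp only [Set.indicator_of_notMem hx]
      norm_num
  obtain ⟨h1, h2⟩ := mol_L2 hρ hG' hi'
  have hcont : ∀ k, Continuous (ρ k) := fun k => (hρ.smooth k).continuous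
  have hloc : LocallyIntegrable (K.indicator G) := (KC2_memLp hG' hi').locallyIntegrable (by norm_num)
  have hDi : ∀ k, Integrable (fun x => (mol (ρ k) (K.indicator G) x - K.indicator G x) ^ 2) := fun k => by
    have hm := (mol_smooth (hρ.smooth k) (KC2_ai hρ k) hloc).1.continuous
    refine Integrable.mono' (((h1 k).add hi').const_mul 2) ?_ (Filter.Eventually.of_forall fun x => ?_)
    · exact ((hm.measurable.sub hG').pow_const 2).aestronglyMeasurable
    · rw [Real.norm_eq_abs, abs_of_nonneg (sq_nonneg _)]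
      simp only [Pi.add_apply]
      nlinarith [sq_nonneg (mol (ρ k) (K.indicator G) x + K.indicator G x)]
  have hpt : ∀ k x, χ x ^ 2 * (mol (ρ k) G x - G x) ^ 2 =
      χ x ^ 2 * (mol (ρ k) (K.indicator G) x - K.indicator G x) ^ 2 := by
    intro k x
    by_cases hx : χ x = 0
    · rw [hx]; ring
    · have hxs : x ∈ tsupport χ := subset_tsupport _ hx
      have hxK : x ∈ K := Metric.self_subset_cthickening _ hxs
      have hm : mol (ρ k) G x = mol (ρ k) (K.indicator G) x := by
        unfold mol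
        refine integral_congr_ae (Filter.Eventually.of_forall fun y => ?_)
        simp only
        by_cases hy : 1 / ((k : ℝ) + 1) < ‖x - y‖
        · rw [hρ.supp k _ hy, zero_mul, zero_mul]
        · have hyK : y ∈ K := by
            refine Metric.mem_cthickening_of_dist_le y x 1 (tsupport χ) hxs ?_
            rw [dist_comm, dist_eq_norm]
            refine (not_lt.mp hy).trans ?_
            rw [div_le_one (by positivity)]
            have : (0 : ℝ) ≤ k := Nat.cast_nonneg k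
            linarith
          rw [Set.indicator_of_mem hyK]
      rw [hm, Set.indicator_of_mem hxK]
  have hle : ∀ k, ∫ x, χ x ^ 2 * (mol (ρ k) G x - G x) ^ 2 ≤
      B ^ 2 * ∫ x, (mol (ρ k) (K.indicator G) x - K.indicator G x) ^ 2 := by
    intro k
    rw [← integral_const_mul]
    refine integral_mono_of_nonneg (Filter.Eventually.of_forall fun x => ?_) ((hDi k).const_mul _)
      (Filter.Eventually.of_forall fun x => ?_)
    · simp only [Pi.zero_apply]
      positivity
    · simp only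
      rw [hpt]
      refine mul_le_mul_of_nonneg_right ?_ (sq_nonneg _)
      rw [← sq_abs]
      exact pow_le_pow_left₀ (abs_nonneg _) (hB x) 2
  have h3 : Tendsto (fun k => B ^ 2 * ∫ x, (mol (ρ k) (K.indicator G) x - K.indicator G x) ^ 2) atTop (𝓝 0) := by
    have := h2.const_mul (B ^ 2)
    simpa using this
  exact squeeze_zero (fun k => integral_nonneg fun x => by positivity) hle h3

/-- Energy identity: `∫ |∇(χu)|² = ∫ |∇χ|² u² - ∫ χ² u Δu` for `χ` smooth with compact support, `u`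
of class `C²`. -/
theorem cutoff_energy {χ u : (ι → ℝ) → ℝ} (hχ : Cc χ) (hu : ContDiff ℝ 2 u) :
    ∫ x, gs (fun z => χ z * u z) x =
      (∫ x, gs χ x * u x ^ 2) - ∫ x, χ x ^ 2 * u x * ∑ i, pd i (pd i u) x := by
  have hχd : Differentiable ℝ χ := hχ.smooth.differentiable (by simp)
  have hud : Differentiable ℝ u := hu.differentiable (by norm_num)
  have hu1 : ∀ i, ContDiff ℝ 1 (pd i u) := fun i => KC2_pd1 hu i
  have hχ1 : ∀ i, ContDiff ℝ ∞ (pd i χ) := fun i => (hχ.pdc i).smooth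
  have hχc : Continuous χ := hχ.smooth.continuous
  have huc : Continuous u := hu.continuous
  have c1 : ∀ i, Continuous (pd i χ) := fun i => (hχ1 i).continuous
  have c2 : ∀ i, Continuous (pd i u) := fun i => (hu1 i).continuous
  have c3 : ∀ i, Continuous (pd i (pd i u)) := fun i => KC2_pd0 (hu1 i) i
  have hF : ∀ i, ContDiff ℝ 1 (fun x => χ x ^ 2 * u x * pd i u x) := fun i =>
    (((hχ.smooth.of_le (by exact_mod_cast le_top)).pow 2).mul (hu.of_le (by norm_num))).mul (hu1 i)
  have hFc : ∀ i, HasCompactSupport (fun x => χ x ^ 2 * u x * pd i u x) := fun i => by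
    refine hχ.supp.mono' ?_
    intro x hx
    refine subset_tsupport _ ?_
    rw [Function.mem_support] at hx ⊢
    intro h0
    exact hx (by rw [h0]; ring)
  have hdF : ∀ i x, pd i (fun x => χ x ^ 2 * u x * pd i u x) x =
      2 * χ x * pd i χ x * u x * pd i u x + χ x ^ 2 * pd i u x ^ 2 + χ x ^ 2 * u x * pd i (pd i u) x := by
    intro i x
    have e1 : (fun x => χ x ^ 2 * u x * pd i u x) = fun x => (χ x * χ x * u x) * pd i u x := by
      funext x; ring
    have d1 : Differentiable ℝ (fun x => χ x * χ x) := hχd.mul hχd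
    have d2 : Differentiable ℝ (fun x => χ x * χ x * u x) := d1.mul hud
    rw [e1, pd_mul d2 ((hu1 i).differentiable (by norm_num)), pd_mul d1 hud, pd_mul hχd hχd]
    ring
  have hpt : ∀ x, gs (fun z => χ z * u z) x = gs χ x * u x ^ 2 - χ x ^ 2 * u x * ∑ i, pd i (pd i u) x +
      ∑ i, pd i (fun x => χ x ^ 2 * u x * pd i u x) x := by
    intro x
    unfold gs
    rw [Finset.sum_mul, Finset.mul_sum, ← Finset.sum_sub_distrib, ← Finset.sum_add_distrib]
    refine Finset.sum_congr rfl fun i _ => ?_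
    rw [pd_mul hχd hud, hdF]
    ring
  have i0 : ∀ i, ∫ x, pd i (fun x => χ x ^ 2 * u x * pd i u x) x = 0 := fun i => KC2_int_pd (hF i) (hFc i) i
  have i1 : ∀ i, Integrable (fun x => pd i (fun x => χ x ^ 2 * u x * pd i u x) x) := fun i =>
    (KC2_pd0 (hF i) i).integrable_of_hasCompactSupport (KC2_pdc (hFc i) i)
  have i2 : Integrable (fun x => gs χ x * u x ^ 2) := by
    refine Continuous.integrable_of_hasCompactSupport ?_ ?_
    · unfold gs
      exact (continuous_finsetSum _ fun i _ => (c1 i).pow 2).mul (huc.pow 2)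
    · refine hχ.supp.mono' ?_
      intro x hx
      by_contra hx2
      refine hx ?_
      have : gs χ x = 0 := by
        unfold gs
        refine Finset.sum_eq_zero fun i _ => ?_
        have : pd i χ x = 0 := by
          have h3 : x ∉ tsupport (fderiv ℝ χ) := fun h => hx2 (tsupport_fderiv_subset ℝ h)
          unfold pd
          rw [image_eq_zero_of_notMem_tsupport h3]
          rfl
        rw [this]; ring
      simp only [this, zero_mul]
  have i3 : Integrable (fun x => χ x ^ 2 * u x * ∑ i, pd i (pd i u) x) := by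
    refine Continuous.integrable_of_hasCompactSupport ?_ ?_
    · exact ((hχc.pow 2).mul huc).mul (continuous_finsetSum _ fun i _ => c3 i)
    · refine hχ.supp.mono' ?_
      intro x hx
      refine subset_tsupport _ ?_
      rw [Function.mem_support] at hx ⊢
      intro h0
      exact hx (by rw [h0]; ring)
  rw [integral_congr_ae (Filter.Eventually.of_forall hpt)]
  have e4 : ∫ x, (gs χ x * u x ^ 2 - χ x ^ 2 * u x * ∑ i, pd i (pd i u) x +
      ∑ i, pd i (fun x => χ x ^ 2 * u x * pd i u x) x) =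
      (∫ x, (gs χ x * u x ^ 2 - χ x ^ 2 * u x * ∑ i, pd i (pd i u) x)) +
      ∫ x, ∑ i, pd i (fun x => χ x ^ 2 * u x * pd i u x) x :=
    integral_add (i2.sub i3) (integrable_finsetSum _ fun i _ => i1 i)
  rw [e4, integral_sub i2 i3, integral_finsetSum _ fun i _ => i1 i, Finset.sum_eq_zero fun i _ => i0 i, add_zero]

/-- Smooth cut-off functions: `χ_k = 1` on `{sq x ≤ (k+1)²}`, `0 ≤ χ_k ≤ 1`, `|∇χ_k|² ≤ C/(k+1)²`,
second derivatives bounded. -/
theorem exists_cut : ∃ (C : ℝ) (χ : ℕ → (ι → ℝ) → ℝ), (∀ k, Cc (χ k)) ∧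
    (∀ k x, 0 ≤ χ k x ∧ χ k x ≤ 1) ∧ (∀ (k : ℕ) x, sq x ≤ ((k : ℝ) + 1) ^ 2 → χ k x = 1) ∧
    (∀ (k : ℕ) x, gs (χ k) x ≤ C / ((k : ℝ) + 1) ^ 2) ∧
    (∀ k i j x, |pd i (pd j (χ k)) x| ≤ C) := by
  set χ₀ : (ι → ℝ) → ℝ := fun x => Real.smoothTransition (2 - sq x) with hχ₀
  have hs0 : ContDiff ℝ ∞ χ₀ := Real.smoothTransition.contDiff.comp (contDiff_const.sub contDiff_sq)
  have hc0 : HasCompactSupport χ₀ := by
    refine HasCompactSupport.intro (isCompact_closedBall (0 : ι → ℝ) 2) fun x hx => ?_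
    rw [mem_closedBall_zero_iff, not_le] at hx
    obtain ⟨i, hi⟩ : ∃ i, 2 < |x i| := by
      by_contra hcon
      push Not at hcon
      exact absurd ((pi_norm_le_iff_of_nonneg (by norm_num)).mpr fun i => hcon i) (not_le.mpr hx)
    have h1 := coord_sq_le x i
    have h2 : (4 : ℝ) < x i ^ 2 := by
      rw [← sq_abs]; nlinarith
    exact Real.smoothTransition.zero_iff_nonpos.mpr (by linarith)
  have hC0 : Cc χ₀ := ⟨hs0, hc0⟩
  have hC1 : ∀ i, Cc (pd i χ₀) := fun i => hC0.pdc i
  have hC2 : ∀ i j, Cc (pd i (pd j χ₀)) := fun i j => (hC1 j).pdc i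
  have hb : ∀ {f : (ι → ℝ) → ℝ}, Continuous f → HasCompactSupport f → ∃ B : ℝ, 0 ≤ B ∧ ∀ x, |f x| ≤ B := by
    intro f hf hcf
    obtain ⟨B, hB⟩ := hcf.exists_bound_of_continuous hf
    exact ⟨max B 0, le_max_right _ _, fun x => (hB x).trans (le_max_left _ _)⟩
  have hg0 : ∃ B : ℝ, 0 ≤ B ∧ ∀ x, gs χ₀ x ≤ B := by
    choose B hB0 hB using fun i => hb (hC1 i).smooth.continuous (hC1 i).supp
    refine ⟨∑ i, B i ^ 2, Finset.sum_nonneg fun i _ => sq_nonneg _, fun x => ?_⟩
    unfold gs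
    refine Finset.sum_le_sum fun i _ => ?_
    rw [← sq_abs]
    exact pow_le_pow_left₀ (abs_nonneg _) (hB i x) 2
  obtain ⟨B1, hB10, hB1⟩ := hg0
  have hg2 : ∃ B : ℝ, 0 ≤ B ∧ ∀ i j x, |pd i (pd j χ₀) x| ≤ B := by
    choose B hB0 hB using fun p : ι × ι => hb (hC2 p.1 p.2).smooth.continuous (hC2 p.1 p.2).supp
    refine ⟨∑ p, B p, Finset.sum_nonneg fun p _ => hB0 p, fun i j x => ?_⟩
    exact (hB (i, j) x).trans (Finset.single_le_sum (f := B) (fun p _ => hB0 p) (Finset.mem_univ (i, j)))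
  obtain ⟨B2, hB20, hB2⟩ := hg2
  set c : ℕ → ℝ := fun k => 1 / ((k : ℝ) + 1) with hc
  have hcpos : ∀ k, 0 < c k := fun k => by positivity
  have hc1 : ∀ k, c k ≤ 1 := fun k => by
    rw [hc]
    simp only
    rw [div_le_one (by positivity)]
    have : (0 : ℝ) ≤ k := Nat.cast_nonneg k
    linarith
  have hpdk : ∀ (f : (ι → ℝ) → ℝ) (k : ℕ) (i : ι), pd i (fun x => f (c k • x)) = fun x => c k * pd i f (c k • x) := by
    intro f k i
    funext x
    unfold pd
    rw [fderiv_comp_smul]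
    rfl
  refine ⟨B1 + B2, fun k x => χ₀ (c k • x), fun k => ⟨?_, ?_⟩, fun k x => ⟨?_, ?_⟩, fun k x hx => ?_, fun k x => ?_,
    fun k i j x => ?_⟩
  · exact hs0.comp (contDiff_const_smul _)
  · exact hc0.comp_homeomorph (Homeomorph.smulOfNeZero (c k) (hcpos k).ne')
  · exact Real.smoothTransition.nonneg _
  · exact Real.smoothTransition.le_one _
  · refine Real.smoothTransition.one_of_one_le ?_
    have h1 : sq (c k • x) = c k ^ 2 * sq x := sq_smul (c k) x
    rw [h1]
    have h2 : c k ^ 2 * sq x ≤ c k ^ 2 * ((k : ℝ) + 1) ^ 2 := mul_le_mul_of_nonneg_left hx (by positivity)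
    have h3 : c k ^ 2 * ((k : ℝ) + 1) ^ 2 = 1 := by
      rw [← mul_pow, hc]
      have : (k : ℝ) + 1 ≠ 0 := by positivity
      simp only
      rw [one_div, inv_mul_cancel₀ this, one_pow]
    linarith
  · have h1 : gs (fun x => χ₀ (c k • x)) x = c k ^ 2 * gs χ₀ (c k • x) := by
      unfold gs
      rw [Finset.mul_sum]
      refine Finset.sum_congr rfl fun i _ => ?_
      rw [hpdk]
      ring
    rw [h1]
    have h2 : c k ^ 2 * gs χ₀ (c k • x) ≤ c k ^ 2 * (B1 + B2) :=
      mul_le_mul_of_nonneg_left ((hB1 _).trans (by linarith)) (by positivity)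
    refine h2.trans (le_of_eq ?_)
    rw [hc]
    simp only
    rw [div_pow, one_pow]
    ring
  · have h1 : pd j (fun x => χ₀ (c k • x)) = fun x => c k * pd j χ₀ (c k • x) := hpdk χ₀ k j
    have hd : Differentiable ℝ (fun x => pd j χ₀ (c k • x)) :=
      ((hC1 j).smooth.comp (contDiff_const_smul _)).differentiable (by simp)
    rw [h1, pd_cmul hd, hpdk, ← mul_assoc, abs_mul, abs_of_pos (mul_pos (hcpos k) (hcpos k))]
    have h2 := hB2 i j (c k • x)
    have h3 : c k * c k ≤ 1 := by nlinarith [hcpos k, hc1 k]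
    calc c k * c k * |pd i (pd j χ₀) (c k • x)| ≤ 1 * B2 :=
          mul_le_mul h3 h2 (abs_nonneg _) zero_le_one
      _ ≤ B1 + B2 := by linarith

end Pool.Agent.Lib.MP_8d00da_gt.h42k
end

section

/-!
# Poincare inequality with constant 1/kappa
-/

namespace Pool.Agent.Lib.MP_8d00da_gt.h42k

open MeasureTheory Set Filter
open scoped Topology NNReal ENNReal ContDiff

set_option linter.unusedSectionVars false
set_option linter.unusedVariables false

variable {ι : Type*} [Fintype ι] [DecidableEq ι]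

variable {κ M : ℝ} {V : (ι → ℝ) → ℝ}

/-- Midpoint convexity. -/
private theorem Nice.B1a_mid (H : Nice κ M V) (x y : ι → ℝ) :
    2 * V ((1 / 2 : ℝ) • (x + y)) + κ * sq (x - y) / 4 ≤ V x + V y := by
  obtain ⟨m, hm⟩ : ∃ m : ι → ℝ, m = (1 / 2 : ℝ) • (x + y) := ⟨_, rfl⟩
  obtain ⟨u, hu⟩ : ∃ u : ι → ℝ, u = fun i => (1 / 2 : ℝ) * (x - y) i := ⟨_, rfl⟩
  have h1 := H.lower m u
  have h2 := H.lower m (-u)
  have e1 : m + u = x := by
    funext i
    rw [hm, hu]
    simp only [Pi.add_apply, Pi.smul_apply, Pi.sub_apply, smul_eq_mul]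
    ring
  have e2 : m + -u = y := by
    funext i
    rw [hm, hu]
    simp only [Pi.add_apply, Pi.smul_apply, Pi.sub_apply, Pi.neg_apply, smul_eq_mul]
    ring
  have e3 : gd V m (-u) = -gd V m u := by
    unfold gd
    rw [← Finset.sum_neg_distrib]
    exact Finset.sum_congr rfl fun i _ => by rw [Pi.neg_apply, neg_mul]
  have e4 : sq (-u) = sq u := by
    unfold sq
    exact Finset.sum_congr rfl fun i _ => by rw [Pi.neg_apply, neg_sq]
  have e5 : sq u = (1 / 2 : ℝ) ^ 2 * sq (x - y) := by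
    rw [hu]
    exact sq_smul _ _
  rw [e1] at h1
  rw [e2, e3, e4] at h2
  rw [e5] at h1 h2
  rw [← hm]
  linarith

private theorem B1a_norm_sq (x : EuclideanSpace ℝ ι) : ‖x‖ ^ 2 = sq (WithLp.ofLp x) := by
  rw [EuclideanSpace.norm_sq_eq]
  unfold sq
  exact Finset.sum_congr rfl fun i _ => by rw [Real.norm_eq_abs, sq_abs]

private theorem B1a_fderiv {f : (ι → ℝ) → ℝ} (hf : ContDiff ℝ 1 f) (x : EuclideanSpace ℝ ι) :
    ‖fderiv ℝ (fun y : EuclideanSpace ℝ ι => f (WithLp.ofLp y)) x‖ ^ 2 ≤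
      gs f (WithLp.ofLp x) := by
  have hgs : 0 ≤ gs f (WithLp.ofLp x) := Finset.sum_nonneg fun _ _ => sq_nonneg _
  have h1 : HasFDerivAt (fun y : EuclideanSpace ℝ ι => f (WithLp.ofLp y))
      ((fderiv ℝ f (WithLp.ofLp x)).comp
        (PiLp.continuousLinearEquiv 2 ℝ (fun _ : ι => ℝ) :
          EuclideanSpace ℝ ι →L[ℝ] (ι → ℝ))) x := by
    have h2 : HasFDerivAt f (fderiv ℝ f (WithLp.ofLp x)) (WithLp.ofLp x) :=
      (hf.differentiable (by norm_num) _).hasFDerivAt
    exact HasFDerivAt.comp x h2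
      (PiLp.continuousLinearEquiv 2 ℝ (fun _ : ι => ℝ) :
          EuclideanSpace ℝ ι →L[ℝ] (ι → ℝ)).hasFDerivAt
  rw [h1.fderiv]
  have h3 : ‖(fderiv ℝ f (WithLp.ofLp x)).comp
        (PiLp.continuousLinearEquiv 2 ℝ (fun _ : ι => ℝ) :
          EuclideanSpace ℝ ι →L[ℝ] (ι → ℝ))‖ ≤ √(gs f (WithLp.ofLp x)) := by
    refine ContinuousLinearMap.opNorm_le_bound _ (Real.sqrt_nonneg _) fun v => ?_
    have h4 : ((fderiv ℝ f (WithLp.ofLp x)).comp
        (PiLp.continuousLinearEquiv 2 ℝ (fun _ : ι => ℝ) :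
          EuclideanSpace ℝ ι →L[ℝ] (ι → ℝ))) v = gd f (WithLp.ofLp x) (WithLp.ofLp v) :=
      fderiv_eq_gd f _ _
    rw [h4, Real.norm_eq_abs]
    refine abs_le_of_sq_le_sq ?_ (by positivity)
    rw [mul_pow, Real.sq_sqrt hgs, B1a_norm_sq]
    exact gd_sq_le _ _ _
  calc _ ≤ (√(gs f (WithLp.ofLp x))) ^ 2 := pow_le_pow_left₀ (norm_nonneg _) h3 2
    _ = _ := Real.sq_sqrt hgs

private theorem B1a_integral (g : (ι → ℝ) → ℝ) :
    ∫ x : EuclideanSpace ℝ ι, g (WithLp.ofLp x) = ∫ x, g x := by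
  have h := PiLp.volume_preserving_ofLp ι
  exact h.integral_comp (MeasurableEquiv.toLp 2 (ι → ℝ)).symm.measurableEmbedding g

/-- Version for compactly supported `C¹` functions in integral form. -/
theorem Nice.pi_int (H : Nice κ M V) {f : (ι → ℝ) → ℝ} (hf : ContDiff ℝ 1 f)
    (hc : HasCompactSupport f) :
    (∫ x, f x ^ 2 * Real.exp (-V x)) - (∫ x, f x * Real.exp (-V x)) ^ 2 / ∫ x, Real.exp (-V x) ≤
      1 / κ * ∫ x, gs f x * Real.exp (-V x) := by
  have hZ := H.zpos
  obtain ⟨Z, hZdef⟩ : ∃ Z : ℝ, Z = ∫ x, Real.exp (-V x) := ⟨_, rfl⟩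
  obtain ⟨I, hI⟩ : ∃ I : ℝ, I = ∫ x, f x * Real.exp (-V x) := ⟨_, rfl⟩
  rw [← hZdef] at hZ
  rw [← hZdef, ← hI]
  have hVc : Continuous V := H.c2.continuous
  have hofc : Continuous (fun x : EuclideanSpace ℝ ι => WithLp.ofLp x) :=
    (PiLp.continuousLinearEquiv 2 ℝ (fun _ : ι => ℝ)).continuous
  have hf0 : T1 f := by
    refine ⟨hf, PG.of_compact hf.continuous hc, fun i => PG.of_compact ?_ ?_⟩
    · have h1 : Continuous (fderiv ℝ f) := hf.continuous_fderiv (by norm_num)
      exact h1.clm_apply continuous_const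
    · have h2 : HasCompactSupport (fderiv ℝ f) := hc.fderiv ℝ
      exact h2.comp_left (g := fun L : (ι → ℝ) →L[ℝ] ℝ => L (Pi.single i 1)) rfl
  -- the function on the Euclidean space
  obtain ⟨Lf, hLf⟩ := ContDiff.lipschitzWith_of_hasCompactSupport hc hf (by norm_num)
  obtain ⟨A, hA⟩ := hf.continuous.bounded_above_of_compact_support hc
  have hlip : LipschitzWith (Lf * ‖(PiLp.continuousLinearEquiv 2 ℝ (fun _ : ι => ℝ) :
      EuclideanSpace ℝ ι →L[ℝ] (ι → ℝ))‖₊)
      (fun x : EuclideanSpace ℝ ι => f (WithLp.ofLp x)) :=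
    hLf.comp (PiLp.continuousLinearEquiv 2 ℝ (fun _ : ι => ℝ) :
      EuclideanSpace ℝ ι →L[ℝ] (ι → ℝ)).lipschitz
  have hρi : Integrable (fun x : EuclideanSpace ℝ ι => Real.exp (-V (WithLp.ofLp x))) := by
    have h := PiLp.volume_preserving_ofLp ι
    exact (h.integrable_comp_emb
      (MeasurableEquiv.toLp 2 (ι → ℝ)).symm.measurableEmbedding).2 H.intexp
  have hρm : Measurable (fun x : EuclideanSpace ℝ ι => Real.exp (-V (WithLp.ofLp x))) :=
    (Real.continuous_exp.comp (hVc.comp hofc).neg).measurable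
  have key := Pool.Agent.Lib.MP_8d00da_gt.h42.strong_poincare (κ := κ) H.kpos
    (ρ := fun x : EuclideanSpace ℝ ι => Real.exp (-V (WithLp.ofLp x)))
    (fun x => (Real.exp_pos _).le) hρm hρi (fun x y => ?_) hlip (A := A)
    (fun x => by rw [← Real.norm_eq_abs]; exact hA _) (m := I / Z) ?_
  · rw [B1a_integral (fun x => (f x - I / Z) ^ 2 * Real.exp (-V x))] at key
    have i1 : Integrable fun x => f x ^ 2 * Real.exp (-V x) := H.int (hf0.t0.pow 2)
    have i2 : Integrable fun x => f x * Real.exp (-V x) := H.int hf0.t0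
    have e1 : ∫ x, (f x - I / Z) ^ 2 * Real.exp (-V x) =
        (∫ x, f x ^ 2 * Real.exp (-V x)) - I ^ 2 / Z := by
      have e2 : ∀ x, (f x - I / Z) ^ 2 * Real.exp (-V x) =
          f x ^ 2 * Real.exp (-V x) - 2 * (I / Z) * (f x * Real.exp (-V x)) +
            (I / Z) ^ 2 * Real.exp (-V x) := fun x => by ring
      have i12 : Integrable fun x => f x ^ 2 * Real.exp (-V x) -
          2 * (I / Z) * (f x * Real.exp (-V x)) := i1.sub (i2.const_mul _)
      rw [integral_congr_ae (Eventually.of_forall e2),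
        integral_add i12 (H.intexp.const_mul _),
        integral_sub i1 (i2.const_mul _), integral_const_mul, integral_const_mul, ← hI, ← hZdef]
      field_simp
      ring
    rw [e1] at key
    refine key.trans (mul_le_mul_of_nonneg_left ?_ (by have := H.kpos; positivity))
    rw [← B1a_integral (fun x => gs f x * Real.exp (-V x))]
    have i3 : Integrable (fun x : EuclideanSpace ℝ ι =>
        gs f (WithLp.ofLp x) * Real.exp (-V (WithLp.ofLp x))) := by
      have h := PiLp.volume_preserving_ofLp ι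
      exact (h.integrable_comp_emb
        (MeasurableEquiv.toLp 2 (ι → ℝ)).symm.measurableEmbedding
        (g := fun x => gs f x * Real.exp (-V x))).2 (H.int hf0.gst0)
    exact integral_mono_of_nonneg (Eventually.of_forall fun x => by positivity) i3
      (Eventually.of_forall fun x =>
        mul_le_mul_of_nonneg_right (B1a_fderiv hf x) (Real.exp_pos _).le)
  · have h1 := H.B1a_mid (WithLp.ofLp x) (WithLp.ofLp y)
    have h2 : ‖x - y‖ ^ 2 = sq (WithLp.ofLp x - WithLp.ofLp y) := B1a_norm_sq (x - y)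
    have h3 : WithLp.ofLp ((1 / 2 : ℝ) • (x + y)) =
        (1 / 2 : ℝ) • (WithLp.ofLp x + WithLp.ofLp y) := rfl
    show Real.exp (-V (WithLp.ofLp x)) * Real.exp (-V (WithLp.ofLp y)) *
      Real.exp (κ * ‖x - y‖ ^ 2 / 4) ≤ Real.exp (-V (WithLp.ofLp ((1 / 2 : ℝ) • (x + y)))) ^ 2
    rw [h2, h3, ← Real.exp_add, ← Real.exp_add, ← Real.exp_nat_mul]
    refine Real.exp_le_exp.2 ?_
    push_cast
    linarith
  · rw [B1a_integral (fun x => f x * Real.exp (-V x)), B1a_integral (fun x => Real.exp (-V x)),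
      ← hI, ← hZdef]
    field_simp

/-! ### Cut-off -/

private theorem B1a_pd_scale {φ : (ι → ℝ) → ℝ} (hφ : Differentiable ℝ φ) (c : ℝ) (i : ι)
    (x : ι → ℝ) : pd i (fun y => φ (c • y)) x = c * pd i φ (c • x) := by
  unfold pd
  have h1 : HasFDerivAt (fun y : ι → ℝ => c • y) (c • ContinuousLinearMap.id ℝ (ι → ℝ)) x :=
    (hasFDerivAt_id x).const_smul c
  have h2 : HasFDerivAt φ (fderiv ℝ φ (c • x)) (c • x) := (hφ _).hasFDerivAt
  have h3 := h2.comp x h1
  have h4 : fderiv ℝ (fun y => φ (c • y)) x =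
      (fderiv ℝ φ (c • x)).comp (c • ContinuousLinearMap.id ℝ (ι → ℝ)) := h3.fderiv
  rw [h4]
  simp

private theorem B1a_cut : ∃ (χ : ℕ → (ι → ℝ) → ℝ) (C : ℝ), 0 ≤ C ∧ (∀ n, ContDiff ℝ 1 (χ n)) ∧
    (∀ n, HasCompactSupport (χ n)) ∧ (∀ n x, 0 ≤ χ n x ∧ χ n x ≤ 1) ∧
    (∀ n i x, |pd i (χ n) x| ≤ C / ((n : ℝ) + 1)) ∧
    ∀ x, Tendsto (fun n => χ n x) atTop (𝓝 1) := by
  let φ : ContDiffBump (0 : ι → ℝ) := ⟨1, 2, one_pos, one_lt_two⟩
  have hφ1 : ContDiff ℝ 1 (φ : (ι → ℝ) → ℝ) := φ.contDiff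
  have hb : ∀ i : ι, ∃ C : ℝ, ∀ x, ‖pd i (φ : (ι → ℝ) → ℝ) x‖ ≤ C := by
    intro i
    have h1 : Continuous (pd i (φ : (ι → ℝ) → ℝ)) :=
      (hφ1.continuous_fderiv (by norm_num)).clm_apply continuous_const
    have h2 : HasCompactSupport (pd i (φ : (ι → ℝ) → ℝ)) :=
      (φ.hasCompactSupport.fderiv ℝ).comp_left
        (g := fun L : (ι → ℝ) →L[ℝ] ℝ => L (Pi.single i 1)) rfl
    exact h1.bounded_above_of_compact_support h2
  choose C hC using hb
  have hc0 : ∀ n : ℕ, ((n : ℝ) + 1)⁻¹ ≠ 0 := fun n => by positivity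
  refine ⟨fun n x => φ (((n : ℝ) + 1)⁻¹ • x), ∑ i, |C i|, Finset.sum_nonneg fun _ _ => abs_nonneg _,
    fun n => ?_, fun n => ?_, fun n x => ⟨φ.nonneg, φ.le_one⟩, fun n i x => ?_, fun x => ?_⟩
  · exact hφ1.comp (contDiff_const_smul _)
  · exact φ.hasCompactSupport.comp_smul (hc0 n)
  · rw [B1a_pd_scale (hφ1.differentiable (by norm_num)), abs_mul, abs_inv, div_eq_inv_mul,
      abs_of_pos (by positivity : (0 : ℝ) < (n : ℝ) + 1)]
    refine mul_le_mul_of_nonneg_left ?_ (by positivity)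
    have h1 := hC i (((n : ℝ) + 1)⁻¹ • x)
    rw [Real.norm_eq_abs] at h1
    exact h1.trans ((le_abs_self _).trans
      (Finset.single_le_sum (f := fun i => |C i|) (fun i _ => abs_nonneg _) (Finset.mem_univ i)))
  · have h1 : Tendsto (fun n : ℕ => ((n : ℝ) + 1)⁻¹ • x) atTop (𝓝 ((0 : ℝ) • x)) :=
      Tendsto.smul_const (by simpa using tendsto_one_div_add_atTop_nhds_zero_nat (𝕜 := ℝ)) x
    rw [zero_smul] at h1
    have h2 := (hφ1.continuous.tendsto 0).comp h1
    have h3 : φ (0 : ι → ℝ) = 1 := φ.one_of_mem_closedBall (by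
      rw [Metric.mem_closedBall, dist_self]
      exact zero_le_one)
    rw [h3] at h2
    exact h2

/-- For bounded Lipschitz (e.g. compactly supported `C¹`) functions this is
`h42.strong_poincare` (on `EuclideanSpace ℝ ι`; transfer by the volume preserving equivalence with
`ι → ℝ`; the midpoint inequality `h x h y exp (κ |x-y|²/4) ≤ h ((x+y)/2)²` for `h = exp (-V)` follows
from `Nice.lower` at the midpoint). General `T1` functions: cut-off `χ(x/R) f`, `R → ∞`. -/
theorem Nice.pi (H : Nice κ M V) : PI V (1 / κ) := by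
  intro f hf
  obtain ⟨χ, C, hC0, hχ1, hχc, hχb, hχd, hχt⟩ := B1a_cut (ι := ι)
  have hZ := H.zpos
  have hfd : Differentiable ℝ f := hf.c1.differentiable (by norm_num)
  have hcut : ∀ n, ContDiff ℝ 1 (fun x => χ n x * f x) := fun n => (hχ1 n).mul hf.c1
  have hcutc : ∀ n, HasCompactSupport (fun x => χ n x * f x) := fun n => (hχc n).mul_right
  have hpd : ∀ n i x, pd i (fun x => χ n x * f x) x = pd i (χ n) x * f x + χ n x * pd i f x :=
    fun n i x => pd_mul ((hχ1 n).differentiable (by norm_num)) hfd i x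
  have hpdt : ∀ i x, Tendsto (fun n => pd i (χ n) x) atTop (𝓝 0) := by
    intro i x
    refine squeeze_zero_norm (fun n => (Real.norm_eq_abs _).trans_le (hχd n i x)) ?_
    have h1 := (tendsto_one_div_add_atTop_nhds_zero_nat (𝕜 := ℝ)).const_mul C
    rw [mul_zero] at h1
    exact h1.congr fun n => by rw [mul_one_div]
  have hfm : Measurable f := hf.t0.meas
  have hVm : Measurable fun x => Real.exp (-V x) :=
    (Real.continuous_exp.comp H.c2.continuous.neg).measurable
  -- three limits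
  have l1 : Tendsto (fun n => ∫ x, (χ n x * f x) ^ 2 * Real.exp (-V x)) atTop
      (𝓝 (∫ x, f x ^ 2 * Real.exp (-V x))) := by
    refine tendsto_integral_of_dominated_convergence (fun x => f x ^ 2 * Real.exp (-V x))
      (fun n => ?_) (H.int (hf.t0.pow 2)) (fun n => Eventually.of_forall fun x => ?_)
      (Eventually.of_forall fun x => ?_)
    · exact (((hcut n).continuous.measurable.pow_const 2).mul hVm).aestronglyMeasurable
    · rw [Real.norm_eq_abs, abs_of_nonneg (by positivity), mul_pow]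
      have h1 : χ n x ^ 2 ≤ 1 := pow_le_one₀ (hχb n x).1 (hχb n x).2
      have h2 : 0 ≤ f x ^ 2 * Real.exp (-V x) := by positivity
      nlinarith
    · have h1 := (((hχt x).mul_const (f x)).pow 2).mul_const (Real.exp (-V x))
      rwa [one_mul] at h1
  have l2 : Tendsto (fun n => ∫ x, (χ n x * f x) * Real.exp (-V x)) atTop
      (𝓝 (∫ x, f x * Real.exp (-V x))) := by
    refine tendsto_integral_of_dominated_convergence (fun x => |f x| * Real.exp (-V x))
      (fun n => ?_) (H.int hf.t0.abs) (fun n => Eventually.of_forall fun x => ?_)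
      (Eventually.of_forall fun x => ?_)
    · exact (((hcut n).continuous.measurable).mul hVm).aestronglyMeasurable
    · rw [Real.norm_eq_abs, abs_mul, abs_mul, abs_of_nonneg (hχb n x).1,
        abs_of_pos (Real.exp_pos _)]
      have h2 : 0 ≤ |f x| * Real.exp (-V x) := by positivity
      have h3 := (hχb n x).2
      nlinarith
    · have h1 := ((hχt x).mul_const (f x)).mul_const (Real.exp (-V x))
      rwa [one_mul] at h1
  have l3 : Tendsto (fun n => ∫ x, gs (fun x => χ n x * f x) x * Real.exp (-V x)) atTop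
      (𝓝 (∫ x, gs f x * Real.exp (-V x))) := by
    have hdom : T0 (fun x => ∑ i : ι, (2 * (C ^ 2 * f x ^ 2) + 2 * pd i f x ^ 2)) :=
      T0.sum _ fun i _ => (((hf.t0.pow 2).cmul (C ^ 2)).cmul 2).add (((hf.pdt0 i).pow 2).cmul 2)
    refine tendsto_integral_of_dominated_convergence
      (fun x => (∑ i : ι, (2 * (C ^ 2 * f x ^ 2) + 2 * pd i f x ^ 2)) * Real.exp (-V x))
      (fun n => ?_) (H.int hdom) (fun n => Eventually.of_forall fun x => ?_)
      (Eventually.of_forall fun x => ?_)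
    · have h1 : Continuous (gs (fun x => χ n x * f x)) := by
        unfold gs
        refine continuous_finsetSum _ fun i _ => Continuous.pow ?_ 2
        exact ((hcut n).continuous_fderiv (by norm_num)).clm_apply continuous_const
      exact (h1.measurable.mul hVm).aestronglyMeasurable
    · have h0 : 0 ≤ gs (fun x => χ n x * f x) x := Finset.sum_nonneg fun _ _ => sq_nonneg _
      rw [Real.norm_eq_abs, abs_of_nonneg (by positivity)]
      refine mul_le_mul_of_nonneg_right ?_ (Real.exp_pos _).le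
      unfold gs
      refine Finset.sum_le_sum fun i _ => ?_
      rw [hpd]
      have h1 : |pd i (χ n) x| ≤ C := by
        refine (hχd n i x).trans (div_le_self hC0 ?_)
        have : (0 : ℝ) ≤ n := Nat.cast_nonneg n
        linarith
      have h2 : pd i (χ n) x ^ 2 ≤ C ^ 2 := by
        rw [← sq_abs]
        exact pow_le_pow_left₀ (abs_nonneg _) h1 2
      have h3 : χ n x ^ 2 ≤ 1 := pow_le_one₀ (hχb n x).1 (hχb n x).2
      have h4 : (pd i (χ n) x * f x) ^ 2 ≤ C ^ 2 * f x ^ 2 := by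
        rw [mul_pow]
        exact mul_le_mul_of_nonneg_right h2 (sq_nonneg _)
      have h5 : (χ n x * pd i f x) ^ 2 ≤ pd i f x ^ 2 := by
        rw [mul_pow]
        have := mul_le_mul_of_nonneg_right h3 (sq_nonneg (pd i f x))
        rwa [one_mul] at this
      nlinarith [sq_nonneg (pd i (χ n) x * f x - χ n x * pd i f x)]
    · have h1 : Tendsto (fun n => gs (fun x => χ n x * f x) x) atTop (𝓝 (gs f x)) := by
        unfold gs
        refine tendsto_finsetSum _ fun i _ => ?_
        have h2 := (((hpdt i x).mul_const (f x)).add ((hχt x).mul_const (pd i f x))).pow 2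
        rw [zero_mul, zero_add, one_mul] at h2
        exact h2.congr fun n => by rw [hpd]
      exact h1.mul_const _
  have hineq := le_of_tendsto_of_tendsto' (l1.sub ((l2.pow 2).div_const (∫ x, Real.exp (-V x))))
    (l3.const_mul (1 / κ)) fun n => H.pi_int (hcut n) (hcutc n)
  rw [var_eq']
  unfold ex
  have h1 := div_le_div_of_nonneg_right hineq hZ.le
  have e1 : ((∫ x, f x ^ 2 * Real.exp (-V x)) -
      (∫ x, f x * Real.exp (-V x)) ^ 2 / ∫ x, Real.exp (-V x)) / ∫ x, Real.exp (-V x) =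
      (∫ x, f x ^ 2 * Real.exp (-V x)) / (∫ x, Real.exp (-V x)) -
        ((∫ x, f x * Real.exp (-V x)) / ∫ x, Real.exp (-V x)) ^ 2 := by
    field_simp
  rw [e1, mul_div_assoc] at h1
  exact h1

end Pool.Agent.Lib.MP_8d00da_gt.h42k
end
end
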