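import Mathlib
import Pool.Agent.Lib.MP_8d00da_gt.h42o.ODefs
import Pool.Agent.Lib.MP_8d00da_gt.h25.Chain
import Pool.Agent.Lib.MP_8d00da_gt.h42k.B1a

section

/-!
# Unconditional log-concave weights: definitions
-/

namespace Pool.Agent.Lib.MP_8d00da_gt.h42u

open MeasureTheory Set Filter
open Pool.Agent.Lib.MP_8d00da_gt.h25 Pool.Agent.Lib.MP_8d00da_gt.h42
open Pool.Agent.Lib.MP_8d00da_gt.h42s Pool.Agent.Lib.MP_8d00da_gt.h42o
open scoped Topology NNReal

/-- Smooth strongly log-concave unconditional weights (no normalisation of the moments). -/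
structure UW {m : ℕ} (δ L : ℝ) (h : Vn m → ℝ) : Prop where
  reg : ∃ W : Vn m → ℝ, (∀ x, h x = Real.exp (-W x)) ∧ Differentiable ℝ W ∧
    ∀ x y, ‖fderiv ℝ W x - fderiv ℝ W y‖ ≤ L * ‖x - y‖
  lc : LogConc h
  smid : ∀ x y, h x * h y * Real.exp (δ * ‖x - y‖ ^ 2 / 4) ≤ h ((1 / 2 : ℝ) • (x + y)) ^ 2
  even : ∀ i x, h (fl i x) = h x

variable {m : ℕ} {δ L : ℝ} {h : Vn m → ℝ}

lemma _root_.Pool.Agent.Lib.MP_8d00da_gt.h42o.SWt.toUW (H : SWt δ L h) : UW δ L h :=
  ⟨H.reg, H.lc, H.smid, H.even⟩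

lemma UW.pos (H : UW δ L h) (x : Vn m) : 0 < h x := by
  obtain ⟨W, hW, -⟩ := H.reg
  rw [hW]
  exact Real.exp_pos _

lemma UW.cont (H : UW δ L h) : Continuous h := by
  obtain ⟨W, hW, hd, -⟩ := H.reg
  have : h = fun x => Real.exp (-W x) := funext hW
  rw [this]
  exact Real.continuous_exp.comp hd.continuous.neg

private lemma uw_sign (hS : ∀ (i : Fin m) x, h (fl i x) = h x) (s : Finset (Fin m)) :
    ∀ x : Vn m, h (WithLp.toLp 2 fun i => if i ∈ s then - x i else x i) = h x := by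
  induction s using Finset.induction_on with
  | empty => intro x; simp
  | insert a s ha ih =>
    intro x
    have h1 : (WithLp.toLp 2 fun i => if i ∈ insert a s then - x i else x i : Vn m) =
        WithLp.toLp 2 fun i => if i ∈ s then - (fl a x) i else (fl a x) i := by
      ext i
      simp only [Finset.mem_insert, fl_apply]
      by_cases hi : i = a
      · subst hi; simp [ha]
      · simp [hi]
    rw [h1, ih, hS]

lemma UW.abs_even (H : UW δ L h) (x : Vn m) : h (-x) = h x := by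
  have h1 := uw_sign H.even Finset.univ x
  rw [← h1]
  congr 1
  ext i
  simp

lemma UW.gauss (H : UW δ L h) (x : Vn m) :
    h x ≤ h 0 * Real.exp (-(δ * ‖x‖ ^ 2 / 2)) := by
  have h1 := H.smid x (-x)
  rw [H.abs_even, add_neg_cancel, smul_zero, sub_neg_eq_add, ← two_smul ℝ x, norm_smul] at h1
  have h2 : (h x * Real.exp (δ * ‖x‖ ^ 2 / 2)) ^ 2 ≤ h 0 ^ 2 := by
    refine le_trans (le_of_eq ?_) h1
    rw [mul_pow, ← Real.exp_nat_mul, sq (h x)]
    congr 2
    simp only [Real.norm_eq_abs, abs_two]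
    push_cast
    ring
  have h3 : h x * Real.exp (δ * ‖x‖ ^ 2 / 2) ≤ h 0 := by
    have h4 := abs_le_of_sq_le_sq' h2 (H.pos 0).le
    exact h4.2
  rw [Real.exp_neg, ← div_eq_mul_inv, le_div_iff₀ (Real.exp_pos _)]
  exact h3

lemma UW.wt (H : UW δ L h) (hδ : 0 < δ) : Wt h (h 0) where
  meas := H.cont.measurable
  nonneg := fun x => (H.pos x).le
  bdd := fun x => by
    refine (H.gauss x).trans ?_
    have h1 : Real.exp (-(δ * ‖x‖ ^ 2 / 2)) ≤ 1 := by
      rw [Real.exp_le_one_iff, neg_nonpos]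
      positivity
    have h2 := (H.pos 0).le
    nlinarith
  mid := fun x y => by
    refine le_trans ?_ (H.smid x y)
    have h1 : 1 ≤ Real.exp (δ * ‖x - y‖ ^ 2 / 4) := by
      rw [Real.one_le_exp_iff]
      positivity
    have h2 := mul_nonneg (H.pos x).le (H.pos y).le
    nlinarith
  ne := by
    intro h0
    have h1 : ∀ᵐ x : Vn m, False := by
      filter_upwards [h0] with x hx
      have := H.pos x
      rw [hx] at this
      exact lt_irrefl _ this
    have h2 : (volume : Measure (Vn m)) = 0 := by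
      simpa using h1
    exact NeZero.ne (volume : Measure (Vn m)) h2

/-- Integrability of functions of quadratic growth. -/
lemma UW.int_poly (H : UW δ L h) (hδ : 0 < δ) {φ : Vn m → ℝ} (hφ : Measurable φ) {C : ℝ}
    (hC : ∀ x, |φ x| ≤ C * (1 + ‖x‖ ^ 2)) : Integrable fun x => φ x * h x := by
  have hη : 0 < 2 / δ := by positivity
  have hC0 : 0 ≤ C := by
    have h1 := (abs_nonneg _).trans (hC 0)
    simpa using h1
  have hker : Integrable fun x : Vn m => (C * (1 + 4 / δ) * h 0) * h25.ker (2 / δ) x :=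
    (ker_integrable hη).const_mul _
  refine hker.mono' (hφ.mul H.cont.measurable).aestronglyMeasurable (Eventually.of_forall fun x => ?_)
  rw [Real.norm_eq_abs, abs_mul, abs_of_pos (H.pos x)]
  have h1 := H.gauss x
  have h2 : Real.exp (-(δ * ‖x‖ ^ 2 / 2)) =
      Real.exp (-(δ * ‖x‖ ^ 2 / 4)) * Real.exp (-(δ * ‖x‖ ^ 2 / 4)) := by
    rw [← Real.exp_add]
    congr 1
    ring
  have h3 : h25.ker (2 / δ) x = Real.exp (-(δ * ‖x‖ ^ 2 / 4)) := by
    unfold h25.ker
    congr 2
    field_simp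
    ring
  have h4 : (1 + ‖x‖ ^ 2) * Real.exp (-(δ * ‖x‖ ^ 2 / 4)) ≤ 1 + 4 / δ := by
    have h5 := Real.add_one_le_exp (δ * ‖x‖ ^ 2 / 4)
    rw [Real.exp_neg, ← div_eq_mul_inv, div_le_iff₀ (Real.exp_pos _)]
    have h6 : (1 + 4 / δ) * (δ * ‖x‖ ^ 2 / 4 + 1) ≤ (1 + 4 / δ) * Real.exp (δ * ‖x‖ ^ 2 / 4) := by
      gcongr
    refine le_trans ?_ h6
    have h7 : (1 + 4 / δ) * (δ * ‖x‖ ^ 2 / 4 + 1) = 1 + ‖x‖ ^ 2 + (δ * ‖x‖ ^ 2 / 4 + 4 / δ) := by
      field_simp
      ring
    rw [h7]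
    have : 0 ≤ δ * ‖x‖ ^ 2 / 4 + 4 / δ := by positivity
    linarith
  have h00 := (H.pos 0).le
  calc |φ x| * h x ≤ (C * (1 + ‖x‖ ^ 2)) * (h 0 * Real.exp (-(δ * ‖x‖ ^ 2 / 2))) :=
        mul_le_mul (hC x) h1 (H.pos x).le (by positivity)
    _ = (C * h 0 * Real.exp (-(δ * ‖x‖ ^ 2 / 4))) *
        ((1 + ‖x‖ ^ 2) * Real.exp (-(δ * ‖x‖ ^ 2 / 4))) := by rw [h2]; ring
    _ ≤ (C * h 0 * Real.exp (-(δ * ‖x‖ ^ 2 / 4))) * (1 + 4 / δ) := by gcongr
    _ = (C * (1 + 4 / δ) * h 0) * h25.ker (2 / δ) x := by rw [h3]; ring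

lemma UW.int (H : UW δ L h) (hδ : 0 < δ) : Integrable h := by
  have h1 := H.int_poly hδ (φ := fun _ => 1) measurable_const (C := 1) (fun x => by
    rw [abs_one, one_mul]
    have := sq_nonneg ‖x‖
    linarith)
  simpa using h1

lemma UW.mass (H : UW δ L h) (hδ : 0 < δ) : 0 < ∫ x, h x :=
  ker_int_pos.integral_pos_of_pos (H.int hδ) H.pos

lemma UW.apriori (H : UW δ L h) (hδ : 0 < δ) {q : Vn m → ℝ} (hq : BL q) :
    Vr h q ≤ (1 / δ) * En h q := by
  obtain ⟨⟨K, hK⟩, A, hA⟩ := hq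
  have hmass := H.mass hδ
  have hA0 : 0 ≤ A := (abs_nonneg _).trans (hA 0)
  have hqm : Measurable q := hK.continuous.measurable
  have i1 : Integrable fun x => q x * h x := H.int_poly hδ hqm (C := A) (fun x => by
    refine (hA x).trans ?_
    have := sq_nonneg ‖x‖
    nlinarith)
  have i2 : Integrable fun x => q x ^ 2 * h x := H.int_poly hδ (hqm.pow_const 2) (C := A ^ 2)
    (fun x => by
      rw [abs_pow]
      have h1 : |q x| ^ 2 ≤ A ^ 2 := by
        have := hA x
        gcongr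
      have := sq_nonneg ‖x‖
      nlinarith [sq_nonneg A])
  have i3 := H.int hδ
  set c : ℝ := (∫ x, q x * h x) / ∫ x, h x with hc
  have h1 := strong_poincare hδ (fun x => (H.pos x).le) H.cont.measurable i3 H.smid hK hA
    (m := c) (by rw [hc, div_mul_cancel₀ _ hmass.ne'])
  refine le_trans (le_of_eq ?_) h1
  have h2 : ∀ x, (q x - c) ^ 2 * h x = q x ^ 2 * h x - 2 * c * (q x * h x) + c ^ 2 * h x := by
    intro x
    ring
  simp only [h2]
  have i4 : Integrable fun x => q x ^ 2 * h x - 2 * c * (q x * h x) := i2.sub (i1.const_mul _)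
  rw [integral_add i4 (i3.const_mul _), integral_sub i2 (i1.const_mul _),
    integral_const_mul, integral_const_mul]
  unfold Vr
  have h3 : (∫ x, q x * h x) = c * ∫ x, h x := by rw [hc, div_mul_cancel₀ _ hmass.ne']
  rw [h3]
  field_simp
  ring

section general

variable {F : Type*} [NormedAddCommGroup F] [InnerProductSpace ℝ F]
    [FiniteDimensional ℝ F] [MeasurableSpace F] [BorelSpace F]

/-- The gradient vector. -/
noncomputable def gr (W : F → ℝ) (z : F) : F := (InnerProductSpace.toDual ℝ F).symm (fderiv ℝ W z)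

/-- A bounded log-concave weight `exp (-W)` such that the derivative of `W` is Lipschitz. -/
structure PW (L B : ℝ) (h W : F → ℝ) : Prop where
  wt : Wt h B
  eq : ∀ x, h x = Real.exp (-W x)
  diff : Differentiable ℝ W
  lip : ∀ x y, ‖fderiv ℝ W x - fderiv ℝ W y‖ ≤ L * ‖x - y‖
  lc : LogConc h

/-- The drift of the unadjusted Langevin chain with step `s` for the potential
`W z + ‖z - y‖² / (2 η)`. -/
noncomputable def GU (W : F → ℝ) (η s : ℝ) (y z : F) : F := z - s • (gr W z + (1 / η) • (z - y))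

/-- The operator of the unadjusted Langevin chain. -/
noncomputable def QU (W : F → ℝ) (η s : ℝ) (y : F) (u : F → ℝ) (z : F) : ℝ :=
  SS (2 * s) u (GU W η s y z)

omit [MeasurableSpace F] [BorelSpace F] in
lemma gr_inner (W : F → ℝ) (z v : F) : inner ℝ (gr W z) v = fderiv ℝ W z v := by
  unfold gr
  rw [InnerProductSpace.toDual_symm_apply]

omit [MeasurableSpace F] [BorelSpace F] in
lemma gr_sub_norm (W : F → ℝ) (z z' : F) : ‖gr W z - gr W z'‖ = ‖fderiv ℝ W z - fderiv ℝ W z'‖ := by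
  unfold gr
  rw [← map_sub, LinearIsometryEquiv.norm_map]

omit [MeasurableSpace F] [BorelSpace F] in
lemma gr_norm (W : F → ℝ) (z : F) : ‖gr W z‖ = ‖fderiv ℝ W z‖ := by
  unfold gr
  rw [LinearIsometryEquiv.norm_map]

lemma pw_one : PW 0 1 (fun _ : F => (1 : ℝ)) (fun _ => 0) where
  wt := wt_one
  eq := fun x => by simp
  diff := by fun_prop
  lip := fun x y => by simp
  lc := fun a _ _ x y => by simp

end general

lemma UW.pw (H : UW δ L h) (hδ : 0 < δ) : ∃ W, PW L (h 0) h W := by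
  obtain ⟨W, h1, h2, h3⟩ := H.reg
  exact ⟨W, H.wt hδ, h1, h2, h3, H.lc⟩

/-- Lower bound of the Rayleigh quotient on a parity class. -/
def Low (S : Finset (Fin m)) (h : Vn m → ℝ) (lam : ℝ) : Prop :=
  ∀ u : Vn m → ℝ, Par S u → BL u → lam * ∫ x, u x ^ 2 * h x ≤ En h u

/-- Exponential concentration: enlargements of sets of proportion `a` by `r` have proportion at
least `1/2` if `log (1 / a) + c ≤ κ r`. -/
def Conc (κ c : ℝ) (h : Vn m → ℝ) : Prop :=
  ∀ A : Set (Vn m), MeasurableSet A → ∀ a : ℝ, 0 < a → ∀ r : ℝ, 0 ≤ r →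
    a * (∫ x, h x) ≤ ∫ x in A, h x → Real.log (1 / a) + c ≤ κ * r →
      ∫ x in {x | r ≤ Metric.infDist x A}, h x ≤ (1 / 2) * ∫ x, h x

/-- Stretching of the coordinates of `S` by the factor `4`. -/
noncomputable def str (S : Finset (Fin m)) : Vn m ≃ₗ[ℝ] Vn m where
  toFun x := WithLp.toLp 2 fun j => (if j ∈ S then 4 else 1) * x j
  invFun x := WithLp.toLp 2 fun j => (if j ∈ S then 1 / 4 else 1) * x j
  map_add' x y := by
    ext j
    simp [mul_add]
  map_smul' a x := by
    ext j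
    simp
    split_ifs <;> ring
  left_inv x := by
    ext j
    simp
    split_ifs <;> ring
  right_inv x := by
    ext j
    simp
    split_ifs <;> ring

lemma str_apply (S : Finset (Fin m)) (x : Vn m) (j : Fin m) :
    str S x j = (if j ∈ S then 4 else 1) * x j := rfl

lemma str_symm_apply (S : Finset (Fin m)) (x : Vn m) (j : Fin m) :
    (str S).symm x j = (if j ∈ S then 1 / 4 else 1) * x j := rfl

/-- The stretched weight. -/
noncomputable def sh (S : Finset (Fin m)) (h : Vn m → ℝ) (x : Vn m) : ℝ := h ((str S).symm x)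

/-- The numbers `φ`. -/
noncomputable def pz (k : ℕ) : ℝ := 1 + (1 / 100) * (1 - (19 / 20 : ℝ) ^ k)

end Pool.Agent.Lib.MP_8d00da_gt.h42u
end

section

section

/-!
# Poisson density
-/

namespace Pool.Agent.Lib.MP_8d00da_gt.h42k

open MeasureTheory Set Filter
open scoped Topology NNReal ENNReal ContDiff

set_option linter.unusedSectionVars false
set_option linter.unusedVariables false

variable {ι : Type*} [Fintype ι] [DecidableEq ι]

variable {κ M : ℝ} {V : (ι → ℝ) → ℝ}
private theorem KC3_int_mul {α : Type*} [MeasurableSpace α] {μ : Measure α} {a b : α → ℝ}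
    (ha : AEStronglyMeasurable a μ) (hb : AEStronglyMeasurable b μ)
    (hia : Integrable (fun x => a x ^ 2) μ) (hib : Integrable (fun x => b x ^ 2) μ) :
    Integrable (fun x => a x * b x) μ :=
  MemLp.integrable_mul ((memLp_two_iff_integrable_sq ha).2 hia)
    ((memLp_two_iff_integrable_sq hb).2 hib)

private theorem KC3_int_sub {α : Type*} [MeasurableSpace α] {μ : Measure α} {a b : α → ℝ}
    (ha : AEStronglyMeasurable a μ) (hb : AEStronglyMeasurable b μ)
    (hia : Integrable (fun x => a x ^ 2) μ) (hib : Integrable (fun x => b x ^ 2) μ) :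
    Integrable (fun x => (a x - b x) ^ 2) μ :=
  (memLp_two_iff_integrable_sq (ha.sub hb)).1
    (((memLp_two_iff_integrable_sq ha).2 hia).sub ((memLp_two_iff_integrable_sq hb).2 hib))

private theorem KC3_cs {α : Type*} [MeasurableSpace α] {μ : Measure α} {a b : α → ℝ}
    (ha : AEStronglyMeasurable a μ) (hb : AEStronglyMeasurable b μ)
    (hia : Integrable (fun x => a x ^ 2) μ) (hib : Integrable (fun x => b x ^ 2) μ) :
    |∫ x, a x * b x ∂μ| ≤ √(∫ x, a x ^ 2 ∂μ) * √(∫ x, b x ^ 2 ∂μ) := by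
  have hab := KC3_int_mul ha hb hia hib
  have h1 : ∀ t : ℝ, 0 ≤ (∫ x, b x ^ 2 ∂μ) * (t * t) + (2 * ∫ x, a x * b x ∂μ) * t +
      ∫ x, a x ^ 2 ∂μ := by
    intro t
    have h2 : 0 ≤ ∫ x, (a x + t * b x) ^ 2 ∂μ := integral_nonneg fun x => sq_nonneg _
    have h3 : ∀ x, (a x + t * b x) ^ 2 = t * t * b x ^ 2 + 2 * t * (a x * b x) + a x ^ 2 :=
      fun x => by ring
    have i1 : Integrable (fun x => t * t * b x ^ 2 + 2 * t * (a x * b x)) μ :=
      (hib.const_mul _).add (hab.const_mul _)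
    rw [integral_congr_ae (Eventually.of_forall h3), integral_add i1 hia,
      integral_add (hib.const_mul _) (hab.const_mul _), integral_const_mul,
      integral_const_mul] at h2
    linarith
  have h4 := discrim_le_zero h1
  unfold discrim at h4
  rw [← Real.sqrt_mul (integral_nonneg fun x => sq_nonneg _)]
  refine Real.abs_le_sqrt ?_
  nlinarith

private theorem KC3_lim {α : Type*} [MeasurableSpace α] {μ : Measure α} {u v : ℕ → α → ℝ}
    {u0 v0 : α → ℝ} (hum : ∀ k, AEStronglyMeasurable (u k) μ)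
    (hvm : ∀ k, AEStronglyMeasurable (v k) μ) (hum0 : AEStronglyMeasurable u0 μ)
    (hvm0 : AEStronglyMeasurable v0 μ) (hui : ∀ k, Integrable (fun x => u k x ^ 2) μ)
    (hvi : ∀ k, Integrable (fun x => v k x ^ 2) μ) (hui0 : Integrable (fun x => u0 x ^ 2) μ)
    (hvi0 : Integrable (fun x => v0 x ^ 2) μ)
    (hu : Tendsto (fun k => ∫ x, (u k x - u0 x) ^ 2 ∂μ) atTop (𝓝 0))
    (hv : Tendsto (fun k => ∫ x, (v k x - v0 x) ^ 2 ∂μ) atTop (𝓝 0)) :
    Tendsto (fun k => ∫ x, u k x * v k x ∂μ) atTop (𝓝 (∫ x, u0 x * v0 x ∂μ)) := by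
  have hud : ∀ k, Integrable (fun x => (u k x - u0 x) ^ 2) μ := fun k =>
    KC3_int_sub (hum k) hum0 (hui k) hui0
  have hvd : ∀ k, Integrable (fun x => (v k x - v0 x) ^ 2) μ := fun k =>
    KC3_int_sub (hvm k) hvm0 (hvi k) hvi0
  have l1 : Tendsto (fun k => √(∫ x, (u k x - u0 x) ^ 2 ∂μ)) atTop (𝓝 0) := by
    have h := (Real.continuous_sqrt.tendsto 0).comp hu
    rwa [Real.sqrt_zero] at h
  have l2 : Tendsto (fun k => √(∫ x, (v k x - v0 x) ^ 2 ∂μ)) atTop (𝓝 0) := by
    have h := (Real.continuous_sqrt.tendsto 0).comp hv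
    rwa [Real.sqrt_zero] at h
  have m1 : Tendsto (fun k => ∫ x, (u k x - u0 x) * (v k x - v0 x) ∂μ) atTop (𝓝 0) := by
    refine squeeze_zero_norm (fun k => (Real.norm_eq_abs _).trans_le
      (KC3_cs ((hum k).sub hum0) ((hvm k).sub hvm0) (hud k) (hvd k))) ?_
    simpa using l1.mul l2
  have m2 : Tendsto (fun k => ∫ x, (u k x - u0 x) * v0 x ∂μ) atTop (𝓝 0) := by
    refine squeeze_zero_norm (fun k => (Real.norm_eq_abs _).trans_le
      (KC3_cs ((hum k).sub hum0) hvm0 (hud k) hvi0)) ?_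
    simpa using l1.mul_const (√(∫ x, v0 x ^ 2 ∂μ))
  have m3 : Tendsto (fun k => ∫ x, u0 x * (v k x - v0 x) ∂μ) atTop (𝓝 0) := by
    refine squeeze_zero_norm (fun k => (Real.norm_eq_abs _).trans_le
      (KC3_cs hum0 ((hvm k).sub hvm0) hui0 (hvd k))) ?_
    simpa using l2.const_mul (√(∫ x, u0 x ^ 2 ∂μ))
  have m4 := ((m1.add m2).add m3).add_const (∫ x, u0 x * v0 x ∂μ)
  simp only [add_zero, zero_add] at m4
  refine m4.congr fun k => ?_
  have i1 := KC3_int_mul ((hum k).sub hum0) ((hvm k).sub hvm0) (hud k) (hvd k)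
  have i2 := KC3_int_mul ((hum k).sub hum0) hvm0 (hud k) hvi0
  have i3 := KC3_int_mul hum0 ((hvm k).sub hvm0) hui0 (hvd k)
  have i4 := KC3_int_mul hum0 hvm0 hui0 hvi0
  simp only [Pi.sub_apply] at i1 i2 i3
  have i5 : Integrable (fun x => (u k x - u0 x) * (v k x - v0 x) + (u k x - u0 x) * v0 x) μ :=
    i1.add i2
  have i6 : Integrable (fun x => (u k x - u0 x) * (v k x - v0 x) + (u k x - u0 x) * v0 x +
    u0 x * (v k x - v0 x)) μ := i5.add i3
  rw [← integral_add i1 i2, ← integral_add i5 i3, ← integral_add i6 i4]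
  refine integral_congr_ae (Eventually.of_forall fun x => ?_)
  show _ = _
  ring

private theorem KC3_kernel {ρ : (ι → ℝ) → ℝ} (hρ : ContDiff ℝ ∞ ρ) (x : ι → ℝ) (i : ι) (y : ι → ℝ) :
    pd i (fun z => ρ (x - z)) y = -pd i ρ (x - y) := by
  unfold pd
  have h1 : HasFDerivAt (fun z : ι → ℝ => x - z) (-ContinuousLinearMap.id ℝ (ι → ℝ)) y :=
    (hasFDerivAt_id y).const_sub x
  have h2 : HasFDerivAt ρ (fderiv ℝ ρ (x - y)) (x - y) :=
    (hρ.differentiable (by norm_cast) _).hasFDerivAt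
  have h3 := h2.comp y h1
  have h4 : fderiv ℝ (fun z => ρ (x - z)) y =
      (fderiv ℝ ρ (x - y)).comp (-ContinuousLinearMap.id ℝ (ι → ℝ)) := h3.fderiv
  rw [h4]
  simp

private theorem KC3_kernel2 {ρ : (ι → ℝ) → ℝ} (hρ : ContDiff ℝ ∞ ρ) (x : ι → ℝ) (i : ι)
    (y : ι → ℝ) :
    pd i (pd i (fun z => ρ (x - z))) y = pd i (pd i ρ) (x - y) := by
  have h0 : ContDiff ℝ ∞ (pd i ρ) := by
    have h : ContDiff ℝ ∞ (fderiv ℝ ρ) := hρ.fderiv_right (by norm_cast)
    exact h.clm_apply contDiff_const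
  have h1 : pd i (fun z => ρ (x - z)) = fun y => (-1) * pd i ρ (x - y) := by
    funext y
    rw [KC3_kernel hρ]
    ring
  have h2 : Differentiable ℝ (fun z => pd i ρ (x - z)) := by
    have : ContDiff ℝ ∞ (fun z => pd i ρ (x - z)) := h0.comp (contDiff_const.sub contDiff_id)
    exact this.differentiable (by norm_cast)
  rw [h1, pd_cmul h2, KC3_kernel h0]
  ring

private theorem KC3_compact {f : (ι → ℝ) → ℝ} (hf : Continuous f) (hc : HasCompactSupport f) :
    Integrable (fun x => f x ^ 2) := by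
  have h : (fun x => f x ^ 2) = fun x => f x * f x := by
    funext x
    ring
  rw [h]
  exact (hf.mul hf).integrable_of_hasCompactSupport hc.mul_right

/-- Let `g ∈ L²` be orthogonal to all `L φ`. For `χ` smooth with compact support
`Var(χ g) ≤ (1/κ) E |∇χ|² g²`. Proof: `G = g e^{-V/2}`, `G_k = mol (ρ k) G`,
`∑ ∂_i∂_i G_k = mol (ρ k) (W0 G)` (`orth_schr` with `ψ = ρ_k(x - ·)`, `mol_smooth`), `cutoff_energy`:
`∫ |∇(χG_k)|² + ∫ W0 χ² G_k² = ∫ |∇χ|² G_k² - ∫ χ² G_k (mol (ρ k) (W0 G) - W0 G_k)`; the left side is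
`∫ |∇(χ G_k e^{V/2})|² e^{-V} ≥ κ Var`-form (`ground_energy`, `Nice.pi_int`); `k → ∞` by `mol_L2_loc`
(for `G` and for `W0 G`). -/
theorem cut_var (H : Nice κ M V) {g : (ι → ℝ) → ℝ} (hg : Measurable g)
    (hi : Integrable fun x => g x ^ 2 * Real.exp (-V x))
    (ho : ∀ φ, Cc φ → ∫ x, g x * LL V φ x * Real.exp (-V x) = 0) {χ : (ι → ℝ) → ℝ} (hχ : Cc χ) :
    (∫ x, (χ x * g x) ^ 2 * Real.exp (-V x)) -
        (∫ x, χ x * g x * Real.exp (-V x)) ^ 2 / ∫ x, Real.exp (-V x) ≤
      1 / κ * ∫ x, gs χ x * g x ^ 2 * Real.exp (-V x) := by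
  obtain ⟨ρ, hρ⟩ := exists_AI (ι := ι)
  have hVc : Continuous V := H.c2.continuous
  have hVm : Measurable V := hVc.measurable
  have hWc : Continuous (W0 V) := W0_cont H
  have hexp : ∀ x, Real.exp (-V x / 2) * Real.exp (-V x / 2) = Real.exp (-V x) := fun x => by
    rw [← Real.exp_add]
    congr 1
    ring
  have hexp2 : ∀ x, Real.exp (V x / 2) * Real.exp (V x / 2) * Real.exp (-V x) = 1 := fun x => by
    rw [← Real.exp_add, ← Real.exp_add, ← Real.exp_zero]
    congr 1
    ring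
  have hexp3 : ∀ x, Real.exp (V x / 2) * Real.exp (-V x) = Real.exp (-V x / 2) := fun x => by
    rw [← Real.exp_add]
    congr 1
    ring
  obtain ⟨G, hG⟩ : ∃ G : (ι → ℝ) → ℝ, G = fun x => g x * Real.exp (-V x / 2) := ⟨_, rfl⟩
  have hGm : Measurable G := by
    rw [hG]
    exact hg.mul (Real.measurable_exp.comp ((hVm.neg).div_const 2))
  have hG2 : ∀ x, G x ^ 2 = g x ^ 2 * Real.exp (-V x) := fun x => by
    rw [hG, ← hexp x]
    ring
  have hGi : Integrable fun x => G x ^ 2 := by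
    simp only [hG2]
    exact hi
  have hGl2 : LocallyIntegrable fun x => G x ^ 2 := hGi.locallyIntegrable
  have hGl : LocallyIntegrable G :=
    ((memLp_two_iff_integrable_sq hGm.aestronglyMeasurable).2 hGi).locallyIntegrable (by norm_num)
  obtain ⟨F, hF⟩ : ∃ F : (ι → ℝ) → ℝ, F = fun x => W0 V x * G x := ⟨_, rfl⟩
  have hFm : Measurable F := by
    rw [hF]
    exact hWc.measurable.mul hGm
  have hFl : LocallyIntegrable F := by
    rw [hF]
    exact hGl.continuous_mul hWc
  have hFl2 : LocallyIntegrable fun x => F x ^ 2 := by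
    have h1 : (fun x => F x ^ 2) = fun x => W0 V x ^ 2 * G x ^ 2 := by
      rw [hF]
      funext x
      ring
    rw [h1]
    exact hGl2.continuous_mul (hWc.pow 2)
  -- mollifications
  obtain ⟨u, hu⟩ : ∃ u : ℕ → (ι → ℝ) → ℝ, u = fun k => mol (ρ k) G := ⟨_, rfl⟩
  obtain ⟨v, hv⟩ : ∃ v : ℕ → (ι → ℝ) → ℝ, v = fun k => mol (ρ k) F := ⟨_, rfl⟩
  have hρc : ∀ k, HasCompactSupport (ρ k) := fun k => by
    refine HasCompactSupport.intro (isCompact_closedBall (0 : ι → ℝ) (1 / ((k : ℝ) + 1)))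
      fun x hx => hρ.supp k x ?_
    rw [Metric.mem_closedBall, dist_zero_right, not_le] at hx
    exact hx
  have hus : ∀ k, ContDiff ℝ ∞ (u k) := fun k => by
    rw [hu]
    exact (mol_smooth (hρ.smooth k) (hρc k) hGl).1
  have hvs : ∀ k, ContDiff ℝ ∞ (v k) := fun k => by
    rw [hv]
    exact (mol_smooth (hρ.smooth k) (hρc k) hFl).1
  have hlap : ∀ k x, ∑ i, pd i (pd i (u k)) x = v k x := by
    intro k x
    have hψ : ContDiff ℝ 2 (fun y => ρ k (x - y)) := by
      have : ContDiff ℝ ∞ (fun y => ρ k (x - y)) :=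
        (hρ.smooth k).comp (contDiff_const.sub contDiff_id)
      exact this.of_le (by norm_cast)
    have hψc : HasCompactSupport (fun y => ρ k (x - y)) := by
      have := (hρc k).comp_homeomorph (Homeomorph.subLeft x)
      exact this
    have h1 := orth_schr H hg hi ho hψ hψc
    have hpdc : ∀ i, Continuous (pd i (pd i (ρ k))) ∧ HasCompactSupport (pd i (pd i (ρ k))) := by
      intro i
      have := ((⟨hρ.smooth k, hρc k⟩ : Cc (ρ k)).pdc i).pdc i
      exact ⟨this.smooth.continuous, this.supp⟩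
    have i1 : Integrable fun y => ρ k (x - y) * F y := by
      have := hFl.integrable_smul_left_of_hasCompactSupport (hψ.continuous) hψc
      exact this
    have i2 : ∀ i, Integrable fun y => pd i (pd i (ρ k)) (x - y) * G y := by
      intro i
      have hc : HasCompactSupport (fun y => pd i (pd i (ρ k)) (x - y)) :=
        (hpdc i).2.comp_homeomorph (Homeomorph.subLeft x)
      have := hGl.integrable_smul_left_of_hasCompactSupport
        ((hpdc i).1.comp (continuous_const.sub continuous_id)) hc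
      exact this
    have h2 : ∀ y, (g y * Real.exp (-V y / 2)) *
        (W0 V y * ρ k (x - y) - ∑ i, pd i (pd i (fun z => ρ k (x - z))) y) =
        ρ k (x - y) * F y - ∑ i, pd i (pd i (ρ k)) (x - y) * G y := by
      intro y
      have h3 : ∀ i, pd i (pd i (fun z => ρ k (x - z))) y = pd i (pd i (ρ k)) (x - y) :=
        fun i => KC3_kernel2 (hρ.smooth k) x i y
      simp only [h3]
      rw [hF, hG, ← Finset.sum_mul]
      ring
    rw [integral_congr_ae (Eventually.of_forall h2),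
      integral_sub i1 (integrable_finsetSum _ fun i _ => i2 i),
      integral_finsetSum _ fun i _ => i2 i, sub_eq_zero] at h1
    have h4 : ∀ i, pd i (pd i (u k)) x = ∫ y, pd i (pd i (ρ k)) (x - y) * G y := fun i => by
      rw [hu]
      exact (mol_smooth (hρ.smooth k) (hρc k) hGl).2.2 i x
    simp only [h4]
    rw [← h1, hv]
    rfl
  have hχc : Continuous χ := hχ.smooth.continuous
  have huc : ∀ k, Continuous (u k) := fun k => (hus k).continuous
  have hvc : ∀ k, Continuous (v k) := fun k => (hvs k).continuous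
  -- the inequality for each `k`
  have hineq : ∀ k, (∫ x, (χ x * u k x) * (χ x * u k x)) -
      (∫ x, (χ x * u k x) * Real.exp (-V x / 2)) ^ 2 / ∫ x, Real.exp (-V x) ≤
      1 / κ * ((∑ i, ∫ x, (pd i χ x * u k x) * (pd i χ x * u k x)) -
        (∫ x, (χ x * u k x) * (χ x * v k x)) +
        ∫ x, (χ x * u k x) * ((W0 V x * χ x) * u k x)) := by
    intro k
    have hw : ContDiff ℝ 2 (fun x => χ x * u k x) :=
      (hχ.smooth.mul (hus k)).of_le (by norm_cast)
    have hwc : HasCompactSupport (fun x => χ x * u k x) := hχ.supp.mul_right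
    have hf : ContDiff ℝ 1 (fun z => χ z * u k z * Real.exp (V z / 2)) :=
      (hw.mul (H.c2.div_const 2).exp).of_le (by norm_num)
    have hfc : HasCompactSupport (fun z => χ z * u k z * Real.exp (V z / 2)) := hwc.mul_right
    have h1 := H.pi_int hf hfc
    have e1 : ∀ x, (χ x * u k x * Real.exp (V x / 2)) ^ 2 * Real.exp (-V x) =
        (χ x * u k x) * (χ x * u k x) := fun x => by
      have := hexp2 x
      calc _ = (χ x * u k x) * (χ x * u k x) *
            (Real.exp (V x / 2) * Real.exp (V x / 2) * Real.exp (-V x)) := by ring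
        _ = _ := by rw [this, mul_one]
    have e2 : ∀ x, χ x * u k x * Real.exp (V x / 2) * Real.exp (-V x) =
        (χ x * u k x) * Real.exp (-V x / 2) := fun x => by
      rw [mul_assoc, hexp3]
    rw [integral_congr_ae (Eventually.of_forall e1), integral_congr_ae (Eventually.of_forall e2),
      ← ground_energy H hw hwc, cutoff_energy hχ ((hus k).of_le (by norm_cast))] at h1
    have e3 : ∫ x, gs χ x * u k x ^ 2 = ∑ i, ∫ x, (pd i χ x * u k x) * (pd i χ x * u k x) := by
      have e4 : ∀ x, gs χ x * u k x ^ 2 = ∑ i, (pd i χ x * u k x) * (pd i χ x * u k x) :=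
        fun x => by
        unfold gs
        rw [Finset.sum_mul]
        refine Finset.sum_congr rfl fun i _ => ?_
        ring
      rw [integral_congr_ae (Eventually.of_forall e4), integral_finsetSum]
      intro i _
      have hc := hχ.pdc i
      exact ((hc.smooth.continuous.mul (huc k)).mul (hc.smooth.continuous.mul
        (huc k))).integrable_of_hasCompactSupport (hc.supp.mul_right).mul_right
    have e5 : ∫ x, χ x ^ 2 * u k x * ∑ i, pd i (pd i (u k)) x =
        ∫ x, (χ x * u k x) * (χ x * v k x) := by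
      refine integral_congr_ae (Eventually.of_forall fun x => ?_)
      simp only [hlap]
      ring
    have e6 : ∫ x, W0 V x * (χ x * u k x) ^ 2 =
        ∫ x, (χ x * u k x) * ((W0 V x * χ x) * u k x) := by
      refine integral_congr_ae (Eventually.of_forall fun x => ?_)
      simp only
      ring
    rw [e3, e5, e6] at h1
    exact h1
  -- limits
  have hbd : ∀ a : (ι → ℝ) → ℝ, Continuous a → HasCompactSupport a → ∃ B, ∀ x, |a x| ≤ B :=
    fun a ha hc => by
    obtain ⟨B, hB⟩ := ha.bounded_above_of_compact_support hc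
    exact ⟨B, fun x => by rw [← Real.norm_eq_abs]; exact hB x⟩
  have cu : ∀ a : (ι → ℝ) → ℝ, Continuous a → HasCompactSupport a →
      Tendsto (fun k => ∫ x, (a x * u k x - a x * G x) ^ 2) atTop (𝓝 0) := by
    intro a ha hc
    have h1 := mol_L2_loc hρ hGm hGl2 ha.measurable (hbd a ha hc) hc
    refine h1.congr fun k => ?_
    refine integral_congr_ae (Eventually.of_forall fun x => ?_)
    simp only [hu]
    ring
  have cv : ∀ a : (ι → ℝ) → ℝ, Continuous a → HasCompactSupport a →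
      Tendsto (fun k => ∫ x, (a x * v k x - a x * F x) ^ 2) atTop (𝓝 0) := by
    intro a ha hc
    have h1 := mol_L2_loc hρ hFm hFl2 ha.measurable (hbd a ha hc) hc
    refine h1.congr fun k => ?_
    refine integral_congr_ae (Eventually.of_forall fun x => ?_)
    simp only [hv]
    ring
  have iu : ∀ a : (ι → ℝ) → ℝ, Continuous a → HasCompactSupport a →
      ∀ k, Integrable fun x => (a x * u k x) ^ 2 := fun a ha hc k =>
    KC3_compact (ha.mul (huc k)) hc.mul_right
  have iv : ∀ a : (ι → ℝ) → ℝ, Continuous a → HasCompactSupport a →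
      ∀ k, Integrable fun x => (a x * v k x) ^ 2 := fun a ha hc k =>
    KC3_compact (ha.mul (hvc k)) hc.mul_right
  have hsqc : ∀ a : (ι → ℝ) → ℝ, HasCompactSupport a → HasCompactSupport fun x => a x ^ 2 :=
    fun a hc => by
    have h : (fun x => a x ^ 2) = fun x => a x * a x := by
      funext x
      ring
    rw [h]
    exact hc.mul_right
  have iG : ∀ a : (ι → ℝ) → ℝ, Continuous a → HasCompactSupport a →
      Integrable fun x => (a x * G x) ^ 2 := fun a ha hc => by
    have h := hGl2.integrable_smul_left_of_hasCompactSupport (ha.pow 2) (hsqc a hc)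
    refine h.congr (Eventually.of_forall fun x => ?_)
    simp only [smul_eq_mul, Pi.pow_apply]
    ring
  have iF : ∀ a : (ι → ℝ) → ℝ, Continuous a → HasCompactSupport a →
      Integrable fun x => (a x * F x) ^ 2 := fun a ha hc => by
    have h := hFl2.integrable_smul_left_of_hasCompactSupport (ha.pow 2) (hsqc a hc)
    refine h.congr (Eventually.of_forall fun x => ?_)
    simp only [smul_eq_mul, Pi.pow_apply]
    ring
  have mu : ∀ a : (ι → ℝ) → ℝ, Continuous a → ∀ k,
      AEStronglyMeasurable (fun x => a x * u k x) volume := fun a ha k =>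
    (ha.mul (huc k)).aestronglyMeasurable
  have mv : ∀ a : (ι → ℝ) → ℝ, Continuous a → ∀ k,
      AEStronglyMeasurable (fun x => a x * v k x) volume := fun a ha k =>
    (ha.mul (hvc k)).aestronglyMeasurable
  have mG : ∀ a : (ι → ℝ) → ℝ, Continuous a →
      AEStronglyMeasurable (fun x => a x * G x) volume := fun a ha =>
    (ha.measurable.mul hGm).aestronglyMeasurable
  have mF : ∀ a : (ι → ℝ) → ℝ, Continuous a →
      AEStronglyMeasurable (fun x => a x * F x) volume := fun a ha =>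
    (ha.measurable.mul hFm).aestronglyMeasurable
  have hWχ : Continuous fun x => W0 V x * χ x := hWc.mul hχc
  have hWχc : HasCompactSupport fun x => W0 V x * χ x := hχ.supp.mul_left
  have l1 := KC3_lim (mu χ hχc) (mu χ hχc) (mG χ hχc) (mG χ hχc) (iu χ hχc hχ.supp)
    (iu χ hχc hχ.supp) (iG χ hχc hχ.supp) (iG χ hχc hχ.supp) (cu χ hχc hχ.supp)
    (cu χ hχc hχ.supp)
  have hem : Continuous fun x => Real.exp (-V x / 2) :=
    Real.continuous_exp.comp (hVc.neg.div_const 2)
  have hei : Integrable fun x => Real.exp (-V x / 2) ^ 2 := by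
    refine H.intexp.congr (Eventually.of_forall fun x => ?_)
    show Real.exp (-V x) = Real.exp (-V x / 2) ^ 2
    rw [pow_two, hexp]
  have l2 := KC3_lim (v := fun _ x => Real.exp (-V x / 2)) (v0 := fun x => Real.exp (-V x / 2))
    (mu χ hχc) (fun _ => hem.aestronglyMeasurable) (mG χ hχc) hem.aestronglyMeasurable
    (iu χ hχc hχ.supp) (fun _ => hei) (iG χ hχc hχ.supp) hei (cu χ hχc hχ.supp)
    (by simp)
  have l3 : Tendsto (fun k => ∑ i, ∫ x, (pd i χ x * u k x) * (pd i χ x * u k x)) atTop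
      (𝓝 (∑ i, ∫ x, (pd i χ x * G x) * (pd i χ x * G x))) := by
    refine tendsto_finsetSum _ fun i _ => ?_
    have hc := hχ.pdc i
    have hcc := hc.smooth.continuous
    exact KC3_lim (mu _ hcc) (mu _ hcc) (mG _ hcc) (mG _ hcc) (iu _ hcc hc.supp)
      (iu _ hcc hc.supp) (iG _ hcc hc.supp) (iG _ hcc hc.supp) (cu _ hcc hc.supp)
      (cu _ hcc hc.supp)
  have l4 := KC3_lim (mu χ hχc) (mv χ hχc) (mG χ hχc) (mF χ hχc) (iu χ hχc hχ.supp)
    (iv χ hχc hχ.supp) (iG χ hχc hχ.supp) (iF χ hχc hχ.supp) (cu χ hχc hχ.supp)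
    (cv χ hχc hχ.supp)
  have l5 := KC3_lim (mu χ hχc) (mu _ hWχ) (mG χ hχc) (mG _ hWχ) (iu χ hχc hχ.supp)
    (iu _ hWχ hWχc) (iG χ hχc hχ.supp) (iG _ hWχ hWχc) (cu χ hχc hχ.supp)
    (cu _ hWχ hWχc)
  have hlim := le_of_tendsto_of_tendsto' (l1.sub ((l2.pow 2).div_const (∫ x, Real.exp (-V x))))
    (((l3.sub l4).add l5).const_mul (1 / κ)) hineq
  have f1 : ∫ x, (χ x * G x) * (χ x * G x) = ∫ x, (χ x * g x) ^ 2 * Real.exp (-V x) := by
    refine integral_congr_ae (Eventually.of_forall fun x => ?_)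
    show χ x * G x * (χ x * G x) = (χ x * g x) ^ 2 * Real.exp (-V x)
    calc _ = χ x ^ 2 * G x ^ 2 := by ring
      _ = _ := by rw [hG2]; ring
  have f2 : ∫ x, (χ x * G x) * Real.exp (-V x / 2) = ∫ x, χ x * g x * Real.exp (-V x) := by
    refine integral_congr_ae (Eventually.of_forall fun x => ?_)
    simp only [hG]
    rw [← hexp x]
    ring
  have f3 : ∑ i, ∫ x, (pd i χ x * G x) * (pd i χ x * G x) =
      ∫ x, gs χ x * g x ^ 2 * Real.exp (-V x) := by
    rw [← integral_finsetSum]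
    · refine integral_congr_ae (Eventually.of_forall fun x => ?_)
      show ∑ i, pd i χ x * G x * (pd i χ x * G x) = gs χ x * g x ^ 2 * Real.exp (-V x)
      unfold gs
      rw [mul_assoc, ← hG2, Finset.sum_mul]
      refine Finset.sum_congr rfl fun i _ => ?_
      ring
    · intro i _
      have hc := hχ.pdc i
      have hcc := hc.smooth.continuous
      exact KC3_int_mul (mG _ hcc) (mG _ hcc) (iG _ hcc hc.supp) (iG _ hcc hc.supp)
  have f4 : ∫ x, (χ x * G x) * (χ x * F x) = ∫ x, (χ x * G x) * ((W0 V x * χ x) * G x) := by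
    refine integral_congr_ae (Eventually.of_forall fun x => ?_)
    simp only [hF]
    ring
  rw [f1, f2, f3, f4, sub_add_cancel] at hlim
  exact hlim

private theorem KC3_sq (x : ι → ℝ) : ∃ n : ℕ, ∀ k, n ≤ k → sq x ≤ ((k : ℝ) + 1) ^ 2 := by
  obtain ⟨n, hn⟩ := exists_nat_ge (√(sq x))
  refine ⟨n, fun k hk => ?_⟩
  have h1 : √(sq x) ≤ (k : ℝ) + 1 := by
    have : (n : ℝ) ≤ k := by exact_mod_cast hk
    linarith
  calc sq x = √(sq x) ^ 2 := (Real.sq_sqrt (sq_nn x)).symm
    _ ≤ _ := pow_le_pow_left₀ (Real.sqrt_nonneg _) h1 2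

/-- `cut_var` for `exists_cut`, `k → ∞`: the variance of `g` is zero; if also `∫ g e^{-V} = 0`, then
`∫ g² e^{-V} = 0`. -/
theorem orth_zero (H : Nice κ M V) {g : (ι → ℝ) → ℝ} (hg : Measurable g)
    (hi : Integrable fun x => g x ^ 2 * Real.exp (-V x))
    (ho : ∀ φ, Cc φ → ∫ x, g x * LL V φ x * Real.exp (-V x) = 0)
    (h0 : ∫ x, g x * Real.exp (-V x) = 0) : ∫ x, g x ^ 2 * Real.exp (-V x) = 0 := by
  obtain ⟨C, χ, hχ, hb, h1, hgs, -⟩ := exists_cut (ι := ι)
  have hVc : Continuous V := H.c2.continuous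
  have hem : Measurable fun x => Real.exp (-V x) :=
    (Real.continuous_exp.comp hVc.neg).measurable
  have hi1 : Integrable fun x => g x * Real.exp (-V x) := by
    have e1 : ∀ x, g x * Real.exp (-V x) =
        (g x * Real.exp (-V x / 2)) * Real.exp (-V x / 2) := fun x => by
      rw [mul_assoc, ← Real.exp_add]
      congr 2
      ring
    have e2 : ∀ x, Real.exp (-V x) = Real.exp (-V x / 2) ^ 2 := fun x => by
      rw [pow_two, ← Real.exp_add]
      congr 1
      ring
    have hm : Measurable fun x => Real.exp (-V x / 2) :=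
      (Real.continuous_exp.comp (hVc.neg.div_const 2)).measurable
    simp only [e1]
    refine KC3_int_mul (hg.mul hm).aestronglyMeasurable hm.aestronglyMeasurable ?_ ?_
    · refine hi.congr (Eventually.of_forall fun x => ?_)
      show g x ^ 2 * Real.exp (-V x) = (g x * Real.exp (-V x / 2)) ^ 2
      rw [e2]
      ring
    · refine H.intexp.congr (Eventually.of_forall fun x => ?_)
      exact e2 x
  have hpt : ∀ x, ∀ᶠ k in atTop, χ k x = 1 := by
    intro x
    obtain ⟨n, hn⟩ := KC3_sq x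
    filter_upwards [eventually_ge_atTop n] with k hk
    exact h1 k x (hn k hk)
  have l1 : Tendsto (fun k => ∫ x, (χ k x * g x) ^ 2 * Real.exp (-V x)) atTop
      (𝓝 (∫ x, g x ^ 2 * Real.exp (-V x))) := by
    refine tendsto_integral_of_dominated_convergence (fun x => g x ^ 2 * Real.exp (-V x))
      (fun k => ?_) hi (fun k => Eventually.of_forall fun x => ?_)
      (Eventually.of_forall fun x => ?_)
    · exact ((((hχ k).smooth.continuous.measurable.mul hg).pow_const 2).mul
        hem).aestronglyMeasurable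
    · rw [Real.norm_eq_abs, abs_of_nonneg (by positivity), mul_pow]
      have h2 : χ k x ^ 2 ≤ 1 := pow_le_one₀ (hb k x).1 (hb k x).2
      have h3 : 0 ≤ g x ^ 2 * Real.exp (-V x) := by positivity
      nlinarith
    · refine tendsto_const_nhds.congr' ?_
      filter_upwards [hpt x] with k hk
      rw [hk, one_mul]
  have l2 : Tendsto (fun k => ∫ x, χ k x * g x * Real.exp (-V x)) atTop
      (𝓝 (∫ x, g x * Real.exp (-V x))) := by
    refine tendsto_integral_of_dominated_convergence (fun x => ‖g x * Real.exp (-V x)‖)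
      (fun k => ?_) hi1.norm (fun k => Eventually.of_forall fun x => ?_)
      (Eventually.of_forall fun x => ?_)
    · exact (((hχ k).smooth.continuous.measurable.mul hg).mul hem).aestronglyMeasurable
    · rw [mul_assoc, norm_mul]
      have h2 : ‖χ k x‖ ≤ 1 := by
        rw [Real.norm_eq_abs, abs_of_nonneg (hb k x).1]
        exact (hb k x).2
      exact mul_le_of_le_one_left (norm_nonneg _) h2
    · refine tendsto_const_nhds.congr' ?_
      filter_upwards [hpt x] with k hk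
      rw [hk, one_mul]
  have l3 : Tendsto (fun k : ℕ => 1 / κ * (C / ((k : ℝ) + 1) ^ 2 *
      ∫ x, g x ^ 2 * Real.exp (-V x))) atTop (𝓝 0) := by
    have h2 : Tendsto (fun k : ℕ => C / ((k : ℝ) + 1) ^ 2) atTop (𝓝 0) := by
      have h3 := ((tendsto_one_div_add_atTop_nhds_zero_nat (𝕜 := ℝ)).pow 2).const_mul C
      simp only [ne_eq, OfNat.ofNat_ne_zero, not_false_eq_true, zero_pow, mul_zero] at h3
      refine h3.congr fun k => ?_
      rw [div_pow, one_pow, mul_one_div]
    have h4 := (h2.mul_const (∫ x, g x ^ 2 * Real.exp (-V x))).const_mul (1 / κ)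
    rwa [zero_mul, mul_zero] at h4
  have hk : ∀ k : ℕ, (∫ x, (χ k x * g x) ^ 2 * Real.exp (-V x)) -
      (∫ x, χ k x * g x * Real.exp (-V x)) ^ 2 / ∫ x, Real.exp (-V x) ≤
      1 / κ * (C / ((k : ℝ) + 1) ^ 2 * ∫ x, g x ^ 2 * Real.exp (-V x)) := by
    intro k
    refine (cut_var H hg hi ho (hχ k)).trans ?_
    have hκ := H.kpos
    refine mul_le_mul_of_nonneg_left ?_ (by positivity)
    rw [← integral_const_mul]
    refine integral_mono_of_nonneg (Eventually.of_forall fun x => ?_) (hi.const_mul _)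
      (Eventually.of_forall fun x => ?_)
    · have : 0 ≤ gs (χ k) x := Finset.sum_nonneg fun _ _ => sq_nonneg _
      positivity
    · show gs (χ k) x * g x ^ 2 * Real.exp (-V x) ≤ _
      rw [mul_assoc]
      exact mul_le_mul_of_nonneg_right (hgs k x) (by positivity)
  have hlim := le_of_tendsto_of_tendsto' (l1.sub ((l2.pow 2).div_const
    (∫ x, Real.exp (-V x)))) l3 hk
  rw [h0] at hlim
  have h5 : (0 : ℝ) ^ 2 / (∫ x, Real.exp (-V x)) = 0 := by simp
  rw [h5, sub_zero] at hlim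
  exact le_antisymm hlim (integral_nonneg fun x => by positivity)

private theorem KC3_LL_add {φ ψ : (ι → ℝ) → ℝ} (hφ : Cc φ) (hψ : Cc ψ) (x : ι → ℝ) :
    LL V (fun z => φ z + ψ z) x = LL V φ x + LL V ψ x := by
  have dφ : Differentiable ℝ φ := hφ.smooth.differentiable (by norm_cast)
  have dψ : Differentiable ℝ ψ := hψ.smooth.differentiable (by norm_cast)
  have h1 : ∀ i, pd i (fun z => φ z + ψ z) = fun z => pd i φ z + pd i ψ z := fun i =>
    funext fun z => pd_add dφ dψ i z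
  unfold LL
  rw [← Finset.sum_add_distrib]
  refine Finset.sum_congr rfl fun i _ => ?_
  rw [h1, pd_add ((hφ.pdc i).smooth.differentiable (by norm_cast))
    ((hψ.pdc i).smooth.differentiable (by norm_cast))]
  ring

private theorem KC3_LL_cmul {φ : (ι → ℝ) → ℝ} (hφ : Cc φ) (c : ℝ) (x : ι → ℝ) :
    LL V (fun z => c * φ z) x = c * LL V φ x := by
  have dφ : Differentiable ℝ φ := hφ.smooth.differentiable (by norm_cast)
  have h1 : ∀ i, pd i (fun z => c * φ z) = fun z => c * pd i φ z := fun i =>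
    funext fun z => pd_cmul dφ c i z
  unfold LL
  rw [Finset.mul_sum]
  refine Finset.sum_congr rfl fun i _ => ?_
  rw [h1, pd_cmul ((hφ.pdc i).smooth.differentiable (by norm_cast))]
  ring

private theorem KC3_cc_add {φ ψ : (ι → ℝ) → ℝ} (hφ : Cc φ) (hψ : Cc ψ) :
    Cc (fun z => φ z + ψ z) :=
  ⟨hφ.smooth.add hψ.smooth, hφ.supp.add hψ.supp⟩

private theorem KC3_cc_cmul {φ : (ι → ℝ) → ℝ} (hφ : Cc φ) (c : ℝ) : Cc (fun z => c * φ z) :=
  ⟨contDiff_const.mul hφ.smooth, hφ.supp.mul_left⟩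

private theorem KC3_cc_zero : Cc (fun _ : ι → ℝ => (0 : ℝ)) :=
  ⟨contDiff_const, HasCompactSupport.intro isCompact_empty fun _ _ => rfl⟩

private noncomputable def KC3_mu (V : (ι → ℝ) → ℝ) : Measure (ι → ℝ) :=
  volume.withDensity fun x => ENNReal.ofReal (Real.exp (-V x))

private theorem KC3_integral (hV : Continuous V) (f : (ι → ℝ) → ℝ) :
    ∫ x, f x ∂(KC3_mu V) = ∫ x, f x * Real.exp (-V x) := by
  have hm : Measurable fun x => ENNReal.ofReal (Real.exp (-V x)) :=
    (Real.continuous_exp.comp hV.neg).measurable.ennreal_ofReal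
  unfold KC3_mu
  rw [integral_withDensity_eq_integral_toReal_smul hm
    (Eventually.of_forall fun x => ENNReal.ofReal_lt_top)]
  refine integral_congr_ae (Eventually.of_forall fun x => ?_)
  show (ENNReal.ofReal (Real.exp (-V x))).toReal • f x = f x * Real.exp (-V x)
  rw [ENNReal.toReal_ofReal (Real.exp_pos _).le, smul_eq_mul, mul_comm]

private theorem KC3_integrable (hV : Continuous V) (f : (ι → ℝ) → ℝ) :
    Integrable f (KC3_mu V) ↔ Integrable fun x => f x * Real.exp (-V x) := by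
  have hm : Measurable fun x => ENNReal.ofReal (Real.exp (-V x)) :=
    (Real.continuous_exp.comp hV.neg).measurable.ennreal_ofReal
  unfold KC3_mu
  rw [integrable_withDensity_iff_integrable_smul' hm
    (Eventually.of_forall fun x => ENNReal.ofReal_lt_top)]
  refine integrable_congr (Eventually.of_forall fun x => ?_)
  show (ENNReal.ofReal (Real.exp (-V x))).toReal • f x = f x * Real.exp (-V x)
  rw [ENNReal.toReal_ofReal (Real.exp_pos _).le, smul_eq_mul, mul_comm]

private noncomputable def KC3_K (V : (ι → ℝ) → ℝ) : Submodule ℝ (Lp ℝ 2 (KC3_mu V)) where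
  carrier := {f | ∃ φ c, Cc φ ∧ (f : (ι → ℝ) → ℝ) =ᵐ[KC3_mu V] fun x => LL V φ x + c}
  add_mem' := by
    rintro f1 f2 ⟨φ1, c1, hφ1, h1⟩ ⟨φ2, c2, hφ2, h2⟩
    refine ⟨fun z => φ1 z + φ2 z, c1 + c2, KC3_cc_add hφ1 hφ2, ?_⟩
    filter_upwards [h1, h2, Lp.coeFn_add f1 f2] with x e1 e2 e3
    rw [e3, Pi.add_apply, e1, e2, KC3_LL_add hφ1 hφ2]
    ring
  zero_mem' := by
    refine ⟨fun _ => 0, 0, KC3_cc_zero, ?_⟩
    filter_upwards [Lp.coeFn_zero ℝ 2 (KC3_mu V)] with x e1
    rw [e1]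
    have h1 : LL V (fun _ : ι → ℝ => (0 : ℝ)) x = 0 := by
      have h2 := KC3_LL_cmul (V := V) KC3_cc_zero 0 x
      simpa using h2
    rw [h1]
    simp
  smul_mem' := by
    rintro c f ⟨φ, d, hφ, h⟩
    refine ⟨fun z => c * φ z, c * d, KC3_cc_cmul hφ c, ?_⟩
    filter_upwards [h, Lp.coeFn_smul c f] with x e1 e2
    rw [e2, Pi.smul_apply, e1, KC3_LL_cmul hφ, smul_eq_mul]
    ring

private theorem KC3_memLp (H : Nice κ M V) {f : (ι → ℝ) → ℝ} (hf : Measurable f)
    (hi : Integrable fun x => f x ^ 2 * Real.exp (-V x)) : MemLp f 2 (KC3_mu V) :=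
  (memLp_two_iff_integrable_sq hf.aestronglyMeasurable).2
    ((KC3_integrable H.c2.continuous _).2 hi)

private theorem KC3_dense (H : Nice κ M V) : (KC3_K V).topologicalClosure = ⊤ := by
  rw [Submodule.topologicalClosure_eq_top_iff, Submodule.eq_bot_iff]
  intro q hq
  rw [Submodule.mem_orthogonal] at hq
  have hVc : Continuous V := H.c2.continuous
  have hqm : Measurable (q : (ι → ℝ) → ℝ) := (Lp.stronglyMeasurable q).measurable
  have hqi : Integrable fun x => (q : (ι → ℝ) → ℝ) x ^ 2 * Real.exp (-V x) :=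
    (KC3_integrable hVc _).1
      ((memLp_two_iff_integrable_sq (Lp.stronglyMeasurable q).aestronglyMeasurable).1
        (Lp.memLp q))
  have key : ∀ φ c, Cc φ → ∫ x, (LL V φ x + c) * (q : (ι → ℝ) → ℝ) x * Real.exp (-V x) = 0 := by
    intro φ c hφ
    have ht : T0 fun x => LL V φ x + c := (H.LLt0 hφ).add (T0.const c)
    have hm : MemLp (fun x => LL V φ x + c) 2 (KC3_mu V) :=
      KC3_memLp H ht.meas (H.int (ht.pow 2))
    have h1 := hq (hm.toLp _) ⟨φ, c, hφ, hm.coeFn_toLp⟩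
    rw [L2.inner_def] at h1
    have h2 : ∫ x, (LL V φ x + c) * (q : (ι → ℝ) → ℝ) x ∂(KC3_mu V) = 0 := by
      rw [← h1]
      refine integral_congr_ae ?_
      filter_upwards [hm.coeFn_toLp] with x e1
      rw [e1]
      simp [mul_comm]
    rw [KC3_integral hVc] at h2
    exact h2
  have h1 := orth_zero H hqm hqi (fun φ hφ => by
    have := key φ 0 hφ
    rw [← this]
    refine integral_congr_ae (Eventually.of_forall fun x => ?_)
    show _ = _
    ring) (by
    have := key (fun _ => 0) 1 KC3_cc_zero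
    rw [← this]
    refine integral_congr_ae (Eventually.of_forall fun x => ?_)
    have h2 : LL V (fun _ : ι → ℝ => (0 : ℝ)) x = 0 := by
      have h2 := KC3_LL_cmul (V := V) KC3_cc_zero 0 x
      simpa using h2
    show (q : (ι → ℝ) → ℝ) x * Real.exp (-V x) =
      (LL V (fun _ : ι → ℝ => (0 : ℝ)) x + 1) * (q : (ι → ℝ) → ℝ) x * Real.exp (-V x)
    rw [h2]
    ring)
  rw [← KC3_integral hVc] at h1
  have h3 : inner ℝ q q = 0 := by
    rw [L2.inner_def, ← h1]
    refine integral_congr_ae (Eventually.of_forall fun x => ?_)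
    simp [pow_two]
  exact inner_self_eq_zero.1 h3

/-- The functions `L φ + c` are dense in `L²(e^{-V})` (`orth_zero` and projection onto the closure of
this subspace in `Lp ℝ 2 (volume.withDensity e^{-V})`). -/
theorem poisson_density (H : Nice κ M V) {h : (ι → ℝ) → ℝ} (hm : Measurable h)
    (hi : Integrable fun x => h x ^ 2 * Real.exp (-V x)) (h0 : ∫ x, h x * Real.exp (-V x) = 0)
    {ε : ℝ} (hε : 0 < ε) :
    ∃ φ, Cc φ ∧ ∫ x, (LL V φ x - h x) ^ 2 * Real.exp (-V x) ≤ ε := by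
  have hVc : Continuous V := H.c2.continuous
  have hml : MemLp h 2 (KC3_mu V) := KC3_memLp H hm hi
  have h1 : hml.toLp h ∈ closure ((KC3_K V : Submodule ℝ (Lp ℝ 2 (KC3_mu V))) :
      Set (Lp ℝ 2 (KC3_mu V))) := by
    have h2 : hml.toLp h ∈ (KC3_K V).topologicalClosure := by
      rw [KC3_dense H]
      exact Submodule.mem_top
    exact h2
  obtain ⟨f, ⟨φ, c, hφ, hf⟩, hd⟩ := Metric.mem_closure_iff.1 h1 (√ε) (Real.sqrt_pos.2 hε)
  have ht : T0 fun x => LL V φ x + c := (H.LLt0 hφ).add (T0.const c)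
  have hsq : ∫ x, (LL V φ x + c - h x) ^ 2 * Real.exp (-V x) ≤ ε := by
    have h3 : ‖f - hml.toLp h‖ ^ 2 ≤ ε := by
      rw [dist_comm, dist_eq_norm] at hd
      calc ‖f - hml.toLp h‖ ^ 2 ≤ √ε ^ 2 := pow_le_pow_left₀ (norm_nonneg _) hd.le 2
        _ = ε := Real.sq_sqrt hε.le
    rw [← real_inner_self_eq_norm_sq, L2.inner_def] at h3
    rw [← KC3_integral hVc]
    refine le_of_eq_of_le ?_ h3
    refine integral_congr_ae ?_
    filter_upwards [hf, hml.coeFn_toLp, Lp.coeFn_sub f (hml.toLp h)] with x e1 e2 e3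
    rw [e3, Pi.sub_apply, e1, e2]
    simp [pow_two]
  refine ⟨φ, hφ, ?_⟩
  have hLm : Measurable (LL V φ) := (H.LLt0 hφ).meas
  have i1 : Integrable fun x => LL V φ x * Real.exp (-V x) := H.int (H.LLt0 hφ)
  have z1 : ∫ x, LL V φ x * Real.exp (-V x) = 0 := by
    have h4 := ex_LL H hφ
    unfold ex at h4
    rcases div_eq_zero_iff.1 h4 with h5 | h5
    · exact h5
    · exact absurd h5 H.zpos.ne'
  have mE : AEStronglyMeasurable (fun x => Real.exp (-V x / 2)) volume :=
    (Real.continuous_exp.comp (hVc.neg.div_const 2)).aestronglyMeasurable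
  have hexp : ∀ x, Real.exp (-V x) = Real.exp (-V x / 2) ^ 2 := fun x => by
    rw [pow_two, ← Real.exp_add]
    congr 1
    ring
  have i2 : Integrable fun x => h x * Real.exp (-V x) := by
    have e1 : ∀ x, h x * Real.exp (-V x) =
        (h x * Real.exp (-V x / 2)) * Real.exp (-V x / 2) := fun x => by
      rw [hexp]
      ring
    simp only [e1]
    refine KC3_int_mul (hm.aestronglyMeasurable.mul mE) mE ?_ ?_
    · refine hi.congr (Eventually.of_forall fun x => ?_)
      show h x ^ 2 * Real.exp (-V x) = (h x * Real.exp (-V x / 2)) ^ 2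
      rw [hexp]
      ring
    · refine H.intexp.congr (Eventually.of_forall fun x => ?_)
      exact hexp x
  have i3 : Integrable fun x => (LL V φ x - h x) ^ 2 * Real.exp (-V x) := by
    have h4 : Integrable (fun x => (LL V φ x - h x) ^ 2) (KC3_mu V) := by
      refine KC3_int_sub hLm.aestronglyMeasurable hm.aestronglyMeasurable ?_ ?_
      · exact (KC3_integrable hVc _).2 (H.int ((H.LLt0 hφ).pow 2))
      · exact (KC3_integrable hVc _).2 hi
    exact (KC3_integrable hVc _).1 h4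
  have i4 : Integrable fun x => 2 * c * (LL V φ x * Real.exp (-V x) - h x * Real.exp (-V x)) :=
    (i1.sub i2).const_mul _
  have i5 : Integrable fun x => c ^ 2 * Real.exp (-V x) := H.intexp.const_mul _
  have e1 : ∫ x, (LL V φ x + c - h x) ^ 2 * Real.exp (-V x) =
      (∫ x, (LL V φ x - h x) ^ 2 * Real.exp (-V x)) + c ^ 2 * ∫ x, Real.exp (-V x) := by
    have e2 : ∀ x, (LL V φ x + c - h x) ^ 2 * Real.exp (-V x) =
        (LL V φ x - h x) ^ 2 * Real.exp (-V x) +
          2 * c * (LL V φ x * Real.exp (-V x) - h x * Real.exp (-V x)) +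
            c ^ 2 * Real.exp (-V x) := fun x => by ring
    have i6 : Integrable fun x => (LL V φ x - h x) ^ 2 * Real.exp (-V x) +
        2 * c * (LL V φ x * Real.exp (-V x) - h x * Real.exp (-V x)) := i3.add i4
    rw [integral_congr_ae (Eventually.of_forall e2), integral_add i6 i5, integral_add i3 i4,
      integral_const_mul, integral_sub i1 i2, z1, h0, integral_const_mul]
    ring
  have hZ := H.zpos
  have h7 : 0 ≤ c ^ 2 * ∫ x, Real.exp (-V x) := by positivity
  linarith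

/-- Sequence version used everywhere. -/
theorem PD_seq (H : Nice κ M V) {h : (ι → ℝ) → ℝ} (hh : T0 h) (h0 : ex V h = 0) :
    ∃ φ : ℕ → (ι → ℝ) → ℝ, (∀ k, Cc (φ k)) ∧
      Tendsto (fun k => ex V fun x => (LL V (φ k) x - h x) ^ 2) atTop (𝓝 0) ∧
      Tendsto (fun k => ex V fun x => LL V (φ k) x ^ 2) atTop (𝓝 (ex V fun x => h x ^ 2)) ∧
      ∀ f, T0 f → Tendsto (fun k => ex V fun x => f x * LL V (φ k) x) atTop
        (𝓝 (ex V fun x => f x * h x)) := by
  have hZ := H.zpos
  have h1 : ∫ x, h x * Real.exp (-V x) = 0 := by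
    unfold ex at h0
    rcases div_eq_zero_iff.1 h0 with h5 | h5
    · exact h5
    · exact absurd h5 hZ.ne'
  have h2 : ∀ k : ℕ, ∃ φ, Cc φ ∧ ∫ x, (LL V φ x - h x) ^ 2 * Real.exp (-V x) ≤
      (∫ x, Real.exp (-V x)) * (1 / ((k : ℝ) + 1)) := fun k =>
    poisson_density H hh.meas (H.int (hh.pow 2)) h1 (by positivity)
  choose φ hφ hle using h2
  have ht : ∀ k, T0 (LL V (φ k)) := fun k => H.LLt0 (hφ k)
  have hd : ∀ k, T0 fun x => LL V (φ k) x - h x := fun k => (ht k).sub hh
  have l1 : Tendsto (fun k => ex V fun x => (LL V (φ k) x - h x) ^ 2) atTop (𝓝 0) := by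
    refine squeeze_zero (fun k => ex_nonneg V fun x => sq_nonneg _) (fun k => ?_)
      (tendsto_one_div_add_atTop_nhds_zero_nat (𝕜 := ℝ))
    unfold ex
    rw [div_le_iff₀ hZ, mul_comm]
    exact hle k
  have l2 : ∀ f, T0 f → Tendsto (fun k => ex V fun x => f x * (LL V (φ k) x - h x)) atTop
      (𝓝 0) := by
    intro f hf
    have l3 : Tendsto (fun k => √(ex V fun x => f x ^ 2) *
        √(ex V fun x => (LL V (φ k) x - h x) ^ 2)) atTop (𝓝 0) := by
      have h3 := ((Real.continuous_sqrt.tendsto 0).comp l1).const_mul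
        (√(ex V fun x => f x ^ 2))
      rwa [Real.sqrt_zero, mul_zero] at h3
    refine squeeze_zero_norm (fun k => ?_) l3
    rw [Real.norm_eq_abs, ← Real.sqrt_mul (ex_nonneg V fun x => sq_nonneg _)]
    exact Real.abs_le_sqrt (ex_cs H hf (hd k))
  refine ⟨φ, hφ, l1, ?_, fun f hf => ?_⟩
  · have l3 := (l1.add ((l2 h hh).const_mul 2)).add_const (ex V fun x => h x ^ 2)
    rw [mul_zero, add_zero, zero_add] at l3
    refine l3.congr fun k => ?_
    rw [← ex_cmul, ← ex_add H ((hd k).pow 2) ((hh.mul (hd k)).cmul 2),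
      ← ex_add H (((hd k).pow 2).add ((hh.mul (hd k)).cmul 2)) (hh.pow 2)]
    congr 1
    funext x
    ring
  · have l3 := (l2 f hf).add_const (ex V fun x => f x * h x)
    rw [zero_add] at l3
    refine l3.congr fun k => ?_
    rw [← ex_add H (hf.mul (hd k)) (hf.mul hh)]
    congr 1
    funext x
    ring

end Pool.Agent.Lib.MP_8d00da_gt.h42k
end

section

/-!
# Bochner formula, Brascamp-Lieb, improved Lichnerowicz, H^{-1} criterion
-/

namespace Pool.Agent.Lib.MP_8d00da_gt.h42k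

open MeasureTheory Set Filter
open scoped Topology NNReal ENNReal ContDiff

set_option linter.unusedSectionVars false
set_option linter.unusedVariables false

variable {ι : Type*} [Fintype ι] [DecidableEq ι]

variable {κ M : ℝ} {V : (ι → ℝ) → ℝ}

private theorem KD1_diff {φ : (ι → ℝ) → ℝ} (hφ : Cc φ) : Differentiable ℝ φ :=
  hφ.t1.c1.differentiable (by norm_num)

private theorem KD1_comm {φ : (ι → ℝ) → ℝ} (hφ : Cc φ) (i j : ι) :
    pd i (pd j φ) = pd j (pd i φ) := by
  funext x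
  have h : ContDiff ℝ 2 φ := by exact_mod_cast contDiff_infty.1 hφ.smooth 2
  exact pd_comm h i j x

private theorem KD1_pdLL (H : Nice κ M V) {φ : (ι → ℝ) → ℝ} (hφ : Cc φ) (i : ι) (x : ι → ℝ) :
    pd i (LL V φ) x = LL V (pd i φ) x + ∑ j, pd i (pd j V) x * pd j φ x := by
  have hV : ∀ j, Differentiable ℝ (pd j V) := fun j => (H.pdt1 j).c1.differentiable (by norm_num)
  have h1 : ∀ j, Differentiable ℝ (pd j φ) := fun j => KD1_diff (hφ.pdc j)
  have h2 : ∀ j, Differentiable ℝ (pd j (pd j φ)) := fun j => KD1_diff ((hφ.pdc j).pdc j)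
  have e1 : pd i (LL V φ) x = pd i (fun x => ∑ j, (pd j V x * pd j φ x - pd j (pd j φ) x)) x := rfl
  rw [e1, pd_sum Finset.univ (F := fun j x => pd j V x * pd j φ x - pd j (pd j φ) x)
    (fun j _ => ((hV j).fun_mul (h1 j)).fun_sub (h2 j))]
  unfold LL
  rw [← Finset.sum_add_distrib]
  refine Finset.sum_congr rfl fun j _ => ?_
  rw [pd_sub (f := fun x => pd j V x * pd j φ x) (g := pd j (pd j φ)) ((hV j).fun_mul (h1 j)) (h2 j),
    pd_mul (hV j) (h1 j), KD1_comm (hφ.pdc j) i j, KD1_comm hφ i j]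
  ring

private theorem KD1_hst0 (H : Nice κ M V) {φ : (ι → ℝ) → ℝ} (hφ : Cc φ) :
    T0 (fun x => hs V x (fun i => pd i φ x)) := by
  unfold hs
  exact T0.sum _ fun i _ => T0.sum _ fun j _ =>
    (((hφ.pdc i).t1.t0).mul (hφ.pdc j).t1.t0).mul ((H.pdt1 j).pdt0 i)

private theorem KD1_hq (φ : (ι → ℝ) → ℝ) (hφ : Cc φ) :
    hq φ = fun x => ∑ i, gs (pd i φ) x := by
  funext x
  unfold hq gs
  refine Finset.sum_congr rfl fun i _ => Finset.sum_congr rfl fun j _ => ?_
  rw [KD1_comm hφ i j]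

private theorem KD1_exhq (H : Nice κ M V) {φ : (ι → ℝ) → ℝ} (hφ : Cc φ) :
    ex V (hq φ) = ∑ i, ex V (gs (pd i φ)) := by
  rw [KD1_hq φ hφ]
  exact ex_sum H _ fun i _ => (hφ.pdc i).t1.gst0

/-- Bochner: `E (Lφ)² = E |D²φ|² + E D²V[∇φ,∇φ]`: `∂_i Lφ = L ∂_iφ + ∑_j V_ij ∂_jφ`, `ibp_LL` twice. -/
theorem bochner (H : Nice κ M V) {φ : (ι → ℝ) → ℝ} (hφ : Cc φ) :
    ex V (fun x => LL V φ x ^ 2) =
      ex V (hq φ) + ex V (fun x => hs V x (fun i => pd i φ x)) := by
  have h1 : ex V (fun x => LL V φ x ^ 2) = ex V (fun x => LL V φ x * LL V φ x) := by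
    congr 1
    funext x
    ring
  have h2 : (fun x => ∑ i, pd i (LL V φ) x * pd i φ x) =
      fun x => (∑ i, pd i φ x * LL V (pd i φ) x) + hs V x (fun i => pd i φ x) := by
    funext x
    unfold hs
    rw [← Finset.sum_add_distrib]
    refine Finset.sum_congr rfl fun i _ => ?_
    rw [KD1_pdLL H hφ i x, add_mul, Finset.sum_mul, mul_comm (LL V (pd i φ) x)]
    congr 1
    refine Finset.sum_congr rfl fun j _ => ?_
    ring
  rw [h1, ibp_LL H (H.LLc1 hφ).2.2 hφ, h2, ex_add H
    (T0.sum _ fun i _ => ((hφ.pdc i).t1.t0).mul (H.LLt0 (hφ.pdc i))) (KD1_hst0 H hφ),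
    ex_sum H _ (fun i _ => ((hφ.pdc i).t1.t0).mul (H.LLt0 (hφ.pdc i))), KD1_exhq H hφ]
  congr 1
  refine Finset.sum_congr rfl fun i _ => ?_
  rw [ibp_LL H (hφ.pdc i).t1 (hφ.pdc i)]
  congr 1
  funext x
  unfold gs
  refine Finset.sum_congr rfl fun j _ => ?_
  ring

private theorem KD1_key (H : Nice κ M V) {f : (ι → ℝ) → ℝ} (hf : T0 f) {c : ℝ} (hc : 0 ≤ c)
    (h : ∀ φ, Cc φ → ex V (fun x => f x * LL V φ x) ^ 2 ≤ c * ex V (fun x => LL V φ x ^ 2)) :
    var V f ≤ c := by
  have hh : T0 (fun x => f x - ex V f) := hf.sub (T0.const _)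
  have h0 : ex V (fun x => f x - ex V f) = 0 := by
    rw [ex_sub H hf (T0.const _), ex_const H, sub_self]
  obtain ⟨φ, h1, -, h3, h4⟩ := PD_seq H hh h0
  have h5 := h4 f hf
  have h6 : ex V (fun x => f x * (f x - ex V f)) = var V f := by
    have := cov_eq_left H hf hf
    unfold var
    rw [this]
    congr 1
    funext x
    ring
  have h7 : ex V (fun x => (f x - ex V f) ^ 2) = var V f := (var_eq H hf).symm
  rw [h6] at h5
  rw [h7] at h3
  have h8 : Tendsto (fun k => ex V (fun x => f x * LL V (φ k) x) ^ 2) atTop (𝓝 (var V f ^ 2)) :=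
    h5.pow 2
  have h9 : Tendsto (fun k => c * ex V (fun x => LL V (φ k) x ^ 2)) atTop (𝓝 (c * var V f)) :=
    h3.const_mul c
  have h10 : var V f ^ 2 ≤ c * var V f := le_of_tendsto_of_tendsto' h8 h9 fun k => h _ (h1 k)
  have h11 := var_nonneg H hf
  rcases h11.eq_or_lt with h12 | h12
  · rw [← h12]
    exact hc
  · by_contra h13
    push Not at h13
    nlinarith

private theorem Nice.KD1_hsnn (H : Nice κ M V) (x u : ι → ℝ) : 0 ≤ hs V x u :=
  (mul_nonneg H.kpos.le (sq_nn u)).trans (H.lo x u)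

private theorem KD1_gsnn (f : (ι → ℝ) → ℝ) (x : ι → ℝ) : 0 ≤ gs f x :=
  Finset.sum_nonneg fun i _ => sq_nonneg _

private theorem KD1_hqnn (f : (ι → ℝ) → ℝ) (x : ι → ℝ) : 0 ≤ hq f x :=
  Finset.sum_nonneg fun i _ => Finset.sum_nonneg fun j _ => sq_nonneg _

/-- Brascamp-Lieb (paper 322, 2.3). -/
theorem BL (H : Nice κ M V) {f R : (ι → ℝ) → ℝ} (hf : T1 f) (hR : T0 R) (hR0 : ∀ x, 0 ≤ R x)
    (h : ∀ x u, gd f x u ^ 2 ≤ R x * hs V x u) : var V f ≤ ex V R := by
  refine KD1_key H hf.t0 (ex_nonneg V hR0) fun φ hφ => ?_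
  rw [ibp_LL H hf hφ]
  have ht : T0 (fun x => ∑ i, pd i f x * pd i φ x) :=
    T0.sum _ fun i _ => (hf.pdt0 i).mul (hφ.pdc i).t1.t0
  have h1 := ex_cs_pt H ht hR (KD1_hst0 H hφ) hR0 (fun x => H.KD1_hsnn x _) (fun x => by
    have h2 := h x (fun i => pd i φ x)
    have h3 : gd f x (fun i => pd i φ x) = ∑ i, pd i f x * pd i φ x := by
      unfold gd
      exact Finset.sum_congr rfl fun i _ => mul_comm _ _
    rw [h3] at h2
    exact h2)
  refine h1.trans (mul_le_mul_of_nonneg_left ?_ (ex_nonneg V hR0))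
  rw [bochner H hφ]
  have := ex_nonneg V (fun x => KD1_hqnn φ x)
  linarith

private theorem KD1_mean (H : Nice κ M V) {l : ℝ} (hl : 0 ≤ l) (hC : CLe V l)
    {φ : (ι → ℝ) → ℝ} (hφ : Cc φ) :
    ∑ i, ex V (pd i φ) ^ 2 ≤ l * ex V (fun x => LL V φ x ^ 2) := by
  set θ : ι → ℝ := fun i => ex V (pd i φ) with hθ
  have hE0 : 0 ≤ ex V (fun x => LL V φ x ^ 2) := ex_nonneg V fun x => sq_nonneg _
  have h1 : ex V (fun x => dt θ x * LL V φ x) = sq θ := by
    rw [ibp_LL H (T1.dtf θ) hφ]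
    have e : (fun x => ∑ i, pd i (dt θ) x * pd i φ x) = fun x => ∑ i, θ i * pd i φ x := by
      funext x
      refine Finset.sum_congr rfl fun i _ => ?_
      rw [pd_dt]
    rw [e, ex_sum H _ (fun i _ => (hφ.pdc i).t1.t0.cmul (θ i))]
    unfold sq
    refine Finset.sum_congr rfl fun i _ => ?_
    rw [ex_cmul]
    simp only [hθ]
    ring
  have h2 : cov V (dt θ) (LL V φ) = sq θ := by
    unfold cov
    rw [h1, ex_LL H hφ]
    ring
  have h3 := cov_cs H (T0.dtf θ) (H.LLt0 hφ)
  rw [h2] at h3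
  have h4 : var V (LL V φ) ≤ ex V (fun x => LL V φ x ^ 2) := by
    rw [var_eq']
    have := sq_nonneg (ex V (LL V φ))
    linarith
  have h5 : var V (dt θ) ≤ l * sq θ := hC θ
  have h6 := var_nonneg H (T0.dtf θ)
  have h7 := var_nonneg H (H.LLt0 hφ)
  have h8 : sq θ ^ 2 ≤ (l * sq θ) * ex V (fun x => LL V φ x ^ 2) :=
    h3.trans (mul_le_mul h5 h4 h7 (mul_nonneg hl (sq_nn θ)))
  have h9 : ∑ i, ex V (pd i φ) ^ 2 = sq θ := rfl
  rw [h9]
  rcases (sq_nn θ).eq_or_lt with h10 | h10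
  · rw [← h10]
    exact mul_nonneg hl hE0
  · by_contra h13
    push Not at h13
    nlinarith

private theorem KD1_grad (H : Nice κ M V) {l C : ℝ} (hl : 0 ≤ l) (hC0 : 0 ≤ C) (hC : CLe V l)
    (hP : PI V C) {φ : (ι → ℝ) → ℝ} (hφ : Cc φ) :
    ex V (gs φ) ≤ (l + C) / (1 + C * κ) * ex V (fun x => LL V φ x ^ 2) := by
  have h1 : ex V (gs φ) = ∑ i, ex V (fun x => pd i φ x ^ 2) :=
    ex_sum H Finset.univ (F := fun i x => pd i φ x ^ 2) fun i _ => (hφ.pdc i).t1.t0.pow 2
  have h2 : ∀ i, ex V (fun x => pd i φ x ^ 2) = var V (pd i φ) + ex V (pd i φ) ^ 2 := by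
    intro i
    rw [var_eq']
    ring
  have h3 : ∑ i, var V (pd i φ) ≤ C * ex V (hq φ) := by
    rw [KD1_exhq H hφ, Finset.mul_sum]
    exact Finset.sum_le_sum fun i _ => hP _ (hφ.pdc i).t1
  have h4 : ex V (gs φ) = ∑ i, var V (pd i φ) + ∑ i, ex V (pd i φ) ^ 2 := by
    rw [h1, ← Finset.sum_add_distrib]
    exact Finset.sum_congr rfl fun i _ => h2 i
  have h5 := KD1_mean H hl hC hφ
  have h6 : κ * ex V (gs φ) ≤ ex V (fun x => hs V x (fun i => pd i φ x)) := by
    rw [← ex_cmul]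
    exact ex_mono H (hφ.t1.gst0.cmul κ) (KD1_hst0 H hφ) fun x => H.lo x _
  have h7 := bochner H hφ
  have h8 : C * ex V (hq φ) ≤ C * (ex V (fun x => LL V φ x ^ 2) - κ * ex V (gs φ)) :=
    mul_le_mul_of_nonneg_left (by linarith) hC0
  have h9 : 0 < 1 + C * κ := by
    have := mul_nonneg hC0 H.kpos.le
    linarith
  rw [div_mul_eq_mul_div, le_div_iff₀ h9]
  nlinarith

/-- Paper 322, 2.4, one step. -/
theorem IL_step (H : Nice κ M V) {l C : ℝ} (hl : 0 ≤ l) (hC0 : 0 ≤ C) (hC : CLe V l)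
    (hP : PI V C) : PI V ((l + C) / (1 + C * κ)) := by
  intro f hf
  have h9 : 0 < 1 + C * κ := by
    have := mul_nonneg hC0 H.kpos.le
    linarith
  have hgf : 0 ≤ ex V (gs f) := ex_nonneg V fun x => KD1_gsnn f x
  refine KD1_key H hf.t0 (mul_nonneg (div_nonneg (by linarith) h9.le) hgf) fun φ hφ => ?_
  rw [ibp_LL H hf hφ]
  have ht : T0 (fun x => ∑ i, pd i f x * pd i φ x) :=
    T0.sum _ fun i _ => (hf.pdt0 i).mul (hφ.pdc i).t1.t0
  have h1 := ex_cs_pt H ht hf.gst0 hφ.t1.gst0 (fun x => KD1_gsnn f x) (fun x => KD1_gsnn φ x)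
    (fun x => Finset.sum_mul_sq_le_sq_mul_sq _ _ _)
  have h2 := mul_le_mul_of_nonneg_left (KD1_grad H hl hC0 hC hP hφ) hgf
  refine h1.trans (h2.trans (le_of_eq ?_))
  ring

/-- Improved Lichnerowicz: least constant in `IL_step`, start with `Nice.pi`. -/
theorem IL (H : Nice κ M V) {l : ℝ} (hl : 0 ≤ l) (hC : CLe V l) : PI V (√(l / κ)) := by
  set S : Set ℝ := {C | 0 ≤ C ∧ PI V C} with hS
  have hne : S.Nonempty := ⟨1 / κ, by
    have := H.kpos
    positivity, H.pi⟩
  have hbd : BddBelow S := ⟨0, fun C hC => hC.1⟩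
  set C0 : ℝ := sInf S with hC0
  have h0 : 0 ≤ C0 := le_csInf hne fun C hC => hC.1
  have hP : PI V C0 := by
    intro f hf
    have hg : 0 ≤ ex V (gs f) := ex_nonneg V fun x => KD1_gsnn f x
    refine le_of_forall_pos_le_add fun ε hε => ?_
    have h1 : 0 < ε / (ex V (gs f) + 1) := by positivity
    obtain ⟨C, hC, hlt⟩ := exists_lt_of_csInf_lt hne (lt_add_of_pos_right C0 h1)
    have h2 := hC.2 f hf
    have h3 : C * ex V (gs f) ≤ (C0 + ε / (ex V (gs f) + 1)) * ex V (gs f) :=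
      mul_le_mul_of_nonneg_right hlt.le hg
    have h4 : ε / (ex V (gs f) + 1) * ex V (gs f) ≤ ε := by
      rw [div_mul_eq_mul_div, div_le_iff₀ (by positivity)]
      nlinarith
    linarith
  have h9 : 0 < 1 + C0 * κ := by
    have := mul_nonneg h0 H.kpos.le
    linarith
  have h5 : C0 ≤ (l + C0) / (1 + C0 * κ) :=
    csInf_le hbd ⟨div_nonneg (by linarith) h9.le, IL_step H hl h0 hC hP⟩
  rw [le_div_iff₀ h9] at h5
  have h6 : C0 ≤ √(l / κ) := by
    refine Real.le_sqrt_of_sq_le ?_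
    rw [le_div_iff₀ H.kpos]
    nlinarith
  intro f hf
  exact (hP f hf).trans (mul_le_mul_of_nonneg_right h6 (ex_nonneg V fun x => KD1_gsnn f x))

/-- The `H^{-1}` property. -/
def H1 (V : (ι → ℝ) → ℝ) (δ : ι → ℝ) (N : ℝ) : Prop := ∀ φ, Cc φ →
  ex V (fun x => ∑ i, δ i * (x i - mn V i) * pd i φ x) ^ 2 ≤ N * ex V (hq φ)

private theorem KD1_t1c (V : (ι → ℝ) → ℝ) (i : ι) : T1 (fun x : ι → ℝ => x i - mn V i) :=
  (T1.coord i).sub (T1.const _)

private theorem KD1_pdc (V : (ι → ℝ) → ℝ) (i j : ι) (x : ι → ℝ) :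
    pd i (fun x : ι → ℝ => x j - mn V j) x = if i = j then 1 else 0 := by
  rw [pd_sub (f := fun x : ι → ℝ => x j) (g := fun _ => mn V j)
    ((T1.coord j).c1.differentiable (by norm_num)) (differentiable_const _), pd_coord, pd_const]
  ring

/-- Paper 322, 2.5. -/
theorem H1.var_le (H : Nice κ M V) {δ : ι → ℝ} {N : ℝ} (hN : 0 ≤ N) (h : H1 V δ N) :
    var V (fun x => ∑ i, δ i * (x i - mn V i) ^ 2) ≤ 4 * N := by
  have e0 : (fun x : ι → ℝ => ∑ i, δ i * (x i - mn V i) ^ 2) =
      fun x => ∑ i, δ i * ((x i - mn V i) * (x i - mn V i)) := by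
    funext x
    exact Finset.sum_congr rfl fun i _ => by ring
  rw [e0]
  have hf : T1 (fun x : ι → ℝ => ∑ i, δ i * ((x i - mn V i) * (x i - mn V i))) :=
    T1.sum _ fun i _ => ((KD1_t1c V i).mul (KD1_t1c V i)).cmul (δ i)
  have hd : ∀ i, Differentiable ℝ (fun x : ι → ℝ => x i - mn V i) :=
    fun i => (KD1_t1c V i).c1.differentiable (by norm_num)
  have hpd : ∀ i x, pd i (fun x : ι → ℝ => ∑ i, δ i * ((x i - mn V i) * (x i - mn V i))) x =
      2 * (δ i * (x i - mn V i)) := by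
    intro i x
    rw [pd_sum Finset.univ (F := fun j x => δ j * ((x j - mn V j) * (x j - mn V j)))
      (fun j _ => ((hd j).fun_mul (hd j)).const_mul (δ j))]
    rw [Finset.sum_eq_single i]
    · rw [pd_cmul ((hd i).fun_mul (hd i)), pd_mul (hd i) (hd i), KD1_pdc, if_pos rfl]
      ring
    · intro j _ hj
      rw [pd_cmul ((hd j).fun_mul (hd j)), pd_mul (hd j) (hd j), KD1_pdc, if_neg (Ne.symm hj)]
      ring
    · intro hi
      exact absurd (Finset.mem_univ i) hi
  refine KD1_key H hf.t0 (by linarith) fun φ hφ => ?_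
  rw [ibp_LL H hf hφ]
  have e1 : (fun x => ∑ i, pd i (fun x : ι → ℝ =>
      ∑ i, δ i * ((x i - mn V i) * (x i - mn V i))) x * pd i φ x) =
      fun x => 2 * ∑ i, δ i * (x i - mn V i) * pd i φ x := by
    funext x
    rw [Finset.mul_sum]
    refine Finset.sum_congr rfl fun i _ => ?_
    rw [hpd]
    ring
  rw [e1, ex_cmul]
  have h1 := h φ hφ
  have h2 := bochner H hφ
  have h3 : 0 ≤ ex V (fun x => hs V x (fun i => pd i φ x)) := ex_nonneg V fun x => H.KD1_hsnn x _
  have h4 : N * ex V (hq φ) ≤ N * ex V (fun x => LL V φ x ^ 2) :=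
    mul_le_mul_of_nonneg_left (by linarith) hN
  rw [mul_pow]
  linarith

/-- Paper 322, 2.6. -/
theorem quad_le (H : Nice κ M V) {l C : ℝ} (hl : 0 ≤ l) (hC0 : 0 ≤ C) (hC : CLe V l)
    (hP : PI V C) {B : ι → ι → ℝ} (hB : ∀ i j, B i j = B j i) :
    var V (fun x => ∑ i, ∑ j, B i j * (x i - mn V i) * (x j - mn V j)) ≤
      4 * C * l * ∑ i, ∑ j, B i j ^ 2 := by
  have hd : ∀ i, Differentiable ℝ (fun x : ι → ℝ => x i - mn V i) :=
    fun i => (KD1_t1c V i).c1.differentiable (by norm_num)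
  have e0 : (fun x : ι → ℝ => ∑ i, ∑ j, B i j * (x i - mn V i) * (x j - mn V j)) =
      fun x => ∑ i, ∑ j, B i j * ((x i - mn V i) * (x j - mn V j)) := by
    funext x
    exact Finset.sum_congr rfl fun i _ => Finset.sum_congr rfl fun j _ => by ring
  rw [e0]
  have hf : T1 (fun x : ι → ℝ => ∑ i, ∑ j, B i j * ((x i - mn V i) * (x j - mn V j))) :=
    T1.sum _ fun i _ => T1.sum _ fun j _ => ((KD1_t1c V i).mul (KD1_t1c V j)).cmul (B i j)
  have hd1 : ∀ i j, Differentiable ℝ
      (fun x : ι → ℝ => B i j * ((x i - mn V i) * (x j - mn V j))) :=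
    fun i j => ((hd i).fun_mul (hd j)).const_mul _
  have hd2 : ∀ i, Differentiable ℝ
      (fun x : ι → ℝ => ∑ j, B i j * ((x i - mn V i) * (x j - mn V j))) :=
    fun i => (T1.sum Finset.univ fun j _ =>
      ((KD1_t1c V i).mul (KD1_t1c V j)).cmul (B i j)).c1.differentiable (by norm_num)
  have hpd : ∀ k x, pd k (fun x : ι → ℝ => ∑ i, ∑ j, B i j * ((x i - mn V i) * (x j - mn V j))) x =
      2 * ∑ j, B k j * (x j - mn V j) := by
    intro k x
    rw [pd_sum Finset.univ (F := fun i x => ∑ j, B i j * ((x i - mn V i) * (x j - mn V j)))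
      (fun i _ => hd2 i)]
    have h1 : ∀ i, pd k (fun x : ι → ℝ => ∑ j, B i j * ((x i - mn V i) * (x j - mn V j))) x =
        (if k = i then ∑ j, B i j * (x j - mn V j) else 0) + B i k * (x i - mn V i) := by
      intro i
      rw [pd_sum Finset.univ (F := fun j x => B i j * ((x i - mn V i) * (x j - mn V j)))
        (fun j _ => hd1 i j)]
      have h2 : ∀ j, pd k (fun x : ι → ℝ => B i j * ((x i - mn V i) * (x j - mn V j))) x =
          (if k = i then B i j * (x j - mn V j) else 0) +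
            (if k = j then B i j * (x i - mn V i) else 0) := by
        intro j
        rw [pd_cmul ((hd i).fun_mul (hd j)), pd_mul (hd i) (hd j), KD1_pdc, KD1_pdc]
        split_ifs <;> ring
      rw [Finset.sum_congr rfl fun j _ => h2 j, Finset.sum_add_distrib]
      congr 1
      · split_ifs
        · rfl
        · exact Finset.sum_const_zero
      · rw [Finset.sum_ite_eq, if_pos (Finset.mem_univ k)]
    rw [Finset.sum_congr rfl fun i _ => h1 i, Finset.sum_add_distrib, Finset.sum_ite_eq,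
      if_pos (Finset.mem_univ k), two_mul]
    congr 1
    exact Finset.sum_congr rfl fun i _ => by rw [hB i k]
  have h1 := hP _ hf
  have hmean : ∀ k, ex V (dt (B k)) = ∑ j, B k j * mn V j := by
    intro k
    have : ex V (dt (B k)) = ex V (fun x => ∑ j, B k j * x j) := rfl
    rw [this, ex_sum H _ (fun j _ => (T0.coord j).cmul (B k j))]
    refine Finset.sum_congr rfl fun j _ => ?_
    rw [ex_cmul]
    rfl
  have hdt : ∀ k x, ∑ j, B k j * (x j - mn V j) = dt (B k) x - ex V (dt (B k)) := by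
    intro k x
    rw [hmean]
    unfold dt
    rw [← Finset.sum_sub_distrib]
    exact Finset.sum_congr rfl fun j _ => by ring
  have hgs : gs (fun x : ι → ℝ => ∑ i, ∑ j, B i j * ((x i - mn V i) * (x j - mn V j))) =
      fun x => ∑ k, 4 * (dt (B k) x - ex V (dt (B k))) ^ 2 := by
    funext x
    unfold gs
    refine Finset.sum_congr rfl fun k _ => ?_
    rw [hpd, hdt]
    ring
  have hex : ex V (gs (fun x : ι → ℝ =>
      ∑ i, ∑ j, B i j * ((x i - mn V i) * (x j - mn V j)))) = ∑ k, 4 * var V (dt (B k)) := by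
    rw [hgs, ex_sum H _ (fun k _ => (((T0.dtf (B k)).sub (T0.const _)).pow 2).cmul 4)]
    refine Finset.sum_congr rfl fun k _ => ?_
    rw [ex_cmul, var_eq H (T0.dtf (B k))]
  rw [hex] at h1
  refine h1.trans ?_
  have h2 : ∑ k, 4 * var V (dt (B k)) ≤ ∑ k, 4 * (l * sq (B k)) :=
    Finset.sum_le_sum fun k _ => mul_le_mul_of_nonneg_left (hC (B k)) (by norm_num)
  refine (mul_le_mul_of_nonneg_left h2 hC0).trans (le_of_eq ?_)
  have h3 : ∑ k, 4 * (l * sq (B k)) = 4 * l * ∑ i, ∑ j, B i j ^ 2 := by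
    rw [Finset.mul_sum]
    refine Finset.sum_congr rfl fun k _ => ?_
    unfold sq
    ring
  rw [h3]
  ring

end Pool.Agent.Lib.MP_8d00da_gt.h42k
end
end
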