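import Pool.Agent.Lib.MP_8d00da_gt.h42k.IL2a

/-!
# Second order improved Lichnerowicz inequality (paper 329), conclusion
-/

namespace Pool.Agent.Lib.MP_8d00da_gt.h42k

open MeasureTheory Set Filter
open scoped Topology NNReal ENNReal ContDiff

set_option linter.unusedSectionVars false
set_option linter.unusedVariables false

variable {ι : Type*} [Fintype ι] [DecidableEq ι]

variable {κ M : ℝ} {V : (ι → ℝ) → ℝ}

private theorem IL2_gsnn (f : (ι → ℝ) → ℝ) (x : ι → ℝ) : 0 ≤ gs f x :=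
  Finset.sum_nonneg fun i _ => sq_nonneg _

private theorem IL2_hst0 (H : Nice κ M V) {φ : (ι → ℝ) → ℝ} (hφ : Cc φ) :
    T0 (fun x => hs V x (fun i => pd i φ x)) := by
  unfold hs
  exact T0.sum _ fun i _ => T0.sum _ fun j _ =>
    (((hφ.pdc i).t1.t0).mul (hφ.pdc j).t1.t0).mul ((H.pdt1 j).pdt0 i)

private theorem IL2_hq (φ : (ι → ℝ) → ℝ) (hφ : Cc φ) :
    hq φ = fun x => ∑ i, gs (pd i φ) x := by
  funext x
  unfold hq gs
  refine Finset.sum_congr rfl fun i _ => Finset.sum_congr rfl fun j _ => ?_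
  have h : ContDiff ℝ 2 φ := by exact_mod_cast contDiff_infty.1 hφ.smooth 2
  rw [pd_comm h i j x]

/-- The start: `RB V (1/κ)`. -/
theorem RB_start (H : Nice κ M V) : RB V (1 / κ) := by
  intro φ hφ
  have hκ : 0 ≤ 1 / κ := by
    have := H.kpos
    positivity
  have h1 : ∑ i, var V (pd i φ) ≤ 1 / κ * ex V (hq φ) := by
    rw [IL2_hq φ hφ, ex_sum H _ (fun i _ => (hφ.pdc i).t1.gst0), Finset.mul_sum]
    exact Finset.sum_le_sum fun i _ => H.pi _ (hφ.pdc i).t1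
  refine h1.trans (mul_le_mul_of_nonneg_left ?_ hκ)
  rw [bochner H hφ]
  have : 0 ≤ ex V (fun x => hs V x (fun i => pd i φ x)) :=
    ex_nonneg V fun x => (mul_nonneg H.kpos.le (sq_nn _)).trans (H.lo x _)
  linarith

/-- Real arithmetic: one improvement step. -/
theorem IL2_arith {v w ρ K κ : ℝ} (hκ : 0 < κ) (hv : 0 ≤ v) (hw : 0 ≤ w) (hρ : 0 ≤ ρ)
    (hK : 0 ≤ K) (h : v ^ 2 ≤ (ρ * v + K / 4 * w) * (w - κ * v)) :
    v * (ρ + 2 * κ * ρ ^ 2 + κ * K / 4) ≤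
      (ρ * (ρ + 2 * κ * ρ ^ 2 + κ * K / 4) - (κ * ρ ^ 3 - K / 4 * (1 - κ * ρ))) * w := by
  -- g_h(v,w) = w² g(ρ) + g'(ρ) w (v - ρ w) + (1 + κ ρ) (v - ρ w)²
  have key : v ^ 2 - (ρ * v + K / 4 * w) * (w - κ * v) =
      w ^ 2 * (κ * ρ ^ 3 - K / 4 * (1 - κ * ρ)) +
        (ρ + 2 * κ * ρ ^ 2 + κ * K / 4) * w * (v - ρ * w) + (1 + κ * ρ) * (v - ρ * w) ^ 2 := by
    ring
  have h1 : w ^ 2 * (κ * ρ ^ 3 - K / 4 * (1 - κ * ρ)) +
      (ρ + 2 * κ * ρ ^ 2 + κ * K / 4) * w * (v - ρ * w) ≤ 0 := by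
    have h2 : 0 ≤ (1 + κ * ρ) * (v - ρ * w) ^ 2 := by positivity
    linarith
  rcases hw.eq_or_lt with h3 | h3
  · have h4 : v ^ 2 ≤ -(ρ * κ * v ^ 2) := by
      rw [← h3] at h
      nlinarith
    have h5 : 0 ≤ ρ * κ * v ^ 2 := by positivity
    have h6 : v = 0 := by
      have : v ^ 2 ≤ 0 := by linarith
      nlinarith
    rw [← h3, h6]
    simp
  · have h4 : w * (κ * ρ ^ 3 - K / 4 * (1 - κ * ρ)) +
        (ρ + 2 * κ * ρ ^ 2 + κ * K / 4) * (v - ρ * w) ≤ 0 := by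
      by_contra h5
      push Not at h5
      have := mul_pos h3 h5
      nlinarith
    nlinarith

/-- Paper 329, (e): `RB V P` if `K / 4 ≤ κ P³`. -/
theorem RB_of_QKV (H : Nice κ M V) {K P : ℝ} (hK : 0 ≤ K) (hQ : QKV V K) (hP : 0 ≤ P)
    (hPK : K / 4 ≤ κ * P ^ 3) : RB V P := by
  have hκ := H.kpos
  set T : Set ℝ := {ρ | 0 ≤ ρ ∧ RB V ρ} with hT
  have hne : T.Nonempty := ⟨1 / κ, by positivity, RB_start H⟩
  have hbd : BddBelow T := ⟨0, fun ρ hρ => hρ.1⟩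
  set ρ : ℝ := sInf T with hρ
  have h0 : 0 ≤ ρ := le_csInf hne fun C hC => hC.1
  have hw0 : ∀ φ, 0 ≤ ex V (fun x => LL V φ x ^ 2) := fun φ => ex_nonneg V fun x => sq_nonneg _
  have hRB : RB V ρ := by
    intro φ hφ
    refine le_of_forall_pos_le_add fun ε hε => ?_
    have h1 : 0 < ε / (ex V (fun x => LL V φ x ^ 2) + 1) := by
      have := hw0 φ
      positivity
    obtain ⟨C, hC, hlt⟩ := exists_lt_of_csInf_lt hne (lt_add_of_pos_right ρ h1)
    have h2 := hC.2 φ hφ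
    have h3 : C * ex V (fun x => LL V φ x ^ 2) ≤
        (ρ + ε / (ex V (fun x => LL V φ x ^ 2) + 1)) * ex V (fun x => LL V φ x ^ 2) :=
      mul_le_mul_of_nonneg_right hlt.le (hw0 φ)
    have h4 : ε / (ex V (fun x => LL V φ x ^ 2) + 1) * ex V (fun x => LL V φ x ^ 2) ≤ ε := by
      have := hw0 φ
      rw [div_mul_eq_mul_div, div_le_iff₀ (by positivity)]
      nlinarith
    linarith
  -- the infimum satisfies κ ρ³ ≤ K/4
  have hfin : κ * ρ ^ 3 ≤ K / 4 := by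
    by_contra hcon
    push Not at hcon
    have hρ0 : 0 < ρ := by
      rcases h0.eq_or_lt with h1 | h1
      · rw [← h1] at hcon
        have : K / 4 < 0 := by simpa using hcon
        linarith
      · exact h1
    obtain ⟨g, hg⟩ : ∃ g, g = κ * ρ ^ 3 - K / 4 * (1 - κ * ρ) := ⟨_, rfl⟩
    obtain ⟨d, hd⟩ : ∃ d, d = ρ + 2 * κ * ρ ^ 2 + κ * K / 4 := ⟨_, rfl⟩
    have hg0 : 0 < g := by
      have h1 : 0 ≤ K / 4 * (κ * ρ) := by positivity
      rw [hg]
      nlinarith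
    have hd0 : 0 < d := by
      rw [hd]
      positivity
    have hgd : g ≤ ρ * d := by
      have h1 : 0 ≤ κ * ρ ^ 3 := by positivity
      rw [hg, hd]
      nlinarith [sq_nonneg ρ]
    have hnew : RB V (ρ - g / d) := by
      intro φ hφ
      have h1 := IL2_main H hK hQ h0 hRB hφ
      have h2 := IL2_arith hκ (Finset.sum_nonneg fun i _ => var_nonneg H (hφ.pdc i).t1.t0)
        (hw0 φ) h0 hK h1
      rw [← hd, ← hg] at h2
      have h3 : (∑ i, var V (pd i φ)) ≤ (ρ * d - g) * ex V (fun x => LL V φ x ^ 2) / d := by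
        rw [le_div_iff₀ hd0]
        exact h2
      refine h3.trans (le_of_eq ?_)
      field_simp
    have hmem : ρ - g / d ∈ T := ⟨by
      rw [sub_nonneg, div_le_iff₀ hd0]
      exact hgd, hnew⟩
    have h1 := csInf_le hbd hmem
    have h2 : 0 < g / d := div_pos hg0 hd0
    linarith
  have hρP : ρ ≤ P := by
    by_contra h1
    push Not at h1
    have h2 : P ^ 3 < ρ ^ 3 := pow_lt_pow_left₀ h1 hP (by norm_num)
    have h3 := mul_lt_mul_of_pos_left h2 hκ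
    linarith
  intro φ hφ
  exact (hRB φ hφ).trans (mul_le_mul_of_nonneg_right hρP (hw0 φ))

private theorem IL2_key (H : Nice κ M V) {f : (ι → ℝ) → ℝ} (hf : T0 f) {c : ℝ} (hc : 0 ≤ c)
    (h : ∀ φ, Cc φ → ex V (fun x => f x * LL V φ x) ^ 2 ≤ c * ex V (fun x => LL V φ x ^ 2)) :
    var V f ≤ c := by
  have hh : T0 (fun x => f x - ex V f) := hf.sub (T0.const _)
  have h0 : ex V (fun x => f x - ex V f) = 0 := by
    rw [ex_sub H hf (T0.const _), ex_const H, sub_self]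
  obtain ⟨φ, h1, -, h3, h4⟩ := PD_seq H hh h0
  have h5 := h4 f hf
  have h6 : ex V (fun x => f x * (f x - ex V f)) = var V f := by
    have := cov_eq_left H hf hf
    unfold var
    rw [this]
    congr 1
    funext x
    ring
  have h7 : ex V (fun x => (f x - ex V f) ^ 2) = var V f := (var_eq H hf).symm
  rw [h6] at h5
  rw [h7] at h3
  have h8 : Tendsto (fun k => ex V (fun x => f x * LL V (φ k) x) ^ 2) atTop (𝓝 (var V f ^ 2)) :=
    h5.pow 2
  have h9 : Tendsto (fun k => c * ex V (fun x => LL V (φ k) x ^ 2)) atTop (𝓝 (c * var V f)) :=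
    h3.const_mul c
  have h10 : var V f ^ 2 ≤ c * var V f := le_of_tendsto_of_tendsto' h8 h9 fun k => h _ (h1 k)
  have h11 := var_nonneg H hf
  rcases h11.eq_or_lt with h12 | h12
  · rw [← h12]
    exact hc
  · by_contra h13
    push Not at h13
    nlinarith

private theorem IL2_mean (H : Nice κ M V) {l : ℝ} (hl : 0 ≤ l) (hC : CLe V l)
    {φ : (ι → ℝ) → ℝ} (hφ : Cc φ) :
    ∑ i, ex V (pd i φ) ^ 2 ≤ l * ex V (fun x => LL V φ x ^ 2) := by
  set θ : ι → ℝ := fun i => ex V (pd i φ) with hθ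
  have hE0 : 0 ≤ ex V (fun x => LL V φ x ^ 2) := ex_nonneg V fun x => sq_nonneg _
  have h1 : ex V (fun x => dt θ x * LL V φ x) = sq θ := by
    rw [ibp_LL H (T1.dtf θ) hφ]
    have e : (fun x => ∑ i, pd i (dt θ) x * pd i φ x) = fun x => ∑ i, θ i * pd i φ x := by
      funext x
      refine Finset.sum_congr rfl fun i _ => ?_
      rw [pd_dt]
    rw [e, ex_sum H _ (fun i _ => (hφ.pdc i).t1.t0.cmul (θ i))]
    unfold sq
    refine Finset.sum_congr rfl fun i _ => ?_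
    rw [ex_cmul]
    simp only [hθ]
    ring
  have h2 : cov V (dt θ) (LL V φ) = sq θ := by
    unfold cov
    rw [h1, ex_LL H hφ]
    ring
  have h3 := cov_cs H (T0.dtf θ) (H.LLt0 hφ)
  rw [h2] at h3
  have h4 : var V (LL V φ) ≤ ex V (fun x => LL V φ x ^ 2) := by
    rw [var_eq']
    have := sq_nonneg (ex V (LL V φ))
    linarith
  have h5 : var V (dt θ) ≤ l * sq θ := hC θ
  have h6 := var_nonneg H (T0.dtf θ)
  have h7 := var_nonneg H (H.LLt0 hφ)
  have h8 : sq θ ^ 2 ≤ (l * sq θ) * ex V (fun x => LL V φ x ^ 2) :=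
    h3.trans (mul_le_mul h5 h4 h7 (mul_nonneg hl (sq_nn θ)))
  have h9 : ∑ i, ex V (pd i φ) ^ 2 = sq θ := rfl
  rw [h9]
  rcases (sq_nn θ).eq_or_lt with h10 | h10
  · rw [← h10]
    exact mul_nonneg hl hE0
  · by_contra h13
    push Not at h13
    nlinarith

/-- **Second order improved Lichnerowicz inequality.** If `κ ≤ D²V`, `Cov(V) ≤ l`,
`Var ⟨B x~, x~⟩ ≤ K |B|²` for all symmetric `B`, and `K / 4 ≤ κ P³`, then the Poincare constant
is at most `l + P`. -/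
theorem IL2 (H : Nice κ M V) {l K P : ℝ} (hl : 0 ≤ l) (hC : CLe V l) (hK : 0 ≤ K)
    (hQ : QKV V K) (hP : 0 ≤ P) (hPK : K / 4 ≤ κ * P ^ 3) : PI V (l + P) := by
  have hR := RB_of_QKV H hK hQ hP hPK
  have hgrad : ∀ φ, Cc φ → ex V (gs φ) ≤ (l + P) * ex V (fun x => LL V φ x ^ 2) := by
    intro φ hφ
    have h1 : ex V (gs φ) = ∑ i, ex V (fun x => pd i φ x ^ 2) :=
      ex_sum H Finset.univ (F := fun i x => pd i φ x ^ 2) fun i _ => (hφ.pdc i).t1.t0.pow 2
    have h2 : ex V (gs φ) = ∑ i, var V (pd i φ) + ∑ i, ex V (pd i φ) ^ 2 := by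
      rw [h1, ← Finset.sum_add_distrib]
      refine Finset.sum_congr rfl fun i _ => ?_
      rw [var_eq']
      ring
    have h3 := IL2_mean H hl hC hφ
    have h4 := hR φ hφ
    rw [h2]
    linarith
  intro f hf
  have hgf : 0 ≤ ex V (gs f) := ex_nonneg V fun x => IL2_gsnn f x
  refine IL2_key H hf.t0 (mul_nonneg (add_nonneg hl hP) hgf) fun φ hφ => ?_
  rw [ibp_LL H hf hφ]
  have ht : T0 (fun x => ∑ i, pd i f x * pd i φ x) :=
    T0.sum _ fun i _ => (hf.pdt0 i).mul (hφ.pdc i).t1.t0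
  have h1 := ex_cs_pt H ht hf.gst0 hφ.t1.gst0 (fun x => IL2_gsnn f x) (fun x => IL2_gsnn φ x)
    (fun x => Finset.sum_mul_sq_le_sq_mul_sq _ _ _)
  have h2 := mul_le_mul_of_nonneg_left (hgrad φ hφ) hgf
  refine h1.trans (h2.trans (le_of_eq ?_))
  ring

end Pool.Agent.Lib.MP_8d00da_gt.h42k
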