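import Mathlib
import Pool.Agent.Lib.MP_8d00da_gt.h97r.RDefs
import Pool.Agent.Lib.MP_8d00da_gt.h42k.B1a
import Pool.Agent.Lib.MP_8d00da_gt.h42u.UGauss
import Pool.Agent.Lib.MP_8d00da_gt.h62a.Sym

section

section

namespace Pool.Agent.Lib.MP_8d00da_gt.h25
end Pool.Agent.Lib.MP_8d00da_gt.h25
namespace Pool.Agent.Lib.MP_8d00da_gt.h42
end Pool.Agent.Lib.MP_8d00da_gt.h42
namespace Pool.Agent.Lib.MP_8d00da_gt.h42s
end Pool.Agent.Lib.MP_8d00da_gt.h42s
namespace Pool.Agent.Lib.MP_8d00da_gt.h42o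
end Pool.Agent.Lib.MP_8d00da_gt.h42o


/-!
# Positive definite forms
-/

namespace Pool.Agent.Lib.MP_8d00da_gt.h97r

open MeasureTheory Set Filter
open Pool.Agent.Lib.MP_8d00da_gt.h25 Pool.Agent.Lib.MP_8d00da_gt.h42
open Pool.Agent.Lib.MP_8d00da_gt.h42s Pool.Agent.Lib.MP_8d00da_gt.h42o
open scoped Topology NNReal

variable {F : Type*} [NormedAddCommGroup F] [InnerProductSpace ℝ F]
    [FiniteDimensional ℝ F] [MeasurableSpace F] [BorelSpace F]

variable {h : F → ℝ}

/-- Linear algebra: a positive definite symmetric form on `F` is the standard one in suitable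
coordinates. (E.g. diagonalise the symmetric operator representing `Bf` by
`LinearMap.IsSymmetric.eigenvectorBasis` and scale the eigenvectors; or by induction on the
dimension / Gram-Schmidt; or `Matrix.PosDef`.) -/
theorem exists_lin (Bf : F →ₗ[ℝ] F →ₗ[ℝ] ℝ) (hs : ∀ x y, Bf x y = Bf y x)
    (hp : ∀ x, x ≠ 0 → 0 < Bf x x) : ∃ S : F ≃L[ℝ] F, ∀ θ, Bf (S θ) (S θ) = ‖θ‖ ^ 2 := by
  classical
  obtain ⟨v, hv⟩ := LinearMap.BilinForm.exists_orthogonal_basis (B := Bf) ⟨fun x y => hs x y⟩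
  have hpos : ∀ i, 0 < Bf (v i) (v i) := fun i => hp _ (v.ne_zero i)
  have hc : ∀ i, IsUnit ((Real.sqrt (Bf (v i) (v i)))⁻¹) := fun i =>
    (isUnit_iff_ne_zero.mpr (inv_ne_zero (Real.sqrt_ne_zero'.mpr (hpos i))))
  let w := v.isUnitSMul hc
  have hw : ∀ i, w i = (Real.sqrt (Bf (v i) (v i)))⁻¹ • v i := fun i =>
    Module.Basis.isUnitSMul_apply (v := v) hc i
  have hww : ∀ i j, Bf (w i) (w j) = if i = j then 1 else 0 := by
    intro i j
    rw [hw i, hw j, LinearMap.map_smul₂, map_smul]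
    by_cases hij : i = j
    · subst hij
      rw [if_pos rfl]
      simp only [smul_eq_mul]
      have h1 := Real.mul_self_sqrt (hpos i).le
      have h2 : Real.sqrt (Bf (v i) (v i)) ≠ 0 := Real.sqrt_ne_zero'.mpr (hpos i)
      field_simp
      rw [Real.sq_sqrt (hpos i).le]
    · rw [if_neg hij]
      have : Bf (v i) (v j) = 0 := hv hij
      rw [this]; simp
  let e := stdOrthonormalBasis ℝ F
  refine ⟨(e.toBasis.equiv w (Equiv.refl _)).toContinuousLinearEquiv, fun θ => ?_⟩
  have h1 : (e.toBasis.equiv w (Equiv.refl _)).toContinuousLinearEquiv θ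
      = ∑ i, (inner ℝ (e i) θ) • w i := by
    conv_lhs => rw [← e.sum_repr' θ]
    rw [map_sum]
    refine Finset.sum_congr rfl fun i _ => ?_
    rw [map_smul]
    congr 1
    have := e.toBasis.equiv_apply i w (Equiv.refl _)
    simpa using this
  rw [h1, LinearMap.map_sum₂]
  have h2 : ‖θ‖ ^ 2 = ∑ i, (inner ℝ (e i) θ) ^ 2 := by
    rw [← e.sum_sq_norm_inner_right θ]
    refine Finset.sum_congr rfl fun i _ => ?_
    rw [Real.norm_eq_abs, sq_abs]
  rw [h2]
  refine Finset.sum_congr rfl fun i _ => ?_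
  rw [LinearMap.map_smul₂, map_sum]
  simp only [map_smul, smul_eq_mul, hww]
  simp [Finset.sum_ite_eq, sq]

end Pool.Agent.Lib.MP_8d00da_gt.h97r
end

section

namespace Pool.Agent.Lib.MP_8d00da_gt.h25
end Pool.Agent.Lib.MP_8d00da_gt.h25
namespace Pool.Agent.Lib.MP_8d00da_gt.h42
end Pool.Agent.Lib.MP_8d00da_gt.h42
namespace Pool.Agent.Lib.MP_8d00da_gt.h42s
end Pool.Agent.Lib.MP_8d00da_gt.h42s
namespace Pool.Agent.Lib.MP_8d00da_gt.h42o
end Pool.Agent.Lib.MP_8d00da_gt.h42o


/-!
# Isotropic position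
-/

namespace Pool.Agent.Lib.MP_8d00da_gt.h97r

open MeasureTheory Set Filter
open Pool.Agent.Lib.MP_8d00da_gt.h25 Pool.Agent.Lib.MP_8d00da_gt.h42
open Pool.Agent.Lib.MP_8d00da_gt.h42s Pool.Agent.Lib.MP_8d00da_gt.h42o
open scoped Topology NNReal

variable {F : Type*} [NormedAddCommGroup F] [InnerProductSpace ℝ F]
    [FiniteDimensional ℝ F] [MeasurableSpace F] [BorelSpace F]

variable {h : F → ℝ}

/-- Integrability of second moments. -/
private lemma rpe_int (h0 : ∀ x, 0 ≤ h x) (hm : Measurable h)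
    (hi2 : Integrable fun x => ‖x‖ ^ 2 * h x) (θ θ' : F) :
    Integrable fun x => (inner ℝ θ x * inner ℝ θ' x) * h x := by
  refine (hi2.const_mul (‖θ‖ * ‖θ'‖)).mono' ?_ (Eventually.of_forall fun x => ?_)
  · have h1 : Measurable fun x : F => inner ℝ θ x * inner ℝ θ' x :=
      (((continuous_const.inner continuous_id).mul (continuous_const.inner continuous_id))).measurable
    exact (h1.mul hm).aestronglyMeasurable
  · rw [Real.norm_eq_abs, abs_mul, abs_of_nonneg (h0 x), abs_mul]
    have h1 := abs_real_inner_le_norm θ x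
    have h2 := abs_real_inner_le_norm θ' x
    have h3 : |inner ℝ θ x| * |inner ℝ θ' x| ≤ (‖θ‖ * ‖x‖) * (‖θ'‖ * ‖x‖) := by gcongr
    have h4 := mul_le_mul_of_nonneg_right h3 (h0 x)
    refine h4.trans (le_of_eq ?_)
    ring

/-- Change of variables for a continuous linear equivalence. -/
private lemma rpe_cv (P : F ≃L[ℝ] F) (g : F → ℝ) :
    ∫ x, g (P x) = |(LinearMap.det (P : F →ₗ[ℝ] F))|⁻¹ * ∫ x, g x := by
  have hdet : LinearMap.det (P : F →ₗ[ℝ] F) ≠ 0 := by
    have := (LinearEquiv.isUnit_det' P.toLinearEquiv).ne_zero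
    exact this
  have h1 := Measure.map_linearMap_addHaar_eq_smul_addHaar (volume : Measure F) hdet
  have h2 : Measure.map (P : F → F) (volume : Measure F) =
      ENNReal.ofReal |(LinearMap.det (P : F →ₗ[ℝ] F))⁻¹| • (volume : Measure F) := h1
  have h3 : ∫ x, g (P x) = ∫ y, g y ∂(Measure.map (P : F → F) volume) :=
    (P.toHomeomorph.measurableEmbedding.integral_map g).symm
  rw [h3, h2, integral_smul_measure, ENNReal.toReal_ofReal (abs_nonneg _), _root_.abs_inv, smul_eq_mul]

/-- `Bf θ θ' = ∫ ⟨θ, x⟩ ⟨θ', x⟩ h / ∫ h` is positive definite (the hyperplane `⟨θ, x⟩ = 0` has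
measure zero and `∫ h > 0`); take `S` from `exists_lin`, `P = (adjoint of S)⁻¹` and
`c = |det P| / ∫ h`: with `x = P⁻¹ y`, `∫ ⟨θ, x⟩² c h(P x) = (c / |det P|) ∫ ⟨θ, P⁻¹ y⟩² h(y)
= (1 / ∫ h) ∫ ⟨S θ, y⟩² h(y) = ‖θ‖²`. -/
theorem exists_pos (h0 : ∀ x, 0 ≤ h x) (hm : Measurable h) (hi : Integrable h)
    (hi2 : Integrable fun x => ‖x‖ ^ 2 * h x) (hpos : 0 < ∫ x, h x) :
    ∃ (P : F ≃L[ℝ] F) (c : ℝ), 0 < c ∧ ∫ x, c * h (P x) = 1 ∧
      ∀ θ : F, ∫ x, (inner ℝ θ x) ^ 2 * (c * h (P x)) = ‖θ‖ ^ 2 := by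
  set m : ℝ := ∫ x, h x with hmdef
  have hI := rpe_int h0 hm hi2
  let Bf : F →ₗ[ℝ] F →ₗ[ℝ] ℝ := LinearMap.mk₂ ℝ
    (fun θ θ' => (∫ x, (inner ℝ θ x * inner ℝ θ' x) * h x) / m)
    (by
      intro a b c
      rw [← add_div, ← integral_add (hI a c) (hI b c)]
      congr 2
      funext x
      rw [inner_add_left]
      ring)
    (by
      intro r a b
      rw [smul_eq_mul, ← mul_div_assoc, ← integral_const_mul]
      congr 2
      funext x
      rw [real_inner_smul_left]
      ring)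
    (by
      intro a b c
      rw [← add_div, ← integral_add (hI a b) (hI a c)]
      congr 2
      funext x
      rw [inner_add_left]
      ring)
    (by
      intro r a b
      rw [smul_eq_mul, ← mul_div_assoc, ← integral_const_mul]
      congr 2
      funext x
      rw [real_inner_smul_left]
      ring)
  have hBf : ∀ θ θ', Bf θ θ' = (∫ x, (inner ℝ θ x * inner ℝ θ' x) * h x) / m := fun θ θ' => rfl
  have hs : ∀ x y, Bf x y = Bf y x := by
    intro x y
    rw [hBf, hBf]
    congr 2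
    funext z
    ring
  have hp : ∀ θ, θ ≠ 0 → 0 < Bf θ θ := by
    intro θ hθ
    rw [hBf]
    refine div_pos ?_ hpos
    have hnn : 0 ≤ fun x => (inner ℝ θ x * inner ℝ θ x) * h x :=
      fun x => mul_nonneg (mul_self_nonneg _) (h0 x)
    refine lt_of_le_of_ne (integral_nonneg hnn) fun hz => ?_
    have h1 := (integral_eq_zero_iff_of_nonneg hnn (hI θ θ)).1 hz.symm
    have hker : (LinearMap.ker (innerₛₗ ℝ θ)) ≠ ⊤ := by
      intro htop
      have h2 : θ ∈ LinearMap.ker (innerₛₗ ℝ θ) := by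
        rw [htop]
        trivial
      have h3 : inner ℝ θ θ = (0 : ℝ) := by simpa using h2
      exact hθ (inner_self_eq_zero.1 h3)
    have h2 := Measure.addHaar_submodule (volume : Measure F) _ hker
    have h3 : ∀ᵐ x : F, inner ℝ θ x ≠ (0 : ℝ) := by
      rw [ae_iff]
      refine measure_mono_null (fun x hx => ?_) h2
      simpa using hx
    have h4 : h =ᵐ[volume] 0 := by
      filter_upwards [h1, h3] with x hx1 hx3
      simp only [Pi.zero_apply, mul_eq_zero] at hx1
      rcases hx1 with h | h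
      · rcases h with h | h <;> exact absurd h hx3
      · exact h
    have h5 : m = 0 := by
      rw [hmdef, integral_congr_ae h4]
      simp
    exact hpos.ne' h5
  obtain ⟨S, hS⟩ := exists_lin Bf hs hp
  have hadj : ∀ (A B : F →L[ℝ] F), A.comp B = ContinuousLinearMap.id ℝ F →
      ∀ x, (ContinuousLinearMap.adjoint B) ((ContinuousLinearMap.adjoint A) x) = x := by
    intro A B hAB x
    have h1 : (ContinuousLinearMap.adjoint B).comp (ContinuousLinearMap.adjoint A) =
        ContinuousLinearMap.id ℝ F := by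
      rw [← ContinuousLinearMap.adjoint_comp, hAB]
      ext1 x
      refine ext_inner_left ℝ fun y => ?_
      rw [ContinuousLinearMap.adjoint_inner_right]
      simp
    have h2 := congrArg (fun T : F →L[ℝ] F => T x) h1
    simpa using h2
  let P : F ≃L[ℝ] F := ContinuousLinearEquiv.equivOfInverse
    (ContinuousLinearMap.adjoint (S.symm : F →L[ℝ] F)) (ContinuousLinearMap.adjoint (S : F →L[ℝ] F))
    (by
      intro x
      exact hadj (S.symm : F →L[ℝ] F) (S : F →L[ℝ] F) (by ext1 x; simp) x)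
    (by
      intro x
      exact hadj (S : F →L[ℝ] F) (S.symm : F →L[ℝ] F) (by ext1 x; simp) x)
  have hPs : ∀ θ x, inner ℝ θ x = inner ℝ (S θ) (P x) := by
    intro θ x
    have h1 : P x = (ContinuousLinearMap.adjoint (S.symm : F →L[ℝ] F)) x := rfl
    rw [h1, ContinuousLinearMap.adjoint_inner_right]
    simp
  have hdet : 0 < |(LinearMap.det (P : F →ₗ[ℝ] F))| :=
    abs_pos.2 (LinearEquiv.isUnit_det' P.toLinearEquiv).ne_zero
  refine ⟨P, |(LinearMap.det (P : F →ₗ[ℝ] F))| / m, div_pos hdet hpos, ?_, fun θ => ?_⟩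
  · rw [integral_const_mul, rpe_cv P h, ← hmdef]
    field_simp
  · have h1 : ∀ x, (inner ℝ θ x) ^ 2 * (|(LinearMap.det (P : F →ₗ[ℝ] F))| / m * h (P x)) =
        (fun y => (|(LinearMap.det (P : F →ₗ[ℝ] F))| / m) *
          ((inner ℝ (S θ) y * inner ℝ (S θ) y) * h y)) (P x) := by
      intro x
      simp only
      rw [hPs θ x]
      ring
    simp only [h1]
    rw [rpe_cv P (fun y => (|(LinearMap.det (P : F →ₗ[ℝ] F))| / m) *
          ((inner ℝ (S θ) y * inner ℝ (S θ) y) * h y)), integral_const_mul]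
    have h2 := hS θ
    rw [hBf] at h2
    rw [← h2]
    field_simp

end Pool.Agent.Lib.MP_8d00da_gt.h97r
end

section

/-!
# Limits of the linearly invariant inequality
-/

namespace Pool.Agent.Lib.MP_8d00da_gt.h97r

open MeasureTheory Set Filter
open Pool.Agent.Lib.MP_8d00da_gt.h25 Pool.Agent.Lib.MP_8d00da_gt.h42
open Pool.Agent.Lib.MP_8d00da_gt.h42s Pool.Agent.Lib.MP_8d00da_gt.h42o
open scoped Topology NNReal

variable {F : Type*} [NormedAddCommGroup F] [InnerProductSpace ℝ F]
    [FiniteDimensional ℝ F] [MeasurableSpace F] [BorelSpace F]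


private lemma rlim_tendsto {hk : ℕ → F → ℝ} {h H : F → ℝ} (hm : ∀ k, Measurable (hk k))
    (h0 : ∀ k x, 0 ≤ hk k x) (hH : ∀ k x, hk k x ≤ H x)
    (hHi : Integrable fun x => (1 + ‖x‖ ^ 2) * H x)
    (hlim : ∀ᵐ x, Tendsto (fun k => hk k x) atTop (𝓝 (h x))) {φ : F → ℝ}
    (hφ : Measurable φ) {C : ℝ} (hC : ∀ x, |φ x| ≤ C * (1 + ‖x‖ ^ 2)) :
    Tendsto (fun k => ∫ x, φ x * hk k x) atTop (𝓝 (∫ x, φ x * h x)) := by
  refine tendsto_integral_of_dominated_convergence (fun x => C * ((1 + ‖x‖ ^ 2) * H x))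
    (fun k => (hφ.mul (hm k)).aestronglyMeasurable) (hHi.const_mul C) (fun k => ?_) ?_
  · filter_upwards with x
    rw [Real.norm_eq_abs, abs_mul, abs_of_nonneg (h0 k x), ← mul_assoc]
    exact mul_le_mul (hC x) (hH k x) (h0 k x) ((abs_nonneg _).trans (hC x))
  · filter_upwards [hlim] with x hx
    exact hx.const_mul (φ x)

private lemma rlim_meas (f : F → ℝ) {g : F → ℝ} (hg : Measurable g) :
    Measurable fun y => ∫ x, (fderiv ℝ f y x) ^ 2 * g x := by
  have h1 : Measurable fun p : F × F => fderiv ℝ f p.1 p.2 := by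
    have h2 : Continuous fun p : (F →L[ℝ] ℝ) × F => p.1 p.2 :=
      isBoundedBilinearMap_apply.continuous
    exact h2.measurable.comp (((measurable_fderiv ℝ f).comp measurable_fst).prodMk measurable_snd)
  have h3 : Measurable fun p : F × F => (fderiv ℝ f p.1 p.2) ^ 2 * g p.2 :=
    (h1.pow_const 2).mul (hg.comp measurable_snd)
  exact h3.stronglyMeasurable.integral_prod_right.measurable

/-- Dominated convergence: `∫ φ hk → ∫ φ h` for measurable `φ` with `|φ x| ≤ C (1 + ‖x‖²)`
(compare the private lemma in `h42o/OLim.lean`). For `f` Lipschitz with constant `K`,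
`(fderiv f y x)² ≤ K² ‖x‖²`; the inner integrals converge for each `y` and are bounded by
`K² ∫ ‖x‖² H`; measurability in `y`: expand `fderiv f y x = ∑ i, ⟨e i, x⟩ fderiv f y (e i)` in the
standard orthonormal basis, so the right side of `QJ` is a finite sum
`∑ i j, (∫ ⟨e i, x⟩ ⟨e j, x⟩ h) (∫ ∂_i f ∂_j f h)`, and every factor converges. -/
theorem QJ_limit {C : ℝ} {hk : ℕ → F → ℝ} {h H : F → ℝ} (hm : ∀ k, Measurable (hk k))
    (h0 : ∀ k x, 0 ≤ hk k x) (hH : ∀ k x, hk k x ≤ H x)
    (hHi : Integrable fun x => (1 + ‖x‖ ^ 2) * H x)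
    (hlim : ∀ᵐ x, Tendsto (fun k => hk k x) atTop (𝓝 (h x))) (hQ : ∀ k, QJ C (hk k)) :
    QJ C h := by
  intro f hf
  obtain ⟨⟨L, hL⟩, A, hA⟩ := hf
  have hfm : Measurable f := hL.continuous.measurable
  have hA0 : 0 ≤ A := (abs_nonneg _).trans (hA 0)
  have hn2 : ∀ x : F, (1 : ℝ) ≤ 1 + ‖x‖ ^ 2 := fun x => by have := sq_nonneg ‖x‖; linarith
  have t1 : Tendsto (fun k => ∫ x, f x ^ 2 * hk k x) atTop (𝓝 (∫ x, f x ^ 2 * h x)) := by
    refine rlim_tendsto hm h0 hH hHi hlim (hfm.pow_const 2) (C := A ^ 2) fun x => ?_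
    rw [abs_of_nonneg (sq_nonneg _)]
    have h1 : f x ^ 2 ≤ A ^ 2 := sq_le_sq' (neg_le_of_abs_le (hA x)) (le_of_abs_le (hA x))
    nlinarith [hn2 x, sq_nonneg A]
  have t2 : Tendsto (fun k => ∫ x, f x * hk k x) atTop (𝓝 (∫ x, f x * h x)) := by
    refine rlim_tendsto hm h0 hH hHi hlim hfm (C := A) fun x => ?_
    have := hA x
    nlinarith [hn2 x]
  have t3 : Tendsto (fun k => ∫ x, hk k x) atTop (𝓝 (∫ x, h x)) := by
    have := rlim_tendsto hm h0 hH hHi hlim (φ := fun _ => 1) measurable_const (C := 1) fun x => by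
      rw [abs_one, one_mul]; exact hn2 x
    simpa using this
  -- the inner integral
  have hbd : ∀ y x : F, (fderiv ℝ f y x) ^ 2 ≤ (L : ℝ) ^ 2 * (1 + ‖x‖ ^ 2) := by
    intro y x
    have h1 : ‖fderiv ℝ f y x‖ ≤ L * ‖x‖ := by
      refine ((fderiv ℝ f y).le_opNorm x).trans ?_
      have h2 := norm_fderiv_le_of_lipschitz ℝ hL (x₀ := y)
      gcongr
    have h2 : (fderiv ℝ f y x) ^ 2 ≤ ((L : ℝ) * ‖x‖) ^ 2 := by
      rw [← sq_abs]
      exact pow_le_pow_left₀ (abs_nonneg _) h1 2
    have h3 : 0 ≤ (L : ℝ) ^ 2 := sq_nonneg _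
    rw [mul_pow] at h2
    linarith
  have t4 : ∀ y, Tendsto (fun k => ∫ x, (fderiv ℝ f y x) ^ 2 * hk k x) atTop
      (𝓝 (∫ x, (fderiv ℝ f y x) ^ 2 * h x)) := by
    intro y
    refine rlim_tendsto hm h0 hH hHi hlim (((fderiv ℝ f y).continuous.measurable).pow_const 2)
      (C := (L : ℝ) ^ 2) fun x => ?_
    rw [abs_of_nonneg (sq_nonneg _)]
    exact hbd y x
  set I : ℝ := ∫ x, (1 + ‖x‖ ^ 2) * H x with hI
  have hHn : ∀ x, 0 ≤ H x := fun x => (h0 0 x).trans (hH 0 x)
  have hA4 : ∀ k y, |∫ x, (fderiv ℝ f y x) ^ 2 * hk k x| ≤ (L : ℝ) ^ 2 * I := by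
    intro k y
    have h5 : ∀ x, 0 ≤ (fderiv ℝ f y x) ^ 2 * hk k x := fun x => mul_nonneg (sq_nonneg _) (h0 k x)
    rw [abs_of_nonneg (integral_nonneg h5), hI, ← integral_const_mul]
    refine integral_mono_of_nonneg (Eventually.of_forall h5) (hHi.const_mul _)
      (Eventually.of_forall fun x => ?_)
    show (fderiv ℝ f y x) ^ 2 * hk k x ≤ (L : ℝ) ^ 2 * ((1 + ‖x‖ ^ 2) * H x)
    rw [← mul_assoc]
    exact mul_le_mul (hbd y x) (hH k x) (h0 k x) ((sq_nonneg _).trans (hbd y x))
  have hHi' : Integrable fun y => (L : ℝ) ^ 2 * I * ((1 + ‖y‖ ^ 2) * H y) := hHi.const_mul _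
  have hI0 : 0 ≤ (L : ℝ) ^ 2 * I := (abs_nonneg _).trans (hA4 0 0)
  have t5 : Tendsto (fun k => ∫ y, (∫ x, (fderiv ℝ f y x) ^ 2 * hk k x) * hk k y) atTop
      (𝓝 (∫ y, (∫ x, (fderiv ℝ f y x) ^ 2 * h x) * h y)) := by
    refine tendsto_integral_of_dominated_convergence _
      (fun k => ((rlim_meas f (hm k)).mul (hm k)).aestronglyMeasurable) hHi' (fun k => ?_) ?_
    · filter_upwards with y
      rw [Real.norm_eq_abs, abs_mul, abs_of_nonneg (h0 k y)]
      have h6 : hk k y ≤ (1 + ‖y‖ ^ 2) * H y := by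
        have h7 := hH k y
        nlinarith [hn2 y, hHn y]
      exact mul_le_mul (hA4 k y) h6 (h0 k y) hI0
    · filter_upwards [hlim] with y hy
      exact (t4 y).mul hy
  have l1 := (t1.mul t3).sub (t2.pow 2)
  have l2 := t5.const_mul C
  exact le_of_tendsto_of_tendsto l1 l2 (Eventually.of_forall fun k => hQ k f ⟨⟨L, hL⟩, A, hA⟩)

end Pool.Agent.Lib.MP_8d00da_gt.h97r
end

section

/-!
# The linearly invariant inequality
-/

namespace Pool.Agent.Lib.MP_8d00da_gt.h97r

open MeasureTheory Set Filter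
open Pool.Agent.Lib.MP_8d00da_gt.h25 Pool.Agent.Lib.MP_8d00da_gt.h42
open Pool.Agent.Lib.MP_8d00da_gt.h42s Pool.Agent.Lib.MP_8d00da_gt.h42o
open scoped Topology NNReal

variable {F : Type*} [NormedAddCommGroup F] [InnerProductSpace ℝ F]
    [FiniteDimensional ℝ F] [MeasurableSpace F] [BorelSpace F]

variable {h : F → ℝ}

private lemma RQJ_cv (P : F ≃L[ℝ] F) :
    ∃ J : ℝ, 0 < J ∧ ∀ Φ : F → ℝ, ∫ x, Φ (P x) = J * ∫ x, Φ x := by
  have hdet : LinearMap.det (P : F →ₗ[ℝ] F) ≠ 0 :=
    (LinearEquiv.isUnit_det' P.toLinearEquiv).ne_zero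
  have hmap := Measure.map_linearMap_addHaar_eq_smul_addHaar (volume : Measure F) hdet
  refine ⟨|(LinearMap.det (P : F →ₗ[ℝ] F))⁻¹|, abs_pos.2 (inv_ne_zero hdet), fun Φ => ?_⟩
  have h1 : ∫ x, Φ (P x) = ∫ x, Φ x ∂(Measure.map (P : F →ₗ[ℝ] F) volume) := by
    have h2 := (P.toHomeomorph.toMeasurableEquiv).measurableEmbedding.integral_map
      (μ := (volume : Measure F)) Φ
    exact h2.symm
  rw [h1, hmap, integral_smul_measure, ENNReal.toReal_ofReal (abs_nonneg _), smul_eq_mul]

/-- Both sides are quadratic in `h`. -/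
theorem QJ.smul {C : ℝ} (hQ : QJ C h) (c : ℝ) : QJ C fun x => c * h x := by
  intro f hf
  have h1 := hQ f hf
  have e1 : ∫ x, f x ^ 2 * (c * h x) = c * ∫ x, f x ^ 2 * h x := by
    rw [← integral_const_mul]
    exact integral_congr_ae (Eventually.of_forall fun x => by simp only; ring)
  have e2 : ∫ x, c * h x = c * ∫ x, h x := integral_const_mul _ _
  have e3 : ∫ x, f x * (c * h x) = c * ∫ x, f x * h x := by
    rw [← integral_const_mul]
    exact integral_congr_ae (Eventually.of_forall fun x => by simp only; ring)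
  have e4 : ∀ y, ∫ x, (fderiv ℝ f y x) ^ 2 * (c * h x) = c * ∫ x, (fderiv ℝ f y x) ^ 2 * h x := by
    intro y
    rw [← integral_const_mul]
    exact integral_congr_ae (Eventually.of_forall fun x => by simp only; ring)
  have e5 : ∫ y, (∫ x, (fderiv ℝ f y x) ^ 2 * (c * h x)) * (c * h y) =
      c ^ 2 * ∫ y, (∫ x, (fderiv ℝ f y x) ^ 2 * h x) * h y := by
    rw [← integral_const_mul]
    refine integral_congr_ae (Eventually.of_forall fun y => ?_)
    simp only
    rw [e4]
    ring
  rw [e1, e2, e3, e5]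
  have h2 := mul_le_mul_of_nonneg_left h1 (sq_nonneg c)
  nlinarith [h2]

/-- Apply `hQ` to `f ∘ P` and change variables (`J = |det P|⁻¹` to the power two on both sides);
`fderiv (f ∘ P) y x = fderiv f (P y) (P x)` (`ContinuousLinearEquiv.comp_right_fderiv`). -/
theorem QJ.of_comp_lin {C : ℝ} (P : F ≃L[ℝ] F) (hQ : QJ C fun x => h (P x)) : QJ C h := by
  obtain ⟨J, hJ, hcv⟩ := RQJ_cv P
  intro f hf
  have hf' : BL fun x => f (P x) := hf.comp P.toContinuousLinearMap.lipschitz
  have h1 := hQ _ hf'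
  have hder : ∀ y x, fderiv ℝ (fun x => f (P x)) y x = fderiv ℝ f (P y) (P x) := by
    intro y x
    have h2 := P.comp_right_fderiv (f := f) (x := y)
    have h3 : (fun x => f (P x)) = f ∘ P := rfl
    rw [h3, h2]
    rfl
  have e1 : ∫ x, f (P x) ^ 2 * h (P x) = J * ∫ x, f x ^ 2 * h x :=
    hcv fun x => f x ^ 2 * h x
  have e2 : ∫ x, h (P x) = J * ∫ x, h x := hcv h
  have e3 : ∫ x, f (P x) * h (P x) = J * ∫ x, f x * h x := hcv fun x => f x * h x
  have e4 : ∀ y, ∫ x, (fderiv ℝ (fun x => f (P x)) y x) ^ 2 * h (P x) =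
      J * ∫ x, (fderiv ℝ f (P y) x) ^ 2 * h x := by
    intro y
    simp only [hder]
    exact hcv fun x => (fderiv ℝ f (P y) x) ^ 2 * h x
  have e5 : ∫ y, (∫ x, (fderiv ℝ (fun x => f (P x)) y x) ^ 2 * h (P x)) * h (P y) =
      J ^ 2 * ∫ y, (∫ x, (fderiv ℝ f y x) ^ 2 * h x) * h y := by
    simp only [e4]
    rw [hcv fun y => (J * ∫ x, (fderiv ℝ f y x) ^ 2 * h x) * h y]
    rw [← integral_const_mul, ← integral_const_mul]
    exact integral_congr_ae (Eventually.of_forall fun x => by simp only; ring)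
  rw [e1, e2, e3, e5] at h1
  have hJ2 : 0 < J ^ 2 := by positivity
  refine le_of_mul_le_mul_left (a := J ^ 2) ?_ hJ2
  calc J ^ 2 * ((∫ x, f x ^ 2 * h x) * (∫ x, h x) - (∫ x, f x * h x) ^ 2)
      = J * (∫ x, f x ^ 2 * h x) * (J * ∫ x, h x) - (J * ∫ x, f x * h x) ^ 2 := by ring
    _ ≤ _ := h1
    _ = _ := by ring

/-- `∫ (fderiv f y x)² h x dx = ‖fderiv f y‖²` (Riesz representation). -/
theorem QJ_of_Vr {C : ℝ} (hm : ∫ x, h x = 1)
    (hiso : ∀ θ : F, ∫ x, (inner ℝ θ x) ^ 2 * h x = ‖θ‖ ^ 2)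
    (hV : ∀ f : F → ℝ, BL f → Vr h f ≤ C * En h f) : QJ C h := by
  intro f hf
  have h1 := hV f hf
  have h2 : ∀ y, ∫ x, (fderiv ℝ f y x) ^ 2 * h x = ‖fderiv ℝ f y‖ ^ 2 := by
    intro y
    have h3 := hiso ((InnerProductSpace.toDual ℝ F).symm (fderiv ℝ f y))
    rw [LinearIsometryEquiv.norm_map] at h3
    simp only [InnerProductSpace.toDual_symm_apply] at h3
    exact h3
  simp only [h2]
  unfold Vr En at h1
  rw [hm, div_one] at h1
  rw [hm, mul_one]
  exact h1

end Pool.Agent.Lib.MP_8d00da_gt.h97r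
end
end

section

section

/-!
# Mollification of potentials with bounded second differences
-/

namespace Pool.Agent.Lib.MP_8d00da_gt.h42k

open MeasureTheory Set Filter
open scoped Topology NNReal ENNReal ContDiff Convolution

set_option linter.unusedSectionVars false
set_option linter.unusedVariables false

variable {ι : Type*} [Fintype ι] [DecidableEq ι]

variable {κ M : ℝ} {W : (ι → ℝ) → ℝ}

private theorem L11b_one {φ φ1 φ2 : ℝ → ℝ} {c : ℝ} (h1 : ∀ s, HasDerivAt φ (φ1 s) s)
    (h2 : ∀ s, HasDerivAt φ1 (φ2 s) s) (h : ∀ s, c * s ^ 2 ≤ φ s + φ (-s) - 2 * φ 0) :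
    c ≤ φ2 0 := by
  by_contra hlt
  rw [not_le] at hlt
  set η : ℝ := (c - φ2 0) / 2 with hη
  have hη0 : 0 < η := by rw [hη]; linarith
  set ψ : ℝ → ℝ := fun s => φ s + φ (-s) - 2 * φ 0 - (c - η) * s ^ 2 with hψ
  have hneg : ∀ s : ℝ, HasDerivAt (fun s : ℝ => -s) (-1) s := fun s => (hasDerivAt_id s).neg
  have hψ1 : ∀ s, HasDerivAt ψ (φ1 s - φ1 (-s) - 2 * (c - η) * s) s := by
    intro s
    have e1 := (h1 (-s)).comp s (hneg s)
    have e2 : HasDerivAt (fun s : ℝ => (c - η) * s ^ 2) (2 * (c - η) * s) s := by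
      have := ((hasDerivAt_id s).pow 2).const_mul (c - η)
      refine this.congr_deriv ?_
      simp
      ring
    have e3 := (((h1 s).add e1).sub_const (2 * φ 0)).sub e2
    refine e3.congr_deriv ?_
    ring
  have hd1 : deriv ψ = fun s => φ1 s - φ1 (-s) - 2 * (c - η) * s := funext fun s => (hψ1 s).deriv
  have hψ2 : HasDerivAt (fun s => φ1 s - φ1 (-s) - 2 * (c - η) * s)
      (2 * φ2 0 - 2 * (c - η)) 0 := by
    have e1 := (h2 (-0)).comp (0 : ℝ) (hneg 0)
    have e2 := ((h2 0).sub e1).sub ((hasDerivAt_id (0 : ℝ)).const_mul (2 * (c - η)))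
    refine e2.congr_deriv ?_
    rw [neg_zero]
    ring
  have hmax : IsLocalMax ψ 0 := by
    refine isLocalMax_of_deriv_deriv_neg ?_ ?_ (hψ1 0).continuousAt
    · rw [hd1, hψ2.deriv, hη]
      linarith
    · rw [hd1]
      simp
  have hz : ψ 0 = 0 := by
    simp only [hψ]
    rw [neg_zero]
    ring
  have hev : ∀ᶠ s in 𝓝 (0 : ℝ), ψ s ≤ 0 := by
    filter_upwards [hmax] with s hs
    rwa [hz] at hs
  obtain ⟨ε, hε, hb⟩ := Metric.eventually_nhds_iff.1 hev
  have h3 := hb (y := ε / 2) (by rw [dist_zero_right, Real.norm_eq_abs, abs_of_pos (by positivity)]; linarith)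
  have h4 := h (ε / 2)
  simp only [hψ] at h3
  have h5 : 0 < η * (ε / 2) ^ 2 := by positivity
  nlinarith

/-- Lower bound for the Hessian from second differences. -/
theorem hs_ge_of_sd {g : (ι → ℝ) → ℝ} (hg : ContDiff ℝ 2 g) {c : ℝ}
    (h : ∀ x u, c * sq u ≤ g (x + u) + g (x - u) - 2 * g x) (x u : ι → ℝ) :
    c * sq u ≤ hs g x u := by
  have h1 := L11b_one (fun s => (hs_line hg x u s).2) (fun s => (hs_line hg x u s).1)
    (c := c * sq u) (fun s => by
      have h2 := h x (s • u)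
      have h3 : sq (s • u) = s ^ 2 * sq u := sq_smul s u
      rw [h3] at h2
      rw [zero_smul, add_zero, neg_smul, ← sub_eq_add_neg]
      linarith)
  simpa only [zero_smul, add_zero] using h1

/-- Upper bound for the Hessian from second differences. -/
theorem hs_le_of_sd {g : (ι → ℝ) → ℝ} (hg : ContDiff ℝ 2 g) {c : ℝ}
    (h : ∀ x u, g (x + u) + g (x - u) - 2 * g x ≤ c * sq u) (x u : ι → ℝ) :
    hs g x u ≤ c * sq u := by
  have h1 := L11b_one (fun s => (hs_line hg x u s).2.neg) (fun s => (hs_line hg x u s).1.neg)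
    (c := -(c * sq u)) (fun s => by
      have h2 := h x (s • u)
      have h3 : sq (s • u) = s ^ 2 * sq u := sq_smul s u
      rw [h3] at h2
      have h4 : x + (-s) • u = x - s • u := by rw [neg_smul, ← sub_eq_add_neg]
      simp only [Pi.neg_apply]
      rw [zero_smul, add_zero, h4]
      linarith)
  simp only [zero_smul, add_zero] at h1
  linarith

/-- Mollification: a continuous `W` with second differences between `κ|u|²` and `M|u|²` is a uniform
limit from above of nice potentials with the same constants. -/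
theorem exists_nice (hκ : 0 < κ) (hW : Continuous W)
    (h1 : ∀ x u, κ * sq u ≤ W (x + u) + W (x - u) - 2 * W x)
    (h2 : ∀ x u, W (x + u) + W (x - u) - 2 * W x ≤ M * sq u) {r : ℝ} (hr : 0 < r) :
    ∃ W' : (ι → ℝ) → ℝ, Nice κ M W' ∧ ∀ x, W x ≤ W' x ∧
      W' x ≤ W x + |M| / 2 * (Fintype.card ι * r ^ 2) := by
  let φ : ContDiffBump (0 : ι → ℝ) := ⟨r / 2, r, half_pos hr, half_lt_self hr⟩
  set ρ : (ι → ℝ) → ℝ := φ.normed volume with hρ
  have hρc : Continuous ρ := φ.continuous_normed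
  have hρs : HasCompactSupport ρ := φ.hasCompactSupport_normed
  have hρ0 : ∀ y, 0 ≤ ρ y := fun y => φ.nonneg_normed y
  have hρ1 : ∫ y, ρ y = 1 := φ.integral_normed
  have hρn : ∀ y, ρ (-y) = ρ y := fun y => φ.normed_neg y
  have hρsupp : ∀ y, ρ y ≠ 0 → ‖y‖ < r := by
    intro y hy
    have h3 : y ∈ Function.support ρ := hy
    rw [hρ, φ.support_normed_eq] at h3
    simpa using h3
  have hint : ∀ {g : (ι → ℝ) → ℝ}, Continuous g → Integrable fun y => ρ y * g y := by
    intro g hg
    exact (hρc.mul hg).integrable_of_hasCompactSupport hρs.mul_right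
  set W' : (ι → ℝ) → ℝ := ρ ⋆[ContinuousLinearMap.lsmul ℝ ℝ, volume] W with hW'
  have hWe : ∀ x, W' x = ∫ y, ρ y * W (x - y) := fun x => rfl
  have hWi : ∀ x, Integrable fun y => ρ y * W (x - y) := fun x => hint (by fun_prop)
  have hsm : ContDiff ℝ 2 W' :=
    hρs.contDiff_convolution_left (ContinuousLinearMap.lsmul ℝ ℝ) φ.contDiff_normed
      hW.locallyIntegrable
  have hsd : ∀ x u, W' (x + u) + W' (x - u) - 2 * W' x =
      ∫ y, ρ y * (W (x - y + u) + W (x - y - u) - 2 * W (x - y)) := by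
    intro x u
    have i3 : Integrable fun y => ρ y * W (x + u - y) + ρ y * W (x - u - y) :=
      (hWi _).add (hWi _)
    have i4 : Integrable fun y => 2 * (ρ y * W (x - y)) := (hWi x).const_mul 2
    rw [hWe, hWe, hWe, ← integral_add (hWi _) (hWi _), ← integral_const_mul,
      ← integral_sub i3 i4]
    refine integral_congr_ae (Eventually.of_forall fun y => ?_)
    simp only
    rw [show x + u - y = x - y + u by abel, show x - u - y = x - y - u by abel]
    ring
  have hρi : Integrable ρ := by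
    have := hint (g := fun _ => 1) continuous_const
    simpa using this
  have hlo : ∀ x u, κ * sq u ≤ W' (x + u) + W' (x - u) - 2 * W' x := by
    intro x u
    rw [hsd]
    have h3 : κ * sq u = ∫ y, ρ y * (κ * sq u) := by
      rw [integral_mul_const, hρ1, one_mul]
    rw [h3]
    refine integral_mono (hρi.mul_const _) (hint (by fun_prop)) fun y => ?_
    exact mul_le_mul_of_nonneg_left (h1 _ _) (hρ0 y)
  have hhi : ∀ x u, W' (x + u) + W' (x - u) - 2 * W' x ≤ M * sq u := by
    intro x u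
    rw [hsd]
    have h3 : M * sq u = ∫ y, ρ y * (M * sq u) := by
      rw [integral_mul_const, hρ1, one_mul]
    rw [h3]
    refine integral_mono (hint (by fun_prop)) (hρi.mul_const _) fun y => ?_
    exact mul_le_mul_of_nonneg_left (h2 _ _) (hρ0 y)
  have hsym : ∀ x, W' x = ∫ y, ρ y * W (x + y) := by
    intro x
    rw [hWe, ← integral_neg_eq_self]
    refine integral_congr_ae (Eventually.of_forall fun y => ?_)
    simp only
    rw [hρn, sub_neg_eq_add]
  have hdiff : ∀ x, 2 * (W' x - W x) = ∫ y, ρ y * (W (x + y) + W (x - y) - 2 * W x) := by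
    intro x
    have e1 : W x = ∫ y, ρ y * W x := by rw [integral_mul_const, hρ1, one_mul]
    have i1 : Integrable fun y => ρ y * W (x + y) := hint (by fun_prop)
    have i2 : Integrable fun y => ρ y * W x := hρi.mul_const _
    have e2 : 2 * (W' x - W x) = (∫ y, ρ y * W (x + y)) + (∫ y, ρ y * W (x - y)) -
        2 * ∫ y, ρ y * W x := by
      rw [← hsym, ← hWe, ← e1]
      ring
    have i3 : Integrable fun y => ρ y * W (x + y) + ρ y * W (x - y) := i1.add (hWi x)
    have i4 : Integrable fun y => 2 * (ρ y * W x) := i2.const_mul 2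
    rw [e2, ← integral_add i1 (hWi x), ← integral_const_mul, ← integral_sub i3 i4]
    refine integral_congr_ae (Eventually.of_forall fun y => ?_)
    simp only
    ring
  refine ⟨W', ⟨hκ, hsm, hs_ge_of_sd hsm hlo, hs_le_of_sd hsm hhi⟩, fun x => ⟨?_, ?_⟩⟩
  · have h3 : 0 ≤ 2 * (W' x - W x) := by
      rw [hdiff]
      refine integral_nonneg fun y => mul_nonneg (hρ0 y) ?_
      exact (mul_nonneg hκ.le (sq_nn y)).trans (h1 x y)
    linarith
  · have h3 : 2 * (W' x - W x) ≤ |M| * (Fintype.card ι * r ^ 2) := by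
      rw [hdiff]
      have h4 : |M| * (Fintype.card ι * r ^ 2) = ∫ y, ρ y * (|M| * (Fintype.card ι * r ^ 2)) := by
        rw [integral_mul_const, hρ1, one_mul]
      rw [h4]
      refine integral_mono (hint (by fun_prop)) (hρi.mul_const _) fun y => ?_
      simp only
      by_cases hy : ρ y = 0
      · rw [hy, zero_mul, zero_mul]
      · refine mul_le_mul_of_nonneg_left ?_ (hρ0 y)
        have h5 : ‖y‖ < r := hρsupp y hy
        have h6 : sq y ≤ Fintype.card ι * r ^ 2 := by
          calc sq y = ∑ i, y i ^ 2 := rfl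
            _ ≤ ∑ _i : ι, r ^ 2 := by
              refine Finset.sum_le_sum fun i _ => ?_
              rw [← sq_abs]
              refine pow_le_pow_left₀ (abs_nonneg _) ?_ 2
              rw [← Real.norm_eq_abs]
              exact (norm_le_pi_norm y i).trans h5.le
            _ = _ := by rw [Finset.sum_const, Finset.card_univ, nsmul_eq_mul]
        calc W (x + y) + W (x - y) - 2 * W x ≤ M * sq y := h2 x y
          _ ≤ |M| * sq y := mul_le_mul_of_nonneg_right (le_abs_self M) (sq_nn y)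
          _ ≤ _ := mul_le_mul_of_nonneg_left h6 (abs_nonneg M)
    linarith

end Pool.Agent.Lib.MP_8d00da_gt.h42k
end

section

namespace Pool.Agent.Lib.MP_8d00da_gt.h42r
end Pool.Agent.Lib.MP_8d00da_gt.h42r


/-!
# KLS for sublevel sets of sums of powers, all exponents: definitions
-/

namespace Pool.Agent.Lib.MP_8d00da_gt.h42t

open MeasureTheory Set Filter
open Pool.Agent.Lib.MP_8d00da_gt.h25 Pool.Agent.Lib.MP_8d00da_gt.h42
open Pool.Agent.Lib.MP_8d00da_gt.h42s Pool.Agent.Lib.MP_8d00da_gt.h42o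
open Pool.Agent.Lib.MP_8d00da_gt.h97r Pool.Agent.Lib.MP_8d00da_gt.h42r
open scoped Topology NNReal ENNReal

set_option linter.unusedSectionVars false

variable {F : Type*} [NormedAddCommGroup F] [InnerProductSpace ℝ F]
    [FiniteDimensional ℝ F] [MeasurableSpace F] [BorelSpace F]

variable {G : Type*} [NormedAddCommGroup G] [InnerProductSpace ℝ G]
    [FiniteDimensional ℝ G] [MeasurableSpace G] [BorelSpace G]

variable {ι : Type*} [Fintype ι]

/-- The product of the weight `h` over the `q + 1` points `y - ∑ s i`, `s 0, …, s (q-1)`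
(whose sum is `y`). -/
noncomputable def hm {q : ℕ} (h : F → ℝ) (y : F) (s : Fin q → F) : ℝ :=
  h (y - ∑ i, s i) * ∏ i, h (s i)

/-- The mean of `A` over the `q + 1` points. -/
noncomputable def cm {q : ℕ} (A : F → ℝ) (y : F) (s : Fin q → F) : ℝ :=
  (A (y - ∑ i, s i) + ∑ i, A (s i)) / (q + 1)

/-- The parallel sum of `ω` over the `q + 1` points. -/
noncomputable def xm {q : ℕ} (ω : F → ℝ) (y : F) (s : Fin q → F) : ℝ :=
  ((ω (y - ∑ i, s i))⁻¹ + ∑ i, (ω (s i))⁻¹)⁻¹

/-- Lower bound for the total second difference of the `q + 1` points, if their sum is moved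
by `u`. -/
noncomputable def TT {q : ℕ} (P : ι → F →L[ℝ] G) (ω : ι → F → ℝ) (κ r : ℝ) (y : F)
    (s : Fin q → F) (u : F) : ℝ :=
  max (min (∑ j, xm (ω j) y s * ‖P j u‖ ^ 2) (κ * r ^ 2)) (κ * ‖u‖ ^ 2 / (q + 1))

/-- The density of the sum of `q + 1` independent copies (not normalised). -/
noncomputable def P0 (q : ℕ) (h : F → ℝ) (y : F) : ℝ := ∫ s : Fin q → F, hm h y s

noncomputable def P1 (q : ℕ) (h A : F → ℝ) (y : F) : ℝ :=
  ∫ s : Fin q → F, hm h y s * √(cm A y s)

noncomputable def P2 (q : ℕ) (h A : F → ℝ) (y : F) : ℝ := ∫ s : Fin q → F, hm h y s * cm A y s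

/-- The averaged weight. -/
noncomputable def oh (q : ℕ) (h ω : F → ℝ) (y : F) : ℝ := ∫ s : Fin q → F, hm h y s * xm ω y s

/-- The averaged decrease. -/
noncomputable def DD (q : ℕ) (h A : F → ℝ) (P : ι → F →L[ℝ] G) (ω : ι → F → ℝ) (κ r : ℝ)
    (y u : F) : ℝ :=
  ∫ s : Fin q → F, hm h y s * (cm A y s * TT P ω κ r y s u / (cm A y s + TT P ω κ r y s u))

/-- The perturbed weight at `x`. -/
noncomputable def RR (q : ℕ) (h A f : F → ℝ) (c ε : ℝ) (z x : F) : ℝ :=
  ∫ s : Fin q → F, h x * hm h (z - x) s * (max (√(A x * cm A (z - x) s) + ε * (f x - c)) 0) ^ 2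

/-- `κ/(q+1) + ∑ X_j ‖P_j‖²`. -/
noncomputable def bS {q : ℕ} (P : ι → F →L[ℝ] G) (ω : ι → F → ℝ) (κ : ℝ) (y : F)
    (s : Fin q → F) : ℝ :=
  κ / (q + 1) + ∑ j, xm (ω j) y s * ‖P j‖ ^ 2

/-- Truncation error. -/
noncomputable def tS {q : ℕ} (A : F → ℝ) (P : ι → F →L[ℝ] G) (ω : ι → F → ℝ) (κ r ρ : ℝ) (y : F)
    (s : Fin q → F) : ℝ :=
  min 1 (bS P ω κ y s * ρ ^ 2 / cm A y s + bS P ω κ y s * ρ ^ 2 / (κ * r ^ 2))

/-- Averaged truncation error; it tends to `0` with `ρ`. -/
noncomputable def bt (q : ℕ) (h A : F → ℝ) (P : ι → F →L[ℝ] G) (ω : ι → F → ℝ) (κ r ρ : ℝ)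
    (y : F) : ℝ :=
  ∫ s : Fin q → F, hm h y s * ((1 + bS P ω κ y s) * tS A P ω κ r ρ y s)

/-- Data for the averaged inequality with `q + 1` auxiliary copies: a weight `h`, a function `A`
(concave on `{h > 0}`, or constant) and weights `ω_j` bounding the second differences. -/
structure PD (q : ℕ) (h A : F → ℝ) (P : ι → F →L[ℝ] G) (ω : ι → F → ℝ) (κ r Hb Ab : ℝ) :
    Prop where
  κpos : 0 < κ
  rpos : 0 < r
  meas : Measurable h
  h0 : ∀ x, 0 ≤ h x
  hb : ∀ x, h x ≤ Hb
  hi : Integrable h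
  Am : Measurable A
  A0 : ∀ x, 0 ≤ A x
  Ab : ∀ x, A x ≤ Ab
  Apos : ∀ x, 0 < h x → 0 < A x
  ωm : ∀ j, Measurable (ω j)
  ω0 : ∀ j x, 0 ≤ ω j x
  ωpos : ∀ j x, 0 < h x → 0 < ω j x
  ωi : ∀ j, Integrable fun x => h x * ω j x
  mid1 : ∀ (x y u : F) (s v : Fin q → F),
    (h (x + u) * hm h (y - u) (s + v)) * (h (x - u) * hm h (y + u) (s - v)) ≤
      (h x * hm h y s) ^ 2
  mid2 : ∀ (x y u : F) (s v : Fin q → F),
    √((h (x + u) * hm h (y - u) (s + v)) * (h (x - u) * hm h (y + u) (s - v))) *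
      ((√(A (x + u) * cm A (y - u) (s + v)) + √(A (x - u) * cm A (y + u) (s - v))) / 2) ^ 2 ≤
      h x * hm h y s * (A x * (cm A y s ^ 2 / (cm A y s + TT P ω κ r y s u)))

/-- `QJ` for smooth test functions. -/
def QJS (C : ℝ) (h : F → ℝ) : Prop :=
  ∀ f : F → ℝ, Sm f → (∫ x, f x ^ 2 * h x) * (∫ x, h x) - (∫ x, f x * h x) ^ 2 ≤
    C * ∫ y, (∫ x, (fderiv ℝ f y x) ^ 2 * h x) * h y

/-- `A` is concave on `{h > 0}`. -/
def ACon (h A : F → ℝ) : Prop :=
  ∀ x y, 0 < h x → 0 < h y → ∀ a : ℝ, 0 ≤ a → a ≤ 1 →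
    (1 - a) * A x + a * A y ≤ A ((1 - a) • x + a • y)

/-- The marginal of `hm h y` on one of the points. -/
noncomputable def wy (q : ℕ) (h : F → ℝ) (y x : F) : ℝ := h x * P0 q h (y - x)

/-- The constant in Borell's lemma for moments. -/
noncomputable def cK (k : ℕ) : ℝ := (1 + 2 ^ k * (k.factorial : ℝ)) * 4 ^ k

end Pool.Agent.Lib.MP_8d00da_gt.h42t
end

section

namespace Pool.Agent.Lib.MP_8d00da_gt.h42r
end Pool.Agent.Lib.MP_8d00da_gt.h42r


/-!
# From smooth to Lipschitz test functions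
-/

namespace Pool.Agent.Lib.MP_8d00da_gt.h42t

open MeasureTheory Set Filter
open Pool.Agent.Lib.MP_8d00da_gt.h25 Pool.Agent.Lib.MP_8d00da_gt.h42
open Pool.Agent.Lib.MP_8d00da_gt.h42s Pool.Agent.Lib.MP_8d00da_gt.h42o
open Pool.Agent.Lib.MP_8d00da_gt.h97r Pool.Agent.Lib.MP_8d00da_gt.h42r
open scoped Topology NNReal ENNReal

set_option linter.unusedSectionVars false

variable {F : Type*} [NormedAddCommGroup F] [InnerProductSpace ℝ F]
    [FiniteDimensional ℝ F] [MeasurableSpace F] [BorelSpace F]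

variable {G : Type*} [NormedAddCommGroup G] [InnerProductSpace ℝ G]
    [FiniteDimensional ℝ G] [MeasurableSpace G] [BorelSpace G]

variable {ι : Type*} [Fintype ι]

open scoped Convolution in
private theorem TD6_fderiv_conv {f : F → ℝ} {L : ℝ≥0} (hf : LipschitzWith L f)
    (φ : ContDiffBump (0 : F)) (x : F) :
    fderiv ℝ ((φ.normed volume) ⋆[ContinuousLinearMap.lsmul ℝ ℝ, volume] f) x =
      ((φ.normed volume) ⋆[ContinuousLinearMap.lsmul ℝ ℝ, volume] (fderiv ℝ f)) x := by
  have hn : ∀ n : ℕ, (0 : ℝ) < 1 / ((n : ℝ) + 1) := fun n => by positivity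
  have hloc : LocallyIntegrable f volume := hf.continuous.locallyIntegrable
  set G : F → ℝ := (φ.normed volume) ⋆[ContinuousLinearMap.lsmul ℝ ℝ, volume] f with hG
  have hGdef : ∀ x, G x = ∫ t, φ.normed volume t * f (x - t) := fun x => rfl
  have hconv : ∀ x, Integrable (fun t => φ.normed volume t * f (x - t)) := by
    intro x
    have hc : Continuous fun t => φ.normed volume t * f (x - t) :=
      (φ.continuous_normed).mul (hf.continuous.comp (continuous_const.sub continuous_id))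
    exact hc.integrable_of_hasCompactSupport (φ.hasCompactSupport_normed.mul_right)
  have hC1 : ContDiff ℝ 1 G :=
    φ.hasCompactSupport_normed.contDiff_convolution_left _ φ.contDiff_normed hloc
  have hfd : ∀ y, ‖fderiv ℝ f y‖ ≤ L := fun y => norm_fderiv_le_of_lipschitz ℝ hf
  have hintf : Integrable fun t => φ.normed volume t • fderiv ℝ f (x - t) := by
    refine Integrable.mono' ((φ.integrable_normed (μ := (volume : Measure F))).mul_const (L : ℝ)) ?_ ?_
    · refine (φ.continuous_normed.aestronglyMeasurable).smul ?_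
      exact ((measurable_fderiv ℝ f).comp (measurable_const.sub measurable_id)).aestronglyMeasurable
    · filter_upwards with t
      rw [norm_smul, Real.norm_eq_abs, abs_of_nonneg (φ.nonneg_normed t)]
      exact mul_le_mul_of_nonneg_left (hfd _) (φ.nonneg_normed t)
  ext e
  have e0 : (((φ.normed volume) ⋆[ContinuousLinearMap.lsmul ℝ ℝ, volume] (fderiv ℝ f)) x) e =
      ∫ t, φ.normed volume t * fderiv ℝ f (x - t) e := by
    rw [show ((φ.normed volume) ⋆[ContinuousLinearMap.lsmul ℝ ℝ, volume] (fderiv ℝ f)) x =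
      ∫ t, φ.normed volume t • fderiv ℝ f (x - t) from rfl,
      ContinuousLinearMap.integral_apply hintf]
    rfl
  rw [e0]
  have h1 : HasLineDerivAt ℝ G (fderiv ℝ G x e) x e :=
    (hC1.differentiable one_ne_zero x).hasFDerivAt.hasLineDerivAt _
  have h2 := HasDerivAt.tendsto_slope_zero h1
  simp only [zero_add, zero_smul, add_zero] at h2
  have hs : Tendsto (fun k : ℕ => 1 / ((k : ℝ) + 1)) atTop (𝓝[≠] 0) := by
    rw [tendsto_nhdsWithin_iff]
    exact ⟨tendsto_one_div_add_atTop_nhds_zero_nat, Eventually.of_forall fun k => (hn k).ne'⟩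
  have h3 := h2.comp hs
  refine tendsto_nhds_unique h3 ?_
  have h4 : ∀ k : ℕ, (fun t : ℝ => t⁻¹ • (G (x + t • e) - G x)) (1 / ((k : ℝ) + 1)) =
      ∫ t, φ.normed volume t *
        ((1 / ((k : ℝ) + 1))⁻¹ * (f (x - t + (1 / ((k : ℝ) + 1)) • e) - f (x - t))) := by
    intro k
    simp only
    rw [hGdef, hGdef, ← integral_sub (hconv _) (hconv x), smul_eq_mul,
      ← integral_const_mul]
    congr 1
    funext t
    rw [show x + (1 / ((k : ℝ) + 1)) • e - t = x - t + (1 / ((k : ℝ) + 1)) • e by abel]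
    ring
  have h5 : Tendsto (fun k : ℕ => ∫ t, φ.normed volume t *
        ((1 / ((k : ℝ) + 1))⁻¹ * (f (x - t + (1 / ((k : ℝ) + 1)) • e) - f (x - t)))) atTop
      (𝓝 (∫ t, φ.normed volume t * fderiv ℝ f (x - t) e)) := by
    refine tendsto_integral_of_dominated_convergence
      (fun t => φ.normed volume t * (L * ‖e‖)) ?_ (φ.integrable_normed.mul_const _) ?_ ?_
    · intro k
      refine Continuous.aestronglyMeasurable ?_
      refine (φ.continuous_normed).mul (continuous_const.mul ?_)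
      exact (hf.continuous.comp (by fun_prop)).sub (hf.continuous.comp (by fun_prop))
    · intro k
      filter_upwards with t
      rw [norm_mul, Real.norm_eq_abs, abs_of_nonneg (φ.nonneg_normed t)]
      apply mul_le_mul_of_nonneg_left _ (φ.nonneg_normed t)
      have h6 := hf.dist_le_mul (x - t + (1 / ((k : ℝ) + 1)) • e) (x - t)
      rw [dist_self_add_left, Real.dist_eq, norm_smul, Real.norm_eq_abs,
        abs_of_pos (hn k)] at h6
      rw [Real.norm_eq_abs, abs_mul, abs_of_pos (inv_pos.2 (hn k))]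
      calc (1 / ((k : ℝ) + 1))⁻¹ * |f (x - t + (1 / ((k : ℝ) + 1)) • e) - f (x - t)|
          ≤ (1 / ((k : ℝ) + 1))⁻¹ * (L * (1 / ((k : ℝ) + 1) * ‖e‖)) :=
            mul_le_mul_of_nonneg_left h6 (inv_pos.2 (hn k)).le
        _ = L * ‖e‖ := by
            have := (hn k).ne'
            field_simp
    · have hae : ∀ᵐ t : F, DifferentiableAt ℝ f (x - t) := by
        have h8 : MeasurePreserving (fun t : F => x - t) volume volume :=
          Measure.measurePreserving_sub_left volume x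
        exact h8.quasiMeasurePreserving.ae (hf.ae_differentiableAt (μ := volume))
      filter_upwards [hae] with t ht
      apply Tendsto.const_mul
      have h9 : HasLineDerivAt ℝ f (fderiv ℝ f (x - t) e) (x - t) e :=
        ht.hasFDerivAt.hasLineDerivAt _
      have h10 := HasDerivAt.tendsto_slope_zero h9
      simp only [zero_add, zero_smul, add_zero] at h10
      exact h10.comp hs
  exact h5.congr fun k => (h4 k).symm

open scoped Convolution in
private theorem TD6_sm {f : F → ℝ} (hf : BL f) {L : ℝ≥0} (hL : LipschitzWith L f) {A : ℝ}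
    (hA : ∀ x, |f x| ≤ A) (φ : ContDiffBump (0 : F)) :
    Sm ((φ.normed volume) ⋆[ContinuousLinearMap.lsmul ℝ ℝ, volume] f) ∧
    (∀ x, |((φ.normed volume) ⋆[ContinuousLinearMap.lsmul ℝ ℝ, volume] f) x| ≤ A) ∧
    (∀ x, ‖fderiv ℝ ((φ.normed volume) ⋆[ContinuousLinearMap.lsmul ℝ ℝ, volume] f) x‖ ≤ L) := by
  have hloc : LocallyIntegrable f volume := hL.continuous.locallyIntegrable
  set G : F → ℝ := (φ.normed volume) ⋆[ContinuousLinearMap.lsmul ℝ ℝ, volume] f with hG
  have hGdef : ∀ x, G x = ∫ t, φ.normed volume t * f (x - t) := fun x => rfl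
  have hconv : ∀ x, Integrable (fun t => φ.normed volume t * f (x - t)) := by
    intro x
    have hc : Continuous fun t => φ.normed volume t * f (x - t) :=
      (φ.continuous_normed).mul (hL.continuous.comp (continuous_const.sub continuous_id))
    exact hc.integrable_of_hasCompactSupport (φ.hasCompactSupport_normed.mul_right)
  have hC1 : ContDiff ℝ 1 G :=
    φ.hasCompactSupport_normed.contDiff_convolution_left _ φ.contDiff_normed hloc
  have hGlip : LipschitzWith L G := by
    refine LipschitzWith.of_dist_le_mul fun x y => ?_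
    rw [Real.dist_eq, hGdef, hGdef, ← integral_sub (hconv x) (hconv y)]
    have h1 : ∀ t, ‖φ.normed volume t * f (x - t) - φ.normed volume t * f (y - t)‖ ≤
        φ.normed volume t * (L * dist x y) := by
      intro t
      rw [← mul_sub, norm_mul, Real.norm_eq_abs, Real.norm_eq_abs,
        abs_of_nonneg (φ.nonneg_normed t)]
      apply mul_le_mul_of_nonneg_left _ (φ.nonneg_normed t)
      have := hL.dist_le_mul (x - t) (y - t)
      rw [Real.dist_eq] at this
      simpa using this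
    have h2 := norm_integral_le_of_norm_le
      ((φ.integrable_normed (μ := (volume : Measure F))).mul_const (L * dist x y))
      (Eventually.of_forall h1)
    rw [integral_mul_const, φ.integral_normed, one_mul] at h2
    exact h2
  have hGA : ∀ x, |G x| ≤ A := by
    intro x
    rw [hGdef]
    have h1 : ∀ t, ‖φ.normed volume t * f (x - t)‖ ≤ φ.normed volume t * A := by
      intro t
      rw [norm_mul, Real.norm_eq_abs, Real.norm_eq_abs, abs_of_nonneg (φ.nonneg_normed t)]
      exact mul_le_mul_of_nonneg_left (hA _) (φ.nonneg_normed t)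
    have h2 := norm_integral_le_of_norm_le
      ((φ.integrable_normed (μ := (volume : Measure F))).mul_const A)
      (Eventually.of_forall h1)
    rw [integral_mul_const, φ.integral_normed, one_mul] at h2
    exact h2
  have hGd : ∀ x, ‖fderiv ℝ G x‖ ≤ L := fun x => norm_fderiv_le_of_lipschitz ℝ hGlip
  refine ⟨⟨⟨⟨L, hGlip⟩, A, hGA⟩, hC1.differentiable one_ne_zero, fun θ => ⟨?_, ?_⟩⟩, hGA, hGd⟩
  · -- the derivative is Lipschitz
    set B := (ContinuousLinearMap.lsmul ℝ ℝ : ℝ →L[ℝ] ℝ →L[ℝ] ℝ).precompL F with hB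
    have hfd : ∀ x, fderiv ℝ G x = ∫ t, B (fderiv ℝ (φ.normed volume) t) (f (x - t)) := by
      intro x
      exact (φ.hasCompactSupport_normed.hasFDerivAt_convolution_left
        (ContinuousLinearMap.lsmul ℝ ℝ) φ.contDiff_normed hloc x).fderiv
    have hcd : Continuous (fderiv ℝ (φ.normed (volume : Measure F))) :=
      (φ.contDiff_normed (n := 1)).continuous_fderiv one_ne_zero
    have hcs : HasCompactSupport (fderiv ℝ (φ.normed (volume : Measure F))) :=
      φ.hasCompactSupport_normed.fderiv ℝ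
    have hint0 : Integrable (fun t => ‖fderiv ℝ (φ.normed (volume : Measure F)) t‖) :=
      (hcd.integrable_of_hasCompactSupport hcs).norm
    have hBn : ∀ (a : F →L[ℝ] ℝ) (b : ℝ), ‖B a b‖ ≤ ‖a‖ * ‖b‖ := by
      intro a b
      refine ContinuousLinearMap.opNorm_le_bound _ (by positivity) fun v => ?_
      have h1 : B a b v = a v * b := rfl
      rw [h1, norm_mul]
      calc ‖a v‖ * ‖b‖ ≤ (‖a‖ * ‖v‖) * ‖b‖ := by
            gcongr
            exact a.le_opNorm v
        _ = _ := by ring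
    have hBc : Continuous fun p : (F →L[ℝ] ℝ) × ℝ => B p.1 p.2 := by
      have h1 : (fun p : (F →L[ℝ] ℝ) × ℝ => B p.1 p.2) = fun p => p.2 • p.1 := by
        funext p
        ext v
        change p.1 v * p.2 = p.2 * p.1 v
        ring
      rw [h1]
      exact continuous_snd.smul continuous_fst
    have hint1 : ∀ x, Integrable fun t => B (fderiv ℝ (φ.normed volume) t) (f (x - t)) := by
      intro x
      refine Integrable.mono' (hint0.mul_const A) ?_ ?_
      · refine Continuous.aestronglyMeasurable ?_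
        exact hBc.comp (hcd.prodMk (hL.continuous.comp (by fun_prop)))
      · filter_upwards with t
        refine (hBn _ _).trans ?_
        have := hA (x - t)
        rw [← Real.norm_eq_abs] at this
        gcongr
    set I : ℝ := ∫ t, ‖fderiv ℝ (φ.normed (volume : Measure F)) t‖ with hI
    have hI0 : 0 ≤ I := integral_nonneg fun t => norm_nonneg _
    refine ⟨⟨L * I * ‖θ‖, by positivity⟩, LipschitzWith.of_dist_le_mul fun x y => ?_⟩
    rw [Real.dist_eq, ← ContinuousLinearMap.sub_apply, hfd, hfd,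
      ← integral_sub (hint1 x) (hint1 y)]
    have h1 : ∀ t, ‖B (fderiv ℝ (φ.normed volume) t) (f (x - t)) -
        B (fderiv ℝ (φ.normed volume) t) (f (y - t))‖ ≤
        (L * dist x y) * ‖fderiv ℝ (φ.normed volume) t‖ := by
      intro t
      rw [← map_sub]
      refine (hBn _ _).trans ?_
      have h2 := hL.dist_le_mul (x - t) (y - t)
      rw [dist_sub_right, Real.dist_eq, ← Real.norm_eq_abs] at h2
      calc ‖fderiv ℝ (φ.normed volume) t‖ * ‖f (x - t) - f (y - t)‖
          ≤ ‖fderiv ℝ (φ.normed volume) t‖ * (L * dist x y) := by gcongr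
        _ = _ := by ring
    have h2 := norm_integral_le_of_norm_le (hint0.const_mul (L * dist x y))
      (Eventually.of_forall h1)
    rw [integral_const_mul] at h2
    refine ((Real.norm_eq_abs _).symm.le.trans (ContinuousLinearMap.le_opNorm _ _)).trans ?_
    refine (mul_le_mul_of_nonneg_right h2 (norm_nonneg θ)).trans (le_of_eq ?_)
    change _ = (L * I * ‖θ‖) * dist x y
    ring
  · refine ⟨L * ‖θ‖, fun x => ?_⟩
    have h1 := (fderiv ℝ G x).le_opNorm θ
    rw [Real.norm_eq_abs] at h1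
    exact h1.trans (mul_le_mul_of_nonneg_right (hGd x) (norm_nonneg θ))

open scoped Convolution in
/-- Mollification. For `f` bounded Lipschitz there are `f_n` with `Sm (f_n)`, converging pointwise
to `f`, uniformly bounded with uniformly bounded derivatives, such that for every `θ` the
derivatives `fderiv ℝ f_n x θ` converge to `fderiv ℝ f x θ` for a.e. `x`. Compare
`exists_mollify` in `Lib/MP_8d00da_gt/Mollify.lean` and `fderiv_conv` in `h25/PolyDense.lean`
(convolution with normalised bump functions; `(f * φ)' = f' * φ` a.e. by dominated convergence of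
difference quotients; second derivatives are bounded: `f' * φ'`). -/
theorem exists_smooth {f : F → ℝ} (hf : BL f) : ∃ (g : ℕ → F → ℝ) (L A : ℝ),
    (∀ n, Sm (g n)) ∧ (∀ n x, |g n x| ≤ A) ∧ (∀ n x, ‖fderiv ℝ (g n) x‖ ≤ L) ∧
    (∀ x, Tendsto (fun n => g n x) atTop (𝓝 (f x))) ∧
    ∀ᵐ x : F, Tendsto (fun n => fderiv ℝ (g n) x) atTop (𝓝 (fderiv ℝ f x)) := by
  obtain ⟨⟨L, hL⟩, A, hA⟩ := hf
  have hf : BL f := ⟨⟨L, hL⟩, A, hA⟩
  have hn : ∀ n : ℕ, (0 : ℝ) < 1 / ((n : ℝ) + 1) := fun n => by positivity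
  let φ : ℕ → ContDiffBump (0 : F) := fun n =>
    ⟨1 / ((n : ℝ) + 1) / 2, 1 / ((n : ℝ) + 1), half_pos (hn n), half_lt_self (hn n)⟩
  refine ⟨fun n => ((φ n).normed volume) ⋆[ContinuousLinearMap.lsmul ℝ ℝ, volume] f, L, A,
    fun n => (TD6_sm hf hL hA (φ n)).1, fun n => (TD6_sm hf hL hA (φ n)).2.1,
    fun n => (TD6_sm hf hL hA (φ n)).2.2, fun x => ?_, ?_⟩
  · rw [tendsto_iff_dist_tendsto_zero]
    have h1 : Tendsto (fun n : ℕ => (L : ℝ) * (1 / ((n : ℝ) + 1))) atTop (𝓝 0) := by
      simpa using tendsto_one_div_add_atTop_nhds_zero_nat.const_mul (L : ℝ)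
    refine squeeze_zero (fun n => dist_nonneg) (fun n => ?_) h1
    exact (φ n).dist_normed_convolution_le (x₀ := x) (μ := volume)
      hL.continuous.aestronglyMeasurable (ε := L * (1 / ((n : ℝ) + 1))) (fun y hy => by
        refine (hL.dist_le_mul y x).trans (mul_le_mul_of_nonneg_left ?_ L.coe_nonneg)
        exact (Metric.mem_ball.1 hy).le)
  · have hloc : LocallyIntegrable (fderiv ℝ f) (volume : Measure F) := by
      refine (locallyIntegrable_const (L : ℝ)).mono
        (measurable_fderiv ℝ f).aestronglyMeasurable ?_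
      filter_upwards with y
      rw [Real.norm_eq_abs, abs_of_nonneg L.coe_nonneg]
      exact norm_fderiv_le_of_lipschitz ℝ hL
    have h := ContDiffBump.ae_convolution_tendsto_right_of_locallyIntegrable (μ := volume)
      (φ := φ) (l := atTop) (K := 2) (tendsto_one_div_add_atTop_nhds_zero_nat)
      (Eventually.of_forall fun n => by
        show 1 / ((n : ℝ) + 1) ≤ 2 * (1 / ((n : ℝ) + 1) / 2)
        linarith) hloc
    filter_upwards [h] with x hx
    exact hx.congr fun n => (TD6_fderiv_conv hL (φ n) x).symm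

/-- Dominated convergence in `QJS` (`exists_smooth`). -/
theorem qj_of_qjs {C : ℝ} {h : F → ℝ} (hh : Measurable h) (h0 : ∀ x, 0 ≤ h x)
    (hi : Integrable h) (hi2 : Integrable fun x => ‖x‖ ^ 2 * h x) (H : QJS C h) : QJ C h := by
  intro f hf
  obtain ⟨g, L, A, hg, hA, hL, hlim, hder⟩ := exists_smooth hf
  have hA0 : 0 ≤ A := (abs_nonneg _).trans (hA 0 0)
  have hL0 : 0 ≤ L := (norm_nonneg _).trans (hL 0 0)
  have hgc : ∀ n, Continuous (g n) := fun n => (hg n).diff.continuous
  have c1 : Tendsto (fun n => ∫ x, g n x ^ 2 * h x) atTop (𝓝 (∫ x, f x ^ 2 * h x)) := by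
    refine tendsto_integral_of_dominated_convergence (fun x => A ^ 2 * h x)
      (fun n => (((hgc n).measurable.pow_const 2).mul hh).aestronglyMeasurable)
      (hi.const_mul _) ?_ ?_
    · intro n
      filter_upwards with x
      rw [Real.norm_eq_abs, abs_mul, abs_of_nonneg (h0 x), abs_pow]
      exact mul_le_mul_of_nonneg_right (pow_le_pow_left₀ (abs_nonneg _) (hA n x) 2) (h0 x)
    · filter_upwards with x
      exact ((hlim x).pow 2).mul_const _
  have c2 : Tendsto (fun n => ∫ x, g n x * h x) atTop (𝓝 (∫ x, f x * h x)) := by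
    refine tendsto_integral_of_dominated_convergence (fun x => A * h x)
      (fun n => ((hgc n).measurable.mul hh).aestronglyMeasurable)
      (hi.const_mul _) ?_ ?_
    · intro n
      filter_upwards with x
      rw [Real.norm_eq_abs, abs_mul, abs_of_nonneg (h0 x)]
      exact mul_le_mul_of_nonneg_right (hA n x) (h0 x)
    · filter_upwards with x
      exact (hlim x).mul_const _
  set M : ℝ := ∫ x, ‖x‖ ^ 2 * h x with hM
  have hbd : ∀ n (y x : F), ‖(fderiv ℝ (g n) y x) ^ 2 * h x‖ ≤ L ^ 2 * (‖x‖ ^ 2 * h x) := by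
    intro n y x
    rw [Real.norm_eq_abs, abs_mul, abs_of_nonneg (h0 x), abs_pow, ← mul_assoc, ← mul_pow]
    refine mul_le_mul_of_nonneg_right (pow_le_pow_left₀ (abs_nonneg _) ?_ 2) (h0 x)
    have h1 := (fderiv ℝ (g n) y).le_opNorm x
    rw [Real.norm_eq_abs] at h1
    exact h1.trans (mul_le_mul_of_nonneg_right (hL n y) (norm_nonneg x))
  have hjoint : ∀ n, Measurable fun p : F × F => (fderiv ℝ (g n) p.1 p.2) ^ 2 * h p.2 := by
    intro n
    have h1 : Measurable fun p : F × F => (fderiv ℝ (g n) p.1, p.2) :=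
      ((measurable_fderiv ℝ (g n)).comp measurable_fst).prodMk measurable_snd
    have h2 : Continuous fun q : (F →L[ℝ] ℝ) × F => q.1 q.2 :=
      isBoundedBilinearMap_apply.continuous
    exact ((h2.measurable.comp h1).pow_const 2).mul (hh.comp measurable_snd)
  have hjm : ∀ n, Measurable fun y : F => ∫ x, (fderiv ℝ (g n) y x) ^ 2 * h x := by
    intro n
    have h1 : StronglyMeasurable (Function.uncurry fun y x : F =>
        (fderiv ℝ (g n) y x) ^ 2 * h x) := (hjoint n).stronglyMeasurable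
    exact h1.integral_prod_right.measurable
  have hin : ∀ n y, ‖∫ x, (fderiv ℝ (g n) y x) ^ 2 * h x‖ ≤ L ^ 2 * M := by
    intro n y
    have h1 := norm_integral_le_of_norm_le (hi2.const_mul (L ^ 2))
      (Eventually.of_forall (hbd n y))
    rwa [integral_const_mul] at h1
  have c3 : Tendsto (fun n => ∫ y, (∫ x, (fderiv ℝ (g n) y x) ^ 2 * h x) * h y) atTop
      (𝓝 (∫ y, (∫ x, (fderiv ℝ f y x) ^ 2 * h x) * h y)) := by
    refine tendsto_integral_of_dominated_convergence (fun y => (L ^ 2 * M) * h y)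
      (fun n => ((hjm n).mul hh).aestronglyMeasurable) (hi.const_mul _) ?_ ?_
    · intro n
      filter_upwards with y
      rw [norm_mul, Real.norm_eq_abs (h y), abs_of_nonneg (h0 y)]
      exact mul_le_mul_of_nonneg_right (hin n y) (h0 y)
    · filter_upwards [hder] with y hy
      refine Tendsto.mul_const _ ?_
      refine tendsto_integral_of_dominated_convergence (fun x => L ^ 2 * (‖x‖ ^ 2 * h x))
        (fun n => ?_) (hi2.const_mul _) (fun n => Eventually.of_forall (hbd n y)) ?_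
      · exact ((((fderiv ℝ (g n) y).continuous.measurable).pow_const 2).mul
          hh).aestronglyMeasurable
      · filter_upwards with x
        refine Tendsto.mul_const _ (Tendsto.pow ?_ 2)
        exact ((ContinuousLinearMap.apply ℝ ℝ x).continuous.tendsto _).comp hy
  have hl := (c1.mul_const (∫ x, h x)).sub (c2.pow 2)
  have hr := c3.const_mul C
  exact le_of_tendsto_of_tendsto' hl hr fun n => H (g n) (hg n)

end Pool.Agent.Lib.MP_8d00da_gt.h42t
end

section

/-!
# Second differences of the logarithm of a Gaussian convolution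
-/

namespace Pool.Agent.Lib.MP_8d00da_gt.h42k

open MeasureTheory Set Filter
open Pool.Agent.Lib.MP_8d00da_gt.h25 Pool.Agent.Lib.MP_8d00da_gt.h42
open Pool.Agent.Lib.MP_8d00da_gt.h42s
open scoped Topology NNReal ENNReal

set_option linter.unusedSectionVars false
set_option linter.unusedVariables false

variable {n : ℕ} {h : Vn n → ℝ} {B : ℝ}

/-- Lower bound: log-concavity of the convolution. -/
theorem cv_sd_lower (H : Wt h B) (hlc : LogConc h) {σ : ℝ} (hσ : 0 < σ) (x u : Vn n) :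
    2 * Real.log (cv σ h x) ≥ Real.log (cv σ h (x + u)) + Real.log (cv σ h (x - u)) := by
  have hZ : ∀ y, 0 < cv σ h y := fun y => H.Z_pos hσ y
  have h1 := h42u.cv_logconc H hlc hσ (1 / 2) (by norm_num) (by norm_num) (x + u) (x - u)
  have e0 : (1 - 1 / 2 : ℝ) • (x + u) + (1 / 2 : ℝ) • (x - u) = x := by
    rw [show (1 - 1 / 2 : ℝ) = 1 / 2 by norm_num, ← smul_add, add_add_sub_cancel, ← two_smul ℝ x,
      smul_smul]
    norm_num
  rw [e0] at h1
  have h2 := Real.log_le_log (mul_pos (Real.rpow_pos_of_pos (hZ _) _)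
    (Real.rpow_pos_of_pos (hZ _) _)) h1
  rw [Real.log_mul (Real.rpow_pos_of_pos (hZ _) _).ne' (Real.rpow_pos_of_pos (hZ _) _).ne',
    Real.log_rpow (hZ _), Real.log_rpow (hZ _)] at h2
  linarith

private theorem L11d_ker {σ : ℝ} (hσ : 0 < σ) (w u : Vn n) :
    h25.ker σ w ^ 2 = Real.exp (‖u‖ ^ 2 / σ) * (h25.ker σ (w + u) * h25.ker σ (w - u)) := by
  unfold h25.ker
  rw [← Real.exp_nat_mul, ← Real.exp_add, ← Real.exp_add]
  congr 1
  rw [norm_add_sq_real, norm_sub_sq_real]
  field_simp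
  push_cast
  ring

private theorem L11d_cs (H : Wt h B) {σ : ℝ} (hσ : 0 < σ) (x u : Vn n) :
    cv σ h x ^ 2 ≤ Real.exp (‖u‖ ^ 2 / σ) * (cv σ h (x + u) * cv σ h (x - u)) := by
  have hA := H.Z_pos hσ (x + u)
  have hC := H.Z_pos hσ (x - u)
  have hX := H.Z_pos hσ x
  set A := cv σ h (x + u) with hAd
  set C := cv σ h (x - u) with hCd
  set E := Real.exp (‖u‖ ^ 2 / σ) with hE
  have hE0 : 0 < E := Real.exp_pos _
  set t : ℝ := √(C / A) with ht
  have ht0 : 0 < t := Real.sqrt_pos.2 (div_pos hC hA)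
  have ht2 : t ^ 2 = C / A := Real.sq_sqrt (div_pos hC hA).le
  have hi : ∀ y : Vn n, Integrable fun z => h z * h25.ker σ (y - z) := fun y =>
    cv_integrable hσ H.meas H.abs_le y
  have hpt : ∀ z, h z * h25.ker σ (x - z) ≤
      √E * (t / 2 * (h z * h25.ker σ (x + u - z)) + 1 / (2 * t) * (h z * h25.ker σ (x - u - z))) := by
    intro z
    have h0 := H.nonneg z
    have k1 : 0 < h25.ker σ (x + u - z) := ker_pos _
    have k2 : 0 < h25.ker σ (x - u - z) := ker_pos _
    have k3 : 0 < h25.ker σ (x - z) := ker_pos _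
    have e1 : h25.ker σ (x - z) ^ 2 = E * (h25.ker σ (x + u - z) * h25.ker σ (x - u - z)) := by
      have := L11d_ker hσ (x - z) u
      rw [show x - z + u = x + u - z by abel, show x - z - u = x - u - z by abel] at this
      exact this
    have e2 : h25.ker σ (x - z) ≤
        √E * (t / 2 * h25.ker σ (x + u - z) + 1 / (2 * t) * h25.ker σ (x - u - z)) := by
      refine le_of_sq_le_sq ?_ (by positivity)
      rw [e1, mul_pow, Real.sq_sqrt hE0.le]
      refine mul_le_mul_of_nonneg_left ?_ hE0.le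
      set p := h25.ker σ (x + u - z)
      set q := h25.ker σ (x - u - z)
      have h3 : (t / 2 * p + 1 / (2 * t) * q) ^ 2 - p * q = (t / 2 * p - 1 / (2 * t) * q) ^ 2 := by
        field_simp
        ring
      nlinarith [sq_nonneg (t / 2 * p - 1 / (2 * t) * q)]
    calc h z * h25.ker σ (x - z) ≤ h z *
        (√E * (t / 2 * h25.ker σ (x + u - z) + 1 / (2 * t) * h25.ker σ (x - u - z))) :=
          mul_le_mul_of_nonneg_left e2 h0
      _ = _ := by ring
  have i1 : Integrable fun z => t / 2 * (h z * h25.ker σ (x + u - z)) := (hi _).const_mul _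
  have i2 : Integrable fun z => 1 / (2 * t) * (h z * h25.ker σ (x - u - z)) := (hi _).const_mul _
  have h4 : cv σ h x ≤ √E * (t / 2 * A + 1 / (2 * t) * C) := by
    have h5 := integral_mono (hi x) ((i1.add i2).const_mul (√E)) hpt
    simp only [Pi.add_apply] at h5
    rw [integral_const_mul, integral_add i1 i2, integral_const_mul, integral_const_mul] at h5
    exact h5
  have h6 := pow_le_pow_left₀ hX.le h4 2
  refine h6.trans (le_of_eq ?_)
  rw [mul_pow, Real.sq_sqrt hE0.le]
  congr 1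
  have h7 : C = t ^ 2 * A := by rw [ht2]; field_simp
  rw [h7]
  field_simp
  ring

/-- Upper bound. -/
theorem cv_sd_upper (H : Wt h B) {σ : ℝ} (hσ : 0 < σ) (x u : Vn n) :
    2 * Real.log (cv σ h x) ≤
      Real.log (cv σ h (x + u)) + Real.log (cv σ h (x - u)) + ‖u‖ ^ 2 / σ := by
  have hZ : ∀ y, 0 < cv σ h y := fun y => H.Z_pos hσ y
  have h1 := Real.log_le_log (pow_pos (hZ x) 2) (L11d_cs H hσ x u)
  rw [Real.log_mul (Real.exp_pos _).ne' (mul_pos (hZ _) (hZ _)).ne', Real.log_exp,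
    Real.log_mul (hZ _).ne' (hZ _).ne', Real.log_pow] at h1
  push_cast at h1
  linarith

end Pool.Agent.Lib.MP_8d00da_gt.h42k
end

section

/-!
# The linearly invariant inequality for nice potentials
-/

namespace Pool.Agent.Lib.MP_8d00da_gt.h42k

open MeasureTheory Set Filter
open Pool.Agent.Lib.MP_8d00da_gt.h42s (Vn BL)
open Pool.Agent.Lib.MP_8d00da_gt.h97r (QJ Sm)
open Pool.Agent.Lib.MP_8d00da_gt.h42t (QJS)
open scoped Topology NNReal ENNReal ContDiff

set_option linter.unusedSectionVars false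
set_option linter.unusedVariables false

variable {n : ℕ} {κ M : ℝ} {V : (Fin n → ℝ) → ℝ}

/-- Coordinates. -/
noncomputable def eN (n : ℕ) : Vn n ≃L[ℝ] (Fin n → ℝ) := EuclideanSpace.equiv (Fin n) ℝ

theorem eN_apply (x : Vn n) (i : Fin n) : eN n x i = x i := rfl

theorem eN_symm_apply (y : Fin n → ℝ) (i : Fin n) : (eN n).symm y i = y i := rfl

theorem integral_eN (Φ : (Fin n → ℝ) → ℝ) : ∫ x : Vn n, Φ (eN n x) = ∫ y, Φ y :=
  (EuclideanSpace.volume_preserving_symm_measurableEquiv_toLp (Fin n)).integral_comp' Φ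

theorem integrable_eN (Φ : (Fin n → ℝ) → ℝ) :
    (Integrable fun x : Vn n => Φ (eN n x)) ↔ Integrable Φ :=
  (EuclideanSpace.volume_preserving_symm_measurableEquiv_toLp (Fin n)).integrable_comp_emb
    (MeasurableEquiv.toLp 2 (Fin n → ℝ)).symm.measurableEmbedding

theorem sq_eN (x : Vn n) : sq (eN n x) = ‖x‖ ^ 2 := by
  rw [EuclideanSpace.real_norm_sq_eq]
  rfl

theorem dt_eN (θ x : Vn n) : dt (eN n θ) (eN n x) = inner ℝ θ x := by
  rw [PiLp.inner_apply]
  unfold dt
  refine Finset.sum_congr rfl fun i _ => ?_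
  simp only [eN_apply, RCLike.inner_apply, conj_trivial]
  ring

/-- The gradient in coordinates. -/
theorem pd_eN {g : Vn n → ℝ} (hg : Differentiable ℝ g) (i : Fin n) (x : Vn n) :
    pd i (fun y => g ((eN n).symm y)) (eN n x) = fderiv ℝ g x ((eN n).symm (Pi.single i 1)) := by
  unfold pd
  have h : HasFDerivAt (fun y => g ((eN n).symm y))
      ((fderiv ℝ g ((eN n).symm (eN n x))).comp ((eN n).symm : (Fin n → ℝ) →L[ℝ] Vn n)) (eN n x) :=
    (hg _).hasFDerivAt.comp _ (eN n).symm.hasFDerivAt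
  rw [h.fderiv, ContinuousLinearEquiv.symm_apply_apply]
  rfl

theorem gs_eN {g : Vn n → ℝ} (hg : Differentiable ℝ g) (x : Vn n) :
    gs (fun y => g ((eN n).symm y)) (eN n x) = ‖fderiv ℝ g x‖ ^ 2 := by
  set v : Vn n := (InnerProductSpace.toDual ℝ (Vn n)).symm (fderiv ℝ g x) with hv
  have h1 : ‖fderiv ℝ g x‖ = ‖v‖ := by rw [hv, LinearIsometryEquiv.norm_map]
  have h2 : ∀ z, fderiv ℝ g x z = inner ℝ v z := fun z => by
    rw [hv, InnerProductSpace.toDual_symm_apply]
  rw [h1, ← sq_eN]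
  unfold gs sq
  refine Finset.sum_congr rfl fun i _ => ?_
  rw [pd_eN hg, h2]
  congr 1
  rw [← dt_eN]
  unfold dt
  rw [ContinuousLinearEquiv.apply_symm_apply, Finset.sum_eq_single i]
  · rw [Pi.single_eq_same, mul_one]
  · intro j _ hj
    rw [Pi.single_eq_of_ne hj, mul_zero]
  · intro hi
    exact absurd (Finset.mem_univ i) hi

/-- Smooth test functions in coordinates. -/
theorem Sm.t1 {g : Vn n → ℝ} (hg : Sm g) : T1 (fun y => g ((eN n).symm y)) := by
  obtain ⟨A, hA⟩ := hg.bl.2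
  have hc : Continuous (fderiv ℝ g) := by
    rw [continuous_clm_apply]
    intro θ
    obtain ⟨L, hL⟩ := (hg.dbl θ).1
    exact hL.continuous
  have hc1 : ContDiff ℝ 1 g := contDiff_one_iff_fderiv.2 ⟨hg.diff, hc⟩
  refine ⟨hc1.comp (eN n).symm.contDiff, ⟨A, 0, fun y => ?_⟩, fun i => ?_⟩
  · rw [pow_zero, mul_one]
    exact hA _
  · obtain ⟨B, hB⟩ := (hg.dbl ((eN n).symm (Pi.single i 1))).2
    refine ⟨B, 0, fun y => ?_⟩
    have h1 := pd_eN hg.diff i ((eN n).symm y)
    rw [ContinuousLinearEquiv.apply_symm_apply] at h1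
    rw [h1, pow_zero, mul_one]
    exact hB _

/-- The weight of a nice potential. -/
theorem nice_int (H : Nice κ M V) {f : Vn n → ℝ} (hf : T0 fun y => f ((eN n).symm y)) :
    Integrable fun x : Vn n => f x * Real.exp (-V (eN n x)) := by
  have h1 := (integrable_eN _).2 (H.int hf)
  simpa only [ContinuousLinearEquiv.symm_apply_apply] using h1

theorem ex_eN (f : Vn n → ℝ) : ex V (fun y => f ((eN n).symm y)) =
    (∫ x : Vn n, f x * Real.exp (-V (eN n x))) / ∫ x : Vn n, Real.exp (-V (eN n x)) := by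
  unfold ex
  rw [← integral_eN, ← integral_eN (fun y => Real.exp (-V y))]
  simp only [ContinuousLinearEquiv.symm_apply_apply]

/-- **`QJ` for nice potentials**, from a Poincare inequality with a constant `C` which holds for all
nice potentials with covariance at most the identity. -/
theorem qj_nice {C : ℝ} (hP : ∀ (κ M : ℝ) (V : (Fin n → ℝ) → ℝ), Nice κ M V → CLe V 1 → PI V C)
    (H : Nice κ M V) : QJ C fun x : Vn n => Real.exp (-V (eN n x)) := by
  set h : Vn n → ℝ := fun x => Real.exp (-V (eN n x)) with hh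
  have hc : Continuous h := by
    have := H.c2.continuous
    fun_prop
  have h0 : ∀ x, 0 ≤ h x := fun x => (Real.exp_pos _).le
  have hi : Integrable h := by
    have := nice_int H (f := fun _ => 1) (T0.const 1)
    simpa using this
  have hi2 : Integrable fun x : Vn n => ‖x‖ ^ 2 * h x := by
    have e : (fun y => ‖(eN n).symm y‖ ^ 2) = (sq : (Fin n → ℝ) → ℝ) := by
      funext y
      rw [← sq_eN, ContinuousLinearEquiv.apply_symm_apply]
    exact nice_int H (f := fun x => ‖x‖ ^ 2) (by rw [e]; exact T0.sqf)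
  have hpos : 0 < ∫ x, h x := by
    have := H.zpos
    rw [← integral_eN] at this
    exact this
  obtain ⟨P, c, hc0, hmass, hiso⟩ := h97r.exists_pos h0 hc.measurable hi hi2 hpos
  set P' : (Fin n → ℝ) ≃L[ℝ] (Fin n → ℝ) := ((eN n).symm.trans P).trans (eN n) with hP'
  obtain ⟨κ', M', H'⟩ := H.comp_lin' P'
  set V' : (Fin n → ℝ) → ℝ := fun y => V (P' y) with hV'
  have hVP : ∀ x, V' (eN n x) = V (eN n (P x)) := by
    intro x
    simp only [hV', hP', ContinuousLinearEquiv.trans_apply, ContinuousLinearEquiv.symm_apply_apply]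
  have hZ : ∫ x : Vn n, Real.exp (-V' (eN n x)) = c⁻¹ := by
    have h1 : ∫ x : Vn n, c * Real.exp (-V' (eN n x)) = 1 := by
      rw [← hmass]
      simp only [hVP, hh]
    rw [integral_const_mul] at h1
    field_simp
    linarith
  have hex : ∀ f : Vn n → ℝ, ex V' (fun y => f ((eN n).symm y)) =
      ∫ x : Vn n, f x * (c * h (P x)) := by
    intro f
    rw [ex_eN, hZ, div_inv_eq_mul, ← integral_mul_const]
    refine integral_congr_ae (Eventually.of_forall fun x => ?_)
    simp only [hVP, hh]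
    ring
  have hCLe : CLe V' 1 := by
    intro θ
    have h1 := var_le H' (f := fun y => dt θ y) (T0.dtf θ) 0
    refine h1.trans (le_of_eq ?_)
    have h2 : (fun y : Fin n → ℝ => (dt θ y - 0) ^ 2) =
        fun y => (fun x : Vn n => (inner ℝ ((eN n).symm θ) x : ℝ) ^ 2) ((eN n).symm y) := by
      funext y
      simp only
      rw [← dt_eN, ContinuousLinearEquiv.apply_symm_apply, ContinuousLinearEquiv.apply_symm_apply,
        sub_zero]
    rw [h2]
    refine (hex (fun x : Vn n => (inner ℝ ((eN n).symm θ) x : ℝ) ^ 2)).trans ?_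
    rw [hiso, ← sq_eN, ContinuousLinearEquiv.apply_symm_apply, one_mul]
  have hPI := hP κ' M' V' H' hCLe
  have hcP : Continuous fun x => c * h (P x) := continuous_const.mul (hc.comp P.continuous)
  have h0P : ∀ x, 0 ≤ c * h (P x) := fun x => mul_nonneg hc0.le (h0 _)
  have hint : ∀ {f : Vn n → ℝ}, (T0 fun y => f ((eN n).symm y)) →
      Integrable fun x : Vn n => f x * (c * h (P x)) := by
    intro f hf
    have h1 := (nice_int H' hf).const_mul c
    refine h1.congr (Eventually.of_forall fun x => ?_)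
    simp only [hVP, hh]
    ring
  have key : QJ C fun x => c * h (P x) := by
    refine h42t.qj_of_qjs hcP.measurable h0P ?_ ?_ ?_
    · have := hint (f := fun _ => 1) (T0.const 1)
      simpa using this
    · have e : (fun y => ‖(eN n).symm y‖ ^ 2) = (sq : (Fin n → ℝ) → ℝ) := by
        funext y
        rw [← sq_eN, ContinuousLinearEquiv.apply_symm_apply]
      exact hint (f := fun x => ‖x‖ ^ 2) (by rw [e]; exact T0.sqf)
    · intro f hf
      have h1 := hPI _ (Sm.t1 hf)
      rw [var_eq'] at h1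
      have e1 := hex (fun x => f x ^ 2)
      have e2 := hex f
      rw [e1, e2] at h1
      have e3 : gs (fun y => f ((eN n).symm y)) =
          fun y => (fun x : Vn n => ‖fderiv ℝ f x‖ ^ 2) ((eN n).symm y) := by
        funext y
        have := gs_eN hf.diff ((eN n).symm y)
        rw [ContinuousLinearEquiv.apply_symm_apply] at this
        exact this
      have e4 := hex (fun x : Vn n => ‖fderiv ℝ f x‖ ^ 2)
      rw [e3, e4] at h1
      rw [hmass, mul_one]
      refine h1.trans (le_of_eq ?_)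
      congr 1
      refine integral_congr_ae (Eventually.of_forall fun y => ?_)
      simp only
      congr 1
      have h3 := hiso ((InnerProductSpace.toDual ℝ (Vn n)).symm (fderiv ℝ f y))
      rw [LinearIsometryEquiv.norm_map] at h3
      simp only [InnerProductSpace.toDual_symm_apply] at h3
      exact h3.symm
  refine QJ.of_comp_lin P ?_
  have h2 := key.smul c⁻¹
  have h3 : (fun x => c⁻¹ * (c * h (P x))) = fun x => h (P x) := by
    funext x
    rw [← mul_assoc, inv_mul_cancel₀ hc0.ne', one_mul]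
  rwa [h3] at h2

end Pool.Agent.Lib.MP_8d00da_gt.h42k
end

section

/-!
# The linearly invariant inequality for potentials with bounded second differences
-/

namespace Pool.Agent.Lib.MP_8d00da_gt.h42k

open MeasureTheory Set Filter
open Pool.Agent.Lib.MP_8d00da_gt.h42s (Vn BL)
open Pool.Agent.Lib.MP_8d00da_gt.h97r (QJ)
open scoped Topology NNReal ENNReal ContDiff

set_option linter.unusedSectionVars false
set_option linter.unusedVariables false

variable {n : ℕ} {κ M : ℝ} {W : (Fin n → ℝ) → ℝ}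

/-- `QJ` for `exp (-W)` if the second differences of the continuous function `W` lie between
`κ|u|²` and `M|u|²`. -/
theorem qj_sd {C : ℝ} (hP : ∀ (κ M : ℝ) (V : (Fin n → ℝ) → ℝ), Nice κ M V → CLe V 1 → PI V C)
    (hκ : 0 < κ) (hW : Continuous W)
    (h1 : ∀ x u, κ * sq u ≤ W (x + u) + W (x - u) - 2 * W x)
    (h2 : ∀ x u, W (x + u) + W (x - u) - 2 * W x ≤ M * sq u) :
    QJ C fun x : Vn n => Real.exp (-W (eN n x)) := by
  have hr : ∀ k : ℕ, (0 : ℝ) < 1 / ((k : ℝ) + 1) := fun k => by positivity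
  choose Wk hN hWk using fun k : ℕ => exists_nice hκ hW h1 h2 (hr k)
  have hQ : ∀ k, QJ C fun x : Vn n => Real.exp (-Wk k (eN n x)) := fun k => qj_nice hP (hN k)
  set A : ℝ := |M| / 2 * (Fintype.card (Fin n) * (1 / (((0 : ℕ) : ℝ) + 1)) ^ 2) with hA
  have hH : Integrable fun x : Vn n => (1 + ‖x‖ ^ 2) * Real.exp (-W (eN n x)) := by
    have e : (fun y => 1 + ‖(eN n).symm y‖ ^ 2) = fun y : Fin n → ℝ => 1 + sq y := by
      funext y
      rw [← sq_eN, ContinuousLinearEquiv.apply_symm_apply]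
    have h3 := (nice_int (hN 0) (f := fun x => 1 + ‖x‖ ^ 2)
      (by rw [e]; exact (T0.const 1).add T0.sqf)).const_mul (Real.exp A)
    have hm : Continuous fun x : Vn n => (1 + ‖x‖ ^ 2) * Real.exp (-W (eN n x)) := by fun_prop
    refine h3.mono' hm.aestronglyMeasurable (Eventually.of_forall fun x => ?_)
    rw [Real.norm_eq_abs, abs_of_nonneg (by positivity)]
    have h4 := (hWk 0 (eN n x)).2
    have h5 : Real.exp (-W (eN n x)) ≤ Real.exp A * Real.exp (-Wk 0 (eN n x)) := by
      rw [← Real.exp_add, Real.exp_le_exp]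
      linarith
    calc (1 + ‖x‖ ^ 2) * Real.exp (-W (eN n x)) ≤
        (1 + ‖x‖ ^ 2) * (Real.exp A * Real.exp (-Wk 0 (eN n x))) :=
          mul_le_mul_of_nonneg_left h5 (by positivity)
      _ = _ := by ring
  refine h97r.QJ_limit (hk := fun k x => Real.exp (-Wk k (eN n x)))
    (H := fun x => Real.exp (-W (eN n x))) (fun k => ?_) (fun k x => (Real.exp_pos _).le)
    (fun k x => ?_) hH (Eventually.of_forall fun x => ?_) hQ
  · have := (hN k).c2.continuous
    exact (by fun_prop : Continuous fun x : Vn n => Real.exp (-Wk k (eN n x))).measurable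
  · rw [Real.exp_le_exp]
    linarith [(hWk k (eN n x)).1]
  · refine (Real.continuous_exp.tendsto _).comp (Tendsto.neg ?_)
    have h6 : Tendsto (fun k : ℕ => W (eN n x) + |M| / 2 *
        (Fintype.card (Fin n) * (1 / ((k : ℝ) + 1)) ^ 2)) atTop (𝓝 (W (eN n x))) := by
      have h7 : Tendsto (fun k : ℕ => (1 / ((k : ℝ) + 1)) ^ 2) atTop (𝓝 0) := by
        have := (tendsto_one_div_add_atTop_nhds_zero_nat (𝕜 := ℝ)).pow 2
        simpa using this
      have h8 := ((h7.const_mul (Fintype.card (Fin n) : ℝ)).const_mul (|M| / 2)).const_add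
        (W (eN n x))
      simpa using h8
    exact tendsto_of_tendsto_of_tendsto_of_le_of_le tendsto_const_nhds h6
      (fun k => (hWk k _).1) (fun k => (hWk k _).2)

end Pool.Agent.Lib.MP_8d00da_gt.h42k
end

section

/-!
# General log-concave densities
-/

namespace Pool.Agent.Lib.MP_8d00da_gt.h42k

open MeasureTheory Set Filter
open Pool.Agent.Lib.MP_8d00da_gt.h25 (cv cv_cont ker_int_pos)
open Pool.Agent.Lib.MP_8d00da_gt.h42 (LogConc)
open Pool.Agent.Lib.MP_8d00da_gt.h42s (Vn BL)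
open Pool.Agent.Lib.MP_8d00da_gt.h42u (cv_major cv_lim)
open Pool.Agent.Lib.MP_8d00da_gt.h97r (QJ decay exp_norm_int QJ_limit)
open scoped Topology NNReal ENNReal ContDiff

set_option linter.unusedSectionVars false
set_option linter.unusedVariables false

variable {n : ℕ} {h : Vn n → ℝ} {B : ℝ}

private theorem L11e_par (x u : Vn n) :
    ‖x + u‖ ^ 2 + ‖x - u‖ ^ 2 - 2 * ‖x‖ ^ 2 = 2 * ‖u‖ ^ 2 := by
  rw [norm_add_sq_real, norm_sub_sq_real]
  ring

/-- `QJ` for the regularised weights. -/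
theorem qj_cv {C : ℝ} (hP : ∀ (κ M : ℝ) (V : (Fin n → ℝ) → ℝ), Nice κ M V → CLe V 1 → PI V C)
    (H : h25.Wt h B) (hlc : LogConc h) {σ : ℝ} (hσ : 0 < σ) :
    QJ C fun x : Vn n => cv σ h x * Real.exp (-(σ * ‖x‖ ^ 2)) := by
  have hZ : ∀ y, 0 < cv σ h y := fun y => H.Z_pos hσ y
  have hZc : Continuous (cv σ h) := cv_cont hσ H.meas H.abs_le
  set W : (Fin n → ℝ) → ℝ := fun y =>
    -Real.log (cv σ h ((eN n).symm y)) + σ * ‖(eN n).symm y‖ ^ 2 with hW
  have hWc : Continuous W := by
    refine (Continuous.log (hZc.comp (eN n).symm.continuous) fun y => (hZ _).ne').neg.add ?_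
    fun_prop
  have e : (fun x : Vn n => cv σ h x * Real.exp (-(σ * ‖x‖ ^ 2))) =
      fun x : Vn n => Real.exp (-W (eN n x)) := by
    funext x
    simp only [hW, ContinuousLinearEquiv.symm_apply_apply]
    rw [neg_add, neg_neg, Real.exp_add, Real.exp_log (hZ x)]
  rw [e]
  refine qj_sd (κ := 2 * σ) (M := 1 / σ + 2 * σ) hP (by positivity) hWc (fun x u => ?_)
    (fun x u => ?_)
  · have h1 := cv_sd_lower H hlc hσ ((eN n).symm x) ((eN n).symm u)
    have h2 := L11e_par ((eN n).symm x) ((eN n).symm u)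
    have h3 : ‖(eN n).symm u‖ ^ 2 = sq u := by
      rw [← sq_eN, ContinuousLinearEquiv.apply_symm_apply]
    simp only [hW, map_add, map_sub]
    rw [h3] at h2
    have h4 := congrArg (fun t => σ * t) h2
    nlinarith
  · have h1 := cv_sd_upper H hσ ((eN n).symm x) ((eN n).symm u)
    have h2 := L11e_par ((eN n).symm x) ((eN n).symm u)
    have h3 : ‖(eN n).symm u‖ ^ 2 = sq u := by
      rw [← sq_eN, ContinuousLinearEquiv.apply_symm_apply]
    simp only [hW, map_add, map_sub]
    rw [h3] at h1 h2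
    have h4 := congrArg (fun t => σ * t) h2
    have h5 : sq u / σ = 1 / σ * sq u := by ring
    rw [h5] at h1
    nlinarith

private lemma L11e_mid (h0 : ∀ x, 0 ≤ h x) (hlc : LogConc h) (x y : Vn n) :
    h x * h y ≤ h ((1 / 2 : ℝ) • (x + y)) ^ 2 := by
  have h2 := hlc (1 / 2) (by norm_num) (by norm_num) x y
  have e : (1 - 1 / 2 : ℝ) • x + (1 / 2 : ℝ) • y = (1 / 2 : ℝ) • (x + y) := by
    rw [smul_add]; norm_num
  rw [e, show (1 - 1 / 2 : ℝ) = 1 / 2 by norm_num, ← Real.mul_rpow (h0 x) (h0 y),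
    ← Real.sqrt_eq_rpow] at h2
  have h3 := pow_le_pow_left₀ (Real.sqrt_nonneg _) h2 2
  rwa [Real.sq_sqrt (mul_nonneg (h0 x) (h0 y))] at h3

/-- `QJ` for all log-concave densities (Gaussian regularisation and limit; the proof of
`h97r.QJ_iso`). -/
theorem qj_lc {C : ℝ} (hP : ∀ (κ M : ℝ) (V : (Fin n → ℝ) → ℝ), Nice κ M V → CLe V 1 → PI V C)
    (h0 : ∀ x, 0 ≤ h x) (hm : Measurable h) (hlc : LogConc h) (hi : Integrable h)
    (hpos : 0 < ∫ x, h x) : QJ C h := by
  obtain ⟨B, a, hB, ha, hd⟩ := decay h0 hm hlc hi hpos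
  have hb : ∀ x, h x ≤ B := fun x => by
    refine (hd x).trans ?_
    have : Real.exp (-(a * ‖x‖)) ≤ 1 := by
      rw [Real.exp_le_one_iff, neg_nonpos]
      positivity
    nlinarith
  have H : h25.Wt h B :=
    { meas := hm
      nonneg := h0
      bdd := hb
      mid := L11e_mid h0 hlc
      ne := by
        intro he
        rw [integral_congr_ae he] at hpos
        simp at hpos }
  obtain ⟨C', hC', hmaj⟩ := cv_major h0 hm hB ha hd
  have hσ : ∀ k : ℕ, (0 : ℝ) < 1 / ((k : ℝ) + 1) := fun k => by positivity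
  set c : ℕ → ℝ := fun k : ℕ => ∫ z : Vn n, h25.ker (1 / ((k : ℝ) + 1)) z with hc
  have hc0 : ∀ k, 0 < c k := fun k => ker_int_pos (hσ k)
  set hk' : ℕ → Vn n → ℝ := fun (k : ℕ) x => (1 / c k) * (cv (1 / ((k : ℝ) + 1)) h x *
    Real.exp (-(1 / ((k : ℝ) + 1) * ‖x‖ ^ 2))) with hhk
  have hQk : ∀ j, QJ C (hk' j) := fun j => (qj_cv hP H hlc (hσ j)).smul _
  have hcv0 : ∀ (k : ℕ) x, 0 ≤ cv (1 / ((k : ℝ) + 1)) h x := fun k x => (H.Z_pos (hσ k) x).le
  have hkc : ∀ k, Continuous (hk' k) := by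
    intro k
    have h1 := cv_cont (hσ k) H.meas H.abs_le
    have h2 : Continuous fun x : Vn n => Real.exp (-(1 / ((k : ℝ) + 1) * ‖x‖ ^ 2)) := by fun_prop
    exact continuous_const.mul (h1.mul h2)
  have hexp : ∀ (k : ℕ) (x : Vn n), Real.exp (-(1 / ((k : ℝ) + 1) * ‖x‖ ^ 2)) ≤ 1 := fun k x => by
    rw [Real.exp_le_one_iff, neg_nonpos]; positivity
  have hle : ∀ k x, hk' k x ≤ C' * Real.exp (-(a * ‖x‖)) := by
    intro k x
    have h1 := hmaj k x
    have h2 : hk' k x = cv (1 / ((k : ℝ) + 1)) h x / c k *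
        Real.exp (-(1 / ((k : ℝ) + 1) * ‖x‖ ^ 2)) := by
      simp only [hhk]; ring
    rw [h2]
    have h3 : 0 ≤ cv (1 / ((k : ℝ) + 1)) h x / c k := div_nonneg (hcv0 k x) (hc0 k).le
    calc cv (1 / ((k : ℝ) + 1)) h x / c k * Real.exp (-(1 / ((k : ℝ) + 1) * ‖x‖ ^ 2))
        ≤ cv (1 / ((k : ℝ) + 1)) h x / c k * 1 := mul_le_mul_of_nonneg_left (hexp k x) h3
      _ ≤ _ := by rw [mul_one]; exact h1
  have hint : Integrable fun x : Vn n => (1 + ‖x‖ ^ 2) * (C' * Real.exp (-(a * ‖x‖))) := by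
    refine ((exp_norm_int (F := Vn n) ha).const_mul C').congr (Eventually.of_forall fun x => ?_)
    simp only
    ring
  refine QJ_limit (hk := hk') (H := fun x => C' * Real.exp (-(a * ‖x‖)))
    (fun k => (hkc k).measurable)
    (fun k x => mul_nonneg (one_div_nonneg.2 (hc0 k).le)
      (mul_nonneg (hcv0 k x) (Real.exp_pos _).le)) hle hint ?_ hQk
  filter_upwards [cv_lim h0 hm hlc hB ha hd] with x hx
  have h1 : Tendsto (fun k : ℕ => Real.exp (-(1 / ((k : ℝ) + 1) * ‖x‖ ^ 2))) atTop (𝓝 1) := by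
    have h2 : Tendsto (fun k : ℕ => -(1 / ((k : ℝ) + 1) * ‖x‖ ^ 2)) atTop (𝓝 0) := by
      have := (tendsto_one_div_add_atTop_nhds_zero_nat (𝕜 := ℝ)).mul_const (‖x‖ ^ 2)
      simpa using this.neg
    have := (Real.continuous_exp.tendsto 0).comp h2
    rwa [Real.exp_zero] at this
  have h3 := hx.mul h1
  rw [mul_one] at h3
  refine h3.congr fun k => ?_
  simp only [hhk, hc]
  ring

end Pool.Agent.Lib.MP_8d00da_gt.h42k
end
end
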