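import Mathlib
import Pool.Agent.Lib.MP_8d00da_gt.h97r.ROm
import Pool.Agent.Lib.MP_8d00da_gt.h97r.RBoch
import Pool.Agent.Lib.MP_8d00da_gt.h97s.KCen
import Pool.Agent.Lib.MP_8d00da_gt.h97r.RLI
import Pool.Agent.Lib.MP_8d00da_gt.h97r.RFin
import Pool.Agent.Lib.MP_8d00da_gt.h42s.OptDir
import Pool.Agent.Lib.MP_8d00da_gt.h42k.L11e
import Pool.Agent.Lib.MP_8d00da_gt.h62a.Sym

section

/-!
# Near minimisers of the variational problem
-/

namespace Pool.Agent.Lib.MP_8d00da_gt.h97r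

open MeasureTheory Set Filter
open Pool.Agent.Lib.MP_8d00da_gt.h25 Pool.Agent.Lib.MP_8d00da_gt.h42
open Pool.Agent.Lib.MP_8d00da_gt.h42s Pool.Agent.Lib.MP_8d00da_gt.h42o
open scoped Topology NNReal

variable {F : Type*} [NormedAddCommGroup F] [InnerProductSpace ℝ F]
    [FiniteDimensional ℝ F] [MeasurableSpace F] [BorelSpace F]

variable {δ L lam : ℝ} {h : F → ℝ} {g : F ≃ₗᵢ[ℝ] F} {N : ℕ}

/-- The functional. -/
noncomputable def JJ (h : F → ℝ) (lam : ℝ) (u v : F → ℝ) : ℝ :=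
  En h v + lam * Vr h v - 4 * lam * Cv h u v

/-- `Cv u v ≤ sqrt (Vr u) sqrt (Vr v)` (`Cv_cs`), `En ≥ 0`: `J v ≥ lam (V - 4 a sqrt V) ≥
- 4 lam a²` with `V = Vr v`, `a² = Vr u`. -/
theorem JJ_bdd (H : GW δ L h) (hm : ∫ x, h x = 1) (hlam : 0 < lam) {u v : F → ℝ} (hu : BL u)
    (hv : BL v) : -(4 * lam * Vr h u) ≤ JJ h lam u v := by
  have h1 : 0 ≤ En h v := En_nonneg H.wt
  have h2 := Cv_cs H hm hu hv
  have h3 := Vr_nonneg H hm hu
  have h4 := Vr_nonneg H hm hv
  have h5 : 4 * Cv h u v ≤ 4 * Vr h u + Vr h v := by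
    refine le_of_abs_le (abs_le_of_sq_le_sq ?_ (by positivity))
    nlinarith [sq_nonneg (4 * Vr h u - Vr h v)]
  unfold JJ
  nlinarith [mul_le_mul_of_nonneg_left h5 hlam.le]

/-- `Sg.En_split`, `Sg.Vr_split`, `Sg.Cv_zav` (`Cv u v = Cv u (av v) + Cv u (v - av v)`). -/
theorem JJ_av (H : GW δ L h) (hm : ∫ x, h x = 1) (hlam : 0 < lam) (S : Sg h g N) {u v : F → ℝ}
    (hu : BL u) (hv : BL v) (hui : Inv g u) : JJ h lam u (av g N v) ≤ JJ h lam u v := by
  have hav : BL (av g N v) := av_BL hv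
  have hz : BL (fun x => v x - av g N v x) := hv.sub hav
  have h1 := S.En_split H hv
  have h2 := S.Vr_split H hm hv
  have h3 := S.Cv_zav H hu hz hui (S.sub_zav v)
  have h4 : 0 ≤ En h (fun x => v x - av g N v x) := En_nonneg H.wt
  have h5 : 0 ≤ ∫ x, (v x - av g N v x) ^ 2 * h x :=
    integral_nonneg fun x => mul_nonneg (sq_nonneg _) (H.pos x).le
  have h6 : Cv h u v = Cv h u (av g N v) := by
    have e1 := Cv_add_smul H hu hav hz 1
    have e2 : (fun x => av g N v x + 1 * (v x - av g N v x)) = v := by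
      funext x
      ring
    rw [e2, h3] at e1
    rw [e1]
    ring
  unfold JJ
  rw [h6, h1, h2]
  nlinarith [mul_nonneg hlam.le h5]

/-- `En (RT v) ≤ En v` (`RT_En`), `Vr (RT v) ≤ Vr v` (`RT_contr`, `RT_mean`),
`|Cv u (v - RT v)| ≤ sqrt (Vr u) sqrt (∫ (v - RT v)² h) ≤ sqrt (Vr u) sqrt (2 η En v)`
(`RT_l2`, `Vr_le`). -/
theorem JJ_RT (H : GW δ L h) (hm : ∫ x, h x = 1) (hlam : 0 < lam) {u v : F → ℝ} (hu : BL u)
    (hv : BL v) {η : ℝ} (hη : 0 < η) :
    JJ h lam u (RT h η v) ≤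
      JJ h lam u v + 4 * lam * (Real.sqrt (Vr h u) * Real.sqrt (2 * η * En h v)) := by
  have hwt := H.wt
  have hi := H.int
  obtain ⟨⟨K, hK⟩, A, hA⟩ := hv
  have hRB : BL (RT h η v) := (RT_dir hwt hη hK hA 0).2.1
  have hv : BL v := ⟨⟨K, hK⟩, A, hA⟩
  have hz : BL (fun x => v x - RT h η v x) := hv.sub hRB
  have h1 := (RT_En hwt hi hη hv).1
  have h2 := RT_contr hwt hi hη hv
  have h3 := RT_mean hwt hi hη hv
  have h4 := (RT_l2 hwt hi hη hv).1
  have h5 : Vr h (RT h η v) ≤ Vr h v := by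
    unfold Vr
    rw [h3]
    linarith
  have h6 : Cv h u v = Cv h u (RT h η v) + Cv h u (fun x => v x - RT h η v x) := by
    have e1 := Cv_add_smul H hu hRB hz 1
    have e2 : (fun x => RT h η v x + 1 * (v x - RT h η v x)) = v := by
      funext x
      ring
    rw [e2] at e1
    rw [e1]
    ring
  have h7 : Vr h (fun x => v x - RT h η v x) ≤ 2 * η * En h v := by
    refine (Vr_le hm _).trans ?_
    linarith
  have h8 : Cv h u (fun x => v x - RT h η v x) ≤
      Real.sqrt (Vr h u) * Real.sqrt (2 * η * En h v) := by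
    rw [← Real.sqrt_mul (Vr_nonneg H hm hu)]
    refine Real.le_sqrt_of_sq_le ?_
    refine (Cv_cs H hm hu hz).trans ?_
    exact mul_le_mul_of_nonneg_left h7 (Vr_nonneg H hm hu)
  unfold JJ
  rw [h6]
  have h9 := mul_le_mul_of_nonneg_left h8 hlam.le
  have h10 := mul_le_mul_of_nonneg_left h5 hlam.le
  linarith

/-- `J (v + t φ) = J v + 2 t (E2 v φ + lam Cv v φ - 2 lam Cv u φ) + t² (En φ + lam Vr φ)`. -/
theorem JJ_add (H : GW δ L h) (hm : ∫ x, h x = 1) {u v φ : F → ℝ} (hu : BL u) (hv : BL v)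
    (hφ : BL φ) (t : ℝ) : JJ h lam u (fun x => v x + t * φ x) = JJ h lam u v +
      2 * t * (E2 h v φ + lam * Cv h v φ - 2 * lam * Cv h u φ) +
        t ^ 2 * (En h φ + lam * Vr h φ) := by
  unfold JJ
  rw [En_add_smul H hv hφ t, Vr_add_smul H hm hv hφ t, Cv_add_smul H hu hv hφ t]
  ring

end Pool.Agent.Lib.MP_8d00da_gt.h97r
end

section

/-!
# Existence of near minimisers
-/

namespace Pool.Agent.Lib.MP_8d00da_gt.h97r

open MeasureTheory Set Filter
open Pool.Agent.Lib.MP_8d00da_gt.h25 Pool.Agent.Lib.MP_8d00da_gt.h42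
open Pool.Agent.Lib.MP_8d00da_gt.h42s Pool.Agent.Lib.MP_8d00da_gt.h42o
open scoped Topology NNReal

variable {F : Type*} [NormedAddCommGroup F] [InnerProductSpace ℝ F]
    [FiniteDimensional ℝ F] [MeasurableSpace F] [BorelSpace F]

variable {δ L lam : ℝ} {h : F → ℝ} {g : F ≃ₗᵢ[ℝ] F} {N : ℕ}

/-- Take `v₀` with `J v₀ ≤ inf J + ε / 2` over the bounded Lipschitz functions (`JJ_bdd`),
replace it by `v₁ = av v₀` (`JJ_av`) and by `v = RT v₁` for small `η` (`JJ_RT`); then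
`J v ≤ inf J + ε ≤ J (v + t φ) + ε` for all bounded Lipschitz `φ` and real `t`, i.e.
`0 ≤ ε + 2 t R + t² G` (`JJ_add`), so `R² ≤ ε G`. `v` is `g`-invariant (`Sg.av_inv`,
`Sg.RT_inv`) and smooth (`RT_sm`). -/
theorem exists_min (H : GW δ L h) (hm : ∫ x, h x = 1) (hlam : 0 < lam) (S : Sg h g N)
    {u : F → ℝ} (hu : BL u) (hui : Inv g u) {ε : ℝ} (hε : 0 < ε) :
    ∃ v : F → ℝ, Sm v ∧ Inv g v ∧ ∀ φ : F → ℝ, BL φ →
      (E2 h v φ + lam * Cv h v φ - 2 * lam * Cv h u φ) ^ 2 ≤ ε * (En h φ + lam * Vr h φ) := by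
  classical
  set T : Set ℝ := {r | ∃ v : F → ℝ, BL v ∧ JJ h lam u v = r} with hT
  have hTne : T.Nonempty := ⟨JJ h lam u (fun _ => 0), fun _ => 0, BL.const 0, rfl⟩
  have hTbdd : BddBelow T := by
    refine ⟨-(4 * lam * Vr h u), ?_⟩
    rintro r ⟨v, hv, rfl⟩
    exact JJ_bdd H hm hlam hu hv
  obtain ⟨r, ⟨v₀, hv₀, rfl⟩, hr⟩ := Real.lt_sInf_add_pos hTne (half_pos hε)
  have hlow : ∀ w : F → ℝ, BL w → sInf T ≤ JJ h lam u w := fun w hw =>
    csInf_le hTbdd ⟨w, hw, rfl⟩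
  set v₁ : F → ℝ := av g N v₀ with hv₁def
  have hv₁ : BL v₁ := av_BL hv₀
  have hv₁i : Inv g v₁ := S.av_inv v₀
  have hJ1 : JJ h lam u v₁ ≤ JJ h lam u v₀ := JJ_av H hm hlam S hu hv₀ hui
  have hE : 0 ≤ En h v₁ := En_nonneg H.wt
  set s : ℝ := Real.sqrt (Vr h u) with hs
  have hs0 : 0 ≤ s := Real.sqrt_nonneg _
  set c : ℝ := ε / (8 * lam * (s + 1)) with hc
  have hc0 : 0 < c := by positivity
  set η : ℝ := c ^ 2 / (2 * (En h v₁ + 1)) with hη
  have hη0 : 0 < η := by positivity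
  have hsq : Real.sqrt (2 * η * En h v₁) ≤ c := by
    rw [Real.sqrt_le_left hc0.le]
    have h1 : 2 * η * En h v₁ = c ^ 2 * (En h v₁ / (En h v₁ + 1)) := by
      rw [hη]
      field_simp
    rw [h1]
    have h2 : En h v₁ / (En h v₁ + 1) ≤ 1 := by
      rw [div_le_one (by linarith)]
      linarith
    nlinarith [sq_nonneg c]
  have hJ2 := JJ_RT H hm hlam hu hv₁ hη0
  have hJ3 : 4 * lam * (s * Real.sqrt (2 * η * En h v₁)) ≤ ε / 2 := by
    have h1 : s * Real.sqrt (2 * η * En h v₁) ≤ (s + 1) * c := by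
      have := Real.sqrt_nonneg (2 * η * En h v₁)
      nlinarith
    have h2 : 4 * lam * ((s + 1) * c) = ε / 2 := by
      rw [hc]
      field_simp
      ring
    calc 4 * lam * (s * Real.sqrt (2 * η * En h v₁)) ≤ 4 * lam * ((s + 1) * c) := by gcongr
      _ = ε / 2 := h2
  set v : F → ℝ := RT h η v₁ with hv
  have hvS : Sm v := RT_sm H.wt hη0 hv₁
  refine ⟨v, hvS, S.RT_inv hv₁i, fun φ hφ => ?_⟩
  set R : ℝ := E2 h v φ + lam * Cv h v φ - 2 * lam * Cv h u φ with hR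
  set G : ℝ := En h φ + lam * Vr h φ with hG
  have hquad : ∀ t : ℝ, 0 ≤ G * (t * t) + (2 * R) * t + ε := by
    intro t
    have h1 := hlow (fun x => v x + t * φ x) (hvS.bl.add ((BL.const t).mul hφ))
    rw [JJ_add H hm hu hvS.bl hφ t] at h1
    have h2 : JJ h lam u v ≤ sInf T + ε := by linarith
    nlinarith
  have hd := discrim_le_zero hquad
  unfold discrim at hd
  nlinarith

end Pool.Agent.Lib.MP_8d00da_gt.h97r
end

section

/-!
# The step
-/

namespace Pool.Agent.Lib.MP_8d00da_gt.h97r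

open MeasureTheory Set Filter
open Pool.Agent.Lib.MP_8d00da_gt.h25 Pool.Agent.Lib.MP_8d00da_gt.h42
open Pool.Agent.Lib.MP_8d00da_gt.h42s Pool.Agent.Lib.MP_8d00da_gt.h42o
open scoped Topology NNReal

variable {F : Type*} [NormedAddCommGroup F] [InnerProductSpace ℝ F]
    [FiniteDimensional ℝ F] [MeasurableSpace F] [BorelSpace F]

variable {δ L lam : ℝ} {h : F → ℝ} {g : F ≃ₗᵢ[ℝ] F} {N d e : ℕ}
  {b : OrthonormalBasis (Fin d ⊕ Fin e) ℝ F}

private lemma step_real {lam s e ev X t1 K1 Ei Er Pi Pr m Sq' EN' F0 Vw Ew G Fp Ft Vu Vp : ℝ}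
    (hlam : 0 < lam) (hlam1 : lam ≤ 1) (hs : 0 < s) (hs1 : s ≤ 1) (he : 0 ≤ e) (hK1 : 0 ≤ K1)
    (hX : 0 ≤ X) (ht1 : t1 = 15 * s ^ 4 * (1 + e)) (hEi : 0 ≤ Ei) (hEr : 0 ≤ Er)
    (hVw : 0 ≤ Vw) (hEw : 0 ≤ Ew)
    (ha : Ew + 3 * lam * Vw ≤ X + t1) (hb : Vp ≤ X + t1) (hc : ev ≤ lam * Vu + t1)
    (hee : e - ev ≤ (5 / 4) * X + t1)
    (hd : Ei + Er ≤ s ^ 2 * (lam * e + s * K1)) (h1 : s ^ 2 * EN' ≤ Ei)
    (h2 : lam * s ^ 2 * (Pr - m) ≤ (1 + 2 * s ^ 2 * lam) * Er) (h3 : Pi + Pr = ev)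
    (h4 : m ≤ 2 * Vp + 2 * lam ^ 2 * (2000 * F0 + 2 * Vw)) (h5 : Pi ≤ 2 * Ei + Sq')
    (h6 : Sq' ≤ Pi) (h6' : 0 ≤ Pr) (h7 : G ≤ 2 * Fp + 2 * Ew) (h8 : Fp ≤ (3 / 2) * Ft + 6 * Ei) :
    EN' - lam * Sq' ≤ 5 * lam * X + 4000 * lam ^ 3 * F0 + s * (100 * (1 + e) + 20 * K1) ∧
      G ≤ 3 * Ft + 3 * X + s * (100 * (1 + e) + 20 * K1) ∧
      Sq' ≤ lam * Vu + s * (100 * (1 + e) + 20 * K1) := by
  set Y := lam * e + s * K1 with hY
  have hY0 : 0 ≤ Y := by positivity
  have hs2 : 0 < s ^ 2 := by positivity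
  have s2 : s ^ 2 ≤ s := pow_le_of_le_one hs.le hs1 (by norm_num)
  have s4 : s ^ 4 ≤ s := pow_le_of_le_one hs.le hs1 (by norm_num)
  have hYle : Y ≤ e + K1 := add_le_add (mul_le_of_le_one_left he hlam1)
    (mul_le_of_le_one_left hK1 hs1)
  have ht : t1 ≤ s * (15 * (1 + e)) := by
    rw [ht1, show 15 * s ^ 4 * (1 + e) = s ^ 4 * (15 * (1 + e)) by ring]
    exact mul_le_mul_of_nonneg_right s4 (by positivity)
  have ht0 : 0 ≤ t1 := by
    rw [ht1]
    positivity
  have hYs : s ^ 2 * Y ≤ s * (e + K1) := mul_le_mul s2 hYle hY0 hs.le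
  have hYs0 : 0 ≤ s ^ 2 * Y := by positivity
  -- first inequality
  have hErY : Er ≤ s ^ 2 * Y := by linarith
  have hEiY : Ei ≤ s ^ 2 * Y := by linarith
  have g1 : lam * s ^ 2 * (Pr - m) ≤ Er + 2 * s ^ 2 * lam * (s ^ 2 * Y) := by
    have h9 := mul_le_mul_of_nonneg_left hErY (by positivity : 0 ≤ 2 * s ^ 2 * lam)
    have h10 : (1 + 2 * s ^ 2 * lam) * Er = Er + 2 * s ^ 2 * lam * Er := by ring
    rw [h10] at h2
    exact h2.trans (add_le_add_right h9 Er)
  have g2 : s ^ 2 * EN' ≤ s ^ 2 * (Y - lam * (Pr - m) + 2 * lam * (s ^ 2 * Y)) := by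
    have h9 : s ^ 2 * (Y - lam * (Pr - m) + 2 * lam * (s ^ 2 * Y)) =
        s ^ 2 * Y - lam * s ^ 2 * (Pr - m) + 2 * s ^ 2 * lam * (s ^ 2 * Y) := by ring
    rw [h9]
    linarith only [h1, hd, g1]
  have g3 : EN' ≤ Y - lam * (Pr - m) + 2 * lam * (s ^ 2 * Y) := le_of_mul_le_mul_left g2 hs2
  have g4 : lam * (s ^ 2 * Y) ≤ s ^ 2 * Y := mul_le_of_le_one_left hYs0 hlam1
  have g5 : lam * (Pi - Sq') ≤ 2 * (s ^ 2 * Y) := by
    have h9 : Pi - Sq' ≤ 2 * (s ^ 2 * Y) := by linarith only [h5, hEiY]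
    have h10 : lam * (Pi - Sq') ≤ lam * (2 * (s ^ 2 * Y)) := mul_le_mul_of_nonneg_left h9 hlam.le
    linarith only [h10, g4]
  have g6 : 4 * lam ^ 2 * Vw ≤ (4 / 3) * (X + t1) := by
    have h9 : 3 * lam * Vw ≤ X + t1 := by linarith only [ha, hEw]
    have h10 : (4 / 3) * lam * (3 * lam * Vw) ≤ (4 / 3) * lam * (X + t1) :=
      mul_le_mul_of_nonneg_left h9 (by positivity)
    have h11 : lam * (X + t1) ≤ X + t1 := mul_le_of_le_one_left (add_nonneg hX ht0) hlam1
    have h12 : (4 / 3) * lam * (3 * lam * Vw) = 4 * lam ^ 2 * Vw := by ring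
    have h13 : (4 / 3) * lam * (X + t1) = (4 / 3) * (lam * (X + t1)) := by ring
    rw [h12, h13] at h10
    exact h10.trans (mul_le_mul_of_nonneg_left h11 (by norm_num))
  have g7 : m ≤ (10 / 3) * (X + t1) + 4000 * lam ^ 2 * F0 := by
    have h9 : 2 * lam ^ 2 * (2000 * F0 + 2 * Vw) = 4000 * lam ^ 2 * F0 + 4 * lam ^ 2 * Vw := by
      ring
    rw [h9] at h4
    linarith only [h4, hb, g6]
  have g8 : lam * m ≤ lam * ((10 / 3) * (X + t1) + 4000 * lam ^ 2 * F0) :=
    mul_le_mul_of_nonneg_left g7 hlam.le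
  have g9 : lam * (e - ev) ≤ lam * ((5 / 4) * X + t1) := mul_le_mul_of_nonneg_left hee hlam.le
  have g10 : lam * t1 ≤ t1 := mul_le_of_le_one_left ht0 hlam1
  have g11 : 0 ≤ lam * X := by positivity
  have hPr : Pr = ev - Pi := by linarith only [h3]
  have hse : 0 ≤ s * e := by positivity
  have hsK : 0 ≤ s * K1 := by positivity
  refine ⟨?_, ?_, ?_⟩
  · have e1 : Y = lam * e + s * K1 := hY
    have e2 : EN' - lam * Sq' ≤ lam * (e - ev) + lam * (Pi - Sq') + lam * m + s * K1 +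
        2 * (s ^ 2 * Y) := by
      have h9 : Y - lam * (Pr - m) + 2 * lam * (s ^ 2 * Y) =
          lam * (e - ev) + lam * Pi + lam * m + s * K1 + 2 * (lam * (s ^ 2 * Y)) := by
        rw [hPr]
        nth_rewrite 1 [e1]
        ring
      rw [h9] at g3
      linarith only [g3, g4]
    have h10 : lam * ((10 / 3) * (X + t1) + 4000 * lam ^ 2 * F0) =
        (10 / 3) * (lam * X) + (10 / 3) * (lam * t1) + 4000 * lam ^ 3 * F0 := by ring
    have h11 : lam * ((5 / 4) * X + t1) = (5 / 4) * (lam * X) + lam * t1 := by ring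
    rw [h10] at g8
    rw [h11] at g9
    have h12 : s * (15 * (1 + e)) = 15 * s + 15 * (s * e) := by ring
    have h13 : s * (e + K1) = s * e + s * K1 := by ring
    have h14 : s * (100 * (1 + e) + 20 * K1) = 100 * s + 100 * (s * e) + 20 * (s * K1) := by ring
    rw [h12] at ht
    rw [h13] at hYs
    rw [h14, show 5 * lam * X = 5 * (lam * X) by ring]
    linarith only [e2, g5, g8, g9, g10, g11, ht, hYs, hse, hsK, hs]
  · have h12 : s * (15 * (1 + e)) = 15 * s + 15 * (s * e) := by ring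
    have h13 : s * (e + K1) = s * e + s * K1 := by ring
    have h14 : s * (100 * (1 + e) + 20 * K1) = 100 * s + 100 * (s * e) + 20 * (s * K1) := by ring
    have h15 : 0 ≤ 3 * lam * Vw := by positivity
    rw [h12] at ht
    rw [h13] at hYs
    rw [h14]
    linarith only [h7, h8, ha, h15, hEiY, ht, hYs, hse, hsK, hs, hX]
  · have h12 : s * (15 * (1 + e)) = 15 * s + 15 * (s * e) := by ring
    have h14 : s * (100 * (1 + e) + 20 * K1) = 100 * s + 100 * (s * e) + 20 * (s * K1) := by ring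
    rw [h12] at ht
    rw [h14]
    linarith only [h6, h3, h6', hc, ht, hse, hsK, hs]

omit [InnerProductSpace ℝ F] [FiniteDimensional ℝ F] [MeasurableSpace F] [BorelSpace F] in
private lemma BL_zero : BL (fun _ : F => (0 : ℝ)) := BL.const 0

omit [InnerProductSpace ℝ F] [FiniteDimensional ℝ F] [MeasurableSpace F] [BorelSpace F] in
private lemma BL_lin {u v : F → ℝ} (hu : BL u) (hv : BL v) (a c : ℝ) :
    BL fun x => a * u x + c * v x :=
  ((BL.const a).mul hu).add ((BL.const c).mul hv)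

private lemma E2_lin (H : GW δ L h) {f u v : F → ℝ} (hf : BL f) (hu : BL u) (hv : BL v)
    (a c : ℝ) : E2 h f (fun x => a * u x + c * v x) = a * E2 h f u + c * E2 h f v := by
  have h0 : E2 h f (fun _ => 0) = 0 := by
    unfold E2
    simp
  have h1 := E2_add_smul H hf (BL_zero (F := F)) hu a
  rw [h0, zero_add] at h1
  simp only [zero_add] at h1
  have h2 := E2_add_smul H hf ((BL.const a).mul hu) hv c
  rw [h2, h1]

private lemma Cv_lin (H : GW δ L h) {f u v : F → ℝ} (hf : BL f) (hu : BL u) (hv : BL v)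
    (a c : ℝ) : Cv h f (fun x => a * u x + c * v x) = a * Cv h f u + c * Cv h f v := by
  have h0 : Cv h f (fun _ => 0) = 0 := by
    unfold Cv
    simp
  have h1 := Cv_add_smul H hf (BL_zero (F := F)) hu a
  rw [h0, zero_add] at h1
  simp only [zero_add] at h1
  have h2 := Cv_add_smul H hf ((BL.const a).mul hu) hv c
  rw [h2, h1]

private lemma En_lin (H : GW δ L h) {u v : F → ℝ} (hu : BL u) (hv : BL v) (a c : ℝ) :
    En h (fun x => a * u x + c * v x) =
      a ^ 2 * En h u + 2 * a * c * E2 h u v + c ^ 2 * En h v := by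
  rw [← E2_self, E2_lin H (BL_lin hu hv a c) hu hv, E2_comm h _ u, E2_comm h _ v,
    E2_lin H hu hu hv, E2_lin H hv hu hv, E2_self, E2_self, E2_comm h v u]
  ring

private lemma Vr_lin (H : GW δ L h) (hm : ∫ x, h x = 1) {u v : F → ℝ} (hu : BL u) (hv : BL v)
    (a c : ℝ) : Vr h (fun x => a * u x + c * v x) =
      a ^ 2 * Vr h u + 2 * a * c * Cv h u v + c ^ 2 * Vr h v := by
  rw [← Cv_self hm, Cv_lin H (BL_lin hu hv a c) hu hv, Cv_comm h _ u, Cv_comm h _ v,
    Cv_lin H hu hu hv, Cv_lin H hv hu hv, Cv_self hm, Cv_self hm, Cv_comm h v u]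
  ring

private lemma En_basis (H : GW δ L h) {v : F → ℝ} (hv : BL v) {ι : Type*} [Fintype ι]
    (b : OrthonormalBasis ι ℝ F) : ∑ i, ∫ x, (fderiv ℝ v x (b i)) ^ 2 * h x = En h v := by
  rw [← E2_self, E2_basis H hv hv b]
  simp only [sq]

private lemma lin_bound (H : GW δ L h) (I : Iso h) (hd : 1 ≤ d) {u v : F → ℝ} (hu : BL u)
    (hv : BL v) {θ : F} (hθ : ‖θ‖ = 1) :
    (∫ x, v x * inner ℝ θ x * h x) ^ 2 ≤ 2000 * (∫ x, u x ^ 2 * (om b x * h x)) +
      2 * Vr h (fun x => u x - v x) := by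
  have hw : BL fun x => u x - v x := hu.sub hv
  have h1 := lin_om (b := b) H I hd hu hθ
  have h2 := lin_Vr H I hw hθ
  have hint : ∀ f : F → ℝ, BL f → Integrable fun x => f x * inner ℝ θ x * h x := by
    intro f hf
    obtain ⟨⟨K, hK⟩, A, hA⟩ := hf
    refine H.int_poly (hK.continuous.measurable.mul (by fun_prop)) (C := A) fun x => ?_
    have hA0 : 0 ≤ A := (abs_nonneg _).trans (hA 0)
    rw [abs_mul]
    have h3 : |(inner ℝ θ x : ℝ)| ≤ ‖x‖ := by
      have := abs_real_inner_le_norm θ x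
      rwa [hθ, one_mul] at this
    have h4 : ‖x‖ ≤ 1 + ‖x‖ ^ 2 := by nlinarith [sq_nonneg (‖x‖ - 1), norm_nonneg x]
    exact mul_le_mul (hA x) (h3.trans h4) (abs_nonneg _) hA0
  have h3 : ∫ x, v x * inner ℝ θ x * h x =
      (∫ x, u x * inner ℝ θ x * h x) - ∫ x, (u x - v x) * inner ℝ θ x * h x := by
    rw [← integral_sub (hint u hu) (hint _ hw)]
    refine integral_congr_ae (Eventually.of_forall fun x => ?_)
    simp only
    ring
  rw [h3]
  nlinarith [sq_nonneg ((∫ x, u x * inner ℝ θ x * h x) +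
    ∫ x, (u x - v x) * inner ℝ θ x * h x)]

private lemma G_bound (H : GW δ L h) {u v : F → ℝ} (hu : BL u) (hv : Sm v) :
    Gq h b u ≤ 2 * (∑ i : Fin d, ∫ x, (fderiv ℝ v x (b (Sum.inl i))) ^ 2 * (om b x * h x)) +
      2 * En h (fun x => u x - v x) := by
  have hw : BL fun x => u x - v x := hu.sub hv.bl
  have hdu : ∀ᵐ x, DifferentiableAt ℝ u x := by
    obtain ⟨⟨K, hK⟩, -⟩ := hu
    exact hK.ae_differentiableAt
  have hd : ∀ f : F → ℝ, BL f → ∀ θ : F, ∃ M : ℝ, ∀ x, |fderiv ℝ f x θ| ≤ M := by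
    intro f hf θ
    obtain ⟨⟨K, hK⟩, -⟩ := hf
    refine ⟨K * ‖θ‖, fun x => ?_⟩
    rw [← Real.norm_eq_abs]
    exact ((fderiv ℝ f x).le_opNorm θ).trans
      (mul_le_mul_of_nonneg_right (norm_fderiv_le_of_lipschitz ℝ hK) (norm_nonneg _))
  have hsq : ∀ f : F → ℝ, BL f → ∀ θ : F, ∃ M : ℝ, ∀ x, |(fderiv ℝ f x θ) ^ 2| ≤ M := by
    intro f hf θ
    obtain ⟨M, hM⟩ := hd f hf θ
    refine ⟨M ^ 2, fun x => ?_⟩
    rw [abs_pow]
    exact pow_le_pow_left₀ (abs_nonneg _) (hM x) 2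
  have hmeas : ∀ f : F → ℝ, ∀ θ : F, Measurable fun x => (fderiv ℝ f x θ) ^ 2 := fun f θ =>
    (measurable_fderiv_apply_const ℝ f θ).pow_const 2
  have hint : ∀ f : F → ℝ, BL f → ∀ θ : F, Integrable fun x => (fderiv ℝ f x θ) ^ 2 * h x := by
    intro f hf θ
    obtain ⟨M, hM⟩ := hsq f hf θ
    exact H.bdd_int (hmeas f θ) hM
  have hinto : ∀ f : F → ℝ, BL f → ∀ θ : F,
      Integrable fun x => (fderiv ℝ f x θ) ^ 2 * (om b x * h x) := by
    intro f hf θ
    obtain ⟨M, hM⟩ := hsq f hf θ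
    have h1 : Integrable fun x => ((fderiv ℝ f x θ) ^ 2 * om b x) * h x := by
      refine H.bdd_int ((hmeas f θ).mul (om_cont b).measurable) (M := M) fun x => ?_
      rw [abs_mul, abs_of_pos (om_pos b x)]
      have h2 := om_le_one b x
      have h3 := om_pos b x
      have h4 := hM x
      have h5 := abs_nonneg ((fderiv ℝ f x θ) ^ 2)
      nlinarith
    refine h1.congr (Eventually.of_forall fun x => ?_)
    simp only
    ring
  have h1 : ∀ i : Fin d, ∫ x, (fderiv ℝ u x (b (Sum.inl i))) ^ 2 * (om b x * h x) ≤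
      2 * (∫ x, (fderiv ℝ v x (b (Sum.inl i))) ^ 2 * (om b x * h x)) +
      2 * ∫ x, (fderiv ℝ (fun x => u x - v x) x (b (Sum.inl i))) ^ 2 * h x := by
    intro i
    rw [← integral_const_mul, ← integral_const_mul,
      ← integral_add ((hinto v hv.bl _).const_mul 2) ((hint _ hw _).const_mul 2)]
    refine integral_mono_ae (hinto u hu _)
      (((hinto v hv.bl _).const_mul 2).add ((hint _ hw _).const_mul 2)) ?_
    filter_upwards [hdu] with x hx
    have e1 : fderiv ℝ (fun x => u x - v x) x = fderiv ℝ u x - fderiv ℝ v x :=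
      fderiv_fun_sub hx (hv.diff x)
    rw [e1, ContinuousLinearMap.sub_apply]
    set A := fderiv ℝ u x (b (Sum.inl i))
    set B := fderiv ℝ v x (b (Sum.inl i))
    have h2 := om_le_one b x
    have h3 := om_pos b x
    have h4 := H.pos x
    have h5 : A ^ 2 ≤ 2 * B ^ 2 + 2 * (A - B) ^ 2 := by
      have h50 : 2 * B ^ 2 + 2 * (A - B) ^ 2 = A ^ 2 + (A - 2 * B) ^ 2 := by ring
      rw [h50]
      exact le_add_of_nonneg_right (sq_nonneg _)
    have h6 : A ^ 2 * (om b x * h x) ≤ (2 * B ^ 2 + 2 * (A - B) ^ 2) * (om b x * h x) :=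
      mul_le_mul_of_nonneg_right h5 (by positivity)
    have h7 : (A - B) ^ 2 * (om b x * h x) ≤ (A - B) ^ 2 * h x :=
      mul_le_mul_of_nonneg_left (mul_le_of_le_one_left h4.le h2) (sq_nonneg _)
    linarith
  have h2 : ∑ i : Fin d, ∫ x, (fderiv ℝ (fun x => u x - v x) x (b (Sum.inl i))) ^ 2 * h x ≤
      En h (fun x => u x - v x) := by
    rw [← En_basis H hw b, Fintype.sum_sum_type]
    have : 0 ≤ ∑ j : Fin e, ∫ x, (fderiv ℝ (fun x => u x - v x) x (b (Sum.inr j))) ^ 2 * h x :=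
      Finset.sum_nonneg fun j _ => integral_nonneg fun x => mul_nonneg (sq_nonneg _) (H.pos x).le
    linarith
  unfold Gq
  calc ∑ i : Fin d, ∫ x, (fderiv ℝ u x (b (Sum.inl i))) ^ 2 * (om b x * h x)
      ≤ ∑ i : Fin d, (2 * (∫ x, (fderiv ℝ v x (b (Sum.inl i))) ^ 2 * (om b x * h x)) +
        2 * ∫ x, (fderiv ℝ (fun x => u x - v x) x (b (Sum.inl i))) ^ 2 * h x) :=
        Finset.sum_le_sum fun i _ => h1 i
    _ = 2 * (∑ i : Fin d, ∫ x, (fderiv ℝ v x (b (Sum.inl i))) ^ 2 * (om b x * h x)) +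
        2 * ∑ i : Fin d, ∫ x, (fderiv ℝ (fun x => u x - v x) x (b (Sum.inl i))) ^ 2 * h x := by
        rw [Finset.sum_add_distrib, Finset.mul_sum, Finset.mul_sum]
    _ ≤ _ := by linarith

private lemma Fp_bound (H : GW δ L h) {p : F → ℝ} (hp : BL p) {η : ℝ} (hη : 0 < η) :
    ∫ x, p x ^ 2 * (om b x * h x) ≤ (3 / 2) * (∫ x, RT h η p x ^ 2 * (om b x * h x)) +
      3 * ∫ x, (p x - RT h η p x) ^ 2 * h x := by
  have hT := (RT_sm H.wt hη hp).bl
  have hinto : ∀ f : F → ℝ, BL f → Integrable fun x => f x ^ 2 * (om b x * h x) := by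
    intro f hf
    obtain ⟨⟨K, hK⟩, A, hA⟩ := hf
    have h1 : Integrable fun x => (f x ^ 2 * om b x) * h x := by
      refine H.bdd_int ((hK.continuous.measurable.pow_const 2).mul (om_cont b).measurable)
        (M := A ^ 2) fun x => ?_
      rw [abs_mul, abs_of_pos (om_pos b x), abs_pow]
      have h2 := om_le_one b x
      have h3 := om_pos b x
      have h4 : |f x| ^ 2 ≤ A ^ 2 := pow_le_pow_left₀ (abs_nonneg _) (hA x) 2
      have h5 := sq_nonneg |f x|
      nlinarith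
    refine h1.congr (Eventually.of_forall fun x => ?_)
    simp only
    ring
  have hint : ∀ f : F → ℝ, BL f → Integrable fun x => f x ^ 2 * h x := by
    intro f hf
    obtain ⟨⟨K, hK⟩, A, hA⟩ := hf
    refine H.bdd_int (hK.continuous.measurable.pow_const 2) (M := A ^ 2) fun x => ?_
    rw [abs_pow]
    exact pow_le_pow_left₀ (abs_nonneg _) (hA x) 2
  have hw : BL fun x => p x - RT h η p x := hp.sub hT
  rw [← integral_const_mul, ← integral_const_mul,
    ← integral_add ((hinto _ hT).const_mul _) ((hint _ hw).const_mul _)]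
  refine integral_mono (hinto p hp) (((hinto _ hT).const_mul _).add ((hint _ hw).const_mul _))
    fun x => ?_
  simp only
  set A := p x
  set B := RT h η p x
  have h2 := om_le_one b x
  have h3 := om_pos b x
  have h4 := H.pos x
  have h5 : A ^ 2 ≤ (3 / 2) * B ^ 2 + 3 * (A - B) ^ 2 := by
    have h50 : (3 / 2) * B ^ 2 + 3 * (A - B) ^ 2 = A ^ 2 + (2 * A - 3 * B) ^ 2 / 2 := by ring
    rw [h50]
    exact le_add_of_nonneg_right (by positivity)
  have h6 : A ^ 2 * (om b x * h x) ≤ ((3 / 2) * B ^ 2 + 3 * (A - B) ^ 2) * (om b x * h x) :=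
    mul_le_mul_of_nonneg_right h5 (by positivity)
  have h7 : (A - B) ^ 2 * (om b x * h x) ≤ (A - B) ^ 2 * h x :=
    mul_le_mul_of_nonneg_left (mul_le_of_le_one_left h4.le h2) (sq_nonneg _)
  linarith

/-- The step: let `v` be a near minimiser (`exists_min`) for `u = nq q`, `η = s²`, and
`q' i = RT h η (∂_i v)` for the moving directions `i : Fin d`. -/
theorem step (H : GW δ L h) (I : Iso h) (S : Sy h g N b) (hlam : 0 < lam) (hlam1 : lam ≤ 1)
    (hPI : PI h lam) {ι : Type*} [Fintype ι] {q : ι → F → ℝ} (hq : Adm g N q) {τ : ℝ}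
    (hτ : 0 < τ) :
    ∃ q' : Fin d → F → ℝ, Adm g N q' ∧
      EN h q' - lam * Sq h q' ≤
        5 * lam * QQ h lam (nq q) + 4000 * lam ^ 3 * Fq h b q + τ ∧
      Gq h b (nq q) ≤ 3 * Fq h b q' + 3 * QQ h lam (nq q) + τ ∧
      Sq h q' ≤ lam * Sq h q + τ := by
  have hm := I.mass
  have Hw := H.wt
  have hi := H.int
  have huB : BL (nq q) := nq_BL hq.bl
  have hui : Inv g (nq q) := hq.inv
  set u := nq q with hu
  have he0 : 0 ≤ En h u := En_nonneg Hw
  set K1 : ℝ := (10 + 2 * L ^ 2) * (1 + En h u) with hK1d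
  have hK1 : 0 ≤ K1 := by positivity
  set Kt : ℝ := 100 * (1 + En h u) + 20 * K1 with hKtd
  have hKt : 0 < Kt := by positivity
  obtain ⟨s, hs, hs1, hsK⟩ : ∃ s : ℝ, 0 < s ∧ s ≤ 1 ∧ s * Kt ≤ τ := by
    refine ⟨min 1 (τ / Kt), lt_min one_pos (by positivity), min_le_left _ _, ?_⟩
    calc min 1 (τ / Kt) * Kt ≤ (τ / Kt) * Kt :=
          mul_le_mul_of_nonneg_right (min_le_right _ _) hKt.le
      _ = τ := div_mul_cancel₀ _ hKt.ne'
  have hs2 : 0 < s ^ 2 := by positivity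
  obtain ⟨v, hv, hvi, hEL⟩ := exists_min H hm hlam S.toSg huB hui (ε := (s ^ 2) ^ 4)
    (by positivity)
  have hvB := hv.bl
  have hsq4 : Real.sqrt ((s ^ 2) ^ 4) = s ^ 4 := by
    rw [show (s ^ 2) ^ 4 = (s ^ 4) ^ 2 by ring, Real.sqrt_sq (by positivity)]
  have hs8 : (s ^ 2) ^ 4 ≤ 1 := pow_le_one₀ (by positivity) (pow_le_one₀ hs.le hs1)
  have halg := alg_step (lam := lam) (ε := (s ^ 2) ^ 4) (Euu := En h u) (Euv := E2 h u v)
    (Evv := En h v) (Cuu := Vr h u) (Cuv := Cv h u v) (Cvv := Vr h v) hlam (by positivity) hs8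
    (fun a c => by
      have h1 := hPI _ (BL_lin huB hvB a c)
      rwa [En_lin H huB hvB, Vr_lin H hm huB hvB] at h1)
    (fun a c => by
      have h1 := Vr_nonneg H hm (BL_lin huB hvB a c)
      rwa [Vr_lin H hm huB hvB] at h1)
    (fun a c => by
      have h1 := hEL _ (BL_lin huB hvB a c)
      rw [En_lin H huB hvB, Vr_lin H hm huB hvB, E2_lin H hvB huB hvB, Cv_lin H hvB huB hvB,
        Cv_lin H huB huB hvB, E2_self, Cv_self hm, Cv_self hm, E2_comm h v u,
        Cv_comm h v u] at h1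
      refine le_trans (le_of_eq ?_) h1
      ring)
  rw [hsq4] at halg
  obtain ⟨ha, hb, hc, hee, hev⟩ := halg
  have hw1 : (fun x => u x - v x) = fun x => 1 * u x + (-1) * v x := by
    funext x
    ring
  have hEw : En h (fun x => u x - v x) = En h u - 2 * E2 h u v + En h v := by
    rw [hw1, En_lin H huB hvB]
    ring
  have hVw : Vr h (fun x => u x - v x) = Vr h u - 2 * Cv h u v + Vr h v := by
    rw [hw1, Vr_lin H hm huB hvB]
    ring
  have hwB : BL fun x => u x - v x := huB.sub hvB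
  have hX : 0 ≤ QQ h lam u := sub_nonneg.2 (hPI u huB)
  set Z : ℝ := ∫ z : F, h25.ker (s ^ 2) z with hZd
  have hZ : 0 < Z := ker_int_pos hs2
  have hboch := boch H hm hlam hlam1 hPI huB hv hs2 (pow_le_one₀ hs.le hs1) hEL hev b
  rw [Real.sqrt_sq hs.le, Fintype.sum_sum_type] at hboch
  set q' : Fin d → F → ℝ := fun i => RT h (s ^ 2) fun x => fderiv ℝ v x (b (Sum.inl i)) with hq'
  set EE : Fin d ⊕ Fin e → ℝ :=
    fun i => (∫ y, VV h (s ^ 2) (fun x => fderiv ℝ v x (b i)) y) / Z with hEE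
  have hEE0 : ∀ i, 0 ≤ EE i := fun i =>
    div_nonneg (integral_nonneg fun y => Hw.VV_nonneg) hZ.le
  have hEEe : ∀ i, ∫ y, VV h (s ^ 2) (fun x => fderiv ℝ v x (b i)) y = Z * EE i := by
    intro i
    rw [hEE]
    field_simp
  have hd := hv.dbl
  refine ⟨q', ⟨fun i => (RT_sm Hw hs2 (hd _)).bl, fun i => (RT_sm Hw hs2 (hd _)).diff,
    fun i => S.toSg.RT_zav Hw hs2 (hd _) (S.dzav hvi hv.diff i), S.nq_inv H hs2 hv hvi⟩, ?_⟩
  have hfin := step_real (lam := lam) (s := s) (e := En h u) (ev := En h v) (X := QQ h lam u)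
    (t1 := 15 * s ^ 4 * (1 + En h u)) (K1 := K1) (Ei := ∑ i, EE (Sum.inl i))
    (Er := ∑ j, EE (Sum.inr j))
    (Pi := ∑ i : Fin d, ∫ x, (fderiv ℝ v x (b (Sum.inl i))) ^ 2 * h x)
    (Pr := ∑ j : Fin e, ∫ x, (fderiv ℝ v x (b (Sum.inr j))) ^ 2 * h x)
    (m := ∑ j : Fin e, (∫ x, fderiv ℝ v x (b (Sum.inr j)) * h x) ^ 2)
    (Sq' := Sq h q') (EN' := EN h q') (F0 := Fq h b q) (Vw := Vr h fun x => u x - v x)
    (Ew := En h fun x => u x - v x) (G := Gq h b u)
    (Fp := ∑ i : Fin d, ∫ x, (fderiv ℝ v x (b (Sum.inl i))) ^ 2 * (om b x * h x))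
    (Ft := Fq h b q') (Vu := Vr h u) (Vp := QQ h lam v)
    hlam hlam1 hs hs1 he0 hK1 hX rfl (Finset.sum_nonneg fun i _ => hEE0 _)
    (Finset.sum_nonneg fun j _ => hEE0 _) (Vr_nonneg H hm hwB) (En_nonneg Hw)
    (by rw [hEw, hVw]; exact ha) hb hc hee ?_ ?_ ?_ ?_ ?_ ?_ ?_ ?_ ?_ ?_
  · obtain ⟨f1, f2, f3⟩ := hfin
    have hSq := Vr_le hm u
    rw [hu, Sq_nq H hq.bl, ← hu] at hSq
    have h1 : lam * Vr h u ≤ lam * Sq h q := mul_le_mul_of_nonneg_left hSq hlam.le
    refine ⟨?_, ?_, ?_⟩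
    · linarith
    · linarith
    · linarith
  · -- hd
    simp only [hEEe] at hboch
    rw [← Finset.mul_sum, ← Finset.mul_sum, ← mul_add] at hboch
    exact le_of_mul_le_mul_left hboch hZ
  · -- h1
    unfold EN
    rw [Finset.mul_sum]
    refine Finset.sum_le_sum fun i _ => ?_
    have h1 := (RT_En Hw hi hs2 (hd (b (Sum.inl i)))).2
    rw [hEEe] at h1
    have h2 : Z * En h (q' i) ≤ (1 / s ^ 2) * (Z * EE (Sum.inl i)) := h1
    have h3 : Z * (s ^ 2 * En h (q' i)) ≤ Z * EE (Sum.inl i) := by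
      calc Z * (s ^ 2 * En h (q' i)) = s ^ 2 * (Z * En h (q' i)) := by ring
        _ ≤ s ^ 2 * ((1 / s ^ 2) * (Z * EE (Sum.inl i))) :=
            mul_le_mul_of_nonneg_left h2 hs2.le
        _ = Z * EE (Sum.inl i) := by field_simp
    exact le_of_mul_le_mul_left h3 hZ
  · -- h2
    rw [← Finset.sum_sub_distrib, Finset.mul_sum, Finset.mul_sum]
    refine Finset.sum_le_sum fun j _ => ?_
    have h1 := VV_all H hm hlam hPI (hd (b (Sum.inr j))) hs2
    rw [hEEe] at h1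
    have h2 : Vr h (fun x => fderiv ℝ v x (b (Sum.inr j))) =
        (∫ x, (fderiv ℝ v x (b (Sum.inr j))) ^ 2 * h x) -
          (∫ x, fderiv ℝ v x (b (Sum.inr j)) * h x) ^ 2 := by
      unfold Vr
      rw [hm, div_one]
    rw [h2] at h1
    set V := (∫ x, (fderiv ℝ v x (b (Sum.inr j))) ^ 2 * h x) -
          (∫ x, fderiv ℝ v x (b (Sum.inr j)) * h x) ^ 2
    have h3 : Z * (lam * s ^ 2 * V) ≤ Z * ((1 + 2 * s ^ 2 * lam) * EE (Sum.inr j)) := by
      calc Z * (lam * s ^ 2 * V) = lam * (Z * (s ^ 2 * V)) := by ring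
        _ ≤ lam * ((2 * s ^ 2 + 1 / lam) * (Z * EE (Sum.inr j))) :=
            mul_le_mul_of_nonneg_left h1 hlam.le
        _ = Z * ((1 + 2 * s ^ 2 * lam) * EE (Sum.inr j)) := by
            field_simp
            ring
    exact le_of_mul_le_mul_left h3 hZ
  · -- h3
    rw [← Fintype.sum_sum_type (fun i => ∫ x, (fderiv ℝ v x (b i)) ^ 2 * h x)]
    exact En_basis H hvB b
  · -- h4
    have hA : ∀ θ : F, ‖θ‖ = 1 → (∫ x, v x * inner ℝ θ x * h x) ^ 2 ≤
        2000 * Fq h b q + 2 * Vr h (fun x => u x - v x) := by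
      intro θ hθ
      have h1 := lin_bound (b := b) H I S.dpos huB hvB hθ
      rwa [hu, Fq_nq H b hq.bl, ← hu] at h1
    have hF0 : 0 ≤ Fq h b q := Finset.sum_nonneg fun i _ => integral_nonneg fun x =>
      mul_nonneg (sq_nonneg _) (mul_nonneg (om_pos b x).le (H.pos x).le)
    exact mean_sq H I hlam hPI hv (c := fun j : Fin e => b (Sum.inr j))
      (b.orthonormal.comp _ Sum.inr_injective)
      (add_nonneg (by positivity) (mul_nonneg (by norm_num) (Vr_nonneg H hm hwB))) hA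
  · -- h5
    unfold Sq
    rw [Finset.mul_sum, ← Finset.sum_add_distrib]
    refine Finset.sum_le_sum fun i _ => ?_
    obtain ⟨⟨K, hK⟩, A, hA⟩ := hd (b (Sum.inl i))
    have h1 := (VV_lower_aux Hw hi hs2 hK hA).1
    rw [hEEe] at h1
    have h2 : Z * (∫ x, (fderiv ℝ v x (b (Sum.inl i))) ^ 2 * h x) ≤
        Z * (2 * EE (Sum.inl i) + ∫ x, q' i x ^ 2 * h x) := by
      refine h1.trans (le_of_eq ?_)
      ring
    exact le_of_mul_le_mul_left h2 hZ
  · -- h6
    exact Finset.sum_le_sum fun i _ => RT_contr Hw hi hs2 (hd _)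
  · -- h6'
    exact Finset.sum_nonneg fun j _ => integral_nonneg fun x =>
      mul_nonneg (sq_nonneg _) (H.pos x).le
  · -- h7
    exact G_bound H huB hv
  · -- h8
    unfold Fq
    rw [Finset.mul_sum, Finset.mul_sum, ← Finset.sum_add_distrib]
    refine Finset.sum_le_sum fun i _ => ?_
    have h1 := Fp_bound (b := b) H (hd (b (Sum.inl i))) hs2
    have h2 := (RT_l2 Hw hi hs2 (hd (b (Sum.inl i)))).2
    rw [hEEe] at h2
    have h3 : ∫ x, (fderiv ℝ v x (b (Sum.inl i)) -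
        RT h (s ^ 2) (fun x => fderiv ℝ v x (b (Sum.inl i))) x) ^ 2 * h x ≤
        2 * EE (Sum.inl i) := by
      refine le_of_mul_le_mul_left (h2.trans (le_of_eq ?_)) hZ
      ring
    linarith

end Pool.Agent.Lib.MP_8d00da_gt.h97r
end

section

/-!
# The gain inequality
-/

namespace Pool.Agent.Lib.MP_8d00da_gt.h97r

open MeasureTheory Set Filter
open Pool.Agent.Lib.MP_8d00da_gt.h25 Pool.Agent.Lib.MP_8d00da_gt.h42
open Pool.Agent.Lib.MP_8d00da_gt.h42s Pool.Agent.Lib.MP_8d00da_gt.h42o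
open scoped Topology NNReal

variable {F : Type*} [NormedAddCommGroup F] [InnerProductSpace ℝ F]
    [FiniteDimensional ℝ F] [MeasurableSpace F] [BorelSpace F]

variable {δ L lam : ℝ} {h : F → ℝ} {g : F ≃ₗᵢ[ℝ] F} {N d e : ℕ}
  {b : OrthonormalBasis (Fin d ⊕ Fin e) ℝ F}

private lemma R_bound (H : GW δ L h) (I : Iso h) (S : Sy h g N b) (hlam : 0 < lam)
    {ι : Type*} [Fintype ι] {q : ι → F → ℝ} (hq : Adm g N q) :
    QQ h lam (nq q) + (EN h q - En h (nq q)) ≤
      (EN h q - lam * Sq h q) + 2 * lam * Fq h b q := by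
  have h1 := mean_om (b := b) H I S.dpos (nq_BL hq.bl)
  rw [Fq_nq H b hq.bl] at h1
  have h2 : Vr h (nq q) = Sq h q - (∫ x, nq q x * h x) ^ 2 := by
    unfold Vr
    rw [I.mass, div_one, Sq_nq H hq.bl]
  unfold QQ
  rw [h2]
  have h3 := mul_le_mul_of_nonneg_left h1 hlam.le
  linarith

/-- Iterate the step (`iter`). -/
theorem gain (H : GW δ L h) (I : Iso h) (S : Sy h g N b) (hlam : 0 < lam) (hPI : PI h lam)
    (hsmall : 3050000 * (d : ℝ) ^ 6 * lam ≤ 1) {n : ℕ} {q : Fin n → F → ℝ} (hq : Adm g N q) :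
    Fq h b q ≤ (EN h q - lam * Sq h q) / (8 * lam) := by
  have hd1 : (1 : ℝ) ≤ d := by exact_mod_cast S.dpos
  have hd6 : (1 : ℝ) ≤ (d : ℝ) ^ 6 := one_le_pow₀ hd1
  have hlam1 : lam ≤ 1 := by nlinarith
  have hF0 : ∀ {n : ℕ} (q : Fin n → F → ℝ), 0 ≤ Fq h b q := fun q =>
    Finset.sum_nonneg fun i _ => integral_nonneg fun x =>
      mul_nonneg (sq_nonneg _) (mul_nonneg (om_pos b x).le (H.pos x).le)
  have hQ0 : ∀ {n : ℕ} {q : Fin n → F → ℝ}, Adm g N q → 0 ≤ QQ h lam (nq q) := fun hq =>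
    sub_nonneg.2 (hPI _ (nq_BL hq.bl))
  have hE0 : ∀ {n : ℕ} {q : Fin n → F → ℝ}, Adm g N q → 0 ≤ EN h q - En h (nq q) := fun hq =>
    sub_nonneg.2 (En_nq H hq.bl hq.diff)
  refine iter (T := Σ n : ℕ, {q : Fin n → F → ℝ // Adm g N q}) (S := fun q => Sq h q.2.1)
    (Fv := fun q => Fq h b q.2.1) (D := fun q => EN h q.2.1 - lam * Sq h q.2.1)
    (CL := 61000 * (d : ℝ) ^ 6) hlam (by linarith) (by linarith) (fun q => hF0 _) ?_ ?_ ?_
    ⟨n, q, hq⟩
  · rintro ⟨n, q, hq⟩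
    refine Finset.sum_le_sum fun i _ => ?_
    obtain ⟨⟨K, hK⟩, A, hA⟩ := hq.bl i
    have hint : Integrable fun x => q i x ^ 2 * h x := by
      refine H.bdd_int (hK.continuous.measurable.pow_const 2) (M := A ^ 2) fun x => ?_
      rw [abs_pow]
      exact pow_le_pow_left₀ (abs_nonneg _) (hA x) 2
    refine integral_mono_of_nonneg (Eventually.of_forall fun x =>
      mul_nonneg (sq_nonneg _) (mul_nonneg (om_pos b x).le (H.pos x).le)) hint
      (Eventually.of_forall fun x => ?_)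
    refine mul_le_mul_of_nonneg_left ?_ (sq_nonneg _)
    have h1 := om_le_one b x
    have h2 := H.pos x
    nlinarith
  · rintro ⟨n, q, hq⟩
    have h1 := R_bound (b := b) H I S hlam hq
    have h2 := hQ0 hq
    have h3 := hE0 hq
    simp only
    linarith
  · rintro ⟨n, q, hq⟩ τ hτ
    obtain ⟨q', hq', h1, h2, h3⟩ := step H I S hlam hlam1 hPI hq hτ
    refine ⟨⟨d, q', hq'⟩, ?_, ?_, h3⟩
    · have h4 := R_bound (b := b) H I S hlam hq
      have h6 := hE0 hq
      simp only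
      have h7 : 5 * lam * QQ h lam (nq q) ≤
          5 * lam * ((EN h q - lam * Sq h q) + 2 * lam * Fq h b q) :=
        mul_le_mul_of_nonneg_left (by linarith) (by positivity)
      linarith
    · have h4 := R_bound (b := b) H I S hlam hq
      have h5 := hQ0 hq
      have h6 := hE0 hq
      have h7 := LI_vec H S hq
      simp only
      refine h7.trans (mul_le_mul_of_nonneg_left ?_ (by positivity))
      linarith

end Pool.Agent.Lib.MP_8d00da_gt.h97r
end

section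

/-!
# The Poincare inequality for smooth isotropic weights
-/

namespace Pool.Agent.Lib.MP_8d00da_gt.h97r

open MeasureTheory Set Filter
open Pool.Agent.Lib.MP_8d00da_gt.h25 Pool.Agent.Lib.MP_8d00da_gt.h42
open Pool.Agent.Lib.MP_8d00da_gt.h42s Pool.Agent.Lib.MP_8d00da_gt.h42o
open scoped Topology NNReal

variable {F : Type*} [NormedAddCommGroup F] [InnerProductSpace ℝ F]
    [FiniteDimensional ℝ F] [MeasurableSpace F] [BorelSpace F]

variable {δ L : ℝ} {h : F → ℝ} {k : ℕ}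

section family

variable {g : F ≃ₗᵢ[ℝ] F} {N d e : ℕ} {b : OrthonormalBasis (Fin d ⊕ Fin e) ℝ F}

/-- The family of the compositions with the powers of `g`. -/
noncomputable def orb (g : F ≃ₗᵢ[ℝ] F) (N : ℕ) (z : F → ℝ) (j : Fin N) (x : F) : ℝ :=
  z ((g ^ (j : ℕ)) x)

omit [FiniteDimensional ℝ F] [MeasurableSpace F] [BorelSpace F] in
private lemma pow_comp_succ (g : F ≃ₗᵢ[ℝ] F) (j : ℕ) (x : F) : (g ^ j) (g x) = (g ^ (j + 1)) x := by
  rw [pow_succ]
  rfl

private lemma shift (S : Sg h g N) (Φ : F → ℝ) (x : F) :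
    ∑ j ∈ Finset.range N, Φ ((g ^ j) (g x)) = ∑ j ∈ Finset.range N, Φ ((g ^ j) x) := by
  simp only [pow_comp_succ]
  have h1 := Finset.sum_range_succ (fun j => Φ ((g ^ j) x)) N
  rw [Finset.sum_range_succ', S.per x] at h1
  have h2 : (g ^ 0) x = x := rfl
  rw [h2] at h1
  linarith

lemma orb_adm (S : Sg h g N) {z : F → ℝ} (hz : BL z) (hd : Differentiable ℝ z)
    (hZ : Zav g N z) : Adm g N (orb g N z) where
  bl := fun j => hz.comp (g ^ (j : ℕ)).lipschitz
  diff := fun j => hd.comp (g ^ (j : ℕ)).toContinuousLinearEquiv.differentiable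
  zav := fun j => S.zav_pow hZ j
  inv := by
    intro x
    unfold nq orb
    congr 1
    rw [Fin.sum_univ_eq_sum_range (fun j => z ((g ^ j) (g x)) ^ 2) N,
      Fin.sum_univ_eq_sum_range (fun j => z ((g ^ j) x) ^ 2) N]
    exact shift S (fun y => z y ^ 2) x

private lemma orb_const {N : ℕ} {A : ℝ} {B : Fin N → ℝ} (hB : ∀ j, B j = A) :
    ∑ j, B j = N * A := by
  rw [Finset.sum_congr rfl fun j _ => hB j, Finset.sum_const, Finset.card_univ, Fintype.card_fin,
    nsmul_eq_mul]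

lemma orb_Sq (S : Sg h g N) (z : F → ℝ) : Sq h (orb g N z) = N * ∫ x, z x ^ 2 * h x :=
  orb_const fun j => S.int_pow j fun x => z x ^ 2

lemma orb_EN (H : GW δ L h) (S : Sg h g N) {z : F → ℝ} (hz : BL z) :
    EN h (orb g N z) = N * En h z := by
  refine orb_const fun j => ?_
  have h1 := E2_comp H (g ^ (j : ℕ)) (fun x => S.pow j x) hz hz
  rw [E2_self, E2_self] at h1
  exact h1

lemma orb_Fq (S : Sy h g N b) (z : F → ℝ) :
    Fq h b (orb g N z) = N * ∫ x, z x ^ 2 * (om b x * h x) := by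
  refine orb_const fun j => ?_
  have h1 := S.toSg.int_pow j fun x => z x ^ 2 * om b x
  have h2 : ∫ x, z x ^ 2 * (om b x * h x) = ∫ x, z x ^ 2 * om b x * h x := by
    refine integral_congr_ae (Eventually.of_forall fun x => ?_)
    simp only
    ring
  rw [h2, ← h1]
  refine integral_congr_ae (Eventually.of_forall fun x => ?_)
  simp only [orb]
  rw [Inv.pow S.om_inv j x]
  ring

end family

/-- The Poincare inequality for smooth isotropic weights: near extremals exist in a sector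
(`near_sector`), they are not carried by far regions (`tight`), which contradicts `gain`. -/
theorem core (H : GW δ L h) (I : Iso h) (hk : 1 ≤ k) {m : ℕ}
    (S : Fin m → SymD h k) {c0 : ℝ} (hc0 : 0 < c0)
    (hfr : ∀ v : F, c0 * ‖v‖ ^ 2 ≤ ∑ s, ∑ i, (inner ℝ ((S s).b (Sum.inl i)) v) ^ 2) {f : F → ℝ}
    (hf : BL f) : Vr h f ≤ 3050000 * (k : ℝ) ^ 6 * En h f := by
  have Hw := H.wt
  have hm := I.mass
  have hk1 : (1 : ℝ) ≤ k := by exact_mod_cast hk
  have hk6 : (1 : ℝ) ≤ (k : ℝ) ^ 6 := one_le_pow₀ hk1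
  refine opt_const (T := {f : F → ℝ // BL f}) (fun f => Vr h f.1) (fun f => En h f.1)
    (fun f => En_nonneg Hw) (C0 := 3050000 * (k : ℝ) ^ 6) (C1 := 1 / δ) (by positivity)
    (fun f => H.apriori f.2) ?_ ⟨f, hf⟩
  intro Λ hΛ hPI
  by_contra hcon
  push Not at hcon
  have hΛ0 : 0 < Λ := lt_of_le_of_lt (by positivity) hΛ
  set lam : ℝ := 1 / Λ with hlam
  have hlam0 : 0 < lam := by positivity
  have hPI' : PI h lam := by
    intro f hf
    have h1 := hPI ⟨f, hf⟩
    simp only at h1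
    rw [hlam, one_div_mul_eq_div, div_le_iff₀ hΛ0]
    linarith
  have hNE : ∀ ε : ℝ, 0 < ε → ∃ f : F → ℝ, BL f ∧ (1 - ε) * En h f < lam * Vr h f := by
    intro ε hε
    obtain ⟨⟨f, hf⟩, h1⟩ := hcon ε hε
    refine ⟨f, hf, ?_⟩
    simp only at h1
    rw [hlam, one_div_mul_eq_div, lt_div_iff₀ hΛ0]
    linarith
  obtain ⟨s, hs⟩ := near_sector H hm hlam0 hPI' hNE S hc0 hfr
  obtain ⟨κ, hκ, htight⟩ := tight H (S s).b (2 * lam)
  obtain ⟨z, hzB, hzd, hzZ, hz⟩ := hs (min (1 / 2) κ) (lt_min (by norm_num) hκ)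
  set ε : ℝ := min (1 / 2) κ with hε
  have hε0 : 0 < ε := lt_min (by norm_num) hκ
  have hε1 : ε ≤ 1 / 2 := min_le_left _ _
  have hε2 : ε ≤ κ := min_le_right _ _
  set A : ℝ := ∫ x, z x ^ 2 * h x with hA
  have hE0 : 0 ≤ En h z := En_nonneg Hw
  have hA0 : 0 < A := by
    have h1 : 0 < lam * A := lt_of_le_of_lt (mul_nonneg (by linarith) hE0) hz
    exact (mul_pos_iff_of_pos_left hlam0).1 h1
  have h1 : En h z ≤ 2 * lam * A := by nlinarith
  have h2 := htight z hzB hzd h1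
  have hsy := (S s).sy
  have hadm := orb_adm hsy.toSg hzB hzd hzZ
  have hdk : ((S s).d : ℝ) ≤ k := by exact_mod_cast (S s).hd
  have hsmall : 3050000 * ((S s).d : ℝ) ^ 6 * lam ≤ 1 := by
    rw [hlam, mul_one_div, div_le_one hΛ0]
    have h3 : ((S s).d : ℝ) ^ 6 ≤ (k : ℝ) ^ 6 := pow_le_pow_left₀ (Nat.cast_nonneg _) hdk 6
    linarith
  have h3 := gain H I hsy hlam0 hPI' hsmall hadm
  rw [orb_Fq hsy, orb_EN H hsy.toSg hzB, orb_Sq hsy.toSg, ← hA] at h3
  have hN : (0 : ℝ) < (S s).N := by exact_mod_cast hsy.Npos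
  rw [le_div_iff₀ (by positivity)] at h3
  have h4 : (∫ x, z x ^ 2 * (om (S s).b x * h x)) * (8 * lam) ≤ En h z - lam * A := by
    refine le_of_mul_le_mul_left ?_ hN
    linarith
  have h5 : κ * A * (8 * lam) ≤ En h z - lam * A :=
    (mul_le_mul_of_nonneg_right h2 (by positivity)).trans h4
  have h6 : En h z - lam * A ≤ 2 * ε * (lam * A) := by
    have h7 : (1 - ε) * (En h z - lam * A) ≤ (1 - ε) * (2 * ε * (lam * A)) := by
      have h8 : 0 < lam * A := by positivity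
      nlinarith [mul_nonneg hε0.le h8.le]
    exact le_of_mul_le_mul_left h7 (by linarith)
  have h7 : 0 < lam * A := by positivity
  nlinarith

end Pool.Agent.Lib.MP_8d00da_gt.h97r
end

section

/-!
# The linearly invariant inequality for smooth weights
-/

namespace Pool.Agent.Lib.MP_8d00da_gt.h97r

open MeasureTheory Set Filter
open Pool.Agent.Lib.MP_8d00da_gt.h25 Pool.Agent.Lib.MP_8d00da_gt.h42
open Pool.Agent.Lib.MP_8d00da_gt.h42s Pool.Agent.Lib.MP_8d00da_gt.h42o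
open scoped Topology NNReal

variable {F : Type*} [NormedAddCommGroup F] [InnerProductSpace ℝ F]
    [FiniteDimensional ℝ F] [MeasurableSpace F] [BorelSpace F]

variable {δ L : ℝ} {h : F → ℝ} {k : ℕ}

/-- Move to isotropic position, use `core`, and move back. -/
theorem QJ_GW (H : GW δ L h) (hk : 1 ≤ k) (hR : RefL k h) : QJ (3050000 * (k : ℝ) ^ 6) h := by
  have hi2 : Integrable fun x => ‖x‖ ^ 2 * h x :=
    H.int_poly (by fun_prop) (C := 1) fun x => by
      rw [abs_of_nonneg (sq_nonneg _), one_mul]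
      linarith
  obtain ⟨P, c, hc, hmass, hiso⟩ := exists_pos (fun x => (H.pos x).le) H.cont.measurable H.int
    hi2 H.mass_pos
  obtain ⟨δ', L', H'⟩ := H.comp_lin P hc
  have hR' : RefL k fun x => c * h (P x) := hR.comp_lin P c
  have hpos : 0 < ∫ x, c * h (P x) := by
    rw [hmass]
    exact one_pos
  obtain ⟨m, S, c0, hc0, hfr⟩ := exists_frame hR' hiso hpos
  have hcen := sym_cen hR' hpos H'.int fun θ => H'.int_poly (φ := fun x => inner ℝ θ x)
    (by fun_prop) (C := ‖θ‖) fun x => by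
      have h1 := abs_real_inner_le_norm θ x
      have h2 : ‖x‖ ≤ 1 + ‖x‖ ^ 2 := by nlinarith [sq_nonneg (‖x‖ - 1), norm_nonneg x]
      exact h1.trans (mul_le_mul_of_nonneg_left h2 (norm_nonneg θ))
  have I : Iso fun x => c * h (P x) := ⟨hmass, hcen, fun θ => (hiso θ).le⟩
  have h1 : QJ (3050000 * (k : ℝ) ^ 6) fun x => c * h (P x) :=
    QJ_of_Vr hmass hiso fun f hf => core H' I hk S hc0 hfr hf
  refine QJ.of_comp_lin P ?_
  have h2 := h1.smul c⁻¹
  have h3 : (fun x => c⁻¹ * (c * h (P x))) = fun x => h (P x) := by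
    funext x
    rw [← mul_assoc, inv_mul_cancel₀ hc.ne', one_mul]
  rwa [h3] at h2

end Pool.Agent.Lib.MP_8d00da_gt.h97r
end

section

/-!
# General log-concave densities
-/

namespace Pool.Agent.Lib.MP_8d00da_gt.h97r

open MeasureTheory Set Filter
open Pool.Agent.Lib.MP_8d00da_gt.h25 Pool.Agent.Lib.MP_8d00da_gt.h42
open Pool.Agent.Lib.MP_8d00da_gt.h42s Pool.Agent.Lib.MP_8d00da_gt.h42o
open Pool.Agent.Lib.MP_8d00da_gt.h42u (cv_major cv_lim)
open scoped Topology NNReal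

variable {F : Type*} [NormedAddCommGroup F] [InnerProductSpace ℝ F]
    [FiniteDimensional ℝ F] [MeasurableSpace F] [BorelSpace F]

variable {n : ℕ} {h : Vn n → ℝ} {k : ℕ}

private lemma rg_mid (h0 : ∀ x, 0 ≤ h x) (hlc : LogConc h) (x y : Vn n) :
    h x * h y ≤ h ((1 / 2 : ℝ) • (x + y)) ^ 2 := by
  have h2 := hlc (1 / 2) (by norm_num) (by norm_num) x y
  have e : (1 - 1 / 2 : ℝ) • x + (1 / 2 : ℝ) • y = (1 / 2 : ℝ) • (x + y) := by
    rw [smul_add]; norm_num
  rw [e, show (1 - 1 / 2 : ℝ) = 1 / 2 by norm_num, ← Real.mul_rpow (h0 x) (h0 y),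
    ← Real.sqrt_eq_rpow] at h2
  have h3 := pow_le_pow_left₀ (Real.sqrt_nonneg _) h2 2
  rwa [Real.sq_sqrt (mul_nonneg (h0 x) (h0 y))] at h3

private lemma rg_logconc (h0 : ∀ x, 0 ≤ h x) (hlc : LogConc h) (P : Vn n ≃L[ℝ] Vn n) {c : ℝ}
    (hc : 0 < c) : LogConc fun x => c * h (P x) := by
  intro a ha0 ha1 x y
  have h1 := hlc a ha0 ha1 (P x) (P y)
  simp only
  rw [Real.mul_rpow hc.le (h0 _), Real.mul_rpow hc.le (h0 _)]
  have h2 : P ((1 - a) • x + a • y) = (1 - a) • P x + a • P y := by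
    rw [map_add, map_smul, map_smul]
  rw [h2]
  have h3 : c ^ (1 - a) * c ^ a = c := by
    rw [← Real.rpow_add hc]
    simp
  calc c ^ (1 - a) * h (P x) ^ (1 - a) * (c ^ a * h (P y) ^ a) =
      (c ^ (1 - a) * c ^ a) * (h (P x) ^ (1 - a) * h (P y) ^ a) := by ring
    _ = c * (h (P x) ^ (1 - a) * h (P y) ^ a) := by rw [h3]
    _ ≤ _ := mul_le_mul_of_nonneg_left h1 hc.le

/-- The isotropic case: Gaussian regularisation and limit. -/
private lemma QJ_iso (h0 : ∀ x, 0 ≤ h x) (hm : Measurable h) (hlc : LogConc h)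
    (hmass : ∫ x, h x = 1) (hiso : ∀ θ : Vn n, ∫ x, (inner ℝ θ x) ^ 2 * h x = ‖θ‖ ^ 2)
    (hk : 1 ≤ k) (hR : RefL k h) : QJ (3050000 * (k : ℝ) ^ 6) h := by
  have hpos : 0 < ∫ x, h x := by
    rw [hmass]
    exact one_pos
  have hi : Integrable h := by
    by_contra hcon
    rw [integral_undef hcon] at hpos
    exact lt_irrefl _ hpos
  obtain ⟨C, a, hC, ha, hd⟩ := decay h0 hm hlc hi hpos
  have hB : ∀ x, h x ≤ C := fun x => by
    refine (hd x).trans ?_
    have : Real.exp (-(a * ‖x‖)) ≤ 1 := by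
      rw [Real.exp_le_one_iff, neg_nonpos]
      positivity
    nlinarith
  have H : Wt h C :=
    { meas := hm
      nonneg := h0
      bdd := hB
      mid := rg_mid h0 hlc
      ne := by
        intro he
        rw [integral_congr_ae he] at hpos
        simp at hpos }
  -- the isometric symmetries
  set G : Set (Vn n ≃ₗᵢ[ℝ] Vn n) := {g | ∀ x, h (g x) = h x} with hG
  have hlin : ∀ g : Vn n ≃ₗ[ℝ] Vn n, (∀ x, h (g x) = h x) →
      ∃ T ∈ G, ∀ x, T x = g x := by
    intro g hg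
    refine ⟨⟨g, sym_iso hiso hpos g hg⟩, fun x => hg x, fun x => rfl⟩
  have hfix : ∀ v : Vn n, (∀ g ∈ G, g v = v) → v = 0 := by
    intro v hv
    refine hR v fun g hg _ _ => ?_
    obtain ⟨T, hT, hTg⟩ := hlin g hg
    rw [← hTg]
    exact hv T hT
  obtain ⟨C', hC', hmaj⟩ := cv_major h0 hm hC ha hd
  have hσ : ∀ k : ℕ, (0 : ℝ) < 1 / ((k : ℝ) + 1) := fun k => by positivity
  set c : ℕ → ℝ := fun k : ℕ => ∫ z : Vn n, h25.ker (1 / ((k : ℝ) + 1)) z with hc
  have hc0 : ∀ k, 0 < c k := fun k => ker_int_pos (hσ k)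
  set hk' : ℕ → Vn n → ℝ := fun (k : ℕ) x => (1 / c k) * (cv (1 / ((k : ℝ) + 1)) h x *
    Real.exp (-(1 / ((k : ℝ) + 1) * ‖x‖ ^ 2))) with hhk
  have hU : ∀ k : ℕ, GW (2 * (1 / ((k : ℝ) + 1)))
      (1 / (1 / ((k : ℝ) + 1)) + 2 * (1 / ((k : ℝ) + 1)))
      fun y => cv (1 / ((k : ℝ) + 1)) h y * Real.exp (-(1 / ((k : ℝ) + 1) * ‖y‖ ^ 2)) := fun k =>
    gauss_GW H hlc G (fun g hg => hg) hfix (hσ k)
  have hRk : ∀ j : ℕ, RefL k fun y : Vn n =>
      cv (1 / ((j : ℝ) + 1)) h y * Real.exp (-(1 / ((j : ℝ) + 1) * ‖y‖ ^ 2)) := by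
    intro j v hv
    refine hR v fun g hg hN hr => hv g (fun x => ?_) hN hr
    obtain ⟨T, hT, hTg⟩ := hlin g hg
    simp only
    rw [← hTg, cv_comp h T hT x, LinearIsometryEquiv.norm_map]
  have hQk : ∀ j, QJ (3050000 * (k : ℝ) ^ 6) (hk' j) := fun j =>
    (QJ_GW (hU j) hk (hRk j)).smul _
  have hcv0 : ∀ (k : ℕ) x, 0 ≤ cv (1 / ((k : ℝ) + 1)) h x := fun k x => (H.Z_pos (hσ k) x).le
  have hkc : ∀ k, Continuous (hk' k) := by
    intro k
    have h1 := cv_cont (hσ k) H.meas H.abs_le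
    have h2 : Continuous fun x : Vn n => Real.exp (-(1 / ((k : ℝ) + 1) * ‖x‖ ^ 2)) := by fun_prop
    exact continuous_const.mul (h1.mul h2)
  have hexp : ∀ (k : ℕ) (x : Vn n), Real.exp (-(1 / ((k : ℝ) + 1) * ‖x‖ ^ 2)) ≤ 1 := fun k x => by
    rw [Real.exp_le_one_iff, neg_nonpos]; positivity
  have hle : ∀ k x, hk' k x ≤ C' * Real.exp (-(a * ‖x‖)) := by
    intro k x
    have h1 := hmaj k x
    have h2 : hk' k x = cv (1 / ((k : ℝ) + 1)) h x / c k *
        Real.exp (-(1 / ((k : ℝ) + 1) * ‖x‖ ^ 2)) := by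
      simp only [hhk]; ring
    rw [h2]
    have h3 : 0 ≤ cv (1 / ((k : ℝ) + 1)) h x / c k := div_nonneg (hcv0 k x) (hc0 k).le
    calc cv (1 / ((k : ℝ) + 1)) h x / c k * Real.exp (-(1 / ((k : ℝ) + 1) * ‖x‖ ^ 2))
        ≤ cv (1 / ((k : ℝ) + 1)) h x / c k * 1 := mul_le_mul_of_nonneg_left (hexp k x) h3
      _ ≤ _ := by rw [mul_one]; exact h1
  have hint : Integrable fun x : Vn n => (1 + ‖x‖ ^ 2) * (C' * Real.exp (-(a * ‖x‖))) := by
    refine ((exp_norm_int (F := Vn n) ha).const_mul C').congr (Eventually.of_forall fun x => ?_)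
    simp only
    ring
  refine QJ_limit (hk := hk') (H := fun x => C' * Real.exp (-(a * ‖x‖)))
    (fun k => (hkc k).measurable)
    (fun k x => mul_nonneg (one_div_nonneg.2 (hc0 k).le)
      (mul_nonneg (hcv0 k x) (Real.exp_pos _).le)) hle hint ?_ hQk
  filter_upwards [cv_lim h0 hm hlc hC ha hd] with x hx
  have h1 : Tendsto (fun k : ℕ => Real.exp (-(1 / ((k : ℝ) + 1) * ‖x‖ ^ 2))) atTop (𝓝 1) := by
    have h2 : Tendsto (fun k : ℕ => -(1 / ((k : ℝ) + 1) * ‖x‖ ^ 2)) atTop (𝓝 0) := by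
      have := (tendsto_one_div_add_atTop_nhds_zero_nat (𝕜 := ℝ)).mul_const (‖x‖ ^ 2)
      simpa using this.neg
    have := (Real.continuous_exp.tendsto 0).comp h2
    rwa [Real.exp_zero] at this
  have h3 := hx.mul h1
  rw [mul_one] at h3
  refine h3.congr fun k => ?_
  simp only [hhk, hc]
  ring

lemma second_moment (h0 : ∀ x, 0 ≤ h x) (hm : Measurable h) (hlc : LogConc h)
    (hi : Integrable h) (hpos : 0 < ∫ x, h x) : Integrable fun x : Vn n => ‖x‖ ^ 2 * h x := by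
  obtain ⟨C, a, hC, ha, hd⟩ := decay h0 hm hlc hi hpos
  refine ((exp_norm_int (F := Vn n) ha).const_mul C).mono'
    ((by fun_prop : Measurable fun x : Vn n => ‖x‖ ^ 2).mul hm).aestronglyMeasurable
    (Eventually.of_forall fun x => ?_)
  rw [Real.norm_eq_abs, abs_of_nonneg (mul_nonneg (sq_nonneg _) (h0 x))]
  have h1 := hd x
  have h2 : ‖x‖ ^ 2 * h x ≤ (1 + ‖x‖ ^ 2) * (C * Real.exp (-(a * ‖x‖))) :=
    mul_le_mul (by linarith) h1 (h0 x) (by positivity)
  refine h2.trans (le_of_eq ?_)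
  ring

/-- General log-concave densities: move to isotropic position. -/
theorem QJ_gen (h0 : ∀ x, 0 ≤ h x) (hm : Measurable h) (hlc : LogConc h) (hi : Integrable h)
    (hpos : 0 < ∫ x, h x) (hk : 1 ≤ k) (hR : RefL k h) : QJ (3050000 * (k : ℝ) ^ 6) h := by
  obtain ⟨P, c, hc, hmass, hiso⟩ := exists_pos h0 hm hi (second_moment h0 hm hlc hi hpos) hpos
  have h1 : QJ (3050000 * (k : ℝ) ^ 6) fun x => c * h (P x) :=
    QJ_iso (fun x => mul_nonneg hc.le (h0 _)) ((hm.comp P.continuous.measurable).const_mul c)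
      (rg_logconc h0 hlc P hc) hmass hiso hk (hR.comp_lin P c)
  refine QJ.of_comp_lin P ?_
  have h2 := h1.smul c⁻¹
  have h3 : (fun x => c⁻¹ * (c * h (P x))) = fun x => h (P x) := by
    funext x
    rw [← mul_assoc, inv_mul_cancel₀ hc.ne', one_mul]
  rwa [h3] at h2

end Pool.Agent.Lib.MP_8d00da_gt.h97r
end

section

/-!
# From the linearly invariant inequality to the Poincare inequality
-/

namespace Pool.Agent.Lib.MP_8d00da_gt.h42r

open MeasureTheory Set Filter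
open Pool.Agent.Lib.MP_8d00da_gt.h25 Pool.Agent.Lib.MP_8d00da_gt.h42
open Pool.Agent.Lib.MP_8d00da_gt.h42s Pool.Agent.Lib.MP_8d00da_gt.h42o
open Pool.Agent.Lib.MP_8d00da_gt.h97r
open scoped Topology NNReal ENNReal

set_option linter.unusedSectionVars false

variable {F : Type*} [NormedAddCommGroup F] [InnerProductSpace ℝ F]
    [FiniteDimensional ℝ F] [MeasurableSpace F] [BorelSpace F]

variable {G : Type*} [NormedAddCommGroup G] [InnerProductSpace ℝ G]
    [FiniteDimensional ℝ G] [MeasurableSpace G] [BorelSpace G]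

variable {ι : Type*} [Fintype ι]

variable {n : ℕ} {E : Type*} [NormedAddCommGroup E] [InnerProductSpace ℝ E]
    [FiniteDimensional ℝ E] [MeasurableSpace E] [BorelSpace E]

private lemma af1_int {h : Vn n → ℝ} (h0 : ∀ x, 0 ≤ h x) (hm : Measurable h) (hlc : LogConc h)
    {μ : Measure (Vn n)} (hμ : μ = volume.withDensity fun x => ENNReal.ofReal (h x))
    [IsProbabilityMeasure μ] : Integrable h ∧ ∫ x, h x = 1 ∧
      (Integrable fun x => ‖x‖ ^ 2 * h x) ∧ ∀ θ : Vn n, Integrable fun x => inner ℝ θ x * h x := by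
  have hi : Integrable h := by
    have h1 : Integrable (fun _ : Vn n => (1 : ℝ)) μ := integrable_const 1
    rw [integrable_mu h0 hm hμ] at h1
    simpa using h1
  have hI1 : ∫ x, h x = 1 := by
    have h1 := integral_mu h0 hm hμ fun _ => 1
    simp only [one_mul, integral_const, probReal_univ, smul_eq_mul, mul_one] at h1
    exact h1.symm
  have hpos : 0 < ∫ x, h x := by
    rw [hI1]
    exact one_pos
  have hi2 := second_moment h0 hm hlc hi hpos
  refine ⟨hi, hI1, hi2, fun θ => ?_⟩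
  refine ((hi.add hi2).const_mul ‖θ‖).mono'
    ((by fun_prop : Measurable fun x : Vn n => inner ℝ θ x).mul hm).aestronglyMeasurable
    (Eventually.of_forall fun x => ?_)
  rw [Real.norm_eq_abs, abs_mul, abs_of_nonneg (h0 x)]
  have h1 := abs_real_inner_le_norm θ x
  have h2 : ‖x‖ ≤ 1 + ‖x‖ ^ 2 := by nlinarith [sq_nonneg (‖x‖ - 1), norm_nonneg x]
  have h3 := mul_le_mul_of_nonneg_right (h1.trans (mul_le_mul_of_nonneg_left h2 (norm_nonneg θ)))
    (h0 x)
  refine h3.trans (le_of_eq ?_)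
  simp only [Pi.add_apply]
  ring

/-- `h97r.final_of_QJ` without the centring assumption, if `QJ` holds for all translates: copy the
proof of `h97s.fixed_space` (file `h97s/KMain.lean`; `h97s.exists_bary` in `h97s/KCen.lean`; both
may be imported): translate by the barycentre `m`. -/
theorem final_gen {C D' : ℝ} (hC : 0 ≤ C) {h : Vn n → ℝ} (h0 : ∀ x, 0 ≤ h x)
    (hm : Measurable h) (hlc : LogConc h) (hQ : ∀ m : Vn n, QJ C fun x => h (x + m))
    {μ : Measure (Vn n)}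
    (hμ : μ = volume.withDensity fun x => ENNReal.ofReal (h x)) [IsProbabilityMeasure μ]
    (T : Vn n →L[ℝ] E) (hT : Function.Surjective T) (b : E) {D : ℝ}
    (hD : LinPoincareWith (μ.map fun x => T x + b) D) (hCD : C ≤ D' ^ 2) (hD' : 0 ≤ D') :
    PoincareWith (μ.map fun x => T x + b) (D' * D) := by
  obtain ⟨hi, hI1, hi2, hi1⟩ := af1_int h0 hm hlc hμ
  have hpos : 0 < ∫ x, h x := by
    rw [hI1]
    exact one_pos
  obtain ⟨m, hmb⟩ := h97s.exists_bary hpos hi1
  set h' : Vn n → ℝ := fun x => h (x + m) with hh'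
  have hm' : Measurable h' := hm.comp (measurable_id.add_const m)
  have hmap : ∀ s : Set (Vn n), MeasurableSet s →
      (volume.withDensity fun x => ENNReal.ofReal (h' x)) ((fun x => x + m) ⁻¹' s) = μ s := by
    intro s hs
    have hpre : MeasurableSet ((fun x : Vn n => x + m) ⁻¹' s) := (measurable_id.add_const m) hs
    rw [hμ, withDensity_apply _ hpre, withDensity_apply _ hs, ← lintegral_indicator hpre,
      ← lintegral_indicator hs,
      ← lintegral_add_right_eq_self (s.indicator fun x => ENNReal.ofReal (h x)) m]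
    refine lintegral_congr fun x => ?_
    by_cases hx : x + m ∈ s
    · rw [Set.indicator_of_mem hx, Set.indicator_of_mem (by exact hx)]
    · rw [Set.indicator_of_notMem hx, Set.indicator_of_notMem (by exact hx)]
  have hprob : IsProbabilityMeasure (volume.withDensity fun x => ENNReal.ofReal (h' x)) := by
    constructor
    have h1 := hmap Set.univ MeasurableSet.univ
    rw [Set.preimage_univ] at h1
    rw [h1, measure_univ]
  have hadd : Measurable fun x : Vn n => x + m := measurable_id.add_const m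
  have hTb : Measurable fun x : Vn n => T x + b := T.measurable.add_const b
  have hμ' : μ = (volume.withDensity fun x => ENNReal.ofReal (h' x)).map fun x => x + m := by
    ext s hs
    rw [Measure.map_apply hadd hs, hmap s hs]
  have hcomp : μ.map (fun x => T x + b) =
      (volume.withDensity fun x => ENNReal.ofReal (h' x)).map fun x => T x + (T m + b) := by
    rw [hμ', Measure.map_map hTb hadd]
    congr 1
    funext x
    show T (x + m) + b = T x + (T m + b)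
    rw [map_add, add_assoc]
  have hcen : ∀ θ : Vn n, ∫ x, inner ℝ θ x * h' x = 0 := by
    intro θ
    have h1 := integral_add_right_eq_self (μ := (volume : Measure (Vn n)))
      (fun y => inner ℝ θ (y - m) * h y) m
    have h2 : ∫ x, inner ℝ θ x * h' x = ∫ y, inner ℝ θ (y - m) * h y := by
      rw [← h1]
      refine integral_congr_ae (Eventually.of_forall fun x => ?_)
      show inner ℝ θ x * h (x + m) = inner ℝ θ (x + m - m) * h (x + m)
      rw [add_sub_cancel_right]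
    rw [h2]
    have h3 : (fun y => inner ℝ θ (y - m) * h y) =
        fun y => inner ℝ θ y * h y - inner ℝ θ m * h y := by
      funext y
      rw [inner_sub_right, sub_mul]
    rw [h3, integral_sub (hi1 θ) (hi.const_mul _), integral_const_mul, hmb θ, sub_self]
  have hlc' : LogConc h' := h97s.logconc_translate hlc m
  have h0' : ∀ x, 0 ≤ h' x := fun x => h0 _
  obtain ⟨-, -, hi2', -⟩ := af1_int h0' hm' hlc' rfl
  rw [hcomp] at hD ⊢
  exact final_of_QJ hC h0' hm' hcen (hQ m) rfl hi2' T hT (T m + b) hD hCD hD'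

end Pool.Agent.Lib.MP_8d00da_gt.h42r
end

section

/-!
# From Theorem P to the KLS inequality for all log-concave densities
-/

namespace Pool.Agent.Lib.MP_8d00da_gt.h42k

open MeasureTheory Set Filter
open Pool.Agent.Lib.MP_8d00da_gt.h42 (LogConc)
open Pool.Agent.Lib.MP_8d00da_gt.h25 (PoincareWith LinPoincareWith)
open Pool.Agent.Lib.MP_8d00da_gt.h42s (Vn)
open scoped Topology NNReal ENNReal ContDiff

/-- The KLS inequality with constant `√C` from the Poincare inequality with constant `C` for all nice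
potentials with covariance at most the identity. -/
theorem kls_of_PI {n : ℕ} {C : ℝ} (hC : 0 ≤ C)
    (hP : ∀ (κ M : ℝ) (V : (Fin n → ℝ) → ℝ), Nice κ M V → CLe V 1 → PI V C)
    {h : Vn n → ℝ} (h0 : ∀ x, 0 ≤ h x) (hm : Measurable h) (hlc : LogConc h)
    {μ : Measure (Vn n)} (hμ : μ = volume.withDensity fun x => ENNReal.ofReal (h x))
    [IsProbabilityMeasure μ] {D : ℝ} (hD : LinPoincareWith μ D) :
    PoincareWith μ (√C * D) := by
  have hi : Integrable h := by
    have h1 : Integrable (fun _ : Vn n => (1 : ℝ)) μ := integrable_const 1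
    rw [h42s.integrable_mu h0 hm hμ] at h1
    simpa using h1
  have hI1 : ∫ x, h x = 1 := by
    have h1 := h42s.integral_mu h0 hm hμ fun _ => 1
    simp only [one_mul, integral_const, probReal_univ, smul_eq_mul, mul_one] at h1
    exact h1.symm
  have hQ : ∀ m : Vn n, h97r.QJ C fun x => h (x + m) := by
    intro m
    refine qj_lc hP (fun x => h0 _) (hm.comp (measurable_id.add_const m))
      (h97s.logconc_translate hlc m) (hi.comp_add_right m) ?_
    rw [integral_add_right_eq_self (fun x => h x) m, hI1]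
    exact one_pos
  have e : μ.map (fun x => (ContinuousLinearMap.id ℝ (Vn n)) x + 0) = μ := by
    simp
  have h1 := h42r.final_gen (D' := √C) hC h0 hm hlc hQ hμ (ContinuousLinearMap.id ℝ (Vn n))
    Function.surjective_id 0 (D := D) (by rwa [e]) (Real.sq_sqrt hC).ge (Real.sqrt_nonneg C)
  rwa [e] at h1

/-- `log log (n + 16) ≥ 1`. -/
theorem one_le_lln (n : ℕ) : 1 ≤ lln n := by
  have h1 : Real.exp 1 ≤ Real.log (n + 16) := by
    have h2 : Real.exp (Real.exp 1) ≤ 16 := by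
      have h3 : Real.exp 1 < 2.7182818286 := Real.exp_one_lt_d9
      have h4 : Real.exp 2.7182818286 ≤ 16 := by
        have h5 : (2.7182818286 : ℝ) ≤ 2.77 := by norm_num
        have h6 : Real.exp 2.77 ≤ 16 := by
          have h7 : Real.log 16 = 4 * Real.log 2 := by
            rw [show (16 : ℝ) = 2 ^ 4 by norm_num, Real.log_pow]
            norm_num
          have h8 := Real.log_two_gt_d9
          rw [← Real.le_log_iff_exp_le (by norm_num), h7]
          linarith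
        exact (Real.exp_le_exp.2 h5).trans h6
      exact (Real.exp_le_exp.2 h3.le).trans h4
    have h9 : (0 : ℝ) < (n : ℝ) + 16 := by positivity
    rw [Real.le_log_iff_exp_le h9]
    have : (0 : ℝ) ≤ n := Nat.cast_nonneg n
    linarith
  unfold lln
  rw [Real.le_log_iff_exp_le (lt_of_lt_of_le (Real.exp_pos 1) h1)]
  exact h1

theorem one_le_ln (n : ℕ) : 1 ≤ ln n := by
  have h1 := one_le_lln n
  unfold lln at h1
  have h2 : 0 < Real.log (n + 16) := Real.log_pos (by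
    have : (0 : ℝ) ≤ n := Nat.cast_nonneg n
    linarith)
  have h3 := (Real.le_log_iff_exp_le h2).1 h1
  have h4 : (1 : ℝ) ≤ Real.exp 1 := Real.one_le_exp zero_le_one
  exact h4.trans h3

/-- The final form: from Theorem P to the KLS inequality with the factor
`C (log n)^{1/6} log log n`. -/
theorem kls_final (hT : ∃ C0 : ℝ, 0 < C0 ∧ ∀ (n : ℕ) (κ M : ℝ) (V : (Fin n → ℝ) → ℝ),
    Nice κ M V → CLe V 1 → PI V (C0 * ln n ^ (1 / 3 : ℝ) * lln n ^ 2)) :
    ∃ C : ℝ, 0 < C ∧ ∀ (n : ℕ) (h : Vn n → ℝ), (∀ x, 0 ≤ h x) → Measurable h →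
      (∀ (x y : Vn n) (a b : ℝ), 0 ≤ a → 0 ≤ b → a + b = 1 →
        h x ^ a * h y ^ b ≤ h (a • x + b • y)) →
      ∀ μ : Measure (Vn n), μ = volume.withDensity (fun x => ENNReal.ofReal (h x)) →
      IsProbabilityMeasure μ → ∀ D : ℝ, LinPoincareWith μ D →
      PoincareWith μ (C * Real.log (n + 16) ^ (1 / 6 : ℝ) * Real.log (Real.log (n + 16)) * D) := by
  obtain ⟨C0, hC0, hP⟩ := hT
  refine ⟨√C0, Real.sqrt_pos.2 hC0, fun n h h0 hm hlc μ hμ hprob D hD => ?_⟩
  have h1 : 0 ≤ ln n := zero_le_one.trans (one_le_ln n)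
  have h2 : 0 ≤ lln n := zero_le_one.trans (one_le_lln n)
  have h3 : 0 ≤ C0 * ln n ^ (1 / 3 : ℝ) * lln n ^ 2 := by positivity
  have hlc' : LogConc h := fun a ha0 ha1 x y =>
    hlc x y (1 - a) a (by linarith) ha0.le (by ring)
  have h4 := kls_of_PI h3 (fun κ M V => hP n κ M V) h0 hm hlc' hμ hD
  have e : √(C0 * ln n ^ (1 / 3 : ℝ) * lln n ^ 2) =
      √C0 * Real.log (n + 16) ^ (1 / 6 : ℝ) * Real.log (Real.log (n + 16)) := by
    rw [Real.sqrt_mul (by positivity), Real.sqrt_mul hC0.le, Real.sqrt_sq h2,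
      Real.sqrt_eq_rpow (ln n ^ (1 / 3 : ℝ)), ← Real.rpow_mul h1]
    norm_num [ln, lln]
  rwa [e] at h4

end Pool.Agent.Lib.MP_8d00da_gt.h42k
end
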