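import Pool.Agent.Lib.MP_8d00da_gt.h42k.RQ1
import Pool.Agent.Lib.MP_8d00da_gt.h42k.S6d
import Pool.Agent.Lib.MP_8d00da_gt.h42s.FinalG

/-!
# The quadratic KLS inequality for log-concave measures
-/

namespace Pool.Agent.Lib.MP_8d00da_gt.h42k

open MeasureTheory Set Filter
open Pool.Agent.Lib.MP_8d00da_gt.h42s (Vn)
open Pool.Agent.Lib.MP_8d00da_gt.h25 (LinPoincareWith)
open scoped Topology NNReal ENNReal ContDiff

set_option linter.unusedSectionVars false
set_option linter.unusedVariables false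

variable {n : ℕ}

private theorem RQ2_abs_sum (θ : Fin n → ℝ) : (∑ i, |θ i|) ^ 2 ≤ n * sq θ := by
  have h1 := sq_sum_le_card_mul_sum_sq (s := (Finset.univ : Finset (Fin n))) (f := fun i => |θ i|)
  simp only [sq_abs, Finset.card_univ, Fintype.card_fin] at h1
  exact h1

private theorem RQ2_var {f g : (Fin n → ℝ) → ℝ} (gi : Integrable g) (g1 : ∫ x, g x = 1)
    (i1 : Integrable fun x => f x ^ 2 * g x) (i2 : Integrable fun x => f x * g x) :
    ∫ x, (f x - ∫ y, f y * g y) ^ 2 * g x = (∫ x, f x ^ 2 * g x) - (∫ x, f x * g x) ^ 2 := by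
  obtain ⟨e, he⟩ : ∃ e : ℝ, e = ∫ x, f x * g x := ⟨_, rfl⟩
  rw [← he]
  have h6 : ∀ x, (f x - e) ^ 2 * g x = (f x ^ 2 * g x - (2 * e) * (f x * g x)) +
      e ^ 2 * g x := fun x => by ring
  simp only [h6]
  have i3 : Integrable fun x => f x ^ 2 * g x - (2 * e) * (f x * g x) := i1.sub (i2.const_mul _)
  rw [integral_add i3 (gi.const_mul _), integral_sub i1 (i2.const_mul _), integral_const_mul,
    integral_const_mul, g1, ← he]
  ring

/-- If the covariance matrices converge to `c ≤ s` then eventually `CLe (V k) (s + δ)`. -/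
theorem CLe_eventually {V : ℕ → (Fin n → ℝ) → ℝ} {κ M : ℕ → ℝ} (H : ∀ k, Nice (κ k) (M k) (V k))
    {c : Fin n → Fin n → ℝ} (hc : ∀ i j, Tendsto (fun k => CM (V k) i j) atTop (𝓝 (c i j)))
    {s : ℝ} (hs : ∀ θ : Fin n → ℝ, ∑ i, ∑ j, θ i * θ j * c i j ≤ s * sq θ) {δ : ℝ} (hδ : 0 < δ) :
    ∀ᶠ k in atTop, CLe (V k) (s + δ) := by
  have h1 : ∀ᶠ k in atTop, ∀ i j, |CM (V k) i j - c i j| ≤ δ / (n + 1) := by
    rw [eventually_all]
    intro i
    rw [eventually_all]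
    intro j
    have h2 := (hc i j).sub_const (c i j)
    rw [sub_self] at h2
    have h3 := h2.abs
    rw [abs_zero] at h3
    exact h3.eventually (ge_mem_nhds (by positivity))
  filter_upwards [h1] with k hk
  intro θ
  rw [var_dt (H k)]
  have h4 : ∑ i, ∑ j, θ i * θ j * CM (V k) i j ≤
      ∑ i, ∑ j, (θ i * θ j * c i j + |θ i| * |θ j| * (δ / (n + 1))) := by
    refine Finset.sum_le_sum fun i _ => Finset.sum_le_sum fun j _ => ?_
    have h5 : θ i * θ j * (CM (V k) i j - c i j) ≤ |θ i| * |θ j| * (δ / (n + 1)) := by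
      refine (le_abs_self _).trans ?_
      rw [abs_mul, abs_mul]
      exact mul_le_mul_of_nonneg_left (hk i j) (by positivity)
    have h6 : θ i * θ j * CM (V k) i j =
        θ i * θ j * c i j + θ i * θ j * (CM (V k) i j - c i j) := by ring
    rw [h6]
    linarith
  refine h4.trans ?_
  have h7 : ∑ i, ∑ j, (θ i * θ j * c i j + |θ i| * |θ j| * (δ / (n + 1))) =
      (∑ i, ∑ j, θ i * θ j * c i j) + (∑ i, |θ i|) ^ 2 * (δ / (n + 1)) := by
    simp only [Finset.sum_add_distrib]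
    congr 1
    rw [pow_two, Finset.sum_mul_sum, Finset.sum_mul]
    exact Finset.sum_congr rfl fun i _ => by rw [Finset.sum_mul]
  rw [h7, add_mul]
  have h8 : (∑ i, |θ i|) ^ 2 * (δ / (n + 1)) ≤ δ * sq θ := by
    calc (∑ i, |θ i|) ^ 2 * (δ / (n + 1)) ≤ (n * sq θ) * (δ / (n + 1)) :=
          mul_le_mul_of_nonneg_right (RQ2_abs_sum θ) (by positivity)
      _ = (n / (n + 1)) * (δ * sq θ) := by ring
      _ ≤ 1 * (δ * sq θ) := by
          refine mul_le_mul_of_nonneg_right ?_ (mul_nonneg hδ.le (sq_nn θ))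
          rw [div_le_one (by positivity)]
          linarith
      _ = _ := one_mul _
  exact add_le_add (hs θ) h8

/-- The quadratic inequality for a density which is the limit of nice ones. -/
theorem quad_density {K : ℝ} (hK0 : 0 ≤ K) (hK : QKP K (Fin n)) {g : (Fin n → ℝ) → ℝ}
    (g0 : ∀ x, 0 ≤ g x) (gm : Measurable g)
    (glc : ∀ (x y : Fin n → ℝ) (a b : ℝ), 0 ≤ a → 0 ≤ b → a + b = 1 →
      g x ^ a * g y ^ b ≤ g (a • x + b • y)) (gi : Integrable g) (g1 : ∫ x, g x = 1)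
    {s : ℝ} (hs0 : 0 ≤ s)
    (hs : ∀ θ : Fin n → ℝ, ∫ x, (dt θ x - ∫ y, dt θ y * g y) ^ 2 * g x ≤ s * sq θ)
    {B : Fin n → Fin n → ℝ} (hB : ∀ i j, B i j = B j i) (m : Fin n → ℝ)
    (hm : ∀ i, m i = ∫ x, x i * g x) :
    ∫ x, ((∑ i, ∑ j, B i j * (x i - m i) * (x j - m j)) -
        ∫ y, (∑ i, ∑ j, B i j * (y i - m i) * (y j - m j)) * g y) ^ 2 * g x ≤
      K * s ^ 2 * ∑ i, ∑ j, B i j ^ 2 := by
  obtain ⟨V, κ, M, C, a, hC, ha, HV, hgb, hVb, hVl⟩ := reg g0 gm glc gi (by rw [g1]; exact one_pos)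
  have hVm : ∀ k, Measurable (V k) := fun k => (HV k).c2.continuous.measurable
  have hgb' : ∀ x, |g x| ≤ C * Real.exp (-(a * √(sq x))) := fun x => by
    rw [abs_of_nonneg (g0 x)]
    exact hgb x
  have hint : ∀ {f : (Fin n → ℝ) → ℝ}, T0 f → Integrable fun x => f x * g x :=
    fun hf => int_of_exp gm ha hgb' hf
  have hlim : ∀ {f : (Fin n → ℝ) → ℝ}, T0 f →
      Tendsto (fun k => ex (V k) f) atTop (𝓝 (∫ x, f x * g x)) :=
    fun hf => lim_ex_const ha hVm hVb hVl g1 hf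
  have hmn : ∀ i, Tendsto (fun k => mn (V k) i) atTop (𝓝 (m i)) := by
    intro i
    rw [hm i]
    exact hlim (T0.coord i)
  -- covariances
  set c : Fin n → Fin n → ℝ := fun i j => (∫ x, (x i * x j) * g x) - m i * m j with hcd
  have hCM : ∀ i j, Tendsto (fun k => CM (V k) i j) atTop (𝓝 (c i j)) := by
    intro i j
    have h1 := (hlim ((T0.coord i).mul (T0.coord j))).sub ((hmn i).mul (hmn j))
    exact h1
  have hcs : ∀ θ : Fin n → ℝ, ∑ i, ∑ j, θ i * θ j * c i j ≤ s * sq θ := by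
    intro θ
    have h1 : Tendsto (fun k => var (V k) (fun x => dt θ x)) atTop
        (𝓝 (∑ i, ∑ j, θ i * θ j * c i j)) := by
      have h2 : ∀ k, var (V k) (fun x => dt θ x) = ∑ i, ∑ j, θ i * θ j * CM (V k) i j :=
        fun k => var_dt (HV k) θ
      simp only [h2]
      exact tendsto_finsetSum _ fun i _ => tendsto_finsetSum _ fun j _ => (hCM i j).const_mul _
    have h3 : Tendsto (fun k => var (V k) (fun x => dt θ x)) atTop
        (𝓝 ((∫ x, dt θ x ^ 2 * g x) - (∫ x, dt θ x * g x) ^ 2)) := by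
      have h4 : ∀ k, var (V k) (fun x => dt θ x) =
          ex (V k) (fun x => dt θ x ^ 2) - ex (V k) (fun x => dt θ x) ^ 2 :=
        fun k => var_eq' (V k) _
      simp only [h4]
      exact (hlim ((T0.dtf θ).pow 2)).sub ((hlim (T0.dtf θ)).pow 2)
    have h5 := tendsto_nhds_unique h1 h3
    rw [h5]
    rw [← RQ2_var gi g1 (hint ((T0.dtf θ).pow 2)) (hint (T0.dtf θ))]
    exact hs θ
  -- the quadratic forms
  set q : (Fin n → ℝ) → ℝ := fun x => ∑ i, ∑ j, B i j * (x i - m i) * (x j - m j) with hq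
  have hqT : T0 q := by
    refine T0.sum _ fun i _ => T0.sum _ fun j _ => ?_
    exact ((T0.const (B i j)).mul ((T0.coord i).sub (T0.const (m i)))).mul
      ((T0.coord j).sub (T0.const (m j)))
  obtain ⟨R, hR0, hR⟩ : ∃ R : ℝ, 0 ≤ R ∧ ∀ k i, |mn (V k) i| ≤ R := by
    have h1 : ∀ i, ∃ R : ℝ, ∀ k, |mn (V k) i| ≤ R := by
      intro i
      obtain ⟨R, hR⟩ := (hmn i).abs.bddAbove_range
      exact ⟨R, fun k => hR ⟨k, rfl⟩⟩
    choose R hR using h1
    refine ⟨∑ i, |R i|, Finset.sum_nonneg fun i _ => abs_nonneg _, fun k i => ?_⟩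
    refine (hR i k).trans ((le_abs_self _).trans ?_)
    exact Finset.single_le_sum (f := fun i => |R i|) (fun i _ => abs_nonneg _) (Finset.mem_univ i)
  have hqk : ∀ k, T0 (qf (V k) B) := by
    intro k
    refine T0.sum _ fun i _ => T0.sum _ fun j _ => ?_
    exact ((T0.const (B i j)).mul ((T0.coord i).sub (T0.const (mn (V k) i)))).mul
      ((T0.coord j).sub (T0.const (mn (V k) j)))
  set S : ℝ := ∑ i, ∑ j, |B i j| with hS
  have hS0 : 0 ≤ S := Finset.sum_nonneg fun i _ => Finset.sum_nonneg fun j _ => abs_nonneg _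
  have hqb : ∀ k x, |qf (V k) B x| ≤ (S * (2 + 2 * R ^ 2)) * (1 + sq x) ^ 1 := by
    intro k x
    have hx : ∀ i, |x i - mn (V k) i| ≤ √(sq x) + R := by
      intro i
      refine (abs_sub _ _).trans (add_le_add ?_ (hR k i))
      exact Real.abs_le_sqrt (coord_sq_le x i)
    have h1 : (√(sq x) + R) ^ 2 ≤ (2 + 2 * R ^ 2) * (1 + sq x) := by
      have h2 := Real.sq_sqrt (sq_nn x)
      have h3 := sq_nn x
      nlinarith [sq_nonneg (√(sq x) - R), mul_nonneg (sq_nonneg R) h3]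
    unfold qf
    calc |∑ i, ∑ j, B i j * (x i - mn (V k) i) * (x j - mn (V k) j)|
        ≤ ∑ i, ∑ j, |B i j| * (√(sq x) + R) ^ 2 := by
          refine (Finset.abs_sum_le_sum_abs _ _).trans (Finset.sum_le_sum fun i _ => ?_)
          refine (Finset.abs_sum_le_sum_abs _ _).trans (Finset.sum_le_sum fun j _ => ?_)
          rw [abs_mul, abs_mul, mul_assoc, pow_two]
          refine mul_le_mul_of_nonneg_left ?_ (abs_nonneg _)
          exact mul_le_mul (hx i) (hx j) (abs_nonneg _) (by positivity)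
      _ = S * (√(sq x) + R) ^ 2 := by
          rw [hS, Finset.sum_mul]
          exact Finset.sum_congr rfl fun i _ => by rw [Finset.sum_mul]
      _ ≤ S * ((2 + 2 * R ^ 2) * (1 + sq x)) := mul_le_mul_of_nonneg_left h1 hS0
      _ = _ := by ring
  have hql : ∀ x, Tendsto (fun k => qf (V k) B x) atTop (𝓝 (q x)) := by
    intro x
    refine tendsto_finsetSum _ fun i _ => tendsto_finsetSum _ fun j _ => ?_
    exact (((hmn i).const_sub (x i)).const_mul (B i j)).mul ((hmn j).const_sub (x j))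
  have l1 : Tendsto (fun k => ex (V k) (qf (V k) B)) atTop (𝓝 (∫ x, q x * g x)) :=
    lim_ex ha hVm hVb hVl g1 (fun k => (hqk k).meas) hqb hql
  have l2 : Tendsto (fun k => ex (V k) (fun x => qf (V k) B x ^ 2)) atTop
      (𝓝 (∫ x, q x ^ 2 * g x)) := by
    refine lim_ex ha hVm hVb hVl g1 (fun k => (hqk k).meas.pow_const 2)
      (C' := (S * (2 + 2 * R ^ 2)) ^ 2) (m := 2) (fun k x => ?_) (fun x => (hql x).pow 2)
    rw [abs_pow, ← mul_pow]
    have h1 := hqb k x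
    rw [pow_one] at h1
    exact pow_le_pow_left₀ (abs_nonneg _) h1 2
  have l3 : Tendsto (fun k => var (V k) (qf (V k) B)) atTop
      (𝓝 ((∫ x, q x ^ 2 * g x) - (∫ x, q x * g x) ^ 2)) := by
    have h4 : ∀ k, var (V k) (qf (V k) B) =
        ex (V k) (fun x => qf (V k) B x ^ 2) - ex (V k) (qf (V k) B) ^ 2 :=
      fun k => var_eq' (V k) _
    simp only [h4]
    exact l2.sub (l1.pow 2)
  -- the bound
  have hb1 : ∀ δ : ℝ, 0 < δ → (∫ x, q x ^ 2 * g x) - (∫ x, q x * g x) ^ 2 ≤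
      K * (s + δ) ^ 2 * ∑ i, ∑ j, B i j ^ 2 := by
    intro δ hδ
    refine le_of_tendsto l3 ?_
    filter_upwards [CLe_eventually HV hCM hcs hδ] with k hk
    exact hK.quad_scale (HV k) (by linarith) hk hB
  have hb2 : (∫ x, q x ^ 2 * g x) - (∫ x, q x * g x) ^ 2 ≤
      K * s ^ 2 * ∑ i, ∑ j, B i j ^ 2 := by
    have h1 : Tendsto (fun δ : ℝ => K * (s + δ) ^ 2 * ∑ i, ∑ j, B i j ^ 2) (𝓝[>] 0)
        (𝓝 (K * (s + 0) ^ 2 * ∑ i, ∑ j, B i j ^ 2)) := by
      refine Tendsto.mono_left ?_ nhdsWithin_le_nhds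
      have : Continuous fun δ : ℝ => K * (s + δ) ^ 2 * ∑ i, ∑ j, B i j ^ 2 := by fun_prop
      exact this.tendsto 0
    rw [add_zero] at h1
    refine ge_of_tendsto h1 ?_
    filter_upwards [self_mem_nhdsWithin] with δ hδ
    exact hb1 δ hδ
  rw [← RQ2_var gi g1 (hint (hqT.pow 2)) (hint hqT)] at hb2
  exact hb2

/-- The quadratic KLS inequality for all log-concave probability measures. -/
theorem quad_general {K : ℝ} (hK0 : 0 ≤ K) (hK : QKP K (Fin n))
    {h : EuclideanSpace ℝ (Fin n) → ℝ} (h0 : ∀ x, 0 ≤ h x) (hm : Measurable h)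
    (hlc : ∀ (x y : EuclideanSpace ℝ (Fin n)) (a b : ℝ), 0 ≤ a → 0 ≤ b → a + b = 1 →
      h x ^ a * h y ^ b ≤ h (a • x + b • y))
    {μ : Measure (EuclideanSpace ℝ (Fin n))}
    (hμ : μ = volume.withDensity (fun x => ENNReal.ofReal (h x))) (hP : IsProbabilityMeasure μ)
    {D : ℝ} (hD : LinPoincareWith μ D) (A : Matrix (Fin n) (Fin n) ℝ) :
    ∫ x, ((∑ i, ∑ j, A i j * (x i - ∫ y, y i ∂μ) * (x j - ∫ y, y j ∂μ)) -
        ∫ z, (∑ i, ∑ j, A i j * (z i - ∫ y, y i ∂μ) * (z j - ∫ y, y j ∂μ)) ∂μ) ^ 2 ∂μ ≤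
      K * D ^ 4 * ∑ i, ∑ j, A i j ^ 2 := by
  set g : (Fin n → ℝ) → ℝ := fun x => h (WithLp.toLp 2 x) with hg
  have hI : ∀ φ : EuclideanSpace ℝ (Fin n) → ℝ,
      ∫ x, φ x ∂μ = ∫ x : Fin n → ℝ, φ (WithLp.toLp 2 x) * g x := by
    intro φ
    rw [h42s.integral_mu h0 hm hμ]
    exact integral_ofLp (fun x : Fin n → ℝ => φ (WithLp.toLp 2 x) * g x)
  have g0 : ∀ x, 0 ≤ g x := fun x => h0 _
  have gm : Measurable g := hm.comp (WithLp.measurable_toLp 2 _)
  have glc : ∀ (x y : Fin n → ℝ) (a b : ℝ), 0 ≤ a → 0 ≤ b → a + b = 1 →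
      g x ^ a * g y ^ b ≤ g (a • x + b • y) := fun x y a b ha hb hab => hlc _ _ a b ha hb hab
  have hi : Integrable h := by
    have h1 : Integrable (fun _ : EuclideanSpace ℝ (Fin n) => (1 : ℝ)) μ := integrable_const 1
    rw [h42s.integrable_mu h0 hm hμ] at h1
    simpa using h1
  have gi : Integrable g := by
    rw [← (PiLp.volume_preserving_ofLp (Fin n)).integrable_comp_emb
      (MeasurableEquiv.toLp 2 (Fin n → ℝ)).symm.measurableEmbedding]
    exact hi
  have g1 : ∫ x, g x = 1 := by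
    have h1 := hI fun _ => 1
    simp only [one_mul, integral_const, probReal_univ, smul_eq_mul, mul_one] at h1
    exact h1.symm
  obtain ⟨b, hb1, hb2⟩ := h42s.lin_props hD
  have hs : ∀ θ : Fin n → ℝ, ∫ x, (dt θ x - ∫ y, dt θ y * g y) ^ 2 * g x ≤ D ^ 2 * sq θ := by
    intro θ
    have h1 := (hb2 (WithLp.toLp 2 θ)).2
    have hin : ∀ x : EuclideanSpace ℝ (Fin n),
        (inner ℝ (WithLp.toLp 2 θ : EuclideanSpace ℝ (Fin n)) x : ℝ) = dt θ (WithLp.ofLp x) := by
      intro x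
      rw [PiLp.inner_apply]
      unfold dt
      exact Finset.sum_congr rfl fun i _ => by simp [mul_comm]
    have h2 := hb1 (WithLp.toLp 2 θ)
    simp only [hin] at h2
    rw [hI] at h2
    have hin' : ∀ x : EuclideanSpace ℝ (Fin n),
        (inner ℝ (WithLp.toLp 2 θ : EuclideanSpace ℝ (Fin n)) (x - b) : ℝ) =
          dt θ (WithLp.ofLp x) - dt θ (WithLp.ofLp b) := by
      intro x
      rw [inner_sub_right, hin, hin]
    simp only [hin'] at h1
    rw [← h2, hI] at h1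
    have h3 : ‖(WithLp.toLp 2 θ : EuclideanSpace ℝ (Fin n))‖ ^ 2 = sq θ := by
      rw [EuclideanSpace.norm_sq_eq]
      unfold sq
      exact Finset.sum_congr rfl fun i _ => by rw [Real.norm_eq_abs, sq_abs]
    rw [h3] at h1
    refine h1.trans (mul_le_mul_of_nonneg_right ?_ (sq_nn θ))
    rcases le_total D 0 with hD0 | hD0
    · rw [max_eq_right hD0]
      have := sq_nonneg D
      nlinarith
    · rw [max_eq_left hD0]
  set m : Fin n → ℝ := fun i => ∫ y : EuclideanSpace ℝ (Fin n), y i ∂μ with hmd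
  have hmi : ∀ i, m i = ∫ x : Fin n → ℝ, x i * g x := fun i => hI fun y => y i
  set B : Fin n → Fin n → ℝ := fun i j => (A i j + A j i) / 2 with hBd
  have hB : ∀ i j, B i j = B j i := fun i j => by rw [hBd]; simp only; ring
  have key := quad_density hK0 hK g0 gm glc gi g1 (sq_nonneg D) hs hB m hmi
  have hAB : ∀ u : Fin n → ℝ, ∑ i, ∑ j, B i j * u i * u j = ∑ i, ∑ j, A i j * u i * u j := by
    intro u
    have h1 : ∑ i, ∑ j, A j i * u i * u j = ∑ i, ∑ j, A i j * u i * u j := by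
      rw [Finset.sum_comm]
      exact Finset.sum_congr rfl fun i _ => Finset.sum_congr rfl fun j _ => by ring
    have h2 : ∑ i, ∑ j, B i j * u i * u j =
        (1 / 2) * (∑ i, ∑ j, A i j * u i * u j) + (1 / 2) * ∑ i, ∑ j, A j i * u i * u j := by
      rw [Finset.mul_sum, Finset.mul_sum, ← Finset.sum_add_distrib]
      refine Finset.sum_congr rfl fun i _ => ?_
      rw [Finset.mul_sum, Finset.mul_sum, ← Finset.sum_add_distrib]
      refine Finset.sum_congr rfl fun j _ => ?_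
      rw [hBd]
      simp only
      ring
    rw [h2, h1]
    ring
  have hAB' : ∀ x : Fin n → ℝ, ∑ i, ∑ j, B i j * (x i - m i) * (x j - m j) =
      ∑ i, ∑ j, A i j * (x i - m i) * (x j - m j) := fun x => hAB fun i => x i - m i
  simp only [hAB'] at key
  have hBA : ∑ i, ∑ j, B i j ^ 2 ≤ ∑ i, ∑ j, A i j ^ 2 := by
    have h1 : ∑ i, ∑ j, A j i ^ 2 = ∑ i, ∑ j, A i j ^ 2 := by rw [Finset.sum_comm]
    have h2 : ∑ i, ∑ j, B i j ^ 2 ≤ (1 / 2) * (∑ i, ∑ j, A i j ^ 2) +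
        (1 / 2) * ∑ i, ∑ j, A j i ^ 2 := by
      rw [Finset.mul_sum, Finset.mul_sum, ← Finset.sum_add_distrib]
      refine Finset.sum_le_sum fun i _ => ?_
      rw [Finset.mul_sum, Finset.mul_sum, ← Finset.sum_add_distrib]
      refine Finset.sum_le_sum fun j _ => ?_
      rw [hBd]
      simp only
      nlinarith [sq_nonneg (A i j - A j i)]
    rw [h1] at h2
    linarith
  have hL : ∫ x, ((∑ i, ∑ j, A i j * (x i - ∫ y, y i ∂μ) * (x j - ∫ y, y j ∂μ)) -
        ∫ z, (∑ i, ∑ j, A i j * (z i - ∫ y, y i ∂μ) * (z j - ∫ y, y j ∂μ)) ∂μ) ^ 2 ∂μ =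
      ∫ x, ((∑ i, ∑ j, A i j * (x i - m i) * (x j - m j)) -
        ∫ y, (∑ i, ∑ j, A i j * (y i - m i) * (y j - m j)) * g y) ^ 2 * g x := by
    rw [hI, hI]
  rw [hL]
  refine key.trans ?_
  calc K * (D ^ 2) ^ 2 * ∑ i, ∑ j, B i j ^ 2 ≤ K * (D ^ 2) ^ 2 * ∑ i, ∑ j, A i j ^ 2 :=
        mul_le_mul_of_nonneg_left hBA (by positivity)
    _ = _ := by ring

end Pool.Agent.Lib.MP_8d00da_gt.h42k
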