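import Pool.Agent.Lib.MP_8d00da_gt.h42k.S6h

/-!
# 6.5: control of the operator norm of the posterior covariance
-/

namespace Pool.Agent.Lib.MP_8d00da_gt.h42k

open MeasureTheory Set Filter
open scoped Topology NNReal ENNReal ContDiff

set_option linter.unusedSectionVars false
set_option linter.unusedVariables false

section gen

variable {ι : Type*} [Fintype ι] [DecidableEq ι]

variable {κ M : ℝ} {V : (ι → ℝ) → ℝ}

theorem Lop_nonneg (V : (ι → ℝ) → ℝ) (t : ℝ) (y : ι → ℝ) : 0 ≤ Lop V t y :=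
  opn_nonneg _

/-- `Cov_{t,y} ≤ L(t,y)`. -/
theorem Lop_CLe (H : Nice κ M V) {t : ℝ} (ht : -κ < t) (y : ι → ℝ) :
    CLe (pt V t y) (Lop V t y) := by
  exact CLe_opn (H.ptn ht y)

theorem Lop_le (H : Nice κ M V) {t : ℝ} (ht : -κ < t) (y : ι → ℝ) : Lop V t y ≤ 1 / (t + κ) := by
  have hpos : 0 < κ + t := by linarith
  rw [add_comm t κ]
  exact opn_CM_le (H.ptn ht y) (by positivity) (s6_CLe_kappa (H.ptn ht y))

theorem Lop_le_of_CLe (H : Nice κ M V) {t : ℝ} (ht : -κ < t) {y : ι → ℝ} {a : ℝ} (ha : 0 ≤ a)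
    (hC : CLe (pt V t y) a) : Lop V t y ≤ a := by
  exact opn_CM_le (H.ptn ht y) ha hC

/-- `L ≤ Tr A = E_{t,y}|x̃|²`. -/
theorem Lop_le_trace (H : Nice κ M V) {t : ℝ} (ht : -κ < t) (y : ι → ℝ) :
    Lop V t y ≤ ex (pt V t y) (fun x => ∑ i, (x i - mn (pt V t y) i) ^ 2) := by
  rw [← trace_CM (H.ptn ht y)]
  exact opn_le_trace (H.ptn ht y)

theorem Lop_t0 (H : Nice κ M V) {t : ℝ} (ht : -κ < t) : T0 (Lop V t) := by
  refine ⟨?_, ?_⟩
  · have h1 : Continuous fun y : ι → ℝ => CM (pt V t y) :=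
      continuous_matrix fun i j => (CM_pt_smooth_y H ht i j).continuous
    exact (continuous_opn.comp h1).measurable
  · have hpos : 0 < t + κ := by linarith
    refine (PG.const (1 / (t + κ))).mono fun y => ?_
    rw [abs_of_nonneg (Lop_nonneg V t y), abs_of_nonneg (by positivity)]
    exact Lop_le H ht y

theorem beta_nonneg (V : (ι → ℝ) → ℝ) (a t : ℝ) (y : ι → ℝ) : 0 ≤ beta V a t y := by
  unfold beta
  split_ifs
  · exact Lop_nonneg V t y
  · exact le_rfl

theorem beta_t0 (H : Nice κ M V) (a : ℝ) {t : ℝ} (ht : -κ < t) : T0 (beta V a t) := by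
  have hL := Lop_t0 H ht
  refine ⟨?_, ?_⟩
  · exact Measurable.ite (measurableSet_lt measurable_const hL.meas) hL.meas measurable_const
  · refine hL.pg.mono fun y => ?_
    unfold beta
    split_ifs
    · exact le_rfl
    · rw [abs_zero]
      exact abs_nonneg _

/-- `L ≤ 3a + β`. -/
theorem Lop_le_add (V : (ι → ℝ) → ℝ) {a : ℝ} (ha : 0 ≤ a) (t : ℝ) (y : ι → ℝ) :
    Lop V t y ≤ 3 * a + beta V a t y := by
  unfold beta
  split_ifs with h
  · linarith
  · linarith

/-- `β (12a/7)^q ≤ F` at `σ = 1/(4a)` (`PSD.large_le` with the eigenvector of `EB.exists_opn`). -/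
theorem beta_le_F (H : Nice κ M V) {a : ℝ} (ha : 0 < a) (q : ℕ) {t : ℝ} (ht : -κ < t)
    (y : ι → ℝ) : beta V a t y * (12 * a / 7) ^ q ≤ FF q (1 / (4 * a)) (CM (pt V t y)) := by
  have hA := CM_pt_PSD H ht y
  have hσ : 0 ≤ 1 / (4 * a) := by positivity
  unfold beta
  split_ifs with h
  · rcases isEmpty_or_nonempty ι with hι | hι
    · exfalso
      obtain ⟨e, lam, he⟩ := exists_EB (A := CM (pt V t y)) fun i j => CM_symm _ i j
      have h1 : Lop V t y ≤ 0 := he.opn_le le_rfl fun k => hι.elim k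
      linarith
    · obtain ⟨e, lam, he⟩ := exists_EB (A := CM (pt V t y)) fun i j => CM_symm _ i j
      obtain ⟨k, hk⟩ := he.exists_opn fun k => he.lam_nonneg (H.ptn ht y) k
      have h1 : ∑ i, e k i ^ 2 = 1 := by
        have h2 := he.orth k k
        rw [if_pos rfl, s6_dt_self] at h2
        exact h2
      refine hA.large_le ha h.le (e k) (by rw [h1]; exact one_pos) ?_
      rw [h1, mul_one, CM_quad (H.ptn ht y), ← CM_mulVec (H.ptn ht y), ← he.lam_eq k, hk]
      exact le_rfl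
  · rw [zero_mul]
    exact hA.FF_nonneg hσ

theorem F_t0 (H : Nice κ M V) {σ : ℝ} (hσ : 0 < σ) (q : ℕ) {t : ℝ} (ht : -κ < t) :
    T0 (fun y => FF q σ (CM (pt V t y))) := by
  have hpos : 0 < t + κ := by linarith
  have hs : 0 < √(t + κ) := Real.sqrt_pos.2 hpos
  refine ⟨?_, ?_⟩
  · have h1 := (Ph_smooth_y H q (σ0 := σ / √(t + κ)) (div_pos hσ hs) ht).continuous
    have h2 : Ph V κ q (σ / √(t + κ)) t = fun y => FF q σ (CM (pt V t y)) := by
      funext y
      unfold Ph
      rw [div_mul_cancel₀ _ hs.ne']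
    rw [← h2]
    exact h1.measurable
  · refine (PG.const (Fintype.card ι * (1 / (κ + t)) ^ (q + 1))).mono fun y => ?_
    have hpos' : 0 < κ + t := by linarith
    have hA := CM_pt_PSD H ht y
    rw [abs_of_nonneg (hA.FF_nonneg hσ.le), abs_of_nonneg (by positivity)]
    exact (hA.FF_le hσ.le).trans
      (trace_pow_CM_le (H.ptn ht y) (s6_CLe_kappa (H.ptn ht y)) (q + 1))

private theorem S6i_op (H : Nice κ M V) {a : ℝ} (ha : 0 < a) (hC : CLe V a) {q : ℕ} {T : ℝ}
    (ht : -κ < T) {E : ℝ}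
    (hF : GE V T (fun y => FF q (1 / (4 * a)) (CM (pt V T y))) ≤
      Real.exp E * ((CM V) ^ (q + 1)).trace) :
    GE V T (beta V a T) ≤ Fintype.card ι * a * (7 / 12) ^ q * Real.exp E := by
  have h1 := GE_mono H ((beta_t0 H a ht).cmul ((12 * a / 7) ^ q))
    (F_t0 H (σ := 1 / (4 * a)) (by positivity) q ht) T fun y => by
      rw [mul_comm]
      exact beta_le_F H ha q ht y
  rw [GE_cmul] at h1
  have h2 := trace_pow_CM_le H hC (q + 1)
  have h3 : (12 * a / 7) ^ q * GE V T (beta V a T) ≤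
      Real.exp E * (Fintype.card ι * a ^ (q + 1)) :=
    h1.trans (hF.trans (mul_le_mul_of_nonneg_left h2 (Real.exp_pos _).le))
  have h4 : 0 < (12 * a / 7) ^ q := by positivity
  refine le_of_mul_le_mul_left (h3.trans (le_of_eq ?_)) h4
  have h5 : (12 * a / 7) ^ q * (7 / 12) ^ q = a ^ q := by
    rw [← mul_pow]
    congr 1
    ring
  calc Real.exp E * (Fintype.card ι * a ^ (q + 1))
      = Fintype.card ι * a * a ^ q * Real.exp E := by ring
    _ = Fintype.card ι * a * ((12 * a / 7) ^ q * (7 / 12) ^ q) * Real.exp E := by rw [h5]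
    _ = _ := by ring

/-- 6.5. -/
theorem OP (H : Nice κ M V) {a : ℝ} (ha : 0 < a) (hC : CLe V a) {q : ℕ} (hq : 224 ≤ q) {T : ℝ}
    (hT : 0 ≤ T) :
    GE V T (beta V a T) ≤
      Fintype.card ι * a * (7 / 12) ^ q * Real.exp (640 * q ^ 2 * √(a * (T + κ))) := by
  have hκ := H.kpos
  have ht : -κ < T := by linarith
  exact S6i_op H ha hC ht (F_bound H hq ha hT)

/-- Markov. -/
theorem OP_pr (H : Nice κ M V) {a : ℝ} (ha : 0 < a) {T : ℝ} (hT : 0 ≤ T) :
    GE V T (fun y => if 3 * a < Lop V T y then 1 else 0) ≤ GE V T (beta V a T) / (3 * a) := by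
  have hκ := H.kpos
  have ht : -κ < T := by linarith
  have hL := Lop_t0 H ht
  have hb := beta_t0 H a ht
  have h1 : T0 (fun y : ι → ℝ => if 3 * a < Lop V T y then (1 : ℝ) else 0) := by
    refine ⟨Measurable.ite (measurableSet_lt measurable_const hL.meas) measurable_const
      measurable_const, ?_⟩
    refine (PG.const (1 : ℝ)).mono fun y => ?_
    split_ifs
    · exact le_rfl
    · rw [abs_zero]
      exact abs_nonneg _
  have h2 := GE_mono H h1 (hb.cmul (1 / (3 * a))) T fun y => by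
    unfold beta
    split_ifs with h
    · rw [one_div_mul_eq_div, le_div_iff₀ (by positivity), one_mul]
      exact h.le
    · rw [mul_zero]
  rw [GE_cmul, one_div_mul_eq_div] at h2
  exact h2

end gen

section genK

variable {ι : Type} [Fintype ι] [DecidableEq ι]

variable {κ M K : ℝ} {V : (ι → ℝ) → ℝ}

/-- 6.5 under the quadratic KLS property. -/
theorem OP_K (hK : QKP K ι) (hK0 : 0 ≤ K) (H : Nice κ M V) {a : ℝ} (ha : 0 < a) (hC : CLe V a)
    {q : ℕ} (hq : 224 ≤ q) {T : ℝ} (hT : 0 ≤ T) :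
    GE V T (beta V a T) ≤
      Fintype.card ι * a * (7 / 12) ^ q * Real.exp (128 * q ^ 2 * K * (a * (T + κ))) := by
  have hκ := H.kpos
  have ht : -κ < T := by linarith
  exact S6i_op H ha hC ht (F_bound_K hK hK0 H hq ha hT)

end genK

end Pool.Agent.Lib.MP_8d00da_gt.h42k
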