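import Pool.Agent.Lib.MP_8d00da_gt.h42k.S6g2

/-!
# 6.4, 6.6: Gronwall
-/

namespace Pool.Agent.Lib.MP_8d00da_gt.h42k

open MeasureTheory Set Filter
open scoped Topology NNReal ENNReal ContDiff

set_option linter.unusedSectionVars false
set_option linter.unusedVariables false

/-- Gronwall in integrated form: `h(t) exp(-C(t))` is antitone. -/
theorem gron {h h' c C : ℝ → ℝ} {T : ℝ} (hT : 0 ≤ T) (hc : ContinuousOn h (Set.Icc 0 T))
    (hd : ∀ t ∈ Set.Ioo 0 T, HasDerivAt h (h' t) t) (hC : ContinuousOn C (Set.Icc 0 T))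
    (hCd : ∀ t ∈ Set.Ioo 0 T, HasDerivAt C (c t) t)
    (hle : ∀ t ∈ Set.Ioo 0 T, h' t ≤ c t * h t) : h T ≤ Real.exp (C T - C 0) * h 0 := by
  have hF : ∀ t ∈ Set.Ioo 0 T, HasDerivAt (fun t => h t * Real.exp (-C t))
      (h' t * Real.exp (-C t) + h t * (Real.exp (-C t) * -c t)) t := fun t ht =>
    (hd t ht).mul ((hCd t ht).neg.exp)
  have hanti : AntitoneOn (fun t => h t * Real.exp (-C t)) (Set.Icc 0 T) := by
    refine antitoneOn_of_deriv_nonpos (convex_Icc 0 T)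
      (hc.mul (Real.continuous_exp.comp_continuousOn hC.neg)) ?_ ?_
    · rw [interior_Icc]
      intro t ht
      exact (hF t ht).differentiableAt.differentiableWithinAt
    · rw [interior_Icc]
      intro t ht
      rw [(hF t ht).deriv]
      have h1 := hle t ht
      have h2 := Real.exp_pos (-C t)
      nlinarith
  have h1 := hanti (Set.left_mem_Icc.2 hT) (Set.right_mem_Icc.2 hT) hT
  have h1' : h T * Real.exp (-C T) ≤ h 0 * Real.exp (-C 0) := h1
  have h2 : Real.exp (C T) * Real.exp (-C T) = 1 := by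
    rw [← Real.exp_add, add_neg_cancel, Real.exp_zero]
  calc h T = Real.exp (C T) * (h T * Real.exp (-C T)) := by
        rw [mul_left_comm, h2, mul_one]
    _ ≤ Real.exp (C T) * (h 0 * Real.exp (-C 0)) :=
        mul_le_mul_of_nonneg_left h1' (Real.exp_pos _).le
    _ = Real.exp (C T - C 0) * h 0 := by
        rw [sub_eq_add_neg, Real.exp_add]
        ring

section S6h_aux

variable {ι : Type*} [Fintype ι] [DecidableEq ι]

variable {κ M : ℝ} {V : (ι → ℝ) → ℝ}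

private theorem S6h_Ph_t0 (H : Nice κ M V) (q : ℕ) {σ0 : ℝ} (hσ : 0 < σ0) {t : ℝ} (ht : 0 ≤ t) :
    T0 (Ph V κ q σ0 t) :=
  ⟨(Ph_smooth_y H q hσ (by linarith [H.kpos])).continuous.measurable,
    (Ph_pgu H q hσ t).pg ⟨ht, le_rfl⟩⟩

private theorem S6h_bound (H : Nice κ M V) (q : ℕ) {σ0 : ℝ} (hσ : 0 < σ0) {T : ℝ} (hT : 0 ≤ T)
    {c C : ℝ → ℝ} (hC : ContinuousOn C (Set.Icc 0 T))
    (hCd : ∀ t ∈ Set.Ioo 0 T, HasDerivAt C (c t) t) (hC0 : 0 ≤ C 0)
    (hle : ∀ t ∈ Set.Ioo 0 T, ∀ y, Gn V t (Ph V κ q σ0) y ≤ c t * Ph V κ q σ0 t y) :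
    GE V T (Ph V κ q σ0 T) ≤ Real.exp (C T) * ((CM V) ^ (q + 1)).trace := by
  have hκ := H.kpos
  have h1 := gron (h := fun s => GE V s (Ph V κ q σ0 s))
    (h' := fun t => GE V t (Gn V t (Ph V κ q σ0))) (c := c) (C := C) hT
    (GE_Ph_continuousOn H q hσ T) (fun t ht => GE_Ph_hasDerivAt H q hσ ht.1) hC hCd
    (fun t ht => by
      have h2 := GE_mono H (Gn_Ph_t0 H q hσ ht.1) ((S6h_Ph_t0 H q hσ ht.1.le).cmul (c t)) t
        (hle t ht)
      rwa [GE_cmul] at h2)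
  have h2 := GE_Ph_zero H q hσ
  have h3 : 0 ≤ GE V 0 (Ph V κ q σ0 0) :=
    GE_nonneg V 0 (fun y => Ph_nonneg H q hσ (by linarith) y)
  refine h1.trans ?_
  have h4 : Real.exp (C T - C 0) ≤ Real.exp (C T) := Real.exp_le_exp.2 (by linarith)
  calc Real.exp (C T - C 0) * GE V 0 (Ph V κ q σ0 0)
      ≤ Real.exp (C T) * GE V 0 (Ph V κ q σ0 0) := mul_le_mul_of_nonneg_right h4 h3
    _ ≤ _ := mul_le_mul_of_nonneg_left h2 (Real.exp_pos _).le

private theorem S6h_sqrt {a s : ℝ} (ha : 0 < a) (hs : 0 < s) :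
    √(1 / (4 * a * √s)) = 1 / (2 * (√a * √(√s))) := by
  have h1 : 0 < √a := Real.sqrt_pos.2 ha
  have h2 : 0 < √s := Real.sqrt_pos.2 hs
  have h3 : 0 < √(√s) := Real.sqrt_pos.2 h2
  rw [Real.sqrt_eq_iff_mul_self_eq_of_pos (by positivity)]
  have h4 : √a * √a = a := Real.mul_self_sqrt ha.le
  have h5 : √(√s) * √(√s) = √s := Real.mul_self_sqrt h2.le
  have e : (2 * (√a * √(√s))) * (2 * (√a * √(√s))) = 4 * a * √s := by
    calc (2 * (√a * √(√s))) * (2 * (√a * √(√s))) = 4 * (√a * √a) * (√(√s) * √(√s)) := by ring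
      _ = _ := by rw [h4, h5]
  rw [div_mul_div_comm, one_mul, e]

private theorem S6h_trace_t0 (H : Nice κ M V) {t : ℝ} (ht : -κ < t) :
    T0 (fun y => (CM (pt V t y) * CM (pt V t y) * CM (pt V t y)).trace) := by
  have hcm : ∀ i j, T0 (fun y => CM (pt V t y) i j) := fun i j => (AL.cm V i j).t0 H ht
  have e : (fun y => (CM (pt V t y) * CM (pt V t y) * CM (pt V t y)).trace) =
      fun y => ∑ i, ∑ j, (∑ k, CM (pt V t y) i k * CM (pt V t y) k j) * CM (pt V t y) j i := by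
    funext y
    simp only [Matrix.trace, Matrix.diag_apply, Matrix.mul_apply]
  rw [e]
  exact T0.sum _ fun i _ => T0.sum _ fun j _ =>
    (T0.sum _ fun k _ => (hcm i k).mul (hcm k j)).mul (hcm j i)

end S6h_aux

section gen

variable {ι : Type*} [Fintype ι] [DecidableEq ι]

variable {κ M : ℝ} {V : (ι → ℝ) → ℝ}

/-- General form of 6.4: `∫ 80 q² σ₀^{-1/2} τ^{-3/4} = 320 q² σ₀^{-1/2} τ^{1/4}`. -/
theorem Ph_bound (H : Nice κ M V) {q : ℕ} (hq : 224 ≤ q) {σ0 : ℝ} (hσ : 0 < σ0) {T : ℝ}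
    (hT : 0 ≤ T) :
    GE V T (Ph V κ q σ0 T) ≤
      Real.exp (320 * q ^ 2 * √(√(T + κ)) / √σ0) * ((CM V) ^ (q + 1)).trace := by
  have hκ := H.kpos
  refine S6h_bound H q hσ hT (c := fun t => 80 * q ^ 2 / (√(σ0 * √(t + κ)) * √(t + κ)))
    (C := fun t => 320 * q ^ 2 * √(√(t + κ)) / √σ0) ?_ ?_ (by positivity)
    (fun t ht y => Gn_Ph_le H hq hσ ht.1 y)
  · refine ContinuousOn.div_const (ContinuousOn.mul continuousOn_const ?_) _
    exact (Real.continuous_sqrt.comp (Real.continuous_sqrt.comp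
      (continuous_id.add continuous_const))).continuousOn
  · intro t ht
    have hs : 0 < t + κ := by linarith [ht.1]
    have h1 : HasDerivAt (fun t => t + κ) 1 t := (hasDerivAt_id t).add_const κ
    have h2 : HasDerivAt (fun t => √(t + κ)) (1 / (2 * √(t + κ))) t := h1.sqrt hs.ne'
    have h3 : HasDerivAt (fun t => √(√(t + κ)))
        ((1 / (2 * √(t + κ))) / (2 * √(√(t + κ)))) t := h2.sqrt (Real.sqrt_pos.2 hs).ne'
    have h4 := (h3.const_mul (320 * (q : ℝ) ^ 2)).div_const (√σ0)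
    refine h4.congr_deriv ?_
    have h5 : √(σ0 * √(t + κ)) = √σ0 * √(√(t + κ)) := Real.sqrt_mul hσ.le _
    rw [h5]
    have h6 : 0 < √σ0 := Real.sqrt_pos.2 hσ
    have h7 : 0 < √(t + κ) := Real.sqrt_pos.2 hs
    have h8 : 0 < √(√(t + κ)) := Real.sqrt_pos.2 h7
    field_simp
    norm_num

/-- 6.4: `σ₀ = 1/(4a√(T+κ))`. -/
theorem F_bound (H : Nice κ M V) {q : ℕ} (hq : 224 ≤ q) {a : ℝ} (ha : 0 < a) {T : ℝ}
    (hT : 0 ≤ T) :
    GE V T (fun y => FF q (1 / (4 * a)) (CM (pt V T y))) ≤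
      Real.exp (640 * q ^ 2 * √(a * (T + κ))) * ((CM V) ^ (q + 1)).trace := by
  have hκ := H.kpos
  have hs : 0 < T + κ := by linarith
  have hsq : 0 < √(T + κ) := Real.sqrt_pos.2 hs
  have hσ : 0 < 1 / (4 * a * √(T + κ)) := by positivity
  have h1 := Ph_bound H hq hσ hT
  have e1 : 1 / (4 * a * √(T + κ)) * √(T + κ) = 1 / (4 * a) := by
    field_simp
  have e2 : Ph V κ q (1 / (4 * a * √(T + κ))) T =
      fun y => FF q (1 / (4 * a)) (CM (pt V T y)) := by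
    funext y
    unfold Ph
    rw [e1]
  rw [e2, S6h_sqrt ha hs] at h1
  have e3 : 320 * (q : ℝ) ^ 2 * √(√(T + κ)) / (1 / (2 * (√a * √(√(T + κ))))) =
      640 * q ^ 2 * √(a * (T + κ)) := by
    rw [Real.sqrt_mul ha.le]
    have h5 : √(√(T + κ)) * √(√(T + κ)) = √(T + κ) := Real.mul_self_sqrt hsq.le
    rw [div_div_eq_mul_div, div_one]
    calc 320 * (q : ℝ) ^ 2 * √(√(T + κ)) * (2 * (√a * √(√(T + κ)))) =
        640 * (q : ℝ) ^ 2 * (√a * (√(√(T + κ)) * √(√(T + κ)))) := by ring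
      _ = _ := by rw [h5]
  rwa [e3] at h1

/-- 6.6: `q = 224`, `σ₀ = 1/(4√(1+κ))`, `PSD.trace_cube_le`. -/
theorem trace_cube (H : Nice κ M V) (hκ : κ ≤ 1) {t : ℝ} (ht : 0 < t) (ht1 : t ≤ 1) :
    GE V t (fun y => (CM (pt V t y) * CM (pt V t y) * CM (pt V t y)).trace) ≤
      (1 + 2 ^ 224 * Real.exp (1280 * 224 ^ 2)) *
        (Fintype.card ι + ((CM V) ^ (224 + 1)).trace) := by
  have hκ := H.kpos
  have hs : 0 < t + κ := by linarith
  have hs2 : t + κ ≤ 2 := by linarith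
  have h1κ : 0 < 1 + κ := by linarith
  have hσ : 0 < 1 / (4 * 1 * √(1 + κ)) := by positivity
  have hsq : 0 < √(t + κ) := Real.sqrt_pos.2 hs
  have hsq1 : 0 < √(1 + κ) := Real.sqrt_pos.2 h1κ
  have h1 := Ph_bound H (q := 224) le_rfl hσ ht.le
  set σ0 : ℝ := 1 / (4 * 1 * √(1 + κ)) with hσ0
  have hσt : 0 < σ0 * √(t + κ) := by positivity
  have hle1 : √(t + κ) ≤ √(1 + κ) := Real.sqrt_le_sqrt (by linarith)
  have hσ4 : σ0 * √(t + κ) ≤ 1 / 4 := by
    calc σ0 * √(t + κ) ≤ σ0 * √(1 + κ) := mul_le_mul_of_nonneg_left hle1 hσ.le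
      _ = 1 / 4 := by
        rw [hσ0]
        field_simp
  have hσsq : 4 * (σ0 * √(t + κ)) ^ 2 ≤ t + κ := by
    have e1 : (σ0 * √(t + κ)) ^ 2 = σ0 ^ 2 * (t + κ) := by
      rw [mul_pow, Real.sq_sqrt hs.le]
    have e2 : σ0 ≤ 1 / 4 := by
      rw [hσ0]
      refine one_div_le_one_div_of_le (by norm_num) ?_
      have : (1 : ℝ) ≤ √(1 + κ) := by
        rw [Real.one_le_sqrt]
        linarith
      linarith
    rw [e1]
    have e3 : σ0 ^ 2 ≤ 1 / 4 := by nlinarith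
    nlinarith
  have hpt : ∀ y, (CM (pt V t y) * CM (pt V t y) * CM (pt V t y)).trace ≤
      Fintype.card ι + 2 ^ 224 * Ph V κ 224 σ0 t y := by
    intro y
    exact (CM_pt_PSD H (by linarith) y).trace_cube_le (by norm_num) hσt hs (by linarith) hσsq
      (fun θ => CM_pt_le H (by linarith) y θ)
  have hPt := S6h_Ph_t0 H 224 hσ ht.le
  have h2 := GE_mono H (S6h_trace_t0 H (by linarith))
    ((T0.const (Fintype.card ι : ℝ)).add (hPt.cmul (2 ^ 224))) t hpt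
  rw [GE_add H (T0.const _) (hPt.cmul _), GE_const H, GE_cmul] at h2
  have htr : 0 ≤ ((CM V) ^ (224 + 1)).trace := by
    have h3 := GE_Ph_zero H 224 hσ
    have h4 : 0 ≤ GE V 0 (Ph V κ 224 σ0 0) :=
      GE_nonneg V 0 (fun y => Ph_nonneg H 224 hσ (by linarith) y)
    linarith
  have hexp : Real.exp (320 * ((224 : ℕ) : ℝ) ^ 2 * √(√(t + κ)) / √σ0) ≤
      Real.exp (1280 * 224 ^ 2) := by
    rw [Real.exp_le_exp, hσ0, S6h_sqrt one_pos h1κ, Real.sqrt_one, one_mul, div_div_eq_mul_div,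
      div_one]
    have b1 : ∀ x : ℝ, x ≤ 2 → √(√x) ≤ √2 := by
      intro x hx
      refine Real.sqrt_le_sqrt ?_
      refine Real.sqrt_le_iff.2 ⟨by norm_num, by linarith⟩
    have b2 := b1 (t + κ) hs2
    have b3 := b1 (1 + κ) (by linarith)
    have b4 : √(√(t + κ)) * √(√(1 + κ)) ≤ √2 * √2 :=
      mul_le_mul b2 b3 (Real.sqrt_nonneg _) (Real.sqrt_nonneg _)
    rw [Real.mul_self_sqrt (by norm_num)] at b4
    push_cast
    nlinarith
  have h5 : GE V t (Ph V κ 224 σ0 t) ≤ Real.exp (1280 * 224 ^ 2) * ((CM V) ^ (224 + 1)).trace :=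
    h1.trans (mul_le_mul_of_nonneg_right hexp htr)
  have hE := Real.exp_pos (1280 * 224 ^ 2)
  set E := Real.exp (1280 * 224 ^ 2)
  set S := ((CM V) ^ (224 + 1)).trace
  have hn : (0 : ℝ) ≤ Fintype.card ι := Nat.cast_nonneg _
  have h6 : (2 : ℝ) ^ 224 * GE V t (Ph V κ 224 σ0 t) ≤ 2 ^ 224 * (E * S) :=
    mul_le_mul_of_nonneg_left h5 (by positivity)
  refine h2.trans ?_
  have h7 : 0 ≤ (2 : ℝ) ^ 224 * E * Fintype.card ι :=
    mul_nonneg (mul_nonneg (pow_nonneg zero_le_two _) hE.le) hn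
  have h8 : (1 + 2 ^ 224 * E) * ((Fintype.card ι : ℝ) + S) =
      Fintype.card ι + 2 ^ 224 * (E * S) + S + 2 ^ 224 * E * Fintype.card ι := by ring
  rw [h8]
  linarith

end gen

section genK

variable {ι : Type} [Fintype ι] [DecidableEq ι]

variable {κ M K : ℝ} {V : (ι → ℝ) → ℝ}

/-- `∫ 16 q² K σ₀^{-1} τ^{-1/2} = 32 q² K σ₀^{-1} τ^{1/2}`. -/
theorem Ph_bound_K (hK : QKP K ι) (hK0 : 0 ≤ K) (H : Nice κ M V) {q : ℕ} (hq : 224 ≤ q) {σ0 : ℝ}
    (hσ : 0 < σ0) {T : ℝ} (hT : 0 ≤ T) :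
    GE V T (Ph V κ q σ0 T) ≤
      Real.exp (32 * q ^ 2 * K * √(T + κ) / σ0) * ((CM V) ^ (q + 1)).trace := by
  have hκ := H.kpos
  refine S6h_bound H q hσ hT (c := fun t => 16 * q ^ 2 * K / (σ0 * √(t + κ)))
    (C := fun t => 32 * q ^ 2 * K * √(t + κ) / σ0) ?_ ?_ (by positivity)
    (fun t ht y => Gn_Ph_le_K hK hK0 H hq hσ ht.1 y)
  · refine ContinuousOn.div_const (ContinuousOn.mul continuousOn_const ?_) _
    exact (Real.continuous_sqrt.comp (continuous_id.add continuous_const)).continuousOn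
  · intro t ht
    have hs : 0 < t + κ := by linarith [ht.1]
    have h1 : HasDerivAt (fun t => t + κ) 1 t := (hasDerivAt_id t).add_const κ
    have h2 : HasDerivAt (fun t => √(t + κ)) (1 / (2 * √(t + κ))) t := h1.sqrt hs.ne'
    have h4 := (h2.const_mul (32 * (q : ℝ) ^ 2 * K)).div_const σ0
    refine h4.congr_deriv ?_
    have h7 : 0 < √(t + κ) := Real.sqrt_pos.2 hs
    field_simp
    ring

theorem F_bound_K (hK : QKP K ι) (hK0 : 0 ≤ K) (H : Nice κ M V) {q : ℕ} (hq : 224 ≤ q) {a : ℝ}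
    (ha : 0 < a) {T : ℝ} (hT : 0 ≤ T) :
    GE V T (fun y => FF q (1 / (4 * a)) (CM (pt V T y))) ≤
      Real.exp (128 * q ^ 2 * K * (a * (T + κ))) * ((CM V) ^ (q + 1)).trace := by
  have hκ := H.kpos
  have hs : 0 < T + κ := by linarith
  have hsq : 0 < √(T + κ) := Real.sqrt_pos.2 hs
  have hσ : 0 < 1 / (4 * a * √(T + κ)) := by positivity
  have h1 := Ph_bound_K hK hK0 H hq hσ hT
  have e1 : 1 / (4 * a * √(T + κ)) * √(T + κ) = 1 / (4 * a) := by
    field_simp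
  have e2 : Ph V κ q (1 / (4 * a * √(T + κ))) T =
      fun y => FF q (1 / (4 * a)) (CM (pt V T y)) := by
    funext y
    unfold Ph
    rw [e1]
  rw [e2] at h1
  have e3 : 32 * (q : ℝ) ^ 2 * K * √(T + κ) / (1 / (4 * a * √(T + κ))) =
      128 * q ^ 2 * K * (a * (T + κ)) := by
    have h5 : √(T + κ) * √(T + κ) = T + κ := Real.mul_self_sqrt hs.le
    rw [div_div_eq_mul_div, div_one]
    calc 32 * (q : ℝ) ^ 2 * K * √(T + κ) * (4 * a * √(T + κ)) =
        128 * (q : ℝ) ^ 2 * K * (a * (√(T + κ) * √(T + κ))) := by ring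
      _ = _ := by rw [h5]
  rwa [e3] at h1

end genK

end Pool.Agent.Lib.MP_8d00da_gt.h42k
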