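import Pool.Agent.Lib.MP_8d00da_gt.h42k.S7a
import Pool.Agent.Lib.MP_8d00da_gt.h42k.S6h

/-!
# 7.1, 7.2: the H^{-1} bound
-/

namespace Pool.Agent.Lib.MP_8d00da_gt.h42k

open MeasureTheory Set Filter
open scoped Topology NNReal ENNReal ContDiff

set_option linter.unusedSectionVars false
set_option linter.unusedVariables false

/-- The constant of 7.1. -/
noncomputable def C7 : ℝ := 2 + 8 * (1 + 2 ^ 224 * Real.exp (1280 * 224 ^ 2))

theorem C7_pos : 0 < C7 := by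
  unfold C7
  positivity

private theorem S7b_hq_nonneg {ι : Type*} [Fintype ι] [DecidableEq ι] (f : (ι → ℝ) → ℝ)
    (x : ι → ℝ) : 0 ≤ hq f x := by
  unfold hq
  exact Finset.sum_nonneg fun i _ => Finset.sum_nonneg fun j _ => _root_.sq_nonneg _

private theorem S7b_trace_nonneg {ι : Type*} [Fintype ι] [DecidableEq ι] {κ M : ℝ}
    {V : (ι → ℝ) → ℝ} (H : Nice κ M V) (p : ℕ) : 0 ≤ ((CM V) ^ p).trace := by
  obtain ⟨e, lam, he⟩ := exists_EB (A := CM V) (CM_symm V)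
  rw [he.trace_pow p]
  exact Finset.sum_nonneg fun k _ => pow_nonneg (he.lam_nonneg H k) p

/-- Paper 323, 7.1: `g(0)² ≤ (|g(1)| + 2c)²`, `c² = C3 (n + Tr Γ^225) E|D²φ|²`
(`sqrt_mvt`, `AL.generator`, `AL.GE_continuousOn`, `gH_deriv_sq_le`, `trace_cube`). -/
theorem H1_bound {ι : Type*} [Fintype ι] [DecidableEq ι] {κ M : ℝ} {V : (ι → ℝ) → ℝ}
    (H : Nice κ M V) (hκ : κ ≤ 1) {δ : ι → ℝ} (hδ : ∀ i, |δ i| ≤ 1) :
    H1 V δ (C7 * (Fintype.card ι + ((CM V) ^ (224 + 1)).trace)) := by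
  intro φ hφ
  obtain ⟨C3, hC3⟩ : ∃ C3 : ℝ, C3 = 1 + 2 ^ 224 * Real.exp (1280 * 224 ^ 2) := ⟨_, rfl⟩
  obtain ⟨T, hT⟩ : ∃ T : ℝ, T = ((CM V) ^ (224 + 1)).trace := ⟨_, rfl⟩
  obtain ⟨E, hE⟩ : ∃ E : ℝ, E = ex V (hq φ) := ⟨_, rfl⟩
  obtain ⟨N, hN⟩ : ∃ N : ℝ, N = (Fintype.card ι : ℝ) + T := ⟨_, rfl⟩
  have hC3p : 0 ≤ C3 := by
    rw [hC3]
    positivity
  have hT0 : 0 ≤ T := by
    rw [hT]
    exact S7b_trace_nonneg H _
  have hE0 : 0 ≤ E := by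
    rw [hE]
    exact ex_nonneg V fun x => S7b_hq_nonneg φ x
  have hn0 : (0 : ℝ) ≤ (Fintype.card ι : ℝ) := Nat.cast_nonneg _
  have hN0 : 0 ≤ N := by
    rw [hN]
    linarith
  have hP0 : 0 ≤ E * (C3 * N) := mul_nonneg hE0 (mul_nonneg hC3p hN0)
  have hκ0 := H.kpos
  have hal := gH_AL V δ hφ
  -- the derivative
  have hd : ∀ t ∈ Set.Ioo (0 : ℝ) 1, HasDerivAt (fun t => GE V t (gH V δ φ t))
      (GE V t (Gn V t (gH V δ φ))) t := fun t ht => hal.generator H ht.1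
  have hc : ContinuousOn (fun t => GE V t (gH V δ φ t)) (Set.Icc 0 1) :=
    (hal.GE_continuousOn H).mono fun t ht => ht.1
  have hb : ∀ t ∈ Set.Ioo (0 : ℝ) 1, |GE V t (Gn V t (gH V δ φ))| ≤
      √(E * (C3 * N)) / √t := by
    intro t ht
    have ht0 := ht.1
    have h1 := gH_deriv_sq_le H hφ hδ ht0
    have h2 := trace_cube H hκ ht0 ht.2.le
    rw [← hC3, ← hT, ← hN] at h2
    rw [← hE] at h1
    have h3 : 1 / (t + κ) ≤ 1 / t := one_div_le_one_div_of_le ht0 (by linarith)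
    have h4 : (0 : ℝ) ≤ 1 / (t + κ) := by positivity
    have h5 : GE V t (Gn V t (gH V δ φ)) ^ 2 ≤ E * (C3 * N) / t := by
      calc GE V t (Gn V t (gH V δ φ)) ^ 2 ≤ (1 / (t + κ) * E) *
            GE V t (fun y => (CM (pt V t y) * CM (pt V t y) * CM (pt V t y)).trace) := h1
        _ ≤ (1 / (t + κ) * E) * (C3 * N) := mul_le_mul_of_nonneg_left h2 (mul_nonneg h4 hE0)
        _ ≤ (1 / t * E) * (C3 * N) :=
          mul_le_mul_of_nonneg_right (mul_le_mul_of_nonneg_right h3 hE0) (mul_nonneg hC3p hN0)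
        _ = E * (C3 * N) / t := by ring
    rw [← Real.sqrt_div hP0]
    exact Real.abs_le_sqrt h5
  have hmain := sqrt_mvt hc hd hb
  have h0 := gH_zero (δ := δ) H hφ
  have h1 := gH_one_sq_le H hφ hδ
  rw [← hE] at h1
  rw [← h0, ← hE, ← hT, ← hN]
  have hs : √(E * (C3 * N)) ^ 2 = E * (C3 * N) := Real.sq_sqrt hP0
  have hs0 : 0 ≤ √(E * (C3 * N)) := Real.sqrt_nonneg _
  have h2 : GE V 0 (gH V δ φ 0) ^ 2 ≤ 2 * GE V 1 (gH V δ φ 1) ^ 2 + 8 * (E * (C3 * N)) := by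
    have h3 : GE V 0 (gH V δ φ 0) ^ 2 ≤ (|GE V 1 (gH V δ φ 1)| + 2 * √(E * (C3 * N))) ^ 2 := by
      rw [← sq_abs (GE V 0 (gH V δ φ 0))]
      exact pow_le_pow_left₀ (abs_nonneg _) hmain 2
    have h4 : |GE V 1 (gH V δ φ 1)| ^ 2 = GE V 1 (gH V δ φ 1) ^ 2 := sq_abs _
    nlinarith [_root_.sq_nonneg (|GE V 1 (gH V δ φ 1)| - 2 * √(E * (C3 * N)))]
  have h3 : (Fintype.card ι : ℝ) * E ≤ N * E :=
    mul_le_mul_of_nonneg_right (by rw [hN]; linarith) hE0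
  have h4 : C7 * N * E = 2 * (N * E) + 8 * (E * (C3 * N)) := by
    rw [C7, ← hC3]
    ring
  rw [h4]
  linarith

end Pool.Agent.Lib.MP_8d00da_gt.h42k
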