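import Pool.Agent.Lib.MP_8d00da_gt.h42k.T1a

/-!
# Medians
-/

namespace Pool.Agent.Lib.MP_8d00da_gt.h42k

open MeasureTheory Set Filter
open scoped Topology NNReal ENNReal ContDiff

set_option linter.unusedSectionVars false

variable {ι : Type*} [Fintype ι] [DecidableEq ι]

variable {κ M : ℝ} {V f u : (ι → ℝ) → ℝ}

private theorem T10d0_pr (V : (ι → ℝ) → ℝ) {S : Set (ι → ℝ)} (hS : MeasurableSet S) :
    pr V S = (∫ x in S, Real.exp (-V x)) / ∫ x, Real.exp (-V x) := by
  unfold pr ex
  congr 1
  rw [← integral_indicator hS]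
  refine integral_congr_ae (Eventually.of_forall fun x => ?_)
  by_cases hx : x ∈ S
  · simp [hx]
  · simp [hx]

/-- Median: for example for the probability measure `ν` with density `exp(-V)/Z` and `ρ = ν.map f`
take `m = sInf {x | 1/2 ≤ cdf ρ x}`, or `m = sSup {m | pr V {x | f x < m} ≤ 1/2}` with continuity
from below and above (dominated convergence). -/
theorem exists_median (H : Nice κ M V) (hf : Continuous f) (hb : ∃ B, ∀ x, |f x| ≤ B) :
    ∃ m : ℝ, pr V {x | m < f x} ≤ 1 / 2 ∧ pr V {x | f x < m} ≤ 1 / 2 := by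
  obtain ⟨B, hB⟩ := hb
  have hZ := H.zpos
  have hint := H.intexp
  set Z := ∫ x, Real.exp (-V x) with hZdef
  have hle : ∀ t : ℝ, MeasurableSet {x | f x ≤ t} := fun t =>
    measurableSet_le hf.measurable measurable_const
  have hlt : ∀ t : ℝ, MeasurableSet {x | t < f x} := fun t =>
    measurableSet_lt measurable_const hf.measurable
  have hlt' : ∀ t : ℝ, MeasurableSet {x | f x < t} := fun t =>
    measurableSet_lt hf.measurable measurable_const
  set A : Set ℝ := {t | Z / 2 ≤ ∫ x in {x | f x ≤ t}, Real.exp (-V x)} with hA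
  have hmonoI : ∀ {S T : Set (ι → ℝ)}, S ⊆ T →
      ∫ x in S, Real.exp (-V x) ≤ ∫ x in T, Real.exp (-V x) := by
    intro S T hST
    exact setIntegral_mono_set hint.integrableOn
      (Eventually.of_forall fun x => (Real.exp_pos _).le) (Eventually.of_forall hST)
  have hBA : B ∈ A := by
    show Z / 2 ≤ ∫ x in {x | f x ≤ B}, Real.exp (-V x)
    have : {x | f x ≤ B} = univ := by
      ext x
      simp [(abs_le.1 (hB x)).2]
    rw [this, setIntegral_univ]
    linarith
  have hlow : ∀ t ∈ A, -B ≤ t := by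
    intro t ht
    by_contra hc
    have : {x | f x ≤ t} = ∅ := by
      ext x
      simp only [mem_ofPred_eq, mem_empty_iff_false, iff_false, not_le]
      have := (abs_le.1 (hB x)).1
      linarith
    have ht' : Z / 2 ≤ ∫ x in {x | f x ≤ t}, Real.exp (-V x) := ht
    rw [this, setIntegral_empty] at ht'
    linarith
  have hbdd : BddBelow A := ⟨-B, hlow⟩
  refine ⟨sInf A, ?_, ?_⟩
  · rw [T10d0_pr V (hlt _), div_le_iff₀ hZ]
    have hU : {x | sInf A < f x} = ⋃ n : ℕ, {x | sInf A + 1 / ((n : ℝ) + 1) < f x} := by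
      ext x
      simp only [mem_ofPred_eq, mem_iUnion]
      constructor
      · intro hx
        obtain ⟨n, hn⟩ := exists_nat_one_div_lt (sub_pos.2 hx)
        exact ⟨n, by linarith⟩
      · rintro ⟨n, hn⟩
        have : (0 : ℝ) < 1 / ((n : ℝ) + 1) := by positivity
        linarith
    have hmono : Monotone fun n : ℕ => {x | sInf A + 1 / ((n : ℝ) + 1) < f x} := by
      intro n m hnm x hx
      simp only [mem_ofPred_eq] at hx ⊢
      have : 1 / ((m : ℝ) + 1) ≤ 1 / ((n : ℝ) + 1) := by
        apply one_div_le_one_div_of_le (by positivity)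
        have : (n : ℝ) ≤ m := by exact_mod_cast hnm
        linarith
      linarith
    have hlim := tendsto_setIntegral_of_monotone (f := fun x => Real.exp (-V x))
      (μ := volume) (fun n => hlt _) hmono hint.integrableOn
    rw [← hU] at hlim
    refine le_of_tendsto' hlim fun n => ?_
    have hpos : (0 : ℝ) < 1 / ((n : ℝ) + 1) := by positivity
    obtain ⟨a, haA, ha⟩ := exists_lt_of_csInf_lt ⟨B, hBA⟩
      (show sInf A < sInf A + 1 / ((n : ℝ) + 1) by linarith)
    have h1 : Z / 2 ≤ ∫ x in {x | f x ≤ a}, Real.exp (-V x) := haA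
    have h2 := hmonoI (S := {x | f x ≤ a}) (T := {x | f x ≤ sInf A + 1 / ((n : ℝ) + 1)})
      (fun x hx => le_trans hx ha.le)
    have h3 := integral_add_compl (hle (sInf A + 1 / ((n : ℝ) + 1))) hint
    have h4 : {x | f x ≤ sInf A + 1 / ((n : ℝ) + 1)}ᶜ =
        {x | sInf A + 1 / ((n : ℝ) + 1) < f x} := by
      ext x
      simp
    rw [h4] at h3
    linarith
  · rw [T10d0_pr V (hlt' _), div_le_iff₀ hZ]
    have hU : {x | f x < sInf A} = ⋃ n : ℕ, {x | f x ≤ sInf A - 1 / ((n : ℝ) + 1)} := by
      ext x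
      simp only [mem_ofPred_eq, mem_iUnion]
      constructor
      · intro hx
        obtain ⟨n, hn⟩ := exists_nat_one_div_lt (sub_pos.2 hx)
        exact ⟨n, by linarith⟩
      · rintro ⟨n, hn⟩
        have : (0 : ℝ) < 1 / ((n : ℝ) + 1) := by positivity
        linarith
    have hmono : Monotone fun n : ℕ => {x | f x ≤ sInf A - 1 / ((n : ℝ) + 1)} := by
      intro n m hnm x hx
      simp only [mem_ofPred_eq] at hx ⊢
      have : 1 / ((m : ℝ) + 1) ≤ 1 / ((n : ℝ) + 1) := by
        apply one_div_le_one_div_of_le (by positivity)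
        have : (n : ℝ) ≤ m := by exact_mod_cast hnm
        linarith
      linarith
    have hlim := tendsto_setIntegral_of_monotone (f := fun x => Real.exp (-V x))
      (μ := volume) (fun n => hle _) hmono hint.integrableOn
    rw [← hU] at hlim
    refine le_of_tendsto' hlim fun n => ?_
    have hpos : (0 : ℝ) < 1 / ((n : ℝ) + 1) := by positivity
    have hnot : sInf A - 1 / ((n : ℝ) + 1) ∉ A := fun h => by
      have := csInf_le hbdd h
      linarith
    have h1 : ∫ x in {x | f x ≤ sInf A - 1 / ((n : ℝ) + 1)}, Real.exp (-V x) < Z / 2 := by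
      by_contra hc
      exact hnot (not_lt.1 hc)
    linarith

end Pool.Agent.Lib.MP_8d00da_gt.h42k
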