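import Pool.Agent.Lib.MP_8d00da_gt.h42k.T10a
import Pool.Agent.Lib.MP_8d00da_gt.h42k.T1a
import Pool.Agent.Lib.MP_8d00da_gt.h42k.T10d0

/-!
# Section 10.4: Maz'ya truncation
-/

namespace Pool.Agent.Lib.MP_8d00da_gt.h42k

open MeasureTheory Set Filter
open scoped Topology NNReal ENNReal ContDiff

set_option linter.unusedSectionVars false

variable {ι : Type*} [Fintype ι] [DecidableEq ι]

variable {κ M : ℝ} {V f u : (ι → ℝ) → ℝ}

/-- The capacity inequality with constant `C`. -/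
def Cap (V : (ι → ℝ) → ℝ) (C : ℝ) : Prop := ∀ u, Cu u → (∀ x, 0 ≤ u x ∧ u x ≤ 1) →
  pr V {x | u x ≠ 0} ≤ 1 / 2 → pr V {x | u x ≠ 0} ≤ 100 * pr V {x | u x = 1} →
  pr V {x | u x = 1} ≤ C * ex V (gs u)

/-- The truncation at the level `h`: `ψ(f/h - 1)`. -/
noncomputable def trc (f : (ι → ℝ) → ℝ) (h : ℝ) (x : ι → ℝ) : ℝ :=
  Real.smoothTransition (f x / h - 1)

theorem trc_cu (hf : Cu f) (h : ℝ) : Cu (trc f h) := by
  have hF : ContDiff ℝ ∞ (fun r : ℝ => Real.smoothTransition (r / h - 1)) :=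
    Real.smoothTransition.contDiff.comp ((contDiff_id.div_const h).sub contDiff_const)
  exact hf.comp hF

theorem trc_mem (f : (ι → ℝ) → ℝ) (h : ℝ) (x : ι → ℝ) : 0 ≤ trc f h x ∧ trc f h x ≤ 1 :=
  ⟨Real.smoothTransition.nonneg _, Real.smoothTransition.le_one _⟩

private theorem T10d_div {r h : ℝ} (h0 : 0 < h) : r / h - 1 ≤ 0 ↔ r ≤ h := by
  rw [sub_nonpos, div_le_one h0]

theorem trc_ne_zero (f : (ι → ℝ) → ℝ) {h : ℝ} (h0 : 0 < h) : {x | trc f h x ≠ 0} = {x | h < f x} := by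
  ext x
  simp only [Set.mem_ofPred_eq]
  constructor
  · intro h1
    by_contra h2
    exact h1 (Real.smoothTransition.zero_of_nonpos ((T10d_div h0).mpr (not_lt.mp h2)))
  · intro h1
    have h2 : 0 < f x / h - 1 := by
      by_contra h3
      exact absurd ((T10d_div h0).mp (not_lt.mp h3)) (not_le.mpr h1)
    exact (Real.smoothTransition.pos_of_pos h2).ne'

/-- `{f ≥ 2h} ⊆ {trc = 1}`. -/
theorem trc_one (f : (ι → ℝ) → ℝ) {h : ℝ} (h0 : 0 < h) : {x | 2 * h ≤ f x} ⊆ {x | trc f h x = 1} := by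
  intro x hx
  have hx' : 2 * h ≤ f x := hx
  have h1 : 1 ≤ f x / h - 1 := by
    rw [le_sub_iff_add_le, le_div_iff₀ h0]
    linarith
  exact Real.smoothTransition.one_of_one_le h1

/-- `gs_comp` and `st_deriv`. -/
theorem trc_gs {D : ℝ} (hD : ∀ r, deriv Real.smoothTransition r ^ 2 ≤ D)
    (hD0 : ∀ r, r ≤ 0 → deriv Real.smoothTransition r = 0)
    (hD1 : ∀ r, 1 ≤ r → deriv Real.smoothTransition r = 0)
    (hf : Cu f) {h : ℝ} (h0 : 0 < h) (x : ι → ℝ) :
    h ^ 2 * gs (trc f h) x ≤ ({x | h < f x ∧ f x < 2 * h}.indicator fun _ => D) x * gs f x := by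
  have hst : Differentiable ℝ Real.smoothTransition :=
    (Real.smoothTransition.contDiff (n := 1)).differentiable (by norm_num)
  have hF : Differentiable ℝ (fun r : ℝ => Real.smoothTransition (r / h - 1)) :=
    hst.comp ((differentiable_id.div_const h).sub_const 1)
  have hdf : Differentiable ℝ f := hf.smooth.differentiable (by norm_num)
  have h1 : gs (trc f h) x = deriv (fun r : ℝ => Real.smoothTransition (r / h - 1)) (f x) ^ 2 * gs f x :=
    gs_comp hdf hF x
  have h2 : deriv (fun r : ℝ => Real.smoothTransition (r / h - 1)) (f x) =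
      deriv Real.smoothTransition (f x / h - 1) * (1 / h) := by
    have h3 : HasDerivAt (fun r : ℝ => r / h - 1) (1 / h) (f x) :=
      ((hasDerivAt_id (f x)).div_const h).sub_const 1
    exact ((hst (f x / h - 1)).hasDerivAt.comp (f x) h3).deriv
  have h3 : h ^ 2 * gs (trc f h) x = deriv Real.smoothTransition (f x / h - 1) ^ 2 * gs f x := by
    rw [h1, h2]
    field_simp
  rw [h3]
  refine mul_le_mul_of_nonneg_right ?_ (gs_nonneg f x)
  by_cases hx : h < f x ∧ f x < 2 * h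
  · rw [Set.indicator_of_mem (show x ∈ {x | h < f x ∧ f x < 2 * h} from hx)]
    exact hD _
  · rw [Set.indicator_of_notMem (show x ∉ {x | h < f x ∧ f x < 2 * h} from hx)]
    have h4 : deriv Real.smoothTransition (f x / h - 1) = 0 := by
      by_cases h5 : h < f x
      · have h6 : 2 * h ≤ f x := by
          by_contra h7
          exact hx ⟨h5, not_le.mp h7⟩
        refine hD1 _ ?_
        rw [le_sub_iff_add_le, le_div_iff₀ h0]
        linarith
      · exact hD0 _ ((T10d_div h0).mpr (not_lt.mp h5))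
    rw [h4]
    norm_num

private theorem T10d_pt {α : Type*} {f : α → ℝ} {h : ℝ} (h0 : 0 < h) {x : α} (J : ℕ)
    (hJ : f x ≤ 2 ^ J * h) : max (f x) 0 ^ 2 ≤ h ^ 2 + ∑ j ∈ Finset.range J,
      (2 ^ (j + 1) * h) ^ 2 * ({x | 2 ^ j * h < f x}.indicator fun _ => (1 : ℝ)) x := by
  induction J with
  | zero =>
    rw [Finset.sum_range_zero, add_zero]
    rw [pow_zero, one_mul] at hJ
    exact pow_le_pow_left₀ (le_max_right _ _) (max_le hJ h0.le) 2
  | succ J ih =>
    rw [Finset.sum_range_succ]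
    have hn : ∀ j : ℕ, 0 ≤ (2 ^ (j + 1) * h) ^ 2 *
        ({x | 2 ^ j * h < f x}.indicator fun _ => (1 : ℝ)) x := fun j =>
      mul_nonneg (sq_nonneg _) (Set.indicator_nonneg (fun _ _ => zero_le_one) x)
    by_cases hx : 2 ^ J * h < f x
    · have h1 : max (f x) 0 ^ 2 ≤ (2 ^ (J + 1) * h) ^ 2 :=
        pow_le_pow_left₀ (le_max_right _ _) (max_le hJ (by positivity)) 2
      rw [Set.indicator_of_mem (show x ∈ {x | 2 ^ J * h < f x} from hx), mul_one]
      have h2 := Finset.sum_nonneg fun j (_ : j ∈ Finset.range J) => hn j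
      have h3 := sq_nonneg h
      linarith
    · have h1 := ih (not_lt.mp hx)
      have h2 := hn J
      linarith

private theorem T10d_max (hf : T0 f) : T0 (fun x => max (f x) 0 ^ 2) := by
  refine ⟨(hf.meas.max measurable_const).pow_const 2, (hf.pow 2).pg.mono fun x => ?_⟩
  rw [abs_pow, abs_pow]
  refine pow_le_pow_left₀ (abs_nonneg _) ?_ 2
  rw [abs_of_nonneg (le_max_right _ _)]
  exact max_le (le_abs_self _) (abs_nonneg _)

/-- The dyadic decomposition: `f ≤ 2^J h`. -/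
theorem dyadic_upper (H : Nice κ M V) (hf : T0 f) {h : ℝ} (h0 : 0 < h) {J : ℕ}
    (hJ : ∀ x, f x ≤ 2 ^ J * h) :
    ex V (fun x => max (f x) 0 ^ 2) ≤
      h ^ 2 + ∑ j ∈ Finset.range J, (2 ^ (j + 1) * h) ^ 2 * pr V {x | 2 ^ j * h < f x} := by
  have hm : ∀ j : ℕ, MeasurableSet {x | 2 ^ j * h < f x} := fun j =>
    measurableSet_lt measurable_const hf.meas
  have hT : ∀ j ∈ Finset.range J, T0 (fun x => (2 ^ (j + 1) * h) ^ 2 *
      ({x | 2 ^ j * h < f x}.indicator fun _ => (1 : ℝ)) x) := fun j _ => (t0_ind (hm j)).cmul _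
  have h1 := ex_mono H (T10d_max hf) ((T0.const (ι := ι) (h ^ 2)).add (T0.sum (Finset.range J) hT))
    fun x => T10d_pt h0 J (hJ x)
  refine h1.trans (le_of_eq ?_)
  rw [ex_add H (T0.const _) (T0.sum _ hT), ex_const H, ex_sum H _ hT]
  congr 1
  refine Finset.sum_congr rfl fun j _ => ?_
  rw [ex_cmul]
  rfl

/-- One step: good level (capacity inequality) or bad level (geometric decay). -/
theorem dyadic_step (H : Nice κ M V) {C : ℝ} (hC0 : 0 ≤ C) (hC : Cap V C) (hf : Cu f)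
    (hm : pr V {x | 0 < f x} ≤ 1 / 2) {h : ℝ} (h0 : 0 < h) :
    pr V {x | 2 * h < f x} ≤ 1 / 100 * pr V {x | h < f x} + C * ex V (gs (trc f h)) := by
  have hmf : Measurable f := hf.t1.t0.meas
  have hmt : Measurable (trc f h) := (trc_cu hf h).t1.t0.meas
  have m1 : MeasurableSet {x | trc f h x = 1} := measurableSet_eq_fun hmt measurable_const
  have m2 : MeasurableSet {x | h < f x} := measurableSet_lt measurable_const hmf
  have m3 : MeasurableSet {x | 0 < f x} := measurableSet_lt measurable_const hmf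
  have m4 : MeasurableSet {x | 2 * h < f x} := measurableSet_lt measurable_const hmf
  have h1 : pr V {x | 2 * h < f x} ≤ pr V {x | trc f h x = 1} :=
    pr_mono H m4 m1 fun x hx => trc_one f h0 (show 2 * h ≤ f x from le_of_lt hx)
  have h2 : pr V {x | h < f x} ≤ 1 / 2 :=
    (pr_mono H m2 m3 fun x hx => lt_trans h0 hx).trans hm
  have h3 : 0 ≤ ex V (gs (trc f h)) := ex_nonneg V (gs_nonneg _)
  have h4 : 0 ≤ C * ex V (gs (trc f h)) := mul_nonneg hC0 h3
  have h5 := pr_nonneg V {x | h < f x}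
  by_cases hc : pr V {x | h < f x} ≤ 100 * pr V {x | trc f h x = 1}
  · have h6 := hC (trc f h) (trc_cu hf h) (trc_mem f h) (by rw [trc_ne_zero f h0]; exact h2)
      (by rw [trc_ne_zero f h0]; exact hc)
    linarith
  · have h6 := not_le.mp hc
    linarith

/-- The sum over the levels (`trc_gs`: the sets `{2^j h < f < 2^{j+1} h}` are disjoint). -/
theorem dyadic_gs {D : ℝ} (hD00 : 0 ≤ D) (hD : ∀ r, deriv Real.smoothTransition r ^ 2 ≤ D)
    (hD0 : ∀ r, r ≤ 0 → deriv Real.smoothTransition r = 0)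
    (hD1 : ∀ r, 1 ≤ r → deriv Real.smoothTransition r = 0)
    (hf : Cu f) {h : ℝ} (h0 : 0 < h) (J : ℕ) (x : ι → ℝ) :
    ∑ j ∈ Finset.range J, (2 ^ j * h) ^ 2 * gs (trc f (2 ^ j * h)) x ≤ D * gs f x := by
  have key : ∀ J : ℕ, (2 ^ J * h ≤ f x → ∑ j ∈ Finset.range J,
      ({x | 2 ^ j * h < f x ∧ f x < 2 * (2 ^ j * h)}.indicator fun _ => D) x = 0) ∧
      ∑ j ∈ Finset.range J,
      ({x | 2 ^ j * h < f x ∧ f x < 2 * (2 ^ j * h)}.indicator fun _ => D) x ≤ D := by
    intro J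
    induction J with
    | zero => exact ⟨fun _ => Finset.sum_range_zero _, by rw [Finset.sum_range_zero]; exact hD00⟩
    | succ J ih =>
      rw [Finset.sum_range_succ]
      have hp : (2 : ℝ) ^ (J + 1) * h = 2 * (2 ^ J * h) := by ring
      have hp0 : (0 : ℝ) < 2 ^ J * h := by positivity
      constructor
      · intro h1
        rw [hp] at h1
        rw [ih.1 (by linarith), Set.indicator_of_notMem, add_zero]
        intro h2
        have h3 : f x < 2 * (2 ^ J * h) := h2.2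
        linarith
      · by_cases h1 : 2 ^ J * h < f x ∧ f x < 2 * (2 ^ J * h)
        · rw [ih.1 h1.1.le, Set.indicator_of_mem
            (show x ∈ {x | 2 ^ J * h < f x ∧ f x < 2 * (2 ^ J * h)} from h1), zero_add]
        · rw [Set.indicator_of_notMem
            (show x ∉ {x | 2 ^ J * h < f x ∧ f x < 2 * (2 ^ J * h)} from h1), add_zero]
          exact ih.2
  calc ∑ j ∈ Finset.range J, (2 ^ j * h) ^ 2 * gs (trc f (2 ^ j * h)) x
      ≤ ∑ j ∈ Finset.range J,
        ({x | 2 ^ j * h < f x ∧ f x < 2 * (2 ^ j * h)}.indicator fun _ => D) x * gs f x :=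
        Finset.sum_le_sum fun j _ => trc_gs hD hD0 hD1 hf (by positivity) x
    _ = (∑ j ∈ Finset.range J,
        ({x | 2 ^ j * h < f x ∧ f x < 2 * (2 ^ j * h)}.indicator fun _ => D) x) * gs f x := by
        rw [Finset.sum_mul]
    _ ≤ D * gs f x := mul_le_mul_of_nonneg_right (key J).2 (gs_nonneg f x)

/-- `E f₊² ≤ 18 C D E|∇f|²` if `ν(f > 0) ≤ 1/2`. -/
theorem maz_pos (H : Nice κ M V) {D : ℝ} (hD00 : 0 ≤ D)
    (hD : ∀ r, deriv Real.smoothTransition r ^ 2 ≤ D)
    (hD0 : ∀ r, r ≤ 0 → deriv Real.smoothTransition r = 0)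
    (hD1 : ∀ r, 1 ≤ r → deriv Real.smoothTransition r = 0) {C : ℝ} (hC0 : 0 ≤ C) (hC : Cap V C)
    (hf : Cu f) (hm : pr V {x | 0 < f x} ≤ 1 / 2) :
    ex V (fun x => max (f x) 0 ^ 2) ≤ 18 * C * D * ex V (gs f) := by
  obtain ⟨B, hB0, hB⟩ := hf.bdd
  have hf0 : T0 f := hf.t1.t0
  have hmf : Measurable f := hf0.meas
  set E : ℝ := ex V (gs f) with hE
  have hE0 : 0 ≤ E := ex_nonneg V (gs_nonneg f)
  have main : ∀ h : ℝ, 0 < h → ex V (fun x => max (f x) 0 ^ 2) ≤ 6 * h ^ 2 + 18 * C * D * E := by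
    intro h h0
    obtain ⟨J, hJ⟩ := pow_unbounded_of_one_lt (B / h) (one_lt_two : (1 : ℝ) < 2)
    have hJ' : ∀ x, f x ≤ 2 ^ J * h := fun x => by
      have h1 := (le_abs_self (f x)).trans (hB x)
      rw [div_lt_iff₀ h0] at hJ
      linarith
    have hup := dyadic_upper H hf0 h0 hJ'
    set A : ℕ → ℝ := fun j => pr V {x | 2 ^ j * h < f x} with hA
    set G : ℕ → ℝ := fun j => ex V (gs (trc f (2 ^ j * h))) with hG
    set S : ℝ := ∑ j ∈ Finset.range J, (2 ^ (j + 1) * h) ^ 2 * A j with hS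
    have hA0 : ∀ j, 0 ≤ A j := fun j => pr_nonneg V _
    have hA1 : A 0 ≤ 1 := pr_le_one H (measurableSet_lt measurable_const hmf)
    have hstep : ∀ j, A (j + 1) ≤ 1 / 100 * A j + C * G j := by
      intro j
      have h1 := dyadic_step H hC0 hC hf hm (h := 2 ^ j * h) (by positivity)
      have h2 : 2 * (2 ^ j * h) = 2 ^ (j + 1) * h := by ring
      rw [h2] at h1
      exact h1
    have hGs : ∑ j ∈ Finset.range J, (2 ^ j * h) ^ 2 * G j ≤ D * E := by
      have hT : ∀ j ∈ Finset.range J, T0 (fun x => (2 ^ j * h) ^ 2 * gs (trc f (2 ^ j * h)) x) :=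
        fun j _ => ((trc_cu hf _).t1.gst0).cmul _
      have h1 := ex_mono H (T0.sum (Finset.range J) hT) ((hf.t1.gst0).cmul D)
        fun x => dyadic_gs hD00 hD hD0 hD1 hf h0 J x
      rw [ex_sum H _ hT, ex_cmul] at h1
      refine le_trans (le_of_eq (Finset.sum_congr rfl fun j _ => ?_)) h1
      exact (ex_cmul _ _ _).symm
    have hSS : S ≤ 4 * h ^ 2 + 1 / 25 * S + 16 * C * (D * E) := by
      have h1 : S ≤ ∑ j ∈ Finset.range (J + 1), (2 ^ (j + 1) * h) ^ 2 * A j := by
        rw [Finset.sum_range_succ]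
        have h2 : 0 ≤ (2 ^ (J + 1) * h) ^ 2 * A J := mul_nonneg (sq_nonneg _) (hA0 J)
        linarith
      rw [Finset.sum_range_succ'] at h1
      have h3 : ∑ j ∈ Finset.range J, (2 ^ (j + 1 + 1) * h) ^ 2 * A (j + 1) ≤
          1 / 25 * S + 16 * C * ∑ j ∈ Finset.range J, (2 ^ j * h) ^ 2 * G j := by
        rw [hS, Finset.mul_sum, Finset.mul_sum, ← Finset.sum_add_distrib]
        refine Finset.sum_le_sum fun j _ => ?_
        have h4 := mul_le_mul_of_nonneg_left (hstep j) (sq_nonneg (2 ^ (j + 1 + 1) * h))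
        refine h4.trans (le_of_eq ?_)
        ring
      have h5 : 16 * C * ∑ j ∈ Finset.range J, (2 ^ j * h) ^ 2 * G j ≤ 16 * C * (D * E) :=
        mul_le_mul_of_nonneg_left hGs (by positivity)
      have h6 : (2 ^ (0 + 1) * h) ^ 2 * A 0 ≤ 4 * h ^ 2 := by
        have h7 : (2 ^ (0 + 1) * h) ^ 2 = 4 * h ^ 2 := by ring
        rw [h7]
        have h8 : 0 ≤ 4 * h ^ 2 := by positivity
        nlinarith
      linarith
    have hCDE : 0 ≤ C * (D * E) := mul_nonneg hC0 (mul_nonneg hD00 hE0)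
    have hh := sq_nonneg h
    calc ex V (fun x => max (f x) 0 ^ 2) ≤ h ^ 2 + S := hup
      _ ≤ 6 * h ^ 2 + 18 * (C * (D * E)) := by linarith
      _ = 6 * h ^ 2 + 18 * C * D * E := by ring
  refine le_of_forall_pos_le_add fun ε hε => ?_
  have h1 := main (√(ε / 6)) (Real.sqrt_pos.mpr (by positivity))
  rw [Real.sq_sqrt (by positivity)] at h1
  linarith

/-- Poincare for test functions from the capacity inequality; `C₁` is universal
(`C₁ = 36 D`: `var f ≤ E (f-m)² = E (f-m)₊² + E (m-f)₊²`). -/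
theorem pi_of_cap : ∃ C₁ : ℝ, 0 < C₁ ∧ ∀ (ι : Type) [Fintype ι] [DecidableEq ι] (κ M : ℝ)
    (V : (ι → ℝ) → ℝ), Nice κ M V → ∀ C : ℝ, 0 ≤ C → Cap V C → ∀ f, Cc f →
      var V f ≤ C₁ * C * ex V (gs f) := by
  obtain ⟨D, hDp, hD, hD0, hD1⟩ := st_deriv
  refine ⟨36 * D, by positivity, ?_⟩
  intro ι _ _ κ M V H C hC0 hC f hf
  have hfu : Cu f := hf.cu
  obtain ⟨B, _, hB⟩ := hfu.bdd
  obtain ⟨m, hm1, hm2⟩ := exists_median H hf.smooth.continuous ⟨B, hB⟩
  have hu1 : Cu (fun x => f x - m) := hfu.comp (F := fun r => r - m) (by fun_prop)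
  have hu2 : Cu (fun x => m - f x) := hfu.comp (F := fun r => m - r) (by fun_prop)
  have hdf : Differentiable ℝ f := hf.smooth.differentiable (by norm_num)
  have g1 : gs (fun x => f x - m) = gs f := funext fun x => gs_subc f m x
  have g2 : gs (fun x => m - f x) = gs f := by
    funext x
    have h1 := gs_comp hdf (F := fun r : ℝ => m - r) (by fun_prop) x
    have h2 : deriv (fun r : ℝ => m - r) (f x) = -1 := by
      have h3 : HasDerivAt (fun r : ℝ => m - r) (-1) (f x) := by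
        simpa using (hasDerivAt_id (f x)).const_sub m
      exact h3.deriv
    rw [h2] at h1
    rw [h1]
    norm_num
  have s1 : {x | 0 < f x - m} = {x | m < f x} := by
    ext x
    exact (sub_pos : 0 < f x - m ↔ m < f x)
  have s2 : {x | 0 < m - f x} = {x | f x < m} := by
    ext x
    exact (sub_pos : 0 < m - f x ↔ f x < m)
  have e1 := maz_pos H hDp.le hD hD0 hD1 hC0 hC hu1 (by rw [s1]; exact hm1)
  have e2 := maz_pos H hDp.le hD hD0 hD1 hC0 hC hu2 (by rw [s2]; exact hm2)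
  rw [g1] at e1
  rw [g2] at e2
  have hv := var_le H hfu.t1.t0 m
  have hs : (fun x => (f x - m) ^ 2) = fun x => max (f x - m) 0 ^ 2 + max (m - f x) 0 ^ 2 := by
    funext x
    rcases le_total (f x) m with h | h
    · rw [max_eq_right (by linarith : f x - m ≤ 0), max_eq_left (by linarith : 0 ≤ m - f x)]
      ring
    · rw [max_eq_left (by linarith : 0 ≤ f x - m), max_eq_right (by linarith : m - f x ≤ 0)]
      ring
  rw [hs, ex_add H (T10d_max hu1.t1.t0) (T10d_max hu2.t1.t0)] at hv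
  calc var V f ≤ _ := hv
    _ ≤ 18 * C * D * ex V (gs f) + 18 * C * D * ex V (gs f) := add_le_add e1 e2
    _ = 36 * D * C * ex V (gs f) := by ring

end Pool.Agent.Lib.MP_8d00da_gt.h42k
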