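import Pool.Agent.Lib.MP_8d00da_gt.h42k.S6Defs
import Pool.Agent.Lib.MP_8d00da_gt.h42k.KDefs2

/-!
# The time `T_m` (paper 325, 10.1)
-/

namespace Pool.Agent.Lib.MP_8d00da_gt.h42k

open MeasureTheory Set Filter
open scoped Topology NNReal ENNReal ContDiff

set_option linter.unusedSectionVars false

/-- The covariance control under the quadratic KLS inequality (paper 323, 6.5, second version, with
`a = 1`), with constants `C`, `q₀`. -/
def OPK (C : ℝ) (q₀ : ℕ) : Prop := ∀ (ι : Type) [Fintype ι] [DecidableEq ι] (κ M K : ℝ)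
  (V : (ι → ℝ) → ℝ), Nice κ M V → 1 ≤ K → QKP K ι → CLe V 1 → ∀ q : ℕ, q₀ ≤ q → ∀ T : ℝ, 0 ≤ T →
    GE V T (beta V 1 T) ≤ Fintype.card ι * (7 / 12) ^ q * Real.exp (C * q ^ 2 * K * (T + κ))

/-- The improved Poincare constant under the quadratic KLS inequality (paper 329), with the
constant `C₅`. -/
def PIK (C₅ : ℝ) : Prop := ∀ (ι : Type) [Fintype ι] [DecidableEq ι] (κ M K : ℝ)
  (V : (ι → ℝ) → ℝ), Nice κ M V → 1 ≤ K → QKP K ι → CLe V 3 →
    PI V (C₅ * (1 + (K / κ) ^ (1 / 3 : ℝ)))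

/-- The time `T_m`. -/
noncomputable def Ttm (c K : ℝ) (n : ℕ) (m : ℝ) : ℝ := c / (K * Real.log ((n + 16) / m))

private theorem T10f0_log16 (n : ℕ) : (2.7725887 : ℝ) ≤ Real.log ((n : ℝ) + 16) := by
  have h0 : (0 : ℝ) ≤ n := Nat.cast_nonneg n
  have h1 : Real.log 16 ≤ Real.log ((n : ℝ) + 16) := Real.log_le_log (by norm_num) (by linarith)
  have h2 : Real.log 16 = 4 * Real.log 2 := by
    rw [show (16 : ℝ) = 2 ^ (4 : ℕ) by norm_num, Real.log_pow]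
    norm_num
  have h3 := Real.log_two_gt_d9
  linarith

private theorem T10f0_712 : (7 / 12 : ℝ) ≤ Real.exp (-(1 / 2)) := by
  have h1 : Real.exp (1 / 2) ^ 2 = Real.exp 1 := by
    rw [← Real.exp_nat_mul]
    norm_num
  have h2 := Real.exp_one_lt_d9
  have h3 : Real.exp (1 / 2) ≤ 12 / 7 := by
    have h4 := Real.exp_pos (1 / 2)
    nlinarith
  rw [Real.exp_neg, le_inv_comm₀ (by norm_num) (Real.exp_pos _)]
  exact h3.trans (by norm_num)

/-- Paper 325, 10.1: `q = ⌈C₀ log ((n+16)/m)⌉`. -/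
theorem beta_small {C : ℝ} (hC : 0 < C) {q₀ : ℕ} (h : OPK C q₀) : ∃ c : ℝ, 0 < c ∧ c ≤ 1 ∧
    ∀ (ι : Type) [Fintype ι] [DecidableEq ι] (κ M K : ℝ) (V : (ι → ℝ) → ℝ), Nice κ M V →
      1 ≤ K → QKP K ι → CLe V 1 → ∀ m : ℝ, 0 < m → m ≤ 1 → ∀ c' : ℝ, 0 < c' → c' ≤ c →
        κ ≤ Ttm c' K (Fintype.card ι) m → ∀ t ∈ Icc 0 (Ttm c' K (Fintype.card ι) m),
          GE V t (beta V 1 t) ≤ (m / (Fintype.card ι + 16)) ^ 16 := by
  obtain ⟨C₀, hC₀⟩ : ∃ C₀ : ℝ, C₀ = 40 + q₀ := ⟨_, rfl⟩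
  have hq₀ : (0 : ℝ) ≤ q₀ := Nat.cast_nonneg _
  have hC₀40 : 40 ≤ C₀ := by rw [hC₀]; linarith
  refine ⟨min 1 (1 / (C * (C₀ + 1) ^ 2)), lt_min one_pos (by positivity), min_le_left _ _, ?_⟩
  intro ι _ _ κ M K V hV hK hQ hcl m hm hm1 c' hc' hcc hκ t ht
  obtain ⟨n, hn⟩ : ∃ n : ℕ, n = Fintype.card ι := ⟨_, rfl⟩
  rw [← hn] at hκ ht ⊢
  obtain ⟨L, hL⟩ : ∃ L : ℝ, L = Real.log (((n : ℝ) + 16) / m) := ⟨_, rfl⟩
  have hn0 : (0 : ℝ) ≤ n := Nat.cast_nonneg n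
  have hn16 : (0 : ℝ) < (n : ℝ) + 16 := by linarith
  have hL1 : Real.log ((n : ℝ) + 16) ≤ L := by
    rw [hL, Real.log_div hn16.ne' hm.ne']
    have := Real.log_nonpos hm.le hm1
    linarith
  have hL2 : 1 ≤ L := by
    have := T10f0_log16 n
    linarith
  have hL0 : 0 < L := by linarith
  have hκ0 : 0 ≤ κ := hV.kpos.le
  have hK0 : 0 < K := by linarith
  have hTm : Ttm c' K n m = c' / (K * L) := by rw [hL]; rfl
  rw [hTm] at hκ ht
  obtain ⟨q, hq⟩ : ∃ q : ℕ, q = ⌈C₀ * L⌉₊ := ⟨_, rfl⟩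
  have hq1 : C₀ * L ≤ q := by rw [hq]; exact Nat.le_ceil _
  have hq2 : (q : ℝ) ≤ (C₀ + 1) * L := by
    have := (Nat.ceil_lt_add_one (show 0 ≤ C₀ * L by positivity)).le
    rw [← hq] at this
    nlinarith
  have hqq : q₀ ≤ q := by
    have h1 : (q₀ : ℝ) ≤ q := by
      have : C₀ * 1 ≤ C₀ * L := mul_le_mul_of_nonneg_left hL2 (by linarith)
      linarith
    exact_mod_cast h1
  have hmain := h ι κ M K V hV hK hQ hcl q hqq t ht.1
  rw [← hn] at hmain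
  refine hmain.trans ?_
  have hcc2 : c' * (C * (C₀ + 1) ^ 2) ≤ 1 := by
    have h1 : c' ≤ 1 / (C * (C₀ + 1) ^ 2) := hcc.trans (min_le_right _ _)
    rwa [le_div_iff₀ (by positivity)] at h1
  have hexp : C * (q : ℝ) ^ 2 * K * (t + κ) ≤ 2 * L := by
    have h1 : t + κ ≤ 2 * (c' / (K * L)) := by linarith [ht.2]
    have h2 : (q : ℝ) ^ 2 ≤ ((C₀ + 1) * L) ^ 2 := pow_le_pow_left₀ (Nat.cast_nonneg _) hq2 2
    have h3 : 0 ≤ t + κ := by linarith [ht.1]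
    calc C * (q : ℝ) ^ 2 * K * (t + κ)
        ≤ C * ((C₀ + 1) * L) ^ 2 * K * (2 * (c' / (K * L))) := by gcongr
      _ = 2 * L * (c' * (C * (C₀ + 1) ^ 2)) := by
          field_simp
      _ ≤ 2 * L * 1 := mul_le_mul_of_nonneg_left hcc2 (by positivity)
      _ = 2 * L := by ring
  have hn1 : (n : ℝ) ≤ Real.exp L := by
    have h1 : (n : ℝ) + 16 ≤ Real.exp L := by
      rw [← Real.log_le_iff_le_exp hn16]
      exact hL1
    linarith
  have h7 : (7 / 12 : ℝ) ^ q ≤ Real.exp (-(20 * L)) := by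
    calc (7 / 12 : ℝ) ^ q ≤ Real.exp (-(1 / 2)) ^ q :=
          pow_le_pow_left₀ (by norm_num) T10f0_712 q
      _ = Real.exp (-((q : ℝ) / 2)) := by
          rw [← Real.exp_nat_mul]
          congr 1
          ring
      _ ≤ Real.exp (-(20 * L)) := by
          rw [Real.exp_le_exp]
          nlinarith
  have hfin : (m / ((n : ℝ) + 16)) ^ 16 = Real.exp (-(16 * L)) := by
    have h1 : m / ((n : ℝ) + 16) = Real.exp (-L) := by
      rw [hL, Real.exp_neg, Real.exp_log (by positivity), inv_div]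
    rw [h1, ← Real.exp_nat_mul]
    congr 1
    push_cast
    ring
  rw [hfin]
  calc (n : ℝ) * (7 / 12) ^ q * Real.exp (C * (q : ℝ) ^ 2 * K * (t + κ))
      ≤ Real.exp L * Real.exp (-(20 * L)) * Real.exp (2 * L) := by
        gcongr
    _ = Real.exp (-(17 * L)) := by
        rw [← Real.exp_add, ← Real.exp_add]
        congr 1
        ring
    _ ≤ Real.exp (-(16 * L)) := by
        rw [Real.exp_le_exp]
        linarith

/-- `1 ≤ loglog (n+16)` and `(loglog (n+16))³ ≤ C log (n+16)`. -/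
theorem lln_facts : ∃ C : ℝ, 0 < C ∧ ∀ n : ℕ, 1 ≤ lln n ∧ lln n ^ 3 ≤ C * ln n ∧ 1 ≤ ln n := by
  refine ⟨27, by norm_num, fun n => ?_⟩
  have h1 := T10f0_log16 n
  have h4 := Real.exp_one_lt_d9
  have h5 : Real.exp 1 ≤ Real.log ((n : ℝ) + 16) := by linarith
  have h6 : 0 < Real.log ((n : ℝ) + 16) := by linarith
  have h7 : 1 ≤ lln n := by
    unfold lln
    rw [Real.le_log_iff_exp_le h6]
    exact h5
  refine ⟨h7, ?_, ?_⟩
  · have h8 : lln n ≤ 3 * ln n ^ (1 / 3 : ℝ) := by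
      unfold lln ln
      have := Real.log_le_rpow_div h6.le (show (0 : ℝ) < 1 / 3 by norm_num)
      linarith
    have h9 : (ln n ^ (1 / 3 : ℝ)) ^ 3 = ln n := by
      have h10 : 0 ≤ ln n := h6.le
      rw [← Real.rpow_natCast, ← Real.rpow_mul h10]
      norm_num
    calc lln n ^ 3 ≤ (3 * ln n ^ (1 / 3 : ℝ)) ^ 3 := pow_le_pow_left₀ (by linarith) h8 3
      _ = 27 * (ln n ^ (1 / 3 : ℝ)) ^ 3 := by ring
      _ = 27 * ln n := by rw [h9]
  · unfold ln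
    linarith

end Pool.Agent.Lib.MP_8d00da_gt.h42k
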