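import Pool.Agent.Lib.MP_8d00da_gt.h42k.T10e
import Pool.Agent.Lib.MP_8d00da_gt.h42k.T10f1

/-!
# Theorem P (paper 325, section 10)
-/

namespace Pool.Agent.Lib.MP_8d00da_gt.h42k

open MeasureTheory Set Filter
open scoped Topology NNReal ENNReal ContDiff

set_option linter.unusedSectionVars false

private theorem T10f_ln_ge (n : ℕ) : 2.77 ≤ ln n := by
  have h2 := Real.log_two_gt_d9
  have h16 : Real.log 16 = 4 * Real.log 2 := by
    rw [show (16 : ℝ) = 2 ^ 4 by norm_num, Real.log_pow]; norm_num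
  have h : Real.log 16 ≤ ln n := by
    unfold ln
    apply Real.log_le_log (by norm_num)
    have : (0 : ℝ) ≤ n := Nat.cast_nonneg n
    linarith
  linarith

private theorem T10f_lln_ge (n : ℕ) : 1 ≤ lln n := by
  have h := T10f_ln_ge n
  have he := Real.exp_one_lt_d9
  have : Real.exp 1 ≤ ln n := by linarith
  have hpos : 0 < ln n := by linarith
  have h3 : Real.log (ln n) = lln n := rfl
  rw [← h3]
  exact (Real.le_log_iff_exp_le hpos).2 this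

private theorem T10f_lln_le (n : ℕ) : lln n ^ 3 ≤ 27 * ln n := by
  have h := T10f_ln_ge n
  have hpos : 0 < ln n := by linarith
  have h3 : Real.log (ln n) = lln n := rfl
  have h1 : lln n ≤ ln n ^ (1 / 3 : ℝ) / (1 / 3) := by
    rw [← h3]
    exact Real.log_le_rpow_div hpos.le (by norm_num)
  have h0 : 0 ≤ lln n := le_trans zero_le_one (T10f_lln_ge n)
  have h4 : (ln n ^ (1 / 3 : ℝ)) ^ 3 = ln n := by
    rw [← Real.rpow_natCast, ← Real.rpow_mul hpos.le]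
    norm_num
  calc lln n ^ 3 ≤ (ln n ^ (1 / 3 : ℝ) / (1 / 3)) ^ 3 := by gcongr
    _ = 27 * (ln n ^ (1 / 3 : ℝ)) ^ 3 := by ring
    _ = 27 * ln n := by rw [h4]

private theorem T10f_const {a C₁ C₂ : ℝ} (ha : 0 ≤ a) (n : ℕ) :
    C₁ * (C₂ * ((a * lln n ^ 3) ^ 2 * ln n) ^ (1 / 3 : ℝ)) =
      C₁ * C₂ * a ^ (2 / 3 : ℝ) * ln n ^ (1 / 3 : ℝ) * lln n ^ 2 := by
  have h0 : 0 ≤ lln n := le_trans zero_le_one (T10f_lln_ge n)
  have hpos : 0 ≤ ln n := by have := T10f_ln_ge n; linarith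
  have h1 : (lln n ^ 6) ^ (1 / 3 : ℝ) = lln n ^ 2 := by
    rw [← Real.rpow_natCast, ← Real.rpow_mul h0, ← Real.rpow_natCast]
    norm_num
  have h3 : (a ^ 2) ^ (1 / 3 : ℝ) = a ^ (2 / 3 : ℝ) := by
    rw [← Real.rpow_natCast, ← Real.rpow_mul ha]
    norm_num
  have h2 : ((a * lln n ^ 3) ^ 2 * ln n) ^ (1 / 3 : ℝ) =
      a ^ (2 / 3 : ℝ) * lln n ^ 2 * ln n ^ (1 / 3 : ℝ) := by
    have h4 : (a * lln n ^ 3) ^ 2 = a ^ 2 * lln n ^ 6 := by ring
    rw [h4, Real.mul_rpow (by positivity) hpos, Real.mul_rpow (by positivity) (by positivity),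
      h1, h3]
  rw [h2]
  ring

/-- Theorem P. -/
theorem thmP {C : ℝ} (hC : 0 < C) {q₀ : ℕ} (h : OPK C q₀) {C₅ : ℝ} (hC₅ : 0 < C₅)
    (h5 : PIK C₅) {C₀ : ℝ}
    (hQK : ∀ (ι : Type) [Fintype ι] [DecidableEq ι], QKP (C₀ * lln (Fintype.card ι) ^ 3) ι) :
    ∃ C₄ : ℝ, 0 < C₄ ∧ ∀ (ι : Type) [Fintype ι] [DecidableEq ι] (κ M : ℝ) (V : (ι → ℝ) → ℝ),
      Nice κ M V → CLe V 1 →
        PI V (C₄ * ln (Fintype.card ι) ^ (1 / 3 : ℝ) * lln (Fintype.card ι) ^ 2) := by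
  have ha1 : 1 ≤ max C₀ 1 := le_max_right _ _
  have ha0 : 0 < max C₀ 1 := by linarith
  obtain ⟨C₂, hC₂, hcap⟩ := cap_of hC h hC₅ h5 (27 * max C₀ 1) (by positivity)
  obtain ⟨C₁, hC₁, hpi⟩ := pi_of_cap
  refine ⟨C₁ * C₂ * max C₀ 1 ^ (2 / 3 : ℝ), by positivity, ?_⟩
  intro ι _ _ κ M V H hV
  have hl1 := T10f_lln_ge (Fintype.card ι)
  have hln := T10f_ln_ge (Fintype.card ι)
  have hln0 : 0 ≤ ln (Fintype.card ι) := by linarith
  have hl3 : 1 ≤ lln (Fintype.card ι) ^ 3 := one_le_pow₀ hl1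
  have hQ : QKP (max C₀ 1 * lln (Fintype.card ι) ^ 3) ι := by
    intro κ' M' V' H' hV' t
    refine (hQK ι κ' M' V' H' hV' t).trans ?_
    apply mul_le_mul_of_nonneg_right
    · apply mul_le_mul_of_nonneg_right (le_max_left _ _)
      linarith
    · exact Finset.sum_nonneg fun i _ => sq_nonneg _
  have hK1 : 1 ≤ max C₀ 1 * lln (Fintype.card ι) ^ 3 := by nlinarith
  have hK2 : max C₀ 1 * lln (Fintype.card ι) ^ 3 ≤ 27 * max C₀ 1 * ln (Fintype.card ι) := by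
    have := T10f_lln_le (Fintype.card ι)
    nlinarith
  have hc := hcap ι κ M _ V H hK1 hK2 hQ hV
  have hnn : 0 ≤ C₂ *
      ((max C₀ 1 * lln (Fintype.card ι) ^ 3) ^ 2 * ln (Fintype.card ι)) ^ (1 / 3 : ℝ) := by
    positivity
  have hfin := hpi ι κ M V H _ hnn hc
  rw [T10f_const ha0.le] at hfin
  refine PI_of_cc H ?_ hfin
  positivity

end Pool.Agent.Lib.MP_8d00da_gt.h42k
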