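import Pool.Agent.Lib.MP_8d00da_gt.h42k.S9d
import Pool.Agent.Lib.MP_8d00da_gt.h42k.S7b
import Pool.Agent.Lib.MP_8d00da_gt.h42k.S6i
import Pool.Agent.Lib.MP_8d00da_gt.h42k.T10f
import Pool.Agent.Lib.MP_8d00da_gt.h42k.IL2b
import Pool.Agent.Lib.MP_8d00da_gt.h42k.L11f
import Pool.Agent.Lib.MP_8d00da_gt.h42k.RQ2

/-!
# Assembly
-/

namespace Pool.Agent.Lib.MP_8d00da_gt.h42k

open MeasureTheory Set Filter
open Pool.Agent.Lib.MP_8d00da_gt.h25 (PoincareWith LinPoincareWith)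
open scoped Topology NNReal ENNReal ContDiff

theorem opi_640 : OPI 640 224 := by
  intro α _ _ κ M V H a ha hC q hq T hT
  exact OP H ha hC hq hT

theorem hb_C7 : HB 224 C7 := by
  intro α _ _ κ M V H hκ δ hδ
  exact H1_bound H hκ hδ

/-- Theorem QK. -/
theorem qk_final : ∃ C : ℝ, 0 < C ∧ ∀ (α : Type) [Fintype α] [DecidableEq α],
    QKP (C * lln (Fintype.card α) ^ 3) α :=
  QK_thm (by norm_num) opi_640 C7_pos.le hb_C7

theorem opk_128 : OPK 128 224 := by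
  intro ι _ _ κ M K V H hK1 hK hC q hq T hT
  have h := OP_K hK (by linarith) H one_pos hC hq hT
  simpa only [mul_one, one_mul] using h

theorem pik_3 : PIK 3 := by
  intro ι _ _ κ M K V H hK1 hK hC
  have hκ := H.kpos
  have hK0 : 0 < K := by linarith
  have hQ : QKV V (K * 3 ^ 2) := fun B hB => hK.quad_scale H (by norm_num) hC hB
  have hr : 0 ≤ K / κ := by positivity
  have hP : 0 ≤ 3 * (K / κ) ^ (1 / 3 : ℝ) := by positivity
  have h3 : ((K / κ) ^ (1 / 3 : ℝ)) ^ 3 = K / κ := by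
    rw [← Real.rpow_natCast, ← Real.rpow_mul hr]
    norm_num
  have hPK : K * 3 ^ 2 / 4 ≤ κ * (3 * (K / κ) ^ (1 / 3 : ℝ)) ^ 3 := by
    rw [mul_pow, h3]
    have : κ * (3 ^ 3 * (K / κ)) = 27 * K := by
      field_simp
      norm_num
    rw [this]
    linarith
  have h := IL2 H (by norm_num : (0 : ℝ) ≤ 3) hC (by positivity) hQ hP hPK
  have e : (3 : ℝ) * (1 + (K / κ) ^ (1 / 3 : ℝ)) = 3 + 3 * (K / κ) ^ (1 / 3 : ℝ) := by ring
  rw [e]
  exact h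

/-- Theorem P. -/
theorem p_final : ∃ C : ℝ, 0 < C ∧ ∀ (ι : Type) [Fintype ι] [DecidableEq ι] (κ M : ℝ)
    (V : (ι → ℝ) → ℝ), Nice κ M V → CLe V 1 →
      PI V (C * ln (Fintype.card ι) ^ (1 / 3 : ℝ) * lln (Fintype.card ι) ^ 2) := by
  obtain ⟨C, hC, hQ⟩ := qk_final
  exact thmP (by norm_num) opk_128 (by norm_num) pik_3 hQ

/-- The KLS inequality with the factor `C (log n)^{1/6} log log n`. -/
theorem kls_sixth : ∃ C : ℝ, 0 < C ∧ ∀ (n : ℕ) (h : EuclideanSpace ℝ (Fin n) → ℝ),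
    (∀ x, 0 ≤ h x) → Measurable h →
      (∀ (x y : EuclideanSpace ℝ (Fin n)) (a b : ℝ), 0 ≤ a → 0 ≤ b → a + b = 1 →
        h x ^ a * h y ^ b ≤ h (a • x + b • y)) →
      ∀ μ : Measure (EuclideanSpace ℝ (Fin n)),
        μ = volume.withDensity (fun x => ENNReal.ofReal (h x)) →
      IsProbabilityMeasure μ → ∀ D : ℝ, LinPoincareWith μ D →
      PoincareWith μ (C * Real.log (n + 16) ^ (1 / 6 : ℝ) *
        Real.log (Real.log (n + 16)) * D) := by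
  obtain ⟨C, hC, hP⟩ := p_final
  refine kls_final ⟨C, hC, fun n κ M V H h1 => ?_⟩
  have h := hP (Fin n) κ M V H h1
  rwa [Fintype.card_fin] at h

/-- The quadratic KLS inequality. -/
theorem quad_final : ∃ C : ℝ, 0 < C ∧ ∀ (n : ℕ) (h : EuclideanSpace ℝ (Fin n) → ℝ),
    (∀ x, 0 ≤ h x) → Measurable h →
      (∀ (x y : EuclideanSpace ℝ (Fin n)) (a b : ℝ), 0 ≤ a → 0 ≤ b → a + b = 1 →
        h x ^ a * h y ^ b ≤ h (a • x + b • y)) →
      ∀ μ : Measure (EuclideanSpace ℝ (Fin n)),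
        μ = volume.withDensity (fun x => ENNReal.ofReal (h x)) →
      IsProbabilityMeasure μ → ∀ D : ℝ, LinPoincareWith μ D →
      ∀ A : Matrix (Fin n) (Fin n) ℝ,
      ∫ x, ((∑ i, ∑ j, A i j * (x i - ∫ y, y i ∂μ) * (x j - ∫ y, y j ∂μ)) -
        ∫ z, (∑ i, ∑ j, A i j * (z i - ∫ y, y i ∂μ) * (z j - ∫ y, y j ∂μ)) ∂μ) ^ 2 ∂μ ≤
      C * Real.log (Real.log (n + 16)) ^ 3 * D ^ 4 * ∑ i, ∑ j, A i j ^ 2 := by
  obtain ⟨C, hC, hQ⟩ := qk_final
  refine ⟨C, hC, fun n h h0 hm hlc μ hμ hprob D hD A => ?_⟩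
  have h1 := hQ (Fin n)
  rw [Fintype.card_fin] at h1
  have h2 : 0 ≤ lln n := zero_le_one.trans (one_le_lln n)
  exact quad_general (by positivity) h1 h0 hm hlc hμ hprob hD A

end Pool.Agent.Lib.MP_8d00da_gt.h42k
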