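import Mathlib
import Pool.Agent.Lib.MP_8d00da_gt.h25.Op
import Pool.Agent.Lib.MP_8d00da_gt.h42k.KD1
import Pool.Agent.Lib.MP_8d00da_gt.h97s.KDefs
import Pool.Agent.Lib.MP_8d00da_gt.h42.Tail

section

/-!
# Probabilities; functions which are constant outside a compact set
-/

namespace Pool.Agent.Lib.MP_8d00da_gt.h42k

open MeasureTheory Set Filter
open scoped Topology NNReal ENNReal ContDiff

set_option linter.unusedSectionVars false

variable {ι : Type*} [Fintype ι] [DecidableEq ι]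

variable {κ M : ℝ} {V f g u φ : (ι → ℝ) → ℝ}

/-- A constant plus a test function. -/
def Cu (u : (ι → ℝ) → ℝ) : Prop := ∃ c : ℝ, Cc (fun x => u x - c)

theorem Cc.cu (h : Cc φ) : Cu φ := ⟨0, by simpa using h⟩

theorem Cu.const (c : ℝ) : Cu (fun _ : ι → ℝ => c) := by
  refine ⟨c, ?_, ?_⟩
  · simpa using (contDiff_const : ContDiff ℝ ∞ fun _ : ι → ℝ => (0 : ℝ))
  · have h : (fun _ : ι → ℝ => c - c) = 0 := by
      funext x
      simp
    rw [h]
    exact HasCompactSupport.zero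

theorem Cu.smooth (h : Cu u) : ContDiff ℝ ∞ u := by
  obtain ⟨c, hc⟩ := h
  have h1 : u = fun x => (u x - c) + c := by
    funext x
    ring
  rw [h1]
  exact hc.smooth.add contDiff_const

private theorem T1a_bdd (hφ : Cc φ) : ∃ B : ℝ, 0 ≤ B ∧ ∀ x, |φ x| ≤ B := by
  obtain ⟨B, hB⟩ := hφ.supp.exists_bound_of_continuous hφ.smooth.continuous
  have hB' : ∀ x, |φ x| ≤ B := fun x => by simpa [Real.norm_eq_abs] using hB x
  exact ⟨B, (abs_nonneg _).trans (hB' 0), hB'⟩

theorem Cu.bdd (h : Cu u) : ∃ B : ℝ, 0 ≤ B ∧ ∀ x, |u x| ≤ B := by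
  obtain ⟨c, hc⟩ := h
  obtain ⟨B, hB, hx⟩ := T1a_bdd hc
  refine ⟨B + |c|, by positivity, fun x => ?_⟩
  have h1 : u x = (u x - c) + c := by ring
  rw [h1]
  exact (abs_add_le _ _).trans (add_le_add (hx x) le_rfl)

theorem Cu.t1 (h : Cu u) : T1 u := by
  obtain ⟨c, hc⟩ := h
  have h1 : u = fun x => (u x - c) + c := by
    funext x
    ring
  rw [h1]
  exact hc.t1.add (T1.const c)

private theorem T1a_pd_subc (f : (ι → ℝ) → ℝ) (c : ℝ) (i : ι) (x : ι → ℝ) :
    pd i (fun x => f x - c) x = pd i f x := by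
  unfold pd
  rw [fderiv_sub_const]

theorem Cu.gs_bdd (h : Cu u) : ∃ B : ℝ, 0 ≤ B ∧ ∀ x, gs u x ≤ B := by
  obtain ⟨c, hc⟩ := h
  choose B hB hx using fun i : ι => T1a_bdd (hc.pdc i)
  refine ⟨∑ i, B i ^ 2, Finset.sum_nonneg fun i _ => sq_nonneg _, fun x => ?_⟩
  unfold gs
  refine Finset.sum_le_sum fun i _ => ?_
  rw [← T1a_pd_subc u c i x, ← sq_abs]
  exact pow_le_pow_left₀ (abs_nonneg _) (hx i x) 2

/-- `F ∘ u` is again constant outside a compact set. -/
theorem Cu.comp (h : Cu u) {F : ℝ → ℝ} (hF : ContDiff ℝ ∞ F) : Cu (fun x => F (u x)) := by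
  have hs := h.smooth
  obtain ⟨c, hc⟩ := h
  refine ⟨F c, (hF.comp hs).sub contDiff_const, ?_⟩
  refine HasCompactSupport.intro (K := tsupport fun x => u x - c) hc.supp.isCompact fun x hx => ?_
  have h1 : (fun x => u x - c) x = 0 :=
    image_eq_zero_of_notMem_tsupport (f := fun x => u x - c) hx
  have h2 : u x = c := by
    have h3 : u x - c = 0 := h1
    linarith
  show F (u x) - F c = 0
  rw [h2, sub_self]

theorem gs_comp (hu : Differentiable ℝ u) {F : ℝ → ℝ} (hF : Differentiable ℝ F) (x : ι → ℝ) :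
    gs (fun x => F (u x)) x = deriv F (u x) ^ 2 * gs u x := by
  unfold gs
  rw [Finset.mul_sum]
  refine Finset.sum_congr rfl fun i _ => ?_
  have h1 : HasFDerivAt (fun x => F (u x)) (deriv F (u x) • fderiv ℝ u x) x :=
    (hF (u x)).hasDerivAt.comp_hasFDerivAt x (hu x).hasFDerivAt
  have h2 : pd i (fun x => F (u x)) x = deriv F (u x) * pd i u x := by
    unfold pd
    rw [h1.fderiv]
    simp
  rw [h2]
  ring

theorem gs_nonneg (f : (ι → ℝ) → ℝ) (x : ι → ℝ) : 0 ≤ gs f x :=
  Finset.sum_nonneg fun _ _ => sq_nonneg _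

theorem gs_subc (f : (ι → ℝ) → ℝ) (c : ℝ) (x : ι → ℝ) : gs (fun x => f x - c) x = gs f x := by
  unfold gs
  exact Finset.sum_congr rfl fun i _ => by rw [T1a_pd_subc]

theorem t0_ind {B : Set (ι → ℝ)} (hB : MeasurableSet B) : T0 (B.indicator fun _ => (1 : ℝ)) :=
  T0.ind hB (T0.const 1)

private theorem T1a_ind_nonneg (B : Set (ι → ℝ)) (x : ι → ℝ) :
    0 ≤ B.indicator (fun _ => (1 : ℝ)) x := Set.indicator_nonneg (fun _ _ => zero_le_one) x

theorem pr_nonneg (V : (ι → ℝ) → ℝ) (B : Set (ι → ℝ)) : 0 ≤ pr V B :=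
  ex_nonneg V fun x => T1a_ind_nonneg B x

theorem pr_le_one (H : Nice κ M V) {B : Set (ι → ℝ)} (hB : MeasurableSet B) : pr V B ≤ 1 := by
  have h := ex_mono H (t0_ind hB) (T0.const 1) fun x =>
    Set.indicator_le_self' (s := B) (f := fun _ : ι → ℝ => (1 : ℝ)) (fun _ _ => zero_le_one) x
  rw [ex_const H] at h
  exact h

theorem pr_mono (H : Nice κ M V) {A B : Set (ι → ℝ)} (hA : MeasurableSet A) (hB : MeasurableSet B)
    (h : A ⊆ B) : pr V A ≤ pr V B :=
  ex_mono H (t0_ind hA) (t0_ind hB) fun x =>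
    Set.indicator_le_indicator_of_subset h (fun _ => zero_le_one) x

theorem pr_compl (H : Nice κ M V) {B : Set (ι → ℝ)} (hB : MeasurableSet B) :
    pr V Bᶜ = 1 - pr V B := by
  have h := ex_sub H (T0.const (ι := ι) 1) (t0_ind hB)
  rw [ex_const H] at h
  unfold pr
  rw [← h]
  congr 1
  funext x
  by_cases hx : x ∈ B
  · rw [Set.indicator_of_mem hx, Set.indicator_of_notMem (by simpa using hx)]
    ring
  · rw [Set.indicator_of_notMem hx, Set.indicator_of_mem (by simpa using hx)]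
    ring

/-- If `0 ≤ u ≤ 1`, then `var u ≤ 1/4`. -/
theorem var_le_quarter (H : Nice κ M V) (hu : T0 u) (h : ∀ x, 0 ≤ u x ∧ u x ≤ 1) :
    var V u ≤ 1 / 4 := by
  have h1 := var_le H hu (1 / 2)
  have h2 := ex_mono H ((hu.sub (T0.const (1 / 2))).pow 2) (T0.const (1 / 4)) fun x => by
    obtain ⟨h3, h4⟩ := h x
    nlinarith
  rw [ex_const H] at h2
  exact h1.trans h2

/-- `(E f)² ≤ E f² · ν(f ≠ 0)` (`ex_cs_pt`). -/
theorem ex_sq_le_pr (H : Nice κ M V) (hf : T0 f) :
    ex V f ^ 2 ≤ ex V (fun x => f x ^ 2) * pr V {x | f x ≠ 0} := by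
  have hm : MeasurableSet {x | f x ≠ 0} := (hf.meas (measurableSet_singleton 0)).compl
  refine ex_cs_pt H hf (hf.pow 2) (t0_ind hm) (fun x => sq_nonneg _)
    (fun x => T1a_ind_nonneg _ x) fun x => ?_
  by_cases hx : f x = 0
  · rw [hx]
    simp
  · rw [Set.indicator_of_mem (show x ∈ {x | f x ≠ 0} from hx), mul_one]

/-- `pt V t y` is nice with the constant `κ + t`, hence Poincare for linear functions. -/
theorem pr_pt_meas (V : (ι → ℝ) → ℝ) (t : ℝ) (y : ι → ℝ) (B : Set (ι → ℝ)) :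
    pr (pt V t y) B = ex (pt V t y) (B.indicator fun _ => 1) := rfl

end Pool.Agent.Lib.MP_8d00da_gt.h42k
end

section

namespace Pool.Agent.Lib.MP_8d00da_gt.h97r
end Pool.Agent.Lib.MP_8d00da_gt.h97r


/-!
# The regularised profile: definitions
-/

namespace Pool.Agent.Lib.MP_8d00da_gt.h97s

open MeasureTheory Set Filter
open Pool.Agent.Lib.MP_8d00da_gt.h25 Pool.Agent.Lib.MP_8d00da_gt.h42
open Pool.Agent.Lib.MP_8d00da_gt.h42s Pool.Agent.Lib.MP_8d00da_gt.h42o
open Pool.Agent.Lib.MP_8d00da_gt.h97r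
open scoped Topology NNReal

set_option linter.unusedSectionVars false

variable {F : Type*} [NormedAddCommGroup F] [InnerProductSpace ℝ F]
    [FiniteDimensional ℝ F] [MeasurableSpace F] [BorelSpace F]

/-- Smooth positive log-concave probability weights with a finite Poincare constant. -/
structure GH (L B C0 : ℝ) (h W : F → ℝ) : Prop where
  pw : h42u.PW L B h W
  Lnn : 0 ≤ L
  int : Integrable h
  mass : ∫ x, h x = 1
  ap : ∀ q : F → ℝ, BL q → Vr h q ≤ C0 * En h q

/-- Bounded Lipschitz functions with values in `[0, 1]`. -/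
structure U1 (u : F → ℝ) : Prop where
  bl : BL u
  nn : ∀ x, 0 ≤ u x
  le : ∀ x, u x ≤ 1

/-- The quadratic form of `1 - RT h η`. -/
noncomputable def qf (h : F → ℝ) (η : ℝ) (u : F → ℝ) : ℝ :=
  (∫ x, u x ^ 2 * h x) - ∫ x, u x * RT h η u x * h x

/-- The mean. -/
noncomputable def mf (h u : F → ℝ) : ℝ := ∫ x, u x * h x

/-- The regularised perimeter. -/
noncomputable def Per (h : F → ℝ) (η κ : ℝ) (u : F → ℝ) : ℝ :=
  qf h η u + κ * ∫ x, u x * (1 - u x) * h x

/-- The functional which is minimised. -/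
noncomputable def FE (h : F → ℝ) (η κ α γ : ℝ) (u : F → ℝ) : ℝ :=
  Per h η κ u - α * mf h u - γ * mf h u ^ 2

/-- The constant in the Euler equation. -/
noncomputable def cc (h : F → ℝ) (κ α γ : ℝ) (u : F → ℝ) : ℝ := (α + 2 * γ * mf h u - κ) / 2

/-- Truncation to `[0, 1]`. -/
noncomputable def clip (t : ℝ) : ℝ := max 0 (min 1 t)

/-- The unconstrained optimal function. -/
noncomputable def ef (h : F → ℝ) (η κ α γ : ℝ) (u : F → ℝ) (x : F) : ℝ :=
  (RT h η u x + cc h κ α γ u) / (1 - κ)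

/-- The improved function. -/
noncomputable def imp (h : F → ℝ) (η κ α γ : ℝ) (u : F → ℝ) (x : F) : ℝ :=
  clip (ef h η κ α γ u x)

lemma clip_nonneg (t : ℝ) : 0 ≤ clip t := le_max_left _ _

lemma clip_le (t : ℝ) : clip t ≤ 1 := max_le zero_le_one (min_le_left _ _)

lemma clip_of_mem {t : ℝ} (h0 : 0 ≤ t) (h1 : t ≤ 1) : clip t = t := by
  unfold clip
  rw [min_eq_right h1, max_eq_right h0]

lemma clip_of_nonpos {t : ℝ} (h0 : t ≤ 0) : clip t = 0 := by
  unfold clip
  rw [min_eq_right (h0.trans zero_le_one), max_eq_left h0]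

lemma clip_of_one_le {t : ℝ} (h0 : 1 ≤ t) : clip t = 1 := by
  unfold clip
  rw [min_eq_left h0, max_eq_right zero_le_one]

lemma clip_lip : LipschitzWith 1 clip := by
  have h1 : LipschitzWith 1 fun t : ℝ => min 1 t := LipschitzWith.id.const_min 1
  exact h1.const_max 0

variable {L B C0 : ℝ} {h W : F → ℝ}

lemma GH.wt (H : GH L B C0 h W) : Wt h B := H.pw.wt

lemma GH.pos (H : GH L B C0 h W) (x : F) : 0 < h x := by
  rw [H.pw.eq]
  exact Real.exp_pos _

lemma GH.cont (H : GH L B C0 h W) : Continuous h := by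
  have : h = fun x => Real.exp (-W x) := funext H.pw.eq
  rw [this]
  exact Real.continuous_exp.comp H.pw.diff.continuous.neg

lemma bl_meas {u : F → ℝ} (hu : BL u) : Measurable u := by
  obtain ⟨⟨L, hL⟩, -⟩ := hu
  exact hL.continuous.measurable

lemma bl_int (hi : Integrable h) {u : F → ℝ} (hu : BL u) : Integrable fun x => u x * h x := by
  obtain ⟨⟨L, hL⟩, A, hA⟩ := hu
  exact bdd_int hi hL.continuous.measurable hA

lemma bl_int2 (hi : Integrable h) {u v : F → ℝ} (hu : BL u) (hv : BL v) :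
    Integrable fun x => u x * v x * h x := bl_int hi (hu.mul hv)

lemma bl_sq (hi : Integrable h) {u : F → ℝ} (hu : BL u) : Integrable fun x => u x ^ 2 * h x := by
  have := bl_int2 hi hu hu
  simpa only [sq] using this

lemma U1.const {c : ℝ} (h0 : 0 ≤ c) (h1 : c ≤ 1) : U1 fun _ : F => c :=
  ⟨BL.const c, fun _ => h0, fun _ => h1⟩

end Pool.Agent.Lib.MP_8d00da_gt.h97s
end

section

/-!
# Basic facts on smooth strongly log-concave weights
-/

namespace Pool.Agent.Lib.MP_8d00da_gt.h97s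

open MeasureTheory Set Filter
open Pool.Agent.Lib.MP_8d00da_gt.h25 Pool.Agent.Lib.MP_8d00da_gt.h42
open Pool.Agent.Lib.MP_8d00da_gt.h42s Pool.Agent.Lib.MP_8d00da_gt.h42o
open Pool.Agent.Lib.MP_8d00da_gt.h97r
open scoped Topology NNReal

set_option linter.unusedSectionVars false

variable {F : Type*} [NormedAddCommGroup F] [InnerProductSpace ℝ F]
    [FiniteDimensional ℝ F] [MeasurableSpace F] [BorelSpace F]

variable {δ L : ℝ} {h : F → ℝ}

private lemma kbas_conv (H : GV δ L h) {W : F → ℝ} (hW : ∀ x, h x = Real.exp (-W x)) :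
    ConvexOn ℝ univ W := by
  refine convexOn_iff_forall_pos.2 ⟨convex_univ, ?_⟩
  intro y _ z _ a c ha hc hac
  have ha' : a = 1 - c := by linarith
  have h1 := H.lc c hc (by linarith) y z
  rw [hW, hW, hW, ← Real.exp_mul, ← Real.exp_mul, ← Real.exp_add, Real.exp_le_exp] at h1
  rw [ha', smul_eq_mul, smul_eq_mul]
  linarith

private lemma kbas_first {W : F → ℝ} (hc : ConvexOn ℝ univ W) (hd : Differentiable ℝ W) (x : F) :
    W 0 + fderiv ℝ W 0 x ≤ W x := by
  have hc' : ConvexOn ℝ univ (fun t : ℝ => W (t • x)) := by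
    refine ⟨convex_univ, ?_⟩
    intro s _ t _ a b ha hb hab
    have h1 := hc.2 (mem_univ (s • x)) (mem_univ (t • x)) ha hb hab
    have h2 : a • (s • x) + b • (t • x) = (a • s + b • t) • x := by
      simp only [smul_eq_mul]
      module
    rw [h2] at h1
    exact h1
  have hd' : HasDerivAt (fun t : ℝ => W (t • x)) (fderiv ℝ W ((0 : ℝ) • x) x) 0 := by
    have h1 : HasDerivAt (fun t : ℝ => t • x) x 0 := by
      have := (hasDerivAt_id (0 : ℝ)).smul_const x
      simpa using this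
    exact ((hd ((0 : ℝ) • x)).hasFDerivAt).comp_hasDerivAt (0 : ℝ) h1
  have h1 := hc'.deriv_le_slope (mem_univ 0) (mem_univ 1) zero_lt_one hd'.differentiableAt
  rw [hd'.deriv, slope_def_field] at h1
  simp only [zero_smul, one_smul, sub_zero, div_one] at h1
  linarith

/-- With `h = exp (-W)`: `W` is convex (`H.lc`) and differentiable, so
`W (x / 2) ≥ W 0 + fderiv W 0 (x / 2)`, and `H.smid x 0` gives
`W x ≥ 2 W (x / 2) - W 0 + δ ‖x‖² / 4 ≥ W 0 + fderiv W 0 x + δ ‖x‖² / 4`. Complete the square. -/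
theorem GV.gauss (H : GV δ L h) : ∃ A : ℝ, 0 < A ∧ ∀ x, h x ≤ A * Real.exp (-(δ * ‖x‖ ^ 2 / 8)) := by
  obtain ⟨W, hW, hd, -⟩ := H.reg
  have hδ := H.dpos
  have hc := kbas_conv H hW
  set M : ℝ := ‖fderiv ℝ W 0‖ with hM
  refine ⟨Real.exp (-W 0 + 2 * M ^ 2 / δ), Real.exp_pos _, fun x => ?_⟩
  have h1 := H.smid x 0
  rw [add_zero, sub_zero, hW, hW, hW, ← Real.exp_add, ← Real.exp_add, ← Real.exp_nat_mul,
    Real.exp_le_exp] at h1
  have h2 := kbas_first hc hd ((1 / 2 : ℝ) • x)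
  rw [map_smul, smul_eq_mul] at h2
  have h3 : -(M * ‖x‖) ≤ fderiv ℝ W 0 x := by
    have := (fderiv ℝ W 0).le_opNorm x
    rw [Real.norm_eq_abs] at this
    have h4 := neg_abs_le (fderiv ℝ W 0 x)
    linarith
  have h5 : 2 * M ^ 2 / δ + -(δ * ‖x‖ ^ 2 / 8) - (M * ‖x‖ - δ * ‖x‖ ^ 2 / 4) =
      (1 / (8 * δ)) * (δ * ‖x‖ - 4 * M) ^ 2 := by
    field_simp
    ring
  have h6 : 0 ≤ (1 / (8 * δ)) * (δ * ‖x‖ - 4 * M) ^ 2 := by positivity
  rw [hW x, ← Real.exp_add, Real.exp_le_exp]
  push_cast at h1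
  linarith

/-- Copy of `GW.wt`. -/
theorem GV.wt (H : GV δ L h) : ∃ B : ℝ, Wt h B := by
  obtain ⟨A, hA, hg⟩ := H.gauss
  have hδ := H.dpos
  refine ⟨A, H.cont.measurable, fun x => (H.pos x).le, fun x => ?_, fun x y => ?_, ?_⟩
  · refine (hg x).trans ?_
    have h1 : Real.exp (-(δ * ‖x‖ ^ 2 / 8)) ≤ 1 := by
      rw [Real.exp_le_one_iff]
      have : 0 ≤ δ * ‖x‖ ^ 2 / 8 := by positivity
      linarith
    nlinarith
  · refine le_trans ?_ (H.smid x y)
    have h1 : 1 ≤ Real.exp (δ * ‖x - y‖ ^ 2 / 4) := by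
      rw [Real.one_le_exp_iff]
      positivity
    have h2 := mul_nonneg (H.pos x).le (H.pos y).le
    nlinarith
  · intro h0
    have h1 : ∀ᵐ x : F, False := by
      filter_upwards [h0] with x hx
      have := H.pos x
      rw [hx] at this
      exact lt_irrefl _ this
    have h2 : (volume : Measure F) = 0 := by
      simpa using h1
    exact NeZero.ne (volume : Measure F) h2

/-- Copy of `GW.int_exp`. -/
theorem GV.int_exp (H : GV δ L h) {φ : F → ℝ} (hφ : Measurable φ) {C a : ℝ}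
    (hC : ∀ x, |φ x| ≤ C * Real.exp (a * ‖x‖)) : Integrable fun x => φ x * h x := by
  obtain ⟨A, hA, hg⟩ := H.gauss
  have hδ := H.dpos
  have hη : 0 < 8 / δ := by positivity
  have hC0 : 0 ≤ C := by
    have h1 := (abs_nonneg _).trans (hC 0)
    simpa using h1
  have hker : Integrable fun x : F => (C * A * Real.exp (4 * a ^ 2 / δ)) * h25.ker (8 / δ) x :=
    (ker_integrable hη).const_mul _
  refine hker.mono' (hφ.mul H.cont.measurable).aestronglyMeasurable
    (Eventually.of_forall fun x => ?_)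
  rw [Real.norm_eq_abs, abs_mul, abs_of_pos (H.pos x)]
  have h3 : h25.ker (8 / δ) x = Real.exp (-(δ * ‖x‖ ^ 2 / 16)) := by
    unfold h25.ker
    congr 2
    field_simp
    ring
  have h4 : a * ‖x‖ + -(δ * ‖x‖ ^ 2 / 8) ≤ 4 * a ^ 2 / δ + -(δ * ‖x‖ ^ 2 / 16) := by
    have h5 : 4 * a ^ 2 / δ + -(δ * ‖x‖ ^ 2 / 16) - (a * ‖x‖ + -(δ * ‖x‖ ^ 2 / 8)) =
        (1 / (16 * δ)) * (δ * ‖x‖ - 8 * a) ^ 2 := by
      field_simp
      ring
    have h6 : 0 ≤ (1 / (16 * δ)) * (δ * ‖x‖ - 8 * a) ^ 2 := by positivity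
    linarith
  calc |φ x| * h x ≤ (C * Real.exp (a * ‖x‖)) * (A * Real.exp (-(δ * ‖x‖ ^ 2 / 8))) :=
        mul_le_mul (hC x) (hg x) (H.pos x).le (by positivity)
    _ = C * A * Real.exp (a * ‖x‖ + -(δ * ‖x‖ ^ 2 / 8)) := by rw [Real.exp_add]; ring
    _ ≤ C * A * Real.exp (4 * a ^ 2 / δ + -(δ * ‖x‖ ^ 2 / 16)) := by gcongr
    _ = (C * A * Real.exp (4 * a ^ 2 / δ)) * h25.ker (8 / δ) x := by
        rw [h3, Real.exp_add]; ring

/-- Copy of `GW.int_poly`. -/
theorem GV.int_poly (H : GV δ L h) {φ : F → ℝ} (hφ : Measurable φ) {C : ℝ}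
    (hC : ∀ x, |φ x| ≤ C * (1 + ‖x‖ ^ 2)) : Integrable fun x => φ x * h x := by
  have hC0 : 0 ≤ C := by
    have h1 := (abs_nonneg _).trans (hC 0)
    simpa using h1
  refine H.int_exp hφ (C := 2 * C) (a := 1) fun x => (hC x).trans ?_
  have h1 : 0 ≤ ‖x‖ := norm_nonneg x
  have h2 := Real.quadratic_le_exp_of_nonneg h1
  rw [one_mul]
  have h3 : 1 + ‖x‖ ^ 2 ≤ 2 * Real.exp ‖x‖ := by nlinarith
  nlinarith

/-- Copy of `GW.int`. -/
theorem GV.int (H : GV δ L h) : Integrable h := by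
  have h1 := H.int_poly (φ := fun _ => 1) measurable_const (C := 1) (fun x => by
    rw [abs_one, one_mul]
    have := sq_nonneg ‖x‖
    linarith)
  simpa using h1

/-- Copy of `GW.mass_pos`. -/
theorem GV.mass_pos (H : GV δ L h) : 0 < ∫ x, h x := ker_int_pos.integral_pos_of_pos H.int H.pos

/-- Copy of `GW.apriori`. -/
theorem GV.apriori (H : GV δ L h) {q : F → ℝ} (hq : BL q) : Vr h q ≤ (1 / δ) * En h q := by
  obtain ⟨⟨K, hK⟩, A, hA⟩ := hq
  have hδ := H.dpos
  have hmass := H.mass_pos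
  have hA0 : 0 ≤ A := (abs_nonneg _).trans (hA 0)
  have hqm : Measurable q := hK.continuous.measurable
  have i1 : Integrable fun x => q x * h x := h25.bdd_int H.int hqm hA
  have i2 : Integrable fun x => q x ^ 2 * h x := h25.bdd_int H.int (hqm.pow_const 2) (M := A ^ 2)
    (fun x => by
      rw [abs_pow]
      have := hA x
      gcongr)
  have i3 := H.int
  set c : ℝ := (∫ x, q x * h x) / ∫ x, h x with hc
  have h1 := strong_poincare hδ (fun x => (H.pos x).le) H.cont.measurable i3 H.smid hK hA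
    (m := c) (by rw [hc, div_mul_cancel₀ _ hmass.ne'])
  refine le_trans (le_of_eq ?_) h1
  have h2 : ∀ x, (q x - c) ^ 2 * h x = q x ^ 2 * h x - 2 * c * (q x * h x) + c ^ 2 * h x := by
    intro x
    ring
  simp only [h2]
  have i4 : Integrable fun x => q x ^ 2 * h x - 2 * c * (q x * h x) := i2.sub (i1.const_mul _)
  rw [integral_add i4 (i3.const_mul _), integral_sub i2 (i1.const_mul _),
    integral_const_mul, integral_const_mul]
  unfold Vr
  have h3 : (∫ x, q x * h x) = c * ∫ x, h x := by rw [hc, div_mul_cancel₀ _ hmass.ne']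
  rw [h3]
  field_simp
  ring

/-- The hypotheses of the theorem `GP`. -/
theorem GV.gh (H : GV δ L h) (hm : ∫ x, h x = 1) : ∃ (B : ℝ) (W : F → ℝ), GH L B (1 / δ) h W := by
  obtain ⟨B, hB⟩ := H.wt
  obtain ⟨W, hW, hd, hl⟩ := H.reg
  exact ⟨B, W, ⟨hB, hW, hd, hl, H.lc⟩, H.Lnn, H.int, hm, fun q hq => H.apriori hq⟩

end Pool.Agent.Lib.MP_8d00da_gt.h97s
end

section

/-!
# Exponential moments
-/

namespace Pool.Agent.Lib.MP_8d00da_gt.h97s

open MeasureTheory Set Filter
open Pool.Agent.Lib.MP_8d00da_gt.h25 Pool.Agent.Lib.MP_8d00da_gt.h42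
open Pool.Agent.Lib.MP_8d00da_gt.h42s Pool.Agent.Lib.MP_8d00da_gt.h42o
open Pool.Agent.Lib.MP_8d00da_gt.h97r
open scoped Topology NNReal

set_option linter.unusedSectionVars false

variable {F : Type*} [NormedAddCommGroup F] [InnerProductSpace ℝ F]
    [FiniteDimensional ℝ F] [MeasurableSpace F] [BorelSpace F]

variable {δ L : ℝ} {h : F → ℝ}

private lemma tailD (H : GV δ L h) (θ : F) :
    TailData (volume : Measure F) h (fun x => inner ℝ θ x) where
  pl := pl_space F
  nonneg := fun x => (H.pos x).le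
  meas := H.cont.measurable
  int := H.int
  conc := H.lc
  wmeas := (continuous_const.inner continuous_id).measurable
  aff := fun a x y => by rw [inner_add_right, inner_smul_right, inner_smul_right]

private lemma cheb (H : GV δ L h) {θ : F} (hθ : ‖θ‖ = 1)
    (hv : ∫ x, (inner ℝ θ x) ^ 2 * h x ≤ 1) :
    ∫ x in {x | (2 : ℝ) ≤ inner ℝ θ x}, h x ≤ 1 / 4 := by
  have hm : MeasurableSet {x : F | (2 : ℝ) ≤ inner ℝ θ x} :=
    measurableSet_le measurable_const (continuous_const.inner continuous_id).measurable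
  have h1 := hv
  have i2 : Integrable fun x : F => (inner ℝ θ x) ^ 2 * h x := by
    refine H.int_poly (φ := fun x => (inner ℝ θ x) ^ 2)
      ((continuous_const.inner continuous_id).measurable.pow_const 2) (C := 1) fun x => ?_
    rw [abs_pow, sq_abs]
    have h3 : |inner ℝ θ x| ≤ ‖x‖ := by
      have := abs_real_inner_le_norm θ x
      rwa [hθ, one_mul] at this
    have h4 : (inner ℝ θ x) ^ 2 ≤ ‖x‖ ^ 2 := by
      rw [← sq_abs (inner ℝ θ x)]
      exact pow_le_pow_left₀ (abs_nonneg _) h3 2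
    linarith
  have h2 : ∫ x in {x | (2 : ℝ) ≤ inner ℝ θ x}, h x ≤
      ∫ x in {x | (2 : ℝ) ≤ inner ℝ θ x}, (1 / 4) * ((inner ℝ θ x) ^ 2 * h x) := by
    refine setIntegral_mono_on H.int.integrableOn (i2.const_mul _).integrableOn hm fun x hx => ?_
    have hx' : (2 : ℝ) ≤ inner ℝ θ x := hx
    have hp := H.pos x
    have h5 : 4 ≤ (inner ℝ θ x) ^ 2 := by nlinarith
    nlinarith
  have h3 : ∫ x in {x | (2 : ℝ) ≤ inner ℝ θ x}, (1 / 4) * ((inner ℝ θ x) ^ 2 * h x) ≤
      ∫ x, (1 / 4) * ((inner ℝ θ x) ^ 2 * h x) :=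
    setIntegral_le_integral (i2.const_mul _) (Eventually.of_forall fun x => by
      have := (H.pos x).le
      positivity)
  have h6 : ∫ x, (1 / 4 : ℝ) * ((inner ℝ θ x) ^ 2 * h x) =
      (1 / 4) * ∫ x, (inner ℝ θ x) ^ 2 * h x := integral_const_mul _ _
  linarith

private lemma tail_one (H : GV δ L h) (hmass : ∫ x, h x = 1) {θ : F} (hθ : ‖θ‖ = 1)
    (hv : ∫ x, (inner ℝ θ x) ^ 2 * h x ≤ 1) {t : ℝ} (ht : 2 ≤ t) :
    ∫ x in {x | t ≤ inner ℝ θ x}, h x ≤ (3 / 4) * (3 : ℝ) ^ (-((t + 2) / 4)) := by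
  have hD := tailD H θ
  have h2 : TailData.SS (volume : Measure F) h (fun x => inner ℝ θ x) 2 ≤ 1 / 4 :=
    cheb H hθ hv
  have hm2 : 3 / 4 ≤ TailData.SS (volume : Measure F) h (fun x => inner ℝ θ x) (-2) := by
    have h3 := cheb H (θ := -θ) (by rw [norm_neg, hθ]) (by simpa [inner_neg_left] using hv)
    have hm : MeasurableSet {x : F | (-2 : ℝ) ≤ inner ℝ θ x} :=
      measurableSet_le measurable_const (continuous_const.inner continuous_id).measurable
    have h4 := integral_add_compl hm H.int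
    rw [hmass] at h4
    have h5 : ∫ x in {x : F | (-2 : ℝ) ≤ inner ℝ θ x}ᶜ, h x ≤
        ∫ x in {x : F | (2 : ℝ) ≤ inner ℝ (-θ) x}, h x := by
      refine setIntegral_mono_set H.int.integrableOn
        (Eventually.of_forall fun x => (H.pos x).le) (Eventually.of_forall fun x hx => ?_)
      have hx' : ¬ ((-2 : ℝ) ≤ inner ℝ θ x) := hx
      push Not at hx'
      show (2 : ℝ) ≤ inner ℝ (-θ) x
      rw [inner_neg_left]
      linarith
    unfold TailData.SS
    linarith
  rcases eq_or_lt_of_le ht with h | hlt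
  · subst h
    have e : (3 : ℝ) ^ (-(((2 : ℝ) + 2) / 4)) = 1 / 3 := by
      norm_num
    rw [e]
    unfold TailData.SS at h2
    linarith
  set a : ℝ := 4 / (t + 2) with ha
  have ht2 : 0 < t + 2 := by linarith
  have ha0 : 0 < a := by positivity
  have ha1 : a < 1 := by rw [ha, div_lt_one ht2]; linarith
  have hc := hD.SS_conc ha0 ha1 (-2) t
  have e1 : (1 - a) * (-2) + a * t = 2 := by
    rw [ha]
    field_simp
    ring
  rw [e1] at hc
  set P := TailData.SS (volume : Measure F) h (fun x => inner ℝ θ x) t with hP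
  have hP0 : 0 ≤ P := hD.SS_nonneg t
  have h1a : 0 < 1 - a := by linarith
  have h6 : (3 / 4 : ℝ) ^ (1 - a) * P ^ a ≤ 1 / 4 := by
    refine le_trans ?_ (hc.trans h2)
    gcongr
  have h7 : P ^ a ≤ ((3 / 4 : ℝ) * (3 : ℝ) ^ (-((t + 2) / 4))) ^ a := by
    rw [Real.mul_rpow (by norm_num) (by positivity), ← Real.rpow_mul (by norm_num)]
    have e2 : -((t + 2) / 4) * a = -1 := by
      rw [ha]
      field_simp
    rw [e2, Real.rpow_neg_one]
    have e3 : (3 / 4 : ℝ) ^ (1 - a) = (3 / 4) / (3 / 4 : ℝ) ^ a := by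
      rw [Real.rpow_sub (by norm_num), Real.rpow_one]
    rw [e3] at h6
    have h8 : (0 : ℝ) < (3 / 4 : ℝ) ^ a := by positivity
    rw [div_mul_eq_mul_div, div_le_iff₀ h8] at h6
    linarith
  have h9 := (Real.rpow_le_rpow_iff hP0 (by positivity) ha0).1 h7
  exact h9

private lemma tail_boundV (H : GV δ L h) (hmass : ∫ x, h x = 1) {θ : F} (hθ : ‖θ‖ = 1)
    (hv : ∫ x, (inner ℝ θ x) ^ 2 * h x ≤ 1) {t : ℝ} (ht : 2 ≤ t) :
    ∫ x in {x | t ≤ |inner ℝ θ x|}, h x ≤ (3 / 2) * (3 : ℝ) ^ (-((t + 2) / 4)) := by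
  have h1 := tail_one H hmass hθ hv ht
  have h2 := tail_one H hmass (θ := -θ) (by rw [norm_neg, hθ])
    (by simpa [inner_neg_left] using hv) ht
  have e : {x : F | t ≤ |inner ℝ θ x|} =
      {x : F | t ≤ inner ℝ θ x} ∪ {x : F | t ≤ inner ℝ (-θ) x} := by
    ext x
    show t ≤ |inner ℝ θ x| ↔ t ≤ inner ℝ θ x ∨ t ≤ inner ℝ (-θ) x
    rw [inner_neg_left, le_abs]
  rw [e]
  have hdis : Disjoint {x : F | t ≤ inner ℝ θ x} {x : F | t ≤ inner ℝ (-θ) x} := by
    rw [Set.disjoint_left]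
    intro x hx hx'
    have h3 : t ≤ inner ℝ θ x := hx
    have h4 : t ≤ inner ℝ (-θ) x := hx'
    rw [inner_neg_left] at h4
    linarith
  have hm : MeasurableSet {x : F | t ≤ inner ℝ (-θ) x} :=
    measurableSet_le measurable_const (continuous_const.inner continuous_id).measurable
  rw [setIntegral_union hdis hm H.int.integrableOn H.int.integrableOn]
  linarith

private lemma layer (y : ℝ) (J : ℕ) :
    Real.exp (min y (2 + J) / 6) ≤ Real.exp (1 / 3) + ∑ j ∈ Finset.range J,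
      (Real.exp ((3 + j) / 6) - Real.exp ((2 + j) / 6)) * (if 2 + (j : ℝ) ≤ y then 1 else 0) := by
  induction J with
  | zero =>
    simp only [Finset.range_zero, Finset.sum_empty, add_zero, Nat.cast_zero]
    refine Real.exp_le_exp.2 ?_
    have := min_le_right y 2
    linarith
  | succ J ih =>
    rw [Finset.sum_range_succ]
    by_cases hy : 2 + (J : ℝ) ≤ y
    · rw [if_pos hy, mul_one]
      rw [min_eq_right hy] at ih
      have h1 : Real.exp (min y (2 + ((J + 1 : ℕ) : ℝ)) / 6) ≤ Real.exp ((3 + J) / 6) := by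
        refine Real.exp_le_exp.2 ?_
        have := min_le_right y (2 + ((J + 1 : ℕ) : ℝ))
        push_cast at this ⊢
        linarith
      linarith
    · rw [if_neg hy, mul_zero, add_zero]
      push Not at hy
      rw [min_eq_left hy.le] at ih
      rw [min_eq_left (by push_cast; linarith)]
      exact ih

private lemma num_bd (J : ℕ) :
    Real.exp (1 / 3) + ∑ j ∈ Finset.range J, (Real.exp ((3 + j) / 6) - Real.exp ((2 + j) / 6)) *
      ((3 / 2) * (3 : ℝ) ^ (-(((2 + (j : ℝ)) + 2) / 4))) ≤ 3 := by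
  set q := Real.exp (1 / 6) with hq
  set s : ℝ := (3 : ℝ) ^ (-(1 / 4) : ℝ) with hs
  have hq1 : 1 ≤ q := Real.one_le_exp (by norm_num)
  have hq2 : q ≤ 1.1814 := by
    have h1 : q ^ 6 = Real.exp 1 := by
      rw [hq, ← Real.exp_nat_mul]; norm_num
    have h2 := Real.exp_one_lt_d9
    by_contra hn
    push Not at hn
    have h3 : (1.1814 : ℝ) ^ 6 < q ^ 6 := pow_lt_pow_left₀ hn (by norm_num) (by norm_num)
    rw [h1] at h3
    norm_num at h3 h2
    linarith
  have hs0 : 0 < s := by positivity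
  have hs2 : s ≤ 0.76 := by
    have h1 : s ^ 4 = 1 / 3 := by
      rw [hs, ← Real.rpow_natCast, ← Real.rpow_mul (by norm_num)]
      norm_num
    by_contra hn
    push Not at hn
    have h3 : (0.76 : ℝ) ^ 4 < s ^ 4 := pow_lt_pow_left₀ hn (by norm_num) (by norm_num)
    rw [h1] at h3
    norm_num at h3
  have e1 : Real.exp (1 / 3) = q ^ 2 := by
    rw [hq, ← Real.exp_nat_mul]; norm_num
  have e2 : ∀ j : ℕ, Real.exp ((2 + (j : ℝ)) / 6) = q ^ 2 * q ^ j := by
    intro j
    rw [hq, ← Real.exp_nat_mul, ← Real.exp_nat_mul, ← Real.exp_add]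
    congr 1
    push_cast
    ring
  have e3 : ∀ j : ℕ, Real.exp ((3 + (j : ℝ)) / 6) = q ^ 2 * q ^ j * q := by
    intro j
    rw [hq, ← Real.exp_nat_mul, ← Real.exp_nat_mul, ← Real.exp_add, ← Real.exp_add]
    congr 1
    push_cast
    ring
  have e4 : ∀ j : ℕ, (3 : ℝ) ^ (-(((2 + (j : ℝ)) + 2) / 4)) = (1 / 3) * s ^ j := by
    intro j
    rw [hs, ← Real.rpow_natCast, ← Real.rpow_mul (by norm_num),
      show (1 / 3 : ℝ) = (3 : ℝ) ^ (-1 : ℝ) by rw [Real.rpow_neg_one]; norm_num,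
      ← Real.rpow_add (by norm_num)]
    congr 1
    ring
  have hr0 : 0 ≤ q * s := by positivity
  have hr1 : q * s ≤ 0.9 := by nlinarith
  have hr2 : q * s ≤ 1.1814 * 0.76 := by
    calc q * s ≤ 1.1814 * s := by gcongr
      _ ≤ 1.1814 * 0.76 := by gcongr
  have hsum : ∑ j ∈ Finset.range J, (Real.exp ((3 + j) / 6) - Real.exp ((2 + j) / 6)) *
      ((3 / 2) * (3 : ℝ) ^ (-(((2 + (j : ℝ)) + 2) / 4))) =
      q ^ 2 * (q - 1) * (1 / 2) * ∑ j ∈ Finset.range J, (q * s) ^ j := by
    rw [Finset.mul_sum]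
    refine Finset.sum_congr rfl fun j _ => ?_
    rw [e2, e3, e4, mul_pow]
    ring
  have hgeo : ∑ j ∈ Finset.range J, (q * s) ^ j ≤ 9.8 := by
    have h1 : (1 - q * s) * ∑ j ∈ Finset.range J, (q * s) ^ j = 1 - (q * s) ^ J :=
      mul_neg_geom_sum _ _
    have h2 : 0 ≤ (q * s) ^ J := by positivity
    have h3 : 0 ≤ ∑ j ∈ Finset.range J, (q * s) ^ j := Finset.sum_nonneg fun j _ => by positivity
    have h4 : (0.102136 : ℝ) * ∑ j ∈ Finset.range J, (q * s) ^ j ≤ 1 := by
      have h5 : (0.102136 : ℝ) ≤ 1 - q * s := by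
        norm_num at hr2 ⊢
        linarith
      calc (0.102136 : ℝ) * ∑ j ∈ Finset.range J, (q * s) ^ j
          ≤ (1 - q * s) * ∑ j ∈ Finset.range J, (q * s) ^ j :=
            mul_le_mul_of_nonneg_right h5 h3
        _ ≤ 1 := by rw [h1]; linarith
    norm_num at h4 ⊢
    linarith
  rw [hsum, e1]
  have hq3 : q ^ 2 ≤ 1.3958 := by
    have : q ^ 2 ≤ 1.1814 ^ 2 := pow_le_pow_left₀ (by linarith) hq2 2
    norm_num at this ⊢
    linarith
  have h5 : q ^ 2 * (q - 1) * (1 / 2) * ∑ j ∈ Finset.range J, (q * s) ^ j ≤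
      1.3958 * 0.1814 * (1 / 2) * 9.8 := by
    have h6 : 0 ≤ q - 1 := by linarith
    have h7 : q - 1 ≤ 0.1814 := by norm_num at hq2 ⊢; linarith
    have h8 : 0 ≤ ∑ j ∈ Finset.range J, (q * s) ^ j := Finset.sum_nonneg fun j _ => by positivity
    gcongr
  norm_num at h5 hq3 ⊢
  linarith

/-- Copy of `h97r/RTail.lean` and `h97r/RExp.lean` (`exp_mom`): the proofs there use only mass
one, log-concavity, integrability and `∫ ⟨θ, x⟩² h ≤ 1` for the one unit vector `θ`
(Chebyshev at `2` and `-2`, Prekopa for the tails). -/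
theorem exp_momV (H : GV δ L h) (hm : ∫ x, h x = 1) {θ : F} (hθ : ‖θ‖ = 1)
    (h2 : ∫ x, (inner ℝ θ x) ^ 2 * h x ≤ 1) :
    ∫ x, Real.exp (|inner ℝ θ x| / 6) * h x ≤ 3 := by
  have hX : Continuous fun x : F => |inner ℝ θ x| := (continuous_const.inner continuous_id).abs
  have hXn : ∀ x : F, |inner ℝ θ x| ≤ ‖x‖ := fun x => by
    have := abs_real_inner_le_norm θ x
    rwa [hθ, one_mul] at this
  have hI : Integrable fun x : F => Real.exp (|inner ℝ θ x| / 6) * h x := by
    refine H.int_exp (φ := fun x => Real.exp (|inner ℝ θ x| / 6))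
      (Real.continuous_exp.comp (hX.div_const 6)).measurable (C := 1) (a := 1) fun x => ?_
    rw [abs_of_pos (Real.exp_pos _), one_mul, one_mul]
    refine Real.exp_le_exp.2 ?_
    have h1 := hXn x
    have h3 := norm_nonneg x
    linarith
  have hcJ : ∀ J : ℕ, Continuous fun x : F => Real.exp (min |inner ℝ θ x| (2 + (J : ℝ)) / 6) :=
    fun J => Real.continuous_exp.comp ((hX.min continuous_const).div_const 6)
  have hleJ : ∀ (J : ℕ) (x : F), Real.exp (min |inner ℝ θ x| (2 + (J : ℝ)) / 6) ≤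
      Real.exp (|inner ℝ θ x| / 6) := fun J x => by
    refine Real.exp_le_exp.2 ?_
    have := min_le_left |inner ℝ θ x| (2 + (J : ℝ))
    linarith
  have hJ : ∀ J : ℕ, ∫ x, Real.exp (min |inner ℝ θ x| (2 + (J : ℝ)) / 6) * h x ≤ 3 := by
    intro J
    refine le_trans ?_ (num_bd J)
    have hms : ∀ j : ℕ, MeasurableSet {x : F | 2 + (j : ℝ) ≤ |inner ℝ θ x|} := fun j =>
      measurableSet_le measurable_const hX.measurable
    have hind : ∀ (j : ℕ) (x : F), (if 2 + (j : ℝ) ≤ |inner ℝ θ x| then (1 : ℝ) else 0) * h x =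
        {x : F | 2 + (j : ℝ) ≤ |inner ℝ θ x|}.indicator h x := by
      intro j x
      by_cases hx : 2 + (j : ℝ) ≤ |inner ℝ θ x|
      · rw [if_pos hx, one_mul, indicator_of_mem
          (show x ∈ {x : F | 2 + (j : ℝ) ≤ |inner ℝ θ x|} from hx)]
      · rw [if_neg hx, zero_mul, indicator_of_notMem
          (show x ∉ {x : F | 2 + (j : ℝ) ≤ |inner ℝ θ x|} from hx)]
    have hii : ∀ j : ℕ, Integrable fun x : F =>
        {x : F | 2 + (j : ℝ) ≤ |inner ℝ θ x|}.indicator h x := fun j =>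
      H.int.indicator (hms j)
    have hpt : ∀ x, Real.exp (min |inner ℝ θ x| (2 + (J : ℝ)) / 6) * h x ≤
        Real.exp (1 / 3) * h x + ∑ j ∈ Finset.range J,
          (Real.exp ((3 + j) / 6) - Real.exp ((2 + j) / 6)) *
            {x : F | 2 + (j : ℝ) ≤ |inner ℝ θ x|}.indicator h x := by
      intro x
      have h1 := mul_le_mul_of_nonneg_right (layer |inner ℝ θ x| J) (H.pos x).le
      refine h1.trans (le_of_eq ?_)
      rw [add_mul, Finset.sum_mul]
      congr 1
      refine Finset.sum_congr rfl fun j _ => ?_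
      rw [mul_assoc, hind]
    have hi1 : Integrable fun x => Real.exp (min |inner ℝ θ x| (2 + (J : ℝ)) / 6) * h x := by
      refine hI.mono' ((hcJ J).measurable.mul H.cont.measurable).aestronglyMeasurable
        (Eventually.of_forall fun x => ?_)
      rw [Real.norm_eq_abs, abs_mul, abs_of_pos (Real.exp_pos _), abs_of_pos (H.pos x)]
      exact mul_le_mul_of_nonneg_right (hleJ J x) (H.pos x).le
    have hi2 : Integrable fun x => ∑ j ∈ Finset.range J,
          (Real.exp ((3 + j) / 6) - Real.exp ((2 + j) / 6)) *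
            {x : F | 2 + (j : ℝ) ≤ |inner ℝ θ x|}.indicator h x :=
      integrable_finsetSum _ fun j _ => (hii j).const_mul _
    calc ∫ x, Real.exp (min |inner ℝ θ x| (2 + (J : ℝ)) / 6) * h x
        ≤ ∫ x, (Real.exp (1 / 3) * h x + ∑ j ∈ Finset.range J,
          (Real.exp ((3 + j) / 6) - Real.exp ((2 + j) / 6)) *
            {x : F | 2 + (j : ℝ) ≤ |inner ℝ θ x|}.indicator h x) :=
          integral_mono hi1 ((H.int.const_mul _).add hi2) hpt
      _ = Real.exp (1 / 3) + ∑ j ∈ Finset.range J,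
          (Real.exp ((3 + j) / 6) - Real.exp ((2 + j) / 6)) *
            ∫ x in {x : F | 2 + (j : ℝ) ≤ |inner ℝ θ x|}, h x := by
          rw [integral_add (H.int.const_mul _) hi2, integral_const_mul, hm, mul_one,
            integral_finsetSum _ fun j _ => (hii j).const_mul _]
          congr 1
          refine Finset.sum_congr rfl fun j _ => ?_
          rw [integral_const_mul, integral_indicator (hms j)]
      _ ≤ _ := by
          gcongr with j hj
          · have : Real.exp ((2 + (j : ℝ)) / 6) ≤ Real.exp ((3 + j) / 6) :=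
              Real.exp_le_exp.2 (by linarith)
            linarith
          · exact tail_boundV H hm hθ h2 (by
              have : (0 : ℝ) ≤ j := Nat.cast_nonneg j
              linarith)
  have hlim : Tendsto (fun J : ℕ => ∫ x, Real.exp (min |inner ℝ θ x| (2 + (J : ℝ)) / 6) * h x)
      atTop (𝓝 (∫ x, Real.exp (|inner ℝ θ x| / 6) * h x)) := by
    refine tendsto_integral_of_dominated_convergence
      (fun x => Real.exp (|inner ℝ θ x| / 6) * h x)
      (fun J => ((hcJ J).measurable.mul H.cont.measurable).aestronglyMeasurable) hI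
      (fun J => Eventually.of_forall fun x => ?_) (Eventually.of_forall fun x => ?_)
    · rw [Real.norm_eq_abs, abs_mul, abs_of_pos (Real.exp_pos _), abs_of_pos (H.pos x)]
      exact mul_le_mul_of_nonneg_right (hleJ J x) (H.pos x).le
    · refine tendsto_const_nhds.congr' ?_
      obtain ⟨J0, hJ0⟩ := exists_nat_ge |inner ℝ θ x|
      filter_upwards [eventually_ge_atTop J0] with J hJ'
      have h1 : |inner ℝ θ x| ≤ 2 + (J : ℝ) := by
        have : (J0 : ℝ) ≤ J := by exact_mod_cast hJ'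
        linarith
      rw [min_eq_left h1]
  exact le_of_tendsto' hlim hJ

end Pool.Agent.Lib.MP_8d00da_gt.h97s
end

section

/-!
# Exponential moments, level-one inequality, eighth moments (paper 322, 1.6)
-/

namespace Pool.Agent.Lib.MP_8d00da_gt.h42k

open MeasureTheory Set Filter
open scoped Topology NNReal ENNReal ContDiff

set_option linter.unusedSectionVars false

variable {ι : Type*} [Fintype ι] [DecidableEq ι]

variable {κ M : ℝ} {V f : (ι → ℝ) → ℝ}

theorem B1d_norm_sq (x : EuclideanSpace ℝ ι) : ‖x‖ ^ 2 = sq (WithLp.ofLp x) := by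
  rw [EuclideanSpace.norm_sq_eq]
  unfold sq
  exact Finset.sum_congr rfl fun i _ => by rw [Real.norm_eq_abs, sq_abs]

theorem B1d_integral (g : (ι → ℝ) → ℝ) :
    ∫ x : EuclideanSpace ℝ ι, g (WithLp.ofLp x) = ∫ x, g x := by
  have h := PiLp.volume_preserving_ofLp ι
  exact h.integral_comp (MeasurableEquiv.toLp 2 (ι → ℝ)).symm.measurableEmbedding g

/-- Midpoint convexity. -/
theorem B1d_mid (H : Nice κ M V) (z u : ι → ℝ) :
    2 * V z + κ * sq u ≤ V (z + u) + V (z - u) := by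
  have h1 := H.lower z u
  have h2 := H.lower z (-u)
  have e3 : gd V z (-u) = -gd V z u := by
    unfold gd
    rw [← Finset.sum_neg_distrib]
    exact Finset.sum_congr rfl fun i _ => by rw [Pi.neg_apply, neg_mul]
  have e4 : sq (-u) = sq u := by
    unfold sq
    exact Finset.sum_congr rfl fun i _ => by rw [Pi.neg_apply, neg_sq]
  rw [e3, e4, ← sub_eq_add_neg z u] at h2
  linarith

/-- Convexity. -/
theorem B1d_conv (H : Nice κ M V) {a : ℝ} (ha0 : 0 < a) (ha1 : a < 1) (x y z : ι → ℝ)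
    (hz : ∀ i, z i = (1 - a) * x i + a * y i) : V z ≤ (1 - a) * V x + a * V y := by
  have h1 := H.lower z (x - z)
  have h2 := H.lower z (y - z)
  have e1 : z + (x - z) = x := add_sub_cancel z x
  have e2 : z + (y - z) = y := add_sub_cancel z y
  rw [e1] at h1
  rw [e2] at h2
  have h3 : (1 - a) * gd V z (x - z) + a * gd V z (y - z) = 0 := by
    unfold gd
    rw [Finset.mul_sum, Finset.mul_sum, ← Finset.sum_add_distrib]
    refine Finset.sum_eq_zero fun i _ => ?_
    rw [Pi.sub_apply, Pi.sub_apply, hz i]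
    ring
  have k1 : 0 ≤ κ / 2 * sq (x - z) := mul_nonneg (by have := H.kpos; positivity) (sq_nn _)
  have k2 : 0 ≤ κ / 2 * sq (y - z) := mul_nonneg (by have := H.kpos; positivity) (sq_nn _)
  nlinarith [mul_nonneg ha0.le (sub_nonneg.mpr h2), mul_nonneg (sub_nonneg.mpr ha1.le) (sub_nonneg.mpr h1),
    mul_nonneg ha0.le k2, mul_nonneg (sub_nonneg.mpr ha1.le) k1]

theorem B1d_fderiv (H : Nice κ M V) (m : ι → ℝ) (σ : ℝ) (x : EuclideanSpace ℝ ι) :
    ∃ A : EuclideanSpace ℝ ι →L[ℝ] ℝ,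
      HasFDerivAt (fun y : EuclideanSpace ℝ ι => V (fun i => m i + σ * y i)) A x ∧
      ∀ v, A v = σ * gd V (fun i => m i + σ * x i) (WithLp.ofLp v) := by
  obtain ⟨E, hE⟩ : ∃ E : EuclideanSpace ℝ ι →L[ℝ] (ι → ℝ), E =
      (PiLp.continuousLinearEquiv 2 ℝ (fun _ : ι => ℝ) : EuclideanSpace ℝ ι →L[ℝ] (ι → ℝ)) := ⟨_, rfl⟩
  have hEv : ∀ v, E v = WithLp.ofLp v := fun v => by rw [hE]; rfl
  have h1 : HasFDerivAt (fun y : EuclideanSpace ℝ ι => (fun i => m i + σ * y i : ι → ℝ)) (σ • E) x := by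
    have h2 : HasFDerivAt (fun y : EuclideanSpace ℝ ι => m + (σ • E) y) (σ • E) x :=
      (σ • E).hasFDerivAt.const_add m
    refine h2.congr_of_eventuallyEq (Eventually.of_forall fun y => ?_)
    funext i
    simp only [Pi.add_apply, smul_apply, Pi.smul_apply, smul_eq_mul, hEv]
  have h3 : HasFDerivAt V (fderiv ℝ V (fun i => m i + σ * x i)) (fun i => m i + σ * x i) :=
    (H.c2.differentiable (by norm_num) _).hasFDerivAt
  refine ⟨_, h3.comp x h1, fun v => ?_⟩
  rw [ContinuousLinearMap.comp_apply, smul_apply, map_smul, smul_eq_mul, hEv,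
    fderiv_eq_gd]

/-- A nice potential, translated by `m`, scaled by `σ` and normalised, gives a density on
`EuclideanSpace ℝ ι` in the class `GV` of the library `h97s` (`Nice.lower`, `Nice.pd_lip`,
midpoint inequality as in `Nice.B1a_mid`). -/
theorem gv_of_nice (H : Nice κ M V) (m : ι → ℝ) {σ c : ℝ} (hσ : 0 < σ) (hc : 0 < c) :
    ∃ δ L : ℝ, Pool.Agent.Lib.MP_8d00da_gt.h97s.GV δ L
      (fun x : EuclideanSpace ℝ ι => c * Real.exp (-V (fun i => m i + σ * x i))) := by
  obtain ⟨D, hD⟩ := Classical.axiomOfChoice (fun x : EuclideanSpace ℝ ι => B1d_fderiv H m σ x)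
  have hW : ∀ x : EuclideanSpace ℝ ι, HasFDerivAt
      (fun y : EuclideanSpace ℝ ι => V (fun i => m i + σ * y i) - Real.log c) (D x) x := fun x =>
    (hD x).1.sub_const _
  have hexp : ∀ x : EuclideanSpace ℝ ι, c * Real.exp (-V (fun i => m i + σ * x i)) =
      Real.exp (-(V (fun i => m i + σ * x i) - Real.log c)) := fun x => by
    rw [neg_sub, Real.exp_sub, Real.exp_log hc, Real.exp_neg]
    rfl
  refine ⟨κ * σ ^ 2, |M| * σ ^ 2 * (Fintype.card ι : ℝ) ^ 2, ⟨by have := H.kpos; positivity, by positivity,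
    ⟨fun y => V (fun i => m i + σ * y i) - Real.log c, hexp, fun x => (hW x).differentiableAt, fun x y => ?_⟩,
    fun a ha0 ha1 x y => ?_, fun x y => ?_⟩⟩
  · rw [(hW x).fderiv, (hW y).fderiv]
    refine ContinuousLinearMap.opNorm_le_bound _ (by positivity) fun v => ?_
    have hn : ∀ (u : EuclideanSpace ℝ ι) (i : ι), |u i| ≤ ‖u‖ := fun u i => by
      have := PiLp.norm_apply_le u i
      rwa [Real.norm_eq_abs] at this
    have e1 : (D x - D y) v = σ * ∑ i, v i * (pd i V (fun i => m i + σ * x i) - pd i V (fun i => m i + σ * y i)) := by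
      rw [sub_apply, (hD x).2, (hD y).2, ← mul_sub]
      unfold gd
      rw [← Finset.sum_sub_distrib]
      congr 1
      exact Finset.sum_congr rfl fun i _ => by ring
    have h4 : ∀ i, |pd i V (fun i => m i + σ * x i) - pd i V (fun i => m i + σ * y i)| ≤
        |M| * σ * ((Fintype.card ι : ℝ) * ‖x - y‖) := by
      intro i
      refine (H.pd_lip _ _ i).trans ?_
      have h5 : ∑ j, |(m j + σ * x j) - (m j + σ * y j)| ≤ σ * ((Fintype.card ι : ℝ) * ‖x - y‖) := by
        have h6 : ∀ j ∈ Finset.univ, |(m j + σ * x j) - (m j + σ * y j)| ≤ σ * ‖x - y‖ := by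
          intro j _
          have e : (m j + σ * x j) - (m j + σ * y j) = σ * (x - y) j := by
            rw [PiLp.sub_apply]
            ring
          rw [e, abs_mul, abs_of_pos hσ]
          exact mul_le_mul_of_nonneg_left (hn _ j) hσ.le
        refine (Finset.sum_le_card_nsmul _ _ _ h6).trans (le_of_eq ?_)
        rw [nsmul_eq_mul, Finset.card_univ]
        ring
      calc M * ∑ j, |(m j + σ * x j) - (m j + σ * y j)|
          ≤ |M| * ∑ j, |(m j + σ * x j) - (m j + σ * y j)| :=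
            mul_le_mul_of_nonneg_right (le_abs_self M) (Finset.sum_nonneg fun _ _ => abs_nonneg _)
        _ ≤ |M| * (σ * ((Fintype.card ι : ℝ) * ‖x - y‖)) := mul_le_mul_of_nonneg_left h5 (abs_nonneg _)
        _ = _ := by ring
    rw [e1, Real.norm_eq_abs, abs_mul, abs_of_pos hσ]
    have h7 : |∑ i, v i * (pd i V (fun i => m i + σ * x i) - pd i V (fun i => m i + σ * y i))| ≤
        (Fintype.card ι : ℝ) * (‖v‖ * (|M| * σ * ((Fintype.card ι : ℝ) * ‖x - y‖))) := by
      refine (Finset.abs_sum_le_sum_abs _ _).trans ?_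
      refine (Finset.sum_le_card_nsmul _ _ (‖v‖ * (|M| * σ * ((Fintype.card ι : ℝ) * ‖x - y‖))) fun i _ => ?_).trans
        (le_of_eq ?_)
      · rw [abs_mul]
        exact mul_le_mul (hn v i) (h4 i) (abs_nonneg _) (norm_nonneg _)
      · rw [nsmul_eq_mul, Finset.card_univ]
    refine (mul_le_mul_of_nonneg_left h7 hσ.le).trans (le_of_eq ?_)
    ring
  · simp only [hexp]
    rw [← Real.exp_mul, ← Real.exp_mul, ← Real.exp_add]
    refine Real.exp_le_exp.mpr ?_
    have h1 := B1d_conv H ha0 ha1 (fun i => m i + σ * x i) (fun i => m i + σ * y i)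
      (fun i => m i + σ * ((1 - a) • x + a • y) i) (fun i => by
        rw [PiLp.add_apply, PiLp.smul_apply, PiLp.smul_apply, smul_eq_mul, smul_eq_mul]
        ring)
    nlinarith
  · simp only [hexp]
    rw [← Real.exp_add, ← Real.exp_add, ← Real.exp_nat_mul]
    refine Real.exp_le_exp.mpr ?_
    have h1 := B1d_mid H (fun i => m i + σ * ((1 / 2 : ℝ) • (x + y)) i) (fun i => σ / 2 * (x - y) i)
    have e1 : ((fun i => m i + σ * ((1 / 2 : ℝ) • (x + y)) i) + fun i => σ / 2 * (x - y) i : ι → ℝ) =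
        fun i => m i + σ * x i := by
      funext i
      rw [Pi.add_apply, PiLp.smul_apply, PiLp.add_apply, PiLp.sub_apply, smul_eq_mul]
      ring
    have e2 : ((fun i => m i + σ * ((1 / 2 : ℝ) • (x + y)) i) - fun i => σ / 2 * (x - y) i : ι → ℝ) =
        fun i => m i + σ * y i := by
      funext i
      rw [Pi.sub_apply, PiLp.smul_apply, PiLp.add_apply, PiLp.sub_apply, smul_eq_mul]
      ring
    have e3 : sq (fun i => σ / 2 * (x - y) i) = (σ / 2) ^ 2 * ‖x - y‖ ^ 2 := by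
      rw [sq_smul, B1d_norm_sq]
    rw [e1, e2, e3] at h1
    push_cast
    nlinarith

/-- Change of variables `x = m + σ z`. -/
theorem ex_scale (V f : (ι → ℝ) → ℝ) (m : ι → ℝ) {σ : ℝ} (hσ : 0 < σ) :
    ∫ z : EuclideanSpace ℝ ι, f (fun i => m i + σ * z i) * Real.exp (-V (fun i => m i + σ * z i)) =
      (σ ^ Fintype.card ι)⁻¹ * ∫ x, f x * Real.exp (-V x) := by
  have h1 := B1d_integral (fun z : ι → ℝ => f (fun i => m i + σ * z i) * Real.exp (-V (fun i => m i + σ * z i)))
  rw [h1]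
  have h2 := Measure.integral_comp_smul (volume : Measure (ι → ℝ)) (fun z : ι → ℝ => f (m + z) * Real.exp (-V (m + z))) σ
  have h3 := integral_add_left_eq_self (μ := (volume : Measure (ι → ℝ))) (fun z : ι → ℝ => f z * Real.exp (-V z)) m
  rw [h3, Module.finrank_fintype_fun_eq_card, abs_of_pos (by positivity), smul_eq_mul] at h2
  exact h2

/-- Integrability of exponentials of linear functions (`Nice.int_lin_exp`). -/
theorem int_exp_abs (H : Nice κ M V) (θ : ι → ℝ) (c m : ℝ) :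
    Integrable fun x => Real.exp (c * |dt θ x - m|) * Real.exp (-V x) := by
  have h0 := H.int_lin_exp (f := fun _ => Real.exp (|c| * |m|)) (T0.const _) (|c| * √(sq θ))
  refine Integrable.mono' h0 ?_ (Eventually.of_forall fun x => ?_)
  · refine Continuous.aestronglyMeasurable ?_
    have h1 : Continuous (dt θ) := by
      unfold dt
      fun_prop
    exact (Real.continuous_exp.comp (continuous_const.mul (h1.sub continuous_const).abs)).mul
      (Real.continuous_exp.comp H.c2.continuous.neg)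
  · rw [Real.norm_eq_abs, abs_of_pos (by positivity), ← mul_assoc]
    refine mul_le_mul_of_nonneg_right ?_ (Real.exp_pos _).le
    rw [← Real.exp_add]
    refine Real.exp_le_exp.mpr ?_
    have h1 : |dt θ x| ≤ √(sq θ) * √(sq x) := by
      rw [← Real.sqrt_mul (sq_nn θ)]
      exact Real.abs_le_sqrt (dt_sq_le θ x)
    have h2 : |dt θ x - m| ≤ √(sq θ) * √(sq x) + |m| := (abs_sub _ _).trans (by linarith)
    calc c * |dt θ x - m| ≤ |c| * |dt θ x - m| := mul_le_mul_of_nonneg_right (le_abs_self c) (abs_nonneg _)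
      _ ≤ |c| * (√(sq θ) * √(sq x) + |m|) := mul_le_mul_of_nonneg_left h2 (abs_nonneg _)
      _ = _ := by ring

/-- Exponential moments for unit vectors: `h97s.exp_momV` for the density of `gv_of_nice` with
`m = mn V`, `σ` as given, mass one; `‖θ‖ = 1`. -/
theorem exp_mom_unit (H : Nice κ M V) {θ : ι → ℝ} (hθ : sq θ = 1) {σ : ℝ} (hσ : 0 < σ)
    (h : var V (dt θ) ≤ σ ^ 2) :
    ex V (fun x => Real.exp (|dt θ x - ex V (dt θ)| / (6 * σ))) ≤ 3 := by
  obtain ⟨E, hE⟩ : ∃ E, E = ex V (dt θ) := ⟨_, rfl⟩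
  have hZ := H.zpos
  obtain ⟨Z, hZdef⟩ : ∃ Z : ℝ, Z = ∫ x, Real.exp (-V x) := ⟨_, rfl⟩
  rw [← hZdef] at hZ
  have hEm : dt θ (fun i => mn V i) = E := by
    rw [hE]
    have h1 := ex_sum H Finset.univ (F := fun i x => θ i * x i) (fun i _ => T0.cmul _ (T0.coord i))
    have h2 : ex V (dt θ) = ex V (fun x => ∑ i, θ i * x i) := rfl
    rw [h2, h1]
    unfold dt mn
    exact Finset.sum_congr rfl fun i _ => (ex_cmul V _ _).symm
  have hlin : ∀ z : ι → ℝ, dt θ (fun i => mn V i + σ * z i) = E + σ * dt θ z := by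
    intro z
    rw [← hEm]
    unfold dt
    rw [Finset.mul_sum, ← Finset.sum_add_distrib]
    exact Finset.sum_congr rfl fun i _ => by ring
  obtain ⟨c, hc⟩ : ∃ c, c = σ ^ Fintype.card ι / Z := ⟨_, rfl⟩
  have hc0 : 0 < c := by rw [hc]; positivity
  obtain ⟨δ, L, hGV⟩ := gv_of_nice H (mn V) hσ hc0
  have hscale : ∀ f : (ι → ℝ) → ℝ, ∫ z : EuclideanSpace ℝ ι, f (fun i => mn V i + σ * z i) *
      (c * Real.exp (-V (fun i => mn V i + σ * z i))) = (∫ x, f x * Real.exp (-V x)) / Z := by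
    intro f
    have h1 := ex_scale V f (mn V) hσ
    have h2 : ∫ z : EuclideanSpace ℝ ι, f (fun i => mn V i + σ * z i) *
        (c * Real.exp (-V (fun i => mn V i + σ * z i))) =
        c * ∫ z : EuclideanSpace ℝ ι, f (fun i => mn V i + σ * z i) *
          Real.exp (-V (fun i => mn V i + σ * z i)) := by
      rw [← integral_const_mul]
      exact integral_congr_ae (Eventually.of_forall fun z => by simp only; ring)
    rw [h2, h1, hc]
    have : σ ^ Fintype.card ι ≠ 0 := by positivity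
    field_simp
  have hm : ∫ z : EuclideanSpace ℝ ι, c * Real.exp (-V (fun i => mn V i + σ * z i)) = 1 := by
    have h1 := hscale (fun _ => 1)
    simp only [one_mul] at h1
    rw [h1, ← hZdef]
    exact div_self hZ.ne'
  obtain ⟨θ', hθ'⟩ : ∃ θ' : EuclideanSpace ℝ ι, WithLp.ofLp θ' = θ := ⟨WithLp.toLp 2 θ, rfl⟩
  have hnorm : ‖θ'‖ = 1 := by
    have h1 := B1d_norm_sq θ'
    rw [hθ', hθ] at h1
    have h2 := norm_nonneg θ'
    nlinarith
  have hin : ∀ z : EuclideanSpace ℝ ι, inner ℝ θ' z = dt θ (WithLp.ofLp z) := by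
    intro z
    rw [PiLp.inner_apply, ← hθ']
    unfold dt
    refine Finset.sum_congr rfl fun i _ => ?_
    simp only [inner, star_trivial, RCLike.re_to_real]
    ring
  have hin2 : ∀ z : EuclideanSpace ℝ ι, inner ℝ θ' z = (dt θ (fun i => mn V i + σ * z i) - E) / σ := by
    intro z
    rw [hin, hlin]
    field_simp
    ring
  have hvar : ∫ z : EuclideanSpace ℝ ι, (inner ℝ θ' z) ^ 2 *
      (c * Real.exp (-V (fun i => mn V i + σ * z i))) ≤ 1 := by
    have h1 := hscale (fun x => ((dt θ x - E) / σ) ^ 2)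
    have h2 : ∫ z : EuclideanSpace ℝ ι, (inner ℝ θ' z) ^ 2 *
        (c * Real.exp (-V (fun i => mn V i + σ * z i))) =
        (∫ x, ((dt θ x - E) / σ) ^ 2 * Real.exp (-V x)) / Z := by
      rw [← h1]
      exact integral_congr_ae (Eventually.of_forall fun z => by simp only [hin2])
    rw [h2]
    have h3 : (∫ x, ((dt θ x - E) / σ) ^ 2 * Real.exp (-V x)) / Z = (1 / σ ^ 2) * var V (dt θ) := by
      rw [var_eq H (T0.dtf θ), ← hE]
      unfold ex
      rw [← hZdef, ← mul_div_assoc, ← integral_const_mul]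
      congr 1
      exact integral_congr_ae (Eventually.of_forall fun x => by simp only [div_pow]; ring)
    rw [h3, one_div, inv_mul_le_iff₀ (by positivity), mul_one]
    exact h
  have key := Pool.Agent.Lib.MP_8d00da_gt.h97s.exp_momV hGV hm hnorm hvar
  have h4 := hscale (fun x => Real.exp (|(dt θ x - E) / σ| / 6))
  have h5 : ex V (fun x => Real.exp (|dt θ x - ex V (dt θ)| / (6 * σ))) =
      (∫ x, Real.exp (|(dt θ x - E) / σ| / 6) * Real.exp (-V x)) / Z := by
    unfold ex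
    rw [← hZdef]
    congr 1
    refine integral_congr_ae (Eventually.of_forall fun x => ?_)
    simp only
    have e : |dt θ x - ex V (dt θ)| / (6 * σ) = |(dt θ x - E) / σ| / 6 := by
      rw [← hE, abs_div, abs_of_pos hσ, div_div, mul_comm σ 6]
    have e' : (∫ x, dt θ x * Real.exp (-V x)) / Z = ex V (dt θ) := by
      unfold ex
      rw [← hZdef]
    rw [e', e]
  rw [h5, ← h4]
  refine le_trans (le_of_eq ?_) key
  exact integral_congr_ae (Eventually.of_forall fun z => by simp only [hin2])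

/-- Exponential moments (paper 322, 1.6); scaling, `θ = 0` is trivial. -/
theorem exp_mom (H : Nice κ M V) (θ : ι → ℝ) {σ : ℝ} (hσ : 0 < σ)
    (h : var V (dt θ) ≤ σ ^ 2) :
    ex V (fun x => Real.exp (|dt θ x - ex V (dt θ)| / (6 * σ))) ≤ 3 := by
  by_cases h0 : sq θ = 0
  · have hθ0 : ∀ x, dt θ x = 0 := by
      intro x
      have h1 := dt_sq_le θ x
      rw [h0, zero_mul] at h1
      have h2 := sq_nonneg (dt θ x)
      exact pow_eq_zero_iff (two_ne_zero) |>.mp (le_antisymm h1 h2)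
    have h1 : (fun x => Real.exp (|dt θ x - ex V (dt θ)| / (6 * σ))) = fun _ : ι → ℝ => (1 : ℝ) := by
      funext x
      have h2 : dt θ = fun _ => 0 := funext hθ0
      rw [h2, ex_const H, sub_zero, abs_zero, zero_div, Real.exp_zero]
    rw [h1, ex_const H]
    norm_num
  · have hs : 0 < sq θ := lt_of_le_of_ne (sq_nn θ) (Ne.symm h0)
    obtain ⟨s, hs1⟩ : ∃ s, s = √(sq θ) := ⟨_, rfl⟩
    have hs0 : 0 < s := by rw [hs1]; exact Real.sqrt_pos.mpr hs
    have hs2 : s ^ 2 = sq θ := by rw [hs1]; exact Real.sq_sqrt hs.le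
    have hdt : dt (fun i => s⁻¹ * θ i) = fun x => s⁻¹ * dt θ x := by
      funext x
      unfold dt
      rw [Finset.mul_sum]
      exact Finset.sum_congr rfl fun i _ => by ring
    have h1 : sq (fun i => s⁻¹ * θ i) = 1 := by
      rw [sq_smul, ← hs2, inv_pow]
      exact inv_mul_cancel₀ (by positivity)
    have h2 : var V (dt (fun i => s⁻¹ * θ i)) ≤ (s⁻¹ * σ) ^ 2 := by
      rw [hdt, var_cmul, mul_pow]
      exact mul_le_mul_of_nonneg_left h (by positivity)
    have key := exp_mom_unit H h1 (σ := s⁻¹ * σ) (by positivity) h2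
    rw [hdt, ex_cmul] at key
    refine le_trans (le_of_eq ?_) key
    congr 1
    funext x
    have e : |s⁻¹ * dt θ x - s⁻¹ * ex V (dt θ)| / (6 * (s⁻¹ * σ)) = |dt θ x - ex V (dt θ)| / (6 * σ) := by
      rw [← mul_sub, abs_mul, abs_of_pos (inv_pos.mpr hs0)]
      have : s⁻¹ ≠ 0 := (inv_pos.mpr hs0).ne'
      field_simp
    rw [e]

end Pool.Agent.Lib.MP_8d00da_gt.h42k
end

section

/-!
# Level-one inequality, eighth moments (paper 322, 1.6)
-/

namespace Pool.Agent.Lib.MP_8d00da_gt.h42k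

open MeasureTheory Set Filter
open scoped Topology NNReal ENNReal ContDiff

set_option linter.unusedSectionVars false

variable {ι : Type*} [Fintype ι] [DecidableEq ι]

variable {κ M : ℝ} {V f : (ι → ℝ) → ℝ}

theorem B1e_mono (H : Nice κ M V) {f g : (ι → ℝ) → ℝ} (hf : Integrable fun x => f x * Real.exp (-V x))
    (hg : Integrable fun x => g x * Real.exp (-V x)) (h : ∀ x, f x ≤ g x) : ex V f ≤ ex V g := by
  unfold ex
  refine div_le_div_of_nonneg_right ?_ H.zpos.le
  exact integral_mono hf hg fun x => mul_le_mul_of_nonneg_right (h x) (Real.exp_pos _).le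

theorem B1e_add {f g : (ι → ℝ) → ℝ} (hf : Integrable fun x => f x * Real.exp (-V x))
    (hg : Integrable fun x => g x * Real.exp (-V x)) :
    ex V (fun x => f x + g x) = ex V f + ex V g := by
  unfold ex
  rw [← add_div, ← integral_add hf hg]
  congr 1
  exact integral_congr_ae (Eventually.of_forall fun x => by simp only; ring)

/-- Level-one inequality in the direction `θ`.  For `b = pr V B > 0` and `c = log (3/b)`:
`1_B z ≤ 1_B (exp (z - c) + c - 1)`, `z = |θ·x~|/(6σ)`, so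
`E[1_B z] ≤ 3 e^{-c} + (c-1) b = b log(3/b)`. -/
theorem level_dir (H : Nice κ M V) {B : Set (ι → ℝ)} (hB : MeasurableSet B) (θ : ι → ℝ) {σ : ℝ}
    (hσ : 0 < σ) (h : var V (dt θ) ≤ σ ^ 2) :
    |cov V (B.indicator fun _ => 1) (dt θ)| ≤ 6 * σ * (pr V B * Real.log (3 / pr V B)) := by
  obtain ⟨E, hE⟩ : ∃ E, E = ex V (dt θ) := ⟨_, rfl⟩
  obtain ⟨b, hb⟩ : ∃ b, b = pr V B := ⟨_, rfl⟩
  rw [← hb]
  have hb0 : 0 ≤ b := by rw [hb]; exact pr_nonneg V B
  have hb1 : b ≤ 1 := by rw [hb]; exact pr_le_one H hB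
  have hind : T0 (B.indicator fun _ => (1 : ℝ)) := t0_ind hB
  have hdt : T0 (dt θ) := T0.dtf θ
  have hdE : T0 (fun x => dt θ x - E) := hdt.sub (T0.const E)
  have hi0 : ∀ x, 0 ≤ B.indicator (fun _ => (1 : ℝ)) x := fun x => by
    by_cases hx : x ∈ B
    · rw [Set.indicator_of_mem hx]; exact zero_le_one
    · rw [Set.indicator_of_notMem hx]
  have hi1 : ∀ x, B.indicator (fun _ => (1 : ℝ)) x ≤ 1 := fun x => by
    by_cases hx : x ∈ B
    · rw [Set.indicator_of_mem hx]
    · rw [Set.indicator_of_notMem hx]; exact zero_le_one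
  have hi2 : ∀ x, B.indicator (fun _ => (1 : ℝ)) x ^ 2 = B.indicator (fun _ => (1 : ℝ)) x := fun x => by
    by_cases hx : x ∈ B
    · rw [Set.indicator_of_mem hx]; norm_num
    · rw [Set.indicator_of_notMem hx]; norm_num
  -- reduction to the absolute value
  have h1 : cov V (B.indicator fun _ => 1) (dt θ) =
      ex V (fun x => (dt θ x - E) * B.indicator (fun _ => (1 : ℝ)) x) := by
    rw [cov_comm, cov_eq_left H hdt hind, ← hE]
  have hz : T0 (fun x => |dt θ x - E| / (6 * σ)) := by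
    have := T0.cmul (6 * σ)⁻¹ hdE.abs
    refine ⟨?_, ?_⟩
    · exact hdE.abs.meas.div_const _
    · refine this.pg.mono fun x => le_of_eq ?_
      congr 1
      rw [div_eq_inv_mul]
  have hbz : T0 (fun x => B.indicator (fun _ => (1 : ℝ)) x * (|dt θ x - E| / (6 * σ))) := hind.mul hz
  have h2 : |cov V (B.indicator fun _ => 1) (dt θ)| ≤
      6 * σ * ex V (fun x => B.indicator (fun _ => (1 : ℝ)) x * (|dt θ x - E| / (6 * σ))) := by
    rw [h1, ← ex_cmul]
    refine (ex_abs_le H (hdE.mul hind)).trans (le_of_eq ?_)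
    congr 1
    funext x
    rw [abs_mul, abs_of_nonneg (hi0 x)]
    field_simp
  refine h2.trans (mul_le_mul_of_nonneg_left ?_ (by positivity))
  by_cases hbz0 : b = 0
  · have h3 := ex_cs H hind hz
    have h4 : ex V (fun x => B.indicator (fun _ => (1 : ℝ)) x ^ 2) = 0 := by
      have : (fun x => B.indicator (fun _ => (1 : ℝ)) x ^ 2) = B.indicator (fun _ => (1 : ℝ)) := funext hi2
      rw [this]
      exact hb.symm.trans hbz0
    rw [h4, zero_mul] at h3
    have h5 : ex V (fun x => B.indicator (fun _ => (1 : ℝ)) x * (|dt θ x - E| / (6 * σ))) = 0 :=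
      pow_eq_zero_iff (two_ne_zero) |>.mp (le_antisymm h3 (sq_nonneg _))
    rw [h5, hbz0, zero_mul]
  · have hbpos : 0 < b := lt_of_le_of_ne hb0 (Ne.symm hbz0)
    obtain ⟨c, hc⟩ : ∃ c, c = Real.log (3 / b) := ⟨_, rfl⟩
    rw [← hc]
    have hec : Real.exp (-c) = b / 3 := by
      rw [hc, Real.exp_neg, Real.exp_log (by positivity), inv_div]
    have i1 : Integrable fun x => Real.exp (|dt θ x - E| / (6 * σ)) * Real.exp (-V x) := by
      have := int_exp_abs H θ (6 * σ)⁻¹ E
      refine this.congr (Eventually.of_forall fun x => ?_)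
      simp only [div_eq_inv_mul]
    have i2 : Integrable fun x => (Real.exp (-c) * Real.exp (|dt θ x - E| / (6 * σ))) * Real.exp (-V x) := by
      refine (i1.const_mul (Real.exp (-c))).congr (Eventually.of_forall fun x => ?_)
      simp only
      ring
    have i3 : Integrable fun x => ((c - 1) * B.indicator (fun _ => (1 : ℝ)) x) * Real.exp (-V x) :=
      H.int (T0.cmul _ hind)
    have i4 : Integrable fun x => (Real.exp (-c) * Real.exp (|dt θ x - E| / (6 * σ)) +
        (c - 1) * B.indicator (fun _ => (1 : ℝ)) x) * Real.exp (-V x) := by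
      refine (i2.add i3).congr (Eventually.of_forall fun x => ?_)
      simp only [Pi.add_apply]
      ring
    have h3 : ex V (fun x => B.indicator (fun _ => (1 : ℝ)) x * (|dt θ x - E| / (6 * σ))) ≤
        ex V (fun x => Real.exp (-c) * Real.exp (|dt θ x - E| / (6 * σ)) +
          (c - 1) * B.indicator (fun _ => (1 : ℝ)) x) := by
      refine B1e_mono H (H.int hbz) i4 fun x => ?_
      have h4 : |dt θ x - E| / (6 * σ) ≤ Real.exp (-c) * Real.exp (|dt θ x - E| / (6 * σ)) + (c - 1) := by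
        rw [← Real.exp_add]
        have := Real.add_one_le_exp (-c + |dt θ x - E| / (6 * σ))
        linarith
      have h5 : 0 < Real.exp (-c) * Real.exp (|dt θ x - E| / (6 * σ)) := by positivity
      by_cases hx : x ∈ B
      · rw [Set.indicator_of_mem hx, one_mul, mul_one]
        exact h4
      · rw [Set.indicator_of_notMem hx, zero_mul, mul_zero, add_zero]
        exact h5.le
    refine h3.trans ?_
    rw [B1e_add i2 i3, ex_cmul, ex_cmul, hec]
    have h6 := exp_mom H θ hσ h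
    rw [← hE] at h6
    have h7 : ex V (B.indicator fun _ => (1 : ℝ)) = b := hb.symm
    rw [h7]
    have h8 : b / 3 * ex V (fun x => Real.exp (|dt θ x - E| / (6 * σ))) ≤ b / 3 * 3 :=
      mul_le_mul_of_nonneg_left h6 (by positivity)
    nlinarith

/-- Level-one inequality: `level_dir` with `θ_i = cov(1_B, x_i)`, `σ² = L |θ|²` (or slightly
larger). -/
theorem level_one (H : Nice κ M V) {B : Set (ι → ℝ)} (hB : MeasurableSet B) {L : ℝ} (hL0 : 0 ≤ L)
    (hL : CLe V L) :
    ∑ i, cov V (B.indicator fun _ => 1) (fun x => x i) ^ 2 ≤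
      36 * L * (pr V B * Real.log (3 / pr V B)) ^ 2 := by
  obtain ⟨T, hT⟩ : ∃ T, T = pr V B * Real.log (3 / pr V B) := ⟨_, rfl⟩
  rw [← hT]
  obtain ⟨θ, hθ⟩ : ∃ θ : ι → ℝ, ∀ i, θ i = cov V (B.indicator fun _ => 1) (fun x => x i) :=
    ⟨_, fun i => rfl⟩
  have hind : T0 (B.indicator fun _ => (1 : ℝ)) := t0_ind hB
  have hT0 : 0 ≤ T := by
    have hb0 := pr_nonneg V B
    have hb1 := pr_le_one H hB
    rw [hT]
    by_cases h0 : pr V B = 0
    · rw [h0, zero_mul]
    · have h1 : 0 < pr V B := lt_of_le_of_ne hb0 (Ne.symm h0)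
      refine mul_nonneg hb0 (Real.log_nonneg ?_)
      rw [le_div_iff₀ h1]
      linarith
  have hS : ∑ i, cov V (B.indicator fun _ => 1) (fun x => x i) ^ 2 = sq θ := by
    unfold sq
    exact Finset.sum_congr rfl fun i _ => by rw [hθ]
  rw [hS]
  have hS2 : cov V (B.indicator fun _ => 1) (dt θ) = sq θ := by
    rw [cov_comm]
    have h1 : dt θ = fun x => ∑ i, θ i * x i := rfl
    rw [h1, cov_sum H Finset.univ (F := fun i x => θ i * x i) (fun i _ => T0.cmul _ (T0.coord i)) hind]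
    unfold sq
    refine Finset.sum_congr rfl fun i _ => ?_
    rw [cov_cmul, cov_comm, ← hθ]
    ring
  have key : ∀ σ : ℝ, 0 < σ → L * sq θ ≤ σ ^ 2 → sq θ ≤ 6 * σ * T := by
    intro σ hσ h
    have h1 := level_dir H hB θ hσ ((hL θ).trans h)
    rw [hS2, ← hT] at h1
    exact (le_abs_self _).trans h1
  have hs0 := sq_nn θ
  by_cases h0 : L * sq θ = 0
  · have h1 : sq θ ≤ 0 := by
      refine le_of_forall_pos_le_add fun ε hε => ?_
      have h2 := key (ε / (6 * (T + 1))) (by positivity) (by rw [h0]; positivity)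
      have h3 : 6 * (ε / (6 * (T + 1))) * T ≤ ε := by
        rw [show 6 * (ε / (6 * (T + 1))) * T = ε * (T / (T + 1)) by field_simp]
        have h4 : T / (T + 1) ≤ 1 := by
          rw [div_le_one (by positivity)]
          linarith
        nlinarith
      linarith
    exact h1.trans (by positivity)
  · have h1 : 0 < L * sq θ := lt_of_le_of_ne (mul_nonneg hL0 hs0) (Ne.symm h0)
    have h2 := key (√(L * sq θ)) (Real.sqrt_pos.mpr h1) (Real.sq_sqrt h1.le).ge
    have h3 : sq θ ^ 2 ≤ (6 * √(L * sq θ) * T) ^ 2 := pow_le_pow_left₀ hs0 h2 2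
    rw [mul_pow, mul_pow, Real.sq_sqrt h1.le] at h3
    have h4 : 0 < sq θ := by
      rcases eq_or_lt_of_le hs0 with h5 | h5
      · rw [← h5, mul_zero] at h1
        exact absurd h1 (lt_irrefl _)
      · exact h5
    have h5 : sq θ * sq θ ≤ sq θ * (36 * L * T ^ 2) := by nlinarith
    exact le_of_mul_le_mul_left h5 h4

/-- Eighth moment of a coordinate: `z^8 ≤ 8! e^z`, `z = |x~_i|/(6 √a)`. -/
theorem mom8_coord (H : Nice κ M V) {a : ℝ} (ha : 0 < a) (hC : CLe V a) (i : ι) :
    ex V (fun x => (x i - mn V i) ^ 8) ≤ 3 * 40320 * 6 ^ 8 * a ^ 4 := by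
  have hdt : dt (Pi.single i (1 : ℝ)) = fun x : ι → ℝ => x i := by
    funext x
    unfold dt
    rw [Finset.sum_eq_single i]
    · rw [Pi.single_eq_same, one_mul]
    · intro j _ hj
      rw [Pi.single_eq_of_ne hj, zero_mul]
    · intro h
      exact absurd (Finset.mem_univ i) h
  have hsa : 0 < √a := Real.sqrt_pos.mpr ha
  have hsa2 : √a ^ 2 = a := Real.sq_sqrt ha.le
  have hv : var V (dt (Pi.single i (1 : ℝ))) ≤ √a ^ 2 := by
    have h1 := hC (Pi.single i 1)
    rw [sq_single, one_pow, mul_one] at h1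
    rw [hsa2]
    exact h1
  have h1 := exp_mom H (Pi.single i 1) hsa hv
  rw [hdt] at h1
  have i1 : Integrable fun x : ι → ℝ => Real.exp (|x i - mn V i| / (6 * √a)) * Real.exp (-V x) := by
    have := int_exp_abs H (Pi.single i 1) (6 * √a)⁻¹ (mn V i)
    rw [hdt] at this
    refine this.congr (Eventually.of_forall fun x => ?_)
    simp only [div_eq_inv_mul]
  have i2 : Integrable fun x : ι → ℝ => (40320 * 6 ^ 8 * a ^ 4 * Real.exp (|x i - mn V i| / (6 * √a))) *
      Real.exp (-V x) := by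
    refine (i1.const_mul (40320 * 6 ^ 8 * a ^ 4)).congr (Eventually.of_forall fun x => ?_)
    simp only
    ring
  have i3 : Integrable fun x : ι → ℝ => (x i - mn V i) ^ 8 * Real.exp (-V x) :=
    H.int (((T0.coord i).sub (T0.const _)).pow 8)
  refine (B1e_mono H i3 i2 fun x => ?_).trans ?_
  · have h2 := Real.pow_div_factorial_le_exp (|x i - mn V i| / (6 * √a)) (by positivity) 8
    rw [div_le_iff₀ (by positivity)] at h2
    have h3 : (|x i - mn V i| / (6 * √a)) ^ 8 = (x i - mn V i) ^ 8 / (6 ^ 8 * a ^ 4) := by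
      rw [div_pow, mul_pow, ← hsa2]
      congr 1
      · rw [show (8 : ℕ) = 2 * 4 from rfl, pow_mul, sq_abs, ← pow_mul]
      · rw [Real.sqrt_sq hsa.le]
        ring
    rw [h3, div_le_iff₀ (by positivity)] at h2
    have h4 : ((Nat.factorial 8 : ℕ) : ℝ) = 40320 := by norm_num [Nat.factorial]
    rw [h4] at h2
    linarith
  · rw [ex_cmul]
    have h5 : ex V (fun x => Real.exp (|x i - mn V i| / (6 * √a))) ≤ 3 := h1
    have h6 : 40320 * 6 ^ 8 * a ^ 4 * ex V (fun x => Real.exp (|x i - mn V i| / (6 * √a))) ≤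
        40320 * 6 ^ 8 * a ^ 4 * 3 := mul_le_mul_of_nonneg_left h5 (by positivity)
    linarith

/-- Eighth moment (paper 322, 1.6): `(∑ z_i²)⁴ ≤ n³ ∑ z_i⁸`. -/
theorem mom8 (H : Nice κ M V) {a : ℝ} (ha : 0 < a) (hC : CLe V a) :
    ex V (fun x => (∑ i, (x i - mn V i) ^ 2) ^ 4) ≤
      3 * 40320 * 6 ^ 8 * a ^ 4 * (Fintype.card ι : ℝ) ^ 4 := by
  have h1 : ∀ x : ι → ℝ, (∑ i, (x i - mn V i) ^ 2) ^ 4 ≤
      (Fintype.card ι : ℝ) ^ 3 * ∑ i, (x i - mn V i) ^ 8 := by
    intro x
    have h2 := sq_sum_le_card_mul_sum_sq (s := (Finset.univ : Finset ι)) (f := fun i => (x i - mn V i) ^ 2)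
    have h3 := sq_sum_le_card_mul_sum_sq (s := (Finset.univ : Finset ι)) (f := fun i => (x i - mn V i) ^ 4)
    rw [Finset.card_univ] at h2 h3
    have e1 : ∀ i, ((x i - mn V i) ^ 2) ^ 2 = (x i - mn V i) ^ 4 := fun i => by ring
    have e2 : ∀ i, ((x i - mn V i) ^ 4) ^ 2 = (x i - mn V i) ^ 8 := fun i => by ring
    simp only [e1] at h2
    simp only [e2] at h3
    have h4 : ((∑ i, (x i - mn V i) ^ 2) ^ 2) ^ 2 ≤ ((Fintype.card ι : ℝ) * ∑ i, (x i - mn V i) ^ 4) ^ 2 :=
      pow_le_pow_left₀ (sq_nonneg _) h2 2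
    have h5 : (Fintype.card ι : ℝ) ^ 2 * (∑ i, (x i - mn V i) ^ 4) ^ 2 ≤
        (Fintype.card ι : ℝ) ^ 2 * ((Fintype.card ι : ℝ) * ∑ i, (x i - mn V i) ^ 8) :=
      mul_le_mul_of_nonneg_left h3 (by positivity)
    calc (∑ i, (x i - mn V i) ^ 2) ^ 4 = ((∑ i, (x i - mn V i) ^ 2) ^ 2) ^ 2 := by ring
      _ ≤ _ := h4
      _ = (Fintype.card ι : ℝ) ^ 2 * (∑ i, (x i - mn V i) ^ 4) ^ 2 := by ring
      _ ≤ _ := h5
      _ = _ := by ring
  have ht : ∀ i, T0 (fun x : ι → ℝ => (x i - mn V i) ^ 8) := fun i => ((T0.coord i).sub (T0.const _)).pow 8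
  have ht2 : T0 (fun x : ι → ℝ => (∑ i, (x i - mn V i) ^ 2) ^ 4) :=
    (T0.sum Finset.univ fun i _ => ((T0.coord i).sub (T0.const _)).pow 2).pow 4
  have hts : T0 (fun x : ι → ℝ => ∑ i, (x i - mn V i) ^ 8) := T0.sum Finset.univ fun i _ => ht i
  refine (ex_mono H ht2 (T0.cmul ((Fintype.card ι : ℝ) ^ 3) hts) h1).trans ?_
  rw [ex_cmul, ex_sum H Finset.univ fun i _ => ht i]
  have h6 : ∑ i, ex V (fun x : ι → ℝ => (x i - mn V i) ^ 8) ≤
      (Fintype.card ι : ℝ) * (3 * 40320 * 6 ^ 8 * a ^ 4) := by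
    refine (Finset.sum_le_card_nsmul _ _ _ fun i _ => mom8_coord H ha hC i).trans (le_of_eq ?_)
    rw [nsmul_eq_mul, Finset.card_univ]
  refine (mul_le_mul_of_nonneg_left h6 (by positivity)).trans (le_of_eq ?_)
  ring

end Pool.Agent.Lib.MP_8d00da_gt.h42k
end
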