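import Pool.Agent.Lib.MP_8d00da_gt.h42k.S5f

/-!
The generator inequality of 6.3 in the form: Itô term + `σ'`-term `≤ C F`
(paper 323, 5.4 and 6.3), for a symmetric 3-tensor `T` (third central moments in the standard
coordinates) and an orthonormal eigenbasis of the covariance matrix `A`.
-/

namespace Pool.Agent.Lib.MP_8d00da_gt.h42k

open Finset Matrix

variable {ι : Type*} [Fintype ι] [DecidableEq ι]

/-- `T_i` as a matrix -/
def Tm (T : ι → ι → ι → ℝ) (i : ι) : Matrix ι ι ℝ := Matrix.of fun j k => T i j k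

/-- the tensor in the basis `e`: `u_mkl = Σ_{ijk'} e_mi e_kj e_lk' T_ijk'` -/
noncomputable def Tu (e : Matrix ι ι ℝ) (T : ι → ι → ι → ℝ) (m k l : ι) : ℝ :=
  ∑ i, e m i * (e * Tm T i * eᵀ) k l

omit [DecidableEq ι] in
lemma conj_entry (e X : Matrix ι ι ℝ) (k l : ι) :
    (e * X * eᵀ) k l = ∑ a, ∑ b, e k a * X a b * e l b := by
  rw [Matrix.mul_assoc, Matrix.mul_apply]
  refine Finset.sum_congr rfl fun a _ => ?_
  rw [Matrix.mul_apply, Finset.mul_sum]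
  refine Finset.sum_congr rfl fun b _ => ?_
  rw [transpose_apply]; ring

omit [DecidableEq ι] in
theorem Tu_symm23 (e : Matrix ι ι ℝ) (T : ι → ι → ι → ℝ) (h : ∀ i j k, T i j k = T i k j)
    (m k l : ι) : Tu e T m k l = Tu e T m l k := by
  unfold Tu
  refine Finset.sum_congr rfl fun i _ => ?_
  rw [conj_entry, conj_entry, Finset.sum_comm]
  congr 1
  refine Finset.sum_congr rfl fun a _ => Finset.sum_congr rfl fun b _ => ?_
  simp only [Tm, Matrix.of_apply]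
  rw [h i b a]; ring

omit [DecidableEq ι] in
theorem Tu_symm12 (e : Matrix ι ι ℝ) (T : ι → ι → ι → ℝ) (h : ∀ i j k, T i j k = T j i k)
    (m k l : ι) : Tu e T m k l = Tu e T k m l := by
  unfold Tu
  simp only [conj_entry, Finset.mul_sum, Tm, Matrix.of_apply]
  rw [Finset.sum_comm]
  refine Finset.sum_congr rfl fun a _ => Finset.sum_congr rfl fun b _ =>
    Finset.sum_congr rfl fun c _ => ?_
  rw [h b a c]; ring

/-- `Σ_i (e_k · T_i e_l)² = Σ_m u_mkl²` -/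
theorem sum_Tm_eq (e : Matrix ι ι ℝ) (he : e * eᵀ = 1) (T : ι → ι → ι → ℝ) (k l : ι) :
    ∑ i, ((e * Tm T i * eᵀ) k l) ^ 2 = ∑ m, Tu e T m k l ^ 2 := by
  have he' : eᵀ * e = 1 := mul_eq_one_comm.mp he
  rw [← sum_sq_mulVec he' (fun i => (e * Tm T i * eᵀ) k l)]
  refine Finset.sum_congr rfl fun m _ => ?_
  simp only [mulVec, dotProduct, Tu]

omit [DecidableEq ι] in
lemma sum_mul_eq_trace (B Y : Matrix ι ι ℝ) :
    ∑ k, ∑ l, B k l * Y k l = trace (Bᵀ * Y) := by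
  rw [Finset.sum_comm]
  simp only [Matrix.trace, Matrix.diag_apply, Matrix.mul_apply, Matrix.transpose_apply]

omit [DecidableEq ι] in
/-- the third moment in the direction `e_m` against the matrix `e^T B e`:
`Σ_{kl} B_kl u_mkl = Σ_{ijk} e_mi (e^T B e)_jk T_ijk` -/
theorem sum_Tu_mul (e : Matrix ι ι ℝ) (T : ι → ι → ι → ℝ) (B : Matrix ι ι ℝ) (m : ι) :
    ∑ k, ∑ l, B k l * Tu e T m k l = ∑ i, ∑ j, ∑ k, e m i * (eᵀ * B * e) j k * T i j k := by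
  have h1 : ∀ i, ∑ j, ∑ k, e m i * (eᵀ * B * e) j k * T i j k
      = e m i * trace (Bᵀ * (e * Tm T i * eᵀ)) := by
    intro i
    have h2 : ∑ j, ∑ k, e m i * (eᵀ * B * e) j k * T i j k
        = e m i * ∑ j, ∑ k, (eᵀ * B * e) j k * Tm T i j k := by
      simp only [Finset.mul_sum, Tm, Matrix.of_apply, mul_assoc]
    rw [h2, sum_mul_eq_trace]
    congr 1
    rw [transpose_mul, transpose_mul, transpose_transpose]
    calc trace (eᵀ * (Bᵀ * e) * Tm T i) = trace (eᵀ * (Bᵀ * e * Tm T i)) := by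
          rw [Matrix.mul_assoc]
      _ = trace (Bᵀ * e * Tm T i * eᵀ) := trace_mul_comm _ _
      _ = _ := by simp only [Matrix.mul_assoc]
  rw [Finset.sum_congr rfl fun i _ => h1 i]
  unfold Tu
  simp only [Finset.mul_sum]
  have h3 : ∀ k, ∑ l, ∑ i, B k l * (e m i * (e * Tm T i * eᵀ) k l)
      = ∑ i, ∑ l, B k l * (e m i * (e * Tm T i * eᵀ) k l) := fun k => Finset.sum_comm
  rw [Finset.sum_congr rfl fun k _ => h3 k, Finset.sum_comm]
  refine Finset.sum_congr rfl fun i _ => ?_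
  rw [← sum_mul_eq_trace, Finset.mul_sum]
  refine Finset.sum_congr rfl fun k _ => ?_
  rw [Finset.mul_sum]
  refine Finset.sum_congr rfl fun l _ => ?_
  ring

lemma sigma_term {q : ℕ} (hq : 224 ≤ q) {σ τ x : ℝ} (hσ : 0 < σ) (hτ : 0 < τ) (hx : 0 ≤ x) :
    (if (q : ℝ) - 1 < σ * x then 56 / τ else 0) * ff q σ x
      ≤ σ / (2 * τ) * (q * (fb σ x * ff q σ x)) := by
  have hff := ff_nonneg (q := q) hσ.le hx
  have hfb := fb_nonneg hσ.le hx
  have hq' : (224 : ℝ) ≤ q := by exact_mod_cast hq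
  split_ifs with h
  · have h1 : 1 / 2 ≤ σ * fb σ x := by
      unfold fb
      rw [mul_div_assoc', div_le_div_iff₀ (by norm_num) (one_add_pos hσ.le hx)]
      linarith
    have h2 : 112 ≤ q * (σ * fb σ x) := by nlinarith
    have h3 : 56 / τ ≤ (q * (σ * fb σ x)) / (2 * τ) := by
      rw [div_le_div_iff₀ hτ (by positivity)]
      nlinarith
    calc 56 / τ * ff q σ x ≤ (q * (σ * fb σ x)) / (2 * τ) * ff q σ x :=
          mul_le_mul_of_nonneg_right h3 hff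
      _ = _ := by ring
  · rw [zero_mul]; positivity

omit [DecidableEq ι] in
/-- scalar form of 6.3, (IL) version -/
theorem GF_scalar_IL {q : ℕ} (hq : 224 ≤ q) {σ τ : ℝ} (hσ : 0 < σ) (hτ : 0 < τ) (lam : ι → ℝ)
    (hlam : ∀ i, 0 ≤ lam i) (hlamτ : ∀ i, lam i ≤ 1 / τ) (u : ι → ι → ι → ℝ)
    (h2 : ∀ i j k, u i j k = u i k j) (h12 : ∀ i j k, u i j k = u j i k)
    (h3 : ∀ i j k, lam i = 0 → u i j k = 0)
    (IL : ∀ i z, 0 < z → SI lam u i z ≤ 4 * lam i * (z * √z) / √τ) :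
    (1 / 2) * ∑ i, ∑ j, ∑ k, cc q σ (lam j) (lam k) * u i j k ^ 2
      - σ / (2 * τ) * (q * ∑ k, fb σ (lam k) * ff q σ (lam k))
      ≤ 80 * q ^ 2 / (√σ * √τ) * ∑ i, ff q σ (lam i) := by
  have h1 := triple_IL (q := q) (by omega) hσ hτ lam hlam hlamτ u h2 h12 h3 IL
  simp only [add_mul, Finset.sum_add_distrib] at h1
  rw [← Finset.mul_sum] at h1
  have h4 : ∑ i, (if (q : ℝ) - 1 < σ * lam i then 56 / τ else 0) * ff q σ (lam i)
      ≤ σ / (2 * τ) * (q * ∑ k, fb σ (lam k) * ff q σ (lam k)) := by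
    rw [Finset.mul_sum, Finset.mul_sum]
    exact Finset.sum_le_sum fun i _ => sigma_term hq hσ hτ (hlam i)
  linarith

omit [DecidableEq ι] in
/-- scalar form of 6.3, (K) version -/
theorem GF_scalar_K {q : ℕ} (hq : 224 ≤ q) {σ τ K : ℝ} (hσ : 0 < σ) (hτ : 0 < τ) (hK : 0 ≤ K)
    (lam : ι → ℝ)
    (hlam : ∀ i, 0 ≤ lam i) (hlamτ : ∀ i, lam i ≤ 1 / τ) (u : ι → ι → ι → ℝ)
    (h2 : ∀ i j k, u i j k = u i k j) (h12 : ∀ i j k, u i j k = u j i k)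
    (h3 : ∀ i j k, lam i = 0 → u i j k = 0)
    (IL : ∀ i z, 0 < z → SI lam u i z ≤ 4 * lam i * (z * √z) / √τ)
    (QK : ∀ i z, 0 < z → SI lam u i z ≤ K * lam i * z ^ 2) :
    (1 / 2) * ∑ i, ∑ j, ∑ k, cc q σ (lam j) (lam k) * u i j k ^ 2
      - σ / (2 * τ) * (q * ∑ k, fb σ (lam k) * ff q σ (lam k))
      ≤ 16 * q ^ 2 * K / σ * ∑ i, ff q σ (lam i) := by
  have h1 := triple_K (q := q) (by omega) hσ hτ hK lam hlam hlamτ u h2 h12 h3 IL QK
  simp only [add_mul, Finset.sum_add_distrib] at h1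
  rw [← Finset.mul_sum] at h1
  have h4 : ∑ i, (if (q : ℝ) - 1 < σ * lam i then 56 / τ else 0) * ff q σ (lam i)
      ≤ σ / (2 * τ) * (q * ∑ k, fb σ (lam k) * ff q σ (lam k)) := by
    rw [Finset.mul_sum, Finset.mul_sum]
    exact Finset.sum_le_sum fun i _ => sigma_term hq hσ hτ (hlam i)
  linarith

lemma sum_cc_Tm {q : ℕ} {σ : ℝ} {e : Matrix ι ι ℝ} (he : e * eᵀ = 1) (lam : ι → ℝ)
    (T : ι → ι → ι → ℝ) :
    ∑ i, ∑ k, ∑ l, cc q σ (lam k) (lam l) * ((e * Tm T i * eᵀ) k l) ^ 2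
      = ∑ m, ∑ k, ∑ l, cc q σ (lam k) (lam l) * Tu e T m k l ^ 2 := by
  rw [Finset.sum_comm, Finset.sum_comm (f := fun m k => ∑ l, cc q σ (lam k) (lam l) * Tu e T m k l ^ 2)]
  refine Finset.sum_congr rfl fun k _ => ?_
  rw [Finset.sum_comm, Finset.sum_comm (f := fun m l => cc q σ (lam k) (lam l) * Tu e T m k l ^ 2)]
  refine Finset.sum_congr rfl fun l _ => ?_
  rw [← Finset.mul_sum, ← Finset.mul_sum, sum_Tm_eq e he T k l]

/-- **6.3 (IL)**: for `A` PSD with `A ≤ 1/τ`, a symmetric tensor `T` with the (IL) property in an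
orthonormal eigenbasis `e`:
`- Tr F'(A) A² + ½ Σ_i Σ_kl c(λ_k,λ_l)(e_k·T_i e_l)² + σ/(2τ) ∂F/∂σ ≤ 80 q² /(√σ √τ) F`. -/
theorem GF_IL {q : ℕ} (hq : 224 ≤ q) {σ τ : ℝ} (hσ : 0 < σ) (hτ : 0 < τ) {A e : Matrix ι ι ℝ}
    {lam : ι → ℝ} (he : Eig A e lam) (hA : PSD A) (hlamτ : ∀ i, lam i ≤ 1 / τ)
    (T : ι → ι → ι → ℝ) (h2 : ∀ i j k, T i j k = T i k j) (h12 : ∀ i j k, T i j k = T j i k)
    (h3 : ∀ m k l, lam m = 0 → Tu e T m k l = 0)
    (IL : ∀ i z, 0 < z → SI lam (Tu e T) i z ≤ 4 * lam i * (z * √z) / √τ) :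
    -trace (FD q σ A * (A * A))
      + (1 / 2) * ∑ i, ∑ k, ∑ l, cc q σ (lam k) (lam l) * ((e * Tm T i * eᵀ) k l) ^ 2
      - σ / (2 * τ) * (q * trace (A * FB σ A ^ (q + 1)))
      ≤ 80 * q ^ 2 / (√σ * √τ) * FF q σ A := by
  have hlam := he.nonneg hA
  have h1 := GF_scalar_IL hq hσ hτ lam hlam hlamτ (Tu e T)
    (fun i j k => Tu_symm23 e T h2 i j k) (fun i j k => Tu_symm12 e T h12 i j k) h3 IL
  have h4 := hA.FD_sq_nonneg (q := q) hσ.le
  rw [sum_cc_Tm he.orth, he.FF_eq hlam hσ.le, he.trace_sigma hlam hσ.le]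
  linarith

/-- **6.3 (K)** -/
theorem GF_K {q : ℕ} (hq : 224 ≤ q) {σ τ K : ℝ} (hσ : 0 < σ) (hτ : 0 < τ) (hK : 0 ≤ K)
    {A e : Matrix ι ι ℝ}
    {lam : ι → ℝ} (he : Eig A e lam) (hA : PSD A) (hlamτ : ∀ i, lam i ≤ 1 / τ)
    (T : ι → ι → ι → ℝ) (h2 : ∀ i j k, T i j k = T i k j) (h12 : ∀ i j k, T i j k = T j i k)
    (h3 : ∀ m k l, lam m = 0 → Tu e T m k l = 0)
    (IL : ∀ i z, 0 < z → SI lam (Tu e T) i z ≤ 4 * lam i * (z * √z) / √τ)
    (QK : ∀ i z, 0 < z → SI lam (Tu e T) i z ≤ K * lam i * z ^ 2) :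
    -trace (FD q σ A * (A * A))
      + (1 / 2) * ∑ i, ∑ k, ∑ l, cc q σ (lam k) (lam l) * ((e * Tm T i * eᵀ) k l) ^ 2
      - σ / (2 * τ) * (q * trace (A * FB σ A ^ (q + 1)))
      ≤ 16 * q ^ 2 * K / σ * FF q σ A := by
  have hlam := he.nonneg hA
  have h1 := GF_scalar_K hq hσ hτ hK lam hlam hlamτ (Tu e T)
    (fun i j k => Tu_symm23 e T h2 i j k) (fun i j k => Tu_symm12 e T h12 i j k) h3 IL QK
  have h4 := hA.FD_sq_nonneg (q := q) hσ.le
  rw [sum_cc_Tm he.orth, he.FF_eq hlam hσ.le, he.trace_sigma hlam hσ.le]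
  linarith

end Pool.Agent.Lib.MP_8d00da_gt.h42k
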