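import Pool.Agent.Lib.MP_8d00da_gt.h42k.KDefs

/-!
# Eigenbases, third moments, operator norm: definitions for sections 5-7
-/

namespace Pool.Agent.Lib.MP_8d00da_gt.h42k

open MeasureTheory Set Filter
open scoped Topology NNReal ENNReal ContDiff

variable {ι : Type*} [Fintype ι] [DecidableEq ι]

/-- `e` is an orthonormal basis of eigenvectors of `A` with eigenvalues `lam`. -/
structure EB (A : Matrix ι ι ℝ) (e : ι → ι → ℝ) (lam : ι → ℝ) : Prop where
  orth : ∀ i j, dt (e i) (e j) = if i = j then 1 else 0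
  eig : ∀ i, A.mulVec (e i) = fun a => lam i * e i a

/-- The centred point. -/
noncomputable def ctr (V : (ι → ℝ) → ℝ) (x : ι → ℝ) : ι → ℝ := fun i => x i - mn V i

/-- Third central moments in three directions. -/
noncomputable def tmd (V : (ι → ℝ) → ℝ) (a b c : ι → ℝ) : ℝ :=
  ex V fun x => dt a (ctr V x) * dt b (ctr V x) * dt c (ctr V x)

/-- The operator norm of a matrix on the Euclidean space. -/
noncomputable def opn (A : Matrix ι ι ℝ) : ℝ := ‖Matrix.toEuclideanCLM (𝕜 := ℝ) A‖

/-- `L(y)`: the operator norm of the covariance matrix at time `t`. -/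
noncomputable def Lop (V : (ι → ℝ) → ℝ) (t : ℝ) (y : ι → ℝ) : ℝ := opn (CM (pt V t y))

/-- `β(y)`: equal to `L(y)` if `L(y) > 3a`, and `0` otherwise. -/
noncomputable def beta (V : (ι → ℝ) → ℝ) (a t : ℝ) (y : ι → ℝ) : ℝ :=
  if 3 * a < Lop V t y then Lop V t y else 0

end Pool.Agent.Lib.MP_8d00da_gt.h42k
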