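import Pool.Agent.Lib.MP_8d00da_gt.h25.Op
import Pool.Agent.Lib.MP_8d00da_gt.h42k.S6Defs

/-!
# Eigenbases: linear algebra
-/

namespace Pool.Agent.Lib.MP_8d00da_gt.h42k

open MeasureTheory Set Filter
open scoped Topology NNReal ENNReal ContDiff

set_option linter.unusedSectionVars false
set_option linter.unusedVariables false

variable {ι : Type*} [Fintype ι] [DecidableEq ι]

variable {A : Matrix ι ι ℝ} {e : ι → ι → ℝ} {lam : ι → ℝ}

/-- Spectral theorem (`Matrix.IsHermitian.eigenvectorBasis`). -/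
theorem exists_EB (hA : ∀ i j, A i j = A j i) : ∃ e lam, EB A e lam := by
  have hH : A.IsHermitian := by
    ext i j
    simp [Matrix.conjTranspose_apply, hA i j]
  refine ⟨fun i a => hH.eigenvectorBasis i a, hH.eigenvalues, ?_, ?_⟩
  · intro i j
    have h := (orthonormal_iff_ite.1 hH.eigenvectorBasis.orthonormal) i j
    rw [← h]
    simp only [dt, PiLp.inner_apply, RCLike.inner_apply, conj_trivial]
    exact Finset.sum_congr rfl fun a _ => mul_comm _ _
  · intro i
    have h := hH.mulVec_eigenvectorBasis i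
    ext a
    have h' := congrFun h a
    simpa using h'

theorem s6_dt_add (u v w : ι → ℝ) : dt u (v + w) = dt u v + dt u w := by
  simp only [dt, Pi.add_apply, mul_add, Finset.sum_add_distrib]

theorem s6_dt_smul (u v : ι → ℝ) (c : ℝ) : dt u (fun a => c * v a) = c * dt u v := by
  simp only [dt, Finset.mul_sum]
  exact Finset.sum_congr rfl fun a _ => by ring

theorem s6_dt_sum {α : Type*} (S : Finset α) (u : ι → ℝ) (F : α → ι → ℝ) :
    dt u (fun a => ∑ k ∈ S, F k a) = ∑ k ∈ S, dt u (F k) := by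
  simp only [dt, Finset.mul_sum]
  exact Finset.sum_comm

theorem s6_dt_self (u : ι → ℝ) : dt u u = sq u := by
  simp only [dt, sq]
  exact Finset.sum_congr rfl fun a _ => by ring

/-- The columns are orthonormal, too. -/
theorem EB.orth' (he : EB A e lam) (a b : ι) : ∑ k, e k a * e k b = if a = b then 1 else 0 := by
  have h1 : (Matrix.of e) * (Matrix.of e).transpose = 1 := by
    ext i j
    rw [Matrix.mul_apply, Matrix.one_apply]
    have := he.orth i j
    simpa [dt] using this
  have h2 : (Matrix.of e).transpose * (Matrix.of e) = 1 := mul_eq_one_comm.1 h1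
  have h3 := congrFun (congrFun h2 a) b
  rw [Matrix.mul_apply, Matrix.one_apply] at h3
  simpa using h3

theorem EB.expand (he : EB A e lam) (v : ι → ℝ) : (fun a => ∑ k, dt (e k) v * e k a) = v := by
  ext a
  have h : ∑ k, dt (e k) v * e k a = ∑ b, v b * ∑ k, e k a * e k b := by
    simp only [dt, Finset.sum_mul, Finset.mul_sum]
    rw [Finset.sum_comm]
    exact Finset.sum_congr rfl fun b _ => Finset.sum_congr rfl fun k _ => by ring
  rw [h]
  simp [he.orth']

theorem EB.parseval (he : EB A e lam) (v w : ι → ℝ) : dt v w = ∑ k, dt (e k) v * dt (e k) w := by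
  conv_lhs => rw [← he.expand w]
  rw [s6_dt_sum]
  refine Finset.sum_congr rfl fun k _ => ?_
  rw [s6_dt_smul, dt_comm v (e k)]
  ring

theorem EB.sq_eq (he : EB A e lam) (v : ι → ℝ) : sq v = ∑ k, dt (e k) v ^ 2 := by
  rw [← s6_dt_self, he.parseval]
  exact Finset.sum_congr rfl fun k _ => by ring

theorem EB.mulVec (he : EB A e lam) (v : ι → ℝ) :
    A.mulVec v = fun a => ∑ k, lam k * dt (e k) v * e k a := by
  conv_lhs => rw [← he.expand v]
  have h : (fun a => ∑ k, dt (e k) v * e k a) = ∑ k, dt (e k) v • e k := by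
    ext a
    simp
  rw [h, Matrix.mulVec_sum]
  ext a
  rw [Finset.sum_apply]
  refine Finset.sum_congr rfl fun k _ => ?_
  rw [Matrix.mulVec_smul, he.eig k]
  simp only [Pi.smul_apply, smul_eq_mul]
  ring

theorem EB.dt_mulVec (he : EB A e lam) (k : ι) (v : ι → ℝ) :
    dt (e k) (A.mulVec v) = lam k * dt (e k) v := by
  rw [he.mulVec, s6_dt_sum, Finset.sum_eq_single k]
  · rw [s6_dt_smul, he.orth]
    simp
  · intro j _ hj
    rw [s6_dt_smul, he.orth, if_neg (Ne.symm hj), mul_zero]
  · intro h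
    exact absurd (Finset.mem_univ k) h

theorem EB.quad (he : EB A e lam) (v : ι → ℝ) :
    dt v (A.mulVec v) = ∑ k, lam k * dt (e k) v ^ 2 := by
  rw [he.parseval]
  refine Finset.sum_congr rfl fun k _ => ?_
  rw [he.dt_mulVec]
  ring

/-- Powers of `A` have the same eigenbasis. -/
theorem EB.pow (he : EB A e lam) (n : ℕ) : EB (A ^ n) e (fun k => lam k ^ n) := by
  refine ⟨he.orth, fun i => ?_⟩
  induction n with
  | zero => ext a; simp
  | succ n ih =>
    rw [pow_succ', ← Matrix.mulVec_mulVec, ih]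
    have h : (fun a => lam i ^ n * e i a) = (lam i ^ n) • e i := by
      ext a
      simp
    rw [h, Matrix.mulVec_smul, he.eig]
    ext a
    simp only [Pi.smul_apply, smul_eq_mul]
    ring

theorem EB.entry (he : EB A e lam) (a b : ι) : A a b = ∑ k, lam k * e k a * e k b := by
  have h := congrFun (he.mulVec (Pi.single b 1)) a
  rw [Matrix.mulVec_single_one] at h
  rw [Matrix.col_apply] at h
  rw [h]
  refine Finset.sum_congr rfl fun k _ => ?_
  have : dt (e k) (Pi.single b 1) = e k b := by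
    simp [dt, Pi.single_apply]
  rw [this]
  ring

theorem EB.trace (he : EB A e lam) : A.trace = ∑ k, lam k := by
  simp only [Matrix.trace, Matrix.diag_apply]
  rw [Finset.sum_congr rfl fun a _ => he.entry a a, Finset.sum_comm]
  refine Finset.sum_congr rfl fun k _ => ?_
  have := he.orth k k
  simp only [dt, if_true] at this
  calc ∑ a, lam k * e k a * e k a = lam k * ∑ a, e k a * e k a := by
        rw [Finset.mul_sum]
        exact Finset.sum_congr rfl fun a _ => by ring
    _ = lam k := by rw [this, mul_one]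

theorem EB.trace_pow (he : EB A e lam) (n : ℕ) : (A ^ n).trace = ∑ k, lam k ^ n :=
  (he.pow n).trace

/-- Eigenvalues are values of the quadratic form. -/
theorem EB.lam_eq (he : EB A e lam) (k : ι) : lam k = dt (e k) (A.mulVec (e k)) := by
  rw [he.dt_mulVec, he.orth, if_pos rfl, mul_one]

/-- `θ·Aθ ≤ opn A |θ|²` (Cauchy-Schwarz and `ContinuousLinearMap.le_opNorm`). -/
theorem quad_le_opn (A : Matrix ι ι ℝ) (v : ι → ℝ) : dt v (A.mulVec v) ≤ opn A * sq v := by
  have h1 : ‖(WithLp.toLp 2 (A.mulVec v) : EuclideanSpace ℝ ι)‖ ≤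
      opn A * ‖(WithLp.toLp 2 v : EuclideanSpace ℝ ι)‖ := by
    have := (Matrix.toEuclideanCLM (𝕜 := ℝ) A).le_opNorm (WithLp.toLp 2 v)
    rwa [Matrix.toEuclideanCLM_toLp] at this
  have h2 : ‖(WithLp.toLp 2 v : EuclideanSpace ℝ ι)‖ ^ 2 = sq v := by
    rw [EuclideanSpace.norm_sq_eq]
    simp [sq]
  have h3 : dt v (A.mulVec v) ≤ ‖(WithLp.toLp 2 v : EuclideanSpace ℝ ι)‖ *
      ‖(WithLp.toLp 2 (A.mulVec v) : EuclideanSpace ℝ ι)‖ := by
    have h := real_inner_le_norm (WithLp.toLp 2 v : EuclideanSpace ℝ ι) (WithLp.toLp 2 (A.mulVec v))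
    refine le_trans (le_of_eq ?_) h
    simp only [dt, PiLp.inner_apply, RCLike.inner_apply, conj_trivial]
    exact Finset.sum_congr rfl fun a _ => mul_comm _ _
  have h4 := norm_nonneg (WithLp.toLp 2 v : EuclideanSpace ℝ ι)
  rw [← h2]
  nlinarith

theorem opn_nonneg (A : Matrix ι ι ℝ) : 0 ≤ opn A := norm_nonneg _

theorem EB.lam_le_opn (he : EB A e lam) (k : ι) : lam k ≤ opn A := by
  have h1 := quad_le_opn A (e k)
  rw [← he.lam_eq, ← s6_dt_self, he.orth, if_pos rfl, mul_one] at h1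
  exact h1

/-- If all eigenvalues are in `[0, a]`, then `opn A ≤ a`. -/
theorem EB.opn_le (he : EB A e lam) {a : ℝ} (ha : 0 ≤ a) (h : ∀ k, 0 ≤ lam k ∧ lam k ≤ a) :
    opn A ≤ a := by
  unfold opn
  refine ContinuousLinearMap.opNorm_le_bound _ ha fun v => ?_
  have h1 : ‖(Matrix.toEuclideanCLM (𝕜 := ℝ) A) v‖ ^ 2 ≤ (a * ‖v‖) ^ 2 := by
    have e1 : (Matrix.toEuclideanCLM (𝕜 := ℝ) A) v = WithLp.toLp 2 (A.mulVec v.ofLp) := by
      rw [← Matrix.toEuclideanCLM_toLp]
    rw [e1, mul_pow, EuclideanSpace.norm_sq_eq, EuclideanSpace.norm_sq_eq]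
    simp only [Real.norm_eq_abs, sq_abs]
    have e2 : ∑ i, (A.mulVec v.ofLp) i ^ 2 = ∑ k, lam k ^ 2 * dt (e k) v.ofLp ^ 2 := by
      have := he.sq_eq (A.mulVec v.ofLp)
      unfold sq at this
      rw [this]
      refine Finset.sum_congr rfl fun k _ => ?_
      rw [he.dt_mulVec]
      ring
    have e3 : ∑ i, v.ofLp i ^ 2 = ∑ k, dt (e k) v.ofLp ^ 2 := he.sq_eq v.ofLp
    rw [e2, e3, Finset.mul_sum]
    refine Finset.sum_le_sum fun k _ => ?_
    refine mul_le_mul_of_nonneg_right ?_ (sq_nonneg _)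
    exact pow_le_pow_left₀ (h k).1 (h k).2 2
  have h2 : 0 ≤ a * ‖v‖ := mul_nonneg ha (norm_nonneg v)
  exact le_of_sq_le_sq h1 h2

/-- The operator norm is an eigenvalue (if all eigenvalues are nonnegative). -/
theorem EB.exists_opn [Nonempty ι] (he : EB A e lam) (h : ∀ k, 0 ≤ lam k) : ∃ k, lam k = opn A := by
  obtain ⟨k, hk⟩ := Finite.exists_max lam
  refine ⟨k, le_antisymm (he.lam_le_opn k) (he.opn_le (h k) fun j => ⟨h j, hk j⟩)⟩

/-- `opn` is continuous in the entries. -/
theorem continuous_opn : Continuous (opn : Matrix ι ι ℝ → ℝ) := by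
  unfold opn
  refine continuous_norm.comp ?_
  let L : Matrix ι ι ℝ →ₗ[ℝ] (EuclideanSpace ℝ ι →L[ℝ] EuclideanSpace ℝ ι) :=
    { toFun := fun A => Matrix.toEuclideanCLM (𝕜 := ℝ) A
      map_add' := fun A B => map_add _ A B
      map_smul' := fun c A => map_smul _ c A }
  exact L.continuous_of_finiteDimensional

end Pool.Agent.Lib.MP_8d00da_gt.h42k
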