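import Pool.Agent.Lib.MP_8d00da_gt.h42k.KD1
import Pool.Agent.Lib.MP_8d00da_gt.h42k.S6a
import Pool.Agent.Lib.MP_8d00da_gt.h42k.S5g

/-!
# Covariance matrices in an eigenbasis, third central moments
-/

namespace Pool.Agent.Lib.MP_8d00da_gt.h42k

open MeasureTheory Set Filter
open scoped Topology NNReal ENNReal ContDiff

set_option linter.unusedSectionVars false
set_option linter.unusedVariables false

variable {ι : Type*} [Fintype ι] [DecidableEq ι]

variable {κ M : ℝ} {V : (ι → ℝ) → ℝ}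

variable {A : Matrix ι ι ℝ} {e : ι → ι → ℝ} {lam : ι → ℝ}

/-- Third central moments in the standard coordinates. -/
noncomputable def TM (V : (ι → ℝ) → ℝ) (i j k : ι) : ℝ :=
  ex V fun x => ctr V x i * ctr V x j * ctr V x k

theorem Eig.eb {e : Matrix ι ι ℝ} (h : Eig A e lam) : EB A e lam := by
  have ho : ∀ i j, dt (e i) (e j) = if i = j then 1 else 0 := by
    intro i j
    have h1 := congrFun (congrFun h.orth i) j
    rw [Matrix.mul_apply, Matrix.one_apply] at h1
    rw [← h1]
    rfl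
  refine ⟨ho, fun i => ?_⟩
  have hA : ∀ a b, A a b = ∑ k, e k a * lam k * e k b := by
    intro a b
    conv_lhs => rw [h.diag]
    rw [Matrix.mul_apply]
    refine Finset.sum_congr rfl fun k _ => ?_
    rw [Matrix.mul_diagonal, Matrix.transpose_apply]
  funext a
  simp only [Matrix.mulVec, dotProduct]
  simp only [hA, Finset.sum_mul]
  rw [Finset.sum_comm]
  rw [Finset.sum_eq_single i]
  · have h2 : ∑ b, e i a * lam i * e i b * e i b = e i a * lam i * dt (e i) (e i) := by
      unfold dt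
      rw [Finset.mul_sum]
      exact Finset.sum_congr rfl fun b _ => by ring
    rw [h2, ho, if_pos rfl]
    ring
  · intro k _ hk
    have h2 : ∑ b, e k a * lam k * e k b * e i b = e k a * lam k * dt (e k) (e i) := by
      unfold dt
      rw [Finset.mul_sum]
      exact Finset.sum_congr rfl fun b _ => by ring
    rw [h2, ho, if_neg hk, mul_zero]
  · intro h3
    exact absurd (Finset.mem_univ i) h3

theorem EB.eig' {e : Matrix ι ι ℝ} (h : EB A e lam) : Eig A e lam := by
  refine ⟨?_, ?_⟩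
  · ext i j
    rw [Matrix.mul_apply, Matrix.one_apply, ← h.orth i j]
    rfl
  · ext a b
    rw [h.entry a b, Matrix.mul_apply]
    refine Finset.sum_congr rfl fun k _ => ?_
    rw [Matrix.mul_diagonal, Matrix.transpose_apply]
    ring

theorem CM_quad (H : Nice κ M V) (θ : ι → ℝ) :
    ∑ i, ∑ j, θ i * CM V i j * θ j = var V (fun x => dt θ x) := by
  rw [var_dt H]
  exact Finset.sum_congr rfl fun i _ => Finset.sum_congr rfl fun j _ => by ring

theorem CM_mulVec (H : Nice κ M V) (θ : ι → ℝ) :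
    dt θ ((CM V).mulVec θ) = var V (fun x => dt θ x) := by
  rw [← CM_quad H]
  unfold dt
  simp only [Matrix.mulVec, dotProduct, Finset.mul_sum]
  exact Finset.sum_congr rfl fun i _ => Finset.sum_congr rfl fun j _ => by ring

theorem CM_PSD (H : Nice κ M V) : PSD (CM V) := by
  refine ⟨?_, fun θ => ?_⟩
  · ext i j
    rw [Matrix.transpose_apply]
    exact CM_symm V j i
  · rw [CM_quad H]
    exact var_nonneg H (T0.dtf θ)

theorem EB.var_dt (H : Nice κ M V) (he : EB (CM V) e lam) (θ : ι → ℝ) :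
    var V (fun x => dt θ x) = ∑ k, lam k * dt (e k) θ ^ 2 := by
  rw [← CM_mulVec H, he.quad]

theorem EB.var_e (H : Nice κ M V) (he : EB (CM V) e lam) (k : ι) :
    var V (fun x => dt (e k) x) = lam k := by
  rw [he.var_dt H, Finset.sum_eq_single k]
  · rw [he.orth, if_pos rfl]
    ring
  · intro j _ hj
    rw [he.orth, if_neg hj]
    ring
  · intro h
    exact absurd (Finset.mem_univ k) h

theorem EB.lam_nonneg (H : Nice κ M V) (he : EB (CM V) e lam) (k : ι) : 0 ≤ lam k := by
  rw [← he.var_e H k]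
  exact var_nonneg H (T0.dtf (e k))

theorem EB.CLe_iff (H : Nice κ M V) (he : EB (CM V) e lam) (a : ℝ) :
    CLe V a ↔ ∀ k, lam k ≤ a := by
  constructor
  · intro h k
    have h1 := h (e k)
    rw [he.var_e H, ← s6_dt_self, he.orth, if_pos rfl, mul_one] at h1
    exact h1
  · intro h θ
    rw [he.var_dt H, he.sq_eq θ, Finset.mul_sum]
    exact Finset.sum_le_sum fun k _ => mul_le_mul_of_nonneg_right (h k) (_root_.sq_nonneg _)

/-- `Nice.pi` for `dt θ`. -/
theorem s6_CLe_kappa (H : Nice κ M V) : CLe V (1 / κ) := by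
  intro θ
  have h1 := H.pi (dt θ) (T1.dtf θ)
  have h2 : gs (dt θ) = fun _ => sq θ := by
    funext x
    unfold gs sq
    exact Finset.sum_congr rfl fun i _ => by rw [pd_dt]
  rw [h2, ex_const H] at h1
  exact h1

theorem EB.lam_le (H : Nice κ M V) (he : EB (CM V) e lam) (k : ι) : lam k ≤ 1 / κ :=
  (he.CLe_iff H (1 / κ)).1 (s6_CLe_kappa H) k

/-- `Cov(V) ≤ opn (CM V)`. -/
theorem CLe_opn (H : Nice κ M V) : CLe V (opn (CM V)) := by
  intro θ
  rw [← CM_mulVec H]
  exact quad_le_opn (CM V) θ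

theorem opn_CM_le (H : Nice κ M V) {a : ℝ} (ha : 0 ≤ a) (hC : CLe V a) :
    opn (CM V) ≤ a := by
  obtain ⟨e, lam, he⟩ := exists_EB (A := CM V) (CM_symm V)
  exact he.opn_le ha fun k => ⟨he.lam_nonneg H k, (he.CLe_iff H a).1 hC k⟩

theorem trace_CM (H : Nice κ M V) :
    (CM V).trace = ex V (fun x => ∑ i, (x i - mn V i) ^ 2) := by
  rw [ex_sum H Finset.univ (F := fun i x => (x i - mn V i) ^ 2) fun i _ =>
    ((T0.coord i).sub (T0.const _)).pow 2]
  simp only [Matrix.trace, Matrix.diag_apply]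
  refine Finset.sum_congr rfl fun i _ => ?_
  rw [CM_diag, var_eq H (T0.coord i)]
  rfl

theorem opn_le_trace (H : Nice κ M V) : opn (CM V) ≤ (CM V).trace := by
  obtain ⟨e, lam, he⟩ := exists_EB (A := CM V) (CM_symm V)
  rw [he.trace]
  refine he.opn_le (Finset.sum_nonneg fun k _ => he.lam_nonneg H k) fun k =>
    ⟨he.lam_nonneg H k, ?_⟩
  exact Finset.single_le_sum (f := lam) (fun j _ => he.lam_nonneg H j) (Finset.mem_univ k)

/-- `Tr Cov^p ≤ n a^p`. -/
theorem trace_pow_CM_le (H : Nice κ M V) {a : ℝ} (hC : CLe V a) (p : ℕ) :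
    ((CM V) ^ p).trace ≤ Fintype.card ι * a ^ p := by
  obtain ⟨e, lam, he⟩ := exists_EB (A := CM V) (CM_symm V)
  rw [he.trace_pow p]
  have h1 : ∀ k ∈ (Finset.univ : Finset ι), lam k ^ p ≤ a ^ p := fun k _ =>
    pow_le_pow_left₀ (he.lam_nonneg H k) ((he.CLe_iff H a).1 hC k) p
  have h2 := Finset.sum_le_card_nsmul Finset.univ (fun k => lam k ^ p) (a ^ p) h1
  rw [nsmul_eq_mul, Finset.card_univ] at h2
  exact h2

theorem TM_symm23 (V : (ι → ℝ) → ℝ) (i j k : ι) : TM V i j k = TM V i k j := by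
  unfold TM
  congr 1
  funext x
  ring

theorem TM_symm12 (V : (ι → ℝ) → ℝ) (i j k : ι) : TM V i j k = TM V j i k := by
  unfold TM
  congr 1
  funext x
  ring

theorem S6b_ctr (V : (ι → ℝ) → ℝ) (i : ι) : T0 (fun x => ctr V x i) :=
  (T0.coord i).sub (T0.const _)

theorem S6b_dt_ctr (V : (ι → ℝ) → ℝ) (a : ι → ℝ) : T0 (fun x => dt a (ctr V x)) :=
  T0.sum Finset.univ fun i _ => (S6b_ctr V i).cmul (a i)

/-- Third moments in a basis: expand the products of sums (`ex_sum`). -/
theorem Tu_TM (H : Nice κ M V) (e : Matrix ι ι ℝ) (m k l : ι) :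
    Tu e (TM V) m k l = tmd V (e m) (e k) (e l) := by
  have h1 : (fun x => dt (e m) (ctr V x) * dt (e k) (ctr V x) * dt (e l) (ctr V x)) =
      fun x => ∑ i, ∑ a, ∑ b, e m i * e k a * e l b * (ctr V x i * ctr V x a * ctr V x b) := by
    funext x
    unfold dt
    rw [Finset.sum_mul_sum, Finset.sum_mul]
    refine Finset.sum_congr rfl fun i _ => ?_
    rw [Finset.sum_mul]
    refine Finset.sum_congr rfl fun a _ => ?_
    rw [Finset.mul_sum]
    exact Finset.sum_congr rfl fun b _ => by ring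
  have t1 : ∀ i a b, T0 (fun x => e m i * e k a * e l b * (ctr V x i * ctr V x a * ctr V x b)) :=
    fun i a b => (((S6b_ctr V i).mul (S6b_ctr V a)).mul (S6b_ctr V b)).cmul _
  unfold tmd
  rw [h1, ex_sum H Finset.univ (F := fun i x => ∑ a, ∑ b,
    e m i * e k a * e l b * (ctr V x i * ctr V x a * ctr V x b)) fun i _ =>
      T0.sum Finset.univ fun a _ => T0.sum Finset.univ fun b _ => t1 i a b]
  unfold Tu
  refine Finset.sum_congr rfl fun i _ => ?_
  rw [ex_sum H Finset.univ (F := fun a x => ∑ b,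
    e m i * e k a * e l b * (ctr V x i * ctr V x a * ctr V x b)) fun a _ =>
      T0.sum Finset.univ fun b _ => t1 i a b, conj_entry, Finset.mul_sum]
  refine Finset.sum_congr rfl fun a _ => ?_
  rw [ex_sum H Finset.univ (F := fun b x =>
    e m i * e k a * e l b * (ctr V x i * ctr V x a * ctr V x b)) fun b _ => t1 i a b,
    Finset.mul_sum]
  refine Finset.sum_congr rfl fun b _ => ?_
  rw [ex_cmul]
  simp only [Tm, Matrix.of_apply, TM]
  ring

/-- Cauchy-Schwarz: `(E a·x̃ g)² ≤ Var(a·x) Var(g)`. -/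
theorem dt_ctr_cs (H : Nice κ M V) (a : ι → ℝ) {g : (ι → ℝ) → ℝ} (hg : T0 g) :
    ex V (fun x => dt a (ctr V x) * g x) ^ 2 ≤ var V (fun x => dt a x) * var V g := by
  have h1 : ex V (fun x => dt a x) = ∑ i, a i * mn V i := by
    unfold dt
    rw [ex_sum H Finset.univ (F := fun i x => a i * x i) fun i _ => (T0.coord i).cmul (a i)]
    refine Finset.sum_congr rfl fun i _ => ?_
    rw [ex_cmul]
    rfl
  have h2 : (fun x => dt a (ctr V x) * g x) =
      fun x => ((fun x => dt a x) x - ex V (fun x => dt a x)) * g x := by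
    funext x
    rw [h1]
    congr 1
    unfold dt ctr
    rw [← Finset.sum_sub_distrib]
    exact Finset.sum_congr rfl fun i _ => by ring
  rw [h2, ← cov_eq_left H (T0.dtf a) hg]
  exact cov_cs H (T0.dtf a) hg

theorem tmd_zero (H : Nice κ M V) (he : EB (CM V) e lam) {m : ι} (hm : lam m = 0) (k l : ι) :
    tmd V (e m) (e k) (e l) = 0 := by
  have h1 := dt_ctr_cs H (e m) ((S6b_dt_ctr V (e k)).mul (S6b_dt_ctr V (e l)))
  rw [he.var_e H, hm, zero_mul] at h1
  have h2 : ex V (fun x => dt (e m) (ctr V x) * (dt (e k) (ctr V x) * dt (e l) (ctr V x))) = 0 :=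
    pow_eq_zero_iff (two_ne_zero) |>.1 (le_antisymm h1 (_root_.sq_nonneg _))
  unfold tmd
  rw [← h2]
  congr 1
  funext x
  ring

end Pool.Agent.Lib.MP_8d00da_gt.h42k
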