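import Pool.Agent.Lib.MP_8d00da_gt.h42k.B1a
import Pool.Agent.Lib.MP_8d00da_gt.h25.Op

section

/-!
# Pairs (x,g)
-/

namespace Pool.Agent.Lib.MP_8d00da_gt.h42k

open MeasureTheory Set Filter
open scoped Topology NNReal ENNReal ContDiff

set_option linter.unusedSectionVars false
set_option linter.unusedVariables false

variable {ι : Type*} [Fintype ι] [DecidableEq ι]

variable {κ M : ℝ} {V f : (ι → ℝ) → ℝ} {Φ Ψ : (ι → ℝ) → ℝ}

theorem sq_sum (z : ι ⊕ ι → ℝ) :
    sq z = sq (fun i => z (Sum.inl i)) + sq (fun i => z (Sum.inr i)) := by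
  unfold sq
  rw [Fintype.sum_sum_type]

private theorem G46a_contDiff_l {n : WithTop ℕ∞} :
    ContDiff ℝ n (fun z : ι ⊕ ι → ℝ => fun i : ι => z (Sum.inl i)) :=
  contDiff_pi.2 fun i => contDiff_apply ℝ ℝ (Sum.inl i)

private theorem G46a_contDiff_r {n : WithTop ℕ∞} :
    ContDiff ℝ n (fun z : ι ⊕ ι → ℝ => fun i : ι => z (Sum.inr i)) :=
  contDiff_pi.2 fun i => contDiff_apply ℝ ℝ (Sum.inr i)

private theorem G46a_gp_c2 : ContDiff ℝ 2 (gp : (ι → ℝ) → ℝ) := by
  unfold gp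
  exact contDiff_sq.div_const 2

private theorem G46a_gp_gd (x u : ι → ℝ) : gd gp x u = dt u x := by
  unfold gd dt
  refine Finset.sum_congr rfl fun i _ => ?_
  have h : (gp : (ι → ℝ) → ℝ) = fun x => (1 / 2) * sq x := by
    funext x
    unfold gp
    ring
  rw [h, pd_cmul (contDiff_sq.differentiable (n := 1) (by norm_num)), pd_sq]
  ring

private theorem G46a_gp_hs (x u : ι → ℝ) : hs gp x u = sq u := by
  have h1 := (hs_line (f := gp) G46a_gp_c2 x u 0).1
  have h2 : HasDerivAt (fun r : ℝ => gd gp (x + r • u) u) (sq u) 0 := by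
    have h3 : (fun r : ℝ => gd gp (x + r • u) u) = fun r : ℝ => dt u x + r * sq u := by
      funext r
      rw [G46a_gp_gd]
      unfold dt sq
      rw [Finset.mul_sum, ← Finset.sum_add_distrib]
      refine Finset.sum_congr rfl fun i _ => ?_
      simp only [Pi.add_apply, Pi.smul_apply, smul_eq_mul]
      ring
    rw [h3]
    have h4 := ((hasDerivAt_id (0 : ℝ)).mul_const (sq u)).const_add (dt u x)
    simpa using h4
  have h5 := h1.unique h2
  simpa using h5

private theorem G46a_ws_c2 (hV : ContDiff ℝ 2 V) : ContDiff ℝ 2 (WS V) := by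
  unfold WS
  exact (hV.comp G46a_contDiff_l).add (G46a_gp_c2.comp G46a_contDiff_r)

private theorem G46a_ws_gd (hV : ContDiff ℝ 2 V) (z u : ι ⊕ ι → ℝ) :
    gd (WS V) z u = gd V (fun i => z (Sum.inl i)) (fun i => u (Sum.inl i)) +
      gd gp (fun i => z (Sum.inr i)) (fun i => u (Sum.inr i)) := by
  have h1 := (hs_line (G46a_ws_c2 hV) z u 0).2
  have h2 := (hs_line hV (fun i => z (Sum.inl i)) (fun i => u (Sum.inl i)) 0).2
  have h3 := (hs_line (G46a_gp_c2 (ι := ι)) (fun i => z (Sum.inr i)) (fun i => u (Sum.inr i)) 0).2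
  have h4 := h1.unique (h2.add h3)
  simpa using h4

private theorem G46a_ws_hs (hV : ContDiff ℝ 2 V) (z u : ι ⊕ ι → ℝ) :
    hs (WS V) z u = hs V (fun i => z (Sum.inl i)) (fun i => u (Sum.inl i)) +
      sq (fun i => u (Sum.inr i)) := by
  have h1 := (hs_line (G46a_ws_c2 hV) z u 0).1
  have h2 := (hs_line hV (fun i => z (Sum.inl i)) (fun i => u (Sum.inl i)) 0).1
  have h3 := (hs_line (G46a_gp_c2 (ι := ι)) (fun i => z (Sum.inr i)) (fun i => u (Sum.inr i)) 0).1
  have h0 : (fun r : ℝ => gd (WS V) (z + r • u) u) = fun r : ℝ =>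
      gd V ((fun i => z (Sum.inl i)) + r • (fun i => u (Sum.inl i))) (fun i => u (Sum.inl i)) +
      gd gp ((fun i => z (Sum.inr i)) + r • (fun i => u (Sum.inr i))) (fun i => u (Sum.inr i)) := by
    funext r
    rw [G46a_ws_gd hV]
    rfl
  rw [h0] at h1
  have h4 := h1.unique (h2.add h3)
  rw [G46a_gp_hs] at h4
  simpa using h4

/-- `V(x) + |g|²/2` is nice on the space of pairs. -/
theorem WS_nice (H : Nice κ M V) : Nice (min κ 1) (max M 1) (WS V) := by
  refine ⟨lt_min H.kpos one_pos, G46a_ws_c2 H.c2, fun z u => ?_, fun z u => ?_⟩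
  · rw [G46a_ws_hs H.c2, sq_sum, mul_add]
    have h1 := H.lo (fun i => z (Sum.inl i)) (fun i => u (Sum.inl i))
    have h2 := mul_le_mul_of_nonneg_right (min_le_left κ 1) (sq_nn (fun i => u (Sum.inl i)))
    have h3 := mul_le_mul_of_nonneg_right (min_le_right κ 1) (sq_nn (fun i => u (Sum.inr i)))
    linarith
  · rw [G46a_ws_hs H.c2, sq_sum, mul_add]
    have h1 := H.hi (fun i => z (Sum.inl i)) (fun i => u (Sum.inl i))
    have h2 := mul_le_mul_of_nonneg_right (le_max_left M 1) (sq_nn (fun i => u (Sum.inl i)))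
    have h3 := mul_le_mul_of_nonneg_right (le_max_right M 1) (sq_nn (fun i => u (Sum.inr i)))
    linarith

theorem t0_left (hf : T0 f) : T0 (fun z : ι ⊕ ι → ℝ => f (fun i => z (Sum.inl i))) := by
  refine ⟨hf.meas.comp (measurable_pi_lambda _ fun i => measurable_pi_apply _), ?_⟩
  obtain ⟨C, k, hC0, hC⟩ := hf.pg.bound
  refine ⟨C, k, fun z => (hC _).trans ?_⟩
  refine mul_le_mul_of_nonneg_left (pow_le_pow_left₀ ?_ ?_ k) hC0
  · have := sq_nn (fun i => z (Sum.inl i))
    linarith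
  · rw [sq_sum z]
    have := sq_nn (fun i => z (Sum.inr i))
    linarith

/-- `1 + sq (t x + √t g) ≤ 2 (1 + |t|)² (1 + sq z)`. -/
theorem sq_yt_le (t : ℝ) (z : ι ⊕ ι → ℝ) : 1 + sq (yt t z) ≤ 2 * (1 + |t|) ^ 2 * (1 + sq z) := by
  have h1 : sq (yt t z) ≤ 2 * sq (fun i => t * z (Sum.inl i)) +
      2 * sq (fun i => √t * z (Sum.inr i)) := by
    have := sq_add_le (fun i => t * z (Sum.inl i)) (fun i => √t * z (Sum.inr i))
    exact this
  rw [sq_smul, sq_smul] at h1
  have h2 : t ^ 2 = |t| ^ 2 := (sq_abs t).symm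
  have h3 : √t ^ 2 ≤ |t| := by
    rcases le_or_gt 0 t with h | h
    · rw [Real.sq_sqrt h]
      exact le_abs_self t
    · rw [Real.sqrt_eq_zero_of_nonpos h.le]
      simp
  rw [h2] at h1
  rw [sq_sum z]
  have ha := abs_nonneg t
  have hX := sq_nn (fun i => z (Sum.inl i))
  have hG := sq_nn (fun i => z (Sum.inr i))
  have h4 := mul_le_mul_of_nonneg_right h3 hG
  nlinarith [mul_nonneg ha hX, mul_nonneg ha hG, mul_nonneg (mul_nonneg ha ha) hG,
    mul_nonneg ha ha]

theorem t0_yt (hΦ : T0 Φ) (t : ℝ) : T0 (fun z : ι ⊕ ι → ℝ => Φ (yt t z)) := by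
  have hm : Measurable (fun z : ι ⊕ ι → ℝ => yt t z) := by
    refine measurable_pi_lambda _ fun i => ?_
    show Measurable fun z : ι ⊕ ι → ℝ => t * z (Sum.inl i) + √t * z (Sum.inr i)
    fun_prop
  refine ⟨hΦ.meas.comp hm, ?_⟩
  obtain ⟨C, k, hC0, hC⟩ := hΦ.pg.bound
  refine ⟨C * (2 * (1 + |t|) ^ 2) ^ k, k, fun z => (hC _).trans ?_⟩
  rw [mul_assoc, ← mul_pow]
  refine mul_le_mul_of_nonneg_left (pow_le_pow_left₀ ?_ (sq_yt_le t z) k) hC0
  have := sq_nn (yt t z)
  linarith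

end Pool.Agent.Lib.MP_8d00da_gt.h42k
end

section

section

/-!
# Moments uniform in the potential
-/

namespace Pool.Agent.Lib.MP_8d00da_gt.h42k

open MeasureTheory Set Filter
open scoped Topology NNReal ENNReal ContDiff

set_option linter.unusedSectionVars false
set_option linter.unusedVariables false

variable {ι : Type*} [Fintype ι] [DecidableEq ι]

variable {κ M : ℝ} {V : (ι → ℝ) → ℝ}

private theorem KA7_t1 (k : ℕ) : T1 (fun x : ι → ℝ => sq x ^ k) := by
  induction k with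
  | zero =>
    have e : (fun x : ι → ℝ => sq x ^ 0) = fun _ => 1 := funext fun x => pow_zero _
    rw [e]
    exact T1.const 1
  | succ k ih =>
    have e : (fun x : ι → ℝ => sq x ^ (k + 1)) = fun x => sq x ^ k * sq x :=
      funext fun x => pow_succ _ _
    rw [e]
    exact ih.mul T1.sqf

private theorem KA7_eul (k : ℕ) (x : ι → ℝ) :
    ∑ i, x i * pd i (fun x : ι → ℝ => sq x ^ k) x = 2 * k * sq x ^ k := by
  induction k with
  | zero =>
    have e : (fun x : ι → ℝ => sq x ^ 0) = fun _ => 1 := funext fun x => pow_zero _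
    rw [e]
    simp [pd_const]
  | succ k ih =>
    have e : (fun x : ι → ℝ => sq x ^ (k + 1)) = fun x => sq x ^ k * sq x :=
      funext fun x => pow_succ _ _
    have h1 : ∀ i, x i * pd i (fun x : ι → ℝ => sq x ^ (k + 1)) x =
        x i * pd i (fun x : ι → ℝ => sq x ^ k) x * sq x + 2 * sq x ^ k * x i ^ 2 := by
      intro i
      rw [e, pd_mul ((KA7_t1 k).c1.differentiable (by norm_num))
        (T1.sqf.c1.differentiable (by norm_num)), pd_sq]
      ring
    rw [Finset.sum_congr rfl fun i _ => h1 i, Finset.sum_add_distrib, ← Finset.sum_mul, ih,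
      ← Finset.mul_sum]
    have h2 : ∑ i, x i ^ 2 = sq x := rfl
    rw [h2]
    push_cast
    ring

private theorem KA7_gs0 (V : (ι → ℝ) → ℝ) (x : ι → ℝ) : 0 ≤ gs V x :=
  Finset.sum_nonneg fun _ _ => sq_nonneg _

private theorem KA7_gdt0 (H : Nice κ M V) : T0 (fun x : ι → ℝ => gd V x x) :=
  T0.sum Finset.univ fun i _ => (T0.coord i).mul (H.t1.pdt0 i)

private theorem KA7_key (H : Nice κ M V) (k : ℕ) :
    ((Fintype.card ι : ℝ) + 2 * k) * ex V (fun x => sq x ^ k) =
      ex V (fun x => sq x ^ k * gd V x x) := by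
  have hT : ∀ i : ι, T1 (fun x : ι → ℝ => x i * sq x ^ k) := fun i =>
    (T1.coord i).mul (KA7_t1 k)
  have h1 : ∀ i : ι, ex V (pd i (fun x : ι → ℝ => x i * sq x ^ k)) =
      ex V (fun x => x i * sq x ^ k * pd i V x) := fun i => ibp H (hT i) i
  have h2 : ∑ i : ι, ex V (pd i (fun x : ι → ℝ => x i * sq x ^ k)) =
      ex V (fun x => ∑ i, pd i (fun x : ι → ℝ => x i * sq x ^ k) x) :=
    (ex_sum H Finset.univ fun i _ => (hT i).pdt0 i).symm
  have h3 : ∑ i : ι, ex V (fun x => x i * sq x ^ k * pd i V x) =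
      ex V (fun x => ∑ i, x i * sq x ^ k * pd i V x) :=
    (ex_sum H Finset.univ fun i _ => (hT i).t0.mul (H.t1.pdt0 i)).symm
  have h4 : (fun x : ι → ℝ => ∑ i, pd i (fun x : ι → ℝ => x i * sq x ^ k) x) =
      fun x => ((Fintype.card ι : ℝ) + 2 * k) * sq x ^ k := by
    funext x
    have h5 : ∀ i, pd i (fun x : ι → ℝ => x i * sq x ^ k) x =
        sq x ^ k + x i * pd i (fun x : ι → ℝ => sq x ^ k) x := by
      intro i
      rw [pd_mul ((T1.coord i).c1.differentiable (by norm_num))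
        ((KA7_t1 k).c1.differentiable (by norm_num)), pd_coord, if_pos rfl, one_mul]
    rw [Finset.sum_congr rfl fun i _ => h5 i, Finset.sum_add_distrib, KA7_eul, Finset.sum_const,
      Finset.card_univ, nsmul_eq_mul]
    ring
  have h5 : (fun x : ι → ℝ => ∑ i, x i * sq x ^ k * pd i V x) =
      fun x => sq x ^ k * gd V x x := by
    funext x
    unfold gd
    rw [Finset.mul_sum]
    exact Finset.sum_congr rfl fun i _ => by ring
  rw [← ex_cmul, ← h4, ← h2, Finset.sum_congr rfl fun i _ => h1 i, h3, h5]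

private theorem KA7_pt (H : Nice κ M V) (k : ℕ) (x : ι → ℝ) :
    κ / 2 * sq x ^ (k + 1) - gs V 0 / (2 * κ) * sq x ^ k ≤ sq x ^ k * gd V x x := by
  have hκ := H.kpos
  have h1 := H.mono_grad 0 x
  rw [zero_add] at h1
  have h2 := gd_sq_le V 0 x
  have h3 := sq_nn x
  have h4 := KA7_gs0 V 0
  have h5 : gd V 0 x ≥ -(κ / 2 * sq x + gs V 0 / (2 * κ)) := by
    have h6 : gd V 0 x ^ 2 ≤ (κ / 2 * sq x + gs V 0 / (2 * κ)) ^ 2 := by
      have h7 : (κ / 2 * sq x + gs V 0 / (2 * κ)) ^ 2 =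
          (κ / 2 * sq x - gs V 0 / (2 * κ)) ^ 2 + gs V 0 * sq x := by
        field_simp
        ring
      rw [h7]
      nlinarith [sq_nonneg (κ / 2 * sq x - gs V 0 / (2 * κ))]
    have h8 : 0 ≤ κ / 2 * sq x + gs V 0 / (2 * κ) := by positivity
    have := abs_le_of_sq_le_sq h6 h8
    rw [abs_le] at this
    linarith [this.1]
  have h6 : κ / 2 * sq x - gs V 0 / (2 * κ) ≤ gd V x x := by linarith
  have h7 := mul_le_mul_of_nonneg_left h6 (pow_nonneg h3 k)
  calc κ / 2 * sq x ^ (k + 1) - gs V 0 / (2 * κ) * sq x ^ k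
      = sq x ^ k * (κ / 2 * sq x - gs V 0 / (2 * κ)) := by rw [pow_succ]; ring
    _ ≤ _ := h7

private theorem KA7_step (H : Nice κ M V) (k : ℕ) :
    ex V (fun x => sq x ^ (k + 1)) ≤
      2 / κ * ((Fintype.card ι : ℝ) + 2 * k + 1 / (2 * κ)) * (1 + gs V 0) *
        ex V (fun x => sq x ^ k) := by
  have hκ := H.kpos
  have h1 := KA7_key H k
  have h0 : ∀ j, T0 (fun x : ι → ℝ => sq x ^ j) := fun j => (KA7_t1 j).t0
  have h2 : ex V (fun x => κ / 2 * sq x ^ (k + 1) - gs V 0 / (2 * κ) * sq x ^ k) ≤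
      ex V (fun x => sq x ^ k * gd V x x) :=
    ex_mono H (((h0 (k + 1)).cmul (κ / 2)).sub ((h0 k).cmul (gs V 0 / (2 * κ))))
      ((h0 k).mul (KA7_gdt0 H)) (KA7_pt H k)
  rw [ex_sub H ((h0 (k + 1)).cmul (κ / 2)) ((h0 k).cmul (gs V 0 / (2 * κ))),
    ex_cmul, ex_cmul, ← h1] at h2
  have h3 : 0 ≤ ex V (fun x => sq x ^ k) := ex_nonneg V fun x => pow_nonneg (sq_nn x) k
  have h4 := KA7_gs0 V 0
  set m := ex V (fun x => sq x ^ k)
  set m' := ex V (fun x => sq x ^ (k + 1))
  set G := gs V 0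
  have h5 : κ / 2 * m' ≤ ((Fintype.card ι : ℝ) + 2 * k + G / (2 * κ)) * m := by linarith
  have h6 : m' ≤ 2 / κ * (((Fintype.card ι : ℝ) + 2 * k + G / (2 * κ)) * m) := by
    have h7 : m' = 2 / κ * (κ / 2 * m') := by
      field_simp
    rw [h7]
    exact mul_le_mul_of_nonneg_left h5 (by positivity)
  refine h6.trans ?_
  have h8 : ((Fintype.card ι : ℝ) + 2 * k + G / (2 * κ)) ≤
      ((Fintype.card ι : ℝ) + 2 * k + 1 / (2 * κ)) * (1 + G) := by
    have h9 : ((Fintype.card ι : ℝ) + 2 * k + 1 / (2 * κ)) * (1 + G) -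
        ((Fintype.card ι : ℝ) + 2 * k + G / (2 * κ)) =
        1 / (2 * κ) + ((Fintype.card ι : ℝ) + 2 * k) * G := by
      field_simp
      ring
    have h10 : 0 ≤ 1 / (2 * κ) + ((Fintype.card ι : ℝ) + 2 * k) * G := by positivity
    linarith
  calc 2 / κ * (((Fintype.card ι : ℝ) + 2 * k + G / (2 * κ)) * m)
      ≤ 2 / κ * ((((Fintype.card ι : ℝ) + 2 * k + 1 / (2 * κ)) * (1 + G)) * m) :=
        mul_le_mul_of_nonneg_left (mul_le_mul_of_nonneg_right h8 h3) (by positivity)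
    _ = _ := by ring

/-- Moments: `E |x|^{2k} ≤ C (1 + |∇V(0)|²)^k` with `C = C(card ι, k, κ)`. Induction on `k`: integration by
parts (`ibp`) of `x_i |x|^{2k}`: `E |x|^{2k} ∑ x_i ∂_iV = (n + 2k) E |x|^{2k}`, and
`∑ x_i ∂_iV(x) ≥ κ|x|² - |∇V(0)||x|` (`Nice.mono_grad`); so
`κ E|x|^{2k+2} ≤ (n+2k) E|x|^{2k} + |∇V(0)| E|x|^{2k+1}`, Young / Cauchy-Schwarz. -/
theorem moments (ι : Type*) [Fintype ι] [DecidableEq ι] {κ : ℝ} (hκ : 0 < κ) (k : ℕ) :
    ∃ C : ℝ, 0 ≤ C ∧ ∀ (M : ℝ) (V : (ι → ℝ) → ℝ), Nice κ M V →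
      ex V (fun x => sq x ^ k) ≤ C * (1 + gs V 0) ^ k := by
  induction k with
  | zero =>
    refine ⟨1, zero_le_one, fun M V H => ?_⟩
    have e : (fun x : ι → ℝ => sq x ^ 0) = fun _ => 1 := funext fun x => pow_zero _
    rw [e, ex_const H, pow_zero, mul_one]
  | succ k ih =>
    obtain ⟨C, hC, h⟩ := ih
    refine ⟨2 / κ * ((Fintype.card ι : ℝ) + 2 * k + 1 / (2 * κ)) * C, by positivity,
      fun M V H => ?_⟩
    have h4 := KA7_gs0 V 0
    refine (KA7_step H k).trans ?_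
    calc 2 / κ * ((Fintype.card ι : ℝ) + 2 * k + 1 / (2 * κ)) * (1 + gs V 0) *
          ex V (fun x => sq x ^ k)
        ≤ 2 / κ * ((Fintype.card ι : ℝ) + 2 * k + 1 / (2 * κ)) * (1 + gs V 0) *
          (C * (1 + gs V 0) ^ k) := mul_le_mul_of_nonneg_left (h M V H) (by positivity)
      _ = _ := by rw [pow_succ]; ring

/-- Consequence for a function of polynomial growth, uniformly in the potential. -/
theorem moments_pg {f : (ι → ℝ) → ℝ} (hf : T0 f) {κ : ℝ} (hκ : 0 < κ) :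
    ∃ (C : ℝ) (k : ℕ), 0 ≤ C ∧ ∀ (M : ℝ) (V : (ι → ℝ) → ℝ), Nice κ M V →
      ex V (fun x => |f x|) ≤ C * (1 + gs V 0) ^ k := by
  obtain ⟨C, k, hC, hb⟩ := hf.pg.bound
  obtain ⟨D, hD, hm⟩ := moments ι hκ k
  refine ⟨C * (2 ^ (k - 1) * (1 + D)), k, by positivity, fun M V H => ?_⟩
  have h4 := KA7_gs0 V 0
  have h1 : ∀ x : ι → ℝ, |f x| ≤ C * 2 ^ (k - 1) * (1 + sq x ^ k) := by
    intro x
    refine (hb x).trans ?_
    have h2 := add_pow_le (zero_le_one' ℝ) (sq_nn x) k
    rw [one_pow] at h2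
    calc C * (1 + sq x) ^ k ≤ C * (2 ^ (k - 1) * (1 + sq x ^ k)) :=
          mul_le_mul_of_nonneg_left h2 hC
      _ = _ := by ring
  have hT : T0 (fun x : ι → ℝ => 1 + sq x ^ k) := (T0.const 1).add (KA7_t1 k).t0
  have h2 : ex V (fun x => |f x|) ≤ ex V (fun x => C * 2 ^ (k - 1) * (1 + sq x ^ k)) :=
    ex_mono H hf.abs (hT.cmul _) h1
  have h3 : ex V (fun x => C * 2 ^ (k - 1) * (1 + sq x ^ k)) =
      C * 2 ^ (k - 1) * (1 + ex V (fun x => sq x ^ k)) := by
    rw [ex_cmul, ex_add H (T0.const 1) (KA7_t1 k).t0, ex_const H]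
  rw [h3] at h2
  refine h2.trans ?_
  have h5 := hm M V H
  have h6 : (1 : ℝ) ≤ (1 + gs V 0) ^ k := one_le_pow₀ (by linarith)
  calc C * 2 ^ (k - 1) * (1 + ex V (fun x => sq x ^ k))
      ≤ C * 2 ^ (k - 1) * ((1 + D) * (1 + gs V 0) ^ k) := by
        refine mul_le_mul_of_nonneg_left ?_ (by positivity)
        linarith
    _ = _ := by ring

end Pool.Agent.Lib.MP_8d00da_gt.h42k
end

section

/-!
# Differentiation and continuity of expectations with a parameter
-/

namespace Pool.Agent.Lib.MP_8d00da_gt.h42k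

open MeasureTheory Set Filter
open scoped Topology NNReal ENNReal ContDiff

set_option linter.unusedSectionVars false
set_option linter.unusedVariables false

variable {ι : Type*} [Fintype ι] [DecidableEq ι]

variable {κ M : ℝ} {V f : (ι → ℝ) → ℝ} {Φ Ψ : (ι → ℝ) → ℝ}

private theorem G46d_T0 {α : Type*} [Fintype α] [DecidableEq α] (C : ℝ) (k : ℕ) :
    T0 (fun z : α → ℝ => C * (1 + sq z) ^ k) :=
  ((T0.const (1 : ℝ)).add T0.sqf).pow k |>.cmul C

private theorem G46d_int {α : Type*} [Fintype α] [DecidableEq α] {κ M : ℝ} {W : (α → ℝ) → ℝ}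
    (H : Nice κ M W) (C : ℝ) (k : ℕ) :
    Integrable fun z : α → ℝ => C * (1 + sq z) ^ k * Real.exp (-W z) :=
  H.int (G46d_T0 C k)

private theorem G46d_bd {α : Type*} [Fintype α] [DecidableEq α] {W : (α → ℝ) → ℝ}
    {g : (α → ℝ) → ℝ} {C : ℝ} {k : ℕ} {z : α → ℝ} (h : |g z| ≤ C * (1 + sq z) ^ k) :
    ‖g z * Real.exp (-W z)‖ ≤ C * (1 + sq z) ^ k * Real.exp (-W z) := by
  rw [norm_mul, Real.norm_eq_abs, Real.norm_eq_abs, abs_of_pos (Real.exp_pos _)]
  exact mul_le_mul_of_nonneg_right h (Real.exp_pos _).le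

/-- Differentiation under the expectation: `hasDerivAt_integral_of_dominated_loc_of_deriv_le`
with the bound `C (1+sq z)^k exp(-W z)` (`Nice.int`). -/
theorem ex_hasDerivAt {α : Type*} [Fintype α] [DecidableEq α] {κ M : ℝ} {W : (α → ℝ) → ℝ}
    (H : Nice κ M W) {F F' : ℝ → (α → ℝ) → ℝ} {t₀ ε C : ℝ} {k : ℕ} (hε : 0 < ε)
    (hm : ∀ t ∈ Metric.ball t₀ ε, Measurable (F t)) (hm' : Measurable (F' t₀))
    (hd : ∀ t ∈ Metric.ball t₀ ε, ∀ z, HasDerivAt (fun s => F s z) (F' t z) t)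
    (hb : ∀ t ∈ Metric.ball t₀ ε, ∀ z, |F t z| ≤ C * (1 + sq z) ^ k)
    (hb' : ∀ t ∈ Metric.ball t₀ ε, ∀ z, |F' t z| ≤ C * (1 + sq z) ^ k) :
    HasDerivAt (fun t => ex W (F t)) (ex W (F' t₀)) t₀ := by
  have hW : Measurable fun z : α → ℝ => Real.exp (-W z) :=
    (Real.continuous_exp.comp H.c2.continuous.neg).measurable
  have hball : Metric.ball t₀ ε ∈ 𝓝 t₀ := Metric.ball_mem_nhds t₀ hε
  have h0 : t₀ ∈ Metric.ball t₀ ε := Metric.mem_ball_self hε
  have hint : Integrable fun z : α → ℝ => F t₀ z * Real.exp (-W z) :=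
    (G46d_int H C k).mono' ((hm t₀ h0).mul hW).aestronglyMeasurable
      (Eventually.of_forall fun z => G46d_bd (hb t₀ h0 z))
  have key := hasDerivAt_integral_of_dominated_loc_of_deriv_le (μ := volume)
    (F := fun t z => F t z * Real.exp (-W z)) (F' := fun t z => F' t z * Real.exp (-W z))
    (x₀ := t₀) (s := Metric.ball t₀ ε) (bound := fun z => C * (1 + sq z) ^ k * Real.exp (-W z))
    hball
    (by filter_upwards [hball] with t ht using ((hm t ht).mul hW).aestronglyMeasurable)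
    hint ((hm'.mul hW).aestronglyMeasurable)
    (Eventually.of_forall fun z t ht => G46d_bd (hb' t ht z))
    (G46d_int H C k)
    (Eventually.of_forall fun z t ht => (hd t ht z).mul_const _)
  exact key.2.div_const _

/-- Continuity under the expectation (dominated convergence,
`continuousWithinAt_of_dominated`). -/
theorem ex_continuousOn {α : Type*} [Fintype α] [DecidableEq α] {κ M : ℝ} {W : (α → ℝ) → ℝ}
    (H : Nice κ M W) {F : ℝ → (α → ℝ) → ℝ} {S : Set ℝ} {C : ℝ} {k : ℕ}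
    (hm : ∀ t ∈ S, Measurable (F t)) (hc : ∀ z, ContinuousOn (fun s => F s z) S)
    (hb : ∀ t ∈ S, ∀ z, |F t z| ≤ C * (1 + sq z) ^ k) :
    ContinuousOn (fun t => ex W (F t)) S := by
  have hW : Measurable fun z : α → ℝ => Real.exp (-W z) :=
    (Real.continuous_exp.comp H.c2.continuous.neg).measurable
  intro t₀ ht₀
  have hS : S ∈ 𝓝[S] t₀ := self_mem_nhdsWithin
  have key : ContinuousWithinAt (fun t => ∫ z, F t z * Real.exp (-W z)) S t₀ :=
    continuousWithinAt_of_dominated (bound := fun z => C * (1 + sq z) ^ k * Real.exp (-W z))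
      (by filter_upwards [hS] with t ht using ((hm t ht).mul hW).aestronglyMeasurable)
      (by filter_upwards [hS] with t ht using
        Eventually.of_forall fun z => G46d_bd (hb t ht z))
      (G46d_int H C k)
      (Eventually.of_forall fun z => (hc z t₀ ht₀).mul continuousWithinAt_const)
  exact key.div_const _

end Pool.Agent.Lib.MP_8d00da_gt.h42k
end

section

/-!
# 4.3: chain rule and slices
-/

namespace Pool.Agent.Lib.MP_8d00da_gt.h42k

open MeasureTheory Set Filter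
open scoped Topology NNReal ENNReal ContDiff

set_option linter.unusedSectionVars false
set_option linter.unusedVariables false

variable {ι : Type*} [Fintype ι] [DecidableEq ι]

variable {κ M : ℝ} {V f : (ι → ℝ) → ℝ} {Φ : ℝ → (ι → ℝ) → ℝ} {T : ℝ}

/-- Chain rule: derivative of `s ↦ Φ(s, s x + √s g)`. -/
theorem chain_yt {t : ℝ} (ht : 0 < t) (z : ι ⊕ ι → ℝ)
    (hc : ContDiffAt ℝ 2 (fun p : ℝ × (ι → ℝ) => Φ p.1 p.2) (t, yt t z)) :
    HasDerivAt (fun s => Φ s (yt s z))
      (deriv (fun s => Φ s (yt t z)) t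
        + ∑ i, (z (Sum.inl i) + z (Sum.inr i) / (2 * √t)) * pd i (Φ t) (yt t z)) t := by
  set F : ℝ × (ι → ℝ) → ℝ := fun p => Φ p.1 p.2 with hF
  have hd : DifferentiableAt ℝ F (t, yt t z) := hc.differentiableAt (by norm_num)
  have hcurve : HasDerivAt (fun s : ℝ => ((s, yt s z) : ℝ × (ι → ℝ)))
      ((1 : ℝ), fun i => z (Sum.inl i) + z (Sum.inr i) / (2 * √t)) t := by
    refine (hasDerivAt_id t).prodMk ?_
    rw [hasDerivAt_pi]
    intro i
    have h1 : HasDerivAt (fun s : ℝ => s * z (Sum.inl i)) (1 * z (Sum.inl i)) t :=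
      (hasDerivAt_id t).mul_const _
    have h2 : HasDerivAt (fun s : ℝ => √s * z (Sum.inr i)) (1 / (2 * √t) * z (Sum.inr i)) t :=
      (Real.hasDerivAt_sqrt ht.ne').mul_const _
    have h3 := h1.add h2
    have e : 1 * z (Sum.inl i) + 1 / (2 * √t) * z (Sum.inr i)
        = z (Sum.inl i) + z (Sum.inr i) / (2 * √t) := by ring
    rw [e] at h3
    exact h3
  have hcomp : HasDerivAt (fun s => F (s, yt s z))
      (fderiv ℝ F (t, yt t z) ((1 : ℝ), fun i => z (Sum.inl i) + z (Sum.inr i) / (2 * √t))) t :=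
    HasFDerivAt.comp_hasDerivAt (l := F) (f := fun s : ℝ => ((s, yt s z) : ℝ × (ι → ℝ))) t
      hd.hasFDerivAt hcurve
  have e1 : fderiv ℝ F (t, yt t z) ((1 : ℝ), (0 : ι → ℝ)) = deriv (fun s => Φ s (yt t z)) t := by
    have h : HasDerivAt (fun s : ℝ => ((s, yt t z) : ℝ × (ι → ℝ))) ((1 : ℝ), (0 : ι → ℝ)) t :=
      (hasDerivAt_id t).prodMk (hasDerivAt_const t _)
    exact (hd.hasFDerivAt.comp_hasDerivAt t h).deriv.symm
  have e2 : ∀ w : ι → ℝ, fderiv ℝ F (t, yt t z) ((0 : ℝ), w) = ∑ i, w i * pd i (Φ t) (yt t z) := by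
    intro w
    have h : HasFDerivAt (fun y : ι → ℝ => ((t, y) : ℝ × (ι → ℝ)))
        (ContinuousLinearMap.inr ℝ ℝ (ι → ℝ)) (yt t z) := hasFDerivAt_prodMk_right t (yt t z)
    have h2 : HasFDerivAt (Φ t)
        ((fderiv ℝ F (t, yt t z)).comp (ContinuousLinearMap.inr ℝ ℝ (ι → ℝ))) (yt t z) :=
      HasFDerivAt.comp (g := F) (yt t z) hd.hasFDerivAt h
    have h3 := fderiv_eq_gd (Φ t) (yt t z) w
    rw [h2.fderiv] at h3
    simpa [gd] using h3
  have e3 : fderiv ℝ F (t, yt t z) ((1 : ℝ), fun i => z (Sum.inl i) + z (Sum.inr i) / (2 * √t))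
      = deriv (fun s => Φ s (yt t z)) t
        + ∑ i, (z (Sum.inl i) + z (Sum.inr i) / (2 * √t)) * pd i (Φ t) (yt t z) := by
    rw [← e1, ← e2, ← map_add]
    congr 1
    ext <;> simp
  rw [← e3]
  exact hcomp

/-- Slices of a `C²` function are `T1` with `T1` derivatives, if the growth is controlled. -/
theorem slice_t1 (hc : ∀ t, 0 < t → ∀ y, ContDiffAt ℝ 2 (fun p : ℝ × (ι → ℝ) => Φ p.1 p.2) (t, y))
    (h0 : PGU Φ T) (h1 : ∀ i, PGU (fun t => pd i (Φ t)) T)
    (h2 : ∀ i j, PGU (fun t => pd i (pd j (Φ t))) T) {t : ℝ} (t0 : 0 < t) (tT : t ≤ T) :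
    T1 (Φ t) ∧ ∀ i, T1 (pd i (Φ t)) := by
  have hI : t ∈ Set.Icc 0 T := ⟨t0.le, tT⟩
  have hc2 : ContDiff ℝ 2 (Φ t) := by
    rw [contDiff_iff_contDiffAt]
    intro y
    exact ContDiffAt.comp (g := fun p : ℝ × (ι → ℝ) => Φ p.1 p.2) y (hc t t0 y)
      (contDiff_prodMk_right t).contDiffAt
  have hc1 : ∀ i, ContDiff ℝ 1 (pd i (Φ t)) := fun i => contDiff_pd (n := 1) (by exact_mod_cast hc2) i
  exact ⟨⟨hc2.of_le (by norm_num), h0.pg hI, fun i => (h1 i).pg hI⟩,
    fun i => ⟨hc1 i, (h1 i).pg hI, fun j => (h2 j i).pg hI⟩⟩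

/-- `y ↦ ∂_t Φ(t,y)` is continuous. -/
theorem slice_dt (hc : ∀ t, 0 < t → ∀ y, ContDiffAt ℝ 2 (fun p : ℝ × (ι → ℝ) => Φ p.1 p.2) (t, y))
    {t : ℝ} (t0 : 0 < t) : Continuous (fun y => deriv (fun s => Φ s y) t) := by
  set F : ℝ × (ι → ℝ) → ℝ := fun p => Φ p.1 p.2 with hF
  have e1 : (fun y => deriv (fun s => Φ s y) t)
      = fun y => fderiv ℝ F (t, y) ((1 : ℝ), (0 : ι → ℝ)) := by
    funext y
    have hd : DifferentiableAt ℝ F (t, y) := (hc t t0 y).differentiableAt (by norm_num)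
    have h : HasDerivAt (fun s : ℝ => ((s, y) : ℝ × (ι → ℝ))) ((1 : ℝ), (0 : ι → ℝ)) t :=
      (hasDerivAt_id t).prodMk (hasDerivAt_const t _)
    exact (hd.hasFDerivAt.comp_hasDerivAt t h).deriv
  rw [e1, continuous_iff_continuousAt]
  intro y
  have h1 : ContinuousAt (fderiv ℝ F) (t, y) :=
    ((hc t t0 y).fderiv_right (m := 1) (by norm_num)).continuousAt
  have h2 : ContinuousAt (fun y : ι → ℝ => fderiv ℝ F (t, y)) y :=
    ContinuousAt.comp (g := fderiv ℝ F) (f := fun y : ι → ℝ => ((t, y) : ℝ × (ι → ℝ))) h1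
      (by fun_prop)
  exact h2.clm_apply continuousAt_const

end Pool.Agent.Lib.MP_8d00da_gt.h42k
end

section

/-!
# 4.1: the joint potential of (X,Y_t)
-/

namespace Pool.Agent.Lib.MP_8d00da_gt.h42k

open MeasureTheory Set Filter
open scoped Topology NNReal ENNReal ContDiff

set_option linter.unusedSectionVars false
set_option linter.unusedVariables false

variable {ι : Type*} [Fintype ι] [DecidableEq ι]

variable {κ M : ℝ} {V f Φ : (ι → ℝ) → ℝ}

private theorem G47a_sq (u v : ι → ℝ) (c : ℝ) :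
    sq (fun i => v i - c * u i) = sq v - 2 * c * dt v u + c ^ 2 * sq u := by
  unfold sq dt
  rw [Finset.mul_sum, Finset.mul_sum, ← Finset.sum_sub_distrib, ← Finset.sum_add_distrib]
  exact Finset.sum_congr rfl fun i _ => by ring

private theorem G47a_sq' (u v : ι → ℝ) (r : ℝ) :
    sq (v + r • u) = sq v + 2 * r * dt v u + r ^ 2 * sq u := by
  unfold sq dt
  rw [Finset.mul_sum, Finset.mul_sum, ← Finset.sum_add_distrib, ← Finset.sum_add_distrib]
  exact Finset.sum_congr rfl fun i _ => by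
    rw [Pi.add_apply, Pi.smul_apply, smul_eq_mul]
    ring

private theorem G47a_dt (x y u v : ι → ℝ) (r : ℝ) :
    dt (y + r • v) (x + r • u) = dt y x + r * (dt y u + dt v x) + r ^ 2 * dt v u := by
  unfold dt
  rw [← Finset.sum_add_distrib, Finset.mul_sum, Finset.mul_sum, ← Finset.sum_add_distrib,
    ← Finset.sum_add_distrib]
  exact Finset.sum_congr rfl fun i _ => by
    rw [Pi.add_apply, Pi.smul_apply, smul_eq_mul, Pi.add_apply, Pi.smul_apply, smul_eq_mul]
    ring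

private theorem G47a_c2 (H : Nice κ M V) (t : ℝ) :
    ContDiff ℝ 2 (fun z : ι ⊕ ι → ℝ => pt V t (fun i => z (Sum.inr i)) (fun i => z (Sum.inl i))
      + sq (fun i => z (Sum.inr i)) / (2 * t)) := by
  have hl : ContDiff ℝ 2 (fun z : ι ⊕ ι → ℝ => fun i : ι => z (Sum.inl i)) :=
    contDiff_pi.2 fun i => contDiff_apply ℝ ℝ (Sum.inl i)
  have hr : ContDiff ℝ 2 (fun z : ι ⊕ ι → ℝ => fun i : ι => z (Sum.inr i)) :=
    contDiff_pi.2 fun i => contDiff_apply ℝ ℝ (Sum.inr i)
  have h1 : ContDiff ℝ 2 (fun z : ι ⊕ ι → ℝ => V (fun i => z (Sum.inl i))) := H.c2.comp hl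
  have h2 : ContDiff ℝ 2 (fun z : ι ⊕ ι → ℝ => t / 2 * sq (fun i => z (Sum.inl i))) :=
    contDiff_const.mul ((contDiff_sq (n := 2)).comp hl)
  have h3 : ContDiff ℝ 2 (fun z : ι ⊕ ι → ℝ => sq (fun i => z (Sum.inr i)) / (2 * t)) :=
    ((contDiff_sq (n := 2)).comp hr).div_const _
  have h4 : ContDiff ℝ 2 (fun z : ι ⊕ ι → ℝ =>
      dt (fun i => z (Sum.inr i)) (fun i => z (Sum.inl i))) := by
    unfold dt
    exact ContDiff.sum fun i _ => (contDiff_apply ℝ ℝ (Sum.inr i)).mul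
      (contDiff_apply ℝ ℝ (Sum.inl i))
  exact ((h1.add h2).sub h4).add h3

private theorem G47a_hs (H : Nice κ M V) (t : ℝ) (z w : ι ⊕ ι → ℝ) :
    hs (fun z : ι ⊕ ι → ℝ => pt V t (fun i => z (Sum.inr i)) (fun i => z (Sum.inl i))
      + sq (fun i => z (Sum.inr i)) / (2 * t)) z w =
    hs V (fun i => z (Sum.inl i)) (fun i => w (Sum.inl i)) +
      2 * (t / 2 * sq (fun i => w (Sum.inl i)) -
        dt (fun i => w (Sum.inr i)) (fun i => w (Sum.inl i)) +
        sq (fun i => w (Sum.inr i)) / (2 * t)) := by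
  have hJ := G47a_c2 H t
  set J := fun z : ι ⊕ ι → ℝ => pt V t (fun i => z (Sum.inr i)) (fun i => z (Sum.inl i))
      + sq (fun i => z (Sum.inr i)) / (2 * t) with hJd
  set x : ι → ℝ := fun i => z (Sum.inl i) with hx
  set y : ι → ℝ := fun i => z (Sum.inr i) with hy
  set u : ι → ℝ := fun i => w (Sum.inl i) with hu
  set v : ι → ℝ := fun i => w (Sum.inr i) with hv
  set c0 : ℝ := t / 2 * sq x - dt y x + sq y / (2 * t) with hc0
  set c1 : ℝ := t / 2 * (2 * dt x u) - (dt y u + dt v x) + (2 * dt y v) / (2 * t) with hc1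
  set c2 : ℝ := t / 2 * sq u - dt v u + sq v / (2 * t) with hc2
  have e1 : ∀ r : ℝ, J (z + r • w) = V (x + r • u) + (c0 + c1 * r + c2 * r ^ 2) := by
    intro r
    have ex : (fun i => (z + r • w) (Sum.inl i)) = x + r • u := rfl
    have ey : (fun i => (z + r • w) (Sum.inr i)) = y + r • v := rfl
    rw [hJd]
    simp only [ex, ey]
    unfold pt
    rw [G47a_sq', G47a_sq', G47a_dt, hc0, hc1, hc2]
    ring
  have e2 : ∀ s : ℝ, HasDerivAt (fun r : ℝ => J (z + r • w))
      (gd V (x + s • u) u + (c1 + 2 * c2 * s)) s := by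
    intro s
    have h1 := (hs_line H.c2 x u s).2
    have h2 : HasDerivAt (fun r : ℝ => c0 + c1 * r + c2 * r ^ 2) (c1 + 2 * c2 * s) s := by
      have h3 := ((hasDerivAt_id s).const_mul c1).const_add c0
      have h4 := (hasDerivAt_pow 2 s).const_mul c2
      have h5 := h3.add h4
      refine h5.congr_deriv ?_
      push_cast
      ring
    have h6 := h1.add h2
    have e3 : (fun r : ℝ => J (z + r • w)) =
        fun r : ℝ => V (x + r • u) + (c0 + c1 * r + c2 * r ^ 2) := funext e1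
    rw [e3]
    exact h6
  have e4 : (fun r : ℝ => gd J (z + r • w) w) =
      fun r : ℝ => gd V (x + r • u) u + (c1 + 2 * c2 * r) :=
    funext fun s => ((hs_line hJ z w s).2).unique (e2 s)
  have e5 := (hs_line hJ z w 0).1
  rw [e4] at e5
  have e6 : HasDerivAt (fun r : ℝ => gd V (x + r • u) u + (c1 + 2 * c2 * r))
      (hs V (x + (0 : ℝ) • u) u + 2 * c2) 0 := by
    have h1 := (hs_line H.c2 x u 0).1
    have h2 : HasDerivAt (fun r : ℝ => c1 + 2 * c2 * r) (2 * c2) 0 := by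
      have h3 := ((hasDerivAt_id (0 : ℝ)).const_mul (2 * c2)).const_add c1
      simpa using h3
    exact h1.add h2
  have e7 := e5.unique e6
  rw [zero_smul, zero_smul, add_zero, add_zero] at e7
  exact e7

/-- The joint potential `V(x) + t|x|²/2 - x·y + |y|²/(2t)` of `(X, Y_t)` is nice:
`D² = D²V[u,u] + |√t u - v/√t|²`. -/
theorem joint_nice (H : Nice κ M V) {t : ℝ} (ht : 0 < t) : ∃ c M' : ℝ,
    Nice c M' (fun z : ι ⊕ ι → ℝ => pt V t (fun i => z (Sum.inr i)) (fun i => z (Sum.inl i))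
      + sq (fun i => z (Sum.inr i)) / (2 * t)) := by
  have hκ := H.kpos
  have hκt : 0 < κ + 2 * t := by positivity
  set l : ℝ := κ / (κ + 2 * t) with hl
  have hl0 : 0 < l := by positivity
  have hl1 : l ≤ 1 := by
    rw [hl, div_le_one hκt]
    linarith
  have hl2 : κ / 2 ≤ κ - l * t := by
    have : l * t ≤ κ / 2 := by
      rw [hl, div_mul_eq_mul_div, div_le_div_iff₀ hκt (by norm_num)]
      nlinarith
    linarith
  refine ⟨min (κ / 2) (l / (2 * t)), max (M + 2 * t) (2 / t), ?_, G47a_c2 H t, ?_, ?_⟩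
  · exact lt_min (by positivity) (by positivity)
  · intro z w
    rw [G47a_hs H t z w]
    have hV := H.lo (fun i => z (Sum.inl i)) (fun i => w (Sum.inl i))
    set u : ι → ℝ := fun i => w (Sum.inl i) with hu
    set v : ι → ℝ := fun i => w (Sum.inr i) with hv
    have hw : sq w = sq u + sq v := by
      unfold sq
      exact Fintype.sum_sum_type _
    have p1 := sq_nn u
    have p2 := sq_nn v
    have q1 := sq_nn (fun i => v i - t * u i)
    have q2 := sq_nn (fun i => v i - (2 * t) * u i)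
    rw [G47a_sq] at q1 q2
    set a := sq u
    set b := sq v
    set d := dt v u
    have A0 : 0 ≤ 2 * (t / 2 * a - d + b / (2 * t)) := by
      have : 2 * (t / 2 * a - d + b / (2 * t)) = (b - 2 * t * d + t ^ 2 * a) / t := by
        field_simp
        ring
      rw [this]
      exact div_nonneg q1 ht.le
    have A1 : b / (2 * t) - t * a ≤ 2 * (t / 2 * a - d + b / (2 * t)) := by
      have : 2 * (t / 2 * a - d + b / (2 * t)) - (b / (2 * t) - t * a) =
          (b - 2 * (2 * t) * d + (2 * t) ^ 2 * a) / (2 * t) := by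
        field_simp
        ring
      have h3 : 0 ≤ (b - 2 * (2 * t) * d + (2 * t) ^ 2 * a) / (2 * t) :=
        div_nonneg q2 (by positivity)
      linarith
    have A2 : l * (b / (2 * t) - t * a) ≤ 2 * (t / 2 * a - d + b / (2 * t)) := by
      nlinarith
    rw [hw]
    have B1 : min (κ / 2) (l / (2 * t)) * a ≤ κ / 2 * a :=
      mul_le_mul_of_nonneg_right (min_le_left _ _) p1
    have B2 : min (κ / 2) (l / (2 * t)) * b ≤ l / (2 * t) * b :=
      mul_le_mul_of_nonneg_right (min_le_right _ _) p2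
    have B3 : l * (b / (2 * t)) = l / (2 * t) * b := by ring
    have B4 : κ / 2 * a ≤ (κ - l * t) * a := mul_le_mul_of_nonneg_right hl2 p1
    nlinarith
  · intro z w
    rw [G47a_hs H t z w]
    have hV := H.hi (fun i => z (Sum.inl i)) (fun i => w (Sum.inl i))
    set u : ι → ℝ := fun i => w (Sum.inl i) with hu
    set v : ι → ℝ := fun i => w (Sum.inr i) with hv
    have hw : sq w = sq u + sq v := by
      unfold sq
      exact Fintype.sum_sum_type _
    have p1 := sq_nn u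
    have p2 := sq_nn v
    have q1 := sq_nn (fun i => v i - (-t) * u i)
    rw [G47a_sq] at q1
    set a := sq u
    set b := sq v
    set d := dt v u
    have A0 : 2 * (t / 2 * a - d + b / (2 * t)) ≤ 2 * t * a + 2 / t * b := by
      have : 2 * t * a + 2 / t * b - 2 * (t / 2 * a - d + b / (2 * t)) =
          (b - 2 * (-t) * d + (-t) ^ 2 * a) / t := by
        field_simp
        ring
      have h3 : 0 ≤ (b - 2 * (-t) * d + (-t) ^ 2 * a) / t := div_nonneg q1 ht.le
      linarith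
    rw [hw]
    have B1 : (M + 2 * t) * a ≤ max (M + 2 * t) (2 / t) * a :=
      mul_le_mul_of_nonneg_right (le_max_left _ _) p1
    have B2 : 2 / t * b ≤ max (M + 2 * t) (2 / t) * b :=
      mul_le_mul_of_nonneg_right (le_max_right _ _) p2
    nlinarith

end Pool.Agent.Lib.MP_8d00da_gt.h42k
end

section

/-!
# 4.1: change of variables in the inner Gaussian integral
-/

namespace Pool.Agent.Lib.MP_8d00da_gt.h42k

open MeasureTheory Set Filter
open scoped Topology NNReal ENNReal ContDiff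

set_option linter.unusedSectionVars false
set_option linter.unusedVariables false

variable {ι : Type*} [Fintype ι] [DecidableEq ι]

variable {κ M : ℝ} {V f Φ : (ι → ℝ) → ℝ}

/-- Change of variables in the inner Gaussian integral: `y = t x + √t g`
(`MeasureTheory.Measure.integral_comp_smul`, translation):
`∫ Φ(tx+√t g) exp(-|g|²/2) dg = (√t)^{-n} ∫ Φ(y) exp(-|y-tx|²/(2t)) dy`, and
`|y-tx|²/(2t) = |y|²/(2t) - x·y + t|x|²/2`. -/
theorem inner_change (Φ : (ι → ℝ) → ℝ) {t : ℝ} (ht : 0 < t) (x : ι → ℝ) :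
    ∫ g : ι → ℝ, Φ (fun i => t * x i + √t * g i) * Real.exp (-(gp g)) =
      ((√t) ^ Fintype.card ι)⁻¹ *
        ∫ y, Φ y * Real.exp (-(sq y / (2 * t) - dt y x + t / 2 * sq x)) := by
  have hs : 0 < √t := Real.sqrt_pos.2 ht
  have hss : √t * √t = t := Real.mul_self_sqrt ht.le
  set F : (ι → ℝ) → ℝ := fun y => Φ y * Real.exp (-(sq y / (2 * t) - dt y x + t / 2 * sq x))
    with hF
  have h1 : ∫ z : ι → ℝ, F (√t • z) = ((√t) ^ Fintype.card ι)⁻¹ * ∫ y, F y := by
    rw [Measure.integral_comp_smul, Module.finrank_fintype_fun_eq_card, smul_eq_mul,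
      abs_of_nonneg (by positivity)]
  have h2 : ∫ z : ι → ℝ, F (√t • (z + √t • x)) = ∫ z : ι → ℝ, F (√t • z) :=
    integral_add_right_eq_self (fun z : ι → ℝ => F (√t • z)) (√t • x)
  rw [← h1, ← h2]
  refine integral_congr_ae (Eventually.of_forall fun g => ?_)
  have h3 : √t • (g + √t • x) = fun i => t * x i + √t * g i := by
    funext i
    simp only [Pi.smul_apply, Pi.add_apply, smul_eq_mul]
    linear_combination x i * hss
  have h4 : gp g = sq (fun i => t * x i + √t * g i) / (2 * t)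
      - dt (fun i => t * x i + √t * g i) x + t / 2 * sq x := by
    unfold gp sq dt
    rw [Finset.sum_div, Finset.sum_div, Finset.mul_sum, ← Finset.sum_sub_distrib,
      ← Finset.sum_add_distrib]
    refine Finset.sum_congr rfl fun i _ => ?_
    have hss2 : √t ^ 2 = t := Real.sq_sqrt ht.le
    field_simp
    ring_nf
    rw [hss2]
  simp only [hF, h3, h4]

end Pool.Agent.Lib.MP_8d00da_gt.h42k
end
end
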