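import Pool.Agent.Lib.MP_8d00da_gt.h42k.B1a
import Pool.Agent.Lib.MP_8d00da_gt.h42k.G47b

section

section

/-!
# 4.2: derivative of the unnormalised posterior integrals
-/

namespace Pool.Agent.Lib.MP_8d00da_gt.h42k

open MeasureTheory Set Filter
open scoped Topology NNReal ENNReal ContDiff

set_option linter.unusedSectionVars false
set_option linter.unusedVariables false

variable {ι : Type*} [Fintype ι] [DecidableEq ι]

variable {κ M : ℝ} {V f : (ι → ℝ) → ℝ}

/-- The derivative of `ZP V f`: `(τ,η) ↦ -½ τ ZP(f sq) + ∑ η_i ZP(f x_i)`. -/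
noncomputable def ZL (V f : (ι → ℝ) → ℝ) (p : ℝ × (ι → ℝ)) : (ℝ × (ι → ℝ)) →L[ℝ] ℝ :=
  (-(1 / 2) * ZP V (fun x => f x * sq x) p) • ContinuousLinearMap.fst ℝ ℝ (ι → ℝ)
    + ∑ i, ZP V (fun x => f x * x i) p •
      ((ContinuousLinearMap.proj i : (ι → ℝ) →L[ℝ] ℝ).comp (ContinuousLinearMap.snd ℝ ℝ (ι → ℝ)))

/-- Domination: for `p'` in a small ball around `p`, `|f(x)| exp(-pt V p' x)` is at most
`|f(x)| exp(-pt V (t-ε) y x) exp(ε √n √(sq x))`.  In this form: -/
theorem ZP_dom (V f : (ι → ℝ) → ℝ) {ε : ℝ} (hε : 0 ≤ ε) {p p' : ℝ × (ι → ℝ)}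
    (h : dist p' p ≤ ε) (x : ι → ℝ) :
    |f x * Real.exp (-(pt V p'.1 p'.2 x))| ≤
      Real.exp (ε * √(Fintype.card ι) * √(sq x)) * (|f x| * Real.exp (-(pt V (p.1 - ε) p.2 x))) := by
  have h1 : |p'.1 - p.1| ≤ ε := by
    have h0 : dist p'.1 p.1 ≤ dist p' p := le_max_left (dist p'.1 p.1) (dist p'.2 p.2)
    rw [Real.dist_eq] at h0
    exact h0.trans h
  have h2 : ∀ i, |p'.2 i - p.2 i| ≤ ε := by
    intro i
    have h0 : dist p'.2 p.2 ≤ dist p' p := le_max_right (dist p'.1 p.1) (dist p'.2 p.2)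
    have h3 := (dist_le_pi_dist p'.2 p.2 i).trans (h0.trans h)
    rwa [Real.dist_eq] at h3
  have h4 : dt p'.2 x - dt p.2 x ≤ ε * ∑ i, |x i| := by
    unfold dt
    rw [← Finset.sum_sub_distrib, Finset.mul_sum]
    refine Finset.sum_le_sum fun i _ => ?_
    calc p'.2 i * x i - p.2 i * x i = (p'.2 i - p.2 i) * x i := by ring
      _ ≤ |(p'.2 i - p.2 i) * x i| := le_abs_self _
      _ = |p'.2 i - p.2 i| * |x i| := abs_mul _ _
      _ ≤ ε * |x i| := mul_le_mul_of_nonneg_right (h2 i) (abs_nonneg _)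
  have h5 : ∑ i, |x i| ≤ √(Fintype.card ι) * √(sq x) := by
    rw [← Real.sqrt_mul (by positivity)]
    apply Real.le_sqrt_of_sq_le
    have := sq_sum_le_card_mul_sum_sq (s := (Finset.univ : Finset ι)) (f := fun i => |x i|)
    simpa [sq, sq_abs] using this
  have h6 : -(pt V p'.1 p'.2 x) ≤ ε * √(Fintype.card ι) * √(sq x) + -(pt V (p.1 - ε) p.2 x) := by
    unfold pt
    have h7 : ε * ∑ i, |x i| ≤ ε * (√(Fintype.card ι) * √(sq x)) :=
      mul_le_mul_of_nonneg_left h5 hε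
    have h8 : (p.1 - ε) / 2 * sq x ≤ p'.1 / 2 * sq x := by
      refine mul_le_mul_of_nonneg_right ?_ (sq_nn x)
      have := (abs_le.1 h1).1
      linarith
    nlinarith
  rw [abs_mul, Real.abs_exp]
  calc |f x| * Real.exp (-(pt V p'.1 p'.2 x))
      ≤ |f x| * Real.exp (ε * √(Fintype.card ι) * √(sq x) + -(pt V (p.1 - ε) p.2 x)) := by
        gcongr
    _ = Real.exp (ε * √(Fintype.card ι) * √(sq x)) * (|f x| * Real.exp (-(pt V (p.1 - ε) p.2 x))) := by
        rw [Real.exp_add]; ring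

/-- The linear map in the exponent. -/
private noncomputable def G43a_L (x : ι → ℝ) : (ℝ × (ι → ℝ)) →L[ℝ] ℝ :=
  (-(1 / 2) * sq x) • ContinuousLinearMap.fst ℝ ℝ (ι → ℝ)
    + ∑ i, x i •
      ((ContinuousLinearMap.proj i : (ι → ℝ) →L[ℝ] ℝ).comp (ContinuousLinearMap.snd ℝ ℝ (ι → ℝ)))

private theorem G43a_L_apply (x : ι → ℝ) (q : ℝ × (ι → ℝ)) :
    G43a_L x q = -(1 / 2) * sq x * q.1 + ∑ i, x i * q.2 i := by
  simp [G43a_L]

private theorem G43a_L_norm (x : ι → ℝ) : ‖G43a_L x‖ ≤ 1 / 2 * sq x + ∑ i, |x i| := by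
  refine ContinuousLinearMap.opNorm_le_bound _
    (add_nonneg (mul_nonneg (by norm_num) (sq_nn x)) (Finset.sum_nonneg fun i _ => abs_nonneg _))
    fun q => ?_
  rw [G43a_L_apply, Real.norm_eq_abs]
  have h1 : |q.1| ≤ ‖q‖ := (le_max_left _ _ : ‖q.1‖ ≤ max ‖q.1‖ ‖q.2‖)
  have h2 : ∀ i, |q.2 i| ≤ ‖q‖ := fun i =>
    (norm_le_pi_norm q.2 i).trans (le_max_right ‖q.1‖ ‖q.2‖)
  calc |-(1 / 2) * sq x * q.1 + ∑ i, x i * q.2 i|
      ≤ |-(1 / 2) * sq x * q.1| + |∑ i, x i * q.2 i| := abs_add_le _ _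
    _ ≤ 1 / 2 * sq x * |q.1| + ∑ i, |x i| * |q.2 i| := by
        refine add_le_add ?_ ?_
        · rw [abs_mul, abs_mul, abs_of_nonneg (sq_nn x)]
          norm_num
        · refine (Finset.abs_sum_le_sum_abs _ _).trans (le_of_eq ?_)
          exact Finset.sum_congr rfl fun i _ => abs_mul _ _
    _ ≤ 1 / 2 * sq x * ‖q‖ + ∑ i, |x i| * ‖q‖ := by
        refine add_le_add (mul_le_mul_of_nonneg_left h1 (mul_nonneg (by norm_num) (sq_nn x))) ?_
        exact Finset.sum_le_sum fun i _ => mul_le_mul_of_nonneg_left (h2 i) (abs_nonneg _)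
    _ = (1 / 2 * sq x + ∑ i, |x i|) * ‖q‖ := by rw [← Finset.sum_mul]; ring

private theorem G43a_diff (V : (ι → ℝ) → ℝ) (c : ℝ) (x : ι → ℝ) (p : ℝ × (ι → ℝ)) :
    HasFDerivAt (fun q : ℝ × (ι → ℝ) => c * Real.exp (-(pt V q.1 q.2 x)))
      ((c * Real.exp (-(pt V p.1 p.2 x))) • G43a_L x) p := by
  have h1 : HasFDerivAt (fun q : ℝ × (ι → ℝ) => -(pt V q.1 q.2 x)) (G43a_L x) p := by
    have e : (fun q : ℝ × (ι → ℝ) => -(pt V q.1 q.2 x)) = fun q => -V x + G43a_L x q := by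
      funext q
      rw [G43a_L_apply]
      unfold pt dt
      have : ∑ i, q.2 i * x i = ∑ i, x i * q.2 i :=
        Finset.sum_congr rfl fun i _ => mul_comm _ _
      rw [this]
      ring
    rw [e]
    exact (G43a_L x).hasFDerivAt.const_add _
  have h2 := (h1.exp).const_mul c
  rwa [smul_smul] at h2

/-- `hasFDerivAt_integral_of_dominated_of_fderiv_le` on the ball of radius `ε`, `2ε < κ + p.1`,
domination by `ZP_dom` and `Nice.int_lin_exp` for the nice potential `pt V (p.1-ε) p.2`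
(the derivative of `p' ↦ f x * exp(-pt V p' x)` is
`f x * exp(..) * ((-½ sq x) • fst + ∑ x i • (proj i ∘ snd))`). -/
theorem ZP_hasFDerivAt (H : Nice κ M V) (hf : T0 f) {p : ℝ × (ι → ℝ)} (hp : -κ < p.1) :
    HasFDerivAt (ZP V f) (ZL V f p) p := by
  set ε : ℝ := (κ + p.1) / 3 with hε
  have hε0 : 0 < ε := by rw [hε]; linarith
  have hW : Nice (κ + (p.1 - ε)) (M + (p.1 - ε)) (pt V (p.1 - ε) p.2) :=
    H.ptn (by rw [hε]; linarith) p.2
  have hWp : Nice (κ + p.1) (M + p.1) (pt V p.1 p.2) := H.ptn hp p.2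
  have hg : T0 (fun x : ι → ℝ => 1 / 2 * sq x + ∑ i, |x i|) :=
    (T0.cmul _ T0.sqf).add (T0.sum _ fun i _ => (T0.coord i).abs)
  have hfg : T0 (fun x : ι → ℝ => |f x| * (1 / 2 * sq x + ∑ i, |x i|)) := hf.abs.mul hg
  have hcont : ∀ q : ℝ × (ι → ℝ), Continuous fun x => Real.exp (-(pt V q.1 q.2 x)) := by
    intro q
    refine Real.continuous_exp.comp ?_
    unfold pt dt
    have := H.c2.continuous
    have := continuous_sq (ι := ι)
    fun_prop
  have key := hasFDerivAt_integral_of_dominated_of_fderiv_le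
    (μ := (volume : Measure (ι → ℝ))) (𝕜 := ℝ)
    (F := fun (q : ℝ × (ι → ℝ)) x => f x * Real.exp (-(pt V q.1 q.2 x)))
    (F' := fun (q : ℝ × (ι → ℝ)) x => (f x * Real.exp (-(pt V q.1 q.2 x))) • G43a_L x)
    (x₀ := p) (s := Metric.ball p ε)
    (bound := fun x => Real.exp (ε * √(Fintype.card ι) * √(sq x)) *
      ((|f x| * (1 / 2 * sq x + ∑ i, |x i|)) * Real.exp (-(pt V (p.1 - ε) p.2 x))))
    (Metric.ball_mem_nhds p hε0)
    (Filter.Eventually.of_forall fun q =>
      hf.meas.aestronglyMeasurable.mul (hcont q).aestronglyMeasurable)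
    (hWp.int hf) ?_ ?_ (hW.int_lin_exp hfg _) ?_
  · refine key.congr_fderiv ?_
    unfold ZL ZP
    have e : ∀ x, (f x * Real.exp (-(pt V p.1 p.2 x))) • G43a_L x =
        (-(1 / 2) * ((f x * sq x) * Real.exp (-(pt V p.1 p.2 x)))) •
          ContinuousLinearMap.fst ℝ ℝ (ι → ℝ) +
        ∑ i, ((f x * x i) * Real.exp (-(pt V p.1 p.2 x))) •
          ((ContinuousLinearMap.proj i : (ι → ℝ) →L[ℝ] ℝ).comp
            (ContinuousLinearMap.snd ℝ ℝ (ι → ℝ))) := by
      intro x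
      unfold G43a_L
      rw [smul_add, Finset.smul_sum, smul_smul]
      congr 1
      · congr 1; ring
      · refine Finset.sum_congr rfl fun i _ => ?_
        rw [smul_smul]; congr 1; ring
    have i1 : Integrable fun x => -(1 / 2) * ((f x * sq x) * Real.exp (-(pt V p.1 p.2 x))) :=
      (hWp.int (hf.mul T0.sqf)).const_mul _
    have i2 : ∀ i, Integrable fun x => (f x * x i) * Real.exp (-(pt V p.1 p.2 x)) := fun i =>
      hWp.int (hf.mul (T0.coord i))
    rw [integral_congr_ae (Filter.Eventually.of_forall e),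
      integral_add (i1.smul_const _) (integrable_finsetSum _ fun i _ => (i2 i).smul_const _),
      integral_finsetSum _ fun i _ => (i2 i).smul_const _, integral_smul_const,
      integral_const_mul]
    congr 1
    refine Finset.sum_congr rfl fun i _ => ?_
    rw [integral_smul_const]
  · -- measurability of the derivative
    have hL : Continuous (G43a_L : (ι → ℝ) → (ℝ × (ι → ℝ)) →L[ℝ] ℝ) := by
      unfold G43a_L
      have := continuous_sq (ι := ι)
      fun_prop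
    exact (hf.meas.aestronglyMeasurable.mul (hcont p).aestronglyMeasurable).smul
      hL.aestronglyMeasurable
  · refine Filter.Eventually.of_forall fun x q hq => ?_
    have h1 := ZP_dom V f hε0.le (p := p) (p' := q) (le_of_lt (Metric.mem_ball.1 hq)) x
    rw [norm_smul, Real.norm_eq_abs]
    have hgn : 0 ≤ 1 / 2 * sq x + ∑ i, |x i| :=
      add_nonneg (mul_nonneg (by norm_num) (sq_nn x)) (Finset.sum_nonneg fun i _ => abs_nonneg _)
    calc |f x * Real.exp (-(pt V q.1 q.2 x))| * ‖G43a_L x‖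
        ≤ (Real.exp (ε * √(Fintype.card ι) * √(sq x)) *
            (|f x| * Real.exp (-(pt V (p.1 - ε) p.2 x)))) * (1 / 2 * sq x + ∑ i, |x i|) :=
          mul_le_mul h1 (G43a_L_norm x) (norm_nonneg _) (by positivity)
      _ = _ := by ring
  · exact Filter.Eventually.of_forall fun x q _ => G43a_diff V (f x) x q

end Pool.Agent.Lib.MP_8d00da_gt.h42k
end

section

/-!
# 4.2: smoothness of the unnormalised posterior integrals
-/

namespace Pool.Agent.Lib.MP_8d00da_gt.h42k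

open MeasureTheory Set Filter
open scoped Topology NNReal ENNReal ContDiff

set_option linter.unusedSectionVars false
set_option linter.unusedVariables false

variable {ι : Type*} [Fintype ι] [DecidableEq ι]

variable {κ M : ℝ} {V f : (ι → ℝ) → ℝ}

private theorem G43b_open : IsOpen {p : ℝ × (ι → ℝ) | -κ < p.1} :=
  isOpen_lt continuous_const continuous_fst

/-- Induction on `n` (for all `T0` functions `f` at once) with `contDiffOn_succ_iff_fderiv_of_isOpen`
on the open set `{p | -κ < p.1}`. -/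
theorem ZP_contDiffOn (H : Nice κ M V) (n : ℕ) : ∀ {f : (ι → ℝ) → ℝ}, T0 f →
    ContDiffOn ℝ n (ZP V f) {p : ℝ × (ι → ℝ) | -κ < p.1} := by
  induction n with
  | zero =>
    intro f hf
    rw [Nat.cast_zero, contDiffOn_zero]
    intro p hp
    exact (ZP_hasFDerivAt H hf hp).continuousAt.continuousWithinAt
  | succ n ih =>
    intro f hf
    rw [Nat.cast_succ, contDiffOn_succ_iff_fderiv_of_isOpen G43b_open]
    refine ⟨fun p hp => (ZP_hasFDerivAt H hf hp).differentiableAt.differentiableWithinAt, ?_, ?_⟩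
    · intro h
      exact absurd h (by simp)
    · have h1 : ContDiffOn ℝ n (fun p => ZL V f p) {p : ℝ × (ι → ℝ) | -κ < p.1} := by
        unfold ZL
        refine ContDiffOn.add ?_ ?_
        · exact ContDiffOn.smul (contDiffOn_const.mul (ih (hf.mul T0.sqf))) contDiffOn_const
        · exact ContDiffOn.sum fun i _ => ContDiffOn.smul (ih (hf.mul (T0.coord i))) contDiffOn_const
      exact h1.congr fun p hp => (ZP_hasFDerivAt H hf hp).fderiv

theorem ZP_contDiffAt (H : Nice κ M V) (hf : T0 f) {p : ℝ × (ι → ℝ)} (hp : -κ < p.1) :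
    ContDiffAt ℝ ∞ (ZP V f) p := by
  rw [contDiffAt_infty]
  intro n
  exact (ZP_contDiffOn H n hf).contDiffAt (G43b_open.mem_nhds hp)

theorem ZP_one_pos (H : Nice κ M V) {p : ℝ × (ι → ℝ)} (hp : -κ < p.1) :
    0 < ZP V (fun _ => 1) p := by
  have h := (H.ptn hp p.2).zpos
  simpa [ZP] using h

end Pool.Agent.Lib.MP_8d00da_gt.h42k
end
end

section

section

/-!
# Posterior expectations have uniform polynomial growth
-/

namespace Pool.Agent.Lib.MP_8d00da_gt.h42k

open MeasureTheory Set Filter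
open scoped Topology NNReal ENNReal ContDiff

set_option linter.unusedSectionVars false
set_option linter.unusedVariables false

variable {ι : Type*} [Fintype ι] [DecidableEq ι]

/-- `E_{t,y} f` has polynomial growth in `y`, uniformly for `t ∈ [0,T]`. -/
theorem EP_pgu {κ M : ℝ} {V : (ι → ℝ) → ℝ} (H : Nice κ M V) {f : (ι → ℝ) → ℝ} (hf : T0 f)
    (T : ℝ) : PGU (fun t y => EP V t f y) T := by
  obtain ⟨C, k, hC, h⟩ := moments_pg hf H.kpos
  refine ⟨C * (2 + 2 * gs V 0) ^ k, k, fun t ht y => ?_⟩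
  have ht0 : 0 ≤ t := ht.1
  have hκ := H.kpos
  have Hp : Nice (κ + t) (M + t) (pt V t y) := H.ptn (by linarith) y
  have Hp' : Nice κ (M + t) (pt V t y) := Hp.mono hκ (by linarith) le_rfl
  have h1 : |EP V t f y| ≤ ex (pt V t y) (fun x => |f x|) := ex_abs_le Hp hf
  refine h1.trans ((h (M + t) (pt V t y) Hp').trans ?_)
  have hd : Differentiable ℝ V := H.c2.differentiable (by norm_num)
  have h2 : gs (pt V t y) 0 ≤ 2 * gs V 0 + 2 * sq y := by
    unfold gs sq
    rw [Finset.mul_sum, Finset.mul_sum, ← Finset.sum_add_distrib]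
    refine Finset.sum_le_sum fun i _ => ?_
    rw [pd_pt hd]
    have h3 : (0 : ι → ℝ) i = 0 := rfl
    rw [h3]
    nlinarith [sq_nonneg (pd i V 0 + y i)]
  have h0 : 0 ≤ gs V 0 := Finset.sum_nonneg fun _ _ => sq_nonneg _
  have h0' : 0 ≤ gs (pt V t y) 0 := Finset.sum_nonneg fun _ _ => sq_nonneg _
  have hs := sq_nn y
  have h3 : 1 + gs (pt V t y) 0 ≤ (2 + 2 * gs V 0) * (1 + sq y) := by
    have : 0 ≤ gs V 0 * sq y := mul_nonneg h0 hs
    nlinarith
  calc C * (1 + gs (pt V t y) 0) ^ k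
      ≤ C * ((2 + 2 * gs V 0) * (1 + sq y)) ^ k :=
        mul_le_mul_of_nonneg_left (pow_le_pow_left₀ (by linarith) h3 k) hC
    _ = _ := by rw [mul_pow]; ring

end Pool.Agent.Lib.MP_8d00da_gt.h42k
end

section

/-!
# Nested expectations as expectations over pairs
-/

namespace Pool.Agent.Lib.MP_8d00da_gt.h42k

open MeasureTheory Set Filter
open scoped Topology NNReal ENNReal ContDiff

set_option linter.unusedSectionVars false
set_option linter.unusedVariables false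

variable {ι : Type*} [Fintype ι] [DecidableEq ι]

variable {κ M : ℝ} {V f : (ι → ℝ) → ℝ} {Φ Ψ : (ι → ℝ) → ℝ}

private theorem G46b_fub {K : (ι ⊕ ι → ℝ) → ℝ} (hK : Integrable K) :
    ∫ z, K z = ∫ x : ι → ℝ, ∫ g : ι → ℝ, K (Sum.elim x g) := by
  have hmp := volume_measurePreserving_sumPiEquivProdPi_symm (fun _ : ι ⊕ ι => ℝ)
  have h1 : ∫ p : (ι → ℝ) × (ι → ℝ), K (Sum.elim p.1 p.2) = ∫ z, K z := by
    have h2 := hmp.integral_comp
      (MeasurableEquiv.sumPiEquivProdPi (fun _ : ι ⊕ ι => ℝ)).symm.measurableEmbedding K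
    exact h2
  have h3 : Integrable (fun p : (ι → ℝ) × (ι → ℝ) => K (Sum.elim p.1 p.2)) := by
    have h4 := (hmp.integrable_comp_emb
      (MeasurableEquiv.sumPiEquivProdPi (fun _ : ι ⊕ ι => ℝ)).symm.measurableEmbedding
      (g := K)).2 hK
    exact h4
  rw [← h1]
  exact integral_prod (fun p : (ι → ℝ) × (ι → ℝ) => K (Sum.elim p.1 p.2)) h3

private theorem G46b_num (H : Nice κ M V) {F : (ι ⊕ ι → ℝ) → ℝ} (hF : T0 F) :
    ∫ z, F z * Real.exp (-(WS V z)) =
      (∫ g : ι → ℝ, Real.exp (-gp g)) *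
        ∫ x, ex gp (fun g => F (Sum.elim x g)) * Real.exp (-V x) := by
  rw [G46b_fub ((WS_nice H).int hF), ← integral_const_mul]
  refine integral_congr_ae (Eventually.of_forall fun x => ?_)
  have hz : 0 < ∫ g : ι → ℝ, Real.exp (-gp g) := (nice_gp (ι := ι)).zpos
  have h1 : ∀ g : ι → ℝ, F (Sum.elim x g) * Real.exp (-(WS V (Sum.elim x g))) =
      Real.exp (-V x) * (F (Sum.elim x g) * Real.exp (-gp g)) := by
    intro g
    have h2 : WS V (Sum.elim x g) = V x + gp g := rfl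
    rw [h2, neg_add, Real.exp_add]
    ring
  show ∫ g : ι → ℝ, F (Sum.elim x g) * Real.exp (-(WS V (Sum.elim x g))) =
    (∫ g : ι → ℝ, Real.exp (-gp g)) * (ex gp (fun g => F (Sum.elim x g)) * Real.exp (-V x))
  simp only [h1]
  rw [integral_const_mul]
  unfold ex
  field_simp

/-- Nested expectation = expectation for the product (Fubini through
`MeasureTheory.volume_measurePreserving_sumPiEquivProdPi` or
`volume_measurePreserving_sumPiEquivProdPi_symm`). -/
theorem ex_nest (H : Nice κ M V) {F : (ι ⊕ ι → ℝ) → ℝ} (hF : T0 F) :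
    ex V (fun x => ex gp (fun g => F (Sum.elim x g))) = ex (WS V) F := by
  have hz : 0 < ∫ g : ι → ℝ, Real.exp (-gp g) := (nice_gp (ι := ι)).zpos
  have h1 := G46b_num H hF
  have h2 := G46b_num H (T0.const (ι := ι ⊕ ι) 1)
  simp only [one_mul] at h2
  rw [ex_const (nice_gp (ι := ι))] at h2
  simp only [one_mul] at h2
  have h4 : ex (WS V) F = (∫ z, F z * Real.exp (-(WS V z))) / ∫ z, Real.exp (-(WS V z)) := rfl
  rw [h4, h1, h2, mul_div_mul_left _ _ hz.ne']
  rfl

/-- A function of `x` alone. -/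
theorem ex_WS_left (H : Nice κ M V) (hf : T0 f) :
    ex (WS V) (fun z => f (fun i => z (Sum.inl i))) = ex V f := by
  rw [← ex_nest H (t0_left hf)]
  have h1 : ∀ x : ι → ℝ, ex gp (fun g : ι → ℝ => f (fun i => Sum.elim x g (Sum.inl i))) = f x := by
    intro x
    exact ex_const (nice_gp (ι := ι)) (f x)
  simp only [h1]

theorem GE_eq (H : Nice κ M V) (hΦ : T0 Φ) (t : ℝ) :
    GE V t Φ = ex (WS V) (fun z => Φ (yt t z)) := by
  rw [← ex_nest H (t0_yt hΦ t)]
  rfl

/-- `E_V[f(x) E_g Φ(tx+√t g)]` as an expectation over pairs. -/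
theorem ex_mul_GE (H : Nice κ M V) (hf : T0 f) (hΦ : T0 Φ) (t : ℝ) :
    ex V (fun x => f x * ex gp (fun g => Φ fun i => t * x i + √t * g i)) =
      ex (WS V) (fun z => f (fun i => z (Sum.inl i)) * Φ (yt t z)) := by
  rw [← ex_nest H ((t0_left hf).mul (t0_yt hΦ t))]
  congr 1
  funext x
  rw [← ex_cmul]
  rfl

end Pool.Agent.Lib.MP_8d00da_gt.h42k
end

section

/-!
# Elementary rules for GE
-/

namespace Pool.Agent.Lib.MP_8d00da_gt.h42k

open MeasureTheory Set Filter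
open scoped Topology NNReal ENNReal ContDiff

set_option linter.unusedSectionVars false
set_option linter.unusedVariables false

variable {ι : Type*} [Fintype ι] [DecidableEq ι]

variable {κ M : ℝ} {V f : (ι → ℝ) → ℝ} {Φ Ψ : (ι → ℝ) → ℝ}

theorem GE_zero (H : Nice κ M V) (Φ : (ι → ℝ) → ℝ) : GE V 0 Φ = Φ 0 := by
  unfold GE
  have h1 : ∀ x g : ι → ℝ, (fun i => (0 : ℝ) * x i + √(0 : ℝ) * g i) = 0 := by
    intro x g
    funext i
    simp
  simp only [h1]
  rw [ex_const nice_gp, ex_const H]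

theorem GE_const (H : Nice κ M V) (t c : ℝ) : GE V t (fun _ => c) = c := by
  unfold GE
  change ex V (fun _ => ex gp fun _ => c) = c
  rw [ex_const nice_gp, ex_const H]

theorem GE_add (H : Nice κ M V) (hΦ : T0 Φ) (hΨ : T0 Ψ) (t : ℝ) :
    GE V t (fun y => Φ y + Ψ y) = GE V t Φ + GE V t Ψ := by
  rw [GE_eq H (hΦ.add hΨ), GE_eq H hΦ, GE_eq H hΨ]
  exact ex_add (WS_nice H) (t0_yt hΦ t) (t0_yt hΨ t)

theorem GE_sub (H : Nice κ M V) (hΦ : T0 Φ) (hΨ : T0 Ψ) (t : ℝ) :
    GE V t (fun y => Φ y - Ψ y) = GE V t Φ - GE V t Ψ := by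
  rw [GE_eq H (hΦ.sub hΨ), GE_eq H hΦ, GE_eq H hΨ]
  exact ex_sub (WS_nice H) (t0_yt hΦ t) (t0_yt hΨ t)

theorem GE_cmul (V : (ι → ℝ) → ℝ) (t c : ℝ) (Φ : (ι → ℝ) → ℝ) :
    GE V t (fun y => c * Φ y) = c * GE V t Φ := by
  unfold GE
  rw [← ex_cmul]
  congr 1
  funext x
  exact ex_cmul _ _ _

theorem GE_neg (V : (ι → ℝ) → ℝ) (t : ℝ) (Φ : (ι → ℝ) → ℝ) :
    GE V t (fun y => - Φ y) = - GE V t Φ := by
  unfold GE
  rw [← ex_neg]
  congr 1
  funext x
  exact ex_neg _ _

theorem GE_sum (H : Nice κ M V) {α : Type*} (S : Finset α) {F : α → (ι → ℝ) → ℝ}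
    (hF : ∀ a ∈ S, T0 (F a)) (t : ℝ) :
    GE V t (fun y => ∑ a ∈ S, F a y) = ∑ a ∈ S, GE V t (F a) := by
  rw [GE_eq H (T0.sum S hF), Finset.sum_congr rfl fun a ha => GE_eq H (hF a ha) t]
  exact ex_sum (WS_nice H) S fun a ha => t0_yt (hF a ha) t

theorem GE_nonneg (V : (ι → ℝ) → ℝ) (t : ℝ) (h : ∀ y, 0 ≤ Φ y) : 0 ≤ GE V t Φ :=
  ex_nonneg V fun x => ex_nonneg gp fun g => h _

theorem GE_mono (H : Nice κ M V) (hΦ : T0 Φ) (hΨ : T0 Ψ) (t : ℝ) (h : ∀ y, Φ y ≤ Ψ y) :
    GE V t Φ ≤ GE V t Ψ := by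
  rw [GE_eq H hΦ, GE_eq H hΨ]
  exact ex_mono (WS_nice H) (t0_yt hΦ t) (t0_yt hΨ t) fun z => h _

theorem GE_abs_le (H : Nice κ M V) (hΦ : T0 Φ) (t : ℝ) :
    |GE V t Φ| ≤ GE V t (fun y => |Φ y|) := by
  rw [GE_eq H hΦ, GE_eq H hΦ.abs]
  exact ex_abs_le (WS_nice H) (t0_yt hΦ t)

theorem GE_cs (H : Nice κ M V) (hΦ : T0 Φ) (hΨ : T0 Ψ) (t : ℝ) :
    GE V t (fun y => Φ y * Ψ y) ^ 2 ≤ GE V t (fun y => Φ y ^ 2) * GE V t (fun y => Ψ y ^ 2) := by
  rw [GE_eq H (hΦ.mul hΨ), GE_eq H (hΦ.pow 2), GE_eq H (hΨ.pow 2)]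
  exact ex_cs (WS_nice H) (t0_yt hΦ t) (t0_yt hΨ t)

/-- If `Φ² ≤ p q` pointwise (`p, q ≥ 0`), then `(GE Φ)² ≤ GE p GE q`. -/
theorem GE_cs_pt (H : Nice κ M V) {p q : (ι → ℝ) → ℝ} (hΦ : T0 Φ) (hp : T0 p) (hq : T0 q)
    (t : ℝ) (hp0 : ∀ x, 0 ≤ p x) (hq0 : ∀ x, 0 ≤ q x) (h : ∀ x, Φ x ^ 2 ≤ p x * q x) :
    GE V t Φ ^ 2 ≤ GE V t p * GE V t q := by
  rw [GE_eq H hΦ, GE_eq H hp, GE_eq H hq]
  exact ex_cs_pt (WS_nice H) (t0_yt hΦ t) (t0_yt hp t) (t0_yt hq t) (fun z => hp0 _)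
    (fun z => hq0 _) fun z => h _

end Pool.Agent.Lib.MP_8d00da_gt.h42k
end

section

/-!
# 4.3: Gaussian integration by parts
-/

namespace Pool.Agent.Lib.MP_8d00da_gt.h42k

open MeasureTheory Set Filter
open scoped Topology NNReal ENNReal ContDiff

set_option linter.unusedSectionVars false
set_option linter.unusedVariables false

variable {ι : Type*} [Fintype ι] [DecidableEq ι]

variable {κ M : ℝ} {V f : (ι → ℝ) → ℝ} {Φ : ℝ → (ι → ℝ) → ℝ} {T : ℝ}

private theorem G48b_sq_le (t : ℝ) (x g : ι → ℝ) :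
    1 + sq (fun j => t * x j + √t * g j) ≤
      (1 + 2 * t ^ 2 * sq x + 2 * √t ^ 2) * (1 + sq g) := by
  have h1 := sq_add_le (fun j => t * x j) (fun j => √t * g j)
  have h2 : sq ((fun j => t * x j) + fun j => √t * g j) = sq (fun j => t * x j + √t * g j) := rfl
  rw [h2, sq_smul, sq_smul] at h1
  have h3 := sq_nn x
  have h4 := sq_nn g
  have h5 : 0 ≤ t ^ 2 * sq x := mul_nonneg (_root_.sq_nonneg t) h3
  have h6 : 0 ≤ t ^ 2 * sq x * sq g := mul_nonneg h5 h4
  have h7 : 0 ≤ √t ^ 2 := _root_.sq_nonneg _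
  nlinarith

private theorem G48b_pg {f : (ι → ℝ) → ℝ} (hf : PG f) (t : ℝ) (x : ι → ℝ) :
    PG (fun g => f (fun j => t * x j + √t * g j)) := by
  obtain ⟨C, k, hC, hb⟩ := hf.bound
  refine ⟨C * (1 + 2 * t ^ 2 * sq x + 2 * √t ^ 2) ^ k, k, fun g => ?_⟩
  refine (hb _).trans ?_
  rw [mul_assoc, ← mul_pow]
  refine mul_le_mul_of_nonneg_left ?_ hC
  have h0 := sq_nn (fun j => t * x j + √t * g j)
  exact pow_le_pow_left₀ (by linarith) (G48b_sq_le t x g) k

private theorem G48b_pd {F : (ι → ℝ) → ℝ} (hF : Differentiable ℝ F) (t : ℝ) (x : ι → ℝ) (i : ι)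
    (g : ι → ℝ) : pd i (fun g => F (fun j => t * x j + √t * g j)) g =
      √t * pd i F (fun j => t * x j + √t * g j) := by
  have h1 : HasFDerivAt (fun g : ι → ℝ => (fun j => t * x j) + √t • g)
      (√t • ContinuousLinearMap.id ℝ (ι → ℝ)) g :=
    ((hasFDerivAt_id g).const_smul (√t)).const_add _
  have h2 : (fun g : ι → ℝ => (fun j => t * x j) + √t • g) =
      fun g => fun j => t * x j + √t * g j := by
    funext g j
    simp
  rw [h2] at h1
  have h3 := (hF (fun j => t * x j + √t * g j)).hasFDerivAt.comp g h1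
  have h4 : HasFDerivAt (fun g => F (fun j => t * x j + √t * g j)) _ g := h3
  unfold pd
  rw [h4.fderiv]
  simp

private theorem G48b_t1 {F : (ι → ℝ) → ℝ} (hF : T1 F) (t : ℝ) (x : ι → ℝ) :
    T1 (fun g => F (fun j => t * x j + √t * g j)) := by
  refine ⟨?_, G48b_pg hF.pg t x, fun i => ?_⟩
  · refine hF.c1.comp ?_
    fun_prop
  · have h1 : pd i (fun g => F (fun j => t * x j + √t * g j)) =
        fun g => √t * pd i F (fun j => t * x j + √t * g j) :=
      funext fun g => G48b_pd (hF.c1.differentiable (by norm_num)) t x i g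
    rw [h1]
    exact (PG.const _).mul (G48b_pg (hF.pgd i) t x)

private theorem G48b_pd_gp (i : ι) (g : ι → ℝ) : pd i gp g = g i := by
  have e0 : (gp : (ι → ℝ) → ℝ) = fun x => (1 / 2) * sq x := by
    funext x
    unfold gp
    ring
  rw [e0, pd_cmul ((contDiff_sq (n := 1)).differentiable (by norm_num)), pd_sq]
  ring

/-- Gaussian integration by parts in `g` for fixed `x`: `ibp` for `gp` and the `T1` function
`g ↦ F(tx+√t g)`. -/
theorem gauss_ibp {F : (ι → ℝ) → ℝ} (hF : T1 F) (t : ℝ) (x : ι → ℝ) (i : ι) :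
    ex gp (fun g => g i * F (fun j => t * x j + √t * g j)) =
      √t * ex gp (fun g => pd i F (fun j => t * x j + √t * g j)) := by
  have h1 := ibp (nice_gp (ι := ι)) (G48b_t1 hF t x) i
  have h2 : pd i (fun g => F (fun j => t * x j + √t * g j)) =
      fun g => √t * pd i F (fun j => t * x j + √t * g j) :=
    funext fun g => G48b_pd (hF.c1.differentiable (by norm_num)) t x i g
  rw [h2, ex_cmul] at h1
  rw [h1]
  congr 1
  funext g
  rw [G48b_pd_gp, mul_comm]

/-- The same on the space of pairs (`ex_nest`). -/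
theorem gauss_ibp_WS (H : Nice κ M V) {F : (ι → ℝ) → ℝ} (hF : T1 F) (t : ℝ) (i : ι) :
    ex (WS V) (fun z => z (Sum.inr i) * F (yt t z)) =
      √t * ex (WS V) (fun z => pd i F (yt t z)) := by
  have h1 := ex_nest H (F := fun z : ι ⊕ ι → ℝ => z (Sum.inr i) * F (yt t z))
    ((T0.coord (Sum.inr i)).mul (t0_yt hF.t0 t))
  have h2 := ex_nest H (F := fun z : ι ⊕ ι → ℝ => pd i F (yt t z)) (t0_yt (hF.pdt0 i) t)
  rw [← h1, ← h2, ← ex_cmul]
  congr 1
  funext x
  exact gauss_ibp hF t x i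

end Pool.Agent.Lib.MP_8d00da_gt.h42k
end

section

/-!
# 4.1: Bayes for unnormalised integrals
-/

namespace Pool.Agent.Lib.MP_8d00da_gt.h42k

open MeasureTheory Set Filter
open scoped Topology NNReal ENNReal ContDiff

set_option linter.unusedSectionVars false
set_option linter.unusedVariables false

variable {ι : Type*} [Fintype ι] [DecidableEq ι]

variable {κ M : ℝ} {V f Φ : (ι → ℝ) → ℝ}

private theorem G47c_sq (z : ι ⊕ ι → ℝ) :
    sq z = sq (fun i => z (Sum.inl i)) + sq (fun i => z (Sum.inr i)) := by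
  unfold sq
  rw [Fintype.sum_sum_type]

private theorem G47c_left (hf : T0 f) : T0 (fun z : ι ⊕ ι → ℝ => f (fun i => z (Sum.inl i))) := by
  refine ⟨hf.meas.comp (measurable_pi_lambda _ fun i => measurable_pi_apply _), ?_⟩
  obtain ⟨C, k, hC, h⟩ := hf.pg.bound
  refine ⟨C, k, fun z => (h _).trans ?_⟩
  refine mul_le_mul_of_nonneg_left (pow_le_pow_left₀ ?_ ?_ k) hC
  · linarith [sq_nn (fun i => z (Sum.inl i))]
  · rw [G47c_sq z]
    linarith [sq_nn (fun i => z (Sum.inr i))]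

private theorem G47c_right (hf : T0 f) : T0 (fun z : ι ⊕ ι → ℝ => f (fun i => z (Sum.inr i))) := by
  refine ⟨hf.meas.comp (measurable_pi_lambda _ fun i => measurable_pi_apply _), ?_⟩
  obtain ⟨C, k, hC, h⟩ := hf.pg.bound
  refine ⟨C, k, fun z => (h _).trans ?_⟩
  refine mul_le_mul_of_nonneg_left (pow_le_pow_left₀ ?_ ?_ k) hC
  · linarith [sq_nn (fun i => z (Sum.inr i))]
  · rw [G47c_sq z]
    linarith [sq_nn (fun i => z (Sum.inl i))]

private theorem G47c_int (H : Nice κ M V) (hf : T0 f) (hΦ : T0 Φ) {t : ℝ} (ht : 0 < t) :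
    Integrable (fun p : (ι → ℝ) × (ι → ℝ) =>
      f p.1 * Φ p.2 * Real.exp (-(pt V t p.2 p.1 + sq p.2 / (2 * t)))) := by
  obtain ⟨c, M', hN⟩ := joint_nice H ht
  have h1 := hN.int ((G47c_left hf).mul (G47c_right hΦ))
  have h2 := (volume_measurePreserving_sumPiEquivProdPi_symm
    (fun _ : ι ⊕ ι => ℝ)).integrable_comp_of_integrable h1
  exact h2

/-- `∫ f(x) e^{-V(x)} ∫ Φ(tx+√t g) e^{-|g|²/2} dg dx = (√t)^{-n} ∫ Φ(y) e^{-|y|²/(2t)} ZP f (t,y) dy`:
`inner_change` and Fubini (the integrand `f(x) Φ(y) exp(-joint potential)` is integrable on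
the product by `joint_nice`, `Nice.int` and `volume_measurePreserving_sumPiEquivProdPi`). -/
theorem bayes_integral (H : Nice κ M V) (hf : T0 f) (hΦ : T0 Φ) {t : ℝ} (ht : 0 < t) :
    ∫ x, (f x * ∫ g : ι → ℝ, Φ (fun i => t * x i + √t * g i) * Real.exp (-(gp g))) *
        Real.exp (-V x) =
      ((√t) ^ Fintype.card ι)⁻¹ *
        ∫ y, Φ y * Real.exp (-(sq y / (2 * t))) * ZP V f (t, y) := by
  have e1 : ∀ x : ι → ℝ,
      (f x * ∫ g : ι → ℝ, Φ (fun i => t * x i + √t * g i) * Real.exp (-(gp g))) *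
        Real.exp (-V x) = ((√t) ^ Fintype.card ι)⁻¹ *
          ∫ y, f x * Φ y * Real.exp (-(pt V t y x + sq y / (2 * t))) := by
    intro x
    rw [inner_change Φ ht x]
    have e2 : ∀ y : ι → ℝ, f x * Φ y * Real.exp (-(pt V t y x + sq y / (2 * t))) =
        (f x * Real.exp (-V x)) *
          (Φ y * Real.exp (-(sq y / (2 * t) - dt y x + t / 2 * sq x))) := by
      intro y
      have e3 : -(pt V t y x + sq y / (2 * t)) =
          -V x + -(sq y / (2 * t) - dt y x + t / 2 * sq x) := by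
        unfold pt
        ring
      rw [e3, Real.exp_add]
      ring
    simp_rw [e2]
    rw [integral_const_mul]
    ring
  simp_rw [e1]
  rw [integral_const_mul]
  congr 1
  have h := G47c_int H hf hΦ ht
  rw [integral_integral_swap (f := fun x y => f x * Φ y *
    Real.exp (-(pt V t y x + sq y / (2 * t)))) h]
  refine integral_congr_ae (Eventually.of_forall fun y => ?_)
  simp only [ZP]
  rw [← integral_const_mul]
  refine integral_congr_ae (Eventually.of_forall fun x => ?_)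
  simp only
  have e3 : -(pt V t y x + sq y / (2 * t)) = -(sq y / (2 * t)) + -(pt V t y x) := by ring
  rw [e3, Real.exp_add]
  ring

end Pool.Agent.Lib.MP_8d00da_gt.h42k
end

section

/-!
# 4.2: posterior expectations and covariances as functions of (t,y)
-/

namespace Pool.Agent.Lib.MP_8d00da_gt.h42k

open MeasureTheory Set Filter
open scoped Topology NNReal ENNReal ContDiff

set_option linter.unusedSectionVars false
set_option linter.unusedVariables false

variable {ι : Type*} [Fintype ι] [DecidableEq ι]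

variable {κ M : ℝ} {V f g h : (ι → ℝ) → ℝ}

theorem EP_eq (V f : (ι → ℝ) → ℝ) (t : ℝ) (y : ι → ℝ) :
    EP V t f y = ZP V f (t, y) / ZP V (fun _ => 1) (t, y) := by
  simp only [EP, ex, ZP, one_mul]

theorem CP_eq (V f g : (ι → ℝ) → ℝ) (t : ℝ) (y : ι → ℝ) :
    CP V t f g y = EP V t (fun x => f x * g x) y - EP V t f y * EP V t g y := rfl

private theorem G44a_fun (V f : (ι → ℝ) → ℝ) :
    (fun p : ℝ × (ι → ℝ) => EP V p.1 f p.2) = fun p => ZP V f p / ZP V (fun _ => 1) p := by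
  funext p
  exact EP_eq V f p.1 p.2

theorem EP_contDiffAt (H : Nice κ M V) (hf : T0 f) {t : ℝ} (ht : -κ < t) (y : ι → ℝ) :
    ContDiffAt ℝ ∞ (fun p : ℝ × (ι → ℝ) => EP V p.1 f p.2) (t, y) := by
  rw [G44a_fun]
  exact (ZP_contDiffAt H hf (p := (t, y)) ht).div (ZP_contDiffAt H (T0.const 1) (p := (t, y)) ht)
    (ZP_one_pos H (p := (t, y)) ht).ne'

private theorem G44a_fderiv (H : Nice κ M V) (hf : T0 f) {t : ℝ} (ht : -κ < t) (y : ι → ℝ) :
    ∃ L : (ℝ × (ι → ℝ)) →L[ℝ] ℝ,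
      HasFDerivAt (fun p : ℝ × (ι → ℝ) => EP V p.1 f p.2) L (t, y) ∧
      ∀ v, L v = ZL V f (t, y) v / ZP V (fun _ => 1) (t, y) -
        ZP V f (t, y) * ZL V (fun _ => 1) (t, y) v / ZP V (fun _ => 1) (t, y) ^ 2 := by
  have h0 := (ZP_one_pos H (p := (t, y)) ht).ne'
  have h1 := ZP_hasFDerivAt H hf (p := (t, y)) ht
  have h2 := ZP_hasFDerivAt H (T0.const 1) (p := (t, y)) ht
  rw [G44a_fun]
  have h3 := h1.mul ((hasDerivAt_inv h0).comp_hasFDerivAt (t, y) h2)
  refine ⟨_, h3.congr_of_eventuallyEq (Filter.Eventually.of_forall fun p => ?_), fun v => ?_⟩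
  · exact div_eq_mul_inv _ _
  · simp only [add_apply, smul_apply, smul_eq_mul,
      Function.comp_apply]
    field_simp
    ring

theorem EP_pd (H : Nice κ M V) (hf : T0 f) {t : ℝ} (ht : -κ < t) (y : ι → ℝ) (i : ι) :
    pd i (EP V t f) y = CP V t f (fun x => x i) y := by
  obtain ⟨L, hL, hv⟩ := G44a_fderiv H hf ht y
  have h0 := (ZP_one_pos H (p := (t, y)) ht).ne'
  have h1 : HasFDerivAt (fun z : ι → ℝ => (t, z)) (ContinuousLinearMap.inr ℝ ℝ (ι → ℝ)) y :=
    hasFDerivAt_prodMk_right t y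
  have h2 : HasFDerivAt (EP V t f) (L.comp (ContinuousLinearMap.inr ℝ ℝ (ι → ℝ))) y :=
    HasFDerivAt.comp (f := fun z : ι → ℝ => (t, z)) y hL h1
  rw [pd, h2.fderiv, ContinuousLinearMap.comp_apply, hv, CP_eq, EP_eq, EP_eq, EP_eq]
  have h3 : ∀ u : (ι → ℝ) → ℝ, ZL V u (t, y) (ContinuousLinearMap.inr ℝ ℝ (ι → ℝ) (Pi.single i 1)) =
      ZP V (fun x => u x * x i) (t, y) := by
    intro u
    simp only [ZL, add_apply, smul_apply, smul_eq_mul,
      ContinuousLinearMap.coe_fst', ContinuousLinearMap.inr_apply, mul_zero, zero_add,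
      sum_apply, ContinuousLinearMap.comp_apply,
      ContinuousLinearMap.coe_snd', ContinuousLinearMap.proj_apply]
    rw [Finset.sum_eq_single i]
    · rw [Pi.single_eq_same, mul_one]
    · intro b _ hb
      rw [Pi.single_eq_of_ne hb, mul_zero]
    · intro h
      exact absurd (Finset.mem_univ i) h
  rw [h3, h3]
  simp only [one_mul]
  field_simp

theorem EP_deriv (H : Nice κ M V) (hf : T0 f) {t : ℝ} (ht : -κ < t) (y : ι → ℝ) :
    HasDerivAt (fun s => EP V s f y) (-(1 / 2) * CP V t f sq y) t := by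
  obtain ⟨L, hL, hv⟩ := G44a_fderiv H hf ht y
  have h0 := (ZP_one_pos H (p := (t, y)) ht).ne'
  have h1 : HasDerivAt (fun s : ℝ => (s, y)) ((1 : ℝ), (0 : ι → ℝ)) t :=
    (hasDerivAt_id t).prodMk (hasDerivAt_const t y)
  have h2 : HasDerivAt (fun s => EP V s f y) (L ((1 : ℝ), (0 : ι → ℝ))) t :=
    HasFDerivAt.comp_hasDerivAt (f := fun s : ℝ => (s, y)) t hL h1
  refine h2.congr_deriv ?_
  rw [hv, CP_eq, EP_eq, EP_eq, EP_eq]
  have h3 : ∀ u : (ι → ℝ) → ℝ, ZL V u (t, y) ((1 : ℝ), (0 : ι → ℝ)) =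
      -(1 / 2) * ZP V (fun x => u x * sq x) (t, y) := by
    intro u
    simp [ZL]
  rw [h3, h3]
  simp only [one_mul]
  field_simp
  ring

/-- `EP V t f` is a `T0` function (indeed smooth) for `t > -κ`: bounded growth as in `EP_pgu`, for
a single `t` (apply `moment_le` with the constant `κ + t`). -/
theorem EP_t0 (H : Nice κ M V) (hf : T0 f) {t : ℝ} (ht : -κ < t) : T0 (EP V t f) := by
  constructor
  · apply Continuous.measurable
    rw [continuous_iff_continuousAt]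
    intro y
    have h1 := (EP_contDiffAt H hf ht y).continuousAt
    exact ContinuousAt.comp (f := fun z : ι → ℝ => (t, z)) h1 (by fun_prop)
  · have h1 : Nice (κ + t) (M + t) (pt V t 0) := H.ptn ht 0
    have h2 : EP V t f = EP (pt V t 0) 0 f := by
      funext y
      have h3 : pt V t y = pt (pt V t 0) 0 y := by
        funext x
        have h4 : dt (0 : ι → ℝ) x = 0 := by simp [dt]
        simp only [pt, h4]
        ring
      simp only [EP, ← h3]
    rw [h2]
    exact (EP_pgu h1 hf 0).pg (Set.left_mem_Icc.2 le_rfl)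

private theorem G44a_CP (V f g : (ι → ℝ) → ℝ) (t : ℝ) :
    CP V t f g = fun y => EP V t (fun x => f x * g x) y - EP V t f y * EP V t g y := rfl

theorem CP_t0 (H : Nice κ M V) (hf : T0 f) (hg : T0 g) {t : ℝ} (ht : -κ < t) :
    T0 (CP V t f g) := by
  rw [G44a_CP]
  exact (EP_t0 H (hf.mul hg) ht).sub ((EP_t0 H hf ht).mul (EP_t0 H hg ht))

theorem CP_contDiffAt (H : Nice κ M V) (hf : T0 f) (hg : T0 g) {t : ℝ} (ht : -κ < t)
    (y : ι → ℝ) : ContDiffAt ℝ ∞ (fun p : ℝ × (ι → ℝ) => CP V p.1 f g p.2) (t, y) :=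
  (EP_contDiffAt H (hf.mul hg) ht y).sub ((EP_contDiffAt H hf ht y).mul (EP_contDiffAt H hg ht y))

theorem CP_pgu (H : Nice κ M V) (hf : T0 f) (hg : T0 g) (T : ℝ) :
    PGU (fun t y => CP V t f g y) T :=
  (EP_pgu H (hf.mul hg) T).sub ((EP_pgu H hf T).mul (EP_pgu H hg T))

end Pool.Agent.Lib.MP_8d00da_gt.h42k
end

section

/-!
# 4.2: derivatives of posterior covariances
-/

namespace Pool.Agent.Lib.MP_8d00da_gt.h42k

open MeasureTheory Set Filter
open scoped Topology NNReal ENNReal ContDiff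

set_option linter.unusedSectionVars false
set_option linter.unusedVariables false

variable {ι : Type*} [Fintype ι] [DecidableEq ι]

variable {κ M : ℝ} {V f g h : (ι → ℝ) → ℝ}

theorem TC_eq (H : Nice κ M V) (hf : T0 f) (hg : T0 g) (hh : T0 h) {t : ℝ} (ht : -κ < t)
    (y : ι → ℝ) : TC V t f g h y = EP V t (fun x => f x * g x * h x) y
      - EP V t f y * EP V t (fun x => g x * h x) y - EP V t g y * EP V t (fun x => f x * h x) y
      - EP V t h y * EP V t (fun x => f x * g x) y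
      + 2 * (EP V t f y * EP V t g y * EP V t h y) := by
  have H' := H.ptn ht y
  unfold TC
  set a : ℝ := EP V t f y with ha
  set b : ℝ := EP V t g y with hb
  set c : ℝ := EP V t h y with hc
  have e1 : (fun x => (f x - a) * (g x - b) * (h x - c)) =
      fun x => ((f x * g x * h x - c * (f x * g x)) - (b * (f x * h x) + a * (g x * h x)))
        + ((a * b * h x + a * c * g x) + (b * c * f x - a * b * c)) := by
    funext x
    ring
  have tfg : T0 (fun x => f x * g x) := hf.mul hg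
  have tfh : T0 (fun x => f x * h x) := hf.mul hh
  have tgh : T0 (fun x => g x * h x) := hg.mul hh
  have tfgh : T0 (fun x => f x * g x * h x) := tfg.mul hh
  have t1 : T0 (fun x => c * (f x * g x)) := tfg.cmul c
  have t2 : T0 (fun x => b * (f x * h x)) := tfh.cmul b
  have t3 : T0 (fun x => a * (g x * h x)) := tgh.cmul a
  have t4 : T0 (fun x => a * b * h x) := hh.cmul _
  have t5 : T0 (fun x => a * c * g x) := hg.cmul _
  have t6 : T0 (fun x => b * c * f x) := hf.cmul _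
  have t7 : T0 (fun _ : ι → ℝ => a * b * c) := T0.const _
  rw [e1, ex_add H' ((tfgh.sub t1).sub (t2.add t3)) ((t4.add t5).add (t6.sub t7)),
    ex_sub H' (tfgh.sub t1) (t2.add t3), ex_sub H' tfgh t1, ex_add H' t2 t3,
    ex_add H' (t4.add t5) (t6.sub t7), ex_add H' t4 t5, ex_sub H' t6 t7, ex_const H',
    ex_cmul _ (fun x => f x * g x), ex_cmul _ (fun x => f x * h x), ex_cmul _ (fun x => g x * h x),
    ex_cmul _ h, ex_cmul _ g, ex_cmul _ f]
  have ea : ex (pt V t y) f = a := rfl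
  have eb : ex (pt V t y) g = b := rfl
  have ec : ex (pt V t y) h = c := rfl
  rw [ea, eb, ec]
  unfold EP
  ring

theorem TC_pgu (H : Nice κ M V) (hf : T0 f) (hg : T0 g) (hh : T0 h) (T : ℝ) :
    PGU (fun t y => TC V t f g h y) T := by
  have tfg : T0 (fun x => f x * g x) := hf.mul hg
  have tfh : T0 (fun x => f x * h x) := hf.mul hh
  have tgh : T0 (fun x => g x * h x) := hg.mul hh
  have tfgh : T0 (fun x => f x * g x * h x) := tfg.mul hh
  have u := ((((EP_pgu H tfgh T).sub ((EP_pgu H hf T).mul (EP_pgu H tgh T))).sub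
    ((EP_pgu H hg T).mul (EP_pgu H tfh T))).sub ((EP_pgu H hh T).mul (EP_pgu H tfg T))).add
    ((PGU.const (ι := ι) 2 T).mul (((EP_pgu H hf T).mul (EP_pgu H hg T)).mul (EP_pgu H hh T)))
  refine u.congr fun t ht y => ?_
  have ht' : -κ < t := by
    have h1 := H.kpos
    have h2 := ht.1
    linarith
  exact TC_eq H hf hg hh ht' y

private theorem G44b_diff (H : Nice κ M V) (hf : T0 f) {t : ℝ} (ht : -κ < t) :
    Differentiable ℝ (EP V t f) := by
  intro y
  have h1 : ContDiffAt ℝ ∞ (fun p : ℝ × (ι → ℝ) => EP V p.1 f p.2) (t, y) :=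
    EP_contDiffAt H hf ht y
  have h2 : DifferentiableAt ℝ (fun p : ℝ × (ι → ℝ) => EP V p.1 f p.2) (t, y) :=
    h1.differentiableAt (by simp)
  have h3 : DifferentiableAt ℝ (fun z : ι → ℝ => ((t, z) : ℝ × (ι → ℝ))) y :=
    (differentiableAt_const t).prodMk differentiableAt_id
  exact DifferentiableAt.comp (g := fun p : ℝ × (ι → ℝ) => EP V p.1 f p.2)
    (f := fun z : ι → ℝ => ((t, z) : ℝ × (ι → ℝ))) y h2 h3

/-- The derivative of a posterior covariance is a third central moment. -/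
theorem CP_pd (H : Nice κ M V) (hf : T0 f) (hg : T0 g) {t : ℝ} (ht : -κ < t) (y : ι → ℝ)
    (i : ι) : pd i (CP V t f g) y = TC V t f g (fun x => x i) y := by
  have tfg : T0 (fun x => f x * g x) := hf.mul hg
  have e1 : CP V t f g = fun y => EP V t (fun x => f x * g x) y - EP V t f y * EP V t g y :=
    funext fun y => CP_eq V f g t y
  have d1 : Differentiable ℝ (fun y => EP V t (fun x => f x * g x) y) := G44b_diff H tfg ht
  have d2 : Differentiable ℝ (fun y => EP V t f y) := G44b_diff H hf ht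
  have d3 : Differentiable ℝ (fun y => EP V t g y) := G44b_diff H hg ht
  have d4 : Differentiable ℝ (fun y => EP V t f y * EP V t g y) := d2.mul d3
  rw [e1, pd_sub d1 d4 i y, pd_mul d2 d3 i y, TC_eq H hf hg (T0.coord i) ht y]
  have f1 : pd i (fun y => EP V t (fun x => f x * g x) y) y =
      CP V t (fun x => f x * g x) (fun x => x i) y := EP_pd H tfg ht y i
  have f2 : pd i (fun y => EP V t f y) y = CP V t f (fun x => x i) y := EP_pd H hf ht y i
  have f3 : pd i (fun y => EP V t g y) y = CP V t g (fun x => x i) y := EP_pd H hg ht y i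
  rw [f1, f2, f3, CP_eq, CP_eq, CP_eq]
  ring

theorem CP_deriv (H : Nice κ M V) (hf : T0 f) (hg : T0 g) {t : ℝ} (ht : -κ < t) (y : ι → ℝ) :
    HasDerivAt (fun s => CP V s f g y) (-(1 / 2) * TC V t f g sq y) t := by
  have tfg : T0 (fun x => f x * g x) := hf.mul hg
  have e1 : (fun s => CP V s f g y) =
      fun s => EP V s (fun x => f x * g x) y - EP V s f y * EP V s g y :=
    funext fun s => CP_eq V f g s y
  have h1 := (EP_deriv H tfg ht y).sub ((EP_deriv H hf ht y).mul (EP_deriv H hg ht y))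
  rw [e1]
  refine HasDerivAt.congr_deriv h1 ?_
  rw [TC_eq H hf hg T0.sqf ht y, CP_eq, CP_eq, CP_eq]
  ring

end Pool.Agent.Lib.MP_8d00da_gt.h42k
end

section

/-!
# The algebra generated by the posterior expectations
-/

namespace Pool.Agent.Lib.MP_8d00da_gt.h42k

open MeasureTheory Set Filter
open scoped Topology NNReal ENNReal ContDiff

set_option linter.unusedSectionVars false
set_option linter.unusedVariables false

variable {ι : Type*} [Fintype ι] [DecidableEq ι]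

variable {κ M : ℝ} {V f g h : (ι → ℝ) → ℝ} {Φ Ψ : ℝ → (ι → ℝ) → ℝ}

/-- Induction on `AL` (`EP_contDiffAt`). -/
theorem AL.smooth (H : Nice κ M V) (h : AL V Φ) {t : ℝ} (ht : -κ < t) (y : ι → ℝ) :
    ContDiffAt ℝ ∞ (fun p : ℝ × (ι → ℝ) => Φ p.1 p.2) (t, y) := by
  induction h with
  | ep f hf => exact EP_contDiffAt H hf ht y
  | const c => exact contDiffAt_const
  | add h1 h2 ih1 ih2 => exact ih1.add ih2
  | mul h1 h2 ih1 ih2 => exact ih1.mul ih2

theorem AL.pgu (H : Nice κ M V) (h : AL V Φ) (T : ℝ) : PGU Φ T := by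
  induction h with
  | ep f hf => exact EP_pgu H hf T
  | const c => exact PGU.const c T
  | add h1 h2 ih1 ih2 => exact ih1.add ih2
  | mul h1 h2 ih1 ih2 => exact ih1.mul ih2

theorem AL.t0 (H : Nice κ M V) (h : AL V Φ) {t : ℝ} (ht : -κ < t) : T0 (Φ t) := by
  induction h with
  | ep f hf => exact EP_t0 H hf ht
  | const c => exact T0.const c
  | add h1 h2 ih1 ih2 => exact ih1.add ih2
  | mul h1 h2 ih1 ih2 => exact ih1.mul ih2

theorem AL.cmul (h : AL V Φ) (c : ℝ) : AL V (fun t y => c * Φ t y) :=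
  (AL.const c).mul h

theorem AL.neg (h : AL V Φ) : AL V (fun t y => - Φ t y) := by
  have e : (fun t y => - Φ t y) = fun t y => (-1) * Φ t y := by
    funext t y
    ring
  rw [e]
  exact h.cmul (-1)

theorem AL.sub (h1 : AL V Φ) (h2 : AL V Ψ) : AL V (fun t y => Φ t y - Ψ t y) := by
  have e : (fun t y => Φ t y - Ψ t y) = fun t y => Φ t y + - Ψ t y := by
    funext t y
    ring
  rw [e]
  exact h1.add h2.neg

theorem AL.sum {α : Type*} (S : Finset α) {F : α → ℝ → (ι → ℝ) → ℝ} (hF : ∀ a ∈ S, AL V (F a)) :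
    AL V (fun t y => ∑ a ∈ S, F a t y) := by
  classical
  induction S using Finset.induction_on with
  | empty =>
    simp only [Finset.sum_empty]
    exact AL.const 0
  | insert a S ha ih =>
    simp only [Finset.sum_insert ha]
    exact (hF a (Finset.mem_insert_self a S)).add
      (ih fun b hb => hF b (Finset.mem_insert_of_mem hb))

theorem AL.pow (h : AL V Φ) (k : ℕ) : AL V (fun t y => Φ t y ^ k) := by
  induction k with
  | zero =>
    simp only [pow_zero]
    exact AL.const 1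
  | succ k ih =>
    simp only [pow_succ]
    exact ih.mul h

theorem AL.cp (V : (ι → ℝ) → ℝ) (hf : T0 f) (hg : T0 g) : AL V (fun t y => CP V t f g y) := by
  have e : (fun t y => CP V t f g y) =
      fun t y => EP V t (fun x => f x * g x) y - EP V t f y * EP V t g y := by
    funext t y
    exact CP_eq V f g t y
  rw [e]
  exact (AL.ep _ (hf.mul hg)).sub ((AL.ep f hf).mul (AL.ep g hg))

theorem AL.cm (V : (ι → ℝ) → ℝ) (i j : ι) : AL V (fun t y => CM (pt V t y) i j) :=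
  AL.cp V (T0.coord i) (T0.coord j)

private theorem G45_diff (H : Nice κ M V) (h : AL V Φ) {t : ℝ} (ht : -κ < t) :
    Differentiable ℝ (Φ t) := by
  intro y
  have h1 := h.smooth H ht y
  have h2 : ContDiffAt ℝ ∞ (fun z : ι → ℝ => ((t, z) : ℝ × (ι → ℝ))) y :=
    contDiffAt_const.prodMk contDiffAt_id
  have h3 := ContDiffAt.comp y h1 h2
  exact h3.differentiableAt (by simp)

/-- Partial derivatives stay in the algebra: induction on `AL` with `EP_pd`, product rule
(slices of `AL.smooth` functions are differentiable). -/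
theorem AL.pdx (H : Nice κ M V) (h : AL V Φ) (i : ι) :
    ∃ Ψ, AL V Ψ ∧ ∀ t, -κ < t → ∀ y, pd i (Φ t) y = Ψ t y := by
  induction h with
  | ep f hf =>
    exact ⟨fun t y => CP V t f (fun x => x i) y, AL.cp V hf (T0.coord i),
      fun t ht y => EP_pd H hf ht y i⟩
  | const c => exact ⟨fun _ _ => 0, AL.const 0, fun t _ y => pd_const c i y⟩
  | @add Φ₁ Φ₂ h1 h2 ih1 ih2 =>
    obtain ⟨Ψ₁, a1, e1⟩ := ih1
    obtain ⟨Ψ₂, a2, e2⟩ := ih2
    refine ⟨fun t y => Ψ₁ t y + Ψ₂ t y, a1.add a2, fun t ht y => ?_⟩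
    have e := pd_add (G45_diff H h1 ht) (G45_diff H h2 ht) i y
    rw [e1 t ht y, e2 t ht y] at e
    exact e
  | @mul Φ₁ Φ₂ h1 h2 ih1 ih2 =>
    obtain ⟨Ψ₁, a1, e1⟩ := ih1
    obtain ⟨Ψ₂, a2, e2⟩ := ih2
    refine ⟨fun t y => Φ₁ t y * Ψ₂ t y + Ψ₁ t y * Φ₂ t y, (h1.mul a2).add (a1.mul h2),
      fun t ht y => ?_⟩
    have e := pd_mul (G45_diff H h1 ht) (G45_diff H h2 ht) i y
    rw [e1 t ht y, e2 t ht y] at e
    refine e.trans ?_
    ring

/-- Time derivatives stay in the algebra: induction on `AL` with `EP_deriv`. -/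
theorem AL.dtx (H : Nice κ M V) (h : AL V Φ) :
    ∃ Ψ, AL V Ψ ∧ ∀ t, -κ < t → ∀ y, HasDerivAt (fun s => Φ s y) (Ψ t y) t := by
  induction h with
  | ep f hf =>
    exact ⟨fun t y => -(1 / 2) * CP V t f sq y, (AL.cp V hf T0.sqf).cmul _,
      fun t ht y => EP_deriv H hf ht y⟩
  | const c => exact ⟨fun _ _ => 0, AL.const 0, fun t _ y => hasDerivAt_const t c⟩
  | @add Φ₁ Φ₂ h1 h2 ih1 ih2 =>
    obtain ⟨Ψ₁, a1, e1⟩ := ih1
    obtain ⟨Ψ₂, a2, e2⟩ := ih2
    exact ⟨fun t y => Ψ₁ t y + Ψ₂ t y, a1.add a2, fun t ht y => (e1 t ht y).add (e2 t ht y)⟩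
  | @mul Φ₁ Φ₂ h1 h2 ih1 ih2 =>
    obtain ⟨Ψ₁, a1, e1⟩ := ih1
    obtain ⟨Ψ₂, a2, e2⟩ := ih2
    exact ⟨fun t y => Ψ₁ t y * Φ₂ t y + Φ₁ t y * Ψ₂ t y, (a1.mul h2).add (h1.mul a2),
      fun t ht y => (e1 t ht y).mul (e2 t ht y)⟩

theorem AL.pd_pgu (H : Nice κ M V) (h : AL V Φ) (i : ι) (T : ℝ) :
    PGU (fun t => pd i (Φ t)) T := by
  obtain ⟨Ψ, a, e⟩ := h.pdx H i
  exact (a.pgu H T).congr fun t ht y => e t (by linarith [H.kpos, ht.1]) y

theorem AL.pd2_pgu (H : Nice κ M V) (h : AL V Φ) (i j : ι) (T : ℝ) :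
    PGU (fun t => pd i (pd j (Φ t))) T := by
  obtain ⟨Ψ, a, e⟩ := h.pdx H j
  refine (a.pd_pgu H i T).congr fun t ht y => ?_
  have e2 : pd j (Φ t) = Ψ t := funext (e t (by linarith [H.kpos, ht.1]))
  show pd i (pd j (Φ t)) y = pd i (Ψ t) y
  rw [e2]

theorem AL.dt_pgu (H : Nice κ M V) (h : AL V Φ) (T : ℝ) :
    PGU (fun t y => deriv (fun s => Φ s y) t) T := by
  obtain ⟨Ψ, a, e⟩ := h.dtx H
  exact (a.pgu H T).congr fun t ht y => (e t (by linarith [H.kpos, ht.1]) y).deriv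

end Pool.Agent.Lib.MP_8d00da_gt.h42k
end

section

/-!
# 4.4: the generator, pointwise rules
-/

namespace Pool.Agent.Lib.MP_8d00da_gt.h42k

open MeasureTheory Set Filter
open scoped Topology NNReal ENNReal ContDiff

set_option linter.unusedSectionVars false
set_option linter.unusedVariables false

variable {ι : Type*} [Fintype ι] [DecidableEq ι]

variable {κ M : ℝ} {V f g : (ι → ℝ) → ℝ} {Φ Ψ : ℝ → (ι → ℝ) → ℝ}

/-- `G[E f] = 0`: `∂_t = -½ Cov(f,|x|²)`, `∂_i ∂_i E f = TC f x_i x_i`,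
`Cov(f,|x|²) = ∑ (TC f x_i x_i + 2 a_i Cov(f,x_i))`. -/
theorem Gn_EP (H : Nice κ M V) (hf : T0 f) {t : ℝ} (ht : -κ < t) (y : ι → ℝ) :
    Gn V t (fun s => EP V s f) y = 0 := by
  have H' := H.ptn ht y
  have e1 : ∀ i, pd i (EP V t f) = CP V t f (fun x => x i) := fun i =>
    funext fun y => EP_pd H hf ht y i
  have e2 : CP V t f sq y = ∑ i, (EP V t (fun x => f x * x i * x i) y -
      EP V t f y * EP V t (fun x => x i * x i) y) := by
    unfold CP
    rw [cov_comm]
    have h1 : (sq : (ι → ℝ) → ℝ) = fun x => ∑ i ∈ Finset.univ, x i * x i := by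
      funext x
      unfold sq
      exact Finset.sum_congr rfl fun i _ => pow_two _
    rw [h1, cov_sum H' Finset.univ (F := fun i x => x i * x i)
      (fun i _ => (T0.coord i).mul (T0.coord i)) hf]
    refine Finset.sum_congr rfl fun i _ => ?_
    rw [cov_comm]
    unfold cov EP
    congr 2
    funext x
    ring
  unfold Gn
  rw [(EP_deriv H hf ht y).deriv, e2]
  have e3 : ∀ i, EP V t (fun x => x i) y * pd i (EP V t f) y =
      EP V t (fun x => x i) y * (EP V t (fun x => f x * x i) y -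
        EP V t f y * EP V t (fun x => x i) y) := fun i => by
    rw [EP_pd H hf ht y i, CP_eq]
  have e4 : ∀ i, pd i (pd i (EP V t f)) y = EP V t (fun x => f x * x i * x i) y
      - EP V t f y * EP V t (fun x => x i * x i) y
      - EP V t (fun x => x i) y * EP V t (fun x => f x * x i) y
      - EP V t (fun x => x i) y * EP V t (fun x => f x * x i) y
      + 2 * (EP V t f y * EP V t (fun x => x i) y * EP V t (fun x => x i) y) := fun i => by
    rw [e1 i, CP_pd H hf (T0.coord i) ht y i, TC_eq H hf (T0.coord i) (T0.coord i) ht y]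
  show -(1 / 2) * ∑ i, (EP V t (fun x => f x * x i * x i) y -
      EP V t f y * EP V t (fun x => x i * x i) y) +
    ∑ i, EP V t (fun x => x i) y * pd i (EP V t f) y + 1 / 2 * ∑ i, pd i (pd i (EP V t f)) y = 0
  rw [Finset.sum_congr rfl fun i _ => e3 i, Finset.sum_congr rfl fun i _ => e4 i,
    Finset.mul_sum, Finset.mul_sum, ← Finset.sum_add_distrib, ← Finset.sum_add_distrib]
  refine Finset.sum_eq_zero fun i _ => ?_
  ring

private theorem G49a_diff {Φ : ℝ → (ι → ℝ) → ℝ} {t : ℝ}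
    (h1 : ∀ y, ContDiffAt ℝ ∞ (fun p : ℝ × (ι → ℝ) => Φ p.1 p.2) (t, y)) :
    ContDiff ℝ ∞ (Φ t) := by
  rw [contDiff_iff_contDiffAt]
  intro y
  have h3 : ContDiffAt ℝ ∞ (fun z : ι → ℝ => ((t, z) : ℝ × (ι → ℝ))) y :=
    contDiffAt_const.prodMk contDiffAt_id
  exact ContDiffAt.comp (g := fun p : ℝ × (ι → ℝ) => Φ p.1 p.2)
    (f := fun z : ι → ℝ => ((t, z) : ℝ × (ι → ℝ))) y (h1 y) h3

private theorem G49a_difft {Φ : ℝ → (ι → ℝ) → ℝ} {t : ℝ} {y : ι → ℝ}
    (h1 : ContDiffAt ℝ ∞ (fun p : ℝ × (ι → ℝ) => Φ p.1 p.2) (t, y)) :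
    DifferentiableAt ℝ (fun s => Φ s y) t := by
  have h2 : DifferentiableAt ℝ (fun p : ℝ × (ι → ℝ) => Φ p.1 p.2) (t, y) :=
    h1.differentiableAt (by simp)
  have h3 : DifferentiableAt ℝ (fun s : ℝ => ((s, y) : ℝ × (ι → ℝ))) t :=
    differentiableAt_id.prodMk (differentiableAt_const y)
  exact DifferentiableAt.comp (g := fun p : ℝ × (ι → ℝ) => Φ p.1 p.2)
    (f := fun s : ℝ => ((s, y) : ℝ × (ι → ℝ))) t h2 h3

private theorem G49a_pdd {f : (ι → ℝ) → ℝ} (hf : ContDiff ℝ ∞ f) (i : ι) :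
    Differentiable ℝ (pd i f) := by
  have h : ContDiff ℝ ((1 + 1 : ℕ) : WithTop ℕ∞) f := contDiff_infty.1 hf (1 + 1)
  exact (contDiff_pd h i).differentiable (by norm_num)

/-- `G[ΦΨ] = Φ GΨ + Ψ GΦ + ∇Φ·∇Ψ` for smooth functions. -/
theorem Gn_mul {t : ℝ} {y : ι → ℝ}
    (h1 : ∀ y, ContDiffAt ℝ ∞ (fun p : ℝ × (ι → ℝ) => Φ p.1 p.2) (t, y))
    (h2 : ∀ y, ContDiffAt ℝ ∞ (fun p : ℝ × (ι → ℝ) => Ψ p.1 p.2) (t, y)) :
    Gn V t (fun s y => Φ s y * Ψ s y) y =
      Φ t y * Gn V t Ψ y + Ψ t y * Gn V t Φ y + ∑ i, pd i (Φ t) y * pd i (Ψ t) y := by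
  have c1 := G49a_diff h1
  have c2 := G49a_diff h2
  have d1 : Differentiable ℝ (Φ t) := c1.differentiable (by simp)
  have d2 : Differentiable ℝ (Ψ t) := c2.differentiable (by simp)
  have e1 : ∀ i, pd i (fun y => Φ t y * Ψ t y) =
      fun y => pd i (Φ t) y * Ψ t y + Φ t y * pd i (Ψ t) y := fun i =>
    funext fun y => pd_mul d1 d2 i y
  have e2 : ∀ i, pd i (pd i (fun y => Φ t y * Ψ t y)) y =
      (pd i (pd i (Φ t)) y * Ψ t y + pd i (Φ t) y * pd i (Ψ t) y) +
      (pd i (Φ t) y * pd i (Ψ t) y + Φ t y * pd i (pd i (Ψ t)) y) := fun i => by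
    have a1 : Differentiable ℝ (fun y => pd i (Φ t) y * Ψ t y) := (G49a_pdd c1 i).mul d2
    have a2 : Differentiable ℝ (fun y => Φ t y * pd i (Ψ t) y) := d1.mul (G49a_pdd c2 i)
    rw [e1 i, pd_add a1 a2 i y, pd_mul (G49a_pdd c1 i) d2, pd_mul d1 (G49a_pdd c2 i)]
  have e3 : deriv (fun s => Φ s y * Ψ s y) t =
      deriv (fun s => Φ s y) t * Ψ t y + Φ t y * deriv (fun s => Ψ s y) t :=
    deriv_fun_mul (G49a_difft (h1 y)) (G49a_difft (h2 y))
  unfold Gn
  rw [e3]
  have e4 : ∀ i, EP V t (fun x => x i) y * pd i (fun y => Φ t y * Ψ t y) y =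
      Φ t y * (EP V t (fun x => x i) y * pd i (Ψ t) y) +
      Ψ t y * (EP V t (fun x => x i) y * pd i (Φ t) y) := fun i => by
    rw [e1 i]
    ring
  have e5 : ∀ i, pd i (pd i (fun y => Φ t y * Ψ t y)) y =
      (Φ t y * pd i (pd i (Ψ t)) y + Ψ t y * pd i (pd i (Φ t)) y) +
        2 * (pd i (Φ t) y * pd i (Ψ t) y) := fun i => by
    rw [e2 i]
    ring
  rw [Finset.sum_congr rfl fun i _ => e4 i, Finset.sum_congr rfl fun i _ => e5 i,
    Finset.sum_add_distrib, Finset.sum_add_distrib, Finset.sum_add_distrib, ← Finset.mul_sum,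
    ← Finset.mul_sum, ← Finset.mul_sum, ← Finset.mul_sum, ← Finset.mul_sum]
  ring

theorem Gn_sub {t : ℝ} {y : ι → ℝ}
    (h1 : ∀ y, ContDiffAt ℝ ∞ (fun p : ℝ × (ι → ℝ) => Φ p.1 p.2) (t, y))
    (h2 : ∀ y, ContDiffAt ℝ ∞ (fun p : ℝ × (ι → ℝ) => Ψ p.1 p.2) (t, y)) :
    Gn V t (fun s y => Φ s y - Ψ s y) y = Gn V t Φ y - Gn V t Ψ y := by
  have c1 := G49a_diff h1
  have c2 := G49a_diff h2
  have d1 : Differentiable ℝ (Φ t) := c1.differentiable (by simp)
  have d2 : Differentiable ℝ (Ψ t) := c2.differentiable (by simp)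
  have e1 : ∀ i, pd i (fun y => Φ t y - Ψ t y) =
      fun y => pd i (Φ t) y - pd i (Ψ t) y := fun i =>
    funext fun y => pd_sub d1 d2 i y
  have e2 : ∀ i, pd i (pd i (fun y => Φ t y - Ψ t y)) y =
      pd i (pd i (Φ t)) y - pd i (pd i (Ψ t)) y := fun i => by
    rw [e1 i, pd_sub (G49a_pdd c1 i) (G49a_pdd c2 i) i y]
  have e3 : deriv (fun s => Φ s y - Ψ s y) t =
      deriv (fun s => Φ s y) t - deriv (fun s => Ψ s y) t :=
    deriv_fun_sub (G49a_difft (h1 y)) (G49a_difft (h2 y))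
  unfold Gn
  rw [e3]
  have e4 : ∀ i, EP V t (fun x => x i) y * pd i (fun y => Φ t y - Ψ t y) y =
      (EP V t (fun x => x i) y * pd i (Φ t) y) -
      (EP V t (fun x => x i) y * pd i (Ψ t) y) := fun i => by
    rw [e1 i]
    ring
  rw [Finset.sum_congr rfl fun i _ => e4 i, Finset.sum_congr rfl fun i _ => e2 i,
    Finset.sum_sub_distrib, Finset.sum_sub_distrib]
  ring

/-- 4.4 for products. -/
theorem Gn_EP_mul (H : Nice κ M V) (hf : T0 f) (hg : T0 g) {t : ℝ} (ht : -κ < t) (y : ι → ℝ) :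
    Gn V t (fun s y => EP V s f y * EP V s g y) y =
      ∑ i, CP V t f (fun x => x i) y * CP V t g (fun x => x i) y := by
  rw [Gn_mul (Φ := fun s => EP V s f) (Ψ := fun s => EP V s g)
    (fun y => EP_contDiffAt H hf ht y) (fun y => EP_contDiffAt H hg ht y),
    Gn_EP H hf ht y, Gn_EP H hg ht y, mul_zero, mul_zero, zero_add, zero_add]
  refine Finset.sum_congr rfl fun i _ => ?_
  rw [EP_pd H hf ht y i, EP_pd H hg ht y i]

/-- 4.4 for covariances: `Gn` of `CP f g = EP (f g) - EP f EP g`. -/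
theorem Gn_CP (H : Nice κ M V) (hf : T0 f) (hg : T0 g) {t : ℝ} (ht : -κ < t) (y : ι → ℝ) :
    Gn V t (fun s y => CP V s f g y) y =
      - ∑ i, CP V t f (fun x => x i) y * CP V t g (fun x => x i) y := by
  have e1 : (fun s y => CP V s f g y) = fun s y =>
      EP V s (fun x => f x * g x) y - EP V s f y * EP V s g y := by
    funext s y
    exact CP_eq V f g s y
  rw [e1, Gn_sub (Φ := fun s => EP V s (fun x => f x * g x))
    (Ψ := fun s y => EP V s f y * EP V s g y)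
    (fun y => EP_contDiffAt H (hf.mul hg) ht y)
    (fun y => (EP_contDiffAt H hf ht y).mul (EP_contDiffAt H hg ht y)),
    Gn_EP H (hf.mul hg) ht y, Gn_EP_mul H hf hg ht y, zero_sub]

/-- 4.5: the generator of the entries of the posterior covariance matrix. -/
theorem Gn_CM (H : Nice κ M V) {t : ℝ} (ht : -κ < t) (y : ι → ℝ) (j k : ι) :
    Gn V t (fun s y => CM (pt V s y) j k) y =
      - ∑ i, CM (pt V t y) j i * CM (pt V t y) i k := by
  have h1 := Gn_CP H (T0.coord j) (T0.coord k) ht y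
  have e1 : (fun s y => CM (pt V s y) j k) =
      fun s y => CP V s (fun x => x j) (fun x => x k) y := rfl
  rw [e1, h1]
  congr 1
  refine Finset.sum_congr rfl fun i _ => ?_
  rw [CM_symm (pt V t y) i k]
  rfl

/-- 4.5: the derivatives of the entries are the third central moments. -/
theorem CM_pd (H : Nice κ M V) {t : ℝ} (ht : -κ < t) (y : ι → ℝ) (i j k : ι) :
    pd i (fun y => CM (pt V t y) j k) y =
      TC V t (fun x => x j) (fun x => x k) (fun x => x i) y :=
  CP_pd H (T0.coord j) (T0.coord k) ht y i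

end Pool.Agent.Lib.MP_8d00da_gt.h42k
end

section

/-!
# 4.1: Bayes, and the law of Y_t
-/

namespace Pool.Agent.Lib.MP_8d00da_gt.h42k

open MeasureTheory Set Filter
open scoped Topology NNReal ENNReal ContDiff

set_option linter.unusedSectionVars false
set_option linter.unusedVariables false

variable {ι : Type*} [Fintype ι] [DecidableEq ι]

variable {κ M : ℝ} {V f Φ : (ι → ℝ) → ℝ}

private theorem G47d_exp (H : Nice κ M V) {t : ℝ} (ht : 0 < t) (y : ι → ℝ) :
    Real.exp (-(VY V t y)) = Real.exp (-(sq y / (2 * t))) * ZP V (fun _ => 1) (t, y) := by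
  have hz := ZP_one_pos H (p := (t, y)) (by linarith [H.kpos])
  have h1 : ∫ x, Real.exp (-(pt V t y x)) = ZP V (fun _ => 1) (t, y) := by
    unfold ZP
    simp only [one_mul]
  unfold VY
  rw [h1, neg_sub, sub_eq_add_neg, Real.exp_add, Real.exp_log hz, mul_comm]

private theorem G47d_EP (H : Nice κ M V) {t : ℝ} (ht : 0 < t) (y : ι → ℝ) :
    EP V t f y * ZP V (fun _ => 1) (t, y) = ZP V f (t, y) := by
  have hz := ZP_one_pos H (p := (t, y)) (by linarith [H.kpos])
  rw [EP_eq, div_mul_cancel₀ _ hz.ne']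

/-- Bayes for `t > 0`: `bayes_integral` for `(f,Φ)` and for `(1,1)` (normalisation);
`exp(-(VY V t y)) = exp(-|y|²/(2t)) ZP 1 (t,y)`, `ZP f = EP f ZP 1`. -/
theorem bayes_pos (H : Nice κ M V) (hf : T0 f) (hΦ : T0 Φ) {t : ℝ} (ht : 0 < t) :
    ex V (fun x => f x * ex gp (fun g => Φ fun i => t * x i + √t * g i)) =
      ex (VY V t) (fun y => EP V t f y * Φ y) := by
  have hc : ((√t) ^ Fintype.card ι)⁻¹ ≠ 0 := inv_ne_zero (pow_ne_zero _ (Real.sqrt_pos.2 ht).ne')
  have hZg : 0 < ∫ g : ι → ℝ, Real.exp (-(gp g)) := nice_gp.zpos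
  have hZV : 0 < ∫ x : ι → ℝ, Real.exp (-V x) := H.zpos
  have hA := bayes_integral H hf hΦ ht
  have hB := bayes_integral H (T0.const (1 : ℝ)) (T0.const (1 : ℝ)) ht
  simp only [one_mul] at hB
  rw [MeasureTheory.integral_const_mul] at hB
  have h1 : ∫ y : ι → ℝ, Real.exp (-(sq y / (2 * t))) * ZP V (fun _ => 1) (t, y) =
      ∫ y, Real.exp (-(VY V t y)) :=
    integral_congr_ae (Eventually.of_forall fun y => (G47d_exp H ht y).symm)
  have h2 : ∫ y : ι → ℝ, Φ y * Real.exp (-(sq y / (2 * t))) * ZP V f (t, y) =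
      ∫ y, (EP V t f y * Φ y) * Real.exp (-(VY V t y)) := by
    refine integral_congr_ae (Eventually.of_forall fun y => ?_)
    simp only
    rw [G47d_exp H ht y, ← G47d_EP H ht y]
    ring
  rw [h1] at hB
  rw [h2] at hA
  have h3 : ex V (fun x => f x * ex gp (fun g => Φ fun i => t * x i + √t * g i)) =
      (∫ x, (f x * ∫ g : ι → ℝ, Φ (fun i => t * x i + √t * g i) * Real.exp (-(gp g))) *
        Real.exp (-V x)) / ((∫ g : ι → ℝ, Real.exp (-(gp g))) * ∫ x, Real.exp (-V x)) := by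
    unfold ex
    have h4 : ∀ x : ι → ℝ, (f x * ((∫ g : ι → ℝ, Φ (fun i => t * x i + √t * g i) *
        Real.exp (-(gp g))) / ∫ g : ι → ℝ, Real.exp (-(gp g)))) * Real.exp (-V x) =
        ((∫ g : ι → ℝ, Real.exp (-(gp g))))⁻¹ * ((f x * ∫ g : ι → ℝ,
        Φ (fun i => t * x i + √t * g i) * Real.exp (-(gp g))) * Real.exp (-V x)) := by
      intro x
      ring
    simp only [h4]
    rw [MeasureTheory.integral_const_mul]
    field_simp
  rw [h3, hA, hB]
  unfold ex
  rw [mul_div_mul_left _ _ hc]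

theorem GE_eq_ex (H : Nice κ M V) (hΦ : T0 Φ) {t : ℝ} (ht : 0 < t) :
    GE V t Φ = ex (VY V t) Φ := by
  have htκ : -κ < t := by linarith [H.kpos]
  have h1 := bayes_pos H (T0.const (1 : ℝ)) hΦ ht
  simp only [one_mul] at h1
  unfold GE
  rw [h1]
  congr 1
  funext y
  unfold EP
  rw [ex_const (H.ptn htκ y), one_mul]

/-- Bayes (4.1), `t ≥ 0`. -/
theorem bayes (H : Nice κ M V) (hf : T0 f) (hΦ : T0 Φ) {t : ℝ} (ht : 0 ≤ t) :
    ex V (fun x => f x * ex gp (fun g => Φ fun i => t * x i + √t * g i)) =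
      GE V t (fun y => EP V t f y * Φ y) := by
  have htκ : -κ < t := by linarith [H.kpos]
  rcases ht.eq_or_lt with h0 | h0
  · subst h0
    rw [GE_zero H]
    have h1 : ∀ x g : ι → ℝ, (fun i => (0 : ℝ) * x i + √0 * g i) = (0 : ι → ℝ) := by
      intro x g
      funext i
      simp
    simp only [h1]
    have h2 : ex (gp : (ι → ℝ) → ℝ) (fun _ => Φ 0) = Φ 0 := ex_const nice_gp _
    rw [h2, ex_mulc]
    unfold EP
    have h3 : pt V 0 (0 : ι → ℝ) = V := by
      funext x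
      unfold pt dt
      simp
    rw [h3]
  · rw [bayes_pos H hf hΦ h0, GE_eq_ex H ((EP_t0 H hf htκ).mul hΦ) h0]

theorem GE_EP (H : Nice κ M V) (hf : T0 f) {t : ℝ} (ht : 0 ≤ t) :
    GE V t (EP V t f) = ex V f := by
  have h1 := bayes H hf (T0.const (1 : ℝ)) ht
  have h2 : ex (gp : (ι → ℝ) → ℝ) (fun _ => (1 : ℝ)) = 1 := ex_const nice_gp _
  simp only [mul_one, h2] at h1
  exact h1.symm

end Pool.Agent.Lib.MP_8d00da_gt.h42k
end

section

/-!
# 4.3: the generator theorem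
-/

namespace Pool.Agent.Lib.MP_8d00da_gt.h42k

open MeasureTheory Set Filter
open scoped Topology NNReal ENNReal ContDiff

set_option linter.unusedSectionVars false
set_option linter.unusedVariables false

variable {ι : Type*} [Fintype ι] [DecidableEq ι]

variable {κ M : ℝ} {V f : (ι → ℝ) → ℝ} {Φ : ℝ → (ι → ℝ) → ℝ} {T : ℝ}

/-- Growth of `Φ t (yt t z)`. -/
private theorem G48c_pgu_yt {Ψ : ℝ → (ι → ℝ) → ℝ} {T : ℝ} (h : PGU Ψ T) :
    PGU (fun s (z : ι ⊕ ι → ℝ) => Ψ s (yt s z)) T := by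
  obtain ⟨C, k, hC, hb⟩ := h.bound
  rcases lt_or_ge T 0 with hT | hT
  · exact ⟨0, 0, fun t ht => absurd (ht.1.trans ht.2) (not_le.2 hT)⟩
  refine ⟨C * (2 * (1 + T) ^ 2) ^ k, k, fun t ht z => (hb t ht _).trans ?_⟩
  have h1 := sq_yt_le t z
  have h2 : (1 + |t|) ^ 2 ≤ (1 + T) ^ 2 := by
    rw [abs_of_nonneg ht.1]
    exact pow_le_pow_left₀ (by linarith [ht.1]) (by linarith [ht.2]) 2
  have h3 : 1 + sq (yt t z) ≤ 2 * (1 + T) ^ 2 * (1 + sq z) := by
    refine h1.trans (mul_le_mul_of_nonneg_right (by linarith) ?_)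
    linarith [one_le_sq z]
  have h4 : 0 ≤ 1 + sq (yt t z) := by linarith [one_le_sq (yt t z)]
  calc C * (1 + sq (yt t z)) ^ k ≤ C * (2 * (1 + T) ^ 2 * (1 + sq z)) ^ k :=
        mul_le_mul_of_nonneg_left (pow_le_pow_left₀ h4 h3 k) hC
    _ = C * (2 * (1 + T) ^ 2) ^ k * (1 + sq z) ^ k := by rw [mul_pow]; ring

private theorem G48c_meas_yt (t : ℝ) : Measurable (yt t : (ι ⊕ ι → ℝ) → (ι → ℝ)) := by
  unfold yt
  fun_prop

/-- The generator theorem (4.3).  `GE_eq`, `ex_hasDerivAt` for `F t z = Φ t (yt t z)` with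
`chain_yt` on a small ball around `t` inside `(0,T)`; then `gauss_ibp_WS`, `ex_mul_GE`, `bayes`. -/
theorem generator (H : Nice κ M V)
    (hc : ∀ t, 0 < t → ∀ y, ContDiffAt ℝ 2 (fun p : ℝ × (ι → ℝ) => Φ p.1 p.2) (t, y))
    (h0 : PGU Φ T) (hd : PGU (fun t y => deriv (fun s => Φ s y) t) T)
    (h1 : ∀ i, PGU (fun t => pd i (Φ t)) T) (h2 : ∀ i j, PGU (fun t => pd i (pd j (Φ t))) T)
    {t : ℝ} (t0 : 0 < t) (tT : t < T) :
    HasDerivAt (fun s => GE V s (Φ s)) (GE V t (Gn V t Φ)) t := by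
  classical
  have hsl : ∀ {s : ℝ}, 0 < s → s ≤ T → T1 (Φ s) ∧ ∀ i, T1 (pd i (Φ s)) :=
    fun {s} s0 sT => slice_t1 hc h0 h1 h2 s0 sT
  have hW := WS_nice (ι := ι) H
  -- the derivative of the integrand
  set F : ℝ → (ι ⊕ ι → ℝ) → ℝ := fun s z => Φ s (yt s z) with hF
  set F' : ℝ → (ι ⊕ ι → ℝ) → ℝ := fun s z => deriv (fun r => Φ r (yt s z)) s
        + ∑ i, (z (Sum.inl i) + z (Sum.inr i) / (2 * √s)) * pd i (Φ s) (yt s z) with hF'
  set c : ℝ → ℝ := fun s => if t / 2 ≤ s then 1 / (2 * √s) else 0 with hcdef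
  have hcK : ∀ s ∈ Set.Icc 0 T, |c s| ≤ 1 / (2 * √(t / 2)) := by
    intro s hs
    have e1 : 0 < √(t / 2) := Real.sqrt_pos.2 (by linarith)
    rw [hcdef]
    dsimp only
    split_ifs with h
    · rw [abs_of_nonneg (by positivity)]
      have := Real.sqrt_le_sqrt h
      gcongr
    · rw [abs_zero]
      positivity
  have hF2 : PGU (fun s (z : ι ⊕ ι → ℝ) => deriv (fun r => Φ r (yt s z)) s
        + ∑ i, (z (Sum.inl i) + z (Sum.inr i) * c s) * pd i (Φ s) (yt s z)) T := by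
    refine PGU.add (G48c_pgu_yt (Ψ := fun s y => deriv (fun r => Φ r y) s) hd) ?_
    refine PGU.sum Finset.univ (F := fun i s (z : ι ⊕ ι → ℝ) =>
      (z (Sum.inl i) + z (Sum.inr i) * c s) * pd i (Φ s) (yt s z)) fun i _ => ?_
    refine PGU.mul (Φ := fun s (z : ι ⊕ ι → ℝ) => z (Sum.inl i) + z (Sum.inr i) * c s)
      (Ψ := fun s (z : ι ⊕ ι → ℝ) => pd i (Φ s) (yt s z)) ?_
      (G48c_pgu_yt (Ψ := fun s => pd i (Φ s)) (h1 i))
    refine PGU.add (Φ := fun s (z : ι ⊕ ι → ℝ) => z (Sum.inl i))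
      (Ψ := fun s (z : ι ⊕ ι → ℝ) => z (Sum.inr i) * c s) (PGU.of_pg (PG.coord (Sum.inl i)) T) ?_
    exact PGU.mul (Φ := fun s (z : ι ⊕ ι → ℝ) => z (Sum.inr i)) (Ψ := fun s _ => c s)
      (PGU.of_pg (PG.coord (Sum.inr i)) T) (PGU.coef hcK)
  have hF1 : PGU F T := G48c_pgu_yt h0
  obtain ⟨C, k, hC, hb⟩ := (hF1.abs.add hF2.abs).bound
  set ε : ℝ := min (t / 2) (T - t) with hε
  have hε0 : 0 < ε := lt_min (by linarith) (by linarith)
  have hball : ∀ s ∈ Metric.ball t ε, t / 2 < s ∧ s < T := by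
    intro s hs
    rw [Metric.mem_ball, Real.dist_eq, abs_lt] at hs
    have a1 := min_le_left (t / 2) (T - t)
    have a2 := min_le_right (t / 2) (T - t)
    constructor <;> linarith [hs.1, hs.2]
  have hbb : ∀ s ∈ Metric.ball t ε, ∀ z, |F s z| ≤ C * (1 + sq z) ^ k ∧
      |F' s z| ≤ C * (1 + sq z) ^ k := by
    intro s hs z
    obtain ⟨s1, s2⟩ := hball s hs
    have a1 := hb s ⟨by linarith, s2.le⟩ z
    have e1 : F' s z = deriv (fun r => Φ r (yt s z)) s
        + ∑ i, (z (Sum.inl i) + z (Sum.inr i) * c s) * pd i (Φ s) (yt s z) := by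
      rw [hF', hcdef]
      dsimp only
      rw [if_pos s1.le]
      simp only [mul_one_div]
    rw [← e1, abs_of_nonneg (add_nonneg (abs_nonneg _) (abs_nonneg _))] at a1
    constructor
    · linarith [abs_nonneg (F' s z)]
    · linarith [abs_nonneg (F s z)]
  have hdt0 : T0 (fun y => deriv (fun s => Φ s y) t) :=
    ⟨(slice_dt hc t0).measurable, hd.pg ⟨t0.le, tT.le⟩⟩
  obtain ⟨hT1, hTi⟩ := hsl t0 tT.le
  have key : HasDerivAt (fun s => ex (WS V) (F s)) (ex (WS V) (F' t)) t := by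
    refine ex_hasDerivAt hW (F := F) (F' := F') (C := C) (k := k) hε0 ?_ ?_ ?_ ?_ ?_
    · intro s hs
      obtain ⟨s1, s2⟩ := hball s hs
      exact (t0_yt (hsl (by linarith) s2.le).1.t0 s).meas
    · rw [hF']
      dsimp only
      refine Measurable.add (hdt0.meas.comp (G48c_meas_yt t)) ?_
      refine Finset.measurable_fun_sum _ fun i _ => ?_
      refine Measurable.mul ?_ (((hTi i).t0.meas).comp (G48c_meas_yt t))
      fun_prop
    · intro s hs z
      obtain ⟨s1, s2⟩ := hball s hs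
      have s0 : 0 < s := by linarith
      exact chain_yt s0 z (hc s s0 _)
    · intro s hs z
      exact (hbb s hs z).1
    · intro s hs z
      exact (hbb s hs z).2
  have hev : (fun s => GE V s (Φ s)) =ᶠ[𝓝 t] fun s => ex (WS V) (F s) := by
    filter_upwards [Metric.ball_mem_nhds t hε0] with s hs
    obtain ⟨s1, s2⟩ := hball s hs
    exact GE_eq H (hsl (by linarith) s2.le).1.t0 s
  have hval : ex (WS V) (F' t) = GE V t (Gn V t Φ) := by
    have hst : 0 < √t := Real.sqrt_pos.2 t0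
    have c1 : ∀ i : ι, T0 (fun z : ι ⊕ ι → ℝ => z (Sum.inl i)) := fun i => T0.coord _
    have c2 : ∀ i : ι, T0 (fun z : ι ⊕ ι → ℝ => z (Sum.inr i)) := fun i => T0.coord _
    have py : ∀ i : ι, T0 (fun z : ι ⊕ ι → ℝ => pd i (Φ t) (yt t z)) :=
      fun i => t0_yt (hTi i).t0 t
    have e0 : F' t = fun z => deriv (fun r => Φ r (yt t z)) t
        + ∑ i, (z (Sum.inl i) * pd i (Φ t) (yt t z)
          + 1 / (2 * √t) * (z (Sum.inr i) * pd i (Φ t) (yt t z))) := by
      funext z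
      rw [hF']
      dsimp only
      congr 1
      refine Finset.sum_congr rfl fun i _ => ?_
      ring
    rw [e0, ex_add hW (t0_yt hdt0 t) (T0.sum _ fun i _ =>
      ((c1 i).mul (py i)).add (((c2 i).mul (py i)).cmul _)),
      ex_sum hW Finset.univ fun i _ => ((c1 i).mul (py i)).add (((c2 i).mul (py i)).cmul _)]
    have e1 : ∀ i : ι, ex (WS V) (fun z => z (Sum.inl i) * pd i (Φ t) (yt t z)
          + 1 / (2 * √t) * (z (Sum.inr i) * pd i (Φ t) (yt t z))) =
        GE V t (fun y => EP V t (fun x => x i) y * pd i (Φ t) y)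
          + 1 / 2 * GE V t (pd i (pd i (Φ t))) := by
      intro i
      rw [ex_add hW ((c1 i).mul (py i)) (((c2 i).mul (py i)).cmul _), ex_cmul,
        gauss_ibp_WS H (hTi i) t i, ← GE_eq H ((hTi i).pdt0 i) t,
        ← bayes H (T0.coord i) (hTi i).t0 t0.le, ex_mul_GE H (T0.coord i) (hTi i).t0 t]
      congr 1
      field_simp
    have e2 : GE V t (Gn V t Φ) = GE V t (fun y => deriv (fun s => Φ s y) t)
        + (∑ i, GE V t (fun y => EP V t (fun x => x i) y * pd i (Φ t) y))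
        + 1 / 2 * ∑ i, GE V t (pd i (pd i (Φ t))) := by
      have t1 : ∀ i : ι, T0 (fun y => EP V t (fun x => x i) y * pd i (Φ t) y) := fun i =>
        (EP_t0 H (T0.coord i) (by linarith [H.kpos])).mul (hTi i).t0
      have t2 : ∀ i : ι, T0 (pd i (pd i (Φ t))) := fun i => (hTi i).pdt0 i
      have t3 := T0.sum Finset.univ fun i (_ : i ∈ Finset.univ) => t1 i
      have t4 := T0.sum Finset.univ fun i (_ : i ∈ Finset.univ) => t2 i
      have e3 : Gn V t Φ = fun y => (deriv (fun s => Φ s y) t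
          + ∑ i, EP V t (fun x => x i) y * pd i (Φ t) y)
          + 1 / 2 * ∑ i, pd i (pd i (Φ t)) y := by
        funext y
        rfl
      rw [e3, GE_add H (hdt0.add t3) (t4.cmul _) t, GE_add H hdt0 t3 t, GE_cmul,
        GE_sum H Finset.univ (fun i _ => t1 i) t, GE_sum H Finset.univ (fun i _ => t2 i) t]
    rw [e2, Finset.sum_congr rfl fun i _ => e1 i, Finset.sum_add_distrib, ← Finset.mul_sum,
      GE_eq H hdt0 t, add_assoc]
  rw [← hval]
  exact key.congr_of_eventuallyEq hev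

/-- Continuity up to `t = 0`. -/
theorem GE_continuousOn (H : Nice κ M V)
    (hc : ContinuousOn (fun p : ℝ × (ι → ℝ) => Φ p.1 p.2) (Set.Icc 0 T ×ˢ Set.univ))
    (h0 : PGU Φ T) : ContinuousOn (fun t => GE V t (Φ t)) (Set.Icc 0 T) := by
  have hW := WS_nice (ι := ι) H
  have hcy : ∀ s ∈ Set.Icc 0 T, Continuous (Φ s) := by
    intro s hs
    rw [← continuousOn_univ]
    refine hc.comp (f := fun y : ι → ℝ => (s, y)) (by fun_prop) ?_
    intro y _
    exact ⟨hs, Set.mem_univ _⟩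
  have ht0 : ∀ s ∈ Set.Icc 0 T, T0 (Φ s) := fun s hs => ⟨(hcy s hs).measurable, h0.pg hs⟩
  obtain ⟨C, k, hC, hb⟩ := (G48c_pgu_yt h0).bound
  have key : ContinuousOn (fun t => ex (WS V) (fun z => Φ t (yt t z))) (Set.Icc 0 T) := by
    refine ex_continuousOn hW (F := fun t z => Φ t (yt t z)) (C := C) (k := k) ?_ ?_ ?_
    · intro s hs
      exact (t0_yt (ht0 s hs) s).meas
    · intro z
      refine hc.comp (f := fun s : ℝ => (s, yt s z)) ?_ ?_
      · refine Continuous.continuousOn ?_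
        unfold yt
        fun_prop
      · intro s hs
        exact ⟨hs, Set.mem_univ _⟩
    · exact hb
  exact key.congr fun s hs => GE_eq H (ht0 s hs) s

end Pool.Agent.Lib.MP_8d00da_gt.h42k
end

section

/-!
# 4.4: derivatives of GE for the algebra
-/

namespace Pool.Agent.Lib.MP_8d00da_gt.h42k

open MeasureTheory Set Filter
open scoped Topology NNReal ENNReal ContDiff

set_option linter.unusedSectionVars false
set_option linter.unusedVariables false

variable {ι : Type*} [Fintype ι] [DecidableEq ι]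

variable {κ M : ℝ} {V f g : (ι → ℝ) → ℝ} {Φ Ψ : ℝ → (ι → ℝ) → ℝ}

/-- The generator theorem for functions of the algebra. -/
theorem AL.generator (H : Nice κ M V) (h : AL V Φ) {t : ℝ} (t0 : 0 < t) :
    HasDerivAt (fun s => GE V s (Φ s)) (GE V t (Gn V t Φ)) t := by
  have hκ := H.kpos
  refine Pool.Agent.Lib.MP_8d00da_gt.h42k.generator (T := t + 1) H ?_ (h.pgu H _) (h.dt_pgu H _)
    (fun i => h.pd_pgu H i _) (fun i j => h.pd2_pgu H i j _) t0 (by linarith)
  intro s hs y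
  exact (h.smooth H (by linarith) y).of_le (WithTop.coe_le_coe.2 (le_top : (2 : ℕ∞) ≤ ⊤))

theorem AL.GE_continuousOn (H : Nice κ M V) (h : AL V Φ) :
    ContinuousOn (fun t => GE V t (Φ t)) (Set.Ici 0) := by
  have hκ := H.kpos
  intro t ht
  have ht' : (0 : ℝ) ≤ t := ht
  have h1 : ContinuousOn (fun t => GE V t (Φ t)) (Set.Icc 0 (t + 1)) := by
    refine Pool.Agent.Lib.MP_8d00da_gt.h42k.GE_continuousOn H ?_ (h.pgu H _)
    rintro ⟨s, y⟩ ⟨hs, -⟩
    have hs1 : (0 : ℝ) ≤ s := hs.1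
    exact (h.smooth H (by linarith) y).continuousAt.continuousWithinAt
  refine (h1 t ⟨ht', by linarith⟩).mono_of_mem_nhdsWithin ?_
  have h2 : Set.Ici (0 : ℝ) ∩ Set.Iio (t + 1) ∈ 𝓝[Set.Ici 0] t :=
    inter_mem_nhdsWithin _ (Iio_mem_nhds (by linarith))
  exact Filter.mem_of_superset h2 fun s hs => ⟨hs.1, le_of_lt hs.2⟩

/-- `Gn V t Φ` is a `T0` function. -/
theorem AL.Gn_t0 (H : Nice κ M V) (h : AL V Φ) {t : ℝ} (ht : -κ < t) : T0 (Gn V t Φ) := by
  obtain ⟨D, hD, hD'⟩ := h.dtx H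
  choose P hP hP' using fun i => h.pdx H i
  choose Q hQ hQ' using fun i => (hP i).pdx H i
  have h1 : AL V (fun s y => D s y + ∑ i, EP V s (fun x => x i) y * P i s y
      + 1 / 2 * ∑ i, Q i s y) :=
    (hD.add (AL.sum Finset.univ fun i _ => (AL.ep _ (T0.coord i)).mul (hP i))).add
      ((AL.sum Finset.univ fun i _ => hQ i).cmul (1 / 2))
  have h2 : Gn V t Φ = fun y => D t y + ∑ i, EP V t (fun x => x i) y * P i t y
      + 1 / 2 * ∑ i, Q i t y := by
    funext y
    have e1 : ∀ i, pd i (Φ t) = P i t := fun i => funext fun z => hP' i t ht z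
    simp only [Gn, e1, (hD' t ht y).deriv, hQ' _ t ht]
  rw [h2]
  exact h1.t0 H ht

theorem GE_EP_mul_hasDerivAt (H : Nice κ M V) (hf : T0 f) (hg : T0 g) {t : ℝ} (t0 : 0 < t) :
    HasDerivAt (fun s => GE V s (fun y => EP V s f y * EP V s g y))
      (GE V t (fun y => ∑ i, CP V t f (fun x => x i) y * CP V t g (fun x => x i) y)) t := by
  have hκ := H.kpos
  have h1 := ((AL.ep (V := V) f hf).mul (AL.ep g hg)).generator H t0
  have h2 : Gn V t (fun s y => EP V s f y * EP V s g y) =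
      fun y => ∑ i, CP V t f (fun x => x i) y * CP V t g (fun x => x i) y :=
    funext fun y => Gn_EP_mul H hf hg (by linarith) y
  rw [h2] at h1
  exact h1

theorem GE_CP_hasDerivAt (H : Nice κ M V) (hf : T0 f) (hg : T0 g) {t : ℝ} (t0 : 0 < t) :
    HasDerivAt (fun s => GE V s (fun y => CP V s f g y))
      (- GE V t (fun y => ∑ i, CP V t f (fun x => x i) y * CP V t g (fun x => x i) y)) t := by
  have hκ := H.kpos
  have h1 := (AL.cp V hf hg).generator H t0
  have h2 : Gn V t (fun s y => CP V s f g y) =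
      fun y => - ∑ i, CP V t f (fun x => x i) y * CP V t g (fun x => x i) y :=
    funext fun y => Gn_CP H hf hg (by linarith) y
  rw [h2, GE_neg] at h1
  exact h1

end Pool.Agent.Lib.MP_8d00da_gt.h42k
end
end
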