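import Pool.Agent.Lib.MP_8d00da_gt.h42k.UDefs
import Pool.Agent.Lib.MP_8d00da_gt.h42k.G49b
import Pool.Agent.Lib.MP_8d00da_gt.h42k.B1a
import Pool.Agent.Lib.MP_8d00da_gt.h42k.B1e

section

/-!
# Paper 344 (quadratic KLS with a universal constant): monotonicity of tr(BSBS)
-/

namespace Pool.Agent.Lib.MP_8d00da_gt.h42k.U

open MeasureTheory Set Filter
open scoped Topology NNReal ENNReal ContDiff

set_option linter.unusedSectionVars false
set_option linter.unusedVariables false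

variable {ι : Type*} [Fintype ι] [DecidableEq ι]

theorem U1b_tr {P Q : Matrix ι ι ℝ} (hP : PSD P) (hQ : PSD Q) : 0 ≤ (P * Q).trace := by
  obtain ⟨e, lam, he, hlam⟩ := hP.exists_eig
  have h1 : (P * Q).trace = (Matrix.diagonal lam * (e * Q * e.transpose)).trace := by
    conv_lhs => rw [he.diag]
    rw [Matrix.mul_assoc, Matrix.mul_assoc, Matrix.trace_mul_comm, Matrix.mul_assoc,
      Matrix.mul_assoc]
  rw [h1, Matrix.trace]
  apply Finset.sum_nonneg
  intro k _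
  rw [Matrix.diag_apply, Matrix.diagonal_mul]
  apply mul_nonneg (hlam k)
  have h2 : (e * Q * e.transpose) k k = ∑ i, ∑ j, e k i * Q i j * e k j := by
    rw [Matrix.mul_apply, Finset.sum_comm]
    apply Finset.sum_congr rfl
    intro j _
    rw [Matrix.mul_apply, Finset.sum_mul]
    rfl
  rw [h2]
  exact hQ.nn (e k)

theorem U1b_conj {B X : Matrix ι ι ℝ} (hB : ∀ i j, B i j = B j i) (hX : PSD X) :
    PSD (B * X * B) := by
  have hBt : B.transpose = B := by
    ext i j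
    rw [Matrix.transpose_apply]
    exact hB j i
  constructor
  · rw [Matrix.transpose_mul, Matrix.transpose_mul, hBt, hX.symm, Matrix.mul_assoc]
  · intro θ
    have h := hX.nn (B.mulVec θ)
    rw [form_eq] at h ⊢
    have h1 : dotProduct θ ((B * X * B).mulVec θ) =
        dotProduct (B.mulVec θ) (X.mulVec (B.mulVec θ)) := by
      rw [← Matrix.mulVec_mulVec, ← Matrix.mulVec_mulVec, Matrix.dotProduct_mulVec,
        ← Matrix.mulVec_transpose, hBt]
    rw [h1]
    exact h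

theorem U1b_add {X Y : Matrix ι ι ℝ} (hX : PSD X) (hY : PSD Y) : PSD (X + Y) := by
  constructor
  · rw [Matrix.transpose_add, hX.symm, hY.symm]
  · intro θ
    have h : ∑ i, ∑ j, θ i * (X + Y) i j * θ j =
        ∑ i, ∑ j, θ i * X i j * θ j + ∑ i, ∑ j, θ i * Y i j * θ j := by
      rw [← Finset.sum_add_distrib]
      apply Finset.sum_congr rfl
      intro i _
      rw [← Finset.sum_add_distrib]
      apply Finset.sum_congr rfl
      intro j _
      rw [Matrix.add_apply]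
      ring
    rw [h]
    exact add_nonneg (hX.nn θ) (hY.nn θ)

/-- `tr(PQ) ≥ 0` for `P, Q ≥ 0`, so `tr(BYBY) ≥ tr(BXBY) ≥ tr(BXBX)` if `Y ≥ X ≥ 0`
(`B(Y-X)B ≥ 0`, `Y ≥ 0` and `BXB ≥ 0`, `Y-X ≥ 0`). -/
theorem tq_mono {B X Y : Matrix ι ι ℝ} (hB : ∀ i j, B i j = B j i) (hX : PSD X)
    (hXY : PSD (Y - X)) : tq B X ≤ tq B Y := by
  have hY : PSD Y := by
    have h := U1b_add hX hXY
    rwa [add_sub_cancel] at h
  have h1 := U1b_tr (U1b_conj hB hXY) hY
  have h2 := U1b_tr (U1b_conj hB hX) hXY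
  have h3 : B * Y * (B * Y) - B * X * (B * X) = B * (Y - X) * B * Y + B * X * B * (Y - X) := by
    noncomm_ring
  have h4 := congrArg Matrix.trace h3
  rw [Matrix.trace_sub, Matrix.trace_add] at h4
  rw [tq, tq]
  linarith

theorem tq_nonneg {B X : Matrix ι ι ℝ} (hB : ∀ i j, B i j = B j i) (hX : PSD X) :
    0 ≤ tq B X := by
  have h1 := U1b_tr (U1b_conj hB hX) hX
  rw [Matrix.mul_assoc] at h1
  exact h1

end Pool.Agent.Lib.MP_8d00da_gt.h42k.U
end

section

/-!
# The flow for polynomials (full KLS, part gamma; paper 358, Theorem 1): definitions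
-/

namespace Pool.Agent.Lib.MP_8d00da_gt.h42k.G

open MeasureTheory Set Filter
open scoped Topology NNReal ENNReal ContDiff

/-- The polynomial as a function. -/
noncomputable def ev {ι : Type*} (p : MvPolynomial ι ℝ) (x : ι → ℝ) : ℝ := MvPolynomial.eval x p

/-- `Q_j(X; p, q) = ⟨X^{⊗j} E D^j p, E D^j q⟩`, defined recursively. -/
noncomputable def Qj {ι : Type*} [Fintype ι] [DecidableEq ι] (V : (ι → ℝ) → ℝ)
    (X : Matrix ι ι ℝ) : ℕ → MvPolynomial ι ℝ → MvPolynomial ι ℝ → ℝ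
  | 0, p, q => ex V (ev p) * ex V (ev q)
  | j + 1, p, q => ∑ i, ∑ k, X i k *
      Qj V X j (MvPolynomial.pderiv i p) (MvPolynomial.pderiv k q)

/-- The class inequality for polynomials of degree at most `b` with weights `w_j`. -/
def PTw (ι : Type) [Fintype ι] [DecidableEq ι] (b : ℕ) (τ : ℝ) (w : ℕ → ℝ) : Prop :=
  ∀ (M : ℝ) (V : (ι → ℝ) → ℝ), Nice τ M V → ∀ p : MvPolynomial ι ℝ, p.totalDegree ≤ b →
    var V (ev p) ≤ ∑ j ∈ Finset.Icc 1 b, w j * Qj V (1 + CM V) j p p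

/-- `(P_τ; c, m)`: weights `c m^j`. -/
def PT (ι : Type) [Fintype ι] [DecidableEq ι] (b : ℕ) (τ c m : ℝ) : Prop :=
  PTw ι b τ (fun j => c * m ^ j)

/-- The constant of quadratic KLS (Theorem U). -/
noncomputable def KU : ℝ := 30976

/-- The constant `B` of the flow. -/
noncomputable def Bb (b : ℕ) (c : ℝ) : ℝ := 3 * KU * b + 2 * c + 1

/-- `∂_m Q_j` for `X = G + A(s,y)`, `W = pt V s y`. -/
noncomputable def dQ {ι : Type*} [Fintype ι] [DecidableEq ι] (W : (ι → ℝ) → ℝ)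
    (X : Matrix ι ι ℝ) (m : ι) : ℕ → MvPolynomial ι ℝ → MvPolynomial ι ℝ → ℝ
  | 0, p, q => cov W (ev p) (fun x => x m) * ex W (ev q) +
      ex W (ev p) * cov W (ev q) (fun x => x m)
  | j + 1, p, q => ∑ i, ∑ k,
      (TM W i k m * Qj W X j (MvPolynomial.pderiv i p) (MvPolynomial.pderiv k q) +
        X i k * dQ W X m j (MvPolynomial.pderiv i p) (MvPolynomial.pderiv k q))

/-- `G Q_j` (generator) for `X = G + A(s,y)`, `W = pt V s y`. -/
noncomputable def gQ {ι : Type*} [Fintype ι] [DecidableEq ι] (W : (ι → ℝ) → ℝ)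
    (X : Matrix ι ι ℝ) : ℕ → MvPolynomial ι ℝ → MvPolynomial ι ℝ → ℝ
  | 0, p, q => ∑ m, cov W (ev p) (fun x => x m) * cov W (ev q) (fun x => x m)
  | j + 1, p, q => ∑ i, ∑ k,
      (X i k * gQ W X j (MvPolynomial.pderiv i p) (MvPolynomial.pderiv k q) -
        (CM W * CM W) i k * Qj W X j (MvPolynomial.pderiv i p) (MvPolynomial.pderiv k q) +
        ∑ m, TM W i k m * dQ W X m j (MvPolynomial.pderiv i p) (MvPolynomial.pderiv k q))

/-- `⟨S^{⊗j} Cov(D^j q, x_m), E D^j p⟩`, `S` diagonal. -/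
noncomputable def Cj {ι : Type*} [Fintype ι] [DecidableEq ι] (W : (ι → ℝ) → ℝ) (S : ι → ℝ)
    (m : ι) : ℕ → MvPolynomial ι ℝ → MvPolynomial ι ℝ → ℝ
  | 0, q, p => cov W (ev q) (fun x => x m) * ex W (ev p)
  | j + 1, q, p => ∑ k, S k * Cj W S m j (MvPolynomial.pderiv k q) (MvPolynomial.pderiv k p)

/-- `⟨∑_a κ_m^{(a)} S^{rest} E D^j p, E D^j q⟩`, `S` diagonal. -/
noncomputable def Kj {ι : Type*} [Fintype ι] [DecidableEq ι] (W : (ι → ℝ) → ℝ) (S : ι → ℝ)
    (m : ι) : ℕ → MvPolynomial ι ℝ → MvPolynomial ι ℝ → ℝ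
  | 0, _, _ => 0
  | j + 1, p, q => (∑ k, S k * Kj W S m j (MvPolynomial.pderiv k p) (MvPolynomial.pderiv k q)) +
      ∑ i, ∑ k, TM W i k m *
        Qj W (Matrix.diagonal S) j (MvPolynomial.pderiv i p) (MvPolynomial.pderiv k q)

/-- `∑_m |Cov(D^j p, x_m)|²` in the metric `S`. -/
noncomputable def Wj {ι : Type*} [Fintype ι] [DecidableEq ι] (W : (ι → ℝ) → ℝ) (S : ι → ℝ) :
    ℕ → MvPolynomial ι ℝ → ℝ
  | 0, p => ∑ m, cov W (ev p) (fun x => x m) ^ 2
  | j + 1, p => ∑ k, S k * Wj W S j (MvPolynomial.pderiv k p)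

/-- `Var(D^j p)` in the metric `S`. -/
noncomputable def Vj {ι : Type*} [Fintype ι] [DecidableEq ι] (W : (ι → ℝ) → ℝ) (S : ι → ℝ) :
    ℕ → MvPolynomial ι ℝ → ℝ
  | 0, p => var W (ev p)
  | j + 1, p => ∑ k, S k * Vj W S j (MvPolynomial.pderiv k p)

/-- The third moment inequality with constant `θ` in the metric `S`. -/
def H3 {ι : Type*} [Fintype ι] [DecidableEq ι] (W : (ι → ℝ) → ℝ) (S : ι → ℝ) (θ : ℝ) : Prop :=
  ∀ w : ι → ℝ, ∑ k, ∑ m, (∑ i, TM W i k m * w i) ^ 2 / S k ≤ θ * ∑ i, S i * w i ^ 2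

/-- A family of potentials with a uniform lower Hessian bound and mean zero. -/
def UC {ι D : Type} [Fintype ι] [DecidableEq ι] (κ₀ : ℝ) (Vd : D → (ι → ℝ) → ℝ) : Prop :=
  ∀ d, ∃ κ M, κ₀ ≤ κ ∧ Nice κ M (Vd d) ∧ ∀ i, mn (Vd d) i = 0

/-- The algebra of families of functions of `(s,y)` generated by the posterior expectations of
families of polynomials of bounded degree, with uniformly bounded coefficients. -/
inductive UA {ι D : Type} [Fintype ι] [DecidableEq ι] (Vd : D → (ι → ℝ) → ℝ) :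
    (D → ℝ → (ι → ℝ) → ℝ) → Prop
  | pol (p : D → MvPolynomial ι ℝ) (b : ℕ) (c : ℝ)
      (h : ∀ d, (p d).totalDegree ≤ b ∧ ∀ γ, |(p d).coeff γ| ≤ c) :
      UA Vd (fun d s y => EP (Vd d) s (ev (p d)) y)
  | const (c : D → ℝ) (C : ℝ) (h : ∀ d, |c d| ≤ C) : UA Vd (fun d _ _ => c d)
  | add {Φ Ψ : D → ℝ → (ι → ℝ) → ℝ} (h1 : UA Vd Φ) (h2 : UA Vd Ψ) :
      UA Vd (fun d s y => Φ d s y + Ψ d s y)
  | mul {Φ Ψ : D → ℝ → (ι → ℝ) → ℝ} (h1 : UA Vd Φ) (h2 : UA Vd Ψ) :
      UA Vd (fun d s y => Φ d s y * Ψ d s y)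

/-- Substitution of linear forms: `(pc L p)(z) = p(L z)`. -/
noncomputable def pc {ι : Type*} [Fintype ι] (L : Matrix ι ι ℝ) (p : MvPolynomial ι ℝ) :
    MvPolynomial ι ℝ :=
  MvPolynomial.bind₁ (fun i => ∑ k, MvPolynomial.C (L i k) * MvPolynomial.X k) p

/-- Translation: `(ptr a p)(x) = p(x + a)`. -/
noncomputable def ptr {ι : Type*} (a : ι → ℝ) (p : MvPolynomial ι ℝ) : MvPolynomial ι ℝ :=
  MvPolynomial.bind₁ (fun i => MvPolynomial.X i + MvPolynomial.C (a i)) p

end Pool.Agent.Lib.MP_8d00da_gt.h42k.G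
end

section

section

/-!
# Paper 344 (quadratic KLS with a universal constant): U.5: bounds of covariances, third moments and of dl
-/

namespace Pool.Agent.Lib.MP_8d00da_gt.h42k.U

open MeasureTheory Set Filter
open scoped Topology NNReal ENNReal ContDiff

set_option linter.unusedSectionVars false
set_option linter.unusedVariables false

variable {ι : Type} [Fintype ι] [DecidableEq ι]

variable {κ M : ℝ} {V : (ι → ℝ) → ℝ}

/-- variance of a coordinate -/
private theorem U4a_var (H : Nice κ M V) (i : ι) : var V (fun x => x i) ≤ 1 / κ := by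
  have h1 := s6_CLe_kappa H (Pi.single i 1)
  have h2 : (fun x : ι → ℝ => dt (Pi.single i 1) x) = fun x => x i := by
    funext x
    simp [dt, Pi.single_apply]
  rw [h2, sq_single] at h1
  linarith

private theorem U4a_cm (H : Nice κ M V) (i j : ι) : |CM V i j| ≤ 1 / κ := by
  have hk := H.kpos
  have h0 : (0 : ℝ) < 1 / κ := by positivity
  have h1 : CM V i j = cov V (fun x => x i) (fun x => x j) := rfl
  have h2 := cov_cs H (T0.coord i) (T0.coord j)
  have h3 := U4a_var H i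
  have h4 := U4a_var H j
  have h5 := var_nonneg H (T0.coord i)
  have h6 := var_nonneg H (T0.coord j)
  rw [h1]
  refine abs_le_of_sq_le_sq ?_ h0.le
  calc cov V (fun x => x i) (fun x => x j) ^ 2
      ≤ var V (fun x => x i) * var V (fun x => x j) := h2
    _ ≤ (1 / κ) * (1 / κ) := mul_le_mul h3 h4 h6 h0.le
    _ = (1 / κ) ^ 2 := by ring

private theorem U4a_inv {s : ℝ} (H : Nice κ M V) (s0 : 0 ≤ s) : 1 / (κ + s) ≤ 1 / κ :=
  one_div_le_one_div_of_le H.kpos (by linarith)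

/-- `|A_ij(s,y)| ≤ 1/κ`. -/
theorem CM_entry_le (H : Nice κ M V) {s : ℝ} (s0 : 0 ≤ s) (y : ι → ℝ) (i j : ι) :
    |CM (pt V s y) i j| ≤ 1 / κ := by
  have hk := H.kpos
  exact (U4a_cm (H.ptn (t := s) (by linarith) y) i j).trans (U4a_inv H s0)

private theorem U4a_ctr_t0 (V : (ι → ℝ) → ℝ) (i : ι) : T0 (fun x => ctr V x i) :=
  (T0.coord i).sub (T0.const (mn V i))

private theorem U4a_ctr_t1 (V : (ι → ℝ) → ℝ) (i : ι) : T1 (fun x => ctr V x i) :=
  (T1.coord i).sub (T1.const (mn V i))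

private theorem U4a_ctr_ex (H : Nice κ M V) (i : ι) : ex V (fun x => ctr V x i) = 0 := by
  have h1 : ex V (fun x => x i - mn V i) = ex V (fun x => x i) - ex V (fun _ => mn V i) :=
    ex_sub H (T0.coord i) (T0.const (mn V i))
  have h2 : ex V (fun x => ctr V x i) = ex V (fun x => x i - mn V i) := rfl
  rw [h2, h1, ex_const H]
  exact sub_self _

private theorem U4a_ctr_var (H : Nice κ M V) (i : ι) :
    ex V (fun x => ctr V x i ^ 2) ≤ 1 / κ := by
  have h1 : ex V (fun x => ctr V x i ^ 2) = var V (fun x => x i) :=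
    (var_eq H (T0.coord i)).symm
  rw [h1]
  exact U4a_var H i

private theorem U4a_gs (V : (ι → ℝ) → ℝ) (i j : ι) (x : ι → ℝ) :
    gs (fun x => ctr V x i * ctr V x j) x ≤ 2 * ctr V x i ^ 2 + 2 * ctr V x j ^ 2 := by
  have hd : ∀ k : ι, Differentiable ℝ (fun x => ctr V x k) := fun k =>
    (U4a_ctr_t1 V k).c1.differentiable (by norm_num)
  have hp : ∀ (m k : ι), pd m (fun x => ctr V x k) x = if m = k then 1 else 0 := by
    intro m k
    have h1 : pd m (fun x => x k - mn V k) x = pd m (fun x => x k) x - pd m (fun _ => mn V k) x :=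
      pd_sub ((T1.coord k).c1.differentiable (by norm_num))
        ((T1.const (mn V k)).c1.differentiable (by norm_num)) m x
    have h2 : pd m (fun x => ctr V x k) x = pd m (fun x => x k - mn V k) x := rfl
    rw [h2, h1, pd_coord, pd_const, sub_zero]
  unfold gs
  have h3 : ∀ m, pd m (fun x => ctr V x i * ctr V x j) x ^ 2
      ≤ 2 * ((if m = i then 1 else 0) * ctr V x j ^ 2) + 2 * ((if m = j then 1 else 0) * ctr V x i ^ 2) := by
    intro m
    rw [pd_mul (hd i) (hd j), hp, hp]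
    split_ifs <;> nlinarith [sq_nonneg (ctr V x i - ctr V x j), sq_nonneg (ctr V x i),
      sq_nonneg (ctr V x j)]
  refine (Finset.sum_le_sum fun m _ => h3 m).trans (le_of_eq ?_)
  rw [Finset.sum_add_distrib, ← Finset.mul_sum, ← Finset.mul_sum, ← Finset.sum_mul,
    ← Finset.sum_mul]
  simp
  ring

private theorem U4a_tm (H : Nice κ M V) (i j k : ι) : TM V i j k ^ 2 ≤ 4 / κ ^ 3 := by
  have hk := H.kpos
  have hij : T1 (fun x => ctr V x i * ctr V x j) := (U4a_ctr_t1 V i).mul (U4a_ctr_t1 V j)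
  have h1 : TM V i j k = cov V (fun x => ctr V x i * ctr V x j) (fun x => ctr V x k) := by
    unfold cov
    rw [U4a_ctr_ex H k, mul_zero, sub_zero]
    rfl
  have h2 := cov_cs H hij.t0 (U4a_ctr_t0 V k)
  have h3 : var V (fun x => ctr V x k) ≤ 1 / κ := by
    refine (var_le H (U4a_ctr_t0 V k) 0).trans ?_
    have h4 : (fun x => (ctr V x k - 0) ^ 2) = fun x => ctr V x k ^ 2 := by
      funext x
      rw [sub_zero]
    rw [h4]
    exact U4a_ctr_var H k
  have h5 : var V (fun x => ctr V x i * ctr V x j) ≤ 4 / κ ^ 2 := by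
    refine (H.pi _ hij).trans ?_
    have h6 : ex V (gs fun x => ctr V x i * ctr V x j) ≤ 4 / κ := by
      have h7 : ex V (gs fun x => ctr V x i * ctr V x j)
          ≤ ex V (fun x => 2 * ctr V x i ^ 2 + 2 * ctr V x j ^ 2) :=
        ex_mono H hij.gst0 (((U4a_ctr_t0 V i).pow 2).cmul 2 |>.add (((U4a_ctr_t0 V j).pow 2).cmul 2))
          (U4a_gs V i j)
      have h8 : ex V (fun x => 2 * ctr V x i ^ 2 + 2 * ctr V x j ^ 2)
          = 2 * ex V (fun x => ctr V x i ^ 2) + 2 * ex V (fun x => ctr V x j ^ 2) := by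
        rw [ex_add H (((U4a_ctr_t0 V i).pow 2).cmul 2) (((U4a_ctr_t0 V j).pow 2).cmul 2),
          ex_cmul, ex_cmul]
      have h9 := U4a_ctr_var H i
      have h10 := U4a_ctr_var H j
      have h11 : 4 / κ = 2 * (1 / κ) + 2 * (1 / κ) := by ring
      rw [h11]
      linarith
    calc 1 / κ * ex V (gs fun x => ctr V x i * ctr V x j) ≤ 1 / κ * (4 / κ) :=
          mul_le_mul_of_nonneg_left h6 (by positivity)
      _ = 4 / κ ^ 2 := by
          field_simp
  rw [h1]
  have h12 : 0 ≤ var V (fun x => ctr V x k) := var_nonneg H (U4a_ctr_t0 V k)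
  calc cov V (fun x => ctr V x i * ctr V x j) (fun x => ctr V x k) ^ 2
      ≤ var V (fun x => ctr V x i * ctr V x j) * var V (fun x => ctr V x k) := h2
    _ ≤ (4 / κ ^ 2) * (1 / κ) := mul_le_mul h5 h3 h12 (by positivity)
    _ = 4 / κ ^ 3 := by
        field_simp

/-- `κ_ijk² ≤ Var(x_k) Var(x̃_i x̃_j) ≤ 4/κ³`. -/
theorem kp_le (H : Nice κ M V) {s : ℝ} (s0 : 0 ≤ s) (y : ι → ℝ) (i j k : ι) :
    kp V s y i j k ^ 2 ≤ 4 / κ ^ 3 := by
  have hk := H.kpos
  refine (U4a_tm (H.ptn (t := s) (by linarith) y) i j k).trans ?_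
  have h1 : κ ^ 3 ≤ (κ + s) ^ 3 := pow_le_pow_left₀ hk.le (by linarith) 3
  exact div_le_div_of_nonneg_left (by norm_num) (by positivity) h1

theorem dl_t0 (H : Nice κ M V) {s : ℝ} (s0 : 0 ≤ s) : T0 (dl V s) := by
  have hk := H.kpos
  exact T0.sqrt (T0.sum Finset.univ fun i _ => T0.sum Finset.univ fun j _ =>
    (((AL.cm V i j).t0 H (by linarith)).sub (T0.const (CM V i j))).pow 2)

/-- `δ ≤ 2n/κ`. -/
theorem dl_le (H : Nice κ M V) {s : ℝ} (s0 : 0 ≤ s) (y : ι → ℝ) :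
    dl V s y ≤ 2 * Fintype.card ι / κ := by
  have hk := H.kpos
  unfold dl
  rw [Real.sqrt_le_left (by positivity)]
  have h1 : ∀ i j, (CM (pt V s y) i j - CM V i j) ^ 2 ≤ (2 / κ) ^ 2 := by
    intro i j
    refine sq_le_sq' ?_ ?_
    · have h2 := abs_le.1 (CM_entry_le H s0 y i j)
      have h3 := abs_le.1 (U4a_cm H i j)
      have h4 : 2 / κ = 1 / κ + 1 / κ := by ring
      rw [h4]
      linarith
    · have h2 := abs_le.1 (CM_entry_le H s0 y i j)
      have h3 := abs_le.1 (U4a_cm H i j)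
      have h4 : 2 / κ = 1 / κ + 1 / κ := by ring
      rw [h4]
      linarith
  refine (Finset.sum_le_sum fun i _ => Finset.sum_le_sum fun j _ => h1 i j).trans (le_of_eq ?_)
  simp only [Finset.sum_const, Finset.card_univ, nsmul_eq_mul]
  ring

end Pool.Agent.Lib.MP_8d00da_gt.h42k.U
end

section

/-!
# Paper 344 (quadratic KLS with a universal constant): U.5: the mean square of dl
-/

namespace Pool.Agent.Lib.MP_8d00da_gt.h42k.U

open MeasureTheory Set Filter
open scoped Topology NNReal ENNReal ContDiff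

set_option linter.unusedSectionVars false
set_option linter.unusedVariables false

variable {ι : Type} [Fintype ι] [DecidableEq ι]

variable {κ M : ℝ} {V : (ι → ℝ) → ℝ}

private theorem U4b_pt0 (V : (ι → ℝ) → ℝ) : pt V 0 0 = V := by
  funext x
  simp [pt, dt]

private theorem U4b_Gn_const (V : (ι → ℝ) → ℝ) (t : ℝ) (y : ι → ℝ) (c : ℝ) :
    Gn V t (fun _ _ => c) y = 0 := by
  have h1 : ∀ i : ι, (pd i fun _ : ι → ℝ => c) = fun _ => 0 := fun i => by
    funext x
    exact pd_const c i x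
  unfold Gn
  simp only [deriv_const, h1, pd_const, mul_zero, Finset.sum_const_zero, add_zero]

private theorem U4b_diff {Φ : ℝ → (ι → ℝ) → ℝ} (H : Nice κ M V) (h : AL V Φ) {t : ℝ}
    (ht : -κ < t) : Differentiable ℝ (Φ t) := fun y => by
  have h1 := (AL.smooth H h ht y).differentiableAt (by simp)
  have h2 : DifferentiableAt ℝ (fun y : ι → ℝ => ((t, y) : ℝ × (ι → ℝ))) y :=
    (differentiableAt_const _).prodMk differentiableAt_id
  exact h1.comp y h2

private theorem U4b_key (H : Nice κ M V) (i j : ι) {t : ℝ} (ht : 0 < t) (y : ι → ℝ) :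
    Gn V t (fun s y => (CM (pt V s y) i j - CM V i j) * (CM (pt V s y) i j - CM V i j)) y ≤
      8 * Fintype.card ι / κ ^ 3 := by
  have hκ : 0 < κ := H.kpos
  have htκ : -κ < t := by linarith
  have hA : AL V fun s y => CM (pt V s y) i j := AL.cm V i j
  have hF : AL V fun s y => CM (pt V s y) i j - CM V i j := hA.sub (AL.const _)
  have hsm := fun y => AL.smooth H hF htκ y
  rw [Gn_mul hsm hsm, Gn_sub (fun y => AL.smooth H hA htκ y)
    (fun y => AL.smooth H (AL.const (CM V i j)) htκ y), U4b_Gn_const, Gn_CM H htκ]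
  have hpd : ∀ m, pd m (fun y => CM (pt V t y) i j - CM V i j) y = kp V t y i j m := by
    intro m
    rw [pd_sub (U4b_diff H hA htκ) (differentiable_const _), pd_const, sub_zero,
      CM_pd H htκ]
    rfl
  have hb := fun a b => CM_entry_le H ht.le y a b
  have h0 : |CM V i j| ≤ 1 / κ := by
    have := CM_entry_le H le_rfl 0 i j
    rwa [U4b_pt0] at this
  have h1 : |CM (pt V t y) i j - CM V i j| ≤ 2 / κ := by
    refine (abs_sub _ _).trans ?_
    calc |CM (pt V t y) i j| + |CM V i j| ≤ 1 / κ + 1 / κ := add_le_add (hb i j) h0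
      _ = 2 / κ := by ring
  have h2 : |∑ k, CM (pt V t y) i k * CM (pt V t y) k j| ≤ Fintype.card ι * (1 / κ ^ 2) := by
    refine (Finset.abs_sum_le_sum_abs _ _).trans ?_
    calc ∑ k, |CM (pt V t y) i k * CM (pt V t y) k j| ≤ ∑ _k : ι, 1 / κ ^ 2 := by
          refine Finset.sum_le_sum fun k _ => ?_
          rw [abs_mul, show 1 / κ ^ 2 = (1 / κ) * (1 / κ) by ring]
          exact mul_le_mul (hb i k) (hb k j) (abs_nonneg _) (by positivity)
      _ = Fintype.card ι * (1 / κ ^ 2) := by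
          rw [Finset.sum_const, Finset.card_univ, nsmul_eq_mul]
  have h3 : ∑ m, pd m (fun y => CM (pt V t y) i j - CM V i j) y *
      pd m (fun y => CM (pt V t y) i j - CM V i j) y ≤ Fintype.card ι * (4 / κ ^ 3) := by
    calc ∑ m, pd m (fun y => CM (pt V t y) i j - CM V i j) y *
        pd m (fun y => CM (pt V t y) i j - CM V i j) y ≤ ∑ _m : ι, 4 / κ ^ 3 := by
          refine Finset.sum_le_sum fun m _ => ?_
          rw [hpd, ← pow_two]
          exact kp_le H ht.le y i j m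
      _ = Fintype.card ι * (4 / κ ^ 3) := by
          rw [Finset.sum_const, Finset.card_univ, nsmul_eq_mul]
  have h4 : (CM (pt V t y) i j - CM V i j) *
      (-∑ k, CM (pt V t y) i k * CM (pt V t y) k j - 0) ≤
      2 / κ * (Fintype.card ι * (1 / κ ^ 2)) := by
    refine (le_abs_self _).trans ?_
    rw [abs_mul, sub_zero, abs_neg]
    exact mul_le_mul h1 h2 (abs_nonneg _) (by positivity)
  have h5 : 2 / κ * (Fintype.card ι * (1 / κ ^ 2)) = Fintype.card ι * (2 / κ ^ 3) := by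
    field_simp
  have h6 : 8 * (Fintype.card ι : ℝ) / κ ^ 3 = Fintype.card ι * (2 / κ ^ 3) +
      Fintype.card ι * (2 / κ ^ 3) + Fintype.card ι * (4 / κ ^ 3) := by
    ring
  rw [h5] at h4
  rw [h6]
  exact add_le_add (add_le_add h4 h4) h3

private theorem U4b_one (H : Nice κ M V) (i j : ι) {s : ℝ} (hs : 0 ≤ s) :
    GE V s (fun y => (CM (pt V s y) i j - CM V i j) * (CM (pt V s y) i j - CM V i j)) ≤
      8 * Fintype.card ι / κ ^ 3 * s := by
  have hκ : 0 < κ := H.kpos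
  have hF : AL V fun s y => CM (pt V s y) i j - CM V i j :=
    (AL.cm V i j).sub (AL.const _)
  have hFF : AL V fun s y =>
      (CM (pt V s y) i j - CM V i j) * (CM (pt V s y) i j - CM V i j) := hF.mul hF
  obtain ⟨D, hD⟩ : ∃ D : ℝ, D = 8 * Fintype.card ι / κ ^ 3 := ⟨_, rfl⟩
  rw [← hD]
  have hder : ∀ t, 0 < t → HasDerivAt (fun s => GE V s (fun y =>
      (CM (pt V s y) i j - CM V i j) * (CM (pt V s y) i j - CM V i j)) - D * s)
      (GE V t (Gn V t (fun s y =>
        (CM (pt V s y) i j - CM V i j) * (CM (pt V s y) i j - CM V i j))) - D * 1) t :=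
    fun t ht => (AL.generator H hFF ht).sub ((hasDerivAt_id t).const_mul D)
  have hanti : AntitoneOn (fun s => GE V s (fun y =>
      (CM (pt V s y) i j - CM V i j) * (CM (pt V s y) i j - CM V i j)) - D * s) (Set.Ici 0) := by
    refine antitoneOn_of_deriv_nonpos (convex_Ici 0)
      ((AL.GE_continuousOn H hFF).sub (continuousOn_const.mul continuousOn_id)) ?_ ?_
    · rw [interior_Ici]
      exact fun t ht => (hder t ht).differentiableAt.differentiableWithinAt
    · rw [interior_Ici]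
      intro t ht
      have ht0 : 0 < t := ht
      rw [(hder t ht0).deriv]
      have h1 := GE_mono H (AL.Gn_t0 H hFF (by linarith : -κ < t)) (T0.const D) t
        (fun y => by
          rw [hD]
          exact U4b_key H i j ht0 y)
      rw [GE_const H] at h1
      linarith
  have h2 := hanti (Set.mem_Ici.2 le_rfl) (Set.mem_Ici.2 hs) hs
  simp only [GE_zero H, U4b_pt0, sub_self, mul_zero] at h2
  linarith

/-- `GE_s δ² ≤ C s`: the derivative of `GE_s δ²` is
`GE_s[ -2 ∑ (A_s - A)_ij (A_s²)_ij + ∑_ijm κ_ijm² ] ≤ C`. -/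
theorem GE_dl_sq (ι : Type) [Fintype ι] [DecidableEq ι] {κ₀ : ℝ} (h0 : 0 < κ₀) :
    ∃ C : ℝ, 0 ≤ C ∧ ∀ (κ M : ℝ) (V : (ι → ℝ) → ℝ), κ₀ ≤ κ → Nice κ M V → ∀ s : ℝ, 0 ≤ s →
      GE V s (fun y => dl V s y ^ 2) ≤ C * s := by
  refine ⟨Fintype.card ι * (Fintype.card ι * (8 * Fintype.card ι / κ₀ ^ 3)), by positivity,
    fun κ M V hκ H s hs => ?_⟩
  have h1 : (fun y => dl V s y ^ 2) = fun y => ∑ i, ∑ j,
      (CM (pt V s y) i j - CM V i j) * (CM (pt V s y) i j - CM V i j) := by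
    funext y
    unfold dl
    rw [Real.sq_sqrt (Finset.sum_nonneg fun i _ => Finset.sum_nonneg fun j _ => sq_nonneg _)]
    exact Finset.sum_congr rfl fun i _ => Finset.sum_congr rfl fun j _ => pow_two _
  have hsκ : -κ < s := by linarith [H.kpos]
  have ht0 : ∀ i j, T0 fun y =>
      (CM (pt V s y) i j - CM V i j) * (CM (pt V s y) i j - CM V i j) := fun i j => by
    have hF : AL V fun s y => CM (pt V s y) i j - CM V i j :=
      (AL.cm V i j).sub (AL.const _)
    exact AL.t0 H (hF.mul hF) hsκ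
  rw [h1, GE_sum H Finset.univ (F := fun i y => ∑ j,
      (CM (pt V s y) i j - CM V i j) * (CM (pt V s y) i j - CM V i j))
    (fun i _ => T0.sum _ fun j _ => ht0 i j)]
  have h2 : ∀ i j, GE V s (fun y =>
      (CM (pt V s y) i j - CM V i j) * (CM (pt V s y) i j - CM V i j)) ≤
      8 * Fintype.card ι / κ₀ ^ 3 * s := fun i j => by
    refine (U4b_one H i j hs).trans (mul_le_mul_of_nonneg_right ?_ hs)
    exact div_le_div_of_nonneg_left (by positivity) (by positivity)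
      (pow_le_pow_left₀ h0.le hκ 3)
  calc ∑ i, GE V s (fun y => ∑ j,
      (CM (pt V s y) i j - CM V i j) * (CM (pt V s y) i j - CM V i j))
      = ∑ i, ∑ j, GE V s (fun y =>
      (CM (pt V s y) i j - CM V i j) * (CM (pt V s y) i j - CM V i j)) := by
        refine Finset.sum_congr rfl fun i _ => ?_
        rw [GE_sum H Finset.univ (F := fun j y =>
          (CM (pt V s y) i j - CM V i j) * (CM (pt V s y) i j - CM V i j))
          (fun j _ => ht0 i j)]
    _ ≤ ∑ _i : ι, ∑ _j : ι, 8 * Fintype.card ι / κ₀ ^ 3 * s :=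
        Finset.sum_le_sum fun i _ => Finset.sum_le_sum fun j _ => h2 i j
    _ = Fintype.card ι * (Fintype.card ι * (8 * Fintype.card ι / κ₀ ^ 3)) * s := by
        simp only [Finset.sum_const, Finset.card_univ, nsmul_eq_mul]
        ring

end Pool.Agent.Lib.MP_8d00da_gt.h42k.U
end

section

/-!
# Paper 344 (quadratic KLS with a universal constant): U.5: fourth moments of quadratic forms
-/

namespace Pool.Agent.Lib.MP_8d00da_gt.h42k.U

open MeasureTheory Set Filter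
open scoped Topology NNReal ENNReal ContDiff

set_option linter.unusedSectionVars false
set_option linter.unusedVariables false

variable {ι : Type} [Fintype ι] [DecidableEq ι]

variable {κ M : ℝ} {V : (ι → ℝ) → ℝ}

private theorem U4d_q0_t0 (B : Matrix ι ι ℝ) : T0 (q0 B) := by
  refine T0.sum Finset.univ (F := fun i x => ∑ j, B i j * x i * x j) fun i _ => ?_
  refine T0.sum Finset.univ (F := fun j x => B i j * x i * x j) fun j _ => ?_
  exact (((T0.coord i).cmul (B i j)).mul (T0.coord j))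

private theorem U4d_cs (B : Matrix ι ι ℝ) (x : ι → ℝ) :
    q0 B x ^ 2 ≤ (∑ i, ∑ j, B i j ^ 2) * (∑ i, x i ^ 2) ^ 2 := by
  have e1 : q0 B x = ∑ p : ι × ι, B p.1 p.2 * (x p.1 * x p.2) := by
    rw [Fintype.sum_prod_type]
    exact Finset.sum_congr rfl fun i _ => Finset.sum_congr rfl fun j _ => by ring
  have e2 : ∑ i, ∑ j, B i j ^ 2 = ∑ p : ι × ι, B p.1 p.2 ^ 2 := by
    rw [Fintype.sum_prod_type]
  have e3 : (∑ i, x i ^ 2) ^ 2 = ∑ p : ι × ι, (x p.1 * x p.2) ^ 2 := by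
    rw [Fintype.sum_prod_type, pow_two, Finset.sum_mul_sum]
    exact Finset.sum_congr rfl fun i _ => Finset.sum_congr rfl fun j _ => by ring
  rw [e1, e2, e3]
  exact Finset.sum_mul_sq_le_sq_mul_sq _ _ _

/-- Fourth moment of a quadratic form, `E x = 0`, `∑ B_ij² ≤ 1` (`mom8`). -/
theorem q0_mom4 (ι : Type) [Fintype ι] [DecidableEq ι] {κ₀ : ℝ} (h0 : 0 < κ₀) :
    ∃ C : ℝ, 0 ≤ C ∧ ∀ (κ M : ℝ) (V : (ι → ℝ) → ℝ), κ₀ ≤ κ → Nice κ M V →
      (∀ i, mn V i = 0) → ∀ B : Matrix ι ι ℝ, ∑ i, ∑ j, B i j ^ 2 ≤ 1 →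
      ex V (fun x => q0 B x ^ 4) ≤ C := by
  refine ⟨3 * 40320 * 6 ^ 8 * (1 / κ₀) ^ 4 * (Fintype.card ι : ℝ) ^ 4, by positivity, ?_⟩
  intro κ M V hκ₀ H hm B hB
  have hC : CLe V (1 / κ₀) :=
    CLe.mono (s6_CLe_kappa H) (one_div_le_one_div_of_le h0 hκ₀)
  have h1 := mom8 H (one_div_pos.mpr h0) hC
  have ts : T0 (fun x : ι → ℝ => (∑ i, (x i - mn V i) ^ 2) ^ 4) :=
    (T0.sum Finset.univ fun i _ => ((T0.coord i).sub (T0.const _)).pow 2).pow 4
  refine (ex_mono H ((U4d_q0_t0 B).pow 4) ts fun x => ?_).trans h1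
  have h2 := U4d_cs B x
  have h3 : q0 B x ^ 2 ≤ (∑ i, x i ^ 2) ^ 2 :=
    h2.trans (mul_le_of_le_one_left (sq_nonneg _) hB)
  simp only [hm, sub_zero]
  calc q0 B x ^ 4 = (q0 B x ^ 2) ^ 2 := by ring
    _ ≤ ((∑ i, x i ^ 2) ^ 2) ^ 2 := pow_le_pow_left₀ (sq_nonneg _) h3 2
    _ = (∑ i, x i ^ 2) ^ 4 := by ring

/-- `GE_s (Var_{s,y} f)² ≤ E_V f⁴ ≤ C`. -/
theorem GE_var_sq (ι : Type) [Fintype ι] [DecidableEq ι] {κ₀ : ℝ} (h0 : 0 < κ₀) :
    ∃ C : ℝ, 0 ≤ C ∧ ∀ (κ M : ℝ) (V : (ι → ℝ) → ℝ), κ₀ ≤ κ → Nice κ M V →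
      (∀ i, mn V i = 0) → ∀ B : Matrix ι ι ℝ, ∑ i, ∑ j, B i j ^ 2 ≤ 1 → ∀ s : ℝ, 0 ≤ s →
      GE V s (fun y => var (pt V s y) (q0 B) ^ 2) ≤ C := by
  obtain ⟨C, hC0, hC⟩ := q0_mom4 ι h0
  refine ⟨C, hC0, ?_⟩
  intro κ M V hκ₀ H hm B hB s s0
  have hκ := H.kpos
  have hsκ : -κ < s := by linarith
  have hf : T0 (q0 B) := U4d_q0_t0 B
  have t1 : T0 (EP V s (fun x => q0 B x * q0 B x)) := EP_t0 H (hf.mul hf) hsκ
  have t2 : T0 (EP V s (q0 B)) := EP_t0 H hf hsκ
  have t3 : T0 (fun y => var (pt V s y) (q0 B)) := t1.sub (t2.mul t2)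
  have t4 : T0 (EP V s (fun x => q0 B x ^ 4)) := EP_t0 H (hf.pow 4) hsκ
  refine le_trans ?_ (hC κ M V hκ₀ H hm B hB)
  have e1 : GE V s (EP V s (fun x => q0 B x ^ 4)) = ex V (fun x => q0 B x ^ 4) :=
    GE_EP H (hf.pow 4) s0
  rw [← e1]
  refine GE_mono H (t3.pow 2) t4 s fun y => ?_
  have Hp := H.ptn hsκ y
  have h1 : 0 ≤ var (pt V s y) (q0 B) := var_nonneg Hp hf
  have h2 : var (pt V s y) (q0 B) ≤ ex (pt V s y) (fun x => q0 B x ^ 2) := by
    rw [var_eq']
    linarith [sq_nonneg (ex (pt V s y) (q0 B))]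
  have h3 := ex_sq_le Hp (hf.pow 2)
  have h4 : (fun x : ι → ℝ => (q0 B x ^ 2) ^ 2) = fun x => q0 B x ^ 4 := by
    funext x
    ring
  rw [h4] at h3
  exact (pow_le_pow_left₀ h1 h2 2).trans h3

end Pool.Agent.Lib.MP_8d00da_gt.h42k.U
end

section

/-!
# Paper 344 (quadratic KLS with a universal constant): U.5: error terms; mean value inequality
-/

namespace Pool.Agent.Lib.MP_8d00da_gt.h42k.U

open MeasureTheory Set Filter
open scoped Topology NNReal ENNReal ContDiff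

set_option linter.unusedSectionVars false
set_option linter.unusedVariables false

variable {ι : Type} [Fintype ι] [DecidableEq ι]

variable {κ M : ℝ} {V : (ι → ℝ) → ℝ}

private theorem U4e_q0_t0 (B : Matrix ι ι ℝ) : T0 (q0 B) :=
  T0.sum _ fun i _ => T0.sum _ fun j _ => ((T0.const (B i j)).mul (T0.coord i)).mul (T0.coord j)

/-- `GE_s δ ≤ C √s` and `GE_s[δ Var_{s,y} f] ≤ C √s`. -/
theorem GE_dl_errors (ι : Type) [Fintype ι] [DecidableEq ι] {κ₀ : ℝ} (h0 : 0 < κ₀) :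
    ∃ C : ℝ, 0 ≤ C ∧ ∀ (κ M : ℝ) (V : (ι → ℝ) → ℝ), κ₀ ≤ κ → Nice κ M V →
      (∀ i, mn V i = 0) → ∀ B : Matrix ι ι ℝ, ∑ i, ∑ j, B i j ^ 2 ≤ 1 → ∀ s : ℝ, 0 ≤ s →
      GE V s (dl V s) ≤ C * √s ∧
        GE V s (fun y => dl V s y * var (pt V s y) (q0 B)) ≤ C * √s := by
  obtain ⟨C1, hC1, h1⟩ := GE_dl_sq ι h0
  obtain ⟨C2, hC2, h2⟩ := GE_var_sq ι h0
  refine ⟨√C1 + √C1 * √C2, by positivity, ?_⟩
  intro κ M V hκ H hm B hB s s0
  have hk := H.kpos
  have hdl : T0 (dl V s) := dl_t0 H s0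
  have hv : T0 (fun y => var (pt V s y) (q0 B)) :=
    CP_t0 H (U4e_q0_t0 B) (U4e_q0_t0 B) (by linarith : -κ < s)
  have a1 : GE V s (fun y => dl V s y ^ 2) ≤ C1 * s := h1 κ M V hκ H s s0
  have a2 : GE V s (fun y => var (pt V s y) (q0 B) ^ 2) ≤ C2 := h2 κ M V hκ H hm B hB s s0
  have b1 : GE V s (dl V s) ≤ √C1 * √s := by
    have h3 := GE_cs H hdl (T0.const 1) s
    simp only [mul_one, one_pow, GE_const H] at h3
    rw [← Real.sqrt_mul hC1]
    exact Real.le_sqrt_of_sq_le (h3.trans a1)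
  have b2 : GE V s (fun y => dl V s y * var (pt V s y) (q0 B)) ≤ √C1 * √C2 * √s := by
    have h3 := GE_cs H hdl hv s
    have h4 : GE V s (fun y => dl V s y ^ 2) * GE V s (fun y => var (pt V s y) (q0 B) ^ 2)
        ≤ C1 * s * C2 :=
      mul_le_mul a1 a2 (GE_nonneg V s fun y => sq_nonneg _) (by positivity)
    rw [← Real.sqrt_mul hC1, ← Real.sqrt_mul (by positivity)]
    refine Real.le_sqrt_of_sq_le (h3.trans (h4.trans (le_of_eq (by ring))))
  have p1 : 0 ≤ √C1 * √C2 * √s := by positivity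
  have p2 : 0 ≤ √C1 * √s := by positivity
  constructor
  · calc _ ≤ √C1 * √s := b1
      _ ≤ _ := by rw [add_mul]; linarith
  · calc _ ≤ √C1 * √C2 * √s := b2
      _ ≤ _ := by rw [add_mul]; linarith

/-- Mean value inequality: `F' ≤ c + C √s` gives `F t ≤ F 0 + c t + C t √t`. -/
theorem mvt_sqrt' {F F' : ℝ → ℝ} {t c C : ℝ} (ht : 0 ≤ t) (hC : 0 ≤ C)
    (hc : ContinuousOn F (Icc 0 t)) (hd : ∀ s ∈ Ioo 0 t, HasDerivAt F (F' s) s)
    (h : ∀ s ∈ Ioo 0 t, F' s ≤ c + C * √s) : F t ≤ F 0 + c * t + C * (t * √t) := by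
  have hG : ∀ s ∈ Ioo 0 t, HasDerivAt (fun s => F s - c * s - C * (s * √s))
      (F' s - c * 1 - C * (1 * √s + s * (1 / (2 * √s)))) s := by
    intro s hs
    exact ((hd s hs).sub ((hasDerivAt_id s).const_mul c)).sub
      (((hasDerivAt_id s).mul (Real.hasDerivAt_sqrt hs.1.ne')).const_mul C)
  have anti : AntitoneOn (fun s => F s - c * s - C * (s * √s)) (Icc 0 t) := by
    refine antitoneOn_of_deriv_nonpos (convex_Icc 0 t) ?_ ?_ ?_
    · exact (hc.sub (by fun_prop)).sub (by fun_prop)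
    · rw [interior_Icc]
      exact fun s hs => (hG s hs).differentiableAt.differentiableWithinAt
    · rw [interior_Icc]
      intro s hs
      rw [(hG s hs).deriv]
      have h1 := h s hs
      have h2 : 0 ≤ s * (1 / (2 * √s)) := by
        have := hs.1
        positivity
      have h3 : 0 ≤ C * (s * (1 / (2 * √s))) := mul_nonneg hC h2
      nlinarith
  have h4 := anti (left_mem_Icc.2 ht) (right_mem_Icc.2 ht) ht
  simp only [mul_zero, sub_zero, zero_mul] at h4
  linarith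

end Pool.Agent.Lib.MP_8d00da_gt.h42k.U
end
end
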