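import Pool.Agent.Lib.MP_8d00da_gt.h42k.UDefs
import Pool.Agent.Lib.MP_8d00da_gt.h42k.U4e
import Pool.Agent.Lib.MP_8d00da_gt.h42k.B1e
import Pool.Agent.Lib.MP_8d00da_gt.h42k.S6b

section

/-!
# Paper 344 (quadratic KLS with a universal constant): tr(BSBS) and weighted norms
-/

namespace Pool.Agent.Lib.MP_8d00da_gt.h42k.U

open MeasureTheory Set Filter
open scoped Topology NNReal ENNReal ContDiff

set_option linter.unusedSectionVars false
set_option linter.unusedVariables false

variable {ι : Type*} [Fintype ι] [DecidableEq ι]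

theorem tq_eq (B S : Matrix ι ι ℝ) :
    tq B S = ∑ i, ∑ j, ∑ k, ∑ l, B i j * S j k * (B k l * S l i) := by
  unfold tq
  rw [Matrix.trace]
  refine Finset.sum_congr rfl fun i _ => ?_
  rw [Matrix.diag_apply, Matrix.mul_apply]
  have h1 : ∀ k, (B * S) i k * (B * S) k i
      = ∑ j, ∑ l, B i j * S j k * (B k l * S l i) := by
    intro k
    rw [Matrix.mul_apply, Matrix.mul_apply, Finset.sum_mul_sum]
  simp only [h1]
  rw [Finset.sum_comm]

theorem tq_diag {B : Matrix ι ι ℝ} (hB : ∀ i j, B i j = B j i) (s : ι → ℝ) :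
    tq B (Matrix.diagonal s) = nB s B := by
  unfold tq nB
  rw [Matrix.trace]
  refine Finset.sum_congr rfl fun i _ => ?_
  rw [Matrix.diag_apply, Matrix.mul_apply]
  refine Finset.sum_congr rfl fun j _ => ?_
  rw [Matrix.mul_diagonal, Matrix.mul_diagonal, hB j i]
  ring

theorem tq_smul (B S : Matrix ι ι ℝ) (c : ℝ) : tq B (c • S) = c ^ 2 * tq B S := by
  unfold tq
  rw [Matrix.mul_smul, Matrix.mul_smul, Matrix.smul_mul, smul_smul, Matrix.trace_smul,
    smul_eq_mul]
  ring

/-- Change of coordinates: `L L' = 1`. -/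
theorem tq_conj {B S L L' : Matrix ι ι ℝ} (h : L * L' = 1) :
    tq (L.transpose * B * L) (L' * S * L'.transpose) = tq B S := by
  have h2 : L'.transpose * L.transpose = 1 := by
    rw [← Matrix.transpose_mul, h, Matrix.transpose_one]
  have h3 : L.transpose * B * L * (L' * S * L'.transpose)
      = L.transpose * (B * S) * L'.transpose := by
    calc L.transpose * B * L * (L' * S * L'.transpose)
        = L.transpose * B * (L * L') * S * L'.transpose := by
          simp only [Matrix.mul_assoc]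
      _ = L.transpose * (B * S) * L'.transpose := by
          rw [h, Matrix.mul_one]
          simp only [Matrix.mul_assoc]
  unfold tq
  rw [h3]
  have h4 : L.transpose * (B * S) * L'.transpose * (L.transpose * (B * S) * L'.transpose)
      = L.transpose * ((B * S) * (B * S) * L'.transpose) := by
    calc L.transpose * (B * S) * L'.transpose * (L.transpose * (B * S) * L'.transpose)
        = L.transpose * (B * S) * (L'.transpose * L.transpose) * (B * S) * L'.transpose := by
          simp only [Matrix.mul_assoc]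
      _ = L.transpose * ((B * S) * (B * S) * L'.transpose) := by
          rw [h2, Matrix.mul_one]
          simp only [Matrix.mul_assoc]
  rw [h4, Matrix.trace_mul_comm, Matrix.mul_assoc, h2, Matrix.mul_one]

theorem nB_nonneg {S : ι → ℝ} (hS : ∀ i, 0 ≤ S i) (B : Matrix ι ι ℝ) : 0 ≤ nB S B := by
  unfold nB
  exact Finset.sum_nonneg fun i _ => Finset.sum_nonneg fun j _ =>
    mul_nonneg (sq_nonneg _) (mul_nonneg (hS i) (hS j))

theorem nB_mono {S S' : ι → ℝ} (hS : ∀ i, 0 ≤ S i) (h : ∀ i, S i ≤ S' i) (B : Matrix ι ι ℝ) :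
    nB S B ≤ nB S' B := by
  unfold nB
  exact Finset.sum_le_sum fun i _ => Finset.sum_le_sum fun j _ =>
    mul_le_mul_of_nonneg_left
      (mul_le_mul (h i) (h j) (hS j) ((hS i).trans (h i))) (sq_nonneg _)

end Pool.Agent.Lib.MP_8d00da_gt.h42k.U
end

section

/-!
# The flow for polynomials (full KLS, part gamma): polynomials as functions
-/

namespace Pool.Agent.Lib.MP_8d00da_gt.h42k.G

open MeasureTheory Set Filter
open scoped Topology NNReal ENNReal ContDiff
open Pool.Agent.Lib.MP_8d00da_gt.h42k.U (NF sw QT)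

set_option linter.unusedSectionVars false
set_option linter.unusedVariables false

variable {ι : Type} [Fintype ι] [DecidableEq ι]

variable {κ M : ℝ} {V : (ι → ℝ) → ℝ}

private theorem GP1_ev_C (a : ℝ) : ev (MvPolynomial.C a : MvPolynomial ι ℝ) = fun _ => a := by
  funext x; simp [ev]

private theorem GP1_ev_add (p q : MvPolynomial ι ℝ) : ev (p + q) = fun x => ev p x + ev q x := by
  funext x; simp [ev]

private theorem GP1_ev_mulX (p : MvPolynomial ι ℝ) (i : ι) :
    ev (p * MvPolynomial.X i) = fun x => ev p x * x i := by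
  funext x; simp [ev]

theorem ev_smooth (p : MvPolynomial ι ℝ) : ContDiff ℝ ∞ (ev p) := by
  induction p using MvPolynomial.induction_on with
  | C a => rw [GP1_ev_C]; exact contDiff_const
  | add p q hp hq => rw [GP1_ev_add]; exact hp.add hq
  | mul_X p i hp => rw [GP1_ev_mulX]; exact hp.mul (contDiff_apply ℝ ℝ i)

theorem ev_T0 (p : MvPolynomial ι ℝ) : T0 (ev p) := by
  induction p using MvPolynomial.induction_on with
  | C a => rw [GP1_ev_C]; exact T0.const a
  | add p q hp hq => rw [GP1_ev_add]; exact hp.add hq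
  | mul_X p i hp => rw [GP1_ev_mulX]; exact hp.mul (T0.coord i)

theorem ev_T1 (p : MvPolynomial ι ℝ) : T1 (ev p) := by
  induction p using MvPolynomial.induction_on with
  | C a => rw [GP1_ev_C]; exact T1.const a
  | add p q hp hq => rw [GP1_ev_add]; exact hp.add hq
  | mul_X p i hp => rw [GP1_ev_mulX]; exact hp.mul (T1.coord i)

private theorem GP1_diff (p : MvPolynomial ι ℝ) : Differentiable ℝ (ev p) :=
  (ev_smooth p).differentiable (by simp)

theorem pd_ev (i : ι) (p : MvPolynomial ι ℝ) (x : ι → ℝ) :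
    pd i (ev p) x = ev (MvPolynomial.pderiv i p) x := by
  induction p using MvPolynomial.induction_on with
  | C a =>
    rw [GP1_ev_C, pd_const]
    simp [ev]
  | add p q hp hq =>
    rw [GP1_ev_add, pd_add (GP1_diff p) (GP1_diff q), hp, hq, map_add, GP1_ev_add]
  | mul_X p k hp =>
    rw [GP1_ev_mulX, pd_mul (GP1_diff p) (differentiable_apply k), hp, pd_coord,
      MvPolynomial.pderiv_mul, MvPolynomial.pderiv_X]
    by_cases h : i = k
    · subst h
      simp [ev]
    · simp [ev, h, Ne.symm h]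

theorem ev_add (p q : MvPolynomial ι ℝ) : ev (p + q) = fun x => ev p x + ev q x :=
  GP1_ev_add p q

theorem ev_C_mul (a : ℝ) (p : MvPolynomial ι ℝ) :
    ev (MvPolynomial.C a * p) = fun x => a * ev p x := by
  funext x; simp [ev]

theorem ev_smul (a : ℝ) (p : MvPolynomial ι ℝ) : ev (a • p) = fun x => a * ev p x := by
  funext x; simp [ev, MvPolynomial.smul_eval]

theorem ev_sum {α : Type*} (s : Finset α) (p : α → MvPolynomial ι ℝ) :
    ev (∑ a ∈ s, p a) = fun x => ∑ a ∈ s, ev (p a) x := by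
  funext x; simp [ev, map_sum]

/-- A polynomial is the sum of its monomials. -/
theorem ev_monomials (p : MvPolynomial ι ℝ) (x : ι → ℝ) :
    ev p x = ∑ γ ∈ p.support, p.coeff γ * ∏ i, x i ^ γ i :=
  MvPolynomial.eval_eq' x p

theorem totalDegree_pderiv_le (i : ι) (p : MvPolynomial ι ℝ) :
    (MvPolynomial.pderiv i p).totalDegree ≤ p.totalDegree - 1 := by
  unfold MvPolynomial.totalDegree
  refine Finset.sup_le fun m hm => ?_
  have h1 : m + Finsupp.single i 1 ∈ p.support := by
    rw [MvPolynomial.mem_support_iff] at hm ⊢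
    intro h0
    apply hm
    rw [MvPolynomial.coeff_pderiv, h0, zero_mul]
  have h2 := MvPolynomial.le_totalDegree h1
  rw [Finsupp.sum_add_index' (fun _ => rfl) (fun _ _ _ => rfl), Finsupp.sum_single_index rfl] at h2
  unfold MvPolynomial.totalDegree at h2
  omega

theorem pderiv_comm' (i k : ι) (p : MvPolynomial ι ℝ) :
    MvPolynomial.pderiv i (MvPolynomial.pderiv k p) =
      MvPolynomial.pderiv k (MvPolynomial.pderiv i p) := by
  ext m
  simp only [MvPolynomial.coeff_pderiv]
  by_cases h : i = k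
  · subst h; rfl
  · have e1 : (m + (Finsupp.single i 1 : ι →₀ ℕ)) k = m k := by
      simp [h]
    have e2 : (m + (Finsupp.single k 1 : ι →₀ ℕ)) i = m i := by
      simp [Ne.symm h]
    rw [e1, e2, add_right_comm m (Finsupp.single k 1) (Finsupp.single i 1)]
    ring

theorem ex_ev_add (H : Nice κ M V) (p q : MvPolynomial ι ℝ) :
    ex V (ev (p + q)) = ex V (ev p) + ex V (ev q) := by
  rw [ev_add]
  exact ex_add H (ev_T0 p) (ev_T0 q)

theorem ex_ev_smul (a : ℝ) (p : MvPolynomial ι ℝ) : ex V (ev (a • p)) = a * ex V (ev p) := by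
  rw [ev_smul]
  exact ex_cmul V (ev p) a

theorem cov_ev_add (H : Nice κ M V) (p q : MvPolynomial ι ℝ) {g : (ι → ℝ) → ℝ} (hg : T0 g) :
    cov V (ev (p + q)) g = cov V (ev p) g + cov V (ev q) g := by
  have h1 : ex V (fun x => ev (p + q) x * g x) =
      ex V (fun x => ev p x * g x) + ex V (fun x => ev q x * g x) := by
    rw [← ex_add H ((ev_T0 p).mul hg) ((ev_T0 q).mul hg), ev_add]
    congr 1
    funext x
    ring
  unfold cov
  rw [h1, ex_ev_add H]
  ring

theorem cov_ev_smul (a : ℝ) (p : MvPolynomial ι ℝ) (g : (ι → ℝ) → ℝ) :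
    cov V (ev (a • p)) g = a * cov V (ev p) g := by
  have h1 : ex V (fun x => ev (a • p) x * g x) = a * ex V (fun x => ev p x * g x) := by
    rw [← ex_cmul, ev_smul]
    congr 1
    funext x
    ring
  unfold cov
  rw [h1, ex_ev_smul]
  ring

end Pool.Agent.Lib.MP_8d00da_gt.h42k.G
end

section

/-!
# The flow for polynomials (full KLS, part gamma): uniform moments
-/

namespace Pool.Agent.Lib.MP_8d00da_gt.h42k.G

open MeasureTheory Set Filter
open scoped Topology NNReal ENNReal ContDiff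
open Pool.Agent.Lib.MP_8d00da_gt.h42k.U (NF sw QT)

set_option linter.unusedSectionVars false
set_option linter.unusedVariables false

variable {ι : Type} [Fintype ι] [DecidableEq ι]

variable {κ M : ℝ} {V : (ι → ℝ) → ℝ}

private theorem GP5a_coord (H : Nice κ M V) {κ₀ : ℝ} (h0 : 0 < κ₀) (hκ : κ₀ ≤ κ)
    (hm : ∀ i, mn V i = 0) (i : ι) (k : ℕ) :
    ex V (fun x => x i ^ (2 * k)) ≤ 3 * ((Nat.factorial (2 * k) : ℝ) * (6 * √(1 / κ₀)) ^ (2 * k)) := by
  have hdt : dt (Pi.single i (1 : ℝ)) = fun x : ι → ℝ => x i := by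
    funext x
    unfold dt
    rw [Finset.sum_eq_single i]
    · rw [Pi.single_eq_same, one_mul]
    · intro j _ hj
      rw [Pi.single_eq_of_ne hj, zero_mul]
    · intro h
      exact absurd (Finset.mem_univ i) h
  obtain ⟨r, hr⟩ : ∃ r : ℝ, r = √(1 / κ₀) := ⟨_, rfl⟩
  have hr0 : 0 < r := by
    rw [hr]
    exact Real.sqrt_pos.mpr (by positivity)
  have hr2 : r ^ 2 = 1 / κ₀ := by
    rw [hr]
    exact Real.sq_sqrt (by positivity)
  rw [← hr]
  have hv : var V (dt (Pi.single i (1 : ℝ))) ≤ r ^ 2 := by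
    have h1 := s6_CLe_kappa H (Pi.single i 1)
    rw [sq_single, one_pow, mul_one] at h1
    rw [hr2]
    exact h1.trans (one_div_le_one_div_of_le h0 hκ)
  have h1 := exp_mom H (Pi.single i 1) hr0 hv
  rw [hdt] at h1
  have hmi : ex V (fun x : ι → ℝ => x i) = 0 := hm i
  rw [hmi] at h1
  simp only [sub_zero] at h1
  have i1 : Integrable fun x : ι → ℝ => Real.exp (|x i| / (6 * r)) * Real.exp (-V x) := by
    have := int_exp_abs H (Pi.single i 1) (6 * r)⁻¹ 0
    rw [hdt] at this
    refine this.congr (Eventually.of_forall fun x => ?_)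
    simp only [div_eq_inv_mul, sub_zero]
  obtain ⟨A, hA⟩ : ∃ A : ℝ, A = (Nat.factorial (2 * k) : ℝ) * (6 * r) ^ (2 * k) := ⟨_, rfl⟩
  have hA0 : 0 ≤ A := by
    rw [hA]
    positivity
  rw [← hA]
  have i2 : Integrable fun x : ι → ℝ => (A * Real.exp (|x i| / (6 * r))) * Real.exp (-V x) := by
    refine (i1.const_mul A).congr (Eventually.of_forall fun x => ?_)
    simp only
    ring
  have i3 : Integrable fun x : ι → ℝ => x i ^ (2 * k) * Real.exp (-V x) :=
    H.int ((T0.coord i).pow _)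
  refine (B1e_mono H i3 i2 fun x => ?_).trans ?_
  · have h2 := Real.pow_div_factorial_le_exp (|x i| / (6 * r)) (by positivity) (2 * k)
    rw [div_le_iff₀ (by positivity), div_pow, div_le_iff₀ (by positivity)] at h2
    have h3 : |x i| ^ (2 * k) = x i ^ (2 * k) := by
      rw [pow_mul, sq_abs, ← pow_mul]
    rw [h3] at h2
    rw [hA]
    calc x i ^ (2 * k) ≤ _ := h2
      _ = _ := by ring
  · rw [ex_cmul]
    have h6 := mul_le_mul_of_nonneg_left h1 hA0
    linarith

private theorem GP5a_pow (x : ι → ℝ) (k : ℕ) :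
    (1 + sq x) ^ k ≤ ((Fintype.card ι : ℝ) + 1) ^ k * (1 + ∑ i, x i ^ (2 * k)) := by
  have hs : ∀ i, 0 ≤ x i ^ (2 * k) := fun i => by
    rw [pow_mul]
    positivity
  have hsum : 0 ≤ ∑ i, x i ^ (2 * k) := Finset.sum_nonneg fun i _ => hs i
  have hn : (0 : ℝ) ≤ (Fintype.card ι : ℝ) := Nat.cast_nonneg _
  have hsq0 := sq_nn x
  rcases isEmpty_or_nonempty ι with he | he
  · have h1 : sq x = 0 := by
      unfold sq
      simp
    have h2 : (Fintype.card ι : ℝ) = 0 := by simp
    rw [h1, h2]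
    simp
  · obtain ⟨j, -, hj⟩ := Finset.exists_max_image (Finset.univ : Finset ι) (fun i => x i ^ 2)
      Finset.univ_nonempty
    have h1 : sq x ≤ (Fintype.card ι : ℝ) * x j ^ 2 := by
      unfold sq
      calc ∑ i, x i ^ 2 ≤ ∑ _i : ι, x j ^ 2 := Finset.sum_le_sum fun i hi => hj i hi
        _ = _ := by rw [Finset.sum_const, Finset.card_univ, nsmul_eq_mul]
    have h2 : x j ^ (2 * k) ≤ ∑ i, x i ^ (2 * k) :=
      Finset.single_le_sum (f := fun i => x i ^ (2 * k)) (fun i _ => hs i) (Finset.mem_univ j)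
    rcases le_or_gt (x j ^ 2) 1 with h | h
    · have h3 : 1 + sq x ≤ (Fintype.card ι : ℝ) + 1 := by nlinarith
      calc (1 + sq x) ^ k ≤ ((Fintype.card ι : ℝ) + 1) ^ k :=
            pow_le_pow_left₀ (by linarith) h3 k
        _ = ((Fintype.card ι : ℝ) + 1) ^ k * 1 := by rw [mul_one]
        _ ≤ _ := mul_le_mul_of_nonneg_left (by linarith) (by positivity)
    · have h3 : 1 + sq x ≤ ((Fintype.card ι : ℝ) + 1) * x j ^ 2 := by nlinarith
      calc (1 + sq x) ^ k ≤ (((Fintype.card ι : ℝ) + 1) * x j ^ 2) ^ k :=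
            pow_le_pow_left₀ (by linarith) h3 k
        _ = ((Fintype.card ι : ℝ) + 1) ^ k * x j ^ (2 * k) := by rw [mul_pow, ← pow_mul]
        _ ≤ _ := mul_le_mul_of_nonneg_left (by linarith) (by positivity)

/-- All moments are bounded uniformly in the class of the `V` with `D²V ≥ κ₀` and mean zero
(`exp_mom`: exponential moments of the coordinates with `σ² = 1/κ₀`; `t^k ≤ k! e^t`). -/
theorem mom_unif (ι : Type) [Fintype ι] [DecidableEq ι] {κ₀ : ℝ} (h0 : 0 < κ₀) (k : ℕ) :
    ∃ C : ℝ, 0 ≤ C ∧ ∀ (κ M : ℝ) (V : (ι → ℝ) → ℝ), κ₀ ≤ κ → Nice κ M V →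
      (∀ i, mn V i = 0) → ex V (fun x => (1 + sq x) ^ k) ≤ C := by
  refine ⟨((Fintype.card ι : ℝ) + 1) ^ k *
    (1 + ∑ _i : ι, 3 * ((Nat.factorial (2 * k) : ℝ) * (6 * √(1 / κ₀)) ^ (2 * k))), ?_, ?_⟩
  · have : 0 ≤ ∑ _i : ι, 3 * ((Nat.factorial (2 * k) : ℝ) * (6 * √(1 / κ₀)) ^ (2 * k)) :=
      Finset.sum_nonneg fun i _ => by positivity
    positivity
  intro κ M V hκ H hm
  have t1 : ∀ i : ι, T0 (fun x : ι → ℝ => x i ^ (2 * k)) := fun i => (T0.coord i).pow _
  have t2 : T0 (fun x : ι → ℝ => ∑ i, x i ^ (2 * k)) := T0.sum _ fun i _ => t1 i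
  have t3 : T0 (fun x : ι → ℝ => 1 + ∑ i, x i ^ (2 * k)) := (T0.const 1).add t2
  have h1 := ex_mono H (((T0.const 1).add T0.sqf).pow k)
    (t3.cmul (((Fintype.card ι : ℝ) + 1) ^ k)) fun x => GP5a_pow x k
  rw [ex_cmul, ex_add H (T0.const 1) t2, ex_const H, ex_sum H _ fun i _ => t1 i] at h1
  refine h1.trans ?_
  refine mul_le_mul_of_nonneg_left ?_ (by positivity)
  have h2 : ∑ i, ex V (fun x : ι → ℝ => x i ^ (2 * k)) ≤
      ∑ _i : ι, 3 * ((Nat.factorial (2 * k) : ℝ) * (6 * √(1 / κ₀)) ^ (2 * k)) :=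
    Finset.sum_le_sum fun i _ => GP5a_coord H h0 hκ hm i k
  linarith

/-- The monomials. -/
theorem mono_T0 (γ : ι → ℕ) : T0 (fun x : ι → ℝ => ∏ i, x i ^ γ i) := by
  have h : ∀ s : Finset ι, T0 (fun x : ι → ℝ => ∏ i ∈ s, x i ^ γ i) := by
    intro s
    induction s using Finset.induction_on with
    | empty => simpa using T0.const (ι := ι) 1
    | insert a s ha ih =>
      have e : (fun x : ι → ℝ => ∏ i ∈ insert a s, x i ^ γ i) =
          fun x => x a ^ γ a * ∏ i ∈ s, x i ^ γ i := by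
        funext x
        rw [Finset.prod_insert ha]
      rw [e]
      exact ((T0.coord a).pow _).mul ih
  exact h Finset.univ

theorem mono_le (γ : ι → ℕ) (x : ι → ℝ) :
    |∏ i, x i ^ γ i| ≤ (1 + sq x) ^ (∑ i, γ i) := by
  rw [Finset.abs_prod, ← Finset.prod_pow_eq_pow_sum]
  refine Finset.prod_le_prod (fun i _ => abs_nonneg _) fun i _ => ?_
  rw [abs_pow]
  refine pow_le_pow_left₀ (abs_nonneg _) ?_ _
  have h1 : x i ^ 2 ≤ sq x :=
    Finset.single_le_sum (f := fun i => x i ^ 2) (fun i _ => sq_nonneg _) (Finset.mem_univ i)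
  have h2 : |x i| ^ 2 = x i ^ 2 := sq_abs _
  nlinarith [sq_nonneg (|x i| - 1), abs_nonneg (x i)]

end Pool.Agent.Lib.MP_8d00da_gt.h42k.G
end

section

/-!
# Paper 344 (quadratic KLS with a universal constant): U.0, U.2: the class, linear changes of coordinates
-/

namespace Pool.Agent.Lib.MP_8d00da_gt.h42k.U

open MeasureTheory Set Filter
open scoped Topology NNReal ENNReal ContDiff

set_option linter.unusedSectionVars false
set_option linter.unusedVariables false

variable {ι : Type} [Fintype ι] [DecidableEq ι]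

variable {κ M : ℝ} {V : (ι → ℝ) → ℝ}

theorem U2a_diag_psd {r : ι → ℝ} (hr : ∀ i, 0 ≤ r i) : PSD (Matrix.diagonal r) := by
  constructor
  · exact Matrix.diagonal_transpose r
  · intro θ
    refine Finset.sum_nonneg fun i _ => ?_
    rw [Finset.sum_eq_single i]
    · rw [Matrix.diagonal_apply_eq]
      have h := mul_nonneg (hr i) (mul_self_nonneg (θ i))
      calc (0 : ℝ) ≤ r i * (θ i * θ i) := h
        _ = θ i * r i * θ i := by ring
    · intro j _ hj
      rw [Matrix.diagonal_apply_ne r (Ne.symm hj), mul_zero, zero_mul]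
    · intro h
      exact absurd (Finset.mem_univ i) h

theorem diag_add_CM_psd (H : Nice κ M V) {r : ι → ℝ} (hr : ∀ i, 0 ≤ r i) :
    PSD (Matrix.diagonal r + CM V) :=
  U1b_add (U2a_diag_psd hr) (CM_PSD H)

theorem one_add_CM_psd (H : Nice κ M V) : PSD (1 + CM V) := by
  have h := diag_add_CM_psd H (r := fun _ => 1) fun _ => zero_le_one
  rwa [Matrix.diagonal_one] at h

/-- Larger constants. -/
theorem QT.mono_right {τ C C' : ℝ} (h : QT ι τ C) (hC : C ≤ C') : QT ι τ C' := by
  intro M V H B hB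
  exact (h M V H B hB).trans (mul_le_mul_of_nonneg_right hC (tq_nonneg hB (one_add_CM_psd H)))

/-- Smaller classes. -/
theorem QT.mono_left {τ τ' C : ℝ} (h : QT ι τ C) (hτ : 0 < τ) (hle : τ ≤ τ') : QT ι τ' C := by
  intro M V H B hB
  refine h M V ⟨hτ, H.c2, fun x u => ?_, H.hi⟩ B hB
  exact (mul_le_mul_of_nonneg_right hle (sq_nn u)).trans (H.lo x u)

/-- The mean after a linear change of coordinates. -/
theorem U2a_mn (H : Nice κ M V) (P : (ι → ℝ) ≃L[ℝ] (ι → ℝ)) {L : Matrix ι ι ℝ}
    (hP : ∀ z, P z = L.mulVec z) (i : ι) :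
    mn V i = ∑ k, L i k * mn (fun z => V (P z)) k := by
  obtain ⟨κ', M', H'⟩ := H.comp_lin' P
  have h1 : mn V i = ex (fun z => V (P z)) (fun z => (P z) i) :=
    (ex_comp_lin P V fun x => x i).symm
  have h2 : (fun z : ι → ℝ => (P z) i) = fun z => dt (L i) z := by
    funext z
    rw [hP]
    rfl
  rw [h1, h2]
  exact ex_dt H' (L i)

/-- The quadratic form after a linear change of coordinates `x = L z`, `L L' = 1`
(`var_comp_lin`, `CM_comp_lin`, `tq_conj`, `1 = L' (L Lᵀ) L'ᵀ`). -/
theorem qt_lin (H : Nice κ M V) (P : (ι → ℝ) ≃L[ℝ] (ι → ℝ)) {L L' : Matrix ι ι ℝ}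
    (hL : L * L' = 1) (hP : ∀ z, P z = L.mulVec z) (B : Matrix ι ι ℝ) :
    var (fun z => V (P z)) (qf (fun z => V (P z)) (L.transpose * B * L)) = var V (qf V B) ∧
      tq (L.transpose * B * L) (1 + CM fun z => V (P z)) = tq B (L * L.transpose + CM V) := by
  have hL2 : L' * L = 1 := mul_eq_one_comm.1 hL
  constructor
  · rw [← var_comp_lin P V (qf V B)]
    congr 1
    funext z
    have h1 : ∀ i, (P z) i - mn V i = ∑ a, L i a * (z a - mn (fun z => V (P z)) a) := by
      intro i
      rw [U2a_mn H P hP i, hP]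
      simp only [Matrix.mulVec, dotProduct]
      rw [← Finset.sum_sub_distrib]
      exact Finset.sum_congr rfl fun a _ => by ring
    unfold qf
    simp only [h1]
    have h2 : ∀ a b, (L.transpose * B * L) a b = ∑ i, ∑ j, L i a * B i j * L j b := by
      intro a b
      rw [Matrix.mul_apply, Finset.sum_comm]
      refine Finset.sum_congr rfl fun j _ => ?_
      rw [Matrix.mul_apply, Finset.sum_mul]
      rfl
    set w : ι → ℝ := fun a => z a - mn (fun z => V (P z)) a with hw
    have h3 : ∀ a b, (L.transpose * B * L) a b * w a * w b =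
        ∑ i, ∑ j, (L i a * B i j * L j b) * (w a * w b) := by
      intro a b
      rw [h2, mul_assoc, Finset.sum_mul]
      exact Finset.sum_congr rfl fun i _ => Finset.sum_mul _ _ _
    have h4 : ∀ i j, B i j * (∑ a, L i a * w a) * (∑ b, L j b * w b) =
        ∑ a, ∑ b, (L i a * B i j * L j b) * (w a * w b) := by
      intro i j
      rw [mul_assoc, Finset.sum_mul_sum, Finset.mul_sum]
      refine Finset.sum_congr rfl fun a _ => ?_
      rw [Finset.mul_sum]
      exact Finset.sum_congr rfl fun b _ => by ring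
    calc ∑ a, ∑ b, (L.transpose * B * L) a b * w a * w b
        = ∑ a, ∑ b, ∑ i, ∑ j, (L i a * B i j * L j b) * (w a * w b) :=
          Finset.sum_congr rfl fun a _ => Finset.sum_congr rfl fun b _ => h3 a b
      _ = ∑ a, ∑ i, ∑ b, ∑ j, (L i a * B i j * L j b) * (w a * w b) :=
          Finset.sum_congr rfl fun a _ => Finset.sum_comm
      _ = ∑ i, ∑ a, ∑ b, ∑ j, (L i a * B i j * L j b) * (w a * w b) := Finset.sum_comm
      _ = ∑ i, ∑ a, ∑ j, ∑ b, (L i a * B i j * L j b) * (w a * w b) :=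
          Finset.sum_congr rfl fun i _ => Finset.sum_congr rfl fun a _ => Finset.sum_comm
      _ = ∑ i, ∑ j, ∑ a, ∑ b, (L i a * B i j * L j b) * (w a * w b) :=
          Finset.sum_congr rfl fun i _ => Finset.sum_comm
      _ = _ := Finset.sum_congr rfl fun i _ => Finset.sum_congr rfl fun j _ => (h4 i j).symm
  · have h1 : CM (fun z => V (P z)) = L' * CM V * L'.transpose :=
      CM_comp_lin H P L' fun x => by rw [hP, Matrix.mulVec_mulVec, hL2, Matrix.one_mulVec]
    have h2 : L.transpose * L'.transpose = 1 := by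
      rw [← Matrix.transpose_mul, hL2, Matrix.transpose_one]
    have h3 : (1 : Matrix ι ι ℝ) = L' * (L * L.transpose) * L'.transpose := by
      calc (1 : Matrix ι ι ℝ) = (L' * L) * (L.transpose * L'.transpose) := by
            rw [hL2, h2, Matrix.one_mul]
        _ = _ := by simp only [Matrix.mul_assoc]
    have h4 : 1 + CM (fun z => V (P z)) = L' * (L * L.transpose + CM V) * L'.transpose := by
      rw [Matrix.mul_add, Matrix.add_mul, ← h3, h1]
    rw [h4, tq_conj hL]

/-- U.2: if `D²V ≥ τ R⁻¹`, `R = diag r`, then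
`Var ⟨B x̃, x̃⟩ ≤ C tr(B(R+A)B(R+A))`.  (`qt_lin` with `L = diag √r_i`, `dg`.) -/
theorem QT.lin {τ C : ℝ} (hτ : 0 < τ) (h : QT ι τ C) (H : Nice κ M V) {r : ι → ℝ}
    (hr : ∀ i, 0 < r i) (hlo : ∀ x u, τ * ∑ i, u i ^ 2 / r i ≤ hs V x u) {B : Matrix ι ι ℝ}
    (hB : ∀ i j, B i j = B j i) :
    var V (qf V B) ≤ C * tq B (Matrix.diagonal r + CM V) := by
  have hc : ∀ i, √(r i) ≠ 0 := fun i => (Real.sqrt_pos.2 (hr i)).ne'
  set P := dg (fun i => √(r i)) hc with hPdef
  have hPa : ∀ z i, P z i = z i * √(r i) := fun z i => dg_apply _ hc z i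
  have hP : ∀ z, P z = (Matrix.diagonal fun i => √(r i)).mulVec z := by
    intro z
    funext i
    rw [hPa, Matrix.mulVec_diagonal, mul_comm]
  have hL : (Matrix.diagonal fun i => √(r i)) * (Matrix.diagonal fun i => (√(r i))⁻¹) = 1 := by
    rw [Matrix.diagonal_mul_diagonal]
    have : (fun i => √(r i) * (√(r i))⁻¹) = fun _ : ι => (1 : ℝ) :=
      funext fun i => mul_inv_cancel₀ (hc i)
    rw [this, Matrix.diagonal_one]
  obtain ⟨κ', M', H'⟩ := H.comp_lin' P
  have H2 : Nice τ M' (fun z => V (P z)) := by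
    refine ⟨hτ, H'.c2, fun x u => ?_, H'.hi⟩
    have h1 : hs (fun z => V (P z)) x u = hs V (P x) (P u) :=
      hs_comp (P : (ι → ℝ) →L[ℝ] (ι → ℝ)) H.c2 x u
    rw [h1]
    have h2 : ∑ i, (P u) i ^ 2 / r i = sq u := by
      unfold sq
      refine Finset.sum_congr rfl fun i _ => ?_
      rw [hPa, mul_pow, Real.sq_sqrt (hr i).le, mul_div_assoc, div_self (hr i).ne', mul_one]
    have h3 := hlo (P x) (P u)
    rwa [h2] at h3
  obtain ⟨e1, e2⟩ := qt_lin H P hL hP B
  have hB2 : ∀ i j, ((Matrix.diagonal fun i => √(r i)).transpose * B *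
      (Matrix.diagonal fun i => √(r i))) i j = ((Matrix.diagonal fun i => √(r i)).transpose * B *
      (Matrix.diagonal fun i => √(r i))) j i := by
    intro i j
    rw [Matrix.diagonal_transpose, Matrix.mul_diagonal, Matrix.mul_diagonal, Matrix.diagonal_mul,
      Matrix.diagonal_mul, hB j i]
    ring
  have h5 := h M' _ H2 _ hB2
  rw [e1, e2] at h5
  have h6 : (Matrix.diagonal fun i => √(r i)) * (Matrix.diagonal fun i => √(r i)).transpose
      = Matrix.diagonal r := by
    rw [Matrix.diagonal_transpose, Matrix.diagonal_mul_diagonal]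
    congr 1
    funext i
    exact Real.mul_self_sqrt (hr i).le
  rwa [h6] at h5

end Pool.Agent.Lib.MP_8d00da_gt.h42k.U
end
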