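import Mathlib
import Pool.Agent.Lib.MP_8d00da_gt.h42k.U2a
import Pool.Agent.Lib.MP_8d00da_gt.h42k.U4e

section

/-!
# Paper 344 (quadratic KLS with a universal constant): U.3: the normal form
-/

namespace Pool.Agent.Lib.MP_8d00da_gt.h42k.U

open MeasureTheory Set Filter
open scoped Topology NNReal ENNReal ContDiff

set_option linter.unusedSectionVars false
set_option linter.unusedVariables false

variable {ι : Type} [Fintype ι] [DecidableEq ι]

variable {τ σ M : ℝ} {V : (ι → ℝ) → ℝ} {α : ι → ℝ}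

/-- The weights of the normal form. -/
theorem NF.sw_facts (h : NF τ σ M V α) (hσ : 2 ≤ σ) (i : ι) :
    1 ≤ sw σ α i ∧ sw σ α i ≤ σ ∧ α i ≤ 2 * sw σ α i ∧ 0 < 1 - α i / σ ∧ 1 - α i / σ ≤ 1 ∧
      1 - α i / σ + α i = sw σ α i := by
  have hσ0 : 0 < σ := by linarith
  have h0 := h.nn i
  have h1 := h.lt i
  have h2 : 1 / σ ≤ 1 / 2 := one_div_le_one_div_of_le (by norm_num) hσ
  have h3 : 0 < 1 / σ := by positivity
  have h4 : α i / σ < 1 := (div_lt_one hσ0).2 h1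
  have h5 : 0 ≤ α i / σ := by positivity
  have h6 : sw σ α i = 1 + α i - α i / σ := by
    unfold sw
    ring
  have h7 : α i / σ ≤ α i / 2 := div_le_div_of_nonneg_left h0 (by norm_num) hσ
  refine ⟨by linarith, ?_, by linarith, by linarith, by linarith, by linarith⟩
  have h8 : (σ - α i) * (1 - 1 / σ) = σ - 1 - α i + α i / σ := by
    field_simp
    ring
  have h9 : 0 ≤ (σ - α i) * (1 - 1 / σ) := mul_nonneg (by linarith) (by linarith)
  linarith

/-- Step 1: rotation. -/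
private theorem U2d_rot (H : Nice τ M V) {B : Matrix ι ι ℝ} (hB : ∀ i j, B i j = B j i) :
    ∃ (W : (ι → ℝ) → ℝ) (b : ι → ℝ) (B' : Matrix ι ι ℝ), Nice τ M W ∧ (∀ i, 0 ≤ b i) ∧
      CM W = Matrix.diagonal b ∧ (∀ i j, B' i j = B' j i) ∧
      var W (qf W B') = var V (qf V B) ∧ tq B' (1 + CM W) = tq B (1 + CM V) := by
  obtain ⟨e, lam, he⟩ := exists_EB (A := CM V) (CM_symm V)
  obtain ⟨U, hUe⟩ : ∃ U : Matrix ι ι ℝ, U = Matrix.of fun a k => e k a := ⟨_, rfl⟩
  have hU : U * U.transpose = 1 := by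
    ext a b
    rw [Matrix.mul_apply, Matrix.one_apply, ← he.orth' a b]
    refine Finset.sum_congr rfl fun k _ => ?_
    rw [hUe]
    rfl
  have hCM : CM (fun x => V (ogm U hU x)) = Matrix.diagonal lam := by
    ext i j
    have h1 : dt (e i) ((CM V).mulVec (e j)) = if i = j then lam i else 0 := by
      rw [he.dt_mulVec, he.orth]
      split_ifs <;> simp
    rw [Matrix.diagonal_apply, CM_og H U hU, ← h1, Matrix.mul_assoc, Matrix.mul_apply, hUe]
    rfl
  obtain ⟨e1, e2⟩ := qt_lin H (ogm U hU) (L := U) (L' := U.transpose) hU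
    (fun z => ogm_apply U hU z) B
  have hBt : B.transpose = B := by
    ext i j
    rw [Matrix.transpose_apply]
    exact hB j i
  refine ⟨fun x => V (ogm U hU x), lam, U.transpose * B * U, H.comp_og U hU,
    fun i => he.lam_nonneg H i, hCM, fun i j => ?_, e1, ?_⟩
  · have h1 : (U.transpose * B * U).transpose = U.transpose * B * U := by
      rw [Matrix.transpose_mul, Matrix.transpose_mul, Matrix.transpose_transpose, hBt,
        Matrix.mul_assoc]
    have h2 := congrFun (congrFun h1 j) i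
    rwa [Matrix.transpose_apply] at h2
  · rw [e2, hU]

/-- Step 2: scaling. -/
private theorem U2d_scale {σ : ℝ} (hσ : 0 < σ) (H : Nice τ M V) {b : ι → ℝ}
    (hb : ∀ i, 0 ≤ b i) (hA : CM V = Matrix.diagonal b) {B : Matrix ι ι ℝ}
    (hB : ∀ i j, B i j = B j i) :
    ∃ (M' : ℝ) (W : (ι → ℝ) → ℝ) (α : ι → ℝ) (B' : Matrix ι ι ℝ), Nice τ M' W ∧
      CM W = Matrix.diagonal α ∧
      (∀ i, 0 ≤ α i) ∧ (∀ i, α i < σ) ∧
      (∀ x u, τ * ∑ i, u i ^ 2 / (1 - α i / σ) ≤ hs W x u) ∧ (∀ i j, B' i j = B' j i) ∧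
      var W (qf W B') = var V (qf V B) ∧ nB (sw σ α) B' = tq B (1 + CM V) := by
  have hq : ∀ i, 0 < 1 + b i / σ := fun i => by
    have := div_nonneg (hb i) hσ.le
    linarith
  obtain ⟨c, hc0⟩ : ∃ c : ι → ℝ, c = fun i => √(1 + b i / σ) := ⟨_, rfl⟩
  have hcp : ∀ i, 0 < c i := fun i => by
    rw [hc0]
    exact Real.sqrt_pos.2 (hq i)
  have hc : ∀ i, c i ≠ 0 := fun i => (hcp i).ne'
  have hc2 : ∀ i, c i ^ 2 = 1 + b i / σ := fun i => by
    rw [hc0]
    exact Real.sq_sqrt (hq i).le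
  have hsq : ∀ u, sq (dg c hc u) = ∑ i, u i ^ 2 * (1 + b i / σ) := by
    intro u
    unfold sq
    refine Finset.sum_congr rfl fun i _ => ?_
    rw [dg_apply, mul_pow, hc2]
  have h1 : ∀ u, 1 * sq u ≤ sq (dg c hc u) := by
    intro u
    rw [hsq, one_mul]
    unfold sq
    refine Finset.sum_le_sum fun i _ => ?_
    have := div_nonneg (hb i) hσ.le
    nlinarith [_root_.sq_nonneg (u i)]
  have h2 : ∀ u, sq (dg c hc u) ≤ (1 + (∑ j, b j) / σ) * sq u := by
    intro u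
    rw [hsq]
    unfold sq
    rw [Finset.mul_sum]
    refine Finset.sum_le_sum fun i _ => ?_
    rw [mul_comm]
    refine mul_le_mul_of_nonneg_right ?_ (_root_.sq_nonneg _)
    have : b i / σ ≤ (∑ j, b j) / σ := by
      refine div_le_div_of_nonneg_right ?_ hσ.le
      exact Finset.single_le_sum (fun j _ => hb j) (Finset.mem_univ i)
    linarith
  have hN := H.comp_lin (dg c hc) one_pos h1 h2
  rw [mul_one] at hN
  have ha : ∀ i, 1 - b i / (1 + b i / σ) / σ = 1 / (1 + b i / σ) := by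
    intro i
    have := (hq i).ne'
    have h0 : σ + b i ≠ 0 := by
      have := hb i
      positivity
    field_simp
    ring
  have hP : ∀ z, dg c hc z = (Matrix.diagonal c).mulVec z := by
    intro z
    funext i
    rw [Matrix.mulVec_diagonal, dg_apply, mul_comm]
  have hL : Matrix.diagonal c * Matrix.diagonal (fun i => (c i)⁻¹) = 1 := by
    rw [Matrix.diagonal_mul_diagonal, ← Matrix.diagonal_one]
    congr 1
    funext i
    exact mul_inv_cancel₀ (hc i)
  obtain ⟨e1, -⟩ := qt_lin H (dg c hc) hL hP B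
  have hBe : ∀ i j, ((Matrix.diagonal c).transpose * B * Matrix.diagonal c) i j =
      c i * B i j * c j := by
    intro i j
    rw [Matrix.diagonal_transpose, Matrix.mul_diagonal, Matrix.diagonal_mul]
  refine ⟨_, fun x => V (dg c hc x), fun i => b i / (1 + b i / σ),
    (Matrix.diagonal c).transpose * B * Matrix.diagonal c, hN, ?_, ?_, ?_, ?_, ?_, e1, ?_⟩
  · ext i j
    have h3 := CM_comp_lin H (dg c hc) (Matrix.diagonal fun i => (c i)⁻¹) (fun x => by
      funext i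
      rw [Matrix.mulVec_diagonal, dg_apply, mul_comm (x i), ← mul_assoc,
        inv_mul_cancel₀ (hc i), one_mul])
    rw [h3, Matrix.diagonal_transpose, Matrix.mul_diagonal, Matrix.diagonal_mul, hA,
      Matrix.diagonal_apply, Matrix.diagonal_apply]
    by_cases hij : i = j
    · subst hij
      rw [if_pos rfl, if_pos rfl, ← hc2]
      have := hc i
      field_simp
    · rw [if_neg hij, if_neg hij, mul_zero, zero_mul]
  · intro i
    exact div_nonneg (hb i) (hq i).le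
  · intro i
    show b i / (1 + b i / σ) < σ
    rw [div_lt_iff₀ (hq i), mul_add, mul_one, mul_div_cancel₀ _ hσ.ne']
    linarith
  · intro x u
    have h3 := hs_comp (dg c hc : (ι → ℝ) →L[ℝ] (ι → ℝ)) H.c2 x u
    rw [show hs (fun x => V (dg c hc x)) x u = hs V (dg c hc x) (dg c hc u) from h3]
    refine le_trans (le_of_eq ?_) (H.lo _ _)
    rw [hsq]
    congr 1
    refine Finset.sum_congr rfl fun i _ => ?_
    show u i ^ 2 / (1 - b i / (1 + b i / σ) / σ) = _
    rw [ha, div_div_eq_mul_div, div_one]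
  · intro i j
    rw [hBe, hBe, hB j i]
    ring
  · have h5 : (1 : Matrix ι ι ℝ) + CM V = Matrix.diagonal fun i => 1 + b i := by
      rw [hA, ← Matrix.diagonal_one, Matrix.diagonal_add]
    rw [h5, tq_diag hB]
    have h4 : ∀ i, c i ^ 2 * sw σ (fun i => b i / (1 + b i / σ)) i = 1 + b i := by
      intro i
      have h4 : sw σ (fun i => b i / (1 + b i / σ)) i = (1 + b i) / (1 + b i / σ) := by
        unfold sw
        have := (hq i).ne'
        have h5 := ha i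
        have h6 : 1 + (1 - 1 / σ) * (b i / (1 + b i / σ))
            = (1 - b i / (1 + b i / σ) / σ) + b i / (1 + b i / σ) := by ring
        rw [h6, h5, ← add_div]
      rw [h4, hc2, mul_div_cancel₀ _ (hq i).ne']
    unfold nB
    refine Finset.sum_congr rfl fun i _ => Finset.sum_congr rfl fun j _ => ?_
    rw [hBe]
    show (c i * B i j * c j) ^ 2 * (sw σ (fun i => b i / (1 + b i / σ)) i *
      sw σ (fun i => b i / (1 + b i / σ)) j) = B i j ^ 2 * ((1 + b i) * (1 + b j))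
    rw [← h4 i, ← h4 j]
    ring

/-- U.3, existence: for `V` with `D²V ≥ τ` and symmetric `B` there are `W` in normal form and a
symmetric `B'` with the same variance and the same right hand side.
(`e` an eigenbasis of `CM V` with eigenvalues `λ_k ≥ 0`; `c_k = √(1 + λ_k/σ)`;
`W(z) = V(stv e c (z + m))` with `m` such that the mean is `0`; `α_k = λ_k/(1 + λ_k/σ)`;
`hs W z u = hs V _ (stv e c u) ≥ τ ∑ c_k² u_k²`, `c_k² = 1/(1 - α_k/σ)`;
`B' = Lᵀ B L`, `L = (c_k e_k a)_{a k}`; `qt_lin`, `var_translate`; `L Lᵀ = 1 + A/σ` ...: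
`tq B' (diag r + CM W) = tq B (L diag(r) Lᵀ + CM V)` with `r_k = 1 - α_k/σ = 1/c_k²`, and
`L diag(r) Lᵀ = 1` (`tq_conj`, `tq_diag`).) -/
theorem exists_nf (hσ : 2 ≤ σ) (H : Nice τ M V) {B : Matrix ι ι ℝ}
    (hB : ∀ i j, B i j = B j i) :
    ∃ (M' : ℝ) (W : (ι → ℝ) → ℝ) (α : ι → ℝ) (B' : Matrix ι ι ℝ), NF τ σ M' W α ∧
      (∀ i j, B' i j = B' j i) ∧ var W (q0 B') = var V (qf V B) ∧
      nB (sw σ α) B' = tq B (1 + CM V) := by
  obtain ⟨W1, b, B1, H1, hb, hC1, hB1, hv1, ht1⟩ := U2d_rot H hB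
  obtain ⟨M', W2, α, B2, H2, hC2, hα0, hα1, hlo, hB2, hv2, ht2⟩ :=
    U2d_scale (σ := σ) (by linarith) H1 hb hC1 hB1
  obtain ⟨a, ha⟩ : ∃ a : ι → ℝ, a = mn W2 := ⟨_, rfl⟩
  have hW : Nice τ M' fun x => W2 (x + a) := H2.translate a
  have hmn : ∀ i, mn (fun x => W2 (x + a)) i = 0 := by
    intro i
    have h1 := ex_translate a W2 fun x => x i - a i
    have h2 : (fun x : ι → ℝ => (x + a) i - a i) = fun x => x i := by
      funext x
      simp
    rw [h2, ex_sub H2 (T0.coord i) (T0.const (a i)), ex_const H2] at h1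
    have h3 : mn W2 i = ex W2 fun x => x i := rfl
    have h4 : mn (fun x => W2 (x + a)) i = ex (fun x => W2 (x + a)) fun x => x i := rfl
    rw [h4, h1, ← h3, ha, sub_self]
  have hcm : CM (fun x => W2 (x + a)) = CM W2 := by
    ext i j
    have h1 := cov_translate a W2 (fun x => x i + -a i) (fun x => x j + -a j)
    have h2 : ∀ i, (fun x : ι → ℝ => (x + a) i + -a i) = fun x => x i := by
      intro i
      funext x
      simp
    have h3 := h2 i
    have h4 := h2 j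
    rw [h3, h4, cov_addc H2 (T0.coord i) ((T0.coord j).add (T0.const (-a j)))] at h1
    have h5 : cov W2 (fun x => x i) (fun x => x j + -a j) = cov W2 (fun x => x i) fun x => x j := by
      rw [cov_comm, cov_addc H2 (T0.coord j) (T0.coord i), cov_comm]
    rw [h5] at h1
    exact h1
  refine ⟨M', fun x => W2 (x + a), α, B2, ⟨hW, hmn, hcm.trans hC2, hα0, hα1, fun x u => ?_⟩,
    hB2, ?_, ht2.trans ht1⟩
  · rw [hs_translate]
    exact hlo _ _
  · have h6 : q0 B2 = fun x => qf W2 B2 (x + a) := by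
      funext x
      unfold q0 qf
      refine Finset.sum_congr rfl fun i _ => Finset.sum_congr rfl fun j _ => ?_
      rw [ha]
      simp
    have h7 : var (fun x => W2 (x + a)) (fun x => qf W2 B2 (x + a)) = var W2 (qf W2 B2) :=
      cov_translate a W2 (qf W2 B2) (qf W2 B2)
    rw [h6, h7, hv2, hv1]

end Pool.Agent.Lib.MP_8d00da_gt.h42k.U
end

section

/-!
# The flow for polynomials (full KLS, part gamma): bilinearity of Q_j
-/

namespace Pool.Agent.Lib.MP_8d00da_gt.h42k.G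

open MeasureTheory Set Filter
open scoped Topology NNReal ENNReal ContDiff
open Pool.Agent.Lib.MP_8d00da_gt.h42k.U (NF sw QT)

set_option linter.unusedSectionVars false
set_option linter.unusedVariables false

variable {ι : Type} [Fintype ι] [DecidableEq ι]

variable {κ M : ℝ} {V : (ι → ℝ) → ℝ}

private theorem GP2a_zero (X : Matrix ι ι ℝ) (p q : MvPolynomial ι ℝ) :
    Qj V X 0 p q = ex V (ev p) * ex V (ev q) := rfl

private theorem GP2a_succ (X : Matrix ι ι ℝ) (j : ℕ) (p q : MvPolynomial ι ℝ) :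
    Qj V X (j + 1) p q = ∑ i, ∑ k, X i k *
      Qj V X j (MvPolynomial.pderiv i p) (MvPolynomial.pderiv k q) := rfl

theorem Qj_add_left (H : Nice κ M V) (X : Matrix ι ι ℝ) (j : ℕ) (p p' q : MvPolynomial ι ℝ) :
    Qj V X j (p + p') q = Qj V X j p q + Qj V X j p' q := by
  induction j generalizing p p' q with
  | zero => rw [GP2a_zero, GP2a_zero, GP2a_zero, ex_ev_add H]; ring
  | succ j ih =>
    rw [GP2a_succ, GP2a_succ, GP2a_succ, ← Finset.sum_add_distrib]
    refine Finset.sum_congr rfl fun i _ => ?_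
    rw [← Finset.sum_add_distrib]
    refine Finset.sum_congr rfl fun k _ => ?_
    rw [map_add, ih]; ring

theorem Qj_add_right (H : Nice κ M V) (X : Matrix ι ι ℝ) (j : ℕ) (p q q' : MvPolynomial ι ℝ) :
    Qj V X j p (q + q') = Qj V X j p q + Qj V X j p q' := by
  induction j generalizing p q q' with
  | zero => rw [GP2a_zero, GP2a_zero, GP2a_zero, ex_ev_add H]; ring
  | succ j ih =>
    rw [GP2a_succ, GP2a_succ, GP2a_succ, ← Finset.sum_add_distrib]
    refine Finset.sum_congr rfl fun i _ => ?_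
    rw [← Finset.sum_add_distrib]
    refine Finset.sum_congr rfl fun k _ => ?_
    rw [map_add, ih]; ring

theorem Qj_smul_left (X : Matrix ι ι ℝ) (j : ℕ) (a : ℝ) (p q : MvPolynomial ι ℝ) :
    Qj V X j (a • p) q = a * Qj V X j p q := by
  induction j generalizing p q with
  | zero => rw [GP2a_zero, GP2a_zero, ex_ev_smul]; ring
  | succ j ih =>
    rw [GP2a_succ, GP2a_succ, Finset.mul_sum]
    refine Finset.sum_congr rfl fun i _ => ?_
    rw [Finset.mul_sum]
    refine Finset.sum_congr rfl fun k _ => ?_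
    rw [Derivation.map_smul, ih]; ring

theorem Qj_smul_right (X : Matrix ι ι ℝ) (j : ℕ) (a : ℝ) (p q : MvPolynomial ι ℝ) :
    Qj V X j p (a • q) = a * Qj V X j p q := by
  induction j generalizing p q with
  | zero => rw [GP2a_zero, GP2a_zero, ex_ev_smul]; ring
  | succ j ih =>
    rw [GP2a_succ, GP2a_succ, Finset.mul_sum]
    refine Finset.sum_congr rfl fun i _ => ?_
    rw [Finset.mul_sum]
    refine Finset.sum_congr rfl fun k _ => ?_
    rw [Derivation.map_smul, ih]; ring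

private theorem GP2a_zero_left (X : Matrix ι ι ℝ) (j : ℕ) (q : MvPolynomial ι ℝ) :
    Qj V X j 0 q = 0 := by
  have h := Qj_smul_left (V := V) X j 0 (0 : MvPolynomial ι ℝ) q
  rwa [zero_smul, zero_mul] at h

private theorem GP2a_zero_right (X : Matrix ι ι ℝ) (j : ℕ) (p : MvPolynomial ι ℝ) :
    Qj V X j p 0 = 0 := by
  have h := Qj_smul_right (V := V) X j 0 p (0 : MvPolynomial ι ℝ)
  rwa [zero_smul, zero_mul] at h

theorem Qj_sum_left (H : Nice κ M V) (X : Matrix ι ι ℝ) (j : ℕ) {β : Type*} (s : Finset β)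
    (p : β → MvPolynomial ι ℝ) (q : MvPolynomial ι ℝ) :
    Qj V X j (∑ a ∈ s, p a) q = ∑ a ∈ s, Qj V X j (p a) q := by
  classical
  induction s using Finset.induction_on with
  | empty => rw [Finset.sum_empty, Finset.sum_empty, GP2a_zero_left]
  | insert a s ha ih => rw [Finset.sum_insert ha, Finset.sum_insert ha, Qj_add_left H, ih]

theorem Qj_sum_right (H : Nice κ M V) (X : Matrix ι ι ℝ) (j : ℕ) {β : Type*} (s : Finset β)
    (p : MvPolynomial ι ℝ) (q : β → MvPolynomial ι ℝ) :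
    Qj V X j p (∑ a ∈ s, q a) = ∑ a ∈ s, Qj V X j p (q a) := by
  classical
  induction s using Finset.induction_on with
  | empty => rw [Finset.sum_empty, Finset.sum_empty, GP2a_zero_right]
  | insert a s ha ih => rw [Finset.sum_insert ha, Finset.sum_insert ha, Qj_add_right H, ih]

theorem Qj_symm {X : Matrix ι ι ℝ} (hX : ∀ i k, X i k = X k i) (j : ℕ)
    (p q : MvPolynomial ι ℝ) : Qj V X j p q = Qj V X j q p := by
  induction j generalizing p q with
  | zero => rw [GP2a_zero, GP2a_zero, mul_comm]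
  | succ j ih =>
    rw [GP2a_succ, GP2a_succ, Finset.sum_comm]
    refine Finset.sum_congr rfl fun i _ => ?_
    refine Finset.sum_congr rfl fun k _ => ?_
    rw [ih, hX]

theorem Qj_diag_succ (S : ι → ℝ) (j : ℕ) (p q : MvPolynomial ι ℝ) :
    Qj V (Matrix.diagonal S) (j + 1) p q =
      ∑ k, S k * Qj V (Matrix.diagonal S) j (MvPolynomial.pderiv k p)
        (MvPolynomial.pderiv k q) := by
  rw [GP2a_succ]
  refine Finset.sum_congr rfl fun i _ => ?_
  rw [Finset.sum_eq_single i]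
  · rw [Matrix.diagonal_apply_eq]
  · intro k _ hk
    rw [Matrix.diagonal_apply_ne' _ hk, zero_mul]
  · intro h
    exact absurd (Finset.mem_univ i) h

private theorem GP2a_const_pderiv {p : MvPolynomial ι ℝ} (h : p.totalDegree = 0) (i : ι) :
    MvPolynomial.pderiv i p = 0 := by
  rw [MvPolynomial.totalDegree_eq_zero_iff_eq_C.1 h, MvPolynomial.pderiv_C]

/-- `D^j p = 0` for `j > deg p`. -/
theorem Qj_zero_of_deg (X : Matrix ι ι ℝ) {j : ℕ} {p : MvPolynomial ι ℝ}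
    (h : p.totalDegree < j) (q : MvPolynomial ι ℝ) : Qj V X j p q = 0 := by
  induction j generalizing p q with
  | zero => exact absurd h (Nat.not_lt_zero _)
  | succ j ih =>
    rw [GP2a_succ]
    refine Finset.sum_eq_zero fun i _ => Finset.sum_eq_zero fun k _ => ?_
    rcases Nat.eq_zero_or_pos p.totalDegree with h0 | h0
    · rw [GP2a_const_pderiv h0, GP2a_zero_left, mul_zero]
    · rw [ih (lt_of_le_of_lt (totalDegree_pderiv_le i p) (by omega)), mul_zero]

/-- Constants do not matter for `j ≥ 1`. -/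
theorem Qj_add_const (X : Matrix ι ι ℝ) {j : ℕ} (hj : 1 ≤ j) (p q : MvPolynomial ι ℝ) (a b : ℝ) :
    Qj V X j (p + MvPolynomial.C a) (q + MvPolynomial.C b) = Qj V X j p q := by
  obtain ⟨j, rfl⟩ : ∃ l, j = l + 1 := ⟨j - 1, by omega⟩
  rw [GP2a_succ, GP2a_succ]
  refine Finset.sum_congr rfl fun i _ => Finset.sum_congr rfl fun k _ => ?_
  rw [map_add, map_add, MvPolynomial.pderiv_C, MvPolynomial.pderiv_C, add_zero, add_zero]

end Pool.Agent.Lib.MP_8d00da_gt.h42k.G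
end

section

section

/-!
# The flow for polynomials (full KLS, part gamma): bounded families of polynomials

`BF b c p`: degree at most `b` and all coefficients at most `c` in absolute value.
-/

namespace Pool.Agent.Lib.MP_8d00da_gt.h42k.G

open MvPolynomial

set_option linter.unusedSectionVars false

variable {ι : Type} [Fintype ι] [DecidableEq ι]

/-- The exponents with all entries at most `b`. -/
noncomputable def bx (ι : Type) [Fintype ι] [DecidableEq ι] (b : ℕ) : Finset (ι →₀ ℕ) :=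
  Finset.Iic (Finsupp.equivFunOnFinite.symm fun _ : ι => b)

/-- The exponents of `p` are in `bx ι b` if `deg p ≤ b`. -/
theorem bx_support {b : ℕ} {p : MvPolynomial ι ℝ} (h : p.totalDegree ≤ b) :
    p.support ⊆ bx ι b := by
  intro γ hγ
  unfold bx
  rw [Finset.mem_Iic]
  intro i
  have h1 := le_totalDegree hγ
  have h2 : γ i ≤ γ.sum fun _ e => e := by
    by_cases hi : i ∈ γ.support
    · exact Finset.single_le_sum (f := fun j => γ j) (fun _ _ => Nat.zero_le _) hi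
    · simp [Finsupp.notMem_support_iff.mp hi]
  exact (h2.trans h1).trans h

theorem bx_sum {b : ℕ} {p : MvPolynomial ι ℝ} (h : p.totalDegree ≤ b) :
    p = ∑ γ ∈ bx ι b, monomial γ (p.coeff γ) := by
  conv_lhs => rw [p.as_sum]
  refine Finset.sum_subset (bx_support h) fun γ _ hγ => ?_
  rw [notMem_support_iff.mp hγ, monomial_zero]

theorem coeff_mul_le {b c' : ℕ} {c d : ℝ} {p q : MvPolynomial ι ℝ}
    (hp : p.totalDegree ≤ b ∧ ∀ γ, |p.coeff γ| ≤ c)
    (hq : q.totalDegree ≤ c' ∧ ∀ γ, |q.coeff γ| ≤ d) :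
    (p * q).totalDegree ≤ b + c' ∧
      ∀ γ, |(p * q).coeff γ| ≤ (bx ι b).card * ((bx ι c').card * (c * d)) := by
  have hc : 0 ≤ c := (abs_nonneg _).trans (hp.2 0)
  have hd : 0 ≤ d := (abs_nonneg _).trans (hq.2 0)
  refine ⟨(totalDegree_mul p q).trans (add_le_add hp.1 hq.1), fun γ => ?_⟩
  have e1 : p * q = ∑ α ∈ bx ι b, ∑ β ∈ bx ι c',
      monomial (α + β) (p.coeff α * q.coeff β) := by
    conv_lhs => rw [bx_sum hp.1, bx_sum hq.1]
    rw [Finset.sum_mul_sum]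
    refine Finset.sum_congr rfl fun α _ => Finset.sum_congr rfl fun β _ => ?_
    rw [monomial_mul]
  rw [e1, coeff_sum]
  refine (Finset.abs_sum_le_sum_abs _ _).trans ?_
  rw [← nsmul_eq_mul]
  refine Finset.sum_le_card_nsmul _ _ _ fun α _ => ?_
  rw [coeff_sum]
  refine (Finset.abs_sum_le_sum_abs _ _).trans ?_
  rw [← nsmul_eq_mul]
  refine Finset.sum_le_card_nsmul _ _ _ fun β _ => ?_
  rw [coeff_monomial]
  split_ifs
  · rw [abs_mul]
    exact mul_le_mul (hp.2 α) (hq.2 β) (abs_nonneg _) hc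
  · rw [abs_zero]
    positivity

theorem coeff_pderiv_le {b : ℕ} {c : ℝ} {p : MvPolynomial ι ℝ}
    (hp : p.totalDegree ≤ b ∧ ∀ γ, |p.coeff γ| ≤ c) (i : ι) (γ : ι →₀ ℕ) :
    |(pderiv i p).coeff γ| ≤ b * c := by
  have hc : 0 ≤ c := (abs_nonneg _).trans (hp.2 0)
  rw [coeff_pderiv, abs_mul]
  by_cases h : γ + Finsupp.single i 1 ∈ p.support
  · have h1 := bx_support hp.1 h
    unfold bx at h1
    rw [Finset.mem_Iic] at h1
    have h2 := h1 i
    simp only [Finsupp.coe_add, Pi.add_apply, Finsupp.single_eq_same,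
      Finsupp.equivFunOnFinite_symm_apply_apply] at h2
    have h3 : |((γ i : ℝ) + 1)| ≤ b := by
      rw [abs_of_nonneg (by positivity)]
      exact_mod_cast h2
    rw [mul_comm]
    exact mul_le_mul h3 (hp.2 _) (abs_nonneg _) (by positivity)
  · rw [notMem_support_iff.mp h, abs_zero, zero_mul]
    positivity

theorem coeff_C_mul_le {b : ℕ} {c : ℝ} {p : MvPolynomial ι ℝ}
    (hp : p.totalDegree ≤ b ∧ ∀ γ, |p.coeff γ| ≤ c) (a : ℝ) :
    (C a * p).totalDegree ≤ b ∧ ∀ γ, |(C a * p).coeff γ| ≤ |a| * c := by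
  refine ⟨(totalDegree_mul _ _).trans (by rw [totalDegree_C, zero_add]; exact hp.1), fun γ => ?_⟩
  rw [coeff_C_mul, abs_mul]
  exact mul_le_mul_of_nonneg_left (hp.2 γ) (abs_nonneg _)

theorem coeff_mul_X_le {b : ℕ} {c : ℝ} {p : MvPolynomial ι ℝ}
    (hp : p.totalDegree ≤ b ∧ ∀ γ, |p.coeff γ| ≤ c) (i : ι) :
    (p * X i).totalDegree ≤ b + 1 ∧ ∀ γ, |(p * X i).coeff γ| ≤ c := by
  have hc : 0 ≤ c := (abs_nonneg _).trans (hp.2 0)
  refine ⟨(totalDegree_mul _ _).trans (add_le_add hp.1 (totalDegree_X i).le), fun γ => ?_⟩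
  rw [coeff_mul_X']
  split_ifs
  · exact hp.2 _
  · rw [abs_zero]
    exact hc

theorem coeff_add_le {b b' : ℕ} {c c' : ℝ} {p q : MvPolynomial ι ℝ}
    (hp : p.totalDegree ≤ b ∧ ∀ γ, |p.coeff γ| ≤ c)
    (hq : q.totalDegree ≤ b' ∧ ∀ γ, |q.coeff γ| ≤ c') :
    (p + q).totalDegree ≤ max b b' ∧ ∀ γ, |(p + q).coeff γ| ≤ c + c' := by
  refine ⟨(totalDegree_add p q).trans (max_le_max hp.1 hq.1), fun γ => ?_⟩
  rw [coeff_add]
  exact (abs_add_le _ _).trans (add_le_add (hp.2 γ) (hq.2 γ))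

/-- The polynomial `X i` as a bounded family. -/
theorem coeff_X_le (i : ι) :
    (X i : MvPolynomial ι ℝ).totalDegree ≤ 1 ∧ ∀ γ, |(X i : MvPolynomial ι ℝ).coeff γ| ≤ 1 := by
  refine ⟨(totalDegree_X i).le, fun γ => ?_⟩
  rw [coeff_X]
  split_ifs <;> simp

theorem coeff_C_le (a : ℝ) :
    (C a : MvPolynomial ι ℝ).totalDegree ≤ 0 ∧ ∀ γ, |(C a : MvPolynomial ι ℝ).coeff γ| ≤ |a| := by
  refine ⟨(totalDegree_C a).le, fun γ => ?_⟩
  rw [coeff_C]
  split_ifs <;> simp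

/-- Uniform growth of a bounded family. -/
theorem eval_le {b : ℕ} {c : ℝ} {p : MvPolynomial ι ℝ}
    (hp : p.totalDegree ≤ b ∧ ∀ γ, |p.coeff γ| ≤ c) (x : ι → ℝ) :
    |MvPolynomial.eval x p| ≤
      (bx ι b).card * (c * (1 + ∑ i, x i ^ 2) ^ (b * Fintype.card ι)) := by
  have hc : 0 ≤ c := (abs_nonneg _).trans (hp.2 0)
  have h0 : 0 ≤ ∑ i, x i ^ 2 := Finset.sum_nonneg fun i _ => sq_nonneg _
  have e1 : MvPolynomial.eval x p = ∑ γ ∈ bx ι b, p.coeff γ * ∏ i, x i ^ γ i := by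
    conv_lhs => rw [bx_sum hp.1]
    rw [map_sum]
    refine Finset.sum_congr rfl fun γ _ => ?_
    rw [eval_monomial, Finsupp.prod_fintype]
    intro i
    exact pow_zero _
  rw [e1]
  refine (Finset.abs_sum_le_sum_abs _ _).trans ?_
  rw [← nsmul_eq_mul]
  refine Finset.sum_le_card_nsmul _ _ _ fun γ hγ => ?_
  rw [abs_mul]
  refine mul_le_mul (hp.2 γ) ?_ (abs_nonneg _) hc
  unfold bx at hγ
  rw [Finset.mem_Iic] at hγ
  have h1 : ∀ i, |x i| ≤ 1 + ∑ i, x i ^ 2 := by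
    intro i
    have h2 : x i ^ 2 ≤ ∑ i, x i ^ 2 :=
      Finset.single_le_sum (f := fun i => x i ^ 2) (fun i _ => sq_nonneg _) (Finset.mem_univ i)
    rw [abs_le]
    constructor <;> nlinarith [sq_nonneg (x i - 1), sq_nonneg (x i + 1)]
  rw [Finset.abs_prod]
  calc ∏ i, |x i ^ γ i| ≤ ∏ _i : ι, (1 + ∑ i, x i ^ 2) ^ b := by
        refine Finset.prod_le_prod (fun i _ => abs_nonneg _) fun i _ => ?_
        rw [abs_pow]
        refine (pow_le_pow_left₀ (abs_nonneg _) (h1 i) _).trans ?_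
        exact pow_le_pow_right₀ (by linarith) (hγ i)
    _ = (1 + ∑ i, x i ^ 2) ^ (b * Fintype.card ι) := by
        rw [Finset.prod_const, Finset.card_univ, ← pow_mul]

end Pool.Agent.Lib.MP_8d00da_gt.h42k.G
end

section

/-!
# The flow for polynomials (full KLS, part gamma): the uniform algebra: smoothness, derivatives, generator
-/

namespace Pool.Agent.Lib.MP_8d00da_gt.h42k.G

open MeasureTheory Set Filter
open scoped Topology NNReal ENNReal ContDiff
open Pool.Agent.Lib.MP_8d00da_gt.h42k.U (NF sw QT)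

set_option linter.unusedSectionVars false
set_option linter.unusedVariables false

variable {ι : Type} [Fintype ι] [DecidableEq ι]

variable {κ M : ℝ} {V : (ι → ℝ) → ℝ}

variable {D : Type} {Vd : D → (ι → ℝ) → ℝ} {κ₀ : ℝ}

private theorem GP5b_T0ev (p : MvPolynomial ι ℝ) : T0 (ev p) := by
  induction p using MvPolynomial.induction_on with
  | C a =>
    have e : ev (MvPolynomial.C a : MvPolynomial ι ℝ) = fun _ => a := by
      funext x
      simp [ev]
    rw [e]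
    exact T0.const a
  | add p q hp hq =>
    have e : ev (p + q) = fun x => ev p x + ev q x := by
      funext x
      simp [ev]
    rw [e]
    exact hp.add hq
  | mul_X p i hp =>
    have e : ev (p * MvPolynomial.X i) = fun x => ev p x * x i := by
      funext x
      simp [ev]
    rw [e]
    exact hp.mul (T0.coord i)

private theorem GP5b_mulX {p : D → MvPolynomial ι ℝ} {b : ℕ} {c : ℝ}
    (h : ∀ d, (p d).totalDegree ≤ b ∧ ∀ γ, |(p d).coeff γ| ≤ c) (i : ι) :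
    UA Vd (fun d s y => EP (Vd d) s (fun x => ev (p d) x * x i) y) := by
  have h1 : ∀ d, (p d * MvPolynomial.X i).totalDegree ≤ b + 1 ∧
      ∀ γ, |(p d * MvPolynomial.X i).coeff γ| ≤ c := by
    intro d
    refine ⟨?_, fun γ => ?_⟩
    · refine (MvPolynomial.totalDegree_mul _ _).trans ?_
      rw [MvPolynomial.totalDegree_X]
      exact Nat.add_le_add_right (h d).1 1
    · rw [MvPolynomial.coeff_mul_X']
      split_ifs
      · exact (h d).2 _
      · rw [abs_zero]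
        exact (abs_nonneg _).trans ((h d).2 γ)
  have h2 := UA.pol (Vd := Vd) (fun d => p d * MvPolynomial.X i) (b + 1) c h1
  have e : ∀ d, ev (p d * MvPolynomial.X i) = fun x => ev (p d) x * x i := by
    intro d
    funext x
    simp [ev]
  simp only [e] at h2
  exact h2

private theorem GP5b_Xbd (i : ι) (γ : ι →₀ ℕ) :
    |(MvPolynomial.X i : MvPolynomial ι ℝ).coeff γ| ≤ 1 := by
  rw [MvPolynomial.coeff_X']
  split_ifs <;> simp

private theorem GP5b_Xh (i : ι) : ∀ _ : D, (MvPolynomial.X i : MvPolynomial ι ℝ).totalDegree ≤ 1 ∧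
    ∀ γ, |(MvPolynomial.X i : MvPolynomial ι ℝ).coeff γ| ≤ 1 :=
  fun _ => ⟨(MvPolynomial.totalDegree_X i).le, GP5b_Xbd i⟩

private theorem GP5b_evX (i : ι) : ev (MvPolynomial.X i : MvPolynomial ι ℝ) = fun x => x i := by
  funext x
  simp [ev]

private theorem GP5b_epx (i : ι) : UA Vd (fun d s y => EP (Vd d) s (fun x => x i) y) := by
  have h := UA.pol (Vd := Vd) (fun _ => MvPolynomial.X i) 1 1 (GP5b_Xh i)
  simp only [GP5b_evX] at h
  exact h

private theorem GP5b_zero : UA Vd (fun _ _ _ => (0 : ℝ)) :=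
  UA.const (fun _ => 0) 0 (fun d => by simp)

theorem UA.al {Φ : D → ℝ → (ι → ℝ) → ℝ} (h : UA Vd Φ) (d : D) : AL (Vd d) (Φ d) := by
  induction h with
  | pol p b c hp => exact AL.ep _ (GP5b_T0ev (p d))
  | const c C hc => exact AL.const (c d)
  | add h1 h2 ih1 ih2 => exact ih1.add ih2
  | mul h1 h2 ih1 ih2 => exact ih1.mul ih2

theorem UA.cmul {Φ : D → ℝ → (ι → ℝ) → ℝ} (h : UA Vd Φ) (c : ℝ) :
    UA Vd (fun d s y => c * Φ d s y) :=
  (UA.const (fun _ => c) |c| (fun _ => le_rfl)).mul h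

theorem UA.sub {Φ Ψ : D → ℝ → (ι → ℝ) → ℝ} (h : UA Vd Φ) (h' : UA Vd Ψ) :
    UA Vd (fun d s y => Φ d s y - Ψ d s y) := by
  have e : (fun d s y => Φ d s y - Ψ d s y) = fun d s y => Φ d s y + (-1) * Ψ d s y := by
    funext d s y
    ring
  rw [e]
  exact h.add (h'.cmul (-1))

theorem UA.sum {α : Type*} (s : Finset α) {F : α → D → ℝ → (ι → ℝ) → ℝ}
    (h : ∀ a ∈ s, UA Vd (F a)) : UA Vd (fun d t y => ∑ a ∈ s, F a d t y) := by
  classical
  induction s using Finset.induction_on with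
  | empty =>
    simp only [Finset.sum_empty]
    exact GP5b_zero
  | insert a s ha ih =>
    simp only [Finset.sum_insert ha]
    exact (h a (Finset.mem_insert_self a s)).add
      (ih fun b hb => h b (Finset.mem_insert_of_mem hb))

/-- The covariance matrix is in the algebra. -/
theorem UA.cm (i k : ι) : UA Vd (fun d s y => CM (pt (Vd d) s y) i k) := by
  have h1 := GP5b_mulX (Vd := Vd) (GP5b_Xh i) k
  simp only [GP5b_evX] at h1
  exact h1.sub ((GP5b_epx i).mul (GP5b_epx k))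

private theorem GP5b_smooth (hU : UC κ₀ Vd) (h0 : 0 < κ₀) {Φ : D → ℝ → (ι → ℝ) → ℝ}
    (h : UA Vd Φ) (d : D) {s : ℝ} (hs : 0 ≤ s) (y : ι → ℝ) :
    ContDiffAt ℝ ∞ (fun p : ℝ × (ι → ℝ) => Φ d p.1 p.2) (s, y) := by
  obtain ⟨κ, M, hκ, H, _⟩ := hU d
  exact (h.al d).smooth H (by linarith) y

private theorem GP5b_diff (hU : UC κ₀ Vd) (h0 : 0 < κ₀) {Φ : D → ℝ → (ι → ℝ) → ℝ}
    (h : UA Vd Φ) (d : D) {s : ℝ} (hs : 0 ≤ s) : Differentiable ℝ (Φ d s) := by
  intro y
  have h1 := GP5b_smooth hU h0 h d hs y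
  have h2 : ContDiffAt ℝ ∞ (fun z : ι → ℝ => ((s, z) : ℝ × (ι → ℝ))) y :=
    contDiffAt_const.prodMk contDiffAt_id
  have h3 := ContDiffAt.comp y h1 h2
  exact h3.differentiableAt (by simp)

/-- Closed under `∂_i`. -/
theorem UA.pdx (hU : UC κ₀ Vd) (h0 : 0 < κ₀) {Φ : D → ℝ → (ι → ℝ) → ℝ} (h : UA Vd Φ) (i : ι) :
    ∃ Ψ, UA Vd Ψ ∧ ∀ d s, 0 ≤ s → ∀ y, pd i (Φ d s) y = Ψ d s y := by
  induction h with
  | pol p b c hp =>
    refine ⟨_, (GP5b_mulX hp i).sub ((UA.pol p b c hp).mul (GP5b_epx i)), fun d s hs y => ?_⟩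
    obtain ⟨κ, M, hκ, H, _⟩ := hU d
    exact EP_pd H (GP5b_T0ev (p d)) (by linarith) y i
  | const c C hc =>
    exact ⟨_, GP5b_zero, fun d s _ y => pd_const (c d) i y⟩
  | @add Φ₁ Φ₂ h1 h2 ih1 ih2 =>
    obtain ⟨Ψ₁, a1, e1⟩ := ih1
    obtain ⟨Ψ₂, a2, e2⟩ := ih2
    refine ⟨_, a1.add a2, fun d s hs y => ?_⟩
    have e := pd_add (GP5b_diff hU h0 h1 d hs) (GP5b_diff hU h0 h2 d hs) i y
    rw [e1 d s hs y, e2 d s hs y] at e
    exact e
  | @mul Φ₁ Φ₂ h1 h2 ih1 ih2 =>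
    obtain ⟨Ψ₁, a1, e1⟩ := ih1
    obtain ⟨Ψ₂, a2, e2⟩ := ih2
    refine ⟨_, (a1.mul h2).add (h1.mul a2), fun d s hs y => ?_⟩
    have e := pd_mul (GP5b_diff hU h0 h1 d hs) (GP5b_diff hU h0 h2 d hs) i y
    rw [e1 d s hs y, e2 d s hs y] at e
    exact e

private theorem GP5b_gnc (V : (ι → ℝ) → ℝ) (t c : ℝ) (y : ι → ℝ) :
    Gn V t (fun _ _ => c) y = 0 := by
  have e1 : ∀ i : ι, (pd i (fun _ : ι → ℝ => c) : (ι → ℝ) → ℝ) = fun _ => 0 := by
    intro i
    funext z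
    exact pd_const c i z
  simp only [Gn, e1, pd_const, deriv_const]
  simp

private theorem GP5b_gnadd {V : (ι → ℝ) → ℝ} {Φ Ψ : ℝ → (ι → ℝ) → ℝ} {t : ℝ} {y : ι → ℝ}
    (h1 : ∀ y, ContDiffAt ℝ ∞ (fun p : ℝ × (ι → ℝ) => Φ p.1 p.2) (t, y))
    (h2 : ∀ y, ContDiffAt ℝ ∞ (fun p : ℝ × (ι → ℝ) => Ψ p.1 p.2) (t, y)) :
    Gn V t (fun s y => Φ s y + Ψ s y) y = Gn V t Φ y + Gn V t Ψ y := by
  have hz : ∀ y, ContDiffAt ℝ ∞
      (fun p : ℝ × (ι → ℝ) => (fun (_ : ℝ) (_ : ι → ℝ) => (0 : ℝ)) p.1 p.2) (t, y) :=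
    fun y => contDiffAt_const
  have hn : ∀ y, ContDiffAt ℝ ∞
      (fun p : ℝ × (ι → ℝ) => (fun (s : ℝ) (y : ι → ℝ) => 0 - Ψ s y) p.1 p.2) (t, y) :=
    fun y => contDiffAt_const.sub (h2 y)
  have e1 := Gn_sub (V := V) (y := y) (Φ := fun _ _ => 0) hz h2
  have e2 := Gn_sub (V := V) (y := y) (Ψ := fun s y => 0 - Ψ s y) h1 hn
  have e3 : (fun (s : ℝ) (y : ι → ℝ) => Φ s y + Ψ s y) = fun s y => Φ s y - (0 - Ψ s y) := by
    funext s y
    ring
  rw [e3, e2, e1, GP5b_gnc]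
  ring

/-- Closed under the generator (`Gn_EP`, `Gn_mul`). -/
theorem UA.gn (hU : UC κ₀ Vd) (h0 : 0 < κ₀) {Φ : D → ℝ → (ι → ℝ) → ℝ} (h : UA Vd Φ) :
    ∃ Ψ, UA Vd Ψ ∧ ∀ d s, 0 ≤ s → ∀ y, Gn (Vd d) s (Φ d) y = Ψ d s y := by
  induction h with
  | pol p b c hp =>
    refine ⟨_, GP5b_zero, fun d s hs y => ?_⟩
    obtain ⟨κ, M, hκ, H, _⟩ := hU d
    exact Gn_EP H (GP5b_T0ev (p d)) (by linarith) y
  | const c C hc =>
    exact ⟨_, GP5b_zero, fun d s _ y => GP5b_gnc (Vd d) s (c d) y⟩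
  | @add Φ₁ Φ₂ h1 h2 ih1 ih2 =>
    obtain ⟨Ψ₁, a1, e1⟩ := ih1
    obtain ⟨Ψ₂, a2, e2⟩ := ih2
    refine ⟨_, a1.add a2, fun d s hs y => ?_⟩
    have e := GP5b_gnadd (V := Vd d) (y := y) (GP5b_smooth hU h0 h1 d hs)
      (GP5b_smooth hU h0 h2 d hs)
    rw [e1 d s hs y, e2 d s hs y] at e
    exact e
  | @mul Φ₁ Φ₂ h1 h2 ih1 ih2 =>
    obtain ⟨Ψ₁, a1, e1⟩ := ih1
    obtain ⟨Ψ₂, a2, e2⟩ := ih2
    have hp1 : ∀ i : ι, ∃ Ψ, UA Vd Ψ ∧ ∀ d s, 0 ≤ s → ∀ y, pd i (Φ₁ d s) y = Ψ d s y :=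
      fun i => UA.pdx hU h0 h1 i
    have hp2 : ∀ i : ι, ∃ Ψ, UA Vd Ψ ∧ ∀ d s, 0 ≤ s → ∀ y, pd i (Φ₂ d s) y = Ψ d s y :=
      fun i => UA.pdx hU h0 h2 i
    choose P1 b1 f1 using hp1
    choose P2 b2 f2 using hp2
    refine ⟨_, ((h1.mul a2).add (h2.mul a1)).add
      (UA.sum Finset.univ (F := fun i d s y => P1 i d s y * P2 i d s y)
        fun i _ => (b1 i).mul (b2 i)), fun d s hs y => ?_⟩
    have e := Gn_mul (V := Vd d) (y := y) (GP5b_smooth hU h0 h1 d hs)
      (GP5b_smooth hU h0 h2 d hs)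
    rw [e1 d s hs y, e2 d s hs y] at e
    refine e.trans ?_
    congr 1
    refine Finset.sum_congr rfl fun i _ => ?_
    rw [f1 i d s hs y, f2 i d s hs y]

end Pool.Agent.Lib.MP_8d00da_gt.h42k.G
end

section

/-!
# The flow for polynomials (full KLS, part gamma): Q_j in the channel: smoothness and gradient
-/

namespace Pool.Agent.Lib.MP_8d00da_gt.h42k.G

open MeasureTheory Set Filter
open scoped Topology NNReal ENNReal ContDiff
open Pool.Agent.Lib.MP_8d00da_gt.h42k.U (NF sw QT)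

set_option linter.unusedSectionVars false
set_option linter.unusedVariables false

variable {ι : Type} [Fintype ι] [DecidableEq ι]

variable {κ M : ℝ} {V : (ι → ℝ) → ℝ}

theorem Qj_AL (V : (ι → ℝ) → ℝ) (G : Matrix ι ι ℝ) (j : ℕ) (p q : MvPolynomial ι ℝ) :
    AL V (fun s y => Qj (pt V s y) (G + CM (pt V s y)) j p q) := by
  induction j generalizing p q with
  | zero =>
    exact (AL.ep (ev p) (ev_T0 p)).mul (AL.ep (ev q) (ev_T0 q))
  | succ j ih =>
    exact AL.sum Finset.univ fun i _ => AL.sum Finset.univ fun k _ =>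
      ((AL.const (G i k)).add (AL.cm V i k)).mul
        (ih (MvPolynomial.pderiv i p) (MvPolynomial.pderiv k q))

/-- `TC V s x_i x_k x_m y = TM (pt V s y) i k m`. -/
theorem TC_eq_TM (V : (ι → ℝ) → ℝ) (s : ℝ) (y : ι → ℝ) (i k m : ι) :
    TC V s (fun x => x i) (fun x => x k) (fun x => x m) y = TM (pt V s y) i k m := rfl

private theorem GP6a_diff (H : Nice κ M V) {Φ : ℝ → (ι → ℝ) → ℝ} (h : AL V Φ) {t : ℝ}
    (ht : -κ < t) : Differentiable ℝ (Φ t) := by
  intro y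
  have h1 := h.smooth H ht y
  have h2 : ContDiffAt ℝ ∞ (fun z : ι → ℝ => ((t, z) : ℝ × (ι → ℝ))) y :=
    contDiffAt_const.prodMk contDiffAt_id
  have h3 := ContDiffAt.comp y h1 h2
  exact h3.differentiableAt (by simp)

theorem Qj_pd (H : Nice κ M V) (G : Matrix ι ι ℝ) (m : ι) (j : ℕ) (p q : MvPolynomial ι ℝ)
    {s : ℝ} (s0 : 0 ≤ s) (y : ι → ℝ) :
    pd m (fun y => Qj (pt V s y) (G + CM (pt V s y)) j p q) y =
      dQ (pt V s y) (G + CM (pt V s y)) m j p q := by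
  have hs : -κ < s := by linarith [H.kpos]
  induction j generalizing p q with
  | zero =>
    have h1 : pd m (fun y => EP V s (ev p) y * EP V s (ev q) y) y =
        pd m (EP V s (ev p)) y * EP V s (ev q) y + EP V s (ev p) y * pd m (EP V s (ev q)) y :=
      pd_mul (GP6a_diff H (AL.ep (ev p) (ev_T0 p)) hs) (GP6a_diff H (AL.ep (ev q) (ev_T0 q)) hs)
        m y
    rw [EP_pd H (ev_T0 p) hs, EP_pd H (ev_T0 q) hs] at h1
    exact h1
  | succ j ih =>
    have hA : ∀ i k, AL V (fun s y => G i k + CM (pt V s y) i k) := fun i k =>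
      (AL.const (G i k)).add (AL.cm V i k)
    have hX : ∀ i k, Differentiable ℝ (fun y => G i k + CM (pt V s y) i k) := fun i k =>
      GP6a_diff H (hA i k) hs
    have hQ : ∀ i k, Differentiable ℝ (fun y => Qj (pt V s y) (G + CM (pt V s y)) j
        (MvPolynomial.pderiv i p) (MvPolynomial.pderiv k q)) := fun i k =>
      GP6a_diff H (Qj_AL V G j (MvPolynomial.pderiv i p) (MvPolynomial.pderiv k q)) hs
    have hT : ∀ i k, Differentiable ℝ (fun y => (G i k + CM (pt V s y) i k) *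
        Qj (pt V s y) (G + CM (pt V s y)) j
        (MvPolynomial.pderiv i p) (MvPolynomial.pderiv k q)) := fun i k => (hX i k).mul (hQ i k)
    have h1 : pd m (fun y => ∑ i, ∑ k, (G i k + CM (pt V s y) i k) *
        Qj (pt V s y) (G + CM (pt V s y)) j
        (MvPolynomial.pderiv i p) (MvPolynomial.pderiv k q)) y = ∑ i, ∑ k,
        (TM (pt V s y) i k m * Qj (pt V s y) (G + CM (pt V s y)) j
          (MvPolynomial.pderiv i p) (MvPolynomial.pderiv k q) +
        (G i k + CM (pt V s y) i k) * dQ (pt V s y) (G + CM (pt V s y)) m j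
          (MvPolynomial.pderiv i p) (MvPolynomial.pderiv k q)) := by
      rw [pd_sum Finset.univ (F := fun i y => ∑ k, (G i k + CM (pt V s y) i k) *
        Qj (pt V s y) (G + CM (pt V s y)) j
        (MvPolynomial.pderiv i p) (MvPolynomial.pderiv k q))
        (fun i _ => Differentiable.fun_sum fun k _ => hT i k)]
      refine Finset.sum_congr rfl fun i _ => ?_
      rw [pd_sum Finset.univ (F := fun k y => (G i k + CM (pt V s y) i k) *
        Qj (pt V s y) (G + CM (pt V s y)) j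
        (MvPolynomial.pderiv i p) (MvPolynomial.pderiv k q)) (fun k _ => hT i k)]
      refine Finset.sum_congr rfl fun k _ => ?_
      rw [pd_mul (hX i k) (hQ i k), ih]
      congr 2
      have hc : Differentiable ℝ (fun y => CM (pt V s y) i k) := GP6a_diff H (AL.cm V i k) hs
      have h2 : pd m (fun y => G i k + CM (pt V s y) i k) y =
          pd m (fun _ => G i k) y + pd m (fun y => CM (pt V s y) i k) y :=
        pd_add (differentiable_const _) hc m y
      rw [h2, pd_const, zero_add, CM_pd H hs, TC_eq_TM]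
    exact h1

end Pool.Agent.Lib.MP_8d00da_gt.h42k.G
end

section

/-!
# The flow for polynomials (full KLS, part gamma): Q_j in the channel: generator
-/

namespace Pool.Agent.Lib.MP_8d00da_gt.h42k.G

open MeasureTheory Set Filter
open scoped Topology NNReal ENNReal ContDiff
open Pool.Agent.Lib.MP_8d00da_gt.h42k.U (NF sw QT)

set_option linter.unusedSectionVars false
set_option linter.unusedVariables false

variable {ι : Type} [Fintype ι] [DecidableEq ι]

variable {κ M : ℝ} {V : (ι → ℝ) → ℝ}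

private theorem GP6b_const (V : (ι → ℝ) → ℝ) (t c : ℝ) (y : ι → ℝ) :
    Gn V t (fun _ _ => c) y = 0 := by
  have h1 : ∀ i, pd i (fun _ : ι → ℝ => c) = fun _ => 0 := fun i => by
    funext z
    simp [pd]
  have h2 : ∀ i, pd i (fun _ : ι → ℝ => (0 : ℝ)) = fun _ => 0 := fun i => by
    funext z
    simp [pd]
  unfold Gn
  simp only [h1, h2, deriv_const, mul_zero, Finset.sum_const_zero, add_zero]

private theorem GP6b_cmul {Φ : ℝ → (ι → ℝ) → ℝ} {t : ℝ} {y : ι → ℝ} (c : ℝ)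
    (h : ∀ y, ContDiffAt ℝ ∞ (fun p : ℝ × (ι → ℝ) => Φ p.1 p.2) (t, y)) :
    Gn V t (fun s y => c * Φ s y) y = c * Gn V t Φ y := by
  have h1 : ∀ i, pd i (fun _ : ι → ℝ => c) = fun _ => 0 := fun i => by
    funext z
    simp [pd]
  rw [Gn_mul (V := V) (Φ := fun _ _ => c) (Ψ := Φ) (fun y => contDiffAt_const) h, GP6b_const]
  simp only [h1, zero_mul, Finset.sum_const_zero, mul_zero, add_zero]

private theorem GP6b_add {Φ Ψ : ℝ → (ι → ℝ) → ℝ} {t : ℝ} {y : ι → ℝ}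
    (h1 : ∀ y, ContDiffAt ℝ ∞ (fun p : ℝ × (ι → ℝ) => Φ p.1 p.2) (t, y))
    (h2 : ∀ y, ContDiffAt ℝ ∞ (fun p : ℝ × (ι → ℝ) => Ψ p.1 p.2) (t, y)) :
    Gn V t (fun s y => Φ s y + Ψ s y) y = Gn V t Φ y + Gn V t Ψ y := by
  have e : (fun s y => Φ s y + Ψ s y) = fun s y => Φ s y - (-1) * Ψ s y := by
    funext s y
    ring
  have h3 : ∀ y, ContDiffAt ℝ ∞ (fun p : ℝ × (ι → ℝ) => (-1 : ℝ) * Ψ p.1 p.2) (t, y) :=
    fun y => contDiffAt_const.mul (h2 y)
  rw [e, Gn_sub (V := V) (Φ := Φ) (Ψ := fun s y => (-1) * Ψ s y) h1 h3, GP6b_cmul (-1) h2]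
  ring

private theorem GP6b_sum {α : Type} {F : α → ℝ → (ι → ℝ) → ℝ} {t : ℝ} (y : ι → ℝ)
    (S : Finset α)
    (h : ∀ a ∈ S, ∀ y, ContDiffAt ℝ ∞ (fun p : ℝ × (ι → ℝ) => F a p.1 p.2) (t, y)) :
    Gn V t (fun s y => ∑ a ∈ S, F a s y) y = ∑ a ∈ S, Gn V t (F a) y := by
  classical
  induction S using Finset.induction_on with
  | empty => simpa using GP6b_const V t 0 y
  | insert a S ha ih =>
    have e : (fun s y => ∑ b ∈ insert a S, F b s y) = fun s y => F a s y + ∑ b ∈ S, F b s y := by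
      funext s y
      rw [Finset.sum_insert ha]
    have h1 := h a (Finset.mem_insert_self a S)
    have h2 : ∀ b ∈ S, ∀ y, ContDiffAt ℝ ∞ (fun p : ℝ × (ι → ℝ) => F b p.1 p.2) (t, y) :=
      fun b hb => h b (Finset.mem_insert_of_mem hb)
    have h3 : ∀ y, ContDiffAt ℝ ∞ (fun p : ℝ × (ι → ℝ) => ∑ b ∈ S, F b p.1 p.2) (t, y) :=
      fun y => ContDiffAt.sum fun b hb => h2 b hb y
    rw [e, GP6b_add (V := V) (Φ := F a) (Ψ := fun s y => ∑ b ∈ S, F b s y) h1 h3, ih h2,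
      Finset.sum_insert ha]

/-- `Gn_mul`, `Gn_EP`, `Gn_CM`, `Gn` of sums and constants, `CM_pd`, `Qj_pd`. -/
theorem Qj_Gn (H : Nice κ M V) (G : Matrix ι ι ℝ) (j : ℕ) (p q : MvPolynomial ι ℝ)
    {s : ℝ} (s0 : 0 ≤ s) (y : ι → ℝ) :
    Gn V s (fun s y => Qj (pt V s y) (G + CM (pt V s y)) j p q) y =
      gQ (pt V s y) (G + CM (pt V s y)) j p q := by
  have hs : -κ < s := by linarith [H.kpos]
  induction j generalizing p q with
  | zero => exact Gn_EP_mul H (ev_T0 p) (ev_T0 q) hs y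
  | succ j ih =>
    have hA : ∀ i k, AL V (fun s y => G i k + CM (pt V s y) i k) := fun i k =>
      (AL.const (G i k)).add (AL.cm V i k)
    have hQ : ∀ i k, AL V (fun s y => Qj (pt V s y) (G + CM (pt V s y)) j
        (MvPolynomial.pderiv i p) (MvPolynomial.pderiv k q)) := fun i k =>
      Qj_AL V G j (MvPolynomial.pderiv i p) (MvPolynomial.pderiv k q)
    have hT : ∀ i k, AL V (fun s y => (G i k + CM (pt V s y) i k) *
        Qj (pt V s y) (G + CM (pt V s y)) j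
        (MvPolynomial.pderiv i p) (MvPolynomial.pderiv k q)) := fun i k => (hA i k).mul (hQ i k)
    have h1 : Gn V s (fun s y => ∑ i ∈ (Finset.univ : Finset ι), ∑ k ∈ (Finset.univ : Finset ι),
        (G i k + CM (pt V s y) i k) *
        Qj (pt V s y) (G + CM (pt V s y)) j
        (MvPolynomial.pderiv i p) (MvPolynomial.pderiv k q)) y = ∑ i, ∑ k,
        ((G i k + CM (pt V s y) i k) * gQ (pt V s y) (G + CM (pt V s y)) j
          (MvPolynomial.pderiv i p) (MvPolynomial.pderiv k q) -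
        (CM (pt V s y) * CM (pt V s y)) i k * Qj (pt V s y) (G + CM (pt V s y)) j
          (MvPolynomial.pderiv i p) (MvPolynomial.pderiv k q) +
        ∑ m, TM (pt V s y) i k m * dQ (pt V s y) (G + CM (pt V s y)) m j
          (MvPolynomial.pderiv i p) (MvPolynomial.pderiv k q)) := by
      rw [GP6b_sum (V := V) (F := fun i s y => ∑ k ∈ (Finset.univ : Finset ι),
        (G i k + CM (pt V s y) i k) * Qj (pt V s y) (G + CM (pt V s y)) j
        (MvPolynomial.pderiv i p) (MvPolynomial.pderiv k q)) y Finset.univ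
        (fun i _ y => (AL.sum Finset.univ fun k _ => hT i k).smooth H hs y)]
      refine Finset.sum_congr rfl fun i _ => ?_
      rw [GP6b_sum (V := V) (F := fun k s y =>
        (G i k + CM (pt V s y) i k) * Qj (pt V s y) (G + CM (pt V s y)) j
        (MvPolynomial.pderiv i p) (MvPolynomial.pderiv k q)) y Finset.univ
        (fun k _ y => (hT i k).smooth H hs y)]
      refine Finset.sum_congr rfl fun k _ => ?_
      rw [Gn_mul (V := V) (Φ := fun s y => G i k + CM (pt V s y) i k)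
        (Ψ := fun s y => Qj (pt V s y) (G + CM (pt V s y)) j
        (MvPolynomial.pderiv i p) (MvPolynomial.pderiv k q))
        (fun y => (hA i k).smooth H hs y) (fun y => (hQ i k).smooth H hs y), ih,
        GP6b_add (V := V) (Φ := fun _ _ => G i k) (Ψ := fun s y => CM (pt V s y) i k)
          (fun y => contDiffAt_const) (fun y => (AL.cm V i k).smooth H hs y), GP6b_const,
        Gn_CM H hs]
      have h3 : ∀ m, pd m (fun y => G i k + CM (pt V s y) i k) y = TM (pt V s y) i k m := by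
        intro m
        have hc : Differentiable ℝ (fun y => CM (pt V s y) i k) := by
          intro y
          have h1 := (AL.cm V i k).smooth H hs y
          have h2 : ContDiffAt ℝ ∞ (fun z : ι → ℝ => ((s, z) : ℝ × (ι → ℝ))) y :=
            contDiffAt_const.prodMk contDiffAt_id
          have h3 := ContDiffAt.comp y h1 h2
          exact h3.differentiableAt (by simp)
        have h2 : pd m (fun y => G i k + CM (pt V s y) i k) y =
            pd m (fun _ => G i k) y + pd m (fun y => CM (pt V s y) i k) y :=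
          pd_add (differentiable_const _) hc m y
        rw [h2, pd_const, zero_add, CM_pd H hs, TC_eq_TM]
      have h4 : ∀ m, pd m (fun y => Qj (pt V s y) (G + CM (pt V s y)) j
          (MvPolynomial.pderiv i p) (MvPolynomial.pderiv k q)) y =
          dQ (pt V s y) (G + CM (pt V s y)) m j
            (MvPolynomial.pderiv i p) (MvPolynomial.pderiv k q) := fun m =>
        Qj_pd H G m j _ _ s0 y
      have h5 : ∑ m, pd m ((fun s y => G i k + CM (pt V s y) i k) s) y *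
          pd m ((fun s y => Qj (pt V s y) (G + CM (pt V s y)) j
          (MvPolynomial.pderiv i p) (MvPolynomial.pderiv k q)) s) y =
          ∑ m, TM (pt V s y) i k m * dQ (pt V s y) (G + CM (pt V s y)) m j
            (MvPolynomial.pderiv i p) (MvPolynomial.pderiv k q) :=
        Finset.sum_congr rfl fun m _ => by rw [h3, h4]
      rw [h5, Matrix.mul_apply]
      ring
    exact h1

end Pool.Agent.Lib.MP_8d00da_gt.h42k.G
end

section

/-!
# The flow for polynomials (full KLS, part gamma): Q_j in the channel: uniform algebra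
-/

namespace Pool.Agent.Lib.MP_8d00da_gt.h42k.G

open MeasureTheory Set Filter
open scoped Topology NNReal ENNReal ContDiff
open Pool.Agent.Lib.MP_8d00da_gt.h42k.U (NF sw QT)

set_option linter.unusedSectionVars false
set_option linter.unusedVariables false

variable {ι : Type} [Fintype ι] [DecidableEq ι]

variable {κ M : ℝ} {V : (ι → ℝ) → ℝ}

variable {D : Type} {Vd : D → (ι → ℝ) → ℝ}

/-- For families of polynomials of degree at most `b` with coefficients bounded by `c`, and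
bounded `G`, the functions `Q_j` are in the uniform algebra. -/
theorem Qj_UA {b : ℕ} {c g : ℝ} {Gd : D → Matrix ι ι ℝ} (hG : ∀ d i k, |Gd d i k| ≤ g)
    (j : ℕ) {pd' qd : D → MvPolynomial ι ℝ}
    (hp : ∀ d, (pd' d).totalDegree ≤ b ∧ ∀ γ, |(pd' d).coeff γ| ≤ c)
    (hq : ∀ d, (qd d).totalDegree ≤ b ∧ ∀ γ, |(qd d).coeff γ| ≤ c) :
    UA Vd (fun d s y => Qj (pt (Vd d) s y) (Gd d + CM (pt (Vd d) s y)) j (pd' d) (qd d)) := by
  induction j generalizing c pd' qd with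
  | zero => exact UA.mul (UA.pol pd' b c hp) (UA.pol qd b c hq)
  | succ j ih =>
    have hd : ∀ (r : D → MvPolynomial ι ℝ),
        (∀ d, (r d).totalDegree ≤ b ∧ ∀ γ, |(r d).coeff γ| ≤ c) → ∀ i,
        ∀ d, (MvPolynomial.pderiv i (r d)).totalDegree ≤ b ∧
          ∀ γ, |(MvPolynomial.pderiv i (r d)).coeff γ| ≤ b * c := fun r hr i d =>
      ⟨((totalDegree_pderiv_le i (r d)).trans (Nat.sub_le _ _)).trans (hr d).1,
        fun γ => coeff_pderiv_le (hr d) i γ⟩
    refine UA.sum Finset.univ (F := fun i d s y => ∑ k, (Gd d + CM (pt (Vd d) s y)) i k *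
      Qj (pt (Vd d) s y) (Gd d + CM (pt (Vd d) s y)) j (MvPolynomial.pderiv i (pd' d))
        (MvPolynomial.pderiv k (qd d))) fun i _ => ?_
    refine UA.sum Finset.univ (F := fun k d s y => (Gd d + CM (pt (Vd d) s y)) i k *
      Qj (pt (Vd d) s y) (Gd d + CM (pt (Vd d) s y)) j (MvPolynomial.pderiv i (pd' d))
        (MvPolynomial.pderiv k (qd d))) fun k _ => ?_
    refine UA.mul ?_ (ih (hd pd' hp i) (hd qd hq k))
    exact UA.add (UA.const (fun d => Gd d i k) g fun d => hG d i k) (UA.cm i k)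

/-- The posterior variance. -/
theorem var_UA {b : ℕ} {c : ℝ} {pd' : D → MvPolynomial ι ℝ}
    (hp : ∀ d, (pd' d).totalDegree ≤ b ∧ ∀ γ, |(pd' d).coeff γ| ≤ c) :
    UA Vd (fun d s y => var (pt (Vd d) s y) (ev (pd' d))) := by
  have h1 : UA Vd (fun d s y => EP (Vd d) s (ev (pd' d * pd' d)) y) :=
    UA.pol (fun d => pd' d * pd' d) _ _ fun d => coeff_mul_le (hp d) (hp d)
  have h2 : UA Vd (fun d s y => EP (Vd d) s (ev (pd' d)) y) := UA.pol pd' b c hp
  have h3 := UA.sub h1 (UA.mul h2 h2)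
  have e : (fun d s y => EP (Vd d) s (ev (pd' d * pd' d)) y -
      EP (Vd d) s (ev (pd' d)) y * EP (Vd d) s (ev (pd' d)) y) =
      fun d s y => var (pt (Vd d) s y) (ev (pd' d)) := by
    funext d s y
    have e1 : ev (pd' d * pd' d) = fun x => ev (pd' d) x * ev (pd' d) x := by
      funext x
      unfold ev
      exact map_mul _ _ _
    rw [e1]
    rfl
  rw [← e]
  exact h3

end Pool.Agent.Lib.MP_8d00da_gt.h42k.G
end

section

/-!
# The flow for polynomials (full KLS, part gamma): the uniform algebra: moments in the channel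
-/

namespace Pool.Agent.Lib.MP_8d00da_gt.h42k.G

open MeasureTheory Set Filter
open scoped Topology NNReal ENNReal ContDiff
open Pool.Agent.Lib.MP_8d00da_gt.h42k.U (NF sw QT)

set_option linter.unusedSectionVars false
set_option linter.unusedVariables false

variable {ι : Type} [Fintype ι] [DecidableEq ι]

variable {κ M : ℝ} {V : (ι → ℝ) → ℝ}

variable {D : Type} {Vd : D → (ι → ℝ) → ℝ} {κ₀ : ℝ}

/-- `(E f)^(2^r) ≤ E f^(2^r)`. -/
theorem ex_pow_two_pow (H : Nice κ M V) {f : (ι → ℝ) → ℝ} (hf : T0 f) (r : ℕ) :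
    ex V f ^ (2 ^ r) ≤ ex V (fun x => f x ^ (2 ^ r)) := by
  induction r generalizing f with
  | zero => simp
  | succ r ih =>
    have h1 : ex V f ^ (2 ^ (r + 1)) = (ex V f ^ 2) ^ (2 ^ r) := by
      rw [← pow_mul]
      congr 1
      ring
    have h2 : (fun x => f x ^ (2 ^ (r + 1))) = fun x => (f x ^ 2) ^ (2 ^ r) := by
      funext x
      rw [← pow_mul]
      congr 1
      ring
    rw [h1, h2]
    exact (pow_le_pow_left₀ (sq_nonneg _) (ex_sq_le H hf) _).trans (ih (hf.pow 2))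

private theorem GP5c_even {r : ℕ} (hr : 1 ≤ r) : Even (2 ^ r) :=
  (even_two).pow_of_ne_zero (by omega)

private theorem GP5c_add {r : ℕ} (hr : 1 ≤ r) (a b : ℝ) :
    (a + b) ^ (2 ^ r) ≤ 2 ^ (2 ^ r) * (a ^ (2 ^ r) + b ^ (2 ^ r)) := by
  have he := GP5c_even hr
  have e1 : (a + b) ^ (2 ^ r) = |a + b| ^ (2 ^ r) := (he.pow_abs _).symm
  have e2 : a ^ (2 ^ r) = |a| ^ (2 ^ r) := (he.pow_abs _).symm
  have e3 : b ^ (2 ^ r) = |b| ^ (2 ^ r) := (he.pow_abs _).symm
  rw [e1, e2, e3]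
  have ha := abs_nonneg a
  have hb := abs_nonneg b
  have h1 : |a + b| ≤ 2 * max |a| |b| := by
    have h2 := abs_add_le a b
    have h3 := le_max_left |a| |b|
    have h4 := le_max_right |a| |b|
    linarith
  have h5 : |a + b| ^ (2 ^ r) ≤ (2 * max |a| |b|) ^ (2 ^ r) :=
    pow_le_pow_left₀ (abs_nonneg _) h1 _
  have h6 : (max |a| |b|) ^ (2 ^ r) ≤ |a| ^ (2 ^ r) + |b| ^ (2 ^ r) := by
    rcases le_total |a| |b| with h | h
    · rw [max_eq_right h]
      have := pow_nonneg ha (2 ^ r)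
      linarith
    · rw [max_eq_left h]
      have := pow_nonneg hb (2 ^ r)
      linarith
  rw [mul_pow] at h5
  exact h5.trans (mul_le_mul_of_nonneg_left h6 (by positivity))

/-- All moments `GE_s Φ^(2^r)`, `r ≥ 1`, are bounded uniformly for `s ≥ 0`.
(`ep`: `(E_{s,y} f)^(2^r) ≤ E_{s,y} f^(2^r)`, `GE_EP`, `mom_unif`, `mono_le`; products by
`GE_cs`; sums by `(a+b)^(2^r) ≤ 2^(2^r) (a^(2^r) + b^(2^r))`.) -/
theorem UA.gmom (hU : UC κ₀ Vd) (h0 : 0 < κ₀) {Φ : D → ℝ → (ι → ℝ) → ℝ} (h : UA Vd Φ) (r : ℕ)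
    (hr : 1 ≤ r) :
    ∃ C : ℝ, 0 ≤ C ∧ ∀ d s, 0 ≤ s → GE (Vd d) s (fun y => Φ d s y ^ (2 ^ r)) ≤ C := by
  have key : ∀ {Φ : D → ℝ → (ι → ℝ) → ℝ}, UA Vd Φ → ∀ d s, 0 ≤ s → T0 (Φ d s) := by
    intro Φ h d s hs
    obtain ⟨κ, M, hκ, H, -⟩ := hU d
    exact (UA.al h d).t0 H (by have := H.kpos; linarith)
  induction h generalizing r with
  | pol p b c hp =>
    set K : ℝ := (bx ι b).card * |c| with hK
    have hK0 : 0 ≤ K := by positivity
    obtain ⟨C, hC, hm⟩ := mom_unif ι h0 ((b * Fintype.card ι) * 2 ^ r)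
    refine ⟨K ^ (2 ^ r) * C, by positivity, fun d s hs => ?_⟩
    obtain ⟨κ, M, hκ, H, hmn⟩ := hU d
    have hκs : -κ < s := by have := H.kpos; linarith
    have hf : T0 (ev (p d)) := ev_T0 (p d)
    have h1 : GE (Vd d) s (fun y => EP (Vd d) s (ev (p d)) y ^ (2 ^ r)) ≤
        GE (Vd d) s (EP (Vd d) s (fun x => ev (p d) x ^ (2 ^ r))) :=
      GE_mono H ((EP_t0 H hf hκs).pow _) (EP_t0 H (hf.pow _) hκs) s fun y =>
        ex_pow_two_pow (H.ptn hκs y) hf r
    have h2 := GE_EP H (hf.pow (2 ^ r)) hs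
    have h3 : ex (Vd d) (fun x => ev (p d) x ^ (2 ^ r)) ≤
        ex (Vd d) (fun x => K ^ (2 ^ r) * (1 + sq x) ^ ((b * Fintype.card ι) * 2 ^ r)) := by
      refine ex_mono H (hf.pow _) ((((T0.const 1).add T0.sqf).pow _).cmul _) fun x => ?_
      have e1 := eval_le (hp d) x
      have e2 : |ev (p d) x| ≤ K * (1 + sq x) ^ (b * Fintype.card ι) := by
        refine e1.trans ?_
        have e3 : (0 : ℝ) ≤ 1 + sq x := by
          have : 0 ≤ sq x := Finset.sum_nonneg fun i _ => sq_nonneg _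
          linarith
        have e4 : c * (1 + sq x) ^ (b * Fintype.card ι) ≤
            |c| * (1 + sq x) ^ (b * Fintype.card ι) :=
          mul_le_mul_of_nonneg_right (le_abs_self c) (pow_nonneg e3 _)
        calc ((bx ι b).card : ℝ) * (c * (1 + ∑ i, x i ^ 2) ^ (b * Fintype.card ι))
            ≤ ((bx ι b).card : ℝ) * (|c| * (1 + sq x) ^ (b * Fintype.card ι)) :=
              mul_le_mul_of_nonneg_left e4 (Nat.cast_nonneg _)
          _ = K * (1 + sq x) ^ (b * Fintype.card ι) := by rw [hK, mul_assoc]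
      calc ev (p d) x ^ (2 ^ r) = |ev (p d) x| ^ (2 ^ r) :=
            ((GP5c_even hr).pow_abs _).symm
        _ ≤ (K * (1 + sq x) ^ (b * Fintype.card ι)) ^ (2 ^ r) :=
            pow_le_pow_left₀ (abs_nonneg _) e2 _
        _ = K ^ (2 ^ r) * (1 + sq x) ^ ((b * Fintype.card ι) * 2 ^ r) := by
            rw [mul_pow, ← pow_mul]
    rw [ex_cmul] at h3
    exact (h1.trans (h2.le.trans h3)).trans
      (mul_le_mul_of_nonneg_left (hm κ M (Vd d) hκ H hmn) (by positivity))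
  | const c C hc =>
    refine ⟨|C| ^ (2 ^ r), by positivity, fun d s hs => ?_⟩
    obtain ⟨κ, M, hκ, H, hmn⟩ := hU d
    have h1 : GE (Vd d) s (fun y => c d ^ (2 ^ r)) = c d ^ (2 ^ r) := GE_const H s _
    show GE (Vd d) s (fun y => c d ^ (2 ^ r)) ≤ _
    rw [h1, ← (GP5c_even hr).pow_abs]
    exact pow_le_pow_left₀ (abs_nonneg _) ((hc d).trans (le_abs_self C)) _
  | @add Φ Ψ h1 h2 ih1 ih2 =>
    obtain ⟨C1, hC1, k1⟩ := ih1 r hr
    obtain ⟨C2, hC2, k2⟩ := ih2 r hr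
    refine ⟨2 ^ (2 ^ r) * (C1 + C2), by positivity, fun d s hs => ?_⟩
    obtain ⟨κ, M, hκ, H, hmn⟩ := hU d
    have t1 := (key h1 d s hs).pow (2 ^ r)
    have t2 := (key h2 d s hs).pow (2 ^ r)
    have h3 : GE (Vd d) s (fun y => (Φ d s y + Ψ d s y) ^ (2 ^ r)) ≤
        GE (Vd d) s (fun y => 2 ^ (2 ^ r) * (Φ d s y ^ (2 ^ r) + Ψ d s y ^ (2 ^ r))) :=
      GE_mono H (((key h1 d s hs).add (key h2 d s hs)).pow _) ((t1.add t2).cmul _) s fun y =>
        GP5c_add hr _ _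
    have h4 : GE (Vd d) s (fun y => 2 ^ (2 ^ r) * (Φ d s y ^ (2 ^ r) + Ψ d s y ^ (2 ^ r))) =
        2 ^ (2 ^ r) * (GE (Vd d) s (fun y => Φ d s y ^ (2 ^ r)) +
          GE (Vd d) s (fun y => Ψ d s y ^ (2 ^ r))) := by
      rw [← GE_add H t1 t2 s, ← GE_cmul]
    rw [h4] at h3
    exact h3.trans (mul_le_mul_of_nonneg_left (add_le_add (k1 d s hs) (k2 d s hs))
      (by positivity))
  | @mul Φ Ψ h1 h2 ih1 ih2 =>
    obtain ⟨C1, hC1, k1⟩ := ih1 (r + 1) (by omega)
    obtain ⟨C2, hC2, k2⟩ := ih2 (r + 1) (by omega)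
    refine ⟨√(C1 * C2), Real.sqrt_nonneg _, fun d s hs => ?_⟩
    obtain ⟨κ, M, hκ, H, hmn⟩ := hU d
    have t1 := (key h1 d s hs).pow (2 ^ r)
    have t2 := (key h2 d s hs).pow (2 ^ r)
    have h3 := GE_cs H t1 t2 s
    have e1 : (fun y => (Φ d s y ^ (2 ^ r)) ^ 2) = fun y => Φ d s y ^ (2 ^ (r + 1)) := by
      funext y
      rw [← pow_mul]
      rfl
    have e2 : (fun y => (Ψ d s y ^ (2 ^ r)) ^ 2) = fun y => Ψ d s y ^ (2 ^ (r + 1)) := by
      funext y
      rw [← pow_mul]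
      rfl
    rw [e1, e2] at h3
    have e3 : (fun y => (Φ d s y * Ψ d s y) ^ (2 ^ r)) =
        fun y => Φ d s y ^ (2 ^ r) * Ψ d s y ^ (2 ^ r) := by
      funext y
      rw [mul_pow]
    show GE (Vd d) s (fun y => (Φ d s y * Ψ d s y) ^ (2 ^ r)) ≤ _
    rw [e3]
    refine Real.le_sqrt_of_sq_le (h3.trans ?_)
    exact mul_le_mul (k1 d s hs) (k2 d s hs)
      (GE_nonneg _ _ fun y => (GP5c_even (by omega : 1 ≤ r + 1)).pow_nonneg _) hC1

theorem UA.gabs (hU : UC κ₀ Vd) (h0 : 0 < κ₀) {Φ : D → ℝ → (ι → ℝ) → ℝ} (h : UA Vd Φ) :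
    ∃ C : ℝ, 0 ≤ C ∧ ∀ d s, 0 ≤ s → |GE (Vd d) s (Φ d s)| ≤ C := by
  obtain ⟨C, hC, k⟩ := UA.gmom hU h0 h 1 le_rfl
  refine ⟨√C, Real.sqrt_nonneg _, fun d s hs => ?_⟩
  obtain ⟨κ, M, hκ, H, hmn⟩ := hU d
  have ht : T0 (Φ d s) := (UA.al h d).t0 H (by have := H.kpos; linarith)
  have h1 := GE_cs H ht (T0.const (1 : ℝ)) s
  simp only [mul_one, one_pow] at h1
  rw [GE_const H s 1, mul_one] at h1
  have h2 := k d s hs
  rw [pow_one] at h2
  apply Real.abs_le_sqrt
  exact h1.trans h2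

end Pool.Agent.Lib.MP_8d00da_gt.h42k.G
end

section

/-!
# The flow for polynomials (full KLS, part gamma): the uniform algebra: Euler step
-/

namespace Pool.Agent.Lib.MP_8d00da_gt.h42k.G

open MeasureTheory Set Filter
open scoped Topology NNReal ENNReal ContDiff
open Pool.Agent.Lib.MP_8d00da_gt.h42k.U (NF sw QT)

set_option linter.unusedSectionVars false
set_option linter.unusedVariables false

variable {ι : Type} [Fintype ι] [DecidableEq ι]

variable {κ M : ℝ} {V : (ι → ℝ) → ℝ}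

variable {D : Type} {Vd : D → (ι → ℝ) → ℝ} {κ₀ : ℝ}

/-- The derivative of `GE_s Φ_s` is `GE_s Ψ_s`, `Ψ` in the uniform algebra. -/
private theorem GP5d_deriv (hU : UC κ₀ Vd) (h0 : 0 < κ₀) {Φ : D → ℝ → (ι → ℝ) → ℝ}
    (h : UA Vd Φ) :
    ∃ Ψ, UA Vd Ψ ∧ (∀ d s, 0 ≤ s → ∀ y, Gn (Vd d) s (Φ d) y = Ψ d s y) ∧
      (∀ d s, 0 < s → HasDerivAt (fun s => GE (Vd d) s (Φ d s)) (GE (Vd d) s (Ψ d s)) s) ∧
      (∀ d, ContinuousOn (fun s => GE (Vd d) s (Φ d s)) (Set.Ici 0)) ∧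
      (∀ d, GE (Vd d) 0 (Φ d 0) = Φ d 0 0) := by
  obtain ⟨Ψ, hΨ, hg⟩ := h.gn hU h0
  refine ⟨Ψ, hΨ, hg, ?_, ?_, ?_⟩
  · intro d s hs
    obtain ⟨κ, M, hκ, H, hm⟩ := hU d
    have h1 := (h.al d).generator H hs
    have h2 : Gn (Vd d) s (Φ d) = Ψ d s := funext fun y => hg d s hs.le y
    rw [h2] at h1
    exact h1
  · intro d
    obtain ⟨κ, M, hκ, H, hm⟩ := hU d
    exact (h.al d).GE_continuousOn H
  · intro d
    obtain ⟨κ, M, hκ, H, hm⟩ := hU d
    exact GE_zero H _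

/-- Order 1: `|GE_s Φ_s - Φ_0| ≤ C s`. -/
theorem UA.euler0 (hU : UC κ₀ Vd) (h0 : 0 < κ₀) {Φ : D → ℝ → (ι → ℝ) → ℝ} (h : UA Vd Φ) :
    ∃ C : ℝ, 0 ≤ C ∧ ∀ d s, 0 ≤ s → |GE (Vd d) s (Φ d s) - Φ d 0 0| ≤ C * s := by
  obtain ⟨Ψ, hΨ, -, hd, hc, hz⟩ := GP5d_deriv hU h0 h
  obtain ⟨C, hC, hb⟩ := hΨ.gabs hU h0
  refine ⟨C, hC, ?_⟩
  intro d s hs
  rcases hs.eq_or_lt with rfl | hs
  · rw [hz]
    simp
  · obtain ⟨c, hc1, hc2⟩ := exists_hasDerivAt_eq_slope (fun s => GE (Vd d) s (Φ d s))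
      (fun s => GE (Vd d) s (Ψ d s)) hs ((hc d).mono Set.Icc_subset_Ici_self)
      (fun x hx => hd d x hx.1)
    have h2 := hb d c hc1.1.le
    simp only [sub_zero, hz] at hc2
    rw [hc2, abs_div, abs_of_pos hs, div_le_iff₀ hs] at h2
    exact h2

/-- Order 2: `|GE_t Φ_t - Φ_0 - t (GΦ)_0| ≤ C t²`, uniformly in the family. -/
theorem UA.euler (hU : UC κ₀ Vd) (h0 : 0 < κ₀) {Φ : D → ℝ → (ι → ℝ) → ℝ} (h : UA Vd Φ) :
    ∃ C : ℝ, 0 ≤ C ∧ ∀ d t, 0 < t →
      |GE (Vd d) t (Φ d t) - Φ d 0 0 - t * Gn (Vd d) 0 (Φ d) 0| ≤ C * t ^ 2 := by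
  obtain ⟨Ψ, hΨ, hg, hd, hc, hz⟩ := GP5d_deriv hU h0 h
  obtain ⟨C, hC, hb⟩ := hΨ.euler0 hU h0
  refine ⟨C, hC, ?_⟩
  intro d t ht
  rw [hg d 0 le_rfl 0]
  obtain ⟨c, hc1, hc2⟩ := exists_hasDerivAt_eq_slope
    (fun s => GE (Vd d) s (Φ d s) - s * Ψ d 0 0)
    (fun s => GE (Vd d) s (Ψ d s) - 1 * Ψ d 0 0) ht
    (((hc d).mono Set.Icc_subset_Ici_self).sub (by fun_prop))
    (fun x hx => (hd d x hx.1).sub ((hasDerivAt_id x).mul_const _))
  have h2 := hb d c hc1.1.le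
  simp only [sub_zero, hz, one_mul, zero_mul] at hc2
  rw [hc2, abs_div, abs_of_pos ht, div_le_iff₀ ht] at h2
  have h3 : GE (Vd d) t (Φ d t) - Φ d 0 0 - t * Ψ d 0 0 =
      GE (Vd d) t (Φ d t) - t * Ψ d 0 0 - Φ d 0 0 := by ring
  rw [h3]
  refine h2.trans ?_
  have h4 : C * c * t ≤ C * t * t := by
    have := hc1.2.le
    have h5 : C * c ≤ C * t := mul_le_mul_of_nonneg_left this hC
    exact mul_le_mul_of_nonneg_right h5 ht.le
  exact h4.trans (le_of_eq (by ring))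

end Pool.Agent.Lib.MP_8d00da_gt.h42k.G
end

section

/-!
# The flow for polynomials (full KLS, part gamma): loss of variance in the channel
-/

namespace Pool.Agent.Lib.MP_8d00da_gt.h42k.G

open MeasureTheory Set Filter
open scoped Topology NNReal ENNReal ContDiff
open Pool.Agent.Lib.MP_8d00da_gt.h42k.U (NF sw QT)

set_option linter.unusedSectionVars false
set_option linter.unusedVariables false

variable {ι : Type} [Fintype ι] [DecidableEq ι]

variable {κ M : ℝ} {V : (ι → ℝ) → ℝ}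

private theorem GP8b_pt0 (V : (ι → ℝ) → ℝ) : pt V 0 0 = V := by
  funext x
  simp [pt, dt]

/-- The data of `var_loss`. -/
private def GP8b_D1 (ι : Type) [Fintype ι] [DecidableEq ι] (b : ℕ) (κ₀ c : ℝ) : Type :=
  {d : ℝ × ℝ × ((ι → ℝ) → ℝ) × MvPolynomial ι ℝ // κ₀ ≤ d.1 ∧ Nice d.1 d.2.1 d.2.2.1 ∧
    (∀ i, mn d.2.2.1 i = 0) ∧ d.2.2.2.totalDegree ≤ b ∧ ∀ γ, |d.2.2.2.coeff γ| ≤ c}

/-- The data of `Qj_growth`. -/
private def GP8b_D2 (ι : Type) [Fintype ι] [DecidableEq ι] (b : ℕ) (κ₀ c g : ℝ) : Type :=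
  {d : ℝ × ℝ × ((ι → ℝ) → ℝ) × Matrix ι ι ℝ × MvPolynomial ι ℝ // κ₀ ≤ d.1 ∧
    Nice d.1 d.2.1 d.2.2.1 ∧ (∀ i, mn d.2.2.1 i = 0) ∧ (∀ i k, |d.2.2.2.1 i k| ≤ g) ∧
    d.2.2.2.2.totalDegree ≤ b ∧ ∀ γ, |d.2.2.2.2.coeff γ| ≤ c}

/-- `GE_t Var_{t,y} p ≥ Var p - t ∑_m Cov(p,x_m)² - C t²`, uniformly for bounded coefficients. -/
theorem var_loss (ι : Type) [Fintype ι] [DecidableEq ι] (b : ℕ) {κ₀ c : ℝ} (h0 : 0 < κ₀) :
    ∃ C : ℝ, 0 ≤ C ∧ ∀ (κ M t : ℝ) (V : (ι → ℝ) → ℝ) (p : MvPolynomial ι ℝ), κ₀ ≤ κ →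
      Nice κ M V → (∀ i, mn V i = 0) → p.totalDegree ≤ b → (∀ γ, |p.coeff γ| ≤ c) → 0 < t →
      var V (ev p) - t * ∑ m, cov V (ev p) (fun x => x m) ^ 2 - C * t ^ 2 ≤
        GE V t (fun y => var (pt V t y) (ev p)) := by
  have hUC : UC κ₀ (fun d : GP8b_D1 ι b κ₀ c => d.1.2.2.1) := fun d =>
    ⟨d.1.1, d.1.2.1, d.2.1, d.2.2.1, d.2.2.2.1⟩
  have hUA : UA (fun d : GP8b_D1 ι b κ₀ c => d.1.2.2.1)
      (fun d s y => var (pt d.1.2.2.1 s y) (ev d.1.2.2.2)) :=
    var_UA (b := b) (c := c) (pd' := fun d : GP8b_D1 ι b κ₀ c => d.1.2.2.2)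
      (fun d => ⟨d.2.2.2.2.1, d.2.2.2.2.2⟩)
  obtain ⟨C, hC0, hC⟩ := hUA.euler hUC h0
  refine ⟨C, hC0, fun κ M t V p hκ hN hm hd hc ht => ?_⟩
  have h1 := hC ⟨(κ, M, V, p), hκ, hN, hm, hd, hc⟩ t ht
  simp only at h1
  have hT := ev_T0 p
  have h2 : Gn V 0 (fun s y => var (pt V s y) (ev p)) 0 =
      - ∑ m, cov V (ev p) (fun x => x m) ^ 2 := by
    have h3 := Gn_CP hN hT hT (t := 0) (by linarith [hN.kpos]) 0
    have h4 : (fun s y => CP V s (ev p) (ev p) y) = fun s y => var (pt V s y) (ev p) := rfl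
    rw [h4] at h3
    rw [h3]
    congr 1
    refine Finset.sum_congr rfl fun m _ => ?_
    unfold CP
    rw [GP8b_pt0, pow_two]
  rw [h2, GP8b_pt0] at h1
  have h5 := (abs_le.mp h1).1
  linarith

/-- Growth of `Q_j(G+A_t)`: `GE_t Q_j ≤ Q_j(G + A) + t gQ_j(G+A) + C t²`, uniformly. -/
theorem Qj_growth (ι : Type) [Fintype ι] [DecidableEq ι] (b j : ℕ) {κ₀ c g : ℝ} (h0 : 0 < κ₀) :
    ∃ C : ℝ, 0 ≤ C ∧ ∀ (κ M t : ℝ) (V : (ι → ℝ) → ℝ) (G : Matrix ι ι ℝ)
      (p : MvPolynomial ι ℝ), κ₀ ≤ κ → Nice κ M V → (∀ i, mn V i = 0) →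
      (∀ i k, |G i k| ≤ g) → p.totalDegree ≤ b → (∀ γ, |p.coeff γ| ≤ c) → 0 < t →
      GE V t (fun y => Qj (pt V t y) (G + CM (pt V t y)) j p p) ≤
        Qj V (G + CM V) j p p + t * gQ V (G + CM V) j p p + C * t ^ 2 := by
  have hUC : UC κ₀ (fun d : GP8b_D2 ι b κ₀ c g => d.1.2.2.1) := fun d =>
    ⟨d.1.1, d.1.2.1, d.2.1, d.2.2.1, d.2.2.2.1⟩
  have hUA : UA (fun d : GP8b_D2 ι b κ₀ c g => d.1.2.2.1)
      (fun d s y => Qj (pt d.1.2.2.1 s y) (d.1.2.2.2.1 + CM (pt d.1.2.2.1 s y)) j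
        d.1.2.2.2.2 d.1.2.2.2.2) :=
    Qj_UA (b := b) (c := c) (g := g) (Gd := fun d : GP8b_D2 ι b κ₀ c g => d.1.2.2.2.1)
      (fun d => d.2.2.2.2.1) j (pd' := fun d : GP8b_D2 ι b κ₀ c g => d.1.2.2.2.2)
      (qd := fun d : GP8b_D2 ι b κ₀ c g => d.1.2.2.2.2)
      (fun d => ⟨d.2.2.2.2.2.1, d.2.2.2.2.2.2⟩) (fun d => ⟨d.2.2.2.2.2.1, d.2.2.2.2.2.2⟩)
  obtain ⟨C, hC0, hC⟩ := hUA.euler hUC h0
  refine ⟨C, hC0, fun κ M t V G p hκ hN hm hG hd hc ht => ?_⟩
  have h1 := hC ⟨(κ, M, V, G, p), hκ, hN, hm, hG, hd, hc⟩ t ht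
  simp only at h1
  have h2 := Qj_Gn hN G j p p (le_refl (0 : ℝ)) 0
  rw [GP8b_pt0] at h2
  rw [h2, GP8b_pt0] at h1
  have h5 := (abs_le.mp h1).2
  linarith

end Pool.Agent.Lib.MP_8d00da_gt.h42k.G
end
end
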