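import Pool.Agent.Lib.MP_8d00da_gt.h42k.S6c

/-!
# Quadratic KLS with a universal constant (paper 344): definitions
-/

namespace Pool.Agent.Lib.MP_8d00da_gt.h42k.U

open MeasureTheory Set Filter
open scoped Topology NNReal ENNReal ContDiff

/-- `tr(B S B S)`; for `S ≥ 0` this is the square of the Hilbert-Schmidt norm of
`S^{1/2} B S^{1/2}`. -/
noncomputable def tq {ι : Type*} [Fintype ι] (B S : Matrix ι ι ℝ) : ℝ := (B * S * (B * S)).trace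

/-- `Q(τ, C)` (paper 344, U.0):
`Var_V ⟨B x̃, x̃⟩ ≤ C tr(B(1+A)B(1+A))` for all `V` with `D²V ≥ τ`, `A = Cov V`. -/
def QT (ι : Type) [Fintype ι] [DecidableEq ι] (τ C : ℝ) : Prop :=
  ∀ (M : ℝ) (V : (ι → ℝ) → ℝ), Nice τ M V → ∀ B : Matrix ι ι ℝ, (∀ i j, B i j = B j i) →
    var V (qf V B) ≤ C * tq B (1 + CM V)

/-- The weight `1 + (1 - 1/σ) α_i` (the diagonal entries of `S`). -/
noncomputable def sw {ι : Type*} (σ : ℝ) (α : ι → ℝ) (i : ι) : ℝ := 1 + (1 - 1 / σ) * α i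

/-- `∑ B_ij² S_i S_j` (`= tr(B S B S)` for `S = diag S_i`). -/
noncomputable def nB {ι : Type*} [Fintype ι] (S : ι → ℝ) (B : Matrix ι ι ℝ) : ℝ :=
  ∑ i, ∑ j, B i j ^ 2 * (S i * S j)

/-- The quadratic form `∑ B_ij x_i x_j` (not centred). -/
noncomputable def q0 {ι : Type*} [Fintype ι] (B : Matrix ι ι ℝ) (x : ι → ℝ) : ℝ :=
  ∑ i, ∑ j, B i j * x i * x j

/-- The normal form (paper 344, U.3), in coordinates in which the covariance matrix is diagonal: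
`D²V ≥ τ`, `E x = 0`, `Cov V = diag α`, `0 ≤ α < σ`, `D²V ≥ τ R⁻¹` with `R = 1 - A/σ`. -/
structure NF {ι : Type*} [Fintype ι] [DecidableEq ι] (τ σ M : ℝ) (V : (ι → ℝ) → ℝ)
    (α : ι → ℝ) : Prop where
  nice : Nice τ M V
  mean : ∀ i, mn V i = 0
  cm : CM V = Matrix.diagonal α
  nn : ∀ i, 0 ≤ α i
  lt : ∀ i, α i < σ
  lo : ∀ x u, τ * ∑ i, u i ^ 2 / (1 - α i / σ) ≤ hs V x u

/-- `δ(s,y)`: the Hilbert-Schmidt norm of `A(s,y) - Cov V`. -/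
noncomputable def dl {ι : Type*} [Fintype ι] [DecidableEq ι] (V : (ι → ℝ) → ℝ) (s : ℝ)
    (y : ι → ℝ) : ℝ :=
  √(∑ i, ∑ j, (CM (pt V s y) i j - CM V i j) ^ 2)

/-- Third central moments `κ_ijk(s,y)` of the law with potential `pt V s y`. -/
noncomputable def kp {ι : Type*} [Fintype ι] [DecidableEq ι] (V : (ι → ℝ) → ℝ) (s : ℝ)
    (y : ι → ℝ) (i j k : ι) : ℝ :=
  TM (pt V s y) i j k

/-- `∑_m tr(B κ_m B κ_m)`, `κ_m = (κ_jkm)_jk`. -/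
noncomputable def tk {ι : Type*} [Fintype ι] (B : Matrix ι ι ℝ) (κ : ι → ι → ι → ℝ) : ℝ :=
  ∑ m, tq B (Matrix.of fun j k => κ j k m)

/-- `Ψ(s,y) = ∑_jk B_jk a_j(s,y) Cov_{s,y}(f, x_k)`, `f = ⟨B x, x⟩`. -/
noncomputable def Ps {ι : Type*} [Fintype ι] [DecidableEq ι] (V : (ι → ℝ) → ℝ)
    (B : Matrix ι ι ℝ) (s : ℝ) (y : ι → ℝ) : ℝ :=
  ∑ j, ∑ k, B j k * (mn (pt V s y) j * cov (pt V s y) (q0 B) (fun x => x k))

end Pool.Agent.Lib.MP_8d00da_gt.h42k.U
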