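import Pool.Agent.Lib.MP_8d00da_gt.h42k.GP8b
import Pool.Agent.Lib.MP_8d00da_gt.h42k.UDefs
import Pool.Agent.Lib.MP_8d00da_gt.h42k.G49b

section

/-!
# Paper 344 (quadratic KLS with a universal constant): U.4 (a): quadratic forms at time s
-/

namespace Pool.Agent.Lib.MP_8d00da_gt.h42k.U

open MeasureTheory Set Filter
open scoped Topology NNReal ENNReal ContDiff

set_option linter.unusedSectionVars false
set_option linter.unusedVariables false

variable {ι : Type} [Fintype ι] [DecidableEq ι]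

variable {τ σ M K : ℝ} {V : (ι → ℝ) → ℝ} {α : ι → ℝ}

theorem dl_nonneg (V : (ι → ℝ) → ℝ) (s : ℝ) (y : ι → ℝ) : 0 ≤ dl V s y := Real.sqrt_nonneg _

theorem dl_sq (V : (ι → ℝ) → ℝ) (s : ℝ) (y : ι → ℝ) :
    dl V s y ^ 2 = ∑ i, ∑ j, (CM (pt V s y) i j - CM V i j) ^ 2 :=
  Real.sq_sqrt (Finset.sum_nonneg fun i _ => Finset.sum_nonneg fun j _ => sq_nonneg _)

/-- The Hessian form of a tilt. -/
private theorem U3a_hs_pt (hc : ContDiff ℝ 2 V) (s : ℝ) (y x u : ι → ℝ) :
    hs (pt V s y) x u = hs V x u + s * sq u := by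
  have hVd : Differentiable ℝ V := hc.differentiable (by norm_num)
  have h1 : ∀ j : ι, pd j (pt V s y) = fun x => (pd j V x + s * x j) - y j := by
    intro j
    funext x
    exact pd_pt hVd s y x j
  have h2 : ∀ i j : ι, pd i (pd j (pt V s y)) x =
      pd i (pd j V) x + s * if i = j then 1 else 0 := by
    intro i j
    have hcd : Differentiable ℝ (fun x : ι → ℝ => x j) :=
      (T1.coord j).c1.differentiable (by norm_num)
    have hp : Differentiable ℝ (pd j V) :=
      (contDiff_pd (n := 1) (by exact_mod_cast hc) j).differentiable (by norm_num)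
    have k1 : pd i (fun x => (pd j V x + s * x j) - y j) x =
        pd i (fun x => pd j V x + s * x j) x - pd i (fun _ => y j) x :=
      pd_sub (f := fun x => pd j V x + s * x j) (g := fun _ => y j) (hp.fun_add (hcd.const_mul s))
        (differentiable_const _) i x
    have k2 : pd i (fun x => pd j V x + s * x j) x = pd i (pd j V) x + pd i (fun x => s * x j) x :=
      pd_add (f := pd j V) (g := fun x => s * x j) hp (hcd.const_mul s) i x
    rw [h1, k1, k2, pd_cmul hcd, pd_coord, pd_const]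
    ring
  unfold hs sq
  rw [Finset.mul_sum, ← Finset.sum_add_distrib]
  refine Finset.sum_congr rfl fun i _ => ?_
  simp only [h2, mul_add, Finset.sum_add_distrib]
  congr 1
  rw [Finset.sum_eq_single i]
  · rw [if_pos rfl]
    ring
  · intro j _ hj
    rw [if_neg (Ne.symm hj)]
    ring
  · intro h
    exact absurd (Finset.mem_univ i) h

/-- The Hessian of a tilt: `D²(pt V s y) = D²V + s`. -/
theorem NF.lo_pt (h : NF τ σ M V α) {s : ℝ} (s0 : 0 ≤ s) (y x u : ι → ℝ) :
    τ * ∑ i, u i ^ 2 / (1 - α i / σ) + s * sq u ≤ hs (pt V s y) x u := by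
  rw [U3a_hs_pt h.nice.c2]
  linarith [h.lo x u]

/-- `⟨(A_s - A) w, w⟩ ≤ δ |w|²`. -/
theorem dl_quad (V : (ι → ℝ) → ℝ) (s : ℝ) (y w : ι → ℝ) :
    |∑ i, ∑ j, w i * (CM (pt V s y) i j - CM V i j) * w j| ≤ dl V s y * sq w := by
  apply abs_le_of_sq_le_sq _ (mul_nonneg (dl_nonneg V s y) (sq_nn w))
  have h1 := Finset.sum_mul_sq_le_sq_mul_sq (Finset.univ : Finset (ι × ι))
    (fun p => CM (pt V s y) p.1 p.2 - CM V p.1 p.2) (fun p => w p.1 * w p.2)
  rw [Fintype.sum_prod_type, Fintype.sum_prod_type, Fintype.sum_prod_type] at h1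
  have h2 : ∑ i, ∑ j, (w i * w j) ^ 2 = sq w ^ 2 := by
    rw [pow_two (sq w)]
    unfold sq
    rw [Finset.sum_mul_sum]
    exact Finset.sum_congr rfl fun i _ => Finset.sum_congr rfl fun j _ => by ring
  have h3 : ∑ i, ∑ j, w i * (CM (pt V s y) i j - CM V i j) * w j =
      ∑ i, ∑ j, (CM (pt V s y) i j - CM V i j) * (w i * w j) :=
    Finset.sum_congr rfl fun i _ => Finset.sum_congr rfl fun j _ => by ring
  rw [h3, mul_pow, dl_sq, ← h2]
  exact h1

/-- `⟨A_s w, w⟩` in the normal form. -/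
private theorem U3a_form (h : NF τ σ M V α) (s : ℝ) (y w : ι → ℝ) :
    ∑ i, ∑ j, w i * CM (pt V s y) i j * w j = ∑ i, w i ^ 2 * α i +
      ∑ i, ∑ j, w i * (CM (pt V s y) i j - CM V i j) * w j := by
  have h1 : ∑ i, w i ^ 2 * α i = ∑ i, ∑ j, w i * CM V i j * w j := by
    refine Finset.sum_congr rfl fun i _ => ?_
    rw [h.cm, Finset.sum_eq_single i]
    · rw [Matrix.diagonal_apply_eq]
      ring
    · intro j _ hj
      rw [Matrix.diagonal_apply_ne _ (Ne.symm hj)]
      ring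
    · intro h
      exact absurd (Finset.mem_univ i) h
  rw [h1, ← Finset.sum_add_distrib]
  refine Finset.sum_congr rfl fun i _ => ?_
  rw [← Finset.sum_add_distrib]
  exact Finset.sum_congr rfl fun j _ => by ring

private theorem U3a_sq_le (h : NF τ σ M V α) (hσ : 2 ≤ σ) (w : ι → ℝ) :
    sq w ≤ ∑ i, w i ^ 2 * sw σ α i := by
  unfold sq
  refine Finset.sum_le_sum fun i _ => ?_
  exact le_mul_of_one_le_right (sq_nonneg _) (h.sw_facts hσ i).1

/-- `⟨A_s w, w⟩ = Var_{s,y}(w·x) ≤ (2+δ) ∑ S_i w_i²`. -/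
theorem NF.var_dt_le (h : NF τ σ M V α) (hσ : 2 ≤ σ) {s : ℝ} (s0 : 0 ≤ s) (y w : ι → ℝ) :
    var (pt V s y) (fun x => dt w x) ≤ (2 + dl V s y) * ∑ i, w i ^ 2 * sw σ α i := by
  have hn := h.nice.ptn (t := s) (by linarith [h.nice.kpos]) y
  have h1 : var (pt V s y) (fun x => dt w x) = ∑ i, ∑ j, w i * CM (pt V s y) i j * w j := by
    rw [var_dt hn]
    exact Finset.sum_congr rfl fun i _ => Finset.sum_congr rfl fun j _ => by ring
  rw [h1, U3a_form h]
  have h2 : ∑ i, w i ^ 2 * α i ≤ 2 * ∑ i, w i ^ 2 * sw σ α i := by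
    rw [Finset.mul_sum]
    refine Finset.sum_le_sum fun i _ => ?_
    have := mul_le_mul_of_nonneg_left (h.sw_facts hσ i).2.2.1 (sq_nonneg (w i))
    linarith
  have h3 := (abs_le.1 (dl_quad V s y w)).2
  have h4 := mul_le_mul_of_nonneg_left (U3a_sq_le h hσ w) (dl_nonneg V s y)
  rw [add_mul]
  linarith

/-- U.4 (a): `QT.lin` for `pt V s y` with `r_i = 1 - α_i/σ`, and `R + A_s ≤ (1+δ) S`
(`tq_mono`, `tq_smul`, `tq_diag`). -/
theorem NF.quad_pt (h : NF τ σ M V α) (hσ : 2 ≤ σ) (hQ : QT ι τ K) (hK : 0 ≤ K) {s : ℝ}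
    (s0 : 0 ≤ s) (y : ι → ℝ) {D : Matrix ι ι ℝ} (hD : ∀ i j, D i j = D j i) :
    var (pt V s y) (qf (pt V s y) D) ≤ K * (1 + dl V s y) ^ 2 * nB (sw σ α) D := by
  have hτ := h.nice.kpos
  have hn := h.nice.ptn (t := s) (by linarith) y
  have hr : ∀ i, 0 < 1 - α i / σ := fun i => (h.sw_facts hσ i).2.2.2.1
  have h1 : var (pt V s y) (qf (pt V s y) D) ≤
      K * tq D (Matrix.diagonal (fun i => 1 - α i / σ) + CM (pt V s y)) := by
    refine QT.lin hτ hQ hn hr (fun x u => ?_) hD
    have h2 := h.lo_pt s0 y x u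
    have h3 := mul_nonneg s0 (sq_nn u)
    linarith
  have hX : PSD (Matrix.diagonal (fun i => 1 - α i / σ) + CM (pt V s y)) :=
    diag_add_CM_psd hn fun i => (hr i).le
  have hXY : PSD ((1 + dl V s y) • Matrix.diagonal (sw σ α) -
      (Matrix.diagonal (fun i => 1 - α i / σ) + CM (pt V s y))) := by
    constructor
    · rw [Matrix.transpose_sub, Matrix.transpose_smul, Matrix.diagonal_transpose, hX.symm]
    · intro w
      have h4 : ∀ (D1 : Matrix ι ι ℝ) (d2 : ι → ℝ) (c : ℝ), ∑ i, ∑ j, w i *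
          (c • Matrix.diagonal (sw σ α) - (Matrix.diagonal d2 + D1)) i j * w j =
          c * ∑ i, w i ^ 2 * sw σ α i - ∑ i, w i ^ 2 * d2 i - ∑ i, ∑ j, w i * D1 i j * w j := by
        intro D1 d2 c
        rw [Finset.mul_sum, ← Finset.sum_sub_distrib, ← Finset.sum_sub_distrib]
        refine Finset.sum_congr rfl fun i _ => ?_
        have e1 : ∀ d3 : ι → ℝ, w i ^ 2 * d3 i = ∑ j, w i * Matrix.diagonal d3 i j * w j := by
          intro d3
          rw [Finset.sum_eq_single i]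
          · rw [Matrix.diagonal_apply_eq]
            ring
          · intro j _ hj
            rw [Matrix.diagonal_apply_ne _ (Ne.symm hj)]
            ring
          · intro h
            exact absurd (Finset.mem_univ i) h
        rw [e1 (sw σ α), e1 d2, Finset.mul_sum, ← Finset.sum_sub_distrib, ← Finset.sum_sub_distrib]
        refine Finset.sum_congr rfl fun j _ => ?_
        rw [Matrix.sub_apply, Matrix.add_apply, Matrix.smul_apply, smul_eq_mul]
        ring
      rw [h4, U3a_form h]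
      have h5 : ∑ i, w i ^ 2 * (1 - α i / σ) + ∑ i, w i ^ 2 * α i = ∑ i, w i ^ 2 * sw σ α i := by
        rw [← Finset.sum_add_distrib]
        refine Finset.sum_congr rfl fun i _ => ?_
        rw [← (h.sw_facts hσ i).2.2.2.2.2]
        ring
      have h6 := (abs_le.1 (dl_quad V s y w)).2
      have h7 := mul_le_mul_of_nonneg_left (U3a_sq_le h hσ w) (dl_nonneg V s y)
      have h8 : (1 + dl V s y) * ∑ i, w i ^ 2 * sw σ α i = ∑ i, w i ^ 2 * sw σ α i +
        dl V s y * ∑ i, w i ^ 2 * sw σ α i := by ring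
      linarith
  have h9 := tq_mono hD hX hXY
  rw [tq_smul, tq_diag hD] at h9
  have h10 := mul_le_mul_of_nonneg_left h9 hK
  calc var (pt V s y) (qf (pt V s y) D)
      ≤ K * tq D (Matrix.diagonal (fun i => 1 - α i / σ) + CM (pt V s y)) := h1
    _ ≤ K * ((1 + dl V s y) ^ 2 * nB (sw σ α) D) := h10
    _ = K * (1 + dl V s y) ^ 2 * nB (sw σ α) D := by ring

end Pool.Agent.Lib.MP_8d00da_gt.h42k.U
end

section

/-!
# Paper 344 (quadratic KLS with a universal constant): U.5: the posterior mean and variance in the channel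
-/

namespace Pool.Agent.Lib.MP_8d00da_gt.h42k.U

open MeasureTheory Set Filter
open scoped Topology NNReal ENNReal ContDiff

set_option linter.unusedSectionVars false
set_option linter.unusedVariables false

variable {ι : Type} [Fintype ι] [DecidableEq ι]

variable {κ M : ℝ} {V : (ι → ℝ) → ℝ}

private theorem U4c_pt_zero (V : (ι → ℝ) → ℝ) : pt V 0 0 = V := by
  funext x
  unfold pt dt
  simp

private theorem U4c_dt_single (i : ι) : (fun x : ι → ℝ => dt (Pi.single i 1) x) = fun x => x i := by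
  funext x
  unfold dt
  simp [Pi.single_apply]

private theorem U4c_sq_single (i : ι) : sq (Pi.single i 1 : ι → ℝ) = 1 := by
  unfold sq
  simp [Pi.single_apply]

/-- `∑_k Cov(x_i, x_k)² ≤ 1/κ²`. -/
private theorem U4c_cov (H : Nice κ M V) (i : ι) :
    ∑ k, cov V (fun x => x i) (fun x => x k) ^ 2 ≤ (1 / κ) ^ 2 := by
  have hκ := H.kpos
  have hC := s6_CLe_kappa H
  have h1 := hC.cov_sq H (T0.coord i)
  have h2 := hC (Pi.single i 1)
  rw [U4c_dt_single, U4c_sq_single, mul_one] at h2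
  have h3 : (0 : ℝ) ≤ 1 / κ := by positivity
  calc _ ≤ 1 / κ * var V (fun x => x i) := h1
    _ ≤ 1 / κ * (1 / κ) := mul_le_mul_of_nonneg_left h2 h3
    _ = (1 / κ) ^ 2 := by ring

private theorem U4c_one (H : Nice κ M V) {κ₀ : ℝ} (h0 : 0 < κ₀) (hκ₀ : κ₀ ≤ κ) (i : ι)
    (hm : mn V i = 0) {s : ℝ} (s0 : 0 ≤ s) :
    GE V s (fun y => EP V s (fun x => x i) y * EP V s (fun x => x i) y) ≤ (1 / κ₀) ^ 2 * s := by
  have hκ := H.kpos
  set φ : ℝ → ℝ := fun s => GE V s (fun y => EP V s (fun x => x i) y * EP V s (fun x => x i) y)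
    with hφ
  have hAL : AL V (fun t y => EP V t (fun x => x i) y * EP V t (fun x => x i) y) :=
    (AL.ep _ (T0.coord i)).mul (AL.ep _ (T0.coord i))
  have hc : ContinuousOn φ (Ici 0) := AL.GE_continuousOn H hAL
  have hd : ∀ t : ℝ, 0 < t → HasDerivAt φ
      (GE V t (fun y => ∑ k, CP V t (fun x => x i) (fun x => x k) y *
        CP V t (fun x => x i) (fun x => x k) y)) t :=
    fun t ht => GE_EP_mul_hasDerivAt H (T0.coord i) (T0.coord i) ht
  have hle : ∀ t : ℝ, 0 < t → GE V t (fun y => ∑ k, CP V t (fun x => x i) (fun x => x k) y *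
        CP V t (fun x => x i) (fun x => x k) y) ≤ (1 / κ₀) ^ 2 := by
    intro t ht
    have htκ : -κ < t := by linarith
    have h1 : T0 (fun y => ∑ k, CP V t (fun x => x i) (fun x => x k) y *
        CP V t (fun x => x i) (fun x => x k) y) :=
      T0.sum _ fun k _ => (CP_t0 H (T0.coord i) (T0.coord k) htκ).mul
        (CP_t0 H (T0.coord i) (T0.coord k) htκ)
    have h2 := GE_mono H h1 (T0.const ((1 / κ₀) ^ 2)) t fun y => by
      have h3 := U4c_cov (H.ptn htκ y) i
      have h4 : (1 / (κ + t)) ^ 2 ≤ (1 / κ₀) ^ 2 := by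
        have h5 : 1 / (κ + t) ≤ 1 / κ₀ := one_div_le_one_div_of_le h0 (by linarith)
        have h6 : (0 : ℝ) ≤ 1 / (κ + t) := by positivity
        exact pow_le_pow_left₀ h6 h5 2
      calc (∑ k, CP V t (fun x => x i) (fun x => x k) y *
            CP V t (fun x => x i) (fun x => x k) y)
          = ∑ k, cov (pt V t y) (fun x => x i) (fun x => x k) ^ 2 := by
            refine Finset.sum_congr rfl fun k _ => ?_
            unfold CP
            ring
        _ ≤ (1 / (κ + t)) ^ 2 := h3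
        _ ≤ (1 / κ₀) ^ 2 := h4
    rw [GE_const H] at h2
    exact h2
  have hint : interior (Ici (0 : ℝ)) = Ioi 0 := interior_Ici
  have h := (convex_Ici (0 : ℝ)).image_sub_le_mul_sub_of_deriv_le hc
    (by
      rw [hint]
      exact fun t ht => (hd t ht).differentiableAt.differentiableWithinAt)
    (C := (1 / κ₀) ^ 2)
    (by
      rw [hint]
      intro t ht
      rw [(hd t ht).deriv]
      exact hle t ht) 0 self_mem_Ici s s0 s0
  have e0 : φ 0 = 0 := by
    rw [hφ]
    change GE V 0 (fun y => EP V 0 (fun x => x i) y * EP V 0 (fun x => x i) y) = 0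
    rw [GE_zero H]
    change EP V 0 (fun x => x i) 0 * EP V 0 (fun x => x i) 0 = 0
    unfold EP
    rw [U4c_pt_zero]
    have : ex V (fun x => x i) = 0 := hm
    rw [this, mul_zero]
  rw [e0, sub_zero, sub_zero] at h
  exact h

/-- `GE_s |a_s|² ≤ C s` if `E x = 0` (`GE_EP_mul_hasDerivAt`). -/
theorem GE_mn_sq (ι : Type) [Fintype ι] [DecidableEq ι] {κ₀ : ℝ} (h0 : 0 < κ₀) :
    ∃ C : ℝ, 0 ≤ C ∧ ∀ (κ M : ℝ) (V : (ι → ℝ) → ℝ), κ₀ ≤ κ → Nice κ M V →
      (∀ i, mn V i = 0) → ∀ s : ℝ, 0 ≤ s →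
      GE V s (fun y => ∑ i, mn (pt V s y) i ^ 2) ≤ C * s := by
  refine ⟨Fintype.card ι * (1 / κ₀) ^ 2, by positivity, ?_⟩
  intro κ M V hκ₀ H hm s s0
  have hκ := H.kpos
  have hsκ : -κ < s := by linarith
  have e1 : (fun y => ∑ i, mn (pt V s y) i ^ 2) =
      fun y => ∑ i, EP V s (fun x => x i) y * EP V s (fun x => x i) y := by
    funext y
    refine Finset.sum_congr rfl fun i _ => ?_
    rw [pow_two]
    rfl
  rw [e1, GE_sum H Finset.univ (F := fun i y => EP V s (fun x => x i) y * EP V s (fun x => x i) y)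
    (fun i _ => (EP_t0 H (T0.coord i) hsκ).mul (EP_t0 H (T0.coord i) hsκ))]
  calc ∑ i, GE V s (fun y => EP V s (fun x => x i) y * EP V s (fun x => x i) y)
      ≤ ∑ _i : ι, (1 / κ₀) ^ 2 * s :=
        Finset.sum_le_sum fun i _ => U4c_one H h0 hκ₀ i (hm i) s0
    _ = Fintype.card ι * (1 / κ₀) ^ 2 * s := by
        rw [Finset.sum_const, Finset.card_univ, nsmul_eq_mul, mul_assoc]

/-- `GE_s Var_{s,y} f ≤ Var_V f`. -/
theorem GE_var_le (H : Nice κ M V) {f : (ι → ℝ) → ℝ} (hf : T0 f) {s : ℝ} (s0 : 0 ≤ s) :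
    GE V s (fun y => var (pt V s y) f) ≤ var V f := by
  have hκ := H.kpos
  have hsκ : -κ < s := by linarith
  have t1 : T0 (EP V s (fun x => f x * f x)) := EP_t0 H (hf.mul hf) hsκ
  have t2 : T0 (EP V s f) := EP_t0 H hf hsκ
  have t3 : T0 (fun y => EP V s f y * EP V s f y) := t2.mul t2
  have e1 : (fun y => var (pt V s y) f) =
      fun y => EP V s (fun x => f x * f x) y - EP V s f y * EP V s f y := rfl
  rw [e1, GE_sub H t1 t3]
  have e2 : GE V s (EP V s (fun x => f x * f x)) = ex V (fun x => f x * f x) :=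
    GE_EP H (hf.mul hf) s0
  have e3 : GE V s (EP V s f) = ex V f := GE_EP H hf s0
  have h1 := GE_cs H t2 (T0.const (1 : ℝ)) s
  simp only [mul_one, one_pow] at h1
  rw [GE_const H, mul_one] at h1
  have h2 : GE V s (fun y => EP V s f y) ^ 2 = ex V f ^ 2 := by rw [← e3]
  have h3 : GE V s (fun y => EP V s f y ^ 2) = GE V s (fun y => EP V s f y * EP V s f y) := by
    congr 1
    funext y
    ring
  rw [h2, h3] at h1
  rw [e2]
  unfold var cov
  linarith [pow_two (ex V f)]

end Pool.Agent.Lib.MP_8d00da_gt.h42k.U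
end

section

/-!
# The flow for polynomials (full KLS, part gamma): Q_j for diagonal X: positivity, Cauchy-Schwarz, monotonicity
-/

namespace Pool.Agent.Lib.MP_8d00da_gt.h42k.G

open MeasureTheory Set Filter
open scoped Topology NNReal ENNReal ContDiff
open Pool.Agent.Lib.MP_8d00da_gt.h42k.U (NF sw QT)

set_option linter.unusedSectionVars false
set_option linter.unusedVariables false

variable {ι : Type} [Fintype ι] [DecidableEq ι]

variable {κ M : ℝ} {V : (ι → ℝ) → ℝ}

theorem Qj_diag_nonneg {S : ι → ℝ} (hS : ∀ i, 0 ≤ S i) (j : ℕ) (p : MvPolynomial ι ℝ) :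
    0 ≤ Qj V (Matrix.diagonal S) j p p := by
  induction j generalizing p with
  | zero => exact mul_self_nonneg _
  | succ j ih =>
    rw [Qj_diag_succ]
    exact Finset.sum_nonneg (fun k _ => mul_nonneg (hS k) (ih _))

theorem Qj_diag_cs (H : Nice κ M V) {S : ι → ℝ} (hS : ∀ i, 0 ≤ S i) (j : ℕ)
    (p q : MvPolynomial ι ℝ) :
    Qj V (Matrix.diagonal S) j p q ^ 2 ≤
      Qj V (Matrix.diagonal S) j p p * Qj V (Matrix.diagonal S) j q q := by
  induction j generalizing p q with
  | zero =>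
    show (ex V (ev p) * ex V (ev q)) ^ 2 ≤ (ex V (ev p) * ex V (ev p)) * (ex V (ev q) * ex V (ev q))
    exact le_of_eq (by ring)
  | succ j ih =>
    rw [Qj_diag_succ, Qj_diag_succ, Qj_diag_succ]
    set r : ι → ℝ := fun k => Qj V (Matrix.diagonal S) j (MvPolynomial.pderiv k p) (MvPolynomial.pderiv k q) with hr
    set f : ι → ℝ := fun k => Qj V (Matrix.diagonal S) j (MvPolynomial.pderiv k p) (MvPolynomial.pderiv k p) with hf
    set g : ι → ℝ := fun k => Qj V (Matrix.diagonal S) j (MvPolynomial.pderiv k q) (MvPolynomial.pderiv k q) with hg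
    have hf0 : ∀ k, 0 ≤ S k * f k := fun k => mul_nonneg (hS k) (Qj_diag_nonneg hS j _)
    have hg0 : ∀ k, 0 ≤ S k * g k := fun k => mul_nonneg (hS k) (Qj_diag_nonneg hS j _)
    have h1 : |∑ k, S k * r k| ≤ ∑ k, √(S k * f k) * √(S k * g k) := by
      refine (Finset.abs_sum_le_sum_abs _ _).trans (Finset.sum_le_sum (fun k _ => ?_))
      rw [← Real.sqrt_mul (hf0 k)]
      refine Real.abs_le_sqrt ?_
      have h2 := ih (MvPolynomial.pderiv k p) (MvPolynomial.pderiv k q)
      calc (S k * r k) ^ 2 = S k ^ 2 * r k ^ 2 := by ring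
        _ ≤ S k ^ 2 * (f k * g k) := mul_le_mul_of_nonneg_left h2 (sq_nonneg _)
        _ = S k * f k * (S k * g k) := by ring
    have h3 : (∑ k, √(S k * f k) * √(S k * g k)) ^ 2 ≤ (∑ k, S k * f k) * ∑ k, S k * g k := by
      have h4 := Finset.sum_mul_sq_le_sq_mul_sq Finset.univ (fun k => √(S k * f k)) (fun k => √(S k * g k))
      simpa [Real.sq_sqrt (hf0 _), Real.sq_sqrt (hg0 _)] using h4
    have h5 : (∑ k, S k * r k) ^ 2 ≤ (∑ k, √(S k * f k) * √(S k * g k)) ^ 2 := by
      rw [← sq_abs]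
      exact pow_le_pow_left₀ (abs_nonneg _) h1 2
    exact h5.trans h3

theorem Qj_diag_mono {S S' : ι → ℝ} (hS : ∀ i, 0 ≤ S i) (h : ∀ i, S i ≤ S' i) (j : ℕ)
    (p : MvPolynomial ι ℝ) :
    Qj V (Matrix.diagonal S) j p p ≤ Qj V (Matrix.diagonal S') j p p := by
  induction j generalizing p with
  | zero => exact le_refl _
  | succ j ih =>
    rw [Qj_diag_succ, Qj_diag_succ]
    exact Finset.sum_le_sum (fun k _ => mul_le_mul (h k) (ih _) (Qj_diag_nonneg hS j _)
      ((hS k).trans (h k)))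

theorem Qj_diag_smul {S : ι → ℝ} (a : ℝ) (j : ℕ) (p q : MvPolynomial ι ℝ) :
    Qj V (Matrix.diagonal fun i => a * S i) j p q =
      a ^ j * Qj V (Matrix.diagonal S) j p q := by
  induction j generalizing p q with
  | zero =>
    show ex V (ev p) * ex V (ev q) = a ^ 0 * (ex V (ev p) * ex V (ev q))
    ring
  | succ j ih =>
    rw [Qj_diag_succ, Qj_diag_succ, Finset.mul_sum]
    refine Finset.sum_congr rfl (fun k _ => ?_)
    rw [ih]
    ring

end Pool.Agent.Lib.MP_8d00da_gt.h42k.G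
end
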