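import Pool.Agent.Lib.MP_8d00da_gt.h62a.Sym
import Pool.Agent.Lib.MP_8d00da_gt.h42k.B1a
import Pool.Agent.Lib.MP_8d00da_gt.h42k.S6b

/-!
# Third moments: the (IL) and (K) inequalities (paper 323, 6.1 and 6.2)
-/

namespace Pool.Agent.Lib.MP_8d00da_gt.h42k

open MeasureTheory Set Filter
open scoped Topology NNReal ENNReal ContDiff

set_option linter.unusedSectionVars false
set_option linter.unusedVariables false

variable {ι : Type*} [Fintype ι] [DecidableEq ι]

variable {κ M : ℝ} {V : (ι → ℝ) → ℝ}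

variable {A : Matrix ι ι ℝ} {e : ι → ι → ℝ} {lam : ι → ℝ}

/-- The linear map `y ↦ ∑ c_k y_k e_k`. -/
noncomputable def stv (e : ι → ι → ℝ) (c : ι → ℝ) (y : ι → ℝ) : ι → ℝ :=
  fun a => ∑ k, c k * y k * e k a

/-- The quadratic form with matrix `B` in the centred coordinates. -/
noncomputable def qf (V : (ι → ℝ) → ℝ) (B : ι → ι → ℝ) (x : ι → ℝ) : ℝ :=
  ∑ i, ∑ j, B i j * (x i - mn V i) * (x j - mn V j)

theorem dt_stv (he : EB A e lam) (c y : ι → ℝ) (k : ι) : dt (e k) (stv e c y) = c k * y k := by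
  have h1 : stv e c y = fun a => ∑ j, (fun j a => (c j * y j) * e j a) j a := rfl
  rw [h1, s6_dt_sum, Finset.sum_eq_single k]
  · rw [s6_dt_smul, he.orth, if_pos rfl, mul_one]
  · intro j _ hj
    rw [s6_dt_smul, he.orth, if_neg (Ne.symm hj), mul_zero]
  · intro h
    exact absurd (Finset.mem_univ k) h

theorem sq_stv (he : EB A e lam) (c y : ι → ℝ) : sq (stv e c y) = ∑ k, (c k * y k) ^ 2 := by
  rw [he.sq_eq]
  refine Finset.sum_congr rfl fun k _ => ?_
  rw [dt_stv he]

private theorem S6c_add (e : ι → ι → ℝ) (c y z : ι → ℝ) :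
    stv e c (y + z) = stv e c y + stv e c z := by
  ext a
  simp only [stv, Pi.add_apply]
  rw [← Finset.sum_add_distrib]
  exact Finset.sum_congr rfl fun k _ => by ring

private theorem S6c_smul (e : ι → ι → ℝ) (c : ι → ℝ) (r : ℝ) (y : ι → ℝ) :
    stv e c (r • y) = r • stv e c y := by
  ext a
  simp only [stv, Pi.smul_apply, smul_eq_mul, Finset.mul_sum]
  exact Finset.sum_congr rfl fun k _ => by ring

/-- `stv` as a linear map. -/
private noncomputable def S6c_L (e : ι → ι → ℝ) (c : ι → ℝ) : (ι → ℝ) →ₗ[ℝ] (ι → ℝ) where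
  toFun := stv e c
  map_add' := S6c_add e c
  map_smul' := S6c_smul e c

/-- `stv` is a linear equivalence if all `c_k ≠ 0` (then `L17.lean`: `Nice.comp_lin`,
`ex_comp_lin`, `T0.comp_lin` etc. apply). -/
theorem stv_equiv (he : EB A e lam) {c : ι → ℝ} (hc : ∀ k, c k ≠ 0) :
    ∃ P : (ι → ℝ) ≃L[ℝ] (ι → ℝ), ∀ y, P y = stv e c y := by
  let Q : (ι → ℝ) ≃ₗ[ℝ] (ι → ℝ) :=
    { S6c_L e c with
      invFun := fun v k => dt (e k) v / c k
      left_inv := fun y => by
        funext k
        show dt (e k) (stv e c y) / c k = y k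
        rw [dt_stv he, mul_div_cancel_left₀ _ (hc k)]
      right_inv := fun v => by
        show stv e c (fun k => dt (e k) v / c k) = v
        conv_rhs => rw [← he.expand v]
        funext a
        unfold stv
        refine Finset.sum_congr rfl fun k _ => ?_
        rw [mul_div_cancel₀ _ (hc k)] }
  exact ⟨Q.toContinuousLinearEquiv, fun y => rfl⟩

/-- The stretched potential is nice with the same lower bound if all `c_k ≥ 1`. -/
theorem stv_nice (H : Nice κ M V) (he : EB A e lam) {c : ι → ℝ} (hc : ∀ k, 1 ≤ c k) :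
    ∃ M', Nice κ M' (fun y => V (stv e c y)) := by
  obtain ⟨P, hP⟩ := stv_equiv he (c := c) (fun k => by linarith [hc k] |> fun h : 0 < c k => h.ne')
  have h := H.comp_lin P (c := 1) (c' := ∑ k, c k ^ 2) one_pos
    (fun u => by
      rw [hP, sq_stv he, one_mul]
      unfold sq
      refine Finset.sum_le_sum fun k _ => ?_
      rw [mul_pow]
      have h1 : 1 ≤ c k ^ 2 := one_le_pow₀ (hc k)
      nlinarith [sq_nonneg (u k)])
    (fun u => by
      rw [hP, sq_stv he]
      unfold sq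
      rw [Finset.mul_sum]
      refine Finset.sum_le_sum fun k _ => ?_
      rw [mul_pow]
      refine mul_le_mul_of_nonneg_right ?_ (sq_nonneg _)
      exact Finset.single_le_sum (f := fun k => c k ^ 2) (fun j _ => sq_nonneg _)
        (Finset.mem_univ k))
  rw [mul_one] at h
  refine ⟨M * ∑ k, c k ^ 2, ?_⟩
  have h2 : (fun y => V (stv e c y)) = fun y => V (P y) := by
    funext y
    rw [hP]
  rw [h2]
  exact h

theorem ex_stv (he : EB A e lam) {c : ι → ℝ} (hc : ∀ k, c k ≠ 0) (f : (ι → ℝ) → ℝ) :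
    ex (fun y => V (stv e c y)) (fun y => f (stv e c y)) = ex V f := by
  obtain ⟨P, hP⟩ := stv_equiv he hc
  have h := ex_comp_lin P V f
  simp only [hP] at h
  exact h

theorem stv_t0 (e : ι → ι → ℝ) (c : ι → ℝ) {f : (ι → ℝ) → ℝ} (hf : T0 f) :
    T0 (fun y => f (stv e c y)) :=
  hf.comp_lin (LinearMap.toContinuousLinearMap (S6c_L e c))

/-- Means of the new coordinates. -/
theorem mn_stv (H : Nice κ M V) (he : EB A e lam) {c : ι → ℝ} (hc : ∀ k, c k ≠ 0) (k : ι) :
    mn (fun y => V (stv e c y)) k = dt (e k) (mn V) / c k := by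
  have h1 : (fun y : ι → ℝ => y k) = fun y => (fun x => dt (e k) x * (c k)⁻¹) (stv e c y) := by
    funext y
    show y k = dt (e k) (stv e c y) * (c k)⁻¹
    rw [dt_stv he, mul_comm (c k), mul_inv_cancel_right₀ (hc k)]
  have h2 : ex (fun y => V (stv e c y)) (fun y => y k) =
      ex V (fun x => dt (e k) x * (c k)⁻¹) := by
    rw [h1]
    exact ex_stv he hc (V := V) (fun x => dt (e k) x * (c k)⁻¹)
  show ex (fun y => V (stv e c y)) (fun y => y k) = dt (e k) (mn V) / c k
  rw [h2, ex_mulc, div_eq_mul_inv]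
  congr 1
  exact ex_dt H (e k)

/-- Centred new coordinates. -/
theorem ctr_stv (H : Nice κ M V) (he : EB A e lam) {c : ι → ℝ} (hc : ∀ k, c k ≠ 0)
    (y : ι → ℝ) (k : ι) :
    y k - mn (fun y => V (stv e c y)) k = dt (e k) (ctr V (stv e c y)) / c k := by
  have h1 : dt (e k) (ctr V (stv e c y)) = dt (e k) (stv e c y) - dt (e k) (mn V) := by
    unfold dt ctr
    rw [← Finset.sum_sub_distrib]
    exact Finset.sum_congr rfl fun a _ => by ring
  rw [mn_stv H he hc, h1, dt_stv he, sub_div, mul_div_cancel_left₀ _ (hc k)]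

/-- The covariance matrix in the new coordinates is `diag(lam_k / c_k²)`. -/
theorem CLe_stv (H : Nice κ M V) (he : EB (CM V) e lam) {c : ι → ℝ} (hc : ∀ k, 0 < c k) {z : ℝ}
    (hz : 0 ≤ z) (h : ∀ k, lam k ≤ z * c k ^ 2) : CLe (fun y => V (stv e c y)) z := by
  intro θ
  obtain ⟨P, hP⟩ := stv_equiv he (c := c) fun k => (hc k).ne'
  set w : ι → ℝ := stv e (fun k => (c k)⁻¹) θ with hw
  have h1 : ∀ k, dt (e k) w = (c k)⁻¹ * θ k := fun k => dt_stv he _ θ k
  have h2 : (fun y : ι → ℝ => dt θ y) = fun y => (fun x => dt w x) (P y) := by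
    funext y
    show dt θ y = dt w (P y)
    rw [hP, he.parseval w]
    unfold dt
    refine Finset.sum_congr rfl fun k _ => ?_
    have h3 := h1 k
    have h4 := dt_stv he c y k
    unfold dt at h3 h4
    rw [h3, h4]
    have h5 := (hc k).ne'
    field_simp
  have h6 : (fun y => V (stv e c y)) = fun y => V (P y) := by
    funext y
    rw [hP]
  rw [h6, h2, var_comp_lin P V, he.var_dt H]
  unfold sq
  rw [Finset.mul_sum]
  refine Finset.sum_le_sum fun k _ => ?_
  rw [h1, mul_pow]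
  have h7 : 0 < c k ^ 2 := pow_pos (hc k) 2
  have h8 : lam k * ((c k)⁻¹ ^ 2) ≤ z := by
    rw [inv_pow, ← div_eq_mul_inv, div_le_iff₀ h7]
    exact h k
  calc lam k * ((c k)⁻¹ ^ 2 * θ k ^ 2) = lam k * (c k)⁻¹ ^ 2 * θ k ^ 2 := by ring
    _ ≤ z * θ k ^ 2 := mul_le_mul_of_nonneg_right h8 (sq_nonneg _)

end Pool.Agent.Lib.MP_8d00da_gt.h42k
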