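import Pool.Agent.Lib.MP_8d00da_gt.h42k.UDefs
import Pool.Agent.Lib.MP_8d00da_gt.h42k.GP2b

section

/-!
# Paper 344 (quadratic KLS with a universal constant): third moments in an eigenbasis (linear algebra)
-/

namespace Pool.Agent.Lib.MP_8d00da_gt.h42k.U

open MeasureTheory Set Filter
open scoped Topology NNReal ENNReal ContDiff

set_option linter.unusedSectionVars false
set_option linter.unusedVariables false

variable {ι : Type*} [Fintype ι] [DecidableEq ι]

/-- U.4 (b), linear algebra: eigenbasis of `B' = (√S_i B_ij √S_j)`.  `κ` is symmetric, and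
`∑_{j,m} (∑_i κ_ijm w_i)² / S_j ≤ Q ∑_i w_i² S_i` for all `w`; then
`∑_m tr(B κ_m B κ_m) ≤ Q ∑ B_ij² S_i S_j`. -/
theorem tk_le {S : ι → ℝ} (hS : ∀ i, 0 < S i) {κ : ι → ι → ι → ℝ}
    (h12 : ∀ i j k, κ i j k = κ j i k) {Q : ℝ}
    (h : ∀ w : ι → ℝ, ∑ j, ∑ m, (∑ i, κ i j m * w i) ^ 2 / S j ≤ Q * ∑ i, w i ^ 2 * S i)
    {B : Matrix ι ι ℝ} (hB : ∀ i j, B i j = B j i) : tk B κ ≤ Q * nB S B := by
  have key : ∀ m, tq B (Matrix.of fun j k => κ j k m)
      ≤ ∑ i, S i * ∑ j, (∑ k, κ k j m * B i k) ^ 2 / S j := by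
    intro m
    set X : ι → ι → ℝ := fun i j => ∑ k, κ k j m * B i k with hX
    have h1 : tq B (Matrix.of fun j k => κ j k m) = ∑ i, ∑ j, X i j * X j i := by
      unfold tq
      rw [Matrix.trace]
      refine Finset.sum_congr rfl fun i _ => ?_
      rw [Matrix.diag_apply, Matrix.mul_apply]
      refine Finset.sum_congr rfl fun j _ => ?_
      have e : ∀ a b, (B * (Matrix.of fun j k => κ j k m)) a b = X a b := by
        intro a b
        rw [Matrix.mul_apply, hX]
        refine Finset.sum_congr rfl fun k _ => ?_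
        rw [Matrix.of_apply, mul_comm]
      rw [e, e]
    have h2 : ∀ i j, X i j * X j i ≤ (S i * (X i j ^ 2 / S j) + S j * (X j i ^ 2 / S i)) / 2 := by
      intro i j
      have hi := hS i
      have hj := hS j
      have e : (S i * (X i j ^ 2 / S j) + S j * (X j i ^ 2 / S i)) / 2 - X i j * X j i
          = (S i * X i j - S j * X j i) ^ 2 / (2 * S i * S j) := by
        field_simp
        ring
      have p : 0 ≤ (S i * X i j - S j * X j i) ^ 2 / (2 * S i * S j) := by positivity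
      linarith
    have h3 : ∑ i, ∑ j, X i j * X j i
        ≤ ∑ i, ∑ j, (S i * (X i j ^ 2 / S j) + S j * (X j i ^ 2 / S i)) / 2 :=
      Finset.sum_le_sum fun i _ => Finset.sum_le_sum fun j _ => h2 i j
    have h4 : ∑ i, ∑ j, (S i * (X i j ^ 2 / S j) + S j * (X j i ^ 2 / S i)) / 2
        = ∑ i, ∑ j, S i * (X i j ^ 2 / S j) := by
      have c : ∑ i, ∑ j, S j * (X j i ^ 2 / S i) = ∑ i, ∑ j, S i * (X i j ^ 2 / S j) :=
        Finset.sum_comm
      simp only [add_div, Finset.sum_add_distrib, ← Finset.sum_div]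
      rw [c]
      ring
    rw [h1]
    refine h3.trans (le_of_eq ?_)
    rw [h4]
    exact Finset.sum_congr rfl fun i _ => (Finset.mul_sum _ _ _).symm
  have s1 : tk B κ ≤ ∑ m, ∑ i, S i * ∑ j, (∑ k, κ k j m * B i k) ^ 2 / S j :=
    Finset.sum_le_sum fun m _ => key m
  refine s1.trans ?_
  rw [Finset.sum_comm]
  have s2 : ∀ i, ∑ m, S i * ∑ j, (∑ k, κ k j m * B i k) ^ 2 / S j
      ≤ S i * (Q * ∑ k, B i k ^ 2 * S k) := by
    intro i
    rw [← Finset.mul_sum]
    refine mul_le_mul_of_nonneg_left ?_ (hS i).le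
    rw [Finset.sum_comm]
    exact h (fun k => B i k)
  refine (Finset.sum_le_sum fun i _ => s2 i).trans (le_of_eq ?_)
  unfold nB
  rw [Finset.mul_sum]
  refine Finset.sum_congr rfl fun i _ => ?_
  rw [Finset.mul_sum, Finset.mul_sum, Finset.mul_sum]
  refine Finset.sum_congr rfl fun k _ => ?_
  ring

end Pool.Agent.Lib.MP_8d00da_gt.h42k.U
end

section

/-!
# Paper 344 (quadratic KLS with a universal constant): U.4 (b): third moments at time s
-/

namespace Pool.Agent.Lib.MP_8d00da_gt.h42k.U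

open MeasureTheory Set Filter
open scoped Topology NNReal ENNReal ContDiff

set_option linter.unusedSectionVars false
set_option linter.unusedVariables false

variable {ι : Type} [Fintype ι] [DecidableEq ι]

variable {τ σ M K : ℝ} {V : (ι → ℝ) → ℝ} {α : ι → ℝ}

/-- `Cov(w·x, ⟨D x̃, x̃⟩)` in terms of the third moments. -/
private theorem U3b_ex {κ : ℝ} {W : (ι → ℝ) → ℝ} (H : Nice κ M W) (w : ι → ℝ)
    (D : Matrix ι ι ℝ) :
    ex W (fun x => dt w (ctr W x) * qf W D x) =
      ∑ j, ∑ m, D j m * ∑ i, TM W i j m * w i := by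
  have h1 : (fun x => dt w (ctr W x) * qf W D x) =
      fun x => ∑ j, ∑ m, ∑ i, D j m * w i * (ctr W x i * ctr W x j * ctr W x m) := by
    funext x
    have e1 : qf W D x = ∑ j, ∑ m, D j m * ctr W x j * ctr W x m := rfl
    rw [e1, Finset.mul_sum]
    refine Finset.sum_congr rfl fun j _ => ?_
    rw [Finset.mul_sum]
    refine Finset.sum_congr rfl fun m _ => ?_
    unfold dt
    rw [Finset.sum_mul]
    exact Finset.sum_congr rfl fun i _ => by ring
  have t1 : ∀ j m i, T0 (fun x => D j m * w i * (ctr W x i * ctr W x j * ctr W x m)) :=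
    fun j m i => (((S6b_ctr W i).mul (S6b_ctr W j)).mul (S6b_ctr W m)).cmul _
  rw [h1, ex_sum H Finset.univ (F := fun j x => ∑ m, ∑ i, D j m * w i *
    (ctr W x i * ctr W x j * ctr W x m)) fun j _ =>
      T0.sum Finset.univ fun m _ => T0.sum Finset.univ fun i _ => t1 j m i]
  refine Finset.sum_congr rfl fun j _ => ?_
  rw [ex_sum H Finset.univ (F := fun m x => ∑ i, D j m * w i *
    (ctr W x i * ctr W x j * ctr W x m)) fun m _ =>
      T0.sum Finset.univ fun i _ => t1 j m i]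
  refine Finset.sum_congr rfl fun m _ => ?_
  rw [ex_sum H Finset.univ (F := fun i x => D j m * w i *
    (ctr W x i * ctr W x j * ctr W x m)) fun i _ => t1 j m i, Finset.mul_sum]
  refine Finset.sum_congr rfl fun i _ => ?_
  rw [ex_cmul]
  simp only [TM]
  ring

/-- U.4 (b), duality: `κ_w = ∑_i w_i κ_i..`, `X = ∑_jm (κ_w)_jm²/(S_jS_m)`,
`D_jm = (κ_w)_jm/(S_jS_m)`: `X = Cov(w·x, ⟨D x̃, x̃⟩)`, `X² ≤ Var(w·x) K (1+δ)² X`. -/
theorem NF.kp_dual (h : NF τ σ M V α) (hσ : 2 ≤ σ) (hQ : QT ι τ K) (hK : 0 ≤ K) {s : ℝ}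
    (s0 : 0 ≤ s) (y w : ι → ℝ) :
    ∑ j, ∑ m, (∑ i, kp V s y i j m * w i) ^ 2 / (sw σ α j * sw σ α m) ≤
      K * (1 + dl V s y) ^ 2 * var (pt V s y) (fun x => dt w x) := by
  have hn := h.nice.ptn (t := s) (by linarith [h.nice.kpos]) y
  have hS : ∀ i, 0 < sw σ α i := fun i => by linarith [(h.sw_facts hσ i).1]
  set P : ι → ι → ℝ := fun j m => ∑ i, kp V s y i j m * w i with hP
  set X : ℝ := ∑ j, ∑ m, P j m ^ 2 / (sw σ α j * sw σ α m) with hX
  have hX0 : 0 ≤ X := Finset.sum_nonneg fun j _ => Finset.sum_nonneg fun m _ =>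
    div_nonneg (sq_nonneg _) (mul_pos (hS j) (hS m)).le
  have hPs : ∀ j m, P j m = P m j := by
    intro j m
    simp only [hP]
    refine Finset.sum_congr rfl fun i _ => ?_
    unfold kp
    rw [TM_symm23]
  set D : Matrix ι ι ℝ := Matrix.of fun j m => P j m / (sw σ α j * sw σ α m) with hD
  have hDs : ∀ i j, D i j = D j i := by
    intro i j
    simp only [hD, Matrix.of_apply]
    rw [hPs i j, mul_comm (sw σ α i)]
  have h1 := h.quad_pt hσ hQ hK s0 y hDs
  have h2 : nB (sw σ α) D = X := by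
    rw [hX]
    unfold nB
    refine Finset.sum_congr rfl fun j _ => Finset.sum_congr rfl fun m _ => ?_
    simp only [hD, Matrix.of_apply]
    have := (hS j).ne'
    have := (hS m).ne'
    field_simp
  have h3 : ex (pt V s y) (fun x => dt w (ctr (pt V s y) x) * qf (pt V s y) D x) = X := by
    rw [U3b_ex hn, hX]
    refine Finset.sum_congr rfl fun j _ => Finset.sum_congr rfl fun m _ => ?_
    have e1 : ∑ i, TM (pt V s y) i j m * w i = P j m := rfl
    rw [e1]
    simp only [hD, Matrix.of_apply]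
    ring
  have hq : T0 (qf (pt V s y) D) := by
    have e1 : qf (pt V s y) D = fun x => ∑ j, ∑ m, D j m * (ctr (pt V s y) x j *
        ctr (pt V s y) x m) := by
      funext x
      refine Finset.sum_congr rfl fun j _ => Finset.sum_congr rfl fun m _ => ?_
      simp only [ctr]
      ring
    rw [e1]
    exact T0.sum Finset.univ fun j _ => T0.sum Finset.univ fun m _ =>
      ((S6b_ctr _ j).mul (S6b_ctr _ m)).cmul _
  have h4 := dt_ctr_cs hn w hq
  rw [h3] at h4
  have hv : 0 ≤ var (pt V s y) (fun x => dt w x) := var_nonneg hn (T0.dtf w)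
  rw [h2] at h1
  have h5 : X ^ 2 ≤ var (pt V s y) (fun x => dt w x) * (K * (1 + dl V s y) ^ 2 * X) :=
    h4.trans (mul_le_mul_of_nonneg_left h1 hv)
  have hc : 0 ≤ K * (1 + dl V s y) ^ 2 * var (pt V s y) (fun x => dt w x) :=
    mul_nonneg (mul_nonneg hK (sq_nonneg _)) hv
  rcases hX0.eq_or_lt with h0 | h0
  · rw [← h0]
    exact hc
  · have h6 : X * X ≤ (K * (1 + dl V s y) ^ 2 * var (pt V s y) (fun x => dt w x)) * X := by
      calc X * X = X ^ 2 := by ring
        _ ≤ _ := h5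
        _ = _ := by ring
    exact le_of_mul_le_mul_right h6 h0

/-- U.4 (b): `tk_le` with `Q = σ K (1+δ)² (2+δ)` (`S_m ≤ σ`). -/
theorem NF.tk_kp_le (h : NF τ σ M V α) (hσ : 2 ≤ σ) (hQ : QT ι τ K) (hK : 0 ≤ K) {s : ℝ}
    (s0 : 0 ≤ s) (y : ι → ℝ) {B : Matrix ι ι ℝ} (hB : ∀ i j, B i j = B j i) :
    tk B (kp V s y) ≤
      σ * K * (1 + dl V s y) ^ 2 * (2 + dl V s y) * nB (sw σ α) B := by
  have hS : ∀ i, 0 < sw σ α i := fun i => by linarith [(h.sw_facts hσ i).1]
  have hσ0 : 0 ≤ σ := by linarith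
  refine tk_le hS (fun i j k => ?_) (fun w => ?_) hB
  · unfold kp
    exact TM_symm12 _ i j k
  · have h1 := h.kp_dual hσ hQ hK s0 y w
    have h2 := h.var_dt_le hσ s0 y w
    have h3 : ∑ j, ∑ m, (∑ i, kp V s y i j m * w i) ^ 2 / sw σ α j ≤
        σ * ∑ j, ∑ m, (∑ i, kp V s y i j m * w i) ^ 2 / (sw σ α j * sw σ α m) := by
      rw [Finset.mul_sum]
      refine Finset.sum_le_sum fun j _ => ?_
      rw [Finset.mul_sum]
      refine Finset.sum_le_sum fun m _ => ?_
      have h4 := (h.sw_facts hσ m).2.1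
      have h5 : (∑ i, kp V s y i j m * w i) ^ 2 / sw σ α j =
          sw σ α m * ((∑ i, kp V s y i j m * w i) ^ 2 / (sw σ α j * sw σ α m)) := by
        have := (hS j).ne'
        have := (hS m).ne'
        field_simp
      rw [h5]
      exact mul_le_mul_of_nonneg_right h4
        (div_nonneg (sq_nonneg _) (mul_pos (hS j) (hS m)).le)
    have h6 : 0 ≤ K * (1 + dl V s y) ^ 2 := mul_nonneg hK (sq_nonneg _)
    calc ∑ j, ∑ m, (∑ i, kp V s y i j m * w i) ^ 2 / sw σ α j
        ≤ σ * ∑ j, ∑ m, (∑ i, kp V s y i j m * w i) ^ 2 / (sw σ α j * sw σ α m) := h3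
      _ ≤ σ * (K * (1 + dl V s y) ^ 2 * var (pt V s y) (fun x => dt w x)) :=
        mul_le_mul_of_nonneg_left h1 hσ0
      _ ≤ σ * (K * (1 + dl V s y) ^ 2 * ((2 + dl V s y) * ∑ i, w i ^ 2 * sw σ α i)) :=
        mul_le_mul_of_nonneg_left (mul_le_mul_of_nonneg_left h2 h6) hσ0
      _ = σ * K * (1 + dl V s y) ^ 2 * (2 + dl V s y) * ∑ i, w i ^ 2 * sw σ α i := by ring

end Pool.Agent.Lib.MP_8d00da_gt.h42k.U
end
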