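import Mathlib
import Pool.Agent.Lib.MP_8d00da_gt.h42k.U2a
import Pool.Agent.Lib.MP_8d00da_gt.h42k.G49b
import Pool.Agent.Lib.MP_8d00da_gt.h42k.U4e
import Pool.Agent.Lib.MP_8d00da_gt.h42k.U3b
import Pool.Agent.Lib.MP_8d00da_gt.h28k.RepP

section

/-! # Full KLS: the scale induction

`G κ s`: all systems of the class `κ` satisfy `t_k ≤ 2 s^k` for all `k`.
`A κ l M`: all systems of the class `κ` satisfy `m_l ≤ M`. -/

namespace Pool.Agent.Lib.MP_8d00da_gt.h28k

open Finset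

/-- `j^n e^{-√j/4} ≤ 16^n (2n)!`. -/
theorem si_pow_exp (n j : ℕ) :
    (j : ℝ) ^ n * Real.exp (-(√(j : ℝ) / 4)) ≤ 16 ^ n * (Nat.factorial (2 * n) : ℝ) := by
  have h0 : 0 ≤ √(j : ℝ) / 4 := by positivity
  have h1 := Real.pow_div_factorial_le_exp (√(j : ℝ) / 4) h0 (2 * n)
  have h2 : (√(j : ℝ) / 4) ^ (2 * n) = (j : ℝ) ^ n / 16 ^ n := by
    rw [pow_mul, div_pow, Real.sq_sqrt (Nat.cast_nonneg j), div_pow]
    norm_num
  rw [h2] at h1
  have h3 : (0 : ℝ) < (Nat.factorial (2 * n) : ℝ) := by exact_mod_cast Nat.factorial_pos _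
  have h4 : (0 : ℝ) < 16 ^ n := by positivity
  rw [div_div, div_le_iff₀ (by positivity)] at h1
  rw [Real.exp_neg, ← div_eq_mul_inv, div_le_iff₀ (Real.exp_pos _)]
  calc (j : ℝ) ^ n ≤ Real.exp (√(j : ℝ) / 4) * (16 ^ n * (Nat.factorial (2 * n) : ℝ)) := h1
    _ = _ := by ring

/-- The ratio of two scales. -/
theorem si_ratio {j N : ℕ} (hj : 1 ≤ j) (hN : 4 * j ≤ N) :
    ((2 - 1 / √(j : ℝ)) / (2 - 1 / √(N : ℝ))) ^ (j - 1) ≤ 2 * Real.exp (-(√(j : ℝ) / 4)) := by
  have j1 : (1 : ℝ) ≤ j := by exact_mod_cast hj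
  have N1 : (4 : ℝ) * j ≤ N := by exact_mod_cast hN
  have sj : 1 ≤ √(j : ℝ) := by
    rw [Real.one_le_sqrt]
    exact j1
  have sN : 2 * √(j : ℝ) ≤ √(N : ℝ) := by
    have h1 : √(4 * (j : ℝ)) = 2 * √(j : ℝ) := by
      rw [Real.sqrt_mul (by norm_num)]
      congr 1
      rw [show (4 : ℝ) = 2 ^ 2 by norm_num]
      exact Real.sqrt_sq (by norm_num)
    rw [← h1]
    exact Real.sqrt_le_sqrt N1
  have sj0 : 0 < √(j : ℝ) := by linarith
  have sN0 : 0 < √(N : ℝ) := by linarith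
  have hb : 1 / √(N : ℝ) ≤ 1 / √(j : ℝ) / 2 := by
    rw [div_div]
    apply one_div_le_one_div_of_le (by positivity)
    linarith
  have hb0 : 0 < 1 / √(N : ℝ) := by positivity
  have ha1 : 1 / √(j : ℝ) ≤ 1 := by
    rw [div_le_one sj0]
    exact sj
  set a : ℝ := 1 / √(j : ℝ) with ha
  set b : ℝ := 1 / √(N : ℝ) with hbb
  have h2 : (2 - a) / (2 - b) ≤ Real.exp (-(a / 4)) := by
    have h3 : (2 - a) / (2 - b) ≤ 1 - a / 4 := by
      rw [div_le_iff₀ (by linarith)]
      nlinarith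
    have h4 := Real.add_one_le_exp (-(a / 4))
    linarith
  have h5 : 0 ≤ (2 - a) / (2 - b) := div_nonneg (by linarith) (by linarith)
  have h6 := pow_le_pow_left₀ h5 h2 (j - 1)
  refine h6.trans ?_
  rw [← Real.exp_nat_mul]
  have h7 : ((j - 1 : ℕ) : ℝ) = j - 1 := by
    rw [Nat.cast_sub hj]
    norm_num
  rw [h7]
  have h8 : ((j : ℝ) - 1) * -(a / 4) ≤ 1 / 4 + -(√(j : ℝ) / 4) := by
    have h9 : (j : ℝ) * a = √(j : ℝ) := by
      rw [ha]
      have h10 := Real.mul_self_sqrt (Nat.cast_nonneg (α := ℝ) j)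
      rw [mul_one_div, div_eq_iff sj0.ne']
      exact h10.symm
    nlinarith
  refine (Real.exp_le_exp.2 h8).trans ?_
  rw [Real.exp_add]
  refine mul_le_mul_of_nonneg_right ?_ (Real.exp_pos _).le
  have h11 : Real.exp (1 / 4) ≤ Real.exp 1 ^ (1 / 4 : ℝ) := by
    rw [← Real.exp_mul]
    norm_num
  have h12 : Real.exp (1 / 4 : ℝ) ^ 4 ≤ 2 ^ 4 := by
    rw [← Real.exp_nat_mul]
    have := Real.exp_one_lt_d9
    norm_num
    linarith
  exact le_of_pow_le_pow_left₀ (by norm_num) (by norm_num) h12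

/-- SCALE INDUCTION (general constants).  By induction over the integers `N`:
`G (c0/N⁴) (S (2 - 1/√N))`, window `w = N/4`. -/
theorem scale_induction_gen (G : ℝ → ℝ → Prop) (A : ℝ → ℕ → ℝ → Prop) {C1 C2 C3 c0 : ℝ} {p : ℕ}
    (hC1 : 0 ≤ C1) (hC2 : 0 ≤ C2) (hC3 : 0 ≤ C3) (hc0 : 0 < c0) (hc1 : c0 ≤ 1)
    (mono : ∀ κ κ' s s' : ℝ, 0 < κ → κ ≤ κ' → κ' ≤ 1 → 1 ≤ s → s ≤ s' → G κ s → G κ' s')
    (base : ∀ κ : ℝ, 0 < κ → κ ≤ 1 → G κ (1 / κ))
    (mom : ∀ (l : ℕ) (s : ℝ), 1 ≤ l → 1 ≤ s → G (c0 / (l : ℝ) ^ 4) s →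
      ∀ κ : ℝ, 0 < κ → κ ≤ 1 → A κ l (C3 * (l : ℝ) ^ p * s ^ (l - 1)))
    (step : ∀ (κ s : ℝ) (w : ℕ) (m : ℕ → ℝ), 0 < κ → κ ≤ 1 → 1 ≤ s → 2 ≤ w → (∀ l, 0 ≤ m l) →
      (∀ l, 1 ≤ l → l ≤ w → A κ l (m l)) →
      C1 * ∑ j ∈ Ico 1 w, (j : ℝ) ^ 7 * m j / s ^ j ≤ 1 →
      C2 * (w : ℝ) ^ 2 * m w / s ^ w ≤ κ * s → G κ s) :
    ∃ S : ℝ, 1 ≤ S ∧ ∀ κ : ℝ, 0 < κ → κ ≤ 1 → G κ S := by
  set K1 : ℝ := 16 ^ (9 + p) * (Nat.factorial (2 * (9 + p)) : ℝ) with hK1
  set K2 : ℝ := 16 ^ (6 + p) * (Nat.factorial (2 * (6 + p)) : ℝ) with hK2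
  have K10 : 0 ≤ K1 := by positivity
  have K20 : 0 ≤ K2 := by positivity
  set S : ℝ := 4096 / c0 + 4 * C1 * C3 * K1 + 8192 * C2 * C3 * K2 / c0 with hS
  have S1 : 4096 / c0 ≤ S := by
    have e1 : 0 ≤ 4 * C1 * C3 * K1 := by positivity
    have e2 : 0 ≤ 8192 * C2 * C3 * K2 / c0 := by positivity
    linarith
  have S2 : 4 * C1 * C3 * K1 ≤ S := by
    have e1 : 0 ≤ 4096 / c0 := by positivity
    have e2 : 0 ≤ 8192 * C2 * C3 * K2 / c0 := by positivity
    linarith
  have S3 : 8192 * C2 * C3 * K2 ≤ c0 * S := by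
    have e1 : 0 ≤ 4096 / c0 := by positivity
    have e2 : 0 ≤ 4 * C1 * C3 * K1 := by positivity
    have e3 : 8192 * C2 * C3 * K2 / c0 ≤ S := by linarith
    rw [div_le_iff₀ hc0] at e3
    linarith
  have S4 : 4096 ≤ S := by
    have : (4096 : ℝ) ≤ 4096 / c0 := by
      rw [le_div_iff₀ hc0]
      nlinarith
    linarith
  have q1 : ∀ N : ℕ, 1 ≤ 2 - 1 / √(N : ℝ) ∧ 2 - 1 / √(N : ℝ) ≤ 2 := by
    intro N
    rcases Nat.eq_zero_or_pos N with h | h
    · subst h
      norm_num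
    · have e1 : (1 : ℝ) ≤ N := by exact_mod_cast h
      have e2 : 1 ≤ √(N : ℝ) := by
        rw [Real.one_le_sqrt]
        exact e1
      have e3 : 1 / √(N : ℝ) ≤ 1 := by
        rw [div_le_one (by linarith)]
        exact e2
      have e4 : 0 ≤ 1 / √(N : ℝ) := by positivity
      constructor <;> linarith
  have sc : ∀ N : ℕ, 1 ≤ S * (2 - 1 / √(N : ℝ)) ∧ S ≤ S * (2 - 1 / √(N : ℝ)) ∧
      S * (2 - 1 / √(N : ℝ)) ≤ 2 * S := by
    intro N
    obtain ⟨e1, e2⟩ := q1 N
    refine ⟨?_, ?_, ?_⟩ <;> nlinarith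
  have ck : ∀ N : ℕ, 1 ≤ N → 0 < c0 / (N : ℝ) ^ 4 ∧ c0 / (N : ℝ) ^ 4 ≤ 1 := by
    intro N hN
    have e1 : (1 : ℝ) ≤ N := by exact_mod_cast hN
    have e2 : (1 : ℝ) ≤ (N : ℝ) ^ 4 := one_le_pow₀ e1
    refine ⟨by positivity, ?_⟩
    rw [div_le_one (by positivity)]
    linarith
  have key : ∀ N : ℕ, 1 ≤ N → G (c0 / (N : ℝ) ^ 4) (S * (2 - 1 / √(N : ℝ))) := by
    intro N
    induction N using Nat.strong_induction_on with
    | _ N ih =>
      intro hN
      obtain ⟨k0, k1⟩ := ck N hN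
      obtain ⟨s1, s2, s3⟩ := sc N
      have N1 : (1 : ℝ) ≤ N := by exact_mod_cast hN
      rcases Nat.lt_or_ge N 8 with h8 | h8
      · have e1 := base _ k0 k1
        have e2 : 1 / (c0 / (N : ℝ) ^ 4) = (N : ℝ) ^ 4 / c0 := by
          rw [one_div_div]
        rw [e2] at e1
        have N8 : (N : ℝ) ≤ 8 := by exact_mod_cast h8.le
        have e3 : (N : ℝ) ^ 4 ≤ 4096 := by
          calc (N : ℝ) ^ 4 ≤ 8 ^ 4 := pow_le_pow_left₀ (by linarith) N8 4
            _ = 4096 := by norm_num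
        have e4 : (N : ℝ) ^ 4 / c0 ≤ 4096 / c0 := div_le_div_of_nonneg_right e3 hc0.le
        have e5 : 1 ≤ (N : ℝ) ^ 4 / c0 := by
          rw [le_div_iff₀ hc0]
          have : (1 : ℝ) ≤ (N : ℝ) ^ 4 := one_le_pow₀ N1
          linarith
        exact mono _ _ _ _ k0 le_rfl k1 e5 (by linarith) e1
      · set w : ℕ := N / 4 with hw
        have w2 : 2 ≤ w := by omega
        have w4 : 4 * w ≤ N := by omega
        have wN : w < N := by omega
        have w8 : N ≤ 8 * w := by omega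
        set s : ℝ := S * (2 - 1 / √(N : ℝ)) with hs
        have S0 : 0 < S := by linarith
        have s0 : 0 < s := by linarith
        have wr : (2 : ℝ) ≤ w := by exact_mod_cast w2
        -- one term
        have term : ∀ j : ℕ, 1 ≤ j → j ≤ w → ∀ n : ℕ,
            (j : ℝ) ^ n * (C3 * (j : ℝ) ^ p * (S * (2 - 1 / √(j : ℝ))) ^ (j - 1)) / s ^ j ≤
              2 * C3 * ((j : ℝ) ^ (n + p) * Real.exp (-(√(j : ℝ) / 4))) / s := by
          intro j j1 jw n
          have e1 := si_ratio j1 (by omega : 4 * j ≤ N)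
          have e2 : s ^ j = s ^ (j - 1) * s := by
            rw [← pow_succ]
            congr 1
            omega
          have e3 : (S * (2 - 1 / √(j : ℝ))) ^ (j - 1) / s ^ (j - 1) =
              ((2 - 1 / √(j : ℝ)) / (2 - 1 / √(N : ℝ))) ^ (j - 1) := by
            rw [← div_pow, hs, mul_div_mul_left _ _ S0.ne']
          have e4 : (j : ℝ) ^ n * (C3 * (j : ℝ) ^ p * (S * (2 - 1 / √(j : ℝ))) ^ (j - 1)) / s ^ j =
              C3 * (j : ℝ) ^ (n + p) *
                ((S * (2 - 1 / √(j : ℝ))) ^ (j - 1) / s ^ (j - 1)) / s := by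
            rw [e2, pow_add]
            have := s0.ne'
            have := (pow_pos s0 (j - 1)).ne'
            field_simp
          rw [e4, e3]
          refine div_le_div_of_nonneg_right ?_ s0.le
          calc C3 * (j : ℝ) ^ (n + p) * ((2 - 1 / √(j : ℝ)) / (2 - 1 / √(N : ℝ))) ^ (j - 1)
              ≤ C3 * (j : ℝ) ^ (n + p) * (2 * Real.exp (-(√(j : ℝ) / 4))) :=
                mul_le_mul_of_nonneg_left e1 (by positivity)
            _ = _ := by ring
        refine step _ s w (fun l => C3 * (l : ℝ) ^ p * (S * (2 - 1 / √(l : ℝ))) ^ (l - 1))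
          k0 k1 s1 w2 ?_ ?_ ?_ ?_
        · intro l
          have := (sc l).1
          positivity
        · intro l l1 lw
          exact mom l _ l1 (sc l).1 (ih l (by omega) l1) _ k0 k1
        · -- the sum
          have e1 : ∀ j ∈ Ico 1 w, (j : ℝ) ^ 7 *
              (C3 * (j : ℝ) ^ p * (S * (2 - 1 / √(j : ℝ))) ^ (j - 1)) / s ^ j ≤
              2 * C3 * K1 / s * ((j : ℝ) ^ 2)⁻¹ := by
            intro j hj
            rw [mem_Ico] at hj
            refine (term j hj.1 hj.2.le 7).trans ?_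
            have j1 : (0 : ℝ) < j := by exact_mod_cast hj.1
            have e2 := si_pow_exp (9 + p) j
            have e3 : (j : ℝ) ^ (7 + p) * Real.exp (-(√(j : ℝ) / 4)) ≤ K1 * ((j : ℝ) ^ 2)⁻¹ := by
              rw [← div_eq_mul_inv, le_div_iff₀ (by positivity)]
              calc (j : ℝ) ^ (7 + p) * Real.exp (-(√(j : ℝ) / 4)) * (j : ℝ) ^ 2
                  = (j : ℝ) ^ (9 + p) * Real.exp (-(√(j : ℝ) / 4)) := by
                    rw [show 9 + p = (7 + p) + 2 by ring, pow_add]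
                    ring
                _ ≤ K1 := e2
            calc 2 * C3 * ((j : ℝ) ^ (7 + p) * Real.exp (-(√(j : ℝ) / 4))) / s
                ≤ 2 * C3 * (K1 * ((j : ℝ) ^ 2)⁻¹) / s :=
                  div_le_div_of_nonneg_right (mul_le_mul_of_nonneg_left e3 (by positivity)) s0.le
              _ = _ := by ring
          have e2 : ∑ j ∈ Ico 1 w, ((j : ℝ) ^ 2)⁻¹ ≤ 2 := by
            have e3 : Ico 1 w = Ioo 0 w := by
              ext x
              simp only [mem_Ico, mem_Ioo]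
              omega
            rw [e3]
            have e4 := sum_Ioo_inv_sq_le (α := ℝ) 0 w
            norm_num at e4
            simpa using e4
          have e3 := sum_le_sum e1
          rw [← mul_sum] at e3
          have e4 : 0 ≤ 2 * C3 * K1 / s := by positivity
          have e5 := mul_le_mul_of_nonneg_left e2 e4
          have e6 := mul_le_mul_of_nonneg_left (e3.trans e5) hC1
          refine e6.trans ?_
          have e7 : C1 * (2 * C3 * K1 / s * 2) = 4 * C1 * C3 * K1 / s := by ring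
          rw [e7, div_le_one s0]
          linarith
        · -- the last level
          have e1 := term w (by omega) le_rfl 2
          have e2 := si_pow_exp (6 + p) w
          have e3 : C2 * (w : ℝ) ^ 2 *
              (C3 * (w : ℝ) ^ p * (S * (2 - 1 / √(w : ℝ))) ^ (w - 1)) / s ^ w =
              C2 * ((w : ℝ) ^ 2 *
              (C3 * (w : ℝ) ^ p * (S * (2 - 1 / √(w : ℝ))) ^ (w - 1)) / s ^ w) := by ring
          rw [e3]
          refine (mul_le_mul_of_nonneg_left e1 hC2).trans ?_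
          have N4 : (0 : ℝ) < (N : ℝ) ^ 4 := by positivity
          have e4 : (N : ℝ) ^ 4 ≤ 4096 * (w : ℝ) ^ 4 := by
            have : (N : ℝ) ≤ 8 * w := by exact_mod_cast w8
            calc (N : ℝ) ^ 4 ≤ (8 * (w : ℝ)) ^ 4 := pow_le_pow_left₀ (by linarith) this 4
              _ = _ := by ring
          have e5 : 0 ≤ (w : ℝ) ^ (2 + p) * Real.exp (-(√(w : ℝ) / 4)) := by positivity
          have e6 : (w : ℝ) ^ (2 + p) * Real.exp (-(√(w : ℝ) / 4)) * (N : ℝ) ^ 4 ≤ 4096 * K2 := by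
            calc (w : ℝ) ^ (2 + p) * Real.exp (-(√(w : ℝ) / 4)) * (N : ℝ) ^ 4
                ≤ (w : ℝ) ^ (2 + p) * Real.exp (-(√(w : ℝ) / 4)) * (4096 * (w : ℝ) ^ 4) :=
                  mul_le_mul_of_nonneg_left e4 e5
              _ = 4096 * ((w : ℝ) ^ (6 + p) * Real.exp (-(√(w : ℝ) / 4))) := by
                  rw [show 6 + p = (2 + p) + 4 by ring, pow_add]
                  ring
              _ ≤ 4096 * K2 := mul_le_mul_of_nonneg_left e2 (by norm_num)
          have e7 : C2 * (2 * C3 * ((w : ℝ) ^ (2 + p) * Real.exp (-(√(w : ℝ) / 4))) / s) =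
              2 * C2 * C3 * ((w : ℝ) ^ (2 + p) * Real.exp (-(√(w : ℝ) / 4))) / s := by ring
          have e8 : c0 / (N : ℝ) ^ 4 * s = c0 * s / (N : ℝ) ^ 4 := by ring
          rw [e7, e8, div_le_div_iff₀ s0 N4]
          calc 2 * C2 * C3 * ((w : ℝ) ^ (2 + p) * Real.exp (-(√(w : ℝ) / 4))) * (N : ℝ) ^ 4
              = 2 * C2 * C3 *
                ((w : ℝ) ^ (2 + p) * Real.exp (-(√(w : ℝ) / 4)) * (N : ℝ) ^ 4) := by ring
            _ ≤ 2 * C2 * C3 * (4096 * K2) := mul_le_mul_of_nonneg_left e6 (by positivity)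
            _ = 8192 * C2 * C3 * K2 := by ring
            _ ≤ c0 * S := S3
            _ ≤ c0 * s := mul_le_mul_of_nonneg_left s2 hc0.le
            _ = c0 * s * 1 := by ring
            _ ≤ c0 * s * s := mul_le_mul_of_nonneg_left s1 (by positivity)
  refine ⟨2 * S, by linarith, fun κ hκ hκ1 => ?_⟩
  obtain ⟨N, hN⟩ := exists_nat_gt (1 / κ)
  have h1k : 1 ≤ 1 / κ := by
    rw [le_div_iff₀ hκ]
    linarith
  have N1 : (1 : ℝ) ≤ N := by linarith
  have N1' : 1 ≤ N := by exact_mod_cast N1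
  obtain ⟨k0, k1⟩ := ck N N1'
  obtain ⟨s1, s2, s3⟩ := sc N
  refine mono _ _ _ _ k0 ?_ hκ1 s1 s3 (key N N1')
  have e1 : (N : ℝ) ≤ (N : ℝ) ^ 4 := le_self_pow₀ N1 (by norm_num)
  rw [div_le_iff₀ (by positivity)]
  rw [div_lt_iff₀ hκ] at hN
  nlinarith

/-- SCALE INDUCTION. -/
theorem scale_induction (G : ℝ → ℝ → Prop) (A : ℝ → ℕ → ℝ → Prop)
    (hG : ∀ κ κ' s s' : ℝ, 0 < κ → κ ≤ κ' → 0 ≤ s → s ≤ s' → G κ s → G κ' s')
    (hG0 : ∀ κ : ℝ, 0 < κ → κ ≤ 1 → G κ (1 / κ))
    (hflow : ∀ l : ℕ, 1 ≤ l → ∀ s : ℝ, 1 ≤ s → G (1 / (10 ^ 6 * (l : ℝ) ^ 4)) s →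
      ∀ κ : ℝ, 0 < κ → κ ≤ 1 → A κ l (100 * l * s ^ (l - 1)))
    (hex : ∀ κ : ℝ, 0 < κ → κ ≤ 1 → ∀ s : ℝ, 1 ≤ s → ∀ w : ℕ, 2 ≤ w → ∀ m : ℕ → ℝ,
      (∀ l, 0 ≤ m l) → (∀ l, 1 ≤ l → l ≤ w → A κ l (m l)) →
      100000 * ∑ j ∈ Ico 1 w, (j : ℝ) ^ 7 * m j / s ^ j ≤ 1 →
      1000 * (w : ℝ) ^ 2 * m w / s ^ w ≤ κ * s → G κ s) :
    ∃ S : ℝ, 1 ≤ S ∧ ∀ κ : ℝ, 0 < κ → κ ≤ 1 → G κ S := by
  refine scale_induction_gen G A (C1 := 100000) (C2 := 1000) (C3 := 100) (c0 := 1 / 10 ^ 6)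
    (p := 1) (by norm_num) (by norm_num) (by norm_num) (by norm_num) (by norm_num)
    (fun κ κ' s s' h1 h2 _ h3 h4 h5 => hG κ κ' s s' h1 h2 (by linarith) h4 h5) hG0
    (fun l s h1 h2 h3 κ h4 h5 => ?_)
    (fun κ s w m h1 h2 h3 h4 h5 h6 h7 h8 => hex κ h1 h2 s h3 w h4 m h5 h6 h7 h8)
  have e1 : 1 / 10 ^ 6 / (l : ℝ) ^ 4 = 1 / (10 ^ 6 * (l : ℝ) ^ 4) := div_div _ _ _
  rw [e1] at h3
  have h6 := hflow l h1 s h2 h3 κ h4 h5
  rw [pow_one]
  exact h6

end Pool.Agent.Lib.MP_8d00da_gt.h28k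
end

section

/-!
# Paper 344 (quadratic KLS with a universal constant): U.6 (iii): generator of tr(B(G+A)B(G+A))
-/

namespace Pool.Agent.Lib.MP_8d00da_gt.h42k.U

open MeasureTheory Set Filter
open scoped Topology NNReal ENNReal ContDiff

set_option linter.unusedSectionVars false
set_option linter.unusedVariables false

variable {ι : Type} [Fintype ι] [DecidableEq ι]

variable {κ M : ℝ} {V : (ι → ℝ) → ℝ}

private theorem U5b_pd_const (c : ℝ) (i : ι) : pd i (fun _ : ι → ℝ => c) = fun _ => 0 := by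
  funext y
  unfold pd
  simp

private theorem U5b_Gn_const (t c : ℝ) (y : ι → ℝ) : Gn V t (fun _ _ => c) y = 0 := by
  unfold Gn
  simp only [U5b_pd_const, deriv_const, mul_zero, Finset.sum_const_zero, add_zero]

private theorem U5b_Gn_add {Φ Ψ : ℝ → (ι → ℝ) → ℝ} {t : ℝ} {y : ι → ℝ}
    (h1 : ∀ y, ContDiffAt ℝ ∞ (fun p : ℝ × (ι → ℝ) => Φ p.1 p.2) (t, y))
    (h2 : ∀ y, ContDiffAt ℝ ∞ (fun p : ℝ × (ι → ℝ) => Ψ p.1 p.2) (t, y)) :
    Gn V t (fun s y => Φ s y + Ψ s y) y = Gn V t Φ y + Gn V t Ψ y := by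
  have h0 : ∀ y, ContDiffAt ℝ ∞ (fun p : ℝ × (ι → ℝ) =>
      (fun (_ : ℝ) (_ : ι → ℝ) => (0 : ℝ)) p.1 p.2) (t, y) := fun y => contDiffAt_const
  have e1 : (fun s y => Φ s y + Ψ s y) = fun s y =>
      Φ s y - (fun s y => (fun (_ : ℝ) (_ : ι → ℝ) => (0 : ℝ)) s y - Ψ s y) s y := by
    funext s y
    simp
  have e2 : Gn V t (fun s y => (fun (_ : ℝ) (_ : ι → ℝ) => (0 : ℝ)) s y - Ψ s y) y =
      Gn V t (fun (_ : ℝ) (_ : ι → ℝ) => (0 : ℝ)) y - Gn V t Ψ y :=
    Gn_sub h0 h2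
  rw [e1, Gn_sub h1 (fun y => (h0 y).sub (h2 y)), e2, U5b_Gn_const]
  ring

private theorem U5b_Gn_cmul {Φ : ℝ → (ι → ℝ) → ℝ} {t : ℝ} {y : ι → ℝ} (c : ℝ)
    (h1 : ∀ y, ContDiffAt ℝ ∞ (fun p : ℝ × (ι → ℝ) => Φ p.1 p.2) (t, y)) :
    Gn V t (fun s y => c * Φ s y) y = c * Gn V t Φ y := by
  have h0 : ∀ y, ContDiffAt ℝ ∞ (fun p : ℝ × (ι → ℝ) =>
      (fun (_ : ℝ) (_ : ι → ℝ) => c) p.1 p.2) (t, y) := fun y => contDiffAt_const
  have h := Gn_mul (V := V) (Φ := fun (_ : ℝ) (_ : ι → ℝ) => c) (y := y) h0 h1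
  rw [U5b_Gn_const] at h
  refine h.trans ?_
  simp only [U5b_pd_const, zero_mul, Finset.sum_const_zero, mul_zero, add_zero]

private theorem U5b_Gn_sum {α : Type*} (S : Finset α) {F : α → ℝ → (ι → ℝ) → ℝ}
    (H : Nice κ M V) (hF : ∀ a ∈ S, AL V (F a)) {t : ℝ} (ht : -κ < t) (y : ι → ℝ) :
    Gn V t (fun s y => ∑ a ∈ S, F a s y) y = ∑ a ∈ S, Gn V t (F a) y := by
  classical
  induction S using Finset.induction_on with
  | empty =>
    simp only [Finset.sum_empty]
    exact U5b_Gn_const t 0 y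
  | insert a S ha ih =>
    simp only [Finset.sum_insert ha]
    have h1 : AL V (F a) := hF a (Finset.mem_insert_self a S)
    have h2 : AL V (fun s y => ∑ a ∈ S, F a s y) :=
      AL.sum S fun b hb => hF b (Finset.mem_insert_of_mem hb)
    rw [← ih fun b hb => hF b (Finset.mem_insert_of_mem hb)]
    exact U5b_Gn_add (fun y => h1.smooth H ht y) (fun y => h2.smooth H ht y)

private theorem U5b_tr (B S T : Matrix ι ι ℝ) :
    ∑ i, ∑ j, ∑ k, ∑ l, B i j * S j k * (B k l * T l i) = (B * S * (B * T)).trace := by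
  rw [Matrix.trace]
  refine Finset.sum_congr rfl fun i _ => ?_
  rw [Matrix.diag_apply, Matrix.mul_apply]
  have h1 : ∀ k, (B * S) i k * (B * T) k i
      = ∑ j, ∑ l, B i j * S j k * (B k l * T l i) := by
    intro k
    rw [Matrix.mul_apply, Matrix.mul_apply, Finset.sum_mul_sum]
  simp only [h1]
  rw [Finset.sum_comm]

/-- The entry `G_jk + A_jk(s,y)`. -/
private noncomputable def U5b_E (V : (ι → ℝ) → ℝ) (G : Matrix ι ι ℝ) (j k : ι) (s : ℝ)
    (y : ι → ℝ) : ℝ :=
  G j k + CM (pt V s y) j k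

private theorem U5b_E_al (V : (ι → ℝ) → ℝ) (G : Matrix ι ι ℝ) (j k : ι) :
    AL V (U5b_E V G j k) :=
  (AL.const (G j k)).add (AL.cm V j k)

private theorem U5b_E_gn (H : Nice κ M V) (G : Matrix ι ι ℝ) {t : ℝ} (ht : -κ < t) (y : ι → ℝ)
    (j k : ι) : Gn V t (U5b_E V G j k) y = -(CM (pt V t y) * CM (pt V t y)) j k := by
  have h1 : Gn V t (fun s y => G j k + CM (pt V s y) j k) y =
      Gn V t (fun _ _ => G j k) y + Gn V t (fun s y => CM (pt V s y) j k) y :=
    U5b_Gn_add (fun y => contDiffAt_const) (fun y => (AL.cm V j k).smooth H ht y)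
  have h2 : U5b_E V G j k = fun s y => G j k + CM (pt V s y) j k := rfl
  rw [h2, h1, U5b_Gn_const, Gn_CM H ht y j k, Matrix.mul_apply, zero_add]

private theorem U5b_E_pd (H : Nice κ M V) (G : Matrix ι ι ℝ) {t : ℝ} (ht : -κ < t) (y : ι → ℝ)
    (j k i : ι) : pd i (U5b_E V G j k t) y = kp V t y j k i := by
  have h2 : U5b_E V G j k t = fun y => G j k + CM (pt V t y) j k := rfl
  have h3 : Differentiable ℝ (fun y => CM (pt V t y) j k) := by
    intro y
    have h1 := (AL.cm V j k).smooth H ht y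
    have h2 : ContDiffAt ℝ ∞ (fun z : ι → ℝ => ((t, z) : ℝ × (ι → ℝ))) y :=
      contDiffAt_const.prodMk contDiffAt_id
    have h3 := ContDiffAt.comp y h1 h2
    exact h3.differentiableAt (by simp)
  have h4 : pd i (fun y => G j k + CM (pt V t y) j k) y =
      pd i (fun _ => G j k) y + pd i (fun y => CM (pt V t y) j k) y :=
    pd_add (differentiable_const _) h3 i y
  rw [h2, h4, U5b_pd_const, CM_pd H ht y i j k, zero_add]
  rfl

private theorem U5b_al (V : (ι → ℝ) → ℝ) (B G : Matrix ι ι ℝ) :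
    AL V (fun s y => ∑ i, ∑ j, ∑ k, ∑ l,
      B i j * B k l * (U5b_E V G j k s y * U5b_E V G l i s y)) :=
  AL.sum Finset.univ fun i _ => AL.sum Finset.univ fun j _ => AL.sum Finset.univ fun k _ =>
    AL.sum Finset.univ fun l _ => ((U5b_E_al V G j k).mul (U5b_E_al V G l i)).cmul _

private theorem U5b_tq (V : (ι → ℝ) → ℝ) (B G : Matrix ι ι ℝ) :
    (fun s y => tq B (G + CM (pt V s y))) = fun s y => ∑ i, ∑ j, ∑ k, ∑ l,
      B i j * B k l * (U5b_E V G j k s y * U5b_E V G l i s y) := by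
  funext s y
  rw [tq_eq]
  refine Finset.sum_congr rfl fun i _ => Finset.sum_congr rfl fun j _ =>
    Finset.sum_congr rfl fun k _ => Finset.sum_congr rfl fun l _ => ?_
  unfold U5b_E
  rw [Matrix.add_apply, Matrix.add_apply]
  ring

private theorem U5b_gn (H : Nice κ M V) (B G : Matrix ι ι ℝ) {t : ℝ} (ht : -κ < t)
    (y : ι → ℝ) :
    Gn V t (fun s y => tq B (G + CM (pt V s y))) y =
      -2 * (B * (CM (pt V t y) * CM (pt V t y)) * B * (G + CM (pt V t y))).trace +
        tk B (kp V t y) := by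
  have a0 : ∀ i j k l, AL V (fun s y =>
      B i j * B k l * (U5b_E V G j k s y * U5b_E V G l i s y)) := fun i j k l =>
    ((U5b_E_al V G j k).mul (U5b_E_al V G l i)).cmul _
  have a1 : ∀ i j k, AL V (fun s y => ∑ l,
      B i j * B k l * (U5b_E V G j k s y * U5b_E V G l i s y)) := fun i j k =>
    AL.sum Finset.univ fun l _ => a0 i j k l
  have a2 : ∀ i j, AL V (fun s y => ∑ k, ∑ l,
      B i j * B k l * (U5b_E V G j k s y * U5b_E V G l i s y)) := fun i j =>
    AL.sum Finset.univ fun k _ => a1 i j k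
  have a3 : ∀ i, AL V (fun s y => ∑ j, ∑ k, ∑ l,
      B i j * B k l * (U5b_E V G j k s y * U5b_E V G l i s y)) := fun i =>
    AL.sum Finset.univ fun j _ => a2 i j
  rw [U5b_tq, U5b_Gn_sum Finset.univ H (F := fun i s y => ∑ j, ∑ k, ∑ l,
    B i j * B k l * (U5b_E V G j k s y * U5b_E V G l i s y)) (fun i _ => a3 i) ht y]
  have b1 : ∀ i, Gn V t (fun s y => ∑ j, ∑ k, ∑ l,
      B i j * B k l * (U5b_E V G j k s y * U5b_E V G l i s y)) y =
      ∑ j, Gn V t (fun s y => ∑ k, ∑ l,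
      B i j * B k l * (U5b_E V G j k s y * U5b_E V G l i s y)) y := fun i =>
    U5b_Gn_sum Finset.univ H (F := fun j s y => ∑ k, ∑ l,
    B i j * B k l * (U5b_E V G j k s y * U5b_E V G l i s y)) (fun j _ => a2 i j) ht y
  have b2 : ∀ i j, Gn V t (fun s y => ∑ k, ∑ l,
      B i j * B k l * (U5b_E V G j k s y * U5b_E V G l i s y)) y =
      ∑ k, Gn V t (fun s y => ∑ l,
      B i j * B k l * (U5b_E V G j k s y * U5b_E V G l i s y)) y := fun i j =>
    U5b_Gn_sum Finset.univ H (F := fun k s y => ∑ l,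
    B i j * B k l * (U5b_E V G j k s y * U5b_E V G l i s y)) (fun k _ => a1 i j k) ht y
  have b3 : ∀ i j k, Gn V t (fun s y => ∑ l,
      B i j * B k l * (U5b_E V G j k s y * U5b_E V G l i s y)) y =
      ∑ l, Gn V t (fun s y =>
      B i j * B k l * (U5b_E V G j k s y * U5b_E V G l i s y)) y := fun i j k =>
    U5b_Gn_sum Finset.univ H (F := fun l s y =>
    B i j * B k l * (U5b_E V G j k s y * U5b_E V G l i s y)) (fun l _ => a0 i j k l) ht y
  have b4 : ∀ i j k l, Gn V t (fun s y =>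
      B i j * B k l * (U5b_E V G j k s y * U5b_E V G l i s y)) y =
      -(B i j * (G + CM (pt V t y)) j k *
        (B k l * (CM (pt V t y) * CM (pt V t y)) l i)) +
      -(B i j * (CM (pt V t y) * CM (pt V t y)) j k *
        (B k l * (G + CM (pt V t y)) l i)) +
      ∑ m, B i j * kp V t y j k m * (B k l * kp V t y l i m) := by
    intro i j k l
    have c1 : Gn V t (fun s y =>
        B i j * B k l * (U5b_E V G j k s y * U5b_E V G l i s y)) y =
        B i j * B k l * Gn V t (fun s y => U5b_E V G j k s y * U5b_E V G l i s y) y :=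
      U5b_Gn_cmul (B i j * B k l)
        (fun y => ((U5b_E_al V G j k).mul (U5b_E_al V G l i)).smooth H ht y)
    have c2 : Gn V t (fun s y => U5b_E V G j k s y * U5b_E V G l i s y) y =
        U5b_E V G j k t y * Gn V t (U5b_E V G l i) y +
          U5b_E V G l i t y * Gn V t (U5b_E V G j k) y +
          ∑ m, pd m (U5b_E V G j k t) y * pd m (U5b_E V G l i t) y :=
      Gn_mul (fun y => (U5b_E_al V G j k).smooth H ht y)
        (fun y => (U5b_E_al V G l i).smooth H ht y)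
    have c3 : ∑ m, pd m (U5b_E V G j k t) y * pd m (U5b_E V G l i t) y =
        ∑ m, kp V t y j k m * kp V t y l i m :=
      Finset.sum_congr rfl fun m _ => by
        rw [U5b_E_pd H G ht y j k m, U5b_E_pd H G ht y l i m]
    have c4 : ∑ m, B i j * kp V t y j k m * (B k l * kp V t y l i m) =
        B i j * B k l * ∑ m, kp V t y j k m * kp V t y l i m := by
      rw [Finset.mul_sum]
      exact Finset.sum_congr rfl fun m _ => by ring
    rw [c1, c2, c3, c4, U5b_E_gn H G ht y j k, U5b_E_gn H G ht y l i]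
    unfold U5b_E
    rw [Matrix.add_apply, Matrix.add_apply]
    ring
  simp only [b1, b2, b3, b4]
  simp only [Finset.sum_add_distrib, Finset.sum_neg_distrib]
  rw [U5b_tr, U5b_tr]
  have d1 : (B * (G + CM (pt V t y)) * (B * (CM (pt V t y) * CM (pt V t y)))).trace =
      (B * (CM (pt V t y) * CM (pt V t y)) * B * (G + CM (pt V t y))).trace := by
    rw [Matrix.trace_mul_comm]
    simp only [Matrix.mul_assoc]
  have d2 : (B * (CM (pt V t y) * CM (pt V t y)) * (B * (G + CM (pt V t y)))).trace =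
      (B * (CM (pt V t y) * CM (pt V t y)) * B * (G + CM (pt V t y))).trace := by
    simp only [Matrix.mul_assoc]
  have d3 : ∑ i, ∑ j, ∑ k, ∑ l, ∑ m, B i j * kp V t y j k m * (B k l * kp V t y l i m) =
      tk B (kp V t y) := by
    unfold tk
    have e1 : ∀ m, tq B (Matrix.of fun j k => kp V t y j k m) =
        ∑ i, ∑ j, ∑ k, ∑ l, B i j * kp V t y j k m * (B k l * kp V t y l i m) := fun m => by
      rw [tq_eq]
      rfl
    simp only [e1]
    have f1 : ∀ i j k, ∑ l, ∑ m, B i j * kp V t y j k m * (B k l * kp V t y l i m) =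
        ∑ m, ∑ l, B i j * kp V t y j k m * (B k l * kp V t y l i m) :=
      fun i j k => Finset.sum_comm
    have f2 : ∀ i j, ∑ k, ∑ m, ∑ l, B i j * kp V t y j k m * (B k l * kp V t y l i m) =
        ∑ m, ∑ k, ∑ l, B i j * kp V t y j k m * (B k l * kp V t y l i m) :=
      fun i j => Finset.sum_comm
    have f3 : ∀ i, ∑ j, ∑ m, ∑ k, ∑ l, B i j * kp V t y j k m * (B k l * kp V t y l i m) =
        ∑ m, ∑ j, ∑ k, ∑ l, B i j * kp V t y j k m * (B k l * kp V t y l i m) :=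
      fun i => Finset.sum_comm
    simp only [f1, f2, f3]
    exact Finset.sum_comm
  rw [d1, d2, d3]
  ring

/-- U.6 (iii), generator: for a constant matrix `G` the function
`s ↦ GE_s tr(B(G+A_s)B(G+A_s))` has derivative
`GE_s[ -2 tr(B A_s² B (G+A_s)) + ∑_m tr(B κ_m B κ_m) ]` (`B` symmetric). -/
theorem GE_tq_hasDerivAt (H : Nice κ M V) {B G : Matrix ι ι ℝ} (hB : ∀ i j, B i j = B j i)
    (hG : ∀ i j, G i j = G j i) {s : ℝ} (s0 : 0 < s) :
    HasDerivAt (fun s => GE V s (fun y => tq B (G + CM (pt V s y))))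
      (GE V s (fun y => -2 * (B * (CM (pt V s y) * CM (pt V s y)) * B *
        (G + CM (pt V s y))).trace + tk B (kp V s y))) s := by
  have hκ := H.kpos
  have h0 : AL V (fun s y => tq B (G + CM (pt V s y))) := by
    rw [U5b_tq]
    exact U5b_al V B G
  have h1 := h0.generator H s0
  have h2 : Gn V s (fun s y => tq B (G + CM (pt V s y))) =
      fun y => -2 * (B * (CM (pt V s y) * CM (pt V s y)) * B *
        (G + CM (pt V s y))).trace + tk B (kp V s y) :=
    funext fun y => U5b_gn H B G (by linarith) y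
  rw [h2] at h1
  exact h1

theorem GE_tq_cont (H : Nice κ M V) (B G : Matrix ι ι ℝ) :
    ContinuousOn (fun s => GE V s (fun y => tq B (G + CM (pt V s y)))) (Ici 0) := by
  have h0 : AL V (fun s y => tq B (G + CM (pt V s y))) := by
    rw [U5b_tq]
    exact U5b_al V B G
  exact h0.GE_continuousOn H

end Pool.Agent.Lib.MP_8d00da_gt.h42k.U
end

section

/-!
# Paper 344 (quadratic KLS with a universal constant): U.6 (iii): growth of tr(B(G+A)B(G+A))
-/

namespace Pool.Agent.Lib.MP_8d00da_gt.h42k.U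

open MeasureTheory Set Filter
open scoped Topology NNReal ENNReal ContDiff

set_option linter.unusedSectionVars false
set_option linter.unusedVariables false

variable {ι : Type} [Fintype ι] [DecidableEq ι]

variable {κ M : ℝ} {V : (ι → ℝ) → ℝ}

private theorem U5c_mul {P Q : (ι → ℝ) → Matrix ι ι ℝ} (hP : ∀ i j, T0 fun y => P y i j)
    (hQ : ∀ i j, T0 fun y => Q y i j) (i j : ι) : T0 fun y => (P y * Q y) i j := by
  simp only [Matrix.mul_apply]
  exact T0.sum Finset.univ fun k _ => (hP i k).mul (hQ k j)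

private theorem U5c_tr {P : (ι → ℝ) → Matrix ι ι ℝ} (hP : ∀ i j, T0 fun y => P y i j) :
    T0 fun y => (P y).trace := by
  have e : (fun y => (P y).trace) = fun y => ∑ i, P y i i := rfl
  rw [e]
  exact T0.sum Finset.univ fun i _ => hP i i

private theorem U5c_kp (H : Nice κ M V) {s : ℝ} (s0 : 0 ≤ s) (j k m : ι) :
    T0 fun y => kp V s y j k m := by
  have hs : -κ < s := by linarith [H.kpos]
  obtain ⟨Ψ, a1, e1⟩ := (AL.cm V j k).pdx H m
  have e2 : (fun y => kp V s y j k m) = Ψ s := by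
    funext y
    rw [← e1 s hs y, CM_pd H hs y m j k]
    rfl
  rw [e2]
  exact a1.t0 H hs

private theorem U5c_cm (H : Nice κ M V) {s : ℝ} (s0 : 0 ≤ s) (i j : ι) :
    T0 fun y => CM (pt V s y) i j :=
  (AL.cm V i j).t0 H (by linarith [H.kpos])

private theorem U5c_tk (H : Nice κ M V) (B : Matrix ι ι ℝ) {s : ℝ} (s0 : 0 ≤ s) :
    T0 fun y => tk B (kp V s y) := by
  unfold tk tq
  refine T0.sum Finset.univ fun m _ => ?_
  have hk : ∀ i j, T0 fun y => (Matrix.of fun j k => kp V s y j k m) i j := fun i j =>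
    U5c_kp H s0 i j m
  have hB : ∀ i j, T0 fun _ : ι → ℝ => B i j := fun i j => T0.const _
  exact U5c_tr (U5c_mul (U5c_mul hB hk) (U5c_mul hB hk))

private theorem U5c_first (H : Nice κ M V) (B G : Matrix ι ι ℝ) {s : ℝ} (s0 : 0 ≤ s) :
    T0 fun y => (B * (CM (pt V s y) * CM (pt V s y)) * B * (G + CM (pt V s y))).trace := by
  have hB : ∀ i j, T0 fun _ : ι → ℝ => B i j := fun i j => T0.const _
  have hA : ∀ i j, T0 fun y => CM (pt V s y) i j := fun i j => U5c_cm H s0 i j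
  have hG : ∀ i j, T0 fun y => (G + CM (pt V s y)) i j := fun i j =>
    (T0.const (G i j)).add (hA i j)
  exact U5c_tr (U5c_mul (U5c_mul (U5c_mul hB (U5c_mul hA hA)) hB) hG)

/-- `tr(B A² B P) ≥ 0` for symmetric `A`, `B` and positive semidefinite `P`. -/
private theorem U5c_nonneg {A B P : Matrix ι ι ℝ} (hA : ∀ i j, A i j = A j i)
    (hB : ∀ i j, B i j = B j i) (hP : ∀ θ : ι → ℝ, 0 ≤ ∑ i, ∑ j, θ i * P i j * θ j) :
    0 ≤ (B * (A * A) * B * P).trace := by
  have hs : ∀ i j, (A * B) i j = (B * A) j i := by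
    intro i j
    rw [Matrix.mul_apply, Matrix.mul_apply]
    refine Finset.sum_congr rfl fun k _ => ?_
    rw [hA i k, hB k j]
    ring
  have e1 : (B * (A * A) * B * P).trace = (A * B * P * (B * A)).trace := by
    rw [Matrix.trace_mul_comm (A * B * P) (B * A)]
    simp only [Matrix.mul_assoc]
  rw [e1]
  have e2 : (A * B * P * (B * A)).trace =
      ∑ i, ∑ j, ∑ k, (A * B) i j * P j k * (A * B) i k := by
    rw [Matrix.trace]
    refine Finset.sum_congr rfl fun i _ => ?_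
    rw [Matrix.diag_apply, Matrix.mul_apply]
    have e3 : ∀ k, (A * B * P) i k * (B * A) k i = ∑ j, (A * B) i j * P j k * (A * B) i k := by
      intro k
      rw [Matrix.mul_apply, ← hs i k, Finset.sum_mul]
    simp only [e3]
    exact Finset.sum_comm
  rw [e2]
  exact Finset.sum_nonneg fun i _ => hP fun j => (A * B) i j

private theorem U5c_pt0 (V : (ι → ℝ) → ℝ) : pt V 0 0 = V := by
  funext x
  simp [pt, dt]

/-- The value at time `0`. -/
private theorem U5c_start {τ σ t : ℝ} {α : ι → ℝ} {B : Matrix ι ι ℝ} (h : NF τ σ M V α)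
    (hσ : 2 ≤ σ) (hB : ∀ i j, B i j = B j i) (hn : nB (sw σ α) B ≤ 1) (ht : 0 < t) :
    tq B (Matrix.diagonal (fun i => (1 - α i / σ) + t / (τ * σ) * α i) + CM V) ≤
      (1 + 2 * (t / (τ * σ))) ^ 2 := by
  have hτ := h.nice.kpos
  have hr : 0 ≤ t / (τ * σ) := by positivity
  have e1 : Matrix.diagonal (fun i => (1 - α i / σ) + t / (τ * σ) * α i) + CM V =
      Matrix.diagonal (fun i => (1 - α i / σ) + t / (τ * σ) * α i + α i) := by
    rw [h.cm, Matrix.diagonal_add]
  rw [e1, tq_diag hB]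
  have h1 : nB (fun i => (1 - α i / σ) + t / (τ * σ) * α i + α i) B ≤
      nB (fun i => (1 + 2 * (t / (τ * σ))) * sw σ α i) B := by
    refine nB_mono (fun i => ?_) (fun i => ?_) B
    · have := (h.sw_facts hσ i).2.2.2.1
      have := h.nn i
      positivity
    · have h2 := (h.sw_facts hσ i).2.2.1
      have h3 := (h.sw_facts hσ i).2.2.2.2.2
      have h4 := mul_le_mul_of_nonneg_left h2 hr
      rw [← h3] at h4 ⊢
      linarith
  have h2 : nB (fun i => (1 + 2 * (t / (τ * σ))) * sw σ α i) B =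
      (1 + 2 * (t / (τ * σ))) ^ 2 * nB (sw σ α) B := by
    unfold nB
    rw [Finset.mul_sum]
    refine Finset.sum_congr rfl fun i _ => ?_
    rw [Finset.mul_sum]
    exact Finset.sum_congr rfl fun j _ => by ring
  rw [h2] at h1
  exact h1.trans (mul_le_of_le_one_right (sq_nonneg _) hn)

/-- U.6 (iii): for `V` in normal form, `G = R + (t/(τσ)) A`:
`GE_t tr(B(G+A_t)B(G+A_t)) ≤ (1+2t/(τσ))² + 2σK t + C t^{3/2}` if `nB (sw σ α) B ≤ 1`.
(`tq B (G + CM V) = nB (S_i + (t/(τσ)) α_i) B ≤ (1+2t/(τσ))²`; the first term of the derivative is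
`≤ 0`; `NF.tk_kp_le`; `(1+δ)²(2+δ) ≤ 2 + Cδ`; `mvt_sqrt'`.) -/
theorem step_iii (ι : Type) [Fintype ι] [DecidableEq ι] {τ₀ σ₁ K₁ : ℝ} (h0 : 0 < τ₀) :
    ∃ C : ℝ, 0 ≤ C ∧ ∀ (τ σ M K t : ℝ) (V : (ι → ℝ) → ℝ) (α : ι → ℝ) (B : Matrix ι ι ℝ),
      τ₀ ≤ τ → 2 ≤ σ → σ ≤ σ₁ → 0 ≤ K → K ≤ K₁ → QT ι τ K → NF τ σ M V α →
      (∀ i j, B i j = B j i) → nB (sw σ α) B ≤ 1 → 0 < t →
      GE V t (fun y => tq B (Matrix.diagonal (fun i => (1 - α i / σ) + t / (τ * σ) * α i) +
        CM (pt V t y))) ≤ (1 + 2 * (t / (τ * σ))) ^ 2 + 2 * σ * K * t + C * (t * √t) := by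
  obtain ⟨C1, hC1, h1⟩ := GE_dl_errors ι h0
  set D : ℝ := 2 * Fintype.card ι / τ₀ with hD
  have hD0 : 0 ≤ D := by positivity
  refine ⟨|σ₁| * |K₁| * ((5 + 4 * D + D ^ 2) * C1), by positivity, ?_⟩
  intro τ σ M K t V α B hτ hσ hσ1 hK hK1 hQ h hB hn ht
  have hτ0 : 0 < τ := h.nice.kpos
  have hσ0 : 0 < σ := by linarith
  have H := h.nice
  set G : Matrix ι ι ℝ := Matrix.diagonal (fun i => (1 - α i / σ) + t / (τ * σ) * α i) with hG
  have hGs : ∀ i j, G i j = G j i := by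
    intro i j
    rw [hG]
    by_cases hij : i = j
    · rw [hij]
    · rw [Matrix.diagonal_apply_ne _ hij, Matrix.diagonal_apply_ne _ (Ne.symm hij)]
  have hg : ∀ i, 0 ≤ (1 - α i / σ) + t / (τ * σ) * α i := by
    intro i
    have := (h.sw_facts hσ i).2.2.2.1
    have := h.nn i
    positivity
  have hE : |σ₁| * |K₁| * ((5 + 4 * D + D ^ 2) * C1) =
      |σ₁| * |K₁| * ((5 + 4 * D + D ^ 2) * C1) := rfl
  have key : ∀ s ∈ Ioo 0 t, GE V s (fun y => -2 * (B * (CM (pt V s y) * CM (pt V s y)) * B *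
        (G + CM (pt V s y))).trace + tk B (kp V s y)) ≤
      2 * σ * K + |σ₁| * |K₁| * ((5 + 4 * D + D ^ 2) * C1) * √s := by
    intro s hs
    have s0 : 0 ≤ s := hs.1.le
    have hdl : T0 (dl V s) := dl_t0 H s0
    have t1 : T0 (fun y => -2 * (B * (CM (pt V s y) * CM (pt V s y)) * B *
        (G + CM (pt V s y))).trace + tk B (kp V s y)) :=
      ((U5c_first H B G s0).cmul (-2)).add (U5c_tk H B s0)
    have t2 : T0 (fun y => σ * K * (2 + (5 + 4 * D + D ^ 2) * dl V s y)) :=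
      ((T0.const 2).add (hdl.cmul _)).cmul (σ * K)
    have m1 : GE V s (fun y => -2 * (B * (CM (pt V s y) * CM (pt V s y)) * B *
        (G + CM (pt V s y))).trace + tk B (kp V s y)) ≤
        GE V s (fun y => σ * K * (2 + (5 + 4 * D + D ^ 2) * dl V s y)) := by
      refine GE_mono H t1 t2 s fun y => ?_
      have hn' := H.ptn (t := s) (by linarith) y
      have a1 : 0 ≤ (B * (CM (pt V s y) * CM (pt V s y)) * B *
          (G + CM (pt V s y))).trace := by
        refine U5c_nonneg (fun i j => CM_symm _ i j) hB fun θ => ?_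
        have b1 : ∑ i, ∑ j, θ i * (G + CM (pt V s y)) i j * θ j =
            (∑ i, ((1 - α i / σ) + t / (τ * σ) * α i) * θ i ^ 2) +
              ∑ i, ∑ j, θ i * CM (pt V s y) i j * θ j := by
          rw [← Finset.sum_add_distrib]
          refine Finset.sum_congr rfl fun i _ => ?_
          have b2 : ∀ j, θ i * (G + CM (pt V s y)) i j * θ j =
              θ i * G i j * θ j + θ i * CM (pt V s y) i j * θ j := by
            intro j
            rw [Matrix.add_apply]
            ring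
          simp only [b2]
          rw [Finset.sum_add_distrib]
          congr 1
          rw [Finset.sum_eq_single i]
          · rw [hG, Matrix.diagonal_apply_eq]
            ring
          · intro j _ hj
            rw [hG, Matrix.diagonal_apply_ne _ hj.symm]
            ring
          · intro hi
            exact absurd (Finset.mem_univ i) hi
        rw [b1, CM_quad hn']
        exact add_nonneg (Finset.sum_nonneg fun i _ => mul_nonneg (hg i) (sq_nonneg _))
          (var_nonneg hn' (T0.dtf θ))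
      have a2 := h.tk_kp_le hσ hQ hK s0 y hB
      have d0 := dl_nonneg V s y
      have d1 : dl V s y ≤ D := by
        refine (dl_le H s0 y).trans ?_
        rw [hD]
        exact div_le_div_of_nonneg_left (by positivity) h0 hτ
      have a3 : (1 + dl V s y) ^ 2 * (2 + dl V s y) ≤ 2 + (5 + 4 * D + D ^ 2) * dl V s y := by
        have c1 : dl V s y ^ 2 ≤ D * dl V s y := by nlinarith
        have c2 : dl V s y ^ 3 ≤ D ^ 2 * dl V s y := by
          have : dl V s y ^ 2 ≤ D ^ 2 := pow_le_pow_left₀ d0 d1 2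
          nlinarith
        nlinarith
      have a4 : σ * K * (1 + dl V s y) ^ 2 * (2 + dl V s y) * nB (sw σ α) B ≤
          σ * K * (2 + (5 + 4 * D + D ^ 2) * dl V s y) := by
        have c0 : 0 ≤ σ * K := by positivity
        have c1 : 0 ≤ (1 + dl V s y) ^ 2 * (2 + dl V s y) := by positivity
        calc σ * K * (1 + dl V s y) ^ 2 * (2 + dl V s y) * nB (sw σ α) B
            = σ * K * ((1 + dl V s y) ^ 2 * (2 + dl V s y)) * nB (sw σ α) B := by ring
          _ ≤ σ * K * ((1 + dl V s y) ^ 2 * (2 + dl V s y)) * 1 :=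
            mul_le_mul_of_nonneg_left hn (mul_nonneg c0 c1)
          _ = σ * K * ((1 + dl V s y) ^ 2 * (2 + dl V s y)) := mul_one _
          _ ≤ _ := mul_le_mul_of_nonneg_left a3 c0
      linarith
    have m2 : GE V s (fun y => σ * K * (2 + (5 + 4 * D + D ^ 2) * dl V s y)) =
        σ * K * (2 + (5 + 4 * D + D ^ 2) * GE V s (dl V s)) := by
      rw [GE_cmul, GE_add H (T0.const 2) (hdl.cmul _), GE_const H, GE_cmul]
    have m3 : GE V s (dl V s) ≤ C1 * √s :=
      (h1 τ M V hτ H h.mean 0 (by simp) s s0).1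
    have m4 : σ * K ≤ |σ₁| * |K₁| :=
      mul_le_mul (hσ1.trans (le_abs_self _)) (hK1.trans (le_abs_self _)) hK (abs_nonneg _)
    have m5 : 0 ≤ (5 + 4 * D + D ^ 2) * (C1 * √s) := by positivity
    have m6 : (5 + 4 * D + D ^ 2) * GE V s (dl V s) ≤ (5 + 4 * D + D ^ 2) * (C1 * √s) :=
      mul_le_mul_of_nonneg_left m3 (by positivity)
    have m7 : 0 ≤ σ * K := by positivity
    calc GE V s (fun y => -2 * (B * (CM (pt V s y) * CM (pt V s y)) * B *
          (G + CM (pt V s y))).trace + tk B (kp V s y))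
        ≤ σ * K * (2 + (5 + 4 * D + D ^ 2) * GE V s (dl V s)) := m1.trans (le_of_eq m2)
      _ ≤ σ * K * (2 + (5 + 4 * D + D ^ 2) * (C1 * √s)) :=
        mul_le_mul_of_nonneg_left (by linarith) m7
      _ = 2 * σ * K + σ * K * ((5 + 4 * D + D ^ 2) * (C1 * √s)) := by ring
      _ ≤ 2 * σ * K + |σ₁| * |K₁| * ((5 + 4 * D + D ^ 2) * (C1 * √s)) := by
        have := mul_le_mul_of_nonneg_right m4 m5
        linarith
      _ = 2 * σ * K + |σ₁| * |K₁| * ((5 + 4 * D + D ^ 2) * C1) * √s := by ring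
  have fin := mvt_sqrt' (F := fun s => GE V s (fun y => tq B (G + CM (pt V s y))))
    (F' := fun s => GE V s (fun y => -2 * (B * (CM (pt V s y) * CM (pt V s y)) * B *
        (G + CM (pt V s y))).trace + tk B (kp V s y))) (t := t) (c := 2 * σ * K)
    (C := |σ₁| * |K₁| * ((5 + 4 * D + D ^ 2) * C1)) ht.le (by positivity)
    ((GE_tq_cont H B G).mono fun s hs => hs.1)
    (fun s hs => GE_tq_hasDerivAt H hB hGs hs.1) key
  have fin0 : GE V 0 (fun y => tq B (G + CM (pt V 0 y))) ≤ (1 + 2 * (t / (τ * σ))) ^ 2 := by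
    rw [GE_zero H, U5c_pt0]
    exact U5c_start h hσ hB hn ht
  have fin' : GE V t (fun y => tq B (G + CM (pt V t y))) ≤
      GE V 0 (fun y => tq B (G + CM (pt V 0 y))) + 2 * σ * K * t +
        |σ₁| * |K₁| * ((5 + 4 * D + D ^ 2) * C1) * (t * √t) := fin
  linarith

end Pool.Agent.Lib.MP_8d00da_gt.h42k.U
end

section

/-!
# The flow for polynomials (full KLS, part gamma): elementary properties of the class inequality
-/

namespace Pool.Agent.Lib.MP_8d00da_gt.h42k.G

open MeasureTheory Set Filter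
open scoped Topology NNReal ENNReal ContDiff
open Pool.Agent.Lib.MP_8d00da_gt.h42k.U (NF sw QT)

set_option linter.unusedSectionVars false
set_option linter.unusedVariables false

variable {ι : Type} [Fintype ι] [DecidableEq ι]

variable {κ M : ℝ} {V : (ι → ℝ) → ℝ}

private theorem GP3c_Qj_nn (H : Nice κ M V) (j : ℕ) (p : MvPolynomial ι ℝ) :
    0 ≤ Qj V (1 + CM V) j p p :=
  Qj_psd_nonneg H (U.one_add_CM_psd H) j p

/-- `Q_j` is homogeneous of degree `j` in `X`. -/
private theorem GP3c_Qj_smul (r : ℝ) (X : Matrix ι ι ℝ) (j : ℕ) :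
    ∀ p q : MvPolynomial ι ℝ, Qj V (r • X) j p q = r ^ j * Qj V X j p q := by
  induction j with
  | zero =>
    intro p q
    rw [pow_zero, one_mul]
    rfl
  | succ j ih =>
    intro p q
    show ∑ i, ∑ k, (r • X) i k *
      Qj V (r • X) j (MvPolynomial.pderiv i p) (MvPolynomial.pderiv k q) =
      r ^ (j + 1) * ∑ i, ∑ k, X i k * Qj V X j (MvPolynomial.pderiv i p) (MvPolynomial.pderiv k q)
    rw [Finset.mul_sum]
    refine Finset.sum_congr rfl fun i _ => ?_
    rw [Finset.mul_sum]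
    refine Finset.sum_congr rfl fun k _ => ?_
    rw [ih, Matrix.smul_apply, smul_eq_mul, pow_succ]
    ring

/-- Larger weights. -/
theorem PTw.mono_w {b : ℕ} {τ : ℝ} {w w' : ℕ → ℝ} (h : PTw ι b τ w)
    (hw : ∀ j ∈ Finset.Icc 1 b, w j ≤ w' j) : PTw ι b τ w' := by
  intro M V H p hp
  exact (h M V H p hp).trans (Finset.sum_le_sum fun j hj =>
    mul_le_mul_of_nonneg_right (hw j hj) (GP3c_Qj_nn H j p))

/-- Smaller classes. -/
theorem PTw.mono_left {b : ℕ} {τ τ' : ℝ} {w : ℕ → ℝ} (h : PTw ι b τ w) (hτ : 0 < τ)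
    (hle : τ ≤ τ') : PTw ι b τ' w := by
  intro M V H p hp
  refine h M V ⟨hτ, H.c2, fun x u => ?_, H.hi⟩ p hp
  exact (mul_le_mul_of_nonneg_right hle (sq_nn u)).trans (H.lo x u)

/-- Smaller degree. -/
theorem PTw.mono_b {b b' : ℕ} {τ : ℝ} {w : ℕ → ℝ} (h : PTw ι b τ w) (hb : b' ≤ b) :
    PTw ι b' τ w := by
  intro M V H p hp
  refine (h M V H p (hp.trans hb)).trans (le_of_eq ?_)
  symm
  refine Finset.sum_subset (Finset.Icc_subset_Icc_right hb) fun j hj hj' => ?_
  rw [Finset.mem_Icc] at hj hj'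
  rw [Qj_zero_of_deg _ (by omega : p.totalDegree < j), mul_zero]

/-- The class constant is closed: `(P_τ; c, m')` for all `m' > m` gives `(P_τ; c, m)`. -/
theorem PT.closed {b : ℕ} {τ c m : ℝ} (h : ∀ m', m < m' → PT ι b τ c m') : PT ι b τ c m := by
  intro M V H p hp
  have h1 : Continuous fun m' : ℝ =>
      ∑ j ∈ Finset.Icc 1 b, c * m' ^ j * Qj V (1 + CM V) j p p :=
    continuous_finsetSum _ fun j _ => (continuous_const.mul (continuous_pow j)).mul continuous_const
  have h2 : Tendsto (fun m' : ℝ => ∑ j ∈ Finset.Icc 1 b, c * m' ^ j * Qj V (1 + CM V) j p p)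
      (𝓝[>] m) (𝓝 (∑ j ∈ Finset.Icc 1 b, c * m ^ j * Qj V (1 + CM V) j p p)) :=
    (h1.tendsto m).mono_left nhdsWithin_le_nhds
  refine ge_of_tendsto h2 ?_
  filter_upwards [self_mem_nhdsWithin] with m' hm'
  exact h m' hm' M V H p hp

/-- Scaling: `W(x) = V(λ x)`, `λ² = τ'/τ ≥ 1`, is in the class of `τ'`; `Cov W = Cov V/λ² ≤ Cov V`:
the weights get multiplied by `(τ'/τ)^j`. -/
theorem PT.scale {b : ℕ} {τ τ' c m : ℝ} (hτ : 0 < τ) (hle : τ ≤ τ') (hc : 0 ≤ c) (hm : 0 ≤ m)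
    (h : PT ι b τ' c m) : PT ι b τ c (m * (τ' / τ)) := by
  intro M V H p hp
  have hτ' : 0 < τ' := hτ.trans_le hle
  set r : ℝ := τ' / τ with hr
  have hr1 : 1 ≤ r := (one_le_div hτ).2 hle
  have hr0 : 0 < r := one_pos.trans_le hr1
  set l : ℝ := √r with hl
  have hl0 : 0 < l := Real.sqrt_pos.2 hr0
  have hll : l * l = r := Real.mul_self_sqrt hr0.le
  have e1 : (l • (1 : Matrix ι ι ℝ)) * (l⁻¹ • (1 : Matrix ι ι ℝ)) = 1 := by
    rw [Matrix.smul_mul, Matrix.one_mul, smul_smul, mul_inv_cancel₀ hl0.ne', one_smul]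
  have e2 : ∀ x u, τ' * sq ((l⁻¹ • (1 : Matrix ι ι ℝ)).mulVec u) ≤ hs V x u := by
    intro x u
    have h3 : (l⁻¹ • (1 : Matrix ι ι ℝ)).mulVec u = fun i => l⁻¹ * u i := by
      rw [Matrix.smul_mulVec, Matrix.one_mulVec]
      rfl
    rw [h3, sq_smul]
    have h4 : τ' * (l⁻¹ ^ 2 * sq u) = τ * sq u := by
      rw [inv_pow, pow_two, hll, hr]
      field_simp
    rw [h4]
    exact H.lo x u
  have h5 := PTw.lin hτ' h H e1 e2 hp
  refine h5.trans (Finset.sum_le_sum fun j _ => ?_)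
  have h6 : l • (1 : Matrix ι ι ℝ) * (l • (1 : Matrix ι ι ℝ)).transpose = r • 1 := by
    rw [Matrix.transpose_smul, Matrix.transpose_one, Matrix.smul_mul, Matrix.one_mul, smul_smul,
      hll]
  have hX : PSD (r • (1 : Matrix ι ι ℝ) + CM V) := by
    have h7 := U.diag_add_CM_psd H (r := fun _ => r) fun _ => hr0.le
    rwa [← Matrix.smul_one_eq_diagonal] at h7
  have hXY : PSD (r • (1 + CM V) - (r • (1 : Matrix ι ι ℝ) + CM V)) := by
    have h8 : r • (1 + CM V) - (r • (1 : Matrix ι ι ℝ) + CM V) = (r - 1) • CM V := by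
      rw [smul_add, sub_smul, one_smul]
      abel
    rw [h8]
    have h9 := CM_PSD H
    refine ⟨?_, fun θ => ?_⟩
    · rw [Matrix.transpose_smul, h9.symm]
    · have h10 : ∑ i, ∑ k, θ i * ((r - 1) • CM V) i k * θ k =
          (r - 1) * ∑ i, ∑ k, θ i * CM V i k * θ k := by
        rw [Finset.mul_sum]
        refine Finset.sum_congr rfl fun i _ => ?_
        rw [Finset.mul_sum]
        refine Finset.sum_congr rfl fun k _ => ?_
        rw [Matrix.smul_apply, smul_eq_mul]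
        ring
      rw [h10]
      exact mul_nonneg (by linarith) (h9.nn θ)
  have h11 := Qj_psd_mono H hX hXY j p
  rw [GP3c_Qj_smul] at h11
  rw [h6]
  calc c * m ^ j * Qj V (r • (1 : Matrix ι ι ℝ) + CM V) j p p ≤
        c * m ^ j * (r ^ j * Qj V (1 + CM V) j p p) :=
        mul_le_mul_of_nonneg_left h11 (mul_nonneg hc (pow_nonneg hm j))
    _ = c * (m * r) ^ j * Qj V (1 + CM V) j p p := by
        rw [mul_pow]
        ring

private theorem GP3c_aux (H : Nice κ M V) (b : ℕ) :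
    ∀ p : MvPolynomial ι ℝ, p.totalDegree ≤ b →
      var V (ev p) ≤ ∑ j ∈ Finset.Icc 1 b, (1 / κ) ^ j * Qj V 1 j p p := by
  induction b with
  | zero =>
    intro p hp
    have h1 : p = MvPolynomial.C (p.coeff 0) :=
      MvPolynomial.totalDegree_eq_zero_iff_eq_C.1 (Nat.le_zero.1 hp)
    have h2 : ev p = fun _ => p.coeff 0 := by
      funext x
      rw [h1]
      simp [ev]
    have h3 : var V (ev p) = 0 := by
      unfold var
      rw [h2]
      exact cov_const H (T0.const _) _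
    rw [h3]
    simp
  | succ b ih =>
    intro p hp
    have h1 : ∀ i, (MvPolynomial.pderiv i p).totalDegree ≤ b := fun i =>
      (totalDegree_pderiv_le i p).trans (by omega)
    have hκ := H.kpos
    have h2 := H.pi (ev p) (ev_T1 p)
    have h3 : ex V (gs (ev p)) = ∑ i, ex V (fun x => ev (MvPolynomial.pderiv i p) x ^ 2) := by
      have h4 : gs (ev p) = fun x => ∑ i, ev (MvPolynomial.pderiv i p) x ^ 2 := by
        funext x
        unfold gs
        exact Finset.sum_congr rfl fun i _ => by rw [pd_ev]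
      rw [h4]
      exact ex_sum H Finset.univ fun i _ => (ev_T0 _).pow 2
    have h5 : ∀ i, ex V (fun x => ev (MvPolynomial.pderiv i p) x ^ 2) ≤
        ∑ j ∈ Finset.range (b + 1),
          (1 / κ) ^ j * Qj V 1 j (MvPolynomial.pderiv i p) (MvPolynomial.pderiv i p) := by
      intro i
      have h6 := ih _ (h1 i)
      rw [var_eq'] at h6
      have h7 : ∑ j ∈ Finset.range (b + 1),
          (1 / κ) ^ j * Qj V 1 j (MvPolynomial.pderiv i p) (MvPolynomial.pderiv i p) =
          (∑ j ∈ Finset.Icc 1 b,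
            (1 / κ) ^ j * Qj V 1 j (MvPolynomial.pderiv i p) (MvPolynomial.pderiv i p)) +
          ex V (ev (MvPolynomial.pderiv i p)) ^ 2 := by
        have h8 : Finset.Icc 1 b = (Finset.range b).map (addRightEmbedding 1) := by
          ext x
          simp only [Finset.mem_Icc, Finset.mem_map, Finset.mem_range, addRightEmbedding_apply]
          constructor
          · rintro ⟨h9, h10⟩
            exact ⟨x - 1, by omega, by omega⟩
          · rintro ⟨a, h9, h10⟩
            omega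
        rw [h8, Finset.sum_map, Finset.sum_range_succ']
        simp only [addRightEmbedding_apply, pow_zero, one_mul]
        congr 1
        show ex V (ev (MvPolynomial.pderiv i p)) * ex V (ev (MvPolynomial.pderiv i p)) = _
        rw [pow_two]
      rw [h7]
      linarith
    have h9 : (∑ j ∈ Finset.Icc 1 (b + 1), (1 / κ) ^ j * Qj V 1 j p p) =
        1 / κ * ∑ i, ∑ j ∈ Finset.range (b + 1),
          (1 / κ) ^ j * Qj V 1 j (MvPolynomial.pderiv i p) (MvPolynomial.pderiv i p) := by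
      have h8 : Finset.Icc 1 (b + 1) = (Finset.range (b + 1)).map (addRightEmbedding 1) := by
        ext x
        simp only [Finset.mem_Icc, Finset.mem_map, Finset.mem_range, addRightEmbedding_apply]
        constructor
        · rintro ⟨h9, h10⟩
          exact ⟨x - 1, by omega, by omega⟩
        · rintro ⟨a, h9, h10⟩
          omega
      rw [h8, Finset.sum_map, Finset.sum_comm, Finset.mul_sum]
      refine Finset.sum_congr rfl fun j _ => ?_
      rw [addRightEmbedding_apply, ← Matrix.diagonal_one, Qj_diag_succ, Finset.mul_sum,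
        Finset.mul_sum]
      refine Finset.sum_congr rfl fun i _ => ?_
      rw [pow_succ]
      ring
    rw [h9]
    refine h2.trans (mul_le_mul_of_nonneg_left ?_ (by positivity))
    rw [h3]
    exact Finset.sum_le_sum fun i _ => h5 i

/-- A priori bound (not needed for the flow): Poincare `1/τ` and iteration. -/
theorem PTw_apriori (b : ℕ) {τ : ℝ} (hτ : 0 < τ) : PTw ι b τ (fun j => (1 / τ) ^ j) := by
  intro M V H p hp
  refine (GP3c_aux H b p hp).trans (Finset.sum_le_sum fun j _ => ?_)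
  refine mul_le_mul_of_nonneg_left ?_ (by positivity)
  refine Qj_psd_mono H ?_ ?_ j p
  · have h7 := U.U2a_diag_psd (ι := ι) (r := fun _ => 1) fun _ => zero_le_one
    rwa [Matrix.diagonal_one] at h7
  · rw [add_sub_cancel_left]
    exact CM_PSD H

end Pool.Agent.Lib.MP_8d00da_gt.h42k.G
end
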