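import Pool.Agent.Lib.MP_8d00da_gt.h42k.GP2b
import Pool.Agent.Lib.MP_8d00da_gt.h42k.U3b
import Pool.Agent.Lib.MP_8d00da_gt.h42k.UDefs
import Pool.Agent.Lib.MP_8d00da_gt.h42k.G49b
import Pool.Agent.Lib.MP_8d00da_gt.h42k.U4e

section

section

/-!
# The flow for polynomials (full KLS, part gamma): third moments in normal form, vector version
-/

namespace Pool.Agent.Lib.MP_8d00da_gt.h42k.G

open MeasureTheory Set Filter
open scoped Topology NNReal ENNReal ContDiff
open Pool.Agent.Lib.MP_8d00da_gt.h42k.U (NF sw QT)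

set_option linter.unusedSectionVars false
set_option linter.unusedVariables false

variable {ι : Type} [Fintype ι] [DecidableEq ι]

variable {κ M : ℝ} {V : (ι → ℝ) → ℝ}

private theorem GP7a_pt0 (V : (ι → ℝ) → ℝ) : pt V 0 0 = V := by
  funext x
  simp [pt, dt]

private theorem GP7a_dl0 (V : (ι → ℝ) → ℝ) : U.dl V 0 0 = 0 := by
  unfold U.dl
  rw [GP7a_pt0]
  simp

/-- From quadratic KLS: `H3 V S (2σK)` in normal form (`U.NF.kp_dual` at `s = 0`, `S_m ≤ σ`,
`⟨Aw,w⟩ = ∑ α_i w_i² ≤ 2 ∑ S_i w_i²`). -/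
theorem nf_H3 {τ σ K : ℝ} {α : ι → ℝ} (h : NF τ σ M V α) (hσ : 2 ≤ σ) (hQ : QT ι τ K)
    (hK : 0 ≤ K) : H3 V (sw σ α) (2 * σ * K) := by
  intro w
  have hσ0 : 0 ≤ σ := by linarith
  have hS : ∀ i, 0 < sw σ α i := fun i => by linarith [(h.sw_facts hσ i).1]
  have h1 := h.kp_dual hσ hQ hK (le_refl (0 : ℝ)) 0 w
  rw [GP7a_dl0, GP7a_pt0, add_zero, one_pow, mul_one] at h1
  have h2 : var V (fun x => dt w x) = ∑ i, α i * w i ^ 2 := by
    rw [← CM_quad h.nice, h.cm]
    refine Finset.sum_congr rfl fun i _ => ?_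
    rw [Finset.sum_eq_single i]
    · rw [Matrix.diagonal_apply_eq]
      ring
    · intro j _ hj
      rw [Matrix.diagonal_apply_ne _ hj.symm]
      ring
    · intro hi
      exact absurd (Finset.mem_univ i) hi
  have h3 : var V (fun x => dt w x) ≤ 2 * ∑ i, sw σ α i * w i ^ 2 := by
    rw [h2, Finset.mul_sum]
    refine Finset.sum_le_sum fun i _ => ?_
    have := (h.sw_facts hσ i).2.2.1
    nlinarith [sq_nonneg (w i)]
  have h4 : ∑ k, ∑ m, (∑ i, TM V i k m * w i) ^ 2 / sw σ α k ≤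
      σ * ∑ k, ∑ m, (∑ i, U.kp V 0 0 i k m * w i) ^ 2 / (sw σ α k * sw σ α m) := by
    rw [Finset.mul_sum]
    refine Finset.sum_le_sum fun k _ => ?_
    rw [Finset.mul_sum]
    refine Finset.sum_le_sum fun m _ => ?_
    have h5 : (∑ i, TM V i k m * w i) ^ 2 / sw σ α k =
        sw σ α m * ((∑ i, U.kp V 0 0 i k m * w i) ^ 2 / (sw σ α k * sw σ α m)) := by
      unfold U.kp
      rw [GP7a_pt0]
      have := (hS k).ne'
      have := (hS m).ne'
      field_simp
    rw [h5]
    exact mul_le_mul_of_nonneg_right (h.sw_facts hσ m).2.1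
      (div_nonneg (sq_nonneg _) (mul_pos (hS k) (hS m)).le)
  calc ∑ k, ∑ m, (∑ i, TM V i k m * w i) ^ 2 / sw σ α k
      ≤ σ * ∑ k, ∑ m, (∑ i, U.kp V 0 0 i k m * w i) ^ 2 / (sw σ α k * sw σ α m) := h4
    _ ≤ σ * (K * var V (fun x => dt w x)) := mul_le_mul_of_nonneg_left h1 hσ0
    _ ≤ σ * (K * (2 * ∑ i, sw σ α i * w i ^ 2)) :=
      mul_le_mul_of_nonneg_left (mul_le_mul_of_nonneg_left h3 hK) hσ0
    _ = 2 * σ * K * ∑ i, sw σ α i * w i ^ 2 := by ring

private theorem GP7a_ex_sum (H : Nice κ M V) (s : Finset ι) (a : ι → ℝ)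
    (p : ι → MvPolynomial ι ℝ) :
    ex V (ev (∑ i ∈ s, a i • p i)) = ∑ i ∈ s, a i * ex V (ev (p i)) := by
  have h1 : ev (∑ i ∈ s, a i • p i) = fun x => ∑ i ∈ s, a i * ev (p i) x := by
    rw [ev_sum]
    funext x
    exact Finset.sum_congr rfl fun i _ => congrFun (ev_smul _ _) x
  rw [h1, ex_sum H s (F := fun i x => a i * ev (p i) x) fun i _ => (ev_T0 (p i)).cmul _]
  exact Finset.sum_congr rfl fun i _ => ex_cmul _ _ _

/-- Vector version: `∑_km N_j(∑_i κ_ikm p_i)/S_k ≤ θ ∑ S_i N_j(p_i)` (induction on `j`). -/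
theorem H3.vec (H : Nice κ M V) {S : ι → ℝ} {θ : ℝ} (hS : ∀ i, 0 < S i) (h : H3 V S θ) (j : ℕ)
    (p : ι → MvPolynomial ι ℝ) :
    ∑ k, ∑ m, Qj V (Matrix.diagonal S) j (∑ i, TM V i k m • p i) (∑ i, TM V i k m • p i) / S k ≤
      θ * ∑ i, S i * Qj V (Matrix.diagonal S) j (p i) (p i) := by
  induction j generalizing p with
  | zero =>
    have h1 := h fun i => ex V (ev (p i))
    have e1 : ∀ k m, Qj V (Matrix.diagonal S) 0 (∑ i, TM V i k m • p i)
        (∑ i, TM V i k m • p i) = (∑ i, TM V i k m * ex V (ev (p i))) ^ 2 := by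
      intro k m
      show ex V (ev (∑ i, TM V i k m • p i)) * ex V (ev (∑ i, TM V i k m • p i)) = _
      rw [GP7a_ex_sum H Finset.univ (fun i => TM V i k m) p, pow_two]
    have e2 : ∀ i, Qj V (Matrix.diagonal S) 0 (p i) (p i) = ex V (ev (p i)) ^ 2 := by
      intro i
      show ex V (ev (p i)) * ex V (ev (p i)) = _
      rw [pow_two]
    simp only [e1, e2]
    exact h1
  | succ j ih =>
    have e0 : ∀ l k m, MvPolynomial.pderiv l (∑ i, TM V i k m • p i) =
        ∑ i, TM V i k m • MvPolynomial.pderiv l (p i) := by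
      intro l k m
      rw [map_sum]
      exact Finset.sum_congr rfl fun i _ => Derivation.map_smul _ _ _
    have e1 : ∑ k, ∑ m, Qj V (Matrix.diagonal S) (j + 1) (∑ i, TM V i k m • p i)
        (∑ i, TM V i k m • p i) / S k = ∑ l, S l * ∑ k, ∑ m, Qj V (Matrix.diagonal S) j
          (∑ i, TM V i k m • MvPolynomial.pderiv l (p i))
          (∑ i, TM V i k m • MvPolynomial.pderiv l (p i)) / S k := by
      have e2 : ∀ k m, Qj V (Matrix.diagonal S) (j + 1) (∑ i, TM V i k m • p i)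
          (∑ i, TM V i k m • p i) / S k = ∑ l, S l * (Qj V (Matrix.diagonal S) j
          (∑ i, TM V i k m • MvPolynomial.pderiv l (p i))
          (∑ i, TM V i k m • MvPolynomial.pderiv l (p i)) / S k) := by
        intro k m
        rw [Qj_diag_succ, Finset.sum_div]
        refine Finset.sum_congr rfl fun l _ => ?_
        rw [e0, mul_div_assoc]
      simp only [e2]
      have e3 : ∀ k, ∑ m, ∑ l, S l * (Qj V (Matrix.diagonal S) j
          (∑ i, TM V i k m • MvPolynomial.pderiv l (p i))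
          (∑ i, TM V i k m • MvPolynomial.pderiv l (p i)) / S k) =
          ∑ l, S l * ∑ m, (Qj V (Matrix.diagonal S) j
          (∑ i, TM V i k m • MvPolynomial.pderiv l (p i))
          (∑ i, TM V i k m • MvPolynomial.pderiv l (p i)) / S k) := by
        intro k
        rw [Finset.sum_comm]
        exact Finset.sum_congr rfl fun l _ => (Finset.mul_sum _ _ _).symm
      simp only [e3]
      rw [Finset.sum_comm]
      exact Finset.sum_congr rfl fun l _ => (Finset.mul_sum _ _ _).symm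
    have e4 : θ * ∑ i, S i * Qj V (Matrix.diagonal S) (j + 1) (p i) (p i) =
        ∑ l, S l * (θ * ∑ i, S i * Qj V (Matrix.diagonal S) j
          (MvPolynomial.pderiv l (p i)) (MvPolynomial.pderiv l (p i))) := by
      simp only [Qj_diag_succ, Finset.mul_sum]
      rw [Finset.sum_comm]
      refine Finset.sum_congr rfl fun l _ => Finset.sum_congr rfl fun i _ => ?_
      ring
    rw [e1, e4]
    exact Finset.sum_le_sum fun l _ => mul_le_mul_of_nonneg_left
      (ih fun i => MvPolynomial.pderiv l (p i)) (hS l).le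

end Pool.Agent.Lib.MP_8d00da_gt.h42k.G
end

section

/-!
# The flow for polynomials (full KLS, part gamma): Lemma A
-/

namespace Pool.Agent.Lib.MP_8d00da_gt.h42k.G

open MeasureTheory Set Filter
open scoped Topology NNReal ENNReal ContDiff
open Pool.Agent.Lib.MP_8d00da_gt.h42k.U (NF sw QT)

set_option linter.unusedSectionVars false
set_option linter.unusedVariables false

variable {ι : Type} [Fintype ι] [DecidableEq ι]

variable {κ M : ℝ} {V : (ι → ℝ) → ℝ}

theorem Wj_nonneg {S : ι → ℝ} (hS : ∀ i, 0 ≤ S i) (j : ℕ) (p : MvPolynomial ι ℝ) :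
    0 ≤ Wj V S j p := by
  induction j generalizing p with
  | zero => exact Finset.sum_nonneg (fun m _ => sq_nonneg _)
  | succ j ih =>
    show 0 ≤ ∑ k, S k * Wj V S j (MvPolynomial.pderiv k p)
    exact Finset.sum_nonneg (fun k _ => mul_nonneg (hS k) (ih _))

theorem GP7b_cs (s : Finset ι) (f g : ι → ℝ) (hf : ∀ i, 0 ≤ f i) (hg : ∀ i, 0 ≤ g i) :
    ∑ i ∈ s, √(f i) * √(g i) ≤ √(∑ i ∈ s, f i) * √(∑ i ∈ s, g i) := by
  rw [← Real.sqrt_mul (Finset.sum_nonneg (fun i _ => hf i))]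
  refine Real.le_sqrt_of_sq_le ?_
  have h4 := Finset.sum_mul_sq_le_sq_mul_sq s (fun k => √(f k)) (fun k => √(g k))
  simpa [Real.sq_sqrt (hf _), Real.sq_sqrt (hg _)] using h4

theorem GP7b_cs2 (a b : ι → ι → ℝ) {S : ι → ℝ} (hS : ∀ i, 0 < S i) :
    |∑ i, ∑ m, a i m * b i m| ≤ √(∑ i, ∑ m, a i m ^ 2 / S i) * √(∑ i, S i * ∑ m, b i m ^ 2) := by
  have h0 : |∑ i, ∑ m, a i m * b i m| ≤
      ∑ i, √(∑ m, a i m ^ 2 / S i) * √(S i * ∑ m, b i m ^ 2) := by
    refine (Finset.abs_sum_le_sum_abs _ _).trans (Finset.sum_le_sum (fun i _ => ?_))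
    rw [← Real.sqrt_mul (Finset.sum_nonneg (fun m _ => div_nonneg (sq_nonneg _) (hS i).le))]
    refine Real.abs_le_sqrt ?_
    have h4 := Finset.sum_mul_sq_le_sq_mul_sq Finset.univ (fun m => a i m) (fun m => b i m)
    refine h4.trans (le_of_eq ?_)
    rw [← Finset.sum_div]
    field_simp [(hS i).ne']
  refine h0.trans (GP7b_cs Finset.univ _ _ (fun i => ?_) (fun i => ?_))
  · exact Finset.sum_nonneg (fun m _ => div_nonneg (sq_nonneg _) (hS i).le)
  · exact mul_nonneg (hS i).le (Finset.sum_nonneg (fun m _ => sq_nonneg _))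

/-- Lemma A: `|∑ κ_ikm C_j^m(q_i, p_k)|² ≤ θ (∑ S_k N_j(p_k)) (∑ S_i W_j(q_i))`
(`j = 0`: Cauchy-Schwarz and `H3`; step: apply it to the derivatives and Cauchy-Schwarz). -/
theorem lemA (H : Nice κ M V) {S : ι → ℝ} {θ : ℝ} (hS : ∀ i, 0 < S i) (hθ : 0 ≤ θ)
    (h : H3 V S θ) (j : ℕ) (q p : ι → MvPolynomial ι ℝ) :
    |∑ i, ∑ k, ∑ m, TM V i k m * Cj V S m j (q i) (p k)| ≤
      √θ * √(∑ k, S k * Qj V (Matrix.diagonal S) j (p k) (p k)) *
        √(∑ i, S i * Wj V S j (q i)) := by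
  have hS0 : ∀ i, 0 ≤ S i := fun i => (hS i).le
  induction j generalizing q p with
  | zero =>
    have e1 : ∑ i, ∑ k, ∑ m, TM V i k m * Cj V S m 0 (q i) (p k) =
        ∑ i, ∑ m, (∑ k, TM V i k m * ex V (ev (p k))) * cov V (ev (q i)) (fun x => x m) := by
      refine Finset.sum_congr rfl (fun i _ => ?_)
      rw [Finset.sum_comm]
      refine Finset.sum_congr rfl (fun m _ => ?_)
      rw [Finset.sum_mul]
      refine Finset.sum_congr rfl (fun k _ => ?_)
      show TM V i k m * (cov V (ev (q i)) (fun x => x m) * ex V (ev (p k))) = _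
      ring
    rw [e1]
    refine (GP7b_cs2 _ _ hS).trans ?_
    refine mul_le_mul_of_nonneg_right ?_ (Real.sqrt_nonneg _)
    rw [← Real.sqrt_mul hθ]
    refine Real.sqrt_le_sqrt ?_
    have h1 := h (fun k => ex V (ev (p k)))
    have e2 : ∑ i, ∑ m, (∑ k, TM V i k m * ex V (ev (p k))) ^ 2 / S i =
        ∑ k, ∑ m, (∑ i, TM V i k m * ex V (ev (p i))) ^ 2 / S k := by
      refine Finset.sum_congr rfl (fun i _ => Finset.sum_congr rfl (fun m _ => ?_))
      congr 2
      exact Finset.sum_congr rfl (fun k _ => by rw [TM_symm12])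
    rw [e2]
    refine h1.trans (le_of_eq ?_)
    congr 1
    refine Finset.sum_congr rfl (fun k _ => ?_)
    show S k * ex V (ev (p k)) ^ 2 = S k * (ex V (ev (p k)) * ex V (ev (p k)))
    ring
  | succ j ih =>
    have e1 : ∑ i, ∑ k, ∑ m, TM V i k m * Cj V S m (j + 1) (q i) (p k) =
        ∑ l, S l * ∑ i, ∑ k, ∑ m, TM V i k m *
          Cj V S m j (MvPolynomial.pderiv l (q i)) (MvPolynomial.pderiv l (p k)) := by
      have e3 : ∀ i k m, TM V i k m * Cj V S m (j + 1) (q i) (p k) =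
          ∑ l, S l * (TM V i k m *
            Cj V S m j (MvPolynomial.pderiv l (q i)) (MvPolynomial.pderiv l (p k))) := by
        intro i k m
        show TM V i k m * (∑ l, S l *
          Cj V S m j (MvPolynomial.pderiv l (q i)) (MvPolynomial.pderiv l (p k))) = _
        rw [Finset.mul_sum]
        exact Finset.sum_congr rfl (fun l _ => by ring)
      simp_rw [e3, Finset.mul_sum]
      have c1 : ∀ (F : ι → ι → ι → ι → ℝ), ∑ i, ∑ k, ∑ m, ∑ l, F i k m l =
          ∑ l, ∑ i, ∑ k, ∑ m, F i k m l := by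
        intro F
        have a1 : ∀ i k, ∑ m, ∑ l, F i k m l = ∑ l, ∑ m, F i k m l := fun i k => Finset.sum_comm
        simp_rw [a1]
        have a2 : ∀ i, ∑ k, ∑ l, ∑ m, F i k m l = ∑ l, ∑ k, ∑ m, F i k m l :=
          fun i => Finset.sum_comm
        simp_rw [a2]
        exact Finset.sum_comm
      exact c1 _
    rw [e1]
    have hN : ∑ k, S k * Qj V (Matrix.diagonal S) (j + 1) (p k) (p k) =
        ∑ l, S l * ∑ k, S k * Qj V (Matrix.diagonal S) j (MvPolynomial.pderiv l (p k))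
          (MvPolynomial.pderiv l (p k)) := by
      simp_rw [Qj_diag_succ, Finset.mul_sum]
      rw [Finset.sum_comm]
      refine Finset.sum_congr rfl (fun l _ => Finset.sum_congr rfl (fun k _ => ?_))
      ring
    have hW : ∑ i, S i * Wj V S (j + 1) (q i) =
        ∑ l, S l * ∑ i, S i * Wj V S j (MvPolynomial.pderiv l (q i)) := by
      have e4 : ∀ i, Wj V S (j + 1) (q i) = ∑ k, S k * Wj V S j (MvPolynomial.pderiv k (q i)) :=
        fun i => rfl
      simp_rw [e4, Finset.mul_sum]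
      rw [Finset.sum_comm]
      refine Finset.sum_congr rfl (fun l _ => Finset.sum_congr rfl (fun k _ => ?_))
      ring
    rw [hN, hW]
    have hN0 : ∀ l, 0 ≤ ∑ k, S k * Qj V (Matrix.diagonal S) j (MvPolynomial.pderiv l (p k))
        (MvPolynomial.pderiv l (p k)) := fun l =>
      Finset.sum_nonneg (fun k _ => mul_nonneg (hS0 k) (Qj_diag_nonneg hS0 j _))
    have hW0 : ∀ l, 0 ≤ ∑ i, S i * Wj V S j (MvPolynomial.pderiv l (q i)) := fun l =>
      Finset.sum_nonneg (fun k _ => mul_nonneg (hS0 k) (Wj_nonneg hS0 j _))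
    have h2 : |∑ l, S l * ∑ i, ∑ k, ∑ m, TM V i k m *
          Cj V S m j (MvPolynomial.pderiv l (q i)) (MvPolynomial.pderiv l (p k))| ≤
        ∑ l, √θ * (√(S l * ∑ k, S k * Qj V (Matrix.diagonal S) j (MvPolynomial.pderiv l (p k))
          (MvPolynomial.pderiv l (p k))) *
          √(S l * ∑ i, S i * Wj V S j (MvPolynomial.pderiv l (q i)))) := by
      refine (Finset.abs_sum_le_sum_abs _ _).trans (Finset.sum_le_sum (fun l _ => ?_))
      rw [abs_mul, abs_of_nonneg (hS0 l), Real.sqrt_mul (hS0 l), Real.sqrt_mul (hS0 l)]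
      have h3 := mul_le_mul_of_nonneg_left
        (ih (fun i => MvPolynomial.pderiv l (q i)) (fun k => MvPolynomial.pderiv l (p k))) (hS0 l)
      refine h3.trans (le_of_eq ?_)
      have h5 : √(S l) * √(S l) = S l := Real.mul_self_sqrt (hS0 l)
      generalize √(∑ k, S k * Qj V (Matrix.diagonal S) j (MvPolynomial.pderiv l (p k))
          (MvPolynomial.pderiv l (p k))) = A
      generalize √(∑ i, S i * Wj V S j (MvPolynomial.pderiv l (q i))) = B
      calc S l * (√θ * A * B) = (√(S l) * √(S l)) * (√θ * A * B) := by rw [h5]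
        _ = _ := by ring
    refine h2.trans ?_
    rw [← Finset.mul_sum, mul_assoc]
    refine mul_le_mul_of_nonneg_left ?_ (Real.sqrt_nonneg _)
    exact GP7b_cs Finset.univ _ _ (fun l => mul_nonneg (hS0 l) (hN0 l))
      (fun l => mul_nonneg (hS0 l) (hW0 l))

end Pool.Agent.Lib.MP_8d00da_gt.h42k.G
end

section

/-!
# The flow for polynomials (full KLS, part gamma): Lemmas C and B
-/

namespace Pool.Agent.Lib.MP_8d00da_gt.h42k.G

open MeasureTheory Set Filter
open scoped Topology NNReal ENNReal ContDiff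
open Pool.Agent.Lib.MP_8d00da_gt.h42k.U (NF sw QT)

set_option linter.unusedSectionVars false
set_option linter.unusedVariables false

variable {ι : Type} [Fintype ι] [DecidableEq ι]

variable {κ M : ℝ} {V : (ι → ℝ) → ℝ}

/-- The weighted sum of `Q_j(p,q)` in terms of the partial sums. -/
private theorem GP7c_expand (H : Nice κ M V) (X : Matrix ι ι ℝ) (j : ℕ) (m k a : ι)
    (u v : ι → ι → MvPolynomial ι ℝ) :
    Qj V X j (∑ i, TM V i k m • u i a) (∑ b, TM V b a m • v k b) =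
      ∑ i, ∑ b, TM V i k m * TM V a b m * Qj V X j (u i a) (v k b) := by
  rw [Qj_sum_left H]
  refine Finset.sum_congr rfl fun i _ => ?_
  rw [Qj_sum_right H]
  refine Finset.sum_congr rfl fun b _ => ?_
  rw [Qj_smul_left, Qj_smul_right, TM_symm12 V b a m]
  ring

private theorem GP7c_reorder (F : ι → ι → ι → ι → ι → ℝ) :
    ∑ m, ∑ i, ∑ k, ∑ a, ∑ b, F m i k a b = ∑ m, ∑ k, ∑ a, ∑ i, ∑ b, F m i k a b := by
  refine Finset.sum_congr rfl fun m _ => ?_
  rw [Finset.sum_comm]
  refine Finset.sum_congr rfl fun k _ => ?_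
  rw [Finset.sum_comm]

private theorem GP7c_cs (H : Nice κ M V) {S : ι → ℝ} (hS : ∀ i, 0 < S i) (j : ℕ) (k a : ι)
    (p q : MvPolynomial ι ℝ) :
    |Qj V (Matrix.diagonal S) j p q| ≤
      √(S a / S k * Qj V (Matrix.diagonal S) j p p) *
        √(S k / S a * Qj V (Matrix.diagonal S) j q q) := by
  have hS' : ∀ i, 0 ≤ S i := fun i => (hS i).le
  have h1 := Qj_diag_cs H hS' j p q
  have h2 := Qj_diag_nonneg (V := V) hS' j p
  have h3 := Qj_diag_nonneg (V := V) hS' j q
  have ha := hS a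
  have hk := hS k
  rw [← Real.sqrt_mul (by positivity)]
  apply Real.abs_le_sqrt
  have h4 : S a / S k * Qj V (Matrix.diagonal S) j p p *
      (S k / S a * Qj V (Matrix.diagonal S) j q q) =
      Qj V (Matrix.diagonal S) j p p * Qj V (Matrix.diagonal S) j q q := by
    field_simp
  rw [h4]
  exact h1

/-- Lemma C: `|∑_m ∑ κ_ikm κ_abm Q_j(u_ia, v_kb)| ≤ θ √(∑ S_iS_a N_j(u_ia)) √(∑ S_kS_b N_j(v_kb))`.
(`= ∑_m ∑_ka Q_j(∑_i κ_ikm u_ia, ∑_b κ_abm v_kb)`; `Qj_diag_cs`; Cauchy-Schwarz with the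
weights `S_a/S_k`, `S_k/S_a`; `H3.vec`.) -/
theorem lemC (H : Nice κ M V) {S : ι → ℝ} {θ : ℝ} (hS : ∀ i, 0 < S i) (hθ : 0 ≤ θ)
    (h : H3 V S θ) (j : ℕ) (u v : ι → ι → MvPolynomial ι ℝ) :
    |∑ m, ∑ i, ∑ k, ∑ a, ∑ b, TM V i k m * TM V a b m *
        Qj V (Matrix.diagonal S) j (u i a) (v k b)| ≤
      θ * √(∑ i, ∑ a, S i * S a * Qj V (Matrix.diagonal S) j (u i a) (u i a)) *
        √(∑ k, ∑ b, S k * S b * Qj V (Matrix.diagonal S) j (v k b) (v k b)) := by
  have hS' : ∀ i, 0 ≤ S i := fun i => (hS i).le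
  set D := Matrix.diagonal S with hD
  set U : ι → ι → ι → MvPolynomial ι ℝ := fun m k a => ∑ i, TM V i k m • u i a with hU
  set W : ι → ι → ι → MvPolynomial ι ℝ := fun m k a => ∑ b, TM V b a m • v k b with hW
  have e1 : ∑ m, ∑ i, ∑ k, ∑ a, ∑ b, TM V i k m * TM V a b m * Qj V D j (u i a) (v k b) =
      ∑ m, ∑ k, ∑ a, Qj V D j (U m k a) (W m k a) := by
    rw [GP7c_reorder]
    refine Finset.sum_congr rfl fun m _ => Finset.sum_congr rfl fun k _ =>
      Finset.sum_congr rfl fun a _ => ?_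
    exact (GP7c_expand H D j m k a u v).symm
  rw [e1]
  have e2 : ∑ m, ∑ k, ∑ a, Qj V D j (U m k a) (W m k a) =
      ∑ z : ι × ι × ι, Qj V D j (U z.1 z.2.1 z.2.2) (W z.1 z.2.1 z.2.2) := by
    rw [Fintype.sum_prod_type]
    refine Finset.sum_congr rfl fun m _ => ?_
    rw [Fintype.sum_prod_type]
  rw [e2]
  have hN : ∀ p, 0 ≤ Qj V D j p p := fun p => Qj_diag_nonneg hS' j p
  have h1 : |∑ z : ι × ι × ι, Qj V D j (U z.1 z.2.1 z.2.2) (W z.1 z.2.1 z.2.2)| ≤
      √(∑ z : ι × ι × ι, S z.2.2 / S z.2.1 * Qj V D j (U z.1 z.2.1 z.2.2) (U z.1 z.2.1 z.2.2)) *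
        √(∑ z : ι × ι × ι, S z.2.1 / S z.2.2 *
          Qj V D j (W z.1 z.2.1 z.2.2) (W z.1 z.2.1 z.2.2)) := by
    refine (Finset.abs_sum_le_sum_abs _ _).trans ?_
    refine (Finset.sum_le_sum fun z _ => GP7c_cs H hS j z.2.1 z.2.2 _ _).trans ?_
    refine Real.sum_sqrt_mul_sqrt_le _ (fun z => ?_) (fun z => ?_)
    · exact mul_nonneg (div_nonneg (hS' _) (hS' _)) (hN _)
    · exact mul_nonneg (div_nonneg (hS' _) (hS' _)) (hN _)
  have h2 : ∑ z : ι × ι × ι, S z.2.2 / S z.2.1 *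
      Qj V D j (U z.1 z.2.1 z.2.2) (U z.1 z.2.1 z.2.2) ≤
      θ * ∑ i, ∑ a, S i * S a * Qj V D j (u i a) (u i a) := by
    calc _ = ∑ m, ∑ k, ∑ a, S a / S k * Qj V D j (U m k a) (U m k a) := by
          rw [Fintype.sum_prod_type]
          refine Finset.sum_congr rfl fun m _ => ?_
          rw [Fintype.sum_prod_type]
      _ = ∑ a, S a * ∑ k, ∑ m, Qj V D j (U m k a) (U m k a) / S k := by
          rw [Finset.sum_comm]
          have : ∀ k, ∑ m, ∑ a, S a / S k * Qj V D j (U m k a) (U m k a) =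
              ∑ a, ∑ m, S a / S k * Qj V D j (U m k a) (U m k a) := fun k => Finset.sum_comm
          simp only [this]
          rw [Finset.sum_comm]
          refine Finset.sum_congr rfl fun a _ => ?_
          rw [Finset.mul_sum]
          refine Finset.sum_congr rfl fun k _ => ?_
          rw [Finset.mul_sum]
          refine Finset.sum_congr rfl fun m _ => ?_
          ring
      _ ≤ ∑ a, S a * (θ * ∑ i, S i * Qj V D j (u i a) (u i a)) :=
          Finset.sum_le_sum fun a _ =>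
            mul_le_mul_of_nonneg_left (H3.vec H hS h j fun i => u i a) (hS' a)
      _ = _ := by
          rw [Finset.sum_comm, Finset.mul_sum]
          refine Finset.sum_congr rfl fun a _ => ?_
          rw [mul_left_comm, Finset.mul_sum]
          congr 1
          refine Finset.sum_congr rfl fun i _ => ?_
          ring
  have h3 : ∑ z : ι × ι × ι, S z.2.1 / S z.2.2 *
      Qj V D j (W z.1 z.2.1 z.2.2) (W z.1 z.2.1 z.2.2) ≤
      θ * ∑ k, ∑ b, S k * S b * Qj V D j (v k b) (v k b) := by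
    calc _ = ∑ m, ∑ k, ∑ a, S k / S a * Qj V D j (W m k a) (W m k a) := by
          rw [Fintype.sum_prod_type]
          refine Finset.sum_congr rfl fun m _ => ?_
          rw [Fintype.sum_prod_type]
      _ = ∑ k, S k * ∑ a, ∑ m, Qj V D j (W m k a) (W m k a) / S a := by
          rw [Finset.sum_comm]
          refine Finset.sum_congr rfl fun k _ => ?_
          rw [Finset.sum_comm, Finset.mul_sum]
          refine Finset.sum_congr rfl fun a _ => ?_
          rw [Finset.mul_sum]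
          refine Finset.sum_congr rfl fun m _ => ?_
          ring
      _ ≤ ∑ k, S k * (θ * ∑ b, S b * Qj V D j (v k b) (v k b)) :=
          Finset.sum_le_sum fun k _ =>
            mul_le_mul_of_nonneg_left (H3.vec H hS h j fun b => v k b) (hS' k)
      _ = _ := by
          rw [Finset.mul_sum]
          refine Finset.sum_congr rfl fun k _ => ?_
          rw [mul_left_comm, Finset.mul_sum]
          congr 1
          refine Finset.sum_congr rfl fun i _ => ?_
          ring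
  calc _ ≤ _ := h1
    _ ≤ √(θ * ∑ i, ∑ a, S i * S a * Qj V D j (u i a) (u i a)) *
        √(θ * ∑ k, ∑ b, S k * S b * Qj V D j (v k b) (v k b)) :=
        mul_le_mul (Real.sqrt_le_sqrt h2) (Real.sqrt_le_sqrt h3) (Real.sqrt_nonneg _)
          (Real.sqrt_nonneg _)
    _ = _ := by
        rw [Real.sqrt_mul hθ, Real.sqrt_mul hθ]
        have h5 := Real.mul_self_sqrt hθ
        calc _ = (√θ * √θ) * √(∑ i, ∑ a, S i * S a * Qj V D j (u i a) (u i a)) *
            √(∑ k, ∑ b, S k * S b * Qj V D j (v k b) (v k b)) := by ring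
          _ = _ := by rw [h5]

/-- Lemma B: `|∑ κ_ikm K_j^m(q_i, p_k)| ≤ j θ √(∑ S_i N_j(q_i)) √(∑ S_k N_j(p_k))`
(induction on `j`, the new term is Lemma C with `u_ia = ∂_a q_i`, `v_kb = ∂_b p_k`). -/
theorem lemB (H : Nice κ M V) {S : ι → ℝ} {θ : ℝ} (hS : ∀ i, 0 < S i) (hθ : 0 ≤ θ)
    (h : H3 V S θ) (j : ℕ) (q p : ι → MvPolynomial ι ℝ) :
    |∑ i, ∑ k, ∑ m, TM V i k m * Kj V S m j (q i) (p k)| ≤
      j * θ * √(∑ i, S i * Qj V (Matrix.diagonal S) j (q i) (q i)) *
        √(∑ k, S k * Qj V (Matrix.diagonal S) j (p k) (p k)) := by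
  have hS' : ∀ i, 0 ≤ S i := fun i => (hS i).le
  induction j generalizing q p with
  | zero =>
    simp [Kj]
  | succ j ih =>
    set D := Matrix.diagonal S with hD
    have hN : ∀ p, 0 ≤ Qj V D j p p := fun p => Qj_diag_nonneg hS' j p
    have eN : ∀ r : ι → MvPolynomial ι ℝ, ∑ i, S i * Qj V D (j + 1) (r i) (r i) =
        ∑ i, ∑ a, S i * S a * Qj V D j (MvPolynomial.pderiv a (r i))
          (MvPolynomial.pderiv a (r i)) := by
      intro r
      refine Finset.sum_congr rfl fun i _ => ?_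
      rw [hD, Qj_diag_succ, Finset.mul_sum]
      refine Finset.sum_congr rfl fun a _ => ?_
      ring
    have eN' : ∀ r : ι → MvPolynomial ι ℝ, ∑ i, S i * Qj V D (j + 1) (r i) (r i) =
        ∑ l, S l * ∑ i, S i * Qj V D j (MvPolynomial.pderiv l (r i))
          (MvPolynomial.pderiv l (r i)) := by
      intro r
      rw [eN r, Finset.sum_comm]
      refine Finset.sum_congr rfl fun l _ => ?_
      rw [Finset.mul_sum]
      refine Finset.sum_congr rfl fun i _ => ?_
      ring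
    have e1 : ∑ i, ∑ k, ∑ m, TM V i k m * Kj V S m (j + 1) (q i) (p k) =
        (∑ l, S l * ∑ i, ∑ k, ∑ m, TM V i k m * Kj V S m j (MvPolynomial.pderiv l (q i))
          (MvPolynomial.pderiv l (p k))) +
        ∑ m, ∑ i, ∑ k, ∑ a, ∑ b, TM V i k m * TM V a b m *
          Qj V D j (MvPolynomial.pderiv a (q i)) (MvPolynomial.pderiv b (p k)) := by
      have e2 : ∀ i k m, TM V i k m * Kj V S m (j + 1) (q i) (p k) =
          (∑ l, S l * (TM V i k m * Kj V S m j (MvPolynomial.pderiv l (q i))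
            (MvPolynomial.pderiv l (p k)))) +
          ∑ a, ∑ b, TM V i k m * TM V a b m *
            Qj V D j (MvPolynomial.pderiv a (q i)) (MvPolynomial.pderiv b (p k)) := by
        intro i k m
        simp only [Kj]
        rw [mul_add, Finset.mul_sum, Finset.mul_sum]
        congr 1
        · refine Finset.sum_congr rfl fun l _ => ?_
          ring
        · refine Finset.sum_congr rfl fun a _ => ?_
          rw [Finset.mul_sum]
          refine Finset.sum_congr rfl fun b _ => ?_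
          ring
      simp only [e2, Finset.sum_add_distrib]
      congr 1
      · have e3 : ∀ i k, ∑ m, ∑ l, S l * (TM V i k m * Kj V S m j
            (MvPolynomial.pderiv l (q i)) (MvPolynomial.pderiv l (p k))) =
            ∑ l, ∑ m, S l * (TM V i k m * Kj V S m j
            (MvPolynomial.pderiv l (q i)) (MvPolynomial.pderiv l (p k))) :=
          fun i k => Finset.sum_comm
        simp only [e3]
        have e4 : ∀ i, ∑ k, ∑ l, ∑ m, S l * (TM V i k m * Kj V S m j
            (MvPolynomial.pderiv l (q i)) (MvPolynomial.pderiv l (p k))) =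
            ∑ l, ∑ k, ∑ m, S l * (TM V i k m * Kj V S m j
            (MvPolynomial.pderiv l (q i)) (MvPolynomial.pderiv l (p k))) :=
          fun i => Finset.sum_comm
        simp only [e4]
        rw [Finset.sum_comm]
        refine Finset.sum_congr rfl fun l _ => ?_
        rw [Finset.mul_sum]
        refine Finset.sum_congr rfl fun i _ => ?_
        rw [Finset.mul_sum]
        refine Finset.sum_congr rfl fun k _ => ?_
        rw [Finset.mul_sum]
      · have e3 : ∀ i, ∑ k, ∑ m, ∑ a, ∑ b, TM V i k m * TM V a b m *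
            Qj V D j (MvPolynomial.pderiv a (q i)) (MvPolynomial.pderiv b (p k)) =
            ∑ m, ∑ k, ∑ a, ∑ b, TM V i k m * TM V a b m *
            Qj V D j (MvPolynomial.pderiv a (q i)) (MvPolynomial.pderiv b (p k)) :=
          fun i => Finset.sum_comm
        simp only [e3]
        rw [Finset.sum_comm]
    rw [e1]
    set A := √(∑ i, S i * Qj V D (j + 1) (q i) (q i)) with hA
    set B := √(∑ k, S k * Qj V D (j + 1) (p k) (p k)) with hB
    have hC : |∑ m, ∑ i, ∑ k, ∑ a, ∑ b, TM V i k m * TM V a b m *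
          Qj V D j (MvPolynomial.pderiv a (q i)) (MvPolynomial.pderiv b (p k))| ≤
        θ * A * B := by
      have h1 := lemC H hS hθ h j (fun i a => MvPolynomial.pderiv a (q i))
        (fun k b => MvPolynomial.pderiv b (p k))
      rw [hA, hB, eN q, eN p]
      exact h1
    have hI : |∑ l, S l * ∑ i, ∑ k, ∑ m, TM V i k m * Kj V S m j (MvPolynomial.pderiv l (q i))
          (MvPolynomial.pderiv l (p k))| ≤ j * θ * A * B := by
      refine (Finset.abs_sum_le_sum_abs _ _).trans ?_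
      have h1 : ∀ l, |S l * ∑ i, ∑ k, ∑ m, TM V i k m * Kj V S m j
          (MvPolynomial.pderiv l (q i)) (MvPolynomial.pderiv l (p k))| ≤
          j * θ * (√(S l * ∑ i, S i * Qj V D j (MvPolynomial.pderiv l (q i))
            (MvPolynomial.pderiv l (q i))) *
          √(S l * ∑ k, S k * Qj V D j (MvPolynomial.pderiv l (p k))
            (MvPolynomial.pderiv l (p k)))) := by
        intro l
        have h2 := ih (fun i => MvPolynomial.pderiv l (q i)) (fun k => MvPolynomial.pderiv l (p k))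
        rw [abs_mul, abs_of_pos (hS l), Real.sqrt_mul (hS' l), Real.sqrt_mul (hS' l)]
        have h3 := Real.mul_self_sqrt (hS' l)
        calc _ ≤ S l * _ := mul_le_mul_of_nonneg_left h2 (hS' l)
          _ = (√(S l) * √(S l)) * (j * θ *
            √(∑ i, S i * Qj V D j (MvPolynomial.pderiv l (q i)) (MvPolynomial.pderiv l (q i))) *
            √(∑ k, S k * Qj V D j (MvPolynomial.pderiv l (p k))
              (MvPolynomial.pderiv l (p k)))) := by rw [h3]
          _ = _ := by ring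
      refine (Finset.sum_le_sum fun l _ => h1 l).trans ?_
      rw [← Finset.mul_sum, mul_assoc (j * θ : ℝ) A B]
      apply mul_le_mul_of_nonneg_left _ (by positivity)
      rw [hA, hB, eN' q, eN' p]
      refine Real.sum_sqrt_mul_sqrt_le _ (fun l => ?_) (fun l => ?_)
      · exact mul_nonneg (hS' l) (Finset.sum_nonneg fun i _ => mul_nonneg (hS' i) (hN _))
      · exact mul_nonneg (hS' l) (Finset.sum_nonneg fun i _ => mul_nonneg (hS' i) (hN _))
    calc _ ≤ _ := abs_add_le _ _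
      _ ≤ j * θ * A * B + θ * A * B := add_le_add hI hC
      _ = _ := by
        push_cast
        ring

end Pool.Agent.Lib.MP_8d00da_gt.h42k.G
end

section

/-!
# The flow for polynomials (full KLS, part gamma): the differential inequality at (0,0)
-/

namespace Pool.Agent.Lib.MP_8d00da_gt.h42k.G

open MeasureTheory Set Filter
open scoped Topology NNReal ENNReal ContDiff
open Pool.Agent.Lib.MP_8d00da_gt.h42k.U (NF sw QT)

set_option linter.unusedSectionVars false
set_option linter.unusedVariables false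

variable {ι : Type} [Fintype ι] [DecidableEq ι]

variable {κ M : ℝ} {V : (ι → ℝ) → ℝ}

theorem H3.mono_S {S S' : ι → ℝ} {θ : ℝ} (hS : ∀ i, 0 < S i) (hθ : 0 ≤ θ)
    (hSS : ∀ i, S i ≤ S' i) (h : H3 V S θ) : H3 V S' θ := by
  intro w
  refine le_trans ?_ (le_trans (h w) ?_)
  · refine Finset.sum_le_sum fun k _ => Finset.sum_le_sum fun m _ => ?_
    exact div_le_div_of_nonneg_left (sq_nonneg _) (hS k) (hSS k)
  · refine mul_le_mul_of_nonneg_left (Finset.sum_le_sum fun i _ => ?_) hθ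
    exact mul_le_mul_of_nonneg_right (hSS i) (sq_nonneg _)

theorem Wj_mono_smul {S S' : ι → ℝ} {a : ℝ} (hS : ∀ i, 0 ≤ S' i) (ha : 0 ≤ a)
    (h : ∀ i, S' i ≤ a * S i) (j : ℕ) (p : MvPolynomial ι ℝ) :
    Wj V S' j p ≤ a ^ j * Wj V S j p := by
  induction j generalizing p with
  | zero => simp [Wj]
  | succ j ih =>
    simp only [Wj]
    rw [Finset.mul_sum]
    refine Finset.sum_le_sum fun k _ => ?_
    have h1 := ih (MvPolynomial.pderiv k p)
    have h0 : 0 ≤ Wj V S' j (MvPolynomial.pderiv k p) := Wj_nonneg hS j _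
    have h2 : 0 ≤ a ^ j * Wj V S j (MvPolynomial.pderiv k p) := h0.trans h1
    calc S' k * Wj V S' j (MvPolynomial.pderiv k p)
        ≤ S' k * (a ^ j * Wj V S j (MvPolynomial.pderiv k p)) :=
          mul_le_mul_of_nonneg_left h1 (hS k)
      _ ≤ (a * S k) * (a ^ j * Wj V S j (MvPolynomial.pderiv k p)) :=
          mul_le_mul_of_nonneg_right (h k) h2
      _ = a ^ (j + 1) * (S k * Wj V S j (MvPolynomial.pderiv k p)) := by ring

theorem GP7d_diag_sum (S : ι → ℝ) (F : ι → ι → ℝ) :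
    ∑ i, ∑ k, Matrix.diagonal S i k * F i k = ∑ k, S k * F k k := by
  refine Finset.sum_congr rfl fun i _ => ?_
  rw [Finset.sum_eq_single i]
  · rw [Matrix.diagonal_apply_eq]
  · intro k _ hk
    rw [Matrix.diagonal_apply_ne _ (Ne.symm hk), zero_mul]
  · intro h; exact absurd (Finset.mem_univ i) h

theorem dQ_eq (S : ι → ℝ) (m : ι) (j : ℕ) (p q : MvPolynomial ι ℝ) :
    dQ V (Matrix.diagonal S) m j p q = Kj V S m j p q + Cj V S m j p q + Cj V S m j q p := by
  induction j generalizing p q with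
  | zero => simp only [dQ, Kj, Cj]; ring
  | succ j ih =>
    simp only [dQ, Kj, Cj]
    simp only [Finset.sum_add_distrib]
    rw [GP7d_diag_sum S (fun i k => dQ V (Matrix.diagonal S) m j (MvPolynomial.pderiv i p)
      (MvPolynomial.pderiv k q))]
    have : ∑ k, S k * dQ V (Matrix.diagonal S) m j (MvPolynomial.pderiv k p)
        (MvPolynomial.pderiv k q) =
        ∑ k, S k * Kj V S m j (MvPolynomial.pderiv k p) (MvPolynomial.pderiv k q) +
        ∑ k, S k * Cj V S m j (MvPolynomial.pderiv k p) (MvPolynomial.pderiv k q) +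
        ∑ k, S k * Cj V S m j (MvPolynomial.pderiv k q) (MvPolynomial.pderiv k p) := by
      rw [← Finset.sum_add_distrib, ← Finset.sum_add_distrib]
      refine Finset.sum_congr rfl fun k _ => ?_
      rw [ih]; ring
    rw [this]; ring

/-- `G Q_j ≤ (j(j-1)/2) θ N_j + 2j √θ √(N_j W_j) + W_j` if `CM V` is diagonal (induction on `j`;
`Lemma A` and `Lemma B` for `p_i = ∂_i p`; the term `-A²` is `≤ 0`). -/
theorem gQ_le (H : Nice κ M V) {S α : ι → ℝ} {θ : ℝ} (hS : ∀ i, 0 < S i) (hθ : 0 ≤ θ)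
    (hA : CM V = Matrix.diagonal α) (h : H3 V S θ) (j : ℕ) (p : MvPolynomial ι ℝ) :
    gQ V (Matrix.diagonal S) j p p ≤
      (j * (j - 1) / 2 : ℝ) * θ * Qj V (Matrix.diagonal S) j p p +
        2 * j * √θ * √(Qj V (Matrix.diagonal S) j p p * Wj V S j p) + Wj V S j p := by
  have hS0 : ∀ i, 0 ≤ S i := fun i => (hS i).le
  induction j generalizing p with
  | zero =>
    simp only [gQ, Wj, Nat.cast_zero]
    have : ∀ m, cov V (ev p) (fun x => x m) * cov V (ev p) (fun x => x m) =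
      cov V (ev p) (fun x => x m) ^ 2 := fun m => by ring
    simp only [this]
    simp
  | succ j ih =>
    set N : ℝ := Qj V (Matrix.diagonal S) (j + 1) p p with hN
    set W : ℝ := Wj V S (j + 1) p with hW
    have hN0 : 0 ≤ N := Qj_diag_nonneg hS0 _ _
    have hW0 : 0 ≤ W := Wj_nonneg hS0 _ _
    have hNs : N = ∑ k, S k * Qj V (Matrix.diagonal S) j (MvPolynomial.pderiv k p)
        (MvPolynomial.pderiv k p) := Qj_diag_succ S j p p
    have hWs : W = ∑ k, S k * Wj V S j (MvPolynomial.pderiv k p) := by rw [hW]; simp only [Wj]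
    -- decomposition
    have hdec : gQ V (Matrix.diagonal S) (j + 1) p p =
        (∑ k, S k * gQ V (Matrix.diagonal S) j (MvPolynomial.pderiv k p)
          (MvPolynomial.pderiv k p)) -
        (∑ k, (α k * α k) * Qj V (Matrix.diagonal S) j (MvPolynomial.pderiv k p)
          (MvPolynomial.pderiv k p)) +
        ((∑ i, ∑ k, ∑ m, TM V i k m * Kj V S m j (MvPolynomial.pderiv i p)
            (MvPolynomial.pderiv k p)) +
         (∑ i, ∑ k, ∑ m, TM V i k m * Cj V S m j (MvPolynomial.pderiv i p)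
            (MvPolynomial.pderiv k p)) +
         (∑ i, ∑ k, ∑ m, TM V i k m * Cj V S m j (MvPolynomial.pderiv k p)
            (MvPolynomial.pderiv i p))) := by
      simp only [gQ]
      rw [hA, Matrix.diagonal_mul_diagonal]
      simp only [Finset.sum_add_distrib, Finset.sum_sub_distrib]
      rw [GP7d_diag_sum S (fun i k => gQ V (Matrix.diagonal S) j (MvPolynomial.pderiv i p)
        (MvPolynomial.pderiv k p)),
        GP7d_diag_sum (fun k => α k * α k) (fun i k => Qj V (Matrix.diagonal S) j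
          (MvPolynomial.pderiv i p) (MvPolynomial.pderiv k p))]
      congr 1
      rw [← Finset.sum_add_distrib, ← Finset.sum_add_distrib]
      refine Finset.sum_congr rfl fun i _ => ?_
      rw [← Finset.sum_add_distrib, ← Finset.sum_add_distrib]
      refine Finset.sum_congr rfl fun k _ => ?_
      rw [← Finset.sum_add_distrib, ← Finset.sum_add_distrib]
      refine Finset.sum_congr rfl fun m _ => ?_
      rw [dQ_eq]; ring
    -- the first sum
    have h1 : (∑ k, S k * gQ V (Matrix.diagonal S) j (MvPolynomial.pderiv k p)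
          (MvPolynomial.pderiv k p)) ≤
        (j * (j - 1) / 2 : ℝ) * θ * N + 2 * j * √θ * √(N * W) + W := by
      have hk : ∀ k, S k * gQ V (Matrix.diagonal S) j (MvPolynomial.pderiv k p)
          (MvPolynomial.pderiv k p) ≤
          (j * (j - 1) / 2 : ℝ) * θ * (S k * Qj V (Matrix.diagonal S) j
            (MvPolynomial.pderiv k p) (MvPolynomial.pderiv k p)) +
          2 * j * √θ * (√(S k * Qj V (Matrix.diagonal S) j
            (MvPolynomial.pderiv k p) (MvPolynomial.pderiv k p)) *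
              √(S k * Wj V S j (MvPolynomial.pderiv k p))) +
          S k * Wj V S j (MvPolynomial.pderiv k p) := by
        intro k
        have e1 : √(S k * Qj V (Matrix.diagonal S) j
            (MvPolynomial.pderiv k p) (MvPolynomial.pderiv k p)) *
              √(S k * Wj V S j (MvPolynomial.pderiv k p)) =
            S k * √(Qj V (Matrix.diagonal S) j
            (MvPolynomial.pderiv k p) (MvPolynomial.pderiv k p) *
              Wj V S j (MvPolynomial.pderiv k p)) := by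
          rw [Real.sqrt_mul (hS0 k), Real.sqrt_mul (hS0 k), Real.sqrt_mul (Qj_diag_nonneg hS0 _ _)]
          have := Real.mul_self_sqrt (hS0 k)
          calc _ = (√(S k) * √(S k)) * (√(Qj V (Matrix.diagonal S) j
            (MvPolynomial.pderiv k p) (MvPolynomial.pderiv k p)) *
              √(Wj V S j (MvPolynomial.pderiv k p))) := by ring
            _ = _ := by rw [this]
        rw [e1]
        have := mul_le_mul_of_nonneg_left (ih (MvPolynomial.pderiv k p)) (hS0 k)
        refine this.trans (le_of_eq ?_)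
        ring
      refine (Finset.sum_le_sum fun k _ => hk k).trans ?_
      rw [Finset.sum_add_distrib, Finset.sum_add_distrib, ← Finset.mul_sum, ← Finset.mul_sum,
        ← hNs, ← hWs]
      have hcs : ∑ k, √(S k * Qj V (Matrix.diagonal S) j
            (MvPolynomial.pderiv k p) (MvPolynomial.pderiv k p)) *
              √(S k * Wj V S j (MvPolynomial.pderiv k p)) ≤ √(N * W) := by
        have := Real.sum_sqrt_mul_sqrt_le (s := Finset.univ)
          (f := fun k => S k * Qj V (Matrix.diagonal S) j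
            (MvPolynomial.pderiv k p) (MvPolynomial.pderiv k p))
          (g := fun k => S k * Wj V S j (MvPolynomial.pderiv k p))
          (fun k => mul_nonneg (hS0 k) (Qj_diag_nonneg hS0 _ _))
          (fun k => mul_nonneg (hS0 k) (Wj_nonneg hS0 _ _))
        rw [← hNs, ← hWs, ← Real.sqrt_mul hN0] at this
        exact this
      have hc : 0 ≤ 2 * (j : ℝ) * √θ := by positivity
      have := mul_le_mul_of_nonneg_left hcs hc
      linarith
    -- the second sum
    have h2 : 0 ≤ ∑ k, (α k * α k) * Qj V (Matrix.diagonal S) j (MvPolynomial.pderiv k p)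
          (MvPolynomial.pderiv k p) :=
      Finset.sum_nonneg fun k _ => mul_nonneg (mul_self_nonneg _) (Qj_diag_nonneg hS0 _ _)
    -- Lemma B
    have h3 : (∑ i, ∑ k, ∑ m, TM V i k m * Kj V S m j (MvPolynomial.pderiv i p)
            (MvPolynomial.pderiv k p)) ≤ j * θ * N := by
      have := lemB H hS hθ h j (fun i => MvPolynomial.pderiv i p) (fun k => MvPolynomial.pderiv k p)
      rw [← hNs] at this
      refine (le_abs_self _).trans (this.trans (le_of_eq ?_))
      rw [mul_assoc ((j : ℝ) * θ), Real.mul_self_sqrt hN0]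
    have h4 : (∑ i, ∑ k, ∑ m, TM V i k m * Cj V S m j (MvPolynomial.pderiv i p)
            (MvPolynomial.pderiv k p)) ≤ √θ * √(N * W) := by
      have := lemA H hS hθ h j (fun i => MvPolynomial.pderiv i p) (fun k => MvPolynomial.pderiv k p)
      rw [← hNs, ← hWs] at this
      refine (le_abs_self _).trans (this.trans (le_of_eq ?_))
      rw [mul_assoc, ← Real.sqrt_mul hN0]
    have h5 : (∑ i, ∑ k, ∑ m, TM V i k m * Cj V S m j (MvPolynomial.pderiv k p)
            (MvPolynomial.pderiv i p)) ≤ √θ * √(N * W) := by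
      refine le_trans (le_of_eq ?_) h4
      rw [Finset.sum_comm]
      refine Finset.sum_congr rfl fun i _ => Finset.sum_congr rfl fun k _ =>
        Finset.sum_congr rfl fun m _ => ?_
      rw [TM_symm12]
    rw [hdec]
    push_cast
    have e : ((j : ℝ) + 1) * ((j : ℝ) + 1 - 1) / 2 * θ * N + 2 * ((j : ℝ) + 1) * √θ * √(N * W) + W
        = ((j : ℝ) * ((j : ℝ) - 1) / 2 * θ * N + 2 * (j : ℝ) * √θ * √(N * W) + W) +
          ((j : ℝ) * θ * N) + √θ * √(N * W) + √θ * √(N * W) := by ring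
    rw [e]
    linarith

theorem gQ_le' (H : Nice κ M V) {S α : ι → ℝ} {θ : ℝ} (hS : ∀ i, 0 < S i) (hθ : 0 ≤ θ)
    (hA : CM V = Matrix.diagonal α) (h : H3 V S θ) (j : ℕ) (p : MvPolynomial ι ℝ) :
    gQ V (Matrix.diagonal S) j p p ≤
      3 / 2 * (j : ℝ) ^ 2 * θ * Qj V (Matrix.diagonal S) j p p + 2 * Wj V S j p := by
  have hS0 : ∀ i, 0 ≤ S i := fun i => (hS i).le
  have h0 := gQ_le H hS hθ hA h j p
  set N : ℝ := Qj V (Matrix.diagonal S) j p p with hN
  set W : ℝ := Wj V S j p with hW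
  have hN0 : 0 ≤ N := Qj_diag_nonneg hS0 _ _
  have hW0 : 0 ≤ W := Wj_nonneg hS0 _ _
  have hj : (0 : ℝ) ≤ j := Nat.cast_nonneg j
  have e1 : 2 * (j : ℝ) * √θ * √(N * W) ≤ (j : ℝ) ^ 2 * θ * N + W := by
    rw [Real.sqrt_mul hN0]
    have a1 := Real.sq_sqrt hθ
    have a2 := Real.sq_sqrt hN0
    have a3 := Real.sq_sqrt hW0
    have := sq_nonneg ((j : ℝ) * √θ * √N - √W)
    have e : ((j : ℝ) * √θ * √N - √W) ^ 2 =
      (j : ℝ) ^ 2 * √θ ^ 2 * √N ^ 2 - 2 * (j : ℝ) * √θ * (√N * √W) + √W ^ 2 := by ring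
    rw [e, a1, a2, a3] at this
    linarith
  have e2 : (j * (j - 1) / 2 : ℝ) * θ * N ≤ 1 / 2 * (j : ℝ) ^ 2 * θ * N := by
    have hθN : 0 ≤ θ * N := mul_nonneg hθ hN0
    nlinarith [mul_nonneg hj hθN]
  have e3 : 3 / 2 * (j : ℝ) ^ 2 * θ * N + 2 * W =
    (1 / 2 * (j : ℝ) ^ 2 * θ * N) + ((j : ℝ) ^ 2 * θ * N + W) + W := by ring
  rw [e3]
  linarith

end Pool.Agent.Lib.MP_8d00da_gt.h42k.G
end
end

section

section

/-!
# Paper 344 (quadratic KLS with a universal constant): the weighted norm of sym(B A)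
-/

namespace Pool.Agent.Lib.MP_8d00da_gt.h42k.U

open MeasureTheory Set Filter
open scoped Topology NNReal ENNReal ContDiff

set_option linter.unusedSectionVars false
set_option linter.unusedVariables false

variable {ι : Type*} [Fintype ι] [DecidableEq ι]

/-- symmetrisation does not increase the weighted norm -/
private theorem U1c_sym {S : ι → ℝ} (hS1 : ∀ i, 1 ≤ S i) (E : Matrix ι ι ℝ) :
    nB S (Matrix.of fun i j => (E i j + E j i) / 2) ≤ nB S E := by
  have h0 : nB S E = ∑ i, ∑ j, E j i ^ 2 * (S i * S j) := by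
    unfold nB
    rw [Finset.sum_comm]
    refine Finset.sum_congr rfl fun i _ => Finset.sum_congr rfl fun j _ => ?_
    ring
  have h1 : nB S (Matrix.of fun i j => (E i j + E j i) / 2) ≤
      ∑ i, ∑ j, (E i j ^ 2 * (S i * S j) + E j i ^ 2 * (S i * S j)) / 2 := by
    unfold nB
    refine Finset.sum_le_sum fun i _ => Finset.sum_le_sum fun j _ => ?_
    simp only [Matrix.of_apply]
    have hp : 0 ≤ S i * S j := mul_nonneg (by linarith [hS1 i]) (by linarith [hS1 j])
    nlinarith [mul_nonneg hp (sq_nonneg (E i j - E j i))]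
  refine h1.trans (le_of_eq ?_)
  have h2 : ∑ i, ∑ j, (E i j ^ 2 * (S i * S j) + E j i ^ 2 * (S i * S j)) / 2 =
      (nB S E + ∑ i, ∑ j, E j i ^ 2 * (S i * S j)) / 2 := by
    unfold nB
    rw [← Finset.sum_add_distrib, Finset.sum_div]
    refine Finset.sum_congr rfl fun i _ => ?_
    rw [← Finset.sum_add_distrib, Finset.sum_div]
  rw [h2, ← h0]
  ring

/-- the part with the diagonal matrix -/
private theorem U1c_diag {S α : ι → ℝ} {σ : ℝ} (hσ : 1 ≤ σ) (hS1 : ∀ i, 1 ≤ S i)
    (hα : ∀ i, |α i| ≤ σ) (B : Matrix ι ι ℝ) :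
    ∑ i, ∑ j, (B i j * α j) ^ 2 * (S i * S j) ≤ σ ^ 2 * nB S B := by
  unfold nB
  rw [Finset.mul_sum]
  refine Finset.sum_le_sum fun i _ => ?_
  rw [Finset.mul_sum]
  refine Finset.sum_le_sum fun j _ => ?_
  have hp : 0 ≤ S i * S j := mul_nonneg (by linarith [hS1 i]) (by linarith [hS1 j])
  have ha : α j ^ 2 ≤ σ ^ 2 := sq_le_sq' (by linarith [(abs_le.1 (hα j)).1]) (abs_le.1 (hα j)).2
  have hq : 0 ≤ B i j ^ 2 * (S i * S j) := mul_nonneg (sq_nonneg _) hp
  calc (B i j * α j) ^ 2 * (S i * S j) = α j ^ 2 * (B i j ^ 2 * (S i * S j)) := by ring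
    _ ≤ σ ^ 2 * (B i j ^ 2 * (S i * S j)) := mul_le_mul_of_nonneg_right ha hq

/-- the part with the perturbation -/
private theorem U1c_off {S : ι → ℝ} {σ d : ℝ} (hσ : 1 ≤ σ) (hS1 : ∀ i, 1 ≤ S i)
    (hS : ∀ i, S i ≤ σ) (B Δ : Matrix ι ι ℝ) (hΔ : ∑ i, ∑ j, Δ i j ^ 2 ≤ d ^ 2) :
    ∑ i, ∑ j, (∑ k, B i k * Δ k j) ^ 2 * (S i * S j) ≤ σ * d ^ 2 * nB S B := by
  have hb : ∀ i, ∑ k, B i k ^ 2 ≤ ∑ k, B i k ^ 2 * S k := fun i =>
    Finset.sum_le_sum fun k _ => by nlinarith [mul_nonneg (sq_nonneg (B i k)) (sub_nonneg.2 (hS1 k))]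
  have hb0 : ∀ i, 0 ≤ ∑ k, B i k ^ 2 := fun i => Finset.sum_nonneg fun k _ => sq_nonneg _
  have h1 : ∀ i, ∑ j, (∑ k, B i k * Δ k j) ^ 2 * (S i * S j) ≤
      σ * d ^ 2 * ∑ k, B i k ^ 2 * (S i * S k) := by
    intro i
    have hSi : 0 ≤ S i := by linarith [hS1 i]
    have h2 : ∀ j, (∑ k, B i k * Δ k j) ^ 2 * (S i * S j) ≤
        (S i * σ * ∑ k, B i k ^ 2) * ∑ k, Δ k j ^ 2 := by
      intro j
      have hcs := Finset.sum_mul_sq_le_sq_mul_sq Finset.univ (fun k => B i k) (fun k => Δ k j)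
      have hD0 : 0 ≤ ∑ k, Δ k j ^ 2 := Finset.sum_nonneg fun k _ => sq_nonneg _
      have hSj : 0 ≤ S j := by linarith [hS1 j]
      calc (∑ k, B i k * Δ k j) ^ 2 * (S i * S j)
          ≤ ((∑ k, B i k ^ 2) * ∑ k, Δ k j ^ 2) * (S i * σ) := by
            refine mul_le_mul hcs (mul_le_mul_of_nonneg_left (hS j) hSi)
              (mul_nonneg hSi hSj) (mul_nonneg (hb0 i) hD0)
        _ = _ := by ring
    calc ∑ j, (∑ k, B i k * Δ k j) ^ 2 * (S i * S j)
        ≤ ∑ j, (S i * σ * ∑ k, B i k ^ 2) * ∑ k, Δ k j ^ 2 := Finset.sum_le_sum fun j _ => h2 j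
      _ = (S i * σ * ∑ k, B i k ^ 2) * ∑ j, ∑ k, Δ k j ^ 2 := (Finset.mul_sum _ _ _).symm
      _ ≤ (S i * σ * ∑ k, B i k ^ 2) * d ^ 2 := by
          refine mul_le_mul_of_nonneg_left ?_ (by have := hb0 i; positivity)
          rw [Finset.sum_comm]
          exact hΔ
      _ ≤ (S i * σ * ∑ k, B i k ^ 2 * S k) * d ^ 2 := by
          refine mul_le_mul_of_nonneg_right ?_ (sq_nonneg _)
          exact mul_le_mul_of_nonneg_left (hb i) (by positivity)
      _ = σ * d ^ 2 * ∑ k, B i k ^ 2 * (S i * S k) := by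
          rw [Finset.mul_sum, Finset.mul_sum, Finset.sum_mul]
          refine Finset.sum_congr rfl fun k _ => ?_
          ring
  unfold nB
  rw [Finset.mul_sum]
  exact Finset.sum_le_sum fun i _ => h1 i

/-- U.4 (c): `D = sym(B A')`, `A' = diag α + Δ`, `1 ≤ S_i ≤ σ`, `|α_i| ≤ σ`, `∑ Δ² ≤ d²`:
the weighted norm of `D` is at most `(σ + √σ d)` times the weighted norm of `B`.
(`∑ D_ij² S_iS_j ≤ ∑ E_ij² S_iS_j`, `E = B A'`; Minkowski for `E = B diag α + B Δ`;
`(BΔ)_ij² ≤ ∑_k B_ik² ∑_k Δ_kj²`, `S_j ≤ σ`, `1 ≤ S_k`.) -/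
theorem nB_sym_mul {S α : ι → ℝ} {σ d : ℝ} (hσ : 1 ≤ σ) (hd : 0 ≤ d) (hS1 : ∀ i, 1 ≤ S i)
    (hS : ∀ i, S i ≤ σ) (hα : ∀ i, |α i| ≤ σ) {B A' : Matrix ι ι ℝ}
    (hA : ∑ i, ∑ j, (A' i j - Matrix.diagonal α i j) ^ 2 ≤ d ^ 2) :
    nB S (Matrix.of fun i j => ((B * A') i j + (B * A') j i) / 2) ≤
      (σ * (1 + d)) ^ 2 * nB S B := by
  refine (U1c_sym hS1 (B * A')).trans ?_
  have hN : 0 ≤ nB S B := by
    unfold nB
    exact Finset.sum_nonneg fun i _ => Finset.sum_nonneg fun j _ =>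
      mul_nonneg (sq_nonneg _) (mul_nonneg (by linarith [hS1 i]) (by linarith [hS1 j]))
  set Δ : Matrix ι ι ℝ := A' - Matrix.diagonal α with hΔ
  have hΔ2 : ∑ i, ∑ j, Δ i j ^ 2 ≤ d ^ 2 := by
    simpa [hΔ, Matrix.sub_apply] using hA
  have hE : ∀ i j, (B * A') i j = B i j * α j + ∑ k, B i k * Δ k j := by
    intro i j
    have : A' = Matrix.diagonal α + Δ := by rw [hΔ]; abel
    conv_lhs => rw [this]
    rw [Matrix.mul_add, Matrix.add_apply, Matrix.mul_diagonal, Matrix.mul_apply]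
  have h1 := U1c_diag hσ hS1 hα B
  have h2 := U1c_off hσ hS1 hS B Δ hΔ2
  have hpp : ∀ i j, 0 ≤ S i * S j := fun i j =>
    mul_nonneg (by linarith [hS1 i]) (by linarith [hS1 j])
  rcases hd.eq_or_lt with h0 | hpos
  · -- `d = 0`
    have hz : ∀ k j, Δ k j = 0 := by
      intro k j
      have hs : Δ k j ^ 2 ≤ 0 := by
        have a1 : Δ k j ^ 2 ≤ ∑ j, Δ k j ^ 2 :=
          Finset.single_le_sum (f := fun j => Δ k j ^ 2) (fun j _ => sq_nonneg _)
            (Finset.mem_univ j)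
        have a2 : ∑ j, Δ k j ^ 2 ≤ ∑ i, ∑ j, Δ i j ^ 2 :=
          Finset.single_le_sum (f := fun i => ∑ j, Δ i j ^ 2)
            (fun i _ => Finset.sum_nonneg fun j _ => sq_nonneg _) (Finset.mem_univ k)
        rw [← h0] at hΔ2
        nlinarith
      nlinarith [pow_eq_zero_iff (n := 2) (by norm_num) |>.1 (le_antisymm hs (sq_nonneg (Δ k j)))]
    have h3 : nB S (B * A') = ∑ i, ∑ j, (B i j * α j) ^ 2 * (S i * S j) := by
      unfold nB
      refine Finset.sum_congr rfl fun i _ => Finset.sum_congr rfl fun j _ => ?_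
      rw [hE]
      simp [hz]
    rw [h3, ← h0]
    simpa using h1
  · have hpt : ∀ i j, (B * A') i j ^ 2 * (S i * S j) ≤
        (1 + d) * ((B i j * α j) ^ 2 * (S i * S j)) +
          (1 + 1 / d) * ((∑ k, B i k * Δ k j) ^ 2 * (S i * S j)) := by
      intro i j
      rw [hE]
      generalize B i j * α j = a
      generalize ∑ k, B i k * Δ k j = b
      have hab : (a + b) ^ 2 ≤ (1 + d) * a ^ 2 + (1 + 1 / d) * b ^ 2 := by
        have : (1 + d) * a ^ 2 + (1 + 1 / d) * b ^ 2 - (a + b) ^ 2 = (d * a - b) ^ 2 / d := by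
          field_simp
          ring
        have h5 : 0 ≤ (d * a - b) ^ 2 / d := by positivity
        linarith
      nlinarith [mul_le_mul_of_nonneg_right hab (hpp i j)]
    have h3 : nB S (B * A') ≤
        (1 + d) * ∑ i, ∑ j, (B i j * α j) ^ 2 * (S i * S j) +
          (1 + 1 / d) * ∑ i, ∑ j, (∑ k, B i k * Δ k j) ^ 2 * (S i * S j) := by
      rw [Finset.mul_sum, Finset.mul_sum, ← Finset.sum_add_distrib]
      unfold nB
      refine Finset.sum_le_sum fun i _ => ?_
      rw [Finset.mul_sum, Finset.mul_sum, ← Finset.sum_add_distrib]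
      exact Finset.sum_le_sum fun j _ => hpt i j
    have h4 : (1 + d) * ∑ i, ∑ j, (B i j * α j) ^ 2 * (S i * S j) ≤
        (1 + d) * (σ ^ 2 * nB S B) := mul_le_mul_of_nonneg_left h1 (by linarith)
    have h5 : (1 + 1 / d) * ∑ i, ∑ j, (∑ k, B i k * Δ k j) ^ 2 * (S i * S j) ≤
        (1 + 1 / d) * (σ * d ^ 2 * nB S B) := mul_le_mul_of_nonneg_left h2 (by positivity)
    have h6 : (1 + 1 / d) * (σ * d ^ 2 * nB S B) = d * (1 + d) * (σ * nB S B) := by
      field_simp
      ring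
    have h7 : d * (1 + d) * (σ * nB S B) ≤ d * (1 + d) * (σ ^ 2 * nB S B) := by
      refine mul_le_mul_of_nonneg_left ?_ (by positivity)
      refine mul_le_mul_of_nonneg_right ?_ hN
      nlinarith
    have h8 : (σ * (1 + d)) ^ 2 * nB S B =
        (1 + d) * (σ ^ 2 * nB S B) + d * (1 + d) * (σ ^ 2 * nB S B) := by ring
    rw [h8]
    linarith

end Pool.Agent.Lib.MP_8d00da_gt.h42k.U
end

section

/-!
# Paper 344 (quadratic KLS with a universal constant): U.4 (c): the cross term at time s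
-/

namespace Pool.Agent.Lib.MP_8d00da_gt.h42k.U

open MeasureTheory Set Filter
open scoped Topology NNReal ENNReal ContDiff

set_option linter.unusedSectionVars false
set_option linter.unusedVariables false

variable {ι : Type} [Fintype ι] [DecidableEq ι]

variable {τ σ M K : ℝ} {V : (ι → ℝ) → ℝ} {α : ι → ℝ}

/-- U.4 (c): `Cov_{s,y}(f, ⟨D x̃, x̃⟩)² ≤ Var_{s,y} f · K (1+δ)² (σ(1+δ))² nB B`,
`D = sym(B A_s)` (`cov_cs`, `NF.quad_pt`, `nB_sym_mul`). -/
theorem NF.cross_le (h : NF τ σ M V α) (hσ : 2 ≤ σ) (hQ : QT ι τ K) (hK : 0 ≤ K) {s : ℝ}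
    (s0 : 0 ≤ s) (y : ι → ℝ) {B : Matrix ι ι ℝ} (hB : ∀ i j, B i j = B j i)
    {f : (ι → ℝ) → ℝ} (hf : T0 f) :
    cov (pt V s y) f (qf (pt V s y)
      (fun i j => ((B * CM (pt V s y)) i j + (B * CM (pt V s y)) j i) / 2)) ^ 2 ≤
      var (pt V s y) f * (K * (1 + dl V s y) ^ 2 * ((σ * (1 + dl V s y)) ^ 2 * nB (sw σ α) B)) := by
  have _ := hB
  have hτ := h.nice.kpos
  have hn := h.nice.ptn (t := s) (by linarith) y
  set D : Matrix ι ι ℝ := Matrix.of
    (fun i j => ((B * CM (pt V s y)) i j + (B * CM (pt V s y)) j i) / 2) with hD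
  have hDs : ∀ i j, D i j = D j i := by
    intro i j
    change ((B * CM (pt V s y)) i j + (B * CM (pt V s y)) j i) / 2 =
      ((B * CM (pt V s y)) j i + (B * CM (pt V s y)) i j) / 2
    ring
  have hg : T0 (qf (pt V s y) D) := by
    have : qf (pt V s y) D = fun x => ∑ i, ∑ j, D i j * (x i - mn (pt V s y) i)
      * (x j - mn (pt V s y) j) := rfl
    rw [this]
    exact T0.sum _ fun i _ => T0.sum _ fun j _ => ((T0.const _).mul ((T0.coord i).sub
      (T0.const _))).mul ((T0.coord j).sub (T0.const _))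
  have h1 : cov (pt V s y) f (qf (pt V s y) D) ^ 2 ≤
      var (pt V s y) f * var (pt V s y) (qf (pt V s y) D) := cov_cs hn hf hg
  have h2 := h.quad_pt hσ hQ hK s0 y hDs
  have h3 : nB (sw σ α) D ≤ (σ * (1 + dl V s y)) ^ 2 * nB (sw σ α) B := by
    apply nB_sym_mul (S := sw σ α) (α := α) (by linarith) (dl_nonneg V s y)
      (fun i => (h.sw_facts hσ i).1) (fun i => (h.sw_facts hσ i).2.1)
    · intro i
      rw [abs_of_nonneg (h.nn i)]
      exact (h.lt i).le
    · rw [dl_sq, h.cm]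
  have h4 : K * (1 + dl V s y) ^ 2 * nB (sw σ α) D ≤
      K * (1 + dl V s y) ^ 2 * ((σ * (1 + dl V s y)) ^ 2 * nB (sw σ α) B) :=
    mul_le_mul_of_nonneg_left h3 (mul_nonneg hK (sq_nonneg _))
  exact le_trans h1 (mul_le_mul_of_nonneg_left (le_trans h2 h4) (var_nonneg hn hf))

end Pool.Agent.Lib.MP_8d00da_gt.h42k.U
end

section

/-!
# Paper 344 (quadratic KLS with a universal constant): U.6 (iv): generator of Psi
-/

namespace Pool.Agent.Lib.MP_8d00da_gt.h42k.U

open MeasureTheory Set Filter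
open scoped Topology NNReal ENNReal ContDiff

set_option linter.unusedSectionVars false
set_option linter.unusedVariables false

variable {ι : Type} [Fintype ι] [DecidableEq ι]

variable {κ M : ℝ} {V : (ι → ℝ) → ℝ}

private theorem U6b_q0 (B : Matrix ι ι ℝ) : T0 (q0 B) := by
  have h : T0 (fun x : ι → ℝ => ∑ i, ∑ j, B i j * x i * x j) :=
    T0.sum Finset.univ fun i _ => T0.sum Finset.univ fun j _ =>
      ((T0.coord i).cmul (B i j)).mul (T0.coord j)
  exact h

private theorem U6b_AL (V : (ι → ℝ) → ℝ) (B : Matrix ι ι ℝ) (j k : ι) :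
    AL V (fun s y => B j k * (EP V s (fun x => x j) y * CP V s (q0 B) (fun x => x k) y)) :=
  ((AL.ep (fun x => x j) (T0.coord j)).mul (AL.cp V (U6b_q0 B) (T0.coord k))).cmul (B j k)

private theorem U6b_Ps (V : (ι → ℝ) → ℝ) (B : Matrix ι ι ℝ) :
    (fun s y => Ps V B s y) = fun s y => ∑ j ∈ (Finset.univ : Finset ι), ∑ k ∈ (Finset.univ : Finset ι),
      B j k * (EP V s (fun x => x j) y * CP V s (q0 B) (fun x => x k) y) := rfl

/-- `Ψ` is in the algebra `AL`. -/
theorem Ps_AL (V : (ι → ℝ) → ℝ) (B : Matrix ι ι ℝ) : AL V (fun s y => Ps V B s y) := by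
  rw [U6b_Ps]
  exact AL.sum Finset.univ fun j _ => AL.sum Finset.univ fun k _ => U6b_AL V B j k

private theorem U6b_Gn_const (V : (ι → ℝ) → ℝ) (t c : ℝ) (y : ι → ℝ) :
    Gn V t (fun _ _ => c) y = 0 := by
  have h1 : ∀ i, pd i (fun _ : ι → ℝ => c) = fun _ => 0 := fun i => by
    funext z
    simp [pd]
  have h2 : ∀ i, pd i (fun _ : ι → ℝ => (0 : ℝ)) = fun _ => 0 := fun i => by
    funext z
    simp [pd]
  unfold Gn
  simp only [h1, h2, deriv_const, mul_zero, Finset.sum_const_zero, add_zero]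

private theorem U6b_Gn_cmul {Φ : ℝ → (ι → ℝ) → ℝ} {t : ℝ} {y : ι → ℝ} (c : ℝ)
    (h : ∀ y, ContDiffAt ℝ ∞ (fun p : ℝ × (ι → ℝ) => Φ p.1 p.2) (t, y)) :
    Gn V t (fun s y => c * Φ s y) y = c * Gn V t Φ y := by
  have h1 : ∀ i, pd i (fun _ : ι → ℝ => c) = fun _ => 0 := fun i => by
    funext z
    simp [pd]
  rw [Gn_mul (V := V) (Φ := fun _ _ => c) (Ψ := Φ) (fun y => contDiffAt_const) h, U6b_Gn_const]
  simp only [h1, zero_mul, Finset.sum_const_zero, mul_zero, add_zero]

private theorem U6b_Gn_add {Φ Ψ : ℝ → (ι → ℝ) → ℝ} {t : ℝ} {y : ι → ℝ}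
    (h1 : ∀ y, ContDiffAt ℝ ∞ (fun p : ℝ × (ι → ℝ) => Φ p.1 p.2) (t, y))
    (h2 : ∀ y, ContDiffAt ℝ ∞ (fun p : ℝ × (ι → ℝ) => Ψ p.1 p.2) (t, y)) :
    Gn V t (fun s y => Φ s y + Ψ s y) y = Gn V t Φ y + Gn V t Ψ y := by
  have e : (fun s y => Φ s y + Ψ s y) = fun s y => Φ s y - (-1) * Ψ s y := by
    funext s y
    ring
  have h3 : ∀ y, ContDiffAt ℝ ∞ (fun p : ℝ × (ι → ℝ) => (-1 : ℝ) * Ψ p.1 p.2) (t, y) :=
    fun y => contDiffAt_const.mul (h2 y)
  rw [e, Gn_sub (V := V) (Φ := Φ) (Ψ := fun s y => (-1) * Ψ s y) h1 h3, U6b_Gn_cmul (-1) h2]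
  ring

private theorem U6b_Gn_sum {α : Type} {F : α → ℝ → (ι → ℝ) → ℝ} {t : ℝ} (y : ι → ℝ)
    (S : Finset α)
    (h : ∀ a ∈ S, ∀ y, ContDiffAt ℝ ∞ (fun p : ℝ × (ι → ℝ) => F a p.1 p.2) (t, y)) :
    Gn V t (fun s y => ∑ a ∈ S, F a s y) y = ∑ a ∈ S, Gn V t (F a) y := by
  classical
  induction S using Finset.induction_on with
  | empty => simpa using U6b_Gn_const V t 0 y
  | insert a S ha ih =>
    have e : (fun s y => ∑ b ∈ insert a S, F b s y) = fun s y => F a s y + ∑ b ∈ S, F b s y := by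
      funext s y
      rw [Finset.sum_insert ha]
    have h1 := h a (Finset.mem_insert_self a S)
    have h2 : ∀ b ∈ S, ∀ y, ContDiffAt ℝ ∞ (fun p : ℝ × (ι → ℝ) => F b p.1 p.2) (t, y) :=
      fun b hb => h b (Finset.mem_insert_of_mem hb)
    have h3 : ∀ y, ContDiffAt ℝ ∞ (fun p : ℝ × (ι → ℝ) => ∑ b ∈ S, F b p.1 p.2) (t, y) :=
      fun y => ContDiffAt.sum fun b hb => h2 b hb y
    rw [e, U6b_Gn_add (V := V) (Φ := F a) (Ψ := fun s y => ∑ b ∈ S, F b s y) h1 h3, ih h2,
      Finset.sum_insert ha]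

private theorem U6b_TC_symm (V f : (ι → ℝ) → ℝ) (t : ℝ) (g h : (ι → ℝ) → ℝ) (y : ι → ℝ) :
    TC V t f g h y = TC V t f h g y := by
  unfold TC
  congr 1
  funext x
  ring

private theorem U6b_cov_qf (H : Nice κ M V) {f : (ι → ℝ) → ℝ} (hf : T0 f) {s : ℝ} (hs : -κ < s)
    (y : ι → ℝ) (D : ι → ι → ℝ) :
    cov (pt V s y) f (qf (pt V s y) D) =
      ∑ i, ∑ j, D i j * TC V s f (fun x => x i) (fun x => x j) y := by
  have H' := H.ptn hs y
  have tc : ∀ i, T0 (fun x : ι → ℝ => x i - mn (pt V s y) i) := fun i =>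
    (T0.coord i).sub (T0.const _)
  have tt : ∀ i j, T0 (fun x : ι → ℝ => D i j * (x i - mn (pt V s y) i) * (x j - mn (pt V s y) j)) :=
    fun i j => ((tc i).cmul (D i j)).mul (tc j)
  rw [cov_comm]
  have e : qf (pt V s y) D = fun x => ∑ i ∈ (Finset.univ : Finset ι), ∑ j ∈ (Finset.univ : Finset ι),
      D i j * (x i - mn (pt V s y) i) * (x j - mn (pt V s y) j) := rfl
  rw [e, cov_sum H' Finset.univ (F := fun i x => ∑ j ∈ (Finset.univ : Finset ι),
    D i j * (x i - mn (pt V s y) i) * (x j - mn (pt V s y) j))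
    (fun i _ => T0.sum Finset.univ fun j _ => tt i j) hf]
  refine Finset.sum_congr rfl fun i _ => ?_
  rw [cov_sum H' Finset.univ (F := fun j x =>
    D i j * (x i - mn (pt V s y) i) * (x j - mn (pt V s y) j)) (fun j _ => tt i j) hf]
  refine Finset.sum_congr rfl fun j _ => ?_
  have e2 : (fun x : ι → ℝ => D i j * (x i - mn (pt V s y) i) * (x j - mn (pt V s y) j)) =
      fun x => D i j * ((x i - mn (pt V s y) i) * (x j - mn (pt V s y) j)) := by
    funext x
    ring
  rw [e2, cov_cmul, cov_comm, cov_eq_left H' hf ((tc i).mul (tc j))]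
  congr 1
  unfold TC
  congr 1
  funext x
  show (f x - ex (pt V s y) f) * ((x i - mn (pt V s y) i) * (x j - mn (pt V s y) j)) =
    (f x - EP V s f y) * (x i - EP V s (fun x => x i) y) * (x j - EP V s (fun x => x j) y)
  rw [← mul_assoc]
  rfl

/-- U.6 (iv), generator of `Ψ`:
`-∑_jk B_jk a_j ∑_m Cov(f,x_m) A_mk + Cov_{s,y}(f, ⟨D x̃, x̃⟩)`, `D = sym(B A_s)`
(`Gn_mul`, `Gn_EP`, `Gn_CP`, `EP_pd`, `CP_pd`). -/
theorem Gn_Ps (H : Nice κ M V) {B : Matrix ι ι ℝ} (hB : ∀ i j, B i j = B j i) {s : ℝ}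
    (s0 : 0 < s) (y : ι → ℝ) :
    Gn V s (fun s y => Ps V B s y) y =
      -(∑ j, ∑ k, B j k * mn (pt V s y) j *
        ∑ m, cov (pt V s y) (q0 B) (fun x => x m) * CM (pt V s y) m k) +
      cov (pt V s y) (q0 B) (qf (pt V s y)
        (fun i j => ((B * CM (pt V s y)) i j + (B * CM (pt V s y)) j i) / 2)) := by
  have hκ := H.kpos
  have hs : -κ < s := by linarith
  have t0 := U6b_q0 B
  set f : (ι → ℝ) → ℝ := q0 B with hf
  have sm : ∀ j k, ∀ y, ContDiffAt ℝ ∞ (fun p : ℝ × (ι → ℝ) =>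
      B j k * (EP V p.1 (fun x => x j) p.2 * CP V p.1 f (fun x => x k) p.2)) (s, y) :=
    fun j k y => (U6b_AL V B j k).smooth H hs y
  have sm1 : ∀ j k, ∀ y, ContDiffAt ℝ ∞ (fun p : ℝ × (ι → ℝ) =>
      EP V p.1 (fun x => x j) p.2 * CP V p.1 f (fun x => x k) p.2) (s, y) :=
    fun j k y => (EP_contDiffAt H (T0.coord j) hs y).mul (CP_contDiffAt H t0 (T0.coord k) hs y)
  have key : ∀ j k, Gn V s (fun s y => B j k * (EP V s (fun x => x j) y * CP V s f (fun x => x k) y)) y =
      B j k * (EP V s (fun x => x j) y * (- ∑ m, CP V s f (fun x => x m) y * CP V s (fun x => x k) (fun x => x m) y)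
        + ∑ i, CP V s (fun x => x j) (fun x => x i) y * TC V s f (fun x => x k) (fun x => x i) y) := by
    intro j k
    rw [U6b_Gn_cmul (V := V) (Φ := fun s y => EP V s (fun x => x j) y * CP V s f (fun x => x k) y)
      (B j k) (sm1 j k),
      Gn_mul (V := V) (Φ := fun s => EP V s (fun x => x j)) (Ψ := fun s => CP V s f (fun x => x k))
        (fun y => EP_contDiffAt H (T0.coord j) hs y) (fun y => CP_contDiffAt H t0 (T0.coord k) hs y),
      Gn_EP H (T0.coord j) hs y, mul_zero, add_zero]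
    have e1 : Gn V s (fun s => CP V s f (fun x => x k)) y =
        - ∑ m, CP V s f (fun x => x m) y * CP V s (fun x => x k) (fun x => x m) y :=
      Gn_CP H t0 (T0.coord k) hs y
    rw [e1]
    congr 2
    refine Finset.sum_congr rfl fun i _ => ?_
    rw [EP_pd H (T0.coord j) hs y i, CP_pd H t0 (T0.coord k) hs y i]
  rw [U6b_Ps, U6b_Gn_sum (V := V) (F := fun j s y => ∑ k ∈ (Finset.univ : Finset ι),
      B j k * (EP V s (fun x => x j) y * CP V s f (fun x => x k) y)) y Finset.univ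
      (fun j _ y => ContDiffAt.sum fun k _ => sm j k y)]
  have key2 : ∀ j, Gn V s (fun s y => ∑ k ∈ (Finset.univ : Finset ι),
      B j k * (EP V s (fun x => x j) y * CP V s f (fun x => x k) y)) y =
      ∑ k, B j k * (EP V s (fun x => x j) y * (- ∑ m, CP V s f (fun x => x m) y * CP V s (fun x => x k) (fun x => x m) y)
        + ∑ i, CP V s (fun x => x j) (fun x => x i) y * TC V s f (fun x => x k) (fun x => x i) y) := by
    intro j
    rw [U6b_Gn_sum (V := V) (F := fun k s y =>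
      B j k * (EP V s (fun x => x j) y * CP V s f (fun x => x k) y)) y Finset.univ
      (fun k _ => sm j k)]
    exact Finset.sum_congr rfl fun k _ => key j k
  rw [Finset.sum_congr rfl fun j _ => key2 j, U6b_cov_qf H t0 hs y]
  set T : ι → ι → ℝ := fun i j => TC V s f (fun x => x i) (fun x => x j) y with hT
  have hTs : ∀ i j, T i j = T j i := fun i j => U6b_TC_symm V f s _ _ y
  set A : Matrix ι ι ℝ := CM (pt V s y) with hA
  have eA : ∀ i j, CP V s (fun x => x i) (fun x => x j) y = A i j := fun i j => rfl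
  have eAs : ∀ i j, A i j = A j i := fun i j => cov_comm _ _ _
  have eT : ∀ i j, TC V s f (fun x => x i) (fun x => x j) y = T i j := fun i j => rfl
  have r1 : ∑ i, ∑ j, (((B * A) i j + (B * A) j i) / 2) * T i j = ∑ i, ∑ j, (B * A) i j * T i j := by
    have r2 : ∑ i, ∑ j, (B * A) j i * T i j = ∑ i, ∑ j, (B * A) i j * T i j := by
      rw [Finset.sum_comm]
      exact Finset.sum_congr rfl fun i _ => Finset.sum_congr rfl fun j _ => by rw [hTs j i]
    have r3 : ∑ i, ∑ j, (((B * A) i j + (B * A) j i) / 2) * T i j =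
        (1 / 2) * (∑ i, ∑ j, (B * A) i j * T i j) + (1 / 2) * ∑ i, ∑ j, (B * A) j i * T i j := by
      rw [Finset.mul_sum, Finset.mul_sum, ← Finset.sum_add_distrib]
      refine Finset.sum_congr rfl fun i _ => ?_
      rw [Finset.mul_sum, Finset.mul_sum, ← Finset.sum_add_distrib]
      exact Finset.sum_congr rfl fun j _ => by ring
    rw [r3, r2]
    ring
  have r4 : ∑ i, ∑ j, (B * A) i j * T i j = ∑ j, ∑ k, B j k * ∑ i, A j i * T k i := by
    have r5 : ∀ i j, (B * A) i j * T i j = ∑ l, B l i * (A l j * T i j) := by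
      intro i j
      rw [Matrix.mul_apply, Finset.sum_mul]
      exact Finset.sum_congr rfl fun l _ => by rw [hB i l]; ring
    simp only [r5]
    have r6 : ∀ i, ∑ j, ∑ l, B l i * (A l j * T i j) = ∑ l, B l i * ∑ j, A l j * T i j := by
      intro i
      rw [Finset.sum_comm]
      exact Finset.sum_congr rfl fun l _ => (Finset.mul_sum _ _ _).symm
    simp only [r6]
    rw [Finset.sum_comm]
  show ∑ j, ∑ k, B j k * (EP V s (fun x => x j) y * (- ∑ m, CP V s f (fun x => x m) y * A k m)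
        + ∑ i, A j i * T k i) =
    -(∑ j, ∑ k, B j k * mn (pt V s y) j * ∑ m, cov (pt V s y) f (fun x => x m) * A m k) +
      ∑ i, ∑ j, (((B * A) i j + (B * A) j i) / 2) * T i j
  rw [r1, r4, ← Finset.sum_neg_distrib, ← Finset.sum_add_distrib]
  refine Finset.sum_congr rfl fun j _ => ?_
  rw [← Finset.sum_neg_distrib, ← Finset.sum_add_distrib]
  refine Finset.sum_congr rfl fun k _ => ?_
  have e3 : ∑ m, CP V s f (fun x => x m) y * A k m = ∑ m, cov (pt V s y) f (fun x => x m) * A m k :=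
    Finset.sum_congr rfl fun m _ => by rw [eAs k m]; rfl
  rw [e3]
  have e4 : EP V s (fun x => x j) y = mn (pt V s y) j := rfl
  rw [e4]
  ring

end Pool.Agent.Lib.MP_8d00da_gt.h42k.U
end

section

/-!
# Paper 344 (quadratic KLS with a universal constant): U.6 (iv): growth of Psi
-/

namespace Pool.Agent.Lib.MP_8d00da_gt.h42k.U

open MeasureTheory Set Filter
open scoped Topology NNReal ENNReal ContDiff

set_option linter.unusedSectionVars false
set_option linter.unusedVariables false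

variable {ι : Type} [Fintype ι] [DecidableEq ι]

variable {κ M : ℝ} {V : (ι → ℝ) → ℝ}

/-- The first term: `|⟨Ba, A Cov(f,x)⟩| ≤ κ^{-3/2} |a| (Var f)^{1/2}` if `∑ B_ij² ≤ 1`. -/
theorem Ps_first_le (H : Nice κ M V) {B : Matrix ι ι ℝ} (hB1 : ∑ i, ∑ j, B i j ^ 2 ≤ 1)
    {s : ℝ} (s0 : 0 ≤ s) (y : ι → ℝ) :
    (∑ j, ∑ k, B j k * mn (pt V s y) j *
        ∑ m, cov (pt V s y) (q0 B) (fun x => x m) * CM (pt V s y) m k) ^ 2 ≤
      (∑ i, mn (pt V s y) i ^ 2) * (1 / κ ^ 3 * var (pt V s y) (q0 B)) := by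
  have kp := H.kpos
  have Hp : Nice κ (M + s) (pt V s y) :=
    (H.ptn (t := s) (by linarith) y).mono kp (by linarith) le_rfl
  have tq : T0 (q0 B) := by
    unfold q0
    exact T0.sum _ fun i _ => T0.sum _ fun j _ => ((T0.coord i).cmul (B i j)).mul (T0.coord j)
  set W := pt V s y with hW
  set c : ι → ℝ := fun m => cov W (q0 B) (fun x => x m) with hc
  set v : ι → ℝ := fun k => ∑ m, c m * CM W m k with hv
  have hL : CLe W (1 / κ) := s6_CLe_kappa Hp
  have h1 : sq c ≤ 1 / κ * var W (q0 B) := hL.cov_sq Hp tq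
  have h2 : sq v ≤ 1 / κ * (1 / κ * sq c) := by
    have e1 : ∀ k, v k = cov W (fun x => dt c x) (fun x => x k) := by
      intro k
      rw [hv]
      unfold dt
      rw [cov_sum Hp Finset.univ (F := fun i x => c i * x i) (fun i _ => (T0.coord i).cmul (c i))
        (T0.coord k)]
      refine Finset.sum_congr rfl fun m _ => ?_
      rw [cov_cmul]
      unfold CM
      rw [Matrix.of_apply]
    have e2 := hL.cov_sq Hp (T0.dtf c)
    have e3 := hL c
    calc sq v = ∑ k, cov W (dt c) (fun x => x k) ^ 2 := by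
          unfold sq
          exact Finset.sum_congr rfl fun k _ => by rw [e1 k]
      _ ≤ 1 / κ * var W (dt c) := e2
      _ ≤ 1 / κ * (1 / κ * sq c) := mul_le_mul_of_nonneg_left e3 (by positivity)
  have h3 : (∑ j, ∑ k, B j k * mn W j * v k) ^ 2 ≤ (∑ i, mn W i ^ 2) * sq v := by
    have e1 : (∑ p : ι × ι, B p.1 p.2 * (mn W p.1 * v p.2)) ^ 2 ≤
        (∑ p : ι × ι, B p.1 p.2 ^ 2) * ∑ p : ι × ι, (mn W p.1 * v p.2) ^ 2 :=
      Finset.sum_mul_sq_le_sq_mul_sq _ _ _
    rw [Fintype.sum_prod_type, Fintype.sum_prod_type, Fintype.sum_prod_type] at e1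
    have e2 : ∑ i, ∑ j, (mn W i * v j) ^ 2 = (∑ i, mn W i ^ 2) * sq v := by
      unfold sq
      rw [Finset.sum_mul_sum]
      exact Finset.sum_congr rfl fun i _ => Finset.sum_congr rfl fun j _ => by ring
    have e3 : 0 ≤ (∑ i, mn W i ^ 2) * sq v :=
      mul_nonneg (Finset.sum_nonneg fun i _ => sq_nonneg _) (sq_nn v)
    simp only at e1
    rw [e2] at e1
    calc _ = (∑ i, ∑ j, B i j * (mn W i * v j)) ^ 2 := by
          congr 1
          exact Finset.sum_congr rfl fun i _ => Finset.sum_congr rfl fun j _ => by ring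
      _ ≤ _ := e1
      _ ≤ 1 * ((∑ i, mn W i ^ 2) * sq v) := mul_le_mul_of_nonneg_right hB1 e3
      _ = _ := one_mul _
  refine h3.trans (mul_le_mul_of_nonneg_left ?_ (Finset.sum_nonneg fun i _ => sq_nonneg _))
  calc sq v ≤ 1 / κ * (1 / κ * sq c) := h2
    _ ≤ 1 / κ * (1 / κ * (1 / κ * var W (q0 B))) := by
      refine mul_le_mul_of_nonneg_left (mul_le_mul_of_nonneg_left h1 (by positivity)) (by positivity)
    _ = 1 / κ ^ 3 * var W (q0 B) := by field_simp

/-- U.6 (iv): `4 GE_t Ψ ≤ 4 σ K t + C t^{3/2}`. -/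
theorem step_iv (ι : Type) [Fintype ι] [DecidableEq ι] {τ₀ σ₁ K₁ : ℝ} (h0 : 0 < τ₀) :
    ∃ C : ℝ, 0 ≤ C ∧ ∀ (τ σ M K t : ℝ) (V : (ι → ℝ) → ℝ) (α : ι → ℝ) (B : Matrix ι ι ℝ),
      τ₀ ≤ τ → 2 ≤ σ → σ ≤ σ₁ → 0 ≤ K → K ≤ K₁ → QT ι τ K → NF τ σ M V α →
      (∀ i j, B i j = B j i) → nB (sw σ α) B ≤ 1 → 0 < t →
      4 * GE V t (fun y => Ps V B t y) ≤ 4 * σ * K * t + C * (t * √t) := by
  obtain ⟨C1, hC1, hmn⟩ := GE_mn_sq ι h0
  obtain ⟨C2, hC2, hdl⟩ := GE_dl_errors ι h0
  set n : ℝ := (Fintype.card ι : ℝ) with hn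
  set D : ℝ := 2 * n / τ₀ with hD
  have hn0 : 0 ≤ n := by rw [hn]; positivity
  have hD0 : 0 ≤ D := by rw [hD]; positivity
  refine ⟨4 * (C1 / 2 + 1 / τ₀ ^ 3 * |K₁| / 2 + |σ₁| * (2 + D) * (C2 + |K₁| * C2) / 2), by positivity,
    fun τ σ M K t V α B hτ hσ hσ1 hK hK1 hQ hN hB hB1 ht => ?_⟩
  have H := hN.nice
  have kp := H.kpos
  have hK1' : K ≤ |K₁| := hK1.trans (le_abs_self _)
  have hσ1' : σ ≤ |σ₁| := hσ1.trans (le_abs_self _)
  have hsw : ∀ i, 1 ≤ sw σ α i := by
    intro i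
    unfold sw
    have h1 : 0 ≤ 1 - 1 / σ := by
      rw [sub_nonneg, div_le_one (by linarith)]; linarith
    nlinarith [mul_nonneg h1 (hN.nn i)]
  have hBB : ∑ i, ∑ j, B i j ^ 2 ≤ 1 := by
    refine le_trans ?_ hB1
    unfold nB
    refine Finset.sum_le_sum fun i _ => Finset.sum_le_sum fun j _ => ?_
    have : 1 ≤ sw σ α i * sw σ α j := by nlinarith [hsw i, hsw j]
    nlinarith [sq_nonneg (B i j)]
  have tq : T0 (q0 B) := by
    unfold q0
    exact T0.sum _ fun i _ => T0.sum _ fun j _ => ((T0.coord i).cmul (B i j)).mul (T0.coord j)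
  have hvar : var V (q0 B) ≤ K := by
    have e := hN.quad_pt hσ hQ hK (s := 0) le_rfl 0 (D := B) hB
    have e0 : pt V 0 (0 : ι → ℝ) = V := by
      funext x
      simp [pt, dt]
    have e1 : dl V 0 (0 : ι → ℝ) = 0 := by
      unfold dl
      simp [e0]
    have e2 : qf V B = q0 B := by
      funext x
      unfold qf q0
      simp [hN.mean]
    rw [e0, e1, e2] at e
    calc var V (q0 B) ≤ K * (1 + 0) ^ 2 * nB (sw σ α) B := e
      _ = K * nB (sw σ α) B := by ring
      _ ≤ K * 1 := mul_le_mul_of_nonneg_left hB1 hK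
      _ = K := mul_one _
  have hAL := Ps_AL V B
  have hc : ContinuousOn (fun s => GE V s (fun y => Ps V B s y)) (Icc 0 t) :=
    (AL.GE_continuousOn H hAL).mono Icc_subset_Ici_self
  have hd : ∀ s ∈ Ioo 0 t, HasDerivAt (fun s => GE V s (fun y => Ps V B s y))
      (GE V s (Gn V s (fun s y => Ps V B s y))) s := fun s hs => AL.generator H hAL hs.1
  have hder : ∀ s ∈ Ioo 0 t, GE V s (Gn V s (fun s y => Ps V B s y)) ≤ σ * K +
      (C1 / 2 + 1 / τ₀ ^ 3 * |K₁| / 2 + |σ₁| * (2 + D) * (C2 + |K₁| * C2) / 2) * √s := by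
    intro s hs
    have hs0 := hs.1.le
    have hs1 := hs.1
    have hss : 0 < √s := Real.sqrt_pos.2 hs1
    have tv : T0 (fun y => var (pt V s y) (q0 B)) := CP_t0 H tq tq (by linarith : -τ < s)
    have tm : T0 (fun y => ∑ i, mn (pt V s y) i ^ 2) :=
      T0.sum _ fun i _ => (EP_t0 H (T0.coord i) (by linarith : -τ < s)).pow 2
    have td : T0 (dl V s) := dl_t0 H hs0
    have tdv : T0 (fun y => dl V s y * var (pt V s y) (q0 B)) := td.mul tv
    -- pointwise bound
    have hpt : ∀ y, Gn V s (fun s y => Ps V B s y) y ≤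
        (1 / (2 * √s)) * (∑ i, mn (pt V s y) i ^ 2) +
        ((√s / (2 * τ₀ ^ 3) + σ / 2) * var (pt V s y) (q0 B) +
        (σ * (2 + D) / 2 * (dl V s y * var (pt V s y) (q0 B)) +
        (σ * (2 + D) / 2 * K * dl V s y + σ * K / 2))) := by
      intro y
      have Hp : Nice τ (M + s) (pt V s y) :=
        (H.ptn (t := s) (by linarith) y).mono kp (by linarith) le_rfl
      rw [Gn_Ps H hB hs1 y]
      have f1 := Ps_first_le H hBB hs0 y
      have f2 := hN.cross_le hσ hQ hK hs0 y hB tq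
      set F1 := ∑ j, ∑ k, B j k * mn (pt V s y) j *
        ∑ m, cov (pt V s y) (q0 B) (fun x => x m) * CM (pt V s y) m k with hF1
      set F2 := cov (pt V s y) (q0 B) (qf (pt V s y) (fun i j =>
        ((B * CM (pt V s y)) i j + (B * CM (pt V s y)) j i) / 2)) with hF2
      set X := ∑ i, mn (pt V s y) i ^ 2 with hX
      set v := var (pt V s y) (q0 B) with hv
      set d := dl V s y with hd'
      have X0 : 0 ≤ X := Finset.sum_nonneg fun i _ => sq_nonneg _
      have v0 : 0 ≤ v := var_nonneg Hp tq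
      have d0 : 0 ≤ d := dl_nonneg V s y
      have dD : d ≤ D := by
        refine (dl_le H hs0 y).trans ?_
        rw [hD]
        exact div_le_div_of_nonneg_left (by positivity) h0 hτ
      have τ3 : 1 / τ ^ 3 ≤ 1 / τ₀ ^ 3 :=
        one_div_le_one_div_of_le (by positivity) (pow_le_pow_left₀ h0.le hτ 3)
      have g1 : -F1 ≤ (1 / (2 * √s)) * X + √s / (2 * τ₀ ^ 3) * v := by
        have k1 : F1 ^ 2 ≤ X * (1 / τ₀ ^ 3 * v) :=
          f1.trans (mul_le_mul_of_nonneg_left (mul_le_mul_of_nonneg_right τ3 v0) X0)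
        have k2 : F1 ^ 2 ≤ ((1 / (2 * √s)) * X + √s / (2 * τ₀ ^ 3) * v) ^ 2 := by
          refine k1.trans ?_
          have k3 : X * (1 / τ₀ ^ 3 * v) =
              4 * ((1 / (2 * √s)) * X) * (√s / (2 * τ₀ ^ 3) * v) := by
            field_simp
            ring
          rw [k3]
          nlinarith [sq_nonneg ((1 / (2 * √s)) * X - √s / (2 * τ₀ ^ 3) * v)]
        have k4 : |F1| ≤ (1 / (2 * √s)) * X + √s / (2 * τ₀ ^ 3) * v :=
          abs_le_of_sq_le_sq k2 (by positivity)
        exact (neg_le_abs F1).trans k4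
      have g2 : F2 ≤ σ * (1 + d) ^ 2 * ((v + K) / 2) := by
        have k1 : F2 ^ 2 ≤ (σ * (1 + d) ^ 2 * ((v + K) / 2)) ^ 2 := by
          have k0 : v * K ≤ ((v + K) / 2) ^ 2 := by nlinarith [sq_nonneg (v - K)]
          calc F2 ^ 2 ≤ v * (K * (1 + d) ^ 2 * ((σ * (1 + d)) ^ 2 * nB (sw σ α) B)) := f2
            _ ≤ v * (K * (1 + d) ^ 2 * ((σ * (1 + d)) ^ 2 * 1)) := by
              refine mul_le_mul_of_nonneg_left (mul_le_mul_of_nonneg_left
                (mul_le_mul_of_nonneg_left hB1 (by positivity)) (by positivity)) v0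
            _ = (v * K) * (σ * (1 + d) ^ 2) ^ 2 := by ring
            _ ≤ ((v + K) / 2) ^ 2 * (σ * (1 + d) ^ 2) ^ 2 :=
              mul_le_mul_of_nonneg_right k0 (by positivity)
            _ = _ := by ring
        exact le_trans (le_abs_self _) (abs_le_of_sq_le_sq k1 (by positivity))
      have g3 : (1 + d) ^ 2 ≤ 1 + (2 + D) * d := by nlinarith
      have g4 : σ * (1 + d) ^ 2 * ((v + K) / 2) ≤ σ * (1 + (2 + D) * d) * ((v + K) / 2) := by
        refine mul_le_mul_of_nonneg_right (mul_le_mul_of_nonneg_left g3 (by linarith))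
          (by positivity)
      calc -F1 + F2 ≤ ((1 / (2 * √s)) * X + √s / (2 * τ₀ ^ 3) * v) +
            σ * (1 + (2 + D) * d) * ((v + K) / 2) := by linarith
        _ = _ := by ring
    have t1 : T0 (fun y => (1 / (2 * √s)) * (∑ i, mn (pt V s y) i ^ 2)) := tm.cmul _
    have t2 : T0 (fun y => (√s / (2 * τ₀ ^ 3) + σ / 2) * var (pt V s y) (q0 B)) := tv.cmul _
    have t3 : T0 (fun y => σ * (2 + D) / 2 * (dl V s y * var (pt V s y) (q0 B))) := tdv.cmul _
    have t4 : T0 (fun y => σ * (2 + D) / 2 * K * dl V s y) := td.cmul _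
    have t5 : T0 (fun _ : ι → ℝ => σ * K / 2) := T0.const _
    have e1 := GE_mono H (AL.Gn_t0 H hAL (by linarith : -τ < s))
      (t1.add (t2.add (t3.add (t4.add t5)))) s hpt
    rw [GE_add H t1 (t2.add (t3.add (t4.add t5))), GE_add H t2 (t3.add (t4.add t5)),
      GE_add H t3 (t4.add t5), GE_add H t4 t5, GE_cmul, GE_cmul, GE_cmul, GE_cmul,
      GE_const H] at e1
    have b1 := hmn τ M V hτ H hN.mean s hs0
    have b2 : GE V s (fun y => var (pt V s y) (q0 B)) ≤ K := (GE_var_le H tq hs0).trans hvar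
    have b3 := (hdl τ M V hτ H hN.mean B hBB s hs0).2
    have b4 : GE V s (fun y => dl V s y) ≤ C2 * √s := (hdl τ M V hτ H hN.mean B hBB s hs0).1
    have c1 : (1 / (2 * √s)) * GE V s (fun y => ∑ i, mn (pt V s y) i ^ 2) ≤ C1 / 2 * √s := by
      calc _ ≤ (1 / (2 * √s)) * (C1 * s) := mul_le_mul_of_nonneg_left b1 (by positivity)
        _ = C1 / 2 * √s := by
          have : s = √s * √s := (Real.mul_self_sqrt hs0).symm
          rw [this]
          rw [Real.sqrt_mul_self hss.le]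
          field_simp
    have c2 : (√s / (2 * τ₀ ^ 3) + σ / 2) * GE V s (fun y => var (pt V s y) (q0 B)) ≤
        1 / τ₀ ^ 3 * |K₁| / 2 * √s + σ * K / 2 := by
      calc _ ≤ (√s / (2 * τ₀ ^ 3) + σ / 2) * K := mul_le_mul_of_nonneg_left b2 (by positivity)
        _ = √s / (2 * τ₀ ^ 3) * K + σ * K / 2 := by ring
        _ ≤ √s / (2 * τ₀ ^ 3) * |K₁| + σ * K / 2 := by
          have := mul_le_mul_of_nonneg_left hK1' (by positivity : 0 ≤ √s / (2 * τ₀ ^ 3))
          linarith
        _ = _ := by ring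
    have c3 : σ * (2 + D) / 2 * GE V s (fun y => dl V s y * var (pt V s y) (q0 B)) ≤
        |σ₁| * (2 + D) / 2 * (C2 * √s) := by
      have r1 : σ * (2 + D) / 2 ≤ |σ₁| * (2 + D) / 2 := by
        have := mul_le_mul_of_nonneg_right hσ1' (by positivity : 0 ≤ 2 + D)
        linarith
      calc _ ≤ σ * (2 + D) / 2 * (C2 * √s) := mul_le_mul_of_nonneg_left b3 (by positivity)
        _ ≤ _ := mul_le_mul_of_nonneg_right r1 (by positivity)
    have c4 : σ * (2 + D) / 2 * K * GE V s (fun y => dl V s y) ≤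
        |σ₁| * (2 + D) / 2 * |K₁| * (C2 * √s) := by
      have r1 : σ * (2 + D) / 2 * K ≤ |σ₁| * (2 + D) / 2 * |K₁| := by
        have q1 : σ * (2 + D) / 2 ≤ |σ₁| * (2 + D) / 2 := by
          have := mul_le_mul_of_nonneg_right hσ1' (by positivity : 0 ≤ 2 + D)
          linarith
        exact mul_le_mul q1 hK1' hK (by positivity)
      calc _ ≤ σ * (2 + D) / 2 * K * (C2 * √s) := mul_le_mul_of_nonneg_left b4 (by positivity)
        _ ≤ _ := mul_le_mul_of_nonneg_right r1 (by positivity)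
    calc _ ≤ _ := e1
      _ ≤ C1 / 2 * √s + ((1 / τ₀ ^ 3 * |K₁| / 2 * √s + σ * K / 2) +
          (|σ₁| * (2 + D) / 2 * (C2 * √s) + (|σ₁| * (2 + D) / 2 * |K₁| * (C2 * √s) + σ * K / 2))) := by
        linarith
      _ = _ := by ring
  have key := mvt_sqrt' ht.le (by positivity) hc hd hder
  have e0 : GE V 0 (fun y => Ps V B 0 y) = 0 := by
    rw [GE_zero H]
    have e : pt V 0 (0 : ι → ℝ) = V := by
      funext x
      simp [pt, dt]
    unfold Ps
    rw [e]
    simp [hN.mean]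
  simp only [e0] at key
  linarith

end Pool.Agent.Lib.MP_8d00da_gt.h42k.U
end
end
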