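import Pool.Agent.Lib.MP_8d00da_gt.h42k.T1a
import Pool.Agent.Lib.MP_8d00da_gt.h42.PLReal

/-!
# Log-Sobolev inequality for nice potentials (paper 322, 1.5), first part

From Prekopa-Leindler with weight `s → 0`.
-/

namespace Pool.Agent.Lib.MP_8d00da_gt.h42k

open MeasureTheory Set Filter
open scoped Topology NNReal ENNReal ContDiff

set_option linter.unusedSectionVars false

variable {ι : Type*} [Fintype ι] [DecidableEq ι]

variable {κ M : ℝ} {V φ : (ι → ℝ) → ℝ}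

private theorem B1b_integral (g : (ι → ℝ) → ℝ) :
    ∫ x : EuclideanSpace ℝ ι, g (WithLp.ofLp x) = ∫ x, g x := by
  have h := PiLp.volume_preserving_ofLp ι
  exact h.integral_comp (MeasurableEquiv.toLp 2 (ι → ℝ)).symm.measurableEmbedding g

private theorem B1b_integrable {g : (ι → ℝ) → ℝ} (hg : Integrable g) :
    Integrable (fun x : EuclideanSpace ℝ ι => g (WithLp.ofLp x)) := by
  have h := PiLp.volume_preserving_ofLp ι
  exact (h.integrable_comp_emb
    (MeasurableEquiv.toLp 2 (ι → ℝ)).symm.measurableEmbedding).2 hg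

/-- Prekopa-Leindler on `ι → ℝ`: `h42.pl_integral` on `EuclideanSpace ℝ ι`
(`PiLp.volume_preserving_ofLp`, see `B1a_integral` in `B1a.lean`). -/
theorem pl_pi {a : ℝ} (ha0 : 0 < a) (ha1 : a < 1) {u v w : (ι → ℝ) → ℝ}
    (hu0 : ∀ x, 0 ≤ u x) (hv0 : ∀ x, 0 ≤ v x) (hw0 : ∀ x, 0 ≤ w x)
    (hum : Measurable u) (hvm : Measurable v) (hwm : Measurable w)
    (hui : Integrable u) (hvi : Integrable v) (hwi : Integrable w)
    (h : ∀ x y, u x ^ (1 - a) * v y ^ a ≤ w (fun i => (1 - a) * x i + a * y i)) :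
    (∫ x, u x) ^ (1 - a) * (∫ x, v x) ^ a ≤ ∫ x, w x := by
  have hm : Measurable (fun x : EuclideanSpace ℝ ι => WithLp.ofLp x) :=
    (MeasurableEquiv.toLp 2 (ι → ℝ)).symm.measurable
  have key := Pool.Agent.Lib.MP_8d00da_gt.h42.pl_integral (F := EuclideanSpace ℝ ι) ha0 ha1
    (u := fun x => u (WithLp.ofLp x)) (v := fun x => v (WithLp.ofLp x))
    (w := fun x => w (WithLp.ofLp x)) (fun x => hu0 _) (fun x => hv0 _) (fun x => hw0 _)
    (hum.comp hm) (hvm.comp hm) (hwm.comp hm) (B1b_integrable hui) (B1b_integrable hvi)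
    (B1b_integrable hwi) (fun x y => h _ _)
  rwa [B1b_integral, B1b_integral, B1b_integral] at key

private theorem B1b_one {g g1 g2 : ℝ → ℝ} {c : ℝ} (h1 : ∀ s, HasDerivAt g (g1 s) s)
    (h2 : ∀ s, HasDerivAt g1 (g2 s) s) (h : ∀ s, g2 s ≤ c) :
    g 1 ≤ g 0 + g1 0 + c / 2 := by
  have hm : ∀ r, 0 ≤ r → 0 ≤ c * r - g1 r + g1 0 := by
    intro r hr
    have hd : ∀ s, HasDerivAt (fun s => c * s - g1 s) (c - g2 s) s := by
      intro s
      have := ((hasDerivAt_id' s).const_mul c).fun_sub (h2 s)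
      rw [mul_one] at this
      exact this
    have hmono : Monotone (fun s => c * s - g1 s) := by
      apply monotone_of_deriv_nonneg (fun s => (hd s).differentiableAt)
      intro s
      rw [(hd s).deriv]
      linarith [h s]
    have := hmono hr
    simp only at this
    linarith
  have hd : ∀ s, HasDerivAt (fun s => g1 0 * s + c / 2 * s ^ 2 - g s) (g1 0 + c * s - g1 s) s := by
    intro s
    have := (((hasDerivAt_id' s).const_mul (g1 0)).fun_add
      ((hasDerivAt_pow 2 s).const_mul (c / 2))).fun_sub (h1 s)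
    have e : g1 0 + c * s - g1 s = g1 0 * 1 + c / 2 * (((2 : ℕ) : ℝ) * s ^ (2 - 1)) - g1 s := by
      norm_num
      ring
    rw [e]
    exact this
  have hmono : MonotoneOn (fun s => g1 0 * s + c / 2 * s ^ 2 - g s) (Icc 0 1) := by
    apply monotoneOn_of_deriv_nonneg (convex_Icc 0 1)
    · exact fun s _ => (hd s).continuousAt.continuousWithinAt
    · exact fun s _ => (hd s).differentiableAt.differentiableWithinAt
    · intro s hs
      rw [interior_Icc] at hs
      rw [(hd s).deriv]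
      have := hm s hs.1.le
      linarith
  have := hmono (left_mem_Icc.2 zero_le_one) (right_mem_Icc.2 zero_le_one) zero_le_one
  simp only at this
  linarith

private theorem B1b_bdd (hφ : Cc φ) : ∃ B : ℝ, 0 ≤ B ∧ ∀ x, |φ x| ≤ B := by
  obtain ⟨B, hB⟩ := hφ.smooth.continuous.bounded_above_of_compact_support hφ.supp
  refine ⟨|B|, abs_nonneg _, fun x => ?_⟩
  have := hB x
  rw [Real.norm_eq_abs] at this
  exact this.trans (le_abs_self _)

/-- Second order Taylor bound for test functions.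
(`hs_line` in `KA3.lean`; `hs φ x u ≤ √(hq φ x) sq u` and `hq φ` is bounded; or: for large `N` the
function `N * gp + φ` is `Nice` and `Nice.upper` for it, `gp (x+u) = gp x + dt x u + sq u / 2`.) -/
theorem Cc.taylor (hφ : Cc φ) : ∃ L : ℝ, 0 ≤ L ∧
    ∀ x u, φ (x + u) ≤ φ x + gd φ x u + L / 2 * sq u := by
  have hb : ∀ i j : ι, ∃ B : ℝ, 0 ≤ B ∧ ∀ x, |pd i (pd j φ) x| ≤ B := fun i j =>
    B1b_bdd ((hφ.pdc j).pdc i)
  choose B hB0 hB using hb
  refine ⟨∑ i, ∑ j, B i j, Finset.sum_nonneg fun i _ => Finset.sum_nonneg fun j _ => hB0 i j,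
    fun x u => ?_⟩
  have hc2 : ContDiff ℝ 2 φ := by exact_mod_cast contDiff_infty.1 hφ.smooth 2
  have hh : ∀ s : ℝ, hs φ (x + s • u) u ≤ (∑ i, ∑ j, B i j) * sq u := by
    intro s
    unfold hs
    rw [Finset.sum_mul]
    refine Finset.sum_le_sum fun i _ => ?_
    rw [Finset.sum_mul]
    refine Finset.sum_le_sum fun j _ => ?_
    have h1 : u i * u j * pd i (pd j φ) (x + s • u) ≤
        |u i * u j| * |pd i (pd j φ) (x + s • u)| := by
      rw [← abs_mul]
      exact le_abs_self _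
    have h2 : |u i * u j| ≤ sq u := by
      have e1 := coord_sq_le u i
      have e2 := coord_sq_le u j
      rw [abs_le]
      constructor <;> nlinarith [sq_nonneg (u i - u j), sq_nonneg (u i + u j)]
    calc _ ≤ |u i * u j| * |pd i (pd j φ) (x + s • u)| := h1
      _ ≤ sq u * B i j := mul_le_mul h2 (hB i j _) (abs_nonneg _) (sq_nn u)
      _ = B i j * sq u := mul_comm _ _
  have := B1b_one (fun s => (hs_line hc2 x u s).2) (fun s => (hs_line hc2 x u s).1) hh
  simp only [zero_smul, add_zero, one_smul] at this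
  linarith

private theorem B1b_gd_smul (f : (ι → ℝ) → ℝ) (x w : ι → ℝ) (c : ℝ) :
    gd f x (fun i => c * w i) = c * gd f x w := by
  unfold gd
  rw [Finset.mul_sum]
  exact Finset.sum_congr rfl fun i _ => by ring

/-- The pointwise inequality for Prekopa-Leindler: with `z = (1-s) x + s y`,
`V z ≤ (1-s) V x + s V y - κ s (1-s) |x-y|²/2` (`Nice.lower` at `z` twice), `x - z = s (x-y)`,
`φ x ≤ φ z + ∇φ(z)·(x-z) + L|x-z|²/2` and
`∇φ(z)·w - (D/(2s)) |w|² ≤ s |∇φ(z)|²/(2D)`, `D = κ(1-s) - L s` (`gd_sq_le`). -/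
theorem lsi_pt (H : Nice κ M V) {L : ℝ} (hL0 : 0 ≤ L)
    (hL : ∀ x u, φ (x + u) ≤ φ x + gd φ x u + L / 2 * sq u) {s : ℝ} (hs0 : 0 < s) (hs1 : s < 1)
    (hs : L * s < κ * (1 - s)) (x y : ι → ℝ) :
    φ x - (1 - s) * V x - s * V y ≤
      φ (fun i => (1 - s) * x i + s * y i) +
        s * gs φ (fun i => (1 - s) * x i + s * y i) / (2 * (κ * (1 - s) - L * s)) -
        V (fun i => (1 - s) * x i + s * y i) := by
  obtain ⟨z, hz⟩ : ∃ z : ι → ℝ, z = fun i => (1 - s) * x i + s * y i := ⟨_, rfl⟩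
  obtain ⟨w, hw⟩ : ∃ w : ι → ℝ, w = x - y := ⟨_, rfl⟩
  obtain ⟨D, hD⟩ : ∃ D : ℝ, D = κ * (1 - s) - L * s := ⟨_, rfl⟩
  rw [← hz, ← hD]
  have hD0 : 0 < D := by rw [hD]; linarith
  have ex1 : z + (fun i => s * w i) = x := by
    funext i
    rw [hz, hw]
    simp only [Pi.add_apply, Pi.sub_apply]
    ring
  have ey1 : z + (fun i => -(1 - s) * w i) = y := by
    funext i
    rw [hz, hw]
    simp only [Pi.add_apply, Pi.sub_apply]
    ring
  have h1 := H.lower z (fun i => s * w i)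
  have h2 := H.lower z (fun i => -(1 - s) * w i)
  have h3 := hL z (fun i => s * w i)
  rw [ex1, B1b_gd_smul, sq_smul] at h1
  rw [ey1, B1b_gd_smul, sq_smul] at h2
  rw [ex1, B1b_gd_smul, sq_smul] at h3
  have h4 := gd_sq_le φ z w
  have hq := sq_nn w
  have hg : 0 ≤ gs φ z := Finset.sum_nonneg fun _ _ => sq_nonneg _
  obtain ⟨G, hG⟩ : ∃ G : ℝ, G = gs φ z := ⟨_, rfl⟩
  obtain ⟨q, hq'⟩ : ∃ q : ℝ, q = sq w := ⟨_, rfl⟩
  obtain ⟨γ, hγ⟩ : ∃ γ : ℝ, γ = gd φ z w := ⟨_, rfl⟩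
  obtain ⟨v, hv⟩ : ∃ v : ℝ, v = gd V z w := ⟨_, rfl⟩
  rw [← hG, ← hq', ← hγ] at h4
  rw [← hG] at hg
  rw [← hq'] at hq
  rw [← hq', ← hv] at h1 h2
  rw [← hq', ← hγ] at h3
  rw [← hG]
  have h5 : 2 * D * γ ≤ G + D ^ 2 * q := by
    by_contra hcon
    push Not at hcon
    have h6 : 0 ≤ G + D ^ 2 * q := by positivity
    have h7 : (G + D ^ 2 * q) ^ 2 < (2 * D * γ) ^ 2 := pow_lt_pow_left₀ hcon h6 two_ne_zero
    have h8 : D ^ 2 * γ ^ 2 ≤ D ^ 2 * (G * q) := mul_le_mul_of_nonneg_left h4 (sq_nonneg D)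
    nlinarith [sq_nonneg (G - D ^ 2 * q)]
  have h9 : s * γ - s * D * q / 2 ≤ s * G / (2 * D) := by
    rw [le_div_iff₀ (by positivity)]
    nlinarith [mul_le_mul_of_nonneg_left h5 hs0.le]
  have hs1' : 0 ≤ 1 - s := by linarith
  have k1 := mul_le_mul_of_nonneg_left h1 hs1'
  have k2 := mul_le_mul_of_nonneg_left h2 hs0.le
  have hDe : s * D * q / 2 = κ * s * (1 - s) * q / 2 - L * s ^ 2 * q / 2 := by
    rw [hD]; ring
  nlinarith

private theorem B1b_t0 {g : (ι → ℝ) → ℝ} (hg : Continuous g) {B : ℝ} (hB : ∀ x, g x ≤ B) :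
    T0 (fun x => Real.exp (g x)) := by
  refine ⟨(Real.continuous_exp.comp hg).measurable, Real.exp B, 0, fun x => ?_⟩
  rw [pow_zero, mul_one, abs_of_pos (Real.exp_pos _)]
  exact Real.exp_le_exp.2 (hB x)

private theorem B1b_gs (hφ : Cc φ) : Continuous (gs φ) ∧ ∃ B : ℝ, 0 ≤ B ∧ ∀ x, gs φ x ≤ B := by
  constructor
  · unfold gs
    exact continuous_finsetSum _ fun i _ => (hφ.pdc i).smooth.continuous.pow 2
  · have hb : ∀ i : ι, ∃ B : ℝ, 0 ≤ B ∧ ∀ x, |pd i φ x| ≤ B := fun i => B1b_bdd (hφ.pdc i)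
    choose B hB0 hB using hb
    refine ⟨∑ i, B i ^ 2, Finset.sum_nonneg fun i _ => sq_nonneg _, fun x => ?_⟩
    unfold gs
    refine Finset.sum_le_sum fun i _ => ?_
    rw [← sq_abs]
    exact pow_le_pow_left₀ (abs_nonneg _) (hB i x) 2

/-- Prekopa-Leindler with `u = exp(φ/(1-s) - V)`, `v = exp(-V)`,
`w = exp(φ + s |∇φ|²/(2(κ(1-s) - L s)) - V)`; divide by `∫ exp(-V)`. -/
theorem lsi_step (H : Nice κ M V) (hφ : Cc φ) {L : ℝ} (hL0 : 0 ≤ L)
    (hL : ∀ x u, φ (x + u) ≤ φ x + gd φ x u + L / 2 * sq u) {s : ℝ} (hs0 : 0 < s) (hs1 : s < 1)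
    (hs : L * s < κ * (1 - s)) :
    (ex V fun x => Real.exp (φ x / (1 - s))) ^ (1 - s) ≤
      ex V fun x => Real.exp (φ x + s * gs φ x / (2 * (κ * (1 - s) - L * s))) := by
  obtain ⟨D, hD⟩ : ∃ D : ℝ, D = κ * (1 - s) - L * s := ⟨_, rfl⟩
  have hD0 : 0 < D := by rw [hD]; linarith
  have h1s : 0 < 1 - s := by linarith
  obtain ⟨B, hB0, hB⟩ := B1b_bdd hφ
  obtain ⟨hgc, G, hG0, hG⟩ := B1b_gs hφ
  have hφc : Continuous φ := hφ.smooth.continuous
  have hVc : Continuous V := H.c2.continuous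
  have t1 : T0 (fun x => Real.exp (φ x / (1 - s))) :=
    B1b_t0 (hφc.div_const _) (B := B / (1 - s)) fun x =>
      div_le_div_of_nonneg_right ((le_abs_self _).trans (hB x)) h1s.le
  have t2 : T0 (fun x => Real.exp (φ x + s * gs φ x / (2 * D))) := by
    refine B1b_t0 (hφc.add ((hgc.const_mul s).div_const _)) (B := B + s * G / (2 * D)) fun x => ?_
    have e1 : s * gs φ x / (2 * D) ≤ s * G / (2 * D) :=
      div_le_div_of_nonneg_right (mul_le_mul_of_nonneg_left (hG x) hs0.le) (by positivity)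
    have e2 := (le_abs_self _).trans (hB x)
    linarith
  have i1 := H.int t1
  have i2 := H.int t2
  have hZ := H.zpos
  have hVm : Measurable fun x => Real.exp (-V x) :=
    (Real.continuous_exp.comp hVc.neg).measurable
  have key := pl_pi hs0 hs1
    (u := fun x => Real.exp (φ x / (1 - s)) * Real.exp (-V x)) (v := fun x => Real.exp (-V x))
    (w := fun x => Real.exp (φ x + s * gs φ x / (2 * D)) * Real.exp (-V x))
    (fun x => by positivity) (fun x => by positivity) (fun x => by positivity)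
    (t1.meas.mul hVm) hVm (t2.meas.mul hVm) i1 H.intexp i2 (fun x y => by
      have hpt := lsi_pt H hL0 hL hs0 hs1 hs x y
      rw [← hD] at hpt
      rw [← Real.exp_add, ← Real.exp_add, ← Real.exp_mul, ← Real.exp_mul, ← Real.exp_add]
      refine Real.exp_le_exp.2 ?_
      have e3 : (φ x / (1 - s) + -V x) * (1 - s) + -V y * s = φ x - (1 - s) * V x - s * V y := by
        field_simp
        ring
      rw [e3]
      linarith)
  rw [← hD]
  unfold ex
  obtain ⟨Z, hZe⟩ : ∃ Z : ℝ, Z = ∫ x, Real.exp (-V x) := ⟨_, rfl⟩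
  obtain ⟨U, hU⟩ : ∃ U : ℝ, U = ∫ x, Real.exp (φ x / (1 - s)) * Real.exp (-V x) := ⟨_, rfl⟩
  obtain ⟨W, hW⟩ : ∃ W : ℝ, W = ∫ x, Real.exp (φ x + s * gs φ x / (2 * D)) * Real.exp (-V x) :=
    ⟨_, rfl⟩
  rw [← hZe] at hZ
  rw [← hU, ← hZe, ← hW] at key
  rw [← hU, ← hZe, ← hW]
  have hU0 : 0 ≤ U := by
    rw [hU]
    exact integral_nonneg fun x => by positivity
  rw [Real.div_rpow hU0 hZ.le, div_le_div_iff₀ (Real.rpow_pos_of_pos hZ _) hZ]
  have e4 : Z = Z ^ s * Z ^ (1 - s) := by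
    rw [← Real.rpow_add hZ]
    have : s + (1 - s) = 1 := by ring
    rw [this, Real.rpow_one]
  calc U ^ (1 - s) * Z = (U ^ (1 - s) * Z ^ s) * Z ^ (1 - s) := by
        conv_lhs => rw [e4]
        ring
    _ ≤ W * Z ^ (1 - s) := mul_le_mul_of_nonneg_right key (Real.rpow_nonneg hZ.le _)

end Pool.Agent.Lib.MP_8d00da_gt.h42k
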