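import Mathlib

/-!
# Log-Sobolev inequality: the limit `s → 0`
-/

namespace Pool.Agent.Lib.MP_8d00da_gt.h42k

open MeasureTheory Set Filter
open scoped Topology NNReal ENNReal ContDiff

/-- Real variable part of the limit `s → 0`: `Z > 0`, `Q ≥ 0`, and for all small `s > 0` numbers
`A, R` with `A ≥ Z + (s/(1-s)) G`, `A^(1-s) ≤ R`, `R ≤ Z + s * exp(s * b) / (2(κ(1-s)-L s)) * Q`
(`Z = E e^φ`, `G = E φ e^φ`, `Q = E |∇φ|² e^φ`).  Then `G ≤ Z log Z + Q/(2κ)`.
Proof: `log A ≥ log Z + x/(1+x)`, `x = (s/(1-s)) G/Z`, `log R ≤ log Z + s e^{sb} Q/(2D Z)`,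
`(1-s) log A ≤ log R`; divide by `s` and let `s → 0`. -/
theorem lsi_limit {κ L Z G Q b : ℝ} (hκ : 0 < κ) (hL : 0 ≤ L) (hZ : 0 < Z) (hQ : 0 ≤ Q)
    (h : ∀ s, 0 < s → s < 1 → L * s < κ * (1 - s) → 0 < Z + s / (1 - s) * G →
      (Z + s / (1 - s) * G) ^ (1 - s) ≤
        Z + s * (Real.exp (s * (b / (2 * (κ * (1 - s) - L * s)))) / (2 * (κ * (1 - s) - L * s))) *
          Q) :
    G ≤ Z * Real.log Z + 1 / (2 * κ) * Q := by
  have c1 : ContinuousAt (fun s : ℝ => s / (1 - s) * G) 0 := by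
    have h1 : (1 : ℝ) - 0 ≠ 0 := by norm_num
    fun_prop (disch := simpa using h1)
  have c2 : ContinuousAt (fun s : ℝ => 2 * (κ * (1 - s) - L * s)) 0 := by fun_prop
  have hD0 : (2 * (κ * (1 - (0 : ℝ)) - L * 0)) ≠ 0 := by
    have : 2 * (κ * (1 - (0 : ℝ)) - L * 0) = 2 * κ := by ring
    rw [this]
    positivity
  have c3 : ContinuousAt (fun s : ℝ => Real.exp (s * (b / (2 * (κ * (1 - s) - L * s)))) /
      (2 * (κ * (1 - s) - L * s)) * Q / Z) 0 := by
    have h1 : ContinuousAt (fun s : ℝ => b / (2 * (κ * (1 - s) - L * s))) 0 :=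
      continuousAt_const.div c2 hD0
    have h2 : ContinuousAt (fun s : ℝ => Real.exp (s * (b / (2 * (κ * (1 - s) - L * s))))) 0 :=
      Real.continuous_exp.continuousAt.comp (continuousAt_id.mul h1)
    exact (((h2.div c2 hD0).mul continuousAt_const).div_const Z)
  have c4 : ContinuousAt (fun s : ℝ => -Real.log Z + (G / Z) / (1 + s / (1 - s) * G / Z)) 0 := by
    refine continuousAt_const.add (continuousAt_const.div
      (continuousAt_const.add (c1.div_const Z)) ?_)
    simp
  have t3 := c3.tendsto.mono_left (nhdsWithin_le_nhds (s := Set.Ioi (0 : ℝ)))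
  have t4 := c4.tendsto.mono_left (nhdsWithin_le_nhds (s := Set.Ioi (0 : ℝ)))
  have e1 : ∀ᶠ s : ℝ in 𝓝 0, s < 1 := (isOpen_Iio.mem_nhds (by norm_num : (0 : ℝ) ∈ Set.Iio 1))
  have e2 : ∀ᶠ s : ℝ in 𝓝 0, L * s < κ * (1 - s) := by
    have h1 : ContinuousAt (fun s : ℝ => L * s) 0 := by fun_prop
    have h2 : ContinuousAt (fun s : ℝ => κ * (1 - s)) 0 := by fun_prop
    exact h1.eventually_lt h2 (by simpa using hκ)
  have e3 : ∀ᶠ s : ℝ in 𝓝 0, 0 < Z + s / (1 - s) * G := by
    have h1 : ContinuousAt (fun _ : ℝ => (0 : ℝ)) 0 := continuousAt_const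
    exact h1.eventually_lt (continuousAt_const.add c1) (by simpa using hZ)
  have hev : ∀ᶠ s : ℝ in 𝓝[>] 0, -Real.log Z + (G / Z) / (1 + s / (1 - s) * G / Z) ≤
      Real.exp (s * (b / (2 * (κ * (1 - s) - L * s)))) / (2 * (κ * (1 - s) - L * s)) * Q / Z := by
    filter_upwards [self_mem_nhdsWithin, nhdsWithin_le_nhds e1, nhdsWithin_le_nhds e2,
      nhdsWithin_le_nhds e3] with s hs0 hs1 hs2 hs3
    have hs0' : (0 : ℝ) < s := hs0
    have h1s : 0 < 1 - s := by linarith
    have key := h s hs0' hs1 hs2 hs3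
    set E := Real.exp (s * (b / (2 * (κ * (1 - s) - L * s)))) / (2 * (κ * (1 - s) - L * s)) with hE
    have hEpos : 0 ≤ E := by
      rw [hE]
      apply div_nonneg (Real.exp_pos _).le
      linarith
    set A := Z + s / (1 - s) * G with hA
    have hR : 0 < Z + s * E * Q := by
      have : 0 ≤ s * E * Q := mul_nonneg (mul_nonneg hs0'.le hEpos) hQ
      linarith
    have l1 : (1 - s) * Real.log A ≤ Real.log (Z + s * E * Q) := by
      rw [← Real.log_rpow hs3]
      exact Real.log_le_log (Real.rpow_pos_of_pos hs3 _) key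
    have l2 : Real.log (Z + s * E * Q) ≤ Real.log Z + s * E * Q / Z := by
      have h1 : Z + s * E * Q = Z * (1 + s * E * Q / Z) := by
        field_simp
      have h2 : 0 < 1 + s * E * Q / Z := by
        have : 0 ≤ s * E * Q / Z := div_nonneg (mul_nonneg (mul_nonneg hs0'.le hEpos) hQ) hZ.le
        linarith
      rw [h1, Real.log_mul hZ.ne' h2.ne']
      have h3 := Real.log_le_sub_one_of_pos h2
      linarith
    have hx : 0 < 1 + s / (1 - s) * G / Z := by
      have h1 : 1 + s / (1 - s) * G / Z = A / Z := by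
        rw [hA]
        field_simp
      rw [h1]
      exact div_pos hs3 hZ
    have l3 : Real.log Z + (1 - (1 + s / (1 - s) * G / Z)⁻¹) ≤ Real.log A := by
      have h1 : A = Z * (1 + s / (1 - s) * G / Z) := by
        rw [hA]
        field_simp
      rw [h1, Real.log_mul hZ.ne' hx.ne']
      have h3 := Real.one_sub_inv_le_log_of_pos hx
      linarith
    have l4 : (1 - s) * (Real.log Z + (1 - (1 + s / (1 - s) * G / Z)⁻¹)) ≤
        Real.log Z + s * E * Q / Z :=
      (mul_le_mul_of_nonneg_left l3 h1s.le).trans (l1.trans l2)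
    have l5 : (1 - s) * (1 - (1 + s / (1 - s) * G / Z)⁻¹) =
        s * ((G / Z) / (1 + s / (1 - s) * G / Z)) := by
      have hx' := hx.ne'
      generalize hw : 1 + s / (1 - s) * G / Z = w at hx'
      have hG : G / Z = (w - 1) * (1 - s) / s := by
        rw [← hw]
        field_simp
        ring
      rw [hG]
      field_simp
    have l6 : s * (-Real.log Z + (G / Z) / (1 + s / (1 - s) * G / Z)) ≤ s * (E * Q / Z) := by
      have h1 : s * E * Q / Z = s * (E * Q / Z) := by ring
      rw [h1] at l4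
      have h2 : (1 - s) * (Real.log Z + (1 - (1 + s / (1 - s) * G / Z)⁻¹)) =
          (1 - s) * Real.log Z + s * ((G / Z) / (1 + s / (1 - s) * G / Z)) := by
        rw [mul_add, l5]
      rw [h2] at l4
      linarith
    exact le_of_mul_le_mul_left l6 hs0'
  have hlim := le_of_tendsto_of_tendsto t4 t3 hev
  simp only [zero_mul, zero_div, sub_zero, mul_zero, Real.exp_zero, mul_one, add_zero, div_one]
    at hlim
  have h1 := mul_le_mul_of_nonneg_left hlim hZ.le
  have h2 : Z * (-Real.log Z + G / Z) = -(Z * Real.log Z) + G := by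
    field_simp
  have h3 : Z * (1 / (2 * κ) * Q / Z) = 1 / (2 * κ) * Q := by
    field_simp
  rw [h2, h3] at h1
  linarith

end Pool.Agent.Lib.MP_8d00da_gt.h42k
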