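import Pool.Agent.Lib.MP_8d00da_gt.h42k.B1b
import Pool.Agent.Lib.MP_8d00da_gt.h42k.B1c0

/-!
# Log-Sobolev inequality for nice potentials (paper 322, 1.5), second part
-/

namespace Pool.Agent.Lib.MP_8d00da_gt.h42k

open MeasureTheory Set Filter
open scoped Topology NNReal ENNReal ContDiff

set_option linter.unusedSectionVars false

variable {ι : Type*} [Fintype ι] [DecidableEq ι]

variable {κ M : ℝ} {V φ g u : (ι → ℝ) → ℝ}

private theorem B1c_t0 {f : (ι → ℝ) → ℝ} (hm : Measurable f) {B : ℝ} (hB : ∀ x, |f x| ≤ B) :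
    T0 f := by
  refine ⟨hm, B, 0, fun x => ?_⟩
  rw [pow_zero, mul_one]
  exact hB x

private theorem B1c_gs_cont {f : (ι → ℝ) → ℝ} (hf : ContDiff ℝ 1 f) : Continuous (gs f) := by
  unfold gs
  refine continuous_finsetSum _ fun i _ => Continuous.pow ?_ 2
  exact (hf.continuous_fderiv (by norm_num)).clm_apply continuous_const

/-- Log-Sobolev in exponential form (paper 322, 1.5), from `lsi_step` and `lsi_limit`:
`E e^{φ/(1-s)} ≥ E e^φ (1 + (s/(1-s)) φ)`, `e^{r} ≤ 1 + r e^{r}` for
`r = s |∇φ|²/(2D) ≤ s b/(2D)`, `b` a bound of `gs φ`. -/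
theorem lsi_exp (H : Nice κ M V) (hφ : Cc φ) :
    ex V (fun x => φ x * Real.exp (φ x)) ≤
      ex V (fun x => Real.exp (φ x)) * Real.log (ex V fun x => Real.exp (φ x)) +
        1 / (2 * κ) * ex V (fun x => gs φ x * Real.exp (φ x)) := by
  obtain ⟨L, hL0, hL⟩ := hφ.taylor
  obtain ⟨b, hb0, hb⟩ := hφ.cu.gs_bdd
  obtain ⟨B, hB0, hB⟩ := hφ.cu.bdd
  have hc1 : ContDiff ℝ 1 φ := hφ.t1.c1
  have hφc : Continuous φ := hc1.continuous
  have hgc : Continuous (gs φ) := B1c_gs_cont hc1
  have tφ : T0 φ := hφ.t1.t0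
  have tg : T0 (gs φ) := hφ.t1.gst0
  have te : ∀ c : ℝ, T0 (fun x => Real.exp (φ x * c)) := by
    intro c
    have h1 : ContDiff ℝ ∞ (fun y : ℝ => Real.exp (y * c)) :=
      (contDiff_id.mul contDiff_const).exp
    exact (hφ.cu.comp h1).t1.t0
  have te1 : T0 (fun x => Real.exp (φ x)) := by
    have := te 1
    simpa using this
  have hZ : 0 < ex V (fun x => Real.exp (φ x)) := by
    have h1 := ex_mono H (T0.const (Real.exp (-B))) te1 fun x =>
      Real.exp_le_exp.2 (neg_le_of_abs_le (hB x))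
    rw [ex_const H] at h1
    exact (Real.exp_pos _).trans_le h1
  have hQ : 0 ≤ ex V (fun x => gs φ x * Real.exp (φ x)) :=
    ex_nonneg V fun x => mul_nonneg (gs_nonneg φ x) (Real.exp_pos _).le
  refine lsi_limit (b := b) H.kpos hL0 hZ hQ fun s hs0 hs1 hs hpos => ?_
  have hD : 0 < κ * (1 - s) - L * s := by linarith
  obtain ⟨D, hDdef⟩ : ∃ D : ℝ, D = κ * (1 - s) - L * s := ⟨_, rfl⟩
  have hstep := lsi_step H hφ hL0 hL hs0 hs1 hs
  rw [← hDdef] at hD hstep ⊢
  have h1s : 0 < 1 - s := by linarith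
  have tes : T0 (fun x => Real.exp (φ x / (1 - s))) := by
    have := te (1 - s)⁻¹
    simpa only [div_eq_mul_inv] using this
  have hlow : ex V (fun x => Real.exp (φ x)) + s / (1 - s) * ex V (fun x => φ x * Real.exp (φ x)) ≤
      ex V fun x => Real.exp (φ x / (1 - s)) := by
    rw [← ex_cmul, ← ex_add H te1 ((tφ.mul te1).cmul _)]
    refine ex_mono H (te1.add ((tφ.mul te1).cmul _)) tes fun x => ?_
    have e1 : φ x / (1 - s) = φ x + s / (1 - s) * φ x := by
      field_simp
      ring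
    rw [e1, Real.exp_add]
    have h2 := Real.add_one_le_exp (s / (1 - s) * φ x)
    have h3 := mul_le_mul_of_nonneg_left h2 (Real.exp_pos (φ x)).le
    linarith
  refine (Real.rpow_le_rpow hpos.le hlow h1s.le).trans (hstep.trans ?_)
  have hr0 : ∀ x, 0 ≤ s * gs φ x / (2 * D) := fun x => by
    have := gs_nonneg φ x
    positivity
  have hrb : ∀ x, s * gs φ x / (2 * D) ≤ s * (b / (2 * D)) := fun x => by
    rw [mul_div_assoc]
    exact mul_le_mul_of_nonneg_left (div_le_div_of_nonneg_right (hb x) (by positivity)) hs0.le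
  have tR : T0 (fun x => Real.exp (φ x + s * gs φ x / (2 * D))) := by
    refine B1c_t0 (Real.continuous_exp.comp (hφc.add ((continuous_const.mul hgc).div_const _))).measurable
      (B := Real.exp (B + s * (b / (2 * D)))) fun x => ?_
    rw [abs_of_pos (Real.exp_pos _)]
    exact Real.exp_le_exp.2 (add_le_add ((le_abs_self _).trans (hB x)) (hrb x))
  rw [← ex_cmul, ← ex_add H te1 ((tg.mul te1).cmul _)]
  refine ex_mono H tR (te1.add ((tg.mul te1).cmul _)) fun x => ?_
  have h2 : Real.exp (s * gs φ x / (2 * D)) ≤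
      1 + s * gs φ x / (2 * D) * Real.exp (s * gs φ x / (2 * D)) := by
    have h3 := Real.add_one_le_exp (-(s * gs φ x / (2 * D)))
    have h4 := mul_le_mul_of_nonneg_right h3 (Real.exp_pos (s * gs φ x / (2 * D))).le
    rw [← Real.exp_add, neg_add_cancel, Real.exp_zero] at h4
    linarith
  have h3 : s * gs φ x / (2 * D) * Real.exp (s * gs φ x / (2 * D)) ≤
      s * gs φ x / (2 * D) * Real.exp (s * (b / (2 * D))) :=
    mul_le_mul_of_nonneg_left (Real.exp_le_exp.2 (hrb x)) (hr0 x)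
  rw [Real.exp_add]
  have h4 := mul_le_mul_of_nonneg_left (h2.trans (add_le_add_right h3 1)) (Real.exp_pos (φ x)).le
  refine h4.trans_eq ?_
  ring

/-- The same for constants plus test functions (homogeneity). -/
theorem lsi_exp_cu (H : Nice κ M V) (hg : Cu g) :
    ex V (fun x => g x * Real.exp (g x)) ≤
      ex V (fun x => Real.exp (g x)) * Real.log (ex V fun x => Real.exp (g x)) +
        1 / (2 * κ) * ex V (fun x => gs g x * Real.exp (g x)) := by
  obtain ⟨c, hc⟩ := hg
  obtain ⟨φ, hφd⟩ : ∃ φ : (ι → ℝ) → ℝ, φ = fun x => g x - c := ⟨_, rfl⟩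
  rw [← hφd] at hc
  have hgφ : ∀ x, g x = φ x + c := fun x => by
    rw [hφd]
    ring
  have key := lsi_exp H hc
  have tφ : T0 φ := hc.t1.t0
  have te1 : T0 (fun x => Real.exp (φ x)) := by
    exact (hc.cu.comp Real.contDiff_exp).t1.t0
  have hB := hc.cu.bdd
  obtain ⟨B, hB0, hB⟩ := hB
  have hZ : 0 < ex V (fun x => Real.exp (φ x)) := by
    have h1 := ex_mono H (T0.const (Real.exp (-B))) te1 fun x =>
      Real.exp_le_exp.2 (neg_le_of_abs_le (hB x))
    rw [ex_const H] at h1
    exact (Real.exp_pos _).trans_le h1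
  have e1 : ex V (fun x => g x * Real.exp (g x)) =
      Real.exp c * ex V (fun x => φ x * Real.exp (φ x)) +
        c * Real.exp c * ex V (fun x => Real.exp (φ x)) := by
    rw [← ex_cmul, ← ex_cmul, ← ex_add H ((tφ.mul te1).cmul _) (te1.cmul _)]
    congr 1
    funext x
    rw [hgφ, Real.exp_add]
    ring
  have e2 : ex V (fun x => Real.exp (g x)) = Real.exp c * ex V (fun x => Real.exp (φ x)) := by
    rw [← ex_cmul]
    congr 1
    funext x
    rw [hgφ, Real.exp_add]
    ring
  have e3 : ex V (fun x => gs g x * Real.exp (g x)) =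
      Real.exp c * ex V (fun x => gs φ x * Real.exp (φ x)) := by
    rw [← ex_cmul]
    congr 1
    funext x
    have h1 : gs φ x = gs g x := by
      rw [hφd]
      exact gs_subc g c x
    rw [h1, hgφ, Real.exp_add]
    ring
  rw [e1, e2, e3, Real.log_mul (Real.exp_pos c).ne' hZ.ne', Real.log_exp]
  have h1 := mul_le_mul_of_nonneg_left key (Real.exp_pos c).le
  nlinarith

/-- With `g = log (u² + ε)`: `e^g |∇g|² = 4u²|∇u|²/(u²+ε) ≤ 4 |∇u|²`. -/
theorem lsi_eps (H : Nice κ M V) (hu : Cu u) {ε : ℝ} (hε : 0 < ε) :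
    ex V (fun x => (u x ^ 2 + ε) * Real.log (u x ^ 2 + ε)) ≤
      (ex V (fun x => u x ^ 2) + ε) * Real.log (ex V (fun x => u x ^ 2) + ε) +
        2 / κ * ex V (gs u) := by
  have hF : ContDiff ℝ ∞ (fun y : ℝ => Real.log (y ^ 2 + ε)) := by
    refine ContDiff.log ((contDiff_id.pow 2).add contDiff_const) fun y => ?_
    have : 0 < y ^ 2 + ε := by positivity
    exact this.ne'
  have hg := hu.comp hF
  have key := lsi_exp_cu H hg
  have hpos : ∀ x, 0 < u x ^ 2 + ε := fun x => by positivity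
  have ee : ∀ x, Real.exp (Real.log (u x ^ 2 + ε)) = u x ^ 2 + ε := fun x => Real.exp_log (hpos x)
  simp only [ee] at key
  have t2 : T0 (fun x => u x ^ 2) := hu.t1.t0.pow 2
  rw [ex_add H t2 (T0.const ε), ex_const H] at key
  have e1 : ex V (fun x => Real.log (u x ^ 2 + ε) * (u x ^ 2 + ε)) =
      ex V (fun x => (u x ^ 2 + ε) * Real.log (u x ^ 2 + ε)) := by
    congr 1
    funext x
    ring
  rw [e1] at key
  refine key.trans (add_le_add_right ?_ _)
  have hderiv : ∀ y : ℝ, deriv (fun y : ℝ => Real.log (y ^ 2 + ε)) y = 2 * y / (y ^ 2 + ε) := by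
    intro y
    have h1 : HasDerivAt (fun y : ℝ => y ^ 2 + ε) (2 * y) y := by
      have := (hasDerivAt_pow 2 y).add_const ε
      simpa using this
    have h2 : y ^ 2 + ε ≠ 0 := by
      have : 0 < y ^ 2 + ε := by positivity
      exact this.ne'
    exact (h1.log h2).deriv
  have hud : Differentiable ℝ u := hu.smooth.differentiable (by simp)
  have hFd : Differentiable ℝ (fun y : ℝ => Real.log (y ^ 2 + ε)) := hF.differentiable (by simp)
  have tgs : T0 (gs u) := hu.t1.gst0
  have tL : T0 (fun x => gs (fun x => Real.log (u x ^ 2 + ε)) x * (u x ^ 2 + ε)) :=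
    hg.t1.gst0.mul (t2.add (T0.const ε))
  have h1 : ex V (fun x => gs (fun x => Real.log (u x ^ 2 + ε)) x * (u x ^ 2 + ε)) ≤
      ex V (fun x => 4 * gs u x) := by
    refine ex_mono H tL (tgs.cmul 4) fun x => ?_
    have h2 : gs (fun x => Real.log (u x ^ 2 + ε)) x = (2 * u x / (u x ^ 2 + ε)) ^ 2 * gs u x := by
      rw [gs_comp hud hFd x, hderiv]
    rw [h2]
    have h3 : (2 * u x / (u x ^ 2 + ε)) ^ 2 * (u x ^ 2 + ε) ≤ 4 := by
      have h4 : (2 * u x / (u x ^ 2 + ε)) ^ 2 * (u x ^ 2 + ε) = 4 * u x ^ 2 / (u x ^ 2 + ε) := by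
        have := (hpos x).ne'
        field_simp
        ring
      rw [h4, div_le_iff₀ (hpos x)]
      nlinarith
    have h5 := mul_le_mul_of_nonneg_right h3 (gs_nonneg u x)
    nlinarith
  rw [ex_cmul] at h1
  have h2 := mul_le_mul_of_nonneg_left h1 (by have := H.kpos; positivity : 0 ≤ 1 / (2 * κ))
  refine h2.trans_eq ?_
  have := H.kpos.ne'
  field_simp
  ring

/-- Lower bound of the entropy of a function supported in a small set (Jensen in the form
`v log v ≥ v (log c + 1) - c`, `c = E[1_B v]/b`, `B = {u ≠ 0}`, `b = pr V B > 0`). -/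
theorem ent_lower (H : Nice κ M V) (hu : Cu u) {ε : ℝ} (hε : 0 < ε)
    (hb : 0 < pr V {x | u x ≠ 0}) :
    (ex V (fun x => u x ^ 2) + ε * pr V {x | u x ≠ 0}) *
        Real.log ((ex V (fun x => u x ^ 2) + ε * pr V {x | u x ≠ 0}) / pr V {x | u x ≠ 0}) +
        (1 - pr V {x | u x ≠ 0}) * (ε * Real.log ε) ≤
      ex V (fun x => (u x ^ 2 + ε) * Real.log (u x ^ 2 + ε)) := by
  obtain ⟨B, hBd⟩ : ∃ B : Set (ι → ℝ), B = {x | u x ≠ 0} := ⟨_, rfl⟩
  rw [← hBd] at hb ⊢
  obtain ⟨m, hm⟩ : ∃ m : ℝ, m = ex V (fun x => u x ^ 2) := ⟨_, rfl⟩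
  obtain ⟨b, hbd⟩ : ∃ b : ℝ, b = pr V B := ⟨_, rfl⟩
  rw [← hm, ← hbd]
  rw [← hbd] at hb
  have huc : Continuous u := hu.smooth.continuous
  have hBm : MeasurableSet B := by
    rw [hBd]
    exact (isOpen_ne_fun huc continuous_const).measurableSet
  have hm0 : 0 ≤ m := by
    rw [hm]
    exact ex_nonneg V fun x => sq_nonneg _
  obtain ⟨c, hc⟩ : ∃ c : ℝ, c = (m + ε * b) / b := ⟨_, rfl⟩
  have hc0 : 0 < c := by
    rw [hc]
    positivity
  rw [← hc]
  have t2 : T0 (fun x => u x ^ 2) := hu.t1.t0.pow 2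
  have tI : T0 (B.indicator fun _ => (1 : ℝ)) := t0_ind hBm
  have hF : ContDiff ℝ ∞ (fun y : ℝ => (y ^ 2 + ε) * Real.log (y ^ 2 + ε)) := by
    have h1 : ContDiff ℝ ∞ (fun y : ℝ => y ^ 2 + ε) := (contDiff_id.pow 2).add contDiff_const
    refine h1.mul (ContDiff.log h1 fun y => ?_)
    have : 0 < y ^ 2 + ε := by positivity
    exact this.ne'
  have tL : T0 (fun x => (u x ^ 2 + ε) * Real.log (u x ^ 2 + ε)) := (hu.comp hF).t1.t0
  have tR : T0 (fun x => ((u x ^ 2 * (Real.log c + 1) +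
      (B.indicator (fun _ => (1 : ℝ)) x) * (ε * (Real.log c + 1) - c - ε * Real.log ε)) +
        ε * Real.log ε)) := by
    have h1 : T0 (fun x => (Real.log c + 1) * u x ^ 2) := t2.cmul _
    have h2 : T0 (fun x => (ε * (Real.log c + 1) - c - ε * Real.log ε) *
        (B.indicator (fun _ => (1 : ℝ)) x)) := tI.cmul _
    have h3 := (h1.add h2).add (T0.const (ε * Real.log ε))
    have e : (fun x => ((Real.log c + 1) * u x ^ 2 + (ε * (Real.log c + 1) - c - ε * Real.log ε) *
        (B.indicator (fun _ => (1 : ℝ)) x)) + ε * Real.log ε) = (fun x => ((u x ^ 2 * (Real.log c + 1) +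
      (B.indicator (fun _ => (1 : ℝ)) x) * (ε * (Real.log c + 1) - c - ε * Real.log ε)) +
        ε * Real.log ε)) := by
      funext x
      ring
    rwa [e] at h3
  have key := ex_mono H tR tL fun x => ?_
  · refine le_trans (le_of_eq ?_) key
    have t1 : T0 (fun x => u x ^ 2 * (Real.log c + 1)) := by
      have h1 : T0 (fun x => (Real.log c + 1) * u x ^ 2) := t2.cmul _
      simpa only [mul_comm] using h1
    have t3 : T0 (fun x => (B.indicator (fun _ => (1 : ℝ)) x) *
        (ε * (Real.log c + 1) - c - ε * Real.log ε)) := by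
      have h1 : T0 (fun x => (ε * (Real.log c + 1) - c - ε * Real.log ε) *
        (B.indicator (fun _ => (1 : ℝ)) x)) := tI.cmul _
      simpa only [mul_comm] using h1
    rw [ex_add H (t1.add t3) (T0.const _), ex_add H t1 t3, ex_mulc, ex_mulc, ex_const H, ← hm]
    have e1 : ex V (fun x => B.indicator (fun _ => (1 : ℝ)) x) = b := by
      rw [hbd]
      rfl
    rw [e1]
    have e2 : c * b = m + ε * b := by
      rw [hc]
      field_simp
    linear_combination e2
  · by_cases hx : x ∈ B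
    · rw [Set.indicator_of_mem hx]
      have hv : 0 < u x ^ 2 + ε := by positivity
      have h1 := Real.add_one_le_exp (Real.log c - Real.log (u x ^ 2 + ε))
      rw [Real.exp_sub, Real.exp_log hc0, Real.exp_log hv, le_div_iff₀ hv] at h1
      nlinarith
    · rw [Set.indicator_of_notMem hx]
      have hux : u x = 0 := by
        by_contra h
        exact hx (by rw [hBd]; exact h)
      rw [hux]
      simp

/-- Log-Sobolev in Faber-Krahn form (paper 322, 1.5): let `ε → 0` in `lsi_eps`, `ent_lower`. -/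
theorem lsi_supp (H : Nice κ M V) (hu : Cu u) :
    ex V (fun x => u x ^ 2) * Real.log (1 / pr V {x | u x ≠ 0}) ≤ 2 / κ * ex V (gs u) := by
  have hgs : 0 ≤ 2 / κ * ex V (gs u) := by
    have h1 : 0 ≤ ex V (gs u) := ex_nonneg V fun x => gs_nonneg u x
    have h2 := H.kpos
    positivity
  rcases (pr_nonneg V {x | u x ≠ 0}).eq_or_lt with hb | hb
  · rw [← hb, div_zero, Real.log_zero, mul_zero]
    exact hgs
  · have h1 : ∀ ε : ℝ, 0 < ε → _ := fun ε hε => (ent_lower H hu hε hb).trans (lsi_eps H hu hε)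
    obtain ⟨m, hm⟩ : ∃ m : ℝ, m = ex V (fun x => u x ^ 2) := ⟨_, rfl⟩
    obtain ⟨b, hbd⟩ : ∃ b : ℝ, b = pr V {x | u x ≠ 0} := ⟨_, rfl⟩
    obtain ⟨K, hK⟩ : ∃ K : ℝ, K = 2 / κ * ex V (gs u) := ⟨_, rfl⟩
    rw [← hm, ← hbd, ← hK] at h1
    rw [← hK] at hgs
    rw [← hbd] at hb
    rw [← hm, ← hbd, ← hK]
    have hm0 : 0 ≤ m := by
      rw [hm]
      exact ex_nonneg V fun x => sq_nonneg _
    have hxl := Real.continuous_mul_log
    have c1 : Continuous (fun ε : ℝ => b * (((m + ε * b) / b) * Real.log ((m + ε * b) / b)) +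
        (1 - b) * (ε * Real.log ε)) := by
      have h2 : Continuous (fun ε : ℝ => (m + ε * b) / b) := by fun_prop
      exact (continuous_const.mul (hxl.comp h2)).add (continuous_const.mul hxl)
    have c2 : Continuous (fun ε : ℝ => (m + ε) * Real.log (m + ε) + K) := by
      have h2 : Continuous (fun ε : ℝ => m + ε) := by fun_prop
      exact (hxl.comp h2).add continuous_const
    have h3 : b * (((m + 0 * b) / b) * Real.log ((m + 0 * b) / b)) + (1 - b) * (0 * Real.log 0) ≤
        (m + 0) * Real.log (m + 0) + K := by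
      refine le_of_tendsto_of_tendsto ((c1.tendsto 0).mono_left nhdsWithin_le_nhds)
        ((c2.tendsto 0).mono_left nhdsWithin_le_nhds) (f := fun ε : ℝ =>
          b * (((m + ε * b) / b) * Real.log ((m + ε * b) / b)) + (1 - b) * (ε * Real.log ε))
        (b := 𝓝[>] (0 : ℝ)) ?_
      filter_upwards [self_mem_nhdsWithin] with ε hε
      have h4 := h1 ε hε
      have e1 : b * (((m + ε * b) / b) * Real.log ((m + ε * b) / b)) =
          (m + ε * b) * Real.log ((m + ε * b) / b) := by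
        field_simp
      rw [e1]
      exact h4
    rcases hm0.eq_or_lt with hm1 | hm1
    · rw [← hm1, zero_mul]
      exact hgs
    · rw [zero_mul, add_zero, zero_mul, mul_zero, add_zero,
        Real.log_div hm1.ne' hb.ne'] at h3
      rw [one_div, Real.log_inv]
      have e1 : b * (m / b * (Real.log m - Real.log b)) = m * (Real.log m - Real.log b) := by
        field_simp
      rw [e1] at h3
      linarith

end Pool.Agent.Lib.MP_8d00da_gt.h42k
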