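import Pool.Agent.Lib.MP_8d00da_gt.h42k.G44b

/-!
# The potential of Y_t is nice
-/

namespace Pool.Agent.Lib.MP_8d00da_gt.h42k

open MeasureTheory Set Filter
open scoped Topology NNReal ENNReal ContDiff

set_option linter.unusedSectionVars false
set_option linter.unusedVariables false

variable {ι : Type*} [Fintype ι] [DecidableEq ι]

variable {κ M : ℝ} {V f Φ : (ι → ℝ) → ℝ}

private theorem G47e_pd_of {f : (ι → ℝ) → ℝ} {f' : (ι → ℝ) →L[ℝ] ℝ} {x : ι → ℝ}
    (h : HasFDerivAt f f' x) (i : ι) : pd i f x = f' (Pi.single i 1) := by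
  unfold pd
  rw [h.fderiv]

private theorem G47e_eq (V : (ι → ℝ) → ℝ) (t : ℝ) :
    VY V t = fun y => (1 / (2 * t)) * sq y - Real.log (ZP V (fun _ => 1) (t, y)) := by
  funext y
  unfold VY ZP
  simp only [one_mul]
  congr 1
  ring

private theorem G47e_slice (H : Nice κ M V) (hf : T0 f) {t : ℝ} (ht : -κ < t) (y : ι → ℝ) :
    HasFDerivAt (fun y => ZP V f (t, y))
      ((ZL V f (t, y)).comp (ContinuousLinearMap.inr ℝ ℝ (ι → ℝ))) y := by
  have h1 : HasFDerivAt (fun y : ι → ℝ => ((t, y) : ℝ × (ι → ℝ)))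
      (ContinuousLinearMap.inr ℝ ℝ (ι → ℝ)) y := hasFDerivAt_prodMk_right t y
  exact (ZP_hasFDerivAt H hf (p := (t, y)) ht).comp y h1

private theorem G47e_pdZ (H : Nice κ M V) (hf : T0 f) {t : ℝ} (ht : -κ < t) (y : ι → ℝ) (i : ι) :
    pd i (fun y => ZP V f (t, y)) y = ZP V (fun x => f x * x i) (t, y) := by
  rw [G47e_pd_of (G47e_slice H hf ht y)]
  unfold ZL
  simp [Pi.single_apply]

private theorem G47e_smooth (H : Nice κ M V) {t : ℝ} (ht : -κ < t) :
    ContDiff ℝ ∞ (fun y => Real.log (ZP V (fun _ => 1) (t, y))) := by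
  rw [contDiff_iff_contDiffAt]
  intro y
  have h1 : ContDiffAt ℝ ∞ (ZP V (fun _ => 1)) ((t, y) : ℝ × (ι → ℝ)) :=
    ZP_contDiffAt H (T0.const 1) ht
  have h2 : ContDiffAt ℝ ∞ (fun y : ι → ℝ => ((t, y) : ℝ × (ι → ℝ))) y :=
    contDiffAt_const.prodMk contDiffAt_id
  have h3 : ContDiffAt ℝ ∞ (fun y => ZP V (fun _ => 1) (t, y)) y := h1.comp y h2
  exact h3.log (ZP_one_pos H (p := (t, y)) ht).ne'

theorem VY_pd (H : Nice κ M V) {t : ℝ} (ht : 0 < t) (y : ι → ℝ) (i : ι) :
    pd i (VY V t) y = y i / t - EP V t (fun x => x i) y := by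
  have htκ : -κ < t := by linarith [H.kpos]
  have hsqd : Differentiable ℝ (sq : (ι → ℝ) → ℝ) :=
    (contDiff_sq (n := 1)).differentiable (by norm_num)
  have hld : Differentiable ℝ (fun y => Real.log (ZP V (fun _ => 1) (t, y))) :=
    (G47e_smooth H htκ).differentiable (by norm_num)
  have hz := ZP_one_pos H (p := (t, y)) htκ
  rw [G47e_eq, pd_sub (f := fun y => (1 / (2 * t)) * sq y) (hsqd.const_mul _) hld,
    pd_cmul hsqd, pd_sq]
  have h1 := (G47e_slice H (T0.const 1) htκ y).log hz.ne'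
  have h2 : pd i (fun y => Real.log (ZP V (fun _ => 1) (t, y))) y =
      (ZP V (fun _ => 1) (t, y))⁻¹ * pd i (fun y => ZP V (fun _ => 1) (t, y)) y := by
    rw [G47e_pd_of h1, G47e_pd_of (G47e_slice H (T0.const 1) htκ y)]
    rfl
  rw [h2, G47e_pdZ H (T0.const 1) htκ, EP_eq]
  have h3 : (fun x : ι → ℝ => (1 : ℝ) * x i) = fun x => x i := by
    funext x
    rw [one_mul]
  rw [h3]
  field_simp

theorem VY_pd2 (H : Nice κ M V) {t : ℝ} (ht : 0 < t) (y : ι → ℝ) (i j : ι) :
    pd i (pd j (VY V t)) y = (if i = j then 1 / t else 0) - CM (pt V t y) i j := by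
  have htκ : -κ < t := by linarith [H.kpos]
  have h1 : pd j (VY V t) = fun y => (1 / t) * y j - EP V t (fun x => x j) y := by
    funext y
    rw [VY_pd H ht]
    ring
  have hc : Differentiable ℝ (fun x : ι → ℝ => x j) := (T1.coord j).c1.differentiable (by norm_num)
  have he : Differentiable ℝ (EP V t (fun x => x j)) := by
    intro y
    have h2 := EP_contDiffAt H (T0.coord j) htκ y
    have h3 : ContDiffAt ℝ ∞ (fun y : ι → ℝ => ((t, y) : ℝ × (ι → ℝ))) y :=
      contDiffAt_const.prodMk contDiffAt_id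
    have h4 : ContDiffAt ℝ ∞ (EP V t (fun x => x j)) y := h2.comp y h3
    exact h4.differentiableAt (by norm_num)
  rw [h1, pd_sub (f := fun y => (1 / t) * y j) (g := EP V t (fun x => x j)) (hc.const_mul _) he,
    pd_cmul hc, pd_coord, EP_pd H (T0.coord j) htκ]
  have h5 : CP V t (fun x => x j) (fun x => x i) y = CM (pt V t y) i j := by
    unfold CP CM
    rw [Matrix.of_apply, cov_comm]
  rw [h5]
  split_ifs <;> ring

/-- The potential of `Y_t` is nice if the posterior covariances are at most `1/(κ+t)` (which is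
the Poincare inequality for linear functions). -/
theorem VY_nice (H : Nice κ M V) {t : ℝ} (ht : 0 < t)
    (hP : ∀ y, CLe (pt V t y) (1 / (κ + t))) :
    Nice (κ / (t * (κ + t))) (1 / t) (VY V t) := by
  have hκ := H.kpos
  have htκ : -κ < t := by linarith
  have h1 : ∀ y u, hs (VY V t) y u = sq u / t - var (pt V t y) (fun x => dt u x) := by
    intro y u
    rw [var_dt (H.ptn htκ y)]
    unfold hs sq
    rw [Finset.sum_div, ← Finset.sum_sub_distrib]
    refine Finset.sum_congr rfl fun i _ => ?_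
    have h2 : ∀ j, u i * u j * pd i (pd j (VY V t)) y =
        (if i = j then u i * u j / t else 0) - u i * u j * CM (pt V t y) i j := by
      intro j
      rw [VY_pd2 H ht]
      split_ifs <;> ring
    simp only [h2, Finset.sum_sub_distrib, Finset.sum_ite_eq, Finset.mem_univ, if_true]
    ring
  refine ⟨by positivity, ?_, fun y u => ?_, fun y u => ?_⟩
  · rw [G47e_eq]
    exact (contDiff_const.mul contDiff_sq).sub ((G47e_smooth H htκ).of_le (by norm_cast))
  · rw [h1]
    have h3 := hP y u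
    have h4 : κ / (t * (κ + t)) * sq u = sq u / t - 1 / (κ + t) * sq u := by
      have : κ + t ≠ 0 := by positivity
      field_simp
      ring
    rw [h4]
    linarith
  · rw [h1]
    have h5 := var_nonneg (H.ptn htκ y) (T0.dtf u)
    change 0 ≤ var (pt V t y) (fun x => dt u x) at h5
    have h6 : 1 / t * sq u = sq u / t := by ring
    rw [h6]
    linarith

end Pool.Agent.Lib.MP_8d00da_gt.h42k
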