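import Pool.Agent.Lib.MP_8d00da_gt.h42k.KD1

/-!
# Second order improved Lichnerowicz inequality (paper 329)

If `κ ≤ D²V`, `Cov(V) ≤ l` and `Var ⟨B x~, x~⟩ ≤ K |B|²` for all symmetric `B`, then the Poincare
constant is at most `l + P` for every `P ≥ 0` with `K / 4 ≤ κ P³`.
-/

namespace Pool.Agent.Lib.MP_8d00da_gt.h42k

open MeasureTheory Set Filter
open scoped Topology NNReal ENNReal ContDiff

set_option linter.unusedSectionVars false
set_option linter.unusedVariables false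

variable {ι : Type*} [Fintype ι] [DecidableEq ι]

variable {κ M : ℝ} {V : (ι → ℝ) → ℝ}

/-- The centred quadratic form of the matrix `B`. -/
noncomputable def qfm (V : (ι → ℝ) → ℝ) (B : ι → ι → ℝ) (x : ι → ℝ) : ℝ :=
  ∑ i, ∑ j, B i j * (x i - mn V i) * (x j - mn V j)

/-- The quadratic KLS inequality with constant `K` for the measure `exp (-V)`, all symmetric
matrices. -/
def QKV (V : (ι → ℝ) → ℝ) (K : ℝ) : Prop :=
  ∀ B : ι → ι → ℝ, (∀ i j, B i j = B j i) → var V (qfm V B) ≤ K * ∑ i, ∑ j, B i j ^ 2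

/-- `∑ Var ∂_i φ ≤ ρ E (Lφ)²`. -/
def RB (V : (ι → ℝ) → ℝ) (ρ : ℝ) : Prop := ∀ φ, Cc φ →
  ∑ i, var V (pd i φ) ≤ ρ * ex V (fun x => LL V φ x ^ 2)

private theorem IL2_t1c (V : (ι → ℝ) → ℝ) (i : ι) : T1 (fun x : ι → ℝ => x i - mn V i) :=
  (T1.coord i).sub (T1.const _)

private theorem IL2_pdc (V : (ι → ℝ) → ℝ) (i j : ι) (x : ι → ℝ) :
    pd i (fun x : ι → ℝ => x j - mn V j) x = if i = j then 1 else 0 := by
  rw [pd_sub (f := fun x : ι → ℝ => x j) (g := fun _ => mn V j)
    ((T1.coord j).c1.differentiable (by norm_num)) (differentiable_const _), pd_coord, pd_const]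
  ring

private theorem IL2_diff {φ : (ι → ℝ) → ℝ} (hφ : Cc φ) : Differentiable ℝ φ :=
  hφ.t1.c1.differentiable (by norm_num)

private theorem IL2_comm {φ : (ι → ℝ) → ℝ} (hφ : Cc φ) (i j : ι) :
    pd i (pd j φ) = pd j (pd i φ) := by
  funext x
  have h : ContDiff ℝ 2 φ := by exact_mod_cast contDiff_infty.1 hφ.smooth 2
  exact pd_comm h i j x

private theorem IL2_gsnn (f : (ι → ℝ) → ℝ) (x : ι → ℝ) : 0 ≤ gs f x :=
  Finset.sum_nonneg fun i _ => sq_nonneg _

private theorem IL2_hqnn (f : (ι → ℝ) → ℝ) (x : ι → ℝ) : 0 ≤ hq f x :=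
  Finset.sum_nonneg fun i _ => Finset.sum_nonneg fun j _ => sq_nonneg _

private theorem IL2_hst0 (H : Nice κ M V) {φ : (ι → ℝ) → ℝ} (hφ : Cc φ) :
    T0 (fun x => hs V x (fun i => pd i φ x)) := by
  unfold hs
  exact T0.sum _ fun i _ => T0.sum _ fun j _ =>
    (((hφ.pdc i).t1.t0).mul (hφ.pdc j).t1.t0).mul ((H.pdt1 j).pdt0 i)

/-- `E ∂_i χ = E (x_i - mean) Lχ`. -/
theorem ex_pd_LL (H : Nice κ M V) {χ : (ι → ℝ) → ℝ} (hχ : Cc χ) (i : ι) :
    ex V (pd i χ) = ex V (fun x => (x i - mn V i) * LL V χ x) := by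
  rw [ibp_LL H (IL2_t1c V i) hχ]
  congr 1
  funext x
  rw [Finset.sum_eq_single i]
  · rw [IL2_pdc, if_pos rfl, one_mul]
  · intro j _ hj
    rw [IL2_pdc, if_neg hj, zero_mul]
  · intro hi
    exact absurd (Finset.mem_univ i) hi

/-- The pairing with the quadratic form: `E q_B Lφ = 2 ∑ B_kj E (x_j - mean) ∂_k φ`. -/
theorem ex_qf_LL (H : Nice κ M V) {φ : (ι → ℝ) → ℝ} (hφ : Cc φ) {B : ι → ι → ℝ}
    (hB : ∀ i j, B i j = B j i) :
    ex V (fun x => qfm V B x * LL V φ x) =
      2 * ∑ k, ∑ j, B k j * ex V (fun x => (x j - mn V j) * pd k φ x) := by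
  have hd : ∀ i, Differentiable ℝ (fun x : ι → ℝ => x i - mn V i) :=
    fun i => (IL2_t1c V i).c1.differentiable (by norm_num)
  have e0 : qfm V B = fun x => ∑ i, ∑ j, B i j * ((x i - mn V i) * (x j - mn V j)) := by
    funext x
    unfold qfm
    exact Finset.sum_congr rfl fun i _ => Finset.sum_congr rfl fun j _ => by ring
  have hf : T1 (qfm V B) := by
    rw [e0]
    exact T1.sum _ fun i _ => T1.sum _ fun j _ => ((IL2_t1c V i).mul (IL2_t1c V j)).cmul (B i j)
  have hd1 : ∀ i j, Differentiable ℝ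
      (fun x : ι → ℝ => B i j * ((x i - mn V i) * (x j - mn V j))) :=
    fun i j => ((hd i).fun_mul (hd j)).const_mul _
  have hd2 : ∀ i, Differentiable ℝ
      (fun x : ι → ℝ => ∑ j, B i j * ((x i - mn V i) * (x j - mn V j))) :=
    fun i => (T1.sum Finset.univ fun j _ =>
      ((IL2_t1c V i).mul (IL2_t1c V j)).cmul (B i j)).c1.differentiable (by norm_num)
  have hpd : ∀ k x, pd k (qfm V B) x = 2 * ∑ j, B k j * (x j - mn V j) := by
    intro k x
    rw [e0, pd_sum Finset.univ (F := fun i x => ∑ j, B i j * ((x i - mn V i) * (x j - mn V j)))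
      (fun i _ => hd2 i)]
    have h1 : ∀ i, pd k (fun x : ι → ℝ => ∑ j, B i j * ((x i - mn V i) * (x j - mn V j))) x =
        (if k = i then ∑ j, B i j * (x j - mn V j) else 0) + B i k * (x i - mn V i) := by
      intro i
      rw [pd_sum Finset.univ (F := fun j x => B i j * ((x i - mn V i) * (x j - mn V j)))
        (fun j _ => hd1 i j)]
      have h2 : ∀ j, pd k (fun x : ι → ℝ => B i j * ((x i - mn V i) * (x j - mn V j))) x =
          (if k = i then B i j * (x j - mn V j) else 0) +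
            (if k = j then B i j * (x i - mn V i) else 0) := by
        intro j
        rw [pd_cmul ((hd i).fun_mul (hd j)), pd_mul (hd i) (hd j), IL2_pdc, IL2_pdc]
        split_ifs <;> ring
      rw [Finset.sum_congr rfl fun j _ => h2 j, Finset.sum_add_distrib]
      congr 1
      · split_ifs
        · rfl
        · exact Finset.sum_const_zero
      · rw [Finset.sum_ite_eq, if_pos (Finset.mem_univ k)]
    rw [Finset.sum_congr rfl fun i _ => h1 i, Finset.sum_add_distrib, Finset.sum_ite_eq,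
      if_pos (Finset.mem_univ k), two_mul]
    congr 1
    exact Finset.sum_congr rfl fun i _ => by rw [hB i k]
  rw [ibp_LL H hf hφ]
  have e1 : (fun x => ∑ i, pd i (qfm V B) x * pd i φ x) =
      fun x => 2 * ∑ k, ∑ j, B k j * ((x j - mn V j) * pd k φ x) := by
    funext x
    rw [Finset.mul_sum]
    refine Finset.sum_congr rfl fun k _ => ?_
    rw [hpd, mul_assoc, Finset.sum_mul]
    congr 1
    exact Finset.sum_congr rfl fun j _ => by ring
  have ht : ∀ k j, T0 (fun x : ι → ℝ => (x j - mn V j) * pd k φ x) :=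
    fun k j => (IL2_t1c V j).t0.mul (hφ.pdc k).t1.t0
  rw [e1, ex_cmul, ex_sum H _ (fun k _ => T0.sum _ fun j _ => (ht k j).cmul (B k j))]
  congr 1
  refine Finset.sum_congr rfl fun k _ => ?_
  rw [ex_sum H _ (fun j _ => (ht k j).cmul (B k j))]
  exact Finset.sum_congr rfl fun j _ => by rw [ex_cmul]

/-- Elementary: `(p + q)² ≤ (a + b)(c + d)` if `p² ≤ a c`, `q² ≤ b d`. -/
theorem cs_two {p q a b c d : ℝ} (ha : 0 ≤ a) (hb : 0 ≤ b) (hc : 0 ≤ c) (hd : 0 ≤ d)
    (h1 : p ^ 2 ≤ a * c) (h2 : q ^ 2 ≤ b * d) : (p + q) ^ 2 ≤ (a + b) * (c + d) := by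
  have h3 : (p * q) ^ 2 ≤ ((a * d + b * c) / 2) ^ 2 := by
    have h4 : (p * q) ^ 2 ≤ (a * c) * (b * d) := by
      rw [mul_pow]
      exact mul_le_mul h1 h2 (sq_nonneg _) (mul_nonneg ha hc)
    nlinarith [sq_nonneg (a * d - b * c)]
  have h5 : p * q ≤ (a * d + b * c) / 2 := by
    have := abs_le_of_sq_le_sq' h3 (by positivity)
    exact this.2
  nlinarith

/-- The main step (paper 329 (a)-(d)). -/
theorem IL2_main (H : Nice κ M V) {K ρ : ℝ} (hK : 0 ≤ K) (hQ : QKV V K) (hρ : 0 ≤ ρ)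
    (hR : RB V ρ) {φ : (ι → ℝ) → ℝ} (hφ : Cc φ) :
    (∑ i, var V (pd i φ)) ^ 2 ≤
      (ρ * (∑ i, var V (pd i φ)) + K / 4 * ex V (fun x => LL V φ x ^ 2)) *
        (ex V (fun x => LL V φ x ^ 2) - κ * ∑ i, var V (pd i φ)) := by
  set w : ℝ := ex V (fun x => LL V φ x ^ 2) with hw
  set v : ℝ := ∑ i, var V (pd i φ) with hv
  set S : ι → ι → ℝ := fun i j => ex V (pd i (pd j φ)) with hS
  have hw0 : 0 ≤ w := ex_nonneg V fun x => sq_nonneg _
  have hvt : ∀ i, 0 ≤ var V (pd i φ) := fun i => var_nonneg H (hφ.pdc i).t1.t0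
  have hv0 : 0 ≤ v := Finset.sum_nonneg fun i _ => hvt i
  have hSs : ∀ i j, S i j = S j i := fun i j => by
    simp only [hS]
    rw [IL2_comm hφ i j]
  set s : ℝ := ∑ i, ∑ j, S i j ^ 2 with hs'
  have hs0 : 0 ≤ s := Finset.sum_nonneg fun i _ => Finset.sum_nonneg fun j _ => sq_nonneg _
  -- the fields h_j
  set h : ι → (ι → ℝ) → ℝ := fun j x => pd j φ x - ex V (pd j φ) with hh
  have ht1 : ∀ j, T1 (h j) := fun j => (hφ.pdc j).t1.sub (T1.const _)
  have hex0 : ∀ j, ex V (h j) = 0 := fun j => by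
    simp only [hh]
    rw [ex_sub H (hφ.pdc j).t1.t0 (T0.const _), ex_const H, sub_self]
  have hpdh : ∀ i j, pd i (h j) = pd i (pd j φ) := fun i j => by
    funext x
    simp only [hh]
    rw [pd_sub (f := pd j φ) (g := fun _ => ex V (pd j φ)) (IL2_diff (hφ.pdc j))
      (differentiable_const _), pd_const, sub_zero]
  choose χ hχ _ hχ2 hχ3 using fun j => PD_seq H (ht1 j).t0 (hex0 j)
  have hvar : ∀ j, ex V (fun x => h j x ^ 2) = var V (pd j φ) := fun j =>
    (var_eq H (hφ.pdc j).t1.t0).symm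
  -- X
  set X : ι → ι → ℝ := fun i j => ex V (fun x => (x i - mn V i) * h j x) with hX
  have hXeq : ∀ i j, X i j = ex V (fun x => (x i - mn V i) * pd j φ x) := fun i j => by
    simp only [hX, hh]
    have e : (fun x : ι → ℝ => (x i - mn V i) * (pd j φ x - ex V (pd j φ))) =
        fun x => (x i - mn V i) * pd j φ x - ex V (pd j φ) * (x i - mn V i) := by
      funext x
      ring
    rw [e, ex_sub H ((IL2_t1c V i).t0.mul (hφ.pdc j).t1.t0) ((IL2_t1c V i).t0.cmul _), ex_cmul]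
    have e2 : ex V (fun x : ι → ℝ => x i - mn V i) = 0 := by
      rw [ex_sub H (T1.coord i).t0 (T0.const _), ex_const H]
      exact sub_self _
    rw [e2, mul_zero, sub_zero]
  set y : ℝ := ∑ i, ∑ j, S i j * X i j with hy
  -- the bound for y
  have hy2 : y ^ 2 ≤ K / 4 * w * s := by
    have h1 := ex_qf_LL H hφ hSs
    have h2 : ∑ k, ∑ j, S k j * ex V (fun x => (x j - mn V j) * pd k φ x) = y := by
      rw [hy, Finset.sum_comm]
      refine Finset.sum_congr rfl fun i _ => Finset.sum_congr rfl fun j _ => ?_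
      rw [hXeq, hSs]
    rw [h2] at h1
    have hqt : T0 (qfm V S) := by
      have e0 : qfm V S = fun x => ∑ i, ∑ j, S i j * ((x i - mn V i) * (x j - mn V j)) := by
        funext x
        unfold qfm
        exact Finset.sum_congr rfl fun i _ => Finset.sum_congr rfl fun j _ => by ring
      rw [e0]
      exact T0.sum _ fun i _ => T0.sum _ fun j _ =>
        ((IL2_t1c V i).t0.mul (IL2_t1c V j).t0).cmul (S i j)
    have h3 := cov_cs H hqt (H.LLt0 hφ)
    have h4 : cov V (qfm V S) (LL V φ) = 2 * y := by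
      unfold cov
      rw [h1, ex_LL H hφ]
      ring
    have h5 : var V (LL V φ) ≤ w := by
      rw [var_eq', hw]
      have := sq_nonneg (ex V (LL V φ))
      linarith
    have h6 : var V (qfm V S) ≤ K * s := hQ S hSs
    have h7 : (2 * y) ^ 2 ≤ (K * s) * w := by
      rw [← h4]
      exact h3.trans (mul_le_mul h6 h5 (var_nonneg H (H.LLt0 hφ)) (mul_nonneg hK hs0))
    nlinarith
  -- the Hessian
  set P : ℝ := ∑ i, ∑ j, var V (pd i (pd j φ)) with hP
  have hP0 : 0 ≤ P := Finset.sum_nonneg fun i _ => Finset.sum_nonneg fun j _ =>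
    var_nonneg H ((hφ.pdc j).pdc i).t1.t0
  have hPs : P + s = ex V (hq φ) := by
    have h1 : ex V (hq φ) = ∑ i, ∑ j, ex V (fun x => pd i (pd j φ) x ^ 2) := by
      unfold hq
      rw [ex_sum H _ (fun i _ => T0.sum _ fun j _ => (((hφ.pdc j).pdc i).t1.t0).pow 2)]
      refine Finset.sum_congr rfl fun i _ => ?_
      rw [ex_sum H _ (fun j _ => (((hφ.pdc j).pdc i).t1.t0).pow 2)]
    rw [h1, hP, hs', ← Finset.sum_add_distrib]
    refine Finset.sum_congr rfl fun i _ => ?_
    rw [← Finset.sum_add_distrib]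
    refine Finset.sum_congr rfl fun j _ => ?_
    rw [var_eq']
    simp only [hS]
    ring
  have hPw : P + s ≤ w - κ * v := by
    have h1 := bochner H hφ
    have h2 : κ * ex V (gs φ) ≤ ex V (fun x => hs V x (fun i => pd i φ x)) := by
      rw [← ex_cmul]
      exact ex_mono H (hφ.t1.gst0.cmul κ) (IL2_hst0 H hφ) fun x => H.lo x _
    have h3 : v ≤ ex V (gs φ) := by
      have h4 : ex V (gs φ) = ∑ i, ex V (fun x => pd i φ x ^ 2) :=
        ex_sum H Finset.univ (F := fun i x => pd i φ x ^ 2) fun i _ => (hφ.pdc i).t1.t0.pow 2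
      rw [h4]
      refine Finset.sum_le_sum fun i _ => ?_
      rw [var_eq']
      have := sq_nonneg (ex V (pd i φ))
      linarith
    have h5 := mul_le_mul_of_nonneg_left h3 H.kpos.le
    rw [hPs]
    linarith
  -- the limit
  have hlim : (v - y) ^ 2 ≤ (ρ * v) * P := by
    -- sequences
    have l1 : Tendsto (fun k => ∑ j, ex V (fun x => h j x * LL V (χ j k) x)) atTop (𝓝 v) := by
      rw [hv]
      refine tendsto_finsetSum _ fun j _ => ?_
      have := hχ3 j (h j) (ht1 j).t0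
      have e : (fun x => h j x * h j x) = fun x => h j x ^ 2 := by
        funext x
        ring
      rwa [e, hvar] at this
    have l2 : Tendsto (fun k => ∑ i, ∑ j, S i j * ex V (pd i (χ j k))) atTop (𝓝 y) := by
      rw [hy]
      refine tendsto_finsetSum _ fun i _ => tendsto_finsetSum _ fun j _ => ?_
      refine Tendsto.const_mul _ ?_
      have := hχ3 j (fun x => x i - mn V i) (IL2_t1c V i).t0
      refine this.congr fun k => ?_
      exact (ex_pd_LL H (hχ j k) i).symm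
    have l3 : Tendsto (fun k => (ρ * ∑ j, ex V (fun x => LL V (χ j k) x ^ 2)) * P) atTop
        (𝓝 ((ρ * v) * P)) := by
      refine Tendsto.mul_const _ (Tendsto.const_mul _ ?_)
      rw [hv]
      refine tendsto_finsetSum _ fun j _ => ?_
      have := hχ2 j
      rwa [hvar] at this
    refine le_of_tendsto_of_tendsto' ((l1.sub l2).pow 2) l3 fun k => ?_
    -- the inequality for fixed k
    have e1 : ∑ j, ex V (fun x => h j x * LL V (χ j k) x) =
        ∑ j, ∑ i, ex V (fun x => pd i (pd j φ) x * pd i (χ j k) x) := by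
      refine Finset.sum_congr rfl fun j _ => ?_
      rw [ibp_LL H (ht1 j) (hχ j k), ex_sum H _ (fun i _ => by
        rw [hpdh]
        exact (((hφ.pdc j).pdc i).t1.t0).mul ((hχ j k).pdc i).t1.t0)]
      refine Finset.sum_congr rfl fun i _ => ?_
      rw [hpdh]
    have e2 : ∑ i, ∑ j, S i j * ex V (pd i (χ j k)) =
        ∑ j, ∑ i, ex V (pd i (pd j φ)) * ex V (pd i (χ j k)) := by
      rw [Finset.sum_comm]
    have e3 : (∑ j, ex V (fun x => h j x * LL V (χ j k) x)) -
        ∑ i, ∑ j, S i j * ex V (pd i (χ j k)) =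
        ∑ j, ∑ i, cov V (pd i (pd j φ)) (pd i (χ j k)) := by
      rw [e1, e2, ← Finset.sum_sub_distrib]
      refine Finset.sum_congr rfl fun j _ => ?_
      rw [← Finset.sum_sub_distrib]
      rfl
    rw [e3]
    have hb : ∀ j i, cov V (pd i (pd j φ)) (pd i (χ j k)) ^ 2 ≤
        var V (pd i (pd j φ)) * var V (pd i (χ j k)) := fun j i =>
      cov_cs H ((hφ.pdc j).pdc i).t1.t0 ((hχ j k).pdc i).t1.t0
    have hA : ∀ j i, 0 ≤ var V (pd i (pd j φ)) := fun j i =>
      var_nonneg H ((hφ.pdc j).pdc i).t1.t0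
    have hB : ∀ j i, 0 ≤ var V (pd i (χ j k)) := fun j i =>
      var_nonneg H ((hχ j k).pdc i).t1.t0
    -- Cauchy-Schwarz over pairs
    have hcs : (∑ p : ι × ι, cov V (pd p.2 (pd p.1 φ)) (pd p.2 (χ p.1 k))) ^ 2 ≤
        (∑ p : ι × ι, var V (pd p.2 (pd p.1 φ))) * ∑ p : ι × ι, var V (pd p.2 (χ p.1 k)) := by
      have h1 : |∑ p : ι × ι, cov V (pd p.2 (pd p.1 φ)) (pd p.2 (χ p.1 k))| ≤
          ∑ p : ι × ι, √(var V (pd p.2 (pd p.1 φ))) * √(var V (pd p.2 (χ p.1 k))) := by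
        refine (Finset.abs_sum_le_sum_abs _ _).trans (Finset.sum_le_sum fun p _ => ?_)
        rw [← Real.sqrt_mul (hA _ _)]
        exact Real.abs_le_sqrt (hb _ _)
      have h2 := Finset.sum_mul_sq_le_sq_mul_sq Finset.univ
        (fun p : ι × ι => √(var V (pd p.2 (pd p.1 φ)))) (fun p => √(var V (pd p.2 (χ p.1 k))))
      have h3 : ∀ p : ι × ι, √(var V (pd p.2 (pd p.1 φ))) ^ 2 = var V (pd p.2 (pd p.1 φ)) :=
        fun p => Real.sq_sqrt (hA _ _)
      have h4 : ∀ p : ι × ι, √(var V (pd p.2 (χ p.1 k))) ^ 2 = var V (pd p.2 (χ p.1 k)) :=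
        fun p => Real.sq_sqrt (hB _ _)
      simp only [h3, h4] at h2
      refine le_trans ?_ h2
      rw [← sq_abs]
      exact pow_le_pow_left₀ (abs_nonneg _) h1 2
    rw [Fintype.sum_prod_type, Fintype.sum_prod_type, Fintype.sum_prod_type] at hcs
    have h5 : ∑ j, ∑ i, var V (pd i (pd j φ)) = P := by
      rw [hP, Finset.sum_comm]
    have h6 : ∑ j, ∑ i, var V (pd i (χ j k)) ≤ ρ * ∑ j, ex V (fun x => LL V (χ j k) x ^ 2) := by
      rw [Finset.mul_sum]
      exact Finset.sum_le_sum fun j _ => hR _ (hχ j k)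
    calc (∑ j, ∑ i, cov V (pd i (pd j φ)) (pd i (χ j k))) ^ 2
        ≤ (∑ j, ∑ i, var V (pd i (pd j φ))) * ∑ j, ∑ i, var V (pd i (χ j k)) := hcs
      _ ≤ P * (ρ * ∑ j, ex V (fun x => LL V (χ j k) x ^ 2)) := by
          rw [h5]
          exact mul_le_mul_of_nonneg_left h6 hP0
      _ = _ := by ring
  have h1 := cs_two (p := v - y) (q := y) (mul_nonneg hρ hv0)
    (mul_nonneg (by positivity) hw0 : 0 ≤ K / 4 * w) hP0 hs0 hlim hy2
  have h2 : (v - y + y) ^ 2 = v ^ 2 := by ring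
  rw [h2] at h1
  refine h1.trans (mul_le_mul_of_nonneg_left hPw ?_)
  exact add_nonneg (mul_nonneg hρ hv0) (mul_nonneg (by positivity) hw0)

end Pool.Agent.Lib.MP_8d00da_gt.h42k
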