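import Pool.Agent.Lib.MP_8d00da_gt.h42k.KF1

/-!
# Polylogarithmic bounds for two blocks
-/

namespace Pool.Agent.Lib.MP_8d00da_gt.h42k

open MeasureTheory Set Filter
open scoped Topology NNReal ENNReal ContDiff

set_option linter.unusedSectionVars false
set_option linter.unusedVariables false

variable {ι : Type*} [Fintype ι] [DecidableEq ι]

variable {κ M : ℝ} {V : (ι → ℝ) → ℝ}

variable {f g : (ι → ℝ) → ℝ}

/-- `V` is a function of the coordinates in `P` plus a function of the other coordinates. -/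
def Spl (V : (ι → ℝ) → ℝ) (P : Finset ι) : Prop :=
  ∃ V1 V2 : (ι → ℝ) → ℝ, (∀ x, V x = V1 x + V2 x) ∧ Dep P V1 ∧ Dep Pᶜ V2

private theorem K8a_on (x : ι → ℝ) (s : Finset ι) (y : s → ℝ) (i : s) :
    Function.updateFinset x s y i = y i := by
  simp [Function.updateFinset]

private theorem K8a_off (x : ι → ℝ) (s : Finset ι) (y : s → ℝ) {i : ι} (hi : i ∉ s) :
    Function.updateFinset x s y i = x i := by
  simp [Function.updateFinset, hi]

private theorem K8a_rowc (x : ι → ℝ) (s : Finset ι) (i : s) :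
    row s (fun z => z (i : ι)) x = fun y => y i := funext fun y => K8a_on x s y i

theorem CLe_kappa (H : Nice κ M V) : CLe V (1 / κ) := by
  intro θ
  have h1 := H.pi (dt θ) (T1.dtf θ)
  have h2 : gs (dt θ) = fun _ => sq θ := by
    funext x
    unfold gs sq
    exact Finset.sum_congr rfl fun i _ => by rw [pd_dt]
  rw [h2, ex_const H] at h1
  exact h1

/-- Under `Spl V (Q ∪ s)` conditional expectations (given the coordinates off `s`) of functions of the
coordinates in `Q ∪ s` depend only on `Q`. -/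
theorem Spl.CE_dep (H : Nice κ M V) {s Q : Finset ι} (hQ : Disjoint Q s) (hS : Spl V (Q ∪ s))
    (hf : Dep (Q ∪ s) f) : Dep Q (CE V s f) := by
  obtain ⟨V1, V2, hV, h1, h2⟩ := hS
  have h := CE_dep_split H s (Q ∪ s) hV h1 h2 Finset.subset_union_right hf
  rwa [Finset.union_sdiff_cancel_right hQ] at h

theorem Spl.CC_dep (H : Nice κ M V) {s Q : Finset ι} (hQ : Disjoint Q s) (hS : Spl V (Q ∪ s))
    (hf : Dep (Q ∪ s) f) (hg : Dep (Q ∪ s) g) : Dep Q (CC V s f g) := by
  intro x x' hx
  rw [CC_eq, CC_eq, Spl.CE_dep H hQ hS (hf.mul hg) x x' hx, Spl.CE_dep H hQ hS hf x x' hx,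
    Spl.CE_dep H hQ hS hg x x' hx]

/-- `MG V s` splits along `Q`. -/
theorem Spl.MG (H : Nice κ M V) {s Q : Finset ι} (hQ : Disjoint Q s) (hS : Spl V (Q ∪ s)) :
    Spl (MG V s) Q := by
  obtain ⟨V1, V2, hV, h1, h2⟩ := hS
  refine ⟨MW V1 s, fun x => V2 x + (1 / 2) * ∑ i ∈ s, x i ^ 2, fun x => ?_, ?_, ?_⟩
  · have hoff : ∀ y : s → ℝ, V2 (Function.updateFinset x s y) = V2 x := by
      intro y
      refine h2 _ _ fun i hi => K8a_off _ _ _ fun his => ?_
      exact (Finset.mem_compl.1 hi) (Finset.mem_union_right _ his)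
    have e1 : ∀ y, row s V x y = row s V1 x y + V2 x := by
      intro y
      show V (Function.updateFinset x s y) = V1 (Function.updateFinset x s y) + V2 x
      rw [hV, hoff]
    have e2 : (∫ y, Real.exp (-(row s V x y))) =
        Real.exp (-V2 x) * ∫ y, Real.exp (-(row s V1 x y)) := by
      rw [← integral_const_mul]
      refine integral_congr_ae (Eventually.of_forall fun y => ?_)
      show Real.exp (-(row s V x y)) = Real.exp (-V2 x) * Real.exp (-(row s V1 x y))
      rw [e1, ← Real.exp_add]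
      congr 1
      ring
    have h3 := (H.rown s x).zpos
    rw [e2] at h3
    have h4 : 0 < ∫ y, Real.exp (-(row s V1 x y)) :=
      (pos_iff_pos_of_mul_pos h3).1 (Real.exp_pos _)
    unfold Pool.Agent.Lib.MP_8d00da_gt.h42k.MG MW
    rw [e2, Real.log_mul (Real.exp_pos _).ne' h4.ne', Real.log_exp]
    ring
  · intro x x' hx
    have hup : ∀ y : s → ℝ, ∀ i ∈ Q ∪ s,
        Function.updateFinset x s y i = Function.updateFinset x' s y i := by
      intro y i hi
      by_cases his : i ∈ s
      · simp [Function.updateFinset, his]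
      · rw [K8a_off _ _ _ his, K8a_off _ _ _ his]
        rcases Finset.mem_union.1 hi with h | h
        · exact hx i h
        · exact absurd h his
    have e2 : row s V1 x = row s V1 x' := funext fun y => h1 _ _ (hup y)
    unfold MW
    rw [e2]
  · intro x x' hx
    have h3 : V2 x = V2 x' := by
      refine h2 _ _ fun i hi => hx i ?_
      rw [Finset.mem_compl] at hi ⊢
      exact fun h => hi (Finset.mem_union_left _ h)
    have h4 : ∑ i ∈ s, x i ^ 2 = ∑ i ∈ s, x' i ^ 2 := by
      refine Finset.sum_congr rfl fun i hi => ?_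
      rw [hx i (Finset.mem_compl.2 fun h => (Finset.disjoint_left.1 hQ h) hi)]
    show V2 x + (1 / 2) * ∑ i ∈ s, x i ^ 2 = V2 x' + (1 / 2) * ∑ i ∈ s, x' i ^ 2
    rw [h3, h4]

private theorem K8a_rowsum {α : Type*} (S : Finset α) (s : Finset ι) (F : α → (ι → ℝ) → ℝ)
    (c : α → ℝ) (x : ι → ℝ) :
    row s (fun z => ∑ a ∈ S, c a * F a z) x = fun y => ∑ a ∈ S, c a * row s (F a) x y := rfl

private theorem K8a_CC_lin (H : Nice κ M V) (s : Finset ι) {α : Type*} (S : Finset α)
    {F : α → (ι → ℝ) → ℝ} (hF : ∀ a ∈ S, T0 (F a)) (c : α → ℝ) (hg : T0 g) (x : ι → ℝ) :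
    CC V s (fun z => ∑ a ∈ S, c a * F a z) g x = ∑ a ∈ S, c a * CC V s (F a) g x := by
  unfold CC
  rw [K8a_rowsum]
  rw [cov_sum (H.rown s x) S (F := fun a y => c a * row s (F a) x y)
    (fun a ha => ((hF a ha).rowt s x).cmul _) (hg.rowt s x)]
  exact Finset.sum_congr rfl fun a _ => cov_cmul _ _ _ _

private theorem K8a_CC_comm (V f g : (ι → ℝ) → ℝ) (s : Finset ι) (x : ι → ℝ) :
    CC V s f g x = CC V s g f x := cov_comm _ _ _

private theorem K8a_CC_cs (H : Nice κ M V) (s : Finset ι) (hf : T0 f) (hg : T0 g) (x : ι → ℝ) :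
    CC V s f g x ^ 2 ≤ CC V s f f x * CC V s g g x :=
  cov_cs (H.rown s x) (hf.rowt s x) (hg.rowt s x)

private theorem K8a_CC_nn (H : Nice κ M V) (s : Finset ι) (hf : T0 f) (x : ι → ℝ) :
    0 ≤ CC V s f f x := var_nonneg (H.rown s x) (hf.rowt s x)

private theorem K8a_MCC (H : Nice κ M V) (s : Finset ι) (hf : T0 f) (x : ι → ℝ) :
    0 ≤ M * CC V s f f x := by
  rcases isEmpty_or_nonempty ι with hι | hι
  · have h1 : row s f x = fun _ => f x := by
      funext y
      unfold row
      congr 1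
      exact Subsingleton.elim _ _
    have h2 : CC V s f f x = 0 := by
      unfold CC
      rw [h1]
      exact cov_const (H.rown s x) (T0.const _) _
    rw [h2, mul_zero]
  · exact mul_nonneg (H.kpos.le.trans H.Mpos) (K8a_CC_nn H s hf x)

/-- Paper 325, 8.3 (i): `∑_{k ∈ Q} Cov(g, V_k)² ≤ M Var g` (apply `cov_cs` to `V_u`,
`u_k = Cov(g, V_k)` for `k ∈ Q`, and `CC_grad_le`). -/
theorem CC_sum_le (H : Nice κ M V) {s Q : Finset ι} (hQ : Disjoint Q s) (hg : T0 g) (x : ι → ℝ) :
    ∑ k ∈ Q, CC V s g (pd k V) x ^ 2 ≤ M * CC V s g g x := by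
  set u : ι → ℝ := fun k => if k ∈ Q then CC V s g (pd k V) x else 0 with hu
  have hu0 : ∀ i ∈ s, u i = 0 := by
    intro i hi
    rw [hu]
    simp only
    rw [if_neg fun h => (Finset.disjoint_left.1 hQ h) hi]
  have hS : ∑ k ∈ Q, CC V s g (pd k V) x ^ 2 = sq u := by
    unfold sq
    rw [hu, ← Finset.sum_filter_add_sum_filter_not Finset.univ (fun k => k ∈ Q)]
    rw [Finset.sum_eq_zero (s := Finset.univ.filter fun k => ¬ k ∈ Q), add_zero]
    · have e : (Finset.univ.filter fun k => k ∈ Q) = Q := by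
        ext k
        simp
      rw [e]
      exact Finset.sum_congr rfl fun k hk => by simp only; rw [if_pos hk]
    · intro k hk
      simp only
      rw [if_neg (Finset.mem_filter.1 hk).2]
      norm_num
  have hT : ∀ k, T0 (pd k V) := fun k => H.t1.pdt0 k
  have hGt : T0 (fun z => gd V z u) := by
    unfold gd
    exact T0.sum Finset.univ fun i _ => (hT i).cmul (u i)
  have h1 : CC V s (fun z => gd V z u) g x = sq u := by
    have := K8a_CC_lin H s Finset.univ (F := fun k => pd k V) (fun k _ => hT k) u hg x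
    unfold gd
    rw [this, ← hS, hu, ← Finset.sum_filter_add_sum_filter_not Finset.univ (fun k => k ∈ Q)]
    rw [Finset.sum_eq_zero (s := Finset.univ.filter fun k => ¬ k ∈ Q), add_zero]
    · have e : (Finset.univ.filter fun k => k ∈ Q) = Q := by
        ext k
        simp
      rw [e]
      refine Finset.sum_congr rfl fun k hk => ?_
      simp only
      rw [if_pos hk, K8a_CC_comm V (pd k V) g]
      ring
    · intro k hk
      simp only
      rw [if_neg (Finset.mem_filter.1 hk).2]
      ring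
  have h2 := K8a_CC_cs H s hGt hg x
  rw [h1] at h2
  have h3 := CC_grad_le H s x u hu0
  have h4 := K8a_CC_nn H s hg x
  have h5 := K8a_MCC H s hg x
  rw [hS]
  rcases (sq_nn u).eq_or_lt with h6 | h6
  · rw [← h6]
    exact h5
  · have h7 : sq u * sq u ≤ (M * CC V s g g x) * sq u := by
      calc sq u * sq u = sq u ^ 2 := by ring
        _ ≤ CC V s (fun z => gd V z u) (fun z => gd V z u) x * CC V s g g x := h2
        _ ≤ (M * sq u) * CC V s g g x := mul_le_mul_of_nonneg_right h3 h4
        _ = (M * CC V s g g x) * sq u := by ring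
    exact le_of_mul_le_mul_right h7 h6

/-- `∑_{i ∈ s} Cov(x_i, g)² ≤ κ⁻¹ Var g` for rows (`CLe.cov_sq`, `CLe_kappa`). -/
theorem CC_coord_sum_le (H : Nice κ M V) (s : Finset ι) (hg : T0 g) (x : ι → ℝ) :
    ∑ i ∈ s, CC V s (fun z => z i) g x ^ 2 ≤ 1 / κ * CC V s g g x := by
  have h1 := (CLe_kappa (H.rown s x)).cov_sq (H.rown s x) (hg.rowt s x)
  have h2 : ∑ i ∈ s, CC V s (fun z => z i) g x ^ 2 =
      ∑ i : s, cov (row s V x) (row s g x) (fun y => y i) ^ 2 := by
    rw [← Finset.sum_coe_sort s]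
    refine Finset.sum_congr rfl fun i _ => ?_
    unfold CC
    rw [K8a_rowc, cov_comm]
  rw [h2]
  exact h1

private theorem K8a_grad1 (H : Nice κ M V) {s : Finset ι} {k : ι} (hk : k ∉ s) (x : ι → ℝ) :
    CC V s (pd k V) (pd k V) x ≤ M := by
  have h1 : ∀ z, gd V z (Pi.single k 1) = pd k V z := by
    intro z
    unfold gd
    rw [Finset.sum_eq_single k]
    · simp
    · intro j _ hj
      simp [Pi.single_eq_of_ne hj]
    · intro h
      exact absurd (Finset.mem_univ k) h
  have h2 := CC_grad_le H s x (Pi.single k 1) fun i hi => by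
    have : i ≠ k := fun e => hk (e ▸ hi)
    simp [Pi.single_eq_of_ne this]
  simp only [h1] at h2
  rw [sq_single] at h2
  simpa using h2

private theorem K8a_depc {s Q : Finset ι} {i : ι} (hi : i ∈ s) :
    Dep (Q ∪ s) (fun z : ι → ℝ => z i) := fun x x' hx => hx i (Finset.mem_union_right _ hi)

private theorem K8a_pdm (H : Nice κ M V) {s Q : Finset ι} (hQ : Disjoint Q s) {i k : ι}
    (hi : i ∈ s) (hk : k ∈ Q) (x : ι → ℝ) :
    pd k (CE V s fun z => z i) x = - CC V s (fun z => z i) (pd k V) x := by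
  have hks : k ∉ s := fun h => (Finset.disjoint_left.1 hQ hk) h
  have hki : k ≠ i := fun e => hks (e ▸ hi)
  rw [CE_pd H (T1.coord i) s x hks]
  have h1 : pd k (fun z : ι → ℝ => z i) = fun _ => 0 := by
    funext z
    rw [pd_coord, if_neg hki]
  rw [h1, CE_const H, zero_sub]

private theorem K8a_gs {Q : Finset ι} {F : (ι → ℝ) → ℝ} (hF : Dep Q F) (x : ι → ℝ) :
    gs F x = ∑ k ∈ Q, pd k F x ^ 2 := by
  unfold gs
  symm
  refine Finset.sum_subset (Finset.subset_univ Q) fun k _ hk => ?_
  rw [hF.pd_zero hk]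
  norm_num

private theorem K8a_mdep (H : Nice κ M V) {s Q : Finset ι} (hQ : Disjoint Q s)
    (hS : Spl V (Q ∪ s)) {i : ι} (hi : i ∈ s) : Dep Q (CE V s fun z => z i) :=
  Spl.CE_dep H hQ hS (K8a_depc hi)

/-- Paper 325, 8.3 (ii). -/
theorem mean_sq_le (H : Nice κ M V) (h1 : κ ≤ 1) (h2 : 1 ≤ M) {s Q : Finset ι}
    (hQ : Disjoint Q s) (hS : Spl V (Q ∪ s)) (h0 : ∀ i ∈ s, ex V (fun x => x i) = 0) :
    ex (MG V s) (fun x => ∑ i ∈ s, CE V s (fun z => z i) x ^ 2) ≤ M / κ ^ 2 * Q.card := by
  have HG := MG_nice H h1 h2 s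
  have hκ := H.kpos
  have ht1 : ∀ i, T1 (CE V s fun z => z i) := fun i => CE_t1 H (T1.coord i) s
  have hmean : ∀ i ∈ s, ex (MG V s) (CE V s fun z => z i) = 0 := by
    intro i hi
    rw [tower H h1 h2 s (T0.coord i)]
    exact h0 i hi
  have hstep : ∀ i ∈ s, ex (MG V s) (fun x => CE V s (fun z => z i) x ^ 2) ≤
      1 / κ * ex (MG V s) (gs (CE V s fun z => z i)) := by
    intro i hi
    have h3 := HG.pi _ (ht1 i)
    rw [var_eq', hmean i hi] at h3
    simpa using h3
  have hgs : ∀ x, ∑ i ∈ s, gs (CE V s fun z => z i) x ≤ M / κ * Q.card := by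
    intro x
    have h3 : ∀ i ∈ s, gs (CE V s fun z => z i) x =
        ∑ k ∈ Q, CC V s (fun z => z i) (pd k V) x ^ 2 := by
      intro i hi
      rw [K8a_gs (K8a_mdep H hQ hS hi)]
      refine Finset.sum_congr rfl fun k hk => ?_
      rw [K8a_pdm H hQ hi hk]
      ring
    rw [Finset.sum_congr rfl h3, Finset.sum_comm]
    have h4 : ∀ k ∈ Q, ∑ i ∈ s, CC V s (fun z => z i) (pd k V) x ^ 2 ≤ M / κ := by
      intro k hk
      have hks : k ∉ s := fun h => (Finset.disjoint_left.1 hQ hk) h
      refine (CC_coord_sum_le H s (H.t1.pdt0 k) x).trans ?_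
      calc 1 / κ * CC V s (pd k V) (pd k V) x ≤ 1 / κ * M :=
            mul_le_mul_of_nonneg_left (K8a_grad1 H hks x) (by positivity)
        _ = M / κ := by ring
    refine (Finset.sum_le_sum h4).trans (le_of_eq ?_)
    rw [Finset.sum_const, nsmul_eq_mul]
    ring
  have hT2 : ∀ i ∈ s, T0 (fun x => CE V s (fun z => z i) x ^ 2) := fun i _ => (ht1 i).t0.pow 2
  have hTg : ∀ i ∈ s, T0 (gs (CE V s fun z => z i)) := fun i _ => (ht1 i).gst0
  calc ex (MG V s) (fun x => ∑ i ∈ s, CE V s (fun z => z i) x ^ 2)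
      = ∑ i ∈ s, ex (MG V s) (fun x => CE V s (fun z => z i) x ^ 2) :=
        ex_sum HG s (F := fun i x => CE V s (fun z => z i) x ^ 2) hT2
    _ ≤ ∑ i ∈ s, 1 / κ * ex (MG V s) (gs (CE V s fun z => z i)) := Finset.sum_le_sum hstep
    _ = 1 / κ * ex (MG V s) (fun x => ∑ i ∈ s, gs (CE V s fun z => z i) x) := by
        rw [← Finset.mul_sum, ex_sum HG s (F := fun i => gs (CE V s fun z => z i)) hTg]
    _ ≤ 1 / κ * ex (MG V s) (fun _ => M / κ * Q.card) := by
        refine mul_le_mul_of_nonneg_left ?_ (by positivity)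
        exact ex_mono HG (T0.sum s hTg) (T0.const _) hgs
    _ = M / κ ^ 2 * Q.card := by
        rw [ex_const HG]
        field_simp

/-- Paper 325, 8.3 (iii). -/
theorem mean_quad_le (H : Nice κ M V) (h1 : κ ≤ 1) (h2 : 1 ≤ M) {s Q : Finset ι}
    (hQ : Disjoint Q s) (hS : Spl V (Q ∪ s)) (h0 : ∀ i ∈ s, ex V (fun x => x i) = 0)
    {δ : ι → ℝ} (hδ : ∀ i, |δ i| ≤ 1) :
    var (MG V s) (fun x => ∑ i ∈ s, δ i * CE V s (fun z => z i) x ^ 2) ≤
      4 * M ^ 2 / κ ^ 4 * Q.card := by
  have HG := MG_nice H h1 h2 s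
  have hκ := H.kpos
  have hM : 0 ≤ M := by linarith
  have ht1 : ∀ i, T1 (CE V s fun z => z i) := fun i => CE_t1 H (T1.coord i) s
  have hFt : ∀ i, T1 (fun x => δ i * CE V s (fun z => z i) x ^ 2) := by
    intro i
    have h3 : (fun x => δ i * CE V s (fun z => z i) x ^ 2) =
        fun x => δ i * (CE V s (fun z => z i) x * CE V s (fun z => z i) x) := by
      funext x
      ring
    rw [h3]
    exact ((ht1 i).mul (ht1 i)).cmul _
  have hT : T1 (fun x => ∑ i ∈ s, δ i * CE V s (fun z => z i) x ^ 2) :=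
    T1.sum s (F := fun i x => δ i * CE V s (fun z => z i) x ^ 2) fun i _ => hFt i
  have hdep : Dep Q (fun x => ∑ i ∈ s, δ i * CE V s (fun z => z i) x ^ 2) := by
    intro x x' hx
    refine Finset.sum_congr rfl fun i hi => ?_
    rw [K8a_mdep H hQ hS hi x x' hx]
  have hpd : ∀ (x : ι → ℝ), ∀ k ∈ Q, pd k (fun x => ∑ i ∈ s, δ i * CE V s (fun z => z i) x ^ 2) x =
      -2 * CC V s (fun z => ∑ i ∈ s, (δ i * CE V s (fun z => z i) x) * z i) (pd k V) x := by
    intro x k hk
    rw [K8a_CC_lin H s s (F := fun i z => z i) (fun i _ => T0.coord i)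
      (fun i => δ i * CE V s (fun z => z i) x) (H.t1.pdt0 k) x]
    rw [pd_sum s (F := fun i x => δ i * CE V s (fun z => z i) x ^ 2)
      (fun i _ => (hFt i).c1.differentiable (by norm_num)), Finset.mul_sum]
    refine Finset.sum_congr rfl fun i hi => ?_
    have h3 : (fun x => δ i * CE V s (fun z => z i) x ^ 2) =
        fun x => δ i * (CE V s (fun z => z i) x * CE V s (fun z => z i) x) := by
      funext x
      ring
    have hd : Differentiable ℝ (CE V s fun z => z i) := (ht1 i).c1.differentiable (by norm_num)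
    have hdm : Differentiable ℝ (fun x => CE V s (fun z => z i) x * CE V s (fun z => z i) x) :=
      hd.mul hd
    rw [h3, pd_cmul hdm, pd_mul hd hd, K8a_pdm H hQ hi hk]
    ring
  have hgs : ∀ x, gs (fun x => ∑ i ∈ s, δ i * CE V s (fun z => z i) x ^ 2) x ≤
      4 * M / κ * ∑ i ∈ s, CE V s (fun z => z i) x ^ 2 := by
    intro x
    rw [K8a_gs hdep]
    have hTg : T0 (fun z : ι → ℝ => ∑ i ∈ s, (δ i * CE V s (fun z => z i) x) * z i) :=
      T0.sum s (F := fun i z => (δ i * CE V s (fun z => z i) x) * z i)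
        fun i _ => (T0.coord i).cmul _
    have h3 : ∑ k ∈ Q, pd k (fun x => ∑ i ∈ s, δ i * CE V s (fun z => z i) x ^ 2) x ^ 2 =
        4 * ∑ k ∈ Q, CC V s (fun z => ∑ i ∈ s, (δ i * CE V s (fun z => z i) x) * z i)
          (pd k V) x ^ 2 := by
      rw [Finset.mul_sum]
      refine Finset.sum_congr rfl fun k hk => ?_
      rw [hpd x k hk]
      ring
    rw [h3]
    have h4 := CC_sum_le H hQ hTg x
    have h5 : CC V s (fun z => ∑ i ∈ s, (δ i * CE V s (fun z => z i) x) * z i)
        (fun z => ∑ i ∈ s, (δ i * CE V s (fun z => z i) x) * z i) x ≤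
        1 / κ * ∑ i ∈ s, CE V s (fun z => z i) x ^ 2 := by
      have h6 := CLe_kappa (H.rown s x) (fun i : s => δ i * CE V s (fun z => z i) x)
      have h7 : CC V s (fun z => ∑ i ∈ s, (δ i * CE V s (fun z => z i) x) * z i)
          (fun z => ∑ i ∈ s, (δ i * CE V s (fun z => z i) x) * z i) x =
          var (row s V x) (fun y => dt (fun i : s => δ i * CE V s (fun z => z i) x) y) := by
        unfold CC var
        have h8 : row s (fun z => ∑ i ∈ s, (δ i * CE V s (fun z => z i) x) * z i) x =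
            fun y => dt (fun i : s => δ i * CE V s (fun z => z i) x) y := by
          funext y
          show ∑ i ∈ s, (δ i * CE V s (fun z => z i) x) * Function.updateFinset x s y i =
            ∑ i : s, (δ i * CE V s (fun z => z (i : ι)) x) * y i
          rw [← Finset.sum_coe_sort s]
          exact Finset.sum_congr rfl fun i _ => by rw [K8a_on]
        rw [h8]
      rw [h7]
      refine h6.trans (mul_le_mul_of_nonneg_left ?_ (by positivity))
      unfold sq
      rw [← Finset.sum_coe_sort s (fun i => CE V s (fun z => z i) x ^ 2)]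
      refine Finset.sum_le_sum fun i _ => ?_
      rw [mul_pow]
      have h9 : δ i ^ 2 ≤ 1 := by
        have := hδ i
        rw [← sq_abs]
        nlinarith [abs_nonneg (δ i)]
      calc δ i ^ 2 * CE V s (fun z => z i) x ^ 2 ≤ 1 * CE V s (fun z => z i) x ^ 2 :=
            mul_le_mul_of_nonneg_right h9 (_root_.sq_nonneg _)
        _ = _ := one_mul _
    calc 4 * ∑ k ∈ Q, CC V s (fun z => ∑ i ∈ s, (δ i * CE V s (fun z => z i) x) * z i)
          (pd k V) x ^ 2 ≤ 4 * (M * (1 / κ * ∑ i ∈ s, CE V s (fun z => z i) x ^ 2)) := by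
          refine mul_le_mul_of_nonneg_left ?_ (by norm_num)
          exact h4.trans (mul_le_mul_of_nonneg_left h5 hM)
      _ = _ := by ring
  have hTm : T0 (fun x => ∑ i ∈ s, CE V s (fun z => z i) x ^ 2) :=
    T0.sum s (F := fun i x => CE V s (fun z => z i) x ^ 2) fun i _ => (ht1 i).t0.pow 2
  calc var (MG V s) (fun x => ∑ i ∈ s, δ i * CE V s (fun z => z i) x ^ 2)
      ≤ 1 / κ * ex (MG V s) (gs fun x => ∑ i ∈ s, δ i * CE V s (fun z => z i) x ^ 2) :=
        HG.pi _ hT
    _ ≤ 1 / κ * ex (MG V s) (fun x => 4 * M / κ * ∑ i ∈ s, CE V s (fun z => z i) x ^ 2) := by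
        refine mul_le_mul_of_nonneg_left ?_ (by positivity)
        exact ex_mono HG hT.gst0 (hTm.cmul _) hgs
    _ = 1 / κ * (4 * M / κ * ex (MG V s) (fun x => ∑ i ∈ s, CE V s (fun z => z i) x ^ 2)) := by
        rw [ex_cmul]
    _ ≤ 1 / κ * (4 * M / κ * (M / κ ^ 2 * Q.card)) := by
        refine mul_le_mul_of_nonneg_left (mul_le_mul_of_nonneg_left ?_ (by positivity))
          (by positivity)
        exact mean_sq_le H h1 h2 hQ hS h0
    _ = 4 * M ^ 2 / κ ^ 4 * Q.card := by
        field_simp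

/-- The derivative of the conditional covariance. -/
private theorem K8a_pdG (H : Nice κ M V) {s Q : Finset ι} (hQ : Disjoint Q s) {k : ι}
    (hk : k ∈ Q) (i l : s) (x : ι → ℝ) :
    pd k (CC V s (fun z => z (i : ι)) (fun z => z (l : ι))) x =
      - cov (row s V x) (fun y => (y i - mn (row s V x) i) * (y l - mn (row s V x) l))
        (row s (pd k V) x) := by
  have hks : k ∉ s := fun h => (Finset.disjoint_left.1 hQ hk) h
  have hki : k ≠ i := fun e => hks (e ▸ i.2)
  have hkl : k ≠ l := fun e => hks (e ▸ l.2)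
  have ht1 : ∀ i : ι, T1 (CE V s fun z => z i) := fun i => CE_t1 H (T1.coord i) s
  have htt : T1 (CE V s fun z => z (i : ι) * z (l : ι)) :=
    CE_t1 H ((T1.coord (i : ι)).mul (T1.coord (l : ι))) s
  have e1 : CC V s (fun z => z (i : ι)) (fun z => z (l : ι)) =
      fun x => CE V s (fun z => z (i : ι) * z (l : ι)) x -
        CE V s (fun z => z (i : ι)) x * CE V s (fun z => z (l : ι)) x :=
    funext fun x => CC_eq _ _ _ _ _
  have hd : ∀ j : ι, Differentiable ℝ (CE V s fun z => z j) := fun j =>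
    (ht1 j).c1.differentiable (by norm_num)
  have hdm : Differentiable ℝ (fun x => CE V s (fun z => z (i : ι)) x *
      CE V s (fun z => z (l : ι)) x) := (hd i).mul (hd l)
  rw [e1, pd_sub (htt.c1.differentiable (by norm_num)) hdm, pd_mul (hd i) (hd l),
    K8a_pdm H hQ i.2 hk, K8a_pdm H hQ l.2 hk,
    CE_pd H ((T1.coord (i : ι)).mul (T1.coord (l : ι))) s x hks]
  have e2 : pd k (fun z : ι → ℝ => z (i : ι) * z (l : ι)) = fun _ => 0 := by
    funext z
    rw [pd_mul ((T1.coord (i : ι)).c1.differentiable (by norm_num))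
      ((T1.coord (l : ι)).c1.differentiable (by norm_num)), pd_coord, pd_coord, if_neg hki,
      if_neg hkl]
    ring
  rw [e2, CE_const H]
  have hW := H.rown s x
  have hP : T0 (row s (pd k V) x) := (H.t1.pdt0 k).rowt s x
  have hmi : ∀ j : s, CE V s (fun z => z (j : ι)) x = mn (row s V x) j := by
    intro j
    unfold CE mn
    rw [K8a_rowc]
  have e3 : (fun y : s → ℝ => (y i - mn (row s V x) i) * (y l - mn (row s V x) l)) =
      fun y => ((y i * y l - mn (row s V x) l * y i) - mn (row s V x) i * y l) +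
        mn (row s V x) i * mn (row s V x) l := by
    funext y
    ring
  have t1 : T0 (fun y : s → ℝ => y i * y l) := (T0.coord i).mul (T0.coord l)
  have t2 : T0 (fun y : s → ℝ => mn (row s V x) l * y i) := (T0.coord i).cmul _
  have t3 : T0 (fun y : s → ℝ => mn (row s V x) i * y l) := (T0.coord l).cmul _
  rw [e3, cov_addc hW ((t1.sub t2).sub t3) hP, cov_sub hW (t1.sub t2) t3 hP,
    cov_sub hW t1 t2 hP, cov_cmul, cov_cmul]
  have e4 : CC V s (fun z => z (i : ι) * z (l : ι)) (pd k V) x =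
      cov (row s V x) (fun y => y i * y l) (row s (pd k V) x) := by
    unfold CC
    have : row s (fun z => z (i : ι) * z (l : ι)) x = fun y => y i * y l := by
      funext y
      show Function.updateFinset x s y i * Function.updateFinset x s y l = _
      rw [K8a_on, K8a_on]
    rw [this]
  have e5 : ∀ j : s, CC V s (fun z => z (j : ι)) (pd k V) x =
      cov (row s V x) (fun y => y j) (row s (pd k V) x) := by
    intro j
    unfold CC
    rw [K8a_rowc]
  rw [e4, e5, e5, hmi, hmi]
  ring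

private theorem K8a_hs1 (H : Nice κ M V) {s Q : Finset ι} (hQ : Disjoint Q s) {k : ι}
    (hk : k ∈ Q) (x : ι → ℝ) (hM : 0 ≤ M) :
    ∑ i : s, ∑ l : s, cov (row s V x)
      (fun y => (y i - mn (row s V x) i) * (y l - mn (row s V x) l)) (row s (pd k V) x) ^ 2 ≤
      4 * M / κ ^ 2 := by
  have hks : k ∉ s := fun h => (Finset.disjoint_left.1 hQ hk) h
  have hκ := H.kpos
  have hW := H.rown s x
  have hP : T0 (row s (pd k V) x) := (H.t1.pdt0 k).rowt s x
  set B : s → s → ℝ := fun i l => cov (row s V x)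
      (fun y => (y i - mn (row s V x) i) * (y l - mn (row s V x) l)) (row s (pd k V) x) with hB
  have hBs : ∀ i j, B i j = B j i := by
    intro i j
    rw [hB]
    simp only
    congr 1
    funext y
    ring
  have hq := quad_le hW (l := 1 / κ) (C := 1 / κ) (by positivity) (by positivity)
    (CLe_kappa hW) hW.pi hBs
  set S : ℝ := ∑ i, ∑ l, B i l ^ 2 with hS
  have hS0 : 0 ≤ S := Finset.sum_nonneg fun i _ => Finset.sum_nonneg fun l _ => _root_.sq_nonneg _
  have tc : ∀ i : s, T0 (fun y : s → ℝ => y i - mn (row s V x) i) := fun i =>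
    (T0.coord i).sub (T0.const _)
  have tb : ∀ i l : s, T0 (fun y : s → ℝ =>
      B i l * (y i - mn (row s V x) i) * (y l - mn (row s V x) l)) := fun i l =>
    ((tc i).cmul _).mul (tc l)
  have hcov : cov (row s V x) (fun y => ∑ i, ∑ l,
      B i l * (y i - mn (row s V x) i) * (y l - mn (row s V x) l)) (row s (pd k V) x) = S := by
    rw [cov_sum hW Finset.univ (F := fun i y => ∑ l,
      B i l * (y i - mn (row s V x) i) * (y l - mn (row s V x) l))
      (fun i _ => T0.sum Finset.univ fun l _ => tb i l) hP, hS]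
    refine Finset.sum_congr rfl fun i _ => ?_
    rw [cov_sum hW Finset.univ (F := fun l y =>
      B i l * (y i - mn (row s V x) i) * (y l - mn (row s V x) l)) (fun l _ => tb i l) hP]
    refine Finset.sum_congr rfl fun l _ => ?_
    have h3 : (fun y : s → ℝ => B i l * (y i - mn (row s V x) i) * (y l - mn (row s V x) l)) =
        fun y => B i l * ((y i - mn (row s V x) i) * (y l - mn (row s V x) l)) := by
      funext y
      ring
    rw [h3, cov_cmul]
    have h4 : cov (row s V x) (fun y => (y i - mn (row s V x) i) * (y l - mn (row s V x) l))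
        (row s (pd k V) x) = B i l := rfl
    rw [h4]
    ring
  have h5 := cov_cs hW (T0.sum Finset.univ (F := fun i y => ∑ l,
      B i l * (y i - mn (row s V x) i) * (y l - mn (row s V x) l))
      fun i _ => T0.sum Finset.univ fun l _ => tb i l) hP
  rw [hcov] at h5
  have h6 : var (row s V x) (row s (pd k V) x) ≤ M := K8a_grad1 H hks x
  have h7 : 0 ≤ var (row s V x) (row s (pd k V) x) := var_nonneg hW hP
  have h8 : S ^ 2 ≤ (4 * (1 / κ) * (1 / κ) * S) * M :=
    h5.trans (mul_le_mul hq h6 h7 (by positivity))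
  rcases hS0.eq_or_lt with h9 | h9
  · rw [← h9]
    positivity
  · have h10 : S * S ≤ (4 * M / κ ^ 2) * S := by
      calc S * S = S ^ 2 := by ring
        _ ≤ (4 * (1 / κ) * (1 / κ) * S) * M := h8
        _ = (4 * M / κ ^ 2) * S := by
          field_simp
    exact le_of_mul_le_mul_right h10 h9

/-- Paper 325, 8.3 (iv). `∂_k Γ_il = - Cov(ỹ_i ỹ_l, V_k)`; for fixed `k` and `x` the sum over `i, l` of
the squares is at most `4 κ⁻² M` (`quad_le` for the row with `C = l = 1/κ` applied to
`B_il = Cov(ỹ_i ỹ_l, V_k)`, `cov_cs`, `CC_grad_le`). -/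
theorem cov_hs_le (H : Nice κ M V) (h1 : κ ≤ 1) (h2 : 1 ≤ M) {s Q : Finset ι}
    (hQ : Disjoint Q s) (hS : Spl V (Q ∪ s)) :
    ∑ i ∈ s, ∑ l ∈ s, var (MG V s) (CC V s (fun z => z i) (fun z => z l)) ≤
      4 * M / κ ^ 3 * Q.card := by
  have HG := MG_nice H h1 h2 s
  have hκ := H.kpos
  have hM : 0 ≤ M := by linarith
  have ht : ∀ i l : ι, T1 (CC V s (fun z => z i) (fun z => z l)) := fun i l =>
    CC_t1 H (T1.coord i) (T1.coord l) s
  have hdep : ∀ i l : s, Dep Q (CC V s (fun z => z (i : ι)) (fun z => z (l : ι))) := fun i l =>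
    Spl.CC_dep H hQ hS (K8a_depc i.2) (K8a_depc l.2)
  have hgs : ∀ x, ∑ i : s, ∑ l : s, gs (CC V s (fun z => z (i : ι)) (fun z => z (l : ι))) x ≤
      4 * M / κ ^ 2 * Q.card := by
    intro x
    have h3 : ∀ i l : s, gs (CC V s (fun z => z (i : ι)) (fun z => z (l : ι))) x =
        ∑ k ∈ Q, cov (row s V x) (fun y => (y i - mn (row s V x) i) * (y l - mn (row s V x) l))
          (row s (pd k V) x) ^ 2 := by
      intro i l
      rw [K8a_gs (hdep i l)]
      refine Finset.sum_congr rfl fun k hk => ?_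
      rw [K8a_pdG H hQ hk]
      ring
    have h4 : ∑ i : s, ∑ l : s, gs (CC V s (fun z => z (i : ι)) (fun z => z (l : ι))) x =
        ∑ k ∈ Q, ∑ i : s, ∑ l : s, cov (row s V x)
          (fun y => (y i - mn (row s V x) i) * (y l - mn (row s V x) l))
          (row s (pd k V) x) ^ 2 := by
      rw [Finset.sum_comm (s := Q)]
      refine Finset.sum_congr rfl fun i _ => ?_
      rw [Finset.sum_comm (s := Q)]
      exact Finset.sum_congr rfl fun l _ => h3 i l
    rw [h4]
    refine (Finset.sum_le_sum fun k hk => K8a_hs1 H hQ hk x hM).trans (le_of_eq ?_)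
    rw [Finset.sum_const, nsmul_eq_mul]
    ring
  have e1 : ∑ i ∈ s, ∑ l ∈ s, var (MG V s) (CC V s (fun z => z i) (fun z => z l)) =
      ∑ i : s, ∑ l : s, var (MG V s) (CC V s (fun z => z (i : ι)) (fun z => z (l : ι))) := by
    rw [← Finset.sum_coe_sort s]
    refine Finset.sum_congr rfl fun i _ => ?_
    rw [← Finset.sum_coe_sort s]
  rw [e1]
  calc ∑ i : s, ∑ l : s, var (MG V s) (CC V s (fun z => z (i : ι)) (fun z => z (l : ι)))
      ≤ ∑ i : s, ∑ l : s, 1 / κ *
          ex (MG V s) (gs (CC V s (fun z => z (i : ι)) (fun z => z (l : ι)))) :=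
        Finset.sum_le_sum fun i _ => Finset.sum_le_sum fun l _ => HG.pi _ (ht i l)
    _ = 1 / κ * ex (MG V s) (fun x => ∑ i : s, ∑ l : s,
          gs (CC V s (fun z => z (i : ι)) (fun z => z (l : ι))) x) := by
        rw [ex_sum HG Finset.univ (F := fun (i : s) x => ∑ l : s,
          gs (CC V s (fun z => z (i : ι)) (fun z => z (l : ι))) x)
          (fun i _ => T0.sum Finset.univ (F := fun (l : s) =>
            gs (CC V s (fun z => z (i : ι)) (fun z => z (l : ι)))) fun l _ => (ht i l).gst0),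
          Finset.mul_sum]
        refine Finset.sum_congr rfl fun i _ => ?_
        rw [ex_sum HG Finset.univ (F := fun (l : s) =>
            gs (CC V s (fun z => z (i : ι)) (fun z => z (l : ι)))) fun l _ => (ht i l).gst0,
          Finset.mul_sum]
    _ ≤ 1 / κ * ex (MG V s) (fun _ => 4 * M / κ ^ 2 * Q.card) := by
        refine mul_le_mul_of_nonneg_left ?_ (by positivity)
        exact ex_mono HG (T0.sum Finset.univ fun i _ => T0.sum Finset.univ fun l _ =>
          (ht i l).gst0) (T0.const _) hgs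
    _ = 4 * M / κ ^ 3 * Q.card := by
        rw [ex_const HG]
        field_simp

end Pool.Agent.Lib.MP_8d00da_gt.h42k
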