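import Pool.Agent.Lib.MP_8d00da_gt.h42k.K8a

/-!
# Traces of powers of covariance matrices
-/

namespace Pool.Agent.Lib.MP_8d00da_gt.h42k

open MeasureTheory Set Filter Matrix
open scoped Topology NNReal ENNReal ContDiff

set_option linter.unusedSectionVars false
set_option linter.unusedVariables false

variable {ι : Type*} [Fintype ι] [DecidableEq ι]

variable {κ M : ℝ} {V : (ι → ℝ) → ℝ}

private theorem K8b_psd {A : Matrix ι ι ℝ} (hs : A.IsSymm)
    (h0 : ∀ θ : ι → ℝ, 0 ≤ ∑ i, ∑ j, θ i * θ j * A i j) : A.PosSemidef := by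
  have hH : A.IsHermitian := by
    rw [Matrix.IsHermitian, Matrix.conjTranspose_eq_transpose_of_trivial]
    exact hs
  refine Matrix.PosSemidef.of_dotProduct_mulVec_nonneg hH fun x => ?_
  have h1 : star x ⬝ᵥ (A *ᵥ x) = ∑ i, ∑ j, x i * x j * A i j := by
    simp only [dotProduct, mulVec, star_trivial, Finset.mul_sum]
    refine Finset.sum_congr rfl fun i _ => Finset.sum_congr rfl fun j _ => ?_
    ring
  rw [h1]
  exact h0 x

private theorem K8b_diag {A : Matrix ι ι ℝ} (hs : A.IsSymm) :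
    ∃ (U : Matrix ι ι ℝ) (e : ι → ℝ), Uᵀ * U = 1 ∧ U * Uᵀ = 1 ∧ Uᵀ * A * U = diagonal e := by
  have hH : A.IsHermitian := by
    rw [Matrix.IsHermitian, Matrix.conjTranspose_eq_transpose_of_trivial]
    exact hs
  set U : Matrix ι ι ℝ := (hH.eigenvectorUnitary : Matrix ι ι ℝ) with hU
  have h1 : Uᵀ * U = 1 := by
    have := Unitary.coe_star_mul_self hH.eigenvectorUnitary
    rwa [Matrix.star_eq_conjTranspose, Matrix.conjTranspose_eq_transpose_of_trivial] at this
  have h2 : U * Uᵀ = 1 := by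
    exact mul_eq_one_comm.mp h1
  refine ⟨U, hH.eigenvalues, h1, h2, ?_⟩
  have h3 := hH.spectral_theorem
  rw [Unitary.conjStarAlgAut_apply, Matrix.star_eq_conjTranspose,
    Matrix.conjTranspose_eq_transpose_of_trivial, ← hU] at h3
  have h4 : A = U * diagonal hH.eigenvalues * Uᵀ := by
    conv_lhs => rw [h3]
    rfl
  calc Uᵀ * A * U = Uᵀ * (U * diagonal hH.eigenvalues * Uᵀ) * U := by rw [← h4]
    _ = (Uᵀ * U) * diagonal hH.eigenvalues * (Uᵀ * U) := by
      simp only [Matrix.mul_assoc]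
    _ = _ := by rw [h1, Matrix.one_mul, Matrix.mul_one]

private theorem K8b_pow {A U : Matrix ι ι ℝ} (h1 : Uᵀ * U = 1) (h2 : U * Uᵀ = 1) (p : ℕ) :
    Uᵀ * A ^ p * U = (Uᵀ * A * U) ^ p := by
  induction p with
  | zero => rw [pow_zero, pow_zero, Matrix.mul_one, h1]
  | succ p ih =>
    rw [pow_succ, pow_succ, ← ih]
    calc Uᵀ * (A ^ p * A) * U = Uᵀ * A ^ p * 1 * A * U := by
          simp only [Matrix.mul_assoc, Matrix.one_mul]
      _ = Uᵀ * A ^ p * (U * Uᵀ) * A * U := by rw [h2]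
      _ = _ := by simp only [Matrix.mul_assoc]

private theorem K8b_tr {C U : Matrix ι ι ℝ} (h2 : U * Uᵀ = 1) : (Uᵀ * C * U).trace = C.trace := by
  rw [Matrix.trace_mul_comm, ← Matrix.mul_assoc, h2, Matrix.one_mul]

private theorem K8b_hs (C : Matrix ι ι ℝ) : (Cᵀ * C).trace = ∑ i, ∑ j, C i j ^ 2 := by
  simp only [Matrix.trace, Matrix.diag, Matrix.mul_apply, Matrix.transpose_apply]
  rw [Finset.sum_comm]
  exact Finset.sum_congr rfl fun i _ => Finset.sum_congr rfl fun j _ => by ring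

private theorem K8b_ii (C U : Matrix ι ι ℝ) (k : ι) :
    (Uᵀ * C * U) k k = ∑ i, ∑ j, U i k * U j k * C i j := by
  simp only [Matrix.mul_apply, Matrix.transpose_apply, Finset.sum_mul]
  rw [Finset.sum_comm]
  exact Finset.sum_congr rfl fun i _ => Finset.sum_congr rfl fun j _ => by ring

/-- Deterministic lemma. `Γ`, `Γ0` symmetric, `0 ≤ Γ ≤ b`, `θᵀΓ0θ ≤ a|θ|²`, `a > 0`:
`Tr Γ^p ≤ (2a)^p n + b^p |Γ - Γ0|²/a²`. (Eigenbasis of `Γ`: the eigenvalues `> 2a` satisfy
`e·(Γ - Γ0)e ≥ a`.) -/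
theorem trace_pow_le {A A0 : Matrix ι ι ℝ} {a b : ℝ} (ha : 0 < a) (hb : 0 ≤ b)
    (hs : A.IsSymm) (hs0 : A0.IsSymm)
    (h0 : ∀ θ : ι → ℝ, 0 ≤ ∑ i, ∑ j, θ i * θ j * A i j)
    (h1 : ∀ θ : ι → ℝ, ∑ i, ∑ j, θ i * θ j * A i j ≤ b * sq θ)
    (h2 : ∀ θ : ι → ℝ, ∑ i, ∑ j, θ i * θ j * A0 i j ≤ a * sq θ) {p : ℕ} (hp : 1 ≤ p) :
    (A ^ p).trace ≤ (2 * a) ^ p * Fintype.card ι + b ^ p * (∑ i, ∑ j, (A i j - A0 i j) ^ 2) / a ^ 2 := by
  obtain ⟨U, e, hU1, hU2, hD⟩ := K8b_diag hs
  have hu : ∀ k, sq (fun i => U i k) = 1 := by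
    intro k
    have : (Uᵀ * U) k k = 1 := by rw [hU1]; simp
    rw [Matrix.mul_apply] at this
    rw [← this]
    exact Finset.sum_congr rfl fun i _ => by rw [Matrix.transpose_apply]; ring
  have he : ∀ k, e k = ∑ i, ∑ j, U i k * U j k * A i j := by
    intro k
    rw [← K8b_ii, hD, Matrix.diagonal_apply_eq]
  have he0 : ∀ k, 0 ≤ e k := fun k => by rw [he]; exact h0 _
  have heb : ∀ k, e k ≤ b := fun k => by
    rw [he]
    have := h1 (fun i => U i k)
    rwa [hu, mul_one] at this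
  have htr : (A ^ p).trace = ∑ k, e k ^ p := by
    rw [← K8b_tr (C := A ^ p) hU2, K8b_pow hU1 hU2, hD, Matrix.diagonal_pow, Matrix.trace_diagonal]
    rfl
  set B : Matrix ι ι ℝ := A - A0 with hB
  set C : Matrix ι ι ℝ := Uᵀ * B * U with hC
  have hCC : ∑ i, ∑ j, C i j ^ 2 = ∑ i, ∑ j, (A i j - A0 i j) ^ 2 := by
    have e1 : ∑ i, ∑ j, (A i j - A0 i j) ^ 2 = ∑ i, ∑ j, B i j ^ 2 := rfl
    rw [e1, ← K8b_hs, ← K8b_hs, ← K8b_tr (C := Bᵀ * B) hU2]
    congr 1
    rw [hC, Matrix.transpose_mul, Matrix.transpose_mul, Matrix.transpose_transpose]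
    calc Uᵀ * (Bᵀ * U) * (Uᵀ * B * U) = Uᵀ * Bᵀ * (U * Uᵀ) * B * U := by
          simp only [Matrix.mul_assoc]
      _ = _ := by
        rw [hU2]
        simp only [Matrix.mul_assoc, Matrix.one_mul]
  have hCk : ∀ k, e k - a ≤ C k k := by
    intro k
    have e1 : C k k = e k - ∑ i, ∑ j, U i k * U j k * A0 i j := by
      rw [hC, hB, Matrix.mul_sub, Matrix.sub_mul, Matrix.sub_apply, hD, Matrix.diagonal_apply_eq,
        K8b_ii]
    have e2 := h2 (fun i => U i k)
    rw [hu, mul_one] at e2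
    rw [e1]
    linarith
  have ha2 : (0 : ℝ) < a ^ 2 := by positivity
  have hk : ∀ k, e k ^ p ≤ (2 * a) ^ p + b ^ p * (∑ j, C k j ^ 2) / a ^ 2 := by
    intro k
    have hS : 0 ≤ ∑ j, C k j ^ 2 := Finset.sum_nonneg fun j _ => _root_.sq_nonneg _
    have hbp : 0 ≤ b ^ p := pow_nonneg hb p
    rcases le_or_gt (e k) (2 * a) with h | h
    · have e1 : e k ^ p ≤ (2 * a) ^ p := pow_le_pow_left₀ (he0 k) h p
      have e2 : 0 ≤ b ^ p * (∑ j, C k j ^ 2) / a ^ 2 := by positivity
      linarith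
    · have e1 : e k ^ p ≤ b ^ p := pow_le_pow_left₀ (he0 k) (heb k) p
      have e2 : a ≤ C k k := by linarith [hCk k]
      have e3 : a ^ 2 ≤ ∑ j, C k j ^ 2 := by
        calc a ^ 2 ≤ C k k ^ 2 := pow_le_pow_left₀ ha.le e2 2
          _ ≤ ∑ j, C k j ^ 2 :=
            Finset.single_le_sum (f := fun j => C k j ^ 2) (fun j _ => _root_.sq_nonneg _) (Finset.mem_univ k)
      have e4 : b ^ p ≤ b ^ p * (∑ j, C k j ^ 2) / a ^ 2 := by
        rw [le_div_iff₀ ha2]
        exact mul_le_mul_of_nonneg_left e3 hbp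
      have e5 : 0 ≤ (2 * a) ^ p := by positivity
      linarith
  rw [htr]
  refine (Finset.sum_le_sum fun k _ => hk k).trans (le_of_eq ?_)
  rw [Finset.sum_add_distrib, Finset.sum_const, Finset.card_univ, nsmul_eq_mul, ← Finset.sum_div,
    ← Finset.mul_sum, hCC]
  ring

theorem trace_pow_nonneg {A : Matrix ι ι ℝ} (hs : A.IsSymm)
    (h0 : ∀ θ : ι → ℝ, 0 ≤ ∑ i, ∑ j, θ i * θ j * A i j) (p : ℕ) : 0 ≤ (A ^ p).trace :=
  ((K8b_psd hs h0).pow p).trace_nonneg


private theorem K8b_rowc (x : ι → ℝ) (s : Finset ι) (i : s) :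
    row s (fun z => z (i : ι)) x = fun y => y i := by
  funext y
  simp [row, Function.updateFinset]

private theorem K8b_cm (s : Finset ι) (x : ι → ℝ) (i j : s) :
    CM (row s V x) i j = CC V s (fun z => z (i : ι)) (fun z => z (j : ι)) x := by
  unfold CC
  rw [K8b_rowc, K8b_rowc]
  rfl

private theorem K8b_pent {α : Type*} [Fintype α] [DecidableEq α] {G : (ι → ℝ) → Matrix α α ℝ}
    (hG : ∀ i j, T0 (fun x => G x i j)) (p : ℕ) : ∀ i j, T0 (fun x => (G x ^ p) i j) := by
  induction p with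
  | zero =>
    intro i j
    simp only [pow_zero]
    exact T0.const _
  | succ p ih =>
    intro i j
    simp only [pow_succ, Matrix.mul_apply]
    exact T0.sum Finset.univ (F := fun k x => (G x ^ p) i k * G x k j)
      fun k _ => (ih i k).mul (hG k j)

/-- The entries of the covariance matrix of a row are conditional covariances; the trace of a power is a `T0`
function which depends only on `Q`. -/
theorem tr_t0 (H : Nice κ M V) (s : Finset ι) (p : ℕ) :
    T0 (fun x => ((CM (row s V x)) ^ p).trace) := by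
  have h1 : ∀ i j : s, T0 (fun x => CM (row s V x) i j) := by
    intro i j
    simp only [K8b_cm]
    exact CC_t0 H (T0.coord _) (T0.coord _) s
  have h2 := K8b_pent (G := fun x => CM (row s V x)) h1 p
  simp only [Matrix.trace, Matrix.diag]
  exact T0.sum Finset.univ (F := fun i x => (CM (row s V x) ^ p) i i) fun i _ => h2 i i

private theorem K8b_depc {s Q : Finset ι} {i : ι} (hi : i ∈ s) :
    Dep (Q ∪ s) (fun z : ι → ℝ => z i) := fun x x' hx => hx i (Finset.mem_union_right _ hi)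

private theorem K8b_symm {α : Type*} [Fintype α] [DecidableEq α] (W : (α → ℝ) → ℝ) :
    (CM W).IsSymm := by
  ext i j
  exact CM_symm W j i

private theorem K8b_tot (H : Nice κ M V) (h1 : κ ≤ 1) (h2 : 1 ≤ M) (s : Finset ι)
    {f : (ι → ℝ) → ℝ} (hf : T0 f) : ex (MG V s) (CC V s f f) ≤ var V f := by
  have HG := MG_nice H h1 h2 s
  have e1 : CC V s f f = fun x => CE V s (fun z => f z ^ 2) x - CE V s f x ^ 2 := by
    funext x
    rw [CC_eq]
    have : (fun z => f z * f z) = fun z => f z ^ 2 := by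
      funext z
      ring
    rw [this]
    ring
  rw [e1, ex_sub HG (CE_t0 H (hf.pow 2) s) ((CE_t0 H hf s).pow 2), tower H h1 h2 s (hf.pow 2),
    var_eq', ← tower H h1 h2 s hf]
  have e2 := ex_sq_le HG (CE_t0 H hf s)
  linarith

theorem tr_dep (H : Nice κ M V) {s Q : Finset ι} (hQ : Disjoint Q s) (hS : Spl V (Q ∪ s)) (p : ℕ) :
    Dep Q (fun x => ((CM (row s V x)) ^ p).trace) := by
  intro x x' hx
  have h1 : CM (row s V x) = CM (row s V x') := by
    ext i j
    rw [K8b_cm, K8b_cm]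
    exact Spl.CC_dep H hQ hS (K8b_depc i.2) (K8b_depc j.2) x x' hx
  show ((CM (row s V x)) ^ p).trace = ((CM (row s V x')) ^ p).trace
  rw [h1]

theorem tr_nonneg (H : Nice κ M V) (s : Finset ι) (p : ℕ) (x : ι → ℝ) :
    0 ≤ ((CM (row s V x)) ^ p).trace := by
  refine trace_pow_nonneg (K8b_symm _) (fun θ => ?_) p
  rw [← var_dt (H.rown s x)]
  exact var_nonneg (H.rown s x) (T0.dtf θ)

/-- Paper 325, 8.4: `A0 = E Γ ≤ Cov(V) ≤ a` on the coordinates of `s` (law of total covariance). -/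
theorem tr_pow_le (H : Nice κ M V) (h1 : κ ≤ 1) (h2 : 1 ≤ M) {s Q : Finset ι}
    (hQ : Disjoint Q s) (hS : Spl V (Q ∪ s)) {a : ℝ} (ha : 0 < a) (hC : CLe V a) {p : ℕ}
    (hp : 1 ≤ p) :
    ex (MG V s) (fun x => ((CM (row s V x)) ^ p).trace) ≤
      (2 * a) ^ p * s.card + 4 * M / κ ^ (p + 3) / a ^ 2 * Q.card := by
  have HG := MG_nice H h1 h2 s
  have hκ := H.kpos
  set A0 : Matrix s s ℝ := Matrix.of fun i j =>
    ex (MG V s) (CC V s (fun z => z (i : ι)) (fun z => z (j : ι))) with hA0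
  have ht0 : ∀ i j : s, T0 (CC V s (fun z => z (i : ι)) (fun z => z (j : ι))) := fun i j =>
    CC_t0 H (T0.coord _) (T0.coord _) s
  have hs0 : A0.IsSymm := by
    ext i j
    show ex (MG V s) (CC V s (fun z => z (j : ι)) (fun z => z (i : ι))) =
      ex (MG V s) (CC V s (fun z => z (i : ι)) (fun z => z (j : ι)))
    congr 1
    funext x
    exact cov_comm _ _ _
  have hq0 : ∀ θ : s → ℝ, ∑ i, ∑ j, θ i * θ j * A0 i j ≤ a * sq θ := by
    intro θ
    set θ' : ι → ℝ := fun i => if h : i ∈ s then θ ⟨i, h⟩ else 0 with hθ'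
    have e0 : ∀ i : s, θ' i = θ i := fun i => by
      rw [hθ']
      simp
    have eoff : ∀ i, i ∉ s → θ' i = 0 := fun i hi => by
      rw [hθ']
      simp [hi]
    have esum : ∀ F : ι → ℝ, (∀ i, i ∉ s → F i = 0) → ∑ i, F i = ∑ i : s, F i := by
      intro F hF
      rw [Finset.sum_coe_sort s F]
      exact (Finset.sum_subset (Finset.subset_univ s) fun i _ hi => hF i hi).symm
    have e1 : sq θ' = sq θ := by
      unfold sq
      rw [esum (fun i => θ' i ^ 2) fun i hi => by rw [eoff i hi]; norm_num]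
      exact Finset.sum_congr rfl fun i _ => by rw [e0]
    have e2 : ∀ x, CC V s (dt θ') (dt θ') x =
        ∑ i, ∑ j, θ i * θ j * CC V s (fun z => z (i : ι)) (fun z => z (j : ι)) x := by
      intro x
      have e4 : row s (dt θ') x = dt θ := by
        funext y
        show ∑ i, θ' i * Function.updateFinset x s y i = ∑ i, θ i * y i
        rw [esum (fun i => θ' i * Function.updateFinset x s y i) fun i hi => by
          rw [eoff i hi, zero_mul]]
        refine Finset.sum_congr rfl fun i _ => ?_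
        rw [e0]
        simp [Function.updateFinset]
      have e5 : CC V s (dt θ') (dt θ') x = var (row s V x) (fun y => dt θ y) := by
        unfold CC
        rw [e4]
        rfl
      rw [e5, var_dt (H.rown s x)]
      refine Finset.sum_congr rfl fun i _ => Finset.sum_congr rfl fun j _ => ?_
      rw [K8b_cm]
    have e3 : ∑ i, ∑ j, θ i * θ j * A0 i j = ex (MG V s) (CC V s (dt θ') (dt θ')) := by
      have e6 : CC V s (dt θ') (dt θ') = fun x =>
          ∑ i, ∑ j, θ i * θ j * CC V s (fun z => z (i : ι)) (fun z => z (j : ι)) x := funext e2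
      rw [e6, ex_sum HG Finset.univ (F := fun (i : s) x => ∑ j : s,
        θ i * θ j * CC V s (fun z => z (i : ι)) (fun z => z (j : ι)) x)
        (fun i _ => T0.sum Finset.univ (F := fun (j : s) x =>
          θ i * θ j * CC V s (fun z => z (i : ι)) (fun z => z (j : ι)) x)
          fun j _ => (ht0 i j).cmul _)]
      refine Finset.sum_congr rfl fun i _ => ?_
      rw [ex_sum HG Finset.univ (F := fun (j : s) x =>
          θ i * θ j * CC V s (fun z => z (i : ι)) (fun z => z (j : ι)) x)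
          fun j _ => (ht0 i j).cmul _]
      refine Finset.sum_congr rfl fun j _ => ?_
      rw [ex_cmul]
      rfl
    rw [e3, ← e1]
    exact (K8b_tot H h1 h2 s (T0.dtf θ')).trans (hC θ')
  have hpt : ∀ x, ((CM (row s V x)) ^ p).trace ≤ (2 * a) ^ p * s.card +
      (1 / κ) ^ p * (∑ i : s, ∑ j : s, (CC V s (fun z => z (i : ι)) (fun z => z (j : ι)) x -
        A0 i j) ^ 2) / a ^ 2 := by
    intro x
    have e1 := trace_pow_le (A := CM (row s V x)) (A0 := A0) (a := a) (b := 1 / κ) ha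
      (by positivity) (K8b_symm _) hs0 (fun θ => by
        rw [← var_dt (H.rown s x)]
        exact var_nonneg (H.rown s x) (T0.dtf θ))
      (fun θ => by
        rw [← var_dt (H.rown s x)]
        exact CLe_kappa (H.rown s x) θ) hq0 hp
    simp only [K8b_cm, Fintype.card_coe] at e1
    exact e1
  have hTd : ∀ i j : s, T0 (fun x => (CC V s (fun z => z (i : ι)) (fun z => z (j : ι)) x -
      A0 i j) ^ 2) := fun i j => ((ht0 i j).sub (T0.const _)).pow 2
  have hTs : T0 (fun x => ∑ i : s, ∑ j : s, (CC V s (fun z => z (i : ι)) (fun z => z (j : ι)) x -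
      A0 i j) ^ 2) :=
    T0.sum Finset.univ (F := fun (i : s) x => ∑ j : s,
      (CC V s (fun z => z (i : ι)) (fun z => z (j : ι)) x - A0 i j) ^ 2)
      fun i _ => T0.sum Finset.univ (F := fun (j : s) x =>
        (CC V s (fun z => z (i : ι)) (fun z => z (j : ι)) x - A0 i j) ^ 2) fun j _ => hTd i j
  have hS2 : ex (MG V s) (fun x => ∑ i : s, ∑ j : s,
      (CC V s (fun z => z (i : ι)) (fun z => z (j : ι)) x - A0 i j) ^ 2) ≤
      4 * M / κ ^ 3 * Q.card := by
    rw [ex_sum HG Finset.univ (F := fun (i : s) x => ∑ j : s,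
      (CC V s (fun z => z (i : ι)) (fun z => z (j : ι)) x - A0 i j) ^ 2)
      fun i _ => T0.sum Finset.univ (F := fun (j : s) x =>
        (CC V s (fun z => z (i : ι)) (fun z => z (j : ι)) x - A0 i j) ^ 2) fun j _ => hTd i j]
    refine le_trans (le_of_eq ?_) (cov_hs_le H h1 h2 hQ hS)
    rw [← Finset.sum_coe_sort s]
    refine Finset.sum_congr rfl fun i _ => ?_
    rw [← Finset.sum_coe_sort s, ex_sum HG Finset.univ (F := fun (j : s) x =>
        (CC V s (fun z => z (i : ι)) (fun z => z (j : ι)) x - A0 i j) ^ 2) fun j _ => hTd i j]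
    refine Finset.sum_congr rfl fun j _ => ?_
    rw [var_eq HG (ht0 i j)]
    rfl
  calc ex (MG V s) (fun x => ((CM (row s V x)) ^ p).trace)
      ≤ ex (MG V s) (fun x => (2 * a) ^ p * s.card +
        (1 / κ) ^ p / a ^ 2 * (∑ i : s, ∑ j : s,
          (CC V s (fun z => z (i : ι)) (fun z => z (j : ι)) x - A0 i j) ^ 2)) := by
        refine ex_mono HG (tr_t0 H s p) ((T0.const _).add (hTs.cmul _)) fun x => ?_
        refine (hpt x).trans (le_of_eq ?_)
        ring
    _ = (2 * a) ^ p * s.card + (1 / κ) ^ p / a ^ 2 * ex (MG V s) (fun x => ∑ i : s, ∑ j : s,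
          (CC V s (fun z => z (i : ι)) (fun z => z (j : ι)) x - A0 i j) ^ 2) := by
        rw [ex_add HG (T0.const _) (hTs.cmul _), ex_const HG, ex_cmul]
    _ ≤ (2 * a) ^ p * s.card + (1 / κ) ^ p / a ^ 2 * (4 * M / κ ^ 3 * Q.card) := by
        have e7 : 0 ≤ (1 / κ) ^ p / a ^ 2 := by positivity
        have e8 := mul_le_mul_of_nonneg_left hS2 e7
        linarith
    _ = _ := by
        have e9 : (1 / κ) ^ p / a ^ 2 * (4 * M / κ ^ 3 * Q.card) =
            4 * M / κ ^ (p + 3) / a ^ 2 * Q.card := by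
          rw [one_div, inv_pow, pow_add]
          field_simp
        rw [e9]

end Pool.Agent.Lib.MP_8d00da_gt.h42k
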