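import Pool.Agent.Lib.MP_8d00da_gt.h42k.K8a

/-!
# Chains of marginals
-/

namespace Pool.Agent.Lib.MP_8d00da_gt.h42k

open MeasureTheory Set Filter
open scoped Topology NNReal ENNReal ContDiff

set_option linter.unusedSectionVars false
set_option linter.unusedVariables false

variable {ι : Type*} [Fintype ι] [DecidableEq ι]

variable {κ M : ℝ} {V : (ι → ℝ) → ℝ}

/-- A chain of marginals: `Vc j` is the marginal on the coordinates `P j = b 0 ∪ … ∪ b (j-1)`, times a
standard Gaussian in the other coordinates. -/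
structure Chn (κ M : ℝ) (J : ℕ) (b P : ℕ → Finset ι) (Vc : ℕ → (ι → ℝ) → ℝ) : Prop where
  k1 : κ ≤ 1
  m1 : 1 ≤ M
  nice : ∀ j ≤ J, Nice κ M (Vc j)
  step : ∀ j < J, Vc j = MG (Vc (j + 1)) (b j)
  P0 : P 0 = ∅
  Ps : ∀ j < J, P (j + 1) = P j ∪ b j
  disj : ∀ j < J, Disjoint (P j) (b j)
  spl : ∀ j ≤ J, Spl (Vc j) (P j)

/-- Downward induction. -/
private theorem K8c_ind {J : ℕ} {p : ℕ → Prop} (h0 : p J) (hs : ∀ i < J, p (i + 1) → p i)
    {i : ℕ} (hi : i ≤ J) : p i := by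
  obtain ⟨k, rfl⟩ := Nat.exists_eq_add_of_le hi
  clear hi
  induction k generalizing i with
  | zero => exact h0
  | succ k ih =>
    refine hs i (by omega) (ih (i := i + 1) ?_ fun j hj => hs j (by omega))
    have e : i + 1 + k = i + (k + 1) := by omega
    rw [e]
    exact h0

/-- The chain, indexed from the top. -/
private noncomputable def K8c_W (V : (ι → ℝ) → ℝ) (J : ℕ) (b : ℕ → Finset ι) (s : Finset ι) :
    ℕ → (ι → ℝ) → ℝ
  | 0 => MG V s
  | k + 1 => MG (K8c_W V J b s k) (b (J - k - 1))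

/-- Existence: start with `Vc J = MG V (P J)ᶜ`. -/
theorem exists_Chn (H : Nice κ M V) (h1 : κ ≤ 1) (h2 : 1 ≤ M) (J : ℕ) (b : ℕ → Finset ι)
    (hb : ∀ i j, i < J → j < J → i ≠ j → Disjoint (b i) (b j)) :
    ∃ (P : ℕ → Finset ι) (Vc : ℕ → (ι → ℝ) → ℝ), Chn κ M J b P Vc ∧
      (∀ j ≤ J, P j = (Finset.range j).biUnion b) ∧
      ∀ f, T0 f → Dep (P J) f → ex (Vc J) f = ex V f := by
  let P : ℕ → Finset ι := fun j => (Finset.range j).biUnion b
  let Vc : ℕ → (ι → ℝ) → ℝ := fun j => K8c_W V J b (P J)ᶜ (J - j)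
  have hP0 : P 0 = ∅ := by simp [P]
  have hPs : ∀ j, P (j + 1) = P j ∪ b j := by
    intro j
    show (Finset.range (j + 1)).biUnion b = (Finset.range j).biUnion b ∪ b j
    rw [Finset.range_add_one, Finset.biUnion_insert, Finset.union_comm]
  have hdisj : ∀ j < J, Disjoint (P j) (b j) := by
    intro j hj
    rw [Finset.disjoint_biUnion_left]
    intro i hi
    have hi' : i < j := Finset.mem_range.1 hi
    exact hb i j (by omega) hj (by omega)
  have hstep : ∀ j < J, Vc j = MG (Vc (j + 1)) (b j) := by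
    intro j hj
    have e1 : J - j = (J - (j + 1)) + 1 := by omega
    have e2 : J - (J - (j + 1)) - 1 = j := by omega
    show K8c_W V J b (P J)ᶜ (J - j) = MG (K8c_W V J b (P J)ᶜ (J - (j + 1))) (b j)
    rw [e1]
    show MG (K8c_W V J b (P J)ᶜ (J - (j + 1))) (b (J - (J - (j + 1)) - 1)) = _
    rw [e2]
  have hJ : Vc J = MG V (P J)ᶜ := by
    show K8c_W V J b (P J)ᶜ (J - J) = _
    rw [Nat.sub_self]
    rfl
  have hnice : ∀ j ≤ J, Nice κ M (Vc j) := by
    intro j hj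
    refine K8c_ind (p := fun j => Nice κ M (Vc j)) ?_ ?_ hj
    · show Nice κ M (Vc J)
      rw [hJ]
      exact MG_nice H h1 h2 _
    · intro i hi ih
      show Nice κ M (Vc i)
      rw [hstep i hi]
      exact MG_nice ih h1 h2 _
  have hspl : ∀ j ≤ J, Spl (Vc j) (P j) := by
    intro j hj
    refine K8c_ind (p := fun j => Spl (Vc j) (P j)) ?_ ?_ hj
    · show Spl (Vc J) (P J)
      rw [hJ]
      refine Spl.MG H (Finset.disjoint_left.2 fun i hi hi' => (Finset.mem_compl.1 hi') hi) ?_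
      rw [Finset.union_compl]
      refine ⟨V, fun _ => 0, fun x => (add_zero _).symm, fun x x' hx => ?_, fun _ _ _ => rfl⟩
      rw [funext fun i => hx i (Finset.mem_univ i)]
    · intro i hi ih
      show Spl (Vc i) (P i)
      rw [hstep i hi]
      refine Spl.MG (hnice (i + 1) hi) (hdisj i hi) ?_
      rw [← hPs]
      exact ih
  refine ⟨P, Vc, ⟨h1, h2, hnice, hstep, hP0, fun j _ => hPs j, hdisj, hspl⟩,
    fun j _ => rfl, fun f hf hd => ?_⟩
  rw [hJ]
  refine tower_dep H h1 h2 _ hf ?_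
  rw [compl_compl]
  exact hd

/-- The conditional expectation from level `J` to level `J - k`. -/
noncomputable def PEk (J : ℕ) (b : ℕ → Finset ι) (Vc : ℕ → (ι → ℝ) → ℝ) :
    ℕ → ((ι → ℝ) → ℝ) → (ι → ℝ) → ℝ
  | 0, f => f
  | k + 1, f => CE (Vc (J - k)) (b (J - k - 1)) (PEk J b Vc k f)

/-- The conditional expectation given the coordinates in `P i`. -/
noncomputable def PE (J : ℕ) (b : ℕ → Finset ι) (Vc : ℕ → (ι → ℝ) → ℝ) (i : ℕ)
    (f : (ι → ℝ) → ℝ) : (ι → ℝ) → ℝ := PEk J b Vc (J - i) f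

variable {J : ℕ} {b P : ℕ → Finset ι} {Vc : ℕ → (ι → ℝ) → ℝ} {f g : (ι → ℝ) → ℝ}

theorem PE_top (f : (ι → ℝ) → ℝ) : PE J b Vc J f = f := by
  unfold PE
  rw [Nat.sub_self]
  rfl

theorem PE_step {i : ℕ} (hi : i < J) (f : (ι → ℝ) → ℝ) :
    PE J b Vc i f = CE (Vc (i + 1)) (b i) (PE J b Vc (i + 1) f) := by
  have e1 : J - i = (J - (i + 1)) + 1 := by omega
  have e2 : J - (J - (i + 1)) = i + 1 := by omega
  unfold PE
  rw [e1]
  show CE (Vc (J - (J - (i + 1)))) (b (J - (J - (i + 1)) - 1)) (PEk J b Vc (J - (i + 1)) f) = _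
  rw [e2, Nat.add_sub_cancel]

theorem Chn.PE_t0 (hc : Chn κ M J b P Vc) {i : ℕ} (hi : i ≤ J) (hf : T0 f) :
    T0 (PE J b Vc i f) := by
  refine K8c_ind (p := fun i => T0 (PE J b Vc i f)) ?_ ?_ hi
  · show T0 (PE J b Vc J f)
    rw [PE_top]
    exact hf
  · intro i hi ih
    show T0 (PE J b Vc i f)
    rw [PE_step hi]
    exact CE_t0 (hc.nice (i + 1) hi) ih (b i)

theorem Chn.PE_dep (hc : Chn κ M J b P Vc) {i : ℕ} (hi : i ≤ J) (hf : Dep (P J) f) :
    Dep (P i) (PE J b Vc i f) := by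
  refine K8c_ind (p := fun i => Dep (P i) (PE J b Vc i f)) ?_ ?_ hi
  · show Dep (P J) (PE J b Vc J f)
    rw [PE_top]
    exact hf
  · intro i hi ih
    show Dep (P i) (PE J b Vc i f)
    rw [PE_step hi]
    have h1 := hc.spl (i + 1) hi
    rw [hc.Ps i hi] at h1
    have ih' : Dep (P (i + 1)) (PE J b Vc (i + 1) f) := ih
    rw [hc.Ps i hi] at ih'
    exact Spl.CE_dep (hc.nice (i + 1) hi) (hc.disj i hi) h1 ih'

theorem Chn.P_mono (hc : Chn κ M J b P Vc) {i j : ℕ} (hij : i ≤ j) (hj : j ≤ J) :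
    P i ⊆ P j := by
  induction j with
  | zero =>
    have : i = 0 := by omega
    rw [this]
  | succ j ih =>
    rcases Nat.lt_or_ge i (j + 1) with h | h
    · refine (ih (by omega) (by omega)).trans ?_
      rw [hc.Ps j (by omega)]
      exact Finset.subset_union_left
    · have : i = j + 1 := by omega
      rw [this]

theorem Chn.PE_of_dep (hc : Chn κ M J b P Vc) {i : ℕ} (hi : i ≤ J) (hf : Dep (P i) f) :
    PE J b Vc i f = f := by
  revert hf
  refine K8c_ind (p := fun i => Dep (P i) f → PE J b Vc i f = f) ?_ ?_ hi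
  · exact fun _ => PE_top f
  · intro i hi ih hf
    rw [PE_step hi, ih (hf.mono (hc.P_mono (Nat.le_succ i) hi))]
    refine CE_of_dep (hc.nice (i + 1) hi) (b i) (hf.mono fun k hk => ?_)
    rw [Finset.mem_compl]
    exact Finset.disjoint_left.1 (hc.disj i hi) hk

theorem Chn.PE_add (hc : Chn κ M J b P Vc) {i : ℕ} (hi : i ≤ J) (hf : T0 f) (hg : T0 g)
    (x : ι → ℝ) :
    PE J b Vc i (fun x => f x + g x) x = PE J b Vc i f x + PE J b Vc i g x := by
  revert x
  refine K8c_ind (p := fun i => ∀ x, PE J b Vc i (fun x => f x + g x) x =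
    PE J b Vc i f x + PE J b Vc i g x) ?_ ?_ hi
  · intro x
    rw [PE_top, PE_top, PE_top]
  · intro i hi ih x
    rw [PE_step hi, PE_step hi, PE_step hi, funext ih]
    exact CE_add (hc.nice (i + 1) hi) (b i) (hc.PE_t0 hi hf) (hc.PE_t0 hi hg) x

theorem Chn.PE_cmul (c : ℝ) (i : ℕ) (f : (ι → ℝ) → ℝ) (x : ι → ℝ) :
    PE J b Vc i (fun x => c * f x) x = c * PE J b Vc i f x := by
  have h : ∀ (k : ℕ) (x : ι → ℝ),
      PEk J b Vc k (fun x => c * f x) x = c * PEk J b Vc k f x := by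
    intro k
    induction k with
    | zero => exact fun x => rfl
    | succ k ih =>
      intro x
      show CE (Vc (J - k)) (b (J - k - 1)) (PEk J b Vc k fun x => c * f x) x = _
      rw [funext ih]
      exact CE_cmul _ _ _ _ _
  exact h _ x

theorem Chn.PE_mul_dep (hc : Chn κ M J b P Vc) {i : ℕ} (hi : i ≤ J) (hf : Dep (P i) f)
    (hgt : T0 g) (hft : T0 f) (x : ι → ℝ) :
    PE J b Vc i (fun x => f x * g x) x = f x * PE J b Vc i g x := by
  revert x hf
  refine K8c_ind (p := fun i => Dep (P i) f → ∀ x, PE J b Vc i (fun x => f x * g x) x =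
    f x * PE J b Vc i g x) ?_ ?_ hi
  · intro _ x
    rw [PE_top, PE_top]
  · intro i hi ih hf x
    rw [PE_step hi, PE_step hi, funext (ih (hf.mono (hc.P_mono (Nat.le_succ i) hi)))]
    refine CE_mul_dep _ (b i) (hf.mono fun k hk => ?_) x
    rw [Finset.mem_compl]
    exact Finset.disjoint_left.1 (hc.disj i hi) hk

/-- Tower property between levels. -/
theorem Chn.PE_PE (hc : Chn κ M J b P Vc) {i j : ℕ} (hi : i ≤ J) (hj : j ≤ J) (hf : T0 f)
    (hd : Dep (P J) f) : PE J b Vc i (PE J b Vc j f) = PE J b Vc (min i j) f := by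
  rcases le_total j i with h | h
  · rw [min_eq_right h]
    exact hc.PE_of_dep hi ((hc.PE_dep hj hd).mono (hc.P_mono h hi))
  · rw [min_eq_left h]
    refine K8c_ind (p := fun i => PE J b Vc i (PE J b Vc j f) = PE J b Vc i f) ?_ ?_ h
    · exact hc.PE_of_dep hj (hc.PE_dep hj hd)
    · intro i hi ih
      have hi' : i < J := by omega
      show PE J b Vc i (PE J b Vc j f) = PE J b Vc i f
      rw [PE_step hi', ih, ← PE_step hi']

theorem Chn.ex_PE (hc : Chn κ M J b P Vc) {i : ℕ} (hi : i ≤ J) (hf : T0 f) :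
    ex (Vc i) (PE J b Vc i f) = ex (Vc J) f := by
  refine K8c_ind (p := fun i => ex (Vc i) (PE J b Vc i f) = ex (Vc J) f) ?_ ?_ hi
  · show ex (Vc J) (PE J b Vc J f) = _
    rw [PE_top]
  · intro i hi ih
    show ex (Vc i) (PE J b Vc i f) = ex (Vc J) f
    rw [hc.step i hi, PE_step hi, tower (hc.nice (i + 1) hi) hc.k1 hc.m1 (b i) (hc.PE_t0 hi hf)]
    exact ih

theorem Chn.ex_dep (hc : Chn κ M J b P Vc) {i : ℕ} (hi : i ≤ J) (hf : T0 f) (hd : Dep (P i) f) :
    ex (Vc J) f = ex (Vc i) f := by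
  rw [← hc.ex_PE hi hf, hc.PE_of_dep hi hd]

theorem Chn.ex_level (hc : Chn κ M J b P Vc) {i j : ℕ} (hi : i ≤ j) (hj : j ≤ J) (hf : T0 f)
    (hd : Dep (P i) f) : ex (Vc j) f = ex (Vc i) f := by
  rw [← hc.ex_dep (hi.trans hj) hf hd, ← hc.ex_dep hj hf (hd.mono (hc.P_mono hi hj))]

theorem Chn.PE_symm (hc : Chn κ M J b P Vc) {i : ℕ} (hi : i ≤ J) (hf : T0 f) (hg : T0 g)
    (hfd : Dep (P J) f) (hgd : Dep (P J) g) :
    ex (Vc J) (fun x => PE J b Vc i f x * g x) =
      ex (Vc J) (fun x => f x * PE J b Vc i g x) := by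
  have key : ∀ {f g : (ι → ℝ) → ℝ}, T0 f → T0 g → Dep (P J) f → Dep (P J) g →
      ex (Vc J) (fun x => PE J b Vc i f x * g x) =
        ex (Vc i) (fun x => PE J b Vc i f x * PE J b Vc i g x) := by
    intro f g hf hg hfd hgd
    rw [← hc.ex_PE hi ((hc.PE_t0 hi hf).mul hg)]
    congr 1
    funext x
    exact hc.PE_mul_dep hi (hc.PE_dep hi hfd) hg (hc.PE_t0 hi hf) x
  have e1 : (fun x => f x * PE J b Vc i g x) = fun x => PE J b Vc i g x * f x :=
    funext fun x => mul_comm _ _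
  rw [e1, key hf hg hfd hgd, key hg hf hgd hfd]
  congr 1
  funext x
  exact mul_comm _ _

end Pool.Agent.Lib.MP_8d00da_gt.h42k
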