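import Pool.Agent.Lib.MP_8d00da_gt.h42k.K8c

/-!
# Rademacher-Menshov recursion along a chain
-/

namespace Pool.Agent.Lib.MP_8d00da_gt.h42k

open MeasureTheory Set Filter
open scoped Topology NNReal ENNReal ContDiff

set_option linter.unusedSectionVars false
set_option linter.unusedVariables false

variable {ι : Type*} [Fintype ι] [DecidableEq ι]

variable {κ M : ℝ} {V : (ι → ℝ) → ℝ}

variable {J : ℕ} {b P : ℕ → Finset ι} {Vc : ℕ → (ι → ℝ) → ℝ}

private theorem K8d_sumdep (hc : Chn κ M J b P Vc) {X : ℕ → (ι → ℝ) → ℝ}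
    (hXd : ∀ j < J, Dep (P j) (X j)) {i k m : ℕ} (hk : k ≤ J) (hm : m ≤ J) (hkm : k ≤ m + 1) :
    Dep (P m) (fun x => ∑ j ∈ Finset.Ico i k, X j x) := by
  intro x x' hx
  refine Finset.sum_congr rfl fun j hj => ?_
  have hj' := Finset.mem_Ico.1 hj
  exact ((hXd j (by omega)).mono (hc.P_mono (by omega) hm)) x x' hx

private theorem K8d_sumt0 {X : ℕ → (ι → ℝ) → ℝ} (hX : ∀ j < J, T0 (X j)) {i k : ℕ} (hk : k ≤ J) :
    T0 (fun x => ∑ j ∈ Finset.Ico i k, X j x) :=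
  T0.sum _ fun j hj => hX j (by have := Finset.mem_Ico.1 hj; omega)

/-- `f - P_m f` is orthogonal to the functions of the coordinates in `P m`. -/
private theorem K8d_orth (hc : Chn κ M J b P Vc) {f g : (ι → ℝ) → ℝ} (hf : T0 f)
    (hfd : Dep (P J) f) {m : ℕ} (hm : m ≤ J) (hg : T0 g) (hgd : Dep (P m) g) :
    ex (Vc J) (fun x => (f x - PE J b Vc m f x) * g x) = 0 := by
  have H := hc.nice J le_rfl
  have e1 : (fun x => (f x - PE J b Vc m f x) * g x) =
      fun x => f x * g x - PE J b Vc m f x * g x := by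
    funext x; ring
  rw [e1, ex_sub H (hf.mul hg) ((hc.PE_t0 hm hf).mul hg),
    hc.PE_symm hm hf hg hfd (hgd.mono (hc.P_mono hm le_rfl)), hc.PE_of_dep hm hgd, sub_self]

private theorem K8d_proj (hc : Chn κ M J b P Vc) {f : (ι → ℝ) → ℝ} (hf : T0 f)
    (hfd : Dep (P J) f) {i : ℕ} (hi : i ≤ J) (c : ℝ) :
    ex (Vc J) (fun x => (f x - PE J b Vc i f x) ^ 2) ≤ ex (Vc J) (fun x => (f x - c) ^ 2) := by
  have H := hc.nice J le_rfl
  have hP := hc.PE_t0 hi hf
  have hPd := hc.PE_dep hi hfd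
  have t1 : T0 (fun x => f x - PE J b Vc i f x) := hf.sub hP
  have t2 : T0 (fun x => PE J b Vc i f x - c) := hP.sub (T0.const c)
  have d2 : Dep (P i) (fun x => PE J b Vc i f x - c) := fun x x' hx => by
    show PE J b Vc i f x - c = PE J b Vc i f x' - c
    rw [hPd x x' hx]
  have e1 : (fun x => (f x - c) ^ 2) = fun x => (f x - PE J b Vc i f x) ^ 2 +
      (2 * ((f x - PE J b Vc i f x) * (PE J b Vc i f x - c)) + (PE J b Vc i f x - c) ^ 2) := by
    funext x; ring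
  rw [e1, ex_add H (t1.pow 2) (((t1.mul t2).cmul 2).add (t2.pow 2)),
    ex_add H ((t1.mul t2).cmul 2) (t2.pow 2), ex_cmul, K8d_orth hc hf hfd hi t2 d2]
  have h1 := ex_nonneg (Vc J) (f := fun x => (PE J b Vc i f x - c) ^ 2) fun x => sq_nonneg _
  linarith

/-- Paper 325, 8.1, with `X j` a function of the coordinates in `P j`; induction on `r`:
for `k - i ≤ 2^r`: `E (Y - P_i Y)² ≤ (2r)² ∑ c_j`, `Y = ∑_{i ≤ j < k} X_j`. -/
theorem RM_step (hc : Chn κ M J b P Vc) (X : ℕ → (ι → ℝ) → ℝ) (hX : ∀ j < J, T0 (X j))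
    (hXd : ∀ j < J, Dep (P j) (X j)) (c : ℕ → ℝ) (hc0 : ∀ j < J, 0 ≤ c j)
    (h : ∀ m k, m ≤ k → k ≤ J →
      var (Vc m) (PE J b Vc m (fun x => ∑ j ∈ Finset.Ico m k, X j x)) ≤
        4 * ∑ j ∈ Finset.Ico m k, c j) (r : ℕ) :
    ∀ i k, i ≤ k → k ≤ J → k - i ≤ 2 ^ r →
      ex (Vc J) (fun x => ((∑ j ∈ Finset.Ico i k, X j x) -
        PE J b Vc i (fun x => ∑ j ∈ Finset.Ico i k, X j x) x) ^ 2) ≤
        (2 * r) ^ 2 * ∑ j ∈ Finset.Ico i k, c j := by
  have H := hc.nice J le_rfl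
  induction r with
  | zero =>
    intro i k hik hk hle
    have hle' : k ≤ i + 1 := by
      rw [pow_zero] at hle
      omega
    rw [hc.PE_of_dep (hik.trans hk) (K8d_sumdep hc hXd hk (hik.trans hk) hle')]
    have e1 : (fun x : ι → ℝ => ((∑ j ∈ Finset.Ico i k, X j x) -
        (∑ j ∈ Finset.Ico i k, X j x)) ^ 2) = fun _ => (0 : ℝ) := by
      funext x; ring
    rw [e1, ex_const H]
    simp
  | succ r ih =>
    intro i k hik hk hle
    obtain ⟨m, him, hmk, h1, h2⟩ : ∃ m, i ≤ m ∧ m ≤ k ∧ m - i ≤ 2 ^ r ∧ k - m ≤ 2 ^ r := by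
      refine ⟨min (i + 2 ^ r) k, ?_, min_le_right _ _, ?_, ?_⟩
      · exact le_min (Nat.le_add_right _ _) hik
      · have := min_le_left (i + 2 ^ r) k
        omega
      · have hp : 2 ^ (r + 1) = 2 ^ r + 2 ^ r := by ring
        rw [hp] at hle
        omega
    have hmJ : m ≤ J := hmk.trans hk
    have hiJ : i ≤ J := him.trans hmJ
    set F1 : (ι → ℝ) → ℝ := fun x => ∑ j ∈ Finset.Ico i m, X j x with hF1
    set F2 : (ι → ℝ) → ℝ := fun x => ∑ j ∈ Finset.Ico m k, X j x with hF2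
    have eY : (fun x => ∑ j ∈ Finset.Ico i k, X j x) = fun x => F1 x + F2 x := by
      funext x
      exact (Finset.sum_Ico_consecutive (fun j => X j x) him hmk).symm
    have eS : ∑ j ∈ Finset.Ico i k, c j = ∑ j ∈ Finset.Ico i m, c j + ∑ j ∈ Finset.Ico m k, c j :=
      (Finset.sum_Ico_consecutive c him hmk).symm
    have tF1 : T0 F1 := K8d_sumt0 hX hmJ
    have tF2 : T0 F2 := K8d_sumt0 hX hk
    have dF1 : Dep (P m) F1 := K8d_sumdep hc hXd hmJ hmJ (Nat.le_succ m)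
    have dF2 : Dep (P J) F2 := K8d_sumdep hc hXd hk le_rfl (by omega)
    have dF1J : Dep (P J) F1 := dF1.mono (hc.P_mono hmJ le_rfl)
    set Z : (ι → ℝ) → ℝ := PE J b Vc m F2 with hZ
    have tZ : T0 Z := hc.PE_t0 hmJ tF2
    have dZ : Dep (P m) Z := hc.PE_dep hmJ dF2
    have dZJ : Dep (P J) Z := dZ.mono (hc.P_mono hmJ le_rfl)
    have eZ : PE J b Vc i Z = PE J b Vc i F2 := by
      rw [hZ, hc.PE_PE hiJ hmJ tF2 dF2, min_eq_left him]
    set A : (ι → ℝ) → ℝ := fun x => F2 x - PE J b Vc m F2 x with hA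
    set B : (ι → ℝ) → ℝ := fun x => F1 x - PE J b Vc i F1 x with hB
    set C : (ι → ℝ) → ℝ := fun x => Z x - PE J b Vc i Z x with hC
    have tA : T0 A := tF2.sub tZ
    have tB : T0 B := tF1.sub (hc.PE_t0 hiJ tF1)
    have tC : T0 C := tZ.sub (hc.PE_t0 hiJ tZ)
    have hPi : P i ⊆ P m := hc.P_mono him hmJ
    have dB : Dep (P m) B := fun x x' hx => by
      show F1 x - PE J b Vc i F1 x = F1 x' - PE J b Vc i F1 x'
      rw [dF1 x x' hx, ((hc.PE_dep hiJ dF1J).mono hPi) x x' hx]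
    have dC : Dep (P m) C := fun x x' hx => by
      show Z x - PE J b Vc i Z x = Z x' - PE J b Vc i Z x'
      rw [dZ x x' hx, ((hc.PE_dep hiJ dZJ).mono hPi) x x' hx]
    have eD : (fun x => ((∑ j ∈ Finset.Ico i k, X j x) -
        PE J b Vc i (fun x => ∑ j ∈ Finset.Ico i k, X j x) x) ^ 2) =
        fun x => A x ^ 2 + (2 * (A x * (B x + C x)) + (B x ^ 2 + (2 * (B x * C x) + C x ^ 2))) := by
      funext x
      have e1 : (∑ j ∈ Finset.Ico i k, X j x) = F1 x + F2 x := congrFun eY x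
      rw [eY, e1, hc.PE_add hiJ tF1 tF2]
      show _ = (F2 x - Z x) ^ 2 + (2 * ((F2 x - Z x) * ((F1 x - PE J b Vc i F1 x) +
        (Z x - PE J b Vc i Z x))) + ((F1 x - PE J b Vc i F1 x) ^ 2 +
        (2 * ((F1 x - PE J b Vc i F1 x) * (Z x - PE J b Vc i Z x)) + (Z x - PE J b Vc i Z x) ^ 2)))
      rw [congrFun eZ x]
      ring
    have tBC : T0 (fun x => B x + C x) := tB.add tC
    have dBC : Dep (P m) (fun x => B x + C x) := dB.add dC
    have o1 : ex (Vc J) (fun x => A x * (B x + C x)) = 0 := K8d_orth hc tF2 dF2 hmJ tBC dBC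
    have hA2 : ex (Vc J) (fun x => A x ^ 2) ≤ (2 * r) ^ 2 * ∑ j ∈ Finset.Ico m k, c j :=
      ih m k hmk hk h2
    have hB2 : ex (Vc J) (fun x => B x ^ 2) ≤ (2 * r) ^ 2 * ∑ j ∈ Finset.Ico i m, c j :=
      ih i m him hmJ h1
    have hC2 : ex (Vc J) (fun x => C x ^ 2) ≤ 4 * ∑ j ∈ Finset.Ico m k, c j := by
      refine (K8d_proj hc tZ dZJ hiJ (ex (Vc J) Z)).trans ?_
      rw [← var_eq H tZ]
      have e2 : var (Vc J) Z = var (Vc m) Z := by
        have dZ2 : Dep (P m) (fun x => Z x ^ 2) := fun x x' hx => by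
          show Z x ^ 2 = Z x' ^ 2
          rw [dZ x x' hx]
        rw [var_eq', var_eq', hc.ex_dep hmJ tZ dZ, hc.ex_dep hmJ (tZ.pow 2) dZ2]
      rw [e2]
      exact h m k hmk hk
    have s1 : 0 ≤ ∑ j ∈ Finset.Ico i m, c j := Finset.sum_nonneg fun j hj =>
      hc0 j (by have := Finset.mem_Ico.1 hj; omega)
    have s2 : 0 ≤ ∑ j ∈ Finset.Ico m k, c j := Finset.sum_nonneg fun j hj =>
      hc0 j (by have := Finset.mem_Ico.1 hj; omega)
    have hBC := ex_cs H tB tC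
    rw [eD, ex_add H (tA.pow 2) (((tA.mul tBC).cmul 2).add ((tB.pow 2).add
      (((tB.mul tC).cmul 2).add (tC.pow 2)))), ex_add H ((tA.mul tBC).cmul 2) ((tB.pow 2).add
      (((tB.mul tC).cmul 2).add (tC.pow 2))), ex_add H (tB.pow 2)
      (((tB.mul tC).cmul 2).add (tC.pow 2)), ex_add H ((tB.mul tC).cmul 2) (tC.pow 2),
      ex_cmul, ex_cmul, o1, eS]
    set S1 := ∑ j ∈ Finset.Ico i m, c j
    set S2 := ∑ j ∈ Finset.Ico m k, c j
    set eA := ex (Vc J) (fun x => A x ^ 2)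
    set eB := ex (Vc J) (fun x => B x ^ 2)
    set eC := ex (Vc J) (fun x => C x ^ 2)
    set eBC := ex (Vc J) (fun x => B x * C x)
    have nB : 0 ≤ eB := ex_nonneg _ fun x => sq_nonneg _
    have nC : 0 ≤ eC := ex_nonneg _ fun x => sq_nonneg _
    have hr : (0 : ℝ) ≤ r := Nat.cast_nonneg r
    have hkey : eBC ≤ 2 * r * (S1 + S2) := by
      refine (le_abs_self _).trans (abs_le_of_sq_le_sq ?_ (by positivity))
      refine hBC.trans ((mul_le_mul hB2 hC2 nC (by positivity)).trans ?_)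
      nlinarith [mul_nonneg (mul_nonneg hr hr) (sq_nonneg (S1 - S2))]
    push_cast
    nlinarith [mul_nonneg hr s1, mul_nonneg hr s2]

theorem RM_var (hc : Chn κ M J b P Vc) (X : ℕ → (ι → ℝ) → ℝ) (hX : ∀ j < J, T0 (X j))
    (hXd : ∀ j < J, Dep (P j) (X j)) (c : ℕ → ℝ) (hc0 : ∀ j < J, 0 ≤ c j)
    (h : ∀ m k, m ≤ k → k ≤ J →
      var (Vc m) (PE J b Vc m (fun x => ∑ j ∈ Finset.Ico m k, X j x)) ≤
        4 * ∑ j ∈ Finset.Ico m k, c j) {r : ℕ} (hr : J ≤ 2 ^ r) :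
    var (Vc J) (fun x => ∑ j ∈ Finset.range J, X j x) ≤
      (2 * r + 2) ^ 2 * ∑ j ∈ Finset.range J, c j := by
  have H := hc.nice J le_rfl
  have h1 := RM_step hc X hX hXd c hc0 h r 0 J (Nat.zero_le _) le_rfl (by omega)
  rw [← Finset.range_eq_Ico] at h1
  have tY : T0 (fun x => ∑ j ∈ Finset.range J, X j x) := by
    rw [Finset.range_eq_Ico]
    exact K8d_sumt0 hX le_rfl
  have dY : Dep (P J) (fun x => ∑ j ∈ Finset.range J, X j x) := by
    rw [Finset.range_eq_Ico]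
    exact K8d_sumdep hc hXd le_rfl le_rfl (Nat.le_succ _)
  have d0 := hc.PE_dep (Nat.zero_le J) dY
  rw [hc.P0] at d0
  have e1 : ∀ x, PE J b Vc 0 (fun x => ∑ j ∈ Finset.range J, X j x) x =
      PE J b Vc 0 (fun x => ∑ j ∈ Finset.range J, X j x) 0 :=
    fun x => d0 x 0 fun i hi => absurd hi (Finset.notMem_empty i)
  refine (var_le H tY (PE J b Vc 0 (fun x => ∑ j ∈ Finset.range J, X j x) 0)).trans ?_
  have e2 : (fun x => ((∑ j ∈ Finset.range J, X j x) -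
      PE J b Vc 0 (fun x => ∑ j ∈ Finset.range J, X j x) 0) ^ 2) =
      fun x => ((∑ j ∈ Finset.range J, X j x) -
      PE J b Vc 0 (fun x => ∑ j ∈ Finset.range J, X j x) x) ^ 2 := by
    funext x
    rw [e1 x]
  rw [e2]
  refine h1.trans (mul_le_mul_of_nonneg_right ?_ (Finset.sum_nonneg fun j hj =>
    hc0 j (Finset.mem_range.1 hj)))
  have : (0 : ℝ) ≤ r := Nat.cast_nonneg r
  nlinarith

end Pool.Agent.Lib.MP_8d00da_gt.h42k
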