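import Pool.Agent.Lib.MP_8d00da_gt.h42k.K8b
import Pool.Agent.Lib.MP_8d00da_gt.h42k.K8c

/-!
# The SP lemma along a chain
-/

namespace Pool.Agent.Lib.MP_8d00da_gt.h42k

open MeasureTheory Set Filter
open scoped Topology NNReal ENNReal ContDiff

set_option linter.unusedSectionVars false
set_option linter.unusedVariables false

variable {ι : Type*} [Fintype ι] [DecidableEq ι]

variable {κ M : ℝ} {V : (ι → ℝ) → ℝ}

/-- The `H^{-1}` bound 7.1 as a hypothesis (it is proved in `S7*.lean`). -/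
def HB (q0 : ℕ) (C4 : ℝ) : Prop := ∀ (α : Type) [Fintype α] [DecidableEq α] (κ M : ℝ)
    (V : (α → ℝ) → ℝ), Nice κ M V → κ ≤ 1 → ∀ δ : α → ℝ, (∀ i, |δ i| ≤ 1) →
    H1 V δ (C4 * (Fintype.card α + ((CM V) ^ (q0 + 1)).trace))

/-- The bound for the block `s`. -/
noncomputable def N2 (q0 : ℕ) (C4 : ℝ) {ι : Type} [Fintype ι] [DecidableEq ι]
    (V : (ι → ℝ) → ℝ) (s : Finset ι) (x : ι → ℝ) : ℝ :=
  C4 * (s.card + ((CM (row s V x)) ^ (q0 + 1)).trace)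

theorem N2_t0 {ι : Type} [Fintype ι] [DecidableEq ι] {V : (ι → ℝ) → ℝ} (q0 : ℕ) (C4 : ℝ)
    (H : Nice κ M V) (s : Finset ι) : T0 (N2 q0 C4 V s) :=
  T0.cmul C4 ((T0.const (s.card : ℝ)).add (tr_t0 H s (q0 + 1)))

theorem N2_nonneg {ι : Type} [Fintype ι] [DecidableEq ι] {V : (ι → ℝ) → ℝ} (q0 : ℕ) {C4 : ℝ}
    (hC : 0 ≤ C4) (H : Nice κ M V) (s : Finset ι) (x : ι → ℝ) : 0 ≤ N2 q0 C4 V s x :=
  mul_nonneg hC (add_nonneg (Nat.cast_nonneg _) (tr_nonneg H s (q0 + 1) x))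

/-- `w_m γ_m` depends only on `P m`. -/
private theorem K8e_gam_dep {ι : Type} [Fintype ι] [DecidableEq ι] {J : ℕ} {b P : ℕ → Finset ι}
    {Vc : ℕ → (ι → ℝ) → ℝ} (hc : Chn κ M J b P Vc) (δ : ι → ℝ) (c : ℝ) {m : ℕ} (hm : m < J) :
    Dep (P m) (fun z => c * gam (Vc (m + 1)) (b m) δ z) := by
  intro x x' hx
  have h : gam (Vc (m + 1)) (b m) δ x = gam (Vc (m + 1)) (b m) δ x' := by
    unfold gam
    refine Finset.sum_congr rfl fun i hi => ?_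
    have hd : Dep (P m ∪ b m) (fun z : ι → ℝ => z i) :=
      fun y y' hy => hy i (Finset.mem_union_right _ hi)
    have hS : Spl (Vc (m + 1)) (P m ∪ b m) := by
      rw [← hc.Ps m hm]
      exact hc.spl (m + 1) hm
    rw [Spl.CC_dep (hc.nice (m + 1) hm) (hc.disj m hm) hS hd hd x x' hx]
  show c * _ = c * _
  rw [h]

private theorem K8e_sum_t0 {ι : Type} [Fintype ι] [DecidableEq ι] {J : ℕ} {b P : ℕ → Finset ι}
    {Vc : ℕ → (ι → ℝ) → ℝ} (hc : Chn κ M J b P Vc) (δ : ι → ℝ) (w : ℕ → ℝ) {m k : ℕ}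
    (hk : k ≤ J) :
    T0 (fun x => ∑ j ∈ Finset.Ico m k, w j * gam (Vc (j + 1)) (b j) δ x) :=
  T0.sum _ fun j hj => ((gam_t1 (hc.nice (j + 1)
    ((Finset.mem_Ico.1 hj).2.trans_le hk)) (b j) δ).t0).cmul (w j)

/-- One step of the recursion: `P_m` of the sum from `m`. -/
private theorem K8e_PE {ι : Type} [Fintype ι] [DecidableEq ι] {J : ℕ} {b P : ℕ → Finset ι}
    {Vc : ℕ → (ι → ℝ) → ℝ} (hc : Chn κ M J b P Vc) (δ : ι → ℝ) (w : ℕ → ℝ) {m k : ℕ}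
    (hm : m < k) (hk : k ≤ J) :
    PE J b Vc m (fun x => ∑ j ∈ Finset.Ico m k, w j * gam (Vc (j + 1)) (b j) δ x) =
      fun z => w m * gam (Vc (m + 1)) (b m) δ z + CE (Vc (m + 1)) (b m)
        (PE J b Vc (m + 1) (fun x => ∑ j ∈ Finset.Ico (m + 1) k,
          w j * gam (Vc (j + 1)) (b j) δ x)) z := by
  have hmJ : m < J := hm.trans_le hk
  have h1 : (fun x => ∑ j ∈ Finset.Ico m k, w j * gam (Vc (j + 1)) (b j) δ x) =
      fun x => (fun z => w m * gam (Vc (m + 1)) (b m) δ z) x +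
        (fun x => ∑ j ∈ Finset.Ico (m + 1) k, w j * gam (Vc (j + 1)) (b j) δ x) x := by
    funext x
    exact Finset.sum_eq_sum_Ico_succ_bot hm _
  have ht : T0 (fun z => w m * gam (Vc (m + 1)) (b m) δ z) :=
    ((gam_t1 (hc.nice (m + 1) hmJ) (b m) δ).t0).cmul (w m)
  rw [h1]
  funext z
  rw [hc.PE_add hmJ.le ht (K8e_sum_t0 hc δ w hk) z,
    hc.PE_of_dep hmJ.le (K8e_gam_dep hc δ (w m) hmJ), PE_step hmJ]

/-- Downward induction on `m` (paper 325, 8.5): for `G = P_m (∑_{m ≤ j < k} w_j γ_j)` there is `R ≥ 0`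
with `(u·∇G)² ≤ 4 R D²V_m[u,u]` and `E R = ∑ w_j² E N2_j`. Step: `SP` for `Vc (m+1)` and the block
`b m`. -/
theorem chain_SP_aux {ι : Type} [Fintype ι] [DecidableEq ι] {J : ℕ} {b P : ℕ → Finset ι}
    {Vc : ℕ → (ι → ℝ) → ℝ} {q0 : ℕ} {C4 : ℝ} (hC4 : 0 ≤ C4) (hB : HB q0 C4)
    (hc : Chn κ M J b P Vc) {δ : ι → ℝ} (hδ : ∀ i, |δ i| ≤ 1) (w : ℕ → ℝ) :
    ∀ m k, m ≤ k → k ≤ J → ∃ G R : (ι → ℝ) → ℝ,
      G = PE J b Vc m (fun x => ∑ j ∈ Finset.Ico m k, w j * gam (Vc (j + 1)) (b j) δ x) ∧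
      T1 G ∧ T0 R ∧ (∀ x, 0 ≤ R x) ∧ (∀ x u, gd G x u ^ 2 ≤ 4 * R x * hs (Vc m) x u) ∧
      ex (Vc m) R = ∑ j ∈ Finset.Ico m k, w j ^ 2 * ex (Vc j) (N2 q0 C4 (Vc (j + 1)) (b j)) := by
  intro m k hmk hk
  induction hmk using Nat.decreasingInduction with
  | self =>
    refine ⟨_, fun _ => 0, rfl, ?_, T0.const 0, fun _ => le_rfl, ?_, ?_⟩
    · have h0 : (fun x => ∑ j ∈ Finset.Ico k k, w j * gam (Vc (j + 1)) (b j) δ x) =
          fun _ => (0 : ℝ) := by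
        funext x
        rw [Finset.Ico_self, Finset.sum_empty]
      rw [h0, hc.PE_of_dep hk (fun x x' _ => rfl)]
      exact T1.const 0
    · intro x u
      have h0 : (fun x => ∑ j ∈ Finset.Ico k k, w j * gam (Vc (j + 1)) (b j) δ x) =
          fun _ => (0 : ℝ) := by
        funext x
        rw [Finset.Ico_self, Finset.sum_empty]
      rw [h0, hc.PE_of_dep hk (fun x x' _ => rfl)]
      have h1 : gd (fun _ : ι → ℝ => (0 : ℝ)) x u = 0 := by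
        unfold gd
        exact Finset.sum_eq_zero fun i _ => by rw [pd_const, mul_zero]
      rw [h1]
      simp
    · rw [Finset.Ico_self, Finset.sum_empty]
      exact ex_const (hc.nice k hk) 0
  | of_succ m hm ih =>
    obtain ⟨G', R', hG', hT', hR', hR0', hGR', hex'⟩ := ih
    have hmJ : m < J := hm.trans_le hk
    have hn : Nice κ M (Vc (m + 1)) := hc.nice (m + 1) hmJ
    have hN0 : ∀ x, 0 ≤ N2 q0 C4 (Vc (m + 1)) (b m) x := N2_nonneg q0 hC4 hn (b m)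
    have hN : ∀ x, H1 (row (b m) (Vc (m + 1)) x) (fun i : b m => δ i)
        (N2 q0 C4 (Vc (m + 1)) (b m) x) := by
      intro x
      have h := hB (b m) κ M (row (b m) (Vc (m + 1)) x) (hn.rown (b m) x) hc.k1
        (fun i : b m => δ i) (fun i => hδ i)
      rw [Fintype.card_coe] at h
      exact h
    have hS := SP hn hc.k1 hc.m1 (b m) hT' hR' hR0' hGR' δ (w m) hN0 hN
    have hP := K8e_PE hc δ w hm hk
    rw [← hG'] at hP
    refine ⟨_, fun x => w m ^ 2 * N2 q0 C4 (Vc (m + 1)) (b m) x +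
      CE (Vc (m + 1)) (b m) R' x, rfl, ?_, ?_, ?_, ?_, ?_⟩
    · rw [hP]
      exact ((gam_t1 hn (b m) δ).cmul (w m)).add (CE_t1 hn hT' (b m))
    · exact ((N2_t0 q0 C4 hn (b m)).cmul (w m ^ 2)).add (CE_t0 hn hR' (b m))
    · exact fun x => add_nonneg (mul_nonneg (sq_nonneg _) (hN0 x)) (CE_nonneg _ (b m) hR0' x)
    · intro x u
      rw [hP, hc.step m hmJ]
      exact hS x u
    · have h1 : ex (Vc m) (CE (Vc (m + 1)) (b m) R') = ex (Vc (m + 1)) R' := by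
        rw [hc.step m hmJ]
        exact tower hn hc.k1 hc.m1 (b m) hR'
      rw [ex_add (hc.nice m hmJ.le) ((N2_t0 q0 C4 hn (b m)).cmul (w m ^ 2))
        (CE_t0 hn hR' (b m)), ex_cmul, h1, hex', Finset.sum_eq_sum_Ico_succ_bot hm]

/-- `chain_SP_aux` and `BL`. -/
theorem chain_SP {ι : Type} [Fintype ι] [DecidableEq ι] {J : ℕ} {b P : ℕ → Finset ι}
    {Vc : ℕ → (ι → ℝ) → ℝ} {q0 : ℕ} {C4 : ℝ} (hC4 : 0 ≤ C4) (hB : HB q0 C4)
    (hc : Chn κ M J b P Vc) {δ : ι → ℝ} (hδ : ∀ i, |δ i| ≤ 1) (w : ℕ → ℝ) {m k : ℕ}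
    (hm : m ≤ k) (hk : k ≤ J) :
    var (Vc m) (PE J b Vc m (fun x => ∑ j ∈ Finset.Ico m k,
      w j * gam (Vc (j + 1)) (b j) δ x)) ≤
      4 * ∑ j ∈ Finset.Ico m k, w j ^ 2 * ex (Vc j) (N2 q0 C4 (Vc (j + 1)) (b j)) := by
  obtain ⟨G, R, hG, hT, hR, hR0, hGR, hex⟩ := chain_SP_aux hC4 hB hc hδ w m k hm hk
  have h := BL (hc.nice m (hm.trans hk)) hT (hR.cmul 4)
    (fun x => mul_nonneg (by norm_num) (hR0 x)) hGR
  rw [ex_cmul, hex] at h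
  rw [← hG]
  exact h

end Pool.Agent.Lib.MP_8d00da_gt.h42k
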