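import Pool.Agent.Lib.MP_8d00da_gt.h42k.K8d
import Pool.Agent.Lib.MP_8d00da_gt.h42k.K8e

/-!
# The block theorem
-/

namespace Pool.Agent.Lib.MP_8d00da_gt.h42k

open MeasureTheory Set Filter
open scoped Topology NNReal ENNReal ContDiff

set_option linter.unusedSectionVars false
set_option linter.unusedVariables false

variable {ι : Type*} [Fintype ι] [DecidableEq ι]

variable {κ M : ℝ} {V : (ι → ℝ) → ℝ}

section

variable {ι : Type} [Fintype ι] [DecidableEq ι] {J : ℕ} {b P : ℕ → Finset ι}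
    {Vc : ℕ → (ι → ℝ) → ℝ} {q0 : ℕ} {C4 : ℝ}

/-- The martingale part of the block `j`: `∑ δ_i (x_i - m_i)² - γ_j + 2 ∑ δ_i m_i (x_i - m_i)`. -/
noncomputable def xi (Vc : ℕ → (ι → ℝ) → ℝ) (b : ℕ → Finset ι) (δ : ι → ℝ) (j : ℕ)
    (x : ι → ℝ) : ℝ :=
  (∑ i ∈ b j, δ i * (x i - CE (Vc (j + 1)) (b j) (fun z => z i) x) ^ 2) -
    gam (Vc (j + 1)) (b j) δ x +
    2 * ∑ i ∈ b j, δ i * CE (Vc (j + 1)) (b j) (fun z => z i) x *
      (x i - CE (Vc (j + 1)) (b j) (fun z => z i) x)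

/-- The mean part of the block `j`. -/
noncomputable def mq (Vc : ℕ → (ι → ℝ) → ℝ) (b : ℕ → Finset ι) (δ : ι → ℝ) (j : ℕ)
    (x : ι → ℝ) : ℝ := ∑ i ∈ b j, δ i * CE (Vc (j + 1)) (b j) (fun z => z i) x ^ 2

theorem block_decomp (Vc : ℕ → (ι → ℝ) → ℝ) (b : ℕ → Finset ι) (δ : ι → ℝ) (j : ℕ)
    (x : ι → ℝ) :
    ∑ i ∈ b j, δ i * x i ^ 2 = xi Vc b δ j x + gam (Vc (j + 1)) (b j) δ x + mq Vc b δ j x := by
  have e : ∑ i ∈ b j, δ i * x i ^ 2 =
      (∑ i ∈ b j, δ i * (x i - CE (Vc (j + 1)) (b j) (fun z => z i) x) ^ 2) +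
      2 * (∑ i ∈ b j, δ i * CE (Vc (j + 1)) (b j) (fun z => z i) x *
        (x i - CE (Vc (j + 1)) (b j) (fun z => z i) x)) +
      ∑ i ∈ b j, δ i * CE (Vc (j + 1)) (b j) (fun z => z i) x ^ 2 := by
    rw [Finset.mul_sum, ← Finset.sum_add_distrib, ← Finset.sum_add_distrib]
    exact Finset.sum_congr rfl fun i _ => by ring
  rw [e]
  unfold xi mq
  ring

/-! ### Rows -/

private theorem K8f_up (x : ι → ℝ) (s : Finset ι) (y : s → ℝ) (i : s) :
    Function.updateFinset x s y (i : ι) = y i := by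
  unfold Function.updateFinset
  rw [dif_pos i.2]

private theorem K8f_mn (V : (ι → ℝ) → ℝ) (s : Finset ι) (x : ι → ℝ) (i : s) :
    CE V s (fun z => z (i : ι)) x = mn (row s V x) i := by
  show ex (row s V x) (row s (fun z => z (i : ι)) x) = ex (row s V x) (fun y => y i)
  congr 1
  funext y
  exact K8f_up x s y i

private theorem K8f_mt0 {V : (ι → ℝ) → ℝ} (H : Nice κ M V) (s : Finset ι) (i : ι) :
    T0 (CE V s (fun z => z i)) := CE_t0 H (T0.coord i) s

/-- `E[(x_i - m_i)²] = Var(x_i)` conditionally. -/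
private theorem K8f_ce_sq {V : (ι → ℝ) → ℝ} (H : Nice κ M V) (s : Finset ι) (i : ι) (x : ι → ℝ) :
    CE V s (fun z => (z i - CE V s (fun z => z i) z) ^ 2) x =
      CC V s (fun z => z i) (fun z => z i) x := by
  have hm := K8f_mt0 H s i
  have hd : Dep sᶜ (CE V s (fun z => z i)) := CE_dep V _ s
  have hz : T0 (fun z : ι → ℝ => z i) := T0.coord i
  have e : (fun z : ι → ℝ => (z i - CE V s (fun z => z i) z) ^ 2) =
      fun z => (z i * z i - 2 * (CE V s (fun z => z i) z * z i)) +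
        CE V s (fun z => z i) z * CE V s (fun z => z i) z := by
    funext z
    ring
  rw [e, CE_add H s ((hz.mul hz).sub ((hm.mul hz).cmul 2)) (hm.mul hm),
    CE_sub H s (hz.mul hz) ((hm.mul hz).cmul 2), CE_cmul, CE_mul_dep V s hd, CE_mul_dep V s hd,
    CE_of_dep H s hd, CC_eq]
  ring

private theorem K8f_ce_lin {V : (ι → ℝ) → ℝ} (H : Nice κ M V) (s : Finset ι) (i : ι) (x : ι → ℝ) :
    CE V s (fun z => CE V s (fun z => z i) z * (z i - CE V s (fun z => z i) z)) x = 0 := by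
  have hm := K8f_mt0 H s i
  have hd : Dep sᶜ (CE V s (fun z => z i)) := CE_dep V _ s
  have hz : T0 (fun z : ι → ℝ => z i) := T0.coord i
  rw [CE_mul_dep V s hd, CE_sub H s hz hm, CE_of_dep H s hd, sub_self, mul_zero]

private theorem K8f_At0 {V : (ι → ℝ) → ℝ} (H : Nice κ M V) (s : Finset ι) (δ : ι → ℝ) :
    T0 (fun x => ∑ i ∈ s, δ i * (x i - CE V s (fun z => z i) x) ^ 2) :=
  T0.sum s fun i _ => (((T0.coord i).sub (K8f_mt0 H s i)).pow 2).cmul (δ i)

private theorem K8f_Bt0 {V : (ι → ℝ) → ℝ} (H : Nice κ M V) (s : Finset ι) (δ : ι → ℝ) :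
    T0 (fun x => ∑ i ∈ s, δ i * CE V s (fun z => z i) x * (x i - CE V s (fun z => z i) x)) :=
  T0.sum s fun i _ => ((K8f_mt0 H s i).cmul (δ i)).mul ((T0.coord i).sub (K8f_mt0 H s i))

private theorem K8f_mdep (hc : Chn κ M J b P Vc) {j : ℕ} (hj : j < J) {i : ι} (hi : i ∈ b j) :
    Dep (P j) (CE (Vc (j + 1)) (b j) (fun z => z i)) := by
  have h1 := hc.spl (j + 1) hj
  rw [hc.Ps j hj] at h1
  exact Spl.CE_dep (hc.nice (j + 1) hj) (hc.disj j hj) h1
    fun x x' h => h i (Finset.mem_union_right _ hi)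

theorem gam_t0 (hc : Chn κ M J b P Vc) (δ : ι → ℝ) {j : ℕ} (hj : j < J) :
    T0 (gam (Vc (j + 1)) (b j) δ) ∧ Dep (P j) (gam (Vc (j + 1)) (b j) δ) := by
  refine ⟨(gam_t1 (hc.nice (j + 1) hj) (b j) δ).t0, fun x x' h => ?_⟩
  have h1 := hc.spl (j + 1) hj
  rw [hc.Ps j hj] at h1
  unfold gam
  refine Finset.sum_congr rfl fun i hi => ?_
  have hd : Dep (P j ∪ b j) (fun z : ι → ℝ => z i) :=
    fun x x' h => h i (Finset.mem_union_right _ hi)
  rw [Spl.CC_dep (hc.nice (j + 1) hj) (hc.disj j hj) h1 hd hd x x' h]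

theorem xi_t0 (hc : Chn κ M J b P Vc) (δ : ι → ℝ) {j : ℕ} (hj : j < J) :
    T0 (xi Vc b δ j) ∧ Dep (P (j + 1)) (xi Vc b δ j) := by
  have H := hc.nice (j + 1) hj
  refine ⟨((K8f_At0 H (b j) δ).sub (gam_t0 hc δ hj).1).add ((K8f_Bt0 H (b j) δ).cmul 2),
    fun x x' h => ?_⟩
  have hP : ∀ i ∈ P j, x i = x' i := fun i hi => h i (by
    rw [hc.Ps j hj]
    exact Finset.mem_union_left _ hi)
  have hb : ∀ i ∈ b j, x i = x' i := fun i hi => h i (by
    rw [hc.Ps j hj]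
    exact Finset.mem_union_right _ hi)
  unfold xi
  rw [(gam_t0 hc δ hj).2 x x' hP]
  congr 1
  · congr 1
    refine Finset.sum_congr rfl fun i hi => ?_
    rw [K8f_mdep hc hj hi x x' hP, hb i hi]
  · congr 1
    refine Finset.sum_congr rfl fun i hi => ?_
    rw [K8f_mdep hc hj hi x x' hP, hb i hi]

theorem mq_t0 (hc : Chn κ M J b P Vc) (δ : ι → ℝ) {j : ℕ} (hj : j < J) :
    T0 (mq Vc b δ j) ∧ Dep (P j) (mq Vc b δ j) := by
  have H := hc.nice (j + 1) hj
  refine ⟨T0.sum (b j) fun i _ => ((K8f_mt0 H (b j) i).pow 2).cmul (δ i), fun x x' h => ?_⟩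
  unfold mq
  refine Finset.sum_congr rfl fun i hi => ?_
  rw [K8f_mdep hc hj hi x x' h]

/-- `P_j ξ_j = 0`. -/
theorem xi_mean (hc : Chn κ M J b P Vc) (δ : ι → ℝ) {j : ℕ} (hj : j < J) (x : ι → ℝ) :
    PE J b Vc j (xi Vc b δ j) x = 0 := by
  have H := hc.nice (j + 1) hj
  rw [PE_step hj, hc.PE_of_dep hj (xi_t0 hc δ hj).2]
  show CE (Vc (j + 1)) (b j) (fun z =>
    ((∑ i ∈ b j, δ i * (z i - CE (Vc (j + 1)) (b j) (fun z => z i) z) ^ 2) -
      gam (Vc (j + 1)) (b j) δ z) +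
    2 * ∑ i ∈ b j, δ i * CE (Vc (j + 1)) (b j) (fun z => z i) z *
      (z i - CE (Vc (j + 1)) (b j) (fun z => z i) z)) x = 0
  have hg := (gam_t0 hc δ hj).1
  have hgd : Dep (b j)ᶜ (gam (Vc (j + 1)) (b j) δ) := gam_dep _ _ _
  rw [CE_add H (b j) ((K8f_At0 H (b j) δ).sub hg) ((K8f_Bt0 H (b j) δ).cmul 2),
    CE_sub H (b j) (K8f_At0 H (b j) δ) hg, CE_cmul, CE_of_dep H (b j) hgd,
    CE_sum H (b j) (b j) (fun i _ => (((T0.coord i).sub (K8f_mt0 H (b j) i)).pow 2).cmul (δ i)),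
    CE_sum H (b j) (b j)
      (fun i _ => ((K8f_mt0 H (b j) i).cmul (δ i)).mul ((T0.coord i).sub (K8f_mt0 H (b j) i)))]
  have e1 : ∑ i ∈ b j, CE (Vc (j + 1)) (b j)
      (fun z => δ i * (z i - CE (Vc (j + 1)) (b j) (fun z => z i) z) ^ 2) x =
      gam (Vc (j + 1)) (b j) δ x := by
    unfold gam
    refine Finset.sum_congr rfl fun i _ => ?_
    rw [CE_cmul, K8f_ce_sq H]
  have e2 : ∑ i ∈ b j, CE (Vc (j + 1)) (b j)
      (fun z => δ i * CE (Vc (j + 1)) (b j) (fun z => z i) z *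
        (z i - CE (Vc (j + 1)) (b j) (fun z => z i) z)) x = 0 := by
    refine Finset.sum_eq_zero fun i _ => ?_
    have e3 : (fun z : ι → ℝ => δ i * CE (Vc (j + 1)) (b j) (fun z => z i) z *
        (z i - CE (Vc (j + 1)) (b j) (fun z => z i) z)) =
        fun z => δ i * (CE (Vc (j + 1)) (b j) (fun z => z i) z *
          (z i - CE (Vc (j + 1)) (b j) (fun z => z i) z)) := by
      funext z
      ring
    rw [e3, CE_cmul, K8f_ce_lin H, mul_zero]
  rw [e1, e2]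
  ring

private theorem K8f_ex_xi (hc : Chn κ M J b P Vc) (δ : ι → ℝ) {j : ℕ} (hj : j < J) :
    ex (Vc J) (xi Vc b δ j) = 0 := by
  rw [← hc.ex_PE hj.le (xi_t0 hc δ hj).1]
  have e : PE J b Vc j (xi Vc b δ j) = fun _ => 0 := funext fun x => xi_mean hc δ hj x
  rw [e, ex_const (hc.nice j hj.le)]

private theorem K8f_ex_lt (hc : Chn κ M J b P Vc) (δ : ι → ℝ) {i j : ℕ} (hi : i < j) (hj : j < J) :
    ex (Vc J) (fun x => xi Vc b δ i x * xi Vc b δ j x) = 0 := by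
  have hi' : i < J := hi.trans hj
  have h1 := xi_t0 hc δ hi'
  have h2 := xi_t0 hc δ hj
  rw [← hc.ex_PE hj.le (h1.1.mul h2.1)]
  have e : PE J b Vc j (fun x => xi Vc b δ i x * xi Vc b δ j x) = fun _ => 0 := by
    funext x
    rw [hc.PE_mul_dep hj.le (h1.2.mono (hc.P_mono hi hj.le)) h2.1 h1.1, xi_mean hc δ hj, mul_zero]
  rw [e, ex_const (hc.nice j hj.le)]

private theorem K8f_ex_ne (hc : Chn κ M J b P Vc) (δ : ι → ℝ) {i j : ℕ} (hi : i < J) (hj : j < J)
    (h : i ≠ j) : ex (Vc J) (fun x => xi Vc b δ i x * xi Vc b δ j x) = 0 := by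
  rcases Nat.lt_or_gt_of_ne h with h | h
  · exact K8f_ex_lt hc δ h hj
  · have e : (fun x => xi Vc b δ i x * xi Vc b δ j x) =
        fun x => xi Vc b δ j x * xi Vc b δ i x := funext fun x => mul_comm _ _
    rw [e]
    exact K8f_ex_lt hc δ h hi

/-- Martingale differences are orthogonal. -/
theorem xi_orth (hc : Chn κ M J b P Vc) (δ : ι → ℝ) (w : ℕ → ℝ) :
    var (Vc J) (fun x => ∑ j ∈ Finset.range J, w j * xi Vc b δ j x) =
      ∑ j ∈ Finset.range J, w j ^ 2 * ex (Vc J) (fun x => xi Vc b δ j x ^ 2) := by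
  have H := hc.nice J le_rfl
  have ht : ∀ j ∈ Finset.range J, T0 (xi Vc b δ j) :=
    fun j hj => (xi_t0 hc δ (Finset.mem_range.1 hj)).1
  have h0 : ex (Vc J) (fun x => ∑ j ∈ Finset.range J, w j * xi Vc b δ j x) = 0 := by
    rw [ex_sum H _ fun j hj => (ht j hj).cmul (w j)]
    refine Finset.sum_eq_zero fun j hj => ?_
    rw [ex_cmul, K8f_ex_xi hc δ (Finset.mem_range.1 hj), mul_zero]
  rw [var_eq', h0]
  have e : (fun x => (∑ j ∈ Finset.range J, w j * xi Vc b δ j x) ^ 2) =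
      fun x => ∑ i ∈ Finset.range J, ∑ j ∈ Finset.range J,
        (w i * w j) * (xi Vc b δ i x * xi Vc b δ j x) := by
    funext x
    rw [pow_two, Finset.sum_mul_sum]
    exact Finset.sum_congr rfl fun i _ => Finset.sum_congr rfl fun j _ => by ring
  rw [e, ex_sum H _ fun i hi => T0.sum _ fun j hj => ((ht i hi).mul (ht j hj)).cmul (w i * w j)]
  have e2 : ∀ i ∈ Finset.range J, ex (Vc J) (fun x => ∑ j ∈ Finset.range J,
      (w i * w j) * (xi Vc b δ i x * xi Vc b δ j x)) =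
      w i ^ 2 * ex (Vc J) (fun x => xi Vc b δ i x ^ 2) := by
    intro i hi
    rw [ex_sum H _ fun j hj => ((ht i hi).mul (ht j hj)).cmul (w i * w j),
      Finset.sum_eq_single i]
    · rw [ex_cmul]
      have e3 : (fun x => xi Vc b δ i x * xi Vc b δ i x) = fun x => xi Vc b δ i x ^ 2 :=
        funext fun x => (pow_two _).symm
      rw [e3]
      ring
    · intro j hj hne
      rw [ex_cmul, K8f_ex_ne hc δ (Finset.mem_range.1 hi) (Finset.mem_range.1 hj) hne.symm,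
        mul_zero]
    · intro h
      exact absurd hi h
  rw [Finset.sum_congr rfl e2]
  ring

/-- The quadratic part of a row. -/
private theorem K8f_quad {V : (ι → ℝ) → ℝ} (hC4 : 0 ≤ C4) (hB : HB q0 C4) (H : Nice κ M V)
    (h1 : κ ≤ 1) (s : Finset ι) {δ : ι → ℝ} (hδ : ∀ i, |δ i| ≤ 1) (x : ι → ℝ) :
    CE V s (fun z => ((∑ i ∈ s, δ i * (z i - CE V s (fun z => z i) z) ^ 2) - gam V s δ z) ^ 2) x ≤
      4 * N2 q0 C4 V s x := by
  have Hr := H.rown s x
  have e : row s (fun z => ((∑ i ∈ s, δ i * (z i - CE V s (fun z => z i) z) ^ 2) -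
      gam V s δ z) ^ 2) x = fun y => ((∑ i : s, δ i * (y i - mn (row s V x) i) ^ 2) -
        ex (row s V x) (fun y => ∑ i : s, δ i * (y i - mn (row s V x) i) ^ 2)) ^ 2 := by
    funext y
    show ((∑ i ∈ s, δ i * (Function.updateFinset x s y i -
      CE V s (fun z => z i) (Function.updateFinset x s y)) ^ 2) -
      gam V s δ (Function.updateFinset x s y)) ^ 2 = _
    have e1 : gam V s δ (Function.updateFinset x s y) = gam V s δ x := (gam_dep V s δ).rowc x y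
    rw [e1, gam_eq H, ← Finset.sum_coe_sort s]
    congr 2
    refine Finset.sum_congr rfl fun i _ => ?_
    have e2 : CE V s (fun z => z (i : ι)) (Function.updateFinset x s y) =
        CE V s (fun z => z (i : ι)) x := (CE_dep V _ s).rowc x y
    rw [e2, K8f_up, K8f_mn]
  show ex (row s V x) (row s _ x) ≤ _
  rw [e]
  have ht : T0 (fun y : s → ℝ => ∑ i : s, δ i * (y i - mn (row s V x) i) ^ 2) :=
    T0.sum Finset.univ fun i _ => (((T0.coord i).sub (T0.const _)).pow 2).cmul (δ i)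
  rw [← var_eq Hr ht]
  have h := hB s κ M (row s V x) Hr h1 (fun i : s => δ i) (fun i => hδ i)
  rw [Fintype.card_coe] at h
  have hn : 0 ≤ C4 * ((s.card : ℝ) + ((CM (row s V x)) ^ (q0 + 1)).trace) :=
    N2_nonneg q0 hC4 H s x
  exact H1.var_le Hr hn h

/-- The linear part of a row. -/
private theorem K8f_lin {V : (ι → ℝ) → ℝ} (H : Nice κ M V) (s : Finset ι) {δ : ι → ℝ}
    (hδ : ∀ i, |δ i| ≤ 1) (x : ι → ℝ) :
    CE V s (fun z => (∑ i ∈ s, δ i * CE V s (fun z => z i) z *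
        (z i - CE V s (fun z => z i) z)) ^ 2) x ≤
      1 / κ * ∑ i ∈ s, CE V s (fun z => z i) x ^ 2 := by
  have Hr := H.rown s x
  let θ : s → ℝ := fun i => δ i * mn (row s V x) i
  have hθ : T0 (fun y => dt θ y) := T0.dtf θ
  have e : row s (fun z => (∑ i ∈ s, δ i * CE V s (fun z => z i) z *
      (z i - CE V s (fun z => z i) z)) ^ 2) x = fun y => (dt θ y -
        ex (row s V x) (fun y => dt θ y)) ^ 2 := by
    funext y
    show (∑ i ∈ s, δ i * CE V s (fun z => z i) (Function.updateFinset x s y) *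
      (Function.updateFinset x s y i -
        CE V s (fun z => z i) (Function.updateFinset x s y))) ^ 2 = _
    congr 1
    have e3 : ex (row s V x) (fun y => dt θ y) = ∑ i : s, θ i * mn (row s V x) i := by
      show ex (row s V x) (fun y => ∑ i : s, θ i * y i) = _
      rw [ex_sum Hr _ fun i _ => (T0.coord i).cmul (θ i)]
      refine Finset.sum_congr rfl fun i _ => ?_
      rw [ex_cmul]
      rfl
    rw [e3, ← Finset.sum_coe_sort s]
    show _ = (∑ i : s, θ i * y i) - _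
    rw [← Finset.sum_sub_distrib]
    refine Finset.sum_congr rfl fun i _ => ?_
    have e2 : CE V s (fun z => z (i : ι)) (Function.updateFinset x s y) =
        CE V s (fun z => z (i : ι)) x := (CE_dep V _ s).rowc x y
    rw [e2, K8f_up, K8f_mn]
    show δ i * mn (row s V x) i * (y i - mn (row s V x) i) =
      δ i * mn (row s V x) i * y i - δ i * mn (row s V x) i * mn (row s V x) i
    ring
  show ex (row s V x) (row s _ x) ≤ _
  rw [e, ← var_eq Hr hθ]
  refine (CLe_kappa Hr θ).trans ?_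
  have hk : (0 : ℝ) ≤ 1 / κ := by
    have := H.kpos
    positivity
  refine mul_le_mul_of_nonneg_left ?_ hk
  rw [← Finset.sum_coe_sort s]
  unfold sq
  refine Finset.sum_le_sum fun i _ => ?_
  rw [K8f_mn]
  show (δ i * mn (row s V x) i) ^ 2 ≤ _
  rw [mul_pow]
  have h1 : δ i ^ 2 ≤ 1 := by
    rw [← sq_abs]
    have := hδ i
    have h0 := abs_nonneg (δ i)
    nlinarith
  nlinarith [sq_nonneg (mn (row s V x) i)]

/-- `E ξ_j² ≤ 8 E N2_j + 8 κ⁻¹ E |m_j|²`: conditionally on `P_j` (rows) `ξ_j² ≤ 2 (·)² + 2 (·)²`, `H1.var_le`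
for the rows (from `HB`) and `Nice.pi`. -/
theorem xi_sq (hC4 : 0 ≤ C4) (hB : HB q0 C4) (hc : Chn κ M J b P Vc) {δ : ι → ℝ}
    (hδ : ∀ i, |δ i| ≤ 1) {j : ℕ} (hj : j < J) :
    ex (Vc J) (fun x => xi Vc b δ j x ^ 2) ≤
      8 * ex (Vc j) (N2 q0 C4 (Vc (j + 1)) (b j)) +
      8 / κ * ex (Vc j) (fun x => ∑ i ∈ b j, CE (Vc (j + 1)) (b j) (fun z => z i) x ^ 2) := by
  have H := hc.nice (j + 1) hj
  have H0 := hc.nice j hj.le
  have hx := xi_t0 hc δ hj
  have hx2 : T0 (fun x => xi Vc b δ j x ^ 2) := hx.1.pow 2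
  have hd2 : Dep (P (j + 1)) (fun x => xi Vc b δ j x ^ 2) := fun x x' h => by
    show xi Vc b δ j x ^ 2 = xi Vc b δ j x' ^ 2
    rw [hx.2 x x' h]
  rw [← hc.ex_PE hj.le hx2, PE_step hj, hc.PE_of_dep hj hd2]
  have hA := (K8f_At0 H (b j) δ).sub (gam_t0 hc δ hj).1
  have hBB := K8f_Bt0 H (b j) δ
  have hmt : T0 (fun x => ∑ i ∈ b j, CE (Vc (j + 1)) (b j) (fun z => z i) x ^ 2) :=
    T0.sum (b j) fun i _ => (K8f_mt0 H (b j) i).pow 2
  have hN := N2_t0 q0 C4 H (b j)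
  rw [← ex_cmul, ← ex_cmul, ← ex_add H0 (hN.cmul 8) (hmt.cmul (8 / κ))]
  refine ex_mono H0 (CE_t0 H hx2 (b j)) ((hN.cmul 8).add (hmt.cmul (8 / κ))) fun x => ?_
  have h1 := K8f_quad hC4 hB H hc.k1 (b j) hδ x
  have h2 := K8f_lin H (b j) hδ x
  have h3 : CE (Vc (j + 1)) (b j) (fun x => xi Vc b δ j x ^ 2) x ≤
      CE (Vc (j + 1)) (b j) (fun z => 2 * ((∑ i ∈ b j, δ i *
        (z i - CE (Vc (j + 1)) (b j) (fun z => z i) z) ^ 2) -
          gam (Vc (j + 1)) (b j) δ z) ^ 2 +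
        8 * (∑ i ∈ b j, δ i * CE (Vc (j + 1)) (b j) (fun z => z i) z *
          (z i - CE (Vc (j + 1)) (b j) (fun z => z i) z)) ^ 2) x := by
    refine CE_mono H (b j) hx2 (((hA.pow 2).cmul 2).add ((hBB.pow 2).cmul 8)) (fun z => ?_) x
    show xi Vc b δ j z ^ 2 ≤ _
    unfold xi
    nlinarith [sq_nonneg ((∑ i ∈ b j, δ i *
        (z i - CE (Vc (j + 1)) (b j) (fun z => z i) z) ^ 2) -
          gam (Vc (j + 1)) (b j) δ z -
      2 * (∑ i ∈ b j, δ i * CE (Vc (j + 1)) (b j) (fun z => z i) z *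
          (z i - CE (Vc (j + 1)) (b j) (fun z => z i) z)))]
  rw [CE_add H (b j) ((hA.pow 2).cmul 2) ((hBB.pow 2).cmul 8), CE_cmul, CE_cmul] at h3
  have e : 8 / κ * ∑ i ∈ b j, CE (Vc (j + 1)) (b j) (fun z => z i) x ^ 2 =
      8 * (1 / κ * ∑ i ∈ b j, CE (Vc (j + 1)) (b j) (fun z => z i) x ^ 2) := by ring
  rw [e]
  linarith

/-- `E N2_j ≤ C4 (2 + 12^(q0+1)) d_j` (`tr_pow_le` with `a = 6`, `M = 2`, `p = q0 + 1`). -/
theorem N2_le (hC4 : 0 ≤ C4) (hc : Chn κ 2 J b P Vc) (hC : ∀ j ≤ J, CLe (Vc j) 6) {d : ℝ}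
    {j : ℕ} (hj : j < J) (hb : ((b j).card : ℝ) ≤ d)
    (hP : 16 * J / κ ^ (q0 + 4) * ((P j).card : ℝ) ≤ d) :
    ex (Vc j) (N2 q0 C4 (Vc (j + 1)) (b j)) ≤ C4 * (2 + 12 ^ (q0 + 1)) * d := by
  have H := hc.nice (j + 1) hj
  have H0 := hc.nice j hj.le
  have hs := hc.spl (j + 1) hj
  rw [hc.Ps j hj] at hs
  have h := tr_pow_le H hc.k1 hc.m1 (hc.disj j hj) hs (by norm_num : (0 : ℝ) < 6)
    (hC (j + 1) hj) (p := q0 + 1) (by omega)
  rw [← hc.step j hj] at h
  have ht := tr_t0 H (b j) (q0 + 1)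
  have e : ex (Vc j) (N2 q0 C4 (Vc (j + 1)) (b j)) =
      C4 * (((b j).card : ℝ) + ex (Vc j) (fun x => ((CM (row (b j) (Vc (j + 1)) x)) ^
        (q0 + 1)).trace)) := by
    show ex (Vc j) (fun x => C4 * (((b j).card : ℝ) +
      ((CM (row (b j) (Vc (j + 1)) x)) ^ (q0 + 1)).trace)) = _
    rw [ex_cmul, ex_add H0 (T0.const _) ht, ex_const H0]
  rw [e, mul_assoc]
  refine mul_le_mul_of_nonneg_left ?_ hC4
  have hκ := H.kpos
  have hJ : (1 : ℝ) ≤ J := by
    have : 1 ≤ J := by omega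
    exact_mod_cast this
  have hPc : (0 : ℝ) ≤ ((P j).card : ℝ) := Nat.cast_nonneg _
  have hkk : (0 : ℝ) < κ ^ (q0 + 4) := by positivity
  have e2 : (q0 + 1 + 3 : ℕ) = q0 + 4 := by omega
  rw [e2] at h
  have e3 : (4 * (2 : ℝ) / κ ^ (q0 + 4) / 6 ^ 2 * ((P j).card : ℝ)) ≤
      16 * J / κ ^ (q0 + 4) * ((P j).card : ℝ) := by
    refine mul_le_mul_of_nonneg_right ?_ hPc
    rw [div_div, div_le_div_iff₀ (by positivity) hkk]
    nlinarith
  have e4 : ((2 : ℝ) * 6) ^ (q0 + 1) * ((b j).card : ℝ) ≤ 12 ^ (q0 + 1) * d := by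
    have : (2 : ℝ) * 6 = 12 := by norm_num
    rw [this]
    exact mul_le_mul_of_nonneg_left hb (by positivity)
  have e5 : (2 + (12 : ℝ) ^ (q0 + 1)) * d = d + d + 12 ^ (q0 + 1) * d := by ring
  rw [e5]
  refine (add_le_add hb (h.trans (add_le_add e4 (e3.trans hP)))).trans (le_of_eq ?_)
  ring

/-- One step down. -/
private theorem K8f_cle {V : (ι → ℝ) → ℝ} (H : Nice κ M V) (h1 : κ ≤ 1) (h2 : 1 ≤ M)
    (s : Finset ι) {a : ℝ} (ha : 1 ≤ a) (hC : CLe V a) : CLe (MG V s) a := by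
  have HM := MG_nice H h1 h2 s
  -- in the coordinates of `s` the measure is a standard Gaussian
  have hibp : ∀ (f : (ι → ℝ) → ℝ), T1 f → ∀ i ∈ s,
      ex (MG V s) (fun x => f x * x i) = ex (MG V s) (pd i f) := by
    intro f hf i hi
    rw [ibp HM hf i]
    congr 1
    funext x
    rw [pd_MG H s x i, if_pos hi]
  have h0 : ∀ i ∈ s, ex (MG V s) (fun x => x i) = 0 := by
    intro i hi
    have h := hibp (fun _ => 1) (T1.const 1) i hi
    have e1 : (fun x : ι → ℝ => (1 : ℝ) * x i) = fun x => x i := funext fun x => one_mul _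
    have e2 : pd i (fun _ : ι → ℝ => (1 : ℝ)) = fun _ => 0 := funext fun x => pd_const 1 i x
    rw [e1, e2, ex_const HM] at h
    exact h
  have hcov : ∀ (θ : ι → ℝ), ∀ i ∈ s, cov (MG V s) (fun x => x i) (fun x => dt θ x) = θ i := by
    intro θ i hi
    have h := hibp (dt θ) (T1.dtf θ) i hi
    have e2 : pd i (dt θ) = fun _ => θ i := funext fun x => pd_dt θ i x
    rw [e2, ex_const HM] at h
    show ex (MG V s) (fun x => x i * dt θ x) - ex (MG V s) (fun x => x i) * _ = _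
    have e3 : (fun x : ι → ℝ => x i * dt θ x) = fun x => dt θ x * x i :=
      funext fun x => mul_comm _ _
    rw [e3, h, h0 i hi]
    ring
  intro θ
  let θ1 : ι → ℝ := fun i => if i ∈ s then 0 else θ i
  let θ2 : ι → ℝ := fun i => if i ∈ s then θ i else 0
  have ed : (fun x => dt θ x) = fun x => dt θ1 x + dt θ2 x := by
    funext x
    unfold dt
    rw [← Finset.sum_add_distrib]
    refine Finset.sum_congr rfl fun i _ => ?_
    show θ i * x i = (if i ∈ s then 0 else θ i) * x i + (if i ∈ s then θ i else 0) * x i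
    split_ifs <;> ring
  have es : sq θ = sq θ1 + sq θ2 := by
    unfold sq
    rw [← Finset.sum_add_distrib]
    refine Finset.sum_congr rfl fun i _ => ?_
    show θ i ^ 2 = (if i ∈ s then 0 else θ i) ^ 2 + (if i ∈ s then θ i else 0) ^ 2
    split_ifs <;> ring
  have e2 : ∀ η : ι → ℝ, cov (MG V s) (fun x => dt θ2 x) (fun x => dt η x) =
      ∑ i ∈ s, θ i * η i := by
    intro η
    have e3 : (fun x => dt θ2 x) = fun x => ∑ i ∈ s, θ i * x i := by
      funext x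
      show ∑ i, (if i ∈ s then θ i else 0) * x i = _
      rw [← Finset.sum_filter_add_sum_filter_not Finset.univ (fun i => i ∈ s)]
      rw [Finset.filter_mem_eq_inter, Finset.univ_inter]
      have e4 : ∑ i ∈ Finset.univ.filter (fun i => i ∉ s), (if i ∈ s then θ i else 0) * x i = 0 :=
        Finset.sum_eq_zero fun i hi => by
          rw [if_neg (Finset.mem_filter.1 hi).2, zero_mul]
      rw [e4, add_zero]
      exact Finset.sum_congr rfl fun i hi => by rw [if_pos hi]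
    rw [e3, cov_sum HM s (fun i _ => (T0.coord i).cmul (θ i)) (T0.dtf η)]
    refine Finset.sum_congr rfl fun i hi => ?_
    rw [cov_cmul, hcov η i hi]
  have v12 : cov (MG V s) (fun x => dt θ1 x) (fun x => dt θ2 x) = 0 := by
    rw [cov_comm, e2]
    refine Finset.sum_eq_zero fun i hi => ?_
    show θ i * (if i ∈ s then 0 else θ i) = 0
    rw [if_pos hi, mul_zero]
  have v22 : var (MG V s) (fun x => dt θ2 x) = sq θ2 := by
    show cov (MG V s) (fun x => dt θ2 x) (fun x => dt θ2 x) = _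
    rw [e2]
    unfold sq
    rw [← Finset.sum_filter_add_sum_filter_not Finset.univ (fun i => i ∈ s)]
    rw [Finset.filter_mem_eq_inter, Finset.univ_inter]
    have e4 : ∑ i ∈ Finset.univ.filter (fun i => i ∉ s), θ2 i ^ 2 = 0 :=
      Finset.sum_eq_zero fun i hi => by
        show (if i ∈ s then θ i else 0) ^ 2 = 0
        rw [if_neg (Finset.mem_filter.1 hi).2]
        norm_num
    rw [e4, add_zero]
    refine Finset.sum_congr rfl fun i hi => ?_
    show θ i * (if i ∈ s then θ i else 0) = (if i ∈ s then θ i else 0) ^ 2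
    rw [if_pos hi]
    ring
  have hd1 : Dep sᶜ (fun x => dt θ1 x) := by
    intro x x' h
    show ∑ i, (if i ∈ s then 0 else θ i) * x i = ∑ i, (if i ∈ s then 0 else θ i) * x' i
    refine Finset.sum_congr rfl fun i _ => ?_
    by_cases hi : i ∈ s
    · rw [if_pos hi, zero_mul, zero_mul]
    · rw [h i (Finset.mem_compl.2 hi)]
  have hd2 : Dep sᶜ (fun x => dt θ1 x * dt θ1 x) := Dep.mul hd1 hd1
  have v11 : var (MG V s) (fun x => dt θ1 x) = var V (fun x => dt θ1 x) := by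
    unfold var cov
    rw [tower_dep H h1 h2 s (T0.dtf θ1) hd1, tower_dep H h1 h2 s ((T0.dtf θ1).mul (T0.dtf θ1)) hd2]
  rw [ed, var_add HM (T0.dtf θ1) (T0.dtf θ2), v12, v22, v11, es]
  have hle := hC θ1
  have hn : 0 ≤ sq θ2 := sq_nn θ2
  nlinarith

/-- The covariance bound passes down the chain. -/
theorem Chn.cle (hc : Chn κ M J b P Vc) {a : ℝ} (ha : 1 ≤ a) (hC : CLe (Vc J) a) :
    ∀ j ≤ J, CLe (Vc j) a := by
  have key : ∀ k, ∀ j, j + k = J → CLe (Vc j) a := by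
    intro k
    induction k with
    | zero =>
      intro j hj
      have : j = J := by omega
      rw [this]
      exact hC
    | succ k ih =>
      intro j hj
      have hjJ : j < J := by omega
      rw [hc.step j hjJ]
      exact K8f_cle (hc.nice (j + 1) hjJ) hc.k1 hc.m1 (b j) ha (ih (j + 1) (by omega))
  intro j hj
  exact key (J - j) j (by omega)

/-- Block theorem (paper 325, 8.6). -/
theorem block_thm (hC4 : 0 ≤ C4) (hB : HB q0 C4) (hc : Chn κ 2 J b P Vc)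
    (hC : CLe (Vc J) 6) (h0 : ∀ i ∈ P J, ex (Vc J) (fun x => x i) = 0) {δ : ι → ℝ}
    (hδ : ∀ i, |δ i| ≤ 1) {w d : ℕ → ℝ} (hw : ∀ j < J, 0 ≤ w j)
    (hb : ∀ j < J, ((b j).card : ℝ) ≤ d j)
    (hP : ∀ j < J, 16 * J / κ ^ (q0 + 4) * ((P j).card : ℝ) ≤ d j) {r : ℕ} (hr : J ≤ 2 ^ r) :
    var (Vc J) (fun x => ∑ j ∈ Finset.range J, w j * ∑ i ∈ b j, δ i * x i ^ 2) ≤
      30 * (C4 * (2 + 12 ^ (q0 + 1)) + 1) * (2 * r + 2) ^ 2 *
        ∑ j ∈ Finset.range J, w j ^ 2 * d j := by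
  have H := hc.nice J le_rfl
  have hκ := H.kpos
  have hCj := hc.cle (by norm_num) hC
  set K : ℝ := C4 * (2 + 12 ^ (q0 + 1)) with hK
  set S : ℝ := ∑ j ∈ Finset.range J, w j ^ 2 * d j with hS
  have hK0 : 0 ≤ K := by positivity
  have hd0 : ∀ j < J, 0 ≤ d j := fun j hj => (Nat.cast_nonneg _).trans (hb j hj)
  have hS0 : 0 ≤ S := Finset.sum_nonneg fun j hj =>
    mul_nonneg (sq_nonneg _) (hd0 j (Finset.mem_range.1 hj))
  have hmean : ∀ j < J, ∀ i ∈ b j, ex (Vc (j + 1)) (fun x => x i) = 0 := by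
    intro j hj i hi
    have hiP : i ∈ P (j + 1) := by
      rw [hc.Ps j hj]
      exact Finset.mem_union_right _ hi
    rw [← hc.ex_dep (i := j + 1) hj (T0.coord i) (fun x x' h => h i hiP)]
    exact h0 i (hc.P_mono hj le_rfl hiP)
  have hpk : ∀ j < J, ∀ c : ℝ, ∀ p : ℕ, p ≤ q0 + 4 → 0 ≤ c → c ≤ 16 →
      c / κ ^ p * ((P j).card : ℝ) * J ≤ d j := by
    intro j hj c p hp hc0 hc16
    refine le_trans ?_ (hP j hj)
    have hPc : (0 : ℝ) ≤ ((P j).card : ℝ) := Nat.cast_nonneg _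
    have hJ0 : (0 : ℝ) ≤ J := Nat.cast_nonneg _
    have hkp : κ ^ (q0 + 4) ≤ κ ^ p := pow_le_pow_of_le_one hκ.le hc.k1 hp
    have h1 : c / κ ^ p ≤ 16 / κ ^ (q0 + 4) :=
      div_le_div₀ (by norm_num) hc16 (by positivity) hkp
    calc c / κ ^ p * ((P j).card : ℝ) * J = c / κ ^ p * (((P j).card : ℝ) * J) := by ring
      _ ≤ 16 / κ ^ (q0 + 4) * (((P j).card : ℝ) * J) :=
        mul_le_mul_of_nonneg_right h1 (by positivity)
      _ = 16 * J / κ ^ (q0 + 4) * ((P j).card : ℝ) := by ring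
  -- the martingale part
  have hA : var (Vc J) (fun x => ∑ j ∈ Finset.range J, w j * xi Vc b δ j x) ≤ (8 * K + 8) * S := by
    rw [xi_orth hc, hS, Finset.mul_sum]
    refine Finset.sum_le_sum fun j hj => ?_
    have hj' := Finset.mem_range.1 hj
    have h1 := xi_sq hC4 hB hc hδ hj'
    have h2 := N2_le hC4 hc hCj hj' (hb j hj') (hP j hj')
    have hs := hc.spl (j + 1) hj'
    rw [hc.Ps j hj'] at hs
    have h3 := mean_sq_le (hc.nice (j + 1) hj') hc.k1 hc.m1 (hc.disj j hj') hs (hmean j hj')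
    rw [← hc.step j hj'] at h3
    have hJ1 : (1 : ℝ) ≤ J := by
      have : 1 ≤ J := by omega
      exact_mod_cast this
    have h4 := hpk j hj' 16 3 (by omega) (by norm_num) le_rfl
    have hPc : (0 : ℝ) ≤ ((P j).card : ℝ) := Nat.cast_nonneg _
    have h5 : 8 / κ * ex (Vc j) (fun x => ∑ i ∈ b j,
        CE (Vc (j + 1)) (b j) (fun z => z i) x ^ 2) ≤ d j := by
      calc 8 / κ * ex (Vc j) (fun x => ∑ i ∈ b j, CE (Vc (j + 1)) (b j) (fun z => z i) x ^ 2)
          ≤ 8 / κ * (2 / κ ^ 2 * ((P j).card : ℝ)) :=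
            mul_le_mul_of_nonneg_left h3 (by positivity)
        _ = 16 / κ ^ 3 * ((P j).card : ℝ) := by
            field_simp
            ring
        _ = 16 / κ ^ 3 * ((P j).card : ℝ) * 1 := (mul_one _).symm
        _ ≤ 16 / κ ^ 3 * ((P j).card : ℝ) * J :=
            mul_le_mul_of_nonneg_left hJ1 (by positivity)
        _ ≤ d j := h4
    have h6 : ex (Vc J) (fun x => xi Vc b δ j x ^ 2) ≤ (8 * K + 8) * d j := by
      have := hd0 j hj'
      nlinarith
    calc w j ^ 2 * ex (Vc J) (fun x => xi Vc b δ j x ^ 2) ≤ w j ^ 2 * ((8 * K + 8) * d j) :=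
          mul_le_mul_of_nonneg_left h6 (sq_nonneg _)
      _ = (8 * K + 8) * (w j ^ 2 * d j) := by ring
  -- the traces
  have hG : var (Vc J) (fun x => ∑ j ∈ Finset.range J,
      w j * gam (Vc (j + 1)) (b j) δ x) ≤ (2 * r + 2) ^ 2 * (K * S) := by
    refine (RM_var hc (fun j x => w j * gam (Vc (j + 1)) (b j) δ x)
      (fun j hj => (gam_t0 hc δ hj).1.cmul (w j)) (fun j hj x x' h => ?_)
      (fun j => w j ^ 2 * ex (Vc j) (N2 q0 C4 (Vc (j + 1)) (b j))) (fun j hj => ?_)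
      (fun m k hm hk => chain_SP hC4 hB hc hδ w hm hk) hr).trans ?_
    · show w j * gam (Vc (j + 1)) (b j) δ x = w j * gam (Vc (j + 1)) (b j) δ x'
      rw [(gam_t0 hc δ hj).2 x x' h]
    · exact mul_nonneg (sq_nonneg _)
        (ex_nonneg _ fun x => N2_nonneg q0 hC4 (hc.nice (j + 1) hj) (b j) x)
    · refine mul_le_mul_of_nonneg_left ?_ (by positivity)
      rw [hS, Finset.mul_sum]
      refine Finset.sum_le_sum fun j hj => ?_
      have hj' := Finset.mem_range.1 hj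
      have h2 := N2_le hC4 hc hCj hj' (hb j hj') (hP j hj')
      calc w j ^ 2 * ex (Vc j) (N2 q0 C4 (Vc (j + 1)) (b j)) ≤ w j ^ 2 * (K * d j) :=
            mul_le_mul_of_nonneg_left h2 (sq_nonneg _)
        _ = K * (w j ^ 2 * d j) := by ring
  -- the means
  have hQ : var (Vc J) (fun x => ∑ j ∈ Finset.range J, w j * mq Vc b δ j x) ≤ S := by
    refine (var_sum_le H (Finset.range J) fun j hj =>
      (mq_t0 hc δ (Finset.mem_range.1 hj)).1.cmul (w j)).trans ?_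
    rw [Finset.card_range, hS, Finset.mul_sum]
    refine Finset.sum_le_sum fun j hj => ?_
    have hj' := Finset.mem_range.1 hj
    have hm := mq_t0 hc δ hj'
    have e1 : var (Vc J) (mq Vc b δ j) = var (Vc j) (mq Vc b δ j) := by
      unfold var cov
      rw [hc.ex_dep hj'.le hm.1 hm.2, hc.ex_dep hj'.le (hm.1.mul hm.1) (Dep.mul hm.2 hm.2)]
    have hs := hc.spl (j + 1) hj'
    rw [hc.Ps j hj'] at hs
    have h3 := mean_quad_le (hc.nice (j + 1) hj') hc.k1 hc.m1 (hc.disj j hj') hs (hmean j hj') hδ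
    rw [← hc.step j hj'] at h3
    have h4 := hpk j hj' 16 4 (by omega) (by norm_num) le_rfl
    have e2 : var (Vc J) (fun x => w j * mq Vc b δ j x) = w j ^ 2 * var (Vc J) (mq Vc b δ j) :=
      var_cmul (Vc J) (mq Vc b δ j) (w j)
    rw [e2, e1]
    have h5 : var (Vc j) (mq Vc b δ j) ≤ 16 / κ ^ 4 * ((P j).card : ℝ) := by
      refine (le_of_eq_of_le rfl h3).trans (le_of_eq ?_)
      norm_num
    have hJ0 : (0 : ℝ) ≤ J := Nat.cast_nonneg _
    calc (J : ℝ) * (w j ^ 2 * var (Vc j) (mq Vc b δ j))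
        ≤ (J : ℝ) * (w j ^ 2 * (16 / κ ^ 4 * ((P j).card : ℝ))) :=
          mul_le_mul_of_nonneg_left (mul_le_mul_of_nonneg_left h5 (sq_nonneg _)) hJ0
      _ = w j ^ 2 * (16 / κ ^ 4 * ((P j).card : ℝ) * J) := by ring
      _ ≤ w j ^ 2 * d j := mul_le_mul_of_nonneg_left h4 (sq_nonneg _)
  have tA : T0 (fun x => ∑ j ∈ Finset.range J, w j * xi Vc b δ j x) :=
    T0.sum _ fun j hj => (xi_t0 hc δ (Finset.mem_range.1 hj)).1.cmul (w j)
  have tG : T0 (fun x => ∑ j ∈ Finset.range J, w j * gam (Vc (j + 1)) (b j) δ x) :=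
    T0.sum _ fun j hj => (gam_t0 hc δ (Finset.mem_range.1 hj)).1.cmul (w j)
  have tQ : T0 (fun x => ∑ j ∈ Finset.range J, w j * mq Vc b δ j x) :=
    T0.sum _ fun j hj => (mq_t0 hc δ (Finset.mem_range.1 hj)).1.cmul (w j)
  have e : (fun x : ι → ℝ => ∑ j ∈ Finset.range J, w j * ∑ i ∈ b j, δ i * x i ^ 2) =
      fun x => ((∑ j ∈ Finset.range J, w j * xi Vc b δ j x) +
        ∑ j ∈ Finset.range J, w j * gam (Vc (j + 1)) (b j) δ x) +
        ∑ j ∈ Finset.range J, w j * mq Vc b δ j x := by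
    funext x
    rw [← Finset.sum_add_distrib, ← Finset.sum_add_distrib]
    refine Finset.sum_congr rfl fun j _ => ?_
    rw [block_decomp Vc b δ j x]
    ring
  rw [e]
  have v1 := var_add_le H (tA.add tG) tQ
  have v2 := var_add_le H tA tG
  have hr4 : (4 : ℝ) ≤ (2 * r + 2) ^ 2 := by
    have : (0 : ℝ) ≤ r := Nat.cast_nonneg _
    nlinarith
  have hKS : 0 ≤ K * S := mul_nonneg hK0 hS0
  have v3 : var (Vc J) (fun x => ((∑ j ∈ Finset.range J, w j * xi Vc b δ j x) +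
        ∑ j ∈ Finset.range J, w j * gam (Vc (j + 1)) (b j) δ x) +
        ∑ j ∈ Finset.range J, w j * mq Vc b δ j x) ≤
      4 * ((8 * K + 8) * S) + 4 * ((2 * r + 2) ^ 2 * (K * S)) + 2 * S := by
    linarith
  refine v3.trans ?_
  have e5 : 30 * (K + 1) * (2 * (r : ℝ) + 2) ^ 2 * S =
      30 * ((2 * (r : ℝ) + 2) ^ 2 * (K * S)) + 30 * ((2 * (r : ℝ) + 2) ^ 2 * S) := by ring
  rw [e5]
  have e6 : 4 * (K * S) ≤ (2 * (r : ℝ) + 2) ^ 2 * (K * S) := mul_le_mul_of_nonneg_right hr4 hKS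
  have e7 : 4 * S ≤ (2 * (r : ℝ) + 2) ^ 2 * S := mul_le_mul_of_nonneg_right hr4 hS0
  nlinarith

end

end Pool.Agent.Lib.MP_8d00da_gt.h42k
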