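import Pool.Agent.Lib.MP_8d00da_gt.h42k.KDefs2

/-!
# Dyadic blocks of the spectrum
-/

namespace Pool.Agent.Lib.MP_8d00da_gt.h42k

open MeasureTheory Set Filter
open scoped Topology NNReal ENNReal ContDiff

set_option linter.unusedSectionVars false
set_option linter.unusedVariables false

variable {ι : Type*} [Fintype ι] [DecidableEq ι]

variable {κ M : ℝ} {V : (ι → ℝ) → ℝ}

/-- Sorting: positions such that `|t|` is non-increasing. -/
theorem exists_sort {ι : Type} [Fintype ι] (t : ι → ℝ) :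
    ∃ e : ι ≃ Fin (Fintype.card ι), ∀ i j, e i ≤ e j → |t j| ≤ |t i| := by
  classical
  refine ⟨(Fintype.equivFin ι).trans
    (Tuple.sort fun i => -|t ((Fintype.equivFin ι).symm i)|).symm, fun i j hij => ?_⟩
  have h := Tuple.monotone_sort (fun i => -|t ((Fintype.equivFin ι).symm i)|) hij
  simp only [Function.comp_apply, Equiv.trans_apply, Equiv.apply_symm_apply,
    Equiv.symm_apply_apply, neg_le_neg_iff] at h
  exact h

private theorem K8g_exp_one : Real.exp 1 < 2.7182818286 := Real.exp_one_lt_d9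

theorem ln_ge (n : ℕ) : 2 ≤ ln n := by
  unfold ln
  rw [Real.le_log_iff_exp_le (by positivity)]
  have h1 : Real.exp 2 = Real.exp 1 * Real.exp 1 := by
    rw [← Real.exp_add]
    norm_num
  have h2 := K8g_exp_one
  have h3 := Real.exp_pos 1
  have h4 : (0 : ℝ) ≤ n := Nat.cast_nonneg n
  rw [h1]
  nlinarith

theorem lln_ge (n : ℕ) : 1 ≤ lln n := by
  unfold lln
  have h0 : (0 : ℝ) ≤ n := Nat.cast_nonneg n
  have h1 : Real.log 16 ≤ Real.log ((n : ℝ) + 16) := Real.log_le_log (by norm_num) (by linarith)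
  have h2 : Real.log 16 = 4 * Real.log 2 := by
    rw [show (16 : ℝ) = 2 ^ (4 : ℕ) by norm_num, Real.log_pow]
    norm_num
  have h3 := Real.log_two_gt_d9
  have h4 := K8g_exp_one
  have h5 : Real.exp 1 ≤ Real.log ((n : ℝ) + 16) := by linarith
  rw [Real.le_log_iff_exp_le (by linarith [Real.exp_pos 1])]
  exact h5

/-- Dyadic blocks: block `j` = positions in `[4^j - 1, 4^(j+1) - 1)`; `τ j = sup |t|` on the block. -/
theorem dyadic {ι : Type} [Fintype ι] [DecidableEq ι] (t : ι → ℝ) :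
    ∃ (J : ℕ) (B : ℕ → Finset ι) (τ : ℕ → ℝ), (J : ℝ) ≤ 2 * ln (Fintype.card ι) ∧
      (∀ i j, i ≠ j → Disjoint (B i) (B j)) ∧ (∀ i, ∃ j < J, i ∈ B j) ∧ (∀ j, 0 ≤ τ j) ∧
      (∀ j, ((B j).card : ℝ) ≤ 3 * 4 ^ j) ∧ (∀ j, ∀ i ∈ B j, |t i| ≤ τ j) ∧
      (∀ j, J ≤ j → B j = ∅) ∧
      ∑ j ∈ Finset.range J, τ j ^ 2 * (3 * 4 ^ j) ≤ 7 * ∑ i, t i ^ 2 := by
  classical
  obtain ⟨e, he⟩ := exists_sort t
  obtain ⟨n, hn⟩ : ∃ n, n = Fintype.card ι := ⟨_, rfl⟩
  obtain ⟨pos, hpos⟩ : ∃ pos : ι → ℕ, ∀ i, pos i = (e i : ℕ) := ⟨fun i => (e i : ℕ), fun _ => rfl⟩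
  have hposlt : ∀ i, pos i < n := fun i => by
    rw [hpos, hn]
    exact (e i).2
  have hinj : Function.Injective pos := fun i j hij => by
    rw [hpos, hpos] at hij
    exact e.injective (Fin.ext hij)
  have hsurj : ∀ p, p < n → ∃ i, pos i = p := fun p hp => by
    refine ⟨e.symm ⟨p, hn ▸ hp⟩, ?_⟩
    rw [hpos, Equiv.apply_symm_apply]
  have hanti : ∀ i j, pos i ≤ pos j → |t j| ≤ |t i| := fun i j hij => by
    refine he i j ?_
    rw [hpos, hpos] at hij
    exact hij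
  obtain ⟨B, hB⟩ : ∃ B : ℕ → Finset ι, ∀ j i, i ∈ B j ↔ (4 ^ j ≤ pos i + 1 ∧ pos i + 1 < 4 ^ (j + 1)) :=
    ⟨fun j => Finset.univ.filter fun i => 4 ^ j ≤ pos i + 1 ∧ pos i + 1 < 4 ^ (j + 1),
      fun j i => by simp⟩
  obtain ⟨τ, hτ⟩ : ∃ τ : ℕ → ℝ, ∀ j, (∀ i, pos i + 1 = 4 ^ j → τ j = |t i|) ∧
      ((∀ i, pos i + 1 ≠ 4 ^ j) → τ j = 0) := by
    refine ⟨fun j => if h : ∃ i, pos i + 1 = 4 ^ j then |t h.choose| else 0, fun j => ⟨?_, ?_⟩⟩
    · intro i hi
      have h : ∃ i, pos i + 1 = 4 ^ j := ⟨i, hi⟩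
      show dite (∃ i, pos i + 1 = 4 ^ j) _ _ = _
      rw [dif_pos h]
      have h2 := h.choose_spec
      have h3 : h.choose = i := hinj (by omega)
      rw [h3]
    · intro h
      have h' : ¬ ∃ i, pos i + 1 = 4 ^ j := fun ⟨i, hi⟩ => h i hi
      show dite (∃ i, pos i + 1 = 4 ^ j) _ _ = _
      rw [dif_neg h']
  have hτ0 : ∀ j, 0 ≤ τ j := fun j => by
    by_cases h : ∃ i, pos i + 1 = 4 ^ j
    · obtain ⟨i, hi⟩ := h
      rw [(hτ j).1 i hi]
      exact abs_nonneg _
    · rw [(hτ j).2 fun i hi => h ⟨i, hi⟩]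
  have h4pos : ∀ j : ℕ, 1 ≤ 4 ^ j := fun j => Nat.one_le_pow _ _ (by norm_num)
  have hcard : ∀ j, (B j).card ≤ 3 * 4 ^ j := fun j => by
    have h1 : (B j).card ≤ (Finset.Ico (4 ^ j) (4 ^ (j + 1))).card := by
      refine Finset.card_le_card_of_injOn (fun i => pos i + 1) ?_ ?_
      · intro i hi
        have := (hB j i).1 hi
        simp only [Finset.coe_Ico, Set.mem_Ico]
        exact this
      · intro i _ i' _ h
        exact hinj (by simpa using h)
    rw [Nat.card_Ico, pow_succ] at h1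
    omega
  have hcard2 : ∀ j, 4 ^ (j + 1) ≤ n + 1 → 3 * 4 ^ j ≤ (B j).card := fun j hj => by
    have h1 : (Finset.Ico (4 ^ j) (4 ^ (j + 1))).card ≤ ((B j).image fun i => pos i + 1).card := by
      refine Finset.card_le_card ?_
      intro p hp
      rw [Finset.mem_Ico] at hp
      have := h4pos j
      obtain ⟨i, hi⟩ := hsurj (p - 1) (by omega)
      rw [Finset.mem_image]
      refine ⟨i, (hB j i).2 ⟨by omega, by omega⟩, by omega⟩
    have h2 := h1.trans Finset.card_image_le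
    rw [Nat.card_Ico, pow_succ] at h2
    omega
  have hle : ∀ j, ∀ i ∈ B j, |t i| ≤ τ j := fun j i hi => by
    have h1 := (hB j i).1 hi
    have := h4pos j
    have := hposlt i
    obtain ⟨i', hi'⟩ := hsurj (4 ^ j - 1) (by omega)
    rw [(hτ j).1 i' (by omega)]
    exact hanti i' i (by omega)
  have hmem : ∀ i, i ∈ B (Nat.log 4 (pos i + 1)) := fun i => by
    rw [hB]
    exact ⟨Nat.pow_log_le_self 4 (by omega), Nat.lt_pow_succ_log_self (by norm_num) _⟩
  have huniq : ∀ i j, i ∈ B j → j = Nat.log 4 (pos i + 1) := fun i j hi => by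
    have h1 := (hB j i).1 hi
    exact (Nat.log_eq_of_pow_le_of_lt_pow h1.1 h1.2).symm
  have hempty : ∀ j, Nat.log 4 n + 1 ≤ j → B j = ∅ := fun j hj => by
    rw [Finset.eq_empty_iff_forall_notMem]
    intro i hi
    have h1 := huniq i j hi
    have h2 : Nat.log 4 (pos i + 1) ≤ Nat.log 4 n := Nat.log_mono_right (hposlt i)
    omega
  refine ⟨Nat.log 4 n + 1, B, τ, ?_, ?_, ?_, hτ0, ?_, hle, hempty, ?_⟩
  · rw [← hn]
    have h2 := ln_ge n
    by_cases h0 : n = 0
    · rw [h0] at h2 ⊢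
      simp only [Nat.log_zero_right, zero_add, Nat.cast_one]
      linarith
    have h3 : 4 ^ (Nat.log 4 n) ≤ n := Nat.pow_log_le_self 4 h0
    have h4 : ((4 : ℝ)) ^ (Nat.log 4 n) ≤ (n : ℝ) + 16 := by
      have : ((4 ^ (Nat.log 4 n) : ℕ) : ℝ) ≤ n := by exact_mod_cast h3
      push_cast at this
      linarith
    have h5 : (Nat.log 4 n : ℝ) * Real.log 4 ≤ ln n := by
      unfold ln
      rw [← Real.log_pow]
      exact Real.log_le_log (by positivity) h4
    have h6 : (1 : ℝ) ≤ Real.log 4 := by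
      rw [show (4 : ℝ) = 2 ^ (2 : ℕ) by norm_num, Real.log_pow]
      have := Real.log_two_gt_d9
      push_cast
      linarith
    have h7 : (0 : ℝ) ≤ Nat.log 4 n := Nat.cast_nonneg _
    push_cast
    nlinarith
  · intro i j hij
    rw [Finset.disjoint_left]
    intro a ha hb
    exact hij ((huniq a i ha).trans (huniq a j hb).symm)
  · intro i
    refine ⟨Nat.log 4 (pos i + 1), ?_, hmem i⟩
    have h2 : Nat.log 4 (pos i + 1) ≤ Nat.log 4 n := Nat.log_mono_right (hposlt i)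
    omega
  · intro j
    exact_mod_cast hcard j
  · rw [Finset.sum_range_succ']
    have hstep : ∀ j, τ (j + 1) ^ 2 * (3 * 4 ^ (j + 1)) ≤ 4 * ∑ i ∈ B j, t i ^ 2 := by
      intro j
      by_cases h : ∃ i, pos i + 1 = 4 ^ (j + 1)
      · obtain ⟨i, hi⟩ := h
        have hti := (hτ (j + 1)).1 i hi
        have h1 : ∀ i' ∈ B j, τ (j + 1) ^ 2 ≤ t i' ^ 2 := by
          intro i' hi'
          have h2 := (hB j i').1 hi'
          rw [hti, sq_abs, ← sq_abs, ← sq_abs (t i')]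
          exact pow_le_pow_left₀ (abs_nonneg _) (hanti i' i (by omega)) 2
        have h3 : ((B j).card : ℝ) * τ (j + 1) ^ 2 ≤ ∑ i ∈ B j, t i ^ 2 := by
          rw [← nsmul_eq_mul]
          exact Finset.card_nsmul_le_sum _ _ _ h1
        have h4 : 3 * 4 ^ j ≤ (B j).card := hcard2 j (by have := hposlt i; omega)
        have h5 : (3 : ℝ) * 4 ^ j ≤ (B j).card := by exact_mod_cast h4
        have h6 : (0 : ℝ) ≤ τ (j + 1) ^ 2 := by positivity
        have h7 := mul_le_mul_of_nonneg_right h5 h6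
        rw [pow_succ (4 : ℝ) j]
        linarith
      · rw [(hτ (j + 1)).2 fun i hi => h ⟨i, hi⟩]
        have : 0 ≤ ∑ i ∈ B j, t i ^ 2 := Finset.sum_nonneg fun i _ => by positivity
        nlinarith
    have h1 : ∑ j ∈ Finset.range (Nat.log 4 n), τ (j + 1) ^ 2 * (3 * 4 ^ (j + 1)) ≤
        4 * ∑ i, t i ^ 2 := by
      refine (Finset.sum_le_sum fun j _ => hstep j).trans ?_
      rw [← Finset.mul_sum]
      refine mul_le_mul_of_nonneg_left ?_ (by norm_num)
      rw [← Finset.sum_biUnion]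
      · exact Finset.sum_le_sum_of_subset_of_nonneg (Finset.subset_univ _)
          fun i _ _ => by positivity
      · intro i _ j _ hij
        show Disjoint (B i) (B j)
        rw [Finset.disjoint_left]
        intro a ha hb
        exact hij ((huniq a i ha).trans (huniq a j hb).symm)
    have h2 : τ 0 ^ 2 ≤ ∑ i, t i ^ 2 := by
      by_cases h : ∃ i, pos i + 1 = 4 ^ 0
      · obtain ⟨i, hi⟩ := h
        rw [(hτ 0).1 i hi, sq_abs]
        exact Finset.single_le_sum (f := fun i => t i ^ 2) (fun i _ => by positivity)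
          (Finset.mem_univ i)
      · rw [(hτ 0).2 fun i hi => h ⟨i, hi⟩]
        have : 0 ≤ ∑ i, t i ^ 2 := Finset.sum_nonneg fun i _ => by positivity
        nlinarith
    rw [pow_zero]
    linarith

end Pool.Agent.Lib.MP_8d00da_gt.h42k
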