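import Pool.Agent.Lib.MP_8d00da_gt.h42k.K8f
import Pool.Agent.Lib.MP_8d00da_gt.h42k.K8g

/-!
# Quadratic forms of strongly log-concave measures with polylogarithmic convexity
-/

namespace Pool.Agent.Lib.MP_8d00da_gt.h42k

open MeasureTheory Set Filter
open scoped Topology NNReal ENNReal ContDiff

set_option linter.unusedSectionVars false
set_option linter.unusedVariables false

variable {ι : Type*} [Fintype ι] [DecidableEq ι]

variable {κ M : ℝ} {V : (ι → ℝ) → ℝ}

section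

variable {ι : Type} [Fintype ι] [DecidableEq ι]

private theorem K8h_trunc {M : ℝ} {J K : ℕ} (hK : K ≤ J) {b P : ℕ → Finset ι}
    {Vc : ℕ → (ι → ℝ) → ℝ} (hc : Chn κ M J b P Vc) : Chn κ M K b P Vc :=
  ⟨hc.k1, hc.m1, fun j hj => hc.nice j (hj.trans hK), fun j hj => hc.step j (hj.trans_le hK),
    hc.P0, fun j hj => hc.Ps j (hj.trans_le hK), fun j hj => hc.disj j (hj.trans_le hK),
    fun j hj => hc.spl j (hj.trans hK)⟩

private theorem K8h_blocks {V : (ι → ℝ) → ℝ} {q0 : ℕ} {C4 : ℝ} (hC4 : 0 ≤ C4) (hB : HB q0 C4)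
    (H : Nice κ 2 V) (h1 : κ ≤ 1) (hC : CLe V 6) (h0 : ∀ i, ex V (fun x => x i) = 0)
    {K : ℕ} {b : ℕ → Finset ι} (hbd : ∀ i j, i < K → j < K → i ≠ j → Disjoint (b i) (b j))
    {δ : ι → ℝ} (hδ : ∀ i, |δ i| ≤ 1) {w d : ℕ → ℝ} (hw : ∀ j < K, 0 ≤ w j)
    (hb : ∀ j < K, ((b j).card : ℝ) ≤ d j)
    (hP : ∀ j < K, 16 * K / κ ^ (q0 + 4) * (((Finset.range j).biUnion b).card : ℝ) ≤ d j)
    {r : ℕ} (hr : K ≤ 2 ^ r) :
    var V (fun x => ∑ j ∈ Finset.range K, w j * ∑ i ∈ b j, δ i * x i ^ 2) ≤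
      30 * (C4 * (2 + 12 ^ (q0 + 1)) + 1) * (2 * r + 2) ^ 2 *
        ∑ j ∈ Finset.range K, w j ^ 2 * d j := by
  classical
  set b' : ℕ → Finset ι := fun j =>
    if j < K then b j else if j = K then ((Finset.range K).biUnion b)ᶜ else ∅ with hb'
  have hb1 : ∀ j, j < K → b' j = b j := fun j hj => by rw [hb']; exact if_pos hj
  have hb2 : b' K = ((Finset.range K).biUnion b)ᶜ := by
    rw [hb']
    show (if K < K then b K else if K = K then ((Finset.range K).biUnion b)ᶜ else ∅) = _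
    rw [if_neg (lt_irrefl K), if_pos rfl]
  have hbU : ∀ j, j ≤ K → (Finset.range j).biUnion b' = (Finset.range j).biUnion b := by
    intro j hj
    refine Finset.biUnion_congr rfl fun a ha => hb1 a ?_
    exact lt_of_lt_of_le (Finset.mem_range.1 ha) hj
  have hdisj : ∀ i j, i < K + 1 → j < K + 1 → i ≠ j → Disjoint (b' i) (b' j) := by
    have key : ∀ i, i < K → Disjoint (b i) (((Finset.range K).biUnion b)ᶜ) := by
      intro i hi
      rw [Finset.disjoint_left]
      intro a ha hc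
      rw [Finset.mem_compl] at hc
      exact hc (Finset.mem_biUnion.2 ⟨i, Finset.mem_range.2 hi, ha⟩)
    intro i j hi hj hij
    rcases Nat.lt_succ_iff_lt_or_eq.1 hi with hi' | rfl
    · rcases Nat.lt_succ_iff_lt_or_eq.1 hj with hj' | rfl
      · rw [hb1 i hi', hb1 j hj']
        exact hbd i j hi' hj' hij
      · rw [hb1 i hi', hb2]
        exact key i hi'
    · rcases Nat.lt_succ_iff_lt_or_eq.1 hj with hj' | rfl
      · rw [hb1 j hj', hb2]
        exact (key j hj').symm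
      · exact absurd rfl hij
  obtain ⟨P, Vc, hc, hPe, hex⟩ := exists_Chn H h1 one_le_two (K + 1) b' hdisj
  have hPu : P (K + 1) = Finset.univ := by
    rw [hPe (K + 1) le_rfl, Finset.range_add_one, Finset.biUnion_insert, hbU K le_rfl, hb2]
    rw [Finset.union_comm]
    exact Finset.union_compl _
  have hexa : ∀ f, T0 f → ex (Vc (K + 1)) f = ex V f := fun f hf =>
    hex f hf fun x x' hx => by
      have : x = x' := funext fun i => hx i (by rw [hPu]; exact Finset.mem_univ i)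
      rw [this]
  have hCL : CLe (Vc (K + 1)) 6 := by
    intro θ
    have h2 : var (Vc (K + 1)) (fun x => dt θ x) = var V (fun x => dt θ x) := by
      unfold var cov
      rw [hexa _ ((T0.dtf θ).mul (T0.dtf θ)), hexa _ (T0.dtf θ)]
    rw [h2]
    exact hC θ
  have hCK : CLe (Vc K) 6 := hc.cle (by norm_num) hCL K (Nat.le_succ K)
  have hcK : Chn κ 2 K b' P Vc := K8h_trunc (Nat.le_succ K) hc
  have hexK : ∀ f, T0 f → Dep (P K) f → ex (Vc K) f = ex V f := fun f hf hd => by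
    rw [← hc.ex_dep (Nat.le_succ K) hf hd]
    exact hexa f hf
  have h0' : ∀ i ∈ P K, ex (Vc K) (fun x => x i) = 0 := by
    intro i hi
    rw [hexK _ (T0.coord i) (fun x x' hx => hx i hi)]
    exact h0 i
  have hPK : P K = (Finset.range K).biUnion b := by
    rw [hPe K (Nat.le_succ K), hbU K le_rfl]
  have hT : T0 (fun x : ι → ℝ => ∑ j ∈ Finset.range K, w j * ∑ i ∈ b j, δ i * x i ^ 2) := by
    refine T0.sum _ fun j _ => ?_
    refine T0.cmul (w j) (f := fun x : ι → ℝ => ∑ i ∈ b j, δ i * x i ^ 2) ?_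
    refine T0.sum _ fun i _ => ?_
    exact T0.cmul (δ i) (f := fun x : ι → ℝ => x i ^ 2) ((T0.coord i).pow 2)
  have hD : Dep (P K) (fun x : ι → ℝ => ∑ j ∈ Finset.range K, w j * ∑ i ∈ b j, δ i * x i ^ 2) := by
    intro x x' hx
    refine Finset.sum_congr rfl fun j hj => ?_
    congr 1
    refine Finset.sum_congr rfl fun i hi => ?_
    rw [hx i]
    rw [hPK]
    exact Finset.mem_biUnion.2 ⟨j, hj, hi⟩
  have hvar : var V (fun x => ∑ j ∈ Finset.range K, w j * ∑ i ∈ b j, δ i * x i ^ 2) =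
      var (Vc K) (fun x => ∑ j ∈ Finset.range K, w j * ∑ i ∈ b' j, δ i * x i ^ 2) := by
    have h3 : (fun x : ι → ℝ => ∑ j ∈ Finset.range K, w j * ∑ i ∈ b' j, δ i * x i ^ 2) =
        fun x => ∑ j ∈ Finset.range K, w j * ∑ i ∈ b j, δ i * x i ^ 2 := by
      funext x
      refine Finset.sum_congr rfl fun j hj => ?_
      rw [hb1 j (Finset.mem_range.1 hj)]
    rw [h3]
    unfold var cov
    rw [hexK _ (hT.mul hT) (fun x x' hx => by
      have := hD x x' hx
      simp only at this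
      simp only [this]), hexK _ hT hD]
  rw [hvar]
  refine block_thm hC4 hB hcK hCK h0' hδ hw ?_ ?_ hr
  · intro j hj
    rw [hb1 j hj]
    exact hb j hj
  · intro j hj
    rw [hPe j (by omega), hbU j hj.le]
    exact hP j hj

private theorem K8h_geo (r S : ℕ) (hS1 : 1 ≤ S) (k : ℕ) :
    (∑ a ∈ Finset.range k, (3 : ℝ) * 4 ^ (r + a * S)) * 4 ^ (S - 1) ≤ 4 ^ (r + k * S) := by
  induction k with
  | zero => simp
  | succ k ih =>
    rw [Finset.sum_range_succ, add_mul]
    have e1 : (4 : ℝ) ^ (r + (k + 1) * S) = 4 * (4 ^ (r + k * S) * 4 ^ (S - 1)) := by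
      have e2 : r + (k + 1) * S = 1 + (r + k * S + (S - 1)) := by
        have : (k + 1) * S = k * S + S := by ring
        omega
      rw [e2, pow_add, pow_add, pow_one]
    have h4 : (1 : ℝ) ≤ 4 ^ (S - 1) := one_le_pow₀ (by norm_num)
    have h5 : (0 : ℝ) < 4 ^ (r + k * S) := by positivity
    have h6 : (4 : ℝ) ^ (r + k * S) ≤ 4 ^ (r + k * S) * 4 ^ (S - 1) := le_mul_of_one_le_right h5.le h4
    rw [e1]
    linarith

/-- One residue class of blocks: `b k = B (r + k S)`, `d k = 3 * 4^(r + k S)`, `w k = τ (r + k S)`. -/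
theorem class_bound {V : (ι → ℝ) → ℝ} {q0 : ℕ} {C4 : ℝ} (hC4 : 0 ≤ C4) (hB : HB q0 C4)
    (H : Nice κ 2 V) (h1 : κ ≤ 1) (hC : CLe V 6) (h0 : ∀ i, ex V (fun x => x i) = 0)
    {J : ℕ} {B : ℕ → Finset ι} {τ : ℕ → ℝ} (hBd : ∀ i j, i ≠ j → Disjoint (B i) (B j))
    (hBe : ∀ j, J ≤ j → B j = ∅) (hτ : ∀ j, 0 ≤ τ j)
    (hBc : ∀ j, ((B j).card : ℝ) ≤ 3 * 4 ^ j) {δ : ι → ℝ} (hδ : ∀ i, |δ i| ≤ 1) {S : ℕ}
    (hS1 : 1 ≤ S) (hS : 16 * J / κ ^ (q0 + 4) ≤ 4 ^ (S - 1)) (r : ℕ) {m : ℕ} (hm : J ≤ 2 ^ m) :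
    var V (fun x => ∑ j ∈ (Finset.range J).filter (fun j => j % S = r),
        τ j * ∑ i ∈ B j, δ i * x i ^ 2) ≤
      30 * (C4 * (2 + 12 ^ (q0 + 1)) + 1) * (2 * m + 2) ^ 2 *
        ∑ j ∈ (Finset.range J).filter (fun j => j % S = r), τ j ^ 2 * (3 * 4 ^ j) := by
  classical
  have hκ := H.kpos
  rcases le_or_gt S r with hr | hr
  · have hfil : (Finset.range J).filter (fun j => j % S = r) = ∅ := by
      refine Finset.filter_eq_empty_iff.2 fun j _ hj => ?_
      have := Nat.mod_lt j (show 0 < S by omega)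
      omega
    rw [hfil]
    simp only [Finset.sum_empty, mul_zero]
    have h3 : var V (fun _ : ι → ℝ => (0 : ℝ)) = 0 := cov_const H (T0.const 0) 0
    rw [h3]
  · set K : ℕ := (J + (S - 1 - r)) / S with hK
    have hfil : (Finset.range J).filter (fun j => j % S = r) =
        (Finset.range K).image (fun k => r + k * S) := by
      ext j
      simp only [Finset.mem_filter, Finset.mem_range, Finset.mem_image]
      constructor
      · rintro ⟨hj, hjr⟩
        have e1 : j = r + (j / S) * S := by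
          have := Nat.mod_add_div j S
          rw [hjr] at this
          rw [mul_comm]
          exact this.symm
        refine ⟨j / S, ?_, e1.symm⟩
        rw [hK, Nat.lt_div_iff_mul_lt (by omega)]
        generalize hq : (j / S) * S = qq at e1
        omega
      · rintro ⟨k, hk, rfl⟩
        have h3 : (k + 1) * S ≤ J + (S - 1 - r) := by
          have : k + 1 ≤ K := hk
          rw [hK, Nat.le_div_iff_mul_le (by omega)] at this
          exact this
        have h4 : (k + 1) * S = k * S + S := by ring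
        constructor
        · omega
        · rw [Nat.add_mul_mod_self_right, Nat.mod_eq_of_lt hr]
    have hinj : Set.InjOn (fun k => r + k * S) (Finset.range K : Set ℕ) := by
      intro a _ a' _ h
      have h3 : a * S = a' * S := Nat.add_left_cancel h
      exact Nat.eq_of_mul_eq_mul_right (by omega) h3
    have hKJ : K ≤ J := by
      by_contra hcon
      push Not at hcon
      have h3 : K * S ≤ J + (S - 1 - r) := Nat.div_mul_le_self _ _
      have h4 : (J + 1) * S ≤ K * S := Nat.mul_le_mul_right S hcon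
      have h5 : (J + 1) * S = J * S + S := by ring
      have h6 : J ≤ J * S := Nat.le_mul_of_pos_right J (by omega)
      omega
    have hsum : ∀ F : ℕ → ℝ, ∑ j ∈ (Finset.range J).filter (fun j => j % S = r), F j =
        ∑ k ∈ Finset.range K, F (r + k * S) := by
      intro F
      rw [hfil, Finset.sum_image hinj]
    simp only [hsum]
    refine K8h_blocks hC4 hB H h1 hC h0 (b := fun k => B (r + k * S)) ?_ hδ
      (w := fun k => τ (r + k * S)) (d := fun k => 3 * 4 ^ (r + k * S)) (fun k _ => hτ _)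
      (fun k _ => hBc _) ?_ (hKJ.trans hm)
    · intro i j _ _ hij
      refine hBd _ _ fun h => hij ?_
      exact Nat.eq_of_mul_eq_mul_right (show 0 < S by omega) (Nat.add_left_cancel h)
    · intro k _
      have h3 : ((((Finset.range k).biUnion fun k => B (r + k * S)).card : ℕ) : ℝ) ≤
          ∑ a ∈ Finset.range k, (3 : ℝ) * 4 ^ (r + a * S) := by
        refine (Nat.cast_le.2 Finset.card_biUnion_le).trans ?_
        rw [Nat.cast_sum]
        exact Finset.sum_le_sum fun a _ => hBc _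
      have h4 := K8h_geo r S hS1 k
      have h5 : 16 * (K : ℝ) / κ ^ (q0 + 4) ≤ 4 ^ (S - 1) := by
        refine le_trans ?_ hS
        have : (K : ℝ) ≤ J := Nat.cast_le.2 hKJ
        gcongr
      have h6 : 0 ≤ 16 * (K : ℝ) / κ ^ (q0 + 4) := by positivity
      have h7 : 0 ≤ ∑ a ∈ Finset.range k, (3 : ℝ) * 4 ^ (r + a * S) :=
        Finset.sum_nonneg fun a _ => by positivity
      calc 16 * (K : ℝ) / κ ^ (q0 + 4) *
            ((((Finset.range k).biUnion fun k => B (r + k * S)).card : ℕ) : ℝ)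
          ≤ 4 ^ (S - 1) * ∑ a ∈ Finset.range k, (3 : ℝ) * 4 ^ (r + a * S) := by
            refine (mul_le_mul_of_nonneg_left h3 h6).trans ?_
            exact mul_le_mul_of_nonneg_right h5 h7
        _ ≤ 4 ^ (r + k * S) := by rw [mul_comm]; exact h4
        _ ≤ 3 * 4 ^ (r + k * S) := by
            have : (0 : ℝ) < 4 ^ (r + k * S) := by positivity
            linarith

/-- Paper 325, 8.7. -/
theorem quad_polylog {q0 : ℕ} {C4 : ℝ} (hC4 : 0 ≤ C4) (hB : HB q0 C4) {c : ℝ} (hc : 0 < c)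
    (hc1 : c ≤ 1) : ∃ C : ℝ, 0 < C ∧ ∀ (α : Type) [Fintype α] [DecidableEq α] (κ : ℝ)
      (V : (α → ℝ) → ℝ), Nice κ 2 V → κ ≤ 1 → c / ln (Fintype.card α) ^ 2 ≤ κ → CLe V 6 →
      (∀ i, ex V (fun x => x i) = 0) → ∀ t : α → ℝ,
        var V (fun x => ∑ i, t i * x i ^ 2) ≤
          C * lln (Fintype.card α) ^ 3 * ∑ i, t i ^ 2 := by
  classical
  set p : ℕ := q0 + 4 with hp
  set E : ℝ := 30 * (C4 * (2 + 12 ^ (q0 + 1)) + 1) with hE
  have hE0 : 0 < E := by positivity
  set A : ℝ := Real.log (32 * (1 / c) ^ p) with hA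
  have h1c : (1 : ℝ) ≤ 1 / c := by rw [le_div_iff₀ hc]; linarith
  have hpc : (1 : ℝ) ≤ (1 / c) ^ p := one_le_pow₀ h1c
  have hA0 : 0 ≤ A := Real.log_nonneg (by linarith)
  refine ⟨700 * E * (A + 2 * p + 3), by positivity, ?_⟩
  intro α _ _ κ V H h1 hκl hC h0 t
  have hκ := H.kpos
  obtain ⟨J, B, τ, hJ, hBd, hcov, hτ, hBc, hBt, hBe, hsum⟩ := dyadic t
  have hL := ln_ge (Fintype.card α)
  have hl := lln_ge (Fintype.card α)
  have hexp : Real.exp (lln (Fintype.card α)) = ln (Fintype.card α) := by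
    unfold lln
    rw [show Real.log ((Fintype.card α : ℕ) + 16 : ℝ) = ln (Fintype.card α) from rfl]
    exact Real.exp_log (by linarith)
  set L := ln (Fintype.card α) with hLd
  set l := lln (Fintype.card α) with hld
  -- the number of residue classes
  have hlog4 : (1 : ℝ) ≤ Real.log 4 := by
    rw [Real.le_log_iff_exp_le (by norm_num)]
    have := Real.exp_one_lt_d9
    linarith
  have hlog2 : (1 : ℝ) / 2 ≤ Real.log 2 := by
    have := Real.log_two_gt_d9
    linarith
  set S : ℕ := 1 + ⌈(A + (2 * p + 1) * l) / Real.log 4⌉₊ with hS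
  have hS1 : 1 ≤ S := Nat.le_add_right _ _
  have hnn : 0 ≤ A + (2 * p + 1) * l := by positivity
  have hSle : (S : ℝ) ≤ (A + 2 * p + 3) * l := by
    have h3 : (⌈(A + (2 * p + 1) * l) / Real.log 4⌉₊ : ℝ) < (A + (2 * p + 1) * l) / Real.log 4 + 1 :=
      Nat.ceil_lt_add_one (by positivity)
    have h4 : (A + (2 * p + 1) * l) / Real.log 4 ≤ A + (2 * p + 1) * l := by
      rw [div_le_iff₀ (by linarith)]
      nlinarith
    rw [hS]
    push_cast
    nlinarith
  have hSpow : 16 * J / κ ^ (q0 + 4) ≤ (4 : ℝ) ^ (S - 1) := by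
    have e1 : S - 1 = ⌈(A + (2 * p + 1) * l) / Real.log 4⌉₊ := by rw [hS]; omega
    have h3 : (4 : ℝ) ^ (S - 1) = Real.exp (Real.log 4 * (S - 1 : ℕ)) := by
      rw [mul_comm, Real.exp_nat_mul, Real.exp_log (by norm_num)]
    have h4 : A + (2 * p + 1) * l ≤ Real.log 4 * (S - 1 : ℕ) := by
      have h5 : (A + (2 * p + 1) * l) / Real.log 4 ≤ ((S - 1 : ℕ) : ℝ) := by
        rw [e1]
        exact Nat.le_ceil _
      rw [div_le_iff₀ (by linarith)] at h5
      linarith
    have h6 : Real.exp (A + (2 * p + 1) * l) = 32 * (1 / c) ^ p * L ^ (2 * p + 1) := by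
      rw [Real.exp_add, hA, Real.exp_log (by positivity)]
      congr 1
      have : (2 * (p : ℝ) + 1) * l = ((2 * p + 1 : ℕ) : ℝ) * l := by push_cast; ring
      rw [this, Real.exp_nat_mul, hexp]
    rw [h3]
    refine le_trans ?_ (Real.exp_le_exp.2 h4)
    rw [h6, ← hp, div_le_iff₀ (by positivity)]
    have h7 : 1 ≤ (1 / c) * L ^ 2 * κ := by
      have h8 : c ≤ κ * L ^ 2 := by rwa [div_le_iff₀ (by positivity)] at hκl
      have h9 : (1 / c) * L ^ 2 * κ = (κ * L ^ 2) / c := by ring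
      rw [h9, le_div_iff₀ hc]
      linarith
    have h10 : 1 ≤ ((1 / c) * L ^ 2 * κ) ^ p := one_le_pow₀ h7
    have h11 : 32 * (1 / c) ^ p * L ^ (2 * p + 1) * κ ^ p = 32 * L * ((1 / c) * L ^ 2 * κ) ^ p := by
      rw [mul_pow, mul_pow, ← pow_mul, pow_succ]
      ring
    rw [h11]
    nlinarith
  -- the exponent
  set m : ℕ := ⌈2 * l⌉₊ + 1 with hm
  have hmJ : J ≤ 2 ^ m := by
    have h3 : (2 : ℝ) ^ m = 2 * Real.exp (Real.log 2 * (⌈2 * l⌉₊ : ℕ)) := by
      rw [mul_comm (Real.log 2), Real.exp_nat_mul, Real.exp_log (by norm_num), hm, pow_succ]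
      ring
    have h4 : l ≤ Real.log 2 * (⌈2 * l⌉₊ : ℕ) := by
      have h5 : 2 * l ≤ (⌈2 * l⌉₊ : ℕ) := Nat.le_ceil _
      nlinarith
    have h6 : (J : ℝ) ≤ ((2 ^ m : ℕ) : ℝ) := by
      push_cast
      rw [h3]
      have h7 := Real.exp_le_exp.2 h4
      rw [hexp] at h7
      linarith
    exact_mod_cast h6
  have hm0 : (0 : ℝ) ≤ m := Nat.cast_nonneg _
  have hmle : 2 * (m : ℝ) + 2 ≤ 10 * l := by
    have h3 : (⌈2 * l⌉₊ : ℝ) < 2 * l + 1 := Nat.ceil_lt_add_one (by positivity)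
    rw [hm]
    push_cast
    linarith
  have hm2 : (2 * (m : ℝ) + 2) ^ 2 ≤ (10 * l) ^ 2 := by
    refine pow_le_pow_left₀ (by positivity) hmle 2
  -- signs
  choose jj hjJ hjB using hcov
  have hjj : ∀ j, ∀ i ∈ B j, jj i = j := by
    intro j i hi
    by_contra hne
    exact (Finset.disjoint_left.1 (hBd _ _ hne)) (hjB i) hi
  set δ : α → ℝ := fun i => if τ (jj i) = 0 then 0 else t i / τ (jj i) with hδd
  have hδ : ∀ i, |δ i| ≤ 1 := by
    intro i
    show |if τ (jj i) = 0 then 0 else t i / τ (jj i)| ≤ 1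
    split_ifs with h
    · simp
    · have hpos : 0 < τ (jj i) := lt_of_le_of_ne (hτ _) (Ne.symm h)
      rw [abs_div, abs_of_pos hpos, div_le_one hpos]
      exact hBt _ _ (hjB i)
  have htδ : ∀ j, ∀ i ∈ B j, τ j * δ i = t i := by
    intro j i hi
    show τ j * (if τ (jj i) = 0 then 0 else t i / τ (jj i)) = t i
    rw [hjj j i hi]
    split_ifs with h
    · have h3 := hBt j i hi
      rw [h] at h3
      have h4 : t i = 0 := abs_nonpos_iff.1 h3
      rw [h4, mul_zero]
    · field_simp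
  have hdec : (fun x : α → ℝ => ∑ i, t i * x i ^ 2) =
      fun x => ∑ r ∈ Finset.range S, ∑ j ∈ (Finset.range J).filter (fun j => j % S = r),
        τ j * ∑ i ∈ B j, δ i * x i ^ 2 := by
    funext x
    rw [Finset.sum_fiberwise_of_maps_to (s := Finset.range J) (t := Finset.range S)
      (g := fun j => j % S) (fun j _ => Finset.mem_range.2 (Nat.mod_lt _ (by omega)))
      (fun j => τ j * ∑ i ∈ B j, δ i * x i ^ 2)]
    have hU : (Finset.univ : Finset α) = (Finset.range J).biUnion B := by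
      ext i
      simp only [Finset.mem_univ, Finset.mem_biUnion, Finset.mem_range, true_iff]
      exact ⟨jj i, hjJ i, hjB i⟩
    rw [hU, Finset.sum_biUnion (fun a _ b _ hab => hBd a b hab)]
    refine Finset.sum_congr rfl fun j _ => ?_
    rw [Finset.mul_sum]
    refine Finset.sum_congr rfl fun i hi => ?_
    rw [← htδ j i hi]
    ring
  have hT : ∀ r ∈ Finset.range S, T0 (fun x : α → ℝ =>
      ∑ j ∈ (Finset.range J).filter (fun j => j % S = r), τ j * ∑ i ∈ B j, δ i * x i ^ 2) := by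
    intro r _
    refine T0.sum _ fun j _ => ?_
    refine T0.cmul (τ j) (f := fun x : α → ℝ => ∑ i ∈ B j, δ i * x i ^ 2) ?_
    refine T0.sum _ fun i _ => ?_
    exact T0.cmul (δ i) (f := fun x : α → ℝ => x i ^ 2) ((T0.coord i).pow 2)
  have hv := var_sum_le H (Finset.range S) hT
  rw [Finset.card_range] at hv
  rw [hdec]
  refine hv.trans ?_
  have hcb : ∀ r ∈ Finset.range S, var V (fun x : α → ℝ =>
      ∑ j ∈ (Finset.range J).filter (fun j => j % S = r), τ j * ∑ i ∈ B j, δ i * x i ^ 2) ≤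
      E * (2 * m + 2) ^ 2 *
        ∑ j ∈ (Finset.range J).filter (fun j => j % S = r), τ j ^ 2 * (3 * 4 ^ j) :=
    fun r _ => class_bound hC4 hB H h1 hC h0 hBd hBe hτ hBc hδ hS1 hSpow r hmJ
  have h3 := Finset.sum_le_sum hcb
  rw [← Finset.mul_sum, Finset.sum_fiberwise_of_maps_to (s := Finset.range J)
    (t := Finset.range S) (g := fun j => j % S)
    (fun j _ => Finset.mem_range.2 (Nat.mod_lt _ (by omega)))
    (fun j => τ j ^ 2 * (3 * 4 ^ j))] at h3
  have hS0 : (0 : ℝ) ≤ S := Nat.cast_nonneg _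
  have ht0 : 0 ≤ ∑ i, t i ^ 2 := Finset.sum_nonneg fun i _ => sq_nonneg _
  have hT0 : 0 ≤ ∑ j ∈ Finset.range J, τ j ^ 2 * (3 * 4 ^ j) :=
    Finset.sum_nonneg fun i _ => by positivity
  calc (S : ℝ) * ∑ r ∈ Finset.range S, var V (fun x : α → ℝ =>
        ∑ j ∈ (Finset.range J).filter (fun j => j % S = r), τ j * ∑ i ∈ B j, δ i * x i ^ 2)
      ≤ (S : ℝ) * (E * (2 * m + 2) ^ 2 * ∑ j ∈ Finset.range J, τ j ^ 2 * (3 * 4 ^ j)) :=
        mul_le_mul_of_nonneg_left h3 hS0
    _ ≤ ((A + 2 * p + 3) * l) * (E * (10 * l) ^ 2 * (7 * ∑ i, t i ^ 2)) := by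
        gcongr
    _ = 700 * E * (A + 2 * p + 3) * l ^ 3 * ∑ i, t i ^ 2 := by ring

end

end Pool.Agent.Lib.MP_8d00da_gt.h42k
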