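import Pool.Agent.Lib.MP_8d00da_gt.h42k.KA5
import Pool.Agent.Lib.MP_8d00da_gt.h42k.KA6

/-!
# Rows
-/

namespace Pool.Agent.Lib.MP_8d00da_gt.h42k

open MeasureTheory Set Filter
open scoped Topology NNReal ENNReal ContDiff

set_option linter.unusedSectionVars false
set_option linter.unusedVariables false

variable {ι : Type*} [Fintype ι] [DecidableEq ι]

variable {κ M : ℝ} {V : (ι → ℝ) → ℝ}

variable {f g : (ι → ℝ) → ℝ}

private theorem KE1_on (x : ι → ℝ) (s : Finset ι) (y : s → ℝ) (i : s) :
    Function.updateFinset x s y i = y i := by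
  simp [Function.updateFinset]

private theorem KE1_off (x : ι → ℝ) (s : Finset ι) (y : s → ℝ) {i : ι} (hi : i ∉ s) :
    Function.updateFinset x s y i = x i := by
  simp [Function.updateFinset, hi]

/-- The linear part of `updateFinset x s`. -/
private noncomputable def KE1_L (s : Finset ι) : (s → ℝ) →L[ℝ] (ι → ℝ) :=
  ContinuousLinearMap.pi fun i =>
    if h : i ∈ s then ContinuousLinearMap.proj (⟨i, h⟩ : s) else 0

private theorem KE1_L_apply (s : Finset ι) (v : s → ℝ) :
    KE1_L s v = Function.updateFinset (0 : ι → ℝ) s v := by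
  funext i
  by_cases h : i ∈ s
  · simp [KE1_L, Function.updateFinset, h]
  · simp [KE1_L, Function.updateFinset, h]

private theorem KE1_up (x : ι → ℝ) (s : Finset ι) (y : s → ℝ) :
    Function.updateFinset x s y = Function.updateFinset x s 0 + KE1_L s y := by
  rw [KE1_L_apply]
  funext i
  by_cases h : i ∈ s
  · simp [Function.updateFinset, h]
  · simp [Function.updateFinset, h]

private theorem KE1_up_single (s : Finset ι) (i : s) :
    Function.updateFinset (0 : ι → ℝ) s (Pi.single i (1 : ℝ)) = Pi.single (i : ι) 1 := by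
  funext j
  by_cases h : j ∈ s
  · by_cases hj : j = i
    · subst hj
      simp [Function.updateFinset]
    · have hj' : (⟨j, h⟩ : s) ≠ i := fun e => hj (by rw [← e])
      simp [Function.updateFinset, h, hj, hj', Pi.single_eq_of_ne]
  · have hj : j ≠ i := fun e => h (by rw [e]; exact i.2)
    simp [Function.updateFinset, h, hj]

private theorem KE1_hasF (x : ι → ℝ) (s : Finset ι) (y : s → ℝ) :
    HasFDerivAt (fun y : s → ℝ => Function.updateFinset x s y) (KE1_L s) y := by
  have h : (fun y : s → ℝ => Function.updateFinset x s y) =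
      fun y => Function.updateFinset x s 0 + KE1_L s y := funext fun y => KE1_up x s y
  rw [h]
  exact (KE1_L s).hasFDerivAt.const_add _

private theorem KE1_cd (x : ι → ℝ) (s : Finset ι) {n : WithTop ℕ∞} :
    ContDiff ℝ n (fun y : s → ℝ => Function.updateFinset x s y) := by
  have h : (fun y : s → ℝ => Function.updateFinset x s y) =
      fun y => Function.updateFinset x s 0 + KE1_L s y := funext fun y => KE1_up x s y
  rw [h]
  exact contDiff_const.add (KE1_L s).contDiff

private theorem KE1_sum (s : Finset ι) (v : s → ℝ) (F : ι → ℝ) :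
    ∑ i, Function.updateFinset (0 : ι → ℝ) s v i * F i = ∑ i : s, v i * F i := by
  rw [← Finset.sum_compl_add_sum s]
  have h1 : ∑ i ∈ sᶜ, Function.updateFinset (0 : ι → ℝ) s v i * F i = 0 := by
    refine Finset.sum_eq_zero fun i hi => ?_
    rw [KE1_off _ _ _ (by simpa using hi)]
    simp
  rw [h1, zero_add, ← Finset.sum_coe_sort s]
  exact Finset.sum_congr rfl fun i _ => by rw [KE1_on]

theorem sq_up (x : ι → ℝ) (s : Finset ι) (y : s → ℝ) :
    sq (Function.updateFinset x s y) = (∑ i ∈ sᶜ, x i ^ 2) + sq y := by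
  unfold sq
  rw [← Finset.sum_compl_add_sum s]
  congr 1
  · exact Finset.sum_congr rfl fun i hi => by rw [KE1_off _ _ _ (by simpa using hi)]
  · rw [← Finset.sum_coe_sort s]
    exact Finset.sum_congr rfl fun i _ => by rw [KE1_on]

private theorem KE1_pg {f : (ι → ℝ) → ℝ} (hf : PG f) (s : Finset ι) (x : ι → ℝ) :
    PG (row s f x) := by
  obtain ⟨C, k, hC, h⟩ := hf.bound
  have hc : 0 ≤ ∑ i ∈ sᶜ, x i ^ 2 := Finset.sum_nonneg fun i _ => sq_nonneg _
  refine ⟨C * (1 + ∑ i ∈ sᶜ, x i ^ 2) ^ k, k, fun y => ?_⟩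
  have hy := sq_nn y
  calc |row s f x y| ≤ C * (1 + sq (Function.updateFinset x s y)) ^ k := h _
    _ ≤ C * ((1 + ∑ i ∈ sᶜ, x i ^ 2) * (1 + sq y)) ^ k := by
        refine mul_le_mul_of_nonneg_left (pow_le_pow_left₀ ?_ ?_ k) hC
        · linarith [sq_nn (Function.updateFinset x s y)]
        · rw [sq_up]
          nlinarith [mul_nonneg hc hy]
    _ = C * (1 + ∑ i ∈ sᶜ, x i ^ 2) ^ k * (1 + sq y) ^ k := by
        rw [mul_pow, mul_assoc]

theorem up_self (x : ι → ℝ) (s : Finset ι) :
    Function.updateFinset x s (fun i => x i) = x := by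
  funext i
  by_cases h : i ∈ s
  · simp [Function.updateFinset, h]
  · simp [Function.updateFinset, h]

theorem T0.rowt (hf : T0 f) (s : Finset ι) (x : ι → ℝ) : T0 (row s f x) :=
  ⟨hf.meas.comp measurable_updateFinset, KE1_pg hf.pg s x⟩

private theorem KE1_pd (hf : Differentiable ℝ f) (s : Finset ι) (x : ι → ℝ) (i : s) (y : s → ℝ) :
    pd i (row s f x) y = row s (pd (i : ι) f) x y := by
  have h1 : HasFDerivAt (row s f x)
      ((fderiv ℝ f (Function.updateFinset x s y)).comp (KE1_L s)) y :=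
    ((hf _).hasFDerivAt).comp y (KE1_hasF x s y)
  unfold pd
  rw [h1.fderiv, ContinuousLinearMap.comp_apply, KE1_L_apply, KE1_up_single]
  rfl


theorem T1.rowt (hf : T1 f) (s : Finset ι) (x : ι → ℝ) : T1 (row s f x) := by
  refine ⟨hf.c1.comp (KE1_cd x s), KE1_pg hf.pg s x, fun i => ?_⟩
  have h : pd i (row s f x) = row s (pd (i : ι) f) x :=
    funext fun y => KE1_pd (hf.c1.differentiable (by norm_num)) s x i y
  rw [h]
  exact KE1_pg (hf.pgd i) s x

theorem pd_row (hf : Differentiable ℝ f) (s : Finset ι) (x : ι → ℝ) (i : s) (y : s → ℝ) :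
    pd i (row s f x) y = row s (pd (i : ι) f) x y := KE1_pd hf s x i y

theorem pd_row' (hf : Differentiable ℝ f) (s : Finset ι) (x : ι → ℝ) (i : s) :
    pd i (row s f x) = row s (pd (i : ι) f) x := funext fun y => pd_row hf s x i y

/-- Hessian of a row: the Hessian of `V` in the direction which is `v` on `s` and `0` off `s`. -/
theorem hs_row (hV : ContDiff ℝ 2 V) (s : Finset ι) (x : ι → ℝ) (y v : s → ℝ) :
    hs (row s V x) y v = hs V (Function.updateFinset x s y) (Function.updateFinset 0 s v) := by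
  have hd : Differentiable ℝ V := hV.differentiable (by norm_num)
  have hpd : ∀ j : ι, Differentiable ℝ (pd j V) := fun j =>
    (contDiff_pd (n := 1) (by exact_mod_cast hV) j).differentiable (by norm_num)
  unfold hs
  have h1 : ∀ i j : s, pd i (pd j (row s V x)) y =
      pd (i : ι) (pd (j : ι) V) (Function.updateFinset x s y) := by
    intro i j
    rw [pd_row' hd, pd_row (hpd j)]
    rfl
  have h2 : ∀ i : ι, ∑ j, Function.updateFinset (0 : ι → ℝ) s v i *
      Function.updateFinset (0 : ι → ℝ) s v j * pd i (pd j V) (Function.updateFinset x s y) =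
      Function.updateFinset (0 : ι → ℝ) s v i *
        ∑ j : s, v j * pd i (pd (j : ι) V) (Function.updateFinset x s y) := by
    intro i
    rw [← KE1_sum s v fun j => pd i (pd j V) (Function.updateFinset x s y), Finset.mul_sum]
    exact Finset.sum_congr rfl fun j _ => by ring
  rw [Finset.sum_congr rfl fun i _ => h2 i, KE1_sum]
  refine Finset.sum_congr rfl fun i _ => ?_
  rw [Finset.mul_sum]
  exact Finset.sum_congr rfl fun j _ => by rw [h1]; ring

private theorem KE1_sq0 (s : Finset ι) (v : s → ℝ) :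
    sq (Function.updateFinset (0 : ι → ℝ) s v) = sq v := by
  rw [sq_up]
  simp

theorem Nice.rown (H : Nice κ M V) (s : Finset ι) (x : ι → ℝ) : Nice κ M (row s V x) where
  kpos := H.kpos
  c2 := H.c2.comp (KE1_cd x s)
  lo := fun y v => by
    rw [hs_row H.c2, ← KE1_sq0 s v]
    exact H.lo _ _
  hi := fun y v => by
    rw [hs_row H.c2, ← KE1_sq0 s v]
    exact H.hi _ _

theorem CE_const (H : Nice κ M V) (s : Finset ι) (c : ℝ) (x : ι → ℝ) :
    CE V s (fun _ => c) x = c := ex_const (H.rown s x) c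

theorem CE_add (H : Nice κ M V) (s : Finset ι) (hf : T0 f) (hg : T0 g) (x : ι → ℝ) :
    CE V s (fun z => f z + g z) x = CE V s f x + CE V s g x :=
  ex_add (H.rown s x) (hf.rowt s x) (hg.rowt s x)

theorem CE_sub (H : Nice κ M V) (s : Finset ι) (hf : T0 f) (hg : T0 g) (x : ι → ℝ) :
    CE V s (fun z => f z - g z) x = CE V s f x - CE V s g x :=
  ex_sub (H.rown s x) (hf.rowt s x) (hg.rowt s x)

theorem CE_cmul (V f : (ι → ℝ) → ℝ) (s : Finset ι) (c : ℝ) (x : ι → ℝ) :
    CE V s (fun z => c * f z) x = c * CE V s f x := ex_cmul (row s V x) (row s f x) c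

theorem CE_sum (H : Nice κ M V) (s : Finset ι) {α : Type*} (S : Finset α)
    {F : α → (ι → ℝ) → ℝ} (hF : ∀ a ∈ S, T0 (F a)) (x : ι → ℝ) :
    CE V s (fun z => ∑ a ∈ S, F a z) x = ∑ a ∈ S, CE V s (F a) x :=
  ex_sum (H.rown s x) S (F := fun a => row s (F a) x) fun a ha => (hF a ha).rowt s x

theorem CE_nonneg (V : (ι → ℝ) → ℝ) (s : Finset ι) (h : ∀ x, 0 ≤ f x) (x : ι → ℝ) :
    0 ≤ CE V s f x := ex_nonneg (row s V x) fun _ => h _

theorem CE_mono (H : Nice κ M V) (s : Finset ι) (hf : T0 f) (hg : T0 g) (h : ∀ x, f x ≤ g x)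
    (x : ι → ℝ) : CE V s f x ≤ CE V s g x :=
  ex_mono (H.rown s x) (hf.rowt s x) (hg.rowt s x) fun _ => h _

/-- Conditional expectations depend only on the coordinates off `s`. -/
theorem CE_dep (V f : (ι → ℝ) → ℝ) (s : Finset ι) : Dep sᶜ (CE V s f) := by
  intro x x' h
  have e : ∀ g : (ι → ℝ) → ℝ, row s g x = row s g x' := by
    intro g
    funext y
    unfold row
    congr 1
    funext i
    by_cases hi : i ∈ s
    · simp [Function.updateFinset, hi]
    · rw [KE1_off _ _ _ hi, KE1_off _ _ _ hi, h i (by simpa using hi)]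
  unfold CE
  rw [e V, e f]

private theorem KE1_row_eq {s : Finset ι} {x x' : ι → ℝ} (h : ∀ i ∈ sᶜ, x i = x' i)
    (g : (ι → ℝ) → ℝ) : row s g x = row s g x' := by
  funext y
  unfold row
  congr 1
  funext i
  by_cases hi : i ∈ s
  · simp [Function.updateFinset, hi]
  · rw [KE1_off _ _ _ hi, KE1_off _ _ _ hi, h i (by simpa using hi)]

theorem CC_dep (V f g : (ι → ℝ) → ℝ) (s : Finset ι) : Dep sᶜ (CC V s f g) := by
  intro x x' h
  unfold CC
  rw [KE1_row_eq h V, KE1_row_eq h f, KE1_row_eq h g]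

theorem MW_dep (V : (ι → ℝ) → ℝ) (s : Finset ι) : Dep sᶜ (MW V s) := by
  intro x x' h
  unfold MW
  rw [KE1_row_eq h V]

theorem Dep.rowc {s : Finset ι} (hf : Dep sᶜ f) (x : ι → ℝ) (y : s → ℝ) :
    row s f x y = f x :=
  hf _ _ fun i hi => KE1_off _ _ _ (by simpa using hi)

theorem CE_of_dep (H : Nice κ M V) (s : Finset ι) (hf : Dep sᶜ f) : CE V s f = f := by
  funext x
  have h : row s f x = fun _ => f x := funext fun y => hf.rowc x y
  unfold CE
  rw [h]
  exact ex_const (H.rown s x) (f x)

theorem CE_mul_dep (V : (ι → ℝ) → ℝ) (s : Finset ι) (hf : Dep sᶜ f) (x : ι → ℝ) :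
    CE V s (fun z => f z * g z) x = f x * CE V s g x := by
  have h : row s (fun z => f z * g z) x = fun y => f x * row s g x y := by
    funext y
    have h1 : row s (fun z => f z * g z) x y = row s f x y * row s g x y := rfl
    rw [h1, hf.rowc x y]
  unfold CE
  rw [h]
  exact ex_cmul _ _ _

theorem CC_eq (V f g : (ι → ℝ) → ℝ) (s : Finset ι) (x : ι → ℝ) :
    CC V s f g x = CE V s (fun z => f z * g z) x - CE V s f x * CE V s g x := rfl

theorem Dep.mono {P Q : Finset ι} (h : Dep P f) (hPQ : P ⊆ Q) : Dep Q f :=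
  fun x x' hx => h x x' fun i hi => hx i (hPQ hi)

/-- A differentiable function which depends only on `P` has zero partial derivatives off `P`. -/
theorem Dep.pd_zero {P : Finset ι} (h : Dep P f) {i : ι} (hi : i ∉ P) (x : ι → ℝ) :
    pd i f x = 0 := by
  unfold pd
  by_cases hd : DifferentiableAt ℝ f x
  · have h1 : HasDerivAt (fun t : ℝ => x + t • (Pi.single i (1 : ℝ) : ι → ℝ))
        (Pi.single i (1 : ℝ)) 0 := by
      simpa using ((hasDerivAt_id (0 : ℝ)).smul_const (Pi.single i (1 : ℝ) : ι → ℝ)).const_add x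
    have h2 : HasDerivAt (fun t : ℝ => f (x + t • (Pi.single i (1 : ℝ) : ι → ℝ)))
        (fderiv ℝ f x (Pi.single i 1)) 0 := by
      have h3 : HasFDerivAt f (fderiv ℝ f x) (x + (0 : ℝ) • (Pi.single i (1 : ℝ) : ι → ℝ)) := by
        simpa using hd.hasFDerivAt
      exact h3.comp_hasDerivAt 0 h1
    have h4 : (fun t : ℝ => f (x + t • (Pi.single i (1 : ℝ) : ι → ℝ))) = fun _ => f x := by
      funext t
      refine h _ _ fun j hj => ?_
      have : j ≠ i := fun e => hi (e ▸ hj)
      simp [Pi.single_eq_of_ne this]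
    rw [h4] at h2
    exact h2.unique (hasDerivAt_const (0 : ℝ) (f x))
  · rw [fderiv_zero_of_not_differentiableAt hd]
    rfl

theorem Dep.pdd {P : Finset ι} (h : Dep P f) (i : ι) : Dep P (pd i f) := by
  intro x x' hx
  have h1 : (fun z => f (z + (x' - x))) = f := by
    funext z
    refine h _ _ fun j hj => ?_
    simp [hx j hj]
  have h2 : fderiv ℝ (fun z => f (z + (x' - x))) x = fderiv ℝ f (x + (x' - x)) :=
    fderiv_comp_add_right (x' - x)
  rw [h1, add_sub_cancel] at h2
  unfold pd
  rw [h2]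

theorem Dep.add {P : Finset ι} (hf : Dep P f) (hg : Dep P g) : Dep P (fun x => f x + g x) :=
  fun x x' hx => by
    show f x + g x = f x' + g x'
    rw [hf x x' hx, hg x x' hx]

theorem Dep.mul {P : Finset ι} (hf : Dep P f) (hg : Dep P g) : Dep P (fun x => f x * g x) :=
  fun x x' hx => by
    show f x * g x = f x' * g x'
    rw [hf x x' hx, hg x x' hx]

/-- Conditional expectation of a function of the coordinates in `P`, if the potential is a function of the
coordinates in `P` plus a function of the other coordinates. -/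
theorem CE_dep_split (H : Nice κ M V) (s P : Finset ι) {V1 V2 : (ι → ℝ) → ℝ}
    (hV : ∀ x, V x = V1 x + V2 x) (h1 : Dep P V1) (h2 : Dep Pᶜ V2) (hs : s ⊆ P) (hf : Dep P f) :
    Dep (P \ s) (CE V s f) := by
  intro x x' hx
  have hup : ∀ y : s → ℝ, ∀ i ∈ P,
      Function.updateFinset x s y i = Function.updateFinset x' s y i := by
    intro y i hi
    by_cases his : i ∈ s
    · simp [Function.updateFinset, his]
    · rw [KE1_off _ _ _ his, KE1_off _ _ _ his, hx i (Finset.mem_sdiff.2 ⟨hi, his⟩)]
  have hoff : ∀ (z : ι → ℝ) (y : s → ℝ), V2 (Function.updateFinset z s y) = V2 z := by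
    intro z y
    refine h2 _ _ fun i hi => KE1_off _ _ _ fun his => ?_
    exact (Finset.mem_compl.1 hi) (hs his)
  have e1 : ∀ z, row s V z = fun y => row s V1 z y + V2 z := by
    intro z
    funext y
    show V (Function.updateFinset z s y) = V1 (Function.updateFinset z s y) + V2 z
    rw [hV, hoff]
  have e2 : row s V1 x = row s V1 x' := funext fun y => h1 _ _ (hup y)
  have e3 : row s f x = row s f x' := funext fun y => hf _ _ (hup y)
  unfold CE
  rw [e1 x, e1 x', ex_addc, ex_addc, e2, e3]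

end Pool.Agent.Lib.MP_8d00da_gt.h42k
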