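import Pool.Agent.Lib.MP_8d00da_gt.h42k.KE1
import Pool.Agent.Lib.MP_8d00da_gt.h42k.KA7

/-!
# Row integrals
-/

namespace Pool.Agent.Lib.MP_8d00da_gt.h42k

open MeasureTheory Set Filter
open scoped Topology NNReal ENNReal ContDiff

set_option linter.unusedSectionVars false
set_option linter.unusedVariables false

variable {ι : Type*} [Fintype ι] [DecidableEq ι]

variable {κ M : ℝ} {V : (ι → ℝ) → ℝ}

variable {f g : (ι → ℝ) → ℝ}

private theorem KE2_off (x : ι → ℝ) (s : Finset ι) (y : s → ℝ) {i : ι} (hi : i ∉ s) :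
    Function.updateFinset x s y i = x i := by
  simp [Function.updateFinset, hi]

/-- The projection onto the coordinates off `s`. -/
private noncomputable def KE2_P (s : Finset ι) : (ι → ℝ) →L[ℝ] (ι → ℝ) :=
  ContinuousLinearMap.pi fun i => if i ∈ s then 0 else ContinuousLinearMap.proj i

private theorem KE2_up (s : Finset ι) (x : ι → ℝ) (y : s → ℝ) :
    Function.updateFinset x s y = KE2_P s x + Function.updateFinset (0 : ι → ℝ) s y := by
  funext i
  by_cases h : i ∈ s
  · simp [KE2_P, Function.updateFinset, h]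
  · simp [KE2_P, Function.updateFinset, h]

private theorem KE2_hasF (s : Finset ι) (x : ι → ℝ) (y : s → ℝ) :
    HasFDerivAt (fun x : ι → ℝ => Function.updateFinset x s y) (KE2_P s) x := by
  have h : (fun x : ι → ℝ => Function.updateFinset x s y) =
      fun x => KE2_P s x + Function.updateFinset (0 : ι → ℝ) s y := funext fun x => KE2_up s x y
  rw [h]
  exact (KE2_P s).hasFDerivAt.add_const _

private theorem KE2_cont (s : Finset ι) (x : ι → ℝ) :
    Continuous (fun y : s → ℝ => Function.updateFinset x s y) := by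
  refine continuous_pi fun i => ?_
  by_cases h : i ∈ s
  · simp only [Function.updateFinset, h, dif_pos]
    exact continuous_apply _
  · simp only [Function.updateFinset, h, dif_neg, not_false_iff]
    exact continuous_const

private theorem KE2_P_single (s : Finset ι) {i : ι} (hi : i ∉ s) :
    KE2_P s (Pi.single i (1 : ℝ)) = Pi.single i 1 := by
  funext j
  by_cases h : j ∈ s
  · have hj : j ≠ i := fun e => hi (e ▸ h)
    simp [KE2_P, h, hj]
  · simp [KE2_P, h]

private theorem KE2_gauss {α : Type*} [Fintype α] {b : ℝ} (hb : 0 < b) :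
    Integrable fun x : α → ℝ => Real.exp (-(b * sq x)) := by
  have h1 : Integrable (fun x : α → ℝ => ∏ i, Real.exp (-b * x i ^ 2)) :=
    MeasureTheory.Integrable.fintype_prod (f := fun _ : α => fun y : ℝ => Real.exp (-b * y ^ 2))
      (fun _ => integrable_exp_neg_mul_sq hb)
  refine h1.congr (Filter.Eventually.of_forall fun x => ?_)
  simp only [← Real.exp_sum]
  congr 1
  unfold sq
  rw [Finset.mul_sum, ← Finset.sum_neg_distrib]
  exact Finset.sum_congr rfl fun i _ => by ring

private theorem KE2_poly {δ s : ℝ} (hδ : 0 < δ) (hs : 0 ≤ s) (k : ℕ) :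
    (1 + s) ^ k ≤ (1 + 1 / δ) ^ k * Real.exp (δ * s * k) := by
  have h1 : 1 + s ≤ (1 + 1 / δ) * Real.exp (δ * s) := by
    have h2 : δ * s + 1 ≤ Real.exp (δ * s) := Real.add_one_le_exp _
    have h3 : (1 + 1 / δ) * (δ * s + 1) ≤ (1 + 1 / δ) * Real.exp (δ * s) := by
      gcongr
    have h4 : (1 + 1 / δ) * (δ * s + 1) = (1 + s) + (δ * s + 1 / δ) := by
      field_simp
      ring
    have h5 : 0 ≤ δ * s + 1 / δ := by positivity
    linarith
  calc (1 + s) ^ k ≤ ((1 + 1 / δ) * Real.exp (δ * s)) ^ k := by gcongr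
    _ = (1 + 1 / δ) ^ k * Real.exp (δ * s * k) := by
      rw [mul_pow, ← Real.exp_nat_mul]
      congr 2
      ring

/-- Gaussian domination of the rows, uniform for bounded coordinates off `s`. -/
private theorem KE2_dom (H : Nice κ M V) (hf : PG f) (s : Finset ι) {R : ℝ} (hR : 0 ≤ R) :
    ∃ B : (s → ℝ) → ℝ, Integrable B ∧ ∀ x : ι → ℝ, (∑ i ∈ sᶜ, x i ^ 2) ≤ R → ∀ y : s → ℝ,
      |f (Function.updateFinset x s y)| * Real.exp (-V (Function.updateFinset x s y)) ≤ B y := by
  obtain ⟨C, k, hC, hfb⟩ := hf.bound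
  have hκ := H.kpos
  set δ : ℝ := κ / (8 * (k + 1)) with hδ
  have hδ0 : 0 < δ := by rw [hδ]; positivity
  set G : ℝ := √(gs V 0) with hG
  set A : ℝ := C * ((1 + R) ^ k * (1 + 1 / δ) ^ k) * Real.exp (G ^ 2 / κ - V 0) with hA
  refine ⟨fun y => A * Real.exp (-(κ / 8 * sq y)), (KE2_gauss (by positivity)).const_mul A,
    fun x hx y => ?_⟩
  set z : ι → ℝ := Function.updateFinset x s y with hz
  set r : ℝ := √(sq z) with hr
  have hr0 : 0 ≤ r := Real.sqrt_nonneg _
  have hr2 : r ^ 2 = sq z := Real.sq_sqrt (sq_nn z)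
  have hsz : sq z = (∑ i ∈ sᶜ, x i ^ 2) + sq y := sq_up x s y
  have hc0 : 0 ≤ ∑ i ∈ sᶜ, x i ^ 2 := Finset.sum_nonneg fun i _ => sq_nonneg _
  have hy0 := sq_nn y
  have hV : V 0 - G * r + κ / 2 * r ^ 2 ≤ V z := by
    have h1 := H.lower 0 z
    rw [zero_add] at h1
    have h2 : |gd V 0 z| ≤ G * r := by
      have hgs : 0 ≤ gs V 0 := Finset.sum_nonneg fun i _ => _root_.sq_nonneg _
      rw [hG, hr, ← Real.sqrt_mul hgs]
      exact Real.abs_le_sqrt (gd_sq_le V 0 z)
    have h3 := neg_abs_le (gd V 0 z)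
    rw [hr2]
    linarith
  have hV2 : V 0 - G ^ 2 / κ + κ / 4 * sq y ≤ V z := by
    have h8 : 0 ≤ (κ * r - 2 * G) ^ 2 / (4 * κ) := by positivity
    have h9 : (κ * r - 2 * G) ^ 2 / (4 * κ) = κ / 4 * r ^ 2 + G ^ 2 / κ - G * r := by
      field_simp
      ring
    have h10 : κ / 4 * sq y ≤ κ / 4 * r ^ 2 := by
      rw [hr2, hsz]
      have : 0 ≤ κ / 4 := by positivity
      nlinarith
    linarith
  have h4 : |f z| ≤ C * ((1 + R) ^ k * ((1 + 1 / δ) ^ k * Real.exp (δ * sq y * k))) := by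
    refine (hfb z).trans (mul_le_mul_of_nonneg_left ?_ hC)
    calc (1 + sq z) ^ k ≤ ((1 + R) * (1 + sq y)) ^ k := by
          refine pow_le_pow_left₀ (by linarith [sq_nn z]) ?_ k
          rw [hsz]
          nlinarith [mul_nonneg hR hy0]
      _ = (1 + R) ^ k * (1 + sq y) ^ k := by rw [mul_pow]
      _ ≤ (1 + R) ^ k * ((1 + 1 / δ) ^ k * Real.exp (δ * sq y * k)) :=
          mul_le_mul_of_nonneg_left (KE2_poly hδ0 hy0 k) (by positivity)
  have h5 : δ * sq y * k ≤ κ / 8 * sq y := by
    have h6 : δ * k ≤ κ / 8 := by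
      rw [hδ, div_mul_eq_mul_div, div_le_div_iff₀ (by positivity) (by norm_num)]
      nlinarith
    nlinarith
  calc |f z| * Real.exp (-V z)
      ≤ (C * ((1 + R) ^ k * ((1 + 1 / δ) ^ k * Real.exp (δ * sq y * k)))) *
          Real.exp (-V z) := by gcongr
    _ = C * ((1 + R) ^ k * (1 + 1 / δ) ^ k) * Real.exp (δ * sq y * k + -V z) := by
        rw [Real.exp_add]; ring
    _ ≤ C * ((1 + R) ^ k * (1 + 1 / δ) ^ k) *
          Real.exp (G ^ 2 / κ - V 0 + -(κ / 8 * sq y)) := by
        have hle : δ * sq y * k + -V z ≤ G ^ 2 / κ - V 0 + -(κ / 8 * sq y) := by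
          linarith
        gcongr
    _ = A * Real.exp (-(κ / 8 * sq y)) := by rw [Real.exp_add, hA]; ring

/-- The integrand. -/
private noncomputable def KE2_F (V f : (ι → ℝ) → ℝ) (z : ι → ℝ) : ℝ := f z * Real.exp (-V z)

private theorem KE2_Fc1 (H : Nice κ M V) (hf : T1 f) : ContDiff ℝ 1 (KE2_F V f) :=
  hf.c1.mul (H.t1.c1.neg.exp)

private theorem KE2_Fpd (H : Nice κ M V) (hf : T1 f) (i : ι) (z : ι → ℝ) :
    pd i (KE2_F V f) z = (pd i f z - f z * pd i V z) * Real.exp (-V z) := by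
  have hd : Differentiable ℝ fun z => Real.exp (-V z) := fun z =>
    (((H.c2.differentiable (by norm_num)) z).hasFDerivAt.neg.exp).differentiableAt
  have he : pd i (fun z => Real.exp (-V z)) z = -(pd i V z * Real.exp (-V z)) := by
    have h1 : HasFDerivAt V (fderiv ℝ V z) z :=
      ((H.c2.differentiable (by norm_num)) z).hasFDerivAt
    have h2 := h1.neg.exp
    have h3 : fderiv ℝ (fun x => Real.exp (-V x)) z = Real.exp (-V z) • -fderiv ℝ V z := h2.fderiv
    unfold pd
    rw [h3]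
    simp
    ring
  have h := pd_mul (hf.c1.differentiable (by norm_num)) hd i z
  rw [he] at h
  unfold KE2_F
  rw [h]
  ring

private theorem KE2_norm (F : (ι → ℝ) → ℝ) (z : ι → ℝ) :
    ‖fderiv ℝ F z‖ ≤ ∑ i, |pd i F z| := by
  refine ContinuousLinearMap.opNorm_le_bound _ (Finset.sum_nonneg fun i _ => abs_nonneg _)
    fun x => ?_
  rw [fderiv_eq_gd, Real.norm_eq_abs, Finset.sum_mul]
  unfold gd
  refine (Finset.abs_sum_le_sum_abs _ _).trans (Finset.sum_le_sum fun i _ => ?_)
  rw [abs_mul, mul_comm]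
  exact mul_le_mul_of_nonneg_left (norm_le_pi_norm x i) (abs_nonneg _)

/-- The derivative of the integrand in `x`. -/
private noncomputable def KE2_D (V f : (ι → ℝ) → ℝ) (s : Finset ι) (x : ι → ℝ) (y : s → ℝ) :
    (ι → ℝ) →L[ℝ] ℝ :=
  (fderiv ℝ (KE2_F V f) (Function.updateFinset x s y)).comp (KE2_P s)

private theorem KE2_bd (H : Nice κ M V) (hf : T1 f) (s : Finset ι) (x₀ : ι → ℝ) :
    ∃ B : (s → ℝ) → ℝ, Integrable B ∧ ∀ x ∈ Metric.ball x₀ 1, ∀ y : s → ℝ,
      ‖KE2_D V f s x y‖ ≤ B y := by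
  set R : ℝ := ∑ i ∈ sᶜ, (|x₀ i| + 1) ^ 2 with hR
  have hR0 : 0 ≤ R := Finset.sum_nonneg fun i _ => sq_nonneg _
  have hG : ∀ i, PG (fun z => pd i f z - f z * pd i V z) := fun i =>
    (hf.pgd i).sub (hf.pg.mul (H.t1.pgd i))
  choose B hB1 hB2 using fun i => KE2_dom H (hG i) s hR0
  refine ⟨fun y => (∑ i, B i y) * ‖KE2_P s‖, ?_, fun x hx y => ?_⟩
  · exact (integrable_finsetSum _ fun i _ => hB1 i).mul_const _
  · have hxR : (∑ i ∈ sᶜ, x i ^ 2) ≤ R := by
      refine Finset.sum_le_sum fun i _ => ?_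
      have h1 : |x i - x₀ i| < 1 := by
        have h2 := (dist_le_pi_dist x x₀ i).trans_lt (Metric.mem_ball.1 hx)
        rwa [Real.dist_eq] at h2
      have h3 : |x i| ≤ |x₀ i| + 1 := by
        have := abs_sub_abs_le_abs_sub (x i) (x₀ i)
        linarith
      rw [← sq_abs (x i)]
      exact pow_le_pow_left₀ (abs_nonneg _) h3 2
    unfold KE2_D
    refine (ContinuousLinearMap.opNorm_comp_le _ _).trans ?_
    refine mul_le_mul_of_nonneg_right ((KE2_norm _ _).trans ?_) (norm_nonneg _)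
    refine Finset.sum_le_sum fun i _ => ?_
    rw [KE2_Fpd H hf, abs_mul, Real.abs_exp]
    exact hB2 i x hxR y

private theorem KE2_Dmeas (H : Nice κ M V) (hf : T1 f) (s : Finset ι) (x : ι → ℝ) :
    AEStronglyMeasurable (KE2_D V f s x) volume := by
  have hc : Continuous (fderiv ℝ (KE2_F V f)) := (KE2_Fc1 H hf).continuous_fderiv (by norm_num)
  exact ((hc.comp (KE2_cont s x)).clm_comp continuous_const).aestronglyMeasurable

private theorem KE2_main (H : Nice κ M V) (hf : T1 f) (s : Finset ι) (x₀ : ι → ℝ) :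
    HasFDerivAt (fun x => ∫ y, KE2_F V f (Function.updateFinset x s y))
      (∫ y, KE2_D V f s x₀ y) x₀ := by
  obtain ⟨B, hB1, hB2⟩ := KE2_bd H hf s x₀
  have hd : Differentiable ℝ (KE2_F V f) := (KE2_Fc1 H hf).differentiable (by norm_num)
  refine hasFDerivAt_integral_of_dominated_of_fderiv_le (𝕜 := ℝ) (μ := volume)
    (F := fun x y => KE2_F V f (Function.updateFinset x s y)) (F' := KE2_D V f s)
    (s := Metric.ball x₀ 1) (bound := B) (Metric.ball_mem_nhds x₀ one_pos) ?_ ?_
    (KE2_Dmeas H hf s x₀) ?_ hB1 ?_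
  · exact Filter.Eventually.of_forall fun x =>
      ((KE2_Fc1 H hf).continuous.comp (KE2_cont s x)).aestronglyMeasurable
  · exact (H.rown s x₀).int (hf.t0.rowt s x₀)
  · exact Filter.Eventually.of_forall fun y x hx => hB2 x hx y
  · exact Filter.Eventually.of_forall fun y x hx =>
      ((hd _).hasFDerivAt).comp x (KE2_hasF s x y)

private theorem KE2_mainc (H : Nice κ M V) (hf : T1 f) (s : Finset ι) :
    Continuous fun x => ∫ y, KE2_D V f s x y := by
  have hc : Continuous (fderiv ℝ (KE2_F V f)) := (KE2_Fc1 H hf).continuous_fderiv (by norm_num)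
  rw [continuous_iff_continuousAt]
  intro x₀
  obtain ⟨B, hB1, hB2⟩ := KE2_bd H hf s x₀
  refine continuousAt_of_dominated (bound := B) ?_ ?_ hB1 ?_
  · exact Filter.Eventually.of_forall fun x => KE2_Dmeas H hf s x
  · filter_upwards [Metric.ball_mem_nhds x₀ one_pos] with x hx
    exact Filter.Eventually.of_forall fun y => hB2 x hx y
  · refine Filter.Eventually.of_forall fun y => ?_
    have h1 : Continuous fun x : ι → ℝ => Function.updateFinset x s y :=
      continuous_iff_continuousAt.2 fun x => (KE2_hasF s x y).continuousAt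
    exact ((hc.comp h1).clm_comp continuous_const).continuousAt

/-- Unnormalised row integral. -/
noncomputable def RI (V : (ι → ℝ) → ℝ) (s : Finset ι) (f : (ι → ℝ) → ℝ) (x : ι → ℝ) : ℝ :=
  ∫ y, row s f x y * Real.exp (-(row s V x y))

theorem RI_pos (H : Nice κ M V) (s : Finset ι) (x : ι → ℝ) : 0 < RI V s (fun _ => 1) x := by
  have h : RI V s (fun _ => 1) x = ∫ y, Real.exp (-(row s V x y)) := by
    unfold RI row
    simp
  rw [h]
  exact (H.rown s x).zpos

theorem CE_eq (V f : (ι → ℝ) → ℝ) (s : Finset ι) (x : ι → ℝ) :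
    CE V s f x = RI V s f x / RI V s (fun _ => 1) x := by
  have h : RI V s (fun _ => 1) x = ∫ y, Real.exp (-(row s V x y)) := by
    unfold RI row
    simp
  rw [h]
  rfl

theorem MW_eq (V : (ι → ℝ) → ℝ) (s : Finset ι) (x : ι → ℝ) :
    MW V s x = - Real.log (RI V s (fun _ => 1) x) := by
  have h : RI V s (fun _ => 1) x = ∫ y, Real.exp (-(row s V x y)) := by
    unfold RI row
    simp
  rw [h]
  rfl

/-- Differentiation under the integral sign in the coordinates off `s` (domination: `Nice.lower` for the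
rows, locally uniform in `x`). -/
theorem RI_c1 (H : Nice κ M V) (hf : T1 f) (s : Finset ι) : ContDiff ℝ 1 (RI V s f) := by
  have h : fderiv ℝ (RI V s f) = fun x => ∫ y, KE2_D V f s x y :=
    funext fun x => (KE2_main H hf s x).fderiv
  rw [contDiff_one_iff_fderiv, h]
  exact ⟨fun x => (KE2_main H hf s x).differentiableAt, KE2_mainc H hf s⟩

theorem RI_pd (H : Nice κ M V) (hf : T1 f) (s : Finset ι) (x : ι → ℝ) {i : ι} (hi : i ∉ s) :
    pd i (RI V s f) x = RI V s (fun z => pd i f z - f z * pd i V z) x := by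
  obtain ⟨B, hB1, hB2⟩ := KE2_bd H hf s x
  have hI : Integrable (KE2_D V f s x) :=
    Integrable.mono' hB1 (KE2_Dmeas H hf s x)
      (Filter.Eventually.of_forall fun y => hB2 x (Metric.mem_ball_self one_pos) y)
  have h : fderiv ℝ (RI V s f) x = ∫ y, KE2_D V f s x y := (KE2_main H hf s x).fderiv
  unfold pd
  rw [h, ContinuousLinearMap.integral_apply hI]
  unfold RI
  refine integral_congr_ae (Filter.Eventually.of_forall fun y => ?_)
  show KE2_D V f s x y (Pi.single i 1) = _
  unfold KE2_D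
  rw [ContinuousLinearMap.comp_apply, KE2_P_single s hi]
  exact KE2_Fpd H hf i _

theorem RI_pd_in (V f : (ι → ℝ) → ℝ) (s : Finset ι) (x : ι → ℝ) {i : ι} (hi : i ∈ s) :
    pd i (RI V s f) x = 0 := by
  have hD : Dep sᶜ (RI V s f) := by
    intro x x' h
    have e : ∀ g : (ι → ℝ) → ℝ, row s g x = row s g x' := by
      intro g
      funext y
      unfold row
      congr 1
      funext j
      by_cases hj : j ∈ s
      · simp [Function.updateFinset, hj]
      · rw [KE2_off _ _ _ hj, KE2_off _ _ _ hj, h j (by simpa using hj)]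
    unfold RI
    rw [e V, e f]
  exact hD.pd_zero (by simpa using hi) x

end Pool.Agent.Lib.MP_8d00da_gt.h42k
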