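import Pool.Agent.Lib.MP_8d00da_gt.h42k.KE2

/-!
# Conditional expectations: regularity and derivatives
-/

namespace Pool.Agent.Lib.MP_8d00da_gt.h42k

open MeasureTheory Set Filter
open scoped Topology NNReal ENNReal ContDiff

set_option linter.unusedSectionVars false
set_option linter.unusedVariables false

variable {ι : Type*} [Fintype ι] [DecidableEq ι]

variable {κ M : ℝ} {V : (ι → ℝ) → ℝ}

variable {f g : (ι → ℝ) → ℝ}

private theorem KE3_meas_up (s : Finset ι) :
    Measurable fun p : (ι → ℝ) × (s → ℝ) => Function.updateFinset p.1 s p.2 := by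
  rw [measurable_pi_iff]
  intro i
  by_cases h : i ∈ s
  · simp only [Function.updateFinset, h, dite_true]
    exact (measurable_pi_apply (⟨i, h⟩ : s)).comp measurable_snd
  · simp only [Function.updateFinset, h, dite_false]
    exact (measurable_pi_apply i).comp measurable_fst

private theorem KE3_RI_meas (hV : Measurable V) (hf : Measurable f) (s : Finset ι) :
    Measurable (RI V s f) := by
  have h1 : Measurable fun p : (ι → ℝ) × (s → ℝ) =>
      f (Function.updateFinset p.1 s p.2) * Real.exp (-(V (Function.updateFinset p.1 s p.2))) :=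
    (hf.comp (KE3_meas_up s)).mul
      (Real.measurable_exp.comp (hV.comp (KE3_meas_up s)).neg)
  have h2 := h1.stronglyMeasurable.integral_prod_right' (ν := (volume : Measure (s → ℝ)))
  exact h2.measurable

private theorem KE3_gs_pg (H : Nice κ M V) (s : Finset ι) :
    PG (fun x : ι → ℝ => gs (row s V x) 0) := by
  have h1 : (fun x : ι → ℝ => gs (row s V x) 0) =
      fun x => ∑ i : s, (pd (i : ι) V (Function.updateFinset x s 0)) ^ 2 := by
    funext x
    unfold gs
    refine Finset.sum_congr rfl fun i _ => ?_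
    rw [pd_row (H.c2.differentiable (by norm_num))]
    rfl
  rw [h1]
  refine PG.sum Finset.univ (F := fun (i : s) (x : ι → ℝ) =>
    (pd (i : ι) V (Function.updateFinset x s 0)) ^ 2) fun i _ => ?_
  refine PG.pow ?_ 2
  obtain ⟨C, k, hC, hb⟩ := (H.t1.pgd (i : ι)).bound
  refine ⟨C, k, fun x => (hb _).trans ?_⟩
  refine mul_le_mul_of_nonneg_left (pow_le_pow_left₀ ?_ ?_ k) hC
  · linarith [sq_nn (Function.updateFinset x s (0 : s → ℝ))]
  · rw [sq_up]
    have h3 : sq (0 : s → ℝ) = 0 := by simp [sq]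
    have h4 : ∑ i ∈ sᶜ, x i ^ 2 ≤ sq x :=
      Finset.sum_le_sum_of_subset_of_nonneg (Finset.subset_univ _) fun i _ _ => sq_nonneg _
    rw [h3]
    linarith

/-- Measurability: `StronglyMeasurable.integral_prod_right`; growth: `moments_pg` for the rows, whose
gradient at `0` is at most `C (1 + |x|)`. -/
theorem CE_t0 (H : Nice κ M V) (hf : T0 f) (s : Finset ι) : T0 (CE V s f) := by
  have hVm : Measurable V := H.c2.continuous.measurable
  refine ⟨?_, ?_⟩
  · have h1 : CE V s f = fun x => RI V s f x / RI V s (fun _ => 1) x :=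
      funext fun x => CE_eq V f s x
    rw [h1]
    exact (KE3_RI_meas hVm hf.meas s).div (KE3_RI_meas hVm measurable_const s)
  · obtain ⟨C, k, hC, hb⟩ := hf.pg.bound
    have hq : T0 (fun y : s → ℝ => (1 + sq y) ^ k) :=
      ((T0.const 1).add T0.sqf).pow k
    obtain ⟨C', k', hC', hb'⟩ := moments_pg hq H.kpos
    have hb1 : ∀ x, |CE V s f x| ≤ C * (1 + sq x) ^ k * (C' * (1 + gs (row s V x) 0) ^ k') := by
      intro x
      have hn := H.rown s x
      have h2 : |CE V s f x| ≤ ex (row s V x) (fun y => |row s f x y|) :=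
        ex_abs_le hn (hf.rowt s x)
      have h3 : ex (row s V x) (fun y => |row s f x y|) ≤
          ex (row s V x) (fun y => C * (1 + sq x) ^ k * |(1 + sq y) ^ k|) := by
        refine ex_mono hn (hf.rowt s x).abs (hq.abs.cmul _) fun y => ?_
        have hy := sq_nn y
        have hx := sq_nn x
        refine (hb _).trans ?_
        rw [abs_of_nonneg (by positivity), mul_assoc, ← mul_pow]
        refine mul_le_mul_of_nonneg_left (pow_le_pow_left₀ ?_ ?_ k) hC
        · linarith [sq_nn (Function.updateFinset x s y)]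
        · rw [sq_up]
          have h4 : ∑ i ∈ sᶜ, x i ^ 2 ≤ sq x :=
            Finset.sum_le_sum_of_subset_of_nonneg (Finset.subset_univ _) fun i _ _ => sq_nonneg _
          nlinarith [mul_nonneg hx hy]
      rw [ex_cmul] at h3
      have hx := sq_nn x
      refine h2.trans (h3.trans ?_)
      exact mul_le_mul_of_nonneg_left (hb' M (row s V x) hn) (by positivity)
    have hpg : PG (fun x : ι → ℝ =>
        C * (1 + sq x) ^ k * (C' * (1 + gs (row s V x) 0) ^ k')) :=
      ((PG.const C).mul (((PG.const 1).add PG.sqf).pow k)).mul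
        ((PG.const C').mul (((PG.const 1).add (KE3_gs_pg H s)).pow k'))
    exact hpg.mono fun x => (hb1 x).trans (le_abs_self _)

private theorem KE3_RI_eq (H : Nice κ M V) (s : Finset ι) (g : (ι → ℝ) → ℝ) (x : ι → ℝ) :
    RI V s g x = CE V s g x * RI V s (fun _ => 1) x := by
  rw [CE_eq, div_mul_cancel₀ _ (RI_pos H s x).ne']

private theorem KE3_one_c1 (H : Nice κ M V) (s : Finset ι) :
    ContDiff ℝ 1 (RI V s (fun _ => 1)) := RI_c1 H (T1.const 1) s

private theorem KE3_one_pd (H : Nice κ M V) (s : Finset ι) (x : ι → ℝ) {i : ι} (hi : i ∉ s) :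
    pd i (RI V s (fun _ => 1)) x = - (CE V s (pd i V) x * RI V s (fun _ => 1) x) := by
  rw [RI_pd H (T1.const 1) s x hi, KE3_RI_eq H]
  have h1 : (fun z : ι → ℝ => pd i (fun _ : ι → ℝ => (1 : ℝ)) z - 1 * pd i V z) =
      fun z => (-1) * pd i V z := by
    funext z
    rw [pd_const]
    ring
  rw [h1, CE_cmul]
  ring

private theorem KE3_pd_div {F G : (ι → ℝ) → ℝ} (hF : ContDiff ℝ 1 F) (hG : ContDiff ℝ 1 G)
    (hG0 : ∀ x, G x ≠ 0) (x : ι → ℝ) (i : ι) :
    pd i (fun x => F x / G x) x = (pd i F x * G x - F x * pd i G x) / G x ^ 2 := by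
  have hD : Differentiable ℝ (fun x => F x / G x) := (hF.div hG hG0).differentiable (by norm_num)
  have h1 := pd_mul hD (hG.differentiable (by norm_num)) i x
  have h2 : (fun x => F x / G x * G x) = F := funext fun x => div_mul_cancel₀ _ (hG0 x)
  rw [h2] at h1
  have h3 := hG0 x
  rw [h1]
  field_simp
  ring

theorem CE_pd (H : Nice κ M V) (hf : T1 f) (s : Finset ι) (x : ι → ℝ) {i : ι} (hi : i ∉ s) :
    pd i (CE V s f) x = CE V s (pd i f) x - CC V s f (pd i V) x := by
  have h1 : CE V s f = fun x => RI V s f x / RI V s (fun _ => 1) x :=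
    funext fun x => CE_eq V f s x
  have hG := (RI_pos H s x).ne'
  rw [CC_eq]
  conv_lhs => rw [h1]
  rw [KE3_pd_div (RI_c1 H hf s) (KE3_one_c1 H s) (fun x => (RI_pos H s x).ne'),
    RI_pd H hf s x hi, KE3_one_pd H s x hi, KE3_RI_eq H s (fun z => pd i f z - f z * pd i V z),
    KE3_RI_eq H s f,
    CE_sub H s (hf.pdt0 i) (hf.t0.mul (H.t1.pdt0 i))]
  field_simp
  ring

theorem CE_pd_in (V f : (ι → ℝ) → ℝ) (s : Finset ι) (x : ι → ℝ) {i : ι} (hi : i ∈ s) :
    pd i (CE V s f) x = 0 :=
  (CE_dep V f s).pd_zero (fun h => (Finset.mem_compl.1 h) hi) x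

private theorem KE3_CC_t0 (H : Nice κ M V) (hf : T0 f) (hg : T0 g) (s : Finset ι) :
    T0 (CC V s f g) := by
  have h1 : CC V s f g = fun x => CE V s (fun z => f z * g z) x - CE V s f x * CE V s g x :=
    funext fun x => CC_eq V f g s x
  rw [h1]
  exact (CE_t0 H (hf.mul hg) s).sub ((CE_t0 H hf s).mul (CE_t0 H hg s))

theorem CE_t1 (H : Nice κ M V) (hf : T1 f) (s : Finset ι) : T1 (CE V s f) := by
  refine ⟨?_, (CE_t0 H hf.t0 s).pg, fun i => ?_⟩
  · have h1 : CE V s f = fun x => RI V s f x / RI V s (fun _ => 1) x :=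
      funext fun x => CE_eq V f s x
    rw [h1]
    exact (RI_c1 H hf s).div (KE3_one_c1 H s) fun x => (RI_pos H s x).ne'
  · by_cases hi : i ∈ s
    · have h1 : pd i (CE V s f) = fun _ => 0 := funext fun x => CE_pd_in V f s x hi
      rw [h1]
      exact PG.const 0
    · have h1 : pd i (CE V s f) = fun x => CE V s (pd i f) x - CC V s f (pd i V) x :=
        funext fun x => CE_pd H hf s x hi
      rw [h1]
      exact (CE_t0 H (hf.pdt0 i) s).pg.sub (KE3_CC_t0 H hf.t0 (H.t1.pdt0 i) s).pg

theorem CC_t0 (H : Nice κ M V) (hf : T0 f) (hg : T0 g) (s : Finset ι) : T0 (CC V s f g) :=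
  KE3_CC_t0 H hf hg s

theorem CC_t1 (H : Nice κ M V) (hf : T1 f) (hg : T1 g) (s : Finset ι) : T1 (CC V s f g) := by
  have h1 : CC V s f g = fun x => CE V s (fun z => f z * g z) x - CE V s f x * CE V s g x :=
    funext fun x => CC_eq V f g s x
  rw [h1]
  exact (CE_t1 H (hf.mul hg) s).sub ((CE_t1 H hf s).mul (CE_t1 H hg s))

private theorem KE3_MW_c1 (H : Nice κ M V) (s : Finset ι) : ContDiff ℝ 1 (MW V s) := by
  have h1 : MW V s = fun x => - Real.log (RI V s (fun _ => 1) x) := funext fun x => MW_eq V s x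
  rw [h1]
  exact ((KE3_one_c1 H s).log fun x => (RI_pos H s x).ne').neg

theorem MW_pd (H : Nice κ M V) (s : Finset ι) (x : ι → ℝ) {i : ι} (hi : i ∉ s) :
    pd i (MW V s) x = CE V s (pd i V) x := by
  have h1 : MW V s = fun x => - Real.log (RI V s (fun _ => 1) x) := funext fun x => MW_eq V s x
  have hG := (RI_pos H s x).ne'
  have h2 : HasFDerivAt (RI V s (fun _ => 1)) (fderiv ℝ (RI V s (fun _ => 1)) x) x :=
    ((KE3_one_c1 H s).differentiable (by norm_num) x).hasFDerivAt
  have h3 := (h2.log hG).fun_neg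
  have h4 := KE3_one_pd H s x hi
  unfold pd at h4 ⊢
  rw [h1, h3.fderiv]
  simp only [FunLike.coe_neg, Pi.neg_apply, FunLike.coe_smul, Pi.smul_apply,
    smul_eq_mul]
  rw [h4]
  field_simp

theorem MW_pd_in (V : (ι → ℝ) → ℝ) (s : Finset ι) (x : ι → ℝ) {i : ι} (hi : i ∈ s) :
    pd i (MW V s) x = 0 :=
  (MW_dep V s).pd_zero (fun h => (Finset.mem_compl.1 h) hi) x

/-- A differentiable function with `C¹` partial derivatives is `C²`. -/
private theorem KE3_c2_of_pd {F : (ι → ℝ) → ℝ} (hF : Differentiable ℝ F)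
    (hp : ∀ i, ContDiff ℝ 1 (pd i F)) : ContDiff ℝ 2 F := by
  have h1 : fderiv ℝ F = fun x => ∑ i, pd i F x •
      (ContinuousLinearMap.proj i : (ι → ℝ) →L[ℝ] ℝ) := by
    funext x
    ext i
    rw [fderiv_eq_gd]
    unfold gd
    simp only [FunLike.coe_sum, Finset.sum_apply, FunLike.coe_smul, Pi.smul_apply,
      ContinuousLinearMap.proj_apply, smul_eq_mul]
    exact Finset.sum_congr rfl fun j _ => mul_comm _ _
  have h2 : ContDiff ℝ (1 + 1) F := by
    rw [contDiff_succ_iff_fderiv]
    refine ⟨hF, by simp, ?_⟩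
    rw [h1]
    exact ContDiff.sum fun i _ => (hp i).smul contDiff_const
  have h3 : (1 + 1 : WithTop ℕ∞) = 2 := by norm_num
  rwa [h3] at h2

theorem MW_c2 (H : Nice κ M V) (s : Finset ι) : ContDiff ℝ 2 (MW V s) := by
  refine KE3_c2_of_pd ((KE3_MW_c1 H s).differentiable (by norm_num)) fun i => ?_
  by_cases hi : i ∈ s
  · have h1 : pd i (MW V s) = fun _ => 0 := funext fun x => MW_pd_in V s x hi
    rw [h1]
    exact contDiff_const
  · have h1 : pd i (MW V s) = CE V s (pd i V) := funext fun x => MW_pd H s x hi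
    rw [h1]
    exact (CE_t1 H (H.pdt1 i) s).c1

theorem MW_hess (H : Nice κ M V) (s : Finset ι) (x : ι → ℝ) {i j : ι} (hi : i ∉ s) (hj : j ∉ s) :
    pd i (pd j (MW V s)) x = CE V s (pd i (pd j V)) x - CC V s (pd j V) (pd i V) x := by
  have h1 : pd j (MW V s) = CE V s (pd j V) := funext fun x => MW_pd H s x hj
  rw [h1]
  exact CE_pd H (H.pdt1 j) s x hi

theorem MW_hess_in (H : Nice κ M V) (s : Finset ι) (x : ι → ℝ) {i j : ι} (h : i ∈ s ∨ j ∈ s) :
    pd i (pd j (MW V s)) x = 0 := by
  rcases h with hi | hj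
  · exact ((MW_dep V s).pdd j).pd_zero (fun h => (Finset.mem_compl.1 h) hi) x
  · have h1 : pd j (MW V s) = fun _ => 0 := funext fun x => MW_pd_in V s x hj
    rw [h1, pd_const]

/-- Hessian form of the marginal potential in a direction `u` which vanishes on `s`. -/
theorem hs_MW (H : Nice κ M V) (s : Finset ι) (x u : ι → ℝ) (hu : ∀ i ∈ s, u i = 0) :
    hs (MW V s) x u = CE V s (fun z => hs V z u) x -
      CC V s (fun z => gd V z u) (fun z => gd V z u) x := by
  have t1 : ∀ i, T0 (pd i V) := fun i => H.t1.pdt0 i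
  have t2 : ∀ i j, T0 (pd i (pd j V)) := fun i j => (H.pdt1 j).pdt0 i
  -- the Hessian term
  have e1 : CE V s (fun z => hs V z u) x = ∑ i, ∑ j, u i * u j * CE V s (pd i (pd j V)) x := by
    unfold hs
    rw [CE_sum H s Finset.univ (F := fun i z => ∑ j, u i * u j * pd i (pd j V) z)
      (fun i _ => T0.sum Finset.univ fun j _ => (t2 i j).cmul _)]
    refine Finset.sum_congr rfl fun i _ => ?_
    rw [CE_sum H s Finset.univ (F := fun j z => u i * u j * pd i (pd j V) z)
      (fun j _ => (t2 i j).cmul _)]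
    refine Finset.sum_congr rfl fun j _ => ?_
    rw [CE_cmul]
  -- the gradient terms
  have e2 : CE V s (fun z => gd V z u) x = ∑ i, u i * CE V s (pd i V) x := by
    unfold gd
    rw [CE_sum H s Finset.univ (F := fun i z => u i * pd i V z) (fun i _ => (t1 i).cmul _)]
    refine Finset.sum_congr rfl fun i _ => ?_
    rw [CE_cmul]
  have e3 : CE V s (fun z => gd V z u * gd V z u) x =
      ∑ i, ∑ j, u i * u j * CE V s (fun z => pd j V z * pd i V z) x := by
    have h1 : (fun z => gd V z u * gd V z u) =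
        fun z => ∑ i, ∑ j, u i * u j * (pd j V z * pd i V z) := by
      funext z
      unfold gd
      rw [Finset.sum_mul_sum]
      refine Finset.sum_congr rfl fun i _ => Finset.sum_congr rfl fun j _ => ?_
      ring
    rw [h1, CE_sum H s Finset.univ (F := fun i z => ∑ j, u i * u j * (pd j V z * pd i V z))
      (fun i _ => T0.sum Finset.univ fun j _ => ((t1 j).mul (t1 i)).cmul _)]
    refine Finset.sum_congr rfl fun i _ => ?_
    rw [CE_sum H s Finset.univ (F := fun j z => u i * u j * (pd j V z * pd i V z))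
      (fun j _ => ((t1 j).mul (t1 i)).cmul _)]
    refine Finset.sum_congr rfl fun j _ => ?_
    rw [CE_cmul]
  rw [CC_eq, e1, e2, e3, Finset.sum_mul_sum, ← Finset.sum_sub_distrib, ← Finset.sum_sub_distrib]
  unfold hs
  refine Finset.sum_congr rfl fun i _ => ?_
  rw [← Finset.sum_sub_distrib, ← Finset.sum_sub_distrib]
  refine Finset.sum_congr rfl fun j _ => ?_
  by_cases hi : i ∈ s
  · rw [hu i hi]
    ring
  · by_cases hj : j ∈ s
    · rw [hu j hj]
      ring
    · rw [MW_hess H s x hi hj, CC_eq]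
      ring

theorem hs_MW_off (H : Nice κ M V) (s : Finset ι) (x u : ι → ℝ) :
    hs (MW V s) x u = hs (MW V s) x (fun i => if i ∈ s then 0 else u i) := by
  unfold hs
  refine Finset.sum_congr rfl fun i _ => Finset.sum_congr rfl fun j _ => ?_
  by_cases h : i ∈ s ∨ j ∈ s
  · rw [MW_hess_in H s x h, mul_zero, mul_zero]
  · push Not at h
    simp only [h.1, h.2, if_false]

end Pool.Agent.Lib.MP_8d00da_gt.h42k
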