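import Pool.Agent.Lib.MP_8d00da_gt.h42k.KE3
import Pool.Agent.Lib.MP_8d00da_gt.h42k.KD1

/-!
# The two-block identity and marginals of nice potentials
-/

namespace Pool.Agent.Lib.MP_8d00da_gt.h42k

open MeasureTheory Set Filter
open scoped Topology NNReal ENNReal ContDiff

set_option linter.unusedSectionVars false
set_option linter.unusedVariables false

variable {ι : Type*} [Fintype ι] [DecidableEq ι]

variable {κ M : ℝ} {V : (ι → ℝ) → ℝ}

variable {f g : (ι → ℝ) → ℝ}

/-! ## The two-block identity -/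

private theorem KE4_sum_up (s : Finset ι) (v : s → ℝ) (G : ι → ℝ) :
    ∑ j, Function.updateFinset (0 : ι → ℝ) s v j * G j = ∑ j : s, v j * G j := by
  rw [← Finset.sum_subset (Finset.subset_univ s), ← Finset.sum_coe_sort s]
  · refine Finset.sum_congr rfl fun j _ => ?_
    simp [Function.updateFinset]
  · intro j _ hj
    simp [Function.updateFinset, hj]

private theorem KE4_up_add (s : Finset ι) {u : ι → ℝ} (hu : ∀ i ∈ s, u i = 0) (v : s → ℝ) :
    Function.updateFinset u s v = u + Function.updateFinset (0 : ι → ℝ) s v := by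
  funext i
  by_cases hi : i ∈ s
  · simp [Function.updateFinset, hi, hu i hi]
  · simp [Function.updateFinset, hi]

private theorem KE4_gd_t1 (H : Nice κ M V) (u : ι → ℝ) : T1 (fun z => gd V z u) :=
  T1.sum _ fun i _ => (H.pdt1 i).cmul (u i)

private theorem KE4_diff {f : (ι → ℝ) → ℝ} (hf : T1 f) : Differentiable ℝ f :=
  hf.c1.differentiable (by norm_num)

private theorem KE4_pd_gd (H : Nice κ M V) (u : ι → ℝ) (i : ι) (z : ι → ℝ) :
    pd i (fun z => gd V z u) z = ∑ j, u j * pd i (pd j V) z := by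
  have h1 := pd_sum (Finset.univ : Finset ι) (F := fun j z => u j * pd j V z)
    (fun j _ => KE4_diff ((H.pdt1 j).cmul (u j))) i z
  have h2 : pd i (fun z => gd V z u) z = pd i (fun z => ∑ j, u j * pd j V z) z := rfl
  rw [h2, h1]
  exact Finset.sum_congr rfl fun j _ => pd_cmul (KE4_diff (H.pdt1 j)) (u j) i z

private theorem KE4_hs_add (H : Nice κ M V) (z u w : ι → ℝ) :
    hs V z (u + w) = hs V z u + 2 * ∑ j, w j * ∑ i, u i * pd j (pd i V) z + hs V z w := by
  have h1 : ∑ j, w j * ∑ i, u i * pd j (pd i V) z = ∑ i, ∑ j, w i * u j * pd i (pd j V) z := by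
    refine Finset.sum_congr rfl fun i _ => ?_
    rw [Finset.mul_sum]
    exact Finset.sum_congr rfl fun j _ => by ring
  have h2 : ∑ i, ∑ j, w i * u j * pd i (pd j V) z = ∑ i, ∑ j, u i * w j * pd i (pd j V) z := by
    rw [Finset.sum_comm]
    refine Finset.sum_congr rfl fun i _ => Finset.sum_congr rfl fun j _ => ?_
    rw [H.comm j i]
    ring
  have h3 : hs V z (u + w) = hs V z u + (∑ i, ∑ j, w i * u j * pd i (pd j V) z) +
      (∑ i, ∑ j, u i * w j * pd i (pd j V) z) + hs V z w := by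
    unfold hs
    simp only [← Finset.sum_add_distrib]
    refine Finset.sum_congr rfl fun i _ => Finset.sum_congr rfl fun j _ => ?_
    simp only [Pi.add_apply]
    ring
  rw [h3, h1, ← h2]
  ring

/-- The pointwise expansion of the Hessian form. -/
private theorem KE4_split (H : Nice κ M V) (s : Finset ι) (x u : ι → ℝ) (hu : ∀ i ∈ s, u i = 0)
    (y v : s → ℝ) :
    hs V (Function.updateFinset x s y) (Function.updateFinset u s v) =
      (hs V (Function.updateFinset x s y) u +
        2 * ∑ i : s, pd i (row s (fun z => gd V z u) x) y * v i) + hs (row s V x) y v := by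
  rw [KE4_up_add s hu v, KE4_hs_add H, hs_row H.c2, KE4_sum_up]
  congr 3
  refine Finset.sum_congr rfl fun i _ => ?_
  rw [pd_row (KE4_diff (KE4_gd_t1 H u)), mul_comm]
  congr 1
  exact (KE4_pd_gd H u i _).symm

private theorem KE4_hs_t0 (H : Nice κ M V) (u : ι → ℝ) : T0 (fun z => hs V z u) :=
  T0.sum _ fun i _ => T0.sum _ fun j _ => ((H.pdt1 j).pdt0 i).cmul (u i * u j)

private theorem KE4_t1 (H : Nice κ M V) {φ : (ι → ℝ) → ℝ} (hφ : Cc φ) :
    T0 (fun y => hs V y (fun i => pd i φ y)) :=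
  T0.sum _ fun i _ => T0.sum _ fun j _ =>
    ((hφ.pdc i).t1.t0.mul (hφ.pdc j).t1.t0).mul ((H.pdt1 j).pdt0 i)

private theorem KE4_t2 {h φ : (ι → ℝ) → ℝ} (hh : T1 h) (hφ : Cc φ) :
    T0 (fun y => ∑ i, pd i h y * pd i φ y) :=
  T0.sum _ fun i _ => (hh.pdt0 i).mul (hφ.pdc i).t1.t0

private theorem KE4_t3 (H : Nice κ M V) (s : Finset ι) (x u : ι → ℝ) (hu : ∀ i ∈ s, u i = 0)
    {φ : (s → ℝ) → ℝ} (hφ : Cc φ) :
    T0 (fun y => hs V (Function.updateFinset x s y)
      (Function.updateFinset u s fun i => pd i φ y)) := by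
  have e : (fun y => hs V (Function.updateFinset x s y)
      (Function.updateFinset u s fun i => pd i φ y)) = fun y =>
      (hs V (Function.updateFinset x s y) u +
        2 * ∑ i : s, pd i (row s (fun z => gd V z u) x) y * pd i φ y) +
        hs (row s V x) y (fun i => pd i φ y) := by
    funext y
    exact KE4_split H s x u hu y _
  rw [e]
  have t1 : T0 (fun y => hs V (Function.updateFinset x s y) u) := (KE4_hs_t0 H u).rowt s x
  exact (t1.add ((KE4_t2 ((KE4_gd_t1 H u).rowt s x) hφ).cmul 2)).add (KE4_t1 (H.rown s x) hφ)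

/-- Two-block identity (paper 322, 3.3). `h = -(V_u - E V_u)`. -/
theorem two_block (H : Nice κ M V) (s : Finset ι) (x u : ι → ℝ) (hu : ∀ i ∈ s, u i = 0)
    {φ : (s → ℝ) → ℝ} (hφ : Cc φ) :
    hs (MW V s) x u + ex (row s V x) (fun y => (LL (row s V x) φ y +
        (row s (fun z => gd V z u) x y - CE V s (fun z => gd V z u) x)) ^ 2) =
      ex (row s V x) (hq φ) + ex (row s V x) (fun y =>
        hs V (Function.updateFinset x s y) (Function.updateFinset u s fun i => pd i φ y)) := by
  have HW : Nice κ M (row s V x) := H.rown s x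
  have hh : T1 (row s (fun z => gd V z u) x) := (KE4_gd_t1 H u).rowt s x
  have hL : T0 (LL (row s V x) φ) := HW.LLt0 hφ
  set W := row s V x with hW
  set h := row s (fun z => gd V z u) x with hh'
  set c := CE V s (fun z => gd V z u) x with hc
  have hk : T1 (fun y => h y - c) := hh.sub (T1.const _)
  -- step A
  have hA : ex W (fun y => (LL W φ y + (h y - c)) ^ 2) =
      ex W (fun y => LL W φ y ^ 2) + 2 * ex W (fun y => (h y - c) * LL W φ y) +
        ex W (fun y => (h y - c) ^ 2) := by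
    have e : (fun y => (LL W φ y + (h y - c)) ^ 2) =
        fun y => (LL W φ y ^ 2 + 2 * ((h y - c) * LL W φ y)) + (h y - c) ^ 2 := by
      funext y; ring
    rw [e, ex_add HW ((hL.pow 2).add ((hk.t0.mul hL).cmul 2)) (hk.t0.pow 2),
      ex_add HW (hL.pow 2) ((hk.t0.mul hL).cmul 2), ex_cmul]
  have hB := bochner HW hφ
  -- step C
  have hC : ex W (fun y => (h y - c) * LL W φ y) = ex W (fun y => ∑ i, pd i h y * pd i φ y) := by
    rw [ibp_LL HW hk hφ]
    congr 1
    funext y
    refine Finset.sum_congr rfl fun i _ => ?_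
    rw [pd_sub (f := h) (g := fun _ => c) (KE4_diff hh) (differentiable_const _), pd_const,
      sub_zero]
  have hD : ex W (fun y => (h y - c) ^ 2) = var W h := (var_eq HW hh.t0).symm
  have hE : hs (MW V s) x u = ex W (fun y => hs V (Function.updateFinset x s y) u) - var W h :=
    hs_MW H s x u hu
  have hF : ex W (fun y => hs V (Function.updateFinset x s y)
      (Function.updateFinset u s fun i => pd i φ y)) =
      ex W (fun y => hs V (Function.updateFinset x s y) u) +
        2 * ex W (fun y => ∑ i, pd i h y * pd i φ y) +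
        ex W (fun y => hs W y (fun i => pd i φ y)) := by
    have e : (fun y => hs V (Function.updateFinset x s y)
        (Function.updateFinset u s fun i => pd i φ y)) = fun y =>
        (hs V (Function.updateFinset x s y) u + 2 * ∑ i, pd i h y * pd i φ y) +
          hs W y (fun i => pd i φ y) := by
      funext y
      exact KE4_split H s x u hu y _
    have t1 : T0 (fun y => hs V (Function.updateFinset x s y) u) := (KE4_hs_t0 H u).rowt s x
    rw [e, ex_add HW (t1.add ((KE4_t2 hh hφ).cmul 2)) (KE4_t1 HW hφ),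
      ex_add HW t1 ((KE4_t2 hh hφ).cmul 2), ex_cmul]
  rw [hA, hB, hC, hD, hE, hF]
  ring

private theorem KE4_sq_up (s : Finset ι) {u : ι → ℝ} (hu : ∀ i ∈ s, u i = 0) (v : s → ℝ) :
    sq u ≤ sq (Function.updateFinset u s v) := by
  rw [sq_up]
  have h1 : sq u = ∑ i ∈ sᶜ, u i ^ 2 := by
    unfold sq
    rw [← Finset.sum_add_sum_compl s (fun i => u i ^ 2)]
    rw [Finset.sum_eq_zero, zero_add]
    intro i hi
    rw [hu i hi]
    ring
  rw [h1]
  linarith [sq_nn v]

/-- `two_block` with `φ` from `PD_seq` for the row: `κ|u|² ≤ D²W[u,u]`. -/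
theorem MW_hess_ge (H : Nice κ M V) (s : Finset ι) (x u : ι → ℝ) (hu : ∀ i ∈ s, u i = 0) :
    κ * sq u ≤ hs (MW V s) x u := by
  have HW : Nice κ M (row s V x) := H.rown s x
  have hh : T1 (row s (fun z => gd V z u) x) := (KE4_gd_t1 H u).rowt s x
  have hk : T0 (fun y => -(row s (fun z => gd V z u) x y - CE V s (fun z => gd V z u) x)) :=
    (hh.t0.sub (T0.const _)).neg
  have h0 : ex (row s V x)
      (fun y => -(row s (fun z => gd V z u) x y - CE V s (fun z => gd V z u) x)) = 0 := by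
    rw [ex_neg, ex_sub HW hh.t0 (T0.const _), ex_const HW]
    have e : CE V s (fun z => gd V z u) x =
      ex (row s V x) (row s (fun z => gd V z u) x) := rfl
    rw [e, sub_self, neg_zero]
  obtain ⟨φ, hφ, hlim, -, -⟩ := PD_seq HW hk h0
  have hk : ∀ k, κ * sq u ≤ hs (MW V s) x u + ex (row s V x) (fun y => (LL (row s V x) (φ k) y -
      -(row s (fun z => gd V z u) x y - CE V s (fun z => gd V z u) x)) ^ 2) := by
    intro k
    have h1 := two_block H s x u hu (hφ k)
    have h2 : (fun y => (LL (row s V x) (φ k) y -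
      -(row s (fun z => gd V z u) x y - CE V s (fun z => gd V z u) x)) ^ 2) =
      fun y => (LL (row s V x) (φ k) y +
        (row s (fun z => gd V z u) x y - CE V s (fun z => gd V z u) x)) ^ 2 := by
      funext y; ring
    rw [h2, h1]
    have h3 : 0 ≤ ex (row s V x) (hq (φ k)) := by
      apply ex_nonneg
      intro y
      unfold hq
      exact Finset.sum_nonneg fun i _ => Finset.sum_nonneg fun j _ => sq_nonneg _
    have h4 : ex (row s V x) (fun _ => κ * sq u) ≤ ex (row s V x) (fun y =>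
        hs V (Function.updateFinset x s y) (Function.updateFinset u s fun i => pd i (φ k) y)) := by
      refine ex_mono HW (T0.const _) (KE4_t3 H s x u hu (hφ k)) fun y => ?_
      exact (mul_le_mul_of_nonneg_left (KE4_sq_up s hu _) H.kpos.le).trans (H.lo _ _)
    rw [ex_const HW] at h4
    linarith
  have hlim' := hlim.const_add (hs (MW V s) x u)
  rw [add_zero] at hlim'
  exact ge_of_tendsto' hlim' hk

private theorem KE4_CE_hs_le (H : Nice κ M V) (s : Finset ι) (x u : ι → ℝ) :
    CE V s (fun z => hs V z u) x ≤ M * sq u := by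
  have h1 := CE_mono H s (KE4_hs_t0 H u) (T0.const (M * sq u)) (fun z => H.hi z u) x
  rwa [CE_const H] at h1

/-- `Var_x(V_u) ≤ M|u|²` (`hs_MW`, `MW_hess_ge`). -/
theorem CC_grad_le (H : Nice κ M V) (s : Finset ι) (x u : ι → ℝ) (hu : ∀ i ∈ s, u i = 0) :
    CC V s (fun z => gd V z u) (fun z => gd V z u) x ≤ M * sq u := by
  have h1 := MW_hess_ge H s x u hu
  rw [hs_MW H s x u hu] at h1
  have h2 := KE4_CE_hs_le H s x u
  have h3 := mul_nonneg H.kpos.le (sq_nn u)
  linarith

theorem MW_hess_le (H : Nice κ M V) (s : Finset ι) (x u : ι → ℝ) (hu : ∀ i ∈ s, u i = 0) :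
    hs (MW V s) x u ≤ M * sq u := by
  rw [hs_MW H s x u hu]
  have h2 := KE4_CE_hs_le H s x u
  have h3 : 0 ≤ CC V s (fun z => gd V z u) (fun z => gd V z u) x :=
    var_nonneg (H.rown s x) ((KE4_gd_t1 H u).rowt s x).t0
  linarith

/-! ## The marginal potential -/

private theorem KE4_quad (s : Finset ι) :
    Differentiable ℝ (fun x : ι → ℝ => (1 / 2) * ∑ i ∈ s, x i ^ 2) ∧
    ContDiff ℝ 2 (fun x : ι → ℝ => (1 / 2) * ∑ i ∈ s, x i ^ 2) ∧
    ∀ (j : ι) (x : ι → ℝ), pd j (fun x : ι → ℝ => (1 / 2) * ∑ i ∈ s, x i ^ 2) x =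
      if j ∈ s then x j else 0 := by
  have hc : ContDiff ℝ 2 (fun x : ι → ℝ => (1 / 2) * ∑ i ∈ s, x i ^ 2) :=
    contDiff_const.mul (ContDiff.sum fun i _ => (contDiff_apply ℝ ℝ i).pow 2)
  refine ⟨hc.differentiable (by norm_num), hc, fun j x => ?_⟩
  have hsq : ∀ i : ι, Differentiable ℝ (fun x : ι → ℝ => x i ^ 2) := fun i =>
    ((contDiff_apply ℝ ℝ i).pow 2 : ContDiff ℝ 1 (fun x : ι → ℝ => x i ^ 2)).differentiable
      (by norm_num)
  have h1 : ∀ i : ι, pd j (fun x : ι → ℝ => x i ^ 2) x = 2 * x i * if j = i then 1 else 0 := by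
    intro i
    have hd : Differentiable ℝ (fun x : ι → ℝ => x i) := KE4_diff (T1.coord i)
    have e : (fun x : ι → ℝ => x i ^ 2) = fun x => x i * x i := by
      funext x; ring
    rw [e, pd_mul (f := fun x : ι → ℝ => x i) (g := fun x : ι → ℝ => x i) hd hd, pd_coord]
    ring
  rw [pd_cmul (Differentiable.fun_sum fun i _ => hsq i), pd_sum s (fun i _ => hsq i)]
  simp only [h1]
  by_cases hj : j ∈ s
  · rw [if_pos hj, Finset.sum_eq_single_of_mem j hj]
    · rw [if_pos rfl]
      ring
    · intro i _ hij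
      rw [if_neg (Ne.symm hij)]
      ring
  · rw [if_neg hj, Finset.sum_eq_zero]
    · ring
    · intro i hi
      rw [if_neg]
      · ring
      · rintro rfl
        exact hj hi

theorem pd_MG (H : Nice κ M V) (s : Finset ι) (x : ι → ℝ) (i : ι) :
    pd i (MG V s) x = if i ∈ s then x i else CE V s (pd i V) x := by
  have h1 : pd i (MG V s) x = pd i (MW V s) x +
      pd i (fun x : ι → ℝ => (1 / 2) * ∑ i ∈ s, x i ^ 2) x :=
    pd_add (f := MW V s) (g := fun x : ι → ℝ => (1 / 2) * ∑ i ∈ s, x i ^ 2)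
      ((MW_c2 H s).differentiable (by norm_num)) (KE4_quad s).1 i x
  rw [h1, (KE4_quad s).2.2]
  by_cases hi : i ∈ s
  · rw [if_pos hi, if_pos hi, MW_pd_in V s x hi, zero_add]
  · rw [if_neg hi, if_neg hi, MW_pd H s x hi, add_zero]

private theorem KE4_pd_MG (H : Nice κ M V) (s : Finset ι) (i : ι) :
    pd i (MG V s) = fun x => pd i (MW V s) x + if i ∈ s then x i else 0 := by
  funext x
  have h1 : pd i (MG V s) x = pd i (MW V s) x +
      pd i (fun x : ι → ℝ => (1 / 2) * ∑ i ∈ s, x i ^ 2) x :=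
    pd_add (f := MW V s) (g := fun x : ι → ℝ => (1 / 2) * ∑ i ∈ s, x i ^ 2)
      ((MW_c2 H s).differentiable (by norm_num)) (KE4_quad s).1 i x
  rw [h1, (KE4_quad s).2.2]

private theorem KE4_c1 {f : (ι → ℝ) → ℝ} (hf : ContDiff ℝ 2 f) (i : ι) :
    ContDiff ℝ 1 (pd i f) := by
  have h : ContDiff ℝ ((1 + 1 : ℕ) : WithTop ℕ∞) f := by
    have e : (((1 + 1 : ℕ) : ℕ) : WithTop ℕ∞) = 2 := by norm_num
    rw [e]
    exact hf
  have := contDiff_pd h i
  simpa using this

private theorem KE4_pd2_MG (H : Nice κ M V) (s : Finset ι) (i j : ι) (x : ι → ℝ) :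
    pd i (pd j (MG V s)) x = pd i (pd j (MW V s)) x + if i = j ∧ j ∈ s then 1 else 0 := by
  rw [KE4_pd_MG H s j]
  have hd : Differentiable ℝ (pd j (MW V s)) := (KE4_c1 (MW_c2 H s) j).differentiable (by norm_num)
  by_cases hj : j ∈ s
  · have h1 : pd i (fun x => pd j (MW V s) x + if j ∈ s then x j else 0) x =
        pd i (pd j (MW V s)) x + pd i (fun x : ι → ℝ => x j) x := by
      rw [← pd_add (f := pd j (MW V s)) (g := fun x : ι → ℝ => x j) hd (KE4_diff (T1.coord j)) i x]
      simp only [if_pos hj]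
    rw [h1, pd_coord]
    simp [hj]
  · have h1 : pd i (fun x => pd j (MW V s) x + if j ∈ s then x j else 0) x =
        pd i (pd j (MW V s)) x := by
      simp only [if_neg hj, add_zero]
    rw [h1]
    simp [hj]

theorem hs_MG (H : Nice κ M V) (s : Finset ι) (x u : ι → ℝ) :
    hs (MG V s) x u = hs (MW V s) x u + ∑ i ∈ s, u i ^ 2 := by
  unfold hs
  simp only [KE4_pd2_MG H, mul_add, Finset.sum_add_distrib]
  congr 1
  rw [← Finset.sum_subset (Finset.subset_univ s)]
  · refine Finset.sum_congr rfl fun i hi => ?_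
    rw [Finset.sum_eq_single i]
    · rw [if_pos ⟨rfl, hi⟩]
      ring
    · intro j _ hj
      rw [if_neg (show ¬ (i = j ∧ j ∈ s) from fun h => hj h.1.symm)]
      ring
    · intro h
      exact absurd (Finset.mem_univ i) h
  · intro i _ hi
    refine Finset.sum_eq_zero fun j _ => ?_
    rw [if_neg (show ¬ (i = j ∧ j ∈ s) from fun h => hi (h.1 ▸ h.2))]
    ring

private theorem KE4_sq_split (s : Finset ι) (u : ι → ℝ) :
    sq u = sq (fun i => if i ∈ s then 0 else u i) + ∑ i ∈ s, u i ^ 2 := by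
  unfold sq
  rw [← Finset.sum_add_sum_compl s (fun i => u i ^ 2),
    ← Finset.sum_add_sum_compl s (fun i => (if i ∈ s then 0 else u i) ^ 2)]
  have h1 : ∑ i ∈ s, (if i ∈ s then 0 else u i) ^ 2 = 0 :=
    Finset.sum_eq_zero fun i hi => by rw [if_pos hi]; ring
  have h2 : ∑ i ∈ sᶜ, (if i ∈ s then 0 else u i) ^ 2 = ∑ i ∈ sᶜ, u i ^ 2 :=
    Finset.sum_congr rfl fun i hi => by rw [if_neg (Finset.mem_compl.1 hi)]
  rw [h1, h2]
  ring

theorem MG_nice (H : Nice κ M V) (h1 : κ ≤ 1) (h2 : 1 ≤ M) (s : Finset ι) :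
    Nice κ M (MG V s) := by
  have hz : ∀ (u : ι → ℝ), ∀ i ∈ s, (fun i => if i ∈ s then (0 : ℝ) else u i) i = 0 :=
    fun u i hi => if_pos hi
  have hs0 : ∀ u : ι → ℝ, 0 ≤ ∑ i ∈ s, u i ^ 2 := fun u => Finset.sum_nonneg fun i _ => sq_nonneg _
  refine ⟨H.kpos, (MW_c2 H s).add (KE4_quad s).2.1, fun x u => ?_, fun x u => ?_⟩
  · rw [hs_MG H, hs_MW_off H, KE4_sq_split s u]
    have := MW_hess_ge H s x _ (hz u)
    have := mul_le_mul_of_nonneg_right h1 (hs0 u)
    linarith
  · rw [hs_MG H, hs_MW_off H, KE4_sq_split s u]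
    have := MW_hess_le H s x _ (hz u)
    have := mul_le_mul_of_nonneg_right h2 (hs0 u)
    linarith

/-! ## The tower property -/

private theorem KE4_fub (s : Finset ι) {F : (ι → ℝ) → ℝ} (hF : Integrable F)
    (G : (s → ℝ) → ℝ) :
    ∫ x, (∫ y : s → ℝ, F (Function.updateFinset x s y)) * G (fun i => x i) =
      (∫ x, F x) * ∫ y, G y := by
  let e := MeasurableEquiv.piEquivPiSubtypeProd (fun _ : ι => ℝ) (fun i => i ∈ s)
  have he : MeasurePreserving e volume volume := by
    have he0 := volume_preserving_piEquivPiSubtypeProd (fun _ : ι => ℝ) (fun i => i ∈ s)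
    have hi : (Subtype.fintype (fun i => i ∈ s) : Fintype s) = Finset.Subtype.fintype s :=
      Subsingleton.elim _ _
    rw [hi] at he0
    exact he0
  have hes : MeasurePreserving e.symm volume volume := he.symm
  have hup : ∀ (a y : s → ℝ) (b : {i // ¬ i ∈ s} → ℝ),
      Function.updateFinset (e.symm (a, b)) s y = e.symm (y, b) := by
    intro a y b
    funext i
    by_cases hi : i ∈ s
    · simp [e, Function.updateFinset, hi, MeasurableEquiv.piEquivPiSubtypeProd,
        Equiv.piEquivPiSubtypeProd]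
    · simp [e, Function.updateFinset, hi, MeasurableEquiv.piEquivPiSubtypeProd,
        Equiv.piEquivPiSubtypeProd]
  have hre : ∀ (a : s → ℝ) (b : {i // ¬ i ∈ s} → ℝ), (fun i : s => e.symm (a, b) i) = a := by
    intro a b
    funext i
    simp [e, MeasurableEquiv.piEquivPiSubtypeProd, Equiv.piEquivPiSubtypeProd]
  have h1 : ∫ x, (∫ y : s → ℝ, F (Function.updateFinset x s y)) * G (fun i => x i) =
      ∫ z : (s → ℝ) × ({i // ¬ i ∈ s} → ℝ), G z.1 * ∫ y : s → ℝ, F (e.symm (y, z.2)) := by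
    rw [← hes.integral_comp e.symm.measurableEmbedding]
    congr 1
    funext z
    obtain ⟨a, b⟩ := z
    simp only [hup, hre]
    ring
  have h2 : ∫ x, F x = ∫ b : {i // ¬ i ∈ s} → ℝ, ∫ y : s → ℝ, F (e.symm (y, b)) := by
    rw [← hes.integral_comp e.symm.measurableEmbedding]
    have hi : Integrable (fun z => F (e.symm z)) volume :=
      (hes.integrable_comp_emb e.symm.measurableEmbedding).2 hF
    exact integral_prod_symm _ hi
  rw [h1, h2, mul_comm]
  exact integral_prod_mul G (fun b => ∫ y : s → ℝ, F (e.symm (y, b)))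

private theorem KE4_exp_MG (H : Nice κ M V) (s : Finset ι) (x : ι → ℝ) :
    Real.exp (-(MG V s x)) = RI V s (fun _ => 1) x * Real.exp (-(gp (fun i : s => x i))) := by
  have h1 : gp (fun i : s => x i) = (1 / 2) * ∑ i ∈ s, x i ^ 2 := by
    unfold gp sq
    rw [Finset.sum_coe_sort s (fun i => x i ^ 2)]
    ring
  unfold MG
  rw [h1, neg_add, Real.exp_add, MW_eq, neg_neg, Real.exp_log (RI_pos H s x)]

private theorem KE4_int (H : Nice κ M V) (s : Finset ι) (hf : T0 f) :
    ∫ x, CE V s f x * Real.exp (-(MG V s x)) =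
      (∫ x, f x * Real.exp (-V x)) * ∫ y : s → ℝ, Real.exp (-(gp y)) := by
  rw [← KE4_fub s (H.int hf) (fun y => Real.exp (-(gp y)))]
  congr 1
  funext x
  rw [KE4_exp_MG H, CE_eq]
  have h1 := (RI_pos H s x).ne'
  have h2 : ∫ y : s → ℝ, f (Function.updateFinset x s y) *
      Real.exp (-V (Function.updateFinset x s y)) = RI V s f x := rfl
  rw [h2]
  field_simp

/-- `E_V f = E_{MG} (CE f)` (Fubini, `MeasurableEquiv.piEquivPiSubtypeProd` or
`Function.updateFinset`; the Gaussian factor integrates out). -/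
theorem tower (H : Nice κ M V) (h1 : κ ≤ 1) (h2 : 1 ≤ M) (s : Finset ι) (hf : T0 f) :
    ex (MG V s) (CE V s f) = ex V f := by
  have hG : 0 < ∫ y : s → ℝ, Real.exp (-(gp y)) := (nice_gp (ι := s)).zpos
  have e1 := KE4_int H s hf
  have e2 : ∫ x, Real.exp (-(MG V s x)) =
      (∫ x, Real.exp (-V x)) * ∫ y : s → ℝ, Real.exp (-(gp y)) := by
    have := KE4_int H s (T0.const (1 : ℝ))
    have h3 : CE V s (fun _ => (1 : ℝ)) = fun _ => 1 := by
      funext x
      exact CE_const H s 1 x
    rw [h3] at this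
    simpa using this
  unfold ex
  rw [e1, e2, mul_div_mul_right _ _ hG.ne']

theorem tower_dep (H : Nice κ M V) (h1 : κ ≤ 1) (h2 : 1 ≤ M) (s : Finset ι) (hf : T0 f)
    (hd : Dep sᶜ f) : ex (MG V s) f = ex V f := by
  have := tower H h1 h2 s hf
  rwa [CE_of_dep H s hd] at this

end Pool.Agent.Lib.MP_8d00da_gt.h42k
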