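import Pool.Agent.Lib.MP_8d00da_gt.h42k.KE4

/-!
# The SP lemma
-/

namespace Pool.Agent.Lib.MP_8d00da_gt.h42k

open MeasureTheory Set Filter
open scoped Topology NNReal ENNReal ContDiff

set_option linter.unusedSectionVars false
set_option linter.unusedVariables false

variable {ι : Type*} [Fintype ι] [DecidableEq ι]

variable {κ M : ℝ} {V : (ι → ℝ) → ℝ}

/-- Trace of the conditional covariance of the block `s` with weights `δ`. -/
noncomputable def gam (V : (ι → ℝ) → ℝ) (s : Finset ι) (δ : ι → ℝ) (x : ι → ℝ) : ℝ :=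
  ∑ i ∈ s, δ i * CC V s (fun z => z i) (fun z => z i) x

theorem gam_t1 (H : Nice κ M V) (s : Finset ι) (δ : ι → ℝ) : T1 (gam V s δ) :=
  T1.sum s fun i _ => T1.cmul (δ i) (CC_t1 H (T1.coord i) (T1.coord i) s)

theorem gam_dep (V : (ι → ℝ) → ℝ) (s : Finset ι) (δ : ι → ℝ) : Dep sᶜ (gam V s δ) := by
  intro x x' h
  unfold gam
  refine Finset.sum_congr rfl fun i _ => ?_
  rw [CC_dep V (fun z => z i) (fun z => z i) s x x' h]

private theorem KF1_row_coord (s : Finset ι) (x : ι → ℝ) (i : s) :
    row s (fun z => z (i : ι)) x = fun y => y i := by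
  funext y
  show Function.updateFinset x s y i = y i
  simp [Function.updateFinset]

theorem gam_eq (H : Nice κ M V) (s : Finset ι) (δ : ι → ℝ) (x : ι → ℝ) :
    gam V s δ x =
      ex (row s V x) (fun y => ∑ i : s, δ i * (y i - mn (row s V x) i) ^ 2) := by
  have Hr := H.rown s x
  unfold gam
  rw [← Finset.sum_coe_sort s (fun i => δ i * CC V s (fun z => z i) (fun z => z i) x)]
  rw [ex_sum Hr Finset.univ (fun i _ => T0.cmul _ (((T0.coord i).sub (T0.const _)).pow 2))]
  refine Finset.sum_congr rfl fun i _ => ?_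
  rw [ex_cmul]
  congr 1
  unfold CC
  rw [KF1_row_coord, cov_eq Hr (T0.coord i) (T0.coord i)]
  refine congrArg _ (funext fun y => ?_)
  unfold mn
  ring

private theorem KF1_cov_sq {α : Type*} [Fintype α] [DecidableEq α] {ψ : (α → ℝ) → ℝ}
    (Hr : Nice κ M ψ) (i : α) (m : ℝ) {g : (α → ℝ) → ℝ} (hg : T0 g) :
    cov ψ (fun y => (y i - m) ^ 2) g =
      cov ψ (fun y => y i * y i) g - 2 * m * cov ψ (fun y => y i) g := by
  have e : (fun y : α → ℝ => (y i - m) ^ 2) =
      fun y => (fun y : α → ℝ => y i * y i - (2 * m) * y i) y + m ^ 2 := by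
    funext y; simp only; ring
  have t1 : T0 (fun y : α → ℝ => y i * y i) := (T0.coord i).mul (T0.coord i)
  have t2 : T0 (fun y : α → ℝ => (2 * m) * y i) := T0.cmul _ (T0.coord i)
  rw [e, cov_addc Hr (t1.sub t2) hg, cov_sub Hr t1 t2 hg, cov_cmul]

/-- `∂_k` of the trace is minus the covariance of `∑ δ_i (y_i - m_i)²` with `∂_k V`. -/
theorem gam_pd (H : Nice κ M V) (s : Finset ι) (δ : ι → ℝ) (x : ι → ℝ) {k : ι} (hk : k ∉ s) :
    pd k (gam V s δ) x = - cov (row s V x)
      (fun y => ∑ i : s, δ i * (y i - mn (row s V x) i) ^ 2) (row s (pd k V) x) := by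
  have Hr := H.rown s x
  have hVk : T0 (row s (pd k V) x) := (H.pdt1 k).t0.rowt s x
  have h1 : pd k (gam V s δ) x =
      ∑ i ∈ s, δ i * pd k (CC V s (fun z => z i) (fun z => z i)) x := by
    have e : gam V s δ = fun x => ∑ i ∈ s,
        (fun x => δ i * CC V s (fun z => z i) (fun z => z i) x) x := rfl
    rw [e, pd_sum s (fun i _ => ((CC_t1 H (T1.coord i) (T1.coord i) s).cmul (δ i)).c1.differentiable
      (by simp)) k x]
    refine Finset.sum_congr rfl fun i _ => ?_
    rw [pd_cmul ((CC_t1 H (T1.coord i) (T1.coord i) s).c1.differentiable (by simp)) (δ i) k x]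
  have h2 : ∀ i : s, pd k (CC V s (fun z => z (i : ι)) (fun z => z (i : ι))) x =
      - (CC V s (fun z => z (i : ι) * z (i : ι)) (pd k V) x -
        2 * CE V s (fun z => z (i : ι)) x * CC V s (fun z => z (i : ι)) (pd k V) x) := by
    intro i
    have hki : k ≠ (i : ι) := fun h => hk (h ▸ i.2)
    have c1 : T1 (fun z : ι → ℝ => z (i : ι)) := T1.coord _
    have c2 : T1 (fun z : ι → ℝ => z (i : ι) * z (i : ι)) := c1.mul c1
    have p1 : pd k (fun z : ι → ℝ => z (i : ι)) = fun _ => 0 := by
      funext z; rw [pd_coord]; simp [hki]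
    have p2 : pd k (fun z : ι → ℝ => z (i : ι) * z (i : ι)) = fun _ => 0 := by
      funext z
      rw [pd_mul (c1.c1.differentiable (by simp)) (c1.c1.differentiable (by simp)) k z, p1]
      simp
    have e : CC V s (fun z => z (i : ι)) (fun z => z (i : ι)) =
        fun x => (CE V s (fun z => z (i : ι) * z (i : ι))) x -
          (fun x => CE V s (fun z => z (i : ι)) x * CE V s (fun z => z (i : ι)) x) x := by
      funext x'; exact CC_eq V _ _ s x'
    have d1 : Differentiable ℝ (CE V s (fun z => z (i : ι))) :=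
      (CE_t1 H c1 s).c1.differentiable (by simp)
    have d2 : Differentiable ℝ (CE V s (fun z => z (i : ι) * z (i : ι))) :=
      (CE_t1 H c2 s).c1.differentiable (by simp)
    have d3 : Differentiable ℝ (fun x => CE V s (fun z => z (i : ι)) x *
        CE V s (fun z => z (i : ι)) x) := d1.mul d1
    rw [e, pd_sub d2 d3 k x, pd_mul d1 d1 k x, CE_pd H c2 s x hk, CE_pd H c1 s x hk, p1, p2,
      CE_const H]
    ring
  rw [h1, ← Finset.sum_coe_sort s (fun i => δ i * pd k (CC V s (fun z => z i) (fun z => z i)) x),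
    cov_sum Hr Finset.univ (fun i _ => T0.cmul _ (((T0.coord i).sub (T0.const _)).pow 2)) hVk,
    ← Finset.sum_neg_distrib]
  refine Finset.sum_congr rfl fun i _ => ?_
  rw [h2 i, cov_cmul, KF1_cov_sq Hr i _ hVk]
  have q1 : CC V s (fun z => z (i : ι) * z (i : ι)) (pd k V) x =
      cov (row s V x) (fun y => y i * y i) (row s (pd k V) x) := by
    have : row s (fun z => z (i : ι) * z (i : ι)) x = fun y => y i * y i := by
      funext y
      have := congrFun (KF1_row_coord s x i) y
      show row s (fun z => z (i : ι)) x y * row s (fun z => z (i : ι)) x y = _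
      rw [this]
    unfold CC; rw [this]
  have q2 : CC V s (fun z => z (i : ι)) (pd k V) x =
      cov (row s V x) (fun y => y i) (row s (pd k V) x) := by
    unfold CC; rw [KF1_row_coord]
  have q3 : CE V s (fun z => z (i : ι)) x = mn (row s V x) i := by
    unfold CE mn; rw [KF1_row_coord]
  rw [q1, q2, q3]
  ring

private theorem KF1_gd_up (G : (ι → ℝ) → ℝ) (s : Finset ι) (z u : ι → ℝ) (hu : ∀ i ∈ s, u i = 0)
    (v : s → ℝ) :
    gd G z (Function.updateFinset u s v) = gd G z u + ∑ i : s, pd (i : ι) G z * v i := by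
  unfold gd
  have e1 : ∀ i, Function.updateFinset u s v i * pd i G z =
      u i * pd i G z + if h : i ∈ s then pd i G z * v ⟨i, h⟩ else 0 := by
    intro i
    by_cases h : i ∈ s
    · simp [Function.updateFinset, h, hu i h, mul_comm]
    · simp [Function.updateFinset, h]
  rw [Finset.sum_congr rfl fun i _ => e1 i, Finset.sum_add_distrib]
  congr 1
  have e2 : ∑ i, (if h : i ∈ s then pd i G z * v ⟨i, h⟩ else 0) =
      ∑ i ∈ s, (if h : i ∈ s then pd i G z * v ⟨i, h⟩ else 0) := by
    symm
    refine Finset.sum_subset (Finset.subset_univ s) fun i _ hi => ?_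
    simp [hi]
  rw [e2, ← Finset.sum_coe_sort s (fun i => if h : i ∈ s then pd i G z * v ⟨i, h⟩ else 0)]
  refine Finset.sum_congr rfl fun i _ => ?_
  simp

private theorem KF1_cs {X Y P1 P2 α β : ℝ} (hP1 : 0 ≤ P1) (hP2 : 0 ≤ P2) (hα : 0 ≤ α) (hβ : 0 ≤ β)
    (hX : X ^ 2 ≤ P1 * α) (hY : Y ^ 2 ≤ P2 * β) : (X + Y) ^ 2 ≤ (P1 + P2) * (α + β) := by
  have h1 : (2 * X * Y) ^ 2 ≤ (P1 * β + P2 * α) ^ 2 := by
    have := mul_le_mul hX hY (sq_nonneg Y) (mul_nonneg hP1 hα)
    nlinarith [sq_nonneg (P1 * β - P2 * α)]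
  have h2 : 2 * X * Y ≤ P1 * β + P2 * α :=
    (abs_le_of_sq_le_sq' h1 (by positivity)).2
  nlinarith

private theorem KF1_gd_add {f g : (ι → ℝ) → ℝ} (hf : Differentiable ℝ f) (hg : Differentiable ℝ g)
    (w : ℝ) (x u : ι → ℝ) :
    gd (fun z => w * f z + g z) x u = w * gd f x u + gd g x u := by
  unfold gd
  rw [Finset.mul_sum, ← Finset.sum_add_distrib]
  refine Finset.sum_congr rfl fun i _ => ?_
  rw [pd_add (hf.const_mul w) hg, pd_cmul hf]
  ring

/-- The conditional covariance with `V_u`. -/
private theorem KF1_cov_u (H : Nice κ M V) (s : Finset ι) (x u : ι → ℝ) {Q : (s → ℝ) → ℝ}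
    (hQ : T0 Q) :
    ∑ i, u i * cov (row s V x) Q (row s (pd i V) x) =
      - ex (row s V x) (fun y => Q y *
        (-(row s (fun z => gd V z u) x y - CE V s (fun z => gd V z u) x))) := by
  have Hr := H.rown s x
  have hVu : T1 (fun z => gd V z u) := T1.sum _ fun i _ => T1.cmul (u i) (H.pdt1 i)
  have hr : T0 (row s (fun z => gd V z u) x) := hVu.t0.rowt s x
  have e1 : cov (row s V x) (row s (fun z => gd V z u) x) Q =
      ∑ i, u i * cov (row s V x) Q (row s (pd i V) x) := by
    have e : row s (fun z => gd V z u) x =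
        fun y => ∑ i, (fun y => u i * row s (pd i V) x y) y := rfl
    rw [e, cov_sum Hr Finset.univ (fun i _ => T0.cmul (u i) ((H.pdt1 i).t0.rowt s x)) hQ]
    refine Finset.sum_congr rfl fun i _ => ?_
    rw [cov_cmul, cov_comm]
  rw [← e1, cov_eq_left Hr hr hQ, ← ex_neg]
  refine congrArg _ (funext fun y => ?_)
  show (row s (fun z => gd V z u) x y - CE V s (fun z => gd V z u) x) * Q y = _
  ring

private theorem KF1_core (H : Nice κ M V) (s : Finset ι) {G R : (ι → ℝ) → ℝ}
    (hG : T1 G) (hR : T0 R) (hR0 : ∀ x, 0 ≤ R x)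
    (hGR : ∀ x u, gd G x u ^ 2 ≤ 4 * R x * hs V x u) (δ : ι → ℝ) (w : ℝ)
    {N2 : (ι → ℝ) → ℝ} (hN0 : ∀ x, 0 ≤ N2 x)
    (hN : ∀ x, H1 (row s V x) (fun i : s => δ i) (N2 x)) (x u : ι → ℝ)
    (hu : ∀ i ∈ s, u i = 0) :
    gd (fun z => w * gam V s δ z + CE V s G z) x u ^ 2 ≤
      4 * (w ^ 2 * N2 x + CE V s R x) * hs (MW V s) x u := by
  have Hr := H.rown s x
  have hVu : T1 (fun z => gd V z u) := T1.sum _ fun i _ => T1.cmul (u i) (H.pdt1 i)
  have hr : T0 (row s (fun z => gd V z u) x) := hVu.t0.rowt s x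
  set h : (s → ℝ) → ℝ := fun y =>
    -(row s (fun z => gd V z u) x y - CE V s (fun z => gd V z u) x) with hh
  have hh0 : T0 h := (hr.sub (T0.const _)).neg
  have hex : ex (row s V x) h = 0 := by
    rw [hh, ex_neg, ex_sub Hr hr (T0.const _), ex_const Hr]
    simp [CE]
  obtain ⟨φ, hφ, hl1, hl2, hl3⟩ := PD_seq Hr hh0 hex
  set Q : (s → ℝ) → ℝ := fun y => ∑ i : s, δ i * (y i - mn (row s V x) i) ^ 2 with hQ
  have hsq : ∀ i : s, T1 (fun y : s → ℝ => (y i - mn (row s V x) i) ^ 2) := by
    intro i
    have h1 : T1 (fun y : s → ℝ => y i - mn (row s V x) i) := (T1.coord i).sub (T1.const _)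
    have h2 := h1.mul h1
    have e : (fun y : s → ℝ => (y i - mn (row s V x) i) ^ 2) =
        fun y => (y i - mn (row s V x) i) * (y i - mn (row s V x) i) := by
      funext y; ring
    rw [e]; exact h2
  have hQ1 : T1 Q := T1.sum _ fun i _ => T1.cmul _ (hsq i)
  -- the two limits
  set A : ℕ → ℝ := fun k => ex (row s V x)
    (fun y => ∑ i : s, δ i * (y i - mn (row s V x) i) * pd i (φ k) y) with hA
  set B : ℕ → ℝ := fun k => ex (row s V x)
    (fun y => gd G (Function.updateFinset x s y)
      (Function.updateFinset u s fun i => pd i (φ k) y)) with hB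
  have hpQ : ∀ (i : s) (y : s → ℝ), pd i Q y = 2 * (δ i * (y i - mn (row s V x) i)) := by
    intro i y
    have e : Q = fun y => ∑ j : s, (fun y => δ j * (y j - mn (row s V x) j) ^ 2) y := rfl
    rw [e, pd_sum Finset.univ (fun j _ => ((hsq j).cmul (δ j)).c1.differentiable (by simp)) i y,
      Finset.sum_eq_single i]
    · rw [pd_cmul ((hsq i).c1.differentiable (by simp))]
      have h1 : T1 (fun y : s → ℝ => y i - mn (row s V x) i) := (T1.coord i).sub (T1.const _)
      have e : (fun y : s → ℝ => (y i - mn (row s V x) i) ^ 2) =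
          fun y => (fun y : s → ℝ => y i - mn (row s V x) i) y *
            (fun y : s → ℝ => y i - mn (row s V x) i) y := by
        funext y; simp only; ring
      have hp : pd i (fun y : s → ℝ => y i - mn (row s V x) i) y = 1 := by
        rw [pd_sub ((T1.coord i).c1.differentiable (by simp)) (differentiable_const _),
          pd_coord, pd_const]
        simp
      rw [e, pd_mul (h1.c1.differentiable (by simp)) (h1.c1.differentiable (by simp)), hp]
      ring
    · intro j _ hj
      rw [pd_cmul ((hsq j).c1.differentiable (by simp))]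
      have h1 : T1 (fun y : s → ℝ => y j - mn (row s V x) j) := (T1.coord j).sub (T1.const _)
      have e : (fun y : s → ℝ => (y j - mn (row s V x) j) ^ 2) =
          fun y => (fun y : s → ℝ => y j - mn (row s V x) j) y *
            (fun y : s → ℝ => y j - mn (row s V x) j) y := by
        funext y; simp only; ring
      have hp : pd i (fun y : s → ℝ => y j - mn (row s V x) j) y = 0 := by
        rw [pd_sub ((T1.coord j).c1.differentiable (by simp)) (differentiable_const _),
          pd_coord, pd_const]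
        simp [Ne.symm hj]
      rw [e, pd_mul (h1.c1.differentiable (by simp)) (h1.c1.differentiable (by simp)), hp]
      ring
    · simp
  have hAl : Tendsto (fun k => 2 * A k) atTop (𝓝 (ex (row s V x) fun y => Q y * h y)) := by
    have := hl3 Q hQ1.t0
    refine this.congr fun k => ?_
    rw [ibp_LL Hr hQ1 (hφ k), hA, ← ex_cmul]
    refine congrArg _ (funext fun y => ?_)
    rw [Finset.mul_sum]
    refine Finset.sum_congr rfl fun i _ => ?_
    rw [hpQ]
    ring
  have hGr : T1 (row s G x) := hG.rowt s x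
  have hgGu : T1 (row s (fun z => G z) x) := hGr
  have hGu : T0 (fun z => gd G z u) := T0.sum _ fun i _ => T0.cmul (u i) (hG.pdt0 i)
  have hBe : ∀ k, B k = ex (row s V x) (row s (fun z => gd G z u) x) +
      ex (row s V x) (fun y => row s G x y * LL (row s V x) (φ k) y) := by
    intro k
    rw [ibp_LL Hr hGr (hφ k), hB,
      ← ex_add Hr (hGu.rowt s x) (T0.sum _ fun i _ => (hGr.pdt0 i).mul ((hφ k).t1.pdt0 i))]
    refine congrArg _ (funext fun y => ?_)
    rw [KF1_gd_up G s _ u hu]
    show _ = row s (fun z => gd G z u) x y + ∑ i : s, pd i (row s G x) y * pd i (φ k) y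
    congr 1
    refine Finset.sum_congr rfl fun i _ => ?_
    rw [pd_row (hG.c1.differentiable (by simp)) s x i y]
    rfl
  have hBl : Tendsto B atTop (𝓝 (ex (row s V x) (row s (fun z => gd G z u) x) +
      ex (row s V x) (fun y => row s G x y * h y))) := by
    have := (hl3 (row s G x) hGr.t0).const_add (ex (row s V x) (row s (fun z => gd G z u) x))
    refine this.congr fun k => ?_
    rw [hBe k]
  -- the derivative
  have hD : gd (fun z => w * gam V s δ z + CE V s G z) x u =
      w * (ex (row s V x) fun y => Q y * h y) +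
        (ex (row s V x) (row s (fun z => gd G z u) x) +
          ex (row s V x) (fun y => row s G x y * h y)) := by
    rw [KF1_gd_add ((gam_t1 H s δ).c1.differentiable (by simp))
      ((CE_t1 H hG s).c1.differentiable (by simp))]
    have e1 : gd (gam V s δ) x u = ex (row s V x) fun y => Q y * h y := by
      have := KF1_cov_u H s x u hQ1.t0
      rw [← neg_eq_iff_eq_neg] at this
      rw [← this, ← Finset.sum_neg_distrib]
      unfold gd
      refine Finset.sum_congr rfl fun i _ => ?_
      by_cases hi : i ∈ s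
      · simp [hu i hi]
      · rw [gam_pd H s δ x hi]; ring
    have e2 : gd (CE V s G) x u = ex (row s V x) (row s (fun z => gd G z u) x) +
        ex (row s V x) (fun y => row s G x y * h y) := by
      have h1 := KF1_cov_u H s x u hGr.t0
      rw [← neg_eq_iff_eq_neg] at h1
      rw [← h1]
      have h2 : ex (row s V x) (row s (fun z => gd G z u) x) =
          ∑ i, u i * CE V s (pd i G) x := by
        have e : row s (fun z => gd G z u) x =
            fun y => ∑ i, (fun y => u i * row s (pd i G) x y) y := rfl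
        rw [e, ex_sum Hr Finset.univ (fun i _ => T0.cmul (u i) ((hG.pdt0 i).rowt s x))]
        refine Finset.sum_congr rfl fun i _ => ?_
        rw [ex_cmul]
        rfl
      rw [h2, ← Finset.sum_neg_distrib, ← Finset.sum_add_distrib]
      unfold gd
      refine Finset.sum_congr rfl fun i _ => ?_
      by_cases hi : i ∈ s
      · simp [hu i hi]
      · rw [CE_pd H hG s x hi]
        unfold CC
        ring
    rw [e1, e2]
  have hlim : Tendsto (fun k => (2 * w * A k + B k) ^ 2) atTop
      (𝓝 (gd (fun z => w * gam V s δ z + CE V s G z) x u ^ 2)) := by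
    rw [hD]
    refine Tendsto.pow ?_ 2
    refine Tendsto.add ?_ hBl
    have := hAl.const_mul w
    refine this.congr fun k => ?_
    ring
  -- the right side
  set α : ℕ → ℝ := fun k => ex (row s V x) (hq (φ k)) with hα
  set β : ℕ → ℝ := fun k => ex (row s V x) (fun y =>
        hs V (Function.updateFinset x s y) (Function.updateFinset u s fun i => pd i (φ k) y)) with hβ
  have hRl : Tendsto (fun k => 4 * (w ^ 2 * N2 x + CE V s R x) * (α k + β k)) atTop
      (𝓝 (4 * (w ^ 2 * N2 x + CE V s R x) * hs (MW V s) x u)) := by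
    refine Tendsto.const_mul _ ?_
    have h1 := hl1.const_add (hs (MW V s) x u)
    rw [add_zero] at h1
    refine h1.congr fun k => ?_
    have h2 := two_block H s x u hu (hφ k)
    rw [hα, hβ]
    simp only
    rw [← h2]
    congr 1
    refine congrArg _ (funext fun y => ?_)
    rw [hh]
    simp only
    ring
  refine le_of_tendsto_of_tendsto' hlim hRl fun k => ?_
  have hα0 : 0 ≤ α k := ex_nonneg _ fun y => Finset.sum_nonneg fun i _ =>
    Finset.sum_nonneg fun j _ => sq_nonneg _
  have hs0 : ∀ z v : ι → ℝ, 0 ≤ hs V z v := fun z v =>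
    (mul_nonneg H.kpos.le (sq_nn v)).trans (H.lo z v)
  have hβ0 : 0 ≤ β k := ex_nonneg _ fun y => hs0 _ _
  have hA2 : A k ^ 2 ≤ N2 x * α k := hN x (φ k) (hφ k)
  have hER : 0 ≤ CE V s R x := CE_nonneg V s hR0 x
  have hB2 : B k ^ 2 ≤ (4 * CE V s R x) * β k := by
    have e : 4 * CE V s R x = ex (row s V x) (fun y => 4 * row s R x y) := by
      rw [ex_cmul]; rfl
    rw [e]
    have t0U : ∀ i, T0 (fun y : s → ℝ =>
        Function.updateFinset u s (fun j => pd j (φ k) y) i) := by
      intro i
      by_cases hi : i ∈ s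
      · have : (fun y : s → ℝ => Function.updateFinset u s (fun j => pd j (φ k) y) i) =
            pd (⟨i, hi⟩ : s) (φ k) := by
          funext y; simp [Function.updateFinset, hi]
        rw [this]; exact (hφ k).t1.pdt0 _
      · have : (fun y : s → ℝ => Function.updateFinset u s (fun j => pd j (φ k) y) i) =
            fun _ => u i := by
          funext y; simp [Function.updateFinset, hi]
        rw [this]; exact T0.const _
    have hf0 : T0 (fun y : s → ℝ => gd G (Function.updateFinset x s y)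
        (Function.updateFinset u s fun i => pd i (φ k) y)) :=
      T0.sum _ fun i _ => (t0U i).mul ((hG.pdt0 i).rowt s x)
    have hq0 : T0 (fun y : s → ℝ => hs V (Function.updateFinset x s y)
        (Function.updateFinset u s fun i => pd i (φ k) y)) :=
      T0.sum _ fun i _ => T0.sum _ fun j _ =>
        ((t0U i).mul (t0U j)).mul (((H.pdt1 j).pdt0 i).rowt s x)
    exact ex_cs_pt Hr hf0 (T0.cmul 4 (hR.rowt s x)) hq0
      (fun y => mul_nonneg (by norm_num) (hR0 _)) (fun y => hs0 _ _)
      (fun y => hGR _ _)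
  have hX : (2 * w * A k) ^ 2 ≤ (4 * w ^ 2 * N2 x) * α k := by
    have := mul_le_mul_of_nonneg_left hA2 (by positivity : (0 : ℝ) ≤ 4 * w ^ 2)
    nlinarith
  have := KF1_cs (mul_nonneg (by positivity) (hN0 x)) (by positivity) hα0 hβ0 hX hB2
  calc (2 * w * A k + B k) ^ 2 ≤ (4 * w ^ 2 * N2 x + 4 * CE V s R x) * (α k + β k) := this
    _ = 4 * (w ^ 2 * N2 x + CE V s R x) * (α k + β k) := by ring

/-- The SP lemma (paper 322, 3.5). For fixed `x` and `u` with `u = 0` on `s` take `φ_k` from `PD_seq` for the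
row potential and `h = -(V_u - E V_u)`; the inequality is the limit `k → ∞` of
`|E h (∑ δ_i ỹ_i²)-part + E <∇G,(u,∇φ_k)>| ≤ 2 (w² N2 + E R)^{1/2} (E|D²φ_k|² + E D²V[(u,∇φ_k)²])^{1/2}`
and `two_block`. General `u`: `gd` of the left side and `hs (MG V s)` compare with `u` replaced by its
part off `s` (`Dep.pd_zero`, `hs_MG`, `hs_MW_off`). -/
theorem SP (H : Nice κ M V) (h1 : κ ≤ 1) (h2 : 1 ≤ M) (s : Finset ι) {G R : (ι → ℝ) → ℝ}
    (hG : T1 G) (hR : T0 R) (hR0 : ∀ x, 0 ≤ R x)
    (hGR : ∀ x u, gd G x u ^ 2 ≤ 4 * R x * hs V x u) (δ : ι → ℝ) (w : ℝ)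
    {N2 : (ι → ℝ) → ℝ} (hN0 : ∀ x, 0 ≤ N2 x)
    (hN : ∀ x, H1 (row s V x) (fun i : s => δ i) (N2 x)) (x u : ι → ℝ) :
    gd (fun z => w * gam V s δ z + CE V s G z) x u ^ 2 ≤
      4 * (w ^ 2 * N2 x + CE V s R x) * hs (MG V s) x u := by
  set u' : ι → ℝ := fun i => if i ∈ s then 0 else u i with hu'
  have hdep : Dep sᶜ (fun z => w * gam V s δ z + CE V s G z) :=
    Dep.add (fun x x' h => by
      show w * gam V s δ x = w * gam V s δ x'
      rw [gam_dep V s δ x x' h]) (CE_dep V G s)
  have e1 : gd (fun z => w * gam V s δ z + CE V s G z) x u =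
      gd (fun z => w * gam V s δ z + CE V s G z) x u' := by
    unfold gd
    refine Finset.sum_congr rfl fun i _ => ?_
    by_cases hi : i ∈ s
    · rw [hdep.pd_zero (by simpa using hi)]
      simp
    · simp [hu', hi]
  have e2 : hs (MW V s) x u' ≤ hs (MG V s) x u := by
    rw [hs_MG H, hs_MW_off H s x u]
    have : (0 : ℝ) ≤ ∑ i ∈ s, u i ^ 2 := Finset.sum_nonneg fun i _ => sq_nonneg _
    linarith
  rw [e1]
  refine (KF1_core H s hG hR hR0 hGR δ w hN0 hN x u' (fun i hi => by simp [hu', hi])).trans ?_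
  refine mul_le_mul_of_nonneg_left e2 ?_
  have := CE_nonneg V s hR0 x
  have := hN0 x
  positivity

end Pool.Agent.Lib.MP_8d00da_gt.h42k
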