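import Pool.Agent.Lib.MP_8d00da_gt.h42k.T10c
import Pool.Agent.Lib.MP_8d00da_gt.h42k.T10d
import Pool.Agent.Lib.MP_8d00da_gt.h42k.T10f0

/-!
# The capacity inequality with the constant at time `T` as a parameter (paper 336, R.11)
-/

namespace Pool.Agent.Lib.MP_8d00da_gt.h42k

open MeasureTheory Set Filter
open scoped Topology NNReal ENNReal ContDiff

set_option linter.unusedSectionVars false

private theorem T11a_numB {c K L l a G : ℝ} (hc : 0 < c) (hK : 0 < K) (hL : 0 < L)
    (hl : 8 * L ≤ l) (ha : 0 ≤ a) (h : c / (K * (L + l)) * l * a ≤ 800 * G) :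
    a ≤ 900 * K / c * G := by
  have hl0 : 0 < l := by linarith
  have h1 : 8 * c / (9 * K) ≤ c / (K * (L + l)) * l := by
    rw [div_mul_eq_mul_div, div_le_div_iff₀ (by positivity) (by positivity)]
    have h2 : 0 ≤ c * K * (l - 8 * L) := by
      have : 0 ≤ l - 8 * L := by linarith
      positivity
    nlinarith
  have h3 : 8 * c / (9 * K) * a ≤ 800 * G := (mul_le_mul_of_nonneg_right h1 ha).trans h
  have h4 : 8 * c / (9 * K) * a = 8 * (c * a) / (9 * K) := by ring
  rw [h4, div_le_iff₀ (by positivity)] at h3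
  have h5 : 900 * K / c * G = 900 * K * G / c := by ring
  rw [h5, le_div_iff₀ hc]
  nlinarith

private theorem T11a_numL {c K L l : ℝ} (hc : 0 < c) (hc1 : c ≤ 1 / 7776) (hK : 1 ≤ K)
    (hL : 0 < L) (hl : 8 * L ≤ l) (hl2 : 11 / 10 ≤ l) {z : ℝ} (hz0 : 0 ≤ z) (hz : z ≤ 1.1 + 2 * l) :
    108 * z ^ 2 * (c / (K * (L + l))) ≤ 1 / 8 * l := by
  have hl0 : 0 < l := by linarith
  have h1 : z ≤ 3 * l := by linarith
  have h2 : z ^ 2 ≤ 9 * l ^ 2 := by nlinarith
  have h3 : c / (K * (L + l)) ≤ c / l := by
    apply div_le_div_of_nonneg_left hc.le hl0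
    nlinarith
  have h4 : 108 * z ^ 2 * (c / (K * (L + l))) ≤ 108 * (9 * l ^ 2) * (c / l) := by
    have h5 : 0 ≤ c / (K * (L + l)) := by positivity
    have h6 : (0 : ℝ) ≤ 108 * (9 * l ^ 2) := by positivity
    have h7 : 108 * z ^ 2 ≤ 108 * (9 * l ^ 2) := by linarith
    exact (mul_le_mul_of_nonneg_right h7 h5).trans (mul_le_mul_of_nonneg_left h3 h6)
  have h8 : 108 * (9 * l ^ 2) * (c / l) = 972 * c * l := by
    field_simp
    ring
  rw [h8] at h4
  nlinarith

/-- The capacity inequality from 10.2 and 10.3, in terms of the Poincare constant `P` of the laws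
`pt V T y` at the time `T = Ttm c K n 1`. -/
theorem cap_of_par {C : ℝ} (hC : 0 < C) {q₀ : ℕ} (h : OPK C q₀) :
    ∃ c : ℝ, 0 < c ∧ c ≤ 1 / 7776 ∧
    ∀ (ι : Type) [Fintype ι] [DecidableEq ι] (κ M K : ℝ) (V : (ι → ℝ) → ℝ), Nice κ M V →
      1 ≤ K → QKP K ι → CLe V 1 → ∀ P : ℝ, 0 ≤ P →
        (∀ y, Lop V (Ttm c K (Fintype.card ι) 1) y ≤ 3 →
          PI (pt V (Ttm c K (Fintype.card ι) 1) y) P) →
        Cap V (8 * P + 900 * K / c) := by
  obtain ⟨c₀, hc0, hc1, hβ⟩ := beta_small hC h
  obtain ⟨c, hc'0, hc'c, hc'1⟩ : ∃ c : ℝ, 0 < c ∧ c ≤ c₀ ∧ c ≤ 1 / 7776 :=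
    ⟨min c₀ (1 / 7776), lt_min hc0 (by norm_num), min_le_left _ _, min_le_right _ _⟩
  refine ⟨c, hc'0, hc'1, ?_⟩
  intro ι _ _ κ M K V H hK hQ hCL P hP hPI u hu h01 ha hab
  have hK0 : 0 < K := by linarith
  have hN : (16 : ℝ) ≤ (Fintype.card ι : ℝ) + 16 := by
    have : (0 : ℝ) ≤ (Fintype.card ι : ℝ) := Nat.cast_nonneg _
    linarith
  have hβN := hβ ι
  have hTm : ∀ m : ℝ, Ttm c K (Fintype.card ι) m =
      c / (K * Real.log (((Fintype.card ι : ℝ) + 16) / m)) := fun m => rfl
  generalize hNN : (Fintype.card ι : ℝ) + 16 = N at hN hTm hβN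
  have hN0 : 0 < N := by linarith
  have hL : 2 ≤ Real.log N := by
    have h1 : Real.log 16 ≤ Real.log N := Real.log_le_log (by norm_num) hN
    have h2 : Real.log 16 = 4 * Real.log 2 := by
      rw [show (16 : ℝ) = 2 ^ 4 by norm_num, Real.log_pow]
      norm_num
    have h3 := Real.log_two_gt_d9
    linarith
  have hL0 : 0 < Real.log N := by linarith
  have hum : Measurable u := hu.smooth.continuous.measurable
  have hMa : MeasurableSet {x | u x ≠ 0} := (measurableSet_eq_fun hum measurable_const).compl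
  have hMb : MeasurableSet {x | u x = 1} := measurableSet_eq_fun hum measurable_const
  have hba : pr V {x | u x = 1} ≤ pr V {x | u x ≠ 0} :=
    pr_mono H hMb hMa fun x hx => by
      have hx' : u x = 1 := hx
      show u x ≠ 0
      rw [hx']
      norm_num
  have hG : 0 ≤ ex V (gs u) := ex_nonneg V (gs_nonneg u)
  have hb0 : 0 ≤ pr V {x | u x = 1} := pr_nonneg V _
  have hut : T0 u := hu.t1.t0
  by_cases hA : (1 / N) ^ 8 ≤ pr V {x | u x ≠ 0}
  · -- large sets
    have hT : 0 < c / (K * Real.log N) := by positivity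
    have hT5 : c / (K * Real.log N) ≤ 1 / 5 := by
      rw [div_le_iff₀ (by positivity)]
      nlinarith
    have hTe : Ttm c K (Fintype.card ι) 1 = c / (K * Real.log N) := by
      rw [hTm, div_one]
    have H' : Nice (min κ (c / (K * Real.log N))) M V :=
      H.mono (lt_min H.kpos hT) (min_le_left _ _) le_rfl
    have h1 := hβN _ M K V H' hK hQ hCL 1 one_pos le_rfl c hc'0 hc'c (by
      rw [hTe]
      exact min_le_right _ _)
    rw [hTe] at h1
    rw [hTe] at hPI
    have h2 := var_small_time H' hT hT5 (by positivity) h1 hP hPI hu.t1 h01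
    have h3 := ex_sq_le_pr H hut
    have h4 := var_eq' V u
    have h5' : pr V {x | u x = 1} ≤ ex V (fun x => u x ^ 2) := by
      refine ex_mono H (t0_ind hMb) (hut.pow 2) fun x => ?_
      by_cases hx : x ∈ {x | u x = 1}
      · rw [Set.indicator_of_mem hx]
        have hx' : u x = 1 := hx
        rw [hx']
        norm_num
      · rw [Set.indicator_of_notMem hx]
        positivity
    have h6 : (1 / N) ^ 16 ≤ 1 / 4 * pr V {x | u x = 1} := by
      have h7 : (1 / N) ^ 8 ≤ (1 / 16) ^ 8 := by
        apply pow_le_pow_left₀ (by positivity)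
        exact one_div_le_one_div_of_le (by norm_num) hN
      have h8 : (1 / N) ^ 16 = (1 / N) ^ 8 * (1 / N) ^ 8 := by ring
      have h9 : (0 : ℝ) ≤ (1 / N) ^ 8 := by positivity
      rw [h8]
      calc (1 / N) ^ 8 * (1 / N) ^ 8 ≤ (1 / 16) ^ 8 * (100 * pr V {x | u x = 1}) :=
            mul_le_mul h7 (hA.trans hab) h9 (by positivity)
        _ ≤ 1 / 4 * pr V {x | u x = 1} := by
            rw [← mul_assoc]
            exact mul_le_mul_of_nonneg_right (by norm_num) hb0
    have h10 : 0 ≤ ex V (fun x => u x ^ 2) := hb0.trans h5'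
    have h11 : pr V {x | u x = 1} ≤ 8 * P * ex V (gs u) := by
      nlinarith
    have h12 : 0 ≤ 900 * K / c * ex V (gs u) := by positivity
    linarith
  · -- small sets
    rw [not_le] at hA
    have ha00 : 0 ≤ pr V {x | u x ≠ 0} := pr_nonneg V _
    rcases ha00.eq_or_lt with ha0 | ha0
    · refine hba.trans ?_
      rw [← ha0]
      positivity
    · have h7 : (1 / N) ^ 8 ≤ (1 / 16) ^ 8 := by
        apply pow_le_pow_left₀ (by positivity)
        exact one_div_le_one_div_of_le (by norm_num) hN
      have ha1 : pr V {x | u x ≠ 0} ≤ (1 / 16) ^ 8 := hA.le.trans h7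
      generalize hadef : pr V {x | u x ≠ 0} = a at *
      have ha11 : a ≤ 1 := ha1.trans (by norm_num)
      have hla : Real.log (1 / a) = - Real.log a := by
        rw [one_div, Real.log_inv]
      have hl : 8 * Real.log N ≤ Real.log (1 / a) := by
        have h1 : Real.log a ≤ Real.log ((1 / N) ^ 8) := Real.log_le_log ha0 hA.le
        rw [Real.log_pow, one_div, Real.log_inv] at h1
        rw [hla]
        push_cast at h1
        linarith
      have hlog : Real.log (N / a) = Real.log N + Real.log (1 / a) := by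
        rw [hla, Real.log_div hN0.ne' ha0.ne']
        ring
      have hl0 : 0 < Real.log (1 / a) := by linarith
      have hTe : Ttm c K (Fintype.card ι) a = c / (K * (Real.log N + Real.log (1 / a))) := by
        rw [hTm, hlog]
      have hT : 0 < c / (K * (Real.log N + Real.log (1 / a))) := by positivity
      have hT1 : c / (K * (Real.log N + Real.log (1 / a))) ≤ 1 := by
        rw [div_le_iff₀ (by positivity)]
        nlinarith
      have H' : Nice (min κ (c / (K * (Real.log N + Real.log (1 / a))))) M V :=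
        H.mono (lt_min H.kpos hT) (min_le_left _ _) le_rfl
      have h1 := hβN _ M K V H' hK hQ hCL a ha0 ha11 c hc'0 hc'c (by
        rw [hTe]
        exact min_le_right _ _)
      rw [hTe] at h1
      have hη : (a / N) ^ 16 ≤ a ^ 3 := by
        have h8 : a / N ≤ a := by
          rw [div_le_iff₀ hN0]
          nlinarith
        calc (a / N) ^ 16 ≤ a ^ 16 := pow_le_pow_left₀ (by positivity) h8 16
          _ ≤ a ^ 3 := pow_le_pow_of_le_one ha0.le ha11 (by norm_num)
      have hz : Real.log (3 / a ^ 2) = Real.log 3 + 2 * Real.log (1 / a) := by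
        rw [hla, Real.log_div (by norm_num) (by positivity), Real.log_pow]
        push_cast
        ring
      have hlog3 := log_three_le
      have hlog30 : 0 ≤ Real.log 3 := Real.log_nonneg (by norm_num)
      have hΛ : 108 * Real.log (3 / a ^ 2) ^ 2 * (c / (K * (Real.log N + Real.log (1 / a)))) ≤
          1 / 8 * Real.log (1 / a) :=
        T11a_numL hc'0 hc'1 hK hL0 hl (by linarith) (by rw [hz]; positivity)
          (by rw [hz]; linarith)
      have h2 := small_set H' hT hT1 hu h01 (by rw [hadef]; exact ha0) (by rw [hadef]; exact ha1)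
        (by rw [hadef]; exact hab) (by positivity) (by rw [hadef]; exact hη) h1
        (by rw [hadef]; exact hΛ)
      rw [hadef] at h2
      have h3 := T11a_numB hc'0 hK0 hL0 hl ha0.le h2
      have h12 : 0 ≤ 8 * P * ex V (gs u) := by positivity
      have h13 := hba
      linarith

end Pool.Agent.Lib.MP_8d00da_gt.h42k
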