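import Pool.Agent.Lib.MP_8d00da_gt.h42k.T10e
import Pool.Agent.Lib.MP_8d00da_gt.h42k.T11a

/-!
# From Theorem R to the Poincare inequality for covariance at most one (paper 336, R.11)
-/

namespace Pool.Agent.Lib.MP_8d00da_gt.h42k

open MeasureTheory Set Filter
open scoped Topology NNReal ENNReal ContDiff

set_option linter.unusedSectionVars false

/-- The Poincare constant under the quadratic KLS inequality (paper 336, Theorem R for `Cov ≤ 3`),
with the constant `C₅`. -/
def PIR (C₅ : ℝ) : Prop := ∀ (ι : Type) [Fintype ι] [DecidableEq ι] [Nonempty ι] (κ M K : ℝ)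
  (V : (ι → ℝ) → ℝ), Nice κ M V → κ ≤ 1 → 2 ≤ K → QKP K ι → CLe V 3 →
    PI V (C₅ * K * (1 + Real.log (1 / κ)) ^ 3)

private theorem T11b_ln_ge (n : ℕ) : 2.77 ≤ ln n := by
  have h2 := Real.log_two_gt_d9
  have h16 : Real.log 16 = 4 * Real.log 2 := by
    rw [show (16 : ℝ) = 2 ^ 4 by norm_num, Real.log_pow]; norm_num
  have h : Real.log 16 ≤ ln n := by
    unfold ln
    apply Real.log_le_log (by norm_num)
    have : (0 : ℝ) ≤ n := Nat.cast_nonneg n
    linarith
  linarith

private theorem T11b_lln_ge (n : ℕ) : 1 ≤ lln n := by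
  have h := T11b_ln_ge n
  have he := Real.exp_one_lt_d9
  have : Real.exp 1 ≤ ln n := by linarith
  have hpos : 0 < ln n := by linarith
  have h3 : Real.log (ln n) = lln n := rfl
  rw [← h3]
  exact (Real.le_log_iff_exp_le hpos).2 this

private theorem T11b_lln_le (n : ℕ) : lln n ^ 3 ≤ 27 * ln n := by
  have h := T11b_ln_ge n
  have hpos : 0 < ln n := by linarith
  have h3 : Real.log (ln n) = lln n := rfl
  have h1 : lln n ≤ ln n ^ (1 / 3 : ℝ) / (1 / 3) := by
    rw [← h3]
    exact Real.log_le_rpow_div hpos.le (by norm_num)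
  have h0 : 0 ≤ lln n := le_trans zero_le_one (T11b_lln_ge n)
  have h4 : (ln n ^ (1 / 3 : ℝ)) ^ 3 = ln n := by
    rw [← Real.rpow_natCast, ← Real.rpow_mul hpos.le]
    norm_num
  calc lln n ^ 3 ≤ (ln n ^ (1 / 3 : ℝ) / (1 / 3)) ^ 3 := by gcongr
    _ = 27 * (ln n ^ (1 / 3 : ℝ)) ^ 3 := by ring
    _ = 27 * ln n := by rw [h4]

/-- The logarithm of `1/T` is at most `C loglog (n+16)`. -/
private theorem T11b_log {a c : ℝ} (ha : 2 ≤ a) (hc : 0 < c) (hc1 : c ≤ 1) (n : ℕ) :
    1 + Real.log (1 / (c / (a * lln n ^ 3 * ln n))) ≤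
      (3 + Real.log (27 * a) + Real.log (1 / c)) * lln n := by
  have hl1 := T11b_lln_ge n
  have hln := T11b_ln_ge n
  have hle := T11b_lln_le n
  have ha0 : 0 < a := by linarith
  have hln0 : 0 < ln n := by linarith
  have hl0 : 0 < lln n := by linarith
  have e1 : 1 / (c / (a * lln n ^ 3 * ln n)) = 1 / c * (a * lln n ^ 3) * ln n := by
    field_simp
  have h1 : Real.log (1 / (c / (a * lln n ^ 3 * ln n))) =
      Real.log (1 / c) + Real.log (a * lln n ^ 3) + lln n := by
    rw [e1, Real.log_mul (by positivity) hln0.ne', Real.log_mul (by positivity) (by positivity)]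
    rfl
  have h2 : Real.log (a * lln n ^ 3) ≤ Real.log (27 * a) + lln n := by
    have h3 : a * lln n ^ 3 ≤ 27 * a * ln n := by nlinarith
    have h4 := Real.log_le_log (by positivity) h3
    rw [Real.log_mul (by positivity) hln0.ne'] at h4
    exact h4
  have h5 : 0 ≤ Real.log (27 * a) := Real.log_nonneg (by linarith)
  have h6 : 0 ≤ Real.log (1 / c) := Real.log_nonneg (by
    rw [le_div_iff₀ hc]
    linarith)
  have h7 : Real.log (27 * a) ≤ Real.log (27 * a) * lln n := le_mul_of_one_le_right h5 hl1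
  have h8 : Real.log (1 / c) ≤ Real.log (1 / c) * lln n := le_mul_of_one_le_right h6 hl1
  rw [h1]
  linarith

private theorem T11b_empty {ι : Type} [Fintype ι] [DecidableEq ι] [IsEmpty ι]
    {κ M : ℝ} {V : (ι → ℝ) → ℝ} (H : Nice κ M V) {P : ℝ} (hP : 0 ≤ P) : PI V P := by
  intro f hf
  have h1 := H.pi f hf
  have h2 : gs f = fun _ => 0 := by
    funext x
    unfold gs
    simp
  rw [h2] at h1 ⊢
  have h3 : ex V (fun _ : ι → ℝ => (0 : ℝ)) = 0 := by
    unfold ex
    simp
  rw [h3] at h1 ⊢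
  simpa using h1

/-- Theorem P with Theorem R in place of improved Lichnerowicz. -/
theorem thmP11 {C : ℝ} (hC : 0 < C) {q₀ : ℕ} (h : OPK C q₀) {C₅ : ℝ} (hC₅ : 0 < C₅)
    (h5 : PIR C₅) {C₀ : ℝ}
    (hQK : ∀ (ι : Type) [Fintype ι] [DecidableEq ι], QKP (C₀ * lln (Fintype.card ι) ^ 3) ι) :
    ∃ C₄ : ℝ, 0 < C₄ ∧ ∀ (ι : Type) [Fintype ι] [DecidableEq ι] (κ M : ℝ) (V : (ι → ℝ) → ℝ),
      Nice κ M V → CLe V 1 → PI V (C₄ * lln (Fintype.card ι) ^ 6) := by
  obtain ⟨a, ha⟩ : ∃ a : ℝ, a = max C₀ 2 := ⟨_, rfl⟩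
  have ha2 : 2 ≤ a := ha ▸ le_max_right _ _
  have haC : C₀ ≤ a := ha ▸ le_max_left _ _
  have ha0 : 0 < a := by linarith
  obtain ⟨c, hc, hc1, hcap⟩ := cap_of_par hC h
  obtain ⟨C₁, hC₁, hpi⟩ := pi_of_cap
  have hc1' : c ≤ 1 := by linarith
  have hD1 : 0 ≤ Real.log (27 * a) := Real.log_nonneg (by linarith)
  have hD2 : 0 ≤ Real.log (1 / c) := Real.log_nonneg (by
    rw [le_div_iff₀ hc]
    linarith)
  obtain ⟨D, hD⟩ : ∃ D : ℝ, D = 3 + Real.log (27 * a) + Real.log (1 / c) := ⟨_, rfl⟩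
  have hD0 : 0 < D := by linarith
  refine ⟨C₁ * (8 * (C₅ * a * D ^ 3) + 900 * a / c), by positivity, ?_⟩
  intro ι _ _ κ M V H hV
  rcases isEmpty_or_nonempty ι with hι | hι
  · have hl1 := T11b_lln_ge (Fintype.card ι)
    have hl0 : 0 ≤ lln (Fintype.card ι) := by linarith
    exact T11b_empty H (by positivity)
  have hl1 := T11b_lln_ge (Fintype.card ι)
  have hln := T11b_ln_ge (Fintype.card ι)
  have hlog := T11b_log ha2 hc hc1' (Fintype.card ι)
  rw [← hD] at hlog
  have hln0 : 0 < ln (Fintype.card ι) := by linarith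
  have hl0 : 0 ≤ lln (Fintype.card ι) := by linarith
  have hl3 : 1 ≤ lln (Fintype.card ι) ^ 3 := one_le_pow₀ hl1
  have hQ : QKP (a * lln (Fintype.card ι) ^ 3) ι := by
    intro κ' M' V' H' hV' t
    refine (hQK ι κ' M' V' H' hV' t).trans ?_
    apply mul_le_mul_of_nonneg_right
    · apply mul_le_mul_of_nonneg_right haC
      linarith
    · exact Finset.sum_nonneg fun i _ => sq_nonneg _
  have hK2 : 2 ≤ a * lln (Fintype.card ι) ^ 3 := by nlinarith
  have hK0 : 0 < a * lln (Fintype.card ι) ^ 3 := by linarith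
  have hTe : Ttm c (a * lln (Fintype.card ι) ^ 3) (Fintype.card ι) 1 =
      c / (a * lln (Fintype.card ι) ^ 3 * ln (Fintype.card ι)) := by
    unfold Ttm ln
    rw [div_one]
  have hT0 : 0 < c / (a * lln (Fintype.card ι) ^ 3 * ln (Fintype.card ι)) := by positivity
  have hT1 : c / (a * lln (Fintype.card ι) ^ 3 * ln (Fintype.card ι)) ≤ 1 := by
    rw [div_le_iff₀ (by positivity)]
    nlinarith
  have hcp := hcap ι κ M _ V H (by linarith) hQ hV
    (C₅ * (a * lln (Fintype.card ι) ^ 3) * (D * lln (Fintype.card ι)) ^ 3) (by positivity) (by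
      intro y hy
      rw [hTe] at hy ⊢
      have Hp := H.ptn (t := c / (a * lln (Fintype.card ι) ^ 3 * ln (Fintype.card ι)))
        (by linarith [H.kpos]) y
      have Hp2 : Nice (c / (a * lln (Fintype.card ι) ^ 3 * ln (Fintype.card ι)))
          (M + c / (a * lln (Fintype.card ι) ^ 3 * ln (Fintype.card ι)))
          (pt V (c / (a * lln (Fintype.card ι) ^ 3 * ln (Fintype.card ι))) y) :=
        Hp.mono hT0 (by linarith [H.kpos]) le_rfl
      have h7 := h5 ι _ _ _ _ Hp2 hT1 hK2 hQ ((CLe_Lop10 H hT0.le y).mono hy)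
      intro f hf
      refine (h7 f hf).trans ?_
      apply mul_le_mul_of_nonneg_right
      · apply mul_le_mul_of_nonneg_left _ (by positivity)
        apply pow_le_pow_left₀ _ hlog
        have h8 : 0 ≤ Real.log (1 / (c / (a * lln (Fintype.card ι) ^ 3 *
            ln (Fintype.card ι)))) := by
          apply Real.log_nonneg
          rw [le_div_iff₀ hT0]
          linarith
        linarith
      · exact ex_nonneg _ (gs_nonneg f))
  have hnn : 0 ≤ 8 * (C₅ * (a * lln (Fintype.card ι) ^ 3) * (D * lln (Fintype.card ι)) ^ 3) +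
      900 * (a * lln (Fintype.card ι) ^ 3) / c := by
    positivity
  have hfin := hpi ι κ M V H _ hnn hcp
  refine PI_of_cc H (by positivity) fun φ hφ => (hfin φ hφ).trans ?_
  apply mul_le_mul_of_nonneg_right _ (ex_nonneg _ (gs_nonneg φ))
  have h9 : 900 * (a * lln (Fintype.card ι) ^ 3) / c ≤
      900 * a / c * lln (Fintype.card ι) ^ 6 := by
    have h10 : lln (Fintype.card ι) ^ 3 ≤ lln (Fintype.card ι) ^ 6 :=
      pow_le_pow_right₀ hl1 (by norm_num)
    have h11 : 0 ≤ 900 * a / c := by positivity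
    calc 900 * (a * lln (Fintype.card ι) ^ 3) / c = 900 * a / c * lln (Fintype.card ι) ^ 3 := by
          ring
      _ ≤ _ := mul_le_mul_of_nonneg_left h10 h11
  calc C₁ * (8 * (C₅ * (a * lln (Fintype.card ι) ^ 3) * (D * lln (Fintype.card ι)) ^ 3) +
      900 * (a * lln (Fintype.card ι) ^ 3) / c)
      ≤ C₁ * (8 * (C₅ * (a * lln (Fintype.card ι) ^ 3) * (D * lln (Fintype.card ι)) ^ 3) +
        900 * a / c * lln (Fintype.card ι) ^ 6) := by
        apply mul_le_mul_of_nonneg_left _ hC₁.le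
        linarith
    _ = C₁ * (8 * (C₅ * a * D ^ 3) + 900 * a / c) * lln (Fintype.card ι) ^ 6 := by ring

end Pool.Agent.Lib.MP_8d00da_gt.h42k
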