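import Pool.Agent.Lib.MP_8d00da_gt.h42k.RK1
import Pool.Agent.Lib.MP_8d00da_gt.h42k.T11b

/-!
# Theorem R in the form used by the final assembly (paper 336, R.11)
-/

namespace Pool.Agent.Lib.MP_8d00da_gt.h42k

open MeasureTheory Set Filter
open scoped Topology NNReal ENNReal ContDiff

/-- Theorem R for `Cov ≤ 3`. -/
theorem pir_R : PIR (4 * 8 ^ 3) := by
  intro ι _ _ _ κ M K V H hκ hK2 hK hC
  have hK1 : 1 ≤ K := by linarith
  have h := PI_R ι hK hK1 H hκ hC
  have hκ0 := H.kpos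
  have hl : 0 ≤ Real.log (1 / κ) := Real.log_nonneg (by rw [le_div_iff₀ hκ0]; linarith)
  intro f hf
  refine (h f hf).trans ?_
  apply mul_le_mul_of_nonneg_right _
    (ex_nonneg V fun x => Finset.sum_nonneg fun i _ => sq_nonneg (pd i f x))
  have h1 : (1 + 8 * Real.log (1 / κ)) ^ 3 ≤ 8 ^ 3 * (1 + Real.log (1 / κ)) ^ 3 := by
    rw [← mul_pow]
    exact pow_le_pow_left₀ (by positivity) (by linarith) 3
  calc 4 * (K * (1 + 8 * Real.log (1 / κ)) ^ 3)
      ≤ 4 * (K * (8 ^ 3 * (1 + Real.log (1 / κ)) ^ 3)) := by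
        apply mul_le_mul_of_nonneg_left _ (by norm_num)
        exact mul_le_mul_of_nonneg_left h1 (by linarith)
    _ = 4 * 8 ^ 3 * K * (1 + Real.log (1 / κ)) ^ 3 := by ring

end Pool.Agent.Lib.MP_8d00da_gt.h42k
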