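import Pool.Agent.Lib.MP_8d00da_gt.h42k.T11d
import Pool.Agent.Lib.MP_8d00da_gt.h42k.RK2
import Pool.Agent.Lib.MP_8d00da_gt.h42k.U8b

/-!
# Assembly of Theorems R and U
-/

namespace Pool.Agent.Lib.MP_8d00da_gt.h42k

open MeasureTheory Set Filter
open Pool.Agent.Lib.MP_8d00da_gt.h42 (LogConc)
open Pool.Agent.Lib.MP_8d00da_gt.h25 (PoincareWith LinPoincareWith)
open Pool.Agent.Lib.MP_8d00da_gt.h42s (Vn)
open scoped Topology NNReal ENNReal ContDiff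

/-- The KLS inequality with the factor `C (log log n)^{3/2}`. -/
theorem kls_loglog : ∃ C : ℝ, 0 < C ∧ ∀ (n : ℕ) (h : EuclideanSpace ℝ (Fin n) → ℝ),
    (∀ x, 0 ≤ h x) → Measurable h →
      (∀ (x y : EuclideanSpace ℝ (Fin n)) (a b : ℝ), 0 ≤ a → 0 ≤ b → a + b = 1 →
        h x ^ a * h y ^ b ≤ h (a • x + b • y)) →
      ∀ μ : Measure (EuclideanSpace ℝ (Fin n)),
        μ = volume.withDensity (fun x => ENNReal.ofReal (h x)) →
      IsProbabilityMeasure μ → ∀ D : ℝ, LinPoincareWith μ D →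
      PoincareWith μ (C * Real.log (Real.log (n + 16)) ^ (3 / 2 : ℝ) * D) :=
  kls_three_halves (by norm_num) pir_R fun ι _ _ => U.qkp_univ ι

/-- The quadratic KLS inequality with a universal constant. -/
theorem quad_univ (n : ℕ) (h : EuclideanSpace ℝ (Fin n) → ℝ)
    (h0 : ∀ x, 0 ≤ h x) (hm : Measurable h)
    (hlc : ∀ (x y : EuclideanSpace ℝ (Fin n)) (a b : ℝ), 0 ≤ a → 0 ≤ b → a + b = 1 →
      h x ^ a * h y ^ b ≤ h (a • x + b • y))
    (μ : Measure (EuclideanSpace ℝ (Fin n)))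
    (hμ : μ = volume.withDensity (fun x => ENNReal.ofReal (h x)))
    (hprob : IsProbabilityMeasure μ) (D : ℝ) (hD : LinPoincareWith μ D)
    (A : Matrix (Fin n) (Fin n) ℝ) :
    ∫ x, ((∑ i, ∑ j, A i j * (x i - ∫ y, y i ∂μ) * (x j - ∫ y, y j ∂μ)) -
        ∫ z, (∑ i, ∑ j, A i j * (z i - ∫ y, y i ∂μ) * (z j - ∫ y, y j ∂μ)) ∂μ) ^ 2 ∂μ ≤
      123904 * D ^ 4 * ∑ i, ∑ j, A i j ^ 2 :=
  quad_general (by norm_num) (U.qkp_univ (Fin n)) h0 hm hlc hμ hprob hD A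

end Pool.Agent.Lib.MP_8d00da_gt.h42k
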