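import Pool.Agent.Lib.MP_8d00da_gt.h42k.L11f

/-!
# The Poincare form of the KLS inequality for all log-concave measures, from the Poincare
inequality with a universal constant for nice potentials
-/

namespace Pool.Agent.Lib.MP_8d00da_gt.h42k

open MeasureTheory Set Filter
open Pool.Agent.Lib.MP_8d00da_gt.h42 (LogConc)
open Pool.Agent.Lib.MP_8d00da_gt.h25 (PoincareWith LinPoincareWith)
open Pool.Agent.Lib.MP_8d00da_gt.h42s (Vn)
open scoped Topology NNReal ENNReal ContDiff

/-- The universal Poincare inequality for nice potentials with covariance at most one. -/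
def KLSN : Prop := ∃ C : ℝ, 0 < C ∧ ∀ (n : ℕ) (κ M : ℝ) (V : (Fin n → ℝ) → ℝ),
  Nice κ M V → CLe V 1 → PI V C

/-- `D_Poin(μ) ≤ C D^Lin_Poin(μ)` for all log-concave probability measures. -/
theorem kls_full_of_KLSN (hT : KLSN) :
    ∃ C : ℝ, 0 < C ∧ ∀ (n : ℕ) (h : EuclideanSpace ℝ (Fin n) → ℝ),
    (∀ x, 0 ≤ h x) → Measurable h →
      (∀ (x y : EuclideanSpace ℝ (Fin n)) (a b : ℝ), 0 ≤ a → 0 ≤ b → a + b = 1 →
        h x ^ a * h y ^ b ≤ h (a • x + b • y)) →
      ∀ μ : Measure (EuclideanSpace ℝ (Fin n)),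
        μ = volume.withDensity (fun x => ENNReal.ofReal (h x)) →
      IsProbabilityMeasure μ → ∀ D : ℝ, LinPoincareWith μ D → PoincareWith μ (C * D) := by
  obtain ⟨C, hC, hP⟩ := hT
  refine ⟨√C, Real.sqrt_pos.2 hC, fun n h h0 hm hlc μ hμ hprob D hD => ?_⟩
  have hlc' : LogConc h := fun a ha0 ha1 x y =>
    hlc x y (1 - a) a (by linarith) ha0.le (by ring)
  exact kls_of_PI hC.le (fun κ M V => hP n κ M V) h0 hm hlc' hμ hD

end Pool.Agent.Lib.MP_8d00da_gt.h42k
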