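import Mathlib

/-!
# Final statements (drafts of the two hand-ins; the proofs will be in the files `Results/…`)
-/

open MeasureTheory

namespace Pool.Agent.Lib.MP_8d00da_gt.h42k.Statement

/-- `‖f - ∫ f dμ‖_{L²(μ)} ≤ D · ‖|∇f|‖_{L²(μ)}` for every Lipschitz function `f`.
The Poincaré constant `D_Poin(μ)` of the problem is the least such `D`. -/
def PoincareWith {V : Type*} [NormedAddCommGroup V] [NormedSpace ℝ V] [MeasurableSpace V]
    (μ : Measure V) (D : ℝ) : Prop :=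
  ∀ f : V → ℝ, (∃ L : NNReal, LipschitzWith L f) →
    eLpNorm (fun x => f x - ∫ y, f y ∂μ) 2 μ ≤
      ENNReal.ofReal D * eLpNorm (fun x => ‖fderiv ℝ f x‖) 2 μ

/-- The same inequality tested on linear functions `θ` only (`‖|∇θ|‖_{L²(μ)} = ‖θ‖` for a
probability measure). The constant `D^Lin_Poin(μ)` of the problem is the least such `D`. -/
def LinPoincareWith {V : Type*} [NormedAddCommGroup V] [NormedSpace ℝ V] [MeasurableSpace V]
    (μ : Measure V) (D : ℝ) : Prop :=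
  ∀ θ : V →L[ℝ] ℝ, eLpNorm (fun x => θ x - ∫ y, θ y ∂μ) 2 μ ≤ ENNReal.ofReal (D * ‖θ‖)

/-- `h` is log-concave. -/
def LogConcave {V : Type*} [AddCommGroup V] [Module ℝ V] (h : V → ℝ) : Prop :=
  ∀ (x y : V) (a b : ℝ), 0 ≤ a → 0 ≤ b → a + b = 1 → h x ^ a * h y ^ b ≤ h (a • x + b • y)

/-- The KLS inequality for all log-concave probability measures on `ℝⁿ` with the factor
`C (log n)^{1/4} (log log n)^{3/4}` (written with `n + 16` to cover all `n`). -/
theorem result : ∃ C : ℝ, 0 < C ∧ ∀ (n : ℕ) (h : EuclideanSpace ℝ (Fin n) → ℝ),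
    (∀ x, 0 ≤ h x) → Measurable h → LogConcave h →
    ∀ μ : Measure (EuclideanSpace ℝ (Fin n)),
      μ = volume.withDensity (fun x => ENNReal.ofReal (h x)) → IsProbabilityMeasure μ →
      ∀ D : ℝ, LinPoincareWith μ D →
        PoincareWith μ (C * Real.log (n + 16) ^ (1 / 4 : ℝ) *
          Real.log (Real.log (n + 16)) ^ (3 / 4 : ℝ) * D) := by
  sorry

/-- The quadratic form `x ↦ ∑ A_ij (x_i - b_i) (x_j - b_j)`, `b` the barycentre of `μ`. -/
noncomputable def quadForm {n : ℕ} (μ : Measure (EuclideanSpace ℝ (Fin n)))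
    (A : Matrix (Fin n) (Fin n) ℝ) (x : EuclideanSpace ℝ (Fin n)) : ℝ :=
  ∑ i, ∑ j, A i j * (x i - ∫ y, y i ∂μ) * (x j - ∫ y, y j ∂μ)

/-- The quadratic KLS inequality: the variance of a quadratic form is at most
`C (log log n)³ D⁴ ‖A‖_HS²`. -/
theorem result_quad : ∃ C : ℝ, 0 < C ∧ ∀ (n : ℕ) (h : EuclideanSpace ℝ (Fin n) → ℝ),
    (∀ x, 0 ≤ h x) → Measurable h → LogConcave h →
    ∀ μ : Measure (EuclideanSpace ℝ (Fin n)),
      μ = volume.withDensity (fun x => ENNReal.ofReal (h x)) → IsProbabilityMeasure μ →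
      ∀ D : ℝ, LinPoincareWith μ D → ∀ A : Matrix (Fin n) (Fin n) ℝ,
        ∫ x, (quadForm μ A x - ∫ y, quadForm μ A y ∂μ) ^ 2 ∂μ ≤
          C * Real.log (Real.log (n + 16)) ^ 3 * D ^ 4 * ∑ i, ∑ j, A i j ^ 2 := by
  sorry

end Pool.Agent.Lib.MP_8d00da_gt.h42k.Statement
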