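import Pool.Agent.Lib.MP_8d00da_gt.h42k.S6c
import Pool.Agent.Lib.MP_8d00da_gt.h42k.G49b
import Pool.Agent.Lib.MP_8d00da_gt.h42k.KD1
import Pool.Agent.Lib.MP_8d00da_gt.h42k.S6b
import Pool.Agent.Lib.MP_8d00da_gt.h42k.L11e

section

section

/-!
# Third moments: the (IL) inequality (paper 323, 6.1)
-/

namespace Pool.Agent.Lib.MP_8d00da_gt.h42k

open MeasureTheory Set Filter
open scoped Topology NNReal ENNReal ContDiff

set_option linter.unusedSectionVars false
set_option linter.unusedVariables false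

variable {ι : Type*} [Fintype ι] [DecidableEq ι]

variable {κ M : ℝ} {V : (ι → ℝ) → ℝ}

variable {lam : ι → ℝ}

private theorem S6c2_t0 (V : (ι → ℝ) → ℝ) (a : ι → ℝ) : T0 (fun x => dt a (ctr V x)) := by
  unfold dt ctr
  exact T0.sum _ fun i _ => (T0.const (a i)).mul ((T0.coord i).sub (T0.const _))

private theorem S6c2_c {l z : ℝ} (hl : 0 ≤ l) (hz : 0 < z) :
    1 ≤ max 1 √(l / z) ∧ l ≤ z * max 1 √(l / z) ^ 2 ∧ (l ≤ z → max 1 √(l / z) = 1) := by
  refine ⟨le_max_left _ _, ?_, fun h => ?_⟩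
  · have h1 : √(l / z) ≤ max 1 √(l / z) := le_max_right _ _
    have h2 : √(l / z) ^ 2 = l / z := Real.sq_sqrt (by positivity)
    have h3 : √(l / z) ^ 2 ≤ max 1 √(l / z) ^ 2 :=
      pow_le_pow_left₀ (Real.sqrt_nonneg _) h1 2
    calc l = z * (l / z) := by field_simp
      _ ≤ z * max 1 √(l / z) ^ 2 := mul_le_mul_of_nonneg_left (h2.symm.le.trans h3) hz.le
  · apply max_eq_left
    rw [Real.sqrt_le_one]
    rw [div_le_one hz]
    exact h

/-- Main lemma of 6.1. `c_k = max 1 √(lam k / z)`; `B_jk = tmd (e i) (e j) (e k)` if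
`lam j, lam k ≤ z`, zero otherwise. `(∑ B²)² = (E e_i·x̃ ∑ B_jk (e_j·x̃)(e_k·x̃))² ≤
lam i Var ≤ lam i Q ∑ B²`. -/
theorem third_gen (H : Nice κ M V) {e : Matrix ι ι ℝ} (he : Eig (CM V) e lam) {z Q : ℝ}
    (hz : 0 < z) (hQ : 0 ≤ Q)
    (hB : ∀ (M' : ℝ) (W : (ι → ℝ) → ℝ), Nice κ M' W → CLe W z → ∀ B : ι → ι → ℝ,
      (∀ i j, B i j = B j i) → var W (qf W B) ≤ Q * ∑ i, ∑ j, B i j ^ 2) (i : ι) :
    SI lam (Tu e (TM V)) i z ≤ lam i * Q := by
  have eb := he.eb
  have hl0 : ∀ k, 0 ≤ lam k := fun k => EB.lam_nonneg H eb k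
  obtain ⟨B, hBd⟩ : ∃ B : ι → ι → ℝ, ∀ j k, B j k =
      if lam j ≤ z ∧ lam k ≤ z then tmd V (e i) (e j) (e k) else 0 := ⟨_, fun _ _ => rfl⟩
  obtain ⟨c, hcd⟩ : ∃ c : ι → ℝ, ∀ k, c k = max 1 √(lam k / z) := ⟨_, fun _ => rfl⟩
  have hc1 : ∀ k, 1 ≤ c k := fun k => by rw [hcd]; exact (S6c2_c (hl0 k) hz).1
  have hc2 : ∀ k, lam k ≤ z * c k ^ 2 := fun k => by rw [hcd]; exact (S6c2_c (hl0 k) hz).2.1
  have hc3 : ∀ k, lam k ≤ z → c k = 1 := fun k => by rw [hcd]; exact (S6c2_c (hl0 k) hz).2.2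
  have hc0 : ∀ k, c k ≠ 0 := fun k => by
    have := hc1 k
    positivity
  have hSI : SI lam (Tu e (TM V)) i z = ∑ j, ∑ k, B j k ^ 2 := by
    unfold SI
    refine Finset.sum_congr rfl fun j _ => Finset.sum_congr rfl fun k _ => ?_
    rw [Tu_TM H, hBd]
    split_ifs with h
    · rfl
    · simp
  have hsymm : ∀ j k, B j k = B k j := by
    intro j k
    have h1 : tmd V (e i) (e j) (e k) = tmd V (e i) (e k) (e j) := by
      unfold tmd
      congr 1
      funext x
      ring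
    rw [hBd, hBd, h1]
    simp only [and_comm]
  obtain ⟨M', HW⟩ := stv_nice H eb hc1
  have CL := CLe_stv H eb (fun k => lt_of_lt_of_le one_pos (hc1 k)) hz.le hc2
  have key := hB M' _ HW CL B hsymm
  obtain ⟨G, hGd⟩ : ∃ G : (ι → ℝ) → ℝ, G = fun x => ∑ j, ∑ k,
      B j k * (dt (e j) (ctr V x) * dt (e k) (ctr V x)) := ⟨_, rfl⟩
  have hG : T0 G := by
    rw [hGd]
    exact T0.sum _ fun j _ => T0.sum _ fun k _ => ((S6c2_t0 V _).mul (S6c2_t0 V _)).cmul _
  have hqf : qf (fun y => V (stv e c y)) B = fun y => G (stv e c y) := by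
    funext y
    rw [hGd]
    unfold qf
    refine Finset.sum_congr rfl fun j _ => Finset.sum_congr rfl fun k _ => ?_
    rw [ctr_stv H eb hc0, ctr_stv H eb hc0]
    by_cases h : lam j ≤ z ∧ lam k ≤ z
    · rw [hc3 j h.1, hc3 k h.2]
      ring
    · have hb : B j k = 0 := by rw [hBd, if_neg h]
      rw [hb]
      ring
  have hvar : var (fun y => V (stv e c y)) (fun y => G (stv e c y)) = var V G := by
    obtain ⟨P, hP⟩ := stv_equiv eb hc0
    have := var_comp_lin P V G
    simp only [hP] at this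
    exact this
  rw [hqf, hvar] at key
  have hcs := dt_ctr_cs H (e i) hG
  have hex : ex V (fun x => dt (e i) (ctr V x) * G x) = ∑ j, ∑ k, B j k ^ 2 := by
    have h1 : (fun x => dt (e i) (ctr V x) * G x) = fun x => ∑ j, ∑ k,
        B j k * (dt (e i) (ctr V x) * dt (e j) (ctr V x) * dt (e k) (ctr V x)) := by
      funext x
      rw [hGd]
      simp only [Finset.mul_sum]
      exact Finset.sum_congr rfl fun j _ => Finset.sum_congr rfl fun k _ => by ring
    have ht : ∀ j k, T0 (fun x => B j k *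
        (dt (e i) (ctr V x) * dt (e j) (ctr V x) * dt (e k) (ctr V x))) := fun j k =>
      (((S6c2_t0 V _).mul (S6c2_t0 V _)).mul (S6c2_t0 V _)).cmul _
    rw [h1, ex_sum H _ fun j _ => T0.sum _ fun k _ => ht j k]
    refine Finset.sum_congr rfl fun j _ => ?_
    rw [ex_sum H _ fun k _ => ht j k]
    refine Finset.sum_congr rfl fun k _ => ?_
    rw [ex_cmul]
    have h2 : ex V (fun x => dt (e i) (ctr V x) * dt (e j) (ctr V x) * dt (e k) (ctr V x)) =
      tmd V (e i) (e j) (e k) := rfl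
    rw [h2]
    by_cases h : lam j ≤ z ∧ lam k ≤ z
    · rw [hBd, if_pos h, pow_two]
    · rw [hBd, if_neg h]
      ring
  rw [hex, EB.var_e H eb] at hcs
  rw [hSI]
  set S : ℝ := ∑ j, ∑ k, B j k ^ 2 with hS
  have hS0 : 0 ≤ S := Finset.sum_nonneg fun j _ => Finset.sum_nonneg fun k _ => sq_nonneg _
  have h3 : S ^ 2 ≤ lam i * (Q * S) := hcs.trans (mul_le_mul_of_nonneg_left key (hl0 i))
  rcases hS0.eq_or_lt with h | h
  · rw [← h]
    exact mul_nonneg (hl0 i) hQ
  · have h4 : S * S ≤ lam i * Q * S := by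
      rw [← pow_two]
      linarith
    exact le_of_mul_le_mul_right h4 h

/-- (IL): `third_gen` with `IL` and `quad_le`. -/
theorem third_IL (H : Nice κ M V) {e : Matrix ι ι ℝ} (he : Eig (CM V) e lam) {z : ℝ}
    (hz : 0 < z) (i : ι) : SI lam (Tu e (TM V)) i z ≤ 4 * lam i * (z * √z) / √κ := by
  have h1 := third_gen H he hz (Q := 4 * √(z / κ) * z) (by positivity)
    (fun M' W HW CL B hB => quad_le HW hz.le (Real.sqrt_nonneg _) CL (IL HW hz.le CL) hB) i
  refine h1.trans (le_of_eq ?_)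
  rw [Real.sqrt_div hz.le]
  ring

end Pool.Agent.Lib.MP_8d00da_gt.h42k
end

section

/-!
# Third moments under the quadratic KLS property (paper 323, 6.2)
-/

namespace Pool.Agent.Lib.MP_8d00da_gt.h42k

open MeasureTheory Set Filter
open scoped Topology NNReal ENNReal ContDiff

set_option linter.unusedSectionVars false
set_option linter.unusedVariables false

variable {ι : Type} [Fintype ι] [DecidableEq ι]

variable {κ M K : ℝ} {V : (ι → ℝ) → ℝ}

/-- Rotation and scaling at once. -/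
private theorem S6d_main (hK : QKP K ι) (H : Nice κ M V) {z : ℝ} (hz : 0 < z) (hC : CLe V z)
    {B : ι → ι → ℝ} (hB : ∀ i j, B i j = B j i) :
    var V (qf V B) ≤ K * z ^ 2 * ∑ i, ∑ j, B i j ^ 2 := by
  obtain ⟨A, hA⟩ : ∃ A : Matrix ι ι ℝ, ∀ i j, A i j = B i j := ⟨Matrix.of B, fun _ _ => rfl⟩
  obtain ⟨e, lam, he⟩ := exists_EB (A := A) fun i j => by rw [hA, hA, hB]
  have hs : 0 < √z := Real.sqrt_pos.2 hz
  have hss : √z * √z = z := Real.mul_self_sqrt hz.le
  let c : ι → ℝ := fun _ => √z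
  have hc0 : ∀ k, c k ≠ 0 := fun _ => hs.ne'
  obtain ⟨P, hP⟩ := stv_equiv he hc0
  obtain ⟨κ', M', HW'⟩ := H.comp_lin' P
  have hWe : (fun y => V (P y)) = fun y => V (stv e c y) := funext fun y => by rw [hP]
  have HW : Nice κ' M' (fun y => V (stv e c y)) := by
    rw [← hWe]
    exact HW'
  -- the covariance of the new potential
  have CL : CLe (fun y => V (stv e c y)) 1 := by
    intro θ
    set w : ι → ℝ := stv e (fun k => (c k)⁻¹) θ with hw
    have h1 : ∀ k, dt (e k) w = (c k)⁻¹ * θ k := fun k => dt_stv he _ θ k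
    have h2 : (fun y : ι → ℝ => dt θ y) = fun y => (fun x => dt w x) (P y) := by
      funext y
      show dt θ y = dt w (P y)
      rw [hP, he.parseval w]
      unfold dt
      refine Finset.sum_congr rfl fun k _ => ?_
      have h3 := h1 k
      have h4 := dt_stv he c y k
      unfold dt at h3 h4
      rw [h3, h4]
      have h5 := hc0 k
      field_simp
    rw [← hWe, h2, var_comp_lin P V]
    refine (hC w).trans (le_of_eq ?_)
    rw [hw, sq_stv he]
    unfold sq
    rw [one_mul, Finset.mul_sum]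
    refine Finset.sum_congr rfl fun k _ => ?_
    show z * ((√z)⁻¹ * θ k) ^ 2 = θ k ^ 2
    have e1 : z * ((√z)⁻¹ * θ k) ^ 2 = (√z * √z) * ((√z)⁻¹ * θ k) ^ 2 := by rw [hss]
    rw [e1]
    field_simp
  have key := hK κ' M' _ HW CL (fun k => z * lam k)
  -- the quadratic form in the new coordinates
  have hq : ∀ y, qf V B (stv e c y) =
      ∑ k, (z * lam k) * (y k - mn (fun y => V (stv e c y)) k) ^ 2 := by
    intro y
    have h1 : qf V B (stv e c y) =
        dt (ctr V (stv e c y)) (A.mulVec (ctr V (stv e c y))) := by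
      show ∑ i, ∑ j, B i j * (stv e c y i - mn V i) * (stv e c y j - mn V j) =
        ∑ i, ctr V (stv e c y) i * ∑ j, A i j * ctr V (stv e c y) j
      refine Finset.sum_congr rfl fun i _ => ?_
      rw [Finset.mul_sum]
      refine Finset.sum_congr rfl fun j _ => ?_
      rw [hA]
      show B i j * (stv e c y i - mn V i) * (stv e c y j - mn V j) =
        (stv e c y i - mn V i) * (B i j * (stv e c y j - mn V j))
      ring
    rw [h1, he.quad]
    refine Finset.sum_congr rfl fun k _ => ?_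
    rw [ctr_stv H he hc0]
    show lam k * dt (e k) (ctr V (stv e c y)) ^ 2 =
      z * lam k * (dt (e k) (ctr V (stv e c y)) / √z) ^ 2
    rw [div_pow, Real.sq_sqrt hz.le]
    field_simp
  have hvar : var V (qf V B) = var (fun y => V (stv e c y))
      (fun y => ∑ k, (z * lam k) * (y k - mn (fun y => V (stv e c y)) k) ^ 2) := by
    have h1 : (fun y => ∑ k, (z * lam k) * (y k - mn (fun y => V (stv e c y)) k) ^ 2) =
        fun y => qf V B (P y) := by
      funext y
      rw [hP, hq]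
    rw [h1, ← hWe, var_comp_lin P V]
  rw [hvar]
  refine key.trans (le_of_eq ?_)
  have htr : ∑ k, lam k ^ 2 = ∑ i, ∑ j, B i j ^ 2 := by
    rw [← he.trace_pow 2, pow_two, Matrix.trace]
    refine Finset.sum_congr rfl fun i _ => ?_
    rw [Matrix.diag_apply, Matrix.mul_apply]
    refine Finset.sum_congr rfl fun j _ => ?_
    rw [hA, hA, hB j i, pow_two]
  rw [← htr, mul_assoc]
  congr 1
  rw [Finset.mul_sum]
  exact Finset.sum_congr rfl fun k _ => by ring

/-- Rotation invariance: eigenbasis `f` of `B`, eigenvalues `t`; `W = V ∘ stv f 1`;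
`qf V B (stv f 1 y) = ∑ t_k (y_k - mn W k)²`, `∑ t_k² = ∑ B_ij²`. -/
theorem QKP.quad (hK : QKP K ι) (H : Nice κ M V) (hC : CLe V 1) {B : ι → ι → ℝ}
    (hB : ∀ i j, B i j = B j i) : var V (qf V B) ≤ K * ∑ i, ∑ j, B i j ^ 2 := by
  have h := S6d_main hK H one_pos hC hB
  rw [one_pow, mul_one] at h
  exact h

/-- Scaling by `√z` (`stv` with `c_k = √z` in the standard basis). -/
theorem QKP.quad_scale (hK : QKP K ι) (H : Nice κ M V) {z : ℝ} (hz : 0 < z) (hC : CLe V z)
    {B : ι → ι → ℝ} (hB : ∀ i j, B i j = B j i) :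
    var V (qf V B) ≤ K * z ^ 2 * ∑ i, ∑ j, B i j ^ 2 := S6d_main hK H hz hC hB

/-- (K): `third_gen` with `QKP.quad_scale`. -/
theorem third_K (hK : QKP K ι) (hK0 : 0 ≤ K) (H : Nice κ M V) {lam : ι → ℝ} {e : Matrix ι ι ℝ}
    (he : Eig (CM V) e lam) {z : ℝ} (hz : 0 < z) (i : ι) :
    SI lam (Tu e (TM V)) i z ≤ K * lam i * z ^ 2 := by
  refine (third_gen H he hz (Q := K * z ^ 2) (by positivity)
    (fun M' W HW CL B hB => hK.quad_scale HW hz CL hB) i).trans (le_of_eq ?_)
  ring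

end Pool.Agent.Lib.MP_8d00da_gt.h42k
end

section

/-!
# Theorem R (paper 336): definitions
-/

namespace Pool.Agent.Lib.MP_8d00da_gt.h42k

open MeasureTheory Set Filter
open scoped Topology NNReal ENNReal ContDiff

variable {ι : Type*} [Fintype ι] [DecidableEq ι]

/-- `⟨A ∇f, ∇f⟩`. -/
noncomputable def gM (A : Matrix ι ι ℝ) (f : (ι → ℝ) → ℝ) (x : ι → ℝ) : ℝ :=
  ∑ i, ∑ j, A i j * (pd i f x * pd j f x)

/-- `tr (A (D²f)²)`. -/
noncomputable def hM (A : Matrix ι ι ℝ) (f : (ι → ℝ) → ℝ) (x : ι → ℝ) : ℝ :=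
  ∑ i, ∑ j, A i j * ∑ k, pd k (pd i f) x * pd k (pd j f) x

/-- `∑ w_i f_i²`. -/
noncomputable def gw (w : ι → ℝ) (f : (ι → ℝ) → ℝ) (x : ι → ℝ) : ℝ := ∑ i, w i * pd i f x ^ 2

/-- `∑ w_i w_j f_ij²`. -/
noncomputable def hw (w : ι → ℝ) (f : (ι → ℝ) → ℝ) (x : ι → ℝ) : ℝ :=
  ∑ i, ∑ j, w i * w j * pd i (pd j f) x ^ 2

/-- The generator in the metric `w`: `∑ w_i (V_i φ_i - φ_ii)`. -/
noncomputable def LW (V : (ι → ℝ) → ℝ) (w : ι → ℝ) (φ : (ι → ℝ) → ℝ) (x : ι → ℝ) : ℝ :=
  ∑ i, w i * (pd i V x * pd i φ x - pd i (pd i φ) x)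

/-- Contractions of the Euclidean space. -/
def Ctr (B : Matrix ι ι ℝ) : Prop := ∀ u : ι → ℝ, sq (B.mulVec u) ≤ sq u

/-- The pairing `tr (Bᵀ N)`. -/
def mp (B N : Matrix ι ι ℝ) : ℝ := ∑ i, ∑ j, B i j * N i j

/-- The matrix `N_kl(s,y) = Cov_{s,y}(F_k, x_l)`. -/
noncomputable def NF (V : (ι → ℝ) → ℝ) (F : ι → (ι → ℝ) → ℝ) (s : ℝ) (y : ι → ℝ) :
    Matrix ι ι ℝ := Matrix.of fun k l => CP V s (F k) (fun x => x l) y

/-- The Jacobian matrix `(∂_l F_k)_kl`. -/
noncomputable def DF (F : ι → (ι → ℝ) → ℝ) (x : ι → ℝ) : Matrix ι ι ℝ :=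
  Matrix.of fun k l => pd l (F k) x

/-- The weight `s|x|² / (1 + s|x|²)`. -/
noncomputable def eta (s : ℝ) (x : ι → ℝ) : ℝ := s * sq x / (1 + s * sq x)

/-- The bound `min(1/τ, C (s + |y|))` for the growth of the covariance matrix. -/
noncomputable def dl (C τ s : ℝ) (y : ι → ℝ) : ℝ := min (1 / τ) (C * (s + √(sq y)))

/-- `W(τ,C)`: the inequality `Var f ≤ C E⟨(1+A)∇f,∇f⟩` for all potentials with `D²V ≥ τ`. -/
def WT (ι : Type) [Fintype ι] [DecidableEq ι] (τ C : ℝ) : Prop :=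
  ∀ (M : ℝ) (V : (ι → ℝ) → ℝ), Nice τ M V → ∀ f : (ι → ℝ) → ℝ, T1 f →
    var V f ≤ C * ex V (fun x => gs f x + gM (CM V) f x)

/-- The best constant `K_τ`. -/
noncomputable def KT (ι : Type) [Fintype ι] [DecidableEq ι] (τ : ℝ) : ℝ :=
  sInf {C : ℝ | 0 ≤ C ∧ WT ι τ C}

/-- Log-sum-exp. -/
noncomputable def lse {α : Type*} [Fintype α] (β : ℝ) (v : α → ℝ) : ℝ :=
  β⁻¹ * Real.log (∑ a, Real.exp (β * v a))

/-- Softmax weights. -/
noncomputable def smx {α : Type*} [Fintype α] (β : ℝ) (v : α → ℝ) (a : α) : ℝ :=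
  Real.exp (β * v a) / ∑ b, Real.exp (β * v b)

end Pool.Agent.Lib.MP_8d00da_gt.h42k
end
end

section

/-!
# Contractions and the pairing of matrices (paper 336, R.3)
-/

namespace Pool.Agent.Lib.MP_8d00da_gt.h42k

open MeasureTheory Set Filter
open scoped Topology NNReal ENNReal ContDiff

set_option linter.unusedSectionVars false
set_option linter.unusedVariables false

variable {ι : Type*} [Fintype ι] [DecidableEq ι]

variable {A B N : Matrix ι ι ℝ}

theorem ctr_one : Ctr (1 : Matrix ι ι ℝ) := by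
  intro u
  rw [Matrix.one_mulVec]

private theorem RA1_dt_tr (B : Matrix ι ι ℝ) (u v : ι → ℝ) :
    dt (B.transpose.mulVec u) v = dt u (B.mulVec v) := by
  simp only [dt, Matrix.mulVec, dotProduct, Matrix.transpose_apply, Finset.sum_mul,
    Finset.mul_sum]
  rw [Finset.sum_comm]
  exact Finset.sum_congr rfl fun i _ => Finset.sum_congr rfl fun j _ => by ring

private theorem RA1_dt_self (u : ι → ℝ) : dt u u = sq u := by
  simp only [dt, sq]
  exact Finset.sum_congr rfl fun a _ => by ring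

/-- `|Bᵀu|² = ⟨B Bᵀu, u⟩ ≤ |B Bᵀ u| |u| ≤ |Bᵀu| |u|`. -/
theorem Ctr.tr (h : Ctr B) : Ctr B.transpose := by
  intro u
  set w := B.transpose.mulVec u with hw
  have h1 : sq w = dt u (B.mulVec w) := by
    rw [← RA1_dt_tr, ← hw, RA1_dt_self]
  have h2 : sq w ^ 2 ≤ sq u * sq w := by
    calc sq w ^ 2 = dt u (B.mulVec w) ^ 2 := by rw [← h1]
      _ ≤ sq u * sq (B.mulVec w) := dt_sq_le _ _
      _ ≤ sq u * sq w := mul_le_mul_of_nonneg_left (h w) (sq_nn u)
  rcases (sq_nn w).eq_or_lt with h0 | h0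
  · rw [← h0]
    exact sq_nn u
  · have h3 : sq w * sq w ≤ sq u * sq w := by
      rw [← pow_two]
      exact h2
    exact le_of_mul_le_mul_right h3 h0

theorem Ctr.mul (hA : Ctr A) (hB : Ctr B) : Ctr (A * B) := by
  intro u
  rw [← Matrix.mulVec_mulVec]
  exact (hA _).trans (hB u)

/-- If `A` is symmetric and `0 ≤ ⟨Au,u⟩ ≤ a|u|²`, then `|Au| ≤ a|u|` (eigenbasis `exists_EB`), so
`a⁻¹ B A` is a contraction. -/
theorem Ctr.mul_sym (hB : Ctr B) (hA : ∀ i j, A i j = A j i) {a : ℝ} (ha : 0 < a)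
    (h0 : ∀ u, 0 ≤ dt u (A.mulVec u)) (h1 : ∀ u, dt u (A.mulVec u) ≤ a * sq u) :
    Ctr (a⁻¹ • (B * A)) := by
  obtain ⟨e, lam, he⟩ := exists_EB hA
  have hsq : ∀ i, sq (e i) = 1 := by
    intro i
    have := he.orth i i
    rw [RA1_dt_self] at this
    simpa using this
  have hdt : ∀ i, dt (e i) (A.mulVec (e i)) = lam i := by
    intro i
    rw [he.eig i, s6_dt_smul, RA1_dt_self, hsq, mul_one]
  have hl0 : ∀ i, 0 ≤ lam i := fun i => by
    rw [← hdt i]
    exact h0 _
  have hl1 : ∀ i, lam i ≤ a := fun i => by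
    rw [← hdt i]
    have := h1 (e i)
    rwa [hsq, mul_one] at this
  have hAt : A.transpose = A := by
    ext i j
    rw [Matrix.transpose_apply]
    exact hA j i
  have hAe : ∀ (u : ι → ℝ) (k : ι), dt (e k) (A.mulVec u) = lam k * dt (e k) u := by
    intro u k
    rw [← RA1_dt_tr, hAt, he.eig k, dt_comm, s6_dt_smul, dt_comm]
  have hkey : ∀ u : ι → ℝ, sq (A.mulVec u) ≤ a ^ 2 * sq u := by
    intro u
    rw [← RA1_dt_self, ← RA1_dt_self, he.parseval (A.mulVec u) (A.mulVec u), he.parseval u u,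
      Finset.mul_sum]
    refine Finset.sum_le_sum fun k _ => ?_
    rw [hAe]
    have h2 : lam k ^ 2 ≤ a ^ 2 := pow_le_pow_left₀ (hl0 k) (hl1 k) 2
    nlinarith [mul_le_mul_of_nonneg_right h2 (sq_nonneg (dt (e k) u))]
  intro u
  have h3 : (a⁻¹ • (B * A)).mulVec u = fun i => a⁻¹ * (B.mulVec (A.mulVec u)) i := by
    rw [Matrix.smul_mulVec, ← Matrix.mulVec_mulVec]
    rfl
  rw [h3, sq_smul]
  have h4 : sq (B.mulVec (A.mulVec u)) ≤ a ^ 2 * sq u := (hB _).trans (hkey u)
  calc a⁻¹ ^ 2 * sq (B.mulVec (A.mulVec u)) ≤ a⁻¹ ^ 2 * (a ^ 2 * sq u) :=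
        mul_le_mul_of_nonneg_left h4 (by positivity)
    _ = sq u := by
        field_simp

theorem mp_smul (c : ℝ) (B N : Matrix ι ι ℝ) : mp (c • B) N = c * mp B N := by
  simp only [mp, Matrix.smul_apply, smul_eq_mul, Finset.mul_sum, mul_assoc]

theorem mp_one (N : Matrix ι ι ℝ) : mp 1 N = ∑ i, N i i := by
  simp only [mp, Matrix.one_apply, ite_mul, one_mul, zero_mul, Finset.sum_ite_eq,
    Finset.mem_univ, if_true]

/-- `mp B (N A) = mp (B Aᵀ) N`. -/
theorem mp_mul_right (B N A : Matrix ι ι ℝ) : mp B (N * A) = mp (B * A.transpose) N := by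
  simp only [mp, Matrix.mul_apply, Matrix.transpose_apply, Finset.sum_mul, Finset.mul_sum]
  refine Finset.sum_congr rfl fun i _ => ?_
  rw [Finset.sum_comm]
  exact Finset.sum_congr rfl fun j _ => Finset.sum_congr rfl fun k _ => by ring

/-- `∑ B_ij² ≤ n` (the columns `B e_j` have norm at most `1`) and Cauchy-Schwarz. -/
theorem Ctr.mp_le (hB : Ctr B) (N : Matrix ι ι ℝ) :
    mp B N ≤ √(Fintype.card ι) * √(∑ i, ∑ j, N i j ^ 2) := by
  have h1 : ∑ i, ∑ j, B i j ^ 2 ≤ Fintype.card ι := by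
    rw [Finset.sum_comm]
    have h2 : ∀ j : ι, ∑ i, B i j ^ 2 ≤ 1 := by
      intro j
      have h3 := hB (Pi.single j 1)
      rw [sq_single, one_pow] at h3
      have h4 : B.mulVec (Pi.single j 1) = fun i => B i j := by
        ext i
        simp [Matrix.mulVec_single]
      rw [h4] at h3
      exact h3
    calc ∑ j, ∑ i, B i j ^ 2 ≤ ∑ _j : ι, (1 : ℝ) := Finset.sum_le_sum fun j _ => h2 j
      _ = Fintype.card ι := by simp
  have h5 : mp B N = ∑ p : ι × ι, B p.1 p.2 * N p.1 p.2 := by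
    rw [mp, Fintype.sum_prod_type]
  have h6 : ∑ p : ι × ι, B p.1 p.2 * N p.1 p.2 ≤
      √(∑ p : ι × ι, B p.1 p.2 ^ 2) * √(∑ p : ι × ι, N p.1 p.2 ^ 2) :=
    Real.sum_mul_le_sqrt_mul_sqrt _ _ _
  rw [h5]
  refine h6.trans ?_
  rw [Fintype.sum_prod_type, Fintype.sum_prod_type]
  exact mul_le_mul_of_nonneg_right (Real.sqrt_le_sqrt h1) (Real.sqrt_nonneg _)

/-- A matrix with `∑ B_ij² ≤ 1` is a contraction. -/
theorem ctr_of_hs (h : ∑ i, ∑ j, B i j ^ 2 ≤ 1) : Ctr B := by
  intro u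
  have h1 : ∀ i, (B.mulVec u i) ^ 2 ≤ (∑ j, B i j ^ 2) * sq u := by
    intro i
    exact dt_sq_le (fun j => B i j) u
  calc sq (B.mulVec u) = ∑ i, (B.mulVec u i) ^ 2 := rfl
    _ ≤ ∑ i, (∑ j, B i j ^ 2) * sq u := Finset.sum_le_sum fun i _ => h1 i
    _ = (∑ i, ∑ j, B i j ^ 2) * sq u := by rw [Finset.sum_mul]
    _ ≤ 1 * sq u := mul_le_mul_of_nonneg_right h (sq_nn u)
    _ = sq u := one_mul _

end Pool.Agent.Lib.MP_8d00da_gt.h42k
end

section

/-!
# The matrix of the covariances with the coordinates (paper 336, R.4): generator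
-/

namespace Pool.Agent.Lib.MP_8d00da_gt.h42k

open MeasureTheory Set Filter
open scoped Topology NNReal ENNReal ContDiff

set_option linter.unusedSectionVars false
set_option linter.unusedVariables false

variable {ι : Type*} [Fintype ι] [DecidableEq ι]

variable {κ M : ℝ} {V : (ι → ℝ) → ℝ} {F : ι → (ι → ℝ) → ℝ}

private theorem RC1a_al1 (V : (ι → ℝ) → ℝ) (hF : ∀ k, T0 (F k)) (B : Matrix ι ι ℝ) (i j : ι) :
    AL V (fun s y => B i j * CP V s (F i) (fun x => x j) y) :=
  (AL.cp V (hF i) (T0.coord j)).cmul (B i j)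

theorem NF_al (V : (ι → ℝ) → ℝ) (hF : ∀ k, T0 (F k)) (B : Matrix ι ι ℝ) :
    AL V (fun s y => mp B (NF V F s y)) :=
  AL.sum Finset.univ fun i _ => AL.sum Finset.univ fun j _ => RC1a_al1 V hF B i j

private theorem RC1a_Gn_const (V : (ι → ℝ) → ℝ) (c t : ℝ) (y : ι → ℝ) :
    Gn V t (fun _ _ => c) y = 0 := by
  have h1 : ∀ i : ι, pd i (fun _ : ι → ℝ => c) = fun _ => 0 :=
    fun i => funext fun x => pd_const c i x
  have h2 : ∀ i : ι, pd i (fun _ : ι → ℝ => (0 : ℝ)) = fun _ => 0 :=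
    fun i => funext fun x => pd_const 0 i x
  simp only [Gn, h1, h2, deriv_const, mul_zero, Finset.sum_const_zero, add_zero]

private theorem RC1a_Gn_add (H : Nice κ M V) {Φ Ψ : ℝ → (ι → ℝ) → ℝ} (h1 : AL V Φ) (h2 : AL V Ψ)
    {t : ℝ} (ht : -κ < t) (y : ι → ℝ) :
    Gn V t (fun s y => Φ s y + Ψ s y) y = Gn V t Φ y + Gn V t Ψ y := by
  have z0 : AL V (fun _ _ => (0 : ℝ)) := AL.const 0
  have e2 := Gn_sub (V := V) (Φ := fun _ _ => (0 : ℝ)) (Ψ := Ψ) (t := t) (y := y)
    (fun y => z0.smooth H ht y) (fun y => h2.smooth H ht y)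
  rw [RC1a_Gn_const] at e2
  have e3 := Gn_sub (V := V) (Φ := Φ) (Ψ := fun s y => 0 - Ψ s y) (t := t) (y := y)
    (fun y => h1.smooth H ht y) (fun y => (z0.sub h2).smooth H ht y)
  rw [e2] at e3
  have e4 : (fun s y => Φ s y - (0 - Ψ s y)) = fun s y => Φ s y + Ψ s y := by
    funext s y
    ring
  rw [e4] at e3
  rw [e3]
  ring

private theorem RC1a_Gn_sum (H : Nice κ M V) {α : Type*} (S : Finset α)
    {F : α → ℝ → (ι → ℝ) → ℝ} (hF : ∀ a, AL V (F a)) {t : ℝ} (ht : -κ < t) (y : ι → ℝ) :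
    Gn V t (fun s y => ∑ a ∈ S, F a s y) y = ∑ a ∈ S, Gn V t (F a) y := by
  classical
  induction S using Finset.induction_on with
  | empty =>
    simp only [Finset.sum_empty]
    exact RC1a_Gn_const V 0 t y
  | insert a S ha ih =>
    have e1 : (fun s y => ∑ b ∈ insert a S, F b s y) =
        fun s y => F a s y + ∑ b ∈ S, F b s y := by
      funext s y
      exact Finset.sum_insert ha
    rw [e1, RC1a_Gn_add H (hF a) (AL.sum S fun b _ => hF b) ht y, ih, Finset.sum_insert ha]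

private theorem RC1a_Gn_cmul (H : Nice κ M V) {Ψ : ℝ → (ι → ℝ) → ℝ} (h2 : AL V Ψ) (c : ℝ)
    {t : ℝ} (ht : -κ < t) (y : ι → ℝ) :
    Gn V t (fun s y => c * Ψ s y) y = c * Gn V t Ψ y := by
  have z0 : AL V (fun _ _ => c) := AL.const c
  have e1 := Gn_mul (V := V) (Φ := fun _ _ => c) (Ψ := Ψ) (t := t) (y := y)
    (fun y => z0.smooth H ht y) (fun y => h2.smooth H ht y)
  have h1 : ∀ i : ι, pd i (fun _ : ι → ℝ => c) y = 0 := fun i => pd_const c i y
  rw [e1, RC1a_Gn_const]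
  simp only [h1, zero_mul, mul_zero, Finset.sum_const_zero, add_zero]

/-- `G N = - N A` (`Gn_CP`), `A = CM (pt V t y)` symmetric. -/
theorem NF_Gn (H : Nice κ M V) (hF : ∀ k, T0 (F k)) (B : Matrix ι ι ℝ) {t : ℝ} (ht : -κ < t)
    (y : ι → ℝ) :
    Gn V t (fun s y => mp B (NF V F s y)) y = - mp (B * CM (pt V t y)) (NF V F t y) := by
  have h0 : Gn V t (fun s y => mp B (NF V F s y)) y =
      Gn V t (fun s y => ∑ i, ∑ j, B i j * CP V s (F i) (fun x => x j) y) y := rfl
  rw [h0, RC1a_Gn_sum H Finset.univ (F := fun i s y => ∑ j, B i j * CP V s (F i) (fun x => x j) y)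
    (fun i => AL.sum Finset.univ fun j _ => RC1a_al1 V hF B i j) ht y]
  unfold mp
  rw [← Finset.sum_neg_distrib]
  refine Finset.sum_congr rfl fun i _ => ?_
  rw [RC1a_Gn_sum H Finset.univ (F := fun j s y => B i j * CP V s (F i) (fun x => x j) y)
    (fun j => RC1a_al1 V hF B i j) ht y]
  have h1 : ∀ j, Gn V t (fun s y => B i j * CP V s (F i) (fun x => x j) y) y =
      ∑ k, -(B i j * CM (pt V t y) j k * CP V t (F i) (fun x => x k) y) := by
    intro j
    rw [RC1a_Gn_cmul H (AL.cp V (hF i) (T0.coord j)) (B i j) ht y,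
      Gn_CP H (hF i) (T0.coord j) ht y, ← Finset.sum_neg_distrib, Finset.mul_sum]
    refine Finset.sum_congr rfl fun k _ => ?_
    have h2 : CP V t (fun x => x j) (fun x => x k) y = CM (pt V t y) j k := rfl
    rw [h2]
    ring
  simp only [h1]
  rw [Finset.sum_comm, ← Finset.sum_neg_distrib]
  refine Finset.sum_congr rfl fun k _ => ?_
  have h3 : NF V F t y i k = CP V t (F i) (fun x => x k) y := rfl
  rw [h3, Matrix.mul_apply, Finset.sum_mul, ← Finset.sum_neg_distrib]

/-- `(κ+t) B A` is a contraction (`Ctr.mul_sym`, `s6_CLe_kappa`, `CM_mulVec`). -/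
theorem NF_ctr (H : Nice κ M V) {t : ℝ} (ht : -κ < t) (y : ι → ℝ) {B : Matrix ι ι ℝ}
    (hB : Ctr B) : Ctr ((κ + t) • (B * CM (pt V t y))) := by
  have hκ : 0 < κ + t := by linarith
  have h1 := Ctr.mul_sym hB (A := CM (pt V t y)) (CM_symm (pt V t y)) (a := 1 / (κ + t))
    (by positivity) (fun u => by
      rw [CM_mulVec (H.ptn ht y)]
      exact var_nonneg (H.ptn ht y) (T0.dtf u)) (fun u => by
      rw [CM_mulVec (H.ptn ht y)]
      exact s6_CLe_kappa (H.ptn ht y) u)
  rwa [one_div, inv_inv] at h1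

end Pool.Agent.Lib.MP_8d00da_gt.h42k
end

section

section

/-!
# Approximation of log-concave densities by nice potentials
-/

namespace Pool.Agent.Lib.MP_8d00da_gt.h42k

open MeasureTheory Set Filter
open Pool.Agent.Lib.MP_8d00da_gt.h25 (cv cv_cont ker_int_pos)
open Pool.Agent.Lib.MP_8d00da_gt.h42 (LogConc)
open Pool.Agent.Lib.MP_8d00da_gt.h42s (Vn BL)
open Pool.Agent.Lib.MP_8d00da_gt.h42u (cv_major cv_lim)
open Pool.Agent.Lib.MP_8d00da_gt.h97r (QJ decay exp_norm_int QJ_limit)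
open scoped Topology NNReal ENNReal ContDiff

set_option linter.unusedSectionVars false
set_option linter.unusedVariables false

private lemma L11r_mid {n : ℕ} {h : Vn n → ℝ} (h0 : ∀ x, 0 ≤ h x) (hlc : LogConc h) (x y : Vn n) :
    h x * h y ≤ h ((1 / 2 : ℝ) • (x + y)) ^ 2 := by
  have h2 := hlc (1 / 2) (by norm_num) (by norm_num) x y
  have e : (1 - 1 / 2 : ℝ) • x + (1 / 2 : ℝ) • y = (1 / 2 : ℝ) • (x + y) := by
    rw [smul_add]; norm_num
  rw [e, show (1 - 1 / 2 : ℝ) = 1 / 2 by norm_num, ← Real.mul_rpow (h0 x) (h0 y),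
    ← Real.sqrt_eq_rpow] at h2
  have h3 := pow_le_pow_left₀ (Real.sqrt_nonneg _) h2 2
  rwa [Real.sq_sqrt (mul_nonneg (h0 x) (h0 y))] at h3

/-- Every log-concave density is an a.e. limit of nice weights with a common exponential bound. -/
theorem reg' {n : ℕ} {h : (Fin n → ℝ) → ℝ} (h0 : ∀ x, 0 ≤ h x) (hm : Measurable h)
    (hlc : ∀ (x y : Fin n → ℝ) (a b : ℝ), 0 ≤ a → 0 ≤ b → a + b = 1 →
      h x ^ a * h y ^ b ≤ h (a • x + b • y))
    (hi : Integrable h) (hpos : 0 < ∫ x, h x) :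
    ∃ (V : ℕ → (Fin n → ℝ) → ℝ) (κ M : ℕ → ℝ) (C a : ℝ), 0 < C ∧ 0 < a ∧
      (∀ k, Nice (κ k) (M k) (V k)) ∧
      (∀ k x, Real.exp (-(V k x)) ≤ C * Real.exp (-(a * √(sq x)))) ∧
      ∀ᵐ x, Tendsto (fun k => Real.exp (-(V k x))) atTop (𝓝 (h x)) := by
  set g : Vn n → ℝ := fun x => h (eN n x) with hg
  have g0 : ∀ x, 0 ≤ g x := fun x => h0 _
  have gm : Measurable g := hm.comp (eN n).continuous.measurable
  have glc : LogConc g := by
    intro a ha0 ha1 x y
    have h1 := hlc (eN n x) (eN n y) (1 - a) a (by linarith) ha0.le (by ring)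
    simp only [hg]
    rwa [map_add, map_smul, map_smul]
  have gi : Integrable g := (integrable_eN h).2 hi
  have gpos : 0 < ∫ x, g x := by
    rw [show ∫ x, g x = ∫ y, h y from integral_eN h]
    exact hpos
  obtain ⟨B, a, hB, ha, hd⟩ := decay g0 gm glc gi gpos
  have hb : ∀ x, g x ≤ B := fun x => by
    refine (hd x).trans ?_
    have : Real.exp (-(a * ‖x‖)) ≤ 1 := by
      rw [Real.exp_le_one_iff, neg_nonpos]
      positivity
    nlinarith
  have H : h25.Wt g B :=
    { meas := gm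
      nonneg := g0
      bdd := hb
      mid := L11r_mid g0 glc
      ne := by
        intro he
        rw [integral_congr_ae he] at gpos
        simp at gpos }
  obtain ⟨C', hC', hmaj⟩ := cv_major g0 gm hB ha hd
  have hσ : ∀ k : ℕ, (0 : ℝ) < 1 / ((k : ℝ) + 1) := fun k => by positivity
  set c : ℕ → ℝ := fun k : ℕ => ∫ z : Vn n, h25.ker (1 / ((k : ℝ) + 1)) z with hc
  have hc0 : ∀ k, 0 < c k := fun k => ker_int_pos (hσ k)
  have hZ : ∀ (k : ℕ) x, 0 < cv (1 / ((k : ℝ) + 1)) g x := fun k x => H.Z_pos (hσ k) x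
  set W : ℕ → (Fin n → ℝ) → ℝ := fun k y =>
    -Real.log (cv (1 / ((k : ℝ) + 1)) g ((eN n).symm y)) +
      1 / ((k : ℝ) + 1) * ‖(eN n).symm y‖ ^ 2 + Real.log (c k) with hW
  have hWc : ∀ k, Continuous (W k) := by
    intro k
    have hZc : Continuous (cv (1 / ((k : ℝ) + 1)) g) := cv_cont (hσ k) H.meas H.abs_le
    refine ((Continuous.log (hZc.comp (eN n).symm.continuous) fun y => (hZ k _).ne').neg.add
      ?_).add continuous_const
    fun_prop
  have hsq : ∀ u, ‖(eN n).symm u‖ ^ 2 = sq u := fun u => by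
    rw [← sq_eN, ContinuousLinearEquiv.apply_symm_apply]
  have hpar : ∀ x u : Vn n, ‖x + u‖ ^ 2 + ‖x - u‖ ^ 2 - 2 * ‖x‖ ^ 2 = 2 * ‖u‖ ^ 2 := by
    intro x u
    rw [norm_add_sq_real, norm_sub_sq_real]
    ring
  have h1 : ∀ (k : ℕ) x u, 2 * (1 / ((k : ℝ) + 1)) * sq u ≤
      W k (x + u) + W k (x - u) - 2 * W k x := by
    intro k x u
    have h1 := cv_sd_lower H glc (hσ k) ((eN n).symm x) ((eN n).symm u)
    have h2 := hpar ((eN n).symm x) ((eN n).symm u)
    simp only [hW, map_add, map_sub]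
    rw [hsq u] at h2
    have h4 := congrArg (fun t => 1 / ((k : ℝ) + 1) * t) h2
    nlinarith
  have h2 : ∀ (k : ℕ) x u, W k (x + u) + W k (x - u) - 2 * W k x ≤
      (1 / (1 / ((k : ℝ) + 1)) + 2 * (1 / ((k : ℝ) + 1))) * sq u := by
    intro k x u
    have h1 := cv_sd_upper H (hσ k) ((eN n).symm x) ((eN n).symm u)
    have h2 := hpar ((eN n).symm x) ((eN n).symm u)
    simp only [hW, map_add, map_sub]
    rw [hsq u] at h1 h2
    have h4 := congrArg (fun t => 1 / ((k : ℝ) + 1) * t) h2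
    have h5 : sq u / (1 / ((k : ℝ) + 1)) = 1 / (1 / ((k : ℝ) + 1)) * sq u := by ring
    rw [h5] at h1
    nlinarith
  choose V hN hV using fun k : ℕ => exists_nice (by
    have := hσ k
    positivity : (0 : ℝ) < 2 * (1 / ((k : ℝ) + 1))) (hWc k) (h1 k) (h2 k) (hσ k)
  have hexpW : ∀ k y, Real.exp (-W k y) = cv (1 / ((k : ℝ) + 1)) g ((eN n).symm y) / c k *
      Real.exp (-(1 / ((k : ℝ) + 1) * ‖(eN n).symm y‖ ^ 2)) := by
    intro k y
    simp only [hW]
    rw [neg_add, neg_add, neg_neg, Real.exp_add, Real.exp_add, Real.exp_log (hZ k _),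
      Real.exp_neg (Real.log (c k)), Real.exp_log (hc0 k)]
    ring
  have hexp : ∀ (k : ℕ) (x : Vn n), Real.exp (-(1 / ((k : ℝ) + 1) * ‖x‖ ^ 2)) ≤ 1 := fun k x => by
    rw [Real.exp_le_one_iff, neg_nonpos]; positivity
  refine ⟨V, fun k => 2 * (1 / ((k : ℝ) + 1)),
    fun k => 1 / (1 / ((k : ℝ) + 1)) + 2 * (1 / ((k : ℝ) + 1)), C', a, hC', ha, hN,
    fun k y => ?_, ?_⟩
  · have e1 : Real.exp (-(V k y)) ≤ Real.exp (-W k y) := by
      rw [Real.exp_le_exp]
      linarith [(hV k y).1]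
    refine e1.trans ?_
    rw [hexpW]
    have h3 : 0 ≤ cv (1 / ((k : ℝ) + 1)) g ((eN n).symm y) / c k :=
      div_nonneg (hZ k _).le (hc0 k).le
    have e2 : √(sq y) = ‖(eN n).symm y‖ := by
      rw [← hsq, Real.sqrt_sq (norm_nonneg _)]
    rw [e2]
    calc cv (1 / ((k : ℝ) + 1)) g ((eN n).symm y) / c k *
        Real.exp (-(1 / ((k : ℝ) + 1) * ‖(eN n).symm y‖ ^ 2))
        ≤ cv (1 / ((k : ℝ) + 1)) g ((eN n).symm y) / c k * 1 :=
          mul_le_mul_of_nonneg_left (hexp k _) h3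
      _ ≤ _ := by rw [mul_one]; exact hmaj k _
  · have hae : ∀ᵐ x : Vn n, Tendsto (fun k => Real.exp (-(V k (eN n x)))) atTop (𝓝 (g x)) := by
      filter_upwards [cv_lim g0 gm glc hB ha hd] with x hx
      have l1 : Tendsto (fun k : ℕ => Real.exp (-(1 / ((k : ℝ) + 1) * ‖x‖ ^ 2))) atTop (𝓝 1) := by
        have h2 : Tendsto (fun k : ℕ => -(1 / ((k : ℝ) + 1) * ‖x‖ ^ 2)) atTop (𝓝 0) := by
          have := (tendsto_one_div_add_atTop_nhds_zero_nat (𝕜 := ℝ)).mul_const (‖x‖ ^ 2)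
          simpa using this.neg
        have := (Real.continuous_exp.tendsto 0).comp h2
        rwa [Real.exp_zero] at this
      have l2 : Tendsto (fun k : ℕ => Real.exp (-W k (eN n x))) atTop (𝓝 (g x)) := by
        have h3 := hx.mul l1
        rw [mul_one] at h3
        refine h3.congr fun k => ?_
        rw [hexpW, ContinuousLinearEquiv.symm_apply_apply]
      have l3 : Tendsto (fun k : ℕ => W k (eN n x) - V k (eN n x)) atTop (𝓝 0) := by
        have hz : Tendsto (fun k : ℕ => 1 / ((k : ℝ) + 1)) atTop (𝓝 0) :=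
          tendsto_one_div_add_atTop_nhds_zero_nat
        have e1 : ∀ k : ℕ, |1 / (1 / ((k : ℝ) + 1)) + 2 * (1 / ((k : ℝ) + 1))| / 2 *
            (Fintype.card (Fin n) * (1 / ((k : ℝ) + 1)) ^ 2) =
            (n : ℝ) / 2 * (1 / ((k : ℝ) + 1) + 2 * (1 / ((k : ℝ) + 1)) ^ 3) := by
          intro k
          have hk : (0 : ℝ) < (k : ℝ) + 1 := by positivity
          rw [abs_of_pos (by positivity), Fintype.card_fin]
          field_simp
        have l4 : Tendsto (fun k : ℕ => -((n : ℝ) / 2 * (1 / ((k : ℝ) + 1) +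
            2 * (1 / ((k : ℝ) + 1)) ^ 3))) atTop (𝓝 0) := by
          have := ((hz.add ((hz.pow 3).const_mul 2)).const_mul ((n : ℝ) / 2)).neg
          simpa using this
        refine tendsto_of_tendsto_of_tendsto_of_le_of_le l4 tendsto_const_nhds (fun k => ?_)
          (fun k => ?_)
        · have := (hV k (eN n x)).2
          rw [e1] at this
          simp only
          linarith
        · have := (hV k (eN n x)).1
          simp only
          linarith
      have l5 := l2.mul ((Real.continuous_exp.tendsto 0).comp l3)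
      rw [Real.exp_zero, mul_one] at l5
      refine l5.congr fun k => ?_
      simp only [Function.comp_apply]
      rw [← Real.exp_add]
      congr 1
      ring
    have hqm := (EuclideanSpace.volume_preserving_symm_measurableEquiv_toLp (Fin n)).symm
    have h5 := hqm.quasiMeasurePreserving.ae hae
    filter_upwards [h5] with y hy
    exact hy

end Pool.Agent.Lib.MP_8d00da_gt.h42k
end

section

/-!
# Log-sum-exp: bounds (paper 336, R.4)
-/

namespace Pool.Agent.Lib.MP_8d00da_gt.h42k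

open MeasureTheory Set Filter
open scoped Topology NNReal ENNReal ContDiff

set_option linter.unusedSectionVars false
set_option linter.unusedVariables false

variable {α : Type*} [Fintype α] {β : ℝ}

private lemma RB1_sum_pos [Nonempty α] (β : ℝ) (v : α → ℝ) : 0 < ∑ a, Real.exp (β * v a) :=
  Finset.sum_pos (fun a _ => Real.exp_pos _) Finset.univ_nonempty

theorem smx_nonneg (β : ℝ) (v : α → ℝ) (a : α) : 0 ≤ smx β v a := by
  unfold smx
  exact div_nonneg (Real.exp_pos _).le (Finset.sum_nonneg fun b _ => (Real.exp_pos _).le)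

theorem smx_sum [Nonempty α] (β : ℝ) (v : α → ℝ) : ∑ a, smx β v a = 1 := by
  unfold smx
  rw [← Finset.sum_div]
  exact div_self (RB1_sum_pos β v).ne'

theorem smx_le_one [Nonempty α] (β : ℝ) (v : α → ℝ) (a : α) : smx β v a ≤ 1 := by
  rw [← smx_sum β v]
  exact Finset.single_le_sum (fun b _ => smx_nonneg β v b) (Finset.mem_univ a)

theorem le_lse (hβ : 0 < β) (v : α → ℝ) (a : α) : v a ≤ lse β v := by
  have h1 : Real.exp (β * v a) ≤ ∑ b, Real.exp (β * v b) :=
    Finset.single_le_sum (f := fun b => Real.exp (β * v b)) (fun b _ => (Real.exp_pos _).le) (Finset.mem_univ a)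
  have h2 : β * v a ≤ Real.log (∑ b, Real.exp (β * v b)) := by
    rw [Real.le_log_iff_exp_le (lt_of_lt_of_le (Real.exp_pos _) h1)]
    exact h1
  unfold lse
  calc v a = β⁻¹ * (β * v a) := by field_simp
    _ ≤ β⁻¹ * Real.log (∑ b, Real.exp (β * v b)) := mul_le_mul_of_nonneg_left h2 (inv_pos.2 hβ).le

theorem lse_le [Nonempty α] (hβ : 0 < β) (v : α → ℝ) {c : ℝ} (h : ∀ a, v a ≤ c) :
    lse β v ≤ c + Real.log (Fintype.card α) / β := by
  have hc : (0 : ℝ) < Fintype.card α := by exact_mod_cast Fintype.card_pos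
  have h1 : ∑ a, Real.exp (β * v a) ≤ Fintype.card α * Real.exp (β * c) := by
    calc ∑ a, Real.exp (β * v a) ≤ ∑ _a : α, Real.exp (β * c) :=
          Finset.sum_le_sum fun a _ => Real.exp_le_exp.2 (mul_le_mul_of_nonneg_left (h a) hβ.le)
      _ = Fintype.card α * Real.exp (β * c) := by simp
  have h2 : Real.log (∑ a, Real.exp (β * v a)) ≤ Real.log (Fintype.card α) + β * c := by
    calc Real.log (∑ a, Real.exp (β * v a)) ≤ Real.log (Fintype.card α * Real.exp (β * c)) :=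
          Real.log_le_log (RB1_sum_pos β v) h1
      _ = Real.log (Fintype.card α) + β * c := by
          rw [Real.log_mul hc.ne' (Real.exp_pos _).ne', Real.log_exp]
  unfold lse
  calc β⁻¹ * Real.log (∑ a, Real.exp (β * v a)) ≤ β⁻¹ * (Real.log (Fintype.card α) + β * c) :=
        mul_le_mul_of_nonneg_left h2 (inv_pos.2 hβ).le
    _ = c + Real.log (Fintype.card α) / β := by field_simp; ring

theorem abs_lse_le [Nonempty α] (hβ : 0 < β) (v : α → ℝ) :
    |lse β v| ≤ (∑ a, |v a|) + Real.log (Fintype.card α) / β := by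
  have hcard : 0 ≤ Real.log (Fintype.card α) / β := by
    apply div_nonneg _ hβ.le
    apply Real.log_nonneg
    exact_mod_cast Fintype.card_pos (α := α)
  have hs : ∀ a, |v a| ≤ ∑ b, |v b| := fun a =>
    Finset.single_le_sum (f := fun b => |v b|) (fun b _ => abs_nonneg _) (Finset.mem_univ a)
  rw [abs_le]
  constructor
  · obtain ⟨a⟩ := (inferInstance : Nonempty α)
    have h1 := le_lse hβ v a
    have h2 := neg_abs_le (v a)
    have h3 := hs a
    linarith
  · exact lse_le hβ v fun a => (le_abs_self _).trans (hs a)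

/-- Cauchy-Schwarz with the weights `p_a ≥ 0`, `∑ p_a = 1`. -/
theorem smx_cs [Nonempty α] (β : ℝ) (v w : α → ℝ) :
    (∑ a, smx β v a * w a) ^ 2 ≤ ∑ a, smx β v a * w a ^ 2 := by
  have hs := smx_sum β v
  set m : ℝ := ∑ a, smx β v a * w a with hm
  have h0 : 0 ≤ ∑ a, smx β v a * (w a - m) ^ 2 :=
    Finset.sum_nonneg fun a _ => mul_nonneg (smx_nonneg β v a) (sq_nonneg _)
  have h1 : ∑ a, smx β v a * (w a - m) ^ 2 = (∑ a, smx β v a * w a ^ 2) - m ^ 2 := by
    have h2 : ∀ a, smx β v a * (w a - m) ^ 2 =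
        smx β v a * w a ^ 2 - 2 * m * (smx β v a * w a) + m ^ 2 * smx β v a := fun a => by ring
    simp_rw [h2]
    rw [Finset.sum_add_distrib, Finset.sum_sub_distrib, ← Finset.mul_sum, ← Finset.mul_sum, hs, ← hm]
    ring
  linarith

theorem lse_contDiff [Nonempty α] (β : ℝ) {n : WithTop ℕ∞} :
    ContDiff ℝ n (lse β : (α → ℝ) → ℝ) := by
  unfold lse
  apply contDiff_const.mul
  apply ContDiff.log
  · apply ContDiff.sum
    intro a _
    exact (contDiff_const.mul (contDiff_apply ℝ ℝ a)).exp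
  · intro v
    exact (RB1_sum_pos β v).ne'

/-- Chain rule. -/
theorem lse_hasDerivAt [Nonempty α] (hβ : 0 < β) {v : ℝ → α → ℝ} {v' : α → ℝ} {t : ℝ}
    (h : ∀ a, HasDerivAt (fun s => v s a) (v' a) t) :
    HasDerivAt (fun s => lse β (v s)) (∑ a, smx β (v t) a * v' a) t := by
  have h1 : ∀ a ∈ (Finset.univ : Finset α), HasDerivAt (fun s => Real.exp (β * v s a))
      (Real.exp (β * v t a) * (β * v' a)) t := fun a _ => ((h a).const_mul β).exp
  have h2 := HasDerivAt.fun_sum h1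
  have h3 := (h2.log (RB1_sum_pos β (v t)).ne').const_mul β⁻¹
  unfold lse
  refine h3.congr_deriv ?_
  unfold smx
  rw [Finset.sum_div, Finset.mul_sum]
  refine Finset.sum_congr rfl fun a _ => ?_
  field_simp

end Pool.Agent.Lib.MP_8d00da_gt.h42k
end

section

/-!
# Moments of nice potentials (paper 336, R.4, R.8): second and fourth
-/

namespace Pool.Agent.Lib.MP_8d00da_gt.h42k

open MeasureTheory Set Filter
open scoped Topology NNReal ENNReal ContDiff

set_option linter.unusedSectionVars false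
set_option linter.unusedVariables false

variable {ι : Type*} [Fintype ι] [DecidableEq ι]

variable {κ M : ℝ} {V : (ι → ℝ) → ℝ}

theorem cm2_le (H : Nice κ M V) :
    ex V (fun x => sq (ctr V x)) ≤ Fintype.card ι / κ := by
  have h1 := trace_CM H
  have h2 := trace_pow_CM_le H (s6_CLe_kappa H) 1
  rw [pow_one, pow_one, h1] at h2
  have h3 : (Fintype.card ι : ℝ) * (1 / κ) = Fintype.card ι / κ := by ring
  rw [h3] at h2
  exact h2

private theorem RC3a_t1c (V : (ι → ℝ) → ℝ) (i : ι) : T1 (fun x : ι → ℝ => x i - mn V i) :=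
  (T1.coord i).sub (T1.const _)

private theorem RC3a_sqc (V : (ι → ℝ) → ℝ) : (fun x : ι → ℝ => sq (ctr V x)) =
    fun x => ∑ i, ((x i - mn V i) * (x i - mn V i)) := by
  funext x
  unfold sq ctr
  exact Finset.sum_congr rfl fun i _ => by ring

private theorem RC3a_t1 (V : (ι → ℝ) → ℝ) : T1 (fun x : ι → ℝ => sq (ctr V x)) := by
  rw [RC3a_sqc]
  exact T1.sum _ fun i _ => (RC3a_t1c V i).mul (RC3a_t1c V i)

private theorem RC3a_pd (V : (ι → ℝ) → ℝ) (i : ι) (x : ι → ℝ) :
    pd i (fun x : ι → ℝ => sq (ctr V x)) x = 2 * (x i - mn V i) := by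
  have hd : ∀ i, Differentiable ℝ (fun x : ι → ℝ => x i - mn V i) :=
    fun i => (RC3a_t1c V i).c1.differentiable (by norm_num)
  have hpdc : ∀ j, pd i (fun x : ι → ℝ => x j - mn V j) x = if i = j then 1 else 0 := by
    intro j
    rw [pd_sub (f := fun x : ι → ℝ => x j) (g := fun _ => mn V j)
      ((T1.coord j).c1.differentiable (by norm_num)) (differentiable_const _), pd_coord, pd_const]
    ring
  rw [RC3a_sqc]
  rw [pd_sum Finset.univ (F := fun j x => ((x j - mn V j) * (x j - mn V j)))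
    (fun j _ => (hd j).fun_mul (hd j))]
  rw [Finset.sum_eq_single i]
  · rw [pd_mul (hd i) (hd i), hpdc, if_pos rfl]
    ring
  · intro j _ hj
    rw [pd_mul (hd j) (hd j), hpdc, if_neg (Ne.symm hj)]
    ring
  · intro hi
    exact absurd (Finset.mem_univ i) hi

/-- `E|x~|⁴ = Var |x~|² + (E|x~|²)² ≤ (4/κ) (n/κ) + n²/κ²` (Poincare inequality `PI V (1/κ)`,
look for it in the files `B1*`/`KA*`/`KD1` or take `BL` with `R = gs f / κ`). -/
theorem cm4_le (H : Nice κ M V) :
    ex V (fun x => sq (ctr V x) ^ 2) ≤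
      (4 * Fintype.card ι + (Fintype.card ι : ℝ) ^ 2) / κ ^ 2 := by
  have hκ := H.kpos
  have h1 := H.pi _ (RC3a_t1 V)
  have h2 : gs (fun x : ι → ℝ => sq (ctr V x)) = fun x => 4 * sq (ctr V x) := by
    funext x
    unfold gs
    rw [show sq (ctr V x) = ∑ i, (x i - mn V i) ^ 2 from rfl, Finset.mul_sum]
    exact Finset.sum_congr rfl fun i _ => by rw [RC3a_pd]; ring
  rw [h2, ex_cmul, var_eq'] at h1
  have h3 := cm2_le H
  have h4 : 0 ≤ ex V (fun x => sq (ctr V x)) := ex_nonneg V fun x => sq_nn _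
  set E := ex V (fun x => sq (ctr V x)) with hE
  have h5 : 1 / κ * (4 * E) ≤ 4 * Fintype.card ι / κ ^ 2 := by
    have : 1 / κ * (4 * E) ≤ 1 / κ * (4 * (Fintype.card ι / κ)) := by gcongr
    refine this.trans (le_of_eq ?_)
    field_simp
  have h6 : E ^ 2 ≤ (Fintype.card ι : ℝ) ^ 2 / κ ^ 2 := by
    have : E ^ 2 ≤ (Fintype.card ι / κ) ^ 2 := pow_le_pow_left₀ h4 h3 2
    rwa [div_pow] at this
  rw [add_div]
  linarith

end Pool.Agent.Lib.MP_8d00da_gt.h42k
end

section

/-!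
# The trace inequality: the endpoint (paper 336, R.4 (ii)): Taylor
-/

namespace Pool.Agent.Lib.MP_8d00da_gt.h42k

open MeasureTheory Set Filter
open scoped Topology NNReal ENNReal ContDiff

set_option linter.unusedSectionVars false
set_option linter.unusedVariables false

variable {ι : Type*} [Fintype ι] [DecidableEq ι]

variable {κ M : ℝ} {V : (ι → ℝ) → ℝ} {F : ι → (ι → ℝ) → ℝ}

private theorem RC4a_bdd {φ : (ι → ℝ) → ℝ} (hφ : Cc φ) : ∃ B : ℝ, 0 ≤ B ∧ ∀ x, |φ x| ≤ B := by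
  obtain ⟨B, hB⟩ := hφ.smooth.continuous.bounded_above_of_compact_support hφ.supp
  refine ⟨|B|, abs_nonneg _, fun x => ?_⟩
  have := hB x
  rw [Real.norm_eq_abs] at this
  exact this.trans (le_abs_self _)

private theorem RC4a_coord (u : ι → ℝ) (i : ι) : |u i| ≤ √(sq u) := by
  rw [← Real.sqrt_sq_eq_abs]
  exact Real.sqrt_le_sqrt (coord_sq_le u i)

private theorem RC4a_lip {ψ : (ι → ℝ) → ℝ} (hψ : Cc ψ) : ∃ B : ℝ, 0 ≤ B ∧ ∀ a u : ι → ℝ,
    |ψ (a + u) - ψ a| ≤ B * √(sq u) := by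
  have hb : ∀ i : ι, ∃ B : ℝ, 0 ≤ B ∧ ∀ x, |pd i ψ x| ≤ B := fun i => RC4a_bdd (hψ.pdc i)
  choose B hB0 hB using hb
  refine ⟨∑ i, B i, Finset.sum_nonneg fun i _ => hB0 i, fun a u => ?_⟩
  have hc2 : ContDiff ℝ 2 ψ := by exact_mod_cast contDiff_infty.1 hψ.smooth 2
  have h := norm_image_sub_le_of_norm_deriv_le_segment_01'
    (f := fun r : ℝ => ψ (a + r • u)) (f' := fun s => gd ψ (a + s • u) u)
    (C := (∑ i, B i) * √(sq u))
    (fun s _ => (hs_line hc2 a u s).2.hasDerivWithinAt) (by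
      intro s _
      rw [Real.norm_eq_abs]
      unfold gd
      refine (Finset.abs_sum_le_sum_abs _ _).trans ?_
      rw [Finset.sum_mul]
      refine Finset.sum_le_sum fun i _ => ?_
      rw [abs_mul, mul_comm]
      exact mul_le_mul (hB i _) (RC4a_coord u i) (abs_nonneg _) (hB0 i))
  simpa [Real.norm_eq_abs] using h

/-- Taylor: for `φ ∈ Cc` there is `C` with `|φ(x) - φ(a) - ∑ ∂_m φ(a) (x_m - a_m)| ≤ C |x-a|²` and
`|∂_m φ(x) - ∂_m φ(a)| ≤ C |x - a|`. -/
theorem taylor_cc {φ : (ι → ℝ) → ℝ} (hφ : Cc φ) : ∃ C : ℝ, 0 ≤ C ∧ ∀ a x : ι → ℝ,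
    |φ x - φ a - ∑ m, pd m φ a * (x m - a m)| ≤ C * sq (x - a) ∧
    ∀ m, |pd m φ x - pd m φ a| ≤ C * √(sq (x - a)) := by
  have hb : ∀ m : ι, ∃ B : ℝ, 0 ≤ B ∧ ∀ a u : ι → ℝ, |pd m φ (a + u) - pd m φ a| ≤ B * √(sq u) :=
    fun m => RC4a_lip (hφ.pdc m)
  choose B hB0 hB using hb
  refine ⟨∑ m, B m, Finset.sum_nonneg fun m _ => hB0 m, fun a x => ⟨?_, fun m => ?_⟩⟩
  · have hc2 : ContDiff ℝ 2 φ := by exact_mod_cast contDiff_infty.1 hφ.smooth 2
    obtain ⟨u, hu⟩ : ∃ u, u = x - a := ⟨_, rfl⟩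
    have hx : x = a + u := by rw [hu]; abel
    have hss : √(sq u) * √(sq u) = sq u := Real.mul_self_sqrt (sq_nn u)
    have h := norm_image_sub_le_of_norm_deriv_le_segment_01'
      (f := fun r : ℝ => φ (a + r • u) - r * gd φ a u)
      (f' := fun s => gd φ (a + s • u) u - gd φ a u)
      (C := (∑ m, B m) * sq u)
      (fun s _ => by
        have h1 := ((hs_line hc2 a u s).2).fun_sub ((hasDerivAt_id' s).mul_const (gd φ a u))
        rw [one_mul] at h1
        exact h1.hasDerivWithinAt) (by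
        intro s hs
        rw [Real.norm_eq_abs]
        unfold gd
        rw [← Finset.sum_sub_distrib, Finset.sum_mul]
        refine (Finset.abs_sum_le_sum_abs _ _).trans (Finset.sum_le_sum fun m _ => ?_)
        rw [← mul_sub, abs_mul]
        have h1 : |pd m φ (a + s • u) - pd m φ a| ≤ B m * √(sq u) := by
          refine (hB m a (s • u)).trans (mul_le_mul_of_nonneg_left ?_ (hB0 m))
          apply Real.sqrt_le_sqrt
          have h2 : sq (s • u) = s ^ 2 * sq u := by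
            unfold sq
            rw [Finset.mul_sum]
            exact Finset.sum_congr rfl fun i _ => by simp only [Pi.smul_apply, smul_eq_mul]; ring
          rw [h2]
          have h3 : s ^ 2 ≤ 1 := by nlinarith [hs.1, hs.2]
          nlinarith [sq_nn u]
        calc |u m| * |pd m φ (a + s • u) - pd m φ a| ≤ √(sq u) * (B m * √(sq u)) :=
              mul_le_mul (RC4a_coord u m) h1 (abs_nonneg _) (Real.sqrt_nonneg _)
          _ = B m * (√(sq u) * √(sq u)) := by ring
          _ = B m * sq u := by rw [hss])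
    have e : ∑ m, pd m φ a * (x m - a m) = gd φ a u := by
      unfold gd
      refine Finset.sum_congr rfl fun m _ => ?_
      rw [hu, Pi.sub_apply]
      ring
    rw [e, ← hu]
    simp only [one_smul, zero_smul, add_zero, one_mul, zero_mul, sub_zero, Real.norm_eq_abs] at h
    rw [hx]
    have e2 : φ (a + u) - φ a - gd φ a u = φ (a + u) - gd φ a u - φ a := by ring
    rw [e2]
    exact h
  · have h := hB m a (x - a)
    have e : a + (x - a) = x := by abel
    rw [e] at h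
    refine h.trans (mul_le_mul_of_nonneg_right ?_ (Real.sqrt_nonneg _))
    exact Finset.single_le_sum (f := B) (fun i _ => hB0 i) (Finset.mem_univ m)

end Pool.Agent.Lib.MP_8d00da_gt.h42k
end

section

/-!
# Finite nets of contractions (paper 336, R.3)
-/

namespace Pool.Agent.Lib.MP_8d00da_gt.h42k

open MeasureTheory Set Filter
open scoped Topology NNReal ENNReal ContDiff

set_option linter.unusedSectionVars false
set_option linter.unusedVariables false

variable {ι : Type*} [Fintype ι] [DecidableEq ι]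

/-- The set of contractions is compact (closed and bounded in the finite dimensional space of
matrices; use e.g. `B ↦ fun p : ι × ι => B p.1 p.2` or the product topology on `ι → ι → ℝ`), so for
every `ε > 0` there is a finite set `S` of contractions, `1 ∈ S`, such that every contraction `B`
has some `B' ∈ S` with `∑ (B_ij - B'_ij)² ≤ ε²`. Then
`mp B N ≤ mp B' N + ε |N|_HS` (Cauchy-Schwarz) and `|N|_HS = mp (N/|N|_HS) N` is at most the
supremum over the contractions of `mp · N` (`ctr_of_hs`). If `B₀` maximizes `mp · N` over the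
contractions (or nearly), then `mp B₀ N ≤ mp B₀' N + ε mp B₀ N`, i.e.
`mp B N ≤ mp B₀ N ≤ (1 - ε)⁻¹ mp B₀' N ≤ (1 + θ) mp B₀' N` with `ε = θ / (1 + θ)`.
(Alternative to a maximizer: take `B'` the element of `S` with the largest `mp B' N =: m`; then for
all contractions `B`: `mp B N ≤ m + ε |N|_HS`, in particular for `B = N/|N|_HS`:
`|N|_HS ≤ m + ε |N|_HS`, so `|N|_HS ≤ m/(1-ε)` and `mp B N ≤ m + ε m/(1-ε) = m/(1-ε)`.) -/
theorem ctr_net {θ : ℝ} (hθ : 0 < θ) : ∃ S : Finset (Matrix ι ι ℝ), 1 ∈ S ∧ (∀ B ∈ S, Ctr B) ∧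
    ∀ N B, Ctr B → ∃ B' ∈ S, mp B N ≤ (1 + θ) * mp B' N := by
  classical
  obtain ⟨c, hc⟩ : ∃ c : ℝ, c = 1 / ((Fintype.card ι : ℝ) + 1) := ⟨_, rfl⟩
  have hcard : (0 : ℝ) ≤ (Fintype.card ι : ℝ) := Nat.cast_nonneg _
  have hc0 : 0 < c := by rw [hc]; positivity
  obtain ⟨e, he⟩ : ∃ e : ℝ, e = θ / (1 + θ) * c := ⟨_, rfl⟩
  have he0 : 0 < e := by rw [he]; positivity
  -- compactness
  have hcont : ∀ u : ι → ℝ, Continuous fun B : ι → ι → ℝ => sq ((Matrix.of B).mulVec u) := by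
    intro u
    unfold sq Matrix.mulVec dotProduct
    simp only [Matrix.of_apply]
    fun_prop
  have hclosed : IsClosed {B : ι → ι → ℝ | Ctr (Matrix.of B)} := by
    have : {B : ι → ι → ℝ | Ctr (Matrix.of B)} =
        ⋂ u : ι → ℝ, {B : ι → ι → ℝ | sq ((Matrix.of B).mulVec u) ≤ sq u} := by
      ext B
      simp [Ctr]
    rw [this]
    exact isClosed_iInter fun u => isClosed_le (hcont u) continuous_const
  have hsub : {B : ι → ι → ℝ | Ctr (Matrix.of B)} ⊆ Metric.closedBall 0 1 := by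
    intro B hB
    rw [mem_closedBall_zero_iff, pi_norm_le_iff_of_nonneg zero_le_one]
    intro i
    rw [pi_norm_le_iff_of_nonneg zero_le_one]
    intro j
    have h1 := hB (Pi.single j 1)
    have h2 : sq (Pi.single j (1 : ℝ) : ι → ℝ) = 1 := by
      unfold sq
      rw [Finset.sum_eq_single j]
      · simp
      · intro b _ hb; simp [hb]
      · simp
    have h3 : (Matrix.of B).mulVec (Pi.single j 1) = fun i => B i j := by
      ext i
      simp
    rw [h2, h3] at h1
    unfold sq at h1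
    have h4 : B i j ^ 2 ≤ ∑ i, B i j ^ 2 :=
      Finset.single_le_sum (f := fun i => B i j ^ 2) (fun k _ => sq_nonneg _) (Finset.mem_univ i)
    have h5 : B i j ^ 2 ≤ 1 := h4.trans h1
    rw [Real.norm_eq_abs]
    exact (sq_le_one_iff_abs_le_one _).1 h5
  have hK : IsCompact {B : ι → ι → ℝ | Ctr (Matrix.of B)} :=
    (isCompact_closedBall 0 1).of_isClosed_subset hclosed hsub
  obtain ⟨t, htK, htfin, hcov⟩ := hK.finite_cover_balls he0
  refine ⟨insert 1 (htfin.toFinset.image Matrix.of), Finset.mem_insert_self _ _, ?_, ?_⟩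
  · intro B hB
    rcases Finset.mem_insert.1 hB with rfl | hB
    · exact ctr_one
    · obtain ⟨B', hB', rfl⟩ := Finset.mem_image.1 hB
      exact htK (htfin.mem_toFinset.1 hB')
  · intro N B hB
    obtain ⟨B', hB', hmax⟩ := Finset.exists_max_image (insert 1 (htfin.toFinset.image Matrix.of))
      (fun B' => mp B' N) ⟨1, Finset.mem_insert_self _ _⟩
    refine ⟨B', hB', ?_⟩
    obtain ⟨a, ha⟩ : ∃ a : ℝ, a = ∑ i, ∑ j, |N i j| := ⟨_, rfl⟩
    have key : ∀ A : Matrix ι ι ℝ, Ctr A → mp A N ≤ mp B' N + e * a := by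
      intro A hA
      obtain ⟨x, hx, hxA⟩ := Set.mem_iUnion₂.1 (hcov hA)
      have h2 : mp (Matrix.of x) N ≤ mp B' N :=
        hmax _ (Finset.mem_insert_of_mem (Finset.mem_image_of_mem _ (htfin.mem_toFinset.2 hx)))
      have h3 : mp A N ≤ mp (Matrix.of x) N + e * a := by
        unfold mp
        rw [ha, Finset.mul_sum, ← Finset.sum_add_distrib]
        refine Finset.sum_le_sum fun i _ => ?_
        rw [Finset.mul_sum, ← Finset.sum_add_distrib]
        refine Finset.sum_le_sum fun j _ => ?_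
        have h4 : dist (A i j) (x i j) < e := by
          have hxA' : @dist (ι → ι → ℝ) _ A x < e := hxA
          calc dist (A i j) (x i j) ≤ dist (A i) (x i) := dist_le_pi_dist _ _ j
            _ ≤ @dist (ι → ι → ℝ) _ A x := @dist_le_pi_dist _ _ _ _ A x i
            _ < e := hxA'
        rw [Real.dist_eq] at h4
        simp only [Matrix.of_apply]
        have h5 : (A i j - x i j) * N i j ≤ |A i j - x i j| * |N i j| := by
          rw [← abs_mul]; exact le_abs_self _
        have h6 : |A i j - x i j| * |N i j| ≤ e * |N i j| :=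
          mul_le_mul_of_nonneg_right h4.le (abs_nonneg _)
        nlinarith
      linarith
    have hs : Ctr (Matrix.of fun i j => if 0 ≤ N i j then c else -c) := by
      apply ctr_of_hs
      have : ∀ i j, (Matrix.of (fun i j => if 0 ≤ N i j then c else -c)) i j ^ 2 = c ^ 2 := by
        intro i j
        simp only [Matrix.of_apply]
        split_ifs <;> ring
      simp only [this, Finset.sum_const, Finset.card_univ, nsmul_eq_mul]
      rw [hc]
      rw [← mul_assoc, div_pow, one_pow, mul_one_div, div_le_one (by positivity)]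
      nlinarith
    have hms : mp (Matrix.of fun i j => if 0 ≤ N i j then c else -c) N = c * a := by
      unfold mp
      rw [ha, Finset.mul_sum]
      refine Finset.sum_congr rfl fun i _ => ?_
      rw [Finset.mul_sum]
      refine Finset.sum_congr rfl fun j _ => ?_
      simp only [Matrix.of_apply]
      split_ifs with h
      · rw [abs_of_nonneg h]
      · rw [abs_of_neg (not_le.1 h)]; ring
    have k1 := key _ hs
    have k2 := key B hB
    rw [hms] at k1
    have hθ1 : (1 + θ) ≠ 0 := by positivity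
    have h7 : e * a = θ / (1 + θ) * (c * a) := by rw [he]; ring
    rw [h7] at k1 k2
    have h8 : c * a ≤ (1 + θ) * mp B' N := by
      have h9 : c * a - θ / (1 + θ) * (c * a) = c * a / (1 + θ) := by
        field_simp
        ring
      have h10 : c * a / (1 + θ) ≤ mp B' N := by linarith
      rw [div_le_iff₀ (by positivity)] at h10
      linarith
    have h11 : θ / (1 + θ) * (c * a) ≤ θ / (1 + θ) * ((1 + θ) * mp B' N) :=
      mul_le_mul_of_nonneg_left h8 (by positivity)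
    have h12 : θ / (1 + θ) * ((1 + θ) * mp B' N) = θ * mp B' N := by
      field_simp
    linarith

end Pool.Agent.Lib.MP_8d00da_gt.h42k
end

section

/-!
# Log-sum-exp: partial derivatives (paper 336, R.4)
-/

namespace Pool.Agent.Lib.MP_8d00da_gt.h42k

open MeasureTheory Set Filter
open scoped Topology NNReal ENNReal ContDiff

set_option linter.unusedSectionVars false
set_option linter.unusedVariables false

variable {ι : Type*} [Fintype ι] [DecidableEq ι]

variable {α : Type*} [Fintype α] [Nonempty α] {β : ℝ}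

private theorem RB2_pd_of {f : (ι → ℝ) → ℝ} {f' : (ι → ℝ) →L[ℝ] ℝ} {x : ι → ℝ} {i : ι}
    (h : HasFDerivAt f f' x) : pd i f x = f' (Pi.single i 1) := by
  unfold pd
  rw [h.fderiv]

private theorem RB2_zpos (β : ℝ) (v : α → ℝ) : 0 < ∑ a, Real.exp (β * v a) :=
  Finset.sum_pos (fun a _ => Real.exp_pos _) Finset.univ_nonempty

private theorem RB2_exp (β : ℝ) {L : α → (ι → ℝ) → ℝ} (h : ∀ a, Differentiable ℝ (L a))
    (y : ι → ℝ) (a : α) :
    HasFDerivAt (fun y => Real.exp (β * L a y))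
      (Real.exp (β * L a y) • (β • fderiv ℝ (L a) y)) y :=
  (((h a) y).hasFDerivAt.const_mul β).exp

private theorem RB2_Z (β : ℝ) {L : α → (ι → ℝ) → ℝ} (h : ∀ a, Differentiable ℝ (L a))
    (y : ι → ℝ) :
    HasFDerivAt (fun y => ∑ a, Real.exp (β * L a y))
      (∑ a, Real.exp (β * L a y) • (β • fderiv ℝ (L a) y)) y :=
  HasFDerivAt.fun_sum fun a _ => RB2_exp β h y a

private theorem RB2_diff (β : ℝ) {L : α → (ι → ℝ) → ℝ} (h : ∀ a, Differentiable ℝ (L a)) (a : α) :
    Differentiable ℝ (fun y => smx β (fun a => L a y) a) := by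
  intro y
  have e : (fun y => smx β (fun a => L a y) a) =
      fun y => Real.exp (β * L a y) * (∑ b, Real.exp (β * L b y))⁻¹ := by
    funext y
    unfold smx
    rw [div_eq_mul_inv]
  rw [e]
  have h2 := (hasDerivAt_inv (RB2_zpos β fun a => L a y).ne').comp_hasFDerivAt y (RB2_Z β h y)
  exact (RB2_exp β h y a).differentiableAt.mul h2.differentiableAt

theorem lse_pd (hβ : 0 < β) {L : α → (ι → ℝ) → ℝ} (h : ∀ a, Differentiable ℝ (L a)) (i : ι)
    (y : ι → ℝ) :
    pd i (fun y => lse β fun a => L a y) y = ∑ a, smx β (fun a => L a y) a * pd i (L a) y := by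
  have hz := RB2_zpos β fun a => L a y
  have h1 : HasFDerivAt (fun y => lse β fun a => L a y) _ y :=
    ((RB2_Z β h y).log hz.ne').const_mul β⁻¹
  rw [RB2_pd_of h1]
  simp only [_root_.smul_apply, _root_.sum_apply, smul_eq_mul]
  rw [Finset.mul_sum, Finset.mul_sum]
  refine Finset.sum_congr rfl fun a _ => ?_
  unfold smx pd
  field_simp

/-- The derivative of the softmax weights: `∂_i p_a = β p_a (∂_i L_a - ∑_b p_b ∂_i L_b)`. -/
theorem smx_pd (β : ℝ) {L : α → (ι → ℝ) → ℝ} (h : ∀ a, Differentiable ℝ (L a)) (i : ι)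
    (y : ι → ℝ) (a : α) :
    pd i (fun y => smx β (fun a => L a y) a) y = β * smx β (fun a => L a y) a *
      (pd i (L a) y - ∑ b, smx β (fun a => L a y) b * pd i (L b) y) := by
  have hz := RB2_zpos β fun a => L a y
  have e : (fun y => smx β (fun a => L a y) a) =
      fun y => Real.exp (β * L a y) * (∑ b, Real.exp (β * L b y))⁻¹ := by
    funext y
    unfold smx
    rw [div_eq_mul_inv]
  have hinv : HasFDerivAt (fun y => (∑ b, Real.exp (β * L b y))⁻¹)
      (-((∑ b, Real.exp (β * L b y)) ^ 2)⁻¹ •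
        (∑ a, Real.exp (β * L a y) • (β • fderiv ℝ (L a) y))) y := by
    have h2 := (hasDerivAt_inv hz.ne').comp_hasFDerivAt y (RB2_Z β h y)
    exact h2
  have h1 : HasFDerivAt (fun y => Real.exp (β * L a y) * (∑ b, Real.exp (β * L b y))⁻¹) _ y :=
    (RB2_exp β h y a).mul hinv
  rw [e, RB2_pd_of h1]
  have e2 : ∑ b, smx β (fun a => L a y) b * pd i (L b) y =
      (∑ b, Real.exp (β * L b y))⁻¹ * ∑ b, Real.exp (β * L b y) * pd i (L b) y := by
    rw [Finset.mul_sum]
    refine Finset.sum_congr rfl fun b _ => ?_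
    unfold smx
    ring
  have e3 : (∑ b, Real.exp (β * L b y) • (β • fderiv ℝ (L b) y)) (Pi.single i 1) =
      β * ∑ b, Real.exp (β * L b y) * pd i (L b) y := by
    rw [_root_.sum_apply, Finset.mul_sum]
    refine Finset.sum_congr rfl fun b _ => ?_
    simp only [_root_.smul_apply, smul_eq_mul]
    unfold pd
    ring
  rw [e2]
  simp only [_root_.add_apply, _root_.smul_apply, smul_eq_mul]
  rw [e3]
  have e4 : fderiv ℝ (L a) y (Pi.single i 1) = pd i (L a) y := rfl
  rw [e4]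
  unfold smx
  field_simp
  ring

theorem lse_pd2 (hβ : 0 < β) {L : α → (ι → ℝ) → ℝ} (h : ∀ a, ContDiff ℝ 2 (L a)) (i j : ι)
    (y : ι → ℝ) :
    pd i (pd j (fun y => lse β fun a => L a y)) y =
      (∑ a, smx β (fun a => L a y) a * pd i (pd j (L a)) y) +
      β * ((∑ a, smx β (fun a => L a y) a * (pd i (L a) y * pd j (L a) y)) -
        (∑ a, smx β (fun a => L a y) a * pd i (L a) y) *
          ∑ a, smx β (fun a => L a y) a * pd j (L a) y) := by
  have hd : ∀ a, Differentiable ℝ (L a) := fun a => (h a).differentiable (by norm_num)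
  have hj : ∀ a, Differentiable ℝ (pd j (L a)) := fun a => by
    have h1 : ContDiff ℝ ((1 + 1 : ℕ) : WithTop ℕ∞) (L a) := by
      have e : (((1 + 1 : ℕ) : ℕ) : WithTop ℕ∞) = 2 := by norm_num
      rw [e]
      exact h a
    exact (contDiff_pd h1 j).differentiable (by norm_num)
  have e1 : pd j (fun y => lse β fun a => L a y) =
      fun y => ∑ a, smx β (fun a => L a y) a * pd j (L a) y := by
    funext y
    exact lse_pd hβ hd j y
  rw [e1]
  have h2 : ∀ a ∈ (Finset.univ : Finset α),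
      Differentiable ℝ (fun y => smx β (fun a => L a y) a * pd j (L a) y) := fun a _ =>
    (RB2_diff β hd a).mul (hj a)
  rw [pd_sum Finset.univ h2]
  have h3 : ∀ a, pd i (fun y => smx β (fun a => L a y) a * pd j (L a) y) y =
      β * smx β (fun a => L a y) a *
      (pd i (L a) y - ∑ b, smx β (fun a => L a y) b * pd i (L b) y) * pd j (L a) y +
      smx β (fun a => L a y) a * pd i (pd j (L a)) y := by
    intro a
    rw [pd_mul (RB2_diff β hd a) (hj a), smx_pd β hd]
  rw [Finset.sum_congr rfl fun a _ => h3 a, Finset.sum_add_distrib, add_comm]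
  congr 1
  set S := ∑ b, smx β (fun a => L a y) b * pd i (L b) y with hS
  rw [mul_sub, Finset.mul_sum, Finset.mul_sum, Finset.mul_sum, ← Finset.sum_sub_distrib]
  refine Finset.sum_congr rfl fun a _ => ?_
  ring

end Pool.Agent.Lib.MP_8d00da_gt.h42k
end

section

/-!
# Moments of nice potentials (paper 336, R.4, R.8): first and third
-/

namespace Pool.Agent.Lib.MP_8d00da_gt.h42k

open MeasureTheory Set Filter
open scoped Topology NNReal ENNReal ContDiff

set_option linter.unusedSectionVars false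
set_option linter.unusedVariables false

variable {ι : Type*} [Fintype ι] [DecidableEq ι]

variable {κ M : ℝ} {V : (ι → ℝ) → ℝ}

private theorem RC3b_le {a b : ℝ} (hb : 0 ≤ b) (h : a ^ 2 ≤ b ^ 2) : a ≤ b :=
  (abs_le_of_sq_le_sq' h hb).2

private theorem RC3b_t0c (V : (ι → ℝ) → ℝ) (i : ι) : T0 (fun x : ι → ℝ => ctr V x i) :=
  (T0.coord i).sub (T0.const (mn V i))

private theorem RC3b_t0s (V : (ι → ℝ) → ℝ) : T0 (fun x : ι → ℝ => sq (ctr V x)) :=
  T0.sum Finset.univ fun i _ => (RC3b_t0c V i).pow 2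

private theorem RC3b_abs (V : (ι → ℝ) → ℝ) (x : ι → ℝ) (i : ι) :
    |ctr V x i| ≤ √(sq (ctr V x)) := by
  rw [← Real.sqrt_sq_eq_abs]
  exact Real.sqrt_le_sqrt (coord_sq_le (ctr V x) i)

private theorem RC3b_nn : (0 : ℝ) ≤ (Fintype.card ι : ℝ) := Nat.cast_nonneg _

private theorem RC3b_exsq (H : Nice κ M V) :
    ex V sq = ex V (fun x => sq (ctr V x)) + sq (mn V) := by
  have h1 : ex V sq = ∑ i, ex V (fun x => x i ^ 2) :=
    ex_sum H Finset.univ (F := fun i x => x i ^ 2) fun i _ => (T0.coord i).pow 2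
  have h2 : ex V (fun x => sq (ctr V x)) = ∑ i, ex V (fun x => (x i - mn V i) ^ 2) :=
    ex_sum H Finset.univ (F := fun i x => (x i - mn V i) ^ 2)
      fun i _ => ((T0.coord i).sub (T0.const (mn V i))).pow 2
  have h3 : ∀ i, ex V (fun x => x i ^ 2) = ex V (fun x => (x i - mn V i) ^ 2) + mn V i ^ 2 := by
    intro i
    have e1 := var_eq H (T0.coord i)
    have e2 := var_eq' V (fun x => x i)
    have e3 : ex V (fun x => (x i - mn V i) ^ 2) = var V (fun x => x i) := e1.symm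
    have e4 : ex V (fun x => x i) = mn V i := rfl
    rw [e3, e2, e4]
    ring
  rw [h1, h2, Finset.sum_congr rfl fun i _ => h3 i, Finset.sum_add_distrib]
  rfl

private theorem RC3b_gs (x : ι → ℝ) : gs sq x = 4 * sq x := by
  unfold gs
  rw [Finset.sum_congr rfl fun i _ => by rw [pd_sq i x]]
  unfold sq
  rw [Finset.mul_sum]
  refine Finset.sum_congr rfl fun i _ => ?_
  ring

private theorem RC3b_varsq (H : Nice κ M V) :
    var V sq ≤ 4 / κ * (Fintype.card ι / κ + sq (mn V)) := by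
  have hκ := H.kpos
  have h1 := H.pi sq T1.sqf
  have h2 : ex V (gs sq) = 4 * ex V sq := by
    rw [← ex_cmul]
    congr 1
    funext x
    exact RC3b_gs x
  rw [h2, RC3b_exsq H] at h1
  have h3 := cm2_le H
  have h4 : 1 / κ * (4 * (ex V (fun x => sq (ctr V x)) + sq (mn V))) =
      4 / κ * (ex V (fun x => sq (ctr V x)) + sq (mn V)) := by ring
  rw [h4] at h1
  exact h1.trans (mul_le_mul_of_nonneg_left (by linarith) (by positivity))

/-- `E|x~|³ ≤ (E|x~|²)^{1/2} (E|x~|⁴)^{1/2}`. -/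
theorem cm3_le (H : Nice κ M V) :
    ex V (fun x => sq (ctr V x) * √(sq (ctr V x))) ≤
      (2 * Fintype.card ι + Fintype.card ι ^ 2 : ℝ) / (κ * √κ) := by
  have hκ := H.kpos
  have hn : (0 : ℝ) ≤ (Fintype.card ι : ℝ) := RC3b_nn
  have hs := RC3b_t0s V
  have h1 := ex_cs H hs hs.sqrt
  have h2 : (fun x : ι → ℝ => √(sq (ctr V x)) ^ 2) = fun x => sq (ctr V x) := by
    funext x
    exact Real.sq_sqrt (sq_nn _)
  rw [h2] at h1
  have h3 := cm2_le H
  have h4 := cm4_le H
  have h5 : (0 : ℝ) ≤ ex V (fun x => sq (ctr V x)) := ex_nonneg V fun x => sq_nn _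
  have h6 : (0 : ℝ) ≤ (4 * Fintype.card ι + (Fintype.card ι : ℝ) ^ 2) / κ ^ 2 := by positivity
  have hsk : √κ ^ 2 = κ := Real.sq_sqrt hκ.le
  have hsk0 : 0 < √κ := Real.sqrt_pos.2 hκ
  refine RC3b_le (by positivity) ?_
  refine h1.trans ((mul_le_mul h4 h3 h5 h6).trans ?_)
  rw [div_mul_div_comm, div_pow, mul_pow, hsk]
  refine div_le_div_of_nonneg_right ?_ (by positivity)
  nlinarith [mul_nonneg hn hn, mul_nonneg (mul_nonneg hn hn) hn,
    mul_nonneg (mul_nonneg hn hn) (mul_nonneg hn hn)]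

theorem cm1_le (H : Nice κ M V) :
    ex V (fun x => √(sq (ctr V x))) ≤ √(Fintype.card ι) / √κ := by
  have hκ := H.kpos
  have hs := RC3b_t0s V
  have h1 := ex_sq_le H hs.sqrt
  have h2 : (fun x : ι → ℝ => √(sq (ctr V x)) ^ 2) = fun x => sq (ctr V x) := by
    funext x
    exact Real.sq_sqrt (sq_nn _)
  rw [h2] at h1
  rw [← Real.sqrt_div RC3b_nn]
  exact Real.le_sqrt_of_sq_le (h1.trans (cm2_le H))

/-- `|E x~_i x~_j x~_k| ≤ E|x~|³`. -/
theorem TM_le (H : Nice κ M V) (i j k : ι) :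
    |TM V i j k| ≤ (2 * Fintype.card ι + Fintype.card ι ^ 2 : ℝ) / (κ * √κ) := by
  have hs := RC3b_t0s V
  have h1 : T0 (fun x : ι → ℝ => ctr V x i * ctr V x j * ctr V x k) :=
    ((RC3b_t0c V i).mul (RC3b_t0c V j)).mul (RC3b_t0c V k)
  refine (ex_abs_le H h1).trans ((ex_mono H h1.abs (hs.mul hs.sqrt) fun x => ?_).trans (cm3_le H))
  rw [abs_mul, abs_mul]
  have e : sq (ctr V x) = √(sq (ctr V x)) * √(sq (ctr V x)) :=
    (Real.mul_self_sqrt (sq_nn _)).symm
  have h2 := RC3b_abs V x i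
  have h3 := RC3b_abs V x j
  have h4 := RC3b_abs V x k
  have h0 := Real.sqrt_nonneg (sq (ctr V x))
  calc |ctr V x i| * |ctr V x j| * |ctr V x k| ≤
        (√(sq (ctr V x)) * √(sq (ctr V x))) * √(sq (ctr V x)) :=
        mul_le_mul (mul_le_mul h2 h3 (abs_nonneg _) h0) h4 (abs_nonneg _) (mul_nonneg h0 h0)
    _ = sq (ctr V x) * √(sq (ctr V x)) := by rw [← e]

/-- `|Cov(x~_j x~_k, |x|²)| = |E x~_j x~_k (|x|² - E|x|²)| ≤ (E|x~|⁴)^{1/2} (Var|x|²)^{1/2}`,
`Var|x|² ≤ (4/κ) E|x|² = (4/κ) (E|x~|² + |mean|²)`. -/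
theorem TCsq_le (H : Nice κ M V) (j k : ι) :
    |ex V (fun x => ctr V x j * ctr V x k * (sq x - ex V sq))| ≤
      (2 + Fintype.card ι : ℝ) ^ 2 / κ * √(4 / κ * (Fintype.card ι / κ + sq (mn V))) := by
  have hκ := H.kpos
  have hn : (0 : ℝ) ≤ (Fintype.card ι : ℝ) := RC3b_nn
  have hs := RC3b_t0s V
  have hf : T0 (fun x : ι → ℝ => ctr V x j * ctr V x k) := (RC3b_t0c V j).mul (RC3b_t0c V k)
  have hg : T0 (fun x : ι → ℝ => sq x - ex V sq) := T0.sqf.sub (T0.const _)
  have h1 := ex_cs H hf hg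
  have h2 : ex V (fun x => (ctr V x j * ctr V x k) ^ 2) ≤
      (4 * Fintype.card ι + (Fintype.card ι : ℝ) ^ 2) / κ ^ 2 := by
    refine (ex_mono H (hf.pow 2) (hs.pow 2) fun x => ?_).trans (cm4_le H)
    rw [mul_pow, pow_two (sq (ctr V x))]
    exact mul_le_mul (coord_sq_le _ j) (coord_sq_le _ k) (_root_.sq_nonneg _) (sq_nn _)
  have h3 : ex V (fun x => (sq x - ex V sq) ^ 2) ≤
      4 / κ * (Fintype.card ι / κ + sq (mn V)) := by
    have e := var_eq H (f := sq) T0.sqf
    rw [← e]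
    exact RC3b_varsq H
  have h4 : (0 : ℝ) ≤ ex V (fun x => (sq x - ex V sq) ^ 2) :=
    ex_nonneg V fun x => _root_.sq_nonneg _
  have h5 : (0 : ℝ) ≤ (4 * Fintype.card ι + (Fintype.card ι : ℝ) ^ 2) / κ ^ 2 := by positivity
  have hm : (0 : ℝ) ≤ 4 / κ * (Fintype.card ι / κ + sq (mn V)) := h4.trans h3
  have h6 := h1.trans (mul_le_mul h2 h3 h4 h5)
  have h7 : (4 * Fintype.card ι + (Fintype.card ι : ℝ) ^ 2) / κ ^ 2 ≤
      ((2 + Fintype.card ι : ℝ) ^ 2 / κ) ^ 2 := by
    rw [div_pow]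
    refine div_le_div_of_nonneg_right ?_ (by positivity)
    nlinarith [mul_nonneg hn hn, mul_nonneg (mul_nonneg hn hn) hn,
      mul_nonneg (mul_nonneg hn hn) (mul_nonneg hn hn)]
  refine RC3b_le (mul_nonneg (by positivity) (Real.sqrt_nonneg _)) ?_
  rw [sq_abs, mul_pow, Real.sq_sqrt hm]
  exact h6.trans (mul_le_mul_of_nonneg_right h7 hm)

end Pool.Agent.Lib.MP_8d00da_gt.h42k
end

section

/-!
# Log-sum-exp of functions of the posterior: generator (paper 336, R.4): smoothness and growth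
-/

namespace Pool.Agent.Lib.MP_8d00da_gt.h42k

open MeasureTheory Set Filter
open scoped Topology NNReal ENNReal ContDiff

set_option linter.unusedSectionVars false
set_option linter.unusedVariables false

variable {ι : Type*} [Fintype ι] [DecidableEq ι]

variable {κ M : ℝ} {V : (ι → ℝ) → ℝ}

variable {α : Type*} [Fintype α] [Nonempty α] {β : ℝ} {L : α → ℝ → (ι → ℝ) → ℝ}

theorem lse_smooth (H : Nice κ M V) (β : ℝ) (hL : ∀ a, AL V (L a)) {t : ℝ} (ht : -κ < t)
    (y : ι → ℝ) :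
    ContDiffAt ℝ ∞ (fun p : ℝ × (ι → ℝ) => lse β fun a => L a p.1 p.2) (t, y) := by
  have h1 : ContDiffAt ℝ ∞ (fun (p : ℝ × (ι → ℝ)) (a : α) => L a p.1 p.2) (t, y) :=
    contDiffAt_pi.2 fun a => (hL a).smooth H ht y
  exact ((lse_contDiff (α := α) β).contDiffAt).comp (t, y) h1

theorem lse_pgu (H : Nice κ M V) (hβ : 0 < β) (hL : ∀ a, AL V (L a)) (T : ℝ) :
    PGU (fun s y => lse β fun a => L a s y) T := by
  have h1 : PGU (fun s y => (∑ a, |L a s y|) + Real.log (Fintype.card α) / β) T :=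
    (PGU.sum Finset.univ fun a _ => ((hL a).pgu H T).abs).add (PGU.const _ T)
  refine PGU.mono h1 ?_
  intro t ht y
  exact (abs_lse_le hβ _).trans (le_abs_self _)

theorem lse_t0 (H : Nice κ M V) (hβ : 0 < β) (hL : ∀ a, AL V (L a)) {t : ℝ} (ht : -κ < t) :
    T0 (fun y => lse β fun a => L a t y) := by
  have hm : Measurable (fun (y : ι → ℝ) (a : α) => L a t y) :=
    measurable_pi_lambda _ fun a => ((hL a).t0 H ht).meas
  have hc : Continuous (lse β : (α → ℝ) → ℝ) := (lse_contDiff (α := α) β (n := 0)).continuous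
  have h1 : T0 (fun y => (∑ a, |L a t y|) + Real.log (Fintype.card α) / β) :=
    (T0.sum Finset.univ fun a _ => ((hL a).t0 H ht).abs).add (T0.const _)
  refine ⟨hc.measurable.comp hm, ?_⟩
  obtain ⟨C, k, hC⟩ := h1.pg
  exact ⟨C, k, fun y => ((abs_lse_le hβ _).trans (le_abs_self _)).trans (hC y)⟩

end Pool.Agent.Lib.MP_8d00da_gt.h42k
end

section

/-!
# Log-sum-exp of functions of the posterior: generator (paper 336, R.4): growth of the derivatives
-/

namespace Pool.Agent.Lib.MP_8d00da_gt.h42k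

open MeasureTheory Set Filter
open scoped Topology NNReal ENNReal ContDiff

set_option linter.unusedSectionVars false
set_option linter.unusedVariables false

variable {ι : Type*} [Fintype ι] [DecidableEq ι]

variable {κ M : ℝ} {V : (ι → ℝ) → ℝ}

variable {α : Type*} [Fintype α] [Nonempty α] {β : ℝ} {L : α → ℝ → (ι → ℝ) → ℝ}

private theorem RB3b_smooth (H : Nice κ M V) {Φ : ℝ → (ι → ℝ) → ℝ} (h : AL V Φ) {t : ℝ}
    (ht : -κ < t) : ContDiff ℝ ∞ (Φ t) := by
  rw [contDiff_iff_contDiffAt]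
  intro y
  have h1 := AL.smooth H h ht y
  have h2 : ContDiffAt ℝ ∞ (fun z : ι → ℝ => ((t, z) : ℝ × (ι → ℝ))) y :=
    contDiffAt_const.prodMk contDiffAt_id
  exact ContDiffAt.comp (f := fun z : ι → ℝ => ((t, z) : ℝ × (ι → ℝ))) y h1 h2

private theorem RB3b_lt (H : Nice κ M V) {t T : ℝ} (ht : t ∈ Set.Icc 0 T) : -κ < t := by
  have := H.kpos
  have := ht.1
  linarith

private theorem RB3b_w (β : ℝ) (v w : α → ℝ) : |∑ a, smx β v a * w a| ≤ ∑ a, |w a| := by
  refine (Finset.abs_sum_le_sum_abs _ _).trans (Finset.sum_le_sum fun a _ => ?_)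
  rw [abs_mul, abs_of_nonneg (smx_nonneg β v a)]
  have h1 := smx_le_one β v a
  have h2 := abs_nonneg (w a)
  nlinarith

theorem lse_pd_pgu (H : Nice κ M V) (hβ : 0 < β) (hL : ∀ a, AL V (L a)) (i : ι) (T : ℝ) :
    PGU (fun s => pd i (fun y => lse β fun a => L a s y)) T := by
  have h1 : PGU (fun s y => ∑ a, |pd i (L a s) y|) T :=
    PGU.sum Finset.univ fun a _ => (AL.pd_pgu H (hL a) i T).abs
  refine PGU.mono h1 ?_
  intro t ht y
  have ht' := RB3b_lt H ht
  show |pd i (fun y => lse β fun a => L a t y) y| ≤ abs (∑ a, abs (pd i (L a t) y))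
  rw [lse_pd hβ (fun a => (RB3b_smooth H (hL a) ht').differentiable (by simp)) i y]
  exact (RB3b_w β _ _).trans (le_abs_self _)

theorem lse_pd2_pgu (H : Nice κ M V) (hβ : 0 < β) (hL : ∀ a, AL V (L a)) (i j : ι) (T : ℝ) :
    PGU (fun s => pd i (pd j (fun y => lse β fun a => L a s y))) T := by
  have h1 : PGU (fun s y => ∑ a, |pd i (pd j (L a s)) y|) T :=
    PGU.sum Finset.univ fun a _ => (AL.pd2_pgu H (hL a) i j T).abs
  have hi : PGU (fun s y => ∑ a, |pd i (L a s) y|) T :=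
    PGU.sum Finset.univ fun a _ => (AL.pd_pgu H (hL a) i T).abs
  have hj : PGU (fun s y => ∑ a, |pd j (L a s) y|) T :=
    PGU.sum Finset.univ fun a _ => (AL.pd_pgu H (hL a) j T).abs
  have h2 : PGU (fun s y => ∑ a, |pd i (L a s) y * pd j (L a s) y|) T :=
    PGU.sum Finset.univ fun a _ =>
      ((AL.pd_pgu H (hL a) i T).mul (AL.pd_pgu H (hL a) j T)).abs
  have h3 := h1.add ((PGU.const (ι := ι) β T).mul (h2.add (hi.mul hj)))
  refine PGU.mono h3 ?_
  intro t ht y
  have ht' := RB3b_lt H ht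
  show |pd i (pd j (fun y => lse β fun a => L a t y)) y| ≤ |(∑ a, |pd i (pd j (L a t)) y|) +
    β * ((∑ a, |pd i (L a t) y * pd j (L a t) y|) +
      (∑ a, |pd i (L a t) y|) * ∑ a, |pd j (L a t) y|)|
  rw [lse_pd2 hβ (fun a => (RB3b_smooth H (hL a) ht').of_le (WithTop.coe_le_coe.2 le_top)) i j y]
  set v := fun a => L a t y with hv
  have e1 := RB3b_w β v (fun a => pd i (pd j (L a t)) y)
  have e2 := RB3b_w β v (fun a => pd i (L a t) y * pd j (L a t) y)
  have e3 := RB3b_w β v (fun a => pd i (L a t) y)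
  have e4 := RB3b_w β v (fun a => pd j (L a t) y)
  set A := ∑ a, smx β v a * pd i (pd j (L a t)) y
  set B := ∑ a, smx β v a * (pd i (L a t) y * pd j (L a t) y)
  set C := ∑ a, smx β v a * pd i (L a t) y
  set D := ∑ a, smx β v a * pd j (L a t) y
  have e5 : |C * D| ≤ (∑ a, |pd i (L a t) y|) * ∑ a, |pd j (L a t) y| := by
    rw [abs_mul]
    exact mul_le_mul e3 e4 (abs_nonneg _) ((abs_nonneg _).trans e3)
  have e6 : |B - C * D| ≤ (∑ a, |pd i (L a t) y * pd j (L a t) y|) +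
      (∑ a, |pd i (L a t) y|) * ∑ a, |pd j (L a t) y| :=
    (abs_sub _ _).trans (add_le_add e2 e5)
  have e7 : |β * (B - C * D)| ≤ β * ((∑ a, |pd i (L a t) y * pd j (L a t) y|) +
      (∑ a, |pd i (L a t) y|) * ∑ a, |pd j (L a t) y|) := by
    rw [abs_mul, abs_of_pos hβ]
    exact mul_le_mul_of_nonneg_left e6 hβ.le
  exact ((abs_add_le _ _).trans (add_le_add e1 e7)).trans (le_abs_self _)

theorem lse_dt_pgu (H : Nice κ M V) (hβ : 0 < β) (hL : ∀ a, AL V (L a)) (T : ℝ) :
    PGU (fun t y => deriv (fun s => lse β fun a => L a s y) t) T := by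
  have h1 : PGU (fun t y => ∑ a, |deriv (fun s => L a s y) t|) T :=
    PGU.sum Finset.univ fun a _ => (AL.dt_pgu H (hL a) T).abs
  refine PGU.mono h1 ?_
  intro t ht y
  have ht' := RB3b_lt H ht
  have h2 : ∀ a, HasDerivAt (fun s => L a s y) (deriv (fun s => L a s y) t) t := by
    intro a
    obtain ⟨Ψ, _, hΨ⟩ := AL.dtx H (hL a)
    have h3 := hΨ t ht' y
    rw [h3.deriv]
    exact h3
  have h4 := lse_hasDerivAt hβ (v := fun s a => L a s y) h2
  show |deriv (fun s => lse β fun a => L a s y) t| ≤ abs (∑ a, abs (deriv (fun s => L a s y) t))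
  rw [h4.deriv]
  exact (RB3b_w β _ _).trans (le_abs_self _)

end Pool.Agent.Lib.MP_8d00da_gt.h42k
end

section

/-!
# Log-sum-exp of functions of the posterior: generator (paper 336, R.4): convexity
-/

namespace Pool.Agent.Lib.MP_8d00da_gt.h42k

open MeasureTheory Set Filter
open scoped Topology NNReal ENNReal ContDiff

set_option linter.unusedSectionVars false
set_option linter.unusedVariables false

variable {ι : Type*} [Fintype ι] [DecidableEq ι]

variable {κ M : ℝ} {V : (ι → ℝ) → ℝ}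

variable {α : Type*} [Fintype α] [Nonempty α] {β : ℝ} {L : α → ℝ → (ι → ℝ) → ℝ}

private theorem RB3d_smooth (H : Nice κ M V) {Φ : ℝ → (ι → ℝ) → ℝ} (h : AL V Φ) {t : ℝ}
    (ht : -κ < t) : ContDiff ℝ ∞ (Φ t) := by
  rw [contDiff_iff_contDiffAt]
  intro y
  have h1 := AL.smooth H h ht y
  have h2 : ContDiffAt ℝ ∞ (fun z : ι → ℝ => ((t, z) : ℝ × (ι → ℝ))) y :=
    contDiffAt_const.prodMk contDiffAt_id
  exact ContDiffAt.comp (f := fun z : ι → ℝ => ((t, z) : ℝ × (ι → ℝ))) y h1 h2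

/-- `G lse = ∑ p_a G L_a + (β/2) ∑_i (∑ p_a (∂_i L_a)² - (∑ p_a ∂_i L_a)²) ≥ ∑ p_a G L_a`
(`lse_pd`, `lse_pd2`, `lse_hasDerivAt`, `smx_cs`). -/
theorem lse_Gn (H : Nice κ M V) (hβ : 0 < β) (hL : ∀ a, AL V (L a)) {t : ℝ} (ht : -κ < t)
    (y : ι → ℝ) :
    ∑ a, smx β (fun a => L a t y) a * Gn V t (L a) y ≤
      Gn V t (fun s y => lse β fun a => L a s y) y := by
  have hd : ∀ a, Differentiable ℝ (L a t) := fun a =>
    (RB3d_smooth H (hL a) ht).differentiable (by simp)
  have hc : ∀ a, ContDiff ℝ 2 (L a t) := fun a =>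
    (RB3d_smooth H (hL a) ht).of_le (WithTop.coe_le_coe.2 le_top)
  have h2 : ∀ a, HasDerivAt (fun s => L a s y) (deriv (fun s => L a s y) t) t := by
    intro a
    obtain ⟨Ψ, _, hΨ⟩ := AL.dtx H (hL a)
    have h3 := hΨ t ht y
    rw [h3.deriv]
    exact h3
  have h4 : deriv (fun s => lse β fun a => L a s y) t =
      ∑ a, smx β (fun a => L a t y) a * deriv (fun s => L a s y) t :=
    (lse_hasDerivAt hβ (v := fun s a => L a s y) h2).deriv
  have h5 : ∀ i, pd i (fun y => lse β fun a => L a t y) y =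
      ∑ a, smx β (fun a => L a t y) a * pd i (L a t) y := fun i => lse_pd hβ hd i y
  have h6 := fun i => lse_pd2 hβ hc i i y
  set p : α → ℝ := smx β (fun a => L a t y) with hp
  show ∑ a, p a * (deriv (fun s => L a s y) t + ∑ i, EP V t (fun x => x i) y * pd i (L a t) y
      + 1 / 2 * ∑ i, pd i (pd i (L a t)) y) ≤
    deriv (fun s => lse β fun a => L a s y) t
      + ∑ i, EP V t (fun x => x i) y * pd i (fun y => lse β fun a => L a t y) y
      + 1 / 2 * ∑ i, pd i (pd i (fun y => lse β fun a => L a t y)) y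
  rw [h4]
  simp only [h5, h6]
  have e1 : ∑ a, p a * (deriv (fun s => L a s y) t
      + ∑ i, EP V t (fun x => x i) y * pd i (L a t) y + 1 / 2 * ∑ i, pd i (pd i (L a t)) y) =
      ∑ a, p a * deriv (fun s => L a s y) t
      + ∑ i, EP V t (fun x => x i) y * ∑ a, p a * pd i (L a t) y
      + 1 / 2 * ∑ i, ∑ a, p a * pd i (pd i (L a t)) y := by
    have e2 : ∑ i, EP V t (fun x => x i) y * ∑ a, p a * pd i (L a t) y =
        ∑ a, p a * ∑ i, EP V t (fun x => x i) y * pd i (L a t) y := by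
      simp only [Finset.mul_sum]
      rw [Finset.sum_comm]
      refine Finset.sum_congr rfl fun a _ => Finset.sum_congr rfl fun i _ => ?_
      ring
    have e3 : 1 / 2 * ∑ i, ∑ a, p a * pd i (pd i (L a t)) y =
        ∑ a, p a * (1 / 2 * ∑ i, pd i (pd i (L a t)) y) := by
      rw [Finset.sum_comm]
      simp only [Finset.mul_sum]
      refine Finset.sum_congr rfl fun a _ => Finset.sum_congr rfl fun i _ => ?_
      ring
    rw [e2, e3, ← Finset.sum_add_distrib, ← Finset.sum_add_distrib]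
    refine Finset.sum_congr rfl fun a _ => ?_
    ring
  rw [e1]
  have e4 : ∑ i, ∑ a, p a * pd i (pd i (L a t)) y ≤
      ∑ i, ((∑ a, p a * pd i (pd i (L a t)) y) +
      β * ((∑ a, p a * (pd i (L a t) y * pd i (L a t) y)) -
        (∑ a, p a * pd i (L a t) y) * ∑ a, p a * pd i (L a t) y)) := by
    refine Finset.sum_le_sum fun i _ => ?_
    have h7 := smx_cs β (fun a => L a t y) (fun a => pd i (L a t) y)
    rw [← hp] at h7
    have h8 : ∑ a, p a * (pd i (L a t) y * pd i (L a t) y) = ∑ a, p a * pd i (L a t) y ^ 2 := by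
      refine Finset.sum_congr rfl fun a _ => ?_
      ring
    rw [h8]
    nlinarith [mul_nonneg hβ.le (sub_nonneg.2 h7)]
  linarith

end Pool.Agent.Lib.MP_8d00da_gt.h42k
end

section

/-!
# The matrix of the covariances with the coordinates (paper 336, R.4): growth
-/

namespace Pool.Agent.Lib.MP_8d00da_gt.h42k

open MeasureTheory Set Filter
open scoped Topology NNReal ENNReal ContDiff

set_option linter.unusedSectionVars false
set_option linter.unusedVariables false

variable {ι : Type*} [Fintype ι] [DecidableEq ι]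

variable {κ M : ℝ} {V : (ι → ℝ) → ℝ} {F : ι → (ι → ℝ) → ℝ}

/-- A polynomial growth bound of all `mp B (NF V F s y)`, `B` a contraction, `s ∈ [0,T]`, which
does not depend on `B` (`Ctr.mp_le`, `CP_pgu`). -/
theorem NF_bound (H : Nice κ M V) (hF : ∀ k, T0 (F k)) (T : ℝ) :
    ∃ (C : ℝ) (k : ℕ), 0 ≤ C ∧ ∀ s ∈ Set.Icc 0 T, ∀ y, ∀ B, Ctr B →
      mp B (NF V F s y) ≤ C * (1 + sq y) ^ k := by
  have h1 : PGU (fun s y => 1 + ∑ i, ∑ j, (CP V s (F i) (fun x => x j) y) ^ 2) T :=
    (PGU.const 1 T).add (PGU.sum Finset.univ fun i _ => PGU.sum Finset.univ fun j _ =>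
      (CP_pgu H (hF i) (T0.coord j) T).pow 2)
  obtain ⟨C, k, hC, hb⟩ := h1.bound
  refine ⟨√(Fintype.card ι) * C, k, by positivity, ?_⟩
  intro s hs y B hB
  have h2 := hB.mp_le (NF V F s y)
  have h3 : √(∑ i, ∑ j, NF V F s y i j ^ 2) ≤ 1 + ∑ i, ∑ j, NF V F s y i j ^ 2 := by
    have h0 : 0 ≤ ∑ i, ∑ j, NF V F s y i j ^ 2 :=
      Finset.sum_nonneg fun i _ => Finset.sum_nonneg fun j _ => sq_nonneg _
    rw [Real.sqrt_le_left (by linarith)]
    nlinarith
  have h4 : 1 + ∑ i, ∑ j, NF V F s y i j ^ 2 ≤ C * (1 + sq y) ^ k :=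
    (le_abs_self _).trans (hb s hs y)
  calc mp B (NF V F s y) ≤ √(Fintype.card ι) * √(∑ i, ∑ j, NF V F s y i j ^ 2) := h2
    _ ≤ √(Fintype.card ι) * (C * (1 + sq y) ^ k) :=
        mul_le_mul_of_nonneg_left (h3.trans h4) (Real.sqrt_nonneg _)
    _ = √(Fintype.card ι) * C * (1 + sq y) ^ k := by ring

/-- The second moments of the channel are bounded: `GE V s (1+|y|²)^k ≤ C` for `s ∈ [0,T]`
(`GE_continuousOn` on the compact interval). -/
theorem GE_poly_bound (H : Nice κ M V) (k : ℕ) (T : ℝ) :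
    ∃ C : ℝ, 0 ≤ C ∧ ∀ s ∈ Set.Icc 0 T, GE V s (fun y => (1 + sq y) ^ k) ≤ C := by
  have hp : PG (fun y : ι → ℝ => (1 + sq y) ^ k) := ((PG.const 1).add PG.sqf).pow k
  have hc : ContinuousOn (fun t => GE V t (fun y : ι → ℝ => (1 + sq y) ^ k)) (Set.Icc 0 T) := by
    refine Pool.Agent.Lib.MP_8d00da_gt.h42k.GE_continuousOn H
      (Φ := fun _ y => (1 + sq y) ^ k) ?_ (PGU.of_pg hp T)
    have : Continuous (fun p : ℝ × (ι → ℝ) => (1 + sq p.2) ^ k) := by
      unfold sq
      fun_prop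
    exact this.continuousOn
  obtain ⟨C, hC⟩ := (isCompact_Icc.image_of_continuousOn hc).bddAbove
  refine ⟨max C 0, le_max_right _ _, fun s hs => ?_⟩
  exact (hC ⟨s, hs, rfl⟩).trans (le_max_left _ _)

end Pool.Agent.Lib.MP_8d00da_gt.h42k
end
end
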