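import Pool.Agent.Lib.MP_8d00da_gt.h42k.R0

/-!
# Quadratic forms under the quadratic KLS property, in the metric of the covariance (paper 336, R.5)
-/

namespace Pool.Agent.Lib.MP_8d00da_gt.h42k

open MeasureTheory Set Filter
open scoped Topology NNReal ENNReal ContDiff

set_option linter.unusedSectionVars false
set_option linter.unusedVariables false

variable {ι : Type} [Fintype ι] [DecidableEq ι]

variable {κ M K : ℝ} {V : (ι → ℝ) → ℝ} {e : ι → ι → ℝ} {lam : ι → ℝ}

/-- A quadratic form in an orthonormal basis. -/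
private theorem RD1_form {A : Matrix ι ι ℝ} (he : EB A e lam) (B : ι → ι → ℝ) (z : ι → ℝ) :
    ∑ k, ∑ l, (∑ i, ∑ j, e k i * B i j * e l j) * (dt (e k) z * dt (e l) z) =
      ∑ i, ∑ j, B i j * z i * z j := by
  have hz : ∀ i, z i = ∑ k, dt (e k) z * e k i := fun i => (congrFun (he.expand z) i).symm
  calc ∑ k, ∑ l, (∑ i, ∑ j, e k i * B i j * e l j) * (dt (e k) z * dt (e l) z)
        = ∑ k, ∑ l, ∑ i, ∑ j, B i j * (dt (e k) z * e k i) * (dt (e l) z * e l j) := by
        refine Finset.sum_congr rfl fun k _ => Finset.sum_congr rfl fun l _ => ?_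
        rw [Finset.sum_mul]
        refine Finset.sum_congr rfl fun i _ => ?_
        rw [Finset.sum_mul]
        exact Finset.sum_congr rfl fun j _ => by ring
    _ = ∑ k, ∑ i, ∑ l, ∑ j, B i j * (dt (e k) z * e k i) * (dt (e l) z * e l j) :=
        Finset.sum_congr rfl fun k _ => Finset.sum_comm
    _ = ∑ i, ∑ k, ∑ l, ∑ j, B i j * (dt (e k) z * e k i) * (dt (e l) z * e l j) := Finset.sum_comm
    _ = ∑ i, ∑ k, ∑ j, ∑ l, B i j * (dt (e k) z * e k i) * (dt (e l) z * e l j) :=
        Finset.sum_congr rfl fun i _ => Finset.sum_congr rfl fun k _ => Finset.sum_comm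
    _ = ∑ i, ∑ j, ∑ k, ∑ l, B i j * (dt (e k) z * e k i) * (dt (e l) z * e l j) :=
        Finset.sum_congr rfl fun i _ => Finset.sum_comm
    _ = ∑ i, ∑ j, B i j * z i * z j := by
        refine Finset.sum_congr rfl fun i _ => Finset.sum_congr rfl fun j _ => ?_
        conv_rhs => rw [hz i, hz j, mul_assoc, Finset.sum_mul_sum, Finset.mul_sum]
        refine Finset.sum_congr rfl fun k _ => ?_
        rw [Finset.mul_sum]
        exact Finset.sum_congr rfl fun l _ => by ring

/-- The bound with `lam + ε`. -/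
private theorem RD1_eps (hK : QKP K ι) (H : Nice κ M V) (he : EB (CM V) e lam) {B : ι → ι → ℝ}
    (hB : ∀ i j, B i j = B j i) {ε : ℝ} (hε : 0 < ε) :
    var V (qf V B) ≤ K * ∑ k, ∑ l, (lam k + ε) * (lam l + ε) *
      (∑ i, ∑ j, e k i * B i j * e l j) ^ 2 := by
  have hl0 : ∀ k, 0 ≤ lam k := fun k => EB.lam_nonneg H he k
  obtain ⟨c, hcd⟩ : ∃ c : ι → ℝ, ∀ k, c k = √(lam k + ε) := ⟨_, fun _ => rfl⟩
  have hc : ∀ k, 0 < c k := fun k => by
    rw [hcd]
    exact Real.sqrt_pos.2 (by linarith [hl0 k])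
  have hc2 : ∀ k, c k ^ 2 = lam k + ε := fun k => by
    rw [hcd]
    exact Real.sq_sqrt (by linarith [hl0 k])
  have hc0 : ∀ k, c k ≠ 0 := fun k => (hc k).ne'
  obtain ⟨P, hP⟩ := stv_equiv he hc0
  obtain ⟨κ', M', HW'⟩ := H.comp_lin' P
  have hWe : (fun y => V (P y)) = fun y => V (stv e c y) := funext fun y => by rw [hP]
  have HW : Nice κ' M' (fun y => V (stv e c y)) := by
    rw [← hWe]
    exact HW'
  have CL : CLe (fun y => V (stv e c y)) 1 := CLe_stv H he hc zero_le_one fun k => by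
    rw [hc2, one_mul]
    linarith
  obtain ⟨b, hb⟩ : ∃ b : ι → ι → ℝ, ∀ k l, b k l = ∑ i, ∑ j, e k i * B i j * e l j :=
    ⟨_, fun _ _ => rfl⟩
  have hbs : ∀ k l, b k l = b l k := by
    intro k l
    rw [hb, hb, Finset.sum_comm]
    refine Finset.sum_congr rfl fun i _ => Finset.sum_congr rfl fun j _ => ?_
    rw [hB j i]
    ring
  have key := hK.quad HW CL (B := fun k l => c k * c l * b k l) fun k l => by
    show c k * c l * b k l = c l * c k * b l k
    rw [hbs k l]
    ring
  have hq : qf (fun y => V (stv e c y)) (fun k l => c k * c l * b k l) =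
      fun y => qf V B (stv e c y) := by
    funext y
    have h1 := RD1_form he B (ctr V (stv e c y))
    have h2 : qf V B (stv e c y) =
        ∑ i, ∑ j, B i j * ctr V (stv e c y) i * ctr V (stv e c y) j := rfl
    rw [h2, ← h1]
    unfold qf
    refine Finset.sum_congr rfl fun k _ => Finset.sum_congr rfl fun l _ => ?_
    rw [ctr_stv H he hc0, ctr_stv H he hc0, ← hb]
    have h3 := hc0 k
    have h4 := hc0 l
    field_simp
  have hvar : var (fun y => V (stv e c y)) (fun y => qf V B (stv e c y)) = var V (qf V B) := by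
    have h1 := var_comp_lin P V (qf V B)
    simp only [hP] at h1
    exact h1
  rw [hq, hvar] at key
  refine key.trans (le_of_eq ?_)
  congr 1
  refine Finset.sum_congr rfl fun k _ => Finset.sum_congr rfl fun l _ => ?_
  rw [mul_pow, mul_pow, hc2, hc2, hb]

/-- As `S6d_main` / `QKP.quad_scale` (file S6d) with the scaling `c_k = √(lam_k + ε)` in the
eigenbasis `e` of the covariance matrix (`stv`, `stv_equiv`, `CLe_stv` with `z = 1`, `ctr_stv`):
`V ∘ stv e c` has covariance `≤ 1` and the quadratic form becomes the one with the matrix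
`c_k c_l ⟨e_k, B e_l⟩`, so `QKP.quad` gives the bound with `lam + ε`; let `ε → 0` (finite sums of
continuous functions of `ε`). -/
theorem QKP.quadA (hK : QKP K ι) (H : Nice κ M V) (he : EB (CM V) e lam) {B : ι → ι → ℝ}
    (hB : ∀ i j, B i j = B j i) :
    var V (qf V B) ≤ K * ∑ k, ∑ l, lam k * lam l * (∑ i, ∑ j, e k i * B i j * e l j) ^ 2 := by
  have hcont : Continuous fun ε : ℝ => K * ∑ k, ∑ l, (lam k + ε) * (lam l + ε) *
      (∑ i, ∑ j, e k i * B i j * e l j) ^ 2 := by fun_prop
  have ht : Tendsto (fun ε : ℝ => K * ∑ k, ∑ l, (lam k + ε) * (lam l + ε) *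
      (∑ i, ∑ j, e k i * B i j * e l j) ^ 2) (𝓝[>] 0)
      (𝓝 (K * ∑ k, ∑ l, lam k * lam l * (∑ i, ∑ j, e k i * B i j * e l j) ^ 2)) := by
    have h1 := (hcont.tendsto 0).mono_left (nhdsWithin_le_nhds (s := Ioi (0 : ℝ)))
    simpa only [add_zero] using h1
  refine ge_of_tendsto ht ?_
  filter_upwards [self_mem_nhdsWithin] with ε hε
  exact RD1_eps hK H he hB hε

/-- `∑ u_i B_jk T_ijk = Cov(⟨u,x⟩, qf B)` and Cauchy-Schwarz (`cov_cs`). -/
theorem third_quadA (hK : QKP K ι) (hK0 : 0 ≤ K) (H : Nice κ M V) (he : EB (CM V) e lam)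
    {B : ι → ι → ℝ} (hB : ∀ i j, B i j = B j i) (u : ι → ℝ) :
    (∑ i, ∑ j, ∑ k, u i * B j k * TM V i j k) ^ 2 ≤
      K * (∑ i, ∑ j, CM V i j * (u i * u j)) *
        ∑ k, ∑ l, lam k * lam l * (∑ i, ∑ j, e k i * B i j * e l j) ^ 2 := by
  have hg : T0 (qf V B) := by
    have h1 : qf V B = fun x => ∑ i, ∑ j, B i j * (ctr V x i * ctr V x j) := by
      funext x
      unfold qf ctr
      exact Finset.sum_congr rfl fun i _ => Finset.sum_congr rfl fun j _ => by ring
    rw [h1]
    exact T0.sum _ fun i _ => T0.sum _ fun j _ => ((S6b_ctr V i).mul (S6b_ctr V j)).cmul _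
  have h1 : ∑ i, ∑ j, ∑ k, u i * B j k * TM V i j k =
      ex V (fun x => dt u (ctr V x) * qf V B x) := by
    have ht : ∀ i j k, T0 (fun x => u i * B j k * (ctr V x i * ctr V x j * ctr V x k)) :=
      fun i j k => (((S6b_ctr V i).mul (S6b_ctr V j)).mul (S6b_ctr V k)).cmul _
    have h2 : (fun x => dt u (ctr V x) * qf V B x) =
        fun x => ∑ i, ∑ j, ∑ k, u i * B j k * (ctr V x i * ctr V x j * ctr V x k) := by
      funext x
      show (∑ i, u i * ctr V x i) * (∑ j, ∑ k, B j k * ctr V x j * ctr V x k) = _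
      rw [Finset.sum_mul]
      refine Finset.sum_congr rfl fun i _ => ?_
      rw [Finset.mul_sum]
      refine Finset.sum_congr rfl fun j _ => ?_
      rw [Finset.mul_sum]
      exact Finset.sum_congr rfl fun k _ => by ring
    rw [h2, ex_sum H _ fun i _ => T0.sum _ fun j _ => T0.sum _ fun k _ => ht i j k]
    refine Finset.sum_congr rfl fun i _ => ?_
    rw [ex_sum H _ fun j _ => T0.sum _ fun k _ => ht i j k]
    refine Finset.sum_congr rfl fun j _ => ?_
    rw [ex_sum H _ fun k _ => ht i j k]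
    refine Finset.sum_congr rfl fun k _ => ?_
    rw [ex_cmul]
    rfl
  have h3 : ∑ i, ∑ j, CM V i j * (u i * u j) = var V (fun x => dt u x) := by
    rw [← CM_quad H]
    exact Finset.sum_congr rfl fun i _ => Finset.sum_congr rfl fun j _ => by ring
  have h4 : 0 ≤ var V (fun x => dt u x) := by
    rw [he.var_dt H]
    exact Finset.sum_nonneg fun k _ => mul_nonneg (EB.lam_nonneg H he k) (sq_nonneg _)
  rw [h1, h3]
  refine (dt_ctr_cs H u hg).trans ?_
  refine (mul_le_mul_of_nonneg_left (hK.quadA H he hB) h4).trans (le_of_eq ?_)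
  ring

end Pool.Agent.Lib.MP_8d00da_gt.h42k
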