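import Pool.Agent.Lib.MP_8d00da_gt.h42k.RD1
import Pool.Agent.Lib.MP_8d00da_gt.h42k.RA1

/-!
# Third moments against contractions (paper 336, R.5)
-/

namespace Pool.Agent.Lib.MP_8d00da_gt.h42k

open MeasureTheory Set Filter
open scoped Topology NNReal ENNReal ContDiff

set_option linter.unusedSectionVars false
set_option linter.unusedVariables false

variable {ι : Type} [Fintype ι] [DecidableEq ι]

variable {κ M K : ℝ} {V : (ι → ℝ) → ℝ} {A B Q : Matrix ι ι ℝ} {e : ι → ι → ℝ} {lam : ι → ℝ}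

/-- `⟨e_k, Q Bᵀ e_l⟩` -/
private def RD2_x (Q B : Matrix ι ι ℝ) (e : ι → ι → ℝ) (k l : ι) : ℝ :=
  ∑ i, ∑ j, e k i * (∑ m, Q i m * B j m) * e l j

private theorem RD2_sym (Q B : Matrix ι ι ℝ) (e : ι → ι → ℝ) (k l : ι) :
    ∑ i, ∑ j, e k i * ((∑ m, (Q i m * B j m + Q j m * B i m)) / 2) * e l j =
      (RD2_x Q B e k l + RD2_x Q B e l k) / 2 := by
  have h1 : RD2_x Q B e l k = ∑ i, ∑ j, e k i * (∑ m, Q j m * B i m) * e l j := by
    rw [RD2_x, Finset.sum_comm]
    refine Finset.sum_congr rfl fun i _ => Finset.sum_congr rfl fun j _ => ?_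
    ring
  rw [h1, RD2_x, ← Finset.sum_add_distrib, Finset.sum_div]
  refine Finset.sum_congr rfl fun i _ => ?_
  rw [← Finset.sum_add_distrib, Finset.sum_div]
  refine Finset.sum_congr rfl fun j _ => ?_
  rw [Finset.sum_add_distrib]
  ring

private theorem RD2_dt (hQ : ∀ i j, Q i j = Q j i) (e : ι → ι → ℝ) (k l : ι) :
    RD2_x Q B e k l = dt (e l) (B.mulVec (Q.mulVec (e k))) := by
  rw [RD2_x, Finset.sum_comm, dt]
  refine Finset.sum_congr rfl fun j _ => ?_
  have h1 : (B.mulVec (Q.mulVec (e k))) j = ∑ m, B j m * ∑ i, Q m i * e k i := rfl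
  rw [h1, Finset.mul_sum]
  simp only [Finset.mul_sum, Finset.sum_mul]
  rw [Finset.sum_comm]
  refine Finset.sum_congr rfl fun m _ => Finset.sum_congr rfl fun i _ => ?_
  rw [hQ i m]
  ring

private theorem RD2_trace (hA : EB A e lam) :
    ∑ k, lam k * sq (Q.mulVec (e k)) = ∑ i, ∑ j, A i j * ∑ k, Q k i * Q k j := by
  have h1 : ∀ k, lam k * sq (Q.mulVec (e k)) =
      ∑ i, ∑ j, lam k * e k i * e k j * ∑ m, Q m i * Q m j := by
    intro k
    have h2 : sq (Q.mulVec (e k)) = ∑ m, (∑ i, Q m i * e k i) * ∑ j, Q m j * e k j := by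
      rw [sq]
      refine Finset.sum_congr rfl fun m _ => ?_
      rw [pow_two]
      rfl
    rw [h2, Finset.mul_sum]
    have h3 : ∀ m, lam k * ((∑ i, Q m i * e k i) * ∑ j, Q m j * e k j) =
        ∑ i, ∑ j, lam k * e k i * e k j * (Q m i * Q m j) := by
      intro m
      rw [Finset.sum_mul_sum, Finset.mul_sum]
      refine Finset.sum_congr rfl fun i _ => ?_
      rw [Finset.mul_sum]
      refine Finset.sum_congr rfl fun j _ => ?_
      ring
    rw [Finset.sum_congr rfl fun m _ => h3 m, Finset.sum_comm]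
    refine Finset.sum_congr rfl fun i _ => ?_
    rw [Finset.sum_comm]
    refine Finset.sum_congr rfl fun j _ => ?_
    rw [Finset.mul_sum]
  rw [Finset.sum_congr rfl fun k _ => h1 k, Finset.sum_comm]
  refine Finset.sum_congr rfl fun i _ => ?_
  rw [Finset.sum_comm]
  refine Finset.sum_congr rfl fun j _ => ?_
  rw [← Finset.sum_mul, ← hA.entry]

/-- `A` symmetric with eigenbasis `e`, `0 ≤ lam ≤ a`; `Q` symmetric, `B` a contraction,
`X = Q Bᵀ`, `C' = (X + Xᵀ)/2`. Then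
`∑ lam_k lam_l ⟨e_k, C' e_l⟩² ≤ ∑ lam_k lam_l ⟨e_k, X e_l⟩²` (`((a+b)/2)² ≤ (a²+b²)/2`, symmetry in
`k,l`), `⟨e_k, Q Bᵀ e_l⟩ = ⟨B Q e_k, e_l⟩`, `∑_l lam_l ⟨B Q e_k, e_l⟩² ≤ a |B Q e_k|² ≤ a |Q e_k|²`,
and `∑_k lam_k |Q e_k|² = tr (A Q²) = ∑_ij A_ij ∑_k Q_ki Q_kj`. -/
theorem sym_bound (hA : EB A e lam) {a : ℝ} (h : ∀ k, 0 ≤ lam k ∧ lam k ≤ a)
    (hQ : ∀ i j, Q i j = Q j i) (hB : Ctr B) :
    ∑ k, ∑ l, lam k * lam l *
        (∑ i, ∑ j, e k i * ((∑ m, (Q i m * B j m + Q j m * B i m)) / 2) * e l j) ^ 2 ≤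
      a * ∑ i, ∑ j, A i j * ∑ k, Q k i * Q k j := by
  simp only [RD2_sym]
  have h1 : ∑ k, ∑ l, lam k * lam l * ((RD2_x Q B e k l + RD2_x Q B e l k) / 2) ^ 2 ≤
      ∑ k, ∑ l, (lam k * lam l * RD2_x Q B e k l ^ 2 / 2 +
        lam l * lam k * RD2_x Q B e l k ^ 2 / 2) := by
    refine Finset.sum_le_sum fun k _ => Finset.sum_le_sum fun l _ => ?_
    have h2 : 0 ≤ lam k * lam l := mul_nonneg (h k).1 (h l).1
    have h3 : ((RD2_x Q B e k l + RD2_x Q B e l k) / 2) ^ 2 ≤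
        (RD2_x Q B e k l ^ 2 + RD2_x Q B e l k ^ 2) / 2 := by
      nlinarith [sq_nonneg (RD2_x Q B e k l - RD2_x Q B e l k)]
    calc lam k * lam l * ((RD2_x Q B e k l + RD2_x Q B e l k) / 2) ^ 2
        ≤ lam k * lam l * ((RD2_x Q B e k l ^ 2 + RD2_x Q B e l k ^ 2) / 2) :=
          mul_le_mul_of_nonneg_left h3 h2
      _ = _ := by ring
  have h2 : ∑ k, ∑ l, (lam k * lam l * RD2_x Q B e k l ^ 2 / 2 +
        lam l * lam k * RD2_x Q B e l k ^ 2 / 2) =
      ∑ k, ∑ l, lam k * lam l * RD2_x Q B e k l ^ 2 := by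
    simp only [Finset.sum_add_distrib]
    have h3 : ∑ k, ∑ l, lam l * lam k * RD2_x Q B e l k ^ 2 / 2 =
        ∑ k, ∑ l, lam k * lam l * RD2_x Q B e k l ^ 2 / 2 := by
      rw [Finset.sum_comm]
    rw [h3, ← Finset.sum_add_distrib]
    refine Finset.sum_congr rfl fun k _ => ?_
    rw [← Finset.sum_add_distrib]
    refine Finset.sum_congr rfl fun l _ => ?_
    ring
  have h3 : ∀ k, ∑ l, lam k * lam l * RD2_x Q B e k l ^ 2 ≤
      a * (lam k * sq (Q.mulVec (e k))) := by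
    intro k
    have h4 : ∑ l, lam l * RD2_x Q B e k l ^ 2 ≤ a * sq (Q.mulVec (e k)) := by
      calc ∑ l, lam l * RD2_x Q B e k l ^ 2
          ≤ ∑ l, a * RD2_x Q B e k l ^ 2 :=
            Finset.sum_le_sum fun l _ => mul_le_mul_of_nonneg_right (h l).2 (sq_nonneg _)
        _ = a * sq (B.mulVec (Q.mulVec (e k))) := by
            rw [← Finset.mul_sum, hA.sq_eq]
            simp only [RD2_dt hQ]
        _ ≤ a * sq (Q.mulVec (e k)) :=
            mul_le_mul_of_nonneg_left (hB _) ((h k).1.trans (h k).2)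
    calc ∑ l, lam k * lam l * RD2_x Q B e k l ^ 2
        = lam k * ∑ l, lam l * RD2_x Q B e k l ^ 2 := by
          rw [Finset.mul_sum]
          refine Finset.sum_congr rfl fun l _ => ?_
          ring
      _ ≤ lam k * (a * sq (Q.mulVec (e k))) := mul_le_mul_of_nonneg_left h4 (h k).1
      _ = _ := by ring
  calc _ ≤ _ := h1
    _ = _ := h2
    _ ≤ ∑ k, a * (lam k * sq (Q.mulVec (e k))) := Finset.sum_le_sum fun k _ => h3 k
    _ = a * ∑ i, ∑ j, A i j * ∑ k, Q k i * Q k j := by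
        rw [← Finset.mul_sum, RD2_trace hA]

private theorem RD2_cm_symm (V : (ι → ℝ) → ℝ) (i j : ι) : CM V i j = CM V j i := by
  show cov V _ _ = cov V _ _
  rw [cov, cov]
  have h1 : (fun x : ι → ℝ => x i * x j) = fun x => x j * x i := by
    funext x
    ring
  rw [h1, mul_comm]

/-- `tr (Bᵀ T_u Q) = tr (T_u Q Bᵀ) = ∑ u_i T_ijk C'_jk` with the symmetric part `C'` of `Q Bᵀ`;
`third_quadA`, `sym_bound` with `a = opn (CM V)` (`EB.lam_le_opn`, `EB.lam_nonneg`). -/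
theorem third_ctr (hK : QKP K ι) (hK0 : 0 ≤ K) (H : Nice κ M V) (hQ : ∀ i j, Q i j = Q j i)
    (hB : Ctr B) (u : ι → ℝ) :
    (∑ k, ∑ l, B k l * ∑ j, (∑ i, u i * TM V i k j) * Q j l) ^ 2 ≤
      K * opn (CM V) * (∑ i, ∑ j, CM V i j * (u i * u j)) *
        ∑ i, ∑ j, CM V i j * ∑ k, Q k i * Q k j := by
  obtain ⟨e, lam, he⟩ := exists_EB (A := CM V) (RD2_cm_symm V)
  have hC : ∀ i j, (∑ m, (Q i m * B j m + Q j m * B i m)) / 2 =
      (∑ m, (Q j m * B i m + Q i m * B j m)) / 2 := by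
    intro i j
    congr 1
    refine Finset.sum_congr rfl fun m _ => ?_
    ring
  have h1 := third_quadA hK hK0 H he
    (B := fun i j => (∑ m, (Q i m * B j m + Q j m * B i m)) / 2) hC u
  have h2 : ∑ k, ∑ l, B k l * ∑ j, (∑ i, u i * TM V i k j) * Q j l =
      ∑ i, ∑ j, ∑ k, u i * ((∑ m, (Q j m * B k m + Q k m * B j m)) / 2) * TM V i j k := by
    set T : ι → ι → ℝ := fun k j => ∑ i, u i * TM V i k j with hT
    have hTs : ∀ k j, T k j = T j k := by
      intro k j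
      simp only [hT]
      refine Finset.sum_congr rfl fun i _ => ?_
      rw [TM_symm23]
    have h3 : ∑ k, ∑ l, B k l * ∑ j, T k j * Q j l =
        ∑ k, ∑ j, T k j * ∑ m, Q j m * B k m := by
      refine Finset.sum_congr rfl fun k _ => ?_
      simp only [Finset.mul_sum]
      rw [Finset.sum_comm]
      refine Finset.sum_congr rfl fun j _ => Finset.sum_congr rfl fun l _ => ?_
      ring
    have h4 : ∑ k, ∑ j, T k j * ∑ m, Q j m * B k m =
        ∑ k, ∑ j, T k j * ∑ m, Q k m * B j m := by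
      rw [Finset.sum_comm]
      refine Finset.sum_congr rfl fun j _ => Finset.sum_congr rfl fun k _ => ?_
      rw [hTs]
    have h5 : ∑ i, ∑ j, ∑ k, u i * ((∑ m, (Q j m * B k m + Q k m * B j m)) / 2) * TM V i j k =
        ∑ j, ∑ k, T j k * ((∑ m, (Q j m * B k m + Q k m * B j m)) / 2) := by
      rw [Finset.sum_comm]
      refine Finset.sum_congr rfl fun j _ => ?_
      rw [Finset.sum_comm]
      refine Finset.sum_congr rfl fun k _ => ?_
      simp only [hT]
      rw [Finset.sum_mul]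
      refine Finset.sum_congr rfl fun i _ => ?_
      ring
    have h6 : ∑ j, ∑ k, T j k * ((∑ m, (Q j m * B k m + Q k m * B j m)) / 2) =
        (∑ k, ∑ j, T k j * ∑ m, Q j m * B k m) / 2 +
          (∑ k, ∑ j, T k j * ∑ m, Q k m * B j m) / 2 := by
      rw [Finset.sum_div, Finset.sum_div, ← Finset.sum_add_distrib]
      refine Finset.sum_congr rfl fun j _ => ?_
      rw [Finset.sum_div, Finset.sum_div, ← Finset.sum_add_distrib]
      refine Finset.sum_congr rfl fun k _ => ?_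
      rw [Finset.sum_add_distrib]
      ring
    rw [h3, h5, h6, ← h4]
    ring
  rw [h2]
  have h3 := sym_bound he (a := opn (CM V)) (fun k => ⟨he.lam_nonneg H k, he.lam_le_opn k⟩) hQ hB
  have h4 : 0 ≤ ∑ i, ∑ j, CM V i j * (u i * u j) := by
    have h5 := (CM_PSD H)
    have h6 := CM_quad H u
    have h7 : ∑ i, ∑ j, CM V i j * (u i * u j) = ∑ i, ∑ j, u i * CM V i j * u j := by
      refine Finset.sum_congr rfl fun i _ => Finset.sum_congr rfl fun j _ => ?_
      ring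
    rw [h7, h6, he.var_dt H]
    exact Finset.sum_nonneg fun k _ => mul_nonneg (he.lam_nonneg H k) (sq_nonneg _)
  calc _ ≤ _ := h1
    _ ≤ K * (∑ i, ∑ j, CM V i j * (u i * u j)) *
        (opn (CM V) * ∑ i, ∑ j, CM V i j * ∑ k, Q k i * Q k j) :=
      mul_le_mul_of_nonneg_left h3 (mul_nonneg hK0 h4)
    _ = _ := by ring

end Pool.Agent.Lib.MP_8d00da_gt.h42k
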