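import Pool.Agent.Lib.MP_8d00da_gt.h42k.RD2
import Pool.Agent.Lib.MP_8d00da_gt.h42k.RC5

/-!
# The third moment bound (paper 336, R.5)
-/

namespace Pool.Agent.Lib.MP_8d00da_gt.h42k

open MeasureTheory Set Filter
open scoped Topology NNReal ENNReal ContDiff

set_option linter.unusedSectionVars false
set_option linter.unusedVariables false

variable {ι : Type} [Fintype ι] [DecidableEq ι]

variable {κ M K : ℝ} {V φ : (ι → ℝ) → ℝ}

private theorem RD3_form (H : Nice κ M V) (u : ι → ℝ) :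
    0 ≤ ∑ i, ∑ j, CM V i j * (u i * u j) := by
  have h := CM_quad H u
  have h2 : ∑ i, ∑ j, CM V i j * (u i * u j) = ∑ i, ∑ j, u i * CM V i j * u j :=
    Finset.sum_congr rfl fun i _ => Finset.sum_congr rfl fun j _ => by ring
  rw [h2, h]
  exact var_nonneg H (T0.dtf u)

/-- `⟨A∇φ,∇φ⟩ ≥ 0` for the covariance matrix `A`. -/
theorem gM_nonneg (H : Nice κ M V) (f : (ι → ℝ) → ℝ) (x : ι → ℝ) : 0 ≤ gM (CM V) f x :=
  RD3_form H fun i => pd i f x

theorem hM_nonneg (H : Nice κ M V) (f : (ι → ℝ) → ℝ) (x : ι → ℝ) : 0 ≤ hM (CM V) f x := by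
  have h : hM (CM V) f x =
      ∑ k, ∑ i, ∑ j, CM V i j * (pd k (pd i f) x * pd k (pd j f) x) := by
    unfold hM
    simp only [Finset.mul_sum]
    rw [Finset.sum_comm' (t' := Finset.univ) (s' := fun _ => Finset.univ) (by simp)]
    rw [Finset.sum_comm]
    refine (Finset.sum_congr rfl fun i _ => ?_).trans Finset.sum_comm
    exact Finset.sum_comm
  rw [h]
  exact Finset.sum_nonneg fun k _ => RD3_form H fun i => pd k (pd i f) x

theorem gM_t0 (A : Matrix ι ι ℝ) (hφ : Cc φ) : T0 (gM A φ) :=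
  T0.sum Finset.univ fun i _ => T0.sum Finset.univ fun j _ =>
    (((hφ.t1.pdt0 i).mul (hφ.t1.pdt0 j)).cmul (A i j))

theorem hM_t0 (A : Matrix ι ι ℝ) (hφ : Cc φ) : T0 (hM A φ) :=
  T0.sum Finset.univ fun i _ => T0.sum Finset.univ fun j _ =>
    ((T0.sum Finset.univ fun k _ =>
      (((hφ.pdc i).t1.pdt0 k).mul ((hφ.pdc j).t1.pdt0 k))).cmul (A i j))

private theorem RD3_mul {f g : (ι → ℝ) → ℝ} (hf : Cc f) (hg : Cc g) : Cc (fun x => f x * g x) :=
  ⟨hf.smooth.mul hg.smooth, hf.supp.mul_right⟩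

private theorem RD3_cmul {f : (ι → ℝ) → ℝ} (hf : Cc f) (c : ℝ) : Cc (fun x => c * f x) :=
  ⟨contDiff_const.mul hf.smooth, hf.supp.mul_left⟩

private theorem RD3_sum {α : Type*} (S : Finset α) {F : α → (ι → ℝ) → ℝ}
    (hF : ∀ a ∈ S, Cc (F a)) : Cc (fun x => ∑ a ∈ S, F a x) := by
  classical
  induction S using Finset.induction_on with
  | empty =>
    simp only [Finset.sum_empty]
    exact ⟨contDiff_const, HasCompactSupport.zero⟩
  | insert a s ha ih =>
    simp only [Finset.sum_insert ha]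
    have h1 := hF a (Finset.mem_insert_self a s)
    have h2 := ih fun b hb => hF b (Finset.mem_insert_of_mem hb)
    exact ⟨h1.smooth.add h2.smooth, h1.supp.add h2.supp⟩

private theorem RD3_diff {f : (ι → ℝ) → ℝ} (hf : Cc f) : Differentiable ℝ f :=
  hf.t1.c1.differentiable (by norm_num)

/-- `F_k = ∑_ij T_ijk φ_i φ_j ∈ Cc`, `∂_l F_k = 2 ∑_ij T_ijk φ_i φ_jl`, so by `third_ctr`
`mp B (DF F x) ≤ g(x) := 2 √(K opn A) √(⟨A∇φ,∇φ⟩) √(tr(A(D²φ)²))`; `trace_ineq` and
Cauchy-Schwarz (`ex_cs`). -/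
theorem third_bound (hK : QKP K ι) (hK0 : 0 ≤ K) (H : Nice κ M V) (hφ : Cc φ) :
    ∑ i, ∑ j, ∑ k, TM V i j k * cov V (fun x => pd i φ x * pd j φ x) (fun x => x k) ≤
      2 / κ * √(K * opn (CM V)) * √(ex V (gM (CM V) φ)) * √(ex V (hM (CM V) φ)) := by
  set F : ι → (ι → ℝ) → ℝ := fun k x =>
    ∑ i, ∑ j, TM V i j k * (pd i φ x * pd j φ x) with hF
  have hcc : ∀ i j k, Cc (fun x => TM V i j k * (pd i φ x * pd j φ x)) := fun i j k =>
    RD3_cmul (RD3_mul (hφ.pdc i) (hφ.pdc j)) _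
  have hcc2 : ∀ i k, Cc (fun x => ∑ j, TM V i j k * (pd i φ x * pd j φ x)) := fun i k =>
    RD3_sum Finset.univ (F := fun j x => TM V i j k * (pd i φ x * pd j φ x)) fun j _ => hcc i j k
  have hFc : ∀ k, Cc (F k) := fun k =>
    RD3_sum Finset.univ (F := fun i x => ∑ j, TM V i j k * (pd i φ x * pd j φ x))
      fun i _ => hcc2 i k
  have hcomm : ∀ (i j : ι) (x : ι → ℝ), pd i (pd j φ) x = pd j (pd i φ) x := fun i j x =>
    pd_comm (by exact_mod_cast contDiff_infty.1 hφ.smooth 2) i j x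
  -- the derivative of F
  have hDF : ∀ (x : ι → ℝ) (k l : ι), DF F x k l =
      2 * ∑ j, (∑ i, pd i φ x * TM V i k j) * pd l (pd j φ) x := by
    intro x k l
    have e0 : DF F x k l = pd l (F k) x := rfl
    have e1 : pd l (F k) x = ∑ i, ∑ j, TM V i j k *
        (pd l (pd i φ) x * pd j φ x + pd i φ x * pd l (pd j φ) x) := by
      have e2 : pd l (F k) x = pd l (fun x => ∑ i, (fun i x =>
        ∑ j, TM V i j k * (pd i φ x * pd j φ x)) i x) x := rfl
      rw [e2, pd_sum Finset.univ (F := fun i x => ∑ j, TM V i j k * (pd i φ x * pd j φ x))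
        (fun i _ => RD3_diff (hcc2 i k))]
      refine Finset.sum_congr rfl fun i _ => ?_
      rw [pd_sum Finset.univ (F := fun j x => TM V i j k * (pd i φ x * pd j φ x))
        (fun j _ => RD3_diff (hcc i j k))]
      refine Finset.sum_congr rfl fun j _ => ?_
      rw [pd_cmul (f := fun x => pd i φ x * pd j φ x)
        (RD3_diff (RD3_mul (hφ.pdc i) (hφ.pdc j))),
        pd_mul (RD3_diff (hφ.pdc i)) (RD3_diff (hφ.pdc j))]
    have e3 : ∑ i, ∑ j, TM V i j k * (pd l (pd i φ) x * pd j φ x) =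
        ∑ i, ∑ j, TM V i j k * (pd i φ x * pd l (pd j φ) x) := by
      rw [Finset.sum_comm]
      refine Finset.sum_congr rfl fun i _ => Finset.sum_congr rfl fun j _ => ?_
      rw [TM_symm12 V j i k]
      ring
    rw [e0, e1]
    simp only [mul_add, Finset.sum_add_distrib]
    rw [e3, ← two_mul]
    congr 1
    rw [Finset.sum_comm]
    refine Finset.sum_congr rfl fun j _ => ?_
    rw [Finset.sum_mul]
    refine Finset.sum_congr rfl fun i _ => ?_
    rw [TM_symm23 V i j k]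
    ring
  have hop : 0 ≤ K * opn (CM V) := mul_nonneg hK0 (opn_nonneg _)
  set g : (ι → ℝ) → ℝ := fun x =>
    2 * √(K * opn (CM V)) * (√(gM (CM V) φ x) * √(hM (CM V) φ x)) with hg
  have hgt : T0 g := ((gM_t0 (CM V) hφ).sqrt.mul (hM_t0 (CM V) hφ).sqrt).cmul _
  have hpt : ∀ x B, Ctr B → mp B (DF F x) ≤ g x := by
    intro x B hB
    have h1 := third_ctr hK hK0 H (Q := Matrix.of fun j l => pd l (pd j φ) x) (B := B)
      (fun i j => hcomm j i x) hB (fun i => pd i φ x)
    have h2 : mp B (DF F x) = 2 * ∑ k, ∑ l, B k l * ∑ j, (∑ i, pd i φ x * TM V i k j) *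
        (Matrix.of fun j l => pd l (pd j φ) x : Matrix ι ι ℝ) j l := by
      unfold mp
      rw [Finset.mul_sum]
      refine Finset.sum_congr rfl fun k _ => ?_
      rw [Finset.mul_sum]
      refine Finset.sum_congr rfl fun l _ => ?_
      rw [hDF x k l]
      simp only [Matrix.of_apply]
      ring
    have h3 : ∑ i, ∑ j, CM V i j * ∑ k, (Matrix.of fun j l => pd l (pd j φ) x : Matrix ι ι ℝ) k i *
        (Matrix.of fun j l => pd l (pd j φ) x : Matrix ι ι ℝ) k j = hM (CM V) φ x := by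
      unfold hM
      refine Finset.sum_congr rfl fun i _ => Finset.sum_congr rfl fun j _ => ?_
      congr 1
      refine Finset.sum_congr rfl fun k _ => ?_
      simp only [Matrix.of_apply]
      rw [hcomm i k x, hcomm j k x]
    rw [h3] at h1
    rw [h2]
    set S := ∑ k, ∑ l, B k l * ∑ j, (∑ i, pd i φ x * TM V i k j) *
        (Matrix.of fun j l => pd l (pd j φ) x : Matrix ι ι ℝ) j l with hS
    have h4 : S ≤ √(K * opn (CM V) * gM (CM V) φ x * hM (CM V) φ x) := Real.le_sqrt_of_sq_le h1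
    have h5 : √(K * opn (CM V) * gM (CM V) φ x * hM (CM V) φ x) =
        √(K * opn (CM V)) * (√(gM (CM V) φ x) * √(hM (CM V) φ x)) := by
      rw [mul_assoc, Real.sqrt_mul hop, Real.sqrt_mul (gM_nonneg H φ x)]
    rw [h5] at h4
    simp only [hg]
    linarith
  have hmain := trace_ineq H hFc hgt hpt
  -- left hand side
  have hL : ∑ i, ∑ j, ∑ k, TM V i j k * cov V (fun x => pd i φ x * pd j φ x) (fun x => x k) =
      ∑ k, cov V (F k) (fun x => x k) := by
    have h1 : ∀ k, cov V (F k) (fun x => x k) =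
        ∑ i, ∑ j, TM V i j k * cov V (fun x => pd i φ x * pd j φ x) (fun x => x k) := by
      intro k
      have e1 : cov V (F k) (fun x => x k) = cov V (fun x => ∑ i, (fun i x =>
        ∑ j, TM V i j k * (pd i φ x * pd j φ x)) i x) (fun x => x k) := rfl
      rw [e1, cov_sum H Finset.univ (F := fun i x => ∑ j, TM V i j k * (pd i φ x * pd j φ x))
        (fun i _ => (hcc2 i k).t1.t0) (T0.coord k)]
      refine Finset.sum_congr rfl fun i _ => ?_
      rw [cov_sum H Finset.univ (F := fun j x => TM V i j k * (pd i φ x * pd j φ x))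
        (fun j _ => (hcc i j k).t1.t0) (T0.coord k)]
      refine Finset.sum_congr rfl fun j _ => ?_
      rw [cov_cmul V (fun x => pd i φ x * pd j φ x)]
    rw [Finset.sum_congr rfl fun k _ => h1 k]
    symm
    refine Finset.sum_comm.trans (Finset.sum_congr rfl fun i _ => ?_)
    exact Finset.sum_comm
  have hcs : ex V (fun x => √(gM (CM V) φ x) * √(hM (CM V) φ x)) ≤
      √(ex V (gM (CM V) φ)) * √(ex V (hM (CM V) φ)) := by
    have h1 := ex_cs H (gM_t0 (CM V) hφ).sqrt (hM_t0 (CM V) hφ).sqrt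
    have h2 : (fun x => √(gM (CM V) φ x) ^ 2) = gM (CM V) φ :=
      funext fun x => Real.sq_sqrt (gM_nonneg H φ x)
    have h3 : (fun x => √(hM (CM V) φ x) ^ 2) = hM (CM V) φ :=
      funext fun x => Real.sq_sqrt (hM_nonneg H φ x)
    rw [h2, h3] at h1
    rw [← Real.sqrt_mul (ex_nonneg V fun x => gM_nonneg H φ x)]
    exact Real.le_sqrt_of_sq_le h1
  have hE : ex V g = 2 * √(K * opn (CM V)) * ex V (fun x => √(gM (CM V) φ x) * √(hM (CM V) φ x)) :=
    ex_cmul V (fun x => √(gM (CM V) φ x) * √(hM (CM V) φ x)) _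
  rw [hL]
  have hκ := H.kpos
  have h9 : κ * ∑ k, cov V (F k) (fun x => x k) ≤
      2 * √(K * opn (CM V)) * (√(ex V (gM (CM V) φ)) * √(ex V (hM (CM V) φ))) := by
    refine hmain.trans ?_
    rw [hE]
    exact mul_le_mul_of_nonneg_left hcs (by positivity)
  have h10 : ∑ k, cov V (F k) (fun x => x k) ≤
      (2 * √(K * opn (CM V)) * (√(ex V (gM (CM V) φ)) * √(ex V (hM (CM V) φ)))) / κ := by
    rw [le_div_iff₀ hκ]
    linarith
  refine h10.trans (le_of_eq ?_)
  field_simp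

end Pool.Agent.Lib.MP_8d00da_gt.h42k
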