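import Pool.Agent.Lib.MP_8d00da_gt.h42k.RE1a

/-!
# The class inequality under linear changes of coordinates (paper 336, R.1, R.2): translation
-/

namespace Pool.Agent.Lib.MP_8d00da_gt.h42k

open MeasureTheory Set Filter
open scoped Topology NNReal ENNReal ContDiff

set_option linter.unusedSectionVars false
set_option linter.unusedVariables false

variable {ι : Type} [Fintype ι] [DecidableEq ι]

variable {κ M τ C : ℝ} {V f : (ι → ℝ) → ℝ}

private theorem RE1c_pg (hf : PG f) (a : ι → ℝ) : PG (fun x => f (x + a)) := by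
  obtain ⟨C, k, hC, hb⟩ := hf.bound
  refine ⟨C * (2 + 2 * sq a) ^ k, k, fun x => (hb (x + a)).trans ?_⟩
  rw [mul_assoc, ← mul_pow]
  have h0 := sq_nn x
  have h1 := sq_nn a
  have h2 := sq_add_le x a
  refine mul_le_mul_of_nonneg_left (pow_le_pow_left₀ (by linarith [sq_nn (x + a)]) ?_ k) hC
  nlinarith [mul_nonneg h0 h1]

private theorem RE1c_t1 (hf : T1 f) (a : ι → ℝ) : T1 (fun x => f (x + a)) := by
  refine ⟨hf.c1.comp (contDiff_id.add contDiff_const), RE1c_pg hf.pg a, fun i => ?_⟩
  have h : pd i (fun x => f (x + a)) = fun x => pd i f (x + a) :=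
    funext fun x => pd_translate a f i x
  rw [h]
  exact RE1c_pg (hf.pgd i) a

/-- Translation to mean `0` and subtraction of the mean of `f` (`L17`). -/
theorem normal_mean (H : Nice κ M V) (hf : T1 f) (w : ι → ℝ) :
    ∃ (W g : (ι → ℝ) → ℝ), Nice κ M W ∧ T1 g ∧ (∀ i, mn W i = 0) ∧ ex W g = 0 ∧
      CM W = CM V ∧ (∀ x, ∃ x', ∀ u, hs W x u = hs V x' u) ∧ var W g = var V f ∧
      ex W (gw w g) = ex V (gw w f) := by
  obtain ⟨a, ha⟩ : ∃ a : ι → ℝ, a = mn V := ⟨_, rfl⟩
  obtain ⟨c, hc⟩ : ∃ c : ℝ, c = ex V f := ⟨_, rfl⟩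
  have hW : Nice κ M fun x => V (x + a) := H.translate a
  have hg : T1 fun x => f (x + a) + -c := (RE1c_t1 hf a).add (T1.const (-c))
  refine ⟨fun x => V (x + a), fun x => f (x + a) + -c, hW, hg, fun i => ?_, ?_, ?_, fun x => ?_,
    ?_, ?_⟩
  · have h1 := ex_translate a V fun x => x i - a i
    have h2 : (fun x : ι → ℝ => (x + a) i - a i) = fun x => x i := by
      funext x
      simp
    rw [h2, ex_sub H (T0.coord i) (T0.const (a i)), ex_const H] at h1
    have h3 : mn V i = ex V fun x => x i := rfl
    have h4 : mn (fun x => V (x + a)) i = ex (fun x => V (x + a)) fun x => x i := rfl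
    rw [h4, h1, ← h3, ha, sub_self]
  · have h1 := ex_translate a V fun x => f x + -c
    rw [ex_add H hf.t0 (T0.const (-c)), ex_const H] at h1
    rw [h1, hc]
    ring
  · ext i j
    have h1 := cov_translate a V (fun x => x i + -a i) (fun x => x j + -a j)
    have h2 : ∀ i, (fun x : ι → ℝ => (x + a) i + -a i) = fun x => x i := by
      intro i
      funext x
      simp
    have h3 := h2 i
    have h4 := h2 j
    rw [h3, h4, cov_addc H (T0.coord i) ((T0.coord j).add (T0.const (-a j)))] at h1
    have h5 : cov V (fun x => x i) (fun x => x j + -a j) = cov V (fun x => x i) fun x => x j := by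
      rw [cov_comm, cov_addc H (T0.coord j) (T0.coord i), cov_comm]
    rw [h5] at h1
    exact h1
  · exact ⟨x + a, fun u => hs_translate a V x u⟩
  · have h1 := var_translate a V fun x => f x + -c
    rw [var_addc H hf.t0] at h1
    exact h1
  · have h1 := ex_translate a V (gw w f)
    have h2 : gw w (fun x => f (x + a) + -c) = fun x => gw w f (x + a) := by
      funext x
      unfold gw
      refine Finset.sum_congr rfl fun i _ => ?_
      rw [pd_addc (fun x => f (x + a)), pd_translate]
    rw [h2]
    exact h1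

end Pool.Agent.Lib.MP_8d00da_gt.h42k
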