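import Pool.Agent.Lib.MP_8d00da_gt.h42k.RE1a

/-!
# The class inequality under linear changes of coordinates (paper 336, R.1, R.2): scaling
-/

namespace Pool.Agent.Lib.MP_8d00da_gt.h42k

open MeasureTheory Set Filter
open scoped Topology NNReal ENNReal ContDiff

set_option linter.unusedSectionVars false
set_option linter.unusedVariables false

variable {ι : Type} [Fintype ι] [DecidableEq ι]

variable {κ M τ C : ℝ} {V f : (ι → ℝ) → ℝ}

/-- The partial derivatives after a diagonal map. -/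
private theorem RE1d_pd {c : ι → ℝ} (hc : ∀ i, c i ≠ 0) (hf : Differentiable ℝ f) (i : ι)
    (x : ι → ℝ) : pd i (fun x => f (dg c hc x)) x = c i * pd i f (dg c hc x) := by
  have h := pd_comp (dg c hc : (ι → ℝ) →L[ℝ] (ι → ℝ)) hf i x
  rw [show pd i (fun x => f (dg c hc x)) x = gd f (dg c hc x) (dg c hc (Pi.single i 1)) from h]
  unfold gd
  rw [Finset.sum_eq_single i]
  · rw [dg_apply, Pi.single_eq_same, one_mul]
  · intro j _ hj
    rw [dg_apply, Pi.single_eq_of_ne hj, zero_mul, zero_mul]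
  · intro hi
    exact absurd (Finset.mem_univ i) hi

/-- Scaling: `P = diag(√(1 + b_i/σ))`, `W = V ∘ P`, `g = f ∘ P`: the covariance becomes
`a_i = b_i / (1 + b_i/σ)`, `1 - a_i/σ = 1/(1 + b_i/σ)`, `g_i = √(1+b_i/σ) f_i`, so
`(1 + b_i) f_i² = ((1 - a_i/σ) + a_i) g_i²` and `D²W[u,u] ≥ τ ∑ (1+b_i/σ) u_i²`. -/
theorem normal_scale (H : Nice τ M V) (hf : T1 f) {b : ι → ℝ} (hb : ∀ i, 0 ≤ b i)
    (hA : ∀ i j, CM V i j = if i = j then b i else 0) {σ : ℝ} (hσ : 0 < σ) :
    ∃ (M' : ℝ) (W g : (ι → ℝ) → ℝ) (a : ι → ℝ), Nice τ M' W ∧ T1 g ∧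
      (∀ i j, CM W i j = if i = j then a i else 0) ∧ (∀ i, 0 ≤ a i ∧ a i < σ) ∧
      (∀ x u, τ * ∑ i, u i ^ 2 / (1 - a i / σ) ≤ hs W x u) ∧ var W g = var V f ∧
      ex W (gw (fun i => 1 - a i / σ + a i) g) = ex V (fun x => gs f x + gM (CM V) f x) := by
  have hq : ∀ i, 0 < 1 + b i / σ := fun i => by
    have := div_nonneg (hb i) hσ.le
    linarith
  obtain ⟨c, hc0⟩ : ∃ c : ι → ℝ, c = fun i => √(1 + b i / σ) := ⟨_, rfl⟩
  have hcp : ∀ i, 0 < c i := fun i => by
    rw [hc0]
    exact Real.sqrt_pos.2 (hq i)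
  have hc : ∀ i, c i ≠ 0 := fun i => (hcp i).ne'
  have hc2 : ∀ i, c i ^ 2 = 1 + b i / σ := fun i => by
    rw [hc0]
    exact Real.sq_sqrt (hq i).le
  have hsq : ∀ u, sq (dg c hc u) = ∑ i, u i ^ 2 * (1 + b i / σ) := by
    intro u
    unfold sq
    refine Finset.sum_congr rfl fun i _ => ?_
    rw [dg_apply, mul_pow, hc2]
  have h1 : ∀ u, 1 * sq u ≤ sq (dg c hc u) := by
    intro u
    rw [hsq, one_mul]
    unfold sq
    refine Finset.sum_le_sum fun i _ => ?_
    have := div_nonneg (hb i) hσ.le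
    nlinarith [_root_.sq_nonneg (u i)]
  have h2 : ∀ u, sq (dg c hc u) ≤ (1 + (∑ j, b j) / σ) * sq u := by
    intro u
    rw [hsq]
    unfold sq
    rw [Finset.mul_sum]
    refine Finset.sum_le_sum fun i _ => ?_
    rw [mul_comm]
    refine mul_le_mul_of_nonneg_right ?_ (_root_.sq_nonneg _)
    have : b i / σ ≤ (∑ j, b j) / σ := by
      refine div_le_div_of_nonneg_right ?_ hσ.le
      exact Finset.single_le_sum (fun j _ => hb j) (Finset.mem_univ i)
    linarith
  have hN := H.comp_lin (dg c hc) one_pos h1 h2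
  rw [mul_one] at hN
  have ha : ∀ i, 1 - b i / (1 + b i / σ) / σ = 1 / (1 + b i / σ) := by
    intro i
    have := (hq i).ne'
    have h0 : σ + b i ≠ 0 := by
      have := hb i
      positivity
    field_simp
    ring
  refine ⟨_, fun x => V (dg c hc x), fun x => f (dg c hc x), fun i => b i / (1 + b i / σ), hN,
    hf.comp_lin (dg c hc : (ι → ℝ) →L[ℝ] (ι → ℝ)), ?_, ?_, ?_, ?_, ?_⟩
  · intro i j
    have h3 := CM_comp_lin H (dg c hc) (Matrix.diagonal fun i => (c i)⁻¹) (fun x => by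
      funext i
      rw [Matrix.mulVec_diagonal, dg_apply, mul_comm (x i), ← mul_assoc,
        inv_mul_cancel₀ (hc i), one_mul])
    rw [h3, Matrix.diagonal_transpose, Matrix.mul_diagonal, Matrix.diagonal_mul, hA]
    by_cases hij : i = j
    · subst hij
      rw [if_pos rfl, if_pos rfl]
      show (c i)⁻¹ * b i * (c i)⁻¹ = b i / (1 + b i / σ)
      rw [← hc2]
      have := hc i
      field_simp
    · rw [if_neg hij, if_neg hij, mul_zero, zero_mul]
  · intro i
    refine ⟨div_nonneg (hb i) (hq i).le, ?_⟩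
    show b i / (1 + b i / σ) < σ
    rw [div_lt_iff₀ (hq i), mul_add, mul_one, mul_div_cancel₀ _ hσ.ne']
    linarith
  · intro x u
    have h3 := hs_comp (dg c hc : (ι → ℝ) →L[ℝ] (ι → ℝ)) H.c2 x u
    rw [show hs (fun x => V (dg c hc x)) x u = hs V (dg c hc x) (dg c hc u) from h3]
    refine le_trans (le_of_eq ?_) (H.lo _ _)
    rw [hsq]
    congr 1
    refine Finset.sum_congr rfl fun i _ => ?_
    show u i ^ 2 / (1 - b i / (1 + b i / σ) / σ) = _
    rw [ha, div_div_eq_mul_div, div_one]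
  · exact var_comp_lin (dg c hc) V f
  · have h3 : gw (fun i => 1 - b i / (1 + b i / σ) / σ + b i / (1 + b i / σ))
        (fun x => f (dg c hc x)) =
        fun x => (fun z => gs f z + gM (CM V) f z) (dg c hc x) := by
      funext x
      show gw (fun i => 1 - b i / (1 + b i / σ) / σ + b i / (1 + b i / σ))
        (fun x => f (dg c hc x)) x = gs f (dg c hc x) + gM (CM V) f (dg c hc x)
      unfold gw gs gM
      rw [← Finset.sum_add_distrib]
      refine Finset.sum_congr rfl fun i _ => ?_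
      rw [RE1d_pd hc (hf.c1.differentiable (by norm_num)), Finset.sum_eq_single i]
      · rw [hA, if_pos rfl]
        show (1 - b i / (1 + b i / σ) / σ + b i / (1 + b i / σ)) *
          (c i * pd i f (dg c hc x)) ^ 2 = _
        rw [ha, mul_pow, hc2, ← add_div, div_mul_eq_mul_div, ← mul_assoc, mul_div_right_comm,
          mul_div_assoc, div_self (hq i).ne']
        ring
      · intro j _ hj
        rw [hA, if_neg (Ne.symm hj), zero_mul]
      · intro hi
        exact absurd (Finset.mem_univ i) hi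
    rw [h3]
    exact ex_comp_lin (dg c hc) V fun z => gs f z + gM (CM V) f z

end Pool.Agent.Lib.MP_8d00da_gt.h42k
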