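import Pool.Agent.Lib.MP_8d00da_gt.h42k.RE1b
import Pool.Agent.Lib.MP_8d00da_gt.h42k.RE1c
import Pool.Agent.Lib.MP_8d00da_gt.h42k.RE1d

/-!
# The class inequality under linear changes of coordinates (paper 336, R.1, R.2): normal form
-/

namespace Pool.Agent.Lib.MP_8d00da_gt.h42k

open MeasureTheory Set Filter
open scoped Topology NNReal ENNReal ContDiff

set_option linter.unusedSectionVars false
set_option linter.unusedVariables false

variable {ι : Type} [Fintype ι] [DecidableEq ι]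

variable {κ M τ C : ℝ} {V f : (ι → ℝ) → ℝ}

/-- The normal form R.2: `normal_rot`, `normal_scale`, `normal_mean`. -/
theorem normal_form (H : Nice τ M V) (hf : T1 f) {σ : ℝ} (hσ : 0 < σ) :
    ∃ (M' : ℝ) (W g : (ι → ℝ) → ℝ) (a : ι → ℝ), Nice τ M' W ∧ T1 g ∧ (∀ i, mn W i = 0) ∧
      ex W g = 0 ∧ (∀ i j, CM W i j = if i = j then a i else 0) ∧ (∀ i, 0 ≤ a i ∧ a i < σ) ∧
      (∀ x u, τ * ∑ i, u i ^ 2 / (1 - a i / σ) ≤ hs W x u) ∧ var W g = var V f ∧
      ex W (gw (fun i => 1 - a i / σ + a i) g) = ex V (fun x => gs f x + gM (CM V) f x) := by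
  obtain ⟨V1, f1, b, H1, hf1, hb, hA1, hv1, he1⟩ := normal_rot H hf
  obtain ⟨M', V2, f2, a, H2, hf2, hA2, ha2, hh2, hv2, he2⟩ := normal_scale H1 hf1 hb hA1 hσ
  obtain ⟨W, g, HW, hg, hm, hg0, hCM, hhs, hv3, he3⟩ :=
    normal_mean H2 hf2 (fun i => 1 - a i / σ + a i)
  refine ⟨M', W, g, a, HW, hg, hm, hg0, ?_, ha2, ?_, ?_, ?_⟩
  · intro i j
    rw [hCM]
    exact hA2 i j
  · intro x u
    obtain ⟨x', hx'⟩ := hhs x
    rw [hx' u]
    exact hh2 x' u
  · rw [hv3, hv2, hv1]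
  · rw [he3, he2, he1]

end Pool.Agent.Lib.MP_8d00da_gt.h42k
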