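import Pool.Agent.Lib.MP_8d00da_gt.h42k.R0

/-!
# The class inequality under linear changes of coordinates (paper 336, R.1, R.2): diagonal maps
-/

namespace Pool.Agent.Lib.MP_8d00da_gt.h42k

open MeasureTheory Set Filter
open scoped Topology NNReal ENNReal ContDiff

set_option linter.unusedSectionVars false
set_option linter.unusedVariables false

variable {ι : Type} [Fintype ι] [DecidableEq ι]

variable {κ M τ C : ℝ} {V f : (ι → ℝ) → ℝ}

theorem gM_t0' (A : Matrix ι ι ℝ) (hf : T1 f) : T0 (gM A f) := by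
  have h : gM A f = fun x => ∑ i, ∑ j, A i j * (pd i f x * pd j f x) := rfl
  rw [h]
  exact T0.sum _ fun i _ => T0.sum _ fun j _ => ((hf.pdt0 i).mul (hf.pdt0 j)).cmul (A i j)

theorem gw_t0 (w : ι → ℝ) (hf : T1 f) : T0 (gw w f) := by
  have h : gw w f = fun x => ∑ i, w i * pd i f x ^ 2 := rfl
  rw [h]
  exact T0.sum _ fun i _ => ((hf.pdt0 i).pow 2).cmul (w i)

private theorem RE1a_pd (c : ι → ℝ) (hc : ∀ i, c i ≠ 0) (hf : Differentiable ℝ f) (i : ι)
    (x : ι → ℝ) : pd i (fun x => f (dg c hc x)) x = c i * pd i f (dg c hc x) := by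
  have h := pd_comp (dg c hc : (ι → ℝ) →L[ℝ] (ι → ℝ)) hf i x
  have h2 : pd i (fun x => f (dg c hc x)) x = gd f (dg c hc x) (dg c hc (Pi.single i 1)) := h
  rw [h2]
  unfold gd
  rw [Finset.sum_eq_single i]
  · rw [dg_apply, Pi.single_eq_same, one_mul]
  · intro j _ hj
    rw [dg_apply, Pi.single_eq_of_ne hj, zero_mul, zero_mul]
  · intro hi
    exact absurd (Finset.mem_univ i) hi

private theorem RE1a_cm (H : Nice κ M V) (c : ι → ℝ) (hc : ∀ i, c i ≠ 0) (i j : ι) :
    CM (fun x => V (dg c hc x)) i j = (c i)⁻¹ * CM V i j * (c j)⁻¹ := by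
  have h := CM_comp_lin H (dg c hc) (Matrix.diagonal fun i => (c i)⁻¹) (fun x => by
    ext i
    rw [Matrix.mulVec_diagonal, dg_apply]
    field_simp [hc i])
  rw [h, Matrix.diagonal_transpose, Matrix.mul_diagonal, Matrix.diagonal_mul]

/-- R.1 for diagonal `R = diag r`: apply `W(τ,C)` to `V ∘ P`, `f ∘ P`, `P = dg (√r)`
(`(P x)_i = √(r_i) x_i`): `hs_comp`, `CM_comp_lin` (with the inverse diagonal matrix), `pd_comp`. -/
theorem WT.diag (h : WT ι τ C) (hτ : 0 < τ) (H : Nice κ M V) {r : ι → ℝ} (hr : ∀ i, 0 < r i)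
    (hV : ∀ x u, τ * ∑ i, u i ^ 2 / r i ≤ hs V x u) (hf : T1 f) :
    var V f ≤ C * ex V (fun x => gw r f x + gM (CM V) f x) := by
  have hc : ∀ i, √(r i) ≠ 0 := fun i => (Real.sqrt_pos.2 (hr i)).ne'
  have hs2 : ∀ i, √(r i) ^ 2 = r i := fun i => Real.sq_sqrt (hr i).le
  obtain ⟨κ', M', hN⟩ := H.comp_lin' (dg (fun i => √(r i)) hc)
  have hN' : Nice τ M' fun x => V (dg (fun i => √(r i)) hc x) := by
    refine ⟨hτ, hN.c2, fun x u => ?_, hN.hi⟩
    have h1 : hs (fun x => V (dg (fun i => √(r i)) hc x)) x u =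
        hs V (dg (fun i => √(r i)) hc x) (dg (fun i => √(r i)) hc u) :=
      hs_comp (dg (fun i => √(r i)) hc : (ι → ℝ) →L[ℝ] (ι → ℝ)) H.c2 x u
    rw [h1]
    refine le_trans (le_of_eq ?_) (hV _ _)
    congr 1
    unfold sq
    refine Finset.sum_congr rfl fun i _ => ?_
    rw [dg_apply, mul_pow, hs2, mul_div_assoc, div_self (hr i).ne', mul_one]
  have hd : Differentiable ℝ f := hf.c1.differentiable (by norm_num)
  have h2 := h M' _ hN' (fun x => f (dg (fun i => √(r i)) hc x))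
    (hf.comp_lin (dg (fun i => √(r i)) hc : (ι → ℝ) →L[ℝ] (ι → ℝ)))
  rw [var_comp_lin (dg (fun i => √(r i)) hc) V f] at h2
  have h3 : (fun x => gs (fun x => f (dg (fun i => √(r i)) hc x)) x +
      gM (CM fun x => V (dg (fun i => √(r i)) hc x)) (fun x => f (dg (fun i => √(r i)) hc x)) x) =
      fun x => (fun z => gw r f z + gM (CM V) f z) (dg (fun i => √(r i)) hc x) := by
    funext x
    congr 1
    · unfold gs gw
      refine Finset.sum_congr rfl fun i _ => ?_
      rw [RE1a_pd _ hc hd, mul_pow, hs2]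
    · unfold gM
      refine Finset.sum_congr rfl fun i _ => Finset.sum_congr rfl fun j _ => ?_
      rw [RE1a_pd _ hc hd, RE1a_pd _ hc hd, RE1a_cm H _ hc]
      have hi := hc i
      have hj := hc j
      field_simp
  rw [h3, ex_comp_lin (dg (fun i => √(r i)) hc) V (fun z => gw r f z + gM (CM V) f z)] at h2
  exact h2

end Pool.Agent.Lib.MP_8d00da_gt.h42k
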