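import Pool.Agent.Lib.MP_8d00da_gt.h42k.RE1a

/-!
# The class inequality under linear changes of coordinates (paper 336, R.1, R.2): rotation
-/

namespace Pool.Agent.Lib.MP_8d00da_gt.h42k

open MeasureTheory Set Filter
open scoped Topology NNReal ENNReal ContDiff

set_option linter.unusedSectionVars false
set_option linter.unusedVariables false

variable {ι : Type} [Fintype ι] [DecidableEq ι]

variable {κ M τ C : ℝ} {V f : (ι → ℝ) → ℝ}

/-- Rotation: there is an orthogonal change of coordinates after which the covariance matrix is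
diagonal (`exists_EB` for `CM V`, `ogm` with the matrix whose columns are the eigenvectors,
`CM_og`, `gs_og`, `Nice.comp_og`). -/
theorem normal_rot (H : Nice κ M V) (hf : T1 f) :
    ∃ (W g : (ι → ℝ) → ℝ) (b : ι → ℝ), Nice κ M W ∧ T1 g ∧ (∀ i, 0 ≤ b i) ∧
      (∀ i j, CM W i j = if i = j then b i else 0) ∧ var W g = var V f ∧
      ex W (fun x => gs g x + gM (CM W) g x) = ex V (fun x => gs f x + gM (CM V) f x) := by
  obtain ⟨e, lam, he⟩ := exists_EB (A := CM V) (CM_symm V)
  obtain ⟨U, hUe⟩ : ∃ U : Matrix ι ι ℝ, U = Matrix.of fun a k => e k a := ⟨_, rfl⟩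
  have hU : U * U.transpose = 1 := by
    ext a b
    rw [Matrix.mul_apply, Matrix.one_apply, ← he.orth' a b]
    refine Finset.sum_congr rfl fun k _ => ?_
    rw [hUe]
    rfl
  have hd : Differentiable ℝ f := hf.c1.differentiable (by norm_num)
  have hpd : ∀ i x, pd i (fun x => f (ogm U hU x)) x = dt (e i) fun j => pd j f (ogm U hU x) := by
    intro i x
    have h2 := pd_comp (ogm U hU : (ι → ℝ) →L[ℝ] (ι → ℝ)) hd i x
    rw [show pd i (fun x => f (ogm U hU x)) x =
      gd f (ogm U hU x) (ogm U hU (Pi.single i 1)) from h2, ogm_apply U hU (Pi.single i 1),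
      Matrix.mulVec_single_one, show U.col i = e i by rw [hUe]; rfl]
    rfl
  have hCM : ∀ i j, CM (fun x => V (ogm U hU x)) i j = if i = j then lam i else 0 := by
    intro i j
    have h1 : dt (e i) ((CM V).mulVec (e j)) = if i = j then lam i else 0 := by
      rw [he.dt_mulVec, he.orth]
      split_ifs <;> simp
    rw [CM_og H U hU, ← h1, Matrix.mul_assoc, Matrix.mul_apply, hUe]
    rfl
  refine ⟨fun x => V (ogm U hU x), fun x => f (ogm U hU x), lam, H.comp_og U hU,
    hf.comp_lin (ogm U hU : (ι → ℝ) →L[ℝ] (ι → ℝ)), fun i => he.lam_nonneg H i, hCM,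
    var_comp_lin (ogm U hU) V f, ?_⟩
  rw [← ex_comp_lin (ogm U hU) V fun x => gs f x + gM (CM V) f x]
  congr 1
  funext x
  rw [gs_og hd U hU x]
  congr 1
  have h1 := he.quad fun j => pd j f (ogm U hU x)
  have h2 : gM (CM V) f (ogm U hU x) =
      dt (fun j => pd j f (ogm U hU x)) ((CM V).mulVec fun j => pd j f (ogm U hU x)) := by
    unfold gM dt Matrix.mulVec dotProduct
    refine Finset.sum_congr rfl fun i _ => ?_
    rw [Finset.mul_sum]
    refine Finset.sum_congr rfl fun j _ => ?_
    ring
  rw [h2, h1]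
  unfold gM
  refine Finset.sum_congr rfl fun i _ => ?_
  rw [Finset.sum_eq_single i]
  · rw [hCM i i, if_pos rfl, hpd i x]
    ring
  · intro j _ hj
    rw [hCM i j, if_neg (Ne.symm hj), zero_mul]
  · intro h
    exact absurd (Finset.mem_univ i) h

end Pool.Agent.Lib.MP_8d00da_gt.h42k
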