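import Pool.Agent.Lib.MP_8d00da_gt.h42k.R0

/-!
# The generator in a diagonal metric (paper 336, R.6): integration by parts
-/

namespace Pool.Agent.Lib.MP_8d00da_gt.h42k

open MeasureTheory Set Filter
open scoped Topology NNReal ENNReal ContDiff

set_option linter.unusedSectionVars false
set_option linter.unusedVariables false

variable {ι : Type*} [Fintype ι] [DecidableEq ι]

variable {κ M : ℝ} {V f φ η : (ι → ℝ) → ℝ} {w : ι → ℝ}

theorem LW_t1 (H : Nice κ M V) (hφ : Cc φ) (w : ι → ℝ) : T1 (LW V w φ) := by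
  have h : LW V w φ = fun x => ∑ i, w i * (pd i V x * pd i φ x - pd i (pd i φ) x) := rfl
  rw [h]
  exact T1.sum _ fun i _ => T1.cmul (w i)
    (((H.pdt1 i).mul (hφ.pdc i).t1).sub ((hφ.pdc i).pdc i).t1)

theorem hw_t0 (w : ι → ℝ) (hφ : Cc φ) : T0 (hw w φ) := by
  have h : hw w φ = fun x => ∑ i, ∑ j, w i * w j * pd i (pd j φ) x ^ 2 := rfl
  rw [h]
  exact T0.sum _ fun i _ => T0.sum _ fun j _ => T0.cmul (w i * w j)
    ((((hφ.pdc j).pdc i).t1.t0).pow 2)

/-- Integration by parts (`ibp` for `f φ_i`, summed with the weights). -/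
theorem ibp_LW (H : Nice κ M V) (hf : T1 f) (hφ : Cc φ) (w : ι → ℝ) :
    ex V (fun x => f x * LW V w φ x) = ex V (fun x => ∑ i, w i * (pd i f x * pd i φ x)) := by
  have h1 : (fun x => f x * LW V w φ x) =
      fun x => ∑ i, w i * (f x * pd i φ x * pd i V x - f x * pd i (pd i φ) x) := by
    funext x
    unfold LW
    rw [Finset.mul_sum]
    refine Finset.sum_congr rfl fun i _ => ?_
    ring
  have hp : ∀ i, T1 (pd i φ) := fun i => (hφ.pdc i).t1
  have ha : ∀ i, T0 (fun x => f x * pd i φ x * pd i V x) := fun i =>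
    (hf.t0.mul (hp i).t0).mul (H.t1.pdt0 i)
  have hb : ∀ i, T0 (fun x => f x * pd i (pd i φ) x) := fun i => hf.t0.mul ((hp i).pdt0 i)
  rw [h1, ex_sum H Finset.univ fun i _ => ((ha i).sub (hb i)).cmul (w i),
    ex_sum H Finset.univ fun i _ => ((hf.pdt0 i).mul (hp i).t0).cmul (w i)]
  refine Finset.sum_congr rfl fun i _ => ?_
  rw [ex_cmul, ex_cmul, ex_sub H (ha i) (hb i)]
  have h2 := ibp_mul H hf (hp i) i
  rw [h2]
  ring

theorem ex_LW (H : Nice κ M V) (hφ : Cc φ) (w : ι → ℝ) : ex V (LW V w φ) = 0 := by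
  have h1 := ibp_LW H (T1.const (1 : ℝ)) hφ w
  have h2 : (fun x => (1 : ℝ) * LW V w φ x) = LW V w φ := by
    funext x
    rw [one_mul]
  have h3 : (fun x => ∑ i, w i * (pd i (fun _ : ι → ℝ => (1 : ℝ)) x * pd i φ x)) = fun _ => 0 := by
    funext x
    refine Finset.sum_eq_zero fun i _ => ?_
    rw [pd_const, zero_mul, mul_zero]
  rw [h2, h3, ex_const H] at h1
  exact h1

end Pool.Agent.Lib.MP_8d00da_gt.h42k
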