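import Pool.Agent.Lib.MP_8d00da_gt.h42k.RF1a

/-!
# The generator in a diagonal metric (paper 336, R.6): Poisson density
-/

namespace Pool.Agent.Lib.MP_8d00da_gt.h42k

open MeasureTheory Set Filter
open scoped Topology NNReal ENNReal ContDiff

set_option linter.unusedSectionVars false
set_option linter.unusedVariables false

variable {ι : Type*} [Fintype ι] [DecidableEq ι]

variable {κ M : ℝ} {V f φ η : (ι → ℝ) → ℝ} {w : ι → ℝ}

private theorem RF1b_pd (c : ι → ℝ) (hc : ∀ i, c i ≠ 0) (hf : Differentiable ℝ f) (i : ι)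
    (x : ι → ℝ) : pd i (fun x => f (dg c hc x)) x = c i * pd i f (dg c hc x) := by
  have h := pd_comp (dg c hc : (ι → ℝ) →L[ℝ] (ι → ℝ)) hf i x
  have h2 : (dg c hc : (ι → ℝ) →L[ℝ] (ι → ℝ)) (Pi.single i 1) = c i • Pi.single i 1 := by
    funext j
    show dg c hc (Pi.single i 1) j = _
    rw [dg_apply, Pi.smul_apply, smul_eq_mul]
    rcases eq_or_ne j i with rfl | hji
    · rw [Pi.single_eq_same]
      ring
    · rw [Pi.single_eq_of_ne hji]
      ring
  rw [h2] at h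
  have h3 : gd f (dg c hc x) (c i • (Pi.single i 1 : ι → ℝ)) = c i * pd i f (dg c hc x) := by
    unfold gd
    rw [Finset.sum_eq_single i]
    · rw [Pi.smul_apply, Pi.single_eq_same, smul_eq_mul, mul_one]
    · intro j _ hj
      rw [Pi.smul_apply, Pi.single_eq_of_ne hj, smul_zero, zero_mul]
    · intro hi
      exact absurd (Finset.mem_univ i) hi
  exact h.trans h3

private theorem RF1b_pdd (hf : Cc f) (i : ι) : Differentiable ℝ (pd i f) := by
  have h1 : ContDiff ℝ ((1 + 1 : ℕ) : WithTop ℕ∞) f := hf.smooth.of_le (by norm_cast)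
  have := contDiff_pd h1 i
  exact this.differentiable (by norm_num)

private theorem RF1b_cc (P : (ι → ℝ) ≃L[ℝ] (ι → ℝ)) (hf : Cc f) : Cc fun x => f (P x) := by
  refine ⟨hf.smooth.comp P.contDiff, ?_⟩
  exact hf.supp.comp_homeomorph P.toHomeomorph

/-- Poisson density in the metric `w`: `PD_seq` (or `poisson_density`) for `V ∘ P`, `h ∘ P`,
`P = dg (√w)`; if `ψ ∈ Cc` is the function obtained, take `φ = ψ ∘ P⁻¹`:
`(LW V w φ) ∘ P = LL (V ∘ P) ψ`. -/
theorem PD_LW (H : Nice κ M V) (hw0 : ∀ i, 0 < w i) {h : (ι → ℝ) → ℝ} (hh : T0 h)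
    (h0 : ex V h = 0) {ε : ℝ} (hε : 0 < ε) :
    ∃ φ, Cc φ ∧ ex V (fun x => (LW V w φ x - h x) ^ 2) ≤ ε := by
  obtain ⟨c, hcd⟩ : ∃ c : ι → ℝ, c = fun i => √(w i) := ⟨_, rfl⟩
  have hc0 : ∀ i, c i ≠ 0 := fun i => by
    rw [hcd]
    exact (Real.sqrt_pos.2 (hw0 i)).ne'
  have hcc : ∀ i, c i * c i = w i := fun i => by
    rw [hcd]
    exact Real.mul_self_sqrt (hw0 i).le
  obtain ⟨κ', M', H'⟩ := H.comp_lin' (dg c hc0)
  have hh' : T0 fun x => h (dg c hc0 x) := hh.comp_lin (dg c hc0 : (ι → ℝ) →L[ℝ] (ι → ℝ))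
  have h0' : ex (fun x => V (dg c hc0 x)) (fun x => h (dg c hc0 x)) = 0 := by
    rw [ex_comp_lin (dg c hc0) V h]
    exact h0
  obtain ⟨ψ, hψ, hlim, -, -⟩ := PD_seq H' hh' h0'
  have hev := hlim.eventually (gt_mem_nhds hε)
  obtain ⟨k, hk⟩ := hev.exists
  have hφ : Cc fun x => ψ k ((dg c hc0).symm x) := RF1b_cc (dg c hc0).symm (hψ k)
  refine ⟨fun x => ψ k ((dg c hc0).symm x), hφ, ?_⟩
  obtain ⟨φ, hφd⟩ : ∃ φ : (ι → ℝ) → ℝ, φ = fun x => ψ k ((dg c hc0).symm x) := ⟨_, rfl⟩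
  rw [← hφd] at hφ ⊢
  have hψφ : ψ k = fun x => φ (dg c hc0 x) := by
    funext x
    rw [hφd]
    simp only [ContinuousLinearEquiv.symm_apply_apply]
  have hVd : Differentiable ℝ V := H.c2.differentiable (by norm_num)
  have hφ1 : Differentiable ℝ φ := hφ.smooth.differentiable (by simp)
  have hLL : ∀ x, LL (fun x => V (dg c hc0 x)) (ψ k) x = LW V w φ (dg c hc0 x) := by
    intro x
    unfold LL LW
    refine Finset.sum_congr rfl fun i _ => ?_
    have e1 : pd i (ψ k) = fun x => c i * pd i φ (dg c hc0 x) := by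
      rw [hψφ]
      funext x
      exact RF1b_pd c hc0 hφ1 i x
    have hd2 : Differentiable ℝ fun x => pd i φ (dg c hc0 x) :=
      (RF1b_pdd hφ i).comp (dg c hc0).differentiable
    rw [e1, pd_cmul hd2, RF1b_pd c hc0 hVd, RF1b_pd c hc0 (RF1b_pdd hφ i), ← hcc i]
    ring
  have h3 := ex_comp_lin (dg c hc0) V (fun x => (LW V w φ x - h x) ^ 2)
  rw [← h3]
  refine le_of_eq_of_le ?_ hk.le
  congr 1
  funext x
  rw [hLL]

end Pool.Agent.Lib.MP_8d00da_gt.h42k
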