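import Pool.Agent.Lib.MP_8d00da_gt.h42k.RF1a

/-!
# The generator in a diagonal metric (paper 336, R.6): weighted Bochner identity
-/

namespace Pool.Agent.Lib.MP_8d00da_gt.h42k

open MeasureTheory Set Filter
open scoped Topology NNReal ENNReal ContDiff

set_option linter.unusedSectionVars false
set_option linter.unusedVariables false

variable {ι : Type*} [Fintype ι] [DecidableEq ι]

variable {κ M : ℝ} {V f φ η : (ι → ℝ) → ℝ} {w : ι → ℝ}

private theorem RF1c_diff (hφ : Cc φ) : Differentiable ℝ φ :=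
  hφ.t1.c1.differentiable (by norm_num)

private theorem RF1c_comm (hφ : Cc φ) (i j : ι) : pd i (pd j φ) = pd j (pd i φ) := by
  funext x
  have h : ContDiff ℝ 2 φ := by exact_mod_cast contDiff_infty.1 hφ.smooth 2
  exact pd_comm h i j x

private theorem RF1c_pdLW (H : Nice κ M V) (hφ : Cc φ) (w : ι → ℝ) (i : ι) (x : ι → ℝ) :
    pd i (LW V w φ) x = LW V w (pd i φ) x + ∑ j, w j * (pd i (pd j V) x * pd j φ x) := by
  have hV : ∀ j, Differentiable ℝ (pd j V) := fun j => (H.pdt1 j).c1.differentiable (by norm_num)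
  have h1 : ∀ j, Differentiable ℝ (pd j φ) := fun j => RF1c_diff (hφ.pdc j)
  have h2 : ∀ j, Differentiable ℝ (pd j (pd j φ)) := fun j => RF1c_diff ((hφ.pdc j).pdc j)
  have h3 : ∀ j, Differentiable ℝ (fun x => pd j V x * pd j φ x - pd j (pd j φ) x) := fun j =>
    ((hV j).fun_mul (h1 j)).fun_sub (h2 j)
  have e1 : pd i (LW V w φ) x =
      pd i (fun x => ∑ j, w j * (pd j V x * pd j φ x - pd j (pd j φ) x)) x := rfl
  rw [e1, pd_sum Finset.univ (F := fun j x => w j * (pd j V x * pd j φ x - pd j (pd j φ) x))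
    (fun j _ => (h3 j).const_mul (w j))]
  unfold LW
  rw [← Finset.sum_add_distrib]
  refine Finset.sum_congr rfl fun j _ => ?_
  rw [pd_cmul (h3 j), pd_sub (f := fun x => pd j V x * pd j φ x) (g := pd j (pd j φ))
    ((hV j).fun_mul (h1 j)) (h2 j), pd_mul (hV j) (h1 j), RF1c_comm (hφ.pdc j) i j,
    RF1c_comm hφ i j]
  ring

private theorem RF1c_hst0 (H : Nice κ M V) (hφ : Cc φ) (w : ι → ℝ) :
    T0 (fun x => hs V x (fun i => w i * pd i φ x)) := by
  unfold hs
  exact T0.sum _ fun i _ => T0.sum _ fun j _ =>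
    ((((hφ.pdc i).t1.t0).cmul (w i)).mul (((hφ.pdc j).t1.t0).cmul (w j))).mul ((H.pdt1 j).pdt0 i)

/-- The weighted Bochner identity in the metric `w`: expand
`E η (LW φ)² = E ∑ w_i ∂_i(η LW φ) φ_i` (`ibp_LW`),
`∂_i LW φ = LW φ_i + ∑_j w_j V_ij φ_j`, and `E (η w_i φ_i) LW φ_i = E ∑_j w_i w_j ∂_j(η φ_i) φ_ij`
(`ibp_LW` again; `η φ_i` is `T1`). -/
theorem bochner_LW (H : Nice κ M V) (hφ : Cc φ) (hη : T1 η) (w : ι → ℝ) :
    ex V (fun x => η x * LW V w φ x ^ 2) =
      ex V (fun x => η x * (hw w φ x + hs V x (fun i => w i * pd i φ x))) +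
      ex V (fun x => LW V w φ x * ∑ i, w i * (pd i η x * pd i φ x)) +
      ex V (fun x => ∑ i, ∑ j, w i * w j * (pd j η x * pd i φ x * pd j (pd i φ) x)) := by
  have hLt : T1 (LW V w φ) := LW_t1 H hφ w
  have hp : ∀ i, T1 (pd i φ) := fun i => (hφ.pdc i).t1
  have hηd : Differentiable ℝ η := hη.c1.differentiable (by norm_num)
  have hLd : Differentiable ℝ (LW V w φ) := hLt.c1.differentiable (by norm_num)
  have hLi : ∀ i, T1 (LW V w (pd i φ)) := fun i => LW_t1 H (hφ.pdc i) w
  -- first integration by parts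
  have h1 : ex V (fun x => η x * LW V w φ x ^ 2) =
      ex V (fun x => (η x * LW V w φ x) * LW V w φ x) := by
    congr 1
    funext x
    ring
  have h2 := ibp_LW H (hη.mul hLt) hφ w
  have h3 : (fun x => ∑ i, w i * (pd i (fun x => η x * LW V w φ x) x * pd i φ x)) =
      fun x => (LW V w φ x * ∑ i, w i * (pd i η x * pd i φ x)) +
        ((∑ i, w i * (η x * pd i φ x * LW V w (pd i φ) x)) +
          η x * hs V x (fun i => w i * pd i φ x)) := by
    funext x
    have e1 : ∀ i, w i * (pd i (fun x => η x * LW V w φ x) x * pd i φ x) =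
        LW V w φ x * (w i * (pd i η x * pd i φ x)) +
          (w i * (η x * pd i φ x * LW V w (pd i φ) x) +
            η x * ∑ j, (w i * pd i φ x) * (w j * pd j φ x) * pd i (pd j V) x) := by
      intro i
      have e3 : ∑ j, (w i * pd i φ x) * (w j * pd j φ x) * pd i (pd j V) x =
          (w i * pd i φ x) * ∑ j, w j * (pd i (pd j V) x * pd j φ x) := by
        rw [Finset.mul_sum]
        refine Finset.sum_congr rfl fun j _ => ?_
        ring
      rw [pd_mul hηd hLd, RF1c_pdLW H hφ w i x, e3]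
      ring
    unfold hs
    rw [Finset.mul_sum, Finset.mul_sum, ← Finset.sum_add_distrib, ← Finset.sum_add_distrib]
    exact Finset.sum_congr rfl fun i _ => e1 i
  have tA : T0 (fun x => LW V w φ x * ∑ i, w i * (pd i η x * pd i φ x)) :=
    hLt.t0.mul (T0.sum _ fun i _ => ((hη.pdt0 i).mul (hp i).t0).cmul (w i))
  have tB : ∀ i, T0 (fun x => η x * pd i φ x * LW V w (pd i φ) x) := fun i =>
    (hη.t0.mul (hp i).t0).mul (hLi i).t0
  have tB' : T0 (fun x => ∑ i, w i * (η x * pd i φ x * LW V w (pd i φ) x)) :=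
    T0.sum _ fun i _ => (tB i).cmul (w i)
  have tC : T0 (fun x => η x * hs V x (fun i => w i * pd i φ x)) := hη.t0.mul (RF1c_hst0 H hφ w)
  have tD : T0 (fun x => η x * hw w φ x) := hη.t0.mul (hw_t0 w hφ)
  have tE : T0 (fun x => ∑ i, ∑ j, w i * w j * (pd j η x * pd i φ x * pd j (pd i φ) x)) :=
    T0.sum _ fun i _ => T0.sum _ fun j _ =>
      (((hη.pdt0 j).mul (hp i).t0).mul ((hp i).pdt0 j)).cmul (w i * w j)
  rw [h1, h2, h3, ex_add H tA (tB'.add tC), ex_add H tB' tC]
  -- second integration by parts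
  have h4 : ex V (fun x => ∑ i, w i * (η x * pd i φ x * LW V w (pd i φ) x)) =
      ex V (fun x => η x * hw w φ x) +
        ex V (fun x => ∑ i, ∑ j, w i * w j * (pd j η x * pd i φ x * pd j (pd i φ) x)) := by
    rw [ex_sum H _ fun i _ => (tB i).cmul (w i), ← ex_add H tD tE]
    have h5 : (fun x => η x * hw w φ x +
        ∑ i, ∑ j, w i * w j * (pd j η x * pd i φ x * pd j (pd i φ) x)) =
        fun x => ∑ i, w i * ∑ j, w j * (pd j (fun x => η x * pd i φ x) x * pd j (pd i φ) x) := by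
      funext x
      have e1 : hw w φ x = ∑ i, ∑ j, w i * w j * pd j (pd i φ) x ^ 2 := by
        unfold hw
        refine Finset.sum_congr rfl fun i _ => Finset.sum_congr rfl fun j _ => ?_
        rw [RF1c_comm hφ i j]
      rw [e1, Finset.mul_sum, ← Finset.sum_add_distrib]
      refine Finset.sum_congr rfl fun i _ => ?_
      rw [Finset.mul_sum, Finset.mul_sum, ← Finset.sum_add_distrib]
      refine Finset.sum_congr rfl fun j _ => ?_
      rw [pd_mul hηd ((hp i).c1.differentiable (by norm_num))]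
      ring
    have tF : ∀ i, T0 (fun x => ∑ j, w j * (pd j (fun x => η x * pd i φ x) x * pd j (pd i φ) x)) :=
      fun i => T0.sum _ fun j _ =>
        (((hη.mul (hp i)).pdt0 j).mul ((hp i).pdt0 j)).cmul (w j)
    rw [h5, ex_sum H _ fun i _ => (tF i).cmul (w i)]
    refine Finset.sum_congr rfl fun i _ => ?_
    rw [ex_cmul, ex_cmul, ibp_LW H (hη.mul (hp i)) (hφ.pdc i) w]
  have h6 : ex V (fun x => η x * (hw w φ x + hs V x (fun i => w i * pd i φ x))) =
      ex V (fun x => η x * hw w φ x) + ex V (fun x => η x * hs V x (fun i => w i * pd i φ x)) := by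
    rw [← ex_add H tD tC]
    congr 1
    funext x
    ring
  rw [h4, h6]
  ring

/-- `η = 1`: `E hw ≤ E (LW φ)²` for `w ≥ 0`... (only `hs V ≥ 0` is used). -/
theorem bochner_LW_le (H : Nice κ M V) (hφ : Cc φ) (w : ι → ℝ) :
    ex V (hw w φ) ≤ ex V (fun x => LW V w φ x ^ 2) := by
  have h := bochner_LW H hφ (T1.const (1 : ℝ)) w
  have e1 : (fun x => (1 : ℝ) * LW V w φ x ^ 2) = fun x => LW V w φ x ^ 2 := by
    funext x
    rw [one_mul]
  have e2 : (fun x => LW V w φ x * ∑ i, w i * (pd i (fun _ : ι → ℝ => (1 : ℝ)) x * pd i φ x)) =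
      fun _ => 0 := by
    funext x
    rw [Finset.sum_eq_zero fun i _ => by rw [pd_const, zero_mul, mul_zero], mul_zero]
  have e3 : (fun x => ∑ i, ∑ j, w i * w j *
      (pd j (fun _ : ι → ℝ => (1 : ℝ)) x * pd i φ x * pd j (pd i φ) x)) = fun _ => 0 := by
    funext x
    refine Finset.sum_eq_zero fun i _ => Finset.sum_eq_zero fun j _ => ?_
    rw [pd_const, zero_mul, zero_mul, mul_zero]
  have e4 : (fun x => (1 : ℝ) * (hw w φ x + hs V x (fun i => w i * pd i φ x))) =
      fun x => hw w φ x + hs V x (fun i => w i * pd i φ x) := by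
    funext x
    rw [one_mul]
  rw [e1, e2, e3, e4, ex_const H, add_zero, add_zero, ex_add H (hw_t0 w hφ) (RF1c_hst0 H hφ w)] at h
  rw [h]
  have h7 : 0 ≤ ex V (fun x => hs V x (fun i => w i * pd i φ x)) :=
    ex_nonneg V fun x => (mul_nonneg H.kpos.le (sq_nn _)).trans (H.lo x _)
  linarith

end Pool.Agent.Lib.MP_8d00da_gt.h42k
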