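import Pool.Agent.Lib.MP_8d00da_gt.h42k.RF1c

/-!
# The generator in a diagonal metric (paper 336, R.6): weighted second derivatives
-/

namespace Pool.Agent.Lib.MP_8d00da_gt.h42k

open MeasureTheory Set Filter
open scoped Topology NNReal ENNReal ContDiff

set_option linter.unusedSectionVars false
set_option linter.unusedVariables false

variable {ι : Type*} [Fintype ι] [DecidableEq ι]

variable {κ M : ℝ} {V f φ η : (ι → ℝ) → ℝ} {w : ι → ℝ}

/-- With a weight `0 ≤ η` with `|∇η|² ≤ b` and `0 < w ≤ σ`: the two last terms of `bochner_LW` are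
at most `√(σ b) √(E (LW φ)²) √(E gw w φ)` and `√(σ b) √(E hw) √(E gw w φ)` in absolute value
(Cauchy-Schwarz; `(∑ w_i η_i φ_i)² ≤ (∑ w_i η_i²) (∑ w_i φ_i²) ≤ σ b gw`,
`(∑∑ w_i w_j η_j φ_i φ_ij)² ≤ (∑∑ w_i w_j η_j² φ_i²) (∑∑ w_i w_j φ_ij²) ≤ σ b gw hw`), and
`E hw ≤ E (LW φ)²` (`bochner_LW_le`). -/
theorem weighted_hw (H : Nice κ M V) (hφ : Cc φ) (hη : T1 η) (hη0 : ∀ x, 0 ≤ η x) {b σ : ℝ}
    (hb : ∀ x, gs η x ≤ b) (hσ : 0 ≤ σ) (hw0 : ∀ i, 0 ≤ w i) (hw1 : ∀ i, w i ≤ σ) :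
    ex V (fun x => η x * hw w φ x) ≤ ex V (fun x => η x * LW V w φ x ^ 2) +
      2 * √(σ * b) * √(ex V (fun x => LW V w φ x ^ 2)) * √(ex V (gw w φ)) := by
  have hL : T0 (LW V w φ) := (LW_t1 H hφ w).t0
  have hh : T0 (hw w φ) := hw_t0 w hφ
  have hpd : ∀ i, T0 (pd i φ) := fun i => (hφ.pdc i).t1.t0
  have hgw : T0 (gw w φ) := T0.sum _ fun i _ => ((hpd i).pow 2).cmul (w i)
  have hb0 : 0 ≤ b := (Finset.sum_nonneg fun i _ => _root_.sq_nonneg _).trans (hb 0)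
  have hsb : 0 ≤ σ * b := mul_nonneg hσ hb0
  have hS2 : T0 (fun x => ∑ i, ∑ j, w i * w j * (pd j η x * pd i φ x * pd j (pd i φ) x)) :=
    T0.sum _ fun i _ => T0.sum _ fun j _ =>
      (((hη.pdt0 j).mul (hpd i)).mul ((hφ.pdc i).pdc j).t1.t0).cmul (w i * w j)
  have hS1 : T0 (fun x => ∑ i, w i * (pd i η x * pd i φ x)) :=
    T0.sum _ fun i _ => ((hη.pdt0 i).mul (hpd i)).cmul (w i)
  have hhs : T0 (fun x => hs V x (fun i => w i * pd i φ x)) :=
    T0.sum _ fun i _ => T0.sum _ fun j _ =>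
      (((hpd i).cmul (w i)).mul ((hpd j).cmul (w j))).mul ((H.pdt1 j).pdt0 i)
  have hgn : ∀ x, 0 ≤ gw w φ x := fun x =>
    Finset.sum_nonneg fun i _ => mul_nonneg (hw0 i) (_root_.sq_nonneg _)
  have hhn : ∀ x, 0 ≤ hw w φ x := fun x => Finset.sum_nonneg fun i _ =>
    Finset.sum_nonneg fun j _ => mul_nonneg (mul_nonneg (hw0 i) (hw0 j)) (_root_.sq_nonneg _)
  have hE : ∀ x, ∑ i, w i * pd i η x ^ 2 ≤ σ * b := fun x => by
    calc ∑ i, w i * pd i η x ^ 2 ≤ ∑ i, σ * pd i η x ^ 2 :=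
          Finset.sum_le_sum fun i _ => mul_le_mul_of_nonneg_right (hw1 i) (_root_.sq_nonneg _)
      _ = σ * gs η x := by rw [← Finset.mul_sum]; rfl
      _ ≤ σ * b := mul_le_mul_of_nonneg_left (hb x) hσ
  have hE0 : ∀ x, 0 ≤ ∑ i, w i * pd i η x ^ 2 := fun x =>
    Finset.sum_nonneg fun i _ => mul_nonneg (hw0 i) (_root_.sq_nonneg _)
  have k1 : ex V (fun x => LW V w φ x * ∑ i, w i * (pd i η x * pd i φ x)) ^ 2 ≤
      ex V (fun x => LW V w φ x ^ 2) * ex V (fun x => σ * b * gw w φ x) := by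
    refine ex_cs_pt H (hL.mul hS1) (hL.pow 2) (hgw.cmul _) (fun x => _root_.sq_nonneg _)
      (fun x => mul_nonneg hsb (hgn x)) fun x => ?_
    rw [mul_pow]
    refine mul_le_mul_of_nonneg_left ?_ (_root_.sq_nonneg _)
    have h1 := Finset.sum_sq_le_sum_mul_sum_of_sq_eq_mul (Finset.univ : Finset ι)
      (r := fun i => w i * (pd i η x * pd i φ x)) (f := fun i => w i * pd i η x ^ 2)
      (g := fun i => w i * pd i φ x ^ 2)
      (fun i _ => mul_nonneg (hw0 i) (_root_.sq_nonneg _))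
      (fun i _ => mul_nonneg (hw0 i) (_root_.sq_nonneg _)) (fun i _ => by ring)
    exact h1.trans (mul_le_mul_of_nonneg_right (hE x) (hgn x))
  have k2 : ex V (fun x => ∑ i, ∑ j, w i * w j * (pd j η x * pd i φ x * pd j (pd i φ) x)) ^ 2 ≤
      ex V (fun x => σ * b * gw w φ x) * ex V (hw w φ) := by
    refine ex_cs_pt H hS2 (hgw.cmul _) hh (fun x => mul_nonneg hsb (hgn x)) hhn fun x => ?_
    have h1 := Finset.sum_sq_le_sum_mul_sum_of_sq_eq_mul
      ((Finset.univ : Finset ι) ×ˢ (Finset.univ : Finset ι))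
      (r := fun q => w q.1 * w q.2 * (pd q.2 η x * pd q.1 φ x * pd q.2 (pd q.1 φ) x))
      (f := fun q => (w q.1 * pd q.1 φ x ^ 2) * (w q.2 * pd q.2 η x ^ 2))
      (g := fun q => w q.1 * w q.2 * pd q.2 (pd q.1 φ) x ^ 2)
      (fun q _ => mul_nonneg (mul_nonneg (hw0 _) (_root_.sq_nonneg _))
        (mul_nonneg (hw0 _) (_root_.sq_nonneg _)))
      (fun q _ => mul_nonneg (mul_nonneg (hw0 _) (hw0 _)) (_root_.sq_nonneg _))
      (fun q _ => by ring)
    rw [Finset.sum_product, Finset.sum_product, Finset.sum_product] at h1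
    have h2 : ∑ i, ∑ j, (w i * pd i φ x ^ 2) * (w j * pd j η x ^ 2) =
        gw w φ x * ∑ j, w j * pd j η x ^ 2 := by
      unfold gw
      rw [Finset.sum_mul_sum]
    have h3 : ∑ i, ∑ j, w i * w j * pd j (pd i φ) x ^ 2 = hw w φ x := by
      unfold hw
      rw [Finset.sum_comm]
      refine Finset.sum_congr rfl fun i _ => Finset.sum_congr rfl fun j _ => by ring
    simp only at h1
    rw [h2, h3] at h1
    refine h1.trans (mul_le_mul_of_nonneg_right ?_ (hhn x))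
    calc gw w φ x * ∑ j, w j * pd j η x ^ 2 ≤ gw w φ x * (σ * b) :=
          mul_le_mul_of_nonneg_left (hE x) (hgn x)
      _ = σ * b * gw w φ x := by ring
  rw [ex_cmul] at k1 k2
  have hA : 0 ≤ ex V (fun x => LW V w φ x ^ 2) := ex_nonneg V fun x => _root_.sq_nonneg _
  have hG : 0 ≤ ex V (gw w φ) := ex_nonneg V hgn
  have hsbG : 0 ≤ σ * b * ex V (gw w φ) := mul_nonneg hsb hG
  have k3 : ex V (fun x => ∑ i, ∑ j, w i * w j * (pd j η x * pd i φ x * pd j (pd i φ) x)) ^ 2 ≤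
      ex V (fun x => LW V w φ x ^ 2) * (σ * b * ex V (gw w φ)) := by
    refine k2.trans ?_
    rw [mul_comm]
    exact mul_le_mul_of_nonneg_right (bochner_LW_le H hφ w) hsbG
  have hR : √(σ * b) * √(ex V (fun x => LW V w φ x ^ 2)) * √(ex V (gw w φ)) =
      √(ex V (fun x => LW V w φ x ^ 2) * (σ * b * ex V (gw w φ))) := by
    rw [Real.sqrt_mul hA, Real.sqrt_mul hsb]
    ring
  have m1 := Real.abs_le_sqrt k1
  have m2 := Real.abs_le_sqrt k3
  have m3 := neg_abs_le (ex V (fun x => LW V w φ x * ∑ i, w i * (pd i η x * pd i φ x)))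
  have m4 := neg_abs_le
    (ex V (fun x => ∑ i, ∑ j, w i * w j * (pd j η x * pd i φ x * pd j (pd i φ) x)))
  have m5 : ex V (fun x => η x * hw w φ x) ≤
      ex V (fun x => η x * (hw w φ x + hs V x (fun i => w i * pd i φ x))) := by
    refine ex_mono H (hη.t0.mul hh) (hη.t0.mul (hh.add hhs)) fun x => ?_
    refine mul_le_mul_of_nonneg_left ?_ (hη0 x)
    have h1 := H.lo x (fun i => w i * pd i φ x)
    have h2 := mul_nonneg H.kpos.le (sq_nn (fun i => w i * pd i φ x))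
    linarith
  have hB := bochner_LW H hφ hη w
  have e1 : 2 * √(σ * b) * √(ex V (fun x => LW V w φ x ^ 2)) * √(ex V (gw w φ)) =
      2 * √(ex V (fun x => LW V w φ x ^ 2) * (σ * b * ex V (gw w φ))) := by
    rw [← hR]; ring
  rw [e1]
  linarith

end Pool.Agent.Lib.MP_8d00da_gt.h42k
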