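import Pool.Agent.Lib.MP_8d00da_gt.h42k.R0

/-!
# The weight and the radial bound (paper 336, R.7): the weight
-/

namespace Pool.Agent.Lib.MP_8d00da_gt.h42k

open MeasureTheory Set Filter
open scoped Topology NNReal ENNReal ContDiff

set_option linter.unusedSectionVars false
set_option linter.unusedVariables false

variable {ι : Type*} [Fintype ι] [DecidableEq ι]

variable {κ M : ℝ} {V f g : (ι → ℝ) → ℝ} {s : ℝ}

theorem RF2a_pos (hs : 0 ≤ s) (x : ι → ℝ) : 0 < 1 + s * sq x := by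
  have := mul_nonneg hs (sq_nn x)
  linarith

theorem eta_nonneg (hs : 0 ≤ s) (x : ι → ℝ) : 0 ≤ eta s x := by
  have h := mul_nonneg hs (sq_nn x)
  exact div_nonneg h (RF2a_pos hs x).le

theorem eta_le_one (hs : 0 ≤ s) (x : ι → ℝ) : eta s x ≤ 1 := by
  unfold eta
  rw [div_le_one (RF2a_pos hs x)]
  linarith

theorem eta_le (hs : 0 ≤ s) (x : ι → ℝ) : eta s x ≤ s * sq x := by
  have h := mul_nonneg hs (sq_nn x)
  exact div_le_self h (by linarith)

theorem RF2a_contDiff (hs : 0 ≤ s) : ContDiff ℝ 1 (eta s : (ι → ℝ) → ℝ) := by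
  unfold eta
  exact (contDiff_const.mul contDiff_sq).div (contDiff_const.add (contDiff_const.mul contDiff_sq))
    fun x => (RF2a_pos hs x).ne'

theorem RF2a_pd (hs : 0 ≤ s) (i : ι) (x : ι → ℝ) :
    pd i (eta s) x = 2 * s * x i / (1 + s * sq x) ^ 2 := by
  have hsq : Differentiable ℝ (sq : (ι → ℝ) → ℝ) :=
    (contDiff_sq (n := 1)).differentiable one_ne_zero
  have h1 : HasFDerivAt (sq : (ι → ℝ) → ℝ) (fderiv ℝ sq x) x := (hsq x).hasFDerivAt
  have hp := (RF2a_pos hs x).ne'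
  have h2 : HasDerivAt (fun r : ℝ => s * r / (1 + s * r)) (s / (1 + s * sq x) ^ 2) (sq x) := by
    have h3 : HasDerivAt (fun r : ℝ => s * r) s (sq x) := by
      simpa using (hasDerivAt_id (sq x)).const_mul s
    have h4 : HasDerivAt (fun r : ℝ => 1 + s * r) s (sq x) := h3.const_add 1
    have h5 := h3.div h4 hp
    have h5' : (s * (1 + s * sq x) - s * sq x * s) / (1 + s * sq x) ^ 2 =
        s / (1 + s * sq x) ^ 2 := by ring
    rw [h5'] at h5
    exact h5
  have h6 := h2.comp_hasFDerivAt x h1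
  have h7 : fderiv ℝ (eta s : (ι → ℝ) → ℝ) x = (s / (1 + s * sq x) ^ 2) • fderiv ℝ sq x :=
    h6.fderiv
  have h8 : fderiv ℝ (sq : (ι → ℝ) → ℝ) x (Pi.single i 1) = 2 * x i := pd_sq i x
  unfold pd
  rw [h7, smul_apply, h8, smul_eq_mul]
  ring

/-- `∂_i η = 2 s x_i / (1 + s|x|²)²`. -/
theorem eta_t1 (hs : 0 ≤ s) : T1 (eta s : (ι → ℝ) → ℝ) := by
  refine ⟨RF2a_contDiff hs, ?_, fun i => ?_⟩
  · refine (PG.const (ι := ι) 1).mono fun x => ?_
    rw [abs_of_nonneg (eta_nonneg hs x), abs_one]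
    exact eta_le_one hs x
  · refine ((PG.const (ι := ι) (2 * s)).mul (PG.coord i)).mono fun x => ?_
    rw [RF2a_pd hs i x, abs_div]
    refine div_le_self (abs_nonneg _) ?_
    have h := mul_nonneg hs (sq_nn x)
    rw [abs_of_nonneg (by positivity)]
    nlinarith

/-- `|∇η|² = 4 s² |x|² / (1+s|x|²)⁴ ≤ s`. -/
theorem eta_gs (hs : 0 ≤ s) (x : ι → ℝ) : gs (eta s) x ≤ s := by
  have h := mul_nonneg hs (sq_nn x)
  have hp := RF2a_pos hs x
  have h1 : gs (eta s) x = 4 * s * (s * sq x) / (1 + s * sq x) ^ 4 := by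
    unfold gs
    have h2 : ∀ i, pd i (eta s) x ^ 2 = 4 * s ^ 2 / (1 + s * sq x) ^ 4 * x i ^ 2 := by
      intro i
      rw [RF2a_pd hs i x, div_pow]
      ring
    rw [Finset.sum_congr rfl fun i _ => h2 i, ← Finset.mul_sum]
    have h3 : ∑ i, x i ^ 2 = sq x := rfl
    rw [h3]
    ring
  rw [h1, div_le_iff₀ (by positivity)]
  set t := s * sq x with ht
  have h4 : 4 * t ≤ (1 + t) ^ 2 := by nlinarith [sq_nonneg (1 - t)]
  have h5 : (1 + t) ^ 2 ≤ (1 + t) ^ 4 := pow_le_pow_right₀ (by linarith) (by norm_num)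
  nlinarith [mul_le_mul_of_nonneg_left (h4.trans h5) hs]

/-- `min(1, s|x|) ≤ √s + 2 η_s(x)`: if `s|x|² ≤ 1`, then `s|x| ≤ √s`, otherwise `2 η ≥ 1`. -/
theorem min_le_eta (hs : 0 ≤ s) (x : ι → ℝ) : min 1 (s * √(sq x)) ≤ √s + 2 * eta s x := by
  have h := mul_nonneg hs (sq_nn x)
  have he := eta_nonneg hs x
  rcases le_total (s * sq x) 1 with h1 | h1
  · have h2 : s * √(sq x) ≤ √s := by
      have h3 : s * √(sq x) = √s * √(s * sq x) := by
        rw [Real.sqrt_mul hs, ← mul_assoc, Real.mul_self_sqrt hs]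
      rw [h3]
      have h4 : √(s * sq x) ≤ 1 := Real.sqrt_le_iff.mpr ⟨zero_le_one, by linarith⟩
      exact mul_le_of_le_one_right (Real.sqrt_nonneg _) h4
    exact (min_le_right _ _).trans (by linarith)
  · have h2 : (1 : ℝ) / 2 ≤ eta s x := by
      unfold eta
      rw [le_div_iff₀ (RF2a_pos hs x)]
      linarith
    exact (min_le_left _ _).trans (by linarith [Real.sqrt_nonneg s])

end Pool.Agent.Lib.MP_8d00da_gt.h42k
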