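import Pool.Agent.Lib.MP_8d00da_gt.h42k.R0
import Pool.Agent.Lib.MP_8d00da_gt.h42k.S6b

/-!
# The weight and the radial bound (paper 336, R.7): radial bound
-/

namespace Pool.Agent.Lib.MP_8d00da_gt.h42k

open MeasureTheory Set Filter
open scoped Topology NNReal ENNReal ContDiff

set_option linter.unusedSectionVars false
set_option linter.unusedVariables false

variable {ι : Type*} [Fintype ι] [DecidableEq ι]

variable {κ M : ℝ} {V f g : (ι → ℝ) → ℝ} {s : ℝ}

/-- A `C²` function with `D²V ≥ κ` has a minimum point (`Nice.lower` at `0`: coercive). -/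
theorem exists_min (H : Nice κ M V) : ∃ x₀, ∀ i, pd i V x₀ = 0 := by
  have hκ := H.kpos
  have hc : Continuous V := H.c2.continuous
  have hlow : ∀ u : ι → ℝ, V 0 - gs V 0 / κ + κ / 4 * sq u ≤ V u := by
    intro u
    have h1 := H.lower 0 u
    rw [zero_add] at h1
    have h2 := gd_sq_le V 0 u
    have h3 : 0 ≤ gs V 0 := Finset.sum_nonneg fun _ _ => sq_nonneg _
    have h4 := sq_nn u
    -- `(gd)^2 ≤ gs * sq u`, so `-gd ≤ gs/κ + κ/4 * sq u`
    have h5 : - (gs V 0 / κ + κ / 4 * sq u) ≤ gd V 0 u := by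
      have h6 : gd V 0 u ^ 2 ≤ (gs V 0 / κ + κ / 4 * sq u) ^ 2 := by
        have h7 : (gs V 0 / κ + κ / 4 * sq u) ^ 2 - gs V 0 * sq u =
            (gs V 0 / κ - κ / 4 * sq u) ^ 2 := by
          field_simp
          ring
        nlinarith [sq_nonneg (gs V 0 / κ - κ / 4 * sq u)]
      have h8 : 0 ≤ gs V 0 / κ + κ / 4 * sq u := by positivity
      exact (abs_le_of_sq_le_sq' h6 h8).1
    linarith
  have hsq : ∀ u : ι → ℝ, ‖u‖ ^ 2 ≤ sq u := by
    intro u
    have h1 : ‖u‖ ≤ √(sq u) := by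
      rw [pi_norm_le_iff_of_nonneg (Real.sqrt_nonneg _)]
      intro i
      rw [Real.norm_eq_abs]
      exact Real.abs_le_sqrt (coord_sq_le u i)
    calc ‖u‖ ^ 2 ≤ √(sq u) ^ 2 := pow_le_pow_left₀ (norm_nonneg _) h1 2
      _ = sq u := Real.sq_sqrt (sq_nn u)
  have hlim : Tendsto V (cocompact (ι → ℝ)) atTop := by
    have h1 : Tendsto (fun u : ι → ℝ => V 0 - gs V 0 / κ + κ / 4 * ‖u‖ ^ 2) (cocompact (ι → ℝ)) atTop := by
      refine tendsto_atTop_add_const_left _ _ ?_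
      refine Tendsto.const_mul_atTop (by positivity) ?_
      exact (tendsto_pow_atTop (by norm_num)).comp (tendsto_norm_cocompact_atTop (E := ι → ℝ))
    refine tendsto_atTop_mono (fun u => ?_) h1
    have h2 := hlow u
    have h3 := hsq u
    have h4 : κ / 4 * ‖u‖ ^ 2 ≤ κ / 4 * sq u := mul_le_mul_of_nonneg_left h3 (by positivity)
    linarith
  obtain ⟨x₀, hx₀⟩ := hc.exists_forall_le hlim
  refine ⟨x₀, fun i => ?_⟩
  have h1 : IsLocalMin V x₀ := Filter.Eventually.of_forall hx₀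
  unfold pd
  rw [h1.fderiv_eq_zero]
  rfl

/-- The basic inequality. -/
private theorem RF2b_key (H : Nice κ M V) {x₀ : ι → ℝ} (h0 : ∀ i, pd i V x₀ = 0) (hg : T1 g) :
    κ * ex V (fun x => g x ^ 2 * ∑ i, (x i - x₀ i) ^ 2) ≤
      Fintype.card ι * ex V (fun x => g x ^ 2) +
        2 * ex V (fun x => ∑ i, (g x * (x i - x₀ i)) * pd i g x) := by
  have hgd : Differentiable ℝ g := hg.c1.differentiable (by norm_num)
  have hT : ∀ i : ι, T1 (fun x : ι → ℝ => x i - x₀ i) := fun i => (T1.coord i).sub (T1.const _)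
  have hf : ∀ i : ι, T1 (fun x : ι → ℝ => (g x * g x) * (x i - x₀ i)) := fun i =>
    (hg.mul hg).mul (hT i)
  have hpd : ∀ (i : ι) (x : ι → ℝ), pd i (fun x : ι → ℝ => (g x * g x) * (x i - x₀ i)) x =
      g x ^ 2 + 2 * ((g x * (x i - x₀ i)) * pd i g x) := by
    intro i x
    have e1 : Differentiable ℝ (fun x : ι → ℝ => g x * g x) := hgd.mul hgd
    have e2 : Differentiable ℝ (fun x : ι → ℝ => x i - x₀ i) :=
      (hT i).c1.differentiable (by norm_num)
    rw [pd_mul e1 e2, pd_mul hgd hgd]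
    rw [pd_sub (f := fun x : ι → ℝ => x i) (g := fun _ => x₀ i)
      ((T1.coord i).c1.differentiable (by norm_num)) (differentiable_const _), pd_coord, pd_const,
      if_pos rfl]
    ring
  have hibp : ∀ i : ι, ex V (fun x => g x ^ 2 + 2 * ((g x * (x i - x₀ i)) * pd i g x)) =
      ex V (fun x => (g x * g x) * (x i - x₀ i) * pd i V x) := by
    intro i
    rw [← ibp H (hf i) i]
    congr 1
    funext x
    exact (hpd i x).symm
  have hT0 : ∀ i : ι, T0 (fun x : ι → ℝ => (g x * (x i - x₀ i)) * pd i g x) := fun i =>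
    (hg.t0.mul (hT i).t0).mul (hg.pdt0 i)
  have hs1 : ∑ i : ι, ex V (fun x => g x ^ 2 + 2 * ((g x * (x i - x₀ i)) * pd i g x)) =
      Fintype.card ι * ex V (fun x => g x ^ 2) +
        2 * ex V (fun x => ∑ i, (g x * (x i - x₀ i)) * pd i g x) := by
    have e1 : ∀ i : ι, ex V (fun x => g x ^ 2 + 2 * ((g x * (x i - x₀ i)) * pd i g x)) =
        ex V (fun x => g x ^ 2) + 2 * ex V (fun x => (g x * (x i - x₀ i)) * pd i g x) := by
      intro i
      rw [ex_add H (hg.t0.pow 2) ((hT0 i).cmul 2), ex_cmul]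
    rw [Finset.sum_congr rfl fun i _ => e1 i, Finset.sum_add_distrib, Finset.sum_const,
      ← Finset.mul_sum, ex_sum H Finset.univ fun i _ => hT0 i, Finset.card_univ, nsmul_eq_mul]
  have hs2 : ∑ i : ι, ex V (fun x => (g x * g x) * (x i - x₀ i) * pd i V x) =
      ex V (fun x => ∑ i, (g x * g x) * (x i - x₀ i) * pd i V x) := by
    rw [ex_sum H Finset.univ fun i _ => (hf i).t0.mul (H.t1.pdt0 i)]
  rw [← hs1, Finset.sum_congr rfl fun i _ => hibp i, hs2, ← ex_cmul]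
  refine ex_mono H ?_ ?_ ?_
  · exact ((hg.t0.pow 2).mul (T0.sum Finset.univ fun i _ => (hT i).t0.pow 2)).cmul κ
  · exact T0.sum Finset.univ fun i _ => (hf i).t0.mul (H.t1.pdt0 i)
  · intro x
    have h1 := H.mono_grad x₀ (x - x₀)
    rw [add_sub_cancel] at h1
    have h2 : gd V x₀ (x - x₀) = 0 := by
      unfold gd
      exact Finset.sum_eq_zero fun i _ => by rw [h0 i, mul_zero]
    rw [h2, sub_zero] at h1
    have h3 : sq (x - x₀) = ∑ i, (x i - x₀ i) ^ 2 := rfl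
    have h4 : gd V x (x - x₀) = ∑ i, (x i - x₀ i) * pd i V x := rfl
    rw [h3, h4] at h1
    have h5 : ∑ i, (g x * g x) * (x i - x₀ i) * pd i V x =
        (g x * g x) * ∑ i, (x i - x₀ i) * pd i V x := by
      rw [Finset.mul_sum]
      exact Finset.sum_congr rfl fun i _ => by ring
    rw [h5]
    have h6 := mul_le_mul_of_nonneg_left h1 (mul_self_nonneg (g x))
    calc κ * (g x ^ 2 * ∑ i, (x i - x₀ i) ^ 2) = g x * g x * (κ * ∑ i, (x i - x₀ i) ^ 2) := by ring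
      _ ≤ _ := h6

/-- R.7 (a). `x₀` as in `exists_min`. `E g² (x-x₀)·∇V = n E g² + 2 E g (x-x₀)·∇g` (`ibp` for
`g² (x_i - x₀_i)`) and `(x-x₀)·∇V ≥ κ|x-x₀|²` (`Nice.mono_grad`), so
`κ E|x-x₀|²g² ≤ n E g² + 2 (E|x-x₀|²g²)^{1/2} (E|∇g|²)^{1/2}`, i.e.
`κ E|x-x₀|²g² ≤ 2 n E g² + (4/κ) E|∇g|²`. With `g = 1`: `|x₀|² = |E(x-x₀)|² ≤ E|x-x₀|² ≤ n/κ`.
`|x|² ≤ 2|x-x₀|² + 2|x₀|²`. -/
theorem radial (H : Nice κ M V) (hm : ∀ i, mn V i = 0) (hg : T1 g) :
    ex V (fun x => sq x * g x ^ 2) ≤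
      6 * Fintype.card ι / κ * ex V (fun x => g x ^ 2) + 8 / κ ^ 2 * ex V (gs g) := by
  have hκ := H.kpos
  obtain ⟨x₀, h0⟩ := exists_min H
  have hT : ∀ i : ι, T1 (fun x : ι → ℝ => x i - x₀ i) := fun i => (T1.coord i).sub (T1.const _)
  have hQ : T0 (fun x : ι → ℝ => ∑ i, (x i - x₀ i) ^ 2) :=
    T0.sum Finset.univ fun i _ => (hT i).t0.pow 2
  set n : ℝ := (Fintype.card ι : ℝ) with hn
  have hn0 : 0 ≤ n := Nat.cast_nonneg _
  -- the bound for `g`
  have k1 := RF2b_key H h0 hg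
  have k2 : 2 * ex V (fun x => ∑ i, (g x * (x i - x₀ i)) * pd i g x) ≤
      κ / 2 * ex V (fun x => g x ^ 2 * ∑ i, (x i - x₀ i) ^ 2) + 2 / κ * ex V (gs g) := by
    rw [← ex_cmul, ← ex_cmul, ← ex_cmul, ← ex_add H (((hg.t0.pow 2).mul hQ).cmul _) (hg.gst0.cmul _)]
    refine ex_mono H ?_ ?_ ?_
    · exact (T0.sum Finset.univ fun i _ => (hg.t0.mul (hT i).t0).mul (hg.pdt0 i)).cmul 2
    · exact (((hg.t0.pow 2).mul hQ).cmul _).add (hg.gst0.cmul _)
    · intro x
      unfold gs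
      rw [Finset.mul_sum, Finset.mul_sum, Finset.mul_sum, Finset.mul_sum, ← Finset.sum_add_distrib]
      refine Finset.sum_le_sum fun i _ => ?_
      have h1 : κ / 2 * (g x ^ 2 * (x i - x₀ i) ^ 2) + 2 / κ * pd i g x ^ 2 -
          2 * (g x * (x i - x₀ i) * pd i g x) =
          (1 / (2 * κ)) * (κ * (g x * (x i - x₀ i)) - 2 * pd i g x) ^ 2 := by
        field_simp
        ring
      have h2 : 0 ≤ (1 / (2 * κ)) * (κ * (g x * (x i - x₀ i)) - 2 * pd i g x) ^ 2 := by positivity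
      linarith
  -- the bound for `1`
  have j1 := RF2b_key H h0 (T1.const (ι := ι) (1 : ℝ))
  have j2 : sq x₀ ≤ n / κ := by
    have e1 : ex V (fun x : ι → ℝ => ∑ i, ((1 : ℝ) * (x i - x₀ i)) * pd i (fun _ => (1 : ℝ)) x) = 0 := by
      have : (fun x : ι → ℝ => ∑ i, ((1 : ℝ) * (x i - x₀ i)) * pd i (fun _ => (1 : ℝ)) x) =
          fun _ => 0 := by
        funext x
        exact Finset.sum_eq_zero fun i _ => by rw [pd_const, mul_zero]
      rw [this, ex_const H]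
    have e2 : ex V (fun _ : ι → ℝ => (1 : ℝ) ^ 2) = 1 := by
      rw [ex_const H]; norm_num
    rw [e1, e2, mul_zero, add_zero, mul_one] at j1
    have e3 : (fun x : ι → ℝ => (1 : ℝ) ^ 2 * ∑ i, (x i - x₀ i) ^ 2) =
        fun x => ∑ i, (x i - x₀ i) ^ 2 := by
      funext x
      rw [one_pow, one_mul]
    rw [e3] at j1
    have e4 : sq x₀ ≤ ex V (fun x => ∑ i, (x i - x₀ i) ^ 2) := by
      rw [ex_sum H Finset.univ fun i _ => (hT i).t0.pow 2]
      unfold sq
      refine Finset.sum_le_sum fun i _ => ?_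
      have h1 := ex_sq_le H (hT i).t0
      have h2 : ex V (fun x : ι → ℝ => x i - x₀ i) = - x₀ i := by
        rw [ex_sub H (T0.coord i) (T0.const _), ex_const H]
        have := hm i
        unfold mn at this
        rw [this]
        ring
      rw [h2, neg_sq] at h1
      exact h1
    rw [le_div_iff₀ hκ]
    calc sq x₀ * κ ≤ ex V (fun x => ∑ i, (x i - x₀ i) ^ 2) * κ :=
          mul_le_mul_of_nonneg_right e4 hκ.le
      _ = κ * ex V (fun x => ∑ i, (x i - x₀ i) ^ 2) := mul_comm _ _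
      _ ≤ n := j1
  have hE2 : 0 ≤ ex V (fun x => g x ^ 2) := ex_nonneg V fun x => sq_nonneg _
  have hcmp : ex V (fun x => sq x * g x ^ 2) ≤
      2 * ex V (fun x => g x ^ 2 * ∑ i, (x i - x₀ i) ^ 2) + 2 * sq x₀ * ex V (fun x => g x ^ 2) := by
    rw [← ex_cmul, ← ex_cmul, ← ex_add H (((hg.t0.pow 2).mul hQ).cmul _) ((hg.t0.pow 2).cmul _)]
    refine ex_mono H (T0.sqf.mul (hg.t0.pow 2)) ((((hg.t0.pow 2).mul hQ).cmul _).add
      ((hg.t0.pow 2).cmul _)) ?_
    intro x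
    have h1 := sq_add_le (x - x₀) x₀
    rw [sub_add_cancel] at h1
    have h3 : sq (x - x₀) = ∑ i, (x i - x₀ i) ^ 2 := rfl
    rw [h3] at h1
    have h4 := mul_le_mul_of_nonneg_right h1 (sq_nonneg (g x))
    calc sq x * g x ^ 2 ≤ _ := h4
      _ = _ := by ring
  have k3 : ex V (fun x => g x ^ 2 * ∑ i, (x i - x₀ i) ^ 2) ≤
      2 * n / κ * ex V (fun x => g x ^ 2) + 4 / κ ^ 2 * ex V (gs g) := by
    have h1 : κ / 2 * ex V (fun x => g x ^ 2 * ∑ i, (x i - x₀ i) ^ 2) ≤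
        n * ex V (fun x => g x ^ 2) + 2 / κ * ex V (gs g) := by linarith
    have h2 := mul_le_mul_of_nonneg_left h1 (show 0 ≤ 2 / κ by positivity)
    calc ex V (fun x => g x ^ 2 * ∑ i, (x i - x₀ i) ^ 2) =
        2 / κ * (κ / 2 * ex V (fun x => g x ^ 2 * ∑ i, (x i - x₀ i) ^ 2)) := by
          field_simp
      _ ≤ _ := h2
      _ = _ := by
          field_simp
          ring
  have k4 : 2 * sq x₀ * ex V (fun x => g x ^ 2) ≤ 2 * (n / κ) * ex V (fun x => g x ^ 2) :=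
    mul_le_mul_of_nonneg_right (by linarith) hE2
  calc ex V (fun x => sq x * g x ^ 2) ≤ _ := hcmp
    _ ≤ 2 * (2 * n / κ * ex V (fun x => g x ^ 2) + 4 / κ ^ 2 * ex V (gs g)) +
        2 * (n / κ) * ex V (fun x => g x ^ 2) := by linarith
    _ = _ := by ring

end Pool.Agent.Lib.MP_8d00da_gt.h42k
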