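import Pool.Agent.Lib.MP_8d00da_gt.h42k.R0
import Pool.Agent.Lib.MP_8d00da_gt.h42k.S6b

/-!
# The covariance matrix near time 0 (paper 336, R.8): the mean
-/

namespace Pool.Agent.Lib.MP_8d00da_gt.h42k

open MeasureTheory Set Filter
open scoped Topology NNReal ENNReal ContDiff

set_option linter.unusedSectionVars false
set_option linter.unusedVariables false

variable {ι : Type*} [Fintype ι] [DecidableEq ι]

variable {κ M : ℝ} {V : (ι → ℝ) → ℝ}

/-- `s ↦ E_{s,0}|x|²` is nonincreasing (derivative `-½ Var |x|²`), so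
`|a(s,0)|² ≤ E_{s,0}|x|² ≤ E_V|x|² = ∑ var x_i ≤ n/κ`. -/
theorem mean_s0 (H : Nice κ M V) (hm : ∀ i, mn V i = 0) {s : ℝ} (hs : 0 ≤ s) :
    sq (mn (pt V s 0)) ≤ Fintype.card ι / κ := by
  have hκ := H.kpos
  have hs' : -κ < s := by linarith
  have H' := H.ptn hs' 0
  have hA : sq (mn (pt V s 0)) ≤ EP V s sq 0 := by
    have h1 : ∀ i, mn (pt V s 0) i ^ 2 ≤ ex (pt V s 0) (fun x => x i ^ 2) :=
      fun i => ex_sq_le H' (T0.coord i)
    have h2 : ex (pt V s 0) (fun x => ∑ i, x i ^ 2) = ∑ i, ex (pt V s 0) (fun x => x i ^ 2) :=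
      ex_sum H' Finset.univ fun i _ => (T0.coord i).pow 2
    show (∑ i, mn (pt V s 0) i ^ 2) ≤ ex (pt V s 0) (fun x => ∑ i, x i ^ 2)
    rw [h2]
    exact Finset.sum_le_sum fun i _ => h1 i
  have hB : EP V s sq 0 ≤ EP V 0 sq 0 := by
    have hanti : AntitoneOn (fun r => EP V r sq 0) (Set.Ici 0) := by
      have hd : ∀ r : ℝ, 0 ≤ r →
          HasDerivAt (fun r => EP V r sq 0) (-(1 / 2) * CP V r sq sq 0) r :=
        fun r hr => EP_deriv H T0.sqf (by linarith) 0
      refine antitoneOn_of_deriv_nonpos (convex_Ici 0) ?_ ?_ ?_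
      · exact fun r hr => (hd r hr).continuousAt.continuousWithinAt
      · intro r hr
        rw [interior_Ici] at hr
        exact (hd r (le_of_lt hr)).differentiableAt.differentiableWithinAt
      · intro r hr
        rw [interior_Ici] at hr
        have hr' : (0 : ℝ) < r := hr
        rw [(hd r hr'.le).deriv]
        have h3 : 0 ≤ CP V r sq sq 0 := var_nonneg (H.ptn (by linarith) 0) T0.sqf
        linarith
    exact hanti (Set.mem_Ici.2 le_rfl) (Set.mem_Ici.2 hs) hs
  have hC : EP V 0 sq 0 = ex V sq := by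
    have h4 : pt V 0 0 = V := by
      funext x
      simp [pt, dt]
    simp only [EP, h4]
  have hD : ex V sq ≤ Fintype.card ι / κ := by
    have h5 := trace_pow_CM_le H (s6_CLe_kappa H) 1
    rw [pow_one, pow_one, trace_CM H] at h5
    have h6 : (fun x : ι → ℝ => ∑ i, (x i - mn V i) ^ 2) = sq := by
      funext x
      simp [sq, hm]
    rw [h6] at h5
    rw [div_eq_mul_one_div]
    exact h5
  linarith

end Pool.Agent.Lib.MP_8d00da_gt.h42k
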