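import Pool.Agent.Lib.MP_8d00da_gt.h42k.RG1a
import Pool.Agent.Lib.MP_8d00da_gt.h42k.RC3b

/-!
# The covariance matrix near time 0 (paper 336, R.8): in time
-/

namespace Pool.Agent.Lib.MP_8d00da_gt.h42k

open MeasureTheory Set Filter
open scoped Topology NNReal ENNReal ContDiff

set_option linter.unusedSectionVars false
set_option linter.unusedVariables false

variable {ι : Type*} [Fintype ι] [DecidableEq ι]

variable {κ M : ℝ} {V : (ι → ℝ) → ℝ}

private theorem RG1b_pt_zero (V : (ι → ℝ) → ℝ) : pt V 0 0 = V := by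
  funext x
  simp [pt, dt]

/-- `|CM (pt V s 0) j k - CM V j k| ≤ C s` for `0 ≤ s ≤ 1`: mean value theorem, `CP_deriv`,
`TCsq_le` for `pt V s 0`, `mean_s0`. -/
theorem cm_s0 (ι : Type*) [Fintype ι] [DecidableEq ι] {τ : ℝ} (hτ : 0 < τ) :
    ∃ C : ℝ, 0 ≤ C ∧ ∀ (κ M : ℝ) (V : (ι → ℝ) → ℝ), Nice κ M V → τ ≤ κ → (∀ i, mn V i = 0) →
      ∀ s, 0 ≤ s → ∀ j k, |CM (pt V s 0) j k - CM V j k| ≤ C * s := by
  have hn : (0 : ℝ) ≤ (Fintype.card ι : ℝ) := Nat.cast_nonneg _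
  refine ⟨(2 + Fintype.card ι : ℝ) ^ 2 / τ * √(4 / τ * (Fintype.card ι / τ + Fintype.card ι / τ)),
    by positivity, ?_⟩
  intro κ M V H hκ hm s hs j k
  set C : ℝ := (2 + Fintype.card ι : ℝ) ^ 2 / τ *
    √(4 / τ * (Fintype.card ι / τ + Fintype.card ι / τ)) with hC
  have hC0 : 0 ≤ C := by positivity
  have hκ0 := H.kpos
  have hder : ∀ r ∈ Icc (0 : ℝ) s, HasDerivWithinAt (fun r => CM (pt V r 0) j k)
      (-(1 / 2) * TC V r (fun x => x j) (fun x => x k) sq 0) (Icc (0 : ℝ) s) r := by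
    intro r hr
    exact (CP_deriv H (T0.coord j) (T0.coord k) (by linarith [hr.1]) 0).hasDerivWithinAt
  have hb : ∀ r ∈ Icc (0 : ℝ) s,
      ‖-(1 / 2) * TC V r (fun x => x j) (fun x => x k) sq 0‖ ≤ C := by
    intro r hr
    have Hr : Nice (κ + r) (M + r) (pt V r 0) := H.ptn (by linarith [hr.1]) 0
    have h1 := TCsq_le Hr j k
    have h2 : sq (mn (pt V r 0)) ≤ Fintype.card ι / τ :=
      (mean_s0 H hm hr.1).trans (div_le_div_of_nonneg_left hn hτ hκ)
    have h3 : TC V r (fun x => x j) (fun x => x k) sq 0 =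
        ex (pt V r 0) (fun x => ctr (pt V r 0) x j * ctr (pt V r 0) x k *
          (sq x - ex (pt V r 0) sq)) := rfl
    have hκr : τ ≤ κ + r := by linarith [hr.1]
    have h4 : (2 + Fintype.card ι : ℝ) ^ 2 / (κ + r) ≤ (2 + Fintype.card ι : ℝ) ^ 2 / τ :=
      div_le_div_of_nonneg_left (by positivity) hτ hκr
    have h5 : √(4 / (κ + r) * (Fintype.card ι / (κ + r) + sq (mn (pt V r 0)))) ≤
        √(4 / τ * (Fintype.card ι / τ + Fintype.card ι / τ)) := by
      apply Real.sqrt_le_sqrt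
      have h6 : 4 / (κ + r) ≤ 4 / τ := div_le_div_of_nonneg_left (by norm_num) hτ hκr
      have h7 : (Fintype.card ι : ℝ) / (κ + r) ≤ Fintype.card ι / τ :=
        div_le_div_of_nonneg_left hn hτ hκr
      have h8 : (0 : ℝ) ≤ Fintype.card ι / (κ + r) :=
        div_nonneg hn (by linarith)
      exact mul_le_mul h6 (add_le_add h7 h2) (add_nonneg h8 (sq_nn _)) (by positivity)
    have h9 : |TC V r (fun x => x j) (fun x => x k) sq 0| ≤ C := by
      rw [h3]
      exact h1.trans (mul_le_mul h4 h5 (Real.sqrt_nonneg _) (by positivity))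
    rw [Real.norm_eq_abs, abs_mul]
    have h10 : |(-(1 / 2) : ℝ)| = 1 / 2 := by norm_num
    rw [h10]
    have h11 := abs_nonneg (TC V r (fun x => x j) (fun x => x k) sq 0)
    linarith
  have h0 : (0 : ℝ) ∈ Icc (0 : ℝ) s := ⟨le_rfl, hs⟩
  have h1 : s ∈ Icc (0 : ℝ) s := ⟨hs, le_rfl⟩
  have := (convex_Icc (0 : ℝ) s).norm_image_sub_le_of_norm_hasDerivWithin_le hder hb h0 h1
  rw [RG1b_pt_zero, Real.norm_eq_abs, Real.norm_eq_abs, sub_zero, abs_of_nonneg hs] at this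
  exact this

end Pool.Agent.Lib.MP_8d00da_gt.h42k
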