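import Pool.Agent.Lib.MP_8d00da_gt.h42k.RC3b

/-!
# The covariance matrix near time 0 (paper 336, R.8): in space
-/

namespace Pool.Agent.Lib.MP_8d00da_gt.h42k

open MeasureTheory Set Filter
open scoped Topology NNReal ENNReal ContDiff

set_option linter.unusedSectionVars false
set_option linter.unusedVariables false

variable {ι : Type*} [Fintype ι] [DecidableEq ι]

variable {κ M : ℝ} {V : (ι → ℝ) → ℝ}

private theorem RG1c_diff {f : (ι → ℝ) → ℝ} (H : Nice κ M V) (hf : T0 f) {t : ℝ} (ht : -κ < t) :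
    Differentiable ℝ (fun y => EP V t f y) := by
  intro y
  have h1 : ContDiffAt ℝ ∞ (fun p : ℝ × (ι → ℝ) => EP V p.1 f p.2) (t, y) :=
    EP_contDiffAt H hf ht y
  have h2 : DifferentiableAt ℝ (fun p : ℝ × (ι → ℝ) => EP V p.1 f p.2) (t, y) :=
    h1.differentiableAt (by simp)
  have h3 : DifferentiableAt ℝ (fun z : ι → ℝ => ((t, z) : ℝ × (ι → ℝ))) y :=
    (differentiableAt_const t).prodMk differentiableAt_id
  exact DifferentiableAt.comp (g := fun p : ℝ × (ι → ℝ) => EP V p.1 f p.2)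
    (f := fun z : ι → ℝ => ((t, z) : ℝ × (ι → ℝ))) y h2 h3

private theorem RG1c_cm (H : Nice κ M V) {t : ℝ} (ht : -κ < t) (j k : ι) :
    Differentiable ℝ (fun y => CM (pt V t y) j k) := by
  have e0 : (fun y => CM (pt V t y) j k) = fun y => CP V t (fun x => x j) (fun x => x k) y := rfl
  have e1 : CP V t (fun x => x j) (fun x => x k) =
      fun y => EP V t (fun x => x j * x k) y - EP V t (fun x => x j) y * EP V t (fun x => x k) y :=
    funext fun y => CP_eq V (fun x => x j) (fun x => x k) t y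
  rw [e0, e1]
  exact (RG1c_diff H ((T0.coord j).mul (T0.coord k)) ht).sub
    ((RG1c_diff H (T0.coord j) ht).mul (RG1c_diff H (T0.coord k) ht))

/-- `|CM (pt V s y) j k - CM (pt V s 0) j k| ≤ C |y|`: mean value theorem on the segment,
`CM_pd`, `TM_le`. -/
theorem cm_sy (ι : Type*) [Fintype ι] [DecidableEq ι] {τ : ℝ} (hτ : 0 < τ) :
    ∃ C : ℝ, 0 ≤ C ∧ ∀ (κ M : ℝ) (V : (ι → ℝ) → ℝ), Nice κ M V → τ ≤ κ →
      ∀ s, 0 ≤ s → ∀ (y : ι → ℝ) j k,
        |CM (pt V s y) j k - CM (pt V s 0) j k| ≤ C * √(sq y) := by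
  set N : ℝ := (2 * Fintype.card ι + Fintype.card ι ^ 2 : ℝ) with hN
  have hN0 : 0 ≤ N := by positivity
  refine ⟨Fintype.card ι * (N / (τ * √τ)), by positivity, ?_⟩
  intro κ M V H hτκ s hs y j k
  have hκ := H.kpos
  have ht : -κ < s := by linarith
  set Φ : (ι → ℝ) → ℝ := fun y => CM (pt V s y) j k with hΦ
  have hd : Differentiable ℝ Φ := RG1c_cm H ht j k
  have hpd : ∀ (z : ι → ℝ) (i : ι), |pd i Φ z| ≤ N / (τ * √τ) := by
    intro z i
    have e1 : pd i Φ z = TM (pt V s z) j k i := CM_pd H ht z i j k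
    rw [e1]
    refine (TM_le (H.ptn ht z) j k i).trans ?_
    rw [← hN]
    have h1 : τ ≤ κ + s := by linarith
    have h2 : √τ ≤ √(κ + s) := Real.sqrt_le_sqrt h1
    have h3 : 0 < √τ := Real.sqrt_pos.2 hτ
    exact div_le_div_of_nonneg_left hN0 (by positivity)
      (mul_le_mul h1 h2 h3.le (by linarith))
  have hline : ∀ r : ℝ, HasDerivAt (fun r : ℝ => Φ (r • y)) (gd Φ (r • y) y) r := by
    intro r
    have h1 : HasDerivAt (fun r : ℝ => r • y) ((1 : ℝ) • y) r :=
      (hasDerivAt_id' r).smul_const y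
    have h2 := (hd (r • y)).hasFDerivAt.comp_hasDerivAt r h1
    rw [one_smul, fderiv_eq_gd] at h2
    exact h2
  have h := norm_image_sub_le_of_norm_deriv_le_segment_01'
    (f := fun r : ℝ => Φ (r • y)) (f' := fun r => gd Φ (r • y) y)
    (C := Fintype.card ι * (N / (τ * √τ)) * √(sq y))
    (fun r _ => (hline r).hasDerivWithinAt) (by
      intro r _
      rw [Real.norm_eq_abs]
      unfold gd
      refine (Finset.abs_sum_le_sum_abs _ _).trans ?_
      have hle : ∀ i ∈ (Finset.univ : Finset ι), |y i * pd i Φ (r • y)| ≤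
          (N / (τ * √τ)) * √(sq y) := by
        intro i _
        rw [abs_mul, mul_comm]
        refine mul_le_mul (hpd _ i) ?_ (abs_nonneg _) (by positivity)
        rw [← Real.sqrt_sq_eq_abs]
        exact Real.sqrt_le_sqrt (coord_sq_le y i)
      refine (Finset.sum_le_card_nsmul _ _ _ hle).trans (le_of_eq ?_)
      rw [nsmul_eq_mul, Finset.card_univ]
      ring)
  simpa [Real.norm_eq_abs] using h

end Pool.Agent.Lib.MP_8d00da_gt.h42k
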