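import Pool.Agent.Lib.MP_8d00da_gt.h42k.RG1b
import Pool.Agent.Lib.MP_8d00da_gt.h42k.RG1c

/-!
# The covariance matrix near time 0 (paper 336, R.8): conclusion
-/

namespace Pool.Agent.Lib.MP_8d00da_gt.h42k

open MeasureTheory Set Filter
open scoped Topology NNReal ENNReal ContDiff

set_option linter.unusedSectionVars false
set_option linter.unusedVariables false

variable {ι : Type*} [Fintype ι] [DecidableEq ι]

variable {κ M : ℝ} {V : (ι → ℝ) → ℝ}

/-- Together: `A(s,y) ≤ A + dl` as quadratic forms (`∑∑ |θ_i θ_j| ≤ n |θ|²`; the second bound in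
`dl` is `A(s,y) ≤ 1/(κ+s) ≤ 1/τ ≤ A + 1/τ`). -/
theorem cov_dl (ι : Type*) [Fintype ι] [DecidableEq ι] {τ : ℝ} (hτ : 0 < τ) :
    ∃ C : ℝ, 0 ≤ C ∧ ∀ (κ M : ℝ) (V : (ι → ℝ) → ℝ), Nice κ M V → τ ≤ κ → (∀ i, mn V i = 0) →
      ∀ s, 0 ≤ s → ∀ y θ : ι → ℝ,
        var (pt V s y) (fun x => dt θ x) ≤ var V (fun x => dt θ x) + dl C τ s y * sq θ := by
  obtain ⟨C1, h1, hC1⟩ := cm_s0 ι hτ
  obtain ⟨C2, h2, hC2⟩ := cm_sy ι hτ
  have hn : (0 : ℝ) ≤ (Fintype.card ι : ℝ) := Nat.cast_nonneg _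
  refine ⟨Fintype.card ι * (C1 + C2), by positivity, ?_⟩
  intro κ M V H hκ hm s hs y θ
  have hκ0 := H.kpos
  have ht : -κ < s := by linarith
  have Hs := H.ptn ht y
  have hv0 : 0 ≤ var V (fun x => dt θ x) := var_nonneg H (T0.dtf θ)
  rw [dl, min_mul_of_nonneg _ _ (sq_nn θ), ← min_add_add_left]
  refine le_min ?_ ?_
  · have e1 : var (pt V s y) (fun x => dt θ x) ≤ 1 / (κ + s) * sq θ := s6_CLe_kappa Hs θ
    have e2 : 1 / (κ + s) ≤ 1 / τ := one_div_le_one_div_of_le hτ (by linarith)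
    have e3 := mul_le_mul_of_nonneg_right e2 (sq_nn θ)
    linarith
  · rw [var_dt Hs θ, var_dt H θ]
    set D : ℝ := (C1 + C2) * (s + √(sq y)) with hD
    have hq : 0 ≤ √(sq y) := Real.sqrt_nonneg _
    have hD0 : 0 ≤ D := by positivity
    have hent : ∀ j k, |CM (pt V s y) j k - CM V j k| ≤ D := by
      intro j k
      have e1 := hC1 κ M V H hκ hm s hs j k
      have e2 := hC2 κ M V H hκ s hs y j k
      have e3 : CM (pt V s y) j k - CM V j k =
          (CM (pt V s y) j k - CM (pt V s 0) j k) + (CM (pt V s 0) j k - CM V j k) := by ring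
      rw [e3]
      refine (abs_add_le _ _).trans ((add_le_add e2 e1).trans ?_)
      rw [hD]
      nlinarith [mul_nonneg h1 hq, mul_nonneg h2 hs]
    have hsum : ∑ j, ∑ k, θ j * θ k * CM (pt V s y) j k - ∑ j, ∑ k, θ j * θ k * CM V j k ≤
        D * (∑ j, |θ j|) ^ 2 := by
      rw [← Finset.sum_sub_distrib, _root_.sq, Finset.sum_mul_sum, Finset.mul_sum]
      refine Finset.sum_le_sum fun j _ => ?_
      rw [← Finset.sum_sub_distrib, Finset.mul_sum]
      refine Finset.sum_le_sum fun k _ => ?_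
      rw [← mul_sub]
      refine (le_abs_self _).trans ?_
      rw [abs_mul, abs_mul, mul_comm D]
      exact mul_le_mul_of_nonneg_left (hent j k) (by positivity)
    have hcs : (∑ j, |θ j|) ^ 2 ≤ Fintype.card ι * sq θ := by
      refine (sq_sum_le_card_mul_sum_sq (s := (Finset.univ : Finset ι))).trans (le_of_eq ?_)
      rw [Finset.card_univ]
      unfold sq
      congr 1
      exact Finset.sum_congr rfl fun j _ => sq_abs (θ j)
    have h3 := mul_le_mul_of_nonneg_left hcs hD0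
    have h4 : D * (Fintype.card ι * sq θ) =
        Fintype.card ι * (C1 + C2) * (s + √(sq y)) * sq θ := by
      rw [hD]
      ring
    linarith

end Pool.Agent.Lib.MP_8d00da_gt.h42k
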