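import Pool.Agent.Lib.MP_8d00da_gt.h42k.R0
import Pool.Agent.Lib.MP_8d00da_gt.h42k.RF2a

/-!
# The bound dl in the channel (paper 336, R.8): basic facts
-/

namespace Pool.Agent.Lib.MP_8d00da_gt.h42k

open MeasureTheory Set Filter
open scoped Topology NNReal ENNReal ContDiff

set_option linter.unusedSectionVars false
set_option linter.unusedVariables false

variable {ι : Type*} [Fintype ι] [DecidableEq ι]

variable {κ M : ℝ} {V h : (ι → ℝ) → ℝ} {C τ s : ℝ}

theorem dl_nonneg (hC : 0 ≤ C) (hτ : 0 < τ) (hs : 0 ≤ s) (y : ι → ℝ) : 0 ≤ dl C τ s y := by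
  unfold dl
  exact le_min (by positivity) (by positivity)

theorem dl_le (C τ s : ℝ) (y : ι → ℝ) : dl C τ s y ≤ 1 / τ := by
  unfold dl
  exact min_le_left _ _

theorem dl_t0 (C τ s : ℝ) : T0 (dl C τ s : (ι → ℝ) → ℝ) := by
  have h1 : T0 (fun y : ι → ℝ => C * (s + √(sq y))) := ((T0.const s).add T0.sqf.sqrt).cmul C
  have h2 : T0 (fun y : ι → ℝ => |1 / τ| + |C * (s + √(sq y))|) := (T0.const _).add h1.abs
  refine ⟨(measurable_const.min h1.meas), h2.pg.mono fun y => ?_⟩
  have h3 : 0 ≤ |1 / τ| + |C * (s + √(sq y))| := by positivity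
  rw [abs_of_nonneg h3]
  unfold dl
  rcases min_choice (1 / τ) (C * (s + √(sq y))) with h | h
  · rw [h]
    have := abs_nonneg (C * (s + √(sq y)))
    linarith
  · rw [h]
    have := abs_nonneg (1 / τ)
    linarith

end Pool.Agent.Lib.MP_8d00da_gt.h42k
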