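import Pool.Agent.Lib.MP_8d00da_gt.h42k.RG2a

/-!
# The bound dl in the channel (paper 336, R.8): Gaussian average
-/

namespace Pool.Agent.Lib.MP_8d00da_gt.h42k

open MeasureTheory Set Filter
open scoped Topology NNReal ENNReal ContDiff

set_option linter.unusedSectionVars false
set_option linter.unusedVariables false

variable {ι : Type*} [Fintype ι] [DecidableEq ι]

variable {κ M : ℝ} {V h : (ι → ℝ) → ℝ} {C τ s : ℝ}

/-- Minkowski for the point `s x + √s g`. -/
private theorem RG2b_mink (hs : 0 ≤ s) (x g : ι → ℝ) :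
    √(sq (fun i => s * x i + √s * g i)) ≤ s * √(sq x) + √s * √(sq g) := by
  have hx := Real.sqrt_nonneg (sq x)
  have hg := Real.sqrt_nonneg (sq g)
  have hss := Real.sqrt_nonneg s
  have hx2 := Real.sq_sqrt (sq_nn x)
  have hg2 := Real.sq_sqrt (sq_nn g)
  have hs2 := Real.sq_sqrt hs
  refine Real.sqrt_le_iff.2 ⟨by positivity, ?_⟩
  have hdt : dt x g ≤ √(sq x) * √(sq g) := by
    refine abs_le_of_sq_le_sq' ?_ (by positivity) |>.2
    rw [mul_pow, hx2, hg2]
    exact dt_sq_le x g
  have e1 : sq (fun i => s * x i + √s * g i) =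
      s ^ 2 * sq x + 2 * (s * √s) * dt x g + s * sq g := by
    unfold sq dt
    rw [Finset.mul_sum, Finset.mul_sum, Finset.mul_sum, ← Finset.sum_add_distrib,
      ← Finset.sum_add_distrib]
    refine Finset.sum_congr rfl fun i _ => ?_
    nlinarith [hs2]
  rw [e1]
  have e2 : (s * √(sq x) + √s * √(sq g)) ^ 2 =
      s ^ 2 * sq x + 2 * (s * √s) * (√(sq x) * √(sq g)) + s * sq g := by
    have : (s * √(sq x) + √s * √(sq g)) ^ 2 =
      s ^ 2 * (√(sq x)) ^ 2 + 2 * (s * √s) * (√(sq x) * √(sq g)) + (√s) ^ 2 * (√(sq g)) ^ 2 := by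
      ring
    rw [this, hx2, hg2, hs2]
  rw [e2]
  have h3 : 2 * (s * √s) * dt x g ≤ 2 * (s * √s) * (√(sq x) * √(sq g)) :=
    mul_le_mul_of_nonneg_left hdt (by positivity)
  linarith

/-- `√(sq (s x + √s g)) ≤ s √(sq x) + √s √(sq g)`, `min(a, b + c) ≤ min(a,b) + c`,
`E √(sq g) ≤ √n`, `s ≤ √s`, `min_le_eta`. -/
theorem dl_gauss (ι : Type*) [Fintype ι] [DecidableEq ι] (C : ℝ) (hC : 0 ≤ C) {τ : ℝ}
    (hτ : 0 < τ) : ∃ C' : ℝ, 0 ≤ C' ∧ ∀ s, 0 ≤ s → s ≤ 1 → ∀ x : ι → ℝ,
      ex gp (fun g => dl C τ s fun i => s * x i + √s * g i) ≤ C' * (√s + eta s x) := by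
  obtain ⟨E0, hE0⟩ : ∃ E0 : ℝ, ex gp (fun g : ι → ℝ => √(sq g)) = E0 := ⟨_, rfl⟩
  have hE0n : 0 ≤ E0 := by
    rw [← hE0]
    exact ex_nonneg _ fun g => Real.sqrt_nonneg _
  have hτ' : 0 ≤ 1 / τ := by positivity
  obtain ⟨K, hK⟩ : ∃ K : ℝ, K = 1 / τ + C := ⟨_, rfl⟩
  have hKn : 0 ≤ K := by rw [hK]; positivity
  refine ⟨2 * K + C + C * E0, by positivity, fun s hs hs1 x => ?_⟩
  have hη : 0 ≤ eta s x := eta_nonneg hs x
  have hss : 0 ≤ √s := Real.sqrt_nonneg s
  have hsle : s ≤ √s := by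
    have h1 : √s ≤ 1 := Real.sqrt_le_one.2 hs1
    have h2 := Real.mul_self_sqrt hs
    nlinarith
  have hpt : ∀ g : ι → ℝ, dl C τ s (fun i => s * x i + √s * g i) ≤
      K * (√s + 2 * eta s x) + C * (s + √s * √(sq g)) := by
    intro g
    have hm := RG2b_mink hs x g
    have hx := Real.sqrt_nonneg (sq x)
    have hg := Real.sqrt_nonneg (sq g)
    have hme := min_le_eta hs x
    have h1 : dl C τ s (fun i => s * x i + √s * g i) ≤
        min (1 / τ) (C * (s * √(sq x))) + C * (s + √s * √(sq g)) := by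
      unfold dl
      have hc : 0 ≤ C * (s + √s * √(sq g)) := by positivity
      rcases le_total (1 / τ) (C * (s * √(sq x))) with hle | hle
      · rw [min_eq_left hle]
        exact (min_le_left _ _).trans (by linarith)
      · rw [min_eq_right hle]
        refine (min_le_right _ _).trans ?_
        have := mul_le_mul_of_nonneg_left hm hC
        nlinarith
    have h2 : min (1 / τ) (C * (s * √(sq x))) ≤ K * min 1 (s * √(sq x)) := by
      have ha : 0 ≤ s * √(sq x) := by positivity
      rcases le_total 1 (s * √(sq x)) with hle | hle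
      · rw [min_eq_left hle]
        exact (min_le_left _ _).trans (by rw [hK]; linarith)
      · rw [min_eq_right hle]
        refine (min_le_right _ _).trans ?_
        rw [hK]
        nlinarith
    have h3 := mul_le_mul_of_nonneg_left hme hKn
    linarith
  have hT1 : T0 (fun g : ι → ℝ => dl C τ s fun i => s * x i + √s * g i) := by
    refine ⟨?_, ?_⟩
    · refine (dl_t0 C τ s).meas.comp ?_
      exact measurable_pi_lambda _ fun i =>
        (measurable_const.add ((measurable_pi_apply i).const_mul _))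
    · refine (PG.const (1 / τ)).mono fun g => ?_
      rw [abs_of_nonneg (dl_nonneg hC hτ hs _), abs_of_nonneg hτ']
      exact dl_le _ _ _ _
  have hTs : T0 (fun g : ι → ℝ => √s * √(sq g)) := (T0.sqf.sqrt).cmul _
  have hT2 : T0 (fun g : ι → ℝ => s + √s * √(sq g)) := (T0.const s).add hTs
  have hT3 : T0 (fun g : ι → ℝ => C * (s + √s * √(sq g))) := hT2.cmul _
  have hmono := ex_mono (nice_gp (ι := ι)) hT1
    ((T0.const (K * (√s + 2 * eta s x))).add hT3) hpt
  rw [ex_add nice_gp (T0.const _) hT3, ex_const nice_gp, ex_cmul,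
    ex_add nice_gp (T0.const _) hTs, ex_const nice_gp, ex_cmul, hE0] at hmono
  refine hmono.trans ?_
  have h5 : C * (s + √s * E0) ≤ C * (√s + √s * E0) :=
    mul_le_mul_of_nonneg_left (by linarith) hC
  have h6 : 0 ≤ (C + C * E0) * eta s x := by positivity
  have h7 : 0 ≤ K * √s := by positivity
  nlinarith [h5, h6, h7]

/-- `bayes` and `dl_gauss`. -/
theorem dl_GE (ι : Type*) [Fintype ι] [DecidableEq ι] (C : ℝ) (hC : 0 ≤ C) {τ : ℝ}
    (hτ : 0 < τ) : ∃ C' : ℝ, 0 ≤ C' ∧ ∀ (κ M : ℝ) (V : (ι → ℝ) → ℝ), Nice κ M V →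
      ∀ h : (ι → ℝ) → ℝ, T0 h → (∀ x, 0 ≤ h x) → ∀ s, 0 ≤ s → s ≤ 1 →
        GE V s (fun y => dl C τ s y * EP V s h y) ≤
          C' * (√s * ex V h + ex V (fun x => eta s x * h x)) := by
  obtain ⟨C', hC', hb⟩ := dl_gauss ι C hC hτ
  refine ⟨C', hC', fun κ M V H h hh hh0 s hs hs1 => ?_⟩
  have hτ' : 0 ≤ 1 / τ := by positivity
  have e1 : GE V s (fun y => dl C τ s y * EP V s h y) =
      ex V (fun x => h x * ex gp (fun g => dl C τ s fun i => s * x i + √s * g i)) := by
    rw [bayes H hh (dl_t0 C τ s) hs]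
    congr 1
    funext y
    ring
  rw [e1]
  have hmeas : Measurable (fun x : ι → ℝ =>
      ex gp (fun g : ι → ℝ => dl C τ s fun i => s * x i + √s * g i)) := by
    unfold ex
    refine Measurable.div_const ?_ _
    have hsm : StronglyMeasurable (Function.uncurry fun (x g : ι → ℝ) =>
        (dl C τ s fun i => s * x i + √s * g i) * Real.exp (-gp g)) := by
      refine Measurable.stronglyMeasurable ?_
      refine Measurable.mul ?_ ?_
      · refine (dl_t0 C τ s).meas.comp ?_
        exact measurable_pi_lambda _ fun i =>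
          (((measurable_pi_apply i).comp measurable_fst).const_mul _).add
            (((measurable_pi_apply i).comp measurable_snd).const_mul _)
      · refine Real.measurable_exp.comp ?_
        refine Measurable.neg ?_
        exact ((nice_gp (ι := ι)).t1.t0.meas).comp measurable_snd
    exact hsm.integral_prod_right.measurable
  have hT : T0 (fun x : ι → ℝ =>
      ex gp (fun g : ι → ℝ => dl C τ s fun i => s * x i + √s * g i)) := by
    refine ⟨hmeas, (PG.const (1 / τ)).mono fun x => ?_⟩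
    have h0 : 0 ≤ ex gp (fun g : ι → ℝ => dl C τ s fun i => s * x i + √s * g i) :=
      ex_nonneg _ fun g => dl_nonneg hC hτ hs _
    have h1 : ex gp (fun g : ι → ℝ => dl C τ s fun i => s * x i + √s * g i) ≤ 1 / τ := by
      have hT1 : T0 (fun g : ι → ℝ => dl C τ s fun i => s * x i + √s * g i) := by
        refine ⟨?_, ?_⟩
        · refine (dl_t0 C τ s).meas.comp ?_
          exact measurable_pi_lambda _ fun i =>
            (measurable_const.add ((measurable_pi_apply i).const_mul _))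
        · refine (PG.const (1 / τ)).mono fun g => ?_
          rw [abs_of_nonneg (dl_nonneg hC hτ hs _), abs_of_nonneg hτ']
          exact dl_le _ _ _ _
      have h2 := ex_mono (nice_gp (ι := ι)) hT1 (T0.const (1 / τ)) fun g => dl_le C τ s _
      rwa [ex_const nice_gp] at h2
    rw [abs_of_nonneg h0, abs_of_nonneg hτ']
    exact h1
  have hTη : T0 (fun x : ι → ℝ => eta s x * h x) := ((eta_t1 hs).t0).mul hh
  have hTr : T0 (fun x : ι → ℝ => C' * (√s * h x + eta s x * h x)) :=
    ((hh.cmul _).add hTη).cmul _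
  refine (ex_mono H (hh.mul hT) hTr fun x => ?_).trans ?_
  · have h1 := mul_le_mul_of_nonneg_left (hb s hs hs1 x) (hh0 x)
    refine h1.trans (le_of_eq ?_)
    ring
  · rw [ex_cmul, ex_add H (hh.cmul _) hTη, ex_cmul]

end Pool.Agent.Lib.MP_8d00da_gt.h42k
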