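import Pool.Agent.Lib.MP_8d00da_gt.h42k.R0

/-!
# Theorem R (paper 336): the data of the step (paper 336, R.6)
-/

namespace Pool.Agent.Lib.MP_8d00da_gt.h42k

open MeasureTheory Set Filter
open scoped Topology NNReal ENNReal ContDiff

/-- The weights `s_i = (1 - a_i/σ) + a_i`. -/
noncomputable def sw {ι : Type*} (σ : ℝ) (a : ι → ℝ) (i : ι) : ℝ := 1 - a i / σ + a i

/-- A potential in normal form with covariance `diag a` and a regular almost extremal function `φ`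
for the constant `K_τ`, up to the error `ε`; `C` is a constant which will depend only on the
dimension, a lower bound of `τ` and an upper bound of `σ`. -/
structure GP (ι : Type) [Fintype ι] [DecidableEq ι] (τ σ C ε M : ℝ) (V φ : (ι → ℝ) → ℝ)
    (a : ι → ℝ) : Prop where
  nice : Nice τ M V
  mean : ∀ i, mn V i = 0
  cov : ∀ i j, CM V i j = if i = j then a i else 0
  rng : ∀ i, 0 ≤ a i ∧ a i < σ
  hess : ∀ x u, τ * ∑ i, u i ^ 2 / (1 - a i / σ) ≤ hs V x u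
  cc : Cc φ
  e1 : ex V (gw (sw σ a) φ) ≤ (1 + ε) / KT ι τ
  e2 : ex V (hw (sw σ a) φ) ≤ (1 + ε) / KT ι τ ^ 2
  e3 : ∀ s, 0 < s → s ≤ 1 → ex V (fun x => eta s x * hw (sw σ a) φ x) ≤ C * (√s + ε)
  v0 : 1 - 4 * √ε ≤ var V φ
  v1 : var V φ ≤ 1 + ε
  e4 : ex V (fun x => sq x * (φ x - ex V φ) ^ 2) ≤ C

/-- `e(s) = GE_s E_{s,y}⟨A_s∇φ,∇φ⟩`. -/
noncomputable def en {ι : Type*} [Fintype ι] [DecidableEq ι] (V φ : (ι → ℝ) → ℝ) (s : ℝ) : ℝ :=
  GE V s fun y => EP V s (gM (CM (pt V s y)) φ) y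

end Pool.Agent.Lib.MP_8d00da_gt.h42k
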