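import Pool.Agent.Lib.MP_8d00da_gt.h42k.RH0
import Pool.Agent.Lib.MP_8d00da_gt.h42k.RE1a

/-!
# The constant K_τ (paper 336, R.0)
-/

namespace Pool.Agent.Lib.MP_8d00da_gt.h42k

open MeasureTheory Set Filter
open scoped Topology NNReal ENNReal ContDiff

set_option linter.unusedSectionVars false
set_option linter.unusedVariables false

variable {ι : Type} [Fintype ι] [DecidableEq ι]

variable {τ τ' C C' : ℝ}

private theorem RH1_gM_nn {κ M : ℝ} {V : (ι → ℝ) → ℝ} (H : Nice κ M V) (f : (ι → ℝ) → ℝ)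
    (x : ι → ℝ) : 0 ≤ gM (CM V) f x := by
  have h1 := var_nonneg H (T0.dtf fun i => pd i f x)
  rw [show var V (dt fun i => pd i f x) = var V (fun z => dt (fun i => pd i f x) z) from rfl,
    var_dt H] at h1
  refine h1.trans (le_of_eq ?_)
  unfold gM
  exact Finset.sum_congr rfl fun i _ => Finset.sum_congr rfl fun j _ => by ring

private theorem RH1_bdd : BddBelow {C : ℝ | 0 ≤ C ∧ WT ι τ C} := ⟨0, fun _ hC => hC.1⟩

private theorem RH1_pd_gp (j : ι) (x : ι → ℝ) : pd j (gp : (ι → ℝ) → ℝ) x = x j := by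
  have h1 : (gp : (ι → ℝ) → ℝ) = fun x => (1 / 2 : ℝ) * sq x := by
    funext z
    unfold gp
    ring
  rw [h1, pd_cmul ((contDiff_sq (n := 1)).differentiable (by norm_num)), pd_sq]
  ring

/-- `E⟨(1+A)∇f,∇f⟩ ≥ 0`. -/
theorem ex_gsgM_nonneg {κ M : ℝ} {V : (ι → ℝ) → ℝ} (H : Nice κ M V) (f : (ι → ℝ) → ℝ) :
    0 ≤ ex V (fun x => gs f x + gM (CM V) f x) := by
  refine ex_nonneg V fun x => add_nonneg (Finset.sum_nonneg fun i _ => sq_nonneg _) ?_
  exact RH1_gM_nn H f x

theorem WT.mono (h : WT ι τ C) (hC : C ≤ C') : WT ι τ C' := by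
  intro M V H f hf
  exact (h M V H f hf).trans (mul_le_mul_of_nonneg_right hC (ex_gsgM_nonneg H f))

/-- The Poincare inequality with constant `1/τ` (`BL` with `R = gs f / τ`). -/
theorem WT_inv (hτ : 0 < τ) : WT ι τ (1 / τ) := by
  intro M V H f hf
  have h1 : var V f ≤ ex V (fun x => 1 / τ * gs f x) := by
    refine BL H hf (hf.gst0.cmul (1 / τ)) (fun x => ?_) fun x u => ?_
    · exact mul_nonneg (by positivity) (Finset.sum_nonneg fun i _ => sq_nonneg _)
    · have h2 := gd_sq_le f x u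
      have h3 := H.lo x u
      have h4 : 0 ≤ gs f x := Finset.sum_nonneg fun i _ => sq_nonneg _
      refine h2.trans ?_
      calc gs f x * sq u = 1 / τ * gs f x * (τ * sq u) := by field_simp
        _ ≤ 1 / τ * gs f x * hs V x u := mul_le_mul_of_nonneg_left h3 (by positivity)
  rw [ex_cmul] at h1
  refine h1.trans (mul_le_mul_of_nonneg_left ?_ (by positivity))
  refine ex_mono H hf.gst0 (hf.gst0.add (gM_t0' _ hf)) fun x => ?_
  have := RH1_gM_nn H f x
  linarith

theorem KT_nonneg (τ : ℝ) : 0 ≤ KT ι τ := by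
  exact Real.sInf_nonneg fun C hC => hC.1

theorem KT_le (hτ : 0 < τ) : KT ι τ ≤ 1 / τ := by
  exact csInf_le RH1_bdd ⟨by positivity, WT_inv hτ⟩

/-- The infimum is attained. -/
theorem WT_KT (hτ : 0 < τ) : WT ι τ (KT ι τ) := by
  intro M V H f hf
  have hne : {C : ℝ | 0 ≤ C ∧ WT ι τ C}.Nonempty := ⟨1 / τ, by positivity, WT_inv hτ⟩
  have hE := ex_gsgM_nonneg H f
  rcases hE.eq_or_lt with h0 | h0
  · have h1 := WT_inv (ι := ι) hτ M V H f hf
    rw [← h0, mul_zero] at h1 ⊢
    exact h1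
  · rw [← div_le_iff₀ h0]
    refine le_csInf hne fun C hC => ?_
    rw [div_le_iff₀ h0]
    exact hC.2 M V H f hf

/-- `Nice τ' M V → Nice τ M V` for `τ ≤ τ'`. -/
theorem KT_anti (hτ : 0 < τ) (h : τ ≤ τ') : KT ι τ' ≤ KT ι τ := by
  refine csInf_le RH1_bdd ⟨KT_nonneg τ, ?_⟩
  intro M V H f hf
  exact WT_KT hτ M V (H.mono hτ h le_rfl) f hf

/-- The Gaussian potential `pt gp (τ-1) 0` (`Nice τ τ`) and `f = x_i`: the variance of `x_i` is
`1/τ` (`ibp`), so `1/τ ≤ C (1 + 1/τ)`. -/
theorem KT_half [Nonempty ι] (hτ : 0 < τ) (h : τ ≤ 1) : 1 / 2 ≤ KT ι τ := by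
  obtain ⟨i⟩ := ‹Nonempty ι›
  have H0 : Nice τ τ (pt (gp : (ι → ℝ) → ℝ) (τ - 1) 0) := by
    have h1 := (nice_gp (ι := ι)).ptn (t := τ - 1) (by linarith) 0
    have h2 : (1 : ℝ) + (τ - 1) = τ := by ring
    rwa [h2] at h1
  obtain ⟨V, hV⟩ : ∃ V, V = pt (gp : (ι → ℝ) → ℝ) (τ - 1) 0 := ⟨_, rfl⟩
  rw [← hV] at H0
  have hd : ∀ j x, pd j V x = τ * x j := by
    intro j x
    rw [hV, pd_pt ((nice_gp (ι := ι)).c2.differentiable (by norm_num)), RH1_pd_gp]
    simp only [Pi.zero_apply]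
    ring
  have hm : ex V (fun x => x i) = 0 := by
    have h1 := ibp H0 (T1.const 1) i
    have h2 : (pd i fun _ : ι → ℝ => (1 : ℝ)) = fun _ => 0 := by
      funext x
      exact pd_const 1 i x
    have h3 : (fun x : ι → ℝ => (1 : ℝ) * pd i V x) = fun x => τ * x i := by
      funext x
      rw [hd, one_mul]
    rw [h2, h3, ex_const H0, ex_cmul] at h1
    rcases mul_eq_zero.1 h1.symm with h4 | h4
    · exact absurd h4 hτ.ne'
    · exact h4
  have hm2 : ex V (fun x => x i ^ 2) = 1 / τ := by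
    have h1 := ibp H0 (T1.coord i) i
    have h2 : (pd i fun x : ι → ℝ => x i) = fun _ => 1 := by
      funext x
      rw [pd_coord, if_pos rfl]
    have h3 : (fun x : ι → ℝ => x i * pd i V x) = fun x => τ * x i ^ 2 := by
      funext x
      rw [hd]
      ring
    rw [h2, h3, ex_const H0, ex_cmul] at h1
    field_simp
    linarith
  have hv : var V (fun x => x i) = 1 / τ := by
    rw [var_eq', hm, hm2]
    ring
  have hE : (fun x => gs (fun x : ι → ℝ => x i) x + gM (CM V) (fun x : ι → ℝ => x i) x) =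
      fun _ => 1 + 1 / τ := by
    funext x
    congr 1
    · unfold gs
      rw [Finset.sum_eq_single i]
      · rw [pd_coord, if_pos rfl]; norm_num
      · intro j _ hj
        rw [pd_coord, if_neg hj]; norm_num
      · intro hi
        exact absurd (Finset.mem_univ i) hi
    · unfold gM
      rw [Finset.sum_eq_single i, Finset.sum_eq_single i]
      · rw [pd_coord, if_pos rfl, CM_diag, hv]; ring
      · intro j _ hj
        rw [pd_coord j i, if_neg hj]; ring
      · intro hi
        exact absurd (Finset.mem_univ i) hi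
      · intro j _ hj
        refine Finset.sum_eq_zero fun l _ => ?_
        rw [pd_coord j i, if_neg hj]; ring
      · intro hi
        exact absurd (Finset.mem_univ i) hi
  have hw := WT_KT hτ τ V H0 (fun x => x i) (T1.coord i)
  rw [hE, ex_const H0, hv] at hw
  have h5 : 1 / τ * τ ≤ KT ι τ * (1 + 1 / τ) * τ := mul_le_mul_of_nonneg_right hw hτ.le
  have h6 : 1 / τ * τ = 1 := by field_simp
  have h7 : KT ι τ * (1 + 1 / τ) * τ = KT ι τ * (τ + 1) := by field_simp
  rw [h6, h7] at h5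
  have h8 : KT ι τ * (τ + 1) ≤ KT ι τ * 2 :=
    mul_le_mul_of_nonneg_left (by linarith) (KT_nonneg τ)
  linarith

/-- Almost extremal functions exist (otherwise `KT ι τ / (1 + ε)` would belong to the set; `var V f`
is positive because the inequality to be contradicted is strict; multiply `f` by a constant to get
variance `1`). -/
theorem KT_ext [Nonempty ι] (hτ : 0 < τ) (h : τ ≤ 1) {ε : ℝ} (hε : 0 < ε) :
    ∃ (M : ℝ) (V f : (ι → ℝ) → ℝ), Nice τ M V ∧ T1 f ∧ var V f = 1 ∧
      ex V (fun x => gs f x + gM (CM V) f x) ≤ (1 + ε) / KT ι τ := by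
  have hk := KT_half (ι := ι) hτ h
  have hk0 : 0 < KT ι τ := by linarith
  have hC0 : 0 < KT ι τ / (1 + ε) := by positivity
  have hCk : KT ι τ / (1 + ε) < KT ι τ := by
    rw [div_lt_iff₀ (by linarith)]
    nlinarith
  have hnot : ¬ WT ι τ (KT ι τ / (1 + ε)) := by
    intro hw
    have : KT ι τ ≤ KT ι τ / (1 + ε) := csInf_le RH1_bdd ⟨hC0.le, hw⟩
    linarith
  unfold WT at hnot
  push Not at hnot
  obtain ⟨M, V, H, f, hf, hlt⟩ := hnot
  have hE := ex_gsgM_nonneg H f
  have hv : 0 < var V f := lt_of_le_of_lt (mul_nonneg hC0.le hE) hlt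
  have hd : Differentiable ℝ f := hf.c1.differentiable (by norm_num)
  have hs0 : (√(var V f))⁻¹ ^ 2 = (var V f)⁻¹ := by
    rw [inv_pow, Real.sq_sqrt hv.le]
  refine ⟨M, V, fun x => (√(var V f))⁻¹ * f x, H, hf.cmul _, ?_, ?_⟩
  · rw [var_cmul, hs0, inv_mul_cancel₀ hv.ne']
  · have h1 : (fun x => gs (fun x => (√(var V f))⁻¹ * f x) x +
        gM (CM V) (fun x => (√(var V f))⁻¹ * f x) x) =
        fun x => (var V f)⁻¹ * (gs f x + gM (CM V) f x) := by
      funext x
      rw [← hs0, mul_add]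
      congr 1
      · unfold gs
        rw [Finset.mul_sum]
        refine Finset.sum_congr rfl fun i _ => ?_
        rw [pd_cmul hd]
        ring
      · unfold gM
        rw [Finset.mul_sum]
        refine Finset.sum_congr rfl fun i _ => ?_
        rw [Finset.mul_sum]
        refine Finset.sum_congr rfl fun j _ => ?_
        rw [pd_cmul hd, pd_cmul hd]
        ring
    rw [h1, ex_cmul, inv_mul_le_iff₀ hv]
    have h2 : ex V (fun x => gs f x + gM (CM V) f x) < var V f * ((1 + ε) / KT ι τ) := by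
      have h3 : KT ι τ / (1 + ε) * ex V (fun x => gs f x + gM (CM V) f x) * ((1 + ε) / KT ι τ) <
          var V f * ((1 + ε) / KT ι τ) := mul_lt_mul_of_pos_right hlt (by positivity)
      have h4 : KT ι τ / (1 + ε) * ex V (fun x => gs f x + gM (CM V) f x) * ((1 + ε) / KT ι τ) =
          ex V (fun x => gs f x + gM (CM V) f x) := by
        field_simp
      rwa [h4] at h3
    exact h2.le

end Pool.Agent.Lib.MP_8d00da_gt.h42k
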