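import Pool.Agent.Lib.MP_8d00da_gt.h42k.RF1b
import Pool.Agent.Lib.MP_8d00da_gt.h42k.RF1c

/-!
# Regular almost extremal functions (paper 336, R.6)
-/

namespace Pool.Agent.Lib.MP_8d00da_gt.h42k

open MeasureTheory Set Filter
open scoped Topology NNReal ENNReal ContDiff

set_option linter.unusedSectionVars false
set_option linter.unusedVariables false

variable {ι : Type*} [Fintype ι] [DecidableEq ι]

variable {κ M : ℝ} {V f : (ι → ℝ) → ℝ} {w : ι → ℝ}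

/-- R.6. Let `λ = 1/k`, `ρ = ε/(3k)` and `φ` as in `PD_LW` for `h = f/k`, with the error
`min δ (ρ²)`. `E⟨∇φ,∇h⟩_w = E h LW φ` (`ibp_LW`), so
`E∑w_iφ_if_i = E f LW φ ≥ λ - ρ`; `D := E gw φ = E (φ - Eφ) LW φ ≤ (λ+ρ) (Var φ)^{1/2}` and
`Var φ ≤ k D`, so `D ≤ k (λ+ρ)² ≤ λ(1+ε)`, `Var φ ≤ 1+ε`;
`E gw (f-φ) ≤ λ(1+ε) - 2(λ-ρ) + k(λ+ρ)² ≤ 3ελ`, so `Var (f-φ) ≤ 3ε` and
`(Var φ)^{1/2} ≥ 1 - (3ε)^{1/2}`. -/
theorem near_ext (H : Nice κ M V) (hw0 : ∀ i, 0 < w i) {k ε δ : ℝ} (hk : 0 < k) (hε : 0 < ε)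
    (hε1 : ε ≤ 1 / 64) (hδ : 0 < δ)
    (hP : ∀ g : (ι → ℝ) → ℝ, T1 g → var V g ≤ k * ex V (gw w g)) (hf : T1 f)
    (hf0 : ex V f = 0) (hf1 : var V f = 1) (hfe : ex V (gw w f) ≤ (1 + ε) / k) :
    ∃ φ, Cc φ ∧ ex V (fun x => (LW V w φ x - f x / k) ^ 2) ≤ δ ∧
      ex V (gw w φ) ≤ (1 + ε) / k ∧ ex V (fun x => LW V w φ x ^ 2) ≤ (1 + ε) / k ^ 2 ∧
      1 - 4 * √ε ≤ var V φ ∧ var V φ ≤ 1 + ε := by
  have hρ : 0 < ε / (3 * k) := by positivity
  have hk0 : k ≠ 0 := hk.ne'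
  have hη : 0 < min δ ((ε / (3 * k)) ^ 2) := lt_min hδ (by positivity)
  have hfk : T0 (fun x => f x / k) := by
    simp only [div_eq_mul_inv]
    exact hf.t0.mul (T0.const _)
  have hfk0 : ex V (fun x => f x / k) = 0 := by
    simp only [div_eq_mul_inv]
    rw [ex_mulc, hf0, zero_mul]
  obtain ⟨φ, hφ, hR⟩ := PD_LW H hw0 hfk hfk0 hη
  have hL : T1 (LW V w φ) := LW_t1 H hφ w
  have hRt : T0 (fun x => LW V w φ x - f x / k) := hL.t0.sub hfk
  have hR1 := hR.trans (min_le_left _ _)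
  have hR2 := hR.trans (min_le_right _ _)
  have hF2 : ex V (fun x => f x ^ 2) = 1 := by
    have := var_eq' V f
    rw [hf1, hf0] at this
    linarith
  -- the correlation of the error with f
  have hc := ex_cs H hRt hf.t0
  rw [hF2, mul_one] at hc
  have hc2 := abs_le_of_sq_le_sq (hc.trans hR2) hρ.le
  obtain ⟨hc3, hc4⟩ := abs_le.1 hc2
  -- E f LW φ
  have hfL : ex V (fun x => f x * LW V w φ x) =
      ex V (fun x => (LW V w φ x - f x / k) * f x) + 1 / k := by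
    have h1 : (fun x => f x * LW V w φ x) =
        fun x => (LW V w φ x - f x / k) * f x + f x ^ 2 * (1 / k) := by
      funext x; field_simp; ring
    rw [h1, ex_add H (hRt.mul hf.t0) ((hf.t0.pow 2).mul (T0.const _)), ex_mulc, hF2, one_mul]
  -- E (LW φ)²
  have hLL : ex V (fun x => LW V w φ x ^ 2) =
      ex V (fun x => (LW V w φ x - f x / k) ^ 2) +
        (2 / k) * ex V (fun x => (LW V w φ x - f x / k) * f x) + 1 / k ^ 2 := by
    have h1 : (fun x => LW V w φ x ^ 2) =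
        fun x => ((LW V w φ x - f x / k) ^ 2 + (2 / k) * ((LW V w φ x - f x / k) * f x)) +
          f x ^ 2 * (1 / k ^ 2) := by
      funext x; field_simp; ring
    rw [h1, ex_add H ((hRt.pow 2).add ((hRt.mul hf.t0).cmul _)) ((hf.t0.pow 2).mul (T0.const _)),
      ex_add H (hRt.pow 2) ((hRt.mul hf.t0).cmul _), ex_cmul, ex_mulc, hF2, one_mul]
  have hS : ex V (fun x => LW V w φ x ^ 2) ≤ ((1 + ε / 3) / k) ^ 2 := by
    rw [hLL]
    have h1 : (2 / k) * ex V (fun x => (LW V w φ x - f x / k) * f x) ≤ (2 / k) * (ε / (3 * k)) :=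
      mul_le_mul_of_nonneg_left hc4 (by positivity)
    have h2 : ((1 + ε / 3) / k) ^ 2 = (ε / (3 * k)) ^ 2 + (2 / k) * (ε / (3 * k)) + 1 / k ^ 2 := by
      field_simp; ring
    linarith
  have hq : (1 + ε / 3) ^ 2 ≤ 1 + ε := by nlinarith
  have hS2 : ex V (fun x => LW V w φ x ^ 2) ≤ (1 + ε) / k ^ 2 := by
    refine hS.trans ?_
    rw [div_pow]
    exact div_le_div_of_nonneg_right hq (by positivity)
  -- D
  have hgwn : ∀ g : (ι → ℝ) → ℝ, ∀ x, 0 ≤ gw w g x := fun g x =>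
    Finset.sum_nonneg fun i _ => mul_nonneg (hw0 i).le (_root_.sq_nonneg _)
  have hgwt : ∀ g : (ι → ℝ) → ℝ, T1 g → T0 (gw w g) := fun g hg =>
    T0.sum _ fun i _ => ((hg.pdt0 i).pow 2).cmul (w i)
  have hD : ex V (gw w φ) = cov V φ (LW V w φ) := by
    unfold cov
    rw [ex_LW H hφ w, mul_zero, sub_zero, ibp_LW H hφ.t1 hφ w]
    congr 1
    funext x
    unfold gw
    exact Finset.sum_congr rfl fun i _ => by ring
  have hD0 : 0 ≤ ex V (gw w φ) := ex_nonneg V (hgwn φ)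
  have hvL : var V (LW V w φ) ≤ ex V (fun x => LW V w φ x ^ 2) := by
    rw [var_eq']
    have := _root_.sq_nonneg (ex V (LW V w φ))
    linarith
  have hvφ0 := var_nonneg H hφ.t1.t0
  have hvφ := hP φ hφ.t1
  have hD1 : ex V (gw w φ) ^ 2 ≤ k * ex V (gw w φ) * ((1 + ε / 3) / k) ^ 2 := by
    have h1 := cov_cs H hφ.t1.t0 hL.t0
    rw [← hD] at h1
    refine h1.trans ?_
    exact mul_le_mul hvφ (hvL.trans hS) (var_nonneg H hL.t0) (by positivity)
  have hD2 : ex V (gw w φ) ≤ (1 + ε / 3) ^ 2 / k := by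
    rcases hD0.eq_or_lt with h0 | h0
    · rw [← h0]; positivity
    · have h1 : ex V (gw w φ) * ex V (gw w φ) ≤ ex V (gw w φ) * ((1 + ε / 3) ^ 2 / k) := by
        calc ex V (gw w φ) * ex V (gw w φ) = ex V (gw w φ) ^ 2 := by ring
          _ ≤ k * ex V (gw w φ) * ((1 + ε / 3) / k) ^ 2 := hD1
          _ = ex V (gw w φ) * ((1 + ε / 3) ^ 2 / k) := by field_simp
      exact le_of_mul_le_mul_left h1 h0
  have hD3 : ex V (gw w φ) ≤ (1 + ε) / k := hD2.trans (div_le_div_of_nonneg_right hq hk.le)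
  have hv1 : var V φ ≤ 1 + ε := by
    have h1 : k * ex V (gw w φ) ≤ k * ((1 + ε) / k) := mul_le_mul_of_nonneg_left hD3 hk.le
    have h2 : k * ((1 + ε) / k) = 1 + ε := by field_simp
    linarith
  -- the difference f - φ
  have hm : ex V (fun x => ∑ i, w i * (pd i f x * pd i φ x)) ≥ 1 / k - ε / (3 * k) := by
    rw [← ibp_LW H hf hφ w, hfL]
    linarith
  have hmt : T0 (fun x => ∑ i, w i * (pd i f x * pd i φ x)) :=
    T0.sum _ fun i _ => ((hf.pdt0 i).mul (hφ.t1.pdt0 i)).cmul (w i)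
  have hdiff : ex V (gw w (fun x => f x - φ x)) =
      ex V (gw w f) - 2 * ex V (fun x => ∑ i, w i * (pd i f x * pd i φ x)) + ex V (gw w φ) := by
    have h1 : gw w (fun x => f x - φ x) = fun x =>
        (gw w f x - 2 * ∑ i, w i * (pd i f x * pd i φ x)) + gw w φ x := by
      funext x
      unfold gw
      rw [Finset.mul_sum, ← Finset.sum_sub_distrib, ← Finset.sum_add_distrib]
      refine Finset.sum_congr rfl fun i _ => ?_
      rw [pd_sub (hf.c1.differentiable (by norm_num)) (hφ.t1.c1.differentiable (by norm_num))]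
      ring
    rw [h1, ex_add H ((hgwt f hf).sub (hmt.cmul 2)) (hgwt φ hφ.t1),
      ex_sub H (hgwt f hf) (hmt.cmul 2), ex_cmul]
  have hvd : var V (fun x => f x - φ x) ≤ 3 * ε := by
    refine (hP _ (hf.sub hφ.t1)).trans ?_
    rw [hdiff]
    have h1 : ex V (gw w f) - 2 * ex V (fun x => ∑ i, w i * (pd i f x * pd i φ x)) +
        ex V (gw w φ) ≤ (1 + ε) / k - 2 * (1 / k - ε / (3 * k)) + (1 + ε / 3) ^ 2 / k := by
      linarith
    refine (mul_le_mul_of_nonneg_left h1 hk.le).trans ?_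
    have h2 : k * ((1 + ε) / k - 2 * (1 / k - ε / (3 * k)) + (1 + ε / 3) ^ 2 / k) =
        7 / 3 * ε + ε ^ 2 / 9 := by
      field_simp; ring
    rw [h2]
    nlinarith
  have hsd : 1 ≤ √(var V φ) + √(3 * ε) := by
    have h1 := sd_add_le H hφ.t1.t0 (hf.sub hφ.t1).t0
    have h2 : (fun x => φ x + (f x - φ x)) = f := by
      funext x; ring
    rw [h2, hf1, Real.sqrt_one] at h1
    have h3 := Real.sqrt_le_sqrt hvd
    linarith
  refine ⟨φ, hφ, hR1, hD3, hS2, ?_, hv1⟩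
  have hsε : √(3 * ε) = √3 * √ε := Real.sqrt_mul (by norm_num) ε
  have h3 : √3 ≤ 2 := by
    rw [Real.sqrt_le_left (by norm_num)]
    norm_num
  have hε2 : 0 ≤ √ε := Real.sqrt_nonneg ε
  have hε3 : √ε ≤ 1 / 8 := by
    rw [Real.sqrt_le_left (by norm_num)]
    norm_num
    linarith
  have h4 : √(3 * ε) ≤ 2 * √ε := by
    rw [hsε]
    exact mul_le_mul_of_nonneg_right h3 hε2
  have h5 : 1 - 2 * √ε ≤ √(var V φ) := by linarith
  have h6 : (1 - 2 * √ε) ^ 2 ≤ √(var V φ) ^ 2 := by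
    apply pow_le_pow_left₀ _ h5
    linarith
  rw [Real.sq_sqrt hvφ0] at h6
  nlinarith [_root_.sq_nonneg (√ε)]

end Pool.Agent.Lib.MP_8d00da_gt.h42k
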