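import Pool.Agent.Lib.MP_8d00da_gt.h42k.RH1
import Pool.Agent.Lib.MP_8d00da_gt.h42k.RH2
import Pool.Agent.Lib.MP_8d00da_gt.h42k.RE1
import Pool.Agent.Lib.MP_8d00da_gt.h42k.RF1d
import Pool.Agent.Lib.MP_8d00da_gt.h42k.RF2a
import Pool.Agent.Lib.MP_8d00da_gt.h42k.RF2b

/-!
# Existence of the data of the step (paper 336, R.2, R.6, R.7)
-/

namespace Pool.Agent.Lib.MP_8d00da_gt.h42k

open MeasureTheory Set Filter
open scoped Topology NNReal ENNReal ContDiff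

set_option linter.unusedSectionVars false
set_option linter.unusedVariables false

/-- `1 ≤ s_i ≤ σ`, `a_i ≤ 2 s_i` for `σ ≥ 2`. -/
theorem sw_facts {ι : Type*} {σ : ℝ} (hσ : 2 ≤ σ) {a : ι → ℝ} {i : ι} (h : 0 ≤ a i ∧ a i < σ) :
    1 ≤ sw σ a i ∧ sw σ a i ≤ σ ∧ a i ≤ 2 * sw σ a i := by
  obtain ⟨h0, h1⟩ := h
  have hσ0 : 0 < σ := by linarith
  have e : sw σ a i = 1 - a i / σ + a i := rfl
  have h2 : a i / σ ≤ a i / 2 := div_le_div_of_nonneg_left h0 (by norm_num) hσ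
  have h3 : 0 ≤ a i / σ := div_nonneg h0 hσ0.le
  have h4 : a i / σ ≤ 1 := (div_le_one hσ0).2 h1.le
  have h5 : 1 - a i / σ + a i ≤ σ := by
    have h6 : σ - (1 - a i / σ + a i) = (σ - a i) * (1 - 1 / σ) := by
      field_simp
      ring
    have h7 : 1 / σ ≤ 1 := by
      rw [div_le_one hσ0]
      linarith
    have h8 := mul_nonneg (sub_nonneg.2 h1.le) (sub_nonneg.2 h7)
    linarith
  rw [e]
  refine ⟨by linarith, h5, by linarith⟩

/-- With a diagonal covariance matrix: `gw r f + gM (CM V) f = gw (r + a) f`. -/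
theorem gw_gM_diag {ι : Type} [Fintype ι] [DecidableEq ι] {V : (ι → ℝ) → ℝ} {a : ι → ℝ}
    (h : ∀ i j, CM V i j = if i = j then a i else 0) (r : ι → ℝ) (f : (ι → ℝ) → ℝ) (x : ι → ℝ) :
    gw r f x + gM (CM V) f x = gw (fun i => r i + a i) f x := by
  unfold gw gM
  rw [← Finset.sum_add_distrib]
  refine Finset.sum_congr rfl fun i _ => ?_
  rw [Finset.sum_eq_single i]
  · rw [h, if_pos rfl]
    ring
  · intro j _ hj
    rw [h, if_neg (Ne.symm hj), zero_mul]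
  · intro hi
    exact absurd (Finset.mem_univ i) hi

private theorem RH3_gs_le {ι : Type} [Fintype ι] [DecidableEq ι] {w : ι → ℝ}
    (hw : ∀ i, 1 ≤ w i) (f : (ι → ℝ) → ℝ) (x : ι → ℝ) : gs f x ≤ gw w f x := by
  unfold gs gw
  refine Finset.sum_le_sum fun i _ => ?_
  have := mul_le_mul_of_nonneg_right (hw i) (_root_.sq_nonneg (pd i f x))
  linarith

/-- `KT_ext`, `normal_form`; `WT_KT`, `WT.diag` (`r_i = 1 - a_i/σ`) and `gw_gM_diag` give
`Var g ≤ K_τ E gw s g`; `near_ext` with `k = K_τ`, `δ = ε`; (e3): `weighted_hw` with `η = eta s`,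
`b = s` and `E η (LW φ)² ≤ 2 ε + 2 k⁻² E η f² ≤ 2 ε + 2 k⁻² s E|x|²f²`, `radial` for `f`
(`E f² = 1`, `E|∇f|² ≤ E gw s f ≤ 2/k`), `1/k ≤ 2` (`KT_half`); (e4): `radial` for `φ - Eφ`. -/
theorem exists_GP (ι : Type) [Fintype ι] [DecidableEq ι] [Nonempty ι] {τ₀ σ₁ : ℝ} (h0 : 0 < τ₀)
    (h1 : 2 ≤ σ₁) : ∃ C : ℝ, 0 ≤ C ∧ ∀ τ σ ε : ℝ, τ₀ ≤ τ → τ ≤ 1 → 2 ≤ σ → σ ≤ σ₁ → 0 < ε →
      ε ≤ 1 / 64 → ∃ (M : ℝ) (V φ : (ι → ℝ) → ℝ) (a : ι → ℝ), GP ι τ σ C ε M V φ a := by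
  obtain ⟨n, hn⟩ : ∃ n : ℝ, n = (Fintype.card ι : ℝ) := ⟨_, rfl⟩
  have hn0 : 0 ≤ n := hn ▸ Nat.cast_nonneg _
  refine ⟨2 + 18 * (6 * n / τ₀ + 24 / τ₀ ^ 2) + 12 * σ₁, by positivity, ?_⟩
  intro τ σ ε hτ₀ hτ1 hσ hσ1 hε hε1
  have hτ : 0 < τ := h0.trans_le hτ₀
  have hσ0 : 0 < σ := by linarith
  have hk2 := KT_half (ι := ι) hτ hτ1
  set k : ℝ := KT ι τ with hk
  have hk0 : 0 < k := by linarith
  have hki : 1 / k ≤ 2 := by
    rw [div_le_iff₀ hk0]; linarith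
  have hki0 : 0 ≤ 1 / k := by positivity
  obtain ⟨M, V, f, HV, hf, hv, hfe⟩ := KT_ext (ι := ι) hτ hτ1 hε
  obtain ⟨M', W, g, a, HW, hg, hm, hg0, hCM, ha, hhs, hvg, hge⟩ := normal_form HV hf hσ0
  rw [hv] at hvg
  rw [← hge] at hfe
  have hge' : ex W (gw (sw σ a) g) ≤ (1 + ε) / k := hfe
  have hsw : ∀ i, 1 ≤ sw σ a i ∧ sw σ a i ≤ σ ∧ a i ≤ 2 * sw σ a i := fun i => sw_facts hσ (ha i)
  have hw0 : ∀ i, 0 < sw σ a i := fun i => by linarith [(hsw i).1]
  have hr : ∀ i, 0 < 1 - a i / σ := fun i => by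
    have := (div_lt_one hσ0).2 (ha i).2
    linarith
  have hP : ∀ g : (ι → ℝ) → ℝ, T1 g → var W g ≤ k * ex W (gw (sw σ a) g) := by
    intro g' hg'
    have h1 := (WT_KT (ι := ι) hτ).diag hτ HW hr hhs hg'
    have h2 : (fun x => gw (fun i => 1 - a i / σ) g' x + gM (CM W) g' x) = gw (sw σ a) g' := by
      funext x
      rw [gw_gM_diag hCM]
      rfl
    rw [h2] at h1
    exact h1
  obtain ⟨φ, hφ, hR, he1, hLL, hv0, hv1⟩ := near_ext HW hw0 hk0 hε hε1 hε hP hg hg0 hvg hge'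
  have hg2 : ex W (fun x => g x ^ 2) = 1 := by
    have := var_eq' W g
    rw [hvg, hg0] at this
    linarith
  have hinv : 1 / τ ≤ 1 / τ₀ := one_div_le_one_div_of_le h0 hτ₀
  -- the radial bound
  have hrad : ∀ h : (ι → ℝ) → ℝ, T1 h → ex W (fun x => h x ^ 2) ≤ 2 →
      ex W (gw (sw σ a) h) ≤ 3 → ex W (fun x => sq x * h x ^ 2) ≤
        2 * (6 * n / τ₀ + 24 / τ₀ ^ 2) := by
    intro h hh h2 h3
    have h4 := radial HW hm hh
    have h5 : ex W (gs h) ≤ 3 := (ex_mono HW hh.gst0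
      (T0.sum _ fun i _ => ((hh.pdt0 i).pow 2).cmul _)
      (RH3_gs_le (fun i => (hsw i).1) h)).trans h3
    have h6 : 0 ≤ ex W (fun x => h x ^ 2) := ex_nonneg W fun x => _root_.sq_nonneg _
    have h7 : 0 ≤ ex W (gs h) := ex_nonneg W fun x =>
      Finset.sum_nonneg fun i _ => _root_.sq_nonneg _
    have h8 : 6 * (Fintype.card ι : ℝ) / τ ≤ 6 * n / τ₀ := by
      rw [hn]
      exact div_le_div_of_nonneg_left (by positivity) h0 hτ₀
    have h9 : 8 / τ ^ 2 ≤ 8 / τ₀ ^ 2 :=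
      div_le_div_of_nonneg_left (by norm_num) (by positivity) (pow_le_pow_left₀ h0.le hτ₀ 2)
    have h10 : 6 * (Fintype.card ι : ℝ) / τ * ex W (fun x => h x ^ 2) ≤ 6 * n / τ₀ * 2 :=
      mul_le_mul h8 h2 h6 (by positivity)
    have h11 : 8 / τ ^ 2 * ex W (gs h) ≤ 8 / τ₀ ^ 2 * 3 := mul_le_mul h9 h5 h7 (by positivity)
    have h12 : 8 / τ₀ ^ 2 * 3 = 24 / τ₀ ^ 2 := by ring
    have h13 : 0 ≤ 24 / τ₀ ^ 2 := by positivity
    linarith
  have hε2 : (1 + ε) / k ≤ 3 := by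
    have : (1 + ε) / k = (1 + ε) * (1 / k) := by ring
    rw [this]
    nlinarith
  have hrg := hrad g hg (by rw [hg2]; norm_num) (hge'.trans hε2)
  have hRad0 : 0 ≤ 6 * n / τ₀ + 24 / τ₀ ^ 2 := by positivity
  have hσ₁0 : 0 ≤ σ₁ := by linarith
  refine ⟨M', W, φ, a, HW, hm, hCM, ha, hhs, hφ, he1, ?_, ?_, hv0, hv1, ?_⟩
  · exact (bochner_LW_le HW hφ _).trans hLL
  · intro s hs hs1
    have hηt := eta_t1 (ι := ι) hs.le
    have hη0 : ∀ x : ι → ℝ, 0 ≤ eta s x := fun x => eta_nonneg hs.le x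
    have hL : T1 (LW W (sw σ a) φ) := LW_t1 HW hφ _
    have h1 := weighted_hw HW hφ hηt hη0 (fun x => eta_gs hs.le x) hσ0.le (fun i => (hw0 i).le)
      (fun i => (hsw i).2.1)
    have hgk : T0 (fun x => g x / k) := by
      simp only [div_eq_mul_inv]
      exact hg.t0.mul (T0.const _)
    have hD : T0 (fun x => (LW W (sw σ a) φ x - g x / k) ^ 2) := (hL.t0.sub hgk).pow 2
    have hsg : T0 (fun x => sq x * g x ^ 2) := T0.sqf.mul (hg.t0.pow 2)
    have h2 : ex W (fun x => eta s x * LW W (sw σ a) φ x ^ 2) ≤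
        2 * ε + 8 * s * (2 * (6 * n / τ₀ + 24 / τ₀ ^ 2)) := by
      have h3 : ex W (fun x => eta s x * LW W (sw σ a) φ x ^ 2) ≤
          ex W (fun x => 2 * (LW W (sw σ a) φ x - g x / k) ^ 2 + 8 * s * (sq x * g x ^ 2)) := by
        refine ex_mono HW (hηt.t0.mul (hL.t0.pow 2)) ((hD.cmul 2).add (hsg.cmul _)) fun x => ?_
        have h4 := hη0 x
        have h5 := eta_le_one hs.le x
        have h6 := eta_le hs.le x
        have h7 : LW W (sw σ a) φ x ^ 2 ≤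
            2 * (LW W (sw σ a) φ x - g x / k) ^ 2 + 2 * (g x / k) ^ 2 := by
          have := _root_.sq_nonneg (LW W (sw σ a) φ x - 2 * (g x / k))
          nlinarith
        have h8 : (g x / k) ^ 2 ≤ 4 * g x ^ 2 := by
          have h9 : (g x / k) ^ 2 = (1 / k) ^ 2 * g x ^ 2 := by ring
          rw [h9]
          refine mul_le_mul_of_nonneg_right ?_ (_root_.sq_nonneg _)
          have := pow_le_pow_left₀ hki0 hki 2
          linarith
        have h10 : eta s x * LW W (sw σ a) φ x ^ 2 ≤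
            eta s x * (2 * (LW W (sw σ a) φ x - g x / k) ^ 2 + 2 * (4 * g x ^ 2)) :=
          mul_le_mul_of_nonneg_left (by linarith) h4
        have h11 : eta s x * (2 * (LW W (sw σ a) φ x - g x / k) ^ 2) ≤
            1 * (2 * (LW W (sw σ a) φ x - g x / k) ^ 2) :=
          mul_le_mul_of_nonneg_right h5 (by positivity)
        have h12 : eta s x * (2 * (4 * g x ^ 2)) ≤ s * sq x * (2 * (4 * g x ^ 2)) :=
          mul_le_mul_of_nonneg_right h6 (by positivity)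
        have h13 : eta s x * (2 * (LW W (sw σ a) φ x - g x / k) ^ 2 + 2 * (4 * g x ^ 2)) =
          eta s x * (2 * (LW W (sw σ a) φ x - g x / k) ^ 2) + eta s x * (2 * (4 * g x ^ 2)) := by
          ring
        have h14 : s * sq x * (2 * (4 * g x ^ 2)) = 8 * s * (sq x * g x ^ 2) := by ring
        linarith
      rw [ex_add HW (hD.cmul 2) (hsg.cmul _), ex_cmul, ex_cmul] at h3
      have h4 : 8 * s * ex W (fun x => sq x * g x ^ 2) ≤
          8 * s * (2 * (6 * n / τ₀ + 24 / τ₀ ^ 2)) :=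
        mul_le_mul_of_nonneg_left hrg (by positivity)
      linarith
    have hs2 : s ≤ √s := by
      have h3 : √s * √s = s := Real.mul_self_sqrt hs.le
      have h4 : √s ≤ 1 := by
        rw [Real.sqrt_le_left (by norm_num)]
        linarith
      have h5 := Real.sqrt_nonneg s
      nlinarith
    have h3 : √(σ * s) ≤ σ₁ * √s := by
      rw [Real.sqrt_mul hσ0.le]
      refine mul_le_mul_of_nonneg_right ?_ (Real.sqrt_nonneg _)
      rw [Real.sqrt_le_left hσ₁0]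
      nlinarith
    have h4 : √(ex W (fun x => LW W (sw σ a) φ x ^ 2)) ≤ 3 := by
      rw [Real.sqrt_le_left (by norm_num)]
      refine hLL.trans ?_
      have h5 : (1 + ε) / k ^ 2 = (1 + ε) / k * (1 / k) := by field_simp
      rw [h5]
      have h6 : (1 + ε) / k * (1 / k) ≤ 3 * 2 :=
        mul_le_mul hε2 hki hki0 (by norm_num)
      linarith
    have h5 : √(ex W (gw (sw σ a) φ)) ≤ 2 := by
      rw [Real.sqrt_le_left (by norm_num)]
      have := he1.trans hε2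
      linarith
    have h6 : 2 * √(σ * s) * √(ex W (fun x => LW W (sw σ a) φ x ^ 2)) *
        √(ex W (gw (sw σ a) φ)) ≤ 2 * (σ₁ * √s) * 3 * 2 := by
      have p1 := Real.sqrt_nonneg (σ * s)
      have p2 := Real.sqrt_nonneg (ex W (fun x => LW W (sw σ a) φ x ^ 2))
      have p3 := Real.sqrt_nonneg (ex W (gw (sw σ a) φ))
      have p4 := Real.sqrt_nonneg s
      refine mul_le_mul (mul_le_mul (mul_le_mul_of_nonneg_left h3 (by norm_num)) h4 p2 ?_) h5 p3 ?_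
      · positivity
      · positivity
    have hss := Real.sqrt_nonneg s
    have h7 : 8 * s * (2 * (6 * n / τ₀ + 24 / τ₀ ^ 2)) ≤
        8 * √s * (2 * (6 * n / τ₀ + 24 / τ₀ ^ 2)) :=
      mul_le_mul_of_nonneg_right (by linarith) (by positivity)
    have h8 : 0 ≤ ε * (18 * (6 * n / τ₀ + 24 / τ₀ ^ 2) + 12 * σ₁) := by positivity
    have h9 : 0 ≤ √s * (2 + 2 * (6 * n / τ₀ + 24 / τ₀ ^ 2)) := by positivity
    linarith
  · have hψ : T1 (fun x => φ x - ex W φ) := hφ.t1.sub (T1.const _)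
    have h1 : ex W (fun x => (φ x - ex W φ) ^ 2) ≤ 2 := by
      rw [← var_eq HW hφ.t1.t0]
      linarith
    have h2 : gw (sw σ a) (fun x => φ x - ex W φ) = gw (sw σ a) φ := by
      funext x
      unfold gw
      refine Finset.sum_congr rfl fun i _ => ?_
      rw [pd_sub (hφ.t1.c1.differentiable (by norm_num)) (differentiable_const _), pd_const,
        sub_zero]
    have h3 : ex W (gw (sw σ a) (fun x => φ x - ex W φ)) ≤ 3 := by
      rw [h2]
      exact he1.trans hε2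
    have h4 := hrad _ hψ h1 h3
    refine h4.trans ?_
    nlinarith

end Pool.Agent.Lib.MP_8d00da_gt.h42k
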