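import Pool.Agent.Lib.MP_8d00da_gt.h42k.RH3
import Pool.Agent.Lib.MP_8d00da_gt.h42k.RG1d
import Pool.Agent.Lib.MP_8d00da_gt.h42k.RG2b

/-!
# The step: the variance (paper 336, R.9 (i))
-/

namespace Pool.Agent.Lib.MP_8d00da_gt.h42k

open MeasureTheory Set Filter
open scoped Topology NNReal ENNReal ContDiff

set_option linter.unusedSectionVars false
set_option linter.unusedVariables false

/-- R.9 (i). `d/ds GE_s Var_{s,y}φ = -GE_s ∑_i Cov_{s,y}(φ,x_i)²` (`GE_CP_hasDerivAt`),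
`∑_i Cov_{s,y}(φ,x_i)² ≤ |A_s| Var_{s,y}φ` (`CLe.cov_sq`), `A_s ≤ σ + dl` (`cov_dl` with `τ₀`,
`A ≤ σ`), `GE_s Var_{s,y}φ ≤ Var φ ≤ 1 + ε`, `Var_{s,y}φ ≤ E_{s,y}(φ - Eφ)²` and `dl_GE` with
`h = (φ - Eφ)²`, `eta s ≤ s|x|²`, (e4): the derivative is `≥ -σ(1+ε) - C√s`. Mean value theorem
on `[0,t]`; `√t ≤ √√t`. -/
theorem step_var (ι : Type) [Fintype ι] [DecidableEq ι] [Nonempty ι] {τ₀ σ₁ C₀ : ℝ} (h0 : 0 < τ₀)
    (h1 : 2 ≤ σ₁) (hC₀ : 0 ≤ C₀) : ∃ C : ℝ, 0 ≤ C ∧ ∀ (τ σ ε M : ℝ) (V φ : (ι → ℝ) → ℝ)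
      (a : ι → ℝ), τ₀ ≤ τ → τ ≤ 1 → 2 ≤ σ → σ ≤ σ₁ → 0 < ε → ε ≤ 1 / 64 →
      GP ι τ σ C₀ ε M V φ a → ∀ t, 0 < t → t ≤ 1 →
        1 - 4 * √ε - 2 * σ * t - C * (t * √√t) ≤ GE V t (fun y => CP V t φ φ y) := by
  obtain ⟨C1, hC1, hcd⟩ := cov_dl ι h0
  obtain ⟨C2, hC2, hdl⟩ := dl_GE ι C1 hC1 h0
  refine ⟨C2 * (2 + C₀), by positivity, ?_⟩
  intro τ σ ε M V φ a hτ hτ1 hσ hσ1 hε hε1 G t ht ht1
  have H := G.nice
  have hκ := H.kpos
  have hφ : T0 φ := G.cc.t1.t0
  set h : (ι → ℝ) → ℝ := fun x => (φ x - ex V φ) ^ 2 with hh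
  have hh0 : T0 h := (hφ.sub (T0.const _)).pow 2
  have hhn : ∀ x, 0 ≤ h x := fun x => sq_nonneg _
  have hexh : ex V h = var V φ := (var_eq H hφ).symm
  set u : ℝ → ℝ := fun t => GE V t (fun y => CP V t φ φ y) with hu
  have hcu : ContinuousOn u (Set.Ici 0) :=
    AL.GE_continuousOn H (AL.cp V hφ hφ)
  have hdu : ∀ t, 0 < t → HasDerivAt u
      (- GE V t (fun y => ∑ i, CP V t φ (fun x => x i) y * CP V t φ (fun x => x i) y)) t :=
    fun t h0 => GE_CP_hasDerivAt H hφ hφ h0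
  have hu0 : u 0 = var V φ := by
    simp only [hu]
    rw [GE_zero H]
    have e : pt V 0 (0 : ι → ℝ) = V := by
      funext x
      simp [pt, dt]
    rw [CP, e, var]
  have hdiag : ∀ θ : ι → ℝ, var V (fun x => dt θ x) ≤ σ * sq θ := by
    intro θ
    rw [var_dt H]
    have e1 : ∀ i, ∑ j, θ i * θ j * CM V i j = a i * θ i ^ 2 := by
      intro i
      rw [Finset.sum_eq_single i]
      · rw [G.cov, if_pos rfl]; ring
      · intro j _ hj
        rw [G.cov, if_neg (Ne.symm hj)]; ring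
      · intro hi
        exact absurd (Finset.mem_univ i) hi
    rw [Finset.sum_congr rfl fun i _ => e1 i]
    unfold sq
    rw [Finset.mul_sum]
    exact Finset.sum_le_sum fun i _ => mul_le_mul_of_nonneg_right (G.rng i).2.le (sq_nonneg _)
  have hlow : ∀ s, 0 < s → s ≤ t →
      GE V s (fun y => ∑ i, CP V s φ (fun x => x i) y * CP V s φ (fun x => x i) y) ≤
        2 * σ + C2 * (2 + C₀) * √t := by
    intro s hs hst
    have hs1 : s ≤ 1 := hst.trans ht1
    have hκs : -τ < s := by linarith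
    have hQ0 : T0 (CP V s φ φ) := CP_t0 H hφ hφ hκs
    have hE0 : T0 (EP V s h) := EP_t0 H hh0 hκs
    have hd0 : T0 (dl C1 τ₀ s : (ι → ℝ) → ℝ) := dl_t0 C1 τ₀ s
    have hsum : T0 (fun y => ∑ i, CP V s φ (fun x => x i) y * CP V s φ (fun x => x i) y) :=
      T0.sum Finset.univ fun i _ =>
        (CP_t0 H hφ (T0.coord i) hκs).mul (CP_t0 H hφ (T0.coord i) hκs)
    have hR : T0 (fun y => σ * EP V s h y + dl C1 τ₀ s y * EP V s h y) :=
      (hE0.cmul σ).add (hd0.mul hE0)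
    have hpt : ∀ y, ∑ i, CP V s φ (fun x => x i) y * CP V s φ (fun x => x i) y ≤
        σ * EP V s h y + dl C1 τ₀ s y * EP V s h y := by
      intro y
      have Hy := H.ptn hκs y
      have hCL : CLe (pt V s y) (σ + dl C1 τ₀ s y) := by
        intro θ
        have h2 := hcd τ M V H hτ G.mean s hs.le y θ
        have h3 := hdiag θ
        rw [add_mul]
        linarith
      have h2 := CLe.cov_sq Hy hCL hφ
      have h3 : ∑ i, CP V s φ (fun x => x i) y * CP V s φ (fun x => x i) y =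
          ∑ i, cov (pt V s y) φ (fun x => x i) ^ 2 :=
        Finset.sum_congr rfl fun i _ => by unfold CP; ring
      have h4 : var (pt V s y) φ ≤ EP V s h y := var_le Hy hφ _
      have h5 : 0 ≤ dl C1 τ₀ s y := dl_nonneg hC1 h0 hs.le y
      rw [h3]
      calc _ ≤ (σ + dl C1 τ₀ s y) * var (pt V s y) φ := h2
        _ ≤ (σ + dl C1 τ₀ s y) * EP V s h y :=
            mul_le_mul_of_nonneg_left h4 (by linarith)
        _ = _ := by ring
    have h6 : GE V s (fun y => dl C1 τ₀ s y * EP V s h y) ≤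
        C2 * (√s * ex V h + ex V (fun x => eta s x * h x)) :=
      hdl τ M V H h hh0 hhn s hs.le hs1
    have h7 : ex V (fun x => eta s x * h x) ≤ s * C₀ := by
      have h8 : ex V (fun x => eta s x * h x) ≤ ex V (fun x => s * (sq x * h x)) := by
        refine ex_mono H ((eta_t1 hs.le).t0.mul hh0) ((T0.sqf.mul hh0).cmul s) fun x => ?_
        have := mul_le_mul_of_nonneg_right (eta_le hs.le x) (hhn x)
        linarith
      rw [ex_cmul] at h8
      exact h8.trans (mul_le_mul_of_nonneg_left G.e4 hs.le)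
    have hss : √s ≤ √t := Real.sqrt_le_sqrt hst
    have hs2 : s ≤ √s := by
      have h9 : √s ≤ 1 := Real.sqrt_le_one.2 hs1
      have h10 := Real.mul_self_sqrt hs.le
      nlinarith [Real.sqrt_nonneg s]
    have hv2 : var V φ ≤ 2 := by
      have := G.v1
      linarith
    have hv0 : 0 ≤ var V φ := var_nonneg H hφ
    have h11 : √s * ex V h + ex V (fun x => eta s x * h x) ≤ (2 + C₀) * √t := by
      rw [hexh]
      have h12 : √s * var V φ ≤ √t * 2 := mul_le_mul hss hv2 hv0 (Real.sqrt_nonneg _)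
      have h13 : s * C₀ ≤ √t * C₀ := mul_le_mul_of_nonneg_right (hs2.trans hss) hC₀
      linarith
    have h14 := mul_le_mul_of_nonneg_left h11 hC2
    calc _ ≤ GE V s (fun y => σ * EP V s h y + dl C1 τ₀ s y * EP V s h y) :=
          GE_mono H hsum hR s hpt
      _ = σ * var V φ + GE V s (fun y => dl C1 τ₀ s y * EP V s h y) := by
          rw [GE_add H (hE0.cmul σ) (hd0.mul hE0) s, GE_cmul]
          have h15 : GE V s (fun y => EP V s h y) = ex V h := GE_EP H hh0 hs.le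
          rw [h15, hexh]
      _ ≤ 2 * σ + C2 * (2 + C₀) * √t := by
          have h16 : σ * var V φ ≤ σ * 2 := mul_le_mul_of_nonneg_left hv2 (by linarith)
          linarith
  have hmvt : u 0 - (2 * σ + C2 * (2 + C₀) * √t) * t ≤ u t := by
    have hcu' : ContinuousOn u (Set.Icc 0 t) := hcu.mono fun s hs => hs.1
    have h17 := (convex_Icc 0 t).mul_sub_le_image_sub_of_le_deriv hcu'
      (fun s hs => by
        rw [interior_Icc] at hs
        exact (hdu s hs.1).differentiableAt.differentiableWithinAt)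
      (C := -(2 * σ + C2 * (2 + C₀) * √t)) (fun s hs => by
        rw [interior_Icc] at hs
        rw [(hdu s hs.1).deriv]
        have := hlow s hs.1 hs.2.le
        linarith) 0 (Set.left_mem_Icc.2 ht.le) t (Set.right_mem_Icc.2 ht.le) ht.le
    rw [sub_zero] at h17
    linarith
  have h18 := G.v0
  rw [hu0] at hmvt
  have h19 : √t ≤ √√t := by
    have h20 : √t ≤ 1 := Real.sqrt_le_one.2 ht1
    have h21 := Real.mul_self_sqrt (Real.sqrt_nonneg t)
    have h22 : √√t ≤ 1 := Real.sqrt_le_one.2 h20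
    nlinarith [Real.sqrt_nonneg (√t)]
  have h23 : C2 * (2 + C₀) * √t * t ≤ C2 * (2 + C₀) * (t * √√t) := by
    have h24 : t * √t ≤ t * √√t := mul_le_mul_of_nonneg_left h19 ht.le
    have h25 := mul_le_mul_of_nonneg_left h24 (by positivity : 0 ≤ C2 * (2 + C₀))
    linarith
  change 1 - 4 * √ε - 2 * σ * t - C2 * (2 + C₀) * (t * √√t) ≤ u t
  linarith

end Pool.Agent.Lib.MP_8d00da_gt.h42k
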