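import Pool.Agent.Lib.MP_8d00da_gt.h42k.RH0
import Pool.Agent.Lib.MP_8d00da_gt.h42k.S6b
import Pool.Agent.Lib.MP_8d00da_gt.h42k.RD3

/-!
# The energy in the channel (paper 336, R.9 (ii))
-/

namespace Pool.Agent.Lib.MP_8d00da_gt.h42k

open MeasureTheory Set Filter
open scoped Topology NNReal ENNReal ContDiff

set_option linter.unusedSectionVars false
set_option linter.unusedVariables false

variable {ι : Type} [Fintype ι] [DecidableEq ι]

variable {κ M : ℝ} {V φ : (ι → ℝ) → ℝ}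

private theorem RI2_diff {Φ : ℝ → (ι → ℝ) → ℝ} {t : ℝ}
    (h1 : ∀ y, ContDiffAt ℝ ∞ (fun p : ℝ × (ι → ℝ) => Φ p.1 p.2) (t, y)) :
    ContDiff ℝ ∞ (Φ t) := by
  rw [contDiff_iff_contDiffAt]
  intro y
  have h3 : ContDiffAt ℝ ∞ (fun z : ι → ℝ => ((t, z) : ℝ × (ι → ℝ))) y :=
    contDiffAt_const.prodMk contDiffAt_id
  exact ContDiffAt.comp (g := fun p : ℝ × (ι → ℝ) => Φ p.1 p.2)
    (f := fun z : ι → ℝ => ((t, z) : ℝ × (ι → ℝ))) y (h1 y) h3

private theorem RI2_difft {Φ : ℝ → (ι → ℝ) → ℝ} {t : ℝ} {y : ι → ℝ}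
    (h1 : ContDiffAt ℝ ∞ (fun p : ℝ × (ι → ℝ) => Φ p.1 p.2) (t, y)) :
    DifferentiableAt ℝ (fun s => Φ s y) t := by
  have h2 : DifferentiableAt ℝ (fun p : ℝ × (ι → ℝ) => Φ p.1 p.2) (t, y) :=
    h1.differentiableAt (by simp)
  have h3 : DifferentiableAt ℝ (fun s : ℝ => ((s, y) : ℝ × (ι → ℝ))) t :=
    differentiableAt_id.prodMk (differentiableAt_const y)
  exact DifferentiableAt.comp (g := fun p : ℝ × (ι → ℝ) => Φ p.1 p.2)
    (f := fun s : ℝ => ((s, y) : ℝ × (ι → ℝ))) t h2 h3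

private theorem RI2_pdd {f : (ι → ℝ) → ℝ} (hf : ContDiff ℝ ∞ f) (i : ι) :
    Differentiable ℝ (pd i f) := by
  have h : ContDiff ℝ ((1 + 1 : ℕ) : WithTop ℕ∞) f := contDiff_infty.1 hf (1 + 1)
  exact (contDiff_pd h i).differentiable (by norm_num)

private theorem RI2_Gn_sum {α : Type*} (S : Finset α) {F : α → ℝ → (ι → ℝ) → ℝ} {t : ℝ}
    {y : ι → ℝ} (h : ∀ a ∈ S, ∀ y, ContDiffAt ℝ ∞ (fun p : ℝ × (ι → ℝ) => F a p.1 p.2) (t, y)) :
    Gn V t (fun s y => ∑ a ∈ S, F a s y) y = ∑ a ∈ S, Gn V t (F a) y := by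
  have e1 : deriv (fun s => ∑ a ∈ S, F a s y) t = ∑ a ∈ S, deriv (fun s => F a s y) t :=
    (HasDerivAt.fun_sum fun a ha => (RI2_difft (h a ha y)).hasDerivAt).deriv
  have d1 : ∀ a ∈ S, Differentiable ℝ (F a t) := fun a ha =>
    (RI2_diff (h a ha)).differentiable (by simp)
  have d2 : ∀ i, ∀ a ∈ S, Differentiable ℝ (pd i (F a t)) := fun i a ha =>
    RI2_pdd (RI2_diff (h a ha)) i
  have e2 : ∀ i, pd i (fun y => ∑ a ∈ S, F a t y) = fun y => ∑ a ∈ S, pd i (F a t) y :=
    fun i => funext fun y => pd_sum S d1 i y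
  have e3 : ∀ i, pd i (pd i (fun y => ∑ a ∈ S, F a t y)) y =
      ∑ a ∈ S, pd i (pd i (F a t)) y := by
    intro i
    rw [e2 i]
    exact pd_sum S (d2 i) i y
  unfold Gn
  rw [e1]
  simp only [e3]
  have e4 : ∀ i, pd i (fun y => ∑ a ∈ S, F a t y) y = ∑ a ∈ S, pd i (F a t) y :=
    fun i => congrFun (e2 i) y
  simp only [e4, Finset.mul_sum]
  rw [Finset.sum_add_distrib, Finset.sum_add_distrib]
  congr 1
  · congr 1
    exact Finset.sum_comm
  · exact Finset.sum_comm

private theorem RI2_hT0 (hφ : Cc φ) (i j : ι) : T0 (fun x => pd i φ x * pd j φ x) :=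
  (hφ.pdc i).t1.t0.mul (hφ.pdc j).t1.t0

/-- `e(s) = GE_s ∑_ij A_ij(s,y) E_{s,y}[φ_i φ_j]`. -/
theorem en_eq (H : Nice κ M V) (hφ : Cc φ) {s : ℝ} (hs : -κ < s) :
    en V φ s = GE V s fun y => ∑ i, ∑ j, CM (pt V s y) i j *
      EP V s (fun x => pd i φ x * pd j φ x) y := by
  unfold en
  congr 1
  funext y
  have HN := H.ptn hs y
  unfold EP
  have h1 : gM (CM (pt V s y)) φ = fun x => ∑ i ∈ (Finset.univ : Finset ι),
      ∑ j ∈ (Finset.univ : Finset ι), CM (pt V s y) i j * (pd i φ x * pd j φ x) := rfl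
  rw [h1, ex_sum HN Finset.univ (F := fun i x => ∑ j ∈ (Finset.univ : Finset ι),
    CM (pt V s y) i j * (pd i φ x * pd j φ x)) fun i _ => T0.sum _ fun j _ =>
      (RI2_hT0 hφ i j).cmul _]
  refine Finset.sum_congr rfl fun i _ => ?_
  rw [ex_sum HN Finset.univ (F := fun j x => CM (pt V s y) i j * (pd i φ x * pd j φ x))
    fun j _ => (RI2_hT0 hφ i j).cmul _]
  refine Finset.sum_congr rfl fun j _ => ?_
  rw [ex_cmul]

theorem en_al (V : (ι → ℝ) → ℝ) (hφ : Cc φ) : AL V (fun s y => ∑ i, ∑ j, CM (pt V s y) i j *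
      EP V s (fun x => pd i φ x * pd j φ x) y) :=
  AL.sum Finset.univ fun i _ => AL.sum Finset.univ fun j _ =>
    (AL.cm V i j).mul (AL.ep _ (RI2_hT0 hφ i j))

theorem en_zero (H : Nice κ M V) (hφ : Cc φ) : en V φ 0 = ex V (gM (CM V) φ) := by
  unfold en
  rw [GE_zero H]
  unfold EP
  have h3 : pt V 0 (0 : ι → ℝ) = V := by
    funext x
    unfold pt dt
    simp
  rw [h3]

theorem en_cont (H : Nice κ M V) (hφ : Cc φ) : ContinuousOn (en V φ) (Set.Ici 0) := by
  have h1 := (en_al V hφ).GE_continuousOn H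
  refine h1.congr fun s hs => ?_
  exact en_eq H hφ (lt_of_lt_of_le (by linarith [H.kpos]) hs)

theorem en_rhs_t0 (H : Nice κ M V) (hφ : Cc φ) {s : ℝ} (hs : -κ < s) :
    T0 (fun y => ∑ i, ∑ j, ∑ k, TM (pt V s y) i j k *
        cov (pt V s y) (fun x => pd i φ x * pd j φ x) (fun x => x k)) := by
  refine T0.sum _ fun i _ => T0.sum _ fun j _ => T0.sum _ fun k _ => ?_
  refine T0.mul ?_ (CP_t0 H (RI2_hT0 hφ i j) (T0.coord k) hs)
  obtain ⟨Ψ, h1, h2⟩ := (AL.cm V i j).pdx H k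
  have h3 : (fun y => TM (pt V s y) i j k) = Ψ s := by
    funext y
    rw [← h2 s hs y, CM_pd H hs y k i j]
    rfl
  rw [h3]
  exact h1.t0 H hs

/-- `G[A_ij E h_ij] = -(A²)_ij E h_ij + ∑_k ∂_k A_ij ∂_k E h_ij` (`Gn_mul`, `Gn_CM`, `Gn_EP`,
`CM_pd`, `EP_pd`), and `∑_ij (A²)_ij E[φ_iφ_j] = E|A∇φ|² ≥ 0` is dropped. -/
theorem en_deriv (H : Nice κ M V) (hφ : Cc φ) {s : ℝ} (hs : 0 < s) :
    ∃ d, HasDerivAt (en V φ) d s ∧
      d ≤ GE V s (fun y => ∑ i, ∑ j, ∑ k, TM (pt V s y) i j k *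
        cov (pt V s y) (fun x => pd i φ x * pd j φ x) (fun x => x k)) := by
  have hκ := H.kpos
  have hsκ : -κ < s := by linarith
  have h1 := (en_al V hφ).generator H hs
  refine ⟨_, h1.congr_of_eventuallyEq ?_, ?_⟩
  · filter_upwards [Ioi_mem_nhds hs] with r hr
    exact en_eq H hφ (by linarith [Set.mem_Ioi.1 hr])
  · refine GE_mono H ((en_al V hφ).Gn_t0 H hsκ) (en_rhs_t0 H hφ hsκ) s fun y => ?_
    have HN := H.ptn hsκ y
    have hcm : ∀ i j, ∀ y, ContDiffAt ℝ ∞ (fun p : ℝ × (ι → ℝ) => CM (pt V p.1 p.2) i j) (s, y) :=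
      fun i j y => (AL.cm V i j).smooth H hsκ y
    have hep : ∀ i j, ∀ y, ContDiffAt ℝ ∞ (fun p : ℝ × (ι → ℝ) =>
        EP V p.1 (fun x => pd i φ x * pd j φ x) p.2) (s, y) :=
      fun i j y => EP_contDiffAt H (RI2_hT0 hφ i j) hsκ y
    have e1 : Gn V s (fun s y => ∑ i, ∑ j, CM (pt V s y) i j *
        EP V s (fun x => pd i φ x * pd j φ x) y) y =
        ∑ i, ∑ j, ((∑ k, TM (pt V s y) i j k *
          cov (pt V s y) (fun x => pd i φ x * pd j φ x) (fun x => x k)) -
          (∑ l, CM (pt V s y) i l * CM (pt V s y) l j) *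
            EP V s (fun x => pd i φ x * pd j φ x) y) := by
      rw [RI2_Gn_sum Finset.univ (F := fun i s y => ∑ j, CM (pt V s y) i j *
        EP V s (fun x => pd i φ x * pd j φ x) y)]
      · refine Finset.sum_congr rfl fun i _ => ?_
        rw [RI2_Gn_sum Finset.univ (F := fun j s y => CM (pt V s y) i j *
          EP V s (fun x => pd i φ x * pd j φ x) y)]
        · refine Finset.sum_congr rfl fun j _ => ?_
          rw [Gn_mul (Φ := fun s y => CM (pt V s y) i j)
            (Ψ := fun s y => EP V s (fun x => pd i φ x * pd j φ x) y) (hcm i j) (hep i j),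
            Gn_CM H hsκ y i j]
          have h2 : Gn V s (fun s y => EP V s (fun x => pd i φ x * pd j φ x) y) y = 0 :=
            Gn_EP H (RI2_hT0 hφ i j) hsκ y
          rw [h2, mul_zero, zero_add]
          have h3 : ∀ k, pd k (fun y => CM (pt V s y) i j) y *
              pd k (fun y => EP V s (fun x => pd i φ x * pd j φ x) y) y =
              TM (pt V s y) i j k *
                cov (pt V s y) (fun x => pd i φ x * pd j φ x) (fun x => x k) := by
            intro k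
            rw [CM_pd H hsκ y k i j]
            have h4 : pd k (fun y => EP V s (fun x => pd i φ x * pd j φ x) y) y =
              CP V s (fun x => pd i φ x * pd j φ x) (fun x => x k) y :=
              EP_pd H (RI2_hT0 hφ i j) hsκ y k
            rw [h4]
            rfl
          rw [Finset.sum_congr rfl fun k _ => h3 k]
          ring
        · intro j _ y
          exact (hcm i j y).mul (hep i j y)
      · intro i _ y
        exact ContDiffAt.sum fun j _ => (hcm i j y).mul (hep i j y)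
    rw [e1]
    have e2 : ∑ i, ∑ j, ((∑ k, TM (pt V s y) i j k *
          cov (pt V s y) (fun x => pd i φ x * pd j φ x) (fun x => x k)) -
          (∑ l, CM (pt V s y) i l * CM (pt V s y) l j) *
            EP V s (fun x => pd i φ x * pd j φ x) y) =
        (∑ i, ∑ j, ∑ k, TM (pt V s y) i j k *
          cov (pt V s y) (fun x => pd i φ x * pd j φ x) (fun x => x k)) -
        ex (pt V s y) (fun x => ∑ l, (∑ i, CM (pt V s y) i l * pd i φ x) ^ 2) := by
      simp only [Finset.sum_sub_distrib]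
      congr 1
      have h5 : (fun x => ∑ l, (∑ i, CM (pt V s y) i l * pd i φ x) ^ 2) = fun x =>
          ∑ i, ∑ j, (∑ l, CM (pt V s y) i l * CM (pt V s y) l j) * (pd i φ x * pd j φ x) := by
        funext x
        have h6 : ∀ l, (∑ i, CM (pt V s y) i l * pd i φ x) ^ 2 =
            ∑ i, ∑ j, CM (pt V s y) i l * CM (pt V s y) l j * (pd i φ x * pd j φ x) := by
          intro l
          rw [pow_two, Finset.sum_mul_sum]
          refine Finset.sum_congr rfl fun i _ => Finset.sum_congr rfl fun j _ => ?_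
          rw [CM_symm (pt V s y) l j]
          ring
        simp only [h6]
        rw [Finset.sum_comm]
        refine Finset.sum_congr rfl fun i _ => ?_
        rw [Finset.sum_comm]
        refine Finset.sum_congr rfl fun j _ => ?_
        rw [Finset.sum_mul]
      rw [h5, ex_sum HN Finset.univ (F := fun i x => ∑ j,
        (∑ l, CM (pt V s y) i l * CM (pt V s y) l j) * (pd i φ x * pd j φ x))
        fun i _ => T0.sum _ fun j _ => (RI2_hT0 hφ i j).cmul _]
      refine Finset.sum_congr rfl fun i _ => ?_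
      rw [ex_sum HN Finset.univ (F := fun j x =>
        (∑ l, CM (pt V s y) i l * CM (pt V s y) l j) * (pd i φ x * pd j φ x))
        fun j _ => (RI2_hT0 hφ i j).cmul _]
      refine Finset.sum_congr rfl fun j _ => ?_
      rw [ex_cmul]
      rfl
    rw [e2]
    have h7 : 0 ≤ ex (pt V s y) (fun x => ∑ l, (∑ i, CM (pt V s y) i l * pd i φ x) ^ 2) :=
      ex_nonneg _ fun x => Finset.sum_nonneg fun l _ => sq_nonneg _
    linarith

end Pool.Agent.Lib.MP_8d00da_gt.h42k
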