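import Pool.Agent.Lib.MP_8d00da_gt.h42k.RI2
import Pool.Agent.Lib.MP_8d00da_gt.h42k.RH3
import Pool.Agent.Lib.MP_8d00da_gt.h42k.RG1d
import Pool.Agent.Lib.MP_8d00da_gt.h42k.RG2b

/-!
# The growth of the energy (paper 336, R.9 (ii))
-/

namespace Pool.Agent.Lib.MP_8d00da_gt.h42k

open MeasureTheory Set Filter
open scoped Topology NNReal ENNReal ContDiff

set_option linter.unusedSectionVars false
set_option linter.unusedVariables false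

variable {ι : Type} [Fintype ι] [DecidableEq ι]

private theorem RI3_var {V : (ι → ℝ) → ℝ} {κ M : ℝ} (H : Nice κ M V) {a : ι → ℝ}
    (h : ∀ i j, CM V i j = if i = j then a i else 0) (θ : ι → ℝ) :
    var V (fun x => dt θ x) = ∑ i, a i * θ i ^ 2 := by
  rw [← CM_quad H]
  refine Finset.sum_congr rfl fun i _ => ?_
  rw [Finset.sum_eq_single i]
  · rw [h, if_pos rfl]
    ring
  · intro j _ hj
    rw [h, if_neg (Ne.symm hj)]
    ring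
  · intro hi
    exact absurd (Finset.mem_univ i) hi

private theorem RI3_gM {W φ : (ι → ℝ) → ℝ} {κ M : ℝ} (H : Nice κ M W) (x : ι → ℝ) :
    gM (CM W) φ x = var W (fun z => dt (fun i => pd i φ x) z) := by
  rw [← CM_quad H]
  unfold gM
  exact Finset.sum_congr rfl fun i _ => Finset.sum_congr rfl fun j _ => by ring

private theorem RI3_hM {W φ : (ι → ℝ) → ℝ} {κ M : ℝ} (H : Nice κ M W) (x : ι → ℝ) :
    hM (CM W) φ x = ∑ k, var W (fun z => dt (fun i => pd k (pd i φ) x) z) := by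
  have h1 : ∀ k, var W (fun z => dt (fun i => pd k (pd i φ) x) z) =
      ∑ i, ∑ j, CM W i j * (pd k (pd i φ) x * pd k (pd j φ) x) := by
    intro k
    rw [← CM_quad H]
    exact Finset.sum_congr rfl fun i _ => Finset.sum_congr rfl fun j _ => by ring
  simp only [h1]
  unfold hM
  symm
  rw [Finset.sum_comm]
  refine Finset.sum_congr rfl fun i _ => ?_
  rw [Finset.sum_comm]
  refine Finset.sum_congr rfl fun j _ => ?_
  rw [Finset.mul_sum]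

/-- The quadratic form of the covariance at `(s,y)` in terms of the weights. -/
private theorem RI3_quad {V : (ι → ℝ) → ℝ} {a : ι → ℝ} {σ δ v : ℝ} (hσ : 2 ≤ σ)
    (ha : ∀ i, 0 ≤ a i ∧ a i < σ) (hδ : 0 ≤ δ) (u : ι → ℝ)
    (hv : v ≤ ∑ i, a i * u i ^ 2 + δ * sq u) :
    v ≤ (2 + δ) * ∑ i, sw σ a i * u i ^ 2 := by
  refine hv.trans ?_
  unfold sq
  rw [Finset.mul_sum, Finset.mul_sum, ← Finset.sum_add_distrib]
  refine Finset.sum_le_sum fun i _ => ?_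
  obtain ⟨h1, h2, h3⟩ := sw_facts hσ (ha i)
  have h4 := sq_nonneg (u i)
  have h5 : δ ≤ δ * sw σ a i := by nlinarith
  nlinarith

private theorem RI3_sqrt {a b : ℝ} (ha : 0 ≤ a) (hb : 0 ≤ b) : √(a + b) ≤ √a + √b := by
  have h1 := Real.sqrt_nonneg a
  have h2 := Real.sqrt_nonneg b
  refine Real.sqrt_le_iff.2 ⟨by positivity, ?_⟩
  have h3 := Real.sq_sqrt ha
  have h4 := Real.sq_sqrt hb
  nlinarith [mul_nonneg h1 h2]

private theorem RI3_num {K σ σ₁ τ τ₀ δ s : ℝ} (hK0 : 0 ≤ K) (h0 : 0 < τ₀) (hτ : τ₀ ≤ τ)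
    (hσ : 0 ≤ σ) (hσ₁ : σ ≤ σ₁) (hs : 0 ≤ s) (hδ : 0 ≤ δ) (hδ' : δ ≤ 1 / τ₀) :
    2 / (τ + s) * √(K * (σ + δ)) * (2 + δ) ≤ 4 * √(K * σ) / τ +
      (2 / τ₀ * (√(1 / τ₀) * √(K * σ₁) + (2 + 1 / τ₀) * √K)) * √δ := by
  have hτp : 0 < τ := by linarith
  have e1 : 2 / (τ + s) ≤ 2 / τ := by
    apply div_le_div_of_nonneg_left (by norm_num) hτp
    linarith
  have e2 : √(K * (σ + δ)) ≤ √(K * σ) + √K * √δ := by
    rw [mul_add]
    refine (RI3_sqrt (by positivity) (by positivity)).trans ?_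
    rw [Real.sqrt_mul hK0 δ]
  have hA := Real.sqrt_nonneg (K * σ)
  have hB := Real.sqrt_nonneg K
  have hD := Real.sqrt_nonneg δ
  have e3 : √(K * σ) ≤ √(K * σ₁) := Real.sqrt_le_sqrt (mul_le_mul_of_nonneg_left hσ₁ hK0)
  have e4 : δ ≤ √(1 / τ₀) * √δ := by
    have h1 : √δ ≤ √(1 / τ₀) := Real.sqrt_le_sqrt hδ'
    have h2 := Real.mul_self_sqrt hδ
    nlinarith
  have e5 : (2 + δ) * √(K * (σ + δ)) ≤
      2 * √(K * σ) + (√(1 / τ₀) * √(K * σ₁) + (2 + 1 / τ₀) * √K) * √δ := by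
    have h1 : (2 + δ) * √(K * (σ + δ)) ≤ (2 + δ) * (√(K * σ) + √K * √δ) :=
      mul_le_mul_of_nonneg_left e2 (by linarith)
    have h2 : δ * √(K * σ) ≤ √(1 / τ₀) * √δ * √(K * σ₁) :=
      mul_le_mul e4 e3 hA (by positivity)
    have h3 : (2 + δ) * (√K * √δ) ≤ (2 + 1 / τ₀) * (√K * √δ) :=
      mul_le_mul_of_nonneg_right (by linarith) (by positivity)
    nlinarith
  have e6 : 0 ≤ (2 + δ) * √(K * (σ + δ)) := by positivity
  have e7 : 2 / (τ + s) * √(K * (σ + δ)) * (2 + δ) ≤ 2 / τ * ((2 + δ) * √(K * (σ + δ))) := by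
    have : 2 / (τ + s) * √(K * (σ + δ)) * (2 + δ) = 2 / (τ + s) * ((2 + δ) * √(K * (σ + δ))) := by
      ring
    rw [this]
    exact mul_le_mul_of_nonneg_right e1 e6
  have e8 : 2 / τ * ((2 + δ) * √(K * (σ + δ))) ≤ 2 / τ * (2 * √(K * σ) +
      (√(1 / τ₀) * √(K * σ₁) + (2 + 1 / τ₀) * √K) * √δ) :=
    mul_le_mul_of_nonneg_left e5 (by positivity)
  have e9 : 2 / τ * ((√(1 / τ₀) * √(K * σ₁) + (2 + 1 / τ₀) * √K) * √δ) ≤
      2 / τ₀ * ((√(1 / τ₀) * √(K * σ₁) + (2 + 1 / τ₀) * √K) * √δ) := by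
    refine mul_le_mul_of_nonneg_right ?_ (by positivity)
    exact div_le_div_of_nonneg_left (by norm_num) h0 hτ
  calc 2 / (τ + s) * √(K * (σ + δ)) * (2 + δ) ≤ 2 / τ * (2 * √(K * σ) +
      (√(1 / τ₀) * √(K * σ₁) + (2 + 1 / τ₀) * √K) * √δ) := e7.trans e8
    _ = 4 * √(K * σ) / τ + 2 / τ * ((√(1 / τ₀) * √(K * σ₁) + (2 + 1 / τ₀) * √K) * √δ) := by ring
    _ ≤ 4 * √(K * σ) / τ + 2 / τ₀ * ((√(1 / τ₀) * √(K * σ₁) + (2 + 1 / τ₀) * √K) * √δ) := by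
        linarith
    _ = _ := by ring

/-- The pointwise bound at `(s,y)`: `third_bound` for `pt V s y` (`D² ≥ τ + s ≥ τ`), and with
`δ = dl C₁ τ₀ s y` (`cov_dl`): `A_s ≤ A + δ`, `|A_s| ≤ σ + δ`, `gM A_s φ ≤ (2+δ) gw`,
`hM A_s φ ≤ (2+δ) hw` (`w ≥ 1`, `a_i ≤ 2 w_i`; `w = sw σ a`),
`√(σ+δ) (2+δ) ≤ 2√σ + C √δ` (`δ ≤ 1/τ₀`). -/
theorem growth_pt (ι : Type) [Fintype ι] [DecidableEq ι] [Nonempty ι] {τ₀ σ₁ C₀ C₁ K : ℝ}
    (h0 : 0 < τ₀) (h1 : 2 ≤ σ₁) (hC₁ : 0 ≤ C₁)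
    (hdl : ∀ (κ M : ℝ) (V : (ι → ℝ) → ℝ), Nice κ M V → τ₀ ≤ κ → (∀ i, mn V i = 0) →
      ∀ s, 0 ≤ s → ∀ y θ : ι → ℝ,
        var (pt V s y) (fun x => dt θ x) ≤ var V (fun x => dt θ x) + dl C₁ τ₀ s y * sq θ)
    (hK : QKP K ι) (hK0 : 0 ≤ K) : ∃ C : ℝ, 0 ≤ C ∧ ∀ (τ σ ε M : ℝ) (V φ : (ι → ℝ) → ℝ)
      (a : ι → ℝ), τ₀ ≤ τ → τ ≤ 1 → 2 ≤ σ → σ ≤ σ₁ → GP ι τ σ C₀ ε M V φ a → ∀ s, 0 ≤ s →
      s ≤ 1 → ∀ y,
        ∑ i, ∑ j, ∑ k, TM (pt V s y) i j k *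
          cov (pt V s y) (fun x => pd i φ x * pd j φ x) (fun x => x k) ≤
        (4 * √(K * σ) / τ + C * √(dl C₁ τ₀ s y)) * (√(EP V s (gw (sw σ a) φ) y) *
          √(EP V s (hw (sw σ a) φ) y)) := by
  refine ⟨2 / τ₀ * (√(1 / τ₀) * √(K * σ₁) + (2 + 1 / τ₀) * √K), by positivity, ?_⟩
  intro τ σ ε M V φ a hτ hτ1 hσ hσ1 hG s hs hs1 y
  have H := hG.nice
  have hτp : 0 < τ := H.kpos
  have HN : Nice (τ + s) (M + s) (pt V s y) := H.ptn (by linarith) y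
  set W := pt V s y with hW
  set δ := dl C₁ τ₀ s y with hδd
  have hδ0 : 0 ≤ δ := dl_nonneg hC₁ h0 hs y
  have hδ1 : δ ≤ 1 / τ₀ := dl_le C₁ τ₀ s y
  have hvar : ∀ u : ι → ℝ, var W (fun x => dt u x) ≤ ∑ i, a i * u i ^ 2 + δ * sq u := by
    intro u
    have h2 := hdl τ M V H hτ hG.mean s hs y u
    rw [RI3_var H hG.cov] at h2
    exact h2
  have hop : opn (CM W) ≤ σ + δ := by
    refine opn_CM_le HN (by linarith) fun u => ?_
    refine (hvar u).trans ?_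
    unfold sq
    rw [Finset.mul_sum, Finset.mul_sum, ← Finset.sum_add_distrib]
    refine Finset.sum_le_sum fun i _ => ?_
    have h3 := (hG.rng i).2
    have h4 := sq_nonneg (u i)
    nlinarith
  have hg : ∀ x, gM (CM W) φ x ≤ (2 + δ) * gw (sw σ a) φ x := by
    intro x
    rw [RI3_gM HN]
    exact RI3_quad (V := V) hσ hG.rng hδ0 _ (hvar _)
  have hh : ∀ x, hM (CM W) φ x ≤ (2 + δ) * hw (sw σ a) φ x := by
    intro x
    rw [RI3_hM HN]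
    unfold hw
    rw [Finset.mul_sum]
    refine Finset.sum_le_sum fun k _ => ?_
    refine (RI3_quad (V := V) hσ hG.rng hδ0 _ (hvar _)).trans ?_
    refine mul_le_mul_of_nonneg_left (Finset.sum_le_sum fun i _ => ?_) (by linarith)
    obtain ⟨h5, -, -⟩ := sw_facts hσ (hG.rng k)
    obtain ⟨h6, -, -⟩ := sw_facts hσ (hG.rng i)
    have h7 : 0 ≤ sw σ a i * pd k (pd i φ) x ^ 2 := by positivity
    calc sw σ a i * pd k (pd i φ) x ^ 2 ≤ sw σ a k * (sw σ a i * pd k (pd i φ) x ^ 2) := by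
          nlinarith
      _ = sw σ a k * sw σ a i * pd k (pd i φ) x ^ 2 := by ring
  have hcc := hG.cc
  have tg : T0 (gw (sw σ a) φ) := gw_t0 _ hcc.t1
  have th : T0 (hw (sw σ a) φ) := hw_t0 _ hcc
  have g1 : ex W (gM (CM W) φ) ≤ (2 + δ) * EP V s (gw (sw σ a) φ) y := by
    have h8 := ex_mono HN (gM_t0 (CM W) hcc) (tg.cmul (2 + δ)) hg
    rw [ex_cmul] at h8
    exact h8
  have g2 : ex W (hM (CM W) φ) ≤ (2 + δ) * EP V s (hw (sw σ a) φ) y := by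
    have h8 := ex_mono HN (hM_t0 (CM W) hcc) (th.cmul (2 + δ)) hh
    rw [ex_cmul] at h8
    exact h8
  have hb := third_bound hK hK0 HN hcc
  refine hb.trans ?_
  have k1 : √(K * opn (CM W)) ≤ √(K * (σ + δ)) :=
    Real.sqrt_le_sqrt (mul_le_mul_of_nonneg_left hop hK0)
  have k2 : √(ex W (gM (CM W) φ)) ≤ √(2 + δ) * √(EP V s (gw (sw σ a) φ) y) := by
    rw [← Real.sqrt_mul (by linarith)]
    exact Real.sqrt_le_sqrt g1
  have k3 : √(ex W (hM (CM W) φ)) ≤ √(2 + δ) * √(EP V s (hw (sw σ a) φ) y) := by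
    rw [← Real.sqrt_mul (by linarith)]
    exact Real.sqrt_le_sqrt g2
  have k4 : √(2 + δ) * √(2 + δ) = 2 + δ := Real.mul_self_sqrt (by linarith)
  have k0 : (0 : ℝ) ≤ 2 / (τ + s) := by positivity
  set X := √(EP V s (gw (sw σ a) φ) y) with hX
  set Y := √(EP V s (hw (sw σ a) φ) y) with hY
  have hX0 : 0 ≤ X := Real.sqrt_nonneg _
  have hY0 : 0 ≤ Y := Real.sqrt_nonneg _
  have hS0 : 0 ≤ √(2 + δ) := Real.sqrt_nonneg _
  calc 2 / (τ + s) * √(K * opn (CM W)) * √(ex W (gM (CM W) φ)) * √(ex W (hM (CM W) φ))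
      ≤ 2 / (τ + s) * √(K * (σ + δ)) * (√(2 + δ) * X) * (√(2 + δ) * Y) := by
        refine mul_le_mul (mul_le_mul (mul_le_mul_of_nonneg_left k1 k0) k2
          (Real.sqrt_nonneg _) (by positivity)) k3 (Real.sqrt_nonneg _) (by positivity)
    _ = 2 / (τ + s) * √(K * (σ + δ)) * (√(2 + δ) * √(2 + δ)) * (X * Y) := by ring
    _ = 2 / (τ + s) * √(K * (σ + δ)) * (2 + δ) * (X * Y) := by rw [k4]
    _ ≤ _ := mul_le_mul_of_nonneg_right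
        (RI3_num hK0 h0 hτ (by linarith) hσ1 hs hδ0 hδ1) (by positivity)

private theorem RI3_final {c C C' C₀ K ε s g1 g2 e0 : ℝ} (hc : 0 ≤ c) (hC : 0 ≤ C)
    (hC' : 0 ≤ C') (hC₀ : 0 ≤ C₀) (hK : 1 / 2 ≤ K) (hε : 0 < ε) (hε1 : ε ≤ 1 / 64)
    (hs : 0 < s) (hs1 : s ≤ 1)
    (h1 : g1 ^ 2 ≤ (1 + ε) / K * ((1 + ε) / K ^ 2))
    (h2 : g2 ^ 2 ≤ (1 + ε) / K * (C' * (√s * ((1 + ε) / K ^ 2) + C₀ * (√s + ε)))) :
    c * g1 + C * g2 ≤ c * ((1 + ε) / (K * √K)) + C * √(4 * C' * (8 + C₀)) * (√√s + √ε) := by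
  have hK0 : 0 < K := by linarith
  have hsK : √K ^ 2 = K := Real.sq_sqrt hK0.le
  have hsKp : 0 < √K := Real.sqrt_pos.2 hK0
  have e1 : g1 ≤ (1 + ε) / (K * √K) := by
    refine le_of_sq_le_sq ?_ (by positivity)
    refine h1.trans (le_of_eq ?_)
    rw [div_pow, mul_pow, hsK]
    field_simp
  have hK1 : 1 / K ≤ 2 := by
    rw [div_le_iff₀ hK0]
    linarith
  have hK2 : 1 / K ^ 2 ≤ 4 := by
    rw [div_le_iff₀ (by positivity)]
    nlinarith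
  have f1 : (1 + ε) / K ≤ 4 := by
    have : (1 + ε) / K = (1 + ε) * (1 / K) := by ring
    rw [this]
    have h3 : 0 ≤ 1 / K := by positivity
    nlinarith
  have f2 : (1 + ε) / K ^ 2 ≤ 8 := by
    have : (1 + ε) / K ^ 2 = (1 + ε) * (1 / K ^ 2) := by ring
    rw [this]
    have h3 : 0 ≤ 1 / K ^ 2 := by positivity
    nlinarith
  have hss : 0 ≤ √s := Real.sqrt_nonneg s
  have f3 : g2 ^ 2 ≤ 4 * C' * (8 + C₀) * (√s + ε) := by
    refine h2.trans ?_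
    have h4 : C' * (√s * ((1 + ε) / K ^ 2) + C₀ * (√s + ε)) ≤ C' * ((8 + C₀) * (√s + ε)) := by
      refine mul_le_mul_of_nonneg_left ?_ hC'
      nlinarith
    have h5 : 0 ≤ C' * ((8 + C₀) * (√s + ε)) := by positivity
    have h6 : 0 ≤ C' * (√s * ((1 + ε) / K ^ 2) + C₀ * (√s + ε)) := by positivity
    calc (1 + ε) / K * (C' * (√s * ((1 + ε) / K ^ 2) + C₀ * (√s + ε)))
        ≤ 4 * (C' * ((8 + C₀) * (√s + ε))) := mul_le_mul f1 h4 h6 (by norm_num)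
      _ = _ := by ring
  have f4 : g2 ≤ √(4 * C' * (8 + C₀)) * (√√s + √ε) := by
    refine (Real.le_sqrt_of_sq_le f3).trans ?_
    rw [Real.sqrt_mul (by positivity)]
    exact mul_le_mul_of_nonneg_left (RI3_sqrt hss hε.le)
      (Real.sqrt_nonneg _)
  have g1' := mul_le_mul_of_nonneg_left e1 hc
  have g2' := mul_le_mul_of_nonneg_left f4 hC
  calc c * g1 + C * g2 ≤ c * ((1 + ε) / (K * √K)) + C * (√(4 * C' * (8 + C₀)) * (√√s + √ε)) :=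
        add_le_add g1' g2'
    _ = _ := by ring

/-- R.9 (ii). `en_deriv`, `growth_pt`; Cauchy-Schwarz for `GE_s` (`GE_cs_pt`), `GE_EP`, and
`GE_s[δ E_{s,y}hw] ≤ C (√s E hw + E eta_s hw) ≤ C (√s + ε)` (`dl_GE`, (e2), (e3), `1/K_τ ≤ 2`); the
derivative is at most
`(4√(Kσ)/τ) √(E gw) √(E hw) + C √(E gw) √(√s + ε) ≤ (4√(Kσ)/τ) (1+ε)/(K_τ √K_τ) + C (√√s + √ε)`;
mean value theorem on `[0,t]` (`en_cont`, `en_zero`). -/
theorem step_growth (ι : Type) [Fintype ι] [DecidableEq ι] [Nonempty ι] {τ₀ σ₁ C₀ K : ℝ}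
    (h0 : 0 < τ₀) (h1 : 2 ≤ σ₁) (hC₀ : 0 ≤ C₀) (hK : QKP K ι) (hK0 : 0 ≤ K) :
    ∃ C : ℝ, 0 ≤ C ∧ ∀ (τ σ ε M : ℝ) (V φ : (ι → ℝ) → ℝ) (a : ι → ℝ), τ₀ ≤ τ → τ ≤ 1 →
      2 ≤ σ → σ ≤ σ₁ → 0 < ε → ε ≤ 1 / 64 → GP ι τ σ C₀ ε M V φ a → ∀ t, 0 < t → t ≤ 1 →
        en V φ t ≤ ex V (gM (CM V) φ) +
          t * (4 * √(K * σ) / τ * ((1 + ε) / (KT ι τ * √(KT ι τ))) + C * (√√t + √ε)) := by
  obtain ⟨C₁, hC₁, hdl⟩ := cov_dl ι h0
  obtain ⟨C₂, hC₂, hgr⟩ := growth_pt ι (C₀ := C₀) h0 h1 hC₁ hdl hK hK0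
  obtain ⟨C₃, hC₃, hGE⟩ := dl_GE ι C₁ hC₁ h0
  refine ⟨C₂ * √(4 * C₃ * (8 + C₀)), by positivity, ?_⟩
  intro τ σ ε M V φ a hτ hτ1 hσ hσ1 hε hε1 hG t ht ht1
  have H := hG.nice
  have hτp : 0 < τ := H.kpos
  have hKT : 1 / 2 ≤ KT ι τ := KT_half hτp hτ1
  have hcc := hG.cc
  have tg : T0 (gw (sw σ a) φ) := gw_t0 _ hcc.t1
  have th : T0 (hw (sw σ a) φ) := hw_t0 _ hcc
  have hsw : ∀ i, 0 ≤ sw σ a i := fun i => by linarith [(sw_facts hσ (hG.rng i)).1]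
  have ng : ∀ x, 0 ≤ gw (sw σ a) φ x := fun x =>
    Finset.sum_nonneg fun i _ => mul_nonneg (hsw i) (sq_nonneg _)
  have nh : ∀ x, 0 ≤ hw (sw σ a) φ x := fun x =>
    Finset.sum_nonneg fun i _ => Finset.sum_nonneg fun j _ =>
      mul_nonneg (mul_nonneg (hsw i) (hsw j)) (sq_nonneg _)
  have key : ∀ s, 0 < s → s ≤ t → ∃ d, HasDerivAt (en V φ) d s ∧
      d ≤ 4 * √(K * σ) / τ * ((1 + ε) / (KT ι τ * √(KT ι τ))) +
        C₂ * √(4 * C₃ * (8 + C₀)) * (√√t + √ε) := by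
    intro s hs hst
    have hs1 : s ≤ 1 := hst.trans ht1
    have hsκ : -τ < s := by linarith
    obtain ⟨d, hd, hdle⟩ := en_deriv H hcc hs
    refine ⟨d, hd, hdle.trans ?_⟩
    have tG : T0 (EP V s (gw (sw σ a) φ)) := EP_t0 H tg hsκ
    have tH : T0 (EP V s (hw (sw σ a) φ)) := EP_t0 H th hsκ
    have tD : T0 (dl C₁ τ₀ s : (ι → ℝ) → ℝ) := dl_t0 C₁ τ₀ s
    have nG : ∀ y, 0 ≤ EP V s (gw (sw σ a) φ) y := fun y => ex_nonneg _ ng
    have nH : ∀ y, 0 ≤ EP V s (hw (sw σ a) φ) y := fun y => ex_nonneg _ nh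
    have nD : ∀ y : ι → ℝ, 0 ≤ dl C₁ τ₀ s y := fun y => dl_nonneg hC₁ h0 hs.le y
    set P1 : (ι → ℝ) → ℝ := fun y => √(EP V s (gw (sw σ a) φ) y) * √(EP V s (hw (sw σ a) φ) y)
      with hP1
    set P2 : (ι → ℝ) → ℝ := fun y => √(dl C₁ τ₀ s y) *
      (√(EP V s (gw (sw σ a) φ) y) * √(EP V s (hw (sw σ a) φ) y)) with hP2
    have tP1 : T0 P1 := tG.sqrt.mul tH.sqrt
    have tP2 : T0 P2 := tD.sqrt.mul tP1
    have s1 : GE V s (fun y => ∑ i, ∑ j, ∑ k, TM (pt V s y) i j k *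
        cov (pt V s y) (fun x => pd i φ x * pd j φ x) (fun x => x k)) ≤
        4 * √(K * σ) / τ * GE V s P1 + C₂ * GE V s P2 := by
      rw [← GE_cmul, ← GE_cmul, ← GE_add H (tP1.cmul _) (tP2.cmul _)]
      refine GE_mono H (en_rhs_t0 H hcc hsκ) ((tP1.cmul _).add (tP2.cmul _)) s fun y => ?_
      refine (hgr τ σ ε M V φ a hτ hτ1 hσ hσ1 hG s hs.le hs1 y).trans (le_of_eq ?_)
      simp only [hP1, hP2]
      ring
    refine s1.trans ?_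
    have eG : GE V s (EP V s (gw (sw σ a) φ)) = ex V (gw (sw σ a) φ) := GE_EP H tg hs.le
    have eH : GE V s (EP V s (hw (sw σ a) φ)) = ex V (hw (sw σ a) φ) := GE_EP H th hs.le
    have exg0 : 0 ≤ ex V (gw (sw σ a) φ) := ex_nonneg _ ng
    have exh0 : 0 ≤ ex V (hw (sw σ a) φ) := ex_nonneg _ nh
    have q1 : GE V s P1 ^ 2 ≤ (1 + ε) / KT ι τ * ((1 + ε) / KT ι τ ^ 2) := by
      have h2 := GE_cs_pt H tP1 tG tH s nG nH fun y => by
        simp only [hP1]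
        rw [mul_pow, Real.sq_sqrt (nG y), Real.sq_sqrt (nH y)]
      rw [eG, eH] at h2
      refine h2.trans (mul_le_mul hG.e1 hG.e2 exh0 (exg0.trans hG.e1))
    have q2 : GE V s P2 ^ 2 ≤ (1 + ε) / KT ι τ * (C₃ * (√s * ((1 + ε) / KT ι τ ^ 2) +
        C₀ * (√s + ε))) := by
      have h2 := GE_cs_pt H tP2 tG (tD.mul tH) s nG (fun y => mul_nonneg (nD y) (nH y))
        fun y => by
          simp only [hP2]
          rw [mul_pow, mul_pow, Real.sq_sqrt (nG y), Real.sq_sqrt (nH y), Real.sq_sqrt (nD y)]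
          exact le_of_eq (by ring)
      rw [eG] at h2
      have h3 := hGE τ M V H _ th nh s hs.le hs1
      have h4 := hG.e3 s hs hs1
      have h5 : C₃ * (√s * ex V (hw (sw σ a) φ) + ex V (fun x => eta s x * hw (sw σ a) φ x)) ≤
          C₃ * (√s * ((1 + ε) / KT ι τ ^ 2) + C₀ * (√s + ε)) :=
        mul_le_mul_of_nonneg_left (add_le_add
          (mul_le_mul_of_nonneg_left hG.e2 (Real.sqrt_nonneg s)) h4) hC₃
      have h6 : 0 ≤ GE V s (fun y => dl C₁ τ₀ s y * EP V s (hw (sw σ a) φ) y) :=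
        GE_nonneg V s fun y => mul_nonneg (nD y) (nH y)
      exact h2.trans (mul_le_mul hG.e1 (h3.trans h5) h6 (exg0.trans hG.e1))
    have fin := RI3_final (c := 4 * √(K * σ) / τ) (by positivity) hC₂ hC₃ hC₀ hKT hε hε1 hs hs1
      q1 q2 (e0 := 0)
    refine fin.trans ?_
    have h7 : √√s ≤ √√t := Real.sqrt_le_sqrt (Real.sqrt_le_sqrt hst)
    have h8 : 0 ≤ C₂ * √(4 * C₃ * (8 + C₀)) := by positivity
    have h9 := mul_le_mul_of_nonneg_left (add_le_add_left h7 √ε) h8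
    linarith
  choose! d hd using key
  have hcont : ContinuousOn (en V φ) (Set.Icc 0 t) :=
    (en_cont H hcc).mono fun s hs => hs.1
  obtain ⟨s, hs, hsl⟩ := exists_hasDerivAt_eq_slope (en V φ) d ht hcont
    fun s hs => (hd s hs.1 hs.2.le).1
  have h2 := (hd s hs.1 hs.2.le).2
  rw [hsl, sub_zero, div_le_iff₀ ht, en_zero H hcc] at h2
  linarith

end Pool.Agent.Lib.MP_8d00da_gt.h42k
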