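import Pool.Agent.Lib.MP_8d00da_gt.h42k.RI1
import Pool.Agent.Lib.MP_8d00da_gt.h42k.RI3

/-!
# The step (paper 336, R.9)
-/

namespace Pool.Agent.Lib.MP_8d00da_gt.h42k

open MeasureTheory Set Filter
open scoped Topology NNReal ENNReal ContDiff

set_option linter.unusedSectionVars false
set_option linter.unusedVariables false

private theorem RI4_hs {ι : Type} [Fintype ι] [DecidableEq ι] {V : (ι → ℝ) → ℝ}
    (hV : ContDiff ℝ 2 V) (t : ℝ) (y x u : ι → ℝ) : hs (pt V t y) x u = hs V x u + t * sq u := by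
  have hVd : Differentiable ℝ V := hV.differentiable (by norm_num)
  have h1 : ∀ j : ι, pd j (pt V t y) = fun x => (pd j V x + t * x j) - y j := by
    intro j
    funext x
    exact pd_pt hVd t y x j
  have h2 : ∀ (i j : ι) (x : ι → ℝ), pd i (pd j (pt V t y)) x =
      pd i (pd j V) x + t * if i = j then 1 else 0 := by
    intro i j x
    have hc : Differentiable ℝ (fun x : ι → ℝ => x j) := (T1.coord j).c1.differentiable (by norm_num)
    have hp : Differentiable ℝ (pd j V) :=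
      (contDiff_pd (n := 1) (by exact_mod_cast hV) j).differentiable (by norm_num)
    have k1 : pd i (fun x => (pd j V x + t * x j) - y j) x =
        pd i (fun x => pd j V x + t * x j) x - pd i (fun _ => y j) x :=
      pd_sub (f := fun x => pd j V x + t * x j) (g := fun _ => y j) (hp.fun_add (hc.const_mul t))
        (differentiable_const _) i x
    have k2 : pd i (fun x => pd j V x + t * x j) x = pd i (pd j V) x + pd i (fun x => t * x j) x :=
      pd_add (f := pd j V) (g := fun x => t * x j) hp (hc.const_mul t) i x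
    rw [h1, k1, k2, pd_cmul hc, pd_coord, pd_const]
    ring
  unfold hs sq
  rw [Finset.mul_sum, ← Finset.sum_add_distrib]
  refine Finset.sum_congr rfl fun i _ => ?_
  simp only [h2, mul_add, Finset.sum_add_distrib]
  congr 1
  rw [Finset.sum_eq_single i]
  · rw [if_pos rfl]
    ring
  · intro j _ hj
    rw [if_neg (Ne.symm hj)]
    ring
  · intro h
    exact absurd (Finset.mem_univ i) h

private theorem RI4_gw {ι : Type} [Fintype ι] [DecidableEq ι] (w : ι → ℝ) {f : (ι → ℝ) → ℝ}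
    (hf : T1 f) : T0 (gw w f) :=
  T0.sum _ fun i _ => ((hf.pdt0 i).pow 2).cmul (w i)

private theorem RI4_epgM {ι : Type} [Fintype ι] [DecidableEq ι] {κ M : ℝ} {V f : (ι → ℝ) → ℝ}
    (H : Nice κ M V) (hf : T1 f) {t : ℝ} (ht : -κ < t) :
    T0 (fun y => EP V t (gM (CM (pt V t y)) f) y) := by
  have h1 : (fun y => EP V t (gM (CM (pt V t y)) f) y) = fun y => ∑ i, ∑ j,
      CP V t (fun x => x i) (fun x => x j) y * EP V t (fun x => pd i f x * pd j f x) y := by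
    funext y
    have hN := H.ptn ht y
    unfold EP gM
    rw [ex_sum hN _ fun i _ => T0.sum _ fun j _ => ((hf.pdt0 i).mul (hf.pdt0 j)).cmul _]
    refine Finset.sum_congr rfl fun i _ => ?_
    rw [ex_sum hN _ fun j _ => ((hf.pdt0 i).mul (hf.pdt0 j)).cmul _]
    refine Finset.sum_congr rfl fun j _ => ?_
    rw [ex_cmul]
    rfl
  rw [h1]
  exact T0.sum _ fun i _ => T0.sum _ fun j _ =>
    (CP_t0 H (T0.coord i) (T0.coord j) ht).mul (EP_t0 H ((hf.pdt0 i).mul (hf.pdt0 j)) ht)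

/-- R.9 (iii) for one function: `WT_KT` at `τ + t` and `WT.diag` for `pt V t y`,
`r_i' = (τ+t) r_i/(τ + t r_i)`, `r_i = 1 - a_i/σ`; `(τ+t) u²/r' = τ u²/r + t u²`;
`r' ≤ r + (t/(τσ)) a`; `GE_EP`; `a_i ≤ 2 sw_i`. -/
theorem step_contract (ι : Type) [Fintype ι] [DecidableEq ι] [Nonempty ι] {τ σ C₀ ε M : ℝ}
    {V φ : (ι → ℝ) → ℝ} {a : ι → ℝ} (hτ : 0 < τ) (hσ : 2 ≤ σ) (h : GP ι τ σ C₀ ε M V φ a)
    {t : ℝ} (ht : 0 < t) :
    GE V t (fun y => CP V t φ φ y) ≤ KT ι (τ + t) *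
      (ex V (gw (fun i => 1 - a i / σ) φ) + 2 * t / (τ * σ) * ex V (gw (sw σ a) φ) +
        en V φ t) := by
  have hσ0 : 0 < σ := by linarith
  have hτt : 0 < τ + t := by linarith
  have hφ1 : T1 φ := h.cc.t1
  have hK0 : 0 ≤ KT ι (τ + t) := KT_nonneg _
  have htκ : -τ < t := by linarith
  obtain ⟨r, hr⟩ : ∃ r : ι → ℝ, r = fun i => 1 - a i / σ := ⟨_, rfl⟩
  have hr1 : ∀ i, r i ≤ 1 := by
    intro i
    have := div_nonneg (h.rng i).1 hσ0.le
    rw [hr]
    linarith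
  have hr0 : ∀ i, 0 < r i := by
    intro i
    have := (div_lt_one hσ0).2 (h.rng i).2
    rw [hr]
    linarith
  obtain ⟨r', hr'⟩ : ∃ r' : ι → ℝ, r' = fun i => (τ + t) * r i / (τ + t * r i) := ⟨_, rfl⟩
  have hd : ∀ i, 0 < τ + t * r i := fun i => by have := mul_pos ht (hr0 i); linarith
  have hr'0 : ∀ i, 0 < r' i := by
    intro i
    rw [hr']
    exact div_pos (mul_pos hτt (hr0 i)) (hd i)
  have hquot : ∀ i (v : ℝ), (τ + t) * (v / r' i) = τ * (v / r i) + t * v := by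
    intro i v
    have h1 := (hr0 i).ne'
    have h2 := (hd i).ne'
    have h3 := hτt.ne'
    rw [hr']
    field_simp
  have hr'r : ∀ i, r' i ≤ r i + 2 * t / (τ * σ) * sw σ a i := by
    intro i
    have h1 : r' i ≤ r i + t * (1 - r i) / τ := by
      rw [hr']
      simp only
      rw [div_le_iff₀ (hd i)]
      have h2 : (r i + t * (1 - r i) / τ) * (τ + t * r i) =
          r i * τ + t * (1 - r i) + t * r i * r i + t * (1 - r i) / τ * (t * r i) := by
        field_simp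
        ring
      rw [h2]
      have h3 : 0 ≤ t * (1 - r i) / τ * (t * r i) :=
        mul_nonneg (div_nonneg (mul_nonneg ht.le (by linarith [hr1 i])) hτ.le)
          (mul_nonneg ht.le (hr0 i).le)
      have h4 : 0 ≤ t * ((1 - r i) * (1 - r i)) := mul_nonneg ht.le (mul_self_nonneg _)
      nlinarith
    have h2 : t * (1 - r i) / τ = t / (τ * σ) * a i := by
      rw [hr]
      field_simp
      ring
    have h3 : t / (τ * σ) * a i ≤ 2 * t / (τ * σ) * sw σ a i := by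
      have h4 := (sw_facts hσ (h.rng i)).2.2
      have h5 : 0 ≤ t / (τ * σ) := by positivity
      have h6 := mul_le_mul_of_nonneg_left h4 h5
      have h7 : t / (τ * σ) * (2 * sw σ a i) = 2 * t / (τ * σ) * sw σ a i := by ring
      linarith
    linarith
  have hpt : ∀ y, CP V t φ φ y ≤ KT ι (τ + t) *
      (EP V t (gw r' φ) y + EP V t (gM (CM (pt V t y)) φ) y) := by
    intro y
    have hN := h.nice.ptn htκ y
    have h1 := (WT_KT (ι := ι) hτt).diag hτt hN hr'0 (fun x u => by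
      rw [RI4_hs h.nice.c2, Finset.mul_sum]
      have h2 := h.hess x u
      have h3 : ∑ i, (τ + t) * (u i ^ 2 / r' i) = τ * ∑ i, u i ^ 2 / (1 - a i / σ) + t * sq u := by
        unfold sq
        rw [Finset.mul_sum, Finset.mul_sum, ← Finset.sum_add_distrib]
        refine Finset.sum_congr rfl fun i _ => ?_
        rw [hquot, hr]
      rw [h3]
      linarith) hφ1
    have hT0 : T0 (gM (CM (pt V t y)) φ) :=
      T0.sum _ fun i _ => T0.sum _ fun j _ => ((hφ1.pdt0 i).mul (hφ1.pdt0 j)).cmul _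
    rw [ex_add hN (RI4_gw r' hφ1) hT0] at h1
    exact h1
  have hT1 := EP_t0 h.nice (RI4_gw r' hφ1) htκ
  have hT2 := RI4_epgM h.nice hφ1 htκ
  have h1 : GE V t (fun y => CP V t φ φ y) ≤ GE V t (fun y => KT ι (τ + t) *
      (EP V t (gw r' φ) y + EP V t (gM (CM (pt V t y)) φ) y)) :=
    GE_mono h.nice (CP_t0 h.nice hφ1.t0 hφ1.t0 htκ) ((hT1.add hT2).cmul _) t hpt
  rw [GE_cmul, GE_add h.nice hT1 hT2] at h1
  have h2 : GE V t (fun y => EP V t (gw r' φ) y) = ex V (gw r' φ) :=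
    GE_EP h.nice (RI4_gw r' hφ1) ht.le
  rw [h2] at h1
  refine h1.trans (mul_le_mul_of_nonneg_left ?_ hK0)
  have h3 : ex V (gw r' φ) ≤ ex V (fun x => gw r φ x + 2 * t / (τ * σ) * gw (sw σ a) φ x) := by
    refine ex_mono h.nice (RI4_gw r' hφ1) ((RI4_gw r hφ1).add ((RI4_gw _ hφ1).cmul _)) fun x => ?_
    unfold gw
    rw [Finset.mul_sum, ← Finset.sum_add_distrib]
    refine Finset.sum_le_sum fun i _ => ?_
    have h4 := mul_le_mul_of_nonneg_right (hr'r i) (sq_nonneg (pd i φ x))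
    linarith
  rw [ex_add h.nice (RI4_gw r hφ1) ((RI4_gw _ hφ1).cmul _), ex_cmul] at h3
  rw [hr] at h3
  have h5 : GE V t (fun y => EP V t (gM (CM (pt V t y)) φ) y) = en V φ t := rfl
  rw [h5]
  linarith

/-- R.9: combine `exists_GP` (for all small `ε`), `step_var`, `step_growth`, `step_contract`
(`gw_gM_diag`: `E gw (1-a/σ) φ + E gM (CM V) φ = E gw (sw σ a) φ ≤ (1+ε)/K_τ`), multiply by `K_τ`
(`1/2 ≤ K_τ ≤ 1/τ₀`) and let `ε → 0`. -/
theorem step (ι : Type) [Fintype ι] [DecidableEq ι] [Nonempty ι] {K : ℝ} (hK : QKP K ι)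
    (hK1 : 1 ≤ K) {τ₀ σ₁ : ℝ} (h0 : 0 < τ₀) (h1 : 2 ≤ σ₁) :
    ∃ C : ℝ, 0 ≤ C ∧ ∀ τ σ t : ℝ, τ₀ ≤ τ → 2 ≤ σ → σ ≤ σ₁ → 0 < t → τ + t ≤ 1 →
      KT ι τ * (1 - 2 * σ * t - C * (t * √√t)) ≤
        KT ι (τ + t) * (1 + t / τ * (2 / σ + 4 * √(K * σ / KT ι τ)) + C * (t * √√t)) := by
  obtain ⟨C₀, hC₀, hGP⟩ := exists_GP ι h0 h1
  obtain ⟨C₁, hC₁, hvar⟩ := step_var ι h0 h1 hC₀
  obtain ⟨C₂, hC₂, hgr⟩ := step_growth ι h0 h1 hC₀ hK (by linarith : 0 ≤ K)
  refine ⟨C₁ + C₂ * (1 / τ₀), by positivity, ?_⟩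
  intro τ σ t hτ hσ hσ1 ht hτt
  have hτ0 : 0 < τ := by linarith
  have hσ0 : 0 < σ := by linarith
  have ht1 : t ≤ 1 := by linarith
  have hτ1 : τ ≤ 1 := by linarith
  have hk : 1 / 2 ≤ KT ι τ := KT_half hτ0 hτ1
  have hk0 : 0 < KT ι τ := by linarith
  have hk' : 0 ≤ KT ι (τ + t) := KT_nonneg _
  have hkτ : KT ι τ ≤ 1 / τ₀ :=
    (KT_le hτ0).trans (one_div_le_one_div_of_le h0 hτ)
  obtain ⟨k, hkk⟩ : ∃ k, k = KT ι τ := ⟨_, rfl⟩
  obtain ⟨k', hkk'⟩ : ∃ k', k' = KT ι (τ + t) := ⟨_, rfl⟩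
  rw [← hkk] at hk hk0 hkτ ⊢
  rw [← hkk'] at hk' ⊢
  have key : ∀ ε : ℝ, 0 < ε → ε ≤ 1 / 64 →
      0 ≤ k' * ((1 + ε) / k * (1 + 2 * t / (τ * σ)) +
        t * (4 * √(K * σ) / τ * ((1 + ε) / (k * √k)) + C₂ * (√√t + √ε))) -
        (1 - 4 * √ε - 2 * σ * t - C₁ * (t * √√t)) := by
    intro ε hε hε1
    obtain ⟨M, V, φ, a, hg⟩ := hGP τ σ ε hτ hτ1 hσ hσ1 hε hε1
    have e1 := hvar τ σ ε M V φ a hτ hτ1 hσ hσ1 hε hε1 hg t ht ht1
    have e2 := hgr τ σ ε M V φ a hτ hτ1 hσ hσ1 hε hε1 hg t ht ht1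
    have e3 := step_contract ι hτ0 hσ hg ht
    have hφ1 : T1 φ := hg.cc.t1
    rw [← hkk] at e2
    rw [← hkk'] at e3
    have e4 : ex V (gw (fun i => 1 - a i / σ) φ) + ex V (gM (CM V) φ) = ex V (gw (sw σ a) φ) := by
      have hT0 : T0 (gM (CM V) φ) :=
        T0.sum _ fun i _ => T0.sum _ fun j _ => ((hφ1.pdt0 i).mul (hφ1.pdt0 j)).cmul _
      rw [← ex_add hg.nice (RI4_gw _ hφ1) hT0]
      congr 1
      funext x
      exact gw_gM_diag hg.cov _ φ x
    have e5 := hg.e1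
    rw [← hkk] at e5
    have e6 : 0 ≤ 2 * t / (τ * σ) := by positivity
    have e7 := mul_le_mul_of_nonneg_left e5 e6
    have e8 : ex V (gw (fun i => 1 - a i / σ) φ) + 2 * t / (τ * σ) * ex V (gw (sw σ a) φ) +
        en V φ t ≤ (1 + ε) / k * (1 + 2 * t / (τ * σ)) +
        t * (4 * √(K * σ) / τ * ((1 + ε) / (k * √k)) + C₂ * (√√t + √ε)) := by
      linarith
    have e9 := mul_le_mul_of_nonneg_left e8 hk'
    linarith
  have hlim : 0 ≤ k' * ((1 + 0) / k * (1 + 2 * t / (τ * σ)) +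
        t * (4 * √(K * σ) / τ * ((1 + 0) / (k * √k)) + C₂ * (√√t + √0))) -
        (1 - 4 * √0 - 2 * σ * t - C₁ * (t * √√t)) := by
    have hc : Continuous fun ε : ℝ => k' * ((1 + ε) / k * (1 + 2 * t / (τ * σ)) +
        t * (4 * √(K * σ) / τ * ((1 + ε) / (k * √k)) + C₂ * (√√t + √ε))) -
        (1 - 4 * √ε - 2 * σ * t - C₁ * (t * √√t)) := by
      fun_prop
    have ht0 := (hc.tendsto 0).mono_left (nhdsWithin_le_nhds (s := Set.Ioi (0 : ℝ)))
    refine ge_of_tendsto ht0 ?_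
    have hmem : Set.Ioc (0 : ℝ) (1 / 64) ∈ 𝓝[>] (0 : ℝ) := Ioc_mem_nhdsGT (by norm_num)
    filter_upwards [hmem] with ε hε
    exact key ε hε.1 hε.2
  simp only [Real.sqrt_zero, mul_zero, add_zero, sub_zero] at hlim
  have hs : √(K * σ / k) = √(K * σ) / √k := Real.sqrt_div' _ hk0.le
  rw [hs]
  have hsk : 0 < √k := Real.sqrt_pos.2 hk0
  have hm := mul_nonneg hk0.le hlim
  have hst : 0 ≤ t * √√t := by positivity
  have e10 : k * (k' * (1 / k * (1 + 2 * t / (τ * σ)) +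
        t * (4 * √(K * σ) / τ * (1 / (k * √k)) + C₂ * √√t)) -
        (1 - 2 * σ * t - C₁ * (t * √√t))) =
      k' * (1 + t / τ * (2 / σ + 4 * (√(K * σ) / √k)) + C₂ * k * (t * √√t)) -
        k * (1 - 2 * σ * t - C₁ * (t * √√t)) := by
    field_simp
    ring
  rw [e10] at hm
  have e11 : C₂ * k * (t * √√t) ≤ (C₁ + C₂ * (1 / τ₀)) * (t * √√t) := by
    refine mul_le_mul_of_nonneg_right ?_ hst
    have := mul_le_mul_of_nonneg_left hkτ hC₂
    linarith
  have e12 : C₁ * (t * √√t) ≤ (C₁ + C₂ * (1 / τ₀)) * (t * √√t) := by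
    refine mul_le_mul_of_nonneg_right ?_ hst
    have : 0 ≤ C₂ * (1 / τ₀) := by positivity
    linarith
  have e13 := mul_le_mul_of_nonneg_left e11 hk'
  have e14 := mul_le_mul_of_nonneg_left e12 hk0.le
  nlinarith [e13, e14, hm]

end Pool.Agent.Lib.MP_8d00da_gt.h42k
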