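import Mathlib

/-!
# The iteration of the step (paper 336, R.10): real analysis
-/

namespace Pool.Agent.Lib.MP_8d00da_gt.h42k

open Set Filter
open scoped Topology

private theorem RJ1_cube {x : ℝ} (hx : 0 ≤ x) : (x ^ (1 / 3 : ℝ)) ^ 3 = x := by
  rw [← Real.rpow_natCast, ← Real.rpow_mul hx]; norm_num

private theorem RJ1_root {a b A B : ℝ} (ha : 0 ≤ a) (hb : 0 ≤ b) (hA : 0 < A) (hAB : A ≤ B)
    (h : a ^ 3 * A ≤ b ^ 3 * B) : a ≤ b * (1 + (B - A) / A / 3) := by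
  have hx : 0 ≤ (B - A) / A := div_nonneg (by linarith) hA.le
  have h1 : a ^ 3 ≤ (b * (1 + (B - A) / A / 3)) ^ 3 := by
    have h2 : a ^ 3 ≤ b ^ 3 * (B / A) := by
      rw [← mul_div_assoc, le_div_iff₀ hA]; exact h
    have h3 : B / A = 1 + (B - A) / A := by field_simp; ring
    have h4 : 1 + (B - A) / A ≤ (1 + (B - A) / A / 3) ^ 3 := by
      nlinarith [pow_nonneg hx 3, pow_nonneg hx 2]
    calc a ^ 3 ≤ b ^ 3 * (B / A) := h2
      _ ≤ b ^ 3 * (1 + (B - A) / A / 3) ^ 3 := by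
          rw [h3]; exact mul_le_mul_of_nonneg_left h4 (by positivity)
      _ = _ := by ring
  exact le_of_pow_le_pow_left₀ (by norm_num) (by positivity) h1

/-- One step for `L = (max k K)^{1/3}`. If `k τ ≤ K` there is nothing to prove. Otherwise take
`σ = 2 (k τ/K)^{1/3} ∈ [2, 2/τ₀]`; then `2/σ + 4√(Kσ/k) = (1 + 4√2) ρ ≤ 6.7 ρ`,
`ρ = (K/k τ)^{1/3} ≤ 1`, and `2σ = 4/ρ ≤ 4 ρ/τ` because `τ ρ⁻² = τ (k/K)^{2/3} ≤ τ (1/τ)^{2/3} ≤ 1`.
With `A = 1 - 2σt - C t√√t ≥ 1/2` (for `t ≤ t₀`), `B = 1 + (t/τ)(…) + C t√√t`: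
`k τ ≤ k(τ+t) B/A`, `(B/A)^{1/3} ≤ 1 + (B/A - 1)/3`, `B/A - 1 ≤ (B - A)(1 + 2(1 - A))`,
`B - A ≤ 10.7 ρ t/τ + 2 C t√√t`, and `(k τ)^{1/3} ρ = K^{1/3}`, `k(τ+t) ≤ k τ`. The terms with
`(1-A)` are `O(t²)`, absorbed in `8` (instead of `10.7/3`) and in `C'`. -/
theorem iter_one {k : ℝ → ℝ} {K : ℝ} (hK : 1 ≤ K)
    (h0 : ∀ τ, 0 < τ → τ ≤ 1 → 0 < k τ ∧ k τ ≤ 1 / τ)
    (hm : ∀ τ τ', 0 < τ → τ ≤ τ' → τ' ≤ 1 → k τ' ≤ k τ) {τ₀ : ℝ} (hτ₀ : 0 < τ₀) (hτ₁ : τ₀ ≤ 1)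
    {C : ℝ} (hC : 0 ≤ C)
    (hs : ∀ τ σ t : ℝ, τ₀ ≤ τ → 2 ≤ σ → σ ≤ 2 / τ₀ → 0 < t → τ + t ≤ 1 →
      k τ * (1 - 2 * σ * t - C * (t * √√t)) ≤
        k (τ + t) * (1 + t / τ * (2 / σ + 4 * √(K * σ / k τ)) + C * (t * √√t))) :
    ∃ C' t₀ : ℝ, 0 ≤ C' ∧ 0 < t₀ ∧ ∀ τ t, τ₀ ≤ τ → 0 < t → t ≤ t₀ → τ + t ≤ 1 →
      (max (k τ) K) ^ (1 / 3 : ℝ) ≤ (max (k (τ + t)) K) ^ (1 / 3 : ℝ) +
        8 * K ^ (1 / 3 : ℝ) * (t / τ) + C' * (t * √√t) := by
  have hD : 0 < 4 / τ₀ + C := by positivity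
  refine ⟨2 * C / τ₀, 1 / (2 * (4 / τ₀ + C)), by positivity, by positivity, ?_⟩
  intro τ t hττ ht htt hτt
  have hτ : 0 < τ := lt_of_lt_of_le hτ₀ hττ
  have hτ1 : τ ≤ 1 := by linarith
  have ht1 : t ≤ 1 := by linarith
  have hK0 : 0 < K := by linarith
  set e : ℝ := t * √√t with he
  have hs1 : √√t ≤ 1 := by
    rw [Real.sqrt_le_one, Real.sqrt_le_one]
    exact ht1
  have he1 : e ≤ t := by
    rw [he]; exact mul_le_of_le_one_right ht.le hs1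
  have he2 : 0 ≤ e := by positivity
  obtain ⟨hk0, hk1⟩ := h0 τ hτ hτ1
  obtain ⟨hk0', hk1'⟩ := h0 (τ + t) (by linarith) hτt
  set κ : ℝ := K ^ (1 / 3 : ℝ) with hκ
  have hκ3 : κ ^ 3 = K := RJ1_cube hK0.le
  have hκ0 : 0 < κ := by positivity
  have hκ1 : 1 ≤ κ := Real.one_le_rpow hK (by norm_num)
  set b : ℝ := (max (k (τ + t)) K) ^ (1 / 3 : ℝ) with hb
  have hb0 : 0 ≤ b := by positivity
  have hb3 : b ^ 3 = max (k (τ + t)) K := RJ1_cube (le_trans hK0.le (le_max_right _ _))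
  have hbκ : κ ≤ b := Real.rpow_le_rpow hK0.le (le_max_right _ _) (by norm_num)
  have hC' : 0 ≤ 2 * C / τ₀ * e := by positivity
  have ht' : 0 ≤ 8 * κ * (t / τ) := by positivity
  by_cases hcase : k τ ≤ K
  · rw [max_eq_right hcase]
    linarith
  · push Not at hcase
    rw [max_eq_left hcase.le]
    set a : ℝ := (k τ) ^ (1 / 3 : ℝ) with ha
    have ha3 : a ^ 3 = k τ := RJ1_cube hk0.le
    have ha0 : 0 < a := by positivity
    have hκa : κ ≤ a := Real.rpow_le_rpow hK0.le hcase.le (by norm_num)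
    have hba : b ≤ a := Real.rpow_le_rpow (le_trans hK0.le (le_max_right _ _))
      (max_le (hm τ (τ + t) hτ (by linarith) hτt) hcase.le) (by norm_num)
    have ha3τ : a ^ 3 * τ ≤ 1 := by
      rw [ha3]; rw [le_div_iff₀ hτ] at hk1; exact hk1
    have haτ₀ : a ≤ 1 / τ₀ := by
      have h1 : a ^ 3 ≤ (1 / τ₀) ^ 3 := by
        rw [ha3]
        refine hk1.trans ?_
        have h2 : 1 / τ ≤ 1 / τ₀ := one_div_le_one_div_of_le hτ₀ hττ
        have h3 : 1 ≤ 1 / τ₀ := by rw [le_div_iff₀ hτ₀]; linarith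
        refine h2.trans ?_
        exact le_self_pow₀ h3 (by norm_num)
      exact le_of_pow_le_pow_left₀ (by norm_num) (by positivity) h1
    have hσ2 : 2 ≤ 2 * (a / κ) := by
      have : 1 ≤ a / κ := by rw [le_div_iff₀ hκ0]; linarith
      linarith
    have hσ1 : 2 * (a / κ) ≤ 2 / τ₀ := by
      have : a / κ ≤ a := div_le_self ha0.le hκ1
      have h4 : 2 / τ₀ = 2 * (1 / τ₀) := by ring
      rw [h4]
      linarith
    have hstep := hs τ (2 * (a / κ)) t hττ hσ2 hσ1 ht hτt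
    have hq1 : 2 / (2 * (a / κ)) = κ / a := by field_simp
    have hq2 : √(K * (2 * (a / κ)) / k τ) = √2 * (κ / a) := by
      have h5 : K * (2 * (a / κ)) / k τ = 2 * (κ / a) ^ 2 := by
        rw [← hκ3, ← ha3]; field_simp
      rw [h5, Real.sqrt_mul (by norm_num), Real.sqrt_sq (by positivity)]
    rw [hq1, hq2] at hstep
    have h2a : 2 * (2 * (a / κ)) * t ≤ 4 / τ₀ * t := by
      have := mul_le_mul_of_nonneg_right hσ1 ht.le
      have h6 : 4 / τ₀ * t = 2 * (2 / τ₀ * t) := by ring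
      rw [h6]; linarith
    have hAhalf : 1 / 2 ≤ 1 - 2 * (2 * (a / κ)) * t - C * e := by
      have h7 : C * e ≤ C * t := mul_le_mul_of_nonneg_left he1 hC
      have h8 : (4 / τ₀ + C) * t ≤ 1 / 2 := by
        have h9 := mul_le_mul_of_nonneg_left htt hD.le
        have h10 : (4 / τ₀ + C) * (1 / (2 * (4 / τ₀ + C))) = 1 / 2 := by field_simp
        linarith
      linarith
    set A : ℝ := 1 - 2 * (2 * (a / κ)) * t - C * e with hA
    set B : ℝ := 1 + t / τ * (κ / a + 4 * (√2 * (κ / a))) + C * e with hB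
    have hAB : A ≤ B := by
      have h11 : 0 ≤ t / τ * (κ / a + 4 * (√2 * (κ / a))) := by positivity
      have h12 : 0 ≤ 2 * (2 * (a / κ)) * t := by positivity
      have h13 : 0 ≤ C * e := by positivity
      rw [hA, hB]; linarith
    have hB0 : 0 ≤ B := by linarith
    have h14 : a ^ 3 * A ≤ b ^ 3 * B := by
      rw [ha3, hb3]
      exact hstep.trans (mul_le_mul_of_nonneg_right (le_max_left _ _) hB0)
    have h15 := RJ1_root ha0.le hb0 (by linarith) hAB h14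
    have h16 : b * ((B - A) / A / 3) ≤ 2 / 3 * (a * (B - A)) := by
      have h17 : (B - A) / A ≤ 2 * (B - A) := by
        rw [div_le_iff₀ (by linarith)]
        have h17b := mul_le_mul_of_nonneg_left hAhalf (by linarith : (0 : ℝ) ≤ 2 * (B - A))
        linarith
      have h18 : 0 ≤ (B - A) / A := div_nonneg (by linarith) (by linarith)
      calc b * ((B - A) / A / 3) ≤ a * ((B - A) / A / 3) := mul_le_mul_of_nonneg_right hba (by positivity)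
        _ ≤ a * (2 * (B - A) / 3) := mul_le_mul_of_nonneg_left (by linarith) ha0.le
        _ = _ := by ring
    have h19 : a * (B - A) = t / τ * (1 + 4 * √2) * κ + 4 * (a ^ 2 * t / κ) + 2 * C * a * e := by
      rw [hA, hB]; field_simp; ring
    have h20 : a ^ 2 * t / κ ≤ κ * (t / τ) := by
      have h21 : a ^ 2 * τ ≤ κ ^ 2 := by
        have h22 : (a ^ 2 * τ) ^ 3 ≤ (κ ^ 2) ^ 3 := by
          have h23 : (a ^ 2 * τ) ^ 3 = (a ^ 3 * τ) ^ 2 * τ := by ring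
          rw [h23]
          have h24 : (a ^ 3 * τ) ^ 2 ≤ 1 := pow_le_one₀ (by positivity) ha3τ
          have h25 : 1 ≤ (κ ^ 2) ^ 3 := by
            apply one_le_pow₀; exact one_le_pow₀ hκ1
          exact (mul_le_one₀ h24 hτ.le hτ1).trans h25
        exact le_of_pow_le_pow_left₀ (by norm_num) (by positivity) h22
      rw [div_le_iff₀ hκ0]
      have h26 : κ * (t / τ) * κ = κ ^ 2 * t / τ := by ring
      rw [h26, le_div_iff₀ hτ]
      have h26b := mul_le_mul_of_nonneg_right h21 ht.le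
      linarith
    have h27 : √2 ≤ 3 / 2 := by
      rw [Real.sqrt_le_left (by norm_num)]; norm_num
    have h28 : t / τ * (1 + 4 * √2) * κ ≤ t / τ * 7 * κ := by
      have : 0 ≤ t / τ := by positivity
      have h29 : t / τ * (1 + 4 * √2) ≤ t / τ * 7 := mul_le_mul_of_nonneg_left (by linarith) this
      exact mul_le_mul_of_nonneg_right h29 hκ0.le
    have h30 : 2 * C * a * e ≤ 2 * C / τ₀ * e := by
      have h31 : 2 * C * a ≤ 2 * C * (1 / τ₀) := mul_le_mul_of_nonneg_left haτ₀ (by positivity)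
      have h32 : 2 * C * (1 / τ₀) = 2 * C / τ₀ := by ring
      rw [h32] at h31
      exact mul_le_mul_of_nonneg_right h31 he2
    have h33 : 0 ≤ κ * (t / τ) := by positivity
    have h34 : a ≤ b + 2 / 3 * (a * (B - A)) := by
      calc a ≤ b * (1 + (B - A) / A / 3) := h15
        _ = b + b * ((B - A) / A / 3) := by ring
        _ ≤ _ := by linarith
    rw [h19] at h34
    have h35 : t / τ * 7 * κ = 7 * (κ * (t / τ)) := by ring
    have h36 : 8 * κ * (t / τ) = 8 * (κ * (t / τ)) := by ring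
    rw [h36]
    rw [h35] at h28
    linarith

/-- Telescoping with `t = (1-τ₀)/N`, `N → ∞`: `t/τ ≤ log((τ+t)/τ) + t²/τ₀²`. -/
theorem iter_sum {L : ℝ → ℝ} {c τ₀ C' t₀ : ℝ} (hc : 0 ≤ c) (hτ₀ : 0 < τ₀) (hτ₁ : τ₀ ≤ 1)
    (hC' : 0 ≤ C') (ht₀ : 0 < t₀)
    (h : ∀ τ t, τ₀ ≤ τ → 0 < t → t ≤ t₀ → τ + t ≤ 1 →
      L τ ≤ L (τ + t) + c * (t / τ) + C' * (t * √√t)) :
    L τ₀ ≤ L 1 + c * Real.log (1 / τ₀) := by
  rcases eq_or_lt_of_le hτ₁ with h1 | h1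
  · rw [h1]; simp
  have key : ∀ t : ℝ, 0 < t → t ≤ t₀ → ∀ i : ℕ, τ₀ + i * t ≤ 1 →
      L τ₀ ≤ L (τ₀ + i * t) + c * (Real.log (τ₀ + i * t) - Real.log τ₀) +
        i * (c * (t ^ 2 / τ₀ ^ 2) + C' * (t * √√t)) := by
    intro t ht htt i
    induction i with
    | zero => intro _; simp
    | succ i ih =>
      intro hi
      push_cast at hi ⊢
      have hi' : τ₀ + i * t ≤ 1 := by
        have hi2 : τ₀ + (i + 1) * t = τ₀ + i * t + t := by ring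
        rw [hi2] at hi
        linarith
      have h2 := ih hi'
      have hit : (0 : ℝ) ≤ i * t := by positivity
      have hx0 : 0 < τ₀ + i * t := by linarith
      have h3 := h (τ₀ + i * t) t (by linarith) ht htt (by linarith)
      have h4 : τ₀ + i * t + t = τ₀ + (i + 1) * t := by ring
      rw [h4] at h3
      have h5 : t / (τ₀ + i * t) ≤ Real.log (τ₀ + (i + 1) * t) - Real.log (τ₀ + i * t) + t ^ 2 / τ₀ ^ 2 := by
        have hy0 : 0 < τ₀ + (i + 1) * t := by linarith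
        rw [← Real.log_div hy0.ne' hx0.ne']
        have h6 := Real.one_sub_inv_le_log_of_pos (div_pos hy0 hx0)
        have h7 : 1 - ((τ₀ + (i + 1) * t) / (τ₀ + i * t))⁻¹ = t / (τ₀ + (i + 1) * t) := by
          rw [inv_div]; field_simp; ring
        rw [h7] at h6
        have h8 : t / (τ₀ + i * t) - t / (τ₀ + (i + 1) * t) = t ^ 2 / ((τ₀ + i * t) * (τ₀ + (i + 1) * t)) := by
          field_simp; ring
        have h9 : t ^ 2 / ((τ₀ + i * t) * (τ₀ + (i + 1) * t)) ≤ t ^ 2 / τ₀ ^ 2 := by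
          apply div_le_div_of_nonneg_left (by positivity) (by positivity)
          rw [sq]
          apply mul_le_mul (by linarith) (by linarith) hτ₀.le hx0.le
        linarith
      have h10 := mul_le_mul_of_nonneg_left h5 hc
      nlinarith
  have key2 : ∀ N : ℕ, 0 < N → (1 - τ₀) / N ≤ t₀ →
      L τ₀ ≤ L 1 + c * Real.log (1 / τ₀) + (c * ((1 - τ₀) ^ 2 / N / τ₀ ^ 2) + C' * ((1 - τ₀) * √√((1 - τ₀) / N))) := by
    intro N hN hNt
    have hN' : (0 : ℝ) < N := by exact_mod_cast hN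
    have h2 := key ((1 - τ₀) / N) (by apply div_pos <;> linarith) hNt N (by
      rw [mul_div_cancel₀ _ hN'.ne']; linarith)
    have h3 : τ₀ + N * ((1 - τ₀) / N) = 1 := by rw [mul_div_cancel₀ _ hN'.ne']; ring
    rw [h3, Real.log_one] at h2
    have h4 : Real.log (1 / τ₀) = - Real.log τ₀ := by rw [one_div, Real.log_inv]
    rw [h4]
    have h5 : (N : ℝ) * (c * (((1 - τ₀) / N) ^ 2 / τ₀ ^ 2) + C' * ((1 - τ₀) / N * √√((1 - τ₀) / N)))
        = (c * ((1 - τ₀) ^ 2 / N / τ₀ ^ 2) + C' * ((1 - τ₀) * √√((1 - τ₀) / N))) := by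
      field_simp
    rw [h5] at h2
    linarith
  have hlim : Tendsto (fun N : ℕ => L 1 + c * Real.log (1 / τ₀) + (c * ((1 - τ₀) ^ 2 / N / τ₀ ^ 2) + C' * ((1 - τ₀) * √√((1 - τ₀) / N))))
      atTop (𝓝 (L 1 + c * Real.log (1 / τ₀) + (c * (0 / τ₀ ^ 2) + C' * ((1 - τ₀) * √√0)))) := by
    have ha : Tendsto (fun N : ℕ => (1 - τ₀) ^ 2 / (N : ℝ)) atTop (𝓝 0) := tendsto_const_div_atTop_nhds_zero_nat _
    have hb : Tendsto (fun N : ℕ => (1 - τ₀) / (N : ℝ)) atTop (𝓝 0) := tendsto_const_div_atTop_nhds_zero_nat _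
    have hb' : Tendsto (fun N : ℕ => √√((1 - τ₀) / (N : ℝ))) atTop (𝓝 (√√0)) :=
      (Real.continuous_sqrt.tendsto _).comp ((Real.continuous_sqrt.tendsto _).comp hb)
    exact ((tendsto_const_nhds).add (((ha.div_const _).const_mul c).add ((hb'.const_mul _).const_mul C')))
  have h6 : L 1 + c * Real.log (1 / τ₀) + (c * (0 / τ₀ ^ 2) + C' * ((1 - τ₀) * √√0)) = L 1 + c * Real.log (1 / τ₀) := by
    simp
  rw [h6] at hlim
  refine ge_of_tendsto hlim ?_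
  have hb : Tendsto (fun N : ℕ => (1 - τ₀) / (N : ℝ)) atTop (𝓝 0) := tendsto_const_div_atTop_nhds_zero_nat _
  filter_upwards [hb.eventually (ge_mem_nhds ht₀), eventually_gt_atTop 0] with N hN1 hN0
  exact key2 N hN0 hN1

/-- `iter_one`, `iter_sum` with `c = 8 K^{1/3}`, `L 1 = K^{1/3}` (`k 1 ≤ 1 ≤ K`). -/
theorem iterate {k : ℝ → ℝ} {K : ℝ} (hK : 1 ≤ K)
    (h0 : ∀ τ, 0 < τ → τ ≤ 1 → 0 < k τ ∧ k τ ≤ 1 / τ)
    (hm : ∀ τ τ', 0 < τ → τ ≤ τ' → τ' ≤ 1 → k τ' ≤ k τ)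
    (hs : ∀ τ₀ σ₁ : ℝ, 0 < τ₀ → 2 ≤ σ₁ → ∃ C : ℝ, 0 ≤ C ∧ ∀ τ σ t : ℝ, τ₀ ≤ τ → 2 ≤ σ →
      σ ≤ σ₁ → 0 < t → τ + t ≤ 1 →
      k τ * (1 - 2 * σ * t - C * (t * √√t)) ≤
        k (τ + t) * (1 + t / τ * (2 / σ + 4 * √(K * σ / k τ)) + C * (t * √√t)))
    {τ : ℝ} (hτ : 0 < τ) (hτ1 : τ ≤ 1) : k τ ≤ K * (1 + 8 * Real.log (1 / τ)) ^ 3 := by
  obtain ⟨C, hC, hs'⟩ := hs τ (2 / τ) hτ (by rw [le_div_iff₀ hτ]; linarith)
  obtain ⟨C', t₀, hC', ht₀, h1⟩ := iter_one hK h0 hm hτ hτ1 hC hs'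
  have hK0 : 0 < K := by linarith
  have hκ3 : (K ^ (1 / 3 : ℝ)) ^ 3 = K := RJ1_cube hK0.le
  have h2 := iter_sum (L := fun τ => (max (k τ) K) ^ (1 / 3 : ℝ)) (c := 8 * K ^ (1 / 3 : ℝ))
    (by positivity) hτ hτ1 hC' ht₀ h1
  have h3 : k 1 ≤ K := by
    have := (h0 1 one_pos le_rfl).2
    rw [div_one] at this
    linarith
  beta_reduce at h2
  rw [max_eq_right h3] at h2
  have h4 : ((max (k τ) K) ^ (1 / 3 : ℝ)) ^ 3 = max (k τ) K := RJ1_cube (le_trans hK0.le (le_max_right _ _))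
  have h5 : ((max (k τ) K) ^ (1 / 3 : ℝ)) ^ 3 ≤ (K ^ (1 / 3 : ℝ) + 8 * K ^ (1 / 3 : ℝ) * Real.log (1 / τ)) ^ 3 :=
    pow_le_pow_left₀ (by positivity) h2 3
  calc k τ ≤ max (k τ) K := le_max_left _ _
    _ = ((max (k τ) K) ^ (1 / 3 : ℝ)) ^ 3 := h4.symm
    _ ≤ (K ^ (1 / 3 : ℝ) + 8 * K ^ (1 / 3 : ℝ) * Real.log (1 / τ)) ^ 3 := h5
    _ = (K ^ (1 / 3 : ℝ)) ^ 3 * (1 + 8 * Real.log (1 / τ)) ^ 3 := by ring
    _ = _ := by rw [hκ3]

end Pool.Agent.Lib.MP_8d00da_gt.h42k
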