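import Pool.Agent.Lib.MP_8d00da_gt.h42k.RI4
import Pool.Agent.Lib.MP_8d00da_gt.h42k.RJ1

/-!
# Theorem R (paper 336)
-/

namespace Pool.Agent.Lib.MP_8d00da_gt.h42k

open MeasureTheory Set Filter
open scoped Topology NNReal ENNReal ContDiff

set_option linter.unusedSectionVars false
set_option linter.unusedVariables false

/-- Theorem R. -/
theorem thmR (ι : Type) [Fintype ι] [DecidableEq ι] [Nonempty ι] {K : ℝ} (hK : QKP K ι)
    (hK1 : 1 ≤ K) {τ : ℝ} (hτ : 0 < τ) (hτ1 : τ ≤ 1) :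
    KT ι τ ≤ K * (1 + 8 * Real.log (1 / τ)) ^ 3 := by
  refine iterate hK1 (fun τ h h1 => ⟨?_, KT_le h⟩) (fun τ τ' h h1 _ => KT_anti h h1)
    (fun τ₀ σ₁ h h1 => step ι hK hK1 h h1) hτ hτ1
  have := KT_half (ι := ι) h h1
  linarith

/-- For `D²V ≥ κ`, `Cov V ≤ 3`. (`gM (CM V) f ≤ 3 gs f`; if `ι` is empty both sides are zero.) -/
theorem PI_R (ι : Type) [Fintype ι] [DecidableEq ι] {K κ M : ℝ} {V : (ι → ℝ) → ℝ}
    (hK : QKP K ι) (hK1 : 1 ≤ K) (H : Nice κ M V) (hκ : κ ≤ 1) (hC : CLe V 3) :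
    PI V (4 * (K * (1 + 8 * Real.log (1 / κ)) ^ 3)) := by
  intro f hf
  rcases isEmpty_or_nonempty ι with hE | hN
  · have e1 : f = fun _ => f 0 := by
      funext x
      rw [Subsingleton.elim x 0]
    have e2 : gs f = fun _ => 0 := by
      funext x
      simp [gs]
    have e3 : var V f = 0 := by
      have h := cov_const H hf.t0 (f 0)
      unfold var
      rw [← e1] at h
      exact h
    rw [e3, e2, ex_const H, mul_zero]
  · have h1 := thmR ι hK hK1 H.kpos hκ
    have h2 : WT ι κ (KT ι κ) := WT_KT H.kpos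
    have h3 := h2 M V H f hf
    have hgs : T0 (gs f) := hf.gst0
    have hgM : T0 (gM (CM V) f) := gM_t0' _ hf
    have hle : ∀ x, gs f x + gM (CM V) f x ≤ 4 * gs f x := by
      intro x
      have h4 := hC (fun i => pd i f x)
      rw [var_dt H] at h4
      have h5 : gM (CM V) f x = ∑ i, ∑ j, pd i f x * pd j f x * CM V i j := by
        unfold gM
        refine Finset.sum_congr rfl fun i _ => Finset.sum_congr rfl fun j _ => ?_
        ring
      have h6 : sq (fun i => pd i f x) = gs f x := rfl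
      rw [h6] at h4
      rw [h5]
      linarith
    have h7 : ex V (fun x => gs f x + gM (CM V) f x) ≤ 4 * ex V (gs f) := by
      have h8 := ex_mono H (hgs.add hgM) (hgs.cmul 4) hle
      rwa [ex_cmul] at h8
    have h9 : 0 ≤ ex V (gs f) := ex_nonneg V fun x => Finset.sum_nonneg fun i _ => sq_nonneg _
    have h10 : 0 ≤ KT ι κ := KT_nonneg κ
    calc var V f ≤ KT ι κ * ex V (fun x => gs f x + gM (CM V) f x) := h3
      _ ≤ KT ι κ * (4 * ex V (gs f)) := mul_le_mul_of_nonneg_left h7 h10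
      _ ≤ K * (1 + 8 * Real.log (1 / κ)) ^ 3 * (4 * ex V (gs f)) :=
        mul_le_mul_of_nonneg_right h1 (by positivity)
      _ = 4 * (K * (1 + 8 * Real.log (1 / κ)) ^ 3) * ex V (gs f) := by ring

end Pool.Agent.Lib.MP_8d00da_gt.h42k
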