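import Pool.Agent.Lib.MP_8d00da_gt.h42k.S5e

/-!
Smoothness and derivatives of the matrix potential (paper 323, 5.1).  All matrix valued functions
are described by their entries.
-/

namespace Pool.Agent.Lib.MP_8d00da_gt.h42k

open Finset Matrix
open scoped ContDiff

variable {ι : Type*} [Fintype ι] [DecidableEq ι]

section smooth
variable {E : Type*} [NormedAddCommGroup E] [NormedSpace ℝ E] {n : WithTop ℕ∞} {x0 : E}
  {σ : E → ℝ} {A : E → Matrix ι ι ℝ} {q : ℕ}

lemma det_cd {M : E → Matrix ι ι ℝ} (hM : ∀ i j, ContDiffAt ℝ n (fun x => M x i j) x0) :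
    ContDiffAt ℝ n (fun x => (M x).det) x0 := by
  simp only [Matrix.det_apply']
  exact ContDiffAt.sum fun p _ => contDiffAt_const.mul (contDiffAt_prod fun i _ => hM _ _)

lemma adjugate_cd {M : E → Matrix ι ι ℝ} (hM : ∀ i j, ContDiffAt ℝ n (fun x => M x i j) x0)
    (i j : ι) : ContDiffAt ℝ n (fun x => (M x).adjugate i j) x0 := by
  simp only [Matrix.adjugate_apply]
  refine det_cd fun i' j' => ?_
  simp only [Matrix.updateRow_apply]
  by_cases h : i' = j
  · simp only [h, if_true]; exact contDiffAt_const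
  · simp only [h, if_false]; exact hM _ _

lemma inv_cd {M : E → Matrix ι ι ℝ} (hM : ∀ i j, ContDiffAt ℝ n (fun x => M x i j) x0)
    (hdet : (M x0).det ≠ 0) (i j : ι) : ContDiffAt ℝ n (fun x => (M x)⁻¹ i j) x0 := by
  have h : (fun x => (M x)⁻¹ i j) = fun x => ((M x).det)⁻¹ * (M x).adjugate i j := by
    funext x
    rw [Matrix.inv_def, Ring.inverse_eq_inv', Matrix.smul_apply, smul_eq_mul]
  rw [h]
  exact ((det_cd hM).inv hdet).mul (adjugate_cd hM i j)

omit [DecidableEq ι] in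
lemma mul_cd {M N : E → Matrix ι ι ℝ} (hM : ∀ i j, ContDiffAt ℝ n (fun x => M x i j) x0)
    (hN : ∀ i j, ContDiffAt ℝ n (fun x => N x i j) x0) (i j : ι) :
    ContDiffAt ℝ n (fun x => (M x * N x) i j) x0 := by
  simp only [Matrix.mul_apply]
  exact ContDiffAt.sum fun k _ => (hM _ _).mul (hN _ _)

lemma pow_cd {M : E → Matrix ι ι ℝ} (hM : ∀ i j, ContDiffAt ℝ n (fun x => M x i j) x0)
    (m : ℕ) (i j : ι) : ContDiffAt ℝ n (fun x => (M x ^ m) i j) x0 := by
  induction m generalizing i j with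
  | zero => simp only [pow_zero]; exact contDiffAt_const
  | succ m ih => simp only [pow_succ]; exact mul_cd ih hM i j

/-- smoothness of the entries of `R` -/
theorem FR_contDiffAt (hσ : ContDiffAt ℝ n σ x0) (hA : ∀ i j, ContDiffAt ℝ n (fun x => A x i j) x0)
    (h0 : 0 ≤ σ x0) (hp : PSD (A x0)) (i j : ι) :
    ContDiffAt ℝ n (fun x => FR (σ x) (A x) i j) x0 := by
  unfold FR
  obtain ⟨e, lam, he, hlam⟩ := hp.exists_eig
  refine inv_cd (M := fun x => 1 + σ x • A x) (fun i j => ?_) (he.det_ne hlam h0) i j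
  simp only [Matrix.add_apply, Matrix.smul_apply, smul_eq_mul]
  exact contDiffAt_const.add (hσ.mul (hA i j))

theorem FB_contDiffAt (hσ : ContDiffAt ℝ n σ x0)
    (hA : ∀ i j, ContDiffAt ℝ n (fun x => A x i j) x0)
    (h0 : 0 ≤ σ x0) (hp : PSD (A x0)) (i j : ι) :
    ContDiffAt ℝ n (fun x => FB (σ x) (A x) i j) x0 :=
  mul_cd hA (FR_contDiffAt hσ hA h0 hp) i j

theorem FBpow_contDiffAt (hσ : ContDiffAt ℝ n σ x0)
    (hA : ∀ i j, ContDiffAt ℝ n (fun x => A x i j) x0)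
    (h0 : 0 ≤ σ x0) (hp : PSD (A x0)) (i j : ι) :
    ContDiffAt ℝ n (fun x => (FB (σ x) (A x) ^ q) i j) x0 :=
  pow_cd (FB_contDiffAt hσ hA h0 hp) q i j

theorem FD_contDiffAt (hσ : ContDiffAt ℝ n σ x0) (hA : ∀ i j, ContDiffAt ℝ n (fun x => A x i j) x0)
    (h0 : 0 ≤ σ x0) (hp : PSD (A x0)) (i j : ι) :
    ContDiffAt ℝ n (fun x => FD q (σ x) (A x) i j) x0 := by
  unfold FD
  simp only [Matrix.add_apply, Matrix.smul_apply, smul_eq_mul]
  exact (FBpow_contDiffAt hσ hA h0 hp i j).add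
    (contDiffAt_const.mul (mul_cd (FR_contDiffAt hσ hA h0 hp) (FBpow_contDiffAt hσ hA h0 hp) i j))

theorem FF_contDiffAt (hσ : ContDiffAt ℝ n σ x0) (hA : ∀ i j, ContDiffAt ℝ n (fun x => A x i j) x0)
    (h0 : 0 ≤ σ x0) (hp : PSD (A x0)) :
    ContDiffAt ℝ n (fun x => FF q (σ x) (A x)) x0 := by
  unfold FF
  simp only [Matrix.trace, Matrix.diag_apply]
  exact ContDiffAt.sum fun i _ => mul_cd hA (FBpow_contDiffAt hσ hA h0 hp) i i

end smooth

section deriv
variable {t0 : ℝ}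

omit [DecidableEq ι] in
lemma hd_mul {M N : ℝ → Matrix ι ι ℝ} {M' N' : Matrix ι ι ℝ}
    (hM : ∀ i j, HasDerivAt (fun t => M t i j) (M' i j) t0)
    (hN : ∀ i j, HasDerivAt (fun t => N t i j) (N' i j) t0) (i j : ι) :
    HasDerivAt (fun t => (M t * N t) i j) ((M' * N t0 + M t0 * N') i j) t0 := by
  simp only [Matrix.mul_apply, Matrix.add_apply]
  rw [← Finset.sum_add_distrib]
  exact HasDerivAt.fun_sum fun k _ => (hM i k).mul (hN k j)

lemma hd_pow {M : ℝ → Matrix ι ι ℝ} {M' : Matrix ι ι ℝ}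
    (hM : ∀ i j, HasDerivAt (fun t => M t i j) (M' i j) t0) (q : ℕ) (i j : ι) :
    HasDerivAt (fun t => (M t ^ q) i j)
      ((∑ k ∈ range q, M t0 ^ k * M' * M t0 ^ (q - 1 - k)) i j) t0 := by
  induction q generalizing i j with
  | zero => simp only [pow_zero, range_zero, sum_empty, Matrix.zero_apply]; exact hasDerivAt_const _ _
  | succ q ih =>
    have h := hd_mul ih hM i j
    simp only [pow_succ]
    refine h.congr_deriv ?_
    have hmat : (∑ k ∈ range q, M t0 ^ k * M' * M t0 ^ (q - 1 - k)) * M t0 + M t0 ^ q * M'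
        = ∑ k ∈ range (q + 1), M t0 ^ k * M' * M t0 ^ (q + 1 - 1 - k) := by
      rw [Finset.sum_range_succ, Finset.sum_mul]
      have e1 : q + 1 - 1 - q = 0 := by omega
      rw [e1, pow_zero, Matrix.mul_one]
      refine congrArg (· + M t0 ^ q * M') (Finset.sum_congr rfl fun k hk => ?_)
      have hk' := Finset.mem_range.mp hk
      have e1 : q + 1 - 1 - k = (q - 1 - k) + 1 := by omega
      rw [e1, pow_succ]
      simp only [Matrix.mul_assoc]
    exact congrFun (congrFun hmat i) j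

omit [DecidableEq ι] in
lemma hd_trace {M : ℝ → Matrix ι ι ℝ} {M' : Matrix ι ι ℝ}
    (hM : ∀ i j, HasDerivAt (fun t => M t i j) (M' i j) t0) :
    HasDerivAt (fun t => trace (M t)) (trace M') t0 := by
  simp only [Matrix.trace, Matrix.diag_apply]
  exact HasDerivAt.fun_sum fun k _ => hM k k

lemma hd_inv {M : ℝ → Matrix ι ι ℝ} {M' : Matrix ι ι ℝ}
    (hM : ∀ i j, HasDerivAt (fun t => M t i j) (M' i j) t0) (hdet : (M t0).det ≠ 0) (i j : ι) :
    HasDerivAt (fun t => (M t)⁻¹ i j) ((-((M t0)⁻¹ * M' * (M t0)⁻¹)) i j) t0 := by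
  -- entries of the inverse are differentiable
  have hd : ∀ i j, ∃ N', HasDerivAt (fun t => (M t)⁻¹ i j) N' t0 := by
    intro i j
    have hG : ContDiffAt ℝ 1 (fun N : ι → ι → ℝ => (Matrix.of N)⁻¹ i j) (fun i j => M t0 i j) := by
      refine inv_cd (M := fun N : ι → ι → ℝ => Matrix.of N) (fun i j => ?_) ?_ i j
      · simp only [Matrix.of_apply]
        exact (contDiff_apply_apply ℝ ℝ i j).contDiffAt
      · exact hdet
    have hMp : HasDerivAt (fun t => (fun i j => M t i j : ι → ι → ℝ)) (fun i j => M' i j) t0 := by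
      rw [hasDerivAt_pi]
      intro i
      rw [hasDerivAt_pi]
      intro j
      exact hM i j
    have hGd := (hG.differentiableAt (by norm_num)).hasFDerivAt
    exact ⟨_, HasDerivAt.congr_of_eventuallyEq (hGd.comp_hasDerivAt t0 hMp)
      (Filter.Eventually.of_forall fun t => rfl)⟩
  choose N' hN' using hd
  have hprod := hd_mul hM (N' := Matrix.of N') (fun i j => hN' i j)
  -- M * M⁻¹ = 1 near t0
  have hcont : ContinuousAt (fun t => (M t).det) t0 := by
    simp only [Matrix.det_apply']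
    refine tendsto_finsetSum _ fun p _ => ?_
    refine Filter.Tendsto.mul tendsto_const_nhds (tendsto_finsetProd _ fun i _ => ?_)
    exact (hM _ _).continuousAt
  have hev : ∀ᶠ t in nhds t0, (M t).det ≠ 0 := hcont.eventually_ne hdet
  have hzero : M' * (M t0)⁻¹ + M t0 * Matrix.of N' = 0 := by
    ext i j
    have h1 := hprod i j
    have h2 : HasDerivAt (fun t => (M t * (M t)⁻¹) i j) 0 t0 := by
      have h3 : (fun t => (M t * (M t)⁻¹) i j) =ᶠ[nhds t0] fun _ => (1 : Matrix ι ι ℝ) i j := by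
        filter_upwards [hev] with t ht
        rw [Matrix.mul_nonsing_inv _ (isUnit_iff_ne_zero.mpr ht)]
      exact (hasDerivAt_const t0 _).congr_of_eventuallyEq h3
    rw [Matrix.zero_apply]
    exact h1.unique h2
  have hN : Matrix.of N' = -((M t0)⁻¹ * M' * (M t0)⁻¹) := by
    have h1 : (M t0)⁻¹ * (M' * (M t0)⁻¹ + M t0 * Matrix.of N') = 0 := by rw [hzero, Matrix.mul_zero]
    rw [Matrix.mul_add, ← Matrix.mul_assoc, ← Matrix.mul_assoc,
      Matrix.nonsing_inv_mul _ (isUnit_iff_ne_zero.mpr hdet), Matrix.one_mul] at h1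
    exact eq_neg_of_add_eq_zero_right h1
  rw [← hN]
  exact hN' i j

variable {σ : ℝ → ℝ} {σ' : ℝ} {A : ℝ → Matrix ι ι ℝ} {H : Matrix ι ι ℝ} {q : ℕ}

/-- `dR = - R (σ' A + σ H) R` -/
theorem FR_hasDerivAt (hσ : HasDerivAt σ σ' t0) (hA : ∀ i j, HasDerivAt (fun t => A t i j) (H i j) t0)
    (h0 : 0 ≤ σ t0) (hp : PSD (A t0)) (i j : ι) :
    HasDerivAt (fun t => FR (σ t) (A t) i j)
      ((-(FR (σ t0) (A t0) * (σ' • A t0 + σ t0 • H) * FR (σ t0) (A t0))) i j) t0 := by
  obtain ⟨e, lam, he, hlam⟩ := hp.exists_eig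
  unfold FR
  refine hd_inv (M := fun t => 1 + σ t • A t) (fun i j => ?_) (he.det_ne hlam h0) i j
  simp only [Matrix.add_apply, Matrix.smul_apply, smul_eq_mul]
  have := (hσ.mul (hA i j)).const_add ((1 : Matrix ι ι ℝ) i j)
  exact this

theorem FB_hasDerivAt (hσ : HasDerivAt σ σ' t0) (hA : ∀ i j, HasDerivAt (fun t => A t i j) (H i j) t0)
    (h0 : 0 ≤ σ t0) (hp : PSD (A t0)) (i j : ι) :
    HasDerivAt (fun t => FB (σ t) (A t) i j)
      ((H * FR (σ t0) (A t0) + A t0 * -(FR (σ t0) (A t0) * (σ' • A t0 + σ t0 • H)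
        * FR (σ t0) (A t0))) i j) t0 :=
  hd_mul hA (FR_hasDerivAt hσ hA h0 hp) i j

section conj
variable {e : Matrix ι ι ℝ}

lemma cj_mul (he : eᵀ * e = 1) (X Y : Matrix ι ι ℝ) :
    e * (X * Y) * eᵀ = (e * X * eᵀ) * (e * Y * eᵀ) := by
  calc e * (X * Y) * eᵀ = e * X * 1 * Y * eᵀ := by rw [Matrix.mul_one]; simp only [Matrix.mul_assoc]
    _ = e * X * (eᵀ * e) * Y * eᵀ := by rw [he]
    _ = _ := by simp only [Matrix.mul_assoc]

omit [DecidableEq ι] in
lemma cj_add (X Y : Matrix ι ι ℝ) : e * (X + Y) * eᵀ = e * X * eᵀ + e * Y * eᵀ := by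
  rw [Matrix.mul_add, Matrix.add_mul]

omit [DecidableEq ι] in
lemma cj_neg (X : Matrix ι ι ℝ) : e * (-X) * eᵀ = -(e * X * eᵀ) := by
  rw [Matrix.mul_neg, Matrix.neg_mul]

omit [DecidableEq ι] in
lemma cj_smul (c : ℝ) (X : Matrix ι ι ℝ) : e * (c • X) * eᵀ = c • (e * X * eᵀ) := by
  rw [Matrix.mul_smul, Matrix.smul_mul]

omit [DecidableEq ι] in
lemma cj_sum {J : Type*} (s : Finset J) (X : J → Matrix ι ι ℝ) :
    e * (∑ j ∈ s, X j) * eᵀ = ∑ j ∈ s, e * X j * eᵀ := by
  rw [Finset.mul_sum, Finset.sum_mul]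

lemma cj_diag (he : e * eᵀ = 1) (d : ι → ℝ) : e * (eᵀ * diagonal d * e) * eᵀ = diagonal d := by
  calc e * (eᵀ * diagonal d * e) * eᵀ = (e * eᵀ) * diagonal d * (e * eᵀ) := by
        simp only [Matrix.mul_assoc]
    _ = _ := by rw [he, Matrix.one_mul, Matrix.mul_one]

lemma trace_cj (he : eᵀ * e = 1) (X : Matrix ι ι ℝ) : trace (e * X * eᵀ) = trace X := by
  rw [trace_mul_comm, ← Matrix.mul_assoc, he, Matrix.one_mul]

end conj

/-- **5.1a**: first derivative of `F` -/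
theorem FF_hasDerivAt (hσ : HasDerivAt σ σ' t0) (hA : ∀ i j, HasDerivAt (fun t => A t i j) (H i j) t0)
    (h0 : 0 ≤ σ t0) (hp : PSD (A t0)) :
    HasDerivAt (fun t => FF q (σ t) (A t))
      (trace (FD q (σ t0) (A t0) * H)
        - σ' * (q * trace (A t0 * FB (σ t0) (A t0) ^ (q + 1)))) t0 := by
  have h1 := hd_trace (hd_mul hA (hd_pow (FB_hasDerivAt hσ hA h0 hp) q))
  unfold FF
  refine h1.congr_deriv ?_
  obtain ⟨e, lam, he, hlam⟩ := hp.exists_eig
  set s := σ t0 with hs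
  set A0 := A t0 with hA0
  have he' := he.orth'
  set Ht := e * H * eᵀ with hHt
  have cA : e * A0 * eᵀ = diagonal lam := by
    conv_lhs => rw [he.diag]
    exact cj_diag he.orth lam
  have cR : e * FR s A0 * eᵀ = diagonal (fun k => fr s (lam k)) := by
    rw [he.FR_eq hlam h0]; exact cj_diag he.orth _
  have cBp : ∀ m, e * (FB s A0 ^ m) * eᵀ = diagonal (fun k => fb s (lam k) ^ m) := by
    intro m; rw [he.FB_pow_eq hlam h0]; exact cj_diag he.orth _
  have cFD : e * FD q s A0 * eᵀ = diagonal (fun k => fd q s (lam k)) := by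
    rw [he.FD_eq hlam h0]; exact cj_diag he.orth _
  rw [← trace_cj he' (H * FB s A0 ^ q + _), ← trace_cj he' (FD q s A0 * H),
    he.trace_sigma hlam h0]
  simp only [cj_add, cj_mul he', cj_sum, cj_neg, cj_smul, cA, cR, cBp, cFD]
  rw [← hHt]
  simp only [Matrix.trace, Matrix.diag_apply, Matrix.add_apply, Matrix.mul_diagonal,
    Matrix.diagonal_mul, Matrix.sum_apply, Matrix.neg_apply, Matrix.smul_apply,
    Matrix.diagonal_apply_eq, smul_eq_mul]
  rw [Finset.mul_sum, Finset.mul_sum, ← Finset.sum_sub_distrib]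
  refine Finset.sum_congr rfl fun k _ => ?_
  have hr : fr s (lam k) * (1 + s * lam k) = 1 := by
    unfold fr
    exact one_div_mul_cancel (one_add_pos h0 (hlam k)).ne'
  have hterm : ∀ j ∈ range q,
      fb s (lam k) ^ j * (Ht k k * fr s (lam k)
        + lam k * -(fr s (lam k) * (σ' * lam k + s * Ht k k) * fr s (lam k)))
        * fb s (lam k) ^ (q - 1 - j)
      = fb s (lam k) ^ (q - 1) * (Ht k k * fr s (lam k) ^ 2 - σ' * fb s (lam k) ^ 2) := by
    intro j hj
    have hj' := Finset.mem_range.mp hj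
    have e1 : fb s (lam k) ^ j * fb s (lam k) ^ (q - 1 - j) = fb s (lam k) ^ (q - 1) := by
      rw [← pow_add]; congr 1; omega
    have e2 : Ht k k * fr s (lam k)
        + lam k * -(fr s (lam k) * (σ' * lam k + s * Ht k k) * fr s (lam k))
        = Ht k k * fr s (lam k) ^ 2 - σ' * fb s (lam k) ^ 2 := by
      rw [fb_eq]
      have e3 : Ht k k * fr s (lam k) = Ht k k * fr s (lam k) * (fr s (lam k) * (1 + s * lam k)) := by
        rw [hr, mul_one]
      rw [e3]; ring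
    rw [e2, ← e1]; ring
  rw [Finset.sum_congr rfl hterm, Finset.sum_const, card_range, nsmul_eq_mul]
  unfold fd ff
  rcases Nat.eq_zero_or_pos q with hq | hq
  · subst hq; simp
  · have e4 : fb s (lam k) ^ q = fb s (lam k) ^ (q - 1) * (lam k * fr s (lam k)) := by
      rw [← fb_eq, ← pow_succ]; congr 1; omega
    rw [e4]
    rw [show fb s (lam k) ^ 2 = (lam k * fr s (lam k)) ^ 2 by rw [← fb_eq]]
    rw [show fb s (lam k) * (lam k * (fb s (lam k) ^ (q - 1) * (lam k * fr s (lam k))))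
      = (lam k * fr s (lam k)) * (lam k * (fb s (lam k) ^ (q - 1) * (lam k * fr s (lam k)))) by
        rw [← fb_eq]]
    ring

/-- **5.1b**: derivative of `t ↦ Tr (F'(A(t)) H(t))`, `H(t0) = H = A'(t0)` symmetric. -/
theorem FD_hasDerivAt {s : ℝ} {Hf : ℝ → Matrix ι ι ℝ} {K : Matrix ι ι ℝ}
    (hA : ∀ i j, HasDerivAt (fun t => A t i j) (Hf t0 i j) t0)
    (hH : ∀ i j, HasDerivAt (fun t => Hf t i j) (K i j) t0)
    (hs : (Hf t0)ᵀ = Hf t0)
    (h0 : 0 ≤ s) {e : Matrix ι ι ℝ} {lam : ι → ℝ} (he : Eig (A t0) e lam) (hlam : ∀ i, 0 ≤ lam i) :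
    HasDerivAt (fun t => trace (FD q s (A t) * Hf t))
      (trace (FD q s (A t0) * K)
        + ∑ k, ∑ l, cc q s (lam k) (lam l) * ((e * Hf t0 * eᵀ) k l) ^ 2) t0 := by
  have hp := he.psd hlam
  have hσ : HasDerivAt (fun _ : ℝ => s) 0 t0 := hasDerivAt_const t0 s
  have hR := FR_hasDerivAt hσ hA h0 hp
  have hBq := hd_pow (FB_hasDerivAt hσ hA h0 hp) q
  have hRB := hd_mul hR hBq
  have hFD : ∀ i j, HasDerivAt (fun t => FD q s (A t) i j)
      (((∑ k ∈ range q, FB s (A t0) ^ k * (Hf t0 * FR s (A t0) + A t0 * -(FR s (A t0)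
        * ((0 : ℝ) • A t0 + s • Hf t0) * FR s (A t0))) * FB s (A t0) ^ (q - 1 - k))
        + (q : ℝ) • (-(FR s (A t0) * ((0 : ℝ) • A t0 + s • Hf t0) * FR s (A t0)) * FB s (A t0) ^ q
        + FR s (A t0) * ∑ k ∈ range q, FB s (A t0) ^ k * (Hf t0 * FR s (A t0) + A t0 * -(FR s (A t0)
        * ((0 : ℝ) • A t0 + s • Hf t0) * FR s (A t0))) * FB s (A t0) ^ (q - 1 - k))) i j) t0 := by
    intro i j
    unfold FD
    simp only [Matrix.add_apply (A := FB s _ ^ q), Matrix.smul_apply, smul_eq_mul]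
    exact (hBq i j).add ((hRB i j).const_mul (q : ℝ))
  have h1 := hd_trace (hd_mul hFD hH)
  refine h1.congr_deriv ?_
  set A0 := A t0 with hA0
  have he' := he.orth'
  set Ht := e * Hf t0 * eᵀ with hHt
  have hHts : ∀ k l, Ht l k = Ht k l := by
    have : Htᵀ = Ht := by
      rw [hHt, transpose_mul, transpose_mul, transpose_transpose, hs, Matrix.mul_assoc]
    intro k l
    exact congrFun (congrFun this k) l
  have cA : e * A0 * eᵀ = diagonal lam := by
    conv_lhs => rw [he.diag]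
    exact cj_diag he.orth lam
  have cR : e * FR s A0 * eᵀ = diagonal (fun k => fr s (lam k)) := by
    rw [he.FR_eq hlam h0]; exact cj_diag he.orth _
  have cBp : ∀ m, e * (FB s A0 ^ m) * eᵀ = diagonal (fun k => fb s (lam k) ^ m) := by
    intro m; rw [he.FB_pow_eq hlam h0]; exact cj_diag he.orth _
  rw [trace_add, add_comm]
  congr 1
  rw [← trace_cj he']
  simp only [cj_add, cj_mul he', cj_sum, cj_neg, cj_smul, cA, cR, cBp, zero_smul, zero_add]
  rw [← hHt]
  simp only [Matrix.trace, Matrix.diag_apply, Matrix.mul_apply (N := Ht)]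
  refine Finset.sum_congr rfl fun k _ => Finset.sum_congr rfl fun l _ => ?_
  simp only [Matrix.add_apply, Matrix.mul_diagonal,
    Matrix.diagonal_mul, Matrix.sum_apply, Matrix.neg_apply, Matrix.smul_apply, smul_eq_mul]
  rw [hHts k l]
  have hr : fr s (lam k) * (1 + s * lam k) = 1 := by
    unfold fr
    exact one_div_mul_cancel (one_add_pos h0 (hlam k)).ne'
  have hterm : ∀ j ∈ range q,
      fb s (lam k) ^ j * (Ht k l * fr s (lam l)
        + lam k * -(fr s (lam k) * (s * Ht k l) * fr s (lam l)))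
        * fb s (lam l) ^ (q - 1 - j)
      = fr s (lam k) * fr s (lam l) * Ht k l * (fb s (lam k) ^ j * fb s (lam l) ^ (q - 1 - j)) := by
    intro j _
    have e2 : Ht k l * fr s (lam l)
        + lam k * -(fr s (lam k) * (s * Ht k l) * fr s (lam l))
        = fr s (lam k) * fr s (lam l) * Ht k l := by
      have e3 : Ht k l * fr s (lam l) = Ht k l * fr s (lam l) * (fr s (lam k) * (1 + s * lam k)) := by
        rw [hr, mul_one]
      rw [e3]; ring
    rw [e2]; ring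
  rw [Finset.sum_congr rfl hterm, ← Finset.mul_sum]
  unfold cc fS
  ring

end deriv

/-- `|c(x,y)| ≤ C` on `[0,a]²` -/
theorem abs_cc_le {q : ℕ} {σ a x y : ℝ} (hσ : 0 ≤ σ) (hx : 0 ≤ x) (hy : 0 ≤ y) (hxa : x ≤ a)
    (hya : y ≤ a) : |cc q σ x y| ≤ q * a ^ (q - 1) * (1 + q) + q * σ * a ^ q := by
  have ha : 0 ≤ a := hx.trans hxa
  have hrx := fr_pos hσ hx
  have hry := fr_pos hσ hy
  have hrx1 := fr_le_one hσ hx
  have hry1 := fr_le_one hσ hy
  have hbx := fb_nonneg hσ hx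
  have hby := fb_nonneg hσ hy
  have hbxa : fb σ x ≤ a := (fb_le hσ hx).trans hxa
  have hbya : fb σ y ≤ a := (fb_le hσ hy).trans hya
  have hq : (0 : ℝ) ≤ q := Nat.cast_nonneg q
  have hS : fS q σ x y ≤ q * a ^ (q - 1) := by
    have h1 : ∑ j ∈ range q, fb σ x ^ j * fb σ y ^ (q - 1 - j) ≤ ∑ _j ∈ range q, a ^ (q - 1) := by
      refine Finset.sum_le_sum fun j hj => ?_
      have hj' := Finset.mem_range.mp hj
      calc fb σ x ^ j * fb σ y ^ (q - 1 - j) ≤ a ^ j * a ^ (q - 1 - j) :=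
            mul_le_mul (pow_le_pow_left₀ hbx hbxa j) (pow_le_pow_left₀ hby hbya _)
              (pow_nonneg hby _) (pow_nonneg ha _)
        _ = a ^ (q - 1) := by rw [← pow_add]; congr 1; omega
    rw [Finset.sum_const, card_range, nsmul_eq_mul] at h1
    unfold fS
    have h2 : fr σ x * fr σ y ≤ 1 := mul_le_one₀ hrx1 hry.le hry1
    calc fr σ x * fr σ y * ∑ j ∈ range q, fb σ x ^ j * fb σ y ^ (q - 1 - j)
        ≤ 1 * (q * a ^ (q - 1)) :=
          mul_le_mul h2 h1 (Finset.sum_nonneg fun j _ =>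
            mul_nonneg (pow_nonneg hbx _) (pow_nonneg hby _)) zero_le_one
      _ = _ := one_mul _
  have hS0 := fS_nonneg (q := q) hσ hx hy
  have h3 : 0 ≤ q * σ * fr σ x * fr σ y * fb σ y ^ q := by
    have := pow_nonneg hby q
    positivity
  have h4 : q * σ * fr σ x * fr σ y * fb σ y ^ q ≤ q * σ * a ^ q := by
    have h5 : fr σ x * fr σ y * fb σ y ^ q ≤ 1 * a ^ q :=
      mul_le_mul (mul_le_one₀ hrx1 hry.le hry1) (pow_le_pow_left₀ hby hbya q)
        (pow_nonneg hby q) zero_le_one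
    have := mul_le_mul_of_nonneg_left h5 (mul_nonneg hq hσ)
    calc _ = q * σ * (fr σ x * fr σ y * fb σ y ^ q) := by ring
      _ ≤ _ := this
      _ = _ := by ring
  have h6 : fS q σ x y * (1 + q * fr σ x) ≤ q * a ^ (q - 1) * (1 + q) := by
    have h7 : 1 + q * fr σ x ≤ 1 + q := by nlinarith
    exact mul_le_mul hS h7 (by positivity) (by positivity)
  have h8 : 0 ≤ fS q σ x y * (1 + q * fr σ x) := by positivity
  unfold cc
  rw [abs_le]
  have h9 : 0 ≤ (q : ℝ) * a ^ (q - 1) * (1 + q) := by positivity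
  have h10 : 0 ≤ (q : ℝ) * σ * a ^ q := by positivity
  constructor <;> linarith

/-- orthogonal invariance of the Hilbert-Schmidt norm -/
theorem sum_sq_conj {e H : Matrix ι ι ℝ} (he : e * eᵀ = 1) :
    ∑ k, ∑ l, ((e * H * eᵀ) k l) ^ 2 = ∑ i, ∑ j, H i j ^ 2 := by
  have he' : eᵀ * e = 1 := mul_eq_one_comm.mp he
  have hgen : ∀ X : Matrix ι ι ℝ, ∑ k, ∑ l, X k l ^ 2 = trace (X * Xᵀ) := by
    intro X
    simp only [Matrix.trace, Matrix.diag_apply, Matrix.mul_apply, Matrix.transpose_apply, sq]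
  rw [hgen, hgen]
  have h1 : e * H * eᵀ * (e * H * eᵀ)ᵀ = e * (H * Hᵀ) * eᵀ := by
    rw [cj_mul he']
    congr 1
    simp only [transpose_mul, transpose_transpose, Matrix.mul_assoc]
  rw [h1, trace_cj he']

/-- the second order term is bounded by `C Σ H_ij²` -/
theorem abs_sum_cc_le {q : ℕ} {σ a : ℝ} (hσ : 0 ≤ σ) {e H : Matrix ι ι ℝ} {lam : ι → ℝ}
    (he : e * eᵀ = 1) (hlam : ∀ i, 0 ≤ lam i) (hla : ∀ i, lam i ≤ a) :
    |∑ k, ∑ l, cc q σ (lam k) (lam l) * ((e * H * eᵀ) k l) ^ 2|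
      ≤ (q * a ^ (q - 1) * (1 + q) + q * σ * a ^ q) * ∑ i, ∑ j, H i j ^ 2 := by
  rw [← sum_sq_conj he, Finset.mul_sum]
  refine (Finset.abs_sum_le_sum_abs _ _).trans (Finset.sum_le_sum fun k _ => ?_)
  rw [Finset.mul_sum]
  refine (Finset.abs_sum_le_sum_abs _ _).trans (Finset.sum_le_sum fun l _ => ?_)
  rw [abs_mul, abs_of_nonneg (sq_nonneg ((e * H * eᵀ) k l))]
  exact mul_le_mul_of_nonneg_right (abs_cc_le hσ (hlam k) (hlam l) (hla k) (hla l)) (sq_nonneg _)

end Pool.Agent.Lib.MP_8d00da_gt.h42k
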