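import Pool.Agent.Lib.MP_8d00da_gt.h42k.S5g
import Pool.Agent.Lib.MP_8d00da_gt.h42k.S6a

/-!
Bridge between `Eig` (section 5) and `EB` (section 6).
-/

namespace Pool.Agent.Lib.MP_8d00da_gt.h42k

open Finset Matrix

variable {ι : Type*} [Fintype ι] [DecidableEq ι]

/-- An eigenbasis in the sense of `EB` is one in the sense of `Eig`. -/
theorem EB.toEig {A : Matrix ι ι ℝ} {e : ι → ι → ℝ} {lam : ι → ℝ} (h : EB A e lam) :
    Eig A (Matrix.of e) lam := by
  have h1 : (Matrix.of e) * (Matrix.of e)ᵀ = 1 := by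
    ext i j
    rw [Matrix.mul_apply, Matrix.one_apply]
    have := h.orth i j
    simpa [dt] using this
  have h2 : (Matrix.of e)ᵀ * (Matrix.of e) = 1 := mul_eq_one_comm.1 h1
  refine ⟨h1, ?_⟩
  have h3 : A * (Matrix.of e)ᵀ = (Matrix.of e)ᵀ * diagonal lam := by
    ext a i
    have this : ∑ x, A a x * e i x = lam i * e i a := congrFun (h.eig i) a
    rw [Matrix.mul_diagonal, Matrix.mul_apply]
    change ∑ x, A a x * e i x = e i a * lam i
    rw [this]; ring
  calc A = A * ((Matrix.of e)ᵀ * (Matrix.of e)) := by rw [h2, Matrix.mul_one]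
    _ = _ := by rw [← Matrix.mul_assoc, h3]

/-- An eigenbasis in the sense of `Eig` is one in the sense of `EB`. -/
theorem Eig.toEB {A e : Matrix ι ι ℝ} {lam : ι → ℝ} (h : Eig A e lam) :
    EB A (fun i a => e i a) lam := by
  refine ⟨fun i j => ?_, fun i => ?_⟩
  · have := congrFun (congrFun h.orth i) j
    rw [Matrix.mul_apply, Matrix.one_apply] at this
    simpa [dt] using this
  · have h3 : A * eᵀ = eᵀ * diagonal lam := by
      conv_lhs => rw [h.diag]
      rw [Matrix.mul_assoc, h.orth, Matrix.mul_one]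
    ext a
    have := congrFun (congrFun h3 a) i
    rw [Matrix.mul_diagonal, Matrix.mul_apply, transpose_apply] at this
    simp only [mulVec, dotProduct]
    simp only [transpose_apply] at this
    rw [this]; ring

omit [DecidableEq ι] in
/-- `(e H e^T)_kl = e_k · H e_l` -/
theorem conj_eq_dt (e : ι → ι → ℝ) (H : Matrix ι ι ℝ) (k l : ι) :
    ((Matrix.of e) * H * (Matrix.of e)ᵀ) k l = dt (e k) (H.mulVec (e l)) := by
  rw [conj_entry]
  simp only [dt, mulVec, dotProduct, of_apply, Finset.mul_sum]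
  refine Finset.sum_congr rfl fun a _ => Finset.sum_congr rfl fun b _ => ?_
  ring

omit [DecidableEq ι] in
/-- the rotated tensor written out -/
theorem Tu_eq (e : ι → ι → ℝ) (T : ι → ι → ι → ℝ) (m k l : ι) :
    Tu (Matrix.of e) T m k l = ∑ i, ∑ a, ∑ b, e m i * e k a * e l b * T i a b := by
  unfold Tu
  refine Finset.sum_congr rfl fun i _ => ?_
  rw [conj_entry]
  simp only [Tm, of_apply, Finset.mul_sum]
  refine Finset.sum_congr rfl fun a _ => Finset.sum_congr rfl fun b _ => ?_
  ring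

omit [DecidableEq ι] in
/-- `PSD` from the quadratic form. -/
theorem PSD.mk' {A : Matrix ι ι ℝ} (hs : ∀ i j, A i j = A j i)
    (h : ∀ θ : ι → ℝ, 0 ≤ dt θ (A.mulVec θ)) : PSD A := by
  refine ⟨?_, fun θ => ?_⟩
  · ext i j
    rw [transpose_apply, hs]
  · have := h θ
    rw [form_eq]
    simpa [dt, dotProduct] using this

omit [DecidableEq ι] in
theorem dt_mulVec_eq_form (A : Matrix ι ι ℝ) (θ : ι → ℝ) :
    dt θ (A.mulVec θ) = ∑ i, ∑ j, θ i * A i j * θ j := by
  rw [form_eq]
  rfl

end Pool.Agent.Lib.MP_8d00da_gt.h42k
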