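import Pool.Agent.Lib.MP_8d00da_gt.h42k.S6b
import Pool.Agent.Lib.MP_8d00da_gt.h42k.G45

/-!
# 6.3: the matrix potential of the posterior covariance matrix: first derivatives
-/

namespace Pool.Agent.Lib.MP_8d00da_gt.h42k

open MeasureTheory Set Filter
open scoped Topology NNReal ENNReal ContDiff

set_option linter.unusedSectionVars false
set_option linter.unusedVariables false

variable {ι : Type*} [Fintype ι] [DecidableEq ι]

variable {κ M : ℝ} {V : (ι → ℝ) → ℝ}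

/-- `Φ(t,y) = F(σ(t), A(t,y))`, `σ(t) = σ₀ √(t+κ)`. -/
noncomputable def Ph (V : (ι → ℝ) → ℝ) (κ : ℝ) (q : ℕ) (σ0 t : ℝ) (y : ι → ℝ) : ℝ :=
  FF q (σ0 * √(t + κ)) (CM (pt V t y))

/-- Derivative of the posterior covariance matrix in the direction `u`. -/
noncomputable def dA (V : (ι → ℝ) → ℝ) (t : ℝ) (u y : ι → ℝ) : Matrix ι ι ℝ :=
  Matrix.of fun j k => gd (fun z => CM (pt V t z) j k) y u

/-- Second derivative of the posterior covariance matrix in the direction `u`. -/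
noncomputable def ddA (V : (ι → ℝ) → ℝ) (t : ℝ) (u y : ι → ℝ) : Matrix ι ι ℝ :=
  Matrix.of fun j k => hs (fun z => CM (pt V t z) j k) y u

theorem CM_pt_PSD (H : Nice κ M V) {t : ℝ} (ht : -κ < t) (y : ι → ℝ) : PSD (CM (pt V t y)) :=
  CM_PSD (H.ptn ht y)

/-- `A(t,y) ≤ 1/(t+κ)` as a form. -/
theorem CM_pt_le (H : Nice κ M V) {t : ℝ} (ht : -κ < t) (y θ : ι → ℝ) :
    ∑ i, ∑ j, θ i * CM (pt V t y) i j * θ j ≤ 1 / (t + κ) * ∑ i, θ i ^ 2 := by
  have h1 := CM_quad (H.ptn ht y) θ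
  have h2 := s6_CLe_kappa (H.ptn ht y) θ
  rw [h1, add_comm t κ]
  exact h2

theorem CM_pt_smooth (H : Nice κ M V) {t : ℝ} (ht : -κ < t) (y : ι → ℝ) (i j : ι) :
    ContDiffAt ℝ ∞ (fun p : ℝ × (ι → ℝ) => CM (pt V p.1 p.2) i j) (t, y) :=
  CP_contDiffAt H (T0.coord i) (T0.coord j) ht y

theorem CM_pt_smooth_y (H : Nice κ M V) {t : ℝ} (ht : -κ < t) (i j : ι) :
    ContDiff ℝ ∞ (fun y => CM (pt V t y) i j) := by
  rw [contDiff_iff_contDiffAt]
  intro y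
  have h1 : ContDiffAt ℝ ∞ (fun z : ι → ℝ => ((t, z) : ℝ × (ι → ℝ))) y :=
    contDiffAt_const.prodMk contDiffAt_id
  exact ContDiffAt.comp (g := fun p : ℝ × (ι → ℝ) => CM (pt V p.1 p.2) i j)
    (f := fun z : ι → ℝ => ((t, z) : ℝ × (ι → ℝ))) y (CM_pt_smooth H ht y i j) h1

/-- `CM_pt_smooth` and `FF_contDiffAt`. -/
theorem Ph_smooth (H : Nice κ M V) (q : ℕ) {σ0 : ℝ} (hσ : 0 < σ0) {t : ℝ} (ht : -κ < t)
    (y : ι → ℝ) : ContDiffAt ℝ ∞ (fun p : ℝ × (ι → ℝ) => Ph V κ q σ0 p.1 p.2) (t, y) := by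
  have h1 : ContDiffAt ℝ ∞ (fun p : ℝ × (ι → ℝ) => σ0 * √(p.1 + κ)) (t, y) := by
    have h2 : ContDiffAt ℝ ∞ (fun p : ℝ × (ι → ℝ) => p.1 + κ) (t, y) :=
      contDiffAt_fst.add contDiffAt_const
    have h3 : t + κ ≠ 0 := by linarith
    exact contDiffAt_const.mul (h2.sqrt h3)
  exact FF_contDiffAt (q := q) (σ := fun p : ℝ × (ι → ℝ) => σ0 * √(p.1 + κ))
    (A := fun p : ℝ × (ι → ℝ) => CM (pt V p.1 p.2)) (x0 := (t, y)) h1
    (fun i j => CM_pt_smooth H ht y i j) (mul_nonneg hσ.le (Real.sqrt_nonneg _))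
    (CM_pt_PSD H ht y)

theorem Ph_smooth_y (H : Nice κ M V) (q : ℕ) {σ0 : ℝ} (hσ : 0 < σ0) {t : ℝ} (ht : -κ < t) :
    ContDiff ℝ ∞ (Ph V κ q σ0 t) := by
  rw [contDiff_iff_contDiffAt]
  intro y
  have h1 : ContDiffAt ℝ ∞ (fun z : ι → ℝ => ((t, z) : ℝ × (ι → ℝ))) y :=
    contDiffAt_const.prodMk contDiffAt_id
  exact ContDiffAt.comp (g := fun p : ℝ × (ι → ℝ) => Ph V κ q σ0 p.1 p.2)
    (f := fun z : ι → ℝ => ((t, z) : ℝ × (ι → ℝ))) y (Ph_smooth H q hσ ht y) h1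

theorem Ph_nonneg (H : Nice κ M V) (q : ℕ) {σ0 : ℝ} (hσ : 0 < σ0) {t : ℝ} (ht : -κ < t)
    (y : ι → ℝ) : 0 ≤ Ph V κ q σ0 t y :=
  (CM_pt_PSD H ht y).FF_nonneg (mul_nonneg hσ.le (Real.sqrt_nonneg _))

theorem dA_symm (H : Nice κ M V) {t : ℝ} (ht : -κ < t) (u y : ι → ℝ) :
    (dA V t u y).transpose = dA V t u y := by
  ext j k
  show gd (fun z => CM (pt V t z) k j) y u = gd (fun z => CM (pt V t z) j k) y u
  have e : (fun z => CM (pt V t z) k j) = fun z => CM (pt V t z) j k :=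
    funext fun z => CM_symm _ k j
  rw [e]

private theorem S6e_two {f : (ι → ℝ) → ℝ} (hf : ContDiff ℝ ∞ f) : ContDiff ℝ 2 f :=
  hf.of_le (by norm_cast)

private theorem S6e_lineA (H : Nice κ M V) {t : ℝ} (ht : -κ < t) (u y : ι → ℝ) (s : ℝ) (i j : ι) :
    HasDerivAt (fun r : ℝ => CM (pt V t (y + r • u)) i j) (dA V t u (y + s • u) i j) s :=
  (hs_line (S6e_two (CM_pt_smooth_y H ht i j)) y u s).2

private theorem S6e_lineD (H : Nice κ M V) {t : ℝ} (ht : -κ < t) (u y : ι → ℝ) (s : ℝ) (i j : ι) :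
    HasDerivAt (fun r : ℝ => dA V t u (y + r • u) i j) (ddA V t u (y + s • u) i j) s :=
  (hs_line (S6e_two (CM_pt_smooth_y H ht i j)) y u s).1

/-- First derivative in the direction `u` (`FF_hasDerivAt` along `s ↦ y + s u`, `σ` constant). -/
theorem Ph_gd (H : Nice κ M V) (q : ℕ) {σ0 : ℝ} (hσ : 0 < σ0) {t : ℝ} (ht : -κ < t)
    (y u : ι → ℝ) :
    gd (Ph V κ q σ0 t) y u =
      (FD q (σ0 * √(t + κ)) (CM (pt V t y)) * dA V t u y).trace := by
  have hs0 : 0 ≤ σ0 * √(t + κ) := mul_nonneg hσ.le (Real.sqrt_nonneg _)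
  have h1 := (hs_line (S6e_two (Ph_smooth_y H q hσ ht)) y u 0).2
  have h2 := FF_hasDerivAt (q := q) (t0 := (0 : ℝ)) (σ := fun _ => σ0 * √(t + κ)) (σ' := 0)
    (A := fun r : ℝ => CM (pt V t (y + r • u))) (H := dA V t u (y + (0 : ℝ) • u))
    (hasDerivAt_const (0 : ℝ) _) (fun i j => S6e_lineA H ht u y 0 i j) hs0
    (CM_pt_PSD H ht (y + (0 : ℝ) • u))
  have h3 := h1.unique h2
  rw [zero_mul, sub_zero, zero_smul, add_zero] at h3
  exact h3

/-- Second derivative in the direction `u` (`FD_hasDerivAt` along `s ↦ y + s u`, `hs_line`). -/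
theorem Ph_hs (H : Nice κ M V) (q : ℕ) {σ0 : ℝ} (hσ : 0 < σ0) {t : ℝ} (ht : -κ < t)
    (y u : ι → ℝ) {e : Matrix ι ι ℝ} {lam : ι → ℝ} (he : Eig (CM (pt V t y)) e lam) :
    hs (Ph V κ q σ0 t) y u =
      (FD q (σ0 * √(t + κ)) (CM (pt V t y)) * ddA V t u y).trace
        + ∑ k, ∑ l, cc q (σ0 * √(t + κ)) (lam k) (lam l) *
          ((e * dA V t u y * e.transpose) k l) ^ 2 := by
  have hs0 : 0 ≤ σ0 * √(t + κ) := mul_nonneg hσ.le (Real.sqrt_nonneg _)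
  have hz : y + (0 : ℝ) • u = y := by rw [zero_smul, add_zero]
  have h1 := (hs_line (S6e_two (Ph_smooth_y H q hσ ht)) y u 0).1
  have h0 : (fun r : ℝ => gd (Ph V κ q σ0 t) (y + r • u) u) =
      fun r => (FD q (σ0 * √(t + κ)) (CM (pt V t (y + r • u))) * dA V t u (y + r • u)).trace :=
    funext fun r => Ph_gd H q hσ ht (y + r • u) u
  rw [h0] at h1
  have he' : Eig (CM (pt V t (y + (0 : ℝ) • u))) e lam := by
    rw [hz]
    exact he
  have h2 := FD_hasDerivAt (q := q) (t0 := (0 : ℝ)) (s := σ0 * √(t + κ))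
    (A := fun r : ℝ => CM (pt V t (y + r • u)))
    (Hf := fun r : ℝ => dA V t u (y + r • u)) (K := ddA V t u (y + (0 : ℝ) • u))
    (fun i j => S6e_lineA H ht u y 0 i j) (fun i j => S6e_lineD H ht u y 0 i j)
    (dA_symm H ht u (y + (0 : ℝ) • u)) hs0 he'
    (fun k => he'.nonneg (CM_pt_PSD H ht (y + (0 : ℝ) • u)) k)
  have h3 := h1.unique h2
  rw [hz] at h3
  exact h3

/-- Time derivative (`FF_hasDerivAt`, `σ' = σ/(2(t+κ))`). -/
theorem Ph_dt (H : Nice κ M V) (q : ℕ) {σ0 : ℝ} (hσ : 0 < σ0) {t : ℝ} (ht : -κ < t)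
    (y : ι → ℝ) :
    HasDerivAt (fun s => Ph V κ q σ0 s y)
      ((FD q (σ0 * √(t + κ)) (CM (pt V t y)) *
          Matrix.of fun j k => deriv (fun s => CM (pt V s y) j k) t).trace
        - σ0 * √(t + κ) / (2 * (t + κ)) *
          (q * (CM (pt V t y) * FB (σ0 * √(t + κ)) (CM (pt V t y)) ^ (q + 1)).trace)) t := by
  have hτ : 0 < t + κ := by linarith
  have hs0 : 0 ≤ σ0 * √(t + κ) := mul_nonneg hσ.le (Real.sqrt_nonneg _)
  have h1 : HasDerivAt (fun s : ℝ => σ0 * √(s + κ)) (σ0 * √(t + κ) / (2 * (t + κ))) t := by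
    have h2 : HasDerivAt (fun s : ℝ => s + κ) 1 t := (hasDerivAt_id' t).add_const κ
    have h3 := (h2.sqrt hτ.ne').const_mul σ0
    refine h3.congr_deriv ?_
    have h4 : 0 < √(t + κ) := Real.sqrt_pos.2 hτ
    have h5 : √(t + κ) * √(t + κ) = t + κ := Real.mul_self_sqrt hτ.le
    rw [← mul_div_assoc, mul_one, div_eq_div_iff (by positivity) (by positivity)]
    calc σ0 * (2 * (t + κ)) = 2 * σ0 * (√(t + κ) * √(t + κ)) := by rw [h5]; ring
      _ = σ0 * √(t + κ) * (2 * √(t + κ)) := by ring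
  have h2 : ∀ i j : ι, HasDerivAt (fun s => CM (pt V s y) i j)
      ((Matrix.of fun j k => deriv (fun s => CM (pt V s y) j k) t : Matrix ι ι ℝ) i j) t := by
    intro i j
    have h3 : HasDerivAt (fun s => CM (pt V s y) i j)
        (-(1 / 2) * TC V t (fun x => x i) (fun x => x j) sq y) t :=
      CP_deriv H (T0.coord i) (T0.coord j) ht y
    exact h3.differentiableAt.hasDerivAt
  exact FF_hasDerivAt (q := q) (t0 := t) (σ := fun s => σ0 * √(s + κ))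
    (A := fun s : ℝ => CM (pt V s y)) h1 h2 hs0 (CM_pt_PSD H ht y)

end Pool.Agent.Lib.MP_8d00da_gt.h42k
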