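import Pool.Agent.Lib.MP_8d00da_gt.h42k.S6e
import Pool.Agent.Lib.MP_8d00da_gt.h42k.G41

/-!
# 6.3: the matrix potential of the posterior covariance matrix: growth
-/

namespace Pool.Agent.Lib.MP_8d00da_gt.h42k

open MeasureTheory Set Filter
open scoped Topology NNReal ENNReal ContDiff

set_option linter.unusedSectionVars false
set_option linter.unusedVariables false

variable {ι : Type*} [Fintype ι] [DecidableEq ι]

variable {κ M : ℝ} {V : (ι → ℝ) → ℝ}

private theorem S6f_lt (H : Nice κ M V) {t T : ℝ} (ht : t ∈ Set.Icc 0 T) : -κ < t := by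
  linarith [H.kpos, ht.1]

private theorem S6f_form (H : Nice κ M V) {t T : ℝ} (ht : t ∈ Set.Icc 0 T) (y θ : ι → ℝ) :
    ∑ i, ∑ j, θ i * CM (pt V t y) i j * θ j ≤ 1 / κ * ∑ i, θ i ^ 2 := by
  have h1 := CM_pt_le H (S6f_lt H ht) y θ
  have h2 : 1 / (t + κ) ≤ 1 / κ :=
    one_div_le_one_div_of_le H.kpos (by linarith [ht.1])
  have h3 : 0 ≤ ∑ i, θ i ^ 2 := Finset.sum_nonneg fun i _ => sq_nonneg _
  exact h1.trans (mul_le_mul_of_nonneg_right h2 h3)

private theorem S6f_sig {σ0 : ℝ} (hσ : 0 < σ0) (t κ : ℝ) : 0 ≤ σ0 * √(t + κ) :=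
  mul_nonneg hσ.le (Real.sqrt_nonneg _)

/-- `Φ ≤ Tr A^{q+1} ≤ n κ^{-(q+1)}` for `t ≥ 0`. -/
theorem Ph_pgu (H : Nice κ M V) (q : ℕ) {σ0 : ℝ} (hσ : 0 < σ0) (T : ℝ) :
    PGU (Ph V κ q σ0) T := by
  refine ⟨Fintype.card ι * (1 / κ) ^ (q + 1), 0, fun t ht y => ?_⟩
  have hA := CM_pt_PSD H (S6f_lt H ht) y
  rw [pow_zero, mul_one, abs_of_nonneg (Ph_nonneg H q hσ (S6f_lt H ht) y)]
  unfold Ph
  refine (hA.FF_le (S6f_sig hσ t κ)).trans ?_
  obtain ⟨e, lam, he, hlam⟩ := hA.exists_eig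
  rw [he.trace_pow]
  have hle := he.le (S6f_form H ht y)
  calc ∑ k, lam k ^ (q + 1) ≤ ∑ _k : ι, (1 / κ) ^ (q + 1) :=
        Finset.sum_le_sum fun k _ => pow_le_pow_left₀ (hlam k) (hle k) _
    _ = _ := by rw [Finset.sum_const, nsmul_eq_mul, Finset.card_univ]

/-- The directional derivatives of the entries (`AL.cm`, `AL.pdx`). -/
theorem dA_pgu (H : Nice κ M V) (u : ι → ℝ) (i j : ι) (T : ℝ) :
    PGU (fun t y => dA V t u y i j) T := by
  have h := PGU.sum (T := T) (Finset.univ : Finset ι)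
    (F := fun k t y => u k * pd k (fun z => CM (pt V t z) i j) y) (fun k _ =>
      (PGU.const (u k) T).mul ((AL.cm V i j).pd_pgu H k T))
  exact h

theorem ddA_pgu (H : Nice κ M V) (u : ι → ℝ) (i j : ι) (T : ℝ) :
    PGU (fun t y => ddA V t u y i j) T := by
  have h := PGU.sum (T := T) (Finset.univ : Finset ι)
    (F := fun k t y => ∑ l, u k * u l * pd k (pd l (fun z => CM (pt V t z) i j)) y)
    (fun k _ => PGU.sum (T := T) (Finset.univ : Finset ι)
      (F := fun l t y => u k * u l * pd k (pd l (fun z => CM (pt V t z) i j)) y)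
      (fun l _ => (PGU.const (u k * u l) T).mul ((AL.cm V i j).pd2_pgu H k l T)))
  exact h

private theorem S6f_FD_pgu (H : Nice κ M V) (q : ℕ) {σ0 : ℝ} (hσ : 0 < σ0) (T : ℝ) (a b : ι) :
    PGU (fun t y => FD q (σ0 * √(t + κ)) (CM (pt V t y)) a b) T := by
  refine ⟨(1 + q) * (1 / κ) ^ q, 0, fun t ht y => ?_⟩
  rw [pow_zero, mul_one]
  exact (CM_pt_PSD H (S6f_lt H ht) y).abs_FD_le (S6f_sig hσ t κ) (S6f_form H ht y) a b

private theorem S6f_tr_pgu (H : Nice κ M V) (q : ℕ) {σ0 : ℝ} (hσ : 0 < σ0) (T : ℝ)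
    {B : ℝ → (ι → ℝ) → Matrix ι ι ℝ} (hB : ∀ a b, PGU (fun t y => B t y a b) T) :
    PGU (fun t y => (FD q (σ0 * √(t + κ)) (CM (pt V t y)) * B t y).trace) T := by
  have h := PGU.sum (T := T) (Finset.univ : Finset ι)
    (F := fun a t y => ∑ b, FD q (σ0 * √(t + κ)) (CM (pt V t y)) a b * B t y b a)
    (fun a _ => PGU.sum (T := T) (Finset.univ : Finset ι)
      (F := fun b t y => FD q (σ0 * √(t + κ)) (CM (pt V t y)) a b * B t y b a)
      (fun b _ => (S6f_FD_pgu H q hσ T a b).mul (hB b a)))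
  refine h.congr fun t ht y => ?_
  simp only [Matrix.trace, Matrix.diag_apply, Matrix.mul_apply]

private theorem S6f_gd_single (f : (ι → ℝ) → ℝ) (y : ι → ℝ) (i : ι) :
    gd f y (Pi.single i 1) = pd i f y := by
  unfold gd
  rw [Finset.sum_eq_single i]
  · simp
  · intro k _ hk
    rw [Pi.single_eq_of_ne hk, zero_mul]
  · intro h; exact absurd (Finset.mem_univ i) h

/-- `Ph_gd` and `PSD.abs_FD_le` with `a = 1/κ`. -/
theorem Ph_pd_pgu (H : Nice κ M V) (q : ℕ) {σ0 : ℝ} (hσ : 0 < σ0) (T : ℝ) (i : ι) :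
    PGU (fun t => pd i (Ph V κ q σ0 t)) T := by
  have h := S6f_tr_pgu H q hσ T (B := fun t y => dA V t (Pi.single i 1) y)
    (fun a b => dA_pgu H _ a b T)
  refine h.congr fun t ht y => ?_
  rw [← S6f_gd_single, Ph_gd H q hσ (S6f_lt H ht)]

/-- `Ph_hs`, `PSD.abs_FD_le`, `abs_sum_cc_le` (with `a = 1/κ`, `σ ≤ σ₀ √(T+κ)`). -/
theorem Ph_hs_pgu (H : Nice κ M V) (q : ℕ) {σ0 : ℝ} (hσ : 0 < σ0) (T : ℝ) (u : ι → ℝ) :
    PGU (fun t y => hs (Ph V κ q σ0 t) y u) T := by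
  have h1 := S6f_tr_pgu H q hσ T (B := fun t y => ddA V t u y)
    (fun a b => ddA_pgu H _ a b T)
  set Cc : ℝ := q * (1 / κ) ^ (q - 1) * (1 + q) + q * (σ0 * √(T + κ)) * (1 / κ) ^ q with hCc
  have h2 : PGU (fun t y => Cc * ∑ a, ∑ b, dA V t u y a b ^ 2) T := by
    refine (PGU.const Cc T).mul ?_
    exact PGU.sum (T := T) (Finset.univ : Finset ι)
      (F := fun a t y => ∑ b, dA V t u y a b ^ 2)
      (fun a _ => PGU.sum (T := T) (Finset.univ : Finset ι)
        (F := fun b t y => dA V t u y a b ^ 2)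
        (fun b _ => (dA_pgu H u a b T).pow 2))
  have h3 : PGU (fun t y => hs (Ph V κ q σ0 t) y u
      - (FD q (σ0 * √(t + κ)) (CM (pt V t y)) * ddA V t u y).trace) T := by
    refine h2.mono fun t ht y => ?_
    obtain ⟨e, lam, he, hlam⟩ := (CM_pt_PSD H (S6f_lt H ht) y).exists_eig
    have hle := he.le (S6f_form H ht y)
    rw [Ph_hs H q hσ (S6f_lt H ht) y u he, add_sub_cancel_left]
    refine (abs_sum_cc_le (S6f_sig hσ t κ) he.orth hlam hle).trans ?_
    refine le_trans ?_ (le_abs_self _)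
    have h4 : 0 ≤ ∑ a, ∑ b, dA V t u y a b ^ 2 :=
      Finset.sum_nonneg fun a _ => Finset.sum_nonneg fun b _ => sq_nonneg _
    refine mul_le_mul_of_nonneg_right ?_ h4
    rw [hCc]
    have h5 : σ0 * √(t + κ) ≤ σ0 * √(T + κ) :=
      mul_le_mul_of_nonneg_left (Real.sqrt_le_sqrt (by linarith [ht.2])) hσ.le
    have h6 : 0 ≤ (1 / κ) ^ q := pow_nonneg (one_div_nonneg.2 H.kpos.le) _
    have h7 : (q : ℝ) * (σ0 * √(t + κ)) * (1 / κ) ^ q ≤ q * (σ0 * √(T + κ)) * (1 / κ) ^ q :=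
      mul_le_mul_of_nonneg_right (mul_le_mul_of_nonneg_left h5 (Nat.cast_nonneg q)) h6
    linarith
  refine (h3.add h1).congr fun t ht y => ?_
  ring

private theorem S6f_hs_single (f : (ι → ℝ) → ℝ) (y : ι → ℝ) (i : ι) :
    hs f y (Pi.single i 1) = pd i (pd i f) y := by
  unfold hs
  rw [Finset.sum_eq_single i]
  · rw [Finset.sum_eq_single i]
    · simp
    · intro k _ hk
      rw [Pi.single_eq_of_ne hk]; ring
    · intro h; exact absurd (Finset.mem_univ i) h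
  · intro k _ hk
    refine Finset.sum_eq_zero fun l _ => ?_
    rw [Pi.single_eq_of_ne hk]; ring
  · intro h; exact absurd (Finset.mem_univ i) h

private theorem S6f_hs_add (f : (ι → ℝ) → ℝ) (y : ι → ℝ) (i j : ι) :
    hs f y (Pi.single i 1 + Pi.single j 1) = pd i (pd i f) y + pd i (pd j f) y
      + pd j (pd i f) y + pd j (pd j f) y := by
  have hb : ∀ (a b : ι), ∑ k, ∑ l, (Pi.single a 1 : ι → ℝ) k * (Pi.single b 1 : ι → ℝ) l
      * pd k (pd l f) y = pd a (pd b f) y := by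
    intro a b
    rw [Finset.sum_eq_single a]
    · rw [Finset.sum_eq_single b]
      · simp
      · intro k _ hk
        rw [Pi.single_eq_of_ne hk]; ring
      · intro h; exact absurd (Finset.mem_univ b) h
    · intro k _ hk
      refine Finset.sum_eq_zero fun l _ => ?_
      rw [Pi.single_eq_of_ne hk]; ring
    · intro h; exact absurd (Finset.mem_univ a) h
  unfold hs
  rw [← hb i i, ← hb i j, ← hb j i, ← hb j j]
  simp only [← Finset.sum_add_distrib]
  refine Finset.sum_congr rfl fun k _ => Finset.sum_congr rfl fun l _ => ?_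
  simp only [Pi.add_apply]
  ring

/-- Polarisation: `∂_i∂_j Φ = ½ (hs (e_i+e_j) - hs e_i - hs e_j)` (`pd_comm`). -/
theorem Ph_pd2_pgu (H : Nice κ M V) (q : ℕ) {σ0 : ℝ} (hσ : 0 < σ0) (T : ℝ) (i j : ι) :
    PGU (fun t => pd i (pd j (Ph V κ q σ0 t))) T := by
  have h := (PGU.const (1 / 2) T).mul
    (((Ph_hs_pgu H q hσ T (Pi.single i 1 + Pi.single j 1)).sub
      (Ph_hs_pgu H q hσ T (Pi.single i 1))).sub (Ph_hs_pgu H q hσ T (Pi.single j 1)))
  refine h.congr fun t ht y => ?_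
  have hc : ContDiff ℝ 2 (Ph V κ q σ0 t) :=
    by exact_mod_cast (contDiff_infty.1 (Ph_smooth_y H q hσ (S6f_lt H ht))) 2
  rw [S6f_hs_add, S6f_hs_single, S6f_hs_single, pd_comm hc j i y]
  ring

/-- `Ph_dt`; `0 ≤ Tr (A B^{q+1}) = ∑ b f ≤ n κ^{-(q+2)}` (`Eig.trace_sigma`). -/
theorem Ph_dt_pgu (H : Nice κ M V) (q : ℕ) {σ0 : ℝ} (hσ : 0 < σ0) (T : ℝ) :
    PGU (fun t y => deriv (fun s => Ph V κ q σ0 s y) t) T := by
  have h1 := S6f_tr_pgu H q hσ T
    (B := fun t y => Matrix.of fun j k => deriv (fun s => CM (pt V s y) j k) t)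
    (fun a b => (AL.cm V a b).dt_pgu H T)
  have h2 : PGU (fun t _ => σ0 * √(t + κ) / (2 * (t + κ)) : ℝ → (ι → ℝ) → ℝ) T := by
    refine PGU.coef (K := σ0 * √(T + κ) / (2 * κ)) fun t ht => ?_
    have hk := H.kpos
    have h3 : 0 < 2 * (t + κ) := by linarith [ht.1]
    rw [abs_of_nonneg (div_nonneg (S6f_sig hσ t κ) h3.le)]
    have h5 : σ0 * √(t + κ) ≤ σ0 * √(T + κ) :=
      mul_le_mul_of_nonneg_left (Real.sqrt_le_sqrt (by linarith [ht.2])) hσ.le
    exact div_le_div₀ (S6f_sig hσ T κ) h5 (by linarith) (by linarith [ht.1])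
  have h4 : PGU (fun t y => (CM (pt V t y) *
      FB (σ0 * √(t + κ)) (CM (pt V t y)) ^ (q + 1)).trace) T := by
    refine ⟨Fintype.card ι * (1 / κ) ^ (q + 2), 0, fun t ht y => ?_⟩
    rw [pow_zero, mul_one]
    obtain ⟨e, lam, he, hlam⟩ := (CM_pt_PSD H (S6f_lt H ht) y).exists_eig
    have hle := he.le (S6f_form H ht y)
    have hs := S6f_sig hσ t κ
    beta_reduce
    rw [he.trace_sigma hlam hs]
    rw [abs_of_nonneg (Finset.sum_nonneg fun k _ =>
      mul_nonneg (fb_nonneg hs (hlam k)) (ff_nonneg hs (hlam k)))]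
    calc ∑ k, fb (σ0 * √(t + κ)) (lam k) * ff q (σ0 * √(t + κ)) (lam k)
        ≤ ∑ _k : ι, (1 / κ) ^ (q + 2) := by
          refine Finset.sum_le_sum fun k _ => ?_
          have e1 : fb (σ0 * √(t + κ)) (lam k) ≤ 1 / κ := (fb_le hs (hlam k)).trans (hle k)
          have e2 : ff q (σ0 * √(t + κ)) (lam k) ≤ (1 / κ) ^ (q + 1) :=
            (ff_le_pow hs (hlam k)).trans (pow_le_pow_left₀ (hlam k) (hle k) _)
          calc _ ≤ (1 / κ) * (1 / κ) ^ (q + 1) :=
                mul_le_mul e1 e2 (ff_nonneg hs (hlam k)) (one_div_nonneg.2 H.kpos.le)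
            _ = _ := by ring
      _ = _ := by rw [Finset.sum_const, nsmul_eq_mul, Finset.card_univ]
  refine (h1.sub (h2.mul ((PGU.const (q : ℝ) T).mul h4))).congr fun t ht y => ?_
  exact (Ph_dt H q hσ (S6f_lt H ht) y).deriv

end Pool.Agent.Lib.MP_8d00da_gt.h42k
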