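import Pool.Agent.Lib.MP_8d00da_gt.h42k.S6f
import Pool.Agent.Lib.MP_8d00da_gt.h42k.G49b

/-!
# 6.3: the generator of the matrix potential
-/

namespace Pool.Agent.Lib.MP_8d00da_gt.h42k

open MeasureTheory Set Filter
open scoped Topology NNReal ENNReal ContDiff

set_option linter.unusedSectionVars false
set_option linter.unusedVariables false

section gen

variable {ι : Type*} [Fintype ι] [DecidableEq ι]

variable {κ M : ℝ} {V : (ι → ℝ) → ℝ}

private theorem S6g_gd (f : (ι → ℝ) → ℝ) (y : ι → ℝ) (i : ι) :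
    gd f y (Pi.single i 1) = pd i f y := by
  unfold gd
  rw [Finset.sum_eq_single i]
  · rw [Pi.single_eq_same, one_mul]
  · intro j _ hj
    rw [Pi.single_eq_of_ne hj, zero_mul]
  · intro h
    exact absurd (Finset.mem_univ i) h

private theorem S6g_hs (f : (ι → ℝ) → ℝ) (y : ι → ℝ) (i : ι) :
    hs f y (Pi.single i 1) = pd i (pd i f) y := by
  unfold hs
  rw [Finset.sum_eq_single i]
  · rw [Finset.sum_eq_single i]
    · rw [Pi.single_eq_same, one_mul, one_mul]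
    · intro j _ hj
      rw [Pi.single_eq_of_ne hj]
      ring
    · intro h
      exact absurd (Finset.mem_univ i) h
  · intro j _ hj
    refine Finset.sum_eq_zero fun k _ => ?_
    rw [Pi.single_eq_of_ne hj]
    ring
  · intro h
    exact absurd (Finset.mem_univ i) h

/-- `dA` in the direction of a coordinate is the matrix of third central moments (`CM_pd`). -/
theorem dA_single (H : Nice κ M V) {t : ℝ} (ht : -κ < t) (y : ι → ℝ) (i : ι) :
    dA V t (Pi.single i 1) y = Tm (TM (pt V t y)) i := by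
  ext j k
  have h1 : dA V t (Pi.single i 1) y j k = pd i (fun y => CM (pt V t y) j k) y := by
    unfold dA
    rw [Matrix.of_apply, S6g_gd]
  rw [h1, CM_pd H ht y i j k]
  unfold Tm TM TC
  rw [Matrix.of_apply]
  congr 1
  funext x
  show (x j - EP V t (fun x => x j) y) * (x k - EP V t (fun x => x k) y) *
      (x i - EP V t (fun x => x i) y) =
    (x i - EP V t (fun x => x i) y) * (x j - EP V t (fun x => x j) y) *
      (x k - EP V t (fun x => x k) y)
  ring

private theorem S6g_matrix (H : Nice κ M V) {t : ℝ} (ht : -κ < t) (y : ι → ℝ) :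
    (Matrix.of fun j k => deriv (fun s => CM (pt V s y) j k) t : Matrix ι ι ℝ) +
      ∑ i, EP V t (fun x => x i) y • dA V t (Pi.single i 1) y +
      (1 / 2 : ℝ) • ∑ i, ddA V t (Pi.single i 1) y =
    -(CM (pt V t y) * CM (pt V t y)) := by
  ext j k
  have h1 := Gn_CM H ht y j k
  rw [Matrix.neg_apply, Matrix.mul_apply, ← h1]
  unfold Gn dA ddA
  simp only [Matrix.add_apply, Matrix.smul_apply, Matrix.sum_apply, Matrix.of_apply, smul_eq_mul,
    S6g_gd, S6g_hs]

/-- The generator: `Gn Φ = Tr (F'(A) (Gn A)) + ½ ∑_i ∑_kl cc (..)² + σ'-term`, `Gn A = -A²`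
(`Gn_CM`, `Ph_gd`, `Ph_hs` for `u = e_i`, `Ph_dt`; `pd i f = gd f _ (single i 1)`,
`pd i (pd i f) = hs f _ (single i 1)`). -/
theorem Gn_Ph (H : Nice κ M V) (q : ℕ) {σ0 : ℝ} (hσ : 0 < σ0) {t : ℝ} (ht : -κ < t)
    (y : ι → ℝ) {e : Matrix ι ι ℝ} {lam : ι → ℝ} (he : Eig (CM (pt V t y)) e lam) :
    Gn V t (Ph V κ q σ0) y =
      -(FD q (σ0 * √(t + κ)) (CM (pt V t y)) * (CM (pt V t y) * CM (pt V t y))).trace
      + (1 / 2) * ∑ i, ∑ k, ∑ l, cc q (σ0 * √(t + κ)) (lam k) (lam l) *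
          ((e * Tm (TM (pt V t y)) i * e.transpose) k l) ^ 2
      - σ0 * √(t + κ) / (2 * (t + κ)) *
          (q * (CM (pt V t y) * FB (σ0 * √(t + κ)) (CM (pt V t y)) ^ (q + 1)).trace) := by
  have h1 := (Ph_dt H q hσ ht y).deriv
  have h2 : ∀ i, pd i (Ph V κ q σ0 t) y =
      (FD q (σ0 * √(t + κ)) (CM (pt V t y)) * dA V t (Pi.single i 1) y).trace := fun i => by
    rw [← S6g_gd, Ph_gd H q hσ ht]
  have h3 : ∀ i, pd i (pd i (Ph V κ q σ0 t)) y =
      (FD q (σ0 * √(t + κ)) (CM (pt V t y)) * ddA V t (Pi.single i 1) y).trace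
        + ∑ k, ∑ l, cc q (σ0 * √(t + κ)) (lam k) (lam l) *
          ((e * Tm (TM (pt V t y)) i * e.transpose) k l) ^ 2 := fun i => by
    rw [← S6g_hs, Ph_hs H q hσ ht y _ he, dA_single H ht y i]
  have h4 : -(FD q (σ0 * √(t + κ)) (CM (pt V t y)) * (CM (pt V t y) * CM (pt V t y))).trace =
      (FD q (σ0 * √(t + κ)) (CM (pt V t y)) *
          Matrix.of fun j k => deriv (fun s => CM (pt V s y) j k) t).trace +
      ∑ i, EP V t (fun x => x i) y *
        (FD q (σ0 * √(t + κ)) (CM (pt V t y)) * dA V t (Pi.single i 1) y).trace +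
      1 / 2 * ∑ i, (FD q (σ0 * √(t + κ)) (CM (pt V t y)) * ddA V t (Pi.single i 1) y).trace := by
    rw [← Matrix.trace_neg, ← Matrix.mul_neg, ← S6g_matrix H ht y, Matrix.mul_add, Matrix.mul_add,
      Matrix.trace_add, Matrix.trace_add, Matrix.mul_sum, Matrix.trace_sum, Matrix.mul_smul,
      Matrix.trace_smul, Matrix.mul_sum, Matrix.trace_sum]
    simp only [Matrix.mul_smul, Matrix.trace_smul, smul_eq_mul]
  unfold Gn
  rw [h1, h4]
  simp only [h2, h3, Finset.sum_add_distrib]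
  ring

theorem Gn_Ph_t0 (H : Nice κ M V) (q : ℕ) {σ0 : ℝ} (hσ : 0 < σ0) {t : ℝ} (ht : 0 < t) :
    T0 (Gn V t (Ph V κ q σ0)) := by
  have hκ := H.kpos
  have hc : ∀ s, 0 < s → ∀ y, ContDiffAt ℝ 2
      (fun p : ℝ × (ι → ℝ) => Ph V κ q σ0 p.1 p.2) (s, y) := fun s hs y =>
    (Ph_smooth H q hσ (by linarith) y).of_le (WithTop.coe_le_coe.2 (le_top : (2 : ℕ∞) ≤ ⊤))
  have hd : T0 (fun y => deriv (fun s => Ph V κ q σ0 s y) t) :=
    ⟨(slice_dt hc ht).measurable, (Ph_dt_pgu H q hσ t).pg ⟨ht.le, le_rfl⟩⟩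
  obtain ⟨hT, hTi⟩ := slice_t1 hc (Ph_pgu H q hσ t) (Ph_pd_pgu H q hσ t) (Ph_pd2_pgu H q hσ t)
    ht le_rfl
  have t1 : ∀ i : ι, T0 (fun y => EP V t (fun x => x i) y * pd i (Ph V κ q σ0 t) y) := fun i =>
    (EP_t0 H (T0.coord i) (by linarith)).mul (hTi i).t0
  have t2 : ∀ i : ι, T0 (pd i (pd i (Ph V κ q σ0 t))) := fun i => (hTi i).pdt0 i
  exact (hd.add (T0.sum Finset.univ fun i _ => t1 i)).add
    ((T0.sum Finset.univ fun i _ => t2 i).cmul (1 / 2))

end gen

end Pool.Agent.Lib.MP_8d00da_gt.h42k
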