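import Pool.Agent.Lib.MP_8d00da_gt.h42k.S6g
import Pool.Agent.Lib.MP_8d00da_gt.h42k.S6d

/-!
# 6.3: the generator inequality
-/

namespace Pool.Agent.Lib.MP_8d00da_gt.h42k

open MeasureTheory Set Filter
open scoped Topology NNReal ENNReal ContDiff

set_option linter.unusedSectionVars false
set_option linter.unusedVariables false

section gen

variable {ι : Type*} [Fintype ι] [DecidableEq ι]

variable {κ M : ℝ} {V : (ι → ℝ) → ℝ}

/-- `Gn_Ph`, `GF_IL`, `third_IL` for `pt V t y` (nice with `κ + t`). -/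
theorem Gn_Ph_le (H : Nice κ M V) {q : ℕ} (hq : 224 ≤ q) {σ0 : ℝ} (hσ : 0 < σ0) {t : ℝ}
    (ht : 0 < t) (y : ι → ℝ) :
    Gn V t (Ph V κ q σ0) y ≤
      80 * q ^ 2 / (√(σ0 * √(t + κ)) * √(t + κ)) * Ph V κ q σ0 t y := by
  have hκ := H.kpos
  have ht' : -κ < t := by linarith
  have hτ : 0 < t + κ := by linarith
  have hs : 0 < σ0 * √(t + κ) := mul_pos hσ (Real.sqrt_pos.2 hτ)
  have H' : Nice (t + κ) (M + t) (pt V t y) := by
    have := H.ptn ht' y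
    rwa [add_comm κ t] at this
  have hA : PSD (CM (pt V t y)) := CM_PSD H'
  obtain ⟨e, lam, he, hlam⟩ := hA.exists_eig
  rw [Gn_Ph H q hσ ht' y he]
  exact GF_IL hq hs hτ he hA (fun i => he.eb.lam_le H' i) (TM (pt V t y))
    (fun i j k => TM_symm23 _ i j k) (fun i j k => TM_symm12 _ i j k)
    (fun m k l hm => by rw [Tu_TM H']; exact tmd_zero H' he.eb hm k l)
    (fun i z hz => third_IL H' he hz i)

/-- `generator`. -/
theorem GE_Ph_hasDerivAt (H : Nice κ M V) (q : ℕ) {σ0 : ℝ} (hσ : 0 < σ0) {t : ℝ} (ht : 0 < t) :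
    HasDerivAt (fun s => GE V s (Ph V κ q σ0 s)) (GE V t (Gn V t (Ph V κ q σ0))) t := by
  have hκ := H.kpos
  refine Pool.Agent.Lib.MP_8d00da_gt.h42k.generator (T := t + 1) H ?_ (Ph_pgu H q hσ _)
    (Ph_dt_pgu H q hσ _) (fun i => Ph_pd_pgu H q hσ _ i) (fun i j => Ph_pd2_pgu H q hσ _ i j)
    ht (by linarith)
  intro s hs y
  exact (Ph_smooth H q hσ (by linarith) y).of_le (WithTop.coe_le_coe.2 (le_top : (2 : ℕ∞) ≤ ⊤))

/-- `GE_continuousOn`. -/
theorem GE_Ph_continuousOn (H : Nice κ M V) (q : ℕ) {σ0 : ℝ} (hσ : 0 < σ0) (T : ℝ) :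
    ContinuousOn (fun s => GE V s (Ph V κ q σ0 s)) (Set.Icc 0 T) := by
  have hκ := H.kpos
  refine Pool.Agent.Lib.MP_8d00da_gt.h42k.GE_continuousOn H ?_ (Ph_pgu H q hσ T)
  rintro ⟨s, y⟩ ⟨hs, -⟩
  have hs1 : (0 : ℝ) ≤ s := hs.1
  exact (Ph_smooth H q hσ (by linarith) y).continuousAt.continuousWithinAt

private theorem S6g2_pt_zero (V : (ι → ℝ) → ℝ) : pt V 0 0 = V := by
  funext x
  simp [pt, dt]

/-- `GE_zero`, `pt V 0 0 = V`, `PSD.FF_le`. -/
theorem GE_Ph_zero (H : Nice κ M V) (q : ℕ) {σ0 : ℝ} (hσ : 0 < σ0) :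
    GE V 0 (Ph V κ q σ0 0) ≤ ((CM V) ^ (q + 1)).trace := by
  have hκ := H.kpos
  rw [GE_zero H]
  unfold Ph
  rw [S6g2_pt_zero]
  refine (CM_PSD H).FF_le ?_
  positivity

end gen

section genK

variable {ι : Type} [Fintype ι] [DecidableEq ι]

variable {κ M K : ℝ} {V : (ι → ℝ) → ℝ}

/-- The same under the quadratic KLS property (`GF_K`, `third_K`). -/
theorem Gn_Ph_le_K (hK : QKP K ι) (hK0 : 0 ≤ K) (H : Nice κ M V) {q : ℕ} (hq : 224 ≤ q) {σ0 : ℝ}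
    (hσ : 0 < σ0) {t : ℝ} (ht : 0 < t) (y : ι → ℝ) :
    Gn V t (Ph V κ q σ0) y ≤ 16 * q ^ 2 * K / (σ0 * √(t + κ)) * Ph V κ q σ0 t y := by
  have hκ := H.kpos
  have ht' : -κ < t := by linarith
  have hτ : 0 < t + κ := by linarith
  have hs : 0 < σ0 * √(t + κ) := mul_pos hσ (Real.sqrt_pos.2 hτ)
  have H' : Nice (t + κ) (M + t) (pt V t y) := by
    have := H.ptn ht' y
    rwa [add_comm κ t] at this
  have hA : PSD (CM (pt V t y)) := CM_PSD H'
  obtain ⟨e, lam, he, hlam⟩ := hA.exists_eig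
  rw [Gn_Ph H q hσ ht' y he]
  exact GF_K hq hs hτ hK0 he hA (fun i => he.eb.lam_le H' i) (TM (pt V t y))
    (fun i j k => TM_symm23 _ i j k) (fun i j k => TM_symm12 _ i j k)
    (fun m k l hm => by rw [Tu_TM H']; exact tmd_zero H' he.eb hm k l)
    (fun i z hz => third_IL H' he hz i)
    (fun i z hz => third_K hK hK0 H' he hz i)

end genK

end Pool.Agent.Lib.MP_8d00da_gt.h42k
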