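import Pool.Agent.Lib.MP_8d00da_gt.h42k.S7a0
import Pool.Agent.Lib.MP_8d00da_gt.h42k.G49b

/-!
# 7.1: the function g(t)
-/

namespace Pool.Agent.Lib.MP_8d00da_gt.h42k

open MeasureTheory Set Filter
open scoped Topology NNReal ENNReal ContDiff

set_option linter.unusedSectionVars false
set_option linter.unusedVariables false

variable {ι : Type*} [Fintype ι] [DecidableEq ι]

variable {κ M : ℝ} {V φ : (ι → ℝ) → ℝ} {δ : ι → ℝ}

/-- `∑_i Cov_{t,y}(δ_i x_i, ∂_i φ)`. -/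
noncomputable def gH (V : (ι → ℝ) → ℝ) (δ : ι → ℝ) (φ : (ι → ℝ) → ℝ) (t : ℝ) (y : ι → ℝ) : ℝ :=
  ∑ i, CP V t (fun x => δ i * x i) (pd i φ) y

private theorem S7a_dx (δ : ι → ℝ) (i : ι) : T0 (fun x : ι → ℝ => δ i * x i) :=
  T0.cmul _ (T0.coord i)

theorem gH_AL (V : (ι → ℝ) → ℝ) (δ : ι → ℝ) (hφ : Cc φ) : AL V (gH V δ φ) :=
  AL.sum Finset.univ fun i _ => AL.cp V (S7a_dx δ i) (hφ.t1.pdt0 i)

private theorem S7a_pt_zero (V : (ι → ℝ) → ℝ) : pt V 0 0 = V := by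
  funext x
  simp [pt, dt]

theorem gH_zero (H : Nice κ M V) (hφ : Cc φ) :
    GE V 0 (gH V δ φ 0) = ex V (fun x => ∑ i, δ i * (x i - mn V i) * pd i φ x) := by
  rw [GE_zero H]
  have tp : ∀ i, T0 (pd i φ) := fun i => hφ.t1.pdt0 i
  have t1 : ∀ i, T0 (fun x : ι → ℝ => δ i * x i * pd i φ x) := fun i => (S7a_dx δ i).mul (tp i)
  have t2 : ∀ i, T0 (fun x : ι → ℝ => δ i * mn V i * pd i φ x) := fun i => (tp i).cmul _
  have e1 : (fun x : ι → ℝ => ∑ i, δ i * (x i - mn V i) * pd i φ x) =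
      fun x => ∑ i, (δ i * x i * pd i φ x - δ i * mn V i * pd i φ x) := by
    funext x
    refine Finset.sum_congr rfl fun i _ => ?_
    ring
  rw [e1, ex_sum H Finset.univ fun i _ => (t1 i).sub (t2 i)]
  unfold gH CP
  refine Finset.sum_congr rfl fun i _ => ?_
  rw [S7a_pt_zero, ex_sub H (t1 i) (t2 i), ex_cmul V (pd i φ) (δ i * mn V i)]
  unfold cov mn
  rw [ex_cmul V (fun x => x i) (δ i)]

private theorem S7a_Gn_zero (V : (ι → ℝ) → ℝ) (t : ℝ) (y : ι → ℝ) :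
    Gn V t (fun _ _ => (0 : ℝ)) y = 0 := by
  have h1 : ∀ i : ι, pd i (fun _ : ι → ℝ => (0 : ℝ)) = fun _ => 0 :=
    fun i => funext fun x => pd_const 0 i x
  simp only [Gn, h1, deriv_const, mul_zero, Finset.sum_const_zero, add_zero]

private theorem S7a_Gn_add (H : Nice κ M V) {Φ Ψ : ℝ → (ι → ℝ) → ℝ} (h1 : AL V Φ) (h2 : AL V Ψ)
    {t : ℝ} (ht : -κ < t) (y : ι → ℝ) :
    Gn V t (fun s y => Φ s y + Ψ s y) y = Gn V t Φ y + Gn V t Ψ y := by
  have z0 : AL V (fun _ _ => (0 : ℝ)) := AL.const 0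
  have e2 := Gn_sub (V := V) (Φ := fun _ _ => (0 : ℝ)) (Ψ := Ψ) (t := t) (y := y)
    (fun y => z0.smooth H ht y) (fun y => h2.smooth H ht y)
  rw [S7a_Gn_zero] at e2
  have e3 := Gn_sub (V := V) (Φ := Φ) (Ψ := fun s y => 0 - Ψ s y) (t := t) (y := y)
    (fun y => h1.smooth H ht y) (fun y => (z0.sub h2).smooth H ht y)
  rw [e2] at e3
  have e4 : (fun s y => Φ s y - (0 - Ψ s y)) = fun s y => Φ s y + Ψ s y := by
    funext s y
    ring
  rw [e4] at e3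
  rw [e3]
  ring

private theorem S7a_Gn_sum (H : Nice κ M V) {α : Type*} (S : Finset α)
    {F : α → ℝ → (ι → ℝ) → ℝ} (hF : ∀ a, AL V (F a)) {t : ℝ} (ht : -κ < t) (y : ι → ℝ) :
    Gn V t (fun s y => ∑ a ∈ S, F a s y) y = ∑ a ∈ S, Gn V t (F a) y := by
  classical
  induction S using Finset.induction_on with
  | empty =>
    simp only [Finset.sum_empty]
    exact S7a_Gn_zero V t y
  | insert a S ha ih =>
    have e1 : (fun s y => ∑ b ∈ insert a S, F b s y) =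
        fun s y => F a s y + ∑ b ∈ S, F b s y := by
      funext s y
      exact Finset.sum_insert ha
    rw [e1, S7a_Gn_add H (hF a) (AL.sum S fun b _ => hF b) ht y, ih, Finset.sum_insert ha]

/-- `Gn_CP` and linearity of `Gn` on the algebra. -/
theorem Gn_gH (H : Nice κ M V) (hφ : Cc φ) {t : ℝ} (ht : -κ < t) (y : ι → ℝ) :
    Gn V t (gH V δ φ) y =
      - ∑ i, ∑ k, δ i * CM (pt V t y) i k * CP V t (pd i φ) (fun x => x k) y := by
  have h1 := S7a_Gn_sum H Finset.univ (F := fun i s y => CP V s (fun x => δ i * x i) (pd i φ) y)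
    (fun i => AL.cp V (S7a_dx δ i) (hφ.t1.pdt0 i)) ht y
  have h2 : Gn V t (gH V δ φ) y =
      Gn V t (fun s y => ∑ i, CP V s (fun x => δ i * x i) (pd i φ) y) y := rfl
  rw [h2, h1, ← Finset.sum_neg_distrib]
  refine Finset.sum_congr rfl fun i _ => ?_
  rw [Gn_CP H (S7a_dx δ i) (hφ.t1.pdt0 i) ht y]
  congr 1
  refine Finset.sum_congr rfl fun k _ => ?_
  have h3 : CP V t (fun x => δ i * x i) (fun x => x k) y = δ i * CM (pt V t y) i k :=
    cov_cmul (pt V t y) (fun x => x i) (fun x => x k) (δ i)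
  rw [h3]

private theorem S7a_tr3 (A : Matrix ι ι ℝ) :
    (A * A * A).trace = ∑ i, ∑ j, (∑ k, A i k * A k j) * A j i := by
  simp only [Matrix.trace, Matrix.diag, Matrix.mul_apply]

theorem tr3_t0 (H : Nice κ M V) {t : ℝ} (ht : -κ < t) :
    T0 (fun y => (CM (pt V t y) * CM (pt V t y) * CM (pt V t y)).trace) := by
  have h1 : ∀ i j : ι, T0 (fun y => CM (pt V t y) i j) := fun i j =>
    CP_t0 H (T0.coord i) (T0.coord j) ht
  simp only [S7a_tr3]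
  exact T0.sum Finset.univ fun i _ => T0.sum Finset.univ fun j _ =>
    (T0.sum Finset.univ fun k _ => (h1 i k).mul (h1 k j)).mul (h1 j i)

theorem tr3_nonneg (H : Nice κ M V) {t : ℝ} (ht : -κ < t) (y : ι → ℝ) :
    0 ≤ (CM (pt V t y) * CM (pt V t y) * CM (pt V t y)).trace := by
  have H' := H.ptn ht y
  obtain ⟨e, lam, he⟩ := exists_EB (A := CM (pt V t y)) (fun i j => CM_symm _ i j)
  have h1 : CM (pt V t y) * CM (pt V t y) * CM (pt V t y) = CM (pt V t y) ^ 3 := by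
    rw [pow_succ, pow_two]
  rw [h1, he.trace_pow 3]
  exact Finset.sum_nonneg fun k _ => pow_nonneg (he.lam_nonneg H' k) 3

private theorem S7a_EP_hq_nonneg (V : (ι → ℝ) → ℝ) (φ : (ι → ℝ) → ℝ) (t : ℝ) (y : ι → ℝ) :
    0 ≤ EP V t (hq φ) y :=
  ex_nonneg _ fun x => Finset.sum_nonneg fun i _ => Finset.sum_nonneg fun j _ => sq_nonneg _

/-- `|g'(t)|² ≤ (t+κ)⁻¹ E_V|D²φ|² · GE_t Tr A³` (`GE_cs_pt`, `GE_EP`). -/
theorem gH_deriv_sq_le (H : Nice κ M V) (hφ : Cc φ) (hδ : ∀ i, |δ i| ≤ 1) {t : ℝ} (ht : 0 < t) :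
    GE V t (Gn V t (gH V δ φ)) ^ 2 ≤ (1 / (t + κ) * ex V (hq φ)) *
      GE V t (fun y => (CM (pt V t y) * CM (pt V t y) * CM (pt V t y)).trace) := by
  have hκ := H.kpos
  have ht' : -κ < t := by linarith
  have hpos : 0 ≤ 1 / (t + κ) := by positivity
  have h1 : T0 (Gn V t (gH V δ φ)) := (gH_AL V δ hφ).Gn_t0 H ht'
  have h2 : T0 (fun y => 1 / (t + κ) * EP V t (hq φ) y) := (EP_t0 H hφ.hqt0 ht').cmul _
  have h3 := GE_cs_pt H h1 h2 (tr3_t0 H ht') t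
    (fun y => mul_nonneg hpos (S7a_EP_hq_nonneg V φ t y)) (fun y => tr3_nonneg H ht' y) ?_
  · rw [GE_cmul V t (1 / (t + κ)) (fun y => EP V t (hq φ) y)] at h3
    have h4 : GE V t (fun y => EP V t (hq φ) y) = ex V (hq φ) := GE_EP H hφ.hqt0 ht.le
    rw [h4] at h3
    exact h3
  · intro y
    have H' := H.ptn ht' y
    rw [Gn_gH H hφ ht' y, neg_sq]
    have h4 := cov_A_cs H' hφ hδ
    have h5 := sum_var_pd_le H' hφ
    have h6 : κ + t = t + κ := add_comm _ _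
    rw [h6] at h5
    exact h4.trans (mul_le_mul_of_nonneg_right h5 (tr3_nonneg H ht' y))

/-- `|g(1)|² ≤ n E_V|D²φ|²` (`A(1,y) ≤ 1`). -/
theorem gH_one_sq_le (H : Nice κ M V) (hφ : Cc φ) (hδ : ∀ i, |δ i| ≤ 1) :
    GE V 1 (gH V δ φ 1) ^ 2 ≤ Fintype.card ι * ex V (hq φ) := by
  have hκ := H.kpos
  have ht' : -κ < (1 : ℝ) := by linarith
  have hn : (0 : ℝ) ≤ Fintype.card ι := Nat.cast_nonneg _
  have h1 : T0 (gH V δ φ 1) := (gH_AL V δ hφ).t0 H ht'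
  have h2 : T0 (fun y => EP V 1 (hq φ) y) := EP_t0 H hφ.hqt0 ht'
  have h3 := GE_cs_pt H h1 (T0.const (Fintype.card ι : ℝ)) h2 1
    (fun _ => hn) (fun y => S7a_EP_hq_nonneg V φ 1 y) ?_
  · rw [GE_const H] at h3
    have h4 : GE V 1 (fun y => EP V 1 (hq φ) y) = ex V (hq φ) := GE_EP H hφ.hqt0 zero_le_one
    rw [h4] at h3
    exact h3
  · intro y
    have H' := H.ptn ht' y
    have h4 := cov_tr_cs H' hφ hδ
    have h5 := sum_var_pd_le H' hφ
    have h7 : 1 / (κ + 1) ≤ 1 := by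
      rw [div_le_one (by linarith)]
      linarith
    have h7' : 0 ≤ 1 / (κ + 1) := by positivity
    have h6 : (CM (pt V 1 y)).trace ≤ Fintype.card ι := by
      have h8 := trace_pow_CM_le H' (s6_CLe_kappa H') 1
      rw [pow_one, pow_one] at h8
      exact h8.trans (mul_le_of_le_one_right hn h7)
    have h9 : 0 ≤ ex (pt V 1 y) (hq φ) := S7a_EP_hq_nonneg V φ 1 y
    have h10 : ∑ i, var (pt V 1 y) (pd i φ) ≤ EP V 1 (hq φ) y :=
      h5.trans (mul_le_of_le_one_left h9 h7)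
    have h11 : 0 ≤ ∑ i, var (pt V 1 y) (pd i φ) :=
      Finset.sum_nonneg fun i _ => var_nonneg H' (hφ.t1.pdt0 i)
    have h12 : gH V δ φ 1 y ^ 2 ≤ (CM (pt V 1 y)).trace * ∑ i, var (pt V 1 y) (pd i φ) := h4
    exact h12.trans (mul_le_mul h6 h10 h11 hn)

end Pool.Agent.Lib.MP_8d00da_gt.h42k
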