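import Pool.Agent.Lib.MP_8d00da_gt.h42k.S6b

/-!
# 7.1: Cauchy-Schwarz inequalities for one measure
-/

namespace Pool.Agent.Lib.MP_8d00da_gt.h42k

open MeasureTheory Set Filter
open scoped Topology NNReal ENNReal ContDiff

set_option linter.unusedSectionVars false
set_option linter.unusedVariables false

variable {ι : Type*} [Fintype ι] [DecidableEq ι]

variable {κ M : ℝ} {V φ : (ι → ℝ) → ℝ} {δ : ι → ℝ}

/-- Cauchy-Schwarz: `∑_ik δ_i A_ik Cov(∂_iφ, x_k) = ∑_i Cov(∂_iφ, ∑_k δ_i A_ik x_k)`,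
`∑_i Var(∑_k δ_i A_ik x_k) = ∑_i δ_i² (A³)_ii ≤ Tr A³`. One measure `W = pt V t y`. -/
theorem cov_A_cs {W : (ι → ℝ) → ℝ} (H : Nice κ M W) (hφ : Cc φ) (hδ : ∀ i, |δ i| ≤ 1) :
    (∑ i, ∑ k, δ i * CM W i k * cov W (pd i φ) (fun x => x k)) ^ 2 ≤
      (∑ i, var W (pd i φ)) * (CM W * CM W * CM W).trace := by
  have e1 : ∀ i, ∑ k, δ i * CM W i k * cov W (pd i φ) (fun x => x k) =
      cov W (pd i φ) (fun x => dt (fun k => δ i * CM W i k) x) := by
    intro i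
    rw [cov_comm]
    unfold dt
    rw [cov_sum H Finset.univ (F := fun k x => δ i * CM W i k * x k)
      (fun k _ => (T0.coord k).cmul _) (hφ.pdc i).t1.t0]
    refine Finset.sum_congr rfl fun k _ => ?_
    rw [cov_cmul, cov_comm]
  have e2 : ∀ i, var W (fun x => dt (fun k => δ i * CM W i k) x) =
      δ i ^ 2 * (CM W * CM W * CM W) i i := by
    intro i
    rw [var_dt H, Matrix.mul_apply, Finset.mul_sum, Finset.sum_comm]
    refine Finset.sum_congr rfl fun k _ => ?_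
    rw [Matrix.mul_apply, Finset.sum_mul, Finset.mul_sum]
    refine Finset.sum_congr rfl fun j _ => ?_
    rw [CM_symm W k i]
    ring
  have e3 : ∀ i, 0 ≤ (CM W * CM W * CM W) i i := by
    intro i
    have h1 : var W (fun x => dt (fun k => CM W i k) x) = (CM W * CM W * CM W) i i := by
      rw [var_dt H, Matrix.mul_apply, Finset.sum_comm]
      refine Finset.sum_congr rfl fun k _ => ?_
      rw [Matrix.mul_apply, Finset.sum_mul]
      refine Finset.sum_congr rfl fun j _ => ?_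
      rw [CM_symm W k i]
      ring
    rw [← h1]
    exact var_nonneg H (T0.dtf _)
  have e4 : ∀ i, 0 ≤ var W (pd i φ) := fun i => var_nonneg H (hφ.pdc i).t1.t0
  rw [Matrix.trace]
  simp only [e1, Matrix.diag_apply]
  refine Finset.sum_sq_le_sum_mul_sum_of_sq_le_mul _ (fun i _ => e4 i) (fun i _ => e3 i)
    fun i _ => ?_
  have h1 := cov_cs H (hφ.pdc i).t1.t0 (T0.dtf (fun k => δ i * CM W i k))
  refine h1.trans ?_
  change var W (pd i φ) * var W (fun x => dt (fun k => δ i * CM W i k) x) ≤ _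
  rw [e2]
  have h2 : δ i ^ 2 ≤ 1 := by
    have := hδ i
    rw [← sq_abs]
    nlinarith [abs_nonneg (δ i)]
  exact mul_le_mul_of_nonneg_left (by nlinarith [e3 i]) (e4 i)

/-- `∑_i Var ∂_iφ ≤ κ⁻¹ E|D²φ|²` (`Nice.pi`). -/
theorem sum_var_pd_le {W : (ι → ℝ) → ℝ} (H : Nice κ M W) (hφ : Cc φ) :
    ∑ i, var W (pd i φ) ≤ 1 / κ * ex W (hq φ) := by
  have h1 : ∑ i, var W (pd i φ) ≤ ∑ i, 1 / κ * ex W (gs (pd i φ)) :=
    Finset.sum_le_sum fun i _ => H.pi _ (hφ.pdc i).t1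
  refine h1.trans (le_of_eq ?_)
  rw [← Finset.mul_sum, ← ex_sum H Finset.univ (fun i _ => (hφ.pdc i).t1.gst0)]
  congr 2
  funext x
  unfold hq gs
  rw [Finset.sum_comm]

/-- `(∑_i Cov(δ_i x_i, ∂_iφ))² ≤ Tr Cov · ∑ Var ∂_iφ`. -/
theorem cov_tr_cs {W : (ι → ℝ) → ℝ} (H : Nice κ M W) (hφ : Cc φ) (hδ : ∀ i, |δ i| ≤ 1) :
    (∑ i, cov W (fun x => δ i * x i) (pd i φ)) ^ 2 ≤ (CM W).trace * ∑ i, var W (pd i φ) := by
  have e4 : ∀ i, 0 ≤ var W (pd i φ) := fun i => var_nonneg H (hφ.pdc i).t1.t0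
  have e5 : ∀ i, 0 ≤ CM W i i := fun i => by
    rw [CM_diag]
    exact var_nonneg H (T0.coord i)
  rw [Matrix.trace]
  simp only [Matrix.diag_apply]
  refine Finset.sum_sq_le_sum_mul_sum_of_sq_le_mul _ (fun i _ => e5 i) (fun i _ => e4 i)
    fun i _ => ?_
  have h1 := cov_cs H ((T0.coord i).cmul (δ i)) (hφ.pdc i).t1.t0
  refine h1.trans ?_
  rw [var_cmul, ← CM_diag]
  have h2 : δ i ^ 2 ≤ 1 := by
    have := hδ i
    rw [← sq_abs]
    nlinarith [abs_nonneg (δ i)]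
  exact mul_le_mul_of_nonneg_right (by nlinarith [e5 i]) (e4 i)

/-- If `g` is continuous on `[0,1]` and `|g'(t)| ≤ c/√t` on `(0,1)`, then `|g(0)| ≤ |g(1)| + 2c`
(`g ± 2c√t` is monotone). -/
theorem sqrt_mvt {g g' : ℝ → ℝ} {c : ℝ} (hc : ContinuousOn g (Set.Icc 0 1))
    (hd : ∀ t ∈ Set.Ioo 0 1, HasDerivAt g (g' t) t) (h : ∀ t ∈ Set.Ioo 0 1, |g' t| ≤ c / √t) :
    |g 0| ≤ |g 1| + 2 * c := by
  have hs : ∀ t ∈ Set.Ioo (0 : ℝ) 1, HasDerivAt (fun t => 2 * c * √t) (c / √t) t := by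
    intro t ht
    have h1 := (Real.hasDerivAt_sqrt (ne_of_gt ht.1)).const_mul (2 * c)
    have h2 : √t ≠ 0 := ne_of_gt (Real.sqrt_pos.2 ht.1)
    have h3 : c / √t = 2 * c * (1 / (2 * √t)) := by
      field_simp
    rw [h3]
    exact h1
  have hsc : ContinuousOn (fun t => 2 * c * √t) (Set.Icc 0 1) :=
    (continuous_const.mul Real.continuous_sqrt).continuousOn
  have hm : MonotoneOn (fun t => g t + 2 * c * √t) (Set.Icc 0 1) := by
    refine monotoneOn_of_hasDerivWithinAt_nonneg (f' := fun t => g' t + c / √t)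
      (convex_Icc 0 1) (hc.add hsc) ?_ ?_
    · intro t ht
      rw [interior_Icc] at ht
      exact ((hd t ht).add (hs t ht)).hasDerivWithinAt
    · intro t ht
      rw [interior_Icc] at ht
      have := (abs_le.1 (h t ht)).1
      show 0 ≤ g' t + c / √t
      linarith
  have ha : AntitoneOn (fun t => g t - 2 * c * √t) (Set.Icc 0 1) := by
    refine antitoneOn_of_hasDerivWithinAt_nonpos (f' := fun t => g' t - c / √t)
      (convex_Icc 0 1) (hc.sub hsc) ?_ ?_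
    · intro t ht
      rw [interior_Icc] at ht
      exact ((hd t ht).sub (hs t ht)).hasDerivWithinAt
    · intro t ht
      rw [interior_Icc] at ht
      have := (abs_le.1 (h t ht)).2
      show g' t - c / √t ≤ 0
      linarith
  have h0 : (0 : ℝ) ∈ Set.Icc (0 : ℝ) 1 := ⟨le_refl 0, zero_le_one⟩
  have h1 : (1 : ℝ) ∈ Set.Icc (0 : ℝ) 1 := ⟨zero_le_one, le_refl 1⟩
  have q1 := hm h0 h1 zero_le_one
  have q2 := ha h0 h1 zero_le_one
  simp only [Real.sqrt_zero, Real.sqrt_one, mul_zero, mul_one, add_zero, sub_zero] at q1 q2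
  refine abs_le.2 ⟨?_, ?_⟩
  · linarith [neg_abs_le (g 1)]
  · linarith [le_abs_self (g 1)]

end Pool.Agent.Lib.MP_8d00da_gt.h42k
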