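import Mathlib

/-!
Rademacher-Menshov (paper 325, 8.1), abstract form: a real vector space with a positive
semidefinite symmetric bilinear form, linear `P_i` with `B(P_i f, g) = B(f, P_i g)` and
`P_i P_j = P_min(i,j)`, `X_j = P_{j-1} X_j`.
-/

namespace Pool.Agent.Lib.MP_8d00da_gt.h42k

open Finset

variable {H : Type*} [AddCommGroup H] [Module ℝ H]

/-- Cauchy-Schwarz for a positive semidefinite symmetric bilinear form. -/
lemma bil_cs (B : H →ₗ[ℝ] H →ₗ[ℝ] ℝ) (hB0 : ∀ f, 0 ≤ B f f)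
    (hBs : ∀ f g, B f g = B g f) (f g : H) : B f g ^ 2 ≤ B f f * B g g := by
  have h : ∀ t : ℝ, 0 ≤ B g g * (t * t) + (2 * B f g) * t + B f f := by
    intro t
    have := hB0 (f + t • g)
    simp only [map_add, map_smul, LinearMap.add_apply, LinearMap.smul_apply, smul_eq_mul] at this
    rw [hBs g f] at this
    nlinarith
  have := discrim_le_zero h
  unfold discrim at this
  nlinarith

/-- Minkowski: `|f|² ≤ α²`, `|g|² ≤ β²` ⇒ `|f+g|² ≤ (α+β)²`. -/
lemma bil_add_le (B : H →ₗ[ℝ] H →ₗ[ℝ] ℝ) (hB0 : ∀ f, 0 ≤ B f f)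
    (hBs : ∀ f g, B f g = B g f) (f g : H) {α β : ℝ} (hα : 0 ≤ α) (hβ : 0 ≤ β)
    (hf : B f f ≤ α ^ 2) (hg : B g g ≤ β ^ 2) : B (f + g) (f + g) ≤ (α + β) ^ 2 := by
  have h1 := bil_cs B hB0 hBs f g
  have h2 : B f g ^ 2 ≤ (α * β) ^ 2 := by
    calc B f g ^ 2 ≤ B f f * B g g := h1
      _ ≤ α ^ 2 * β ^ 2 := mul_le_mul hf hg (hB0 g) (sq_nonneg α)
      _ = _ := by ring
  have h3 : B f g ≤ α * β := abs_le_of_sq_le_sq' h2 (by positivity) |>.2
  simp only [map_add, LinearMap.add_apply]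
  rw [hBs g f]
  nlinarith

/-- the recursion: for `k - i ≤ 2^r`, `|S - P_i S|² ≤ (2r)² Σ c`, `S = Σ_{i<j≤k} X_j`. -/
lemma rm_step (B : H →ₗ[ℝ] H →ₗ[ℝ] ℝ) (hB0 : ∀ f, 0 ≤ B f f)
    (hBs : ∀ f g, B f g = B g f) (P : ℕ → H →ₗ[ℝ] H)
    (hPB : ∀ i f g, B (P i f) g = B f (P i g)) (hPP : ∀ i j f, P i (P j f) = P (min i j) f)
    (J : ℕ) (X : ℕ → H) (c : ℕ → ℝ) (hc : ∀ j, 0 ≤ c j)
    (hX : ∀ j, 1 ≤ j → j ≤ J → P (j - 1) (X j) = X j)
    (hm : ∀ m k, m ≤ k → k ≤ J →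
      B (P m (∑ j ∈ Ioc m k, X j)) (P m (∑ j ∈ Ioc m k, X j)) ≤ 4 * ∑ j ∈ Ioc m k, c j)
    (r : ℕ) : ∀ i k, i ≤ k → k ≤ J → k - i ≤ 2 ^ r →
      B ((∑ j ∈ Ioc i k, X j) - P i (∑ j ∈ Ioc i k, X j))
        ((∑ j ∈ Ioc i k, X j) - P i (∑ j ∈ Ioc i k, X j)) ≤ (2 * r) ^ 2 * ∑ j ∈ Ioc i k, c j := by
  -- `X_j` is invariant under `P_m`, `m ≥ j - 1`
  have hXm : ∀ j m, 1 ≤ j → j ≤ J → j - 1 ≤ m → P m (X j) = X j := by
    intro j m h1 h2 h3
    rw [← hX j h1 h2, hPP, min_eq_right h3]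
  induction r with
  | zero =>
    intro i k hik hkJ hki
    rcases Nat.eq_or_lt_of_le hik with h | h
    · subst h
      simp
    · have hk : k = i + 1 := by
        simp at hki; omega
      subst hk
      have h1 : ∑ j ∈ Ioc i (i + 1), X j = X (i + 1) := by
        have : Ioc i (i + 1) = {i + 1} := by
          ext x; simp only [mem_Ioc, mem_singleton]; omega
        rw [this, sum_singleton]
      rw [h1, hXm (i + 1) i (by omega) hkJ (by omega), sub_self]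
      simp
  | succ r ih =>
    intro i k hik hkJ hki
    -- the middle
    obtain ⟨m, him, hmk, h1, h2⟩ : ∃ m, i ≤ m ∧ m ≤ k ∧ m - i ≤ 2 ^ r ∧ k - m ≤ 2 ^ r := by
      refine ⟨min k (i + 2 ^ r), ?_, min_le_left _ _, ?_, ?_⟩
      · exact le_min hik (by omega)
      · have := min_le_right k (i + 2 ^ r)
        omega
      · rw [pow_succ] at hki
        rcases le_total k (i + 2 ^ r) with h | h
        · rw [min_eq_left h]; simp
        · rw [min_eq_right h]; omega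
    set X1 := ∑ j ∈ Ioc i m, X j with hX1
    set X2 := ∑ j ∈ Ioc m k, X j with hX2
    set S1 := ∑ j ∈ Ioc i m, c j with hS1
    set S2 := ∑ j ∈ Ioc m k, c j with hS2
    have hS1' : 0 ≤ S1 := Finset.sum_nonneg fun j _ => hc j
    have hS2' : 0 ≤ S2 := Finset.sum_nonneg fun j _ => hc j
    have hdisj : Disjoint (Ioc i m) (Ioc m k) := by
      rw [Finset.disjoint_left]; intro x hx hx'
      simp only [mem_Ioc] at hx hx'; omega
    have hun : Ioc i k = Ioc i m ∪ Ioc m k := by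
      ext x; simp only [mem_union, mem_Ioc]; omega
    have hsum : ∑ j ∈ Ioc i k, X j = X1 + X2 := by
      rw [hun, Finset.sum_union hdisj]
    have hsumc : ∑ j ∈ Ioc i k, c j = S1 + S2 := by
      rw [hun, Finset.sum_union hdisj]
    rw [hsum, hsumc]
    have ih1 := ih i m him (hmk.trans hkJ) h1
    have ih2 := ih m k hmk hkJ h2
    rw [← hX1, ← hS1] at ih1
    rw [← hX2, ← hS2] at ih2
    have hm2 := hm m k hmk hkJ
    rw [← hX2, ← hS2] at hm2
    -- P_m X1 = X1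
    have hPX1 : P m X1 = X1 := by
      rw [hX1, map_sum]
      refine Finset.sum_congr rfl fun j hj => ?_
      simp only [mem_Ioc] at hj
      exact hXm j m (by omega) (by omega) (by omega)
    -- decomposition
    set a := X2 - P m X2 with ha
    set b := (X1 - P i X1) + (P m X2 - P i (P m X2)) with hb
    have hPiX2 : P i X2 = P i (P m X2) := by rw [hPP, min_eq_left him]
    have hdec : X1 + X2 - P i (X1 + X2) = a + b := by
      rw [ha, hb, map_add, hPiX2]; abel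
    -- b is in the range of P_m
    have hPb : P m b = b := by
      rw [hb]
      simp only [map_add, map_sub]
      rw [hPX1, hPP m i, hPP m m, min_self, hPP m i, min_eq_right him]
    have hPa : P m a = 0 := by
      rw [ha, map_sub, hPP, min_self, sub_self]
    have horth : B a b = 0 := by
      rw [← hPb, ← hPB, hPa, map_zero, LinearMap.zero_apply]
    have hexp : B (a + b) (a + b) = B a a + B b b := by
      simp only [map_add, LinearMap.add_apply]
      rw [hBs b a, horth]; ring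
    rw [hdec, hexp]
    -- |P_m X2 - P_i P_m X2|² ≤ |P_m X2|²
    have hproj : B (P m X2 - P i (P m X2)) (P m X2 - P i (P m X2)) ≤ 4 * S2 := by
      have h5 : B (P i (P m X2)) (P m X2 - P i (P m X2)) = 0 := by
        rw [hPB, map_sub, hPP i i, min_self, sub_self, map_zero]
      have h6 : B (P m X2) (P m X2) = B (P m X2 - P i (P m X2)) (P m X2 - P i (P m X2))
          + B (P i (P m X2)) (P i (P m X2)) := by
        have e1 : P m X2 = (P m X2 - P i (P m X2)) + P i (P m X2) := by abel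
        conv_lhs => rw [e1]
        simp only [map_add, LinearMap.add_apply]
        rw [h5, hBs (P m X2 - P i (P m X2)) (P i (P m X2)), h5]
        ring
      have := hB0 (P i (P m X2))
      linarith
    have hβ : (0 : ℝ) ≤ 2 * r := by positivity
    have hb1 : B b b ≤ (2 * r * √S1 + 2 * √S2) ^ 2 := by
      rw [hb]
      refine bil_add_le B hB0 hBs _ _ (by positivity) (by positivity) ?_ ?_
      · rw [mul_pow, Real.sq_sqrt hS1']; exact ih1
      · rw [mul_pow, Real.sq_sqrt hS2']; linarith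
    have hs1 := Real.sq_sqrt hS1'
    have hs2 := Real.sq_sqrt hS2'
    have hcast : ((r + 1 : ℕ) : ℝ) = r + 1 := by push_cast; ring
    rw [hcast]
    nlinarith [sq_nonneg (√S1 - √S2), mul_nonneg hβ (sq_nonneg (√S1 - √S2)),
      mul_nonneg hβ (Real.sqrt_nonneg S1), Real.sqrt_nonneg S1, Real.sqrt_nonneg S2,
      mul_nonneg hβ hS1', mul_nonneg hβ hS2']

/-- **8.1.** `c_j` (`1 ≤ j ≤ J`), `|P_m Σ_{m<j≤k} X_j|² ≤ 4 Σ_{m<j≤k} c_j`. -/
theorem rademacher_menshov (B : H →ₗ[ℝ] H →ₗ[ℝ] ℝ) (hB0 : ∀ f, 0 ≤ B f f)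
    (hBs : ∀ f g, B f g = B g f) (P : ℕ → H →ₗ[ℝ] H)
    (hPB : ∀ i f g, B (P i f) g = B f (P i g)) (hPP : ∀ i j f, P i (P j f) = P (min i j) f)
    (J : ℕ) (X : ℕ → H) (c : ℕ → ℝ) (hc : ∀ j, 0 ≤ c j)
    (hX : ∀ j, 1 ≤ j → j ≤ J → P (j - 1) (X j) = X j)
    (hm : ∀ m k, m ≤ k → k ≤ J →
      B (P m (∑ j ∈ Ioc m k, X j)) (P m (∑ j ∈ Ioc m k, X j)) ≤ 4 * ∑ j ∈ Ioc m k, c j)
    (r : ℕ) (hr : J ≤ 2 ^ r) :
    B (∑ j ∈ Ioc 0 J, X j) (∑ j ∈ Ioc 0 J, X j) ≤ (2 * r + 2) ^ 2 * ∑ j ∈ Ioc 0 J, c j := by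
  have h1 := rm_step B hB0 hBs P hPB hPP J X c hc hX hm r 0 J (Nat.zero_le _) le_rfl (by simpa using hr)
  have h2 := hm 0 J (Nat.zero_le _) le_rfl
  set S := ∑ j ∈ Ioc 0 J, X j with hS
  set C := ∑ j ∈ Ioc 0 J, c j with hC
  have hC0 : 0 ≤ C := Finset.sum_nonneg fun j _ => hc j
  have h3 := bil_add_le B hB0 hBs (S - P 0 S) (P 0 S) (α := 2 * r * √C) (β := 2 * √C)
    (by positivity) (by positivity) (by rw [mul_pow, Real.sq_sqrt hC0]; exact h1)
    (by rw [mul_pow, Real.sq_sqrt hC0]; linarith)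
  rw [sub_add_cancel] at h3
  refine h3.trans (le_of_eq ?_)
  have : 2 * r * √C + 2 * √C = (2 * r + 2) * √C := by ring
  rw [this, mul_pow, Real.sq_sqrt hC0]

end Pool.Agent.Lib.MP_8d00da_gt.h42k
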