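import Pool.Agent.Lib.MP_8d00da_gt.h42k.S6Defs
import Pool.Agent.Lib.MP_8d00da_gt.h42k.KDefs2

/-!
# Interfaces for section 9
-/

namespace Pool.Agent.Lib.MP_8d00da_gt.h42k

open MeasureTheory Set Filter
open scoped Topology NNReal ENNReal ContDiff

set_option linter.unusedSectionVars false
set_option linter.unusedVariables false

variable {ι : Type*} [Fintype ι] [DecidableEq ι]

variable {κ M : ℝ} {V : (ι → ℝ) → ℝ}

/-- (6.5), version without hypothesis on quadratic forms, as a hypothesis (proved in `S6*.lean`). -/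
def OPI (Cx : ℝ) (q0 : ℕ) : Prop := ∀ (α : Type) [Fintype α] [DecidableEq α] (κ M : ℝ)
    (V : (α → ℝ) → ℝ), Nice κ M V → ∀ a : ℝ, 0 < a → CLe V a → ∀ q : ℕ, q0 ≤ q →
    ∀ T : ℝ, 0 ≤ T → GE V T (beta V a T) ≤
      Fintype.card α * a * (7 / 12) ^ q * Real.exp (Cx * q ^ 2 * √(a * (T + κ)))

/-- Indicator of the bad event `{|A(t,y)| > 3a}`. -/
noncomputable def bad (V : (ι → ℝ) → ℝ) (a t : ℝ) (y : ι → ℝ) : ℝ :=
  if 3 * a < Lop V t y then 1 else 0

/-- The centred diagonal quadratic form. -/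
noncomputable def qf9 (V : (ι → ℝ) → ℝ) (c : ι → ℝ) (x : ι → ℝ) : ℝ :=
  ∑ i, c i * (x i - mn V i) ^ 2

end Pool.Agent.Lib.MP_8d00da_gt.h42k
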