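import Pool.Agent.Lib.MP_8d00da_gt.h42k.S9Defs
import Pool.Agent.Lib.MP_8d00da_gt.h42k.G47e
import Pool.Agent.Lib.MP_8d00da_gt.h42k.G47d
import Pool.Agent.Lib.MP_8d00da_gt.h42k.K8a
import Pool.Agent.Lib.MP_8d00da_gt.h42k.S6a

/-!
# Adding a Gaussian
-/

namespace Pool.Agent.Lib.MP_8d00da_gt.h42k

open MeasureTheory Set Filter
open scoped Topology NNReal ENNReal ContDiff

set_option linter.unusedSectionVars false
set_option linter.unusedVariables false

variable {ι : Type*} [Fintype ι] [DecidableEq ι]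

variable {κ M : ℝ} {V : (ι → ℝ) → ℝ}

private theorem S9a_mv (A : Matrix ι ι ℝ) (θ : ι → ℝ) :
    dt θ (A.mulVec θ) = ∑ i, ∑ j, θ i * θ j * A i j := by
  unfold dt
  refine Finset.sum_congr rfl fun i _ => ?_
  show θ i * ∑ j, A i j * θ j = _
  rw [Finset.mul_sum]
  exact Finset.sum_congr rfl fun j _ => by ring

private theorem S9a_pt (H : Nice κ M V) {t : ℝ} (ht : 0 ≤ t) (y : ι → ℝ) :
    Nice (κ + t) (M + t) (pt V t y) := H.ptn (by have := H.kpos; linarith) y

/-- The posterior covariance is at most `Lop`. -/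
theorem CLe_Lop9 (H : Nice κ M V) {t : ℝ} (ht : 0 ≤ t) (y : ι → ℝ) :
    CLe (pt V t y) (Lop V t y) := by
  intro θ
  rw [var_dt (S9a_pt H ht y), ← S9a_mv]
  exact quad_le_opn _ _

/-- `Lop ≤ E_{t,y} |x - c|²` for every `c`. -/
theorem Lop_le9 (H : Nice κ M V) {t : ℝ} (ht : 0 ≤ t) (c y : ι → ℝ) :
    Lop V t y ≤ EP V t (fun x => sq (x - c)) y := by
  have Hp := S9a_pt H ht y
  obtain ⟨e, lam, he⟩ := exists_EB (A := CM (pt V t y)) (CM_symm (pt V t y))
  have ht1 : T0 (fun x : ι → ℝ => sq (x - c)) := by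
    unfold sq
    exact T0.sum Finset.univ fun i _ => ((T0.coord i).sub (T0.const (c i))).pow 2
  refine he.opn_le (ex_nonneg _ fun x => sq_nn _) fun k => ?_
  have e1 : lam k = var (pt V t y) (fun x => dt (e k) x) := by
    rw [he.lam_eq k, S9a_mv, ← var_dt Hp]
  rw [e1]
  refine ⟨var_nonneg Hp (T0.dtf _), ?_⟩
  refine (var_le Hp (T0.dtf (e k)) (dt (e k) c)).trans ?_
  refine ex_mono Hp (((T0.dtf (e k)).sub (T0.const _)).pow 2) ht1 fun x => ?_
  have e2 : dt (e k) x - dt (e k) c = dt (e k) (x - c) := by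
    unfold dt
    rw [← Finset.sum_sub_distrib]
    exact Finset.sum_congr rfl fun i _ => by
      rw [Pi.sub_apply]
      ring
  rw [e2]
  refine (dt_sq_le _ _).trans (le_of_eq ?_)
  have e3 : sq (e k) = 1 := by
    rw [← s6_dt_self, he.orth, if_pos rfl]
  rw [e3, one_mul]

theorem Lop_nonneg9 (V : (ι → ℝ) → ℝ) (t : ℝ) (y : ι → ℝ) : 0 ≤ Lop V t y := opn_nonneg _

theorem Lop_t09 (H : Nice κ M V) {t : ℝ} (ht : 0 ≤ t) : T0 (Lop V t) := by
  have hκ := H.kpos
  have hm : Continuous fun y : ι → ℝ => CM (pt V t y) := by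
    refine continuous_matrix fun i j => continuous_iff_continuousAt.2 fun y => ?_
    have h1 := (CP_contDiffAt H (T0.coord i) (T0.coord j) (t := t) (by linarith) y).continuousAt
    exact h1.comp (f := fun y : ι → ℝ => (t, y)) (continuousAt_const.prodMk continuousAt_id)
  refine ⟨(continuous_opn.comp hm).measurable, ?_⟩
  have h1 : T0 (EP V t (fun x : ι → ℝ => sq (x - 0))) := by
    refine EP_t0 H ?_ (by linarith)
    have e : (fun x : ι → ℝ => sq (x - 0)) = sq := by
      funext x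
      rw [sub_zero]
    rw [e]
    exact T0.sqf
  refine h1.pg.mono fun y => ?_
  have h2 := Lop_le9 H ht 0 y
  have h3 := Lop_nonneg9 V t y
  rw [abs_of_nonneg h3, abs_of_nonneg (h3.trans h2)]
  exact h2

theorem bad_t0 (H : Nice κ M V) (a : ℝ) {t : ℝ} (ht : 0 ≤ t) : T0 (bad V a t) := by
  refine ⟨?_, (PG.const (1 : ℝ)).mono fun y => ?_⟩
  · exact Measurable.ite (measurableSet_lt measurable_const (Lop_t09 H ht).meas)
      measurable_const measurable_const
  · unfold bad
    split_ifs <;> simp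

theorem beta_t09 (H : Nice κ M V) (a : ℝ) {t : ℝ} (ht : 0 ≤ t) : T0 (beta V a t) := by
  refine ⟨?_, (Lop_t09 H ht).pg.mono fun y => ?_⟩
  · exact Measurable.ite (measurableSet_lt measurable_const (Lop_t09 H ht).meas)
      (Lop_t09 H ht).meas measurable_const
  · unfold beta
    split_ifs
    · exact le_rfl
    · rw [abs_zero]
      exact abs_nonneg _

/-- `3a bad ≤ beta`. -/
theorem bad_le (V : (ι → ℝ) → ℝ) {a : ℝ} (ha : 0 ≤ a) (t : ℝ) (y : ι → ℝ) :
    3 * a * bad V a t y ≤ beta V a t y := by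
  unfold bad beta
  split_ifs with h
  · rw [mul_one]
    exact h.le
  · rw [mul_zero]

/-! ### Standard Gaussian -/

private theorem S9a_pd_gp (i : ι) : pd i (gp : (ι → ℝ) → ℝ) = fun x => x i := by
  funext x
  have e0 : (gp : (ι → ℝ) → ℝ) = fun x => (1 / 2) * sq x := by
    funext x
    unfold gp
    ring
  rw [e0, pd_cmul ((contDiff_sq (n := 1)).differentiable (by norm_num)), pd_sq]
  ring

private theorem S9a_ibp {f : (ι → ℝ) → ℝ} (hf : T1 f) (i : ι) :
    ex gp (fun x => f x * x i) = ex gp (pd i f) := by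
  rw [ibp nice_gp hf i, S9a_pd_gp]

private theorem S9a_g1 (i : ι) : ex gp (fun g : ι → ℝ => g i) = 0 := by
  have h := S9a_ibp (T1.const (1 : ℝ)) i
  have e1 : (fun x : ι → ℝ => (1 : ℝ) * x i) = fun x => x i := funext fun x => one_mul _
  have e2 : pd i (fun _ : ι → ℝ => (1 : ℝ)) = fun _ => 0 := funext fun x => pd_const 1 i x
  rw [e1, e2, ex_const nice_gp] at h
  exact h

private theorem S9a_g2 (i : ι) : ex gp (fun g : ι → ℝ => g i ^ 2) = 1 := by
  have h := S9a_ibp (T1.coord i) i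
  have e1 : (fun x : ι → ℝ => x i * x i) = fun x => x i ^ 2 := funext fun x => (pow_two _).symm
  have e2 : pd i (fun x : ι → ℝ => x i) = fun _ => 1 := funext fun x => by
    rw [pd_coord, if_pos rfl]
  rw [e1, e2, ex_const nice_gp] at h
  exact h

private theorem S9a_dt1 (θ : ι → ℝ) : ex gp (fun g : ι → ℝ => dt θ g) = 0 := by
  show ex gp (fun g : ι → ℝ => ∑ i, θ i * g i) = 0
  rw [ex_sum nice_gp _ fun i _ => (T0.coord i).cmul (θ i)]
  refine Finset.sum_eq_zero fun i _ => ?_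
  rw [ex_cmul, S9a_g1, mul_zero]

private theorem S9a_dt2 (θ : ι → ℝ) : ex gp (fun g : ι → ℝ => dt θ g ^ 2) = sq θ := by
  have e1 : (fun g : ι → ℝ => dt θ g ^ 2) = fun g => ∑ i, θ i * (dt θ g * g i) := by
    funext g
    rw [pow_two]
    show dt θ g * (∑ i, θ i * g i) = _
    rw [Finset.mul_sum]
    exact Finset.sum_congr rfl fun i _ => by ring
  rw [e1, ex_sum nice_gp _ fun i _ => ((T0.dtf θ).mul (T0.coord i)).cmul (θ i)]
  unfold sq
  refine Finset.sum_congr rfl fun i _ => ?_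
  have e2 : pd i (dt θ) = fun _ => θ i := funext fun x => pd_dt θ i x
  rw [ex_cmul, S9a_ibp (T1.dtf θ) i, e2, ex_const nice_gp]
  ring

/-- `Y_1 = X + g`: expectations for `VY V 1`. -/
theorem VY1_ex (H : Nice κ M V) {f : (ι → ℝ) → ℝ} (hf : T0 f) :
    ex (VY V 1) f = ex V (fun x => ex gp (fun g => f (x + g))) := by
  rw [← GE_eq_ex H hf one_pos]
  unfold GE
  have e : ∀ x g : ι → ℝ, (fun i => (1 : ℝ) * x i + √1 * g i) = x + g := by
    intro x g
    funext i
    rw [Real.sqrt_one, one_mul, one_mul]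
    rfl
  simp only [e]

theorem VY1_nice (H : Nice κ M V) : Nice (κ / (κ + 1)) 1 (VY V 1) := by
  have hκ := H.kpos
  have h := VY_nice H one_pos fun y => CLe_kappa (S9a_pt H zero_le_one y)
  rw [one_mul, div_one] at h
  exact h

theorem VY1_mn (H : Nice κ M V) (i : ι) : mn (VY V 1) i = mn V i := by
  unfold mn
  rw [VY1_ex H (T0.coord i)]
  congr 1
  funext x
  show ex gp (fun g : ι → ℝ => x i + g i) = x i
  rw [ex_add nice_gp (T0.const _) (T0.coord i), ex_const nice_gp, S9a_g1, add_zero]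

/-- `Cov(X + g) = Cov(X) + Id`. -/
theorem VY1_cle (H : Nice κ M V) {a : ℝ} (hC : CLe V a) : CLe (VY V 1) (a + 1) := by
  intro θ
  have hθ : T0 (fun x : ι → ℝ => dt θ x) := T0.dtf θ
  have ed : ∀ x g : ι → ℝ, dt θ (x + g) = dt θ x + dt θ g := by
    intro x g
    unfold dt
    rw [← Finset.sum_add_distrib]
    exact Finset.sum_congr rfl fun i _ => by
      rw [Pi.add_apply]
      ring
  have e1 : ex (VY V 1) (fun x => dt θ x) = ex V (fun x => dt θ x) := by
    rw [VY1_ex H hθ]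
    congr 1
    funext x
    simp only [ed]
    rw [ex_add nice_gp (T0.const _) hθ, ex_const nice_gp, S9a_dt1, add_zero]
  have e2 : ex (VY V 1) (fun x => dt θ x ^ 2) = ex V (fun x => dt θ x ^ 2) + sq θ := by
    rw [VY1_ex H (hθ.pow 2), ← ex_const H (sq θ), ← ex_add H (hθ.pow 2) (T0.const _)]
    congr 1
    funext x
    simp only [ed]
    have e3 : (fun g : ι → ℝ => (dt θ x + dt θ g) ^ 2) =
        fun g => (dt θ x ^ 2 + 2 * dt θ x * dt θ g) + dt θ g ^ 2 := by
      funext g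
      ring
    rw [e3, ex_add nice_gp ((T0.const _).add (hθ.cmul _)) (hθ.pow 2),
      ex_add nice_gp (T0.const _) (hθ.cmul _), ex_const nice_gp, ex_cmul, S9a_dt1, S9a_dt2]
    ring
  have h := hC θ
  rw [var_eq'] at h ⊢
  rw [e1, e2]
  linarith

/-- Jensen for the conditional expectation over `g`: `E_g qf9(x+g) = qf9(x) + const`. -/
theorem VY1_qf (H : Nice κ M V) (c : ι → ℝ) : var V (qf9 V c) ≤ var (VY V 1) (qf9 (VY V 1) c) := by
  have eq : qf9 (VY V 1) c = qf9 V c := by
    funext x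
    unfold qf9
    exact Finset.sum_congr rfl fun i _ => by rw [VY1_mn H]
  rw [eq]
  have hF : T0 (qf9 V c) :=
    T0.sum Finset.univ fun i _ => (((T0.coord i).sub (T0.const _)).pow 2).cmul (c i)
  have HW := WS_nice H
  have hL : T0 (fun z : ι ⊕ ι → ℝ => qf9 V c (fun i => z (Sum.inl i))) := t0_left hF
  have hY : T0 (fun z : ι ⊕ ι → ℝ => qf9 V c (yt 1 z)) := t0_yt hF 1
  -- conditional expectation over `g`
  have eg : ∀ x : ι → ℝ, ex gp (fun g => qf9 V c fun i => 1 * x i + √1 * g i) =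
      qf9 V c x + ∑ i, c i := by
    intro x
    have e1 : (fun g : ι → ℝ => qf9 V c fun i => 1 * x i + √1 * g i) =
        fun g => (qf9 V c x + ∑ i, (2 * c i * (x i - mn V i)) * g i) + ∑ i, c i * g i ^ 2 := by
      funext g
      unfold qf9
      rw [← Finset.sum_add_distrib, ← Finset.sum_add_distrib]
      refine Finset.sum_congr rfl fun i _ => ?_
      rw [Real.sqrt_one]
      ring
    have t1 : T0 (fun g : ι → ℝ => ∑ i, (2 * c i * (x i - mn V i)) * g i) :=
      T0.sum _ fun i _ => (T0.coord i).cmul _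
    have t2 : T0 (fun g : ι → ℝ => ∑ i, c i * g i ^ 2) :=
      T0.sum _ fun i _ => ((T0.coord i).pow 2).cmul _
    rw [e1, ex_add nice_gp ((T0.const _).add t1) t2, ex_add nice_gp (T0.const _) t1,
      ex_const nice_gp, ex_sum nice_gp _ fun i _ => (T0.coord i).cmul _,
      ex_sum nice_gp _ fun i _ => ((T0.coord i).pow 2).cmul _]
    have e2 : ∑ i, ex gp (fun g : ι → ℝ => (2 * c i * (x i - mn V i)) * g i) = 0 :=
      Finset.sum_eq_zero fun i _ => by rw [ex_cmul, S9a_g1, mul_zero]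
    have e3 : ∑ i, ex gp (fun g : ι → ℝ => c i * g i ^ 2) = ∑ i, c i :=
      Finset.sum_congr rfl fun i _ => by rw [ex_cmul, S9a_g2, mul_one]
    rw [e2, e3, add_zero]
  -- the variance of the function of `Y_1`
  have vY : var (VY V 1) (qf9 V c) = var (WS V) (fun z => qf9 V c (yt 1 z)) := by
    rw [var_eq', var_eq', ← GE_eq_ex H hF one_pos, ← GE_eq_ex H (hF.pow 2) one_pos,
      GE_eq H hF, GE_eq H (hF.pow 2)]
  have vL : var (WS V) (fun z => qf9 V c (fun i => z (Sum.inl i))) = var V (qf9 V c) := by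
    rw [var_eq', var_eq', ex_WS_left H hF]
    congr 1
    exact ex_WS_left H (hF.pow 2)
  have hc : cov (WS V) (fun z => qf9 V c (fun i => z (Sum.inl i))) (fun z => qf9 V c (yt 1 z)) =
      var V (qf9 V c) := by
    show ex (WS V) (fun z => qf9 V c (fun i => z (Sum.inl i)) * qf9 V c (yt 1 z)) -
      ex (WS V) (fun z => qf9 V c (fun i => z (Sum.inl i))) *
        ex (WS V) (fun z => qf9 V c (yt 1 z)) = _
    rw [← ex_mul_GE H hF hF 1, ex_WS_left H hF, ← GE_eq H hF 1]
    unfold GE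
    simp only [eg]
    have e4 : (fun x : ι → ℝ => qf9 V c x * (qf9 V c x + ∑ i, c i)) =
        fun x => qf9 V c x ^ 2 + qf9 V c x * ∑ i, c i := by
      funext x
      ring
    rw [e4, ex_add H (hF.pow 2) (hF.mul (T0.const _)), ex_mulc, ex_add H hF (T0.const _),
      ex_const H, var_eq']
    ring
  have hcs := cov_cs HW hL hY
  rw [hc, vL, ← vY] at hcs
  have h0 : 0 ≤ var V (qf9 V c) := var_nonneg H hF
  have h1 : 0 ≤ var (VY V 1) (qf9 V c) := var_nonneg (VY1_nice H) hF
  rcases h0.eq_or_lt with h | h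
  · rw [← h]
    exact h1
  · rw [pow_two] at hcs
    exact le_of_mul_le_mul_left hcs h

end Pool.Agent.Lib.MP_8d00da_gt.h42k
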