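import Pool.Agent.Lib.MP_8d00da_gt.h42k.S9a
import Pool.Agent.Lib.MP_8d00da_gt.h42k.K8g
import Pool.Agent.Lib.MP_8d00da_gt.h42k.B1e

/-!
# Bad events and moments
-/

namespace Pool.Agent.Lib.MP_8d00da_gt.h42k

open MeasureTheory Set Filter
open scoped Topology NNReal ENNReal ContDiff

set_option linter.unusedSectionVars false
set_option linter.unusedVariables false

variable {ι : Type*} [Fintype ι] [DecidableEq ι]

variable {κ M : ℝ} {V : (ι → ℝ) → ℝ}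

/-- Eighth moments (from 1.6: `E exp(|θ·x̃|/(6σ)) ≤ 3`; `|x̃|^8 ≤ n³ ∑ x̃_i^8`). -/
theorem mom8_9 : ∃ C : ℝ, 0 < C ∧ ∀ (α : Type) [Fintype α] [DecidableEq α] (κ M : ℝ)
    (V : (α → ℝ) → ℝ), Nice κ M V → CLe V 2 →
      ex V (fun x => sq (ctr V x) ^ 4) ≤ C * Fintype.card α ^ 4 :=
  ⟨3 * 40320 * 6 ^ 8 * 2 ^ 4, by norm_num, fun α _ _ κ M V H hC => mom8 H (by norm_num) hC⟩

private theorem S9b_sq_le {a b : ℝ} (h : a ^ 2 ≤ b ^ 2) (hb : 0 ≤ b) : a ≤ b :=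
  (le_abs_self a).trans (abs_le_of_sq_le_sq h hb)

private theorem S9b_ctr_t0 (V : (ι → ℝ) → ℝ) : T0 (fun x => sq (ctr V x)) := by
  have h : ∀ i ∈ (Finset.univ : Finset ι), T0 (fun x : ι → ℝ => (x i - mn V i) ^ 2) :=
    fun i _ => ((T0.coord i).sub (T0.const (mn V i))).pow 2
  exact T0.sum Finset.univ h

private theorem S9b_qf_t0 (V : (ι → ℝ) → ℝ) (c : ι → ℝ) : T0 (qf9 V c) := by
  have h : ∀ i ∈ (Finset.univ : Finset ι), T0 (fun x : ι → ℝ => c i * (x i - mn V i) ^ 2) :=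
    fun i _ => (((T0.coord i).sub (T0.const (mn V i))).pow 2).cmul (c i)
  exact T0.sum Finset.univ h

private theorem S9b_qf_sq (V : (ι → ℝ) → ℝ) (c x : ι → ℝ) :
    qf9 V c x ^ 2 ≤ (∑ i, c i ^ 2) * sq (ctr V x) ^ 2 := by
  have h1 : qf9 V c x ^ 2 ≤ (∑ i, c i ^ 2) * ∑ i, ((x i - mn V i) ^ 2) ^ 2 :=
    Finset.sum_mul_sq_le_sq_mul_sq Finset.univ c fun i => (x i - mn V i) ^ 2
  have h2 : ∑ i, ((x i - mn V i) ^ 2) ^ 2 ≤ sq (ctr V x) ^ 2 := by
    have h3 : ∀ i ∈ (Finset.univ : Finset ι), 0 ≤ (x i - mn V i) ^ 2 := fun i _ => sq_nonneg _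
    exact Finset.sum_sq_le_sq_sum_of_nonneg h3
  have h4 : 0 ≤ ∑ i, c i ^ 2 := Finset.sum_nonneg fun i _ => sq_nonneg _
  exact h1.trans (mul_le_mul_of_nonneg_left h2 h4)

/-- Choice of the parameters `q = ⌈C7 ln n⌉`, `T ≤ c/ln²`: the bad event has small probability. -/
theorem bad_small {Cx : ℝ} {q0 : ℕ} (hCx : 0 ≤ Cx) (hO : OPI Cx q0) :
    ∃ c : ℝ, 0 < c ∧ c ≤ 1 ∧ ∀ (α : Type) [Fintype α] [DecidableEq α] (κ M : ℝ)
      (V : (α → ℝ) → ℝ), Nice κ M V → CLe V 2 → κ ≤ c / ln (Fintype.card α) ^ 2 →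
      ∀ t : ℝ, 0 ≤ t → t ≤ c / ln (Fintype.card α) ^ 2 →
        GE V t (bad V 2 t) ≤ 1 / ((Fintype.card α : ℝ) + 16) ^ 16 := by
  set D : ℝ := 2 * Cx * (37 + q0) ^ 2 + 1 with hD
  have hD1 : 1 ≤ D := by
    have : 0 ≤ 2 * Cx * (37 + (q0 : ℝ)) ^ 2 := by positivity
    linarith
  have hD0 : 0 < D := by linarith
  refine ⟨(1 / D) ^ 2, by positivity, ?_, ?_⟩
  · have h1 : 1 / D ≤ 1 := by rw [div_le_one hD0]; exact hD1
    have h2 : 0 ≤ 1 / D := by positivity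
    exact pow_le_one₀ h2 h1
  intro α _ _ κ M V H hC hκ t ht htc
  set n : ℕ := Fintype.card α with hn
  have hl2 : 2 ≤ ln n := ln_ge n
  have hl0 : 0 < ln n := by linarith
  have hN : (0 : ℝ) < (n : ℝ) + 16 := by positivity
  set q : ℕ := ⌈36 * ln n⌉₊ + q0 with hq
  have hqlo : 36 * ln n ≤ q := by
    rw [hq]
    push_cast
    have h1 := Nat.le_ceil (36 * ln n)
    have h2 : (0 : ℝ) ≤ q0 := Nat.cast_nonneg _
    linarith
  have hqhi : (q : ℝ) ≤ (37 + q0) * ln n := by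
    rw [hq]
    push_cast
    have h1 := (Nat.ceil_lt_add_one (show (0 : ℝ) ≤ 36 * ln n by positivity)).le
    have h2 : (0 : ℝ) ≤ q0 := Nat.cast_nonneg _
    have h3 : (q0 : ℝ) ≤ q0 * ln n := by
      have := mul_le_mul_of_nonneg_left (show (1 : ℝ) ≤ ln n by linarith) h2
      linarith
    linarith
  have h1 := hO α κ M V H 2 (by norm_num) hC q (by rw [hq]; omega) t ht
  have hb : 6 * GE V t (bad V 2 t) ≤ GE V t (beta V 2 t) := by
    rw [← GE_cmul]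
    refine GE_mono H ((bad_t0 H 2 ht).cmul 6) (beta_t09 H 2 ht) t fun y => ?_
    have := bad_le V (show (0 : ℝ) ≤ 2 by norm_num) t y
    linarith
  -- the square root
  have hsq : √(2 * (t + κ)) ≤ 2 * (1 / D) / ln n := by
    rw [Real.sqrt_le_left (by positivity)]
    have e1 : (2 * (1 / D) / ln n) ^ 2 = 4 * ((1 / D) ^ 2 / ln n ^ 2) := by ring
    rw [e1]
    linarith
  have hex : Cx * (q : ℝ) ^ 2 * √(2 * (t + κ)) ≤ ln n := by
    have hq2 : (q : ℝ) ^ 2 ≤ ((37 + q0) * ln n) ^ 2 :=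
      pow_le_pow_left₀ (Nat.cast_nonneg _) hqhi 2
    calc Cx * (q : ℝ) ^ 2 * √(2 * (t + κ))
        ≤ Cx * ((37 + q0) * ln n) ^ 2 * (2 * (1 / D) / ln n) := by gcongr
      _ = (2 * Cx * (37 + q0) ^ 2) / D * ln n := by field_simp
      _ ≤ 1 * ln n := by
          refine mul_le_mul_of_nonneg_right ?_ hl0.le
          rw [div_le_one hD0, hD]
          linarith
      _ = ln n := one_mul _
  have hpow : ((7 : ℝ) / 12) ^ q ≤ Real.exp (-(18 * ln n)) := by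
    have h7 : (7 : ℝ) / 12 ≤ Real.exp (-(1 / 2)) := by
      have h8 : Real.exp (1 / 2) ≤ 12 / 7 := by
        have h9 : Real.exp (1 / 2) ^ 2 = Real.exp 1 := by
          rw [← Real.exp_nat_mul]; norm_num
        have h10 := Real.exp_one_lt_d9
        have h11 : Real.exp (1 / 2) ^ 2 ≤ (12 / 7 : ℝ) ^ 2 := by
          rw [h9]
          norm_num at h10 ⊢
          linarith
        exact S9b_sq_le h11 (by norm_num)
      rw [Real.exp_neg, le_inv_comm₀ (by norm_num) (Real.exp_pos _)]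
      refine h8.trans (le_of_eq (by norm_num))
    calc ((7 : ℝ) / 12) ^ q ≤ Real.exp (-(1 / 2)) ^ q :=
          pow_le_pow_left₀ (by norm_num) h7 q
      _ = Real.exp (-(1 / 2) * q) := by rw [← Real.exp_nat_mul]; ring_nf
      _ ≤ Real.exp (-(18 * ln n)) := by
          refine Real.exp_le_exp.2 ?_
          linarith
  have hexp : Real.exp (-(18 * ln n)) = 1 / ((n : ℝ) + 16) ^ 18 := by
    have e1 : Real.exp (ln n) = (n : ℝ) + 16 := by
      rw [ln, Real.exp_log hN]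
    rw [Real.exp_neg, ← e1, ← Real.exp_nat_mul, one_div]
    norm_num
  have hexp1 : Real.exp (ln n) = (n : ℝ) + 16 := by
    rw [ln, Real.exp_log hN]
  have h2 : (n : ℝ) * 2 * (7 / 12) ^ q * Real.exp (Cx * (q : ℝ) ^ 2 * √(2 * (t + κ))) ≤
      (n : ℝ) * 2 * (1 / ((n : ℝ) + 16) ^ 18) * ((n : ℝ) + 16) := by
    have h3 : Real.exp (Cx * (q : ℝ) ^ 2 * √(2 * (t + κ))) ≤ (n : ℝ) + 16 := by
      rw [← hexp1]
      exact Real.exp_le_exp.2 hex
    have h4 := hpow.trans hexp.le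
    gcongr
  have h3 : (n : ℝ) * 2 * (1 / ((n : ℝ) + 16) ^ 18) * ((n : ℝ) + 16) ≤
      6 * (1 / ((n : ℝ) + 16) ^ 16) := by
    have h4 : (n : ℝ) * 2 * (1 / ((n : ℝ) + 16) ^ 18) * ((n : ℝ) + 16) =
        (2 * n / ((n : ℝ) + 16)) * (1 / ((n : ℝ) + 16) ^ 16) := by
      field_simp
    rw [h4]
    refine mul_le_mul_of_nonneg_right ?_ (by positivity)
    rw [div_le_iff₀ hN]
    have : (0 : ℝ) ≤ n := Nat.cast_nonneg _
    linarith
  linarith [hb.trans (h1.trans (h2.trans h3))]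

/-- `qf9² ≤ (∑ c²) |x̃|⁴` pointwise, hence `GE (Var_t qf9)² ≤ (∑ c²)² E |x̃|^8`. -/
theorem var_qf_sq (H : Nice κ M V) (c : ι → ℝ) {t : ℝ} (ht : 0 ≤ t) :
    GE V t (fun y => CP V t (qf9 V c) (qf9 V c) y ^ 2) ≤
      (∑ i, c i ^ 2) ^ 2 * ex V (fun x => sq (ctr V x) ^ 4) := by
  have hκt : -κ < t := by have := H.kpos; linarith
  have hq := S9b_qf_t0 V c
  have h4 : T0 (fun x => sq (ctr V x) ^ 4) := (S9b_ctr_t0 V).pow 4
  have h2 : T0 (fun x => sq (ctr V x) ^ 2) := (S9b_ctr_t0 V).pow 2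
  have hpt : ∀ y, CP V t (qf9 V c) (qf9 V c) y ^ 2 ≤
      (∑ i, c i ^ 2) ^ 2 * EP V t (fun x => sq (ctr V x) ^ 4) y := by
    intro y
    have Hy := H.ptn hκt y
    have h0 : 0 ≤ CP V t (qf9 V c) (qf9 V c) y := var_nonneg Hy hq
    have h5 : CP V t (qf9 V c) (qf9 V c) y ≤
        (∑ i, c i ^ 2) * EP V t (fun x => sq (ctr V x) ^ 2) y := by
      have e1 : CP V t (qf9 V c) (qf9 V c) y =
          ex (pt V t y) (fun x => qf9 V c x ^ 2) - ex (pt V t y) (qf9 V c) ^ 2 := var_eq' _ _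
      have h6 : ex (pt V t y) (fun x => qf9 V c x ^ 2) ≤
          ex (pt V t y) (fun x => (∑ i, c i ^ 2) * sq (ctr V x) ^ 2) :=
        ex_mono Hy (hq.pow 2) (h2.cmul _) fun x => S9b_qf_sq V c x
      rw [ex_cmul] at h6
      have h7 : 0 ≤ ex (pt V t y) (qf9 V c) ^ 2 := sq_nonneg _
      rw [e1, EP]
      linarith
    have h8 : EP V t (fun x => sq (ctr V x) ^ 2) y ^ 2 ≤ EP V t (fun x => sq (ctr V x) ^ 4) y := by
      have h9 := ex_sq_le Hy h2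
      have e2 : (fun x => (sq (ctr V x) ^ 2) ^ 2) = fun x => sq (ctr V x) ^ 4 := by
        funext x
        ring
      rw [e2] at h9
      exact h9
    calc CP V t (qf9 V c) (qf9 V c) y ^ 2
        ≤ ((∑ i, c i ^ 2) * EP V t (fun x => sq (ctr V x) ^ 2) y) ^ 2 :=
          pow_le_pow_left₀ h0 h5 2
      _ = (∑ i, c i ^ 2) ^ 2 * EP V t (fun x => sq (ctr V x) ^ 2) y ^ 2 := by ring
      _ ≤ _ := mul_le_mul_of_nonneg_left h8 (sq_nonneg _)
  calc GE V t (fun y => CP V t (qf9 V c) (qf9 V c) y ^ 2)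
      ≤ GE V t (fun y => (∑ i, c i ^ 2) ^ 2 * EP V t (fun x => sq (ctr V x) ^ 4) y) :=
        GE_mono H ((CP_t0 H hq hq hκt).pow 2) ((EP_t0 H h4 hκt).cmul _) t hpt
    _ = (∑ i, c i ^ 2) ^ 2 * GE V t (EP V t (fun x => sq (ctr V x) ^ 4)) := GE_cmul V t _ _
    _ = _ := by rw [GE_EP H h4 ht]

theorem Lop_mom4 (H : Nice κ M V) {t : ℝ} (ht : 0 ≤ t) :
    GE V t (fun y => Lop V t y ^ 4) ≤ ex V (fun x => sq (ctr V x) ^ 4) := by
  have hκt : -κ < t := by have := H.kpos; linarith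
  have h1 : T0 (fun x => sq (ctr V x)) := S9b_ctr_t0 V
  have h2 : T0 (fun x => sq (ctr V x) ^ 2) := h1.pow 2
  have h4 : T0 (fun x => sq (ctr V x) ^ 4) := h1.pow 4
  have hpt : ∀ y, Lop V t y ^ 4 ≤ EP V t (fun x => sq (ctr V x) ^ 4) y := by
    intro y
    have Hy := H.ptn hκt y
    have h5 : Lop V t y ≤ EP V t (fun x => sq (ctr V x)) y := Lop_le9 H ht (mn V) y
    have h6 : EP V t (fun x => sq (ctr V x)) y ^ 2 ≤ EP V t (fun x => sq (ctr V x) ^ 2) y :=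
      ex_sq_le Hy h1
    have h7 : EP V t (fun x => sq (ctr V x) ^ 2) y ^ 2 ≤ EP V t (fun x => sq (ctr V x) ^ 4) y := by
      have h9 := ex_sq_le Hy h2
      have e2 : (fun x => (sq (ctr V x) ^ 2) ^ 2) = fun x => sq (ctr V x) ^ 4 := by
        funext x
        ring
      rw [e2] at h9
      exact h9
    calc Lop V t y ^ 4 ≤ EP V t (fun x => sq (ctr V x)) y ^ 4 :=
          pow_le_pow_left₀ (Lop_nonneg9 V t y) h5 4
      _ = (EP V t (fun x => sq (ctr V x)) y ^ 2) ^ 2 := by ring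
      _ ≤ EP V t (fun x => sq (ctr V x) ^ 2) y ^ 2 := pow_le_pow_left₀ (sq_nonneg _) h6 2
      _ ≤ _ := h7
  calc GE V t (fun y => Lop V t y ^ 4)
      ≤ GE V t (EP V t (fun x => sq (ctr V x) ^ 4)) :=
        GE_mono H ((Lop_t09 H ht).pow 4) (EP_t0 H h4 hκt) t hpt
    _ = _ := GE_EP H h4 ht

private theorem S9b_bad_sq (V : (ι → ℝ) → ℝ) (a t : ℝ) (y : ι → ℝ) :
    bad V a t y ^ 2 = bad V a t y := by
  unfold bad
  split_ifs <;> norm_num

/-- Hoelder (two applications of Cauchy-Schwarz): the bad event does not matter. Here `B` bounds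
`E |x̃|^8` and `p` the probability of the bad event. -/
theorem bad_holder (H : Nice κ M V) (c : ι → ℝ) {a t p B : ℝ} (ht : 0 ≤ t) (hp : 0 ≤ p)
    (hB : 0 ≤ B) (hb : GE V t (bad V a t) ≤ p ^ 4)
    (h8 : ex V (fun x => sq (ctr V x) ^ 4) ≤ B ^ 4) :
    GE V t (fun y => bad V a t y * Lop V t y * CP V t (qf9 V c) (qf9 V c) y) ≤
        p * B ^ 3 * ∑ i, c i ^ 2 ∧
      GE V t (fun y => bad V a t y * CP V t (qf9 V c) (qf9 V c) y) ≤
        p ^ 2 * B ^ 2 * ∑ i, c i ^ 2 := by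
  have hκt : -κ < t := by have := H.kpos; linarith
  have hq := S9b_qf_t0 V c
  have hb0 := bad_t0 H a ht
  have hL0 := Lop_t09 H ht
  have hQ0 : T0 (CP V t (qf9 V c) (qf9 V c)) := CP_t0 H hq hq hκt
  have hS : 0 ≤ ∑ i, c i ^ 2 := Finset.sum_nonneg fun i _ => sq_nonneg _
  have hL4 : GE V t (fun y => Lop V t y ^ 4) ≤ B ^ 4 := (Lop_mom4 H ht).trans h8
  have hQ2 : GE V t (fun y => CP V t (qf9 V c) (qf9 V c) y ^ 2) ≤ (∑ i, c i ^ 2) ^ 2 * B ^ 4 :=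
    (var_qf_sq H c ht).trans (mul_le_mul_of_nonneg_left h8 (sq_nonneg _))
  have hbb : GE V t (fun y => bad V a t y ^ 2) ≤ p ^ 4 := by
    have : (fun y => bad V a t y ^ 2) = bad V a t := funext fun y => S9b_bad_sq V a t y
    rw [this]
    exact hb
  have hQn : 0 ≤ GE V t (fun y => CP V t (qf9 V c) (qf9 V c) y ^ 2) :=
    GE_nonneg V t fun y => sq_nonneg _
  constructor
  · have h1 : GE V t (fun y => bad V a t y * Lop V t y ^ 2) ≤ p ^ 2 * B ^ 2 := by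
      have h2 := GE_cs H hb0 (hL0.pow 2) t
      have e1 : (fun y => (Lop V t y ^ 2) ^ 2) = fun y => Lop V t y ^ 4 := by
        funext y
        ring
      rw [e1] at h2
      have h3 : GE V t (fun y => bad V a t y * Lop V t y ^ 2) ^ 2 ≤ (p ^ 2 * B ^ 2) ^ 2 := by
        calc _ ≤ _ := h2
          _ ≤ p ^ 4 * B ^ 4 := by
              refine mul_le_mul hbb hL4 (GE_nonneg V t fun y => ?_) (by positivity)
              exact pow_nonneg (Lop_nonneg9 V t y) 4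
          _ = (p ^ 2 * B ^ 2) ^ 2 := by ring
      exact S9b_sq_le h3 (by positivity)
    have h2 := GE_cs H (hb0.mul hL0) hQ0 t
    have e1 : (fun y => (bad V a t y * Lop V t y) ^ 2) =
        fun y => bad V a t y * Lop V t y ^ 2 := by
      funext y
      rw [mul_pow, S9b_bad_sq]
    rw [e1] at h2
    have h3 : GE V t (fun y => bad V a t y * Lop V t y * CP V t (qf9 V c) (qf9 V c) y) ^ 2 ≤
        (p * B ^ 3 * ∑ i, c i ^ 2) ^ 2 := by
      calc _ ≤ _ := h2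
        _ ≤ p ^ 2 * B ^ 2 * ((∑ i, c i ^ 2) ^ 2 * B ^ 4) :=
            mul_le_mul h1 hQ2 hQn (by positivity)
        _ = (p * B ^ 3 * ∑ i, c i ^ 2) ^ 2 := by ring
    exact S9b_sq_le h3 (by positivity)
  · have h2 := GE_cs H hb0 hQ0 t
    have h3 : GE V t (fun y => bad V a t y * CP V t (qf9 V c) (qf9 V c) y) ^ 2 ≤
        (p ^ 2 * B ^ 2 * ∑ i, c i ^ 2) ^ 2 := by
      calc _ ≤ _ := h2
        _ ≤ p ^ 4 * ((∑ i, c i ^ 2) ^ 2 * B ^ 4) :=
            mul_le_mul hbb hQ2 hQn (by positivity)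
        _ = (p ^ 2 * B ^ 2 * ∑ i, c i ^ 2) ^ 2 := by ring
    exact S9b_sq_le h3 (by positivity)

end Pool.Agent.Lib.MP_8d00da_gt.h42k
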