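import Pool.Agent.Lib.MP_8d00da_gt.h42k.S9b
import Pool.Agent.Lib.MP_8d00da_gt.h42k.G4

/-!
# The differential inequality for the variance
-/

namespace Pool.Agent.Lib.MP_8d00da_gt.h42k

open MeasureTheory Set Filter
open scoped Topology NNReal ENNReal ContDiff

set_option linter.unusedSectionVars false
set_option linter.unusedVariables false

variable {ι : Type*} [Fintype ι] [DecidableEq ι]

variable {κ M : ℝ} {V : (ι → ℝ) → ℝ}

/-- `GE Cov_t(f,f)` at time zero. -/
theorem GE_CP_zero (H : Nice κ M V) {f : (ι → ℝ) → ℝ} (hf : T0 f) :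
    GE V 0 (CP V 0 f f) = var V f := by
  rw [GE_zero H]
  have e : pt V 0 (0 : ι → ℝ) = V := by
    funext x
    simp [pt, dt]
  rw [CP, e, var]

/-- `∑_i Cov_t(f,x_i)² ≤ Lop Var_t f`. -/
theorem CP_sum_le (H : Nice κ M V) {f : (ι → ℝ) → ℝ} (hf : T0 f) {t : ℝ} (ht : 0 ≤ t)
    (y : ι → ℝ) :
    ∑ i, CP V t f (fun x => x i) y ^ 2 ≤ Lop V t y * CP V t f f y := by
  have hκt : -κ < t := by have := H.kpos; linarith
  exact CLe.cov_sq (H.ptn hκt y) (CLe_Lop9 H ht y) hf

/-- Gronwall: if for `0 < t ≤ T` the bad part `GE [bad Lop Var_t f] ≤ E`, then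
`Var f ≤ e^{3aT} (GE_T Var_T f + T E)` (`GE_CP_hasDerivAt`, `AL.GE_continuousOn`, `CP_sum_le`,
`Lop ≤ 3a + bad Lop`). -/
theorem var_transfer (H : Nice κ M V) {f : (ι → ℝ) → ℝ} (hf : T0 f) {a T E : ℝ} (ha : 0 ≤ a)
    (hT : 0 ≤ T) (hE : 0 ≤ E)
    (hb : ∀ t, 0 < t → t ≤ T → GE V t (fun y => bad V a t y * Lop V t y * CP V t f f y) ≤ E) :
    var V f ≤ Real.exp (3 * a * T) * (GE V T (CP V T f f) + T * E) := by
  have hκ := H.kpos
  set u : ℝ → ℝ := fun t => GE V t (fun y => CP V t f f y) with hu
  have hcu : ContinuousOn u (Set.Ici 0) :=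
    AL.GE_continuousOn H (AL.cp V hf hf)
  have hdu : ∀ t, 0 < t → HasDerivAt u
      (- GE V t (fun y => ∑ i, CP V t f (fun x => x i) y * CP V t f (fun x => x i) y)) t :=
    fun t h0 => GE_CP_hasDerivAt H hf hf h0
  have hlow : ∀ t, 0 < t → t ≤ T →
      GE V t (fun y => ∑ i, CP V t f (fun x => x i) y * CP V t f (fun x => x i) y) ≤
        3 * a * u t + E := by
    intro t h0 h1
    have hκt : -κ < t := by linarith
    have hQ0 : T0 (CP V t f f) := CP_t0 H hf hf hκt
    have hL0 := Lop_t09 H h0.le
    have hb0 := bad_t0 H a h0.le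
    have hsum : T0 (fun y => ∑ i, CP V t f (fun x => x i) y * CP V t f (fun x => x i) y) :=
      T0.sum Finset.univ fun i _ =>
        (CP_t0 H hf (T0.coord i) hκt).mul (CP_t0 H hf (T0.coord i) hκt)
    have hR : T0 (fun y => 3 * a * CP V t f f y + bad V a t y * Lop V t y * CP V t f f y) :=
      (hQ0.cmul (3 * a)).add ((hb0.mul hL0).mul hQ0)
    have hpt : ∀ y, ∑ i, CP V t f (fun x => x i) y * CP V t f (fun x => x i) y ≤
        3 * a * CP V t f f y + bad V a t y * Lop V t y * CP V t f f y := by
      intro y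
      have h2 := CP_sum_le H hf h0.le y
      have hQ : 0 ≤ CP V t f f y := var_nonneg (H.ptn hκt y) hf
      have hL : Lop V t y ≤ 3 * a + bad V a t y * Lop V t y := by
        unfold bad
        split_ifs with h
        · linarith
        · push Not at h
          linarith
      have h3 : ∑ i, CP V t f (fun x => x i) y * CP V t f (fun x => x i) y =
          ∑ i, CP V t f (fun x => x i) y ^ 2 :=
        Finset.sum_congr rfl fun i _ => by ring
      rw [h3]
      calc _ ≤ Lop V t y * CP V t f f y := h2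
        _ ≤ (3 * a + bad V a t y * Lop V t y) * CP V t f f y :=
            mul_le_mul_of_nonneg_right hL hQ
        _ = _ := by ring
    calc _ ≤ GE V t (fun y => 3 * a * CP V t f f y + bad V a t y * Lop V t y * CP V t f f y) :=
          GE_mono H hsum hR t hpt
      _ = 3 * a * u t + GE V t (fun y => bad V a t y * Lop V t y * CP V t f f y) := by
          rw [GE_add H (hQ0.cmul (3 * a)) ((hb0.mul hL0).mul hQ0) t, GE_cmul]
      _ ≤ 3 * a * u t + E := by
          have := hb t h0 h1
          linarith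
  -- the monotone function
  set w : ℝ → ℝ := fun t => Real.exp (3 * a * t) * u t + E * Real.exp (3 * a * T) * t with hw
  have hcw : ContinuousOn w (Set.Icc 0 T) := by
    have h1 : ContinuousOn u (Set.Icc 0 T) := hcu.mono fun t ht => ht.1
    have h2 : Continuous fun t : ℝ => Real.exp (3 * a * t) := by fun_prop
    have h3 : Continuous fun t : ℝ => E * Real.exp (3 * a * T) * t := by fun_prop
    exact (h2.continuousOn.mul h1).add h3.continuousOn
  have hdw : ∀ t, 0 < t → HasDerivAt w
      (Real.exp (3 * a * t) * (3 * a) * u t + Real.exp (3 * a * t) *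
        (- GE V t (fun y => ∑ i, CP V t f (fun x => x i) y * CP V t f (fun x => x i) y)) +
        E * Real.exp (3 * a * T)) t := by
    intro t h0
    have h1 : HasDerivAt (fun t : ℝ => 3 * a * t) (3 * a) t := by
      simpa using (hasDerivAt_id t).const_mul (3 * a)
    have h2 : HasDerivAt (fun t : ℝ => E * Real.exp (3 * a * T) * t) (E * Real.exp (3 * a * T)) t := by
      simpa using (hasDerivAt_id t).const_mul (E * Real.exp (3 * a * T))
    exact (h1.exp.mul (hdu t h0)).add h2
  have hmono : MonotoneOn w (Set.Icc 0 T) := by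
    refine monotoneOn_of_deriv_nonneg (convex_Icc 0 T) hcw ?_ ?_
    · rw [interior_Icc]
      exact fun t ht => (hdw t ht.1).differentiableAt.differentiableWithinAt
    · rw [interior_Icc]
      intro t ht
      rw [(hdw t ht.1).deriv]
      have h1 := hlow t ht.1 ht.2.le
      have h2 : Real.exp (3 * a * t) ≤ Real.exp (3 * a * T) := by
        refine Real.exp_le_exp.2 ?_
        exact mul_le_mul_of_nonneg_left ht.2.le (by positivity)
      have h3 := Real.exp_pos (3 * a * t)
      have h4 := mul_le_mul_of_nonneg_left h1 h3.le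
      have h5 := mul_le_mul_of_nonneg_left h2 hE
      nlinarith
  have h01 := hmono (Set.left_mem_Icc.2 hT) (Set.right_mem_Icc.2 hT) hT
  have e0 : u 0 = var V f := GE_CP_zero H hf
  simp only [hw, mul_zero, Real.exp_zero, one_mul, add_zero, e0] at h01
  calc var V f ≤ Real.exp (3 * a * T) * u T + E * Real.exp (3 * a * T) * T := h01
    _ = _ := by ring

end Pool.Agent.Lib.MP_8d00da_gt.h42k
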