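import Pool.Agent.Lib.MP_8d00da_gt.h42k.S9c
import Pool.Agent.Lib.MP_8d00da_gt.h42k.K8h
import Pool.Agent.Lib.MP_8d00da_gt.h42k.L17

/-!
# Theorem QK
-/

namespace Pool.Agent.Lib.MP_8d00da_gt.h42k

open MeasureTheory Set Filter
open scoped Topology NNReal ENNReal ContDiff

set_option linter.unusedSectionVars false
set_option linter.unusedVariables false

variable {ι : Type*} [Fintype ι] [DecidableEq ι]

variable {κ M : ℝ} {V : (ι → ℝ) → ℝ}

private theorem S9d_qf_t0 (a b : ι → ℝ) : T0 (fun x : ι → ℝ => ∑ i, b i * (x i - a i) ^ 2) :=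
  T0.sum Finset.univ fun i _ => ((((T0.coord i).sub (T0.const (a i))).pow 2).cmul (b i))

private theorem S9d_qft0 (V : (ι → ℝ) → ℝ) (b : ι → ℝ) : T0 (qf9 V b) :=
  S9d_qf_t0 (mn V) b

/-- The covariance does not change under translations. -/
private theorem S9d_cle_translate (H : Nice κ M V) {l : ℝ} (hC : CLe V l) (a : ι → ℝ) :
    CLe (fun x => V (x + a)) l := by
  intro θ
  have h1 : (fun x : ι → ℝ => dt θ x) = fun x => (fun z => dt θ z + -(dt θ a)) (x + a) := by
    funext x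
    show dt θ x = dt θ (x + a) + -(dt θ a)
    rw [s6_dt_add]
    ring
  rw [h1, var_translate a V (fun z => dt θ z + -(dt θ a)), var_addc H (T0.dtf θ)]
  exact hC θ

private theorem S9d_mn_translate (H : Nice κ M V) (i : ι) :
    ex (fun x => V (x + mn V)) (fun x => x i) = 0 := by
  have h1 : (fun x : ι → ℝ => x i) = fun x => (fun z : ι → ℝ => z i - mn V i) (x + mn V) := by
    funext x
    show x i = (x + mn V) i - mn V i
    rw [Pi.add_apply]
    ring
  rw [h1, ex_translate (mn V) V (fun z : ι → ℝ => z i - mn V i), ex_sub H (T0.coord i) (T0.const _),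
    ex_const H]
  exact sub_self _

/-- `quad_polylog` for a centred potential that is not centred at zero (translation). -/
theorem quad_polylog' {q0 : ℕ} {C4 : ℝ} (hC4 : 0 ≤ C4) (hB : HB q0 C4) {c : ℝ} (hc : 0 < c)
    (hc1 : c ≤ 1) : ∃ C : ℝ, 0 < C ∧ ∀ (α : Type) [Fintype α] [DecidableEq α] (κ : ℝ)
      (V : (α → ℝ) → ℝ), Nice κ 2 V → κ ≤ 1 → c / ln (Fintype.card α) ^ 2 ≤ κ → CLe V 6 →
      ∀ b : α → ℝ, var V (qf9 V b) ≤ C * lln (Fintype.card α) ^ 3 * ∑ i, b i ^ 2 := by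
  obtain ⟨C, hC, h⟩ := quad_polylog hC4 hB hc hc1
  refine ⟨C, hC, fun α _ _ κ V H h1 hκ hcl b => ?_⟩
  have h2 := h α κ (fun x => V (x + mn V)) (H.translate (mn V)) h1 hκ
    (S9d_cle_translate H hcl (mn V)) (fun i => S9d_mn_translate H i) b
  have h3 : (fun x : α → ℝ => ∑ i, b i * x i ^ 2) = fun x => qf9 V b (x + mn V) := by
    funext x
    unfold qf9
    refine Finset.sum_congr rfl fun i _ => ?_
    rw [Pi.add_apply]
    ring
  rw [h3, var_translate (mn V) V (qf9 V b)] at h2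
  exact h2

/-- At a good point (paper 325, 9.3): the form centred at `a0 = mn V` instead of the posterior
mean. -/
theorem good_point (H : Nice κ M V) (b : ι → ℝ) {t l K : ℝ} (ht : 0 ≤ t) (hl : 0 ≤ l)
    (y : ι → ℝ) (hC : CLe (pt V t y) l)
    (hK : var (pt V t y) (qf9 (pt V t y) b) ≤ K * ∑ i, b i ^ 2) :
    CP V t (qf9 V b) (qf9 V b) y ≤ 2 * K * ∑ i, b i ^ 2 +
      8 * l * ∑ i, b i ^ 2 * (mn (pt V t y) i - mn V i) ^ 2 := by
  have hκ := H.kpos
  have Hp : Nice (κ + t) (M + t) (pt V t y) := H.ptn (by linarith) y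
  set W := pt V t y with hW
  let θ : ι → ℝ := fun i => 2 * (b i * (mn W i - mn V i))
  set c : ℝ := (∑ i, b i * (mn W i - mn V i) ^ 2) - dt θ (mn W) with hc
  have e : qf9 V b = fun x => (qf9 W b x + dt θ x) + c := by
    funext x
    rw [hc]
    simp only [qf9, dt, θ]
    rw [← Finset.sum_add_distrib, add_sub_assoc']
    rw [eq_sub_iff_add_eq, ← Finset.sum_add_distrib, ← Finset.sum_add_distrib]
    exact Finset.sum_congr rfl fun i _ => by ring
  have hq : T0 (qf9 W b) := S9d_qft0 W b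
  have h1 : CP V t (qf9 V b) (qf9 V b) y = var W (fun x => qf9 W b x + dt θ x) := by
    show var W (qf9 V b) = _
    rw [e, var_addc Hp (hq.add (T0.dtf θ))]
  have h2 := var_add_le Hp hq (T0.dtf θ)
  have h3 := hC θ
  have h4 : sq θ = 4 * ∑ i, b i ^ 2 * (mn W i - mn V i) ^ 2 := by
    unfold sq
    rw [Finset.mul_sum]
    exact Finset.sum_congr rfl fun i _ => by simp only [θ]; ring
  rw [h4] at h3
  rw [h1]
  have h5 : var W (dt θ) = var W (fun x => dt θ x) := rfl
  rw [h5] at h2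
  have h6 : 8 * l * ∑ i, b i ^ 2 * (mn W i - mn V i) ^ 2 =
      2 * (l * (4 * ∑ i, b i ^ 2 * (mn W i - mn V i) ^ 2)) := by ring
  rw [h6]
  have h7 : 2 * K * ∑ i, b i ^ 2 = 2 * (K * ∑ i, b i ^ 2) := by ring
  rw [h7]
  linarith

/-- `GE (a_i - a0_i)² ≤ Var x_i`. -/
theorem mean_fluct (H : Nice κ M V) {t : ℝ} (ht : 0 ≤ t) (i : ι) :
    GE V t (fun y => (mn (pt V t y) i - mn V i) ^ 2) ≤ var V (fun x => x i) := by
  have hκ := H.kpos
  have htκ : -κ < t := by linarith
  have hf : T0 (fun x : ι → ℝ => (x i - mn V i) ^ 2) := ((T0.coord i).sub (T0.const _)).pow 2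
  have hx : T0 (fun x : ι → ℝ => x i - mn V i) := (T0.coord i).sub (T0.const _)
  have h1 : ∀ y, (mn (pt V t y) i - mn V i) ^ 2 ≤ EP V t (fun x => (x i - mn V i) ^ 2) y := by
    intro y
    have Hp := H.ptn htκ y
    have h2 := ex_sq_le Hp hx
    rw [ex_sub Hp (T0.coord i) (T0.const _), ex_const Hp] at h2
    exact h2
  have h3 : T0 (fun y : ι → ℝ => (mn (pt V t y) i - mn V i) ^ 2) :=
    ((EP_t0 H (T0.coord i) htκ).sub (T0.const (mn V i))).pow 2
  have h4 := GE_mono H h3 (EP_t0 H hf htκ) t h1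
  rw [show GE V t (fun y => EP V t (fun x => (x i - mn V i) ^ 2) y) = _ from GE_EP H hf ht] at h4
  rw [var_eq H (T0.coord i)]
  exact h4

/-- Theorem QK for potentials with `D²V ≤ 1`, `Cov ≤ 2` and small `κ` (paper 325, 9.2, 9.3). -/
theorem QK_smooth {Cx C4 : ℝ} {q0 q1 : ℕ} (hCx : 0 ≤ Cx) (hO : OPI Cx q0) (hC4 : 0 ≤ C4)
    (hB : HB q1 C4) : ∃ C c : ℝ, 0 < C ∧ 0 < c ∧ ∀ (α : Type) [Fintype α] [DecidableEq α]
      (κ : ℝ) (V : (α → ℝ) → ℝ), Nice κ 1 V → κ ≤ c / ln (Fintype.card α) ^ 2 → CLe V 2 →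
      ∀ b : α → ℝ, var V (qf9 V b) ≤ C * lln (Fintype.card α) ^ 3 * ∑ i, b i ^ 2 := by
  obtain ⟨c, hc0, hc1, hbs⟩ := bad_small hCx hO
  obtain ⟨C8, hC8, hm8⟩ := mom8_9
  obtain ⟨C', hC', hqp⟩ := quad_polylog' hC4 hB hc0 hc1
  refine ⟨Real.exp 6 * (2 * C' + 96 + (C8 + 1) ^ 2 + (C8 + 1) ^ 3), c, by positivity, hc0,
    fun α _ _ κ V H hκc hcl b => ?_⟩
  have hκ := H.kpos
  set n : ℕ := Fintype.card α with hn
  have hn0 : (0 : ℝ) ≤ n := Nat.cast_nonneg n
  have hln := ln_ge n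
  have hll := lln_ge n
  set S : ℝ := ∑ i, b i ^ 2 with hS
  have hS0 : 0 ≤ S := Finset.sum_nonneg fun i _ => sq_nonneg _
  set T : ℝ := c / ln n ^ 2 with hT
  have hln2 : 4 ≤ ln n ^ 2 := by nlinarith
  have hT0 : 0 < T := by positivity
  have hT4 : T ≤ 1 / 4 := by
    rw [hT, div_le_div_iff₀ (by positivity) (by norm_num)]
    nlinarith
  set f : (α → ℝ) → ℝ := qf9 V b with hf
  have hft : T0 f := S9d_qft0 V b
  -- parameters
  set p : ℝ := 1 / ((n : ℝ) + 16) ^ 4 with hp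
  set B : ℝ := (C8 + 1) * n with hB'
  have hp0 : 0 ≤ p := by positivity
  have hB0 : 0 ≤ B := by positivity
  have h8 : ex V (fun x => sq (ctr V x) ^ 4) ≤ B ^ 4 := by
    refine (hm8 α κ 1 V H hcl).trans ?_
    rw [hB', mul_pow]
    refine mul_le_mul_of_nonneg_right ?_ (by positivity)
    have h1 : C8 ≤ (C8 + 1) ^ 1 := by linarith
    exact h1.trans (pow_le_pow_right₀ (by linarith) (by norm_num))
  have hbad : ∀ t, 0 ≤ t → t ≤ T → GE V t (bad V 2 t) ≤ p ^ 4 := by
    intro t ht htT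
    refine (hbs α κ 1 V H hcl hκc t ht htT).trans (le_of_eq ?_)
    rw [hp, div_pow, one_pow, ← pow_mul]
  have hn16 : (1 : ℝ) ≤ (n : ℝ) + 16 := by linarith
  have hnp : (n : ℝ) ≤ (n : ℝ) + 16 := by linarith
  have hpB3 : p * B ^ 3 ≤ (C8 + 1) ^ 3 := by
    rw [hp, hB', mul_pow, one_div_mul_eq_div, div_le_iff₀ (by positivity)]
    refine mul_le_mul_of_nonneg_left ?_ (by positivity)
    exact (pow_le_pow_left₀ hn0 hnp 3).trans (pow_le_pow_right₀ hn16 (by norm_num))
  have hpB2 : p ^ 2 * B ^ 2 ≤ (C8 + 1) ^ 2 := by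
    rw [hp, hB', mul_pow, div_pow, one_pow, ← pow_mul, one_div_mul_eq_div,
      div_le_iff₀ (by positivity)]
    refine mul_le_mul_of_nonneg_left ?_ (by positivity)
    exact (pow_le_pow_left₀ hn0 hnp 2).trans (pow_le_pow_right₀ hn16 (by norm_num))
  -- transfer
  have h1 := var_transfer H hft (a := 2) (T := T) (E := (C8 + 1) ^ 3 * S) (by norm_num) hT0.le
    (by positivity) (fun t ht htT => by
      have h2 := (bad_holder H b (a := 2) ht.le hp0 hB0 (hbad t ht.le htT) h8).1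
      exact h2.trans (mul_le_mul_of_nonneg_right hpB3 hS0))
  -- the variance at time T
  have hTκ : -κ < T := by linarith
  set K : ℝ := C' * lln n ^ 3 with hK
  have hK0 : 0 ≤ K := by positivity
  set R : (α → ℝ) → ℝ := fun y => ∑ i, b i ^ 2 * (mn (pt V T y) i - mn V i) ^ 2 with hR
  have hR0 : ∀ y, 0 ≤ R y := fun y =>
    Finset.sum_nonneg fun i _ => mul_nonneg (sq_nonneg _) (sq_nonneg _)
  have hRi : ∀ i : α, T0 (fun y : α → ℝ => (mn (pt V T y) i - mn V i) ^ 2) := fun i =>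
    ((EP_t0 H (T0.coord i) hTκ).sub (T0.const (mn V i))).pow 2
  have hRt : T0 R := T0.sum Finset.univ fun i _ => (hRi i).cmul _
  have hCPt : T0 (CP V T f f) := CP_t0 H hft hft hTκ
  have hCP0 : ∀ y, 0 ≤ CP V T f f y := fun y => var_nonneg (H.ptn hTκ y) hft
  have hpt : ∀ y, CP V T f f y ≤ (2 * K * S + 48 * R y) + bad V 2 T y * CP V T f f y := by
    intro y
    by_cases hb : 3 * 2 < Lop V T y
    · have e : bad V 2 T y = 1 := by
        unfold bad
        rw [if_pos hb]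
      rw [e, one_mul]
      have h2 : 0 ≤ 2 * K * S := by positivity
      linarith [hR0 y]
    · have e : bad V 2 T y = 0 := by
        unfold bad
        rw [if_neg hb]
      rw [e, zero_mul, add_zero]
      have hL : Lop V T y ≤ 6 := by linarith [not_lt.1 hb]
      have hC6 : CLe (pt V T y) 6 := (CLe_Lop9 H hT0.le y).mono hL
      have Hp : Nice (κ + T) 2 (pt V T y) :=
        (H.ptn hTκ y).mono (by linarith) le_rfl (by linarith)
      have h2 := hqp α (κ + T) (pt V T y) Hp (by linarith) (by linarith) hC6 b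
      have h3 := good_point H b hT0.le (by norm_num : (0 : ℝ) ≤ 6) y hC6 h2
      have h4 : (8 : ℝ) * 6 = 48 := by norm_num
      rw [h4] at h3
      exact h3
  have hbt : T0 (bad V 2 T) := bad_t0 H 2 hT0.le
  have hbCt : T0 (fun y => bad V 2 T y * CP V T f f y) := hbt.mul hCPt
  have h2 : GE V T (CP V T f f) ≤ GE V T (fun y => (2 * K * S + 48 * R y) +
      bad V 2 T y * CP V T f f y) :=
    GE_mono H hCPt (((T0.const _).add (hRt.cmul 48)).add hbCt) T hpt
  have h3 : GE V T (fun y => (2 * K * S + 48 * R y) + bad V 2 T y * CP V T f f y) =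
      2 * K * S + 48 * GE V T R + GE V T (fun y => bad V 2 T y * CP V T f f y) := by
    rw [GE_add H ((T0.const (2 * K * S)).add (hRt.cmul 48)) hbCt,
      GE_add H (T0.const (2 * K * S)) (hRt.cmul 48), GE_const H, GE_cmul]
  have h4 : GE V T R ≤ 2 * S := by
    have e1 : GE V T R = ∑ i, b i ^ 2 * GE V T (fun y => (mn (pt V T y) i - mn V i) ^ 2) := by
      rw [hR, GE_sum H Finset.univ (fun i _ => (hRi i).cmul _)]
      exact Finset.sum_congr rfl fun i _ => GE_cmul _ _ _ _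
    rw [e1, hS, Finset.mul_sum]
    refine Finset.sum_le_sum fun i _ => ?_
    have h5 := mean_fluct H hT0.le i
    have h6 : var V (fun x => x i) ≤ 2 := by
      have h7 := hcl (Pi.single i 1)
      have h8 : (fun x : α → ℝ => dt (Pi.single i 1) x) = fun x => x i := by
        funext x
        unfold dt
        rw [Finset.sum_eq_single i]
        · rw [Pi.single_eq_same, one_mul]
        · intro k _ hk
          rw [Pi.single_eq_of_ne hk, zero_mul]
        · intro hi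
          exact absurd (Finset.mem_univ i) hi
      rw [h8, sq_single] at h7
      linarith
    rw [mul_comm 2]
    exact mul_le_mul_of_nonneg_left (h5.trans h6) (sq_nonneg _)
  have h5 : GE V T (fun y => bad V 2 T y * CP V T f f y) ≤ (C8 + 1) ^ 2 * S :=
    (bad_holder H b (a := 2) hT0.le hp0 hB0 (hbad T hT0.le le_rfl) h8).2.trans
      (mul_le_mul_of_nonneg_right hpB2 hS0)
  have h6 : GE V T (CP V T f f) + T * ((C8 + 1) ^ 3 * S) ≤
      (2 * K + 96 + (C8 + 1) ^ 2 + (C8 + 1) ^ 3) * S := by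
    rw [h3] at h2
    have h7 : T * ((C8 + 1) ^ 3 * S) ≤ 1 * ((C8 + 1) ^ 3 * S) :=
      mul_le_mul_of_nonneg_right (by linarith) (by positivity)
    nlinarith
  have hL3 : 1 ≤ lln n ^ 3 := one_le_pow₀ hll
  have h7 : (2 * K + 96 + (C8 + 1) ^ 2 + (C8 + 1) ^ 3) ≤
      (2 * C' + 96 + (C8 + 1) ^ 2 + (C8 + 1) ^ 3) * lln n ^ 3 := by
    rw [hK]
    have h8 : 0 ≤ 96 + (C8 + 1) ^ 2 + (C8 + 1) ^ 3 := by positivity
    have h9 := mul_le_mul_of_nonneg_left hL3 h8
    nlinarith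
  have h8' : Real.exp (3 * 2 * T) ≤ Real.exp 6 := Real.exp_le_exp.2 (by linarith)
  have h9 : 0 ≤ GE V T (CP V T f f) + T * ((C8 + 1) ^ 3 * S) :=
    add_nonneg (GE_nonneg V T hCP0) (by positivity)
  calc var V f ≤ Real.exp (3 * 2 * T) * (GE V T (CP V T f f) + T * ((C8 + 1) ^ 3 * S)) := h1
    _ ≤ Real.exp 6 * (GE V T (CP V T f f) + T * ((C8 + 1) ^ 3 * S)) :=
      mul_le_mul_of_nonneg_right h8' h9
    _ ≤ Real.exp 6 * ((2 * K + 96 + (C8 + 1) ^ 2 + (C8 + 1) ^ 3) * S) :=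
      mul_le_mul_of_nonneg_left h6 (Real.exp_pos _).le
    _ ≤ Real.exp 6 * ((2 * C' + 96 + (C8 + 1) ^ 2 + (C8 + 1) ^ 3) * lln n ^ 3 * S) :=
      mul_le_mul_of_nonneg_left (mul_le_mul_of_nonneg_right h7 hS0) (Real.exp_pos _).le
    _ = Real.exp 6 * (2 * C' + 96 + (C8 + 1) ^ 2 + (C8 + 1) ^ 3) * lln n ^ 3 * S := by ring

/-- **Theorem QK** (diagonal forms). -/
theorem QK_thm {Cx C4 : ℝ} {q0 q1 : ℕ} (hCx : 0 ≤ Cx) (hO : OPI Cx q0) (hC4 : 0 ≤ C4)
    (hB : HB q1 C4) : ∃ C : ℝ, 0 < C ∧ ∀ (α : Type) [Fintype α] [DecidableEq α],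
      QKP (C * lln (Fintype.card α) ^ 3) α := by
  obtain ⟨C, c, hC, hc, h⟩ := QK_smooth hCx hO hC4 hB
  refine ⟨C, hC, fun α _ _ κ M V H hcl t => ?_⟩
  have hκ := H.kpos
  have hln := ln_ge (Fintype.card α)
  have H1 := VY1_nice H
  have hpos : 0 < min (κ / (κ + 1)) (c / ln (Fintype.card α) ^ 2) :=
    lt_min (by positivity) (by positivity)
  have H2 : Nice (min (κ / (κ + 1)) (c / ln (Fintype.card α) ^ 2)) 1 (VY V 1) :=
    H1.mono hpos (min_le_left _ _) le_rfl
  have h2 : CLe (VY V 1) 2 := by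
    have := VY1_cle H hcl
    norm_num at this
    exact this
  have h3 := h α _ (VY V 1) H2 (min_le_right _ _) h2 t
  exact (VY1_qf H t).trans h3

/-- Rotated version: all quadratic forms (`exists_EB`, `ogm`, `CLe.comp_og`). -/
theorem QKP.all {α : Type} [Fintype α] [DecidableEq α] {K : ℝ} (hK : QKP K α) {κ M : ℝ}
    {V : (α → ℝ) → ℝ} (H : Nice κ M V) (hC : CLe V 1) {B : α → α → ℝ}
    (hB : ∀ i j, B i j = B j i) :
    var V (fun x => ∑ i, ∑ j, B i j * (x i - mn V i) * (x j - mn V j)) ≤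
      K * ∑ i, ∑ j, B i j ^ 2 := by
  have hA : ∀ i j, (Matrix.of B) i j = (Matrix.of B) j i := fun i j => hB i j
  obtain ⟨e, lam, he⟩ := exists_EB hA
  set U : Matrix α α ℝ := Matrix.of fun a k => e k a with hUdef
  have hU : U * U.transpose = 1 := by
    ext a b
    rw [Matrix.mul_apply, Matrix.one_apply]
    exact he.orth' a b
  have hUx : ∀ (k : α) (x : α → ℝ), dt (e k) (ogm U hU x) = x k := by
    intro k x
    have h1 : (U.transpose.mulVec (U.mulVec x)) = x := by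
      rw [Matrix.mulVec_mulVec, mul_eq_one_comm.1 hU, Matrix.one_mulVec]
    have h2 := congrFun h1 k
    rw [ogm_apply]
    exact h2
  have hmn : ∀ k, mn (fun x => V (ogm U hU x)) k = dt (e k) (mn V) := by
    intro k
    have h1 : (fun x : α → ℝ => x k) = fun x => (dt (e k)) (ogm U hU x) :=
      funext fun x => (hUx k x).symm
    show ex (fun x => V (ogm U hU x)) (fun x => x k) = _
    rw [h1, ex_comp_lin (ogm U hU) V (dt (e k)), ex_dt H]
  have hV := H.comp_og U hU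
  have hCV := hC.comp_og U hU
  have h1 := hK κ M (fun x => V (ogm U hU x)) hV hCV lam
  have h2 : (fun x : α → ℝ => ∑ k, lam k * (x k - mn (fun x => V (ogm U hU x)) k) ^ 2) =
      fun x => (fun z : α → ℝ => ∑ i, ∑ j, B i j * (z i - mn V i) * (z j - mn V j))
        (ogm U hU x) := by
    funext x
    have h3 := he.quad (ogm U hU x - mn V)
    have h4 : dt (ogm U hU x - mn V) ((Matrix.of B).mulVec (ogm U hU x - mn V)) =
        ∑ i, ∑ j, B i j * (ogm U hU x i - mn V i) * (ogm U hU x j - mn V j) := by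
      unfold dt Matrix.mulVec dotProduct
      refine Finset.sum_congr rfl fun i _ => ?_
      rw [Finset.mul_sum]
      refine Finset.sum_congr rfl fun j _ => ?_
      show (ogm U hU x - mn V) i * (B i j * (ogm U hU x - mn V) j) = _
      rw [Pi.sub_apply, Pi.sub_apply]
      ring
    show _ = ∑ i, ∑ j, B i j * (ogm U hU x i - mn V i) * (ogm U hU x j - mn V j)
    rw [← h4, h3]
    refine Finset.sum_congr rfl fun k _ => ?_
    have h5 : dt (e k) (ogm U hU x - mn V) = dt (e k) (ogm U hU x) - dt (e k) (mn V) := by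
      unfold dt
      rw [← Finset.sum_sub_distrib]
      exact Finset.sum_congr rfl fun i _ => by rw [Pi.sub_apply]; ring
    rw [h5, hUx, hmn]
  rw [h2, var_comp_lin (ogm U hU) V
    (fun z : α → ℝ => ∑ i, ∑ j, B i j * (z i - mn V i) * (z j - mn V j))] at h1
  refine h1.trans (le_of_eq ?_)
  congr 1
  have h6 := he.trace_pow 2
  rw [← h6, pow_two, Matrix.trace]
  refine Finset.sum_congr rfl fun i _ => ?_
  rw [Matrix.diag_apply, Matrix.mul_apply]
  refine Finset.sum_congr rfl fun j _ => ?_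
  rw [Matrix.of_apply, Matrix.of_apply, hB j i]
  ring

end Pool.Agent.Lib.MP_8d00da_gt.h42k
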