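import Mathlib

/-!
# Section 10: real variable lemmas
-/

namespace Pool.Agent.Lib.MP_8d00da_gt.h42k

open MeasureTheory Set Filter
open scoped Topology NNReal ENNReal ContDiff

/-- Gronwall: `F' ≥ -a F - b` on `(0,T)`.  (`t ↦ e^{at} F t + b t e^{aT}` is monotone.) -/
theorem gron_lower {F F' : ℝ → ℝ} {T a b : ℝ} (hT : 0 ≤ T) (ha : 0 ≤ a) (hb : 0 ≤ b)
    (hc : ContinuousOn F (Icc 0 T)) (hd : ∀ t ∈ Ioo 0 T, HasDerivAt F (F' t) t)
    (h : ∀ t ∈ Ioo 0 T, -a * F t - b ≤ F' t) : F 0 ≤ Real.exp (a * T) * (F T + b * T) := by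
  have hder : ∀ t ∈ Ioo 0 T, HasDerivAt
      (fun t => Real.exp (a * t) * F t + b * t * Real.exp (a * T))
      (Real.exp (a * t) * (a * 1) * F t + Real.exp (a * t) * F' t + b * 1 * Real.exp (a * T)) t := by
    intro t ht
    have h1 : HasDerivAt (fun t => Real.exp (a * t)) (Real.exp (a * t) * (a * 1)) t :=
      ((hasDerivAt_id t).const_mul a).exp
    have h2 := h1.mul (hd t ht)
    have h3 : HasDerivAt (fun t => b * t * Real.exp (a * T)) (b * 1 * Real.exp (a * T)) t :=
      ((hasDerivAt_id t).const_mul b).mul_const _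
    exact h2.add h3
  have hmono : MonotoneOn (fun t => Real.exp (a * t) * F t + b * t * Real.exp (a * T))
      (Icc 0 T) := by
    refine monotoneOn_of_deriv_nonneg (convex_Icc 0 T) ?_ ?_ ?_
    · exact (((Real.continuous_exp.comp (continuous_const.mul continuous_id)).continuousOn).mul
        hc).add (((continuous_const.mul continuous_id).mul continuous_const).continuousOn)
    · rw [interior_Icc]
      exact fun t ht => (hder t ht).differentiableAt.differentiableWithinAt
    · rw [interior_Icc]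
      intro t ht
      rw [(hder t ht).deriv]
      have h1 := h t ht
      have h2 := Real.exp_pos (a * t)
      have h3 : Real.exp (a * t) ≤ Real.exp (a * T) :=
        Real.exp_le_exp.2 (mul_le_mul_of_nonneg_left ht.2.le ha)
      have h4 := mul_le_mul_of_nonneg_left h1 h2.le
      have h5 := mul_le_mul_of_nonneg_left h3 hb
      nlinarith
  have := hmono (left_mem_Icc.2 hT) (right_mem_Icc.2 hT) hT
  simp only [mul_zero, Real.exp_zero, one_mul, zero_mul, add_zero] at this
  calc F 0 ≤ _ := this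
    _ = _ := by ring

/-- Gronwall: `F' ≤ a F + b` on `(0,T)`.  (`t ↦ e^{-at} F t - b t` is antitone.) -/
theorem gron_upper {F F' : ℝ → ℝ} {T a b : ℝ} (hT : 0 ≤ T) (ha : 0 ≤ a) (hb : 0 ≤ b)
    (hc : ContinuousOn F (Icc 0 T)) (hd : ∀ t ∈ Ioo 0 T, HasDerivAt F (F' t) t)
    (h : ∀ t ∈ Ioo 0 T, F' t ≤ a * F t + b) : F T ≤ Real.exp (a * T) * (F 0 + b * T) := by
  have hder : ∀ t ∈ Ioo 0 T, HasDerivAt
      (fun t => Real.exp (-a * t) * F t - b * t)
      (Real.exp (-a * t) * (-a * 1) * F t + Real.exp (-a * t) * F' t - b * 1) t := by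
    intro t ht
    have h1 : HasDerivAt (fun t => Real.exp (-a * t)) (Real.exp (-a * t) * (-a * 1)) t :=
      ((hasDerivAt_id t).const_mul (-a)).exp
    have h2 := h1.mul (hd t ht)
    have h3 : HasDerivAt (fun t => b * t) (b * 1) t := (hasDerivAt_id t).const_mul b
    exact h2.sub h3
  have hmono : AntitoneOn (fun t => Real.exp (-a * t) * F t - b * t) (Icc 0 T) := by
    refine antitoneOn_of_deriv_nonpos (convex_Icc 0 T) ?_ ?_ ?_
    · exact (((Real.continuous_exp.comp (continuous_const.mul continuous_id)).continuousOn).mul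
        hc).sub ((continuous_const.mul continuous_id).continuousOn)
    · rw [interior_Icc]
      exact fun t ht => (hder t ht).differentiableAt.differentiableWithinAt
    · rw [interior_Icc]
      intro t ht
      rw [(hder t ht).deriv]
      have h1 := h t ht
      have h2 := Real.exp_pos (-a * t)
      have h3 : Real.exp (-a * t) ≤ 1 := by
        rw [Real.exp_le_one_iff]
        nlinarith [ht.1]
      have h4 := mul_le_mul_of_nonneg_left h1 h2.le
      have h5 := mul_le_mul_of_nonneg_right h3 hb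
      nlinarith
  have h6 := hmono (left_mem_Icc.2 hT) (right_mem_Icc.2 hT) hT
  simp only [mul_zero, Real.exp_zero, one_mul, sub_zero] at h6
  have h7 := mul_le_mul_of_nonneg_left h6 (Real.exp_pos (a * T)).le
  have h8 : Real.exp (a * T) * Real.exp (-a * T) = 1 := by
    rw [← Real.exp_add]
    have : a * T + -a * T = 0 := by ring
    rw [this, Real.exp_zero]
  have h9 : Real.exp (a * T) * (Real.exp (-a * T) * F T - b * T) =
      F T - Real.exp (a * T) * (b * T) := by
    rw [mul_sub, ← mul_assoc, h8, one_mul]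
  rw [h9] at h7
  rw [mul_add]
  linarith

/-- `log 3 ≤ 1.1`. -/
theorem log_three_le : Real.log 3 ≤ 1.1 := by
  rw [Real.log_le_iff_le_exp (by norm_num)]
  have h1 := Real.exp_one_gt_d9
  have h2 := Real.quadratic_le_exp_of_nonneg (x := 0.1) (by norm_num)
  have h3 : Real.exp 1.1 = Real.exp 1 * Real.exp 0.1 := by
    rw [← Real.exp_add]; norm_num
  rw [h3]
  nlinarith

/-- `b log (3/b) ≤ 1.1` on `[0,1]`: `log (1/b) ≤ 1/b - 1`. -/
theorem blog_le {b : ℝ} (hb0 : 0 ≤ b) (hb1 : b ≤ 1) :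
    0 ≤ b * Real.log (3 / b) ∧ b * Real.log (3 / b) ≤ 1.1 := by
  rcases hb0.eq_or_lt with rfl | hb
  · constructor
    · simp
    · simp
      norm_num
  · have h3 : 1 ≤ 3 / b := by
      rw [le_div_iff₀ hb]; linarith
    refine ⟨mul_nonneg hb0 (Real.log_nonneg h3), ?_⟩
    have h4 : Real.log (3 / b) = Real.log 3 + Real.log (1 / b) := by
      rw [← Real.log_mul (by norm_num) (by positivity)]
      congr 1
      field_simp
    have h5 : Real.log (1 / b) ≤ 1 / b - 1 := Real.log_le_sub_one_of_pos (by positivity)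
    have h6 := mul_le_mul_of_nonneg_left h5 hb0
    have h7 : b * (1 / b - 1) = 1 - b := by field_simp
    have h8 := mul_le_mul_of_nonneg_left log_three_le hb0
    rw [h4]
    nlinarith

/-- `(b log (3/b))² ≤ log²(3/a²) b² + 28 a³` for `0 ≤ b ≤ 1`, `0 < a ≤ 1`: if `b ≥ a²` clear,
if `b < a²`: `log (3/b) = 4 log ((3/b)^{1/4}) ≤ 4 (3/b)^{1/4}`, so
`(b log(3/b))² ≤ 16 √3 b^{3/2} ≤ 28 a³`. -/
theorem blog_split {a b : ℝ} (ha0 : 0 < a) (ha1 : a ≤ 1) (hb0 : 0 ≤ b) (hb1 : b ≤ 1) :
    (b * Real.log (3 / b)) ^ 2 ≤ Real.log (3 / a ^ 2) ^ 2 * b ^ 2 + 28 * a ^ 3 := by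
  have ha3 : 0 < a ^ 3 := by positivity
  rcases hb0.eq_or_lt with rfl | hb
  · simp
    positivity
  · have h3 : 1 ≤ 3 / b := by
      rw [le_div_iff₀ hb]; linarith
    have hl0 := Real.log_nonneg h3
    rcases le_or_gt (a ^ 2) b with hab | hab
    · have h4 : Real.log (3 / b) ≤ Real.log (3 / a ^ 2) := by
        refine Real.log_le_log (by positivity) ?_
        exact div_le_div_of_nonneg_left (by norm_num) (by positivity) hab
      have h5 : Real.log (3 / b) ^ 2 ≤ Real.log (3 / a ^ 2) ^ 2 := by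
        exact pow_le_pow_left₀ hl0 h4 2
      rw [mul_pow, mul_comm]
      have h6 := mul_le_mul_of_nonneg_right h5 (sq_nonneg b)
      linarith
    · set x := √(√(3 / b)) with hx
      have h4 : 0 ≤ 3 / b := by positivity
      have hx2 : x ^ 2 = √(3 / b) := Real.sq_sqrt (Real.sqrt_nonneg _)
      have hx4 : x ^ 4 = 3 / b := by
        have : x ^ 4 = (x ^ 2) ^ 2 := by ring
        rw [this, hx2, Real.sq_sqrt h4]
      have hxpos : 0 < x := Real.sqrt_pos.2 (Real.sqrt_pos.2 (by positivity))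
      have h5 : Real.log (3 / b) = 4 * Real.log x := by
        rw [← hx4, Real.log_pow]
        norm_num
      have h6 : Real.log x ≤ x := (Real.log_le_sub_one_of_pos hxpos).trans (by linarith)
      have h7 : Real.log (3 / b) ≤ 4 * x := by rw [h5]; linarith
      have h8 : (b * Real.log (3 / b)) ^ 2 ≤ (b * (4 * x)) ^ 2 :=
        pow_le_pow_left₀ (mul_nonneg hb0 hl0) (mul_le_mul_of_nonneg_left h7 hb0) 2
      set s := √b with hs
      have hs2 : s ^ 2 = b := Real.sq_sqrt hb0
      have hspos : 0 < s := Real.sqrt_pos.2 hb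
      have hsa : s ≤ a := by
        rw [hs, Real.sqrt_le_iff]
        exact ⟨ha0.le, hab.le⟩
      have h9 : √(3 / b) * s = √3 := by
        rw [hs, ← Real.sqrt_mul h4]
        congr 1
        field_simp
      have h10 : √3 ≤ 1.75 := by
        rw [Real.sqrt_le_left (by norm_num)]
        norm_num
      have h11 : (b * (4 * x)) ^ 2 = 16 * (s ^ 3 * √3) := by
        have : (b * (4 * x)) ^ 2 = 16 * b ^ 2 * x ^ 2 := by ring
        rw [this, hx2, ← h9, ← hs2]
        ring
      have h12 : s ^ 3 ≤ a ^ 3 := pow_le_pow_left₀ hspos.le hsa 3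
      have h13 : s ^ 3 * √3 ≤ a ^ 3 * 1.75 :=
        mul_le_mul h12 h10 (Real.sqrt_nonneg _) ha3.le
      have h14 : 0 ≤ Real.log (3 / a ^ 2) ^ 2 * b ^ 2 := by positivity
      rw [h11] at h8
      linarith

/-- The rate in 10.3: `L ≥ 0`, `β = L` if `L > 3`, `β = 0` otherwise (`36 (b log (3/b))² ≤ 44`). -/
theorem rate_le {a b L : ℝ} (ha0 : 0 < a) (ha1 : a ≤ 1) (hb0 : 0 ≤ b) (hb1 : b ≤ 1) (hL : 0 ≤ L) :
    36 * L * (b * Real.log (3 / b)) ^ 2 ≤
      108 * Real.log (3 / a ^ 2) ^ 2 * b ^ 2 + (3024 * a ^ 3 + 44 * (if 3 < L then L else 0)) := by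
  have ha3 : 0 < a ^ 3 := by positivity
  have h0 : 0 ≤ Real.log (3 / a ^ 2) ^ 2 * b ^ 2 := by positivity
  obtain ⟨h1, h2⟩ := blog_le hb0 hb1
  split_ifs with h
  · have h3 : (b * Real.log (3 / b)) ^ 2 ≤ 1.1 ^ 2 := pow_le_pow_left₀ h1 h2 2
    have h4 := mul_le_mul_of_nonneg_left h3 (by positivity : 0 ≤ 36 * L)
    nlinarith
  · have h3 := blog_split ha0 ha1 hb0 hb1
    have h4 : 36 * L * (b * Real.log (3 / b)) ^ 2 ≤ 36 * 3 * (b * Real.log (3 / b)) ^ 2 :=
      mul_le_mul_of_nonneg_right (by linarith) (sq_nonneg _)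
    linarith

/-- The final inequality of the Gronwall step in 10.3. -/
theorem small_num {a T Λ η : ℝ} (ha0 : 0 < a) (ha1 : a ≤ (1 / 16) ^ 8) (hT0 : 0 ≤ T) (hT1 : T ≤ 1)
    (hΛ : Λ * T ≤ 1 / 8 * Real.log (1 / a)) (hη : η ≤ a ^ 3) :
    Real.exp (Λ * T) * (a ^ 2 + (3024 * a ^ 3 + 44 * η) * T) ≤ a * √a / 200 := by
  set u := √(√(√a)) with hu
  have ha0' : 0 ≤ a := ha0.le
  have hupos : 0 < u := Real.sqrt_pos.2 (Real.sqrt_pos.2 (Real.sqrt_pos.2 ha0))
  have hu2 : u ^ 2 = √(√a) := Real.sq_sqrt (Real.sqrt_nonneg _)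
  have hu4 : u ^ 4 = √a := by
    have : u ^ 4 = (u ^ 2) ^ 2 := by ring
    rw [this, hu2, Real.sq_sqrt (Real.sqrt_nonneg _)]
  have hu8 : u ^ 8 = a := by
    have : u ^ 8 = (u ^ 4) ^ 2 := by ring
    rw [this, hu4, Real.sq_sqrt ha0']
  have hu1 : u ≤ 1 / 16 := by
    rw [← hu8] at ha1
    exact le_of_pow_le_pow_left₀ (by norm_num) (by norm_num) ha1
  have h1 : Real.exp (Λ * T) ≤ 1 / u := by
    refine (Real.exp_le_exp.2 hΛ).trans (le_of_eq ?_)
    have h2 : Real.log (1 / a) = -(8 * Real.log u) := by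
      rw [one_div, Real.log_inv, ← hu8, Real.log_pow]
      norm_num
    rw [h2]
    have h3 : 1 / 8 * -(8 * Real.log u) = -Real.log u := by ring
    rw [h3, Real.exp_neg, Real.exp_log hupos, one_div]
  have ha3 : 0 < a ^ 3 := by positivity
  have h4 : (3024 * a ^ 3 + 44 * η) * T ≤ 3068 * a ^ 3 := by
    rcases le_or_gt 0 (3024 * a ^ 3 + 44 * η) with h | h
    · have := mul_le_mul_of_nonneg_left hT1 h
      linarith
    · have := mul_nonpos_of_nonpos_of_nonneg h.le hT0
      linarith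
  have h5 : Real.exp (Λ * T) * (a ^ 2 + (3024 * a ^ 3 + 44 * η) * T) ≤
      1 / u * (a ^ 2 + 3068 * a ^ 3) := by
    refine (mul_le_mul_of_nonneg_left (by linarith : a ^ 2 + (3024 * a ^ 3 + 44 * η) * T ≤
      a ^ 2 + 3068 * a ^ 3) (Real.exp_pos _).le).trans ?_
    exact mul_le_mul_of_nonneg_right h1 (by positivity)
  refine h5.trans ?_
  rw [← hu4, ← hu8]
  have h6 : 1 / u * ((u ^ 8) ^ 2 + 3068 * (u ^ 8) ^ 3) = u ^ 12 * (u ^ 3 + 3068 * u ^ 11) := by
    field_simp
  have h7 : u ^ 8 * u ^ 4 / 200 = u ^ 12 * (1 / 200) := by ring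
  rw [h6, h7]
  refine mul_le_mul_of_nonneg_left ?_ (by positivity)
  have h8 : u ^ 3 ≤ (1 / 16) ^ 3 := pow_le_pow_left₀ hupos.le hu1 3
  have h9 : u ^ 11 ≤ (1 / 16) ^ 11 := pow_le_pow_left₀ hupos.le hu1 11
  have h10 : ((1 : ℝ) / 16) ^ 3 + 3068 * (1 / 16) ^ 11 ≤ 1 / 200 := by norm_num
  linarith

/-- The pointwise inequality at the final time in 10.3 (`c ≤ b`; if `b > √a` the right side is at
most `0`, otherwise `log (1/b) ≥ ½ log (1/a)`). -/
theorem final_pt {a b c : ℝ} (ha0 : 0 < a) (ha1 : a ≤ 1) (hc0 : 0 ≤ c) (hcb : c ≤ b)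
    (hb1 : b ≤ 1) :
    1 / 2 * Real.log (1 / a) * (c - b ^ 2 / √a) ≤ c * Real.log (1 / b) := by
  have hla : 0 ≤ Real.log (1 / a) := Real.log_nonneg (by rw [le_div_iff₀ ha0]; linarith)
  have hsa : 0 < √a := Real.sqrt_pos.2 ha0
  rcases (hc0.trans hcb).eq_or_lt with hb | hb
  · have hc : c = 0 := le_antisymm (hb ▸ hcb) hc0
    rw [hc, ← hb]
    simp
  · have hlb : 0 ≤ Real.log (1 / b) := Real.log_nonneg (by rw [le_div_iff₀ hb]; linarith)
    rcases le_or_gt b (√a) with h | h
    · have h1 : 1 / 2 * Real.log (1 / a) ≤ Real.log (1 / b) := by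
        have h2 : Real.log b ≤ Real.log (√a) := Real.log_le_log hb h
        rw [Real.log_sqrt ha0.le] at h2
        have e1 : Real.log (1 / a) = -Real.log a := by rw [one_div, Real.log_inv]
        have e2 : Real.log (1 / b) = -Real.log b := by rw [one_div, Real.log_inv]
        rw [e1, e2]
        linarith
      have h3 : 0 ≤ b ^ 2 / √a := by positivity
      have h4 : 0 ≤ 1 / 2 * Real.log (1 / a) := by positivity
      calc 1 / 2 * Real.log (1 / a) * (c - b ^ 2 / √a) ≤ 1 / 2 * Real.log (1 / a) * c :=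
            mul_le_mul_of_nonneg_left (by linarith) h4
        _ ≤ Real.log (1 / b) * c := mul_le_mul_of_nonneg_right h1 hc0
        _ = _ := mul_comm _ _
    · have h1 : c ≤ b ^ 2 / √a := by
        rw [le_div_iff₀ hsa]
        nlinarith
      have h2 : 1 / 2 * Real.log (1 / a) * (c - b ^ 2 / √a) ≤ 0 :=
        mul_nonpos_of_nonneg_of_nonpos (by positivity) (by linarith)
      exact h2.trans (mul_nonneg hc0 hlb)

/-- The derivative of the smooth transition is bounded and vanishes off `(0,1)`. -/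
theorem st_deriv : ∃ D : ℝ, 0 < D ∧ (∀ r, deriv Real.smoothTransition r ^ 2 ≤ D) ∧
    (∀ r, r ≤ 0 → deriv Real.smoothTransition r = 0) ∧
    (∀ r, 1 ≤ r → deriv Real.smoothTransition r = 0) := by
  have hcd : ContDiff ℝ 1 Real.smoothTransition := Real.smoothTransition.contDiff
  have hcont : Continuous (deriv Real.smoothTransition) := hcd.continuous_deriv le_rfl
  have hcl : IsClosed {r : ℝ | deriv Real.smoothTransition r = 0} :=
    isClosed_eq hcont continuous_const
  have h0 : ∀ r, r ≤ 0 → deriv Real.smoothTransition r = 0 := by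
    have h1 : Iio (0 : ℝ) ⊆ {r : ℝ | deriv Real.smoothTransition r = 0} := by
      intro r hr
      have h2 : Real.smoothTransition =ᶠ[𝓝 r] fun _ => (0 : ℝ) := by
        filter_upwards [Iio_mem_nhds hr] with s hs
        exact Real.smoothTransition.zero_of_nonpos (le_of_lt hs)
      show deriv Real.smoothTransition r = 0
      rw [h2.deriv_eq, deriv_const]
    have h3 := closure_minimal h1 hcl
    rw [closure_Iio] at h3
    exact fun r hr => h3 hr
  have h1 : ∀ r, 1 ≤ r → deriv Real.smoothTransition r = 0 := by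
    have h1 : Ioi (1 : ℝ) ⊆ {r : ℝ | deriv Real.smoothTransition r = 0} := by
      intro r hr
      have h2 : Real.smoothTransition =ᶠ[𝓝 r] fun _ => (1 : ℝ) := by
        filter_upwards [Ioi_mem_nhds hr] with s hs
        exact Real.smoothTransition.one_of_one_le (le_of_lt hs)
      show deriv Real.smoothTransition r = 0
      rw [h2.deriv_eq, deriv_const]
    have h3 := closure_minimal h1 hcl
    rw [closure_Ioi] at h3
    exact fun r hr => h3 hr
  obtain ⟨C, hC⟩ := (isCompact_Icc (a := (0 : ℝ)) (b := 1)).exists_bound_of_continuousOn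
    hcont.continuousOn
  refine ⟨C ^ 2 + 1, by positivity, fun r => ?_, h0, h1⟩
  rcases le_or_gt r 0 with hr | hr
  · rw [h0 r hr]
    nlinarith [sq_nonneg C]
  · rcases le_or_gt 1 r with hr1 | hr1
    · rw [h1 r hr1]
      nlinarith [sq_nonneg C]
    · have h2 := hC r ⟨hr.le, hr1.le⟩
      rw [Real.norm_eq_abs] at h2
      have h3 : deriv Real.smoothTransition r ^ 2 ≤ C ^ 2 := by
        rw [← sq_abs]
        exact pow_le_pow_left₀ (abs_nonneg _) h2 2
      linarith

end Pool.Agent.Lib.MP_8d00da_gt.h42k
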