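import Pool.Agent.Lib.MP_8d00da_gt.h42k.G4
import Pool.Agent.Lib.MP_8d00da_gt.h42k.S6a
import Pool.Agent.Lib.MP_8d00da_gt.h42k.T1a
import Pool.Agent.Lib.MP_8d00da_gt.h42k.KD1
import Pool.Agent.Lib.MP_8d00da_gt.h42k.B1a
import Pool.Agent.Lib.MP_8d00da_gt.h42k.T10a

/-!
# Section 10: the operator norm of the posterior covariance
-/

namespace Pool.Agent.Lib.MP_8d00da_gt.h42k

open MeasureTheory Set Filter
open scoped Topology NNReal ENNReal ContDiff

set_option linter.unusedSectionVars false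

variable {ι : Type*} [Fintype ι] [DecidableEq ι]

variable {κ M : ℝ} {V f u : (ι → ℝ) → ℝ}

/-- The variance of a linear function as a quadratic form. -/
private theorem T10b_quad (H : Nice κ M V) (θ : ι → ℝ) :
    var V (fun x => dt θ x) = dt θ ((CM V).mulVec θ) := by
  rw [var_dt H θ]
  unfold dt Matrix.mulVec dotProduct
  refine Finset.sum_congr rfl fun i _ => ?_
  rw [Finset.mul_sum]
  exact Finset.sum_congr rfl fun j _ => by ring

/-- `Cov(V) ≤ opn (CM V)`: `var_dt` and `quad_le_opn`. -/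
theorem CLe_opn10 (H : Nice κ M V) : CLe V (opn (CM V)) := by
  intro θ
  rw [T10b_quad H θ]
  exact quad_le_opn (CM V) θ

/-- `Cov(V) ≤ a` implies `opn (CM V) ≤ a` (eigenbasis, `EB.opn_le`). -/
theorem opn_le_of_CLe (H : Nice κ M V) {a : ℝ} (ha : 0 ≤ a) (h : CLe V a) : opn (CM V) ≤ a := by
  obtain ⟨e, lam, he⟩ := exists_EB (A := CM V) (CM_symm V)
  refine he.opn_le ha fun k => ?_
  have h1 : lam k = var V (fun x => dt (e k) x) := by
    rw [he.lam_eq k, T10b_quad H (e k)]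
  have h2 : sq (e k) = 1 := by
    rw [← s6_dt_self, he.orth, if_pos rfl]
  have h3 := h (e k)
  rw [h2, mul_one] at h3
  rw [h1]
  exact ⟨var_nonneg H (T0.dtf (e k)), h3⟩

theorem CLe_Lop10 (H : Nice κ M V) {t : ℝ} (ht : 0 ≤ t) (y : ι → ℝ) :
    CLe (pt V t y) (Lop V t y) :=
  CLe_opn10 (H.ptn (by linarith [H.kpos]) y)

private theorem T10b_gs_dt (θ x : ι → ℝ) : gs (dt θ) x = sq θ := by
  unfold gs sq
  exact Finset.sum_congr rfl fun i _ => by rw [pd_dt]

/-- `Nice.pi` for `pt V t y` and linear functions. -/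
theorem Lop_le10 (H : Nice κ M V) {t : ℝ} (ht : 0 ≤ t) (y : ι → ℝ) : Lop V t y ≤ 1 / (κ + t) := by
  have hκ := H.kpos
  have hp := H.ptn (t := t) (by linarith) y
  refine opn_le_of_CLe hp (by positivity) fun θ => ?_
  have h1 := hp.pi (dt θ) (T1.dtf θ)
  have h2 : gs (dt θ) = fun _ => sq θ := funext fun x => T10b_gs_dt θ x
  rw [h2, ex_const hp] at h1
  exact h1

theorem Lop_t010 (H : Nice κ M V) {t : ℝ} (ht : 0 ≤ t) : T0 (Lop V t) := by
  have hκ := H.kpos
  refine ⟨?_, 1 / κ, 0, fun y => ?_⟩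
  · have hc : Continuous (fun y : ι → ℝ => CM (pt V t y)) := by
      refine continuous_matrix fun i j => ?_
      have h1 : ∀ y : ι → ℝ, ContinuousAt
          (fun y : ι → ℝ => CP V t (fun x => x i) (fun x => x j) y) y := by
        intro y
        have h2 := (CP_contDiffAt H (T0.coord i) (T0.coord j) (t := t) (by linarith) y).continuousAt
        have h3 : ContinuousAt (fun y : ι → ℝ => ((t, y) : ℝ × (ι → ℝ))) y := by
          fun_prop
        exact ContinuousAt.comp (f := fun y : ι → ℝ => ((t, y) : ℝ × (ι → ℝ))) h2 h3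
      exact continuous_iff_continuousAt.2 h1
    exact (continuous_opn.comp hc).measurable
  · have h1 : 0 ≤ Lop V t y := opn_nonneg _
    have h2 := Lop_le10 H ht y
    have h3 : 1 / (κ + t) ≤ 1 / κ := one_div_le_one_div_of_le hκ (by linarith)
    rw [abs_of_nonneg h1, pow_zero, mul_one]
    exact h2.trans h3

theorem beta_t010 (H : Nice κ M V) (a : ℝ) {t : ℝ} (ht : 0 ≤ t) : T0 (beta V a t) := by
  have hL := Lop_t010 H ht
  have h1 : beta V a t = ({y | 3 * a < Lop V t y} : Set (ι → ℝ)).indicator (Lop V t) := by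
    funext y
    unfold beta
    by_cases h : 3 * a < Lop V t y
    · rw [if_pos h, Set.indicator_of_mem (by exact h)]
    · rw [if_neg h, Set.indicator_of_notMem (by exact h)]
  rw [h1]
  exact T0.ind (measurableSet_lt measurable_const hL.meas) hL

theorem beta_nonneg10 (V : (ι → ℝ) → ℝ) (a t : ℝ) (y : ι → ℝ) : 0 ≤ beta V a t y := by
  unfold beta
  split_ifs with h
  · exact opn_nonneg _
  · exact le_refl 0

/-- `Var_{t,y} u ≤ P E_{t,y}|∇u|²` if `L ≤ 3` (hypothesis), and `≤ 1/4` in any case. -/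
theorem var_final (H : Nice κ M V) {T P : ℝ} (hT : 0 < T) (hP0 : 0 ≤ P)
    (hP : ∀ y, Lop V T y ≤ 3 → PI (pt V T y) P) (hu : T1 u)
    (h01 : ∀ x, 0 ≤ u x ∧ u x ≤ 1) (y : ι → ℝ) :
    CP V T u u y ≤ P * EP V T (gs u) y + 1 / 12 * beta V 1 T y := by
  have hκ := H.kpos
  have hp := H.ptn (t := T) (by linarith) y
  have hE : 0 ≤ EP V T (gs u) y := ex_nonneg _ fun x => gs_nonneg u x
  unfold beta
  split_ifs with h
  · have h1 : CP V T u u y ≤ 1 / 4 := var_le_quarter hp hu.t0 h01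
    have h2 : 0 ≤ P * EP V T (gs u) y := mul_nonneg hP0 hE
    linarith
  · have h5 : CP V T u u y ≤ P * EP V T (gs u) y := hP y (by linarith) u hu
    linarith

/-- `∑ Cov_{t,y}(u,x_i)² ≤ L Var ≤ 3 Var + β/4` (`CLe.cov_sq`). -/
theorem rate_var (H : Nice κ M V) {t : ℝ} (ht : 0 ≤ t) (hu : T0 u)
    (h01 : ∀ x, 0 ≤ u x ∧ u x ≤ 1) (y : ι → ℝ) :
    ∑ i, CP V t u (fun x => x i) y * CP V t u (fun x => x i) y ≤
      3 * CP V t u u y + 1 / 4 * beta V 1 t y := by
  have hκ := H.kpos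
  have hp := H.ptn (t := t) (by linarith) y
  have h1 := CLe.cov_sq hp (CLe_Lop10 H ht y) hu
  have h2 : ∑ i, CP V t u (fun x => x i) y * CP V t u (fun x => x i) y =
      ∑ i, cov (pt V t y) u (fun x => x i) ^ 2 :=
    Finset.sum_congr rfl fun i _ => (pow_two _).symm
  have h3 : 0 ≤ CP V t u u y := var_nonneg hp hu
  have h4 : CP V t u u y ≤ 1 / 4 := var_le_quarter hp hu h01
  have h5 : ∑ i, CP V t u (fun x => x i) y * CP V t u (fun x => x i) y ≤
      Lop V t y * CP V t u u y := by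
    rw [h2]
    exact h1
  unfold beta
  split_ifs with h
  · have h6 : 0 ≤ Lop V t y := opn_nonneg _
    nlinarith
  · nlinarith

private theorem T10b_exp : Real.exp (3 / 5) ≤ 2 := by
  have h1 : Real.exp (3 / 5) ^ 5 = Real.exp 1 ^ 3 := by
    rw [← Real.exp_nat_mul, ← Real.exp_nat_mul]
    congr 1
    norm_num
  have h2 := Real.exp_one_lt_d9
  have h3 : Real.exp 1 ^ 3 ≤ 2 ^ 5 := by
    have h4 : Real.exp 1 ≤ 3 := by linarith
    calc Real.exp 1 ^ 3 ≤ 3 ^ 3 := pow_le_pow_left₀ (Real.exp_pos 1).le h4 3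
      _ ≤ 2 ^ 5 := by norm_num
  rw [← h1] at h3
  exact le_of_pow_le_pow_left₀ (by norm_num) (by norm_num) h3

private theorem T10b_pt0 (V : (ι → ℝ) → ℝ) : pt V 0 0 = V := by
  funext x
  unfold pt dt
  simp

/-- Paper 325, 10.2 (with a parameter `P`): Gronwall for `t ↦ GE_t Var_{t,y} u`
(`GE_CP_hasDerivAt`, `gron_lower` with `a = 3`, `b = η/4`, `AL.GE_continuousOn`, `AL.cp`), then
`var_final`. -/
theorem var_small_time (H : Nice κ M V) {T η P : ℝ} (hT : 0 < T) (hT1 : T ≤ 1 / 5) (hη : 0 ≤ η)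
    (hβ : ∀ t ∈ Icc 0 T, GE V t (beta V 1 t) ≤ η) (hP0 : 0 ≤ P)
    (hP : ∀ y, Lop V T y ≤ 3 → PI (pt V T y) P) (hu : T1 u)
    (h01 : ∀ x, 0 ≤ u x ∧ u x ≤ 1) :
    var V u ≤ 2 * P * ex V (gs u) + η := by
  have hκ := H.kpos
  have hu0 := hu.t0
  have hF0 : GE V 0 (fun y => CP V 0 u u y) = var V u := by
    rw [GE_zero H]
    unfold CP var
    rw [T10b_pt0]
  have hc : ContinuousOn (fun t => GE V t (fun y => CP V t u u y)) (Icc 0 T) :=
    ((AL.cp V hu0 hu0).GE_continuousOn H).mono Icc_subset_Ici_self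
  have hd : ∀ t ∈ Ioo 0 T, HasDerivAt (fun t => GE V t (fun y => CP V t u u y))
      (- GE V t (fun y => ∑ i, CP V t u (fun x => x i) y * CP V t u (fun x => x i) y)) t :=
    fun t ht => GE_CP_hasDerivAt H hu0 hu0 ht.1
  have hcp : ∀ t, 0 ≤ t → T0 (fun y => CP V t u u y) := fun t ht => CP_t0 H hu0 hu0 (by linarith)
  have hr : ∀ t ∈ Ioo 0 T, -3 * GE V t (fun y => CP V t u u y) - η / 4 ≤
      - GE V t (fun y => ∑ i, CP V t u (fun x => x i) y * CP V t u (fun x => x i) y) := by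
    intro t ht
    have ht0 : 0 ≤ t := ht.1.le
    have h1 : T0 (fun y => ∑ i, CP V t u (fun x => x i) y * CP V t u (fun x => x i) y) :=
      T0.sum Finset.univ fun i _ =>
        (CP_t0 H hu0 (T0.coord i) (by linarith)).mul (CP_t0 H hu0 (T0.coord i) (by linarith))
    have hb := beta_t010 H 1 ht0
    have h2 := GE_mono H h1 (((hcp t ht0).cmul 3).add (hb.cmul (1 / 4))) t
      fun y => rate_var H ht0 hu0 h01 y
    rw [GE_add H ((hcp t ht0).cmul 3) (hb.cmul (1 / 4)), GE_cmul, GE_cmul] at h2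
    have h3 := hβ t ⟨ht0, ht.2.le⟩
    linarith
  have hg := gron_lower hT.le (by norm_num : (0 : ℝ) ≤ 3) (by positivity : 0 ≤ η / 4) hc hd hr
  rw [hF0] at hg
  have hfin : GE V T (fun y => CP V T u u y) ≤ P * ex V (gs u) + η / 12 := by
    have hb := beta_t010 H 1 hT.le
    have hE : T0 (fun y => EP V T (gs u) y) := EP_t0 H hu.gst0 (by linarith)
    have h2 := GE_mono H (hcp T hT.le) ((hE.cmul P).add (hb.cmul (1 / 12))) T
      fun y => var_final H hT hP0 hP hu h01 y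
    rw [GE_add H (hE.cmul P) (hb.cmul (1 / 12)), GE_cmul, GE_cmul] at h2
    have h3 := hβ T ⟨hT.le, le_refl T⟩
    have h4 : GE V T (fun y => EP V T (gs u) y) = ex V (gs u) := GE_EP H hu.gst0 hT.le
    rw [h4] at h2
    linarith
  have hex : Real.exp (3 * T) ≤ 2 :=
    (Real.exp_le_exp.2 (by linarith)).trans T10b_exp
  have hE0 : 0 ≤ P * ex V (gs u) :=
    mul_nonneg hP0 (ex_nonneg _ fun x => gs_nonneg u x)
  have hb2 : GE V T (fun y => CP V T u u y) + η / 4 * T ≤
      P * ex V (gs u) + η / 2 := by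
    have : η / 4 * T ≤ η / 4 * (1 / 5) := mul_le_mul_of_nonneg_left hT1 (by positivity)
    linarith
  calc var V u ≤ Real.exp (3 * T) * (GE V T (fun y => CP V T u u y) + η / 4 * T) := hg
    _ ≤ Real.exp (3 * T) * (P * ex V (gs u) + η / 2) :=
        mul_le_mul_of_nonneg_left hb2 (Real.exp_pos _).le
    _ ≤ 2 * (P * ex V (gs u) + η / 2) :=
        mul_le_mul_of_nonneg_right hex (by positivity)
    _ = 2 * P * ex V (gs u) + η := by ring

end Pool.Agent.Lib.MP_8d00da_gt.h42k
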