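import Pool.Agent.Lib.MP_8d00da_gt.h42k.T10a
import Pool.Agent.Lib.MP_8d00da_gt.h42k.T10b
import Pool.Agent.Lib.MP_8d00da_gt.h42k.B1c
import Pool.Agent.Lib.MP_8d00da_gt.h42k.B1e

/-!
# Section 10.3: small sets
-/

namespace Pool.Agent.Lib.MP_8d00da_gt.h42k

open MeasureTheory Set Filter
open scoped Topology NNReal ENNReal ContDiff

set_option linter.unusedSectionVars false

variable {ι : Type*} [Fintype ι] [DecidableEq ι]

variable {κ M : ℝ} {V f u : (ι → ℝ) → ℝ}

/-- The rate for indicators: `level_one` for `pt V t y`, `CLe_Lop10`, `rate_le`. -/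
theorem rate_ind (H : Nice κ M V) {t : ℝ} (ht : 0 ≤ t) {B : Set (ι → ℝ)} (hB : MeasurableSet B)
    {a : ℝ} (ha0 : 0 < a) (ha1 : a ≤ 1) (y : ι → ℝ) :
    ∑ i, CP V t (B.indicator fun _ => 1) (fun x => x i) y *
        CP V t (B.indicator fun _ => 1) (fun x => x i) y ≤
      108 * Real.log (3 / a ^ 2) ^ 2 *
        (EP V t (B.indicator fun _ => 1) y * EP V t (B.indicator fun _ => 1) y) +
        (3024 * a ^ 3 + 44 * beta V 1 t y) := by
  have Hp : Nice (κ + t) (M + t) (pt V t y) := H.ptn (by linarith [H.kpos]) y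
  have h1 := level_one Hp hB (opn_nonneg _) (CLe_Lop10 H ht y)
  have h2 := rate_le ha0 ha1 (pr_nonneg (pt V t y) B) (pr_le_one Hp hB)
    (opn_nonneg (CM (pt V t y)))
  have e1 : ∑ i, CP V t (B.indicator fun _ => 1) (fun x => x i) y *
        CP V t (B.indicator fun _ => 1) (fun x => x i) y =
      ∑ i, cov (pt V t y) (B.indicator fun _ => 1) (fun x => x i) ^ 2 := by
    refine Finset.sum_congr rfl fun i _ => ?_
    unfold CP
    ring
  have e2 : (if 3 < opn (CM (pt V t y)) then opn (CM (pt V t y)) else 0) = beta V 1 t y := by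
    unfold beta Lop
    rw [mul_one]
  have e3 : EP V t (B.indicator fun _ => 1) y * EP V t (B.indicator fun _ => 1) y =
      pr (pt V t y) B ^ 2 := by
    unfold EP pr
    ring
  rw [e1, e3, ← e2]
  exact h1.trans h2

private theorem T10c_pt_zero (V : (ι → ℝ) → ℝ) : pt V 0 0 = V := by
  funext x
  unfold pt dt
  simp

private theorem T10c_sum_t0 (H : Nice κ M V) (hf : T0 f) {t : ℝ} (ht : -κ < t) :
    T0 (fun y => ∑ i, CP V t f (fun x => x i) y * CP V t f (fun x => x i) y) :=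
  T0.sum _ fun i _ => (CP_t0 H hf (T0.coord i) ht).mul (CP_t0 H hf (T0.coord i) ht)

/-- Gronwall for `t ↦ GE_t b_t²`, `b_t = ν_{t,y}(B)` (`GE_EP_mul_hasDerivAt`, `gron_upper`,
`AL.GE_continuousOn`, `GE_zero`, `small_num`). -/
theorem GE_sq_le (H : Nice κ M V) {T η : ℝ} (hT : 0 < T) (hT1 : T ≤ 1) {B : Set (ι → ℝ)}
    (hB : MeasurableSet B) (ha0 : 0 < pr V B) (ha1 : pr V B ≤ (1 / 16) ^ 8)
    (hη0 : 0 ≤ η) (hη : η ≤ pr V B ^ 3) (hβ : ∀ t ∈ Icc 0 T, GE V t (beta V 1 t) ≤ η)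
    (hΛ : 108 * Real.log (3 / pr V B ^ 2) ^ 2 * T ≤ 1 / 8 * Real.log (1 / pr V B)) :
    GE V T (fun y => EP V T (B.indicator fun _ => 1) y * EP V T (B.indicator fun _ => 1) y) ≤
      pr V B * √(pr V B) / 200 := by
  have hκ := H.kpos
  have hf : T0 (B.indicator fun _ => (1 : ℝ)) := t0_ind hB
  have ha1' : pr V B ≤ 1 := ha1.trans (by norm_num)
  set a := pr V B with ha
  set Λ := 108 * Real.log (3 / a ^ 2) ^ 2 with hΛd
  have hΛ0 : 0 ≤ Λ := by positivity
  have hb0 : 0 ≤ 3024 * a ^ 3 + 44 * η := by positivity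
  have hAL : AL V (fun t y => EP V t (B.indicator fun _ => 1) y *
      EP V t (B.indicator fun _ => 1) y) := (AL.ep _ hf).mul (AL.ep _ hf)
  have hc : ContinuousOn (fun t => GE V t (fun y => EP V t (B.indicator fun _ => 1) y *
      EP V t (B.indicator fun _ => 1) y)) (Icc 0 T) :=
    (AL.GE_continuousOn H hAL).mono Icc_subset_Ici_self
  have key := gron_upper hT.le hΛ0 hb0 hc
    (fun t ht => GE_EP_mul_hasDerivAt H hf hf ht.1) ?_
  · have e0 : GE V 0 (fun y => EP V 0 (B.indicator fun _ => 1) y *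
        EP V 0 (B.indicator fun _ => 1) y) = a ^ 2 := by
      rw [GE_zero H]
      show EP V 0 (B.indicator fun _ => 1) 0 * EP V 0 (B.indicator fun _ => 1) 0 = a ^ 2
      unfold EP
      rw [T10c_pt_zero, ha]
      unfold pr
      ring
    rw [e0] at key
    exact key.trans (small_num ha0 ha1 hT.le hT1 hΛ hη)
  · intro t ht
    have ht0 : 0 ≤ t := ht.1.le
    have htκ : -κ < t := by linarith [ht.1]
    have hEt : T0 (fun y => EP V t (B.indicator fun _ => 1) y *
        EP V t (B.indicator fun _ => 1) y) := hAL.t0 H htκ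
    have hβt := beta_t010 H 1 ht0
    have h1 : T0 (fun y => Λ * (EP V t (B.indicator fun _ => 1) y *
        EP V t (B.indicator fun _ => 1) y)) := hEt.cmul Λ
    have h2 : T0 (fun y => 3024 * a ^ 3 + 44 * beta V 1 t y) := (T0.const _).add (hβt.cmul 44)
    calc GE V t (fun y => ∑ i, CP V t (B.indicator fun _ => 1) (fun x => x i) y *
            CP V t (B.indicator fun _ => 1) (fun x => x i) y)
        ≤ GE V t (fun y => Λ * (EP V t (B.indicator fun _ => 1) y *
            EP V t (B.indicator fun _ => 1) y) + (3024 * a ^ 3 + 44 * beta V 1 t y)) :=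
          GE_mono H (T10c_sum_t0 H hf htκ) (h1.add h2) t fun y => rate_ind H ht0 hB ha0 ha1' y
      _ = Λ * GE V t (fun y => EP V t (B.indicator fun _ => 1) y *
            EP V t (B.indicator fun _ => 1) y) + (3024 * a ^ 3 + 44 * GE V t (beta V 1 t)) := by
          rw [GE_add H h1 h2, GE_cmul, GE_add H (T0.const _) (hβt.cmul 44), GE_const H, GE_cmul]
      _ ≤ _ := by
          have := hβ t ⟨ht0, ht.2.le⟩
          linarith

/-- The inequality at the final time: `lsi_supp` for `pt V T y` (constant `κ + T ≥ T`) and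
`final_pt` with `b = ν_{T,y}(u ≠ 0)`, `c = ν_{T,y}(u = 1)`. -/
theorem final_lower (H : Nice κ M V) {T : ℝ} (hT : 0 < T) (hu : Cu u)
    (h01 : ∀ x, 0 ≤ u x ∧ u x ≤ 1) {a : ℝ} (ha0 : 0 < a) (ha1 : a ≤ 1) (y : ι → ℝ) :
    T / 4 * Real.log (1 / a) * (EP V T ({x | u x = 1}.indicator fun _ => 1) y -
      EP V T ({x | u x ≠ 0}.indicator fun _ => 1) y *
        EP V T ({x | u x ≠ 0}.indicator fun _ => 1) y / √a) ≤ EP V T (gs u) y := by
  have hκ := H.kpos
  have Hp : Nice (κ + T) (M + T) (pt V T y) := H.ptn (by linarith) y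
  have huc : Continuous u := hu.smooth.continuous
  have hm1 : MeasurableSet {x | u x = 1} := huc.measurable (measurableSet_singleton 1)
  have hm0 : MeasurableSet {x | u x ≠ 0} := (huc.measurable (measurableSet_singleton 0)).compl
  have hut : T0 u := hu.t1.t0
  set b := pr (pt V T y) {x | u x ≠ 0} with hb
  set c := pr (pt V T y) {x | u x = 1} with hc
  have hc0 : 0 ≤ c := pr_nonneg _ _
  have hb1 : b ≤ 1 := pr_le_one Hp hm0
  have hb0 : 0 ≤ b := pr_nonneg _ _
  have hcb : c ≤ b := pr_mono Hp hm1 hm0 fun x hx => by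
    show u x ≠ 0
    rw [show u x = 1 from hx]
    norm_num
  have h1 := final_pt ha0 ha1 hc0 hcb hb1
  have h2 := lsi_supp Hp hu
  rw [← hb] at h2
  have h3 : c ≤ ex (pt V T y) (fun x => u x ^ 2) := by
    refine ex_mono Hp (t0_ind hm1) (hut.pow 2) fun x => ?_
    by_cases hx : u x = 1
    · rw [indicator_of_mem (show x ∈ {x | u x = 1} from hx), hx]
      norm_num
    · rw [indicator_of_notMem (show x ∉ {x | u x = 1} from hx)]
      positivity
  have hlog : 0 ≤ Real.log (1 / b) := by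
    rcases hb0.eq_or_lt with h | h
    · rw [← h]
      simp
    · exact Real.log_nonneg (by rw [le_div_iff₀ h]; linarith)
  have h4 : c * Real.log (1 / b) ≤ ex (pt V T y) (fun x => u x ^ 2) * Real.log (1 / b) :=
    mul_le_mul_of_nonneg_right h3 hlog
  have hg0 : 0 ≤ ex (pt V T y) (gs u) := ex_nonneg _ fun x => gs_nonneg u x
  have h5 : 2 / (κ + T) * ex (pt V T y) (gs u) ≤ 2 / T * ex (pt V T y) (gs u) := by
    refine mul_le_mul_of_nonneg_right ?_ hg0
    exact div_le_div_of_nonneg_left (by norm_num) hT (by linarith)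
  have h6 : 1 / 2 * Real.log (1 / a) * (c - b ^ 2 / √a) ≤ 2 / T * ex (pt V T y) (gs u) := by
    linarith
  show T / 4 * Real.log (1 / a) * (c - b * b / √a) ≤ ex (pt V T y) (gs u)
  have h7 : T / 2 * (1 / 2 * Real.log (1 / a) * (c - b ^ 2 / √a)) ≤
      T / 2 * (2 / T * ex (pt V T y) (gs u)) := mul_le_mul_of_nonneg_left h6 (by positivity)
  have h8 : T / 2 * (2 / T * ex (pt V T y) (gs u)) = ex (pt V T y) (gs u) := by
    field_simp
  rw [h8] at h7
  calc T / 4 * Real.log (1 / a) * (c - b * b / √a)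
      = T / 2 * (1 / 2 * Real.log (1 / a) * (c - b ^ 2 / √a)) := by ring
    _ ≤ _ := h7

/-- Paper 325, 10.3. -/
theorem small_set (H : Nice κ M V) {T η : ℝ} (hT : 0 < T) (hT1 : T ≤ 1) (hu : Cu u)
    (h01 : ∀ x, 0 ≤ u x ∧ u x ≤ 1) (ha0 : 0 < pr V {x | u x ≠ 0})
    (ha1 : pr V {x | u x ≠ 0} ≤ (1 / 16) ^ 8)
    (hc : pr V {x | u x ≠ 0} ≤ 100 * pr V {x | u x = 1})
    (hη0 : 0 ≤ η) (hη : η ≤ pr V {x | u x ≠ 0} ^ 3)
    (hβ : ∀ t ∈ Icc 0 T, GE V t (beta V 1 t) ≤ η)
    (hΛ : 108 * Real.log (3 / pr V {x | u x ≠ 0} ^ 2) ^ 2 * T ≤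
      1 / 8 * Real.log (1 / pr V {x | u x ≠ 0})) :
    T * Real.log (1 / pr V {x | u x ≠ 0}) * pr V {x | u x ≠ 0} ≤ 800 * ex V (gs u) := by
  have hκ := H.kpos
  have hTκ : -κ < T := by linarith
  have huc : Continuous u := hu.smooth.continuous
  have hm1 : MeasurableSet {x | u x = 1} := huc.measurable (measurableSet_singleton 1)
  have hm0 : MeasurableSet {x | u x ≠ 0} := (huc.measurable (measurableSet_singleton 0)).compl
  have hsq := GE_sq_le H hT hT1 hm0 ha0 ha1 hη0 hη hβ hΛ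
  have ha1' : pr V {x | u x ≠ 0} ≤ 1 := ha1.trans (by norm_num)
  have hfin := final_lower H hT hu h01 ha0 ha1'
  set a := pr V {x | u x ≠ 0} with ha
  have hsa : 0 < √a := Real.sqrt_pos.2 ha0
  have hl0 : 0 ≤ Real.log (1 / a) := Real.log_nonneg (by rw [le_div_iff₀ ha0]; linarith)
  have t1 : T0 (EP V T ({x | u x = 1}.indicator fun _ => 1)) := EP_t0 H (t0_ind hm1) hTκ
  have t0 : T0 (EP V T ({x | u x ≠ 0}.indicator fun _ => 1)) := EP_t0 H (t0_ind hm0) hTκ
  have t2 : T0 (fun y => EP V T ({x | u x ≠ 0}.indicator fun _ => 1) y *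
      EP V T ({x | u x ≠ 0}.indicator fun _ => 1) y) := t0.mul t0
  have tg : T0 (EP V T (gs u)) := EP_t0 H hu.t1.gst0 hTκ
  have e1 : GE V T (EP V T (gs u)) = ex V (gs u) := GE_EP H hu.t1.gst0 hT.le
  have e2 : GE V T (EP V T ({x | u x = 1}.indicator fun _ => 1)) = pr V {x | u x = 1} :=
    GE_EP H (t0_ind hm1) hT.le
  have t3 : T0 (fun y => 1 / √a * (EP V T ({x | u x ≠ 0}.indicator fun _ => 1) y *
      EP V T ({x | u x ≠ 0}.indicator fun _ => 1) y)) := t2.cmul _
  have h1 : GE V T (fun y => T / 4 * Real.log (1 / a) *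
      (EP V T ({x | u x = 1}.indicator fun _ => 1) y -
        1 / √a * (EP V T ({x | u x ≠ 0}.indicator fun _ => 1) y *
        EP V T ({x | u x ≠ 0}.indicator fun _ => 1) y))) ≤ GE V T (EP V T (gs u)) := by
    refine GE_mono H ((t1.sub t3).cmul _) tg T fun y => ?_
    refine le_trans (le_of_eq ?_) (hfin y)
    ring
  rw [GE_cmul, GE_sub H t1 t3, GE_cmul, e1, e2] at h1
  have h2 : 1 / √a * GE V T (fun y => EP V T ({x | u x ≠ 0}.indicator fun _ => 1) y *
      EP V T ({x | u x ≠ 0}.indicator fun _ => 1) y) ≤ a / 200 := by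
    calc _ ≤ 1 / √a * (a * √a / 200) := mul_le_mul_of_nonneg_left hsq (by positivity)
      _ = a / 200 := by field_simp
  have h3 : a / 200 ≤ pr V {x | u x = 1} - 1 / √a *
      GE V T (fun y => EP V T ({x | u x ≠ 0}.indicator fun _ => 1) y *
      EP V T ({x | u x ≠ 0}.indicator fun _ => 1) y) := by linarith
  have h4 : T / 4 * Real.log (1 / a) * (a / 200) ≤ ex V (gs u) :=
    le_trans (mul_le_mul_of_nonneg_left h3 (by positivity)) h1
  nlinarith [h4]

end Pool.Agent.Lib.MP_8d00da_gt.h42k
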