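import Pool.Agent.Lib.MP_8d00da_gt.h42k.T1a
import Pool.Agent.Lib.MP_8d00da_gt.h42k.KC2

/-!
# Section 10.4: from test functions to `T1`
-/

namespace Pool.Agent.Lib.MP_8d00da_gt.h42k

open MeasureTheory Set Filter
open scoped Topology NNReal ENNReal ContDiff

set_option linter.unusedSectionVars false

variable {ι : Type*} [Fintype ι] [DecidableEq ι]

variable {κ M : ℝ} {V f u : (ι → ℝ) → ℝ}

open scoped Convolution in
private theorem T10e_moll {h : (ι → ℝ) → ℝ} (hh : ContDiff ℝ 1 h) (hc : HasCompactSupport h)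
    (φ : ContDiffBump (0 : ι → ℝ)) (i : ι) :
    pd i (φ.normed volume ⋆[ContinuousLinearMap.lsmul ℝ ℝ, volume] h) =
      φ.normed volume ⋆[ContinuousLinearMap.lsmul ℝ ℝ, volume] pd i h := by
  funext x
  have hli : LocallyIntegrable (φ.normed (volume : Measure (ι → ℝ))) volume :=
    φ.continuous_normed.locallyIntegrable
  have h1 := hc.hasFDerivAt_convolution_right (ContinuousLinearMap.lsmul ℝ ℝ) hli hh x
  have h2 : pd i (φ.normed volume ⋆[ContinuousLinearMap.lsmul ℝ ℝ, volume] h) x =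
      (φ.normed volume ⋆[(ContinuousLinearMap.lsmul ℝ ℝ).precompR (ι → ℝ), volume] fderiv ℝ h) x
        (Pi.single i 1) := by
    unfold pd
    rw [h1.fderiv]
  rw [h2, convolution_precompR_apply _ hli (hc.fderiv ℝ) (hh.continuous_fderiv (by norm_num))]
  rfl

open scoped Convolution in
private theorem T10e_unif {h : (ι → ℝ) → ℝ} (hh : Continuous h) (hc : HasCompactSupport h) {ε : ℝ}
    (hε : 0 < ε) : ∃ δ : ℝ, 0 < δ ∧ ∀ φ : ContDiffBump (0 : ι → ℝ), φ.rOut ≤ δ → ∀ x,
      |(φ.normed volume ⋆[ContinuousLinearMap.lsmul ℝ ℝ, volume] h) x - h x| ≤ ε := by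
  have hu : UniformContinuous h := hc.uniformContinuous_of_continuous hh
  obtain ⟨δ, hδ, hδ'⟩ := Metric.uniformContinuous_iff.1 hu ε hε
  refine ⟨δ, hδ, fun φ hφ x => ?_⟩
  rw [← Real.dist_eq]
  exact φ.dist_normed_convolution_le hh.aestronglyMeasurable fun y hy =>
    (hδ' ((Metric.mem_ball.1 hy).trans_le hφ)).le

private theorem T10e_pd0 {f : (ι → ℝ) → ℝ} (hf : ContDiff ℝ 1 f) (i : ι) : Continuous (pd i f) :=
  (hf.continuous_fderiv (by norm_num)).clm_apply continuous_const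

private theorem T10e_pdc {f : (ι → ℝ) → ℝ} (hc : HasCompactSupport f) (i : ι) :
    HasCompactSupport (pd i f) :=
  (hc.fderiv ℝ).comp_left (g := fun L : (ι → ℝ) →L[ℝ] ℝ => L (Pi.single i 1)) rfl

private theorem T10e_t1 {g : (ι → ℝ) → ℝ} (hg : ContDiff ℝ 1 g) (hc : HasCompactSupport g) : T1 g :=
  ⟨hg, PG.of_compact hg.continuous hc, fun i => PG.of_compact (T10e_pd0 hg i) (T10e_pdc hc i)⟩

/-- Mollification of a `C¹` function with compact support: uniformly close with its derivatives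
(bounded by `ε` times the indicator of a fixed ball, in the form: supports in a fixed compact set).
Use `mol`, `exists_AI`, `KC1_moll` (KC1.lean) or `ContDiffBump.convolution`. -/
theorem moll_c1 {g : (ι → ℝ) → ℝ} (hg : ContDiff ℝ 1 g) (hc : HasCompactSupport g) {ε : ℝ}
    (hε : 0 < ε) : ∃ φ, Cc φ ∧ (∀ x, |φ x - g x| ≤ ε) ∧ ∀ i x, |pd i φ x - pd i g x| ≤ ε := by
  obtain ⟨δ0, hδ0, h0⟩ := T10e_unif hg.continuous hc hε
  have h1 : ∀ i, ∃ δ : ℝ, 0 < δ ∧ ∀ φ : ContDiffBump (0 : ι → ℝ), φ.rOut ≤ δ → ∀ x,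
      |(MeasureTheory.convolution (φ.normed volume) (pd i g) (ContinuousLinearMap.lsmul ℝ ℝ)
        volume) x - pd i g x| ≤ ε := fun i => T10e_unif (T10e_pd0 hg i) (T10e_pdc hc i) hε
  choose δ hδ h1 using h1
  obtain ⟨r, hr, hr0, hri⟩ : ∃ r : ℝ, 0 < r ∧ r ≤ δ0 ∧ ∀ i, r ≤ δ i := by
    have h2 : ∀ S : Finset ι, ∃ r : ℝ, 0 < r ∧ r ≤ δ0 ∧ ∀ i ∈ S, r ≤ δ i := by
      intro S
      induction S using Finset.induction_on with
      | empty => exact ⟨δ0, hδ0, le_rfl, fun i hi => absurd hi (Finset.notMem_empty i)⟩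
      | insert a s ha ih =>
        obtain ⟨r, hr, hr0, hrs⟩ := ih
        refine ⟨min r (δ a), lt_min hr (hδ a), (min_le_left _ _).trans hr0, fun i hi => ?_⟩
        rcases Finset.mem_insert.1 hi with h | h
        · rw [h]
          exact min_le_right _ _
        · exact (min_le_left _ _).trans (hrs i h)
    obtain ⟨r, hr, hr0, hrs⟩ := h2 Finset.univ
    exact ⟨r, hr, hr0, fun i => hrs i (Finset.mem_univ i)⟩
  let φ : ContDiffBump (0 : ι → ℝ) := ⟨r / 2, r, half_pos hr, half_lt_self hr⟩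
  have hφ : φ.rOut = r := rfl
  refine ⟨MeasureTheory.convolution (φ.normed volume) g (ContinuousLinearMap.lsmul ℝ ℝ) volume,
    ⟨φ.hasCompactSupport_normed.contDiff_convolution_left _ φ.contDiff_normed
      hg.continuous.locallyIntegrable, φ.hasCompactSupport_normed.convolution _ hc⟩,
    fun x => h0 φ (by rw [hφ]; exact hr0) x, fun i x => ?_⟩
  rw [T10e_moll hg hc φ i]
  exact h1 i φ (by rw [hφ]; exact hri i) x

/-- Poincare for `C¹` functions with compact support. -/
theorem pi_c1 (H : Nice κ M V) {C : ℝ} (hC : 0 ≤ C)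
    (h : ∀ φ, Cc φ → var V φ ≤ C * ex V (gs φ)) {g : (ι → ℝ) → ℝ} (hg : ContDiff ℝ 1 g)
    (hc : HasCompactSupport g) : var V g ≤ C * ex V (gs g) := by
  have hT : T1 g := T10e_t1 hg hc
  have hB : ∀ i, ∃ B : ℝ, ∀ x, ‖pd i g x‖ ≤ B := fun i =>
    (T10e_pd0 hg i).bounded_above_of_compact_support (T10e_pdc hc i)
  choose B hB using hB
  have hE0 : 0 ≤ ex V (gs g) := ex_nonneg V fun x => Finset.sum_nonneg fun i _ => _root_.sq_nonneg _
  have hv0 : 0 ≤ var V g := var_nonneg H hT.t0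
  -- the bound for every `ε`
  have key : ∀ ε : ℝ, 0 < ε → √(var V g) ≤
      √(C * (ex V (gs g) + ∑ i, (2 * B i * ε + ε ^ 2))) + ε := by
    intro ε hε
    obtain ⟨φ, hφ, hφ0, hφ1⟩ := moll_c1 hg hc hε
    have hd : T0 (fun x => g x - φ x) := hT.t0.sub hφ.t1.t0
    have e1 : (fun x => φ x + (g x - φ x)) = g := by
      funext x
      ring
    have h1 := sd_add_le H hφ.t1.t0 hd
    rw [e1] at h1
    have h2 : √(var V (fun x => g x - φ x)) ≤ ε := by
      rw [Real.sqrt_le_left hε.le]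
      have h3 := var_le H hd 0
      refine h3.trans ?_
      have h4 : ex V (fun x => (g x - φ x - 0) ^ 2) ≤ ex V (fun _ => ε ^ 2) := by
        refine ex_mono H ((hd.sub (T0.const 0)).pow 2) (T0.const _) fun x => ?_
        have h5 := hφ0 x
        rw [abs_sub_comm] at h5
        rw [sub_zero]
        exact sq_le_sq' (by linarith [neg_abs_le (g x - φ x)]) (by linarith [le_abs_self (g x - φ x)])
      rwa [ex_const H] at h4
    have h6 : ex V (gs φ) ≤ ex V (gs g) + ∑ i, (2 * B i * ε + ε ^ 2) := by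
      have h7 : ex V (gs φ) ≤ ex V (fun x => gs g x + ∑ i, (2 * B i * ε + ε ^ 2)) := by
        refine ex_mono H hφ.t1.gst0 (hT.gst0.add (T0.const _)) fun x => ?_
        unfold gs
        rw [← Finset.sum_add_distrib]
        refine Finset.sum_le_sum fun i _ => ?_
        have h8 := hφ1 i x
        have h9 := hB i x
        rw [Real.norm_eq_abs] at h9
        have h10 : |pd i φ x| ≤ |pd i g x| + ε := by
          have h11 := abs_sub_abs_le_abs_sub (pd i φ x) (pd i g x)
          linarith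
        have h12 : pd i φ x ^ 2 ≤ (|pd i g x| + ε) ^ 2 := by
          rw [← sq_abs (pd i φ x)]
          exact pow_le_pow_left₀ (abs_nonneg _) h10 2
        have h13 : (|pd i g x| + ε) ^ 2 = pd i g x ^ 2 + (2 * |pd i g x| * ε + ε ^ 2) := by
          rw [← sq_abs (pd i g x)]
          ring
        nlinarith
      rwa [ex_add H hT.gst0 (T0.const _), ex_const H] at h7
    have h14 : √(var V φ) ≤ √(C * (ex V (gs g) + ∑ i, (2 * B i * ε + ε ^ 2))) :=
      Real.sqrt_le_sqrt ((h φ hφ).trans (mul_le_mul_of_nonneg_left h6 hC))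
    linarith
  have hlim : Tendsto (fun ε : ℝ => √(C * (ex V (gs g) + ∑ i, (2 * B i * ε + ε ^ 2))) + ε)
      (𝓝[>] 0) (𝓝 (√(C * ex V (gs g)))) := by
    have hcont : Continuous fun ε : ℝ =>
        √(C * (ex V (gs g) + ∑ i, (2 * B i * ε + ε ^ 2))) + ε := by
      fun_prop
    have h1 := hcont.tendsto 0
    have h2 : √(C * (ex V (gs g) + ∑ i, (2 * B i * (0 : ℝ) + 0 ^ 2))) + 0 =
        √(C * ex V (gs g)) := by simp
    simp only [h2] at h1
    exact h1.mono_left nhdsWithin_le_nhds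
  have h1 : √(var V g) ≤ √(C * ex V (gs g)) :=
    ge_of_tendsto hlim (eventually_nhdsWithin_of_forall fun ε hε => key ε hε)
  exact (Real.sqrt_le_sqrt_iff (mul_nonneg hC hE0)).1 h1

/-- Cut-off (`exists_cut`): `χ_k f → f`, `∇(χ_k f) → ∇f` in `L²(ν)`. -/
theorem PI_of_cc (H : Nice κ M V) {C : ℝ} (hC : 0 ≤ C)
    (h : ∀ φ, Cc φ → var V φ ≤ C * ex V (gs φ)) : PI V C := by
  intro f hf
  obtain ⟨D, χ, hχ, hb, h1, hgs, -⟩ := exists_cut (ι := ι)
  have hE0 : 0 ≤ ex V (gs f) := ex_nonneg V fun x => Finset.sum_nonneg fun i _ => _root_.sq_nonneg _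
  set E : ℝ := ex V (gs f) with hE
  set F : ℝ := ex V (fun x => f x ^ 2) with hF
  set G : ℝ := ex V (fun x => f x ^ 2 * sq x) with hG
  have hG0 : 0 ≤ G := ex_nonneg V fun x => mul_nonneg (_root_.sq_nonneg _) (sq_nn x)
  have key : ∀ k : ℕ, √(var V f) ≤
      √(C * ((1 + 1 / ((k : ℝ) + 1)) * E + (1 + ((k : ℝ) + 1)) * (D / ((k : ℝ) + 1) ^ 2 * F)))
        + √(G / ((k : ℝ) + 1) ^ 2) := by
    intro k
    have hk : (0 : ℝ) < (k : ℝ) + 1 := by positivity
    have hχ1 : T1 (χ k) := (hχ k).t1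
    have hfk : T1 (fun x => χ k x * f x) := hχ1.mul hf
    have hd : T0 (fun x => f x - χ k x * f x) := hf.t0.sub hfk.t0
    have e1 : (fun x => χ k x * f x + (f x - χ k x * f x)) = f := by
      funext x
      ring
    have h2 := sd_add_le H hfk.t0 hd
    rw [e1] at h2
    have h3 : √(var V (fun x => f x - χ k x * f x)) ≤ √(G / ((k : ℝ) + 1) ^ 2) := by
      apply Real.sqrt_le_sqrt
      refine (var_le H hd 0).trans ?_
      have h4 : ex V (fun x => (f x - χ k x * f x - 0) ^ 2) ≤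
          ex V (fun x => 1 / ((k : ℝ) + 1) ^ 2 * (f x ^ 2 * sq x)) := by
        refine ex_mono H ((hd.sub (T0.const 0)).pow 2)
          (((hf.t0.pow 2).mul T0.sqf).cmul _) fun x => ?_
        have e2 : (f x - χ k x * f x - 0) ^ 2 = f x ^ 2 * (1 - χ k x) ^ 2 := by ring
        rw [e2]
        rcases le_or_gt (sq x) (((k : ℝ) + 1) ^ 2) with h5 | h5
        · rw [h1 k x h5]
          have h6 := sq_nn x
          have : f x ^ 2 * (1 - 1) ^ 2 = 0 := by ring
          rw [this]
          positivity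
        · have h6 : (1 - χ k x) ^ 2 ≤ 1 := by
            have h7 := hb k x
            nlinarith [h7.1, h7.2]
          have h8 : 1 ≤ 1 / ((k : ℝ) + 1) ^ 2 * sq x := by
            rw [one_div, inv_mul_eq_div, le_div_iff₀ (by positivity)]
            linarith
          calc f x ^ 2 * (1 - χ k x) ^ 2 ≤ f x ^ 2 * (1 / ((k : ℝ) + 1) ^ 2 * sq x) :=
                mul_le_mul_of_nonneg_left (h6.trans h8) (_root_.sq_nonneg _)
            _ = _ := by ring
      rw [ex_cmul] at h4
      refine h4.trans (le_of_eq ?_)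
      rw [hG]
      ring
    have h9 : var V (fun x => χ k x * f x) ≤ C * ex V (gs (fun x => χ k x * f x)) :=
      pi_c1 H hC h hfk.c1 ((hχ k).supp.mul_right)
    have h10 : ex V (gs (fun x => χ k x * f x)) ≤
        (1 + 1 / ((k : ℝ) + 1)) * E + (1 + ((k : ℝ) + 1)) * (D / ((k : ℝ) + 1) ^ 2 * F) := by
      have h11 : ex V (gs (fun x => χ k x * f x)) ≤
          ex V (fun x => (1 + 1 / ((k : ℝ) + 1)) * gs f x +
            (1 + ((k : ℝ) + 1)) * (D / ((k : ℝ) + 1) ^ 2) * f x ^ 2) := by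
        refine ex_mono H hfk.gst0 ((hf.gst0.cmul _).add ((hf.t0.pow 2).cmul _)) fun x => ?_
        have h12 : ∀ i, pd i (fun x => χ k x * f x) x ^ 2 ≤
            (1 + 1 / ((k : ℝ) + 1)) * pd i f x ^ 2 +
              (1 + ((k : ℝ) + 1)) * (pd i (χ k) x ^ 2 * f x ^ 2) := by
          intro i
          rw [pd_mul (hχ1.c1.differentiable (by norm_num)) (hf.c1.differentiable (by norm_num))]
          set a : ℝ := χ k x * pd i f x with ha
          set b : ℝ := pd i (χ k) x * f x with hb'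
          have h13 : a ^ 2 ≤ pd i f x ^ 2 := by
            rw [ha, mul_pow]
            have h14 : χ k x ^ 2 ≤ 1 := by
              have h7 := hb k x
              nlinarith [h7.1, h7.2]
            nlinarith [_root_.sq_nonneg (pd i f x)]
          have h15 : (b + a) ^ 2 ≤ (1 + 1 / ((k : ℝ) + 1)) * a ^ 2 +
              (1 + ((k : ℝ) + 1)) * b ^ 2 := by
            have h16 : (1 + 1 / ((k : ℝ) + 1)) * a ^ 2 + (1 + ((k : ℝ) + 1)) * b ^ 2 -
                (b + a) ^ 2 = (a - ((k : ℝ) + 1) * b) ^ 2 / ((k : ℝ) + 1) := by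
              field_simp
              ring
            have h17 : 0 ≤ (a - ((k : ℝ) + 1) * b) ^ 2 / ((k : ℝ) + 1) := by positivity
            linarith
          have h18 : pd i (χ k) x ^ 2 * f x ^ 2 = b ^ 2 := by
            rw [hb']
            ring
          rw [h18]
          have h19 : (1 + 1 / ((k : ℝ) + 1)) * a ^ 2 ≤
              (1 + 1 / ((k : ℝ) + 1)) * pd i f x ^ 2 :=
            mul_le_mul_of_nonneg_left h13 (by positivity)
          linarith
        have h20 : gs (fun x => χ k x * f x) x ≤ (1 + 1 / ((k : ℝ) + 1)) * gs f x +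
            (1 + ((k : ℝ) + 1)) * (gs (χ k) x * f x ^ 2) := by
          unfold gs
          rw [Finset.sum_mul, Finset.mul_sum, Finset.mul_sum, ← Finset.sum_add_distrib]
          exact Finset.sum_le_sum fun i _ => h12 i
        refine h20.trans ?_
        have h21 : gs (χ k) x * f x ^ 2 ≤ D / ((k : ℝ) + 1) ^ 2 * f x ^ 2 :=
          mul_le_mul_of_nonneg_right (hgs k x) (_root_.sq_nonneg _)
        have h22 : (1 + ((k : ℝ) + 1)) * (gs (χ k) x * f x ^ 2) ≤
            (1 + ((k : ℝ) + 1)) * (D / ((k : ℝ) + 1) ^ 2 * f x ^ 2) :=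
          mul_le_mul_of_nonneg_left h21 (by positivity)
        linarith
      rw [ex_add H (hf.gst0.cmul _) ((hf.t0.pow 2).cmul _), ex_cmul, ex_cmul] at h11
      refine h11.trans (le_of_eq ?_)
      rw [hE, hF]
      ring
    have h23 : √(var V (fun x => χ k x * f x)) ≤
        √(C * ((1 + 1 / ((k : ℝ) + 1)) * E + (1 + ((k : ℝ) + 1)) * (D / ((k : ℝ) + 1) ^ 2 * F))) :=
      Real.sqrt_le_sqrt (h9.trans (mul_le_mul_of_nonneg_left h10 hC))
    linarith
  have hlim : Tendsto (fun k : ℕ =>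
      √(C * ((1 + 1 / ((k : ℝ) + 1)) * E + (1 + ((k : ℝ) + 1)) * (D / ((k : ℝ) + 1) ^ 2 * F)))
        + √(G / ((k : ℝ) + 1) ^ 2)) atTop (𝓝 (√(C * E))) := by
    have hr : Tendsto (fun k : ℕ => 1 / ((k : ℝ) + 1)) atTop (𝓝 0) :=
      tendsto_one_div_add_atTop_nhds_zero_nat
    have hcont : Continuous fun r : ℝ =>
        √(C * ((1 + r) * E + (r ^ 2 + r) * (D * F))) + √(G * r ^ 2) := by
      fun_prop
    have h2 := (hcont.tendsto 0).comp hr
    have h3 : √(C * ((1 + 0) * E + ((0 : ℝ) ^ 2 + 0) * (D * F))) + √(G * 0 ^ 2) = √(C * E) := by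
      simp
    rw [h3] at h2
    refine h2.congr fun k => ?_
    have hk : ((k : ℝ) + 1) ≠ 0 := by positivity
    simp only [Function.comp_apply]
    congr 2
    · congr 2
      field_simp
    · field_simp
  have h2 : √(var V f) ≤ √(C * E) := ge_of_tendsto' hlim key
  exact (Real.sqrt_le_sqrt_iff (mul_nonneg hC hE0)).1 h2

end Pool.Agent.Lib.MP_8d00da_gt.h42k
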