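import Pool.Agent.Lib.MP_8d00da_gt.h42k.KFinal
import Pool.Agent.Lib.MP_8d00da_gt.h42k.T11b

/-!
# From Theorem R to the KLS inequality with `(log log n)³` (paper 336, R.11)
-/

namespace Pool.Agent.Lib.MP_8d00da_gt.h42k

open MeasureTheory Set Filter
open Pool.Agent.Lib.MP_8d00da_gt.h42 (LogConc)
open Pool.Agent.Lib.MP_8d00da_gt.h25 (PoincareWith LinPoincareWith)
open Pool.Agent.Lib.MP_8d00da_gt.h42s (Vn)
open scoped Topology NNReal ENNReal ContDiff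

/-- The KLS inequality with the factor `C (log log n)³`, from Theorem R. -/
theorem kls_cube_of_PIR {C₅ : ℝ} (hC₅ : 0 < C₅) (h5 : PIR C₅) :
    ∃ C : ℝ, 0 < C ∧ ∀ (n : ℕ) (h : EuclideanSpace ℝ (Fin n) → ℝ),
    (∀ x, 0 ≤ h x) → Measurable h →
      (∀ (x y : EuclideanSpace ℝ (Fin n)) (a b : ℝ), 0 ≤ a → 0 ≤ b → a + b = 1 →
        h x ^ a * h y ^ b ≤ h (a • x + b • y)) →
      ∀ μ : Measure (EuclideanSpace ℝ (Fin n)),
        μ = volume.withDensity (fun x => ENNReal.ofReal (h x)) →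
      IsProbabilityMeasure μ → ∀ D : ℝ, LinPoincareWith μ D →
      PoincareWith μ (C * Real.log (Real.log (n + 16)) ^ 3 * D) := by
  obtain ⟨C₀, hC₀, hQ⟩ := qk_final
  obtain ⟨C4, hC4, hP⟩ := thmP11 (by norm_num) opk_128 hC₅ h5 hQ
  refine ⟨√C4, Real.sqrt_pos.2 hC4, fun n h h0 hm hlc μ hμ hprob D hD => ?_⟩
  have h2 : 0 ≤ lln n := zero_le_one.trans (one_le_lln n)
  have h3 : 0 ≤ C4 * lln n ^ 6 := by positivity
  have hlc' : LogConc h := fun a ha0 ha1 x y =>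
    hlc x y (1 - a) a (by linarith) ha0.le (by ring)
  have hPn : ∀ (κ M : ℝ) (V : (Fin n → ℝ) → ℝ), Nice κ M V → CLe V 1 →
      PI V (C4 * lln n ^ 6) := by
    intro κ M V H h1
    have h := hP (Fin n) κ M V H h1
    rwa [Fintype.card_fin] at h
  have h4 := kls_of_PI h3 hPn h0 hm hlc' hμ hD
  have e : √(C4 * lln n ^ 6) = √C4 * Real.log (Real.log (n + 16)) ^ 3 := by
    rw [Real.sqrt_mul hC4.le, show lln n ^ 6 = (lln n ^ 3) ^ 2 by ring,
      Real.sqrt_sq (by positivity)]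
    rfl
  rwa [e] at h4

end Pool.Agent.Lib.MP_8d00da_gt.h42k
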