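import Pool.Agent.Lib.MP_8d00da_gt.h42k.T11c

/-!
# The case of a universal constant in the quadratic KLS inequality: the factor `(log log n)^{3/2}`
-/

namespace Pool.Agent.Lib.MP_8d00da_gt.h42k

open MeasureTheory Set Filter
open Pool.Agent.Lib.MP_8d00da_gt.h42 (LogConc)
open Pool.Agent.Lib.MP_8d00da_gt.h25 (PoincareWith LinPoincareWith)
open Pool.Agent.Lib.MP_8d00da_gt.h42s (Vn)
open scoped Topology NNReal ENNReal ContDiff

set_option linter.unusedSectionVars false

private theorem T11d_ln_ge (n : ℕ) : 2.77 ≤ ln n := by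
  have h2 := Real.log_two_gt_d9
  have h16 : Real.log 16 = 4 * Real.log 2 := by
    rw [show (16 : ℝ) = 2 ^ 4 by norm_num, Real.log_pow]; norm_num
  have h : Real.log 16 ≤ ln n := by
    unfold ln
    apply Real.log_le_log (by norm_num)
    have : (0 : ℝ) ≤ n := Nat.cast_nonneg n
    linarith
  linarith

/-- The logarithm of `1/T` is at most `C loglog (n+16)`. -/
private theorem T11d_log {a c : ℝ} (ha : 2 ≤ a) (hc : 0 < c) (hc1 : c ≤ 1) (n : ℕ) :
    1 + Real.log (1 / (c / (a * ln n))) ≤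
      (2 + Real.log a + Real.log (1 / c)) * lln n := by
  have hl1 := one_le_lln n
  have hln := T11d_ln_ge n
  have ha0 : 0 < a := by linarith
  have hln0 : 0 < ln n := by linarith
  have e1 : 1 / (c / (a * ln n)) = 1 / c * a * ln n := by
    field_simp
  have h1 : Real.log (1 / (c / (a * ln n))) =
      Real.log (1 / c) + Real.log a + lln n := by
    rw [e1, Real.log_mul (by positivity) hln0.ne', Real.log_mul (by positivity) ha0.ne']
    rfl
  have h5 : 0 ≤ Real.log a := Real.log_nonneg (by linarith)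
  have h6 : 0 ≤ Real.log (1 / c) := Real.log_nonneg (by
    rw [le_div_iff₀ hc]
    linarith)
  have h7 : Real.log a ≤ Real.log a * lln n := le_mul_of_one_le_right h5 hl1
  have h8 : Real.log (1 / c) ≤ Real.log (1 / c) * lln n := le_mul_of_one_le_right h6 hl1
  rw [h1]
  linarith

private theorem T11d_empty {ι : Type} [Fintype ι] [DecidableEq ι] [IsEmpty ι]
    {κ M : ℝ} {V : (ι → ℝ) → ℝ} (H : Nice κ M V) {P : ℝ} (hP : 0 ≤ P) : PI V P := by
  intro f hf
  have h1 := H.pi f hf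
  have h2 : gs f = fun _ => 0 := by
    funext x
    unfold gs
    simp
  rw [h2] at h1 ⊢
  have h3 : ex V (fun _ : ι → ℝ => (0 : ℝ)) = 0 := by
    unfold ex
    simp
  rw [h3] at h1 ⊢
  simpa using h1

/-- `thmP11` with a universal constant in the quadratic KLS inequality. -/
theorem thmP11U {C : ℝ} (hC : 0 < C) {q₀ : ℕ} (h : OPK C q₀) {C₅ : ℝ} (hC₅ : 0 < C₅)
    (h5 : PIR C₅) {C₀ : ℝ} (hQK : ∀ (ι : Type) [Fintype ι] [DecidableEq ι], QKP C₀ ι) :
    ∃ C₄ : ℝ, 0 < C₄ ∧ ∀ (ι : Type) [Fintype ι] [DecidableEq ι] (κ M : ℝ) (V : (ι → ℝ) → ℝ),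
      Nice κ M V → CLe V 1 → PI V (C₄ * lln (Fintype.card ι) ^ 3) := by
  obtain ⟨a, ha⟩ : ∃ a : ℝ, a = max C₀ 2 := ⟨_, rfl⟩
  have ha2 : 2 ≤ a := ha ▸ le_max_right _ _
  have haC : C₀ ≤ a := ha ▸ le_max_left _ _
  have ha0 : 0 < a := by linarith
  obtain ⟨c, hc, hc1, hcap⟩ := cap_of_par hC h
  obtain ⟨C₁, hC₁, hpi⟩ := pi_of_cap
  have hc1' : c ≤ 1 := by linarith
  have hD1 : 0 ≤ Real.log a := Real.log_nonneg (by linarith)
  have hD2 : 0 ≤ Real.log (1 / c) := Real.log_nonneg (by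
    rw [le_div_iff₀ hc]
    linarith)
  obtain ⟨D, hD⟩ : ∃ D : ℝ, D = 2 + Real.log a + Real.log (1 / c) := ⟨_, rfl⟩
  have hD0 : 0 < D := by linarith
  refine ⟨C₁ * (8 * (C₅ * a * D ^ 3) + 900 * a / c), by positivity, ?_⟩
  intro ι _ _ κ M V H hV
  have hl1 := one_le_lln (Fintype.card ι)
  have hl0 : 0 ≤ lln (Fintype.card ι) := by linarith
  rcases isEmpty_or_nonempty ι with hι | hι
  · exact T11d_empty H (by positivity)
  have hln := T11d_ln_ge (Fintype.card ι)
  have hlog := T11d_log ha2 hc hc1' (Fintype.card ι)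
  rw [← hD] at hlog
  have hln0 : 0 < ln (Fintype.card ι) := by linarith
  have hl3 : 1 ≤ lln (Fintype.card ι) ^ 3 := one_le_pow₀ hl1
  have hQ : QKP a ι := by
    intro κ' M' V' H' hV' t
    refine (hQK ι κ' M' V' H' hV' t).trans ?_
    exact mul_le_mul_of_nonneg_right haC (Finset.sum_nonneg fun i _ => sq_nonneg _)
  have hTe : Ttm c a (Fintype.card ι) 1 = c / (a * ln (Fintype.card ι)) := by
    unfold Ttm ln
    rw [div_one]
  have hT0 : 0 < c / (a * ln (Fintype.card ι)) := by positivity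
  have hT1 : c / (a * ln (Fintype.card ι)) ≤ 1 := by
    rw [div_le_iff₀ (by positivity)]
    nlinarith
  have hcp := hcap ι κ M _ V H (by linarith) hQ hV
    (C₅ * a * (D * lln (Fintype.card ι)) ^ 3) (by positivity) (by
      intro y hy
      rw [hTe] at hy ⊢
      have Hp := H.ptn (t := c / (a * ln (Fintype.card ι))) (by linarith [H.kpos]) y
      have Hp2 : Nice (c / (a * ln (Fintype.card ι))) (M + c / (a * ln (Fintype.card ι)))
          (pt V (c / (a * ln (Fintype.card ι))) y) :=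
        Hp.mono hT0 (by linarith [H.kpos]) le_rfl
      have h7 := h5 ι _ _ _ _ Hp2 hT1 ha2 hQ ((CLe_Lop10 H hT0.le y).mono hy)
      intro f hf
      refine (h7 f hf).trans ?_
      apply mul_le_mul_of_nonneg_right
      · apply mul_le_mul_of_nonneg_left _ (by positivity)
        apply pow_le_pow_left₀ _ hlog
        have h8 : 0 ≤ Real.log (1 / (c / (a * ln (Fintype.card ι)))) := by
          apply Real.log_nonneg
          rw [le_div_iff₀ hT0]
          linarith
        linarith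
      · exact ex_nonneg _ (gs_nonneg f))
  have hnn : 0 ≤ 8 * (C₅ * a * (D * lln (Fintype.card ι)) ^ 3) + 900 * a / c := by
    positivity
  have hfin := hpi ι κ M V H _ hnn hcp
  refine PI_of_cc H (by positivity) fun φ hφ => (hfin φ hφ).trans ?_
  apply mul_le_mul_of_nonneg_right _ (ex_nonneg _ (gs_nonneg φ))
  have h9 : 900 * a / c ≤ 900 * a / c * lln (Fintype.card ι) ^ 3 :=
    le_mul_of_one_le_right (by positivity) hl3
  calc C₁ * (8 * (C₅ * a * (D * lln (Fintype.card ι)) ^ 3) + 900 * a / c)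
      ≤ C₁ * (8 * (C₅ * a * (D * lln (Fintype.card ι)) ^ 3) +
        900 * a / c * lln (Fintype.card ι) ^ 3) := by
        apply mul_le_mul_of_nonneg_left _ hC₁.le
        linarith
    _ = C₁ * (8 * (C₅ * a * D ^ 3) + 900 * a / c) * lln (Fintype.card ι) ^ 3 := by ring

/-- The KLS inequality with the factor `C (log log n)^{3/2}`, from Theorem R and Theorem U. -/
theorem kls_three_halves {C₅ : ℝ} (hC₅ : 0 < C₅) (h5 : PIR C₅) {C₀ : ℝ}
    (hQK : ∀ (ι : Type) [Fintype ι] [DecidableEq ι], QKP C₀ ι) :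
    ∃ C : ℝ, 0 < C ∧ ∀ (n : ℕ) (h : EuclideanSpace ℝ (Fin n) → ℝ),
    (∀ x, 0 ≤ h x) → Measurable h →
      (∀ (x y : EuclideanSpace ℝ (Fin n)) (a b : ℝ), 0 ≤ a → 0 ≤ b → a + b = 1 →
        h x ^ a * h y ^ b ≤ h (a • x + b • y)) →
      ∀ μ : Measure (EuclideanSpace ℝ (Fin n)),
        μ = volume.withDensity (fun x => ENNReal.ofReal (h x)) →
      IsProbabilityMeasure μ → ∀ D : ℝ, LinPoincareWith μ D →
      PoincareWith μ (C * Real.log (Real.log (n + 16)) ^ (3 / 2 : ℝ) * D) := by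
  obtain ⟨C4, hC4, hP⟩ := thmP11U (by norm_num) opk_128 hC₅ h5 hQK
  refine ⟨√C4, Real.sqrt_pos.2 hC4, fun n h h0 hm hlc μ hμ hprob D hD => ?_⟩
  have h2 : 0 ≤ lln n := zero_le_one.trans (one_le_lln n)
  have h3 : 0 ≤ C4 * lln n ^ 3 := by positivity
  have hlc' : LogConc h := fun a ha0 ha1 x y =>
    hlc x y (1 - a) a (by linarith) ha0.le (by ring)
  have hPn : ∀ (κ M : ℝ) (V : (Fin n → ℝ) → ℝ), Nice κ M V → CLe V 1 →
      PI V (C4 * lln n ^ 3) := by
    intro κ M V H h1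
    have h := hP (Fin n) κ M V H h1
    rwa [Fintype.card_fin] at h
  have h4 := kls_of_PI h3 hPn h0 hm hlc' hμ hD
  have e : √(C4 * lln n ^ 3) = √C4 * Real.log (Real.log (n + 16)) ^ (3 / 2 : ℝ) := by
    rw [Real.sqrt_mul hC4.le, Real.sqrt_eq_rpow (lln n ^ 3), ← Real.rpow_natCast (lln n) 3,
      ← Real.rpow_mul h2]
    norm_num [lln]
  rwa [e] at h4

end Pool.Agent.Lib.MP_8d00da_gt.h42k
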