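import Pool.Agent.Lib.MP_8d00da_gt.h42k.G49b
import Pool.Agent.Lib.MP_8d00da_gt.h42k.B1a
import Pool.Agent.Lib.MP_8d00da_gt.h62a.Sym
import Pool.Agent.Lib.MP_8d00da_gt.h42u.UGauss

section

/-!
# Gaussian regularisation of a log-concave density
-/

namespace Pool.Agent.Lib.MP_8d00da_gt.h42k

open MeasureTheory Set Filter
open Pool.Agent.Lib.MP_8d00da_gt.h42 (LogConc)
open Pool.Agent.Lib.MP_8d00da_gt.h42s (Vn)
open Pool.Agent.Lib.MP_8d00da_gt.h25 (Wt cv)
open scoped Topology NNReal ENNReal ContDiff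

set_option linter.unusedSectionVars false
set_option linter.unusedVariables false

section hess

variable {ι : Type*} [Fintype ι] [DecidableEq ι]

/-- The Hessian form of a convex `C²` function is nonnegative. -/
theorem hs_nonneg_of_convex {f : (ι → ℝ) → ℝ} (hf : ContDiff ℝ 2 f) (hc : ConvexOn ℝ univ f)
    (x u : ι → ℝ) : 0 ≤ hs f x u := by
  have hg : ConvexOn ℝ univ (fun r : ℝ => f (x + r • u)) := by
    refine ⟨convex_univ, fun r _ s _ a b ha hb hab => ?_⟩
    have h1 := hc.2 (mem_univ (x + r • u)) (mem_univ (x + s • u)) ha hb hab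
    have h2 : a • (x + r • u) + b • (x + s • u) = x + (a • r + b • s) • u := by
      rw [smul_add, smul_add, smul_smul, smul_smul, add_smul, smul_eq_mul, smul_eq_mul]
      have h3 : x = a • x + b • x := by rw [← add_smul, hab, one_smul]
      nth_rewrite 3 [h3]
      abel
    rw [h2] at h1
    exact h1
  have hd : ∀ s : ℝ, HasDerivAt (fun r : ℝ => f (x + r • u)) (gd f (x + s • u) u) s :=
    fun s => (hs_line hf x u s).2
  have hm : MonotoneOn (deriv fun r : ℝ => f (x + r • u)) univ :=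
    hg.monotoneOn_deriv fun s _ => (hd s).differentiableAt
  have he : (deriv fun r : ℝ => f (x + r • u)) = fun s => gd f (x + s • u) u :=
    funext fun s => (hd s).deriv
  rw [he] at hm
  have hm' : Monotone fun s : ℝ => gd f (x + s • u) u := monotoneOn_univ.1 hm
  have h1 := hm'.deriv_nonneg (x := 0)
  rw [(hs_line hf x u 0).1.deriv] at h1
  simpa using h1

private theorem reg_pdd {f : (ι → ℝ) → ℝ} (hf : ContDiff ℝ 2 f) (j : ι) :
    Differentiable ℝ (pd j f) := by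
  have h : ContDiff ℝ ((1 + 1 : ℕ) : WithTop ℕ∞) f := by
    have e : (((1 + 1 : ℕ) : ℕ) : WithTop ℕ∞) = 2 := by norm_num
    rw [e]
    exact hf
  have := contDiff_pd h j
  exact this.differentiable (by norm_num)

theorem hs_add {f g : (ι → ℝ) → ℝ} (hf : ContDiff ℝ 2 f) (hg : ContDiff ℝ 2 g) (x u : ι → ℝ) :
    hs (fun x => f x + g x) x u = hs f x u + hs g x u := by
  unfold hs
  rw [← Finset.sum_add_distrib]
  refine Finset.sum_congr rfl fun i _ => ?_
  rw [← Finset.sum_add_distrib]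
  refine Finset.sum_congr rfl fun j _ => ?_
  have h1 : pd j (fun x => f x + g x) = fun x => pd j f x + pd j g x :=
    funext fun x => pd_add (hf.differentiable (by norm_num)) (hg.differentiable (by norm_num)) j x
  rw [h1, pd_add (reg_pdd hf j) (reg_pdd hg j)]
  ring

theorem hs_cmul {f : (ι → ℝ) → ℝ} (hf : ContDiff ℝ 2 f) (c : ℝ) (x u : ι → ℝ) :
    hs (fun x => c * f x) x u = c * hs f x u := by
  unfold hs
  rw [Finset.mul_sum]
  refine Finset.sum_congr rfl fun i _ => ?_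
  rw [Finset.mul_sum]
  refine Finset.sum_congr rfl fun j _ => ?_
  have h1 : pd j (fun x => c * f x) = fun x => c * pd j f x :=
    funext fun x => pd_cmul (hf.differentiable (by norm_num)) c j x
  rw [h1, pd_cmul (reg_pdd hf j)]
  ring

theorem hs_sq (x u : ι → ℝ) : hs sq x u = 2 * sq u := by
  have h1 : ∀ j : ι, pd j (sq : (ι → ℝ) → ℝ) = fun x => 2 * x j :=
    fun j => funext fun x => pd_sq j x
  unfold hs
  have h2 : ∀ i j : ι, pd i (pd j (sq : (ι → ℝ) → ℝ)) x = if i = j then 2 else 0 := by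
    intro i j
    rw [h1, pd_cmul ((T1.coord j).c1.differentiable (by norm_num)), pd_coord]
    split_ifs <;> ring
  simp only [h2]
  unfold sq
  rw [Finset.mul_sum]
  refine Finset.sum_congr rfl fun i _ => ?_
  rw [Finset.sum_eq_single i]
  · rw [if_pos rfl]
    ring
  · intro j _ hj
    rw [if_neg (Ne.symm hj)]
    ring
  · intro h
    exact absurd (Finset.mem_univ i) h

end hess

section aux

variable {F : Type*} [NormedAddCommGroup F] [InnerProductSpace ℝ F]

private lemma norm_sq_conv (a : ℝ) (p q : F) :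
    ‖(1 - a) • p + a • q‖ ^ 2 = (1 - a) * ‖p‖ ^ 2 + a * ‖q‖ ^ 2 - a * (1 - a) * ‖p - q‖ ^ 2 := by
  rw [norm_add_sq_real, norm_sub_sq_real, norm_smul, norm_smul, inner_smul_left, inner_smul_right,
    mul_pow, mul_pow, Real.norm_eq_abs, Real.norm_eq_abs, sq_abs, sq_abs]
  simp only [conj_trivial]
  ring

end aux

variable {n : ℕ} {B : ℝ}

private lemma log_convex {G : Vn n → ℝ} (hG : ∀ y, 0 < G y)
    (hlc : ∀ a : ℝ, 0 < a → a < 1 → ∀ x y, G ((1 - a) • x + a • y) ≤ G x ^ (1 - a) * G y ^ a) :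
    ConvexOn ℝ univ fun y => Real.log (G y) := by
  refine ⟨convex_univ, fun x _ y _ a b ha hb hab => ?_⟩
  rcases eq_or_lt_of_le hb with rfl | hb'
  · have : a = 1 := by linarith
    subst this
    simp
  rcases eq_or_lt_of_le ha with rfl | ha'
  · have : b = 1 := by linarith
    subst this
    simp
  have hb1 : b < 1 := by linarith
  have h1 := hlc b hb' hb1 x y
  have ea : 1 - b = a := by linarith
  rw [ea] at h1
  have h2 := Real.log_le_log (hG _) h1
  rw [Real.log_mul (Real.rpow_pos_of_pos (hG x) _).ne' (Real.rpow_pos_of_pos (hG y) _).ne',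
    Real.log_rpow (hG x), Real.log_rpow (hG y)] at h2
  simpa only [smul_eq_mul] using h2

private lemma log_concave {G : Vn n → ℝ} (hG : ∀ y, 0 < G y) (hlc : LogConc G) :
    ConvexOn ℝ univ fun y => - Real.log (G y) := by
  refine ⟨convex_univ, fun x _ y _ a b ha hb hab => ?_⟩
  rcases eq_or_lt_of_le hb with rfl | hb'
  · have : a = 1 := by linarith
    subst this
    simp
  rcases eq_or_lt_of_le ha with rfl | ha'
  · have : b = 1 := by linarith
    subst this
    simp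
  have hb1 : b < 1 := by linarith
  have h1 := hlc b hb' hb1 x y
  have ea : 1 - b = a := by linarith
  rw [ea] at h1
  have h2 := Real.log_le_log (mul_pos (Real.rpow_pos_of_pos (hG x) _)
    (Real.rpow_pos_of_pos (hG y) _)) h1
  rw [Real.log_mul (Real.rpow_pos_of_pos (hG x) _).ne' (Real.rpow_pos_of_pos (hG y) _).ne',
    Real.log_rpow (hG x), Real.log_rpow (hG y)] at h2
  simp only [smul_eq_mul]
  linarith

/-- the weight `z ↦ h z exp (⟨z, y⟩ / σ - ‖z‖² / (2 σ))` -/
private noncomputable def tw (σ : ℝ) (h : Vn n → ℝ) (y z : Vn n) : ℝ :=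
  Real.exp (‖y‖ ^ 2 / (2 * σ)) * (h z * h25.ker σ (y - z))

private lemma tw_mid {h : Vn n → ℝ} {σ : ℝ} (hh : ∀ z, 0 ≤ h z) {a : ℝ} (h0 : 0 < a)
    (h1 : a < 1) (x y z : Vn n) :
    tw σ h ((1 - a) • x + a • y) z = tw σ h x z ^ (1 - a) * tw σ h y z ^ a := by
  have e : ∀ y : Vn n, tw σ h y z = h z * Real.exp (‖y‖ ^ 2 / (2 * σ) - ‖y - z‖ ^ 2 / (2 * σ)) := by
    intro y
    unfold tw h25.ker
    rw [show ‖y‖ ^ 2 / (2 * σ) - ‖y - z‖ ^ 2 / (2 * σ) =
      ‖y‖ ^ 2 / (2 * σ) + -(‖y - z‖ ^ 2 / (2 * σ)) from sub_eq_add_neg _ _, Real.exp_add]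
    ring
  have e2 : h z = h z ^ (1 - a) * h z ^ a := by
    rcases eq_or_lt_of_le (hh z) with hz | hz
    · rw [← hz, Real.zero_rpow (by linarith), Real.zero_rpow h0.ne', mul_zero]
    · rw [← Real.rpow_add hz, sub_add_cancel, Real.rpow_one]
  rw [e, e, e, Real.mul_rpow (hh z) (Real.exp_pos _).le, Real.mul_rpow (hh z) (Real.exp_pos _).le,
    ← Real.exp_mul, ← Real.exp_mul]
  have e3 : h z ^ (1 - a) * Real.exp ((‖x‖ ^ 2 / (2 * σ) - ‖x - z‖ ^ 2 / (2 * σ)) * (1 - a)) *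
      (h z ^ a * Real.exp ((‖y‖ ^ 2 / (2 * σ) - ‖y - z‖ ^ 2 / (2 * σ)) * a)) =
      (h z ^ (1 - a) * h z ^ a) * (Real.exp ((‖x‖ ^ 2 / (2 * σ) - ‖x - z‖ ^ 2 / (2 * σ)) * (1 - a)) *
      Real.exp ((‖y‖ ^ 2 / (2 * σ) - ‖y - z‖ ^ 2 / (2 * σ)) * a)) := by ring
  rw [e3, ← e2, ← Real.exp_add]
  congr 2
  have e4 : (1 - a) • x + a • y - z = (1 - a) • (x - z) + a • (y - z) := by
    rw [smul_sub, smul_sub, sub_smul, sub_smul, one_smul, one_smul]
    abel
  rw [e4, norm_sq_conv, norm_sq_conv]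
  have e5 : x - z - (y - z) = x - y := by abel
  rw [e5]
  ring

private lemma G_convex {h : Vn n → ℝ} (H : Wt h B) {σ : ℝ} (hσ : 0 < σ) {a : ℝ} (h0 : 0 < a)
    (h1 : a < 1) (x y : Vn n) :
    Real.exp (‖(1 - a) • x + a • y‖ ^ 2 / (2 * σ)) * cv σ h ((1 - a) • x + a • y) ≤
      (Real.exp (‖x‖ ^ 2 / (2 * σ)) * cv σ h x) ^ (1 - a) *
      (Real.exp (‖y‖ ^ 2 / (2 * σ)) * cv σ h y) ^ a := by
  have h1a : 0 < 1 - a := by linarith
  have hi : ∀ y : Vn n, Integrable fun z => tw σ h y z := fun y =>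
    (h25.cv_integrable hσ H.meas H.abs_le y).const_mul _
  have hI : ∀ y : Vn n, ∫ z, tw σ h y z = Real.exp (‖y‖ ^ 2 / (2 * σ)) * cv σ h y := by
    intro y
    unfold tw cv
    rw [integral_const_mul]
  have hp : ∀ y : Vn n, 0 < Real.exp (‖y‖ ^ 2 / (2 * σ)) * cv σ h y := fun y =>
    mul_pos (Real.exp_pos _) (H.Z_pos hσ y)
  have hn : ∀ y z : Vn n, 0 ≤ tw σ h y z := fun y z =>
    mul_nonneg (Real.exp_pos _).le (mul_nonneg (H.nonneg z) (h25.ker_pos _).le)
  set A := Real.exp (‖x‖ ^ 2 / (2 * σ)) * cv σ h x with hA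
  set C := Real.exp (‖y‖ ^ 2 / (2 * σ)) * cv σ h y with hC
  have hA0 : 0 < A := hp x
  have hC0 : 0 < C := hp y
  rw [← hI]
  have hpt : ∀ z, tw σ h ((1 - a) • x + a • y) z ≤
      A ^ (1 - a) * C ^ a * ((1 - a) / A * tw σ h x z + a / C * tw σ h y z) := by
    intro z
    rw [tw_mid H.nonneg h0 h1]
    have h3 := Real.geom_mean_le_arith_mean2_weighted h1a.le h0.le
      (div_nonneg (hn x z) hA0.le) (div_nonneg (hn y z) hC0.le) (by ring)
    rw [Real.div_rpow (hn x z) hA0.le, Real.div_rpow (hn y z) hC0.le] at h3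
    have hA1 := Real.rpow_pos_of_pos hA0 (1 - a)
    have hC1 := Real.rpow_pos_of_pos hC0 a
    calc tw σ h x z ^ (1 - a) * tw σ h y z ^ a
        = A ^ (1 - a) * C ^ a *
          (tw σ h x z ^ (1 - a) / A ^ (1 - a) * (tw σ h y z ^ a / C ^ a)) := by
          field_simp
      _ ≤ A ^ (1 - a) * C ^ a * ((1 - a) * (tw σ h x z / A) + a * (tw σ h y z / C)) := by
          gcongr
      _ = _ := by ring
  have hi2 : Integrable fun z =>
      A ^ (1 - a) * C ^ a * ((1 - a) / A * tw σ h x z + a / C * tw σ h y z) :=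
    (((hi x).const_mul _).add ((hi y).const_mul _)).const_mul _
  refine (integral_mono (hi _) hi2 hpt).trans (le_of_eq ?_)
  rw [integral_const_mul, integral_add ((hi x).const_mul _) ((hi y).const_mul _),
    integral_const_mul, integral_const_mul, hI, hI, ← hA, ← hC, div_mul_cancel₀ _ hA0.ne',
    div_mul_cancel₀ _ hC0.ne']
  ring

private theorem reg_norm_sq (x : Vn n) : ‖x‖ ^ 2 = sq (WithLp.ofLp x) := by
  rw [EuclideanSpace.norm_sq_eq]
  unfold sq
  exact Finset.sum_congr rfl fun i _ => by rw [Real.norm_eq_abs, sq_abs]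

private theorem reg_norm (x : Vn n) : ‖x‖ = √(sq (WithLp.ofLp x)) := by
  rw [← reg_norm_sq, Real.sqrt_sq (norm_nonneg _)]

theorem integral_ofLp (g : (Fin n → ℝ) → ℝ) :
    ∫ x : Vn n, g (WithLp.ofLp x) = ∫ x, g x := by
  have h := PiLp.volume_preserving_ofLp (Fin n)
  exact h.integral_comp (MeasurableEquiv.toLp 2 (Fin n → ℝ)).symm.measurableEmbedding g

/-- The convolution in terms of `ZP`. -/
private theorem reg_cv (h : (Fin n → ℝ) → ℝ) {σ : ℝ} (hσ : 0 < σ) (y : Fin n → ℝ) :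
    cv σ (fun x : Vn n => h (WithLp.ofLp x)) (WithLp.toLp 2 y) =
      Real.exp (-(sq y / (2 * σ))) * ZP gp h (1 / σ - 1, fun i => 1 / σ * y i) := by
  unfold cv ZP
  have h1 : ∀ x : Vn n, h (WithLp.ofLp x) * h25.ker σ (WithLp.toLp 2 y - x) =
      (fun z : Fin n → ℝ => h z * Real.exp (-(sq (fun i => y i - z i) / (2 * σ))))
        (WithLp.ofLp x) := by
    intro x
    unfold h25.ker
    rw [reg_norm_sq]
    rfl
  simp only [h1]
  rw [integral_ofLp (fun z : Fin n → ℝ => h z * Real.exp (-(sq (fun i => y i - z i) / (2 * σ)))),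
    ← integral_const_mul]
  refine integral_congr_ae (Eventually.of_forall fun z => ?_)
  simp only
  rw [← mul_assoc, mul_comm (Real.exp _) (h z), mul_assoc, ← Real.exp_add]
  congr 2
  unfold pt gp sq dt
  rw [Finset.sum_div, Finset.sum_div, Finset.sum_div, Finset.mul_sum, ← Finset.sum_add_distrib,
    ← Finset.sum_sub_distrib, ← Finset.sum_neg_distrib, ← Finset.sum_neg_distrib,
    ← Finset.sum_neg_distrib, ← Finset.sum_add_distrib]
  refine Finset.sum_congr rfl fun i _ => ?_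
  field_simp
  ring

/-- The potential of the regularised density (up to a constant). -/
private noncomputable def regW (h : (Fin n → ℝ) → ℝ) (σ : ℝ) (y : Fin n → ℝ) : ℝ :=
  -Real.log (cv σ (fun x : Vn n => h (WithLp.ofLp x)) (WithLp.toLp 2 y))

private theorem regW_smooth {h : (Fin n → ℝ) → ℝ}
    (H : Wt (fun x : Vn n => h (WithLp.ofLp x)) B) {σ : ℝ} (hσ : 0 < σ) :
    ContDiff ℝ 2 (regW h σ) := by
  have hT : T0 h := by
    refine ⟨?_, B, 0, fun x => ?_⟩
    · have h1 := H.meas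
      have h2 : h = (fun x : Vn n => h (WithLp.ofLp x)) ∘ (WithLp.toLp 2) := by
        funext x
        rfl
      rw [h2]
      exact h1.comp (WithLp.measurable_toLp 2 _)
    · have h3 := H.abs_le (WithLp.toLp 2 x)
      simpa using h3
  have ht : -(1 : ℝ) < 1 / σ - 1 := by
    have : 0 < 1 / σ := by positivity
    linarith
  have h1 : ContDiff ℝ ∞ fun y : Fin n → ℝ =>
      Real.exp (-(sq y / (2 * σ))) * ZP gp h (1 / σ - 1, fun i => 1 / σ * y i) := by
    refine ContDiff.mul ?_ ?_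
    · exact ((contDiff_sq.div_const _).neg).exp
    · rw [contDiff_iff_contDiffAt]
      intro y
      have h2 : ContDiffAt ℝ ∞ (ZP gp h) ((1 / σ - 1, fun i => 1 / σ * y i) : ℝ × (Fin n → ℝ)) :=
        ZP_contDiffAt nice_gp hT ht
      have h3 : ContDiffAt ℝ ∞
          (fun y : Fin n → ℝ => ((1 / σ - 1, fun i => 1 / σ * y i) : ℝ × (Fin n → ℝ))) y := by
        refine contDiffAt_const.prodMk ?_
        rw [contDiffAt_pi]
        intro i
        exact contDiffAt_const.mul (contDiff_apply ℝ ℝ i).contDiffAt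
      have h7 : ContDiffAt ℝ ∞ (ZP gp h ∘
          (fun y : Fin n → ℝ => ((1 / σ - 1, fun i => 1 / σ * y i) : ℝ × (Fin n → ℝ)))) y :=
        ContDiffAt.comp y h2 h3
      exact h7
  have h4 : (fun y : Fin n → ℝ => cv σ (fun x : Vn n => h (WithLp.ofLp x)) (WithLp.toLp 2 y)) =
      fun y : Fin n → ℝ =>
        Real.exp (-(sq y / (2 * σ))) * ZP gp h (1 / σ - 1, fun i => 1 / σ * y i) :=
    funext fun y => reg_cv h hσ y
  have h5 : ContDiff ℝ ∞
      (fun y : Fin n → ℝ => cv σ (fun x : Vn n => h (WithLp.ofLp x)) (WithLp.toLp 2 y)) := by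
    rw [h4]
    exact h1
  have h6 : ContDiff ℝ ∞ (regW h σ) := (h5.log fun y => (H.Z_pos hσ _).ne').neg
  exact h6.of_le (by norm_cast)

private theorem reg_line (x y : Fin n → ℝ) (a b : ℝ) :
    WithLp.toLp 2 (a • x + b • y) = a • (WithLp.toLp 2 x : Vn n) + b • WithLp.toLp 2 y := rfl

private theorem regW_lo {h : (Fin n → ℝ) → ℝ}
    (H : Wt (fun x : Vn n => h (WithLp.ofLp x)) B)
    (hlc : LogConc (fun x : Vn n => h (WithLp.ofLp x))) {σ : ℝ} (hσ : 0 < σ)
    (x u : Fin n → ℝ) : 0 ≤ hs (regW h σ) x u := by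
  refine hs_nonneg_of_convex (regW_smooth H hσ) ?_ x u
  have h1 := log_concave (fun y => H.Z_pos hσ y) (h42u.cv_logconc H hlc hσ)
  refine ⟨convex_univ, fun x _ y _ a b ha hb hab => ?_⟩
  have h2 := h1.2 (mem_univ (WithLp.toLp 2 x)) (mem_univ (WithLp.toLp 2 y)) ha hb hab
  unfold regW
  rw [reg_line]
  exact h2

private theorem regW_hi {h : (Fin n → ℝ) → ℝ}
    (H : Wt (fun x : Vn n => h (WithLp.ofLp x)) B) {σ : ℝ} (hσ : 0 < σ)
    (x u : Fin n → ℝ) : hs (regW h σ) x u ≤ 1 / σ * sq u := by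
  have hs2 : ContDiff ℝ 2 (fun x : Fin n → ℝ => 1 / (2 * σ) * sq x) :=
    contDiff_const.mul contDiff_sq
  have hm : ContDiff ℝ 2 (fun x : Fin n → ℝ => (-1) * regW h σ x) :=
    contDiff_const.mul (regW_smooth H hσ)
  have h0 : 0 ≤ hs (fun x : Fin n → ℝ => 1 / (2 * σ) * sq x + (-1) * regW h σ x) x u := by
    refine hs_nonneg_of_convex (hs2.add hm) ?_ x u
    have h1 := log_convex (G := fun y : Vn n => Real.exp (‖y‖ ^ 2 / (2 * σ)) *
        cv σ (fun x : Vn n => h (WithLp.ofLp x)) y)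
      (fun y => mul_pos (Real.exp_pos _) (H.Z_pos hσ y)) (fun a h0 h1 x y => G_convex H hσ h0 h1 x y)
    have e : ∀ y : Fin n → ℝ, 1 / (2 * σ) * sq y + (-1) * regW h σ y =
        Real.log (Real.exp (‖(WithLp.toLp 2 y : Vn n)‖ ^ 2 / (2 * σ)) *
        cv σ (fun x : Vn n => h (WithLp.ofLp x)) (WithLp.toLp 2 y)) := by
      intro y
      rw [Real.log_mul (Real.exp_pos _).ne' (H.Z_pos hσ _).ne', Real.log_exp, reg_norm_sq]
      unfold regW
      simp only
      ring
    refine ⟨convex_univ, fun x _ y _ a b ha hb hab => ?_⟩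
    have h2 := h1.2 (mem_univ (WithLp.toLp 2 x)) (mem_univ (WithLp.toLp 2 y)) ha hb hab
    beta_reduce
    rw [e, e, e, reg_line]
    exact h2
  rw [hs_add hs2 hm, hs_cmul contDiff_sq, hs_cmul (regW_smooth H hσ), hs_sq] at h0
  have e2 : 1 / (2 * σ) * (2 * sq u) = 1 / σ * sq u := by
    field_simp
  rw [e2] at h0
  linarith

private lemma reg_mid {h : Vn n → ℝ} (h0 : ∀ x, 0 ≤ h x) (hlc : LogConc h) (x y : Vn n) :
    h x * h y ≤ h ((1 / 2 : ℝ) • (x + y)) ^ 2 := by
  have h2 := hlc (1 / 2) (by norm_num) (by norm_num) x y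
  have e : (1 - 1 / 2 : ℝ) • x + (1 / 2 : ℝ) • y = (1 / 2 : ℝ) • (x + y) := by
    rw [smul_add]; norm_num
  rw [e, show (1 - 1 / 2 : ℝ) = 1 / 2 by norm_num, ← Real.mul_rpow (h0 x) (h0 y),
    ← Real.sqrt_eq_rpow] at h2
  have h3 := pow_le_pow_left₀ (Real.sqrt_nonneg _) h2 2
  rwa [Real.sq_sqrt (mul_nonneg (h0 x) (h0 y))] at h3

/-- Gaussian regularisation: a log-concave density is the limit almost everywhere of densities
`exp (-V k)` with nice potentials, dominated by an exponential. -/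
theorem reg {h : (Fin n → ℝ) → ℝ} (h0 : ∀ x, 0 ≤ h x) (hm : Measurable h)
    (hlc : ∀ (x y : Fin n → ℝ) (a b : ℝ), 0 ≤ a → 0 ≤ b → a + b = 1 →
      h x ^ a * h y ^ b ≤ h (a • x + b • y)) (hi : Integrable h) (hpos : 0 < ∫ x, h x) :
    ∃ (V : ℕ → (Fin n → ℝ) → ℝ) (κ M : ℕ → ℝ) (C a : ℝ), 0 < C ∧ 0 < a ∧
      (∀ k, Nice (κ k) (M k) (V k)) ∧
      (∀ x, h x ≤ C * Real.exp (-(a * √(sq x)))) ∧
      (∀ k x, Real.exp (-(V k x)) ≤ C * Real.exp (-(a * √(sq x)))) ∧
      ∀ᵐ x, Tendsto (fun k => Real.exp (-(V k x))) atTop (𝓝 (h x)) := by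
  set g : Vn n → ℝ := fun x => h (WithLp.ofLp x) with hg
  have g0 : ∀ x, 0 ≤ g x := fun x => h0 _
  have gm : Measurable g := hm.comp (WithLp.measurable_ofLp 2 _)
  have glc : LogConc g := by
    intro a ha ha1 x y
    exact hlc _ _ (1 - a) a (by linarith) ha.le (by ring)
  have gi : Integrable g :=
    ((PiLp.volume_preserving_ofLp (Fin n)).integrable_comp_emb
      (MeasurableEquiv.toLp 2 (Fin n → ℝ)).symm.measurableEmbedding).2 hi
  have gpos : 0 < ∫ x, g x := by
    rw [hg, integral_ofLp]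
    exact hpos
  obtain ⟨C, a, hC, ha, hd⟩ := h97r.decay g0 gm glc gi gpos
  have hbd : ∀ x, g x ≤ C := by
    intro x
    refine (hd x).trans ?_
    have h1 : Real.exp (-(a * ‖x‖)) ≤ 1 := by
      rw [Real.exp_le_one_iff, neg_nonpos]
      positivity
    nlinarith
  have HW : Wt g C := by
    refine ⟨gm, g0, hbd, reg_mid g0 glc, fun h => ?_⟩
    have h1 : ∫ x, g x = 0 := by
      rw [integral_congr_ae h]
      simp
    linarith
  obtain ⟨C', hC', hmaj⟩ := h42u.cv_major g0 gm hC ha hd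
  have hlim := h42u.cv_lim g0 gm glc hC ha hd
  have hσ : ∀ k : ℕ, (0 : ℝ) < 1 / ((k : ℝ) + 1) := fun k => by positivity
  set σ : ℕ → ℝ := fun k => 1 / ((k : ℝ) + 1) with hσd
  set c : ℕ → ℝ := fun k => ∫ z : Vn n, h25.ker (σ k) z with hc
  have hc0 : ∀ k, 0 < c k := fun k => h25.ker_int_pos (hσ k)
  refine ⟨fun k y => (regW h (σ k) y + σ k * sq y) + Real.log (c k), fun k => 2 * σ k,
    fun k => 1 / σ k + 2 * σ k, max C C', a, lt_max_of_lt_left hC, ha, fun k => ?_, fun x => ?_,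
    fun k x => ?_, ?_⟩
  · refine Nice.add_const (V := fun y => regW h (σ k) y + σ k * sq y) ?_ _
    have hs2 : ContDiff ℝ 2 (fun x : Fin n → ℝ => σ k * sq x) :=
      contDiff_const.mul contDiff_sq
    have e : ∀ x u : Fin n → ℝ, hs (fun y => regW h (σ k) y + σ k * sq y) x u =
        hs (regW h (σ k)) x u + 2 * σ k * sq u := by
      intro x u
      rw [hs_add (regW_smooth HW (hσ k)) hs2, hs_cmul contDiff_sq, hs_sq]
      ring
    refine ⟨mul_pos two_pos (hσ k), (regW_smooth HW (hσ k)).add hs2, fun x u => ?_,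
      fun x u => ?_⟩
    · rw [e]
      have h8 : 0 ≤ hs (regW h (σ k)) x u := regW_lo HW glc (hσ k) x u
      linarith
    · rw [e]
      have h8 : hs (regW h (σ k)) x u ≤ 1 / σ k * sq u := regW_hi HW (hσ k) x u
      calc hs (regW h (σ k)) x u + 2 * σ k * sq u ≤ 1 / σ k * sq u + 2 * σ k * sq u := by
            linarith
        _ = (1 / σ k + 2 * σ k) * sq u := by ring
  · have h1 := hd (WithLp.toLp 2 x)
    rw [reg_norm] at h1
    exact h1.trans (mul_le_mul_of_nonneg_right (le_max_left _ _) (Real.exp_pos _).le)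
  · have h1 := hmaj k (WithLp.toLp 2 x)
    rw [reg_norm] at h1
    have h2 : Real.exp (-((regW h (σ k) x + σ k * sq x) + Real.log (c k))) =
        cv (σ k) g (WithLp.toLp 2 x) / c k * Real.exp (-(σ k * sq x)) := by
      unfold regW
      rw [neg_add, neg_add, neg_neg, Real.exp_add, Real.exp_add, Real.exp_log (HW.Z_pos (hσ k) _),
        Real.exp_neg (Real.log (c k)), Real.exp_log (hc0 k)]
      ring
    rw [h2]
    have h3 : Real.exp (-(σ k * sq x)) ≤ 1 := by
      rw [Real.exp_le_one_iff, neg_nonpos]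
      exact mul_nonneg (hσ k).le (sq_nn x)
    have h4 : 0 ≤ cv (σ k) g (WithLp.toLp 2 x) / c k :=
      (div_pos (HW.Z_pos (hσ k) _) (hc0 k)).le
    calc cv (σ k) g (WithLp.toLp 2 x) / c k * Real.exp (-(σ k * sq x)) ≤
        cv (σ k) g (WithLp.toLp 2 x) / c k * 1 := mul_le_mul_of_nonneg_left h3 h4
      _ = cv (σ k) g (WithLp.toLp 2 x) / c k := mul_one _
      _ ≤ C' * Real.exp (-(a * √(sq x))) := h1
      _ ≤ _ := mul_le_mul_of_nonneg_right (le_max_right _ _) (Real.exp_pos _).le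
  · have h1 := (PiLp.volume_preserving_toLp (Fin n)).quasiMeasurePreserving.ae hlim
    filter_upwards [h1] with x hx
    have h2 : ∀ k, Real.exp (-((regW h (σ k) x + σ k * sq x) + Real.log (c k))) =
        cv (σ k) g (WithLp.toLp 2 x) / c k * Real.exp (-(σ k * sq x)) := by
      intro k
      unfold regW
      rw [neg_add, neg_add, neg_neg, Real.exp_add, Real.exp_add, Real.exp_log (HW.Z_pos (hσ k) _),
        Real.exp_neg (Real.log (c k)), Real.exp_log (hc0 k)]
      ring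
    simp only [h2]
    have h3 : Tendsto σ atTop (𝓝 0) := tendsto_one_div_add_atTop_nhds_zero_nat
    have h4 : Tendsto (fun k => Real.exp (-(σ k * sq x))) atTop (𝓝 1) := by
      have h5 := ((h3.mul_const (sq x)).neg).rexp
      rw [zero_mul, neg_zero, Real.exp_zero] at h5
      exact h5
    have h6 := Tendsto.mul hx h4
    rw [mul_one] at h6
    exact h6

end Pool.Agent.Lib.MP_8d00da_gt.h42k
end

section

/-!
# Gaussian smoothing: definition and Bessel inequality
-/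

namespace Pool.Agent.Lib.MP_8d00da_gt.h42k.ZZ

open MeasureTheory Set Filter
open scoped Topology NNReal ENNReal ContDiff

set_option linter.unusedSectionVars false
set_option linter.unusedVariables false

variable {ι : Type*} [Fintype ι] [DecidableEq ι]

variable {κ M : ℝ} {V : (ι → ℝ) → ℝ}

/-- Gaussian smoothing `(P_t Φ)(x) = E Φ(t x + √t g)`. -/
noncomputable def PS (t : ℝ) (Φ : (ι → ℝ) → ℝ) (x : ι → ℝ) : ℝ :=
  ex gp fun g => Φ fun i => t * x i + √t * g i

theorem GE_PS (V : (ι → ℝ) → ℝ) (t : ℝ) (Φ : (ι → ℝ) → ℝ) : GE V t Φ = ex V (PS t Φ) := rfl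

private theorem ZA1_pd_gp (i : ι) (g : ι → ℝ) : pd i gp g = g i := by
  have e0 : (gp : (ι → ℝ) → ℝ) = fun x => (1 / 2) * sq x := by
    funext x
    unfold gp
    ring
  rw [e0, pd_cmul ((contDiff_sq (n := 1)).differentiable (by norm_num)), pd_sq]
  ring

private theorem ZA1_ex1 (i : ι) : ex gp (fun g : ι → ℝ => g i) = 0 := by
  have h1 := ibp (nice_gp (ι := ι)) (T1.const (1 : ℝ)) i
  have h2 : (pd i fun _ : ι → ℝ => (1 : ℝ)) = fun _ => 0 := by
    funext x
    unfold pd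
    simp
  rw [h2, ex_const nice_gp] at h1
  rw [h1]
  congr 1
  funext g
  rw [ZA1_pd_gp, one_mul]

private theorem ZA1_ex2 (i j : ι) :
    ex gp (fun g : ι → ℝ => g j * g i) = if i = j then 1 else 0 := by
  have h1 := ibp (nice_gp (ι := ι)) (T1.coord j) i
  have h2 : (pd i fun x : ι → ℝ => x j) = fun _ => if i = j then 1 else 0 := by
    funext x
    exact pd_coord i j x
  rw [h2, ex_const nice_gp] at h1
  rw [h1]
  congr 1
  funext g
  rw [ZA1_pd_gp]

private theorem ZA1_CM (i j : ι) : CM gp i j = if i = j then 1 else 0 := by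
  unfold CM cov
  rw [Matrix.of_apply, ZA1_ex1, ZA1_ex1, mul_zero, sub_zero]
  have := ZA1_ex2 j i
  rw [this]
  by_cases h : i = j
  · rw [if_pos h, if_pos h.symm]
  · rw [if_neg h, if_neg (Ne.symm h)]

/-- Bessel inequality for the orthonormal functions `g_i` under the standard Gaussian:
with `a_i = E g_i Ψ`, `W = Σ a_i g_i`: `Cov(Ψ,W) = |a|² = Var W`, so `|a|⁴ ≤ Var Ψ |a|²`
(`cov_cs nice_gp`; `Var W` from `ibp nice_gp`/`gauss_ibp`). -/
theorem gauss_bessel {Ψ : (ι → ℝ) → ℝ} (hΨ : T0 Ψ) :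
    ∑ i, ex gp (fun g => g i * Ψ g) ^ 2 ≤ var gp Ψ := by
  set a : ι → ℝ := fun i => ex gp (fun g => g i * Ψ g) with ha
  have hcov : ∀ i, cov gp (fun g : ι → ℝ => g i) Ψ = a i := by
    intro i
    unfold cov
    rw [ZA1_ex1, zero_mul, sub_zero]
  have h1 : cov gp (dt a) Ψ = ∑ i, a i ^ 2 := by
    have h2 : (dt a : (ι → ℝ) → ℝ) = fun x => ∑ i, a i * x i := rfl
    rw [h2, cov_sum nice_gp Finset.univ (F := fun i x => a i * x i)
      (fun i _ => (T0.coord i).cmul (a i)) hΨ]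
    refine Finset.sum_congr rfl fun i _ => ?_
    rw [cov_cmul, hcov]
    ring
  have h3 : var gp (dt a) = ∑ i, a i ^ 2 := by
    have h4 := var_dt (nice_gp (ι := ι)) a
    have h5 : (fun x : ι → ℝ => dt a x) = dt a := rfl
    rw [h5] at h4
    rw [h4]
    refine Finset.sum_congr rfl fun i _ => ?_
    rw [Finset.sum_eq_single i]
    · rw [ZA1_CM, if_pos rfl]
      ring
    · intro j _ hj
      rw [ZA1_CM, if_neg (Ne.symm hj), mul_zero]
    · intro h
      exact absurd (Finset.mem_univ i) h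
  have h6 := cov_cs nice_gp (T0.dtf a) hΨ
  rw [h1, h3] at h6
  have h7 : 0 ≤ ∑ i, a i ^ 2 := Finset.sum_nonneg fun i _ => sq_nonneg _
  have h8 := var_nonneg nice_gp hΨ
  rcases h7.eq_or_lt with h9 | h9
  · rw [← h9]
    exact h8
  · nlinarith

end Pool.Agent.Lib.MP_8d00da_gt.h42k.ZZ
end

section

/-!
# Limits of expectations
-/

namespace Pool.Agent.Lib.MP_8d00da_gt.h42k

open MeasureTheory Set Filter
open Pool.Agent.Lib.MP_8d00da_gt.h42s (Vn)
open scoped Topology NNReal ENNReal ContDiff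

set_option linter.unusedSectionVars false
set_option linter.unusedVariables false

variable {n : ℕ}

private theorem RQ1_one {δ s : ℝ} (hδ : 0 < δ) (hs : 0 ≤ s) :
    1 + s ^ 2 ≤ (1 + 2 / δ ^ 2) * Real.exp (δ * s) := by
  have h1 := Real.quadratic_le_exp_of_nonneg (x := δ * s) (by positivity)
  have h2 : 1 ≤ Real.exp (δ * s) := Real.one_le_exp (by positivity)
  have h3 : (δ * s) ^ 2 / 2 ≤ Real.exp (δ * s) := by
    have : 0 ≤ δ * s := by positivity
    linarith
  have h4 : s ^ 2 = 2 / δ ^ 2 * ((δ * s) ^ 2 / 2) := by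
    field_simp
  have h5 : 2 / δ ^ 2 * ((δ * s) ^ 2 / 2) ≤ 2 / δ ^ 2 * Real.exp (δ * s) :=
    mul_le_mul_of_nonneg_left h3 (by positivity)
  rw [add_mul, one_mul]
  linarith

/-- Polynomials are integrable against `exp (-a |x|)`. -/
theorem poly_exp_int {a : ℝ} (ha : 0 < a) (m : ℕ) :
    Integrable fun x : Fin n → ℝ => (1 + sq x) ^ m * Real.exp (-(a * √(sq x))) := by
  have hm : Measurable (sq : (Fin n → ℝ) → ℝ) := continuous_sq.measurable
  have h1 : Integrable fun x : Vn n => (1 + ‖x‖ ^ 2) * Real.exp (-(a / 2 * ‖x‖)) :=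
    h97r.exp_norm_int (by positivity)
  have h2 : Integrable fun x : Fin n → ℝ => (1 + sq x) * Real.exp (-(a / 2 * √(sq x))) := by
    rw [← (PiLp.volume_preserving_ofLp (Fin n)).integrable_comp_emb
      (MeasurableEquiv.toLp 2 (Fin n → ℝ)).symm.measurableEmbedding]
    refine h1.congr (Eventually.of_forall fun x => ?_)
    have h3 : ‖x‖ ^ 2 = sq (WithLp.ofLp x) := by
      rw [EuclideanSpace.norm_sq_eq]
      unfold sq
      exact Finset.sum_congr rfl fun i _ => by rw [Real.norm_eq_abs, sq_abs]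
    have h4 : ‖x‖ = √(sq (WithLp.ofLp x)) := by
      rw [← h3, Real.sqrt_sq (norm_nonneg _)]
    simp only [Function.comp]
    rw [h3, h4]
  set δ : ℝ := a / (2 * (m + 1)) with hδ
  have hδ0 : 0 < δ := by positivity
  refine (h2.const_mul ((1 + 2 / δ ^ 2) ^ m)).mono' ?_ (Eventually.of_forall fun x => ?_)
  · refine Measurable.aestronglyMeasurable ?_
    exact ((measurable_const.add hm).pow_const m).mul
      (Real.measurable_exp.comp ((hm.sqrt.const_mul a).neg))
  · have hs := sq_nn x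
    rw [Real.norm_eq_abs, abs_of_nonneg (by positivity)]
    have h5 : (1 + sq x) ^ m ≤ (1 + 2 / δ ^ 2) ^ m * Real.exp (a / 2 * √(sq x)) := by
      have h6 := RQ1_one hδ0 (Real.sqrt_nonneg (sq x))
      rw [Real.sq_sqrt hs] at h6
      calc (1 + sq x) ^ m ≤ ((1 + 2 / δ ^ 2) * Real.exp (δ * √(sq x))) ^ m :=
            pow_le_pow_left₀ (by positivity) h6 m
        _ = (1 + 2 / δ ^ 2) ^ m * Real.exp (m * (δ * √(sq x))) := by
            rw [mul_pow, ← Real.exp_nat_mul]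
        _ ≤ _ := by
            refine mul_le_mul_of_nonneg_left (Real.exp_le_exp.2 ?_) (by positivity)
            rw [← mul_assoc]
            refine mul_le_mul_of_nonneg_right ?_ (Real.sqrt_nonneg _)
            rw [hδ, mul_div_assoc', div_le_div_iff₀ (by positivity) two_pos]
            nlinarith
    have h7 : Real.exp (-(a * √(sq x))) =
        Real.exp (-(a / 2 * √(sq x))) * Real.exp (-(a / 2 * √(sq x))) := by
      rw [← Real.exp_add]
      congr 1
      ring
    have h8 : Real.exp (a / 2 * √(sq x)) * Real.exp (-(a / 2 * √(sq x))) = 1 := by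
      rw [← Real.exp_add, add_neg_cancel, Real.exp_zero]
    calc (1 + sq x) ^ m * Real.exp (-(a * √(sq x)))
        ≤ ((1 + 2 / δ ^ 2) ^ m * Real.exp (a / 2 * √(sq x))) * Real.exp (-(a * √(sq x))) :=
          mul_le_mul_of_nonneg_right h5 (Real.exp_pos _).le
      _ = (1 + 2 / δ ^ 2) ^ m * (1 * Real.exp (-(a / 2 * √(sq x)))) := by
          rw [h7, ← h8]
          ring
      _ ≤ (1 + 2 / δ ^ 2) ^ m * ((1 + sq x) * Real.exp (-(a / 2 * √(sq x)))) := by
          refine mul_le_mul_of_nonneg_left ?_ (by positivity)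
          exact mul_le_mul_of_nonneg_right (by linarith) (Real.exp_pos _).le

/-- Functions of polynomial growth are integrable against exponentially decaying functions. -/
theorem int_of_exp {g : (Fin n → ℝ) → ℝ} (hg : Measurable g) {C a : ℝ} (ha : 0 < a)
    (hb : ∀ x, |g x| ≤ C * Real.exp (-(a * √(sq x)))) {f : (Fin n → ℝ) → ℝ} (hf : T0 f) :
    Integrable fun x => f x * g x := by
  obtain ⟨C', m, hC', hfb⟩ := hf.pg.bound
  refine ((poly_exp_int ha m).const_mul (C' * C)).mono' (hf.meas.mul hg).aestronglyMeasurable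
    (Eventually.of_forall fun x => ?_)
  rw [Real.norm_eq_abs, abs_mul]
  have hs := sq_nn x
  calc |f x| * |g x| ≤ (C' * (1 + sq x) ^ m) * (C * Real.exp (-(a * √(sq x)))) :=
        mul_le_mul (hfb x) (hb x) (abs_nonneg _) (by positivity)
    _ = _ := by ring

/-- Limits of expectations of functions which converge pointwise and are uniformly of polynomial
growth. -/
theorem lim_ex {g : (Fin n → ℝ) → ℝ} {V : ℕ → (Fin n → ℝ) → ℝ} {C a : ℝ} (ha : 0 < a)
    (hV : ∀ k, Measurable (V k)) (hb : ∀ k x, Real.exp (-(V k x)) ≤ C * Real.exp (-(a * √(sq x))))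
    (hl : ∀ᵐ x, Tendsto (fun k => Real.exp (-(V k x))) atTop (𝓝 (g x))) (hg : ∫ x, g x = 1)
    {φ : ℕ → (Fin n → ℝ) → ℝ} {ψ : (Fin n → ℝ) → ℝ} (hφ : ∀ k, Measurable (φ k)) {C' : ℝ} {m : ℕ}
    (hφb : ∀ k x, |φ k x| ≤ C' * (1 + sq x) ^ m)
    (hφl : ∀ x, Tendsto (fun k => φ k x) atTop (𝓝 (ψ x))) :
    Tendsto (fun k => ex (V k) (φ k)) atTop (𝓝 (∫ x, ψ x * g x)) := by
  have key : ∀ {φ : ℕ → (Fin n → ℝ) → ℝ} {ψ : (Fin n → ℝ) → ℝ} (hφ : ∀ k, Measurable (φ k))
      {C' : ℝ} {m : ℕ} (hφb : ∀ k x, |φ k x| ≤ C' * (1 + sq x) ^ m)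
      (hφl : ∀ x, Tendsto (fun k => φ k x) atTop (𝓝 (ψ x))),
      Tendsto (fun k => ∫ x, φ k x * Real.exp (-(V k x))) atTop (𝓝 (∫ x, ψ x * g x)) := by
    intro φ ψ hφ C' m hφb hφl
    refine tendsto_integral_of_dominated_convergence
      (fun x => C' * C * ((1 + sq x) ^ m * Real.exp (-(a * √(sq x)))))
      (fun k => ((hφ k).mul (Real.measurable_exp.comp (hV k).neg)).aestronglyMeasurable)
      ((poly_exp_int ha m).const_mul _) (fun k => Eventually.of_forall fun x => ?_) ?_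
    · rw [Real.norm_eq_abs, abs_mul, abs_of_pos (Real.exp_pos _)]
      calc |φ k x| * Real.exp (-(V k x)) ≤ (C' * (1 + sq x) ^ m) * (C * Real.exp (-(a * √(sq x)))) :=
            mul_le_mul (hφb k x) (hb k x) (Real.exp_pos _).le ((abs_nonneg _).trans (hφb k x))
        _ = _ := by ring
    · filter_upwards [hl] with x hx
      exact (hφl x).mul hx
  have h1 := key hφ hφb hφl
  have h2 := key (φ := fun _ _ => 1) (ψ := fun _ => 1) (fun _ => measurable_const) (C' := 1)
    (m := 0) (fun k x => by simp) (fun x => tendsto_const_nhds)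
  simp only [one_mul] at h2
  rw [hg] at h2
  have h3 := h1.div h2 one_ne_zero
  rw [div_one] at h3
  exact h3

/-- Special case: a fixed function. -/
theorem lim_ex_const {g : (Fin n → ℝ) → ℝ} {V : ℕ → (Fin n → ℝ) → ℝ} {C a : ℝ} (ha : 0 < a)
    (hV : ∀ k, Measurable (V k)) (hb : ∀ k x, Real.exp (-(V k x)) ≤ C * Real.exp (-(a * √(sq x))))
    (hl : ∀ᵐ x, Tendsto (fun k => Real.exp (-(V k x))) atTop (𝓝 (g x))) (hg : ∫ x, g x = 1)
    {ψ : (Fin n → ℝ) → ℝ} (hψ : T0 ψ) :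
    Tendsto (fun k => ex (V k) ψ) atTop (𝓝 (∫ x, ψ x * g x)) := by
  obtain ⟨C', m, hC', hfb⟩ := hψ.pg.bound
  exact lim_ex ha hV hb hl hg (fun _ => hψ.meas) (fun _ => hfb) (fun _ => tendsto_const_nhds)

end Pool.Agent.Lib.MP_8d00da_gt.h42k
end

section

/-!
# Gaussian smoothing of C1 functions
-/

namespace Pool.Agent.Lib.MP_8d00da_gt.h42k.ZZ

open MeasureTheory Set Filter
open scoped Topology NNReal ENNReal ContDiff

set_option linter.unusedSectionVars false
set_option linter.unusedVariables false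

variable {ι : Type*} [Fintype ι] [DecidableEq ι]

variable {κ M : ℝ} {V : (ι → ℝ) → ℝ}

private theorem ZA2_sq (t : ℝ) (x g : ι → ℝ) :
    1 + sq (fun j => t * x j + √t * g j) ≤
      (1 + 2 * t ^ 2 + 2 * √t ^ 2) * (1 + sq x) * (1 + sq g) := by
  have h1 := sq_add_le (fun j => t * x j) (fun j => √t * g j)
  have h2 : sq ((fun j => t * x j) + fun j => √t * g j) = sq (fun j => t * x j + √t * g j) := rfl
  rw [h2, sq_smul, sq_smul] at h1
  have h3 := sq_nn x
  have h4 := sq_nn g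
  have h5 : 0 ≤ t ^ 2 := sq_nonneg t
  have h6 : 0 ≤ √t ^ 2 := sq_nonneg _
  have h7 : 0 ≤ sq x * sq g := mul_nonneg h3 h4
  have e1 : (1 + 2 * t ^ 2 + 2 * √t ^ 2) * (1 + sq x) * (1 + sq g) =
      1 + 2 * (t ^ 2 * sq x) + 2 * (√t ^ 2 * sq g) + (sq x + sq g + sq x * sq g
        + 2 * t ^ 2 * (1 + sq g + sq x * sq g) + 2 * √t ^ 2 * (1 + sq x + sq x * sq g)) := by
    ring
  rw [e1]
  have h8 : 0 ≤ sq x + sq g + sq x * sq g
        + 2 * t ^ 2 * (1 + sq g + sq x * sq g) + 2 * √t ^ 2 * (1 + sq x + sq x * sq g) := by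
    positivity
  linarith

private theorem ZA2_bd {f : (ι → ℝ) → ℝ} (hf : PG f) (t : ℝ) :
    ∃ (C : ℝ) (k : ℕ), 0 ≤ C ∧ ∀ x g : ι → ℝ,
      |f (fun j => t * x j + √t * g j)| ≤ C * (1 + sq x) ^ k * (1 + sq g) ^ k := by
  obtain ⟨C, k, hC, hb⟩ := hf.bound
  refine ⟨C * (1 + 2 * t ^ 2 + 2 * √t ^ 2) ^ k, k, by positivity, fun x g => (hb _).trans ?_⟩
  have h0 := sq_nn (fun j => t * x j + √t * g j)
  have h1 := pow_le_pow_left₀ (by linarith) (ZA2_sq t x g) k
  rw [mul_pow, mul_pow] at h1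
  calc C * (1 + sq fun j => t * x j + √t * g j) ^ k
      ≤ C * ((1 + 2 * t ^ 2 + 2 * √t ^ 2) ^ k * (1 + sq x) ^ k * (1 + sq g) ^ k) :=
        mul_le_mul_of_nonneg_left h1 hC
    _ = _ := by ring

private theorem ZA2_meas2 (t : ℝ) :
    Measurable (fun p : (ι → ℝ) × (ι → ℝ) => fun j => t * p.1 j + √t * p.2 j) := by
  refine measurable_pi_lambda _ fun i => ?_
  fun_prop

private theorem ZA2_meas1 (t : ℝ) (x : ι → ℝ) :
    Measurable (fun g : ι → ℝ => fun j => t * x j + √t * g j) := by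
  refine measurable_pi_lambda _ fun i => ?_
  fun_prop

private theorem ZA2_gp : Continuous (gp : (ι → ℝ) → ℝ) := (nice_gp (ι := ι)).c2.continuous

private theorem ZA2_t0 {f : (ι → ℝ) → ℝ} (hf : T0 f) (t : ℝ) (x : ι → ℝ) :
    T0 (fun g : ι → ℝ => f (fun j => t * x j + √t * g j)) := by
  obtain ⟨C, k, hC, hb⟩ := ZA2_bd hf.pg t
  exact ⟨hf.meas.comp (ZA2_meas1 t x), ⟨C * (1 + sq x) ^ k, k, fun g => hb x g⟩⟩

private theorem ZA2_t0k (k : ℕ) : T0 (fun g : ι → ℝ => (1 + sq g) ^ k) :=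
  ((T0.const 1).add T0.sqf).pow k

private theorem ZA2_pg {f : (ι → ℝ) → ℝ} (hf : T0 f) (t : ℝ) : PG (PS t f) := by
  obtain ⟨C, k, hC, hb⟩ := ZA2_bd hf.pg t
  refine ⟨C * ex gp (fun g : ι → ℝ => (1 + sq g) ^ k), k, fun x => ?_⟩
  have h1 := ex_abs_le nice_gp (ZA2_t0 hf t x)
  have h2 := ex_mono nice_gp (ZA2_t0 hf t x).abs ((ZA2_t0k (ι := ι) k).cmul (C * (1 + sq x) ^ k))
    fun g => hb x g
  rw [ex_cmul] at h2
  calc |PS t f x| ≤ _ := h1.trans h2
    _ = _ := by ring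

theorem PS_t0 {Φ : (ι → ℝ) → ℝ} (hΦ : T0 Φ) (t : ℝ) : T0 (PS t Φ) := by
  refine ⟨?_, ZA2_pg hΦ t⟩
  have h1 : StronglyMeasurable (Function.uncurry fun (x g : ι → ℝ) =>
      Φ (fun j => t * x j + √t * g j) * Real.exp (-gp g)) := by
    apply Measurable.stronglyMeasurable
    have h2 : Measurable fun p : (ι → ℝ) × (ι → ℝ) => Φ (fun j => t * p.1 j + √t * p.2 j) :=
      hΦ.meas.comp (ZA2_meas2 t)
    have h3 : Measurable fun p : (ι → ℝ) × (ι → ℝ) => Real.exp (-gp p.2) :=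
      (ZA2_gp.measurable.comp measurable_snd).neg.exp
    exact h2.mul h3
  exact (h1.integral_prod_right (ν := volume)).measurable.div_const _

/-- Domination for `x` in a ball. -/
private theorem ZA2_dom {f : (ι → ℝ) → ℝ} (hf : PG f) (t : ℝ) (x₀ : ι → ℝ) :
    ∃ b : (ι → ℝ) → ℝ, Integrable b ∧ ∀ x ∈ Metric.ball x₀ 1, ∀ g : ι → ℝ,
      |f (fun j => t * x j + √t * g j) * Real.exp (-gp g)| ≤ b g := by
  obtain ⟨C, k, hC, hb⟩ := ZA2_bd hf t
  set A : ℝ := 1 + 2 * Fintype.card ι + 2 * sq x₀ with hA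
  have hA0 : 0 ≤ A := by
    have := sq_nn x₀
    positivity
  refine ⟨fun g => C * A ^ k * (1 + sq g) ^ k * Real.exp (-gp g),
    (nice_gp (ι := ι)).int ((ZA2_t0k (ι := ι) k).cmul (C * A ^ k)), fun x hx g => ?_⟩
  have h1 : sq x ≤ 2 * Fintype.card ι + 2 * sq x₀ := by
    have h2 := sq_add_le (x - x₀) x₀
    rw [sub_add_cancel] at h2
    have h3 : sq (x - x₀) ≤ Fintype.card ι := by
      calc sq (x - x₀) ≤ ∑ _i : ι, (1 : ℝ) := by
            refine Finset.sum_le_sum fun i _ => ?_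
            have h4 : |(x - x₀) i| ≤ 1 := by
              have h5 := norm_le_pi_norm (x - x₀) i
              rw [Real.norm_eq_abs] at h5
              have h6 : ‖x - x₀‖ < 1 := by
                rw [← dist_eq_norm]
                exact hx
              linarith
            rw [← sq_abs]
            have h7 := abs_nonneg ((x - x₀) i)
            nlinarith
        _ = _ := by simp
    linarith
  rw [abs_mul, Real.abs_exp]
  refine mul_le_mul_of_nonneg_right ?_ (Real.exp_pos _).le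
  refine (hb x g).trans ?_
  have h8 := sq_nn x
  have h9 := sq_nn g
  refine mul_le_mul_of_nonneg_right ?_ (by positivity)
  refine mul_le_mul_of_nonneg_left ?_ hC
  exact pow_le_pow_left₀ (by linarith) (by rw [hA]; linarith) k

private theorem ZA2_cont {f : (ι → ℝ) → ℝ} (hf : Continuous f) (hp : PG f) (t : ℝ) :
    Continuous (PS t f) := by
  have hT : T0 f := ⟨hf.measurable, hp⟩
  rw [continuous_iff_continuousAt]
  intro x₀
  obtain ⟨b, hbi, hb⟩ := ZA2_dom hp t x₀
  have h1 : ContinuousAt (fun x => ∫ g : ι → ℝ, f (fun j => t * x j + √t * g j) *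
      Real.exp (-gp g)) x₀ := by
    refine continuousAt_of_dominated (bound := b) ?_ ?_ hbi ?_
    · exact Eventually.of_forall fun x => ((nice_gp (ι := ι)).int (ZA2_t0 hT t x)).1
    · filter_upwards [Metric.ball_mem_nhds x₀ one_pos] with x hx
      exact Eventually.of_forall fun g => hb x hx g
    · refine Eventually.of_forall fun g => ?_
      refine ContinuousAt.mul (ContinuousAt.comp hf.continuousAt ?_) continuousAt_const
      exact Continuous.continuousAt (by fun_prop)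
  exact h1.div_const _

private theorem ZA2_norm {f : (ι → ℝ) → ℝ} (y : ι → ℝ) :
    ‖fderiv ℝ f y‖ ≤ ∑ i, |pd i f y| := by
  refine ContinuousLinearMap.opNorm_le_bound _ (Finset.sum_nonneg fun i _ => abs_nonneg _)
    fun u => ?_
  rw [fderiv_eq_gd, Real.norm_eq_abs]
  unfold gd
  refine (Finset.abs_sum_le_sum_abs _ _).trans ?_
  rw [Finset.sum_mul]
  refine Finset.sum_le_sum fun i _ => ?_
  rw [abs_mul, mul_comm]
  exact mul_le_mul_of_nonneg_left (by simpa using norm_le_pi_norm u i) (abs_nonneg _)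

private theorem ZA2_fd {Φ : (ι → ℝ) → ℝ} (hΦ : T1 Φ) (t : ℝ) (x₀ : ι → ℝ) :
    DifferentiableAt ℝ (PS t Φ) x₀ ∧ ∀ i, pd i (PS t Φ) x₀ = t * PS t (pd i Φ) x₀ := by
  have hD : Differentiable ℝ Φ := hΦ.c1.differentiable (by norm_num)
  have hcf : Continuous (fderiv ℝ Φ) := hΦ.c1.continuous_fderiv (by norm_num)
  have hG : PG (fun y => ∑ i, |pd i Φ y|) := PG.sum _ fun i _ => (hΦ.pgd i).abs
  obtain ⟨b, hbi, hb⟩ := ZA2_dom hG t x₀
  have hbn : ∀ x ∈ Metric.ball x₀ 1, ∀ g : ι → ℝ,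
      ‖Real.exp (-gp g) • (t • fderiv ℝ Φ (fun j => t * x j + √t * g j))‖ ≤ |t| * b g := by
    intro x hx g
    rw [norm_smul, norm_smul, Real.norm_eq_abs, Real.norm_eq_abs, Real.abs_exp]
    have h1 := ZA2_norm (f := Φ) (fun j => t * x j + √t * g j)
    have h2 := hb x hx g
    rw [abs_mul, Real.abs_exp, abs_of_nonneg (Finset.sum_nonneg fun i _ => abs_nonneg _)] at h2
    calc Real.exp (-gp g) * (|t| * ‖fderiv ℝ Φ (fun j => t * x j + √t * g j)‖)
        ≤ Real.exp (-gp g) * (|t| * ∑ i, |pd i Φ (fun j => t * x j + √t * g j)|) := by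
          gcongr
      _ = |t| * ((∑ i, |pd i Φ (fun j => t * x j + √t * g j)|) * Real.exp (-gp g)) := by ring
      _ ≤ _ := mul_le_mul_of_nonneg_left h2 (abs_nonneg t)
  have hcy : ∀ x : ι → ℝ, Continuous (fun g : ι → ℝ => fun j => t * x j + √t * g j) := by
    intro x
    fun_prop
  have hm : AEStronglyMeasurable (fun g : ι → ℝ =>
      Real.exp (-gp g) • (t • fderiv ℝ Φ (fun j => t * x₀ j + √t * g j))) volume := by
    apply Continuous.aestronglyMeasurable
    have e1 : Continuous fun g : ι → ℝ => Real.exp (-gp g) := ZA2_gp.neg.rexp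
    exact e1.smul ((hcf.comp (hcy x₀)).const_smul t)
  have h1 := hasFDerivAt_integral_of_dominated_of_fderiv_le (μ := (volume : Measure (ι → ℝ)))
    (F := fun x g => Φ (fun j => t * x j + √t * g j) * Real.exp (-gp g))
    (F' := fun x g => Real.exp (-gp g) • (t • fderiv ℝ Φ (fun j => t * x j + √t * g j)))
    (x₀ := x₀) (bound := fun g => |t| * b g) (s := Metric.ball x₀ 1)
    (Metric.ball_mem_nhds x₀ one_pos)
    (Eventually.of_forall fun x => ((nice_gp (ι := ι)).int (ZA2_t0 hΦ.t0 t x)).1)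
    ((nice_gp (ι := ι)).int (ZA2_t0 hΦ.t0 t x₀)) hm
    (Eventually.of_forall fun g x hx => hbn x hx g) (hbi.const_mul _)
    (Eventually.of_forall fun g x hx => by
      have h2 : HasFDerivAt (fun x : ι → ℝ => t • x + fun j => √t * g j)
          (t • ContinuousLinearMap.id ℝ (ι → ℝ)) x :=
        ((hasFDerivAt_id x).const_smul t).add_const _
      have h3 : (fun x : ι → ℝ => t • x + fun j => √t * g j) =
          fun x => fun j => t * x j + √t * g j := by
        funext x j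
        simp
      rw [h3] at h2
      have h4 := ((hD (fun j => t * x j + √t * g j)).hasFDerivAt.comp x h2).mul_const
        (Real.exp (-gp g))
      have h5 : (Real.exp (-gp g) • (t • fderiv ℝ Φ (fun j => t * x j + √t * g j))) =
          (Real.exp (-gp g) • (fderiv ℝ Φ (fun j => t * x j + √t * g j)).comp
            (t • ContinuousLinearMap.id ℝ (ι → ℝ))) := by
        ext u
        simp
      rw [h5]
      exact h4)
  have hint : Integrable (fun g : ι → ℝ =>
      Real.exp (-gp g) • (t • fderiv ℝ Φ (fun j => t * x₀ j + √t * g j))) :=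
    Integrable.mono' (hbi.const_mul |t|) hm
      (Eventually.of_forall fun g => hbn x₀ (Metric.mem_ball_self one_pos) g)
  set Z : ℝ := ∫ g : ι → ℝ, Real.exp (-gp g) with hZ
  have h6 : HasFDerivAt (PS t Φ) (Z⁻¹ • ∫ g : ι → ℝ,
      Real.exp (-gp g) • (t • fderiv ℝ Φ (fun j => t * x₀ j + √t * g j))) x₀ := by
    have h7 := h1.const_mul Z⁻¹
    have h8 : (fun x => Z⁻¹ * ∫ g : ι → ℝ, Φ (fun j => t * x j + √t * g j) * Real.exp (-gp g)) =
        PS t Φ := by
      funext x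
      unfold PS ex
      rw [div_eq_inv_mul]
    rwa [h8] at h7
  refine ⟨h6.differentiableAt, fun i => ?_⟩
  unfold pd
  rw [h6.fderiv, ContinuousLinearMap.smul_apply, ContinuousLinearMap.integral_apply hint]
  have h9 : ∀ g : ι → ℝ, (Real.exp (-gp g) • (t • fderiv ℝ Φ (fun j => t * x₀ j + √t * g j)))
      (Pi.single i 1) = t * (pd i Φ (fun j => t * x₀ j + √t * g j) * Real.exp (-gp g)) := by
    intro g
    simp only [ContinuousLinearMap.smul_apply, smul_eq_mul, pd]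
    ring
  simp only [h9]
  rw [integral_const_mul]
  unfold PS ex
  simp only [smul_eq_mul, pd]
  rw [div_eq_inv_mul]
  ring

private theorem ZA2_c1 {f : (ι → ℝ) → ℝ} (hd : Differentiable ℝ f)
    (hc : ∀ i, Continuous (pd i f)) : ContDiff ℝ 1 f := by
  rw [contDiff_one_iff_fderiv]
  refine ⟨hd, ?_⟩
  have h1 : fderiv ℝ f = fun x => ∑ i, pd i f x • (ContinuousLinearMap.proj i : (ι → ℝ) →L[ℝ] ℝ) := by
    funext x
    ext u
    rw [fderiv_eq_gd]
    simp [gd, mul_comm]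
  rw [h1]
  exact continuous_finsetSum _ fun i _ => (hc i).smul continuous_const

/-- `P_t` maps `T1` to `T1`, the derivative is `t P_t(∂_i Φ)` (differentiation under the integral,
domination by polynomial growth; `pd i (x ↦ Φ(t x + √t g)) = t (∂_iΦ)(t x + √t g)`). -/
theorem PS_t1 {Φ : (ι → ℝ) → ℝ} (hΦ : T1 Φ) {t : ℝ} (ht : 0 ≤ t) :
    T1 (PS t Φ) ∧ ∀ i x, pd i (PS t Φ) x = t * PS t (pd i Φ) x := by
  have h1 : ∀ i x, pd i (PS t Φ) x = t * PS t (pd i Φ) x := fun i x => (ZA2_fd hΦ t x).2 i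
  have h2 : ∀ i, pd i (PS t Φ) = fun x => t * PS t (pd i Φ) x := fun i => funext (h1 i)
  refine ⟨⟨ZA2_c1 (fun x => (ZA2_fd hΦ t x).1) fun i => ?_, ZA2_pg hΦ.t0 t, fun i => ?_⟩, h1⟩
  · rw [h2]
    have h3 : Continuous (fderiv ℝ Φ) := hΦ.c1.continuous_fderiv (by norm_num)
    have h4 : Continuous (pd i Φ) := h3.clm_apply continuous_const
    exact continuous_const.mul (ZA2_cont h4 (hΦ.pgd i) t)
  · rw [h2]
    exact (PG.const t).mul (ZA2_pg (hΦ.pdt0 i) t)

end Pool.Agent.Lib.MP_8d00da_gt.h42k.ZZ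
end

section

/-!
# Reverse local Poincare inequality
-/

namespace Pool.Agent.Lib.MP_8d00da_gt.h42k.ZZ

open MeasureTheory Set Filter
open scoped Topology NNReal ENNReal ContDiff

set_option linter.unusedSectionVars false
set_option linter.unusedVariables false

variable {ι : Type*} [Fintype ι] [DecidableEq ι]

variable {κ M : ℝ} {V : (ι → ℝ) → ℝ}

private theorem ZA3_sq_le (t : ℝ) (x g : ι → ℝ) :
    1 + sq (fun j => t * x j + √t * g j) ≤
      (1 + 2 * t ^ 2 * sq x + 2 * √t ^ 2) * (1 + sq g) := by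
  have h1 := sq_add_le (fun j => t * x j) (fun j => √t * g j)
  have h2 : sq ((fun j => t * x j) + fun j => √t * g j) = sq (fun j => t * x j + √t * g j) := rfl
  rw [h2, sq_smul, sq_smul] at h1
  have h3 := sq_nn x
  have h4 := sq_nn g
  have h5 : 0 ≤ t ^ 2 * sq x := mul_nonneg (_root_.sq_nonneg t) h3
  have h6 : 0 ≤ t ^ 2 * sq x * sq g := mul_nonneg h5 h4
  have h7 : 0 ≤ √t ^ 2 := _root_.sq_nonneg _
  nlinarith

private theorem ZA3_t0 {f : (ι → ℝ) → ℝ} (hf : T0 f) (t : ℝ) (x : ι → ℝ) :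
    T0 (fun g => f (fun j => t * x j + √t * g j)) := by
  refine ⟨hf.meas.comp (by fun_prop), ?_⟩
  obtain ⟨C, k, hC, hb⟩ := hf.pg.bound
  refine ⟨C * (1 + 2 * t ^ 2 * sq x + 2 * √t ^ 2) ^ k, k, fun g => ?_⟩
  refine (hb _).trans ?_
  rw [mul_assoc, ← mul_pow]
  refine mul_le_mul_of_nonneg_left ?_ hC
  have h0 := sq_nn (fun j => t * x j + √t * g j)
  exact pow_le_pow_left₀ (by linarith) (ZA3_sq_le t x g) k

/-- Reverse local Poincare inequality of the Gaussian semigroup: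
`|∇P_tΦ|² ≤ t (P_t(Φ²) - (P_tΦ)²)`. (`PS_t1`, `gauss_ibp`: `∂_iP_tΦ(x) = t P_t(∂_iΦ)(x) =
√t E g_i Φ(t x + √t g)`, then `gauss_bessel` for `Ψ(g) = Φ(t x + √t g)`.) -/
theorem PS_gs_le {Φ : (ι → ℝ) → ℝ} (hΦ : T1 Φ) {t : ℝ} (ht : 0 ≤ t) (x : ι → ℝ) :
    gs (PS t Φ) x ≤ t * (PS t (fun y => Φ y ^ 2) x - PS t Φ x ^ 2) := by
  have hd := (PS_t1 hΦ ht).2
  have hb := gauss_bessel (ZA3_t0 hΦ.t0 t x)
  have h1 : gs (PS t Φ) x =
      t * ∑ i, ex gp (fun g => g i * Φ (fun j => t * x j + √t * g j)) ^ 2 := by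
    unfold gs
    rw [Finset.mul_sum]
    refine Finset.sum_congr rfl fun i _ => ?_
    rw [hd i x, gauss_ibp hΦ t x i, mul_pow, mul_pow, Real.sq_sqrt ht]
    unfold PS
    ring
  rw [h1]
  refine mul_le_mul_of_nonneg_left (hb.trans (le_of_eq ?_)) ht
  rw [var_eq']
  rfl

/-- `(1 + tC) Var_V(P_tΦ) ≤ tC Var(Φ(Y_t))`: by `PI`, `Var_V(P_tΦ) ≤ C E|∇P_tΦ|² ≤
Ct (E P_t(Φ²) - E(P_tΦ)²) = Ct (GE Φ² - (GE Φ)² - Var_V(P_tΦ))` (`GE_PS`). -/
theorem var_PS_le (H : Nice κ M V) {C : ℝ} (hC : 0 ≤ C) (hP : PI V C) {Φ : (ι → ℝ) → ℝ}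
    (hΦ : T1 Φ) {t : ℝ} (ht : 0 ≤ t) :
    (1 + t * C) * var V (PS t Φ) ≤ t * C * (GE V t (fun y => Φ y ^ 2) - GE V t Φ ^ 2) := by
  have hPS := (PS_t1 hΦ ht).1
  have hsq : T0 (PS t fun y => Φ y ^ 2) := PS_t0 (hΦ.t0.pow 2) t
  have h1 := hP _ hPS
  have h2 : ex V (gs (PS t Φ)) ≤
      ex V (fun x => t * (PS t (fun y => Φ y ^ 2) x - PS t Φ x ^ 2)) :=
    ex_mono H hPS.gst0 ((hsq.sub (hPS.t0.pow 2)).cmul t) (PS_gs_le hΦ ht)
  have h3 : ex V (fun x => t * (PS t (fun y => Φ y ^ 2) x - PS t Φ x ^ 2)) =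
      t * (GE V t (fun y => Φ y ^ 2) - ex V (fun x => PS t Φ x ^ 2)) := by
    rw [ex_cmul, ex_sub H hsq (hPS.t0.pow 2), GE_PS]
  have h4 := var_eq' V (PS t Φ)
  rw [h3] at h2
  have h5 : ex V (PS t Φ) = GE V t Φ := rfl
  rw [h5] at h4
  have h6 : C * ex V (gs (PS t Φ)) ≤
      C * (t * (GE V t (fun y => Φ y ^ 2) - ex V (fun x => PS t Φ x ^ 2))) :=
    mul_le_mul_of_nonneg_left h2 hC
  have h7 : ex V (fun x => PS t Φ x ^ 2) = var V (PS t Φ) + GE V t Φ ^ 2 := by linarith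
  rw [h7] at h6
  nlinarith [h1.trans h6]

end Pool.Agent.Lib.MP_8d00da_gt.h42k.ZZ
end

section

/-!
# Maximal correlation in the Gaussian channel
-/

namespace Pool.Agent.Lib.MP_8d00da_gt.h42k.ZZ

open MeasureTheory Set Filter
open scoped Topology NNReal ENNReal ContDiff

set_option linter.unusedSectionVars false
set_option linter.unusedVariables false

variable {ι : Type*} [Fintype ι] [DecidableEq ι]

variable {κ M : ℝ} {V : (ι → ℝ) → ℝ}

/-- `Q(y) = E_{t,y}f` is a `T1` function (`EP_contDiffAt`, `EP_pd`, `EP_t0`, `CP_t0`). -/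
theorem EP_t1 (H : Nice κ M V) {f : (ι → ℝ) → ℝ} (hf : T0 f) {t : ℝ} (ht : -κ < t) :
    T1 (EP V t f) := by
  refine ⟨?_, (EP_t0 H hf ht).pg, fun i => ?_⟩
  · rw [contDiff_iff_contDiffAt]
    intro y
    have h1 : ContDiffAt ℝ 1 (fun p : ℝ × (ι → ℝ) => EP V p.1 f p.2) (t, y) :=
      (EP_contDiffAt H hf ht y).of_le (by exact_mod_cast le_top)
    exact ContDiffAt.comp (f := fun z : ι → ℝ => (t, z)) y h1 (by fun_prop)
  · have h2 : pd i (EP V t f) = CP V t f (fun x => x i) := funext fun y => EP_pd H hf ht y i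
    rw [h2]
    exact (CP_t0 H hf (T0.coord i) ht).pg

/-- Maximal correlation: a Poincare inequality with constant `C` for `V` implies
`Var_V f ≤ (1 + tC) E Var_{t,Y_t} f`. Proof: `Q = EP V t f`, `v := GE Q² - (GE Q)²`,
`GE (CP V t f f) = Var_V f - v` (`GE_EP` for `f²` and `f`, `CP_eq`). By `bayes`
`Cov_V(f, P_tQ) = v`, so `v² ≤ Var_V f · Var_V(P_tQ) ≤ Var_V f · tC/(1+tC) · v` by `cov_cs` and
`var_PS_le`; hence `(1+tC) v ≤ tC Var_V f`. -/
theorem max_corr (H : Nice κ M V) {C : ℝ} (hC : 0 ≤ C) (hP : PI V C) {f : (ι → ℝ) → ℝ}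
    (hf : T0 f) {t : ℝ} (ht : 0 ≤ t) :
    var V f ≤ (1 + t * C) * GE V t (fun y => CP V t f f y) := by
  have htκ : -κ < t := by linarith [H.kpos]
  have hQ1 : T1 (EP V t f) := EP_t1 H hf htκ
  have hQ : T0 (EP V t f) := EP_t0 H hf htκ
  have hb := bayes H hf hQ ht
  have h1 : GE V t (EP V t f) = ex V f := GE_EP H hf ht
  have h2 : GE V t (EP V t (fun x => f x * f x)) = ex V (fun x => f x * f x) := GE_EP H (hf.mul hf) ht
  have h3 : GE V t (fun y => CP V t f f y) =
      ex V (fun x => f x * f x) - GE V t (fun y => EP V t f y * EP V t f y) := by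
    rw [← h2, ← GE_sub H (EP_t0 H (hf.mul hf) htκ) (hQ.mul hQ)]
    rfl
  have h4 : cov V f (PS t (EP V t f)) = GE V t (fun y => EP V t f y * EP V t f y) - ex V f * ex V f := by
    unfold cov
    rw [← GE_PS, h1]
    exact congrArg (fun z => z - ex V f * ex V f) hb
  have h5 := cov_cs H hf (PS_t0 hQ t)
  have h6 := var_PS_le H hC hP hQ1 ht
  have h7 : (fun y => EP V t f y ^ 2) = fun y => EP V t f y * EP V t f y := by
    funext y
    ring
  rw [h7, h1] at h6
  rw [h4] at h5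
  have h8 : var V f = ex V (fun x => f x * f x) - ex V f * ex V f := rfl
  have h9 := var_nonneg H hf
  have htC : 0 ≤ t * C := mul_nonneg ht hC
  set G := GE V t (fun y => EP V t f y * EP V t f y) with hG
  set v := G - ex V f * ex V f with hv
  have h10 : GE V t (fun y => CP V t f f y) = var V f - v := by
    rw [h3, h8, hv]
    ring
  rw [h10]
  rcases le_or_gt v 0 with hv0 | hv0
  · nlinarith [mul_nonneg htC (sub_nonneg.2 (hv0.trans h9))]
  · have h11 : v * ((1 + t * C) * v) ≤ v * (t * C * var V f) := by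
      have e1 : (1 + t * C) * var V (PS t (EP V t f)) ≤ t * C * v := by
        rw [hv]
        linarith
      have e2 := mul_le_mul_of_nonneg_left h5 (by linarith : (0 : ℝ) ≤ 1 + t * C)
      have e3 := mul_le_mul_of_nonneg_left e1 h9
      nlinarith
    have h12 := le_of_mul_le_mul_left h11 hv0
    linarith

end Pool.Agent.Lib.MP_8d00da_gt.h42k.ZZ
end
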