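import Pool.Agent.Lib.MP_8d00da_gt.h42k.B1a

/-!
# Scaling
-/

namespace Pool.Agent.Lib.MP_8d00da_gt.h42k.ZZ

open MeasureTheory Set Filter
open scoped Topology NNReal ENNReal ContDiff

set_option linter.unusedSectionVars false
set_option linter.unusedVariables false

variable {ι : Type*} [Fintype ι] [DecidableEq ι]

variable {κ M : ℝ} {V : (ι → ℝ) → ℝ}

private theorem ZD1_pd (c : ℝ) (hc : ∀ _ : ι, c ≠ 0) {f : (ι → ℝ) → ℝ} (hf : Differentiable ℝ f)
    (i : ι) (x : ι → ℝ) :
    pd i (fun x => f (dg (fun _ => c) hc x)) x = c * pd i f (dg (fun _ => c) hc x) := by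
  have h := pd_comp (dg (fun _ => c) hc : (ι → ℝ) →L[ℝ] (ι → ℝ)) hf i x
  rw [show pd i (fun x => f (dg (fun _ => c) hc x)) x =
    gd f (dg (fun _ => c) hc x) (dg (fun _ => c) hc (Pi.single i 1)) from h]
  unfold gd
  rw [Finset.sum_eq_single i]
  · rw [dg_apply, Pi.single_eq_same, one_mul]
  · intro j _ hj
    rw [dg_apply, Pi.single_eq_of_ne hj, zero_mul, zero_mul]
  · intro hi
    exact absurd (Finset.mem_univ i) hi

/-- Scaling: `PI V C` for all nice `V` with `Cov V ≤ 1` gives `PI V (C a)` if `Cov V ≤ a`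
(apply the hypothesis to `x ↦ V (√a x)`; `Nice.comp_lin`, `var_comp_lin`, `ex_comp_lin`, `pd_comp`
with `dg`; there may be a lemma of this kind in `T11a`/`RK1`). -/
theorem PI_scale {C : ℝ} (hP : ∀ (κ M : ℝ) (V : (ι → ℝ) → ℝ), Nice κ M V → CLe V 1 → PI V C)
    (H : Nice κ M V) {a : ℝ} (ha : 0 < a) (hC : CLe V a) : PI V (C * a) := by
  have hc : ∀ _ : ι, √a ≠ 0 := fun _ => (Real.sqrt_pos.2 ha).ne'
  have hs2 : √a ^ 2 = a := Real.sq_sqrt ha.le
  obtain ⟨κ', M', hN⟩ := H.comp_lin' (dg (fun _ => √a) hc)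
  have hCL : CLe (fun x => V (dg (fun _ => √a) hc x)) 1 := by
    intro θ
    have h1 : (fun x : ι → ℝ => dt θ x) =
        fun x => (fun z => dt (fun i => θ i / √a) z) (dg (fun _ => √a) hc x) := by
      funext x
      unfold dt
      refine Finset.sum_congr rfl fun i _ => ?_
      have h2 := hc i
      simp only [dg_apply]
      field_simp
    rw [h1, var_comp_lin (dg (fun _ => √a) hc) V]
    refine (hC _).trans (le_of_eq ?_)
    unfold sq
    rw [Finset.mul_sum, Finset.mul_sum]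
    refine Finset.sum_congr rfl fun i _ => ?_
    rw [div_pow, hs2]
    field_simp
  intro f hf
  have hd : Differentiable ℝ f := hf.c1.differentiable (by norm_num)
  have h1 := hP κ' M' _ hN hCL (fun x => f (dg (fun _ => √a) hc x))
    (hf.comp_lin (dg (fun _ => √a) hc : (ι → ℝ) →L[ℝ] (ι → ℝ)))
  rw [var_comp_lin (dg (fun _ => √a) hc) V f] at h1
  have h2 : gs (fun x => f (dg (fun _ => √a) hc x)) =
      fun x => (fun z => a * gs f z) (dg (fun _ => √a) hc x) := by
    funext x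
    unfold gs
    simp only [Finset.mul_sum]
    refine Finset.sum_congr rfl fun i _ => ?_
    rw [ZD1_pd _ hc hd, mul_pow, hs2]
  rw [h2, ex_comp_lin (dg (fun _ => √a) hc) V (fun z => a * gs f z), ex_cmul] at h1
  rw [mul_assoc]
  exact h1

end Pool.Agent.Lib.MP_8d00da_gt.h42k.ZZ
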