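import Mathlib

section

/-!
# Variance from exponential tails
-/

namespace Pool.Agent.Lib.MP_8d00da_gt.h42k.ZZ

open MeasureTheory Set Filter
open scoped Topology NNReal ENNReal ContDiff

set_option linter.unusedSectionVars false
set_option linter.unusedVariables false

variable {n : ℕ}

private theorem zf2_int {T : ℝ} (hT : 0 < T) :
    ∫⁻ t in Ioi (0:ℝ), ENNReal.ofReal (Real.exp (-(T * t))) * ENNReal.ofReal (t ^ ((2:ℝ) - 1))
      = ENNReal.ofReal (1 / T ^ 2) := by
  have hI : ∫ t in Ioi (0:ℝ), t ^ ((2:ℝ) - 1) * Real.exp (-(T * t)) = 1 / T ^ 2 := by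
    rw [Real.integral_rpow_mul_exp_neg_mul_Ioi (by norm_num) hT]
    rw [Real.Gamma_two, mul_one]
    rw [Real.rpow_two]
    rw [div_pow, one_pow]
  have hint : Integrable (fun t : ℝ => t ^ ((2:ℝ) - 1) * Real.exp (-(T * t)))
      (volume.restrict (Ioi 0)) := by
    by_contra hcon
    rw [integral_undef hcon] at hI
    have : (0:ℝ) < 1 / T ^ 2 := by positivity
    linarith
  rw [← hI, ofReal_integral_eq_lintegral_ofReal hint]
  · apply setLIntegral_congr_fun measurableSet_Ioi
    intro t ht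
    have ht' : (0:ℝ) < t := ht
    show ENNReal.ofReal (Real.exp (-(T * t))) * ENNReal.ofReal (t ^ ((2:ℝ) - 1))
      = ENNReal.ofReal (t ^ ((2:ℝ) - 1) * Real.exp (-(T * t)))
    rw [mul_comm, ← ENNReal.ofReal_mul (by positivity)]
  · filter_upwards [ae_restrict_mem measurableSet_Ioi] with t ht
    have ht' : (0:ℝ) < t := ht
    show (0:ℝ) ≤ t ^ ((2:ℝ) - 1) * Real.exp (-(T * t))
    positivity

/-- `Var X ≤ E(X-m)² ≤ ∫ 2s P(|X-m|>s) ds ≤ 2/T²` (layer cake). -/
theorem var_of_tails {X : Type*} [MeasurableSpace X] {μ : Measure X} [IsProbabilityMeasure μ]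
    {Z : X → ℝ} (hZ : Measurable Z) {T m : ℝ} (hT : 0 < T)
    (hl : ∀ b ≤ m, μ.real {x | Z x ≤ b} ≤ Real.exp (-(T * (m - b))) / 2)
    (hr : ∀ b ≥ m, 1 - μ.real {x | Z x ≤ b} ≤ Real.exp (-(T * (b - m))) / 2) :
    (∫ x, Z x ^ 2 ∂μ) - (∫ x, Z x ∂μ) ^ 2 ≤ 2 / T ^ 2 := by
  have hm : Measurable (fun x => |Z x - m|) := by
    have : Measurable (fun x => Z x - m) := hZ.sub_const m
    exact this.abs
  have htail : ∀ t : ℝ, 0 < t → μ {x | t < |Z x - m|} ≤ ENNReal.ofReal (Real.exp (-(T * t))) := by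
    intro t ht
    have h1 : {x | t < |Z x - m|} ⊆ {x | Z x ≤ m - t} ∪ {x | Z x ≤ m + t}ᶜ := by
      intro x hx
      have hx' : t < |Z x - m| := hx
      rcases lt_abs.mp hx' with h | h
      · right
        show ¬ (Z x ≤ m + t)
        linarith
      · left
        show Z x ≤ m - t
        linarith
    have hms : MeasurableSet {x | Z x ≤ m + t} := hZ measurableSet_Iic
    have h2 : μ.real {x | t < |Z x - m|} ≤ Real.exp (-(T * t)) := by
      calc μ.real {x | t < |Z x - m|} ≤ μ.real ({x | Z x ≤ m - t} ∪ {x | Z x ≤ m + t}ᶜ) :=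
            measureReal_mono h1
        _ ≤ μ.real {x | Z x ≤ m - t} + μ.real {x | Z x ≤ m + t}ᶜ := measureReal_union_le _ _
        _ = μ.real {x | Z x ≤ m - t} + (1 - μ.real {x | Z x ≤ m + t}) := by
            rw [probReal_compl_eq_one_sub hms]
        _ ≤ Real.exp (-(T * (m - (m - t)))) / 2 + Real.exp (-(T * (m + t - m))) / 2 :=
            add_le_add (hl _ (by linarith)) (hr _ (by linarith))
        _ = Real.exp (-(T * t)) := by
            have e1 : m - (m - t) = t := by ring
            have e2 : m + t - m = t := by ring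
            rw [e1, e2]; ring
    rw [← ofReal_measureReal (measure_ne_top μ _)]
    exact ENNReal.ofReal_le_ofReal h2
  have hlay := lintegral_rpow_eq_lintegral_meas_lt_mul (μ := μ) (f := fun x => |Z x - m|)
    (Eventually.of_forall fun x => abs_nonneg _) hm.aemeasurable (p := 2) (by norm_num)
  have hbound : ∫⁻ x, ENNReal.ofReal (|Z x - m| ^ (2:ℝ)) ∂μ ≤ ENNReal.ofReal (2 / T ^ 2) := by
    rw [hlay]
    have h3 : ∫⁻ t in Ioi (0:ℝ), μ {a : X | t < |Z a - m|} * ENNReal.ofReal (t ^ ((2:ℝ) - 1))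
        ≤ ENNReal.ofReal (1 / T ^ 2) := by
      rw [← zf2_int hT]
      apply setLIntegral_mono' measurableSet_Ioi
      intro t ht
      exact mul_le_mul_left (htail t ht) _
    calc ENNReal.ofReal 2 * ∫⁻ t in Ioi (0:ℝ), μ {a : X | t < |Z a - m|} * ENNReal.ofReal (t ^ ((2:ℝ) - 1))
        ≤ ENNReal.ofReal 2 * ENNReal.ofReal (1 / T ^ 2) := by gcongr
      _ = ENNReal.ofReal (2 / T ^ 2) := by
          rw [← ENNReal.ofReal_mul (by norm_num)]
          congr 1
          ring
  have hsq : ∀ x, |Z x - m| ^ (2:ℝ) = (Z x - m) ^ 2 := by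
    intro x
    rw [Real.rpow_two, sq_abs]
  simp only [hsq] at hbound
  have hmz : Measurable (fun x => (Z x - m) ^ 2) := (hZ.sub_const m).pow_const 2
  have hint : Integrable (fun x => (Z x - m) ^ 2) μ := by
    refine ⟨hmz.aestronglyMeasurable, ?_⟩
    rw [hasFiniteIntegral_iff_ofReal (Eventually.of_forall fun x => sq_nonneg _)]
    exact lt_of_le_of_lt hbound ENNReal.ofReal_lt_top
  have hI : ∫ x, (Z x - m) ^ 2 ∂μ ≤ 2 / T ^ 2 := by
    rw [integral_eq_lintegral_of_nonneg_ae (Eventually.of_forall fun x => sq_nonneg _)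
      hmz.aestronglyMeasurable]
    calc (∫⁻ x, ENNReal.ofReal ((Z x - m) ^ 2) ∂μ).toReal ≤ (ENNReal.ofReal (2 / T ^ 2)).toReal :=
          ENNReal.toReal_mono ENNReal.ofReal_ne_top hbound
      _ = 2 / T ^ 2 := ENNReal.toReal_ofReal (by positivity)
  have hL2 : MemLp (fun x => Z x - m) 2 μ :=
    (memLp_two_iff_integrable_sq (hZ.sub_const m).aestronglyMeasurable).mpr hint
  have hZm : Integrable (fun x => Z x - m) μ := hL2.integrable (by norm_num)
  have hZi : Integrable Z μ := by
    have := hZm.add (integrable_const m)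
    refine this.congr (Eventually.of_forall fun x => ?_)
    show Z x - m + m = Z x
    ring
  have e1 : ∫ x, Z x ∂μ = (∫ x, (Z x - m) ∂μ) + m := by
    rw [integral_sub hZi (integrable_const m), integral_const]
    simp
  have e2 : ∫ x, Z x ^ 2 ∂μ = (∫ x, (Z x - m) ^ 2 ∂μ) + 2 * m * (∫ x, (Z x - m) ∂μ) + m ^ 2 := by
    have : (fun x => Z x ^ 2) = fun x => (Z x - m) ^ 2 + 2 * m * (Z x - m) + m ^ 2 := by
      funext x; ring
    have ha : Integrable (fun x => (Z x - m) ^ 2 + 2 * m * (Z x - m)) μ :=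
      hint.add (hZm.const_mul _)
    have hb : Integrable (fun x => 2 * m * (Z x - m)) μ := hZm.const_mul _
    rw [this, integral_add ha (integrable_const _),
      integral_add hint hb, integral_const_mul, integral_const]
    simp
  rw [e1, e2]
  nlinarith [sq_nonneg (∫ x, (Z x - m) ∂μ)]

end Pool.Agent.Lib.MP_8d00da_gt.h42k.ZZ
end

section

section

/-!
# One-dimensional Gronwall lemma
-/

namespace Pool.Agent.Lib.MP_8d00da_gt.h42k.ZZ

open MeasureTheory Set Filter
open scoped Topology NNReal ENNReal ContDiff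

set_option linter.unusedSectionVars false
set_option linter.unusedVariables false

variable {n : ℕ}

/-- from increments to slopes -/
private theorem ZF1_slope {F : ℝ → ℝ} {x r : ℝ}
    (h : ∀ᶠ ε in nhdsWithin (0 : ℝ) (Set.Ioi 0), r < (F (x + ε) - F x) / ε) :
    ∀ᶠ z in 𝓝[>] x, r < slope F x z := by
  have h1 : Tendsto (fun z => z - x) (𝓝[>] x) (𝓝[>] (0 : ℝ)) := by
    refine tendsto_nhdsWithin_iff.2 ⟨?_, ?_⟩
    · have h2 : Tendsto (fun z => z - x) (𝓝 x) (𝓝 (x - x)) :=
        (continuous_id.sub continuous_const).tendsto x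
      rw [sub_self] at h2
      exact h2.mono_left nhdsWithin_le_nhds
    · filter_upwards [self_mem_nhdsWithin] with z hz
      have hz' : x < z := hz
      show (0 : ℝ) < z - x
      linarith
  filter_upwards [h1.eventually h] with z hz
  rw [slope_def_field]
  have h3 : x + (z - x) = z := by ring
  rw [h3] at hz
  exact hz

/-- If `F` is continuous and `T F ≤ liminf_{ε→0+} (F(b+ε)-F(b))/ε` on `(-∞,m)`, then
`F(b) ≤ e^{-T(m-b)} F(m)` for `b ≤ m` (`image_le_of_liminf_slope_right_lt_deriv_boundary` or the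
monotonicity of `e^{-Tb}F(b)`). -/
theorem tail_left {F : ℝ → ℝ} (hc : Continuous F) (hmono : Monotone F) {T m : ℝ} (hT : 0 < T)
    (h : ∀ b < m, ∀ r < T * F b, ∀ᶠ ε in nhdsWithin (0 : ℝ) (Set.Ioi 0), r < (F (b + ε) - F b) / ε)
    {b : ℝ} (hb : b ≤ m) : F b ≤ Real.exp (-(T * (m - b))) * F m := by
  have key : ∀ δ > 0, -F m ≤ -F b * Real.exp (T * (m - b)) + δ * Real.exp ((T + 1) * (m - b)) := by
    intro δ hδ
    have h1 := image_le_of_liminf_slope_right_lt_deriv_boundary' (f := fun x => -F x)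
      (f' := fun x => -(T * F x)) (a := b) (b := m) hc.neg.continuousOn ?_
      (B := fun x => -F b * Real.exp (T * (x - b)) + δ * Real.exp ((T + 1) * (x - b)))
      (B' := fun x => -F b * (Real.exp (T * (x - b)) * T)
        + δ * (Real.exp ((T + 1) * (x - b)) * (T + 1))) ?_ ?_ ?_ ?_
    · exact h1 (right_mem_Icc.2 hb)
    · intro x hx r hr
      have h2 : -r < T * F x := by
        have : -(T * F x) < r := hr
        linarith
      have h3 := ZF1_slope (h x hx.2 (-r) h2)
      refine Eventually.frequently ?_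
      filter_upwards [h3] with z hz
      have h4 : slope (fun x => -F x) x z = -slope F x z := by
        rw [slope_def_field, slope_def_field]
        ring
      rw [h4]
      linarith
    · show -F b ≤ -F b * Real.exp (T * (b - b)) + δ * Real.exp ((T + 1) * (b - b))
      rw [sub_self, mul_zero, mul_zero, Real.exp_zero]
      linarith
    · refine Continuous.continuousOn ?_
      fun_prop
    · intro x hx
      have h5 : HasDerivAt (fun x : ℝ => T * (x - b)) T x := by
        simpa using ((hasDerivAt_id x).sub_const b).const_mul T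
      have h6 : HasDerivAt (fun x : ℝ => (T + 1) * (x - b)) (T + 1) x := by
        simpa using ((hasDerivAt_id x).sub_const b).const_mul (T + 1)
      exact ((h5.exp.const_mul (-F b)).add (h6.exp.const_mul δ)).hasDerivWithinAt
    · intro x hx hxe
      have hxe' : -F x = -F b * Real.exp (T * (x - b)) + δ * Real.exp ((T + 1) * (x - b)) := hxe
      show -(T * F x) < -F b * (Real.exp (T * (x - b)) * T)
        + δ * (Real.exp ((T + 1) * (x - b)) * (T + 1))
      have h7 : 0 < δ * Real.exp ((T + 1) * (x - b)) := mul_pos hδ (Real.exp_pos _)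
      have h8 : -(T * F x) = T * (-F x) := by ring
      rw [h8, hxe']
      nlinarith
  have h9 : -F m ≤ -F b * Real.exp (T * (m - b)) := by
    refine le_of_forall_pos_le_add fun ε hε => ?_
    have h10 := key (ε / Real.exp ((T + 1) * (m - b))) (div_pos hε (Real.exp_pos _))
    rwa [div_mul_cancel₀ _ (Real.exp_pos _).ne'] at h10
  have h11 : F b * Real.exp (T * (m - b)) ≤ F m := by linarith
  rw [Real.exp_neg, ← div_eq_inv_mul, le_div_iff₀ (Real.exp_pos _)]
  exact h11

theorem tail_right {F : ℝ → ℝ} (hc : Continuous F) (hmono : Monotone F) {T m : ℝ} (hT : 0 < T)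
    (h : ∀ b ≥ m, ∀ r < T * (1 - F b), ∀ᶠ ε in nhdsWithin (0 : ℝ) (Set.Ioi 0),
      r < (F (b + ε) - F b) / ε)
    {b : ℝ} (hb : m ≤ b) : 1 - F b ≤ Real.exp (-(T * (b - m))) * (1 - F m) := by
  have key : ∀ δ > 0, 1 - F b ≤ (1 - F m) * Real.exp (-T * (b - m))
      + δ * Real.exp (1 * (b - m)) := by
    intro δ hδ
    have h1 := image_le_of_liminf_slope_right_lt_deriv_boundary' (f := fun x => 1 - F x)
      (f' := fun x => -(T * (1 - F x))) (a := m) (b := b)
      (continuous_const.sub hc).continuousOn ?_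
      (B := fun x => (1 - F m) * Real.exp (-T * (x - m)) + δ * Real.exp (1 * (x - m)))
      (B' := fun x => (1 - F m) * (Real.exp (-T * (x - m)) * (-T))
        + δ * (Real.exp (1 * (x - m)) * 1)) ?_ ?_ ?_ ?_
    · exact h1 (right_mem_Icc.2 hb)
    · intro x hx r hr
      have h2 : -r < T * (1 - F x) := by
        have : -(T * (1 - F x)) < r := hr
        linarith
      have h3 := ZF1_slope (h x hx.1 (-r) h2)
      refine Eventually.frequently ?_
      filter_upwards [h3] with z hz
      have h4 : slope (fun x => 1 - F x) x z = -slope F x z := by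
        rw [slope_def_field, slope_def_field]
        ring
      rw [h4]
      linarith
    · show 1 - F m ≤ (1 - F m) * Real.exp (-T * (m - m)) + δ * Real.exp (1 * (m - m))
      rw [sub_self, mul_zero, mul_zero, Real.exp_zero]
      linarith
    · refine Continuous.continuousOn ?_
      fun_prop
    · intro x hx
      have h5 : HasDerivAt (fun x : ℝ => -T * (x - m)) (-T) x := by
        simpa using ((hasDerivAt_id x).sub_const m).const_mul (-T)
      have h6 : HasDerivAt (fun x : ℝ => 1 * (x - m)) 1 x := by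
        simpa using ((hasDerivAt_id x).sub_const m).const_mul 1
      exact ((h5.exp.const_mul (1 - F m)).add (h6.exp.const_mul δ)).hasDerivWithinAt
    · intro x hx hxe
      have hxe' : 1 - F x = (1 - F m) * Real.exp (-T * (x - m)) + δ * Real.exp (1 * (x - m)) := hxe
      show -(T * (1 - F x)) < (1 - F m) * (Real.exp (-T * (x - m)) * (-T))
        + δ * (Real.exp (1 * (x - m)) * 1)
      have h7 : 0 < δ * Real.exp (1 * (x - m)) := mul_pos hδ (Real.exp_pos _)
      rw [hxe']
      nlinarith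
  have h9 : 1 - F b ≤ (1 - F m) * Real.exp (-T * (b - m)) := by
    refine le_of_forall_pos_le_add fun ε hε => ?_
    have h10 := key (ε / Real.exp (1 * (b - m))) (div_pos hε (Real.exp_pos _))
    rwa [div_mul_cancel₀ _ (Real.exp_pos _).ne'] at h10
  have h11 : -(T * (b - m)) = -T * (b - m) := by ring
  rw [h11, mul_comm]
  exact h9

end Pool.Agent.Lib.MP_8d00da_gt.h42k.ZZ
end

section

/-!
# The halfspace hypothesis bounds the covariance
-/

namespace Pool.Agent.Lib.MP_8d00da_gt.h42k.ZZ

open MeasureTheory Set Filter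
open scoped Topology NNReal ENNReal ContDiff

set_option linter.unusedSectionVars false
set_option linter.unusedVariables false

variable {n : ℕ}

/-- Unit vectors: the thickening of a halfspace is contained in a halfspace. -/
theorem thickening_half {u : EuclideanSpace ℝ (Fin n)} (hu : ‖u‖ = 1) (b ε : ℝ) :
    Metric.thickening ε {x : EuclideanSpace ℝ (Fin n) | inner ℝ u x ≤ b} ⊆
      {x | inner ℝ u x < b + ε} := by
  intro x hx
  rw [Metric.mem_thickening_iff] at hx
  obtain ⟨z, hz, hd⟩ := hx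
  have hz' : inner ℝ u z ≤ b := hz
  have h1 : inner ℝ u x = inner ℝ u z + inner ℝ u (x - z) := by
    rw [inner_sub_right]
    ring
  have h2 : inner ℝ u (x - z) ≤ ‖u‖ * ‖x - z‖ := real_inner_le_norm _ _
  rw [hu, one_mul] at h2
  rw [dist_eq_norm] at hd
  show inner ℝ u x < b + ε
  linarith

/-- hyperplanes are null sets -/
private theorem zf3_hyper {u : EuclideanSpace ℝ (Fin n)} (hu : ‖u‖ = 1) (b : ℝ) :
    volume {x : EuclideanSpace ℝ (Fin n) | inner ℝ u x = b} = 0 := by
  have hne : (LinearMap.ker (innerₛₗ ℝ u)) ≠ ⊤ := by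
    intro h
    have h1 : u ∈ LinearMap.ker (innerₛₗ ℝ u) := by
      rw [h]
      trivial
    rw [LinearMap.mem_ker, innerₛₗ_apply_apply, real_inner_self_eq_norm_sq, hu] at h1
    norm_num at h1
  have h0 : volume ((LinearMap.ker (innerₛₗ ℝ u)) : Set (EuclideanSpace ℝ (Fin n))) = 0 :=
    Measure.addHaar_submodule volume _ hne
  have h2 : {x : EuclideanSpace ℝ (Fin n) | inner ℝ u x = b} =
      (fun x => x + (-(b • u))) ⁻¹'
        ((LinearMap.ker (innerₛₗ ℝ u)) : Set (EuclideanSpace ℝ (Fin n))) := by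
    ext x
    rw [Set.mem_preimage, SetLike.mem_coe, LinearMap.mem_ker, innerₛₗ_apply_apply,
      inner_add_right, inner_neg_right, inner_smul_right, real_inner_self_eq_norm_sq, hu]
    constructor
    · intro h
      have h' : inner ℝ u x = b := h
      rw [h']
      ring
    · intro h
      show inner ℝ u x = b
      linarith
  rw [h2, measure_preimage_add_right, h0]

/-- continuity of the distribution function -/
private theorem zf3_cont {μ : Measure (EuclideanSpace ℝ (Fin n))} [IsProbabilityMeasure μ]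
    (u : EuclideanSpace ℝ (Fin n))
    (h0 : ∀ b : ℝ, μ {x : EuclideanSpace ℝ (Fin n) | inner ℝ u x = b} = 0) :
    Continuous fun b : ℝ => μ.real {x : EuclideanSpace ℝ (Fin n) | inner ℝ u x ≤ b} := by
  have hm : Measurable fun x : EuclideanSpace ℝ (Fin n) => inner ℝ u x :=
    (continuous_const.inner continuous_id).measurable
  have hs : ∀ b : ℝ, MeasurableSet {x : EuclideanSpace ℝ (Fin n) | inner ℝ u x ≤ b} :=
    fun b => measurableSet_le hm measurable_const
  have e : (fun b : ℝ => μ.real {x : EuclideanSpace ℝ (Fin n) | inner ℝ u x ≤ b}) =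
      fun b : ℝ => ∫ x, Set.indicator {x : EuclideanSpace ℝ (Fin n) | inner ℝ u x ≤ b}
        (fun _ => (1 : ℝ)) x ∂μ := by
    funext b
    rw [integral_indicator_const _ (hs b)]
    simp
  rw [e, continuous_iff_continuousAt]
  intro b
  refine continuousAt_of_dominated (bound := fun _ => (1 : ℝ)) ?_ ?_ (integrable_const _) ?_
  · exact Filter.Eventually.of_forall fun c =>
      (measurable_const.indicator (hs c)).aestronglyMeasurable
  · refine Filter.Eventually.of_forall fun c => Filter.Eventually.of_forall fun x => ?_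
    by_cases hx : x ∈ {x : EuclideanSpace ℝ (Fin n) | inner ℝ u x ≤ c}
    · rw [Set.indicator_of_mem hx]
      norm_num
    · rw [Set.indicator_of_notMem hx]
      norm_num
  · have hae : ∀ᵐ x ∂μ, inner ℝ u x ≠ b := by
      rw [ae_iff]
      have : {x : EuclideanSpace ℝ (Fin n) | ¬ inner ℝ u x ≠ b} =
          {x : EuclideanSpace ℝ (Fin n) | inner ℝ u x = b} := by
        ext x
        simp
      rw [this]
      exact h0 b
    filter_upwards [hae] with x hx
    rcases lt_or_gt_of_ne hx with hlt | hgt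
    · have : ∀ᶠ c in 𝓝 b, Set.indicator {x : EuclideanSpace ℝ (Fin n) | inner ℝ u x ≤ c}
          (fun _ => (1 : ℝ)) x = 1 := by
        filter_upwards [lt_mem_nhds hlt] with c hc
        have hcm : x ∈ {x : EuclideanSpace ℝ (Fin n) | inner ℝ u x ≤ c} := hc.le
        exact Set.indicator_of_mem hcm _
      exact (continuousAt_const (y := (1 : ℝ))).congr (this.mono fun c hc => hc.symm)
    · have : ∀ᶠ c in 𝓝 b, Set.indicator {x : EuclideanSpace ℝ (Fin n) | inner ℝ u x ≤ c}
          (fun _ => (1 : ℝ)) x = 0 := by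
        filter_upwards [gt_mem_nhds hgt] with c hc
        have hcm : x ∉ {x : EuclideanSpace ℝ (Fin n) | inner ℝ u x ≤ c} := by
          intro hh
          have hh' : inner ℝ u x ≤ c := hh
          exact absurd hh' (not_le.mpr hc)
        exact Set.indicator_of_notMem hcm _
      exact (continuousAt_const (y := (0 : ℝ))).congr (this.mono fun c hc => hc.symm)

/-- the slope hypothesis for the distribution function -/
private theorem zf3_slope {μ : Measure (EuclideanSpace ℝ (Fin n))} [IsProbabilityMeasure μ]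
    {u : EuclideanSpace ℝ (Fin n)} (hu : ‖u‖ = 1) {T : ℝ} (hT : 0 < T) (b : ℝ)
    (h : ENNReal.ofReal T * min (μ {x : EuclideanSpace ℝ (Fin n) | inner ℝ u x ≤ b})
          (1 - μ {x : EuclideanSpace ℝ (Fin n) | inner ℝ u x ≤ b}) ≤
        Filter.liminf
          (fun ε : ℝ =>
            (μ (Metric.thickening ε {x : EuclideanSpace ℝ (Fin n) | inner ℝ u x ≤ b})
              - μ {x : EuclideanSpace ℝ (Fin n) | inner ℝ u x ≤ b})
              / ENNReal.ofReal ε)
          (nhdsWithin 0 (Set.Ioi 0)))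
    {r : ℝ} (hr : r < T * min (μ.real {x : EuclideanSpace ℝ (Fin n) | inner ℝ u x ≤ b})
      (1 - μ.real {x : EuclideanSpace ℝ (Fin n) | inner ℝ u x ≤ b})) :
    ∀ᶠ ε in nhdsWithin (0 : ℝ) (Set.Ioi 0),
      r < (μ.real {x : EuclideanSpace ℝ (Fin n) | inner ℝ u x ≤ b + ε} -
        μ.real {x : EuclideanSpace ℝ (Fin n) | inner ℝ u x ≤ b}) / ε := by
  set F : ℝ → ℝ := fun b => μ.real {x : EuclideanSpace ℝ (Fin n) | inner ℝ u x ≤ b} with hF
  have hFm : Monotone F := by
    intro c d hcd
    exact measureReal_mono (fun x (hx : inner ℝ u x ≤ c) => le_trans hx hcd)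
  have hF0 : ∀ c, 0 ≤ F c := fun c => measureReal_nonneg
  have hF1 : ∀ c, F c ≤ 1 := fun c => measureReal_le_one
  have hμF : ∀ c, μ {x : EuclideanSpace ℝ (Fin n) | inner ℝ u x ≤ c} = ENNReal.ofReal (F c) := by
    intro c
    exact (ofReal_measureReal (measure_ne_top _ _)).symm
  rcases lt_or_ge r 0 with hr0 | hr0
  · filter_upwards [self_mem_nhdsWithin] with ε hε
    have hε' : (0 : ℝ) < ε := hε
    have h1 : F b ≤ F (b + ε) := hFm (by linarith)
    refine lt_of_lt_of_le hr0 ?_
    exact div_nonneg (sub_nonneg.mpr h1) hε'.le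
  · have hmin : ENNReal.ofReal T * min (μ {x : EuclideanSpace ℝ (Fin n) | inner ℝ u x ≤ b})
          (1 - μ {x : EuclideanSpace ℝ (Fin n) | inner ℝ u x ≤ b}) =
        ENNReal.ofReal (T * min (F b) (1 - F b)) := by
      rw [hμF b, ← ENNReal.ofReal_one, ← ENNReal.ofReal_sub _ (hF0 b),
        ← (ENNReal.ofReal_mono).map_min, ← ENNReal.ofReal_mul hT.le]
    rw [hmin] at h
    have hpos : 0 < T * min (F b) (1 - F b) := lt_of_le_of_lt hr0 hr
    have h1 : ENNReal.ofReal r < ENNReal.ofReal (T * min (F b) (1 - F b)) :=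
      (ENNReal.ofReal_lt_ofReal_iff hpos).mpr hr
    have h2 := Filter.eventually_lt_of_lt_liminf (lt_of_lt_of_le h1 h)
    filter_upwards [h2, self_mem_nhdsWithin] with ε h3 hε
    have hε' : (0 : ℝ) < ε := hε
    have h4 : μ (Metric.thickening ε {x : EuclideanSpace ℝ (Fin n) | inner ℝ u x ≤ b}) ≤
        ENNReal.ofReal (F (b + ε)) := by
      rw [← hμF (b + ε)]
      refine measure_mono fun x hx => ?_
      have h7 : inner ℝ u x < b + ε := thickening_half hu b ε hx
      exact h7.le
    have h5 : (μ (Metric.thickening ε {x : EuclideanSpace ℝ (Fin n) | inner ℝ u x ≤ b})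
              - μ {x : EuclideanSpace ℝ (Fin n) | inner ℝ u x ≤ b})
              / ENNReal.ofReal ε ≤ ENNReal.ofReal ((F (b + ε) - F b) / ε) := by
      rw [ENNReal.ofReal_div_of_pos hε', ENNReal.ofReal_sub _ (hF0 b), hμF b]
      exact ENNReal.div_le_div_right (tsub_le_tsub_right h4 _) _
    have h6 : ENNReal.ofReal r < ENNReal.ofReal ((F (b + ε) - F b) / ε) := lt_of_lt_of_le h3 h5
    exact (ENNReal.ofReal_lt_ofReal_iff_of_nonneg hr0).mp h6

/-- the case of a unit vector -/
private theorem zf3_unit {K : Set (EuclideanSpace ℝ (Fin n))} (hK : Convex ℝ K) (hc : IsCompact K)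
    (hi : (interior K).Nonempty) {μ : Measure (EuclideanSpace ℝ (Fin n))}
    (hμ : μ = (volume K)⁻¹ • volume.restrict K) {T : ℝ} (hT : 0 < T)
    (h : ∀ (u : EuclideanSpace ℝ (Fin n)) (b : ℝ), u ≠ 0 →
      ENNReal.ofReal T * min (μ {x : EuclideanSpace ℝ (Fin n) | inner ℝ u x ≤ b})
          (1 - μ {x : EuclideanSpace ℝ (Fin n) | inner ℝ u x ≤ b}) ≤
        Filter.liminf
          (fun ε : ℝ =>
            (μ (Metric.thickening ε {x : EuclideanSpace ℝ (Fin n) | inner ℝ u x ≤ b})
              - μ {x : EuclideanSpace ℝ (Fin n) | inner ℝ u x ≤ b})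
              / ENNReal.ofReal ε)
          (nhdsWithin 0 (Set.Ioi 0)))
    {u : EuclideanSpace ℝ (Fin n)} (hu : ‖u‖ = 1) :
    (∫ x, inner ℝ u x ^ 2 ∂μ) - (∫ x, inner ℝ u x ∂μ) ^ 2 ≤ 2 / T ^ 2 := by
  have hv0 : volume K ≠ 0 := by
    have h1 : 0 < volume (interior K) := isOpen_interior.measure_pos volume hi
    exact (lt_of_lt_of_le h1 (measure_mono interior_subset)).ne'
  have hvt : volume K ≠ ⊤ := hc.measure_ne_top
  have hP : IsProbabilityMeasure μ := by
    constructor
    rw [hμ, Measure.smul_apply, Measure.restrict_apply_univ, smul_eq_mul]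
    exact ENNReal.inv_mul_cancel hv0 hvt
  have hu0 : u ≠ 0 := by
    intro h0
    rw [h0, norm_zero] at hu
    exact zero_ne_one hu
  have hnull : ∀ b : ℝ, μ {x : EuclideanSpace ℝ (Fin n) | inner ℝ u x = b} = 0 := by
    intro b
    have h1 : volume.restrict K {x : EuclideanSpace ℝ (Fin n) | inner ℝ u x = b} = 0 :=
      le_antisymm ((Measure.restrict_apply_le K _).trans_eq (zf3_hyper hu b)) zero_le
    rw [hμ, Measure.smul_apply, h1, smul_zero]
  have hKae : μ Kᶜ = 0 := by
    rw [hμ, Measure.smul_apply, Measure.restrict_apply hc.isClosed.measurableSet.compl,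
      Set.compl_inter_self, measure_empty, smul_zero]
  set F : ℝ → ℝ := fun b => μ.real {x : EuclideanSpace ℝ (Fin n) | inner ℝ u x ≤ b} with hF
  have hFc : Continuous F := zf3_cont u hnull
  have hFm : Monotone F := by
    intro c d hcd
    exact measureReal_mono (fun x (hx : inner ℝ u x ≤ c) => le_trans hx hcd)
  have hF0 : ∀ c, 0 ≤ F c := fun c => measureReal_nonneg
  have hF1 : ∀ c, F c ≤ 1 := fun c => measureReal_le_one
  obtain ⟨M, hM⟩ := hc.isBounded.exists_norm_le
  have hMK : ∀ x ∈ K, |inner ℝ u x| ≤ M := by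
    intro x hx
    have h1 := abs_real_inner_le_norm u x
    rw [hu, one_mul] at h1
    exact h1.trans (hM x hx)
  have hM0 : 0 ≤ M := by
    obtain ⟨x, hx⟩ := hi
    exact (abs_nonneg _).trans (hMK x (interior_subset hx))
  have hlow : F (-(M + 1)) = 0 := by
    have h1 : μ {x : EuclideanSpace ℝ (Fin n) | inner ℝ u x ≤ -(M + 1)} = 0 := by
      refine le_antisymm ((measure_mono ?_).trans_eq hKae) zero_le
      intro x hx hxK
      have h2 := (abs_le.mp (hMK x hxK)).1
      have h3 : inner ℝ u x ≤ -(M + 1) := hx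
      linarith
    show μ.real _ = 0
    rw [measureReal_def, h1, ENNReal.toReal_zero]
  have hhigh : F (M + 1) = 1 := by
    have h1 : μ {x : EuclideanSpace ℝ (Fin n) | inner ℝ u x ≤ M + 1} = 1 := by
      have hms : MeasurableSet {x : EuclideanSpace ℝ (Fin n) | inner ℝ u x ≤ M + 1} :=
        measurableSet_le (continuous_const.inner continuous_id).measurable measurable_const
      rw [← prob_compl_eq_zero_iff hms]
      refine le_antisymm ((measure_mono ?_).trans_eq hKae) zero_le
      intro x hx hxK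
      have h2 := (abs_le.mp (hMK x hxK)).2
      have h3 : ¬ inner ℝ u x ≤ M + 1 := hx
      exact h3 (by linarith)
    show μ.real _ = 1
    rw [measureReal_def, h1, ENNReal.toReal_one]
  obtain ⟨m, -, hm⟩ : (1 / 2 : ℝ) ∈ F '' Set.Icc (-(M + 1)) (M + 1) := by
    refine intermediate_value_Icc (by linarith) hFc.continuousOn ?_
    rw [hlow, hhigh]
    constructor <;> norm_num
  have hsl : ∀ b r : ℝ, r < T * min (F b) (1 - F b) →
      ∀ᶠ ε in nhdsWithin (0 : ℝ) (Set.Ioi 0), r < (F (b + ε) - F b) / ε :=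
    fun b r hr => zf3_slope hu hT b (h u b hu0) hr
  have hl : ∀ b ≤ m, F b ≤ Real.exp (-(T * (m - b))) / 2 := by
    intro b hb
    have h1 := tail_left hFc hFm hT (m := m) (fun c hcm r hr => by
      refine hsl c r ?_
      have h2 : F c ≤ 1 / 2 := hm ▸ hFm hcm.le
      rwa [min_eq_left (by linarith)]) hb
    rw [hm] at h1
    linarith
  have hr : ∀ b ≥ m, 1 - F b ≤ Real.exp (-(T * (b - m))) / 2 := by
    intro b hb
    have h1 := tail_right hFc hFm hT (m := m) (fun c hcm r hr => by
      refine hsl c r ?_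
      have h2 : 1 / 2 ≤ F c := hm ▸ hFm hcm
      rwa [min_eq_right (by linarith)]) hb
    rw [hm] at h1
    linarith
  exact var_of_tails (μ := μ) (Z := fun x => inner ℝ u x)
    (continuous_const.inner continuous_id).measurable hT hl hr

/-- For the uniform measure on a convex body the halfspace hypothesis with constant `T > 0` gives
`Var⟨u,x⟩ ≤ 2/T²` for unit vectors (`F(b) = μ{⟨u,x⟩ ≤ b}` is continuous since hyperplanes are null
sets, takes the value `1/2` at some `m`; `tail_left`, `tail_right`, `var_of_tails`). -/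
theorem cov_of_half {K : Set (EuclideanSpace ℝ (Fin n))} (hK : Convex ℝ K) (hc : IsCompact K)
    (hi : (interior K).Nonempty) {μ : Measure (EuclideanSpace ℝ (Fin n))}
    (hμ : μ = (volume K)⁻¹ • volume.restrict K) {T : ℝ} (hT : 0 < T)
    (h : ∀ (u : EuclideanSpace ℝ (Fin n)) (b : ℝ), u ≠ 0 →
      ENNReal.ofReal T * min (μ {x : EuclideanSpace ℝ (Fin n) | inner ℝ u x ≤ b})
          (1 - μ {x : EuclideanSpace ℝ (Fin n) | inner ℝ u x ≤ b}) ≤
        Filter.liminf
          (fun ε : ℝ =>
            (μ (Metric.thickening ε {x : EuclideanSpace ℝ (Fin n) | inner ℝ u x ≤ b})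
              - μ {x : EuclideanSpace ℝ (Fin n) | inner ℝ u x ≤ b})
              / ENNReal.ofReal ε)
          (nhdsWithin 0 (Set.Ioi 0)))
    (θ : EuclideanSpace ℝ (Fin n)) :
    (∫ x, inner ℝ θ x ^ 2 ∂μ) - (∫ x, inner ℝ θ x ∂μ) ^ 2 ≤ 2 / T ^ 2 * ‖θ‖ ^ 2 := by
  by_cases h0 : θ = 0
  · subst h0
    simp
  have hn : 0 < ‖θ‖ := norm_pos_iff.mpr h0
  set u : EuclideanSpace ℝ (Fin n) := ‖θ‖⁻¹ • θ with hudef
  have hu : ‖u‖ = 1 := by
    rw [hudef, norm_smul, norm_inv, norm_norm, inv_mul_cancel₀ hn.ne']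
  have hθ : θ = ‖θ‖ • u := by
    rw [hudef, smul_smul, mul_inv_cancel₀ hn.ne', one_smul]
  have hin : ∀ x : EuclideanSpace ℝ (Fin n), inner ℝ θ x = ‖θ‖ * inner ℝ u x := by
    intro x
    conv_lhs => rw [hθ]
    rw [real_inner_smul_left]
  have h1 := zf3_unit hK hc hi hμ hT h hu
  have e1 : (∫ x, inner ℝ θ x ^ 2 ∂μ) = ‖θ‖ ^ 2 * ∫ x, inner ℝ u x ^ 2 ∂μ := by
    rw [← integral_const_mul]
    refine integral_congr_ae (Filter.Eventually.of_forall fun x => ?_)
    show inner ℝ θ x ^ 2 = ‖θ‖ ^ 2 * inner ℝ u x ^ 2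
    rw [hin x]
    ring
  have e2 : (∫ x, inner ℝ θ x ∂μ) = ‖θ‖ * ∫ x, inner ℝ u x ∂μ := by
    rw [← integral_const_mul]
    exact integral_congr_ae (Filter.Eventually.of_forall fun x => hin x)
  rw [e1, e2]
  have h2 := mul_le_mul_of_nonneg_left h1 (sq_nonneg ‖θ‖)
  calc ‖θ‖ ^ 2 * (∫ x, inner ℝ u x ^ 2 ∂μ) - (‖θ‖ * ∫ x, inner ℝ u x ∂μ) ^ 2
      = ‖θ‖ ^ 2 * ((∫ x, inner ℝ u x ^ 2 ∂μ) - (∫ x, inner ℝ u x ∂μ) ^ 2) := by ring
    _ ≤ ‖θ‖ ^ 2 * (2 / T ^ 2) := h2
    _ = 2 / T ^ 2 * ‖θ‖ ^ 2 := by ring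

end Pool.Agent.Lib.MP_8d00da_gt.h42k.ZZ
end
end
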