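import Mathlib
import Pool.Agent.Lib.MP_8d00da_gt.h42k.RC1b
import Pool.Agent.Lib.MP_8d00da_gt.h42k.ZA4
import Pool.Agent.Lib.MP_8d00da_gt.h42k.ZD1
import Pool.Agent.Lib.MP_8d00da_gt.h42k.L11e
import Pool.Agent.Lib.MP_8d00da_gt.h42k.ZF3

section

section

/-!
# Smooth functions between a set and its neighbourhood
-/

namespace Pool.Agent.Lib.MP_8d00da_gt.h42k.ZZ

open MeasureTheory Set Filter
open scoped Topology NNReal ENNReal ContDiff

set_option linter.unusedSectionVars false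
set_option linter.unusedVariables false

variable {n : ℕ}

/-- The truncated distance function. -/
noncomputable def ZE1_u (A : Set (EuclideanSpace ℝ (Fin n))) (ε δ : ℝ)
    (x : EuclideanSpace ℝ (Fin n)) : ℝ :=
  min 1 (max 0 ((ε - 2 * δ - Metric.infDist x A) / (ε - 3 * δ)))

theorem ZE1_lip (A : Set (EuclideanSpace ℝ (Fin n))) {ε δ : ℝ} (h : 0 < ε - 3 * δ) :
    LipschitzWith (Real.toNNReal (1 / (ε - 3 * δ))) (ZE1_u A ε δ) := by
  apply LipschitzWith.of_dist_le_mul
  intro x y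
  rw [Real.coe_toNNReal _ (by positivity), Real.dist_eq]
  have h1 : |Metric.infDist x A - Metric.infDist y A| ≤ dist x y := by
    have := (Metric.lipschitz_infDist_pt A).dist_le_mul x y
    rw [NNReal.coe_one, one_mul, Real.dist_eq] at this
    exact this
  have h2 : |ZE1_u A ε δ x - ZE1_u A ε δ y| ≤
      |(ε - 2 * δ - Metric.infDist x A) / (ε - 3 * δ) -
        (ε - 2 * δ - Metric.infDist y A) / (ε - 3 * δ)| := by
    rw [ZE1_u, ZE1_u]
    refine (abs_min_sub_min_le_max _ _ _ _).trans ?_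
    rw [sub_self, abs_zero]
    refine max_le (abs_nonneg _) ?_
    refine (abs_max_sub_max_le_max _ _ _ _).trans ?_
    rw [sub_self, abs_zero]
    exact max_le (abs_nonneg _) le_rfl
  refine h2.trans ?_
  rw [← sub_div, abs_div, abs_of_pos h, div_eq_inv_mul, one_div]
  apply mul_le_mul_of_nonneg_left _ (inv_nonneg.2 h.le)
  rw [show ε - 2 * δ - Metric.infDist x A - (ε - 2 * δ - Metric.infDist y A) =
    -(Metric.infDist x A - Metric.infDist y A) by ring, abs_neg]
  exact h1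

theorem ZE1_nn (A : Set (EuclideanSpace ℝ (Fin n))) (ε δ : ℝ) (x : EuclideanSpace ℝ (Fin n)) :
    0 ≤ ZE1_u A ε δ x := le_min zero_le_one (le_max_left _ _)

theorem ZE1_le (A : Set (EuclideanSpace ℝ (Fin n))) (ε δ : ℝ) (x : EuclideanSpace ℝ (Fin n)) :
    ZE1_u A ε δ x ≤ 1 := min_le_left _ _

theorem ZE1_one {A : Set (EuclideanSpace ℝ (Fin n))} {ε δ : ℝ} (h : 0 < ε - 3 * δ)
    {x : EuclideanSpace ℝ (Fin n)} (hx : Metric.infDist x A ≤ δ) : ZE1_u A ε δ x = 1 := by
  apply min_eq_left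
  refine le_trans ?_ (le_max_right _ _)
  rw [le_div_iff₀ h]
  linarith

theorem ZE1_zero {A : Set (EuclideanSpace ℝ (Fin n))} {ε δ : ℝ} (h : 0 < ε - 3 * δ)
    {x : EuclideanSpace ℝ (Fin n)} (hx : ε - 2 * δ ≤ Metric.infDist x A) :
    ZE1_u A ε δ x = 0 := by
  rw [ZE1_u, max_eq_left, min_eq_right zero_le_one]
  apply div_nonpos_of_nonpos_of_nonneg _ h.le
  linarith

open scoped Convolution in
/-- The mollified function. -/
noncomputable def ZE1_f (φ : ContDiffBump (0 : EuclideanSpace ℝ (Fin n)))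
    (g : EuclideanSpace ℝ (Fin n) → ℝ) : EuclideanSpace ℝ (Fin n) → ℝ :=
  (φ.normed volume) ⋆[ContinuousLinearMap.lsmul ℝ ℝ, volume] g

theorem ZE1_f_def (φ : ContDiffBump (0 : EuclideanSpace ℝ (Fin n)))
    (g : EuclideanSpace ℝ (Fin n) → ℝ) (x : EuclideanSpace ℝ (Fin n)) :
    ZE1_f φ g x = ∫ t, φ.normed volume t * g (x - t) := rfl

theorem ZE1_int (φ : ContDiffBump (0 : EuclideanSpace ℝ (Fin n)))
    {g : EuclideanSpace ℝ (Fin n) → ℝ} (hg : Continuous g) (x : EuclideanSpace ℝ (Fin n)) :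
    Integrable (fun t => φ.normed volume t * g (x - t)) := by
  apply Continuous.integrable_of_hasCompactSupport
  · exact φ.continuous_normed.mul (hg.comp (continuous_const.sub continuous_id))
  · exact φ.hasCompactSupport_normed.mul_right

/-- Mollified distance function. Let `d = infDist · A`, `u = min 1 (max 0 ((ε - 2δ - d)/(ε - 3δ)))`
(`u = 1` where `d ≤ δ`, `u = 0` where `d ≥ ε - 2δ`, Lipschitz with constant `1/(ε-3δ)`), `f₀ = u * ρ_δ`
(convolution with a smooth bump of radius `δ`), `f = χ f₀`, `χ` a smooth cutoff `= 1` near `K`.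
The derivative vanishes on `A` and off the neighbourhood since `f₀` is extremal there. -/
theorem exists_moll {K A : Set (EuclideanSpace ℝ (Fin n))} (hK : IsCompact K) (hA : A.Nonempty)
    {ε δ : ℝ} (hδ : 0 < δ) (hε : 4 * δ ≤ ε) :
    ∃ f : EuclideanSpace ℝ (Fin n) → ℝ, ContDiff ℝ ∞ f ∧ HasCompactSupport f ∧
      (∀ x, 0 ≤ f x) ∧ (∀ x, f x ≤ 1) ∧ (∀ x ∈ K, x ∈ A → f x = 1 ∧ fderiv ℝ f x = 0) ∧
      (∀ x ∈ K, x ∉ Metric.thickening ε A → f x = 0 ∧ fderiv ℝ f x = 0) ∧
      ∀ x ∈ K, ‖fderiv ℝ f x‖ ≤ 1 / (ε - 3 * δ) := by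
  have h0 : 0 < ε - 3 * δ := by linarith
  obtain ⟨φ, hφ⟩ : ∃ φ : ContDiffBump (0 : EuclideanSpace ℝ (Fin n)), φ.rOut = δ :=
    ⟨⟨δ / 2, δ, by positivity, by linarith⟩, rfl⟩
  set u : EuclideanSpace ℝ (Fin n) → ℝ := ZE1_u A ε δ with hu
  have hlip := ZE1_lip A h0
  have hcont : Continuous u := hlip.continuous
  set f₀ : EuclideanSpace ℝ (Fin n) → ℝ := ZE1_f φ u with hf₀
  have hsm : ContDiff ℝ ∞ f₀ :=
    φ.hasCompactSupport_normed.contDiff_convolution_left _ φ.contDiff_normed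
      hcont.locallyIntegrable
  have hnn : ∀ x, 0 ≤ f₀ x := by
    intro x
    rw [hf₀, ZE1_f_def]
    exact integral_nonneg (fun t => mul_nonneg (φ.nonneg_normed t) (ZE1_nn A ε δ _))
  have hle : ∀ x, f₀ x ≤ 1 := by
    intro x
    rw [hf₀, ZE1_f_def, ← φ.integral_normed (μ := volume)]
    apply integral_mono (ZE1_int φ hcont x) φ.integrable_normed
    intro t
    exact mul_le_of_le_one_right (φ.nonneg_normed t) (ZE1_le A ε δ _)
  have hval : ∀ x c, (∀ z ∈ Metric.ball x δ, u z = c) → f₀ x = c := by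
    intro x c hc
    have hx : u x = c := hc x (Metric.mem_ball_self hδ)
    rw [← hx]
    apply φ.normed_convolution_eq_right (μ := volume)
    intro z hz
    rw [hφ] at hz
    rw [hc z hz, hx]
  have hone : ∀ x ∈ A, f₀ x = 1 := by
    intro x hx
    apply hval
    intro z hz
    apply ZE1_one h0
    exact (Metric.infDist_le_dist_of_mem hx).trans (Metric.mem_ball.1 hz).le
  have hzero : ∀ x, x ∉ Metric.thickening ε A → f₀ x = 0 := by
    intro x hx
    rw [Metric.mem_thickening_iff_infDist_lt hA, not_lt] at hx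
    apply hval
    intro z hz
    apply ZE1_zero h0
    have h1 := Metric.infDist_le_infDist_add_dist (s := A) (x := x) (y := z)
    have h2 : dist x z < δ := by
      rw [dist_comm]
      exact Metric.mem_ball.1 hz
    linarith
  have hlip2 : LipschitzWith (Real.toNNReal (1 / (ε - 3 * δ))) f₀ := by
    apply LipschitzWith.of_dist_le_mul
    intro x y
    rw [Real.dist_eq, hf₀, ZE1_f_def, ZE1_f_def,
      ← integral_sub (ZE1_int φ hcont x) (ZE1_int φ hcont y)]
    refine (abs_integral_le_integral_abs).trans ?_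
    have h1 : ∫ t, |φ.normed volume t * u (x - t) - φ.normed volume t * u (y - t)| ≤
        ∫ t, φ.normed volume t * ((Real.toNNReal (1 / (ε - 3 * δ)) : ℝ) * dist x y) := by
      apply integral_mono ((ZE1_int φ hcont x).sub (ZE1_int φ hcont y)).abs
        (φ.integrable_normed.mul_const _)
      intro t
      change |φ.normed volume t * u (x - t) - φ.normed volume t * u (y - t)| ≤
        φ.normed volume t * ((Real.toNNReal (1 / (ε - 3 * δ)) : ℝ) * dist x y)
      rw [← mul_sub, abs_mul, abs_of_nonneg (φ.nonneg_normed t)]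
      apply mul_le_mul_of_nonneg_left _ (φ.nonneg_normed t)
      have h2 := hlip.dist_le_mul (x - t) (y - t)
      rw [Real.dist_eq, dist_sub_right] at h2
      exact h2
    refine h1.trans (le_of_eq ?_)
    rw [integral_mul_const, φ.integral_normed, one_mul]
  have hder : ∀ x, ‖fderiv ℝ f₀ x‖ ≤ 1 / (ε - 3 * δ) := by
    intro x
    have := norm_fderiv_le_of_lipschitz ℝ (x₀ := x) hlip2
    rwa [Real.coe_toNNReal _ (by positivity)] at this
  -- the cutoff
  obtain ⟨R, hR⟩ := hK.isBounded.subset_closedBall (0 : EuclideanSpace ℝ (Fin n))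
  obtain ⟨χ, hχ⟩ : ∃ χ : ContDiffBump (0 : EuclideanSpace ℝ (Fin n)), χ.rIn = max R 0 + 1 :=
    ⟨⟨max R 0 + 1, max R 0 + 2, by positivity, by linarith⟩, rfl⟩
  have hnear : ∀ x ∈ K, (fun y => χ y * f₀ y) =ᶠ[𝓝 x] f₀ := by
    intro x hx
    have h1 : x ∈ Metric.ball (0 : EuclideanSpace ℝ (Fin n)) χ.rIn := by
      rw [hχ, Metric.mem_ball]
      have h2 := Metric.mem_closedBall.1 (hR hx)
      have h3 := le_max_left R 0
      linarith
    filter_upwards [Metric.isOpen_ball.mem_nhds h1] with y hy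
    rw [χ.one_of_mem_closedBall (Metric.ball_subset_closedBall hy), one_mul]
  refine ⟨fun y => χ y * f₀ y, χ.contDiff.mul hsm, χ.hasCompactSupport.mul_right, ?_, ?_, ?_,
    ?_, ?_⟩
  · intro x
    exact mul_nonneg χ.nonneg (hnn x)
  · intro x
    exact mul_le_one₀ χ.le_one (hnn x) (hle x)
  · intro x hxK hxA
    have h1 := (hnear x hxK).eq_of_nhds
    refine ⟨h1.trans (hone x hxA), ?_⟩
    rw [(hnear x hxK).fderiv_eq]
    apply IsLocalMax.fderiv_eq_zero
    apply Filter.Eventually.of_forall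
    intro y
    rw [hone x hxA]
    exact hle y
  · intro x hxK hxA
    have h1 := (hnear x hxK).eq_of_nhds
    refine ⟨h1.trans (hzero x hxA), ?_⟩
    rw [(hnear x hxK).fderiv_eq]
    apply IsLocalMin.fderiv_eq_zero
    apply Filter.Eventually.of_forall
    intro y
    rw [hzero x hxA]
    exact hnn y
  · intro x hxK
    rw [(hnear x hxK).fderiv_eq]
    exact hder x

end Pool.Agent.Lib.MP_8d00da_gt.h42k.ZZ
end

section

/-!
# The Minkowski content inequality, integrated form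
-/

namespace Pool.Agent.Lib.MP_8d00da_gt.h42k.ZZ

open MeasureTheory Set Filter
open scoped Topology NNReal ENNReal ContDiff

set_option linter.unusedSectionVars false
set_option linter.unusedVariables false

variable {n : ℕ}

/-- For all measurable `A` and `ε > 0`: `μ(A) - μ(A_ε)² ≤ (B/ε)(μ(A_ε) - μ(A))`
(`exists_moll` and `δ → 0`; `1_A ≤ f ≤ 1_{A_ε}` on `K`, `|∇f| ≤ 1/(ε-3δ)` on `A_ε \ A`). -/
theorem content_ineq {K : Set (EuclideanSpace ℝ (Fin n))} (hK : IsCompact K)
    {μ : Measure (EuclideanSpace ℝ (Fin n))} [IsProbabilityMeasure μ] (hμ : μ Kᶜ = 0) {B : ℝ}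
    (hB : 0 ≤ B)
    (h : ∀ f : EuclideanSpace ℝ (Fin n) → ℝ, ContDiff ℝ ∞ f → HasCompactSupport f →
      (∀ x, 0 ≤ f x) → (∀ x, f x ≤ 1) →
      (∫ x, f x ^ 2 ∂μ) - (∫ x, f x ∂μ) ^ 2 ≤ B * ∫ x, ‖fderiv ℝ f x‖ ∂μ)
    {A : Set (EuclideanSpace ℝ (Fin n))} (hA : MeasurableSet A) (hne : A.Nonempty) {ε : ℝ}
    (hε : 0 < ε) :
    μ.real A - μ.real (Metric.thickening ε A) ^ 2 ≤
      B / ε * (μ.real (Metric.thickening ε A) - μ.real A) := by
  have hAT : A ⊆ Metric.thickening ε A := Metric.self_subset_thickening hε A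
  have hTm : MeasurableSet (Metric.thickening ε A) := Metric.isOpen_thickening.measurableSet
  have haeK : ∀ᵐ x ∂μ, x ∈ K := by
    rw [ae_iff]
    exact hμ
  have hdiff : μ.real (Metric.thickening ε A \ A) =
      μ.real (Metric.thickening ε A) - μ.real A := measureReal_diff hAT hA
  have hdiff0 : 0 ≤ μ.real (Metric.thickening ε A) - μ.real A := by
    rw [← hdiff]; exact measureReal_nonneg
  have key : ∀ δ : ℝ, 0 < δ → 4 * δ ≤ ε →
      μ.real A - μ.real (Metric.thickening ε A) ^ 2 ≤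
        B / (ε - 3 * δ) * (μ.real (Metric.thickening ε A) - μ.real A) := by
    intro δ hδ hδε
    have hpos : 0 < ε - 3 * δ := by linarith
    obtain ⟨f, hf, hfc, hf0, hf1, hfA, hfT, hfd⟩ := exists_moll hK hne hδ hδε
    have hfi : Integrable f μ := hf.continuous.integrable_of_hasCompactSupport hfc
    have hf2i : Integrable (fun x => f x ^ 2) μ := by
      refine (hf.continuous.pow 2).integrable_of_hasCompactSupport ?_
      exact hfc.comp_left (g := fun t : ℝ => t ^ 2) (by norm_num)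
    have hdc : Continuous fun x => ‖fderiv ℝ f x‖ :=
      (hf.continuous_fderiv (by norm_num)).norm
    have hdi : Integrable (fun x => ‖fderiv ℝ f x‖) μ := by
      refine hdc.integrable_of_hasCompactSupport ?_
      exact (hfc.fderiv (𝕜 := ℝ)).comp_left (g := fun t => ‖t‖) (by simp)
    have h1 : μ.real A ≤ ∫ x, f x ^ 2 ∂μ := by
      have : μ.real A = ∫ x, A.indicator (fun _ => (1 : ℝ)) x ∂μ := by
        rw [integral_indicator_const _ hA]; simp
      rw [this]
      refine integral_mono_ae ((integrable_const _).indicator hA) hf2i ?_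
      filter_upwards [haeK] with x hx
      by_cases hxA : x ∈ A
      · rw [indicator_of_mem hxA, (hfA x hx hxA).1]; norm_num
      · rw [indicator_of_notMem hxA]; positivity
    have h2 : ∫ x, f x ∂μ ≤ μ.real (Metric.thickening ε A) := by
      have : μ.real (Metric.thickening ε A) =
          ∫ x, (Metric.thickening ε A).indicator (fun _ => (1 : ℝ)) x ∂μ := by
        rw [integral_indicator_const _ hTm]; simp
      rw [this]
      refine integral_mono_ae hfi ((integrable_const _).indicator hTm) ?_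
      filter_upwards [haeK] with x hx
      by_cases hxA : x ∈ Metric.thickening ε A
      · rw [indicator_of_mem hxA]; exact hf1 x
      · rw [indicator_of_notMem hxA, (hfT x hx hxA).1]
    have h20 : 0 ≤ ∫ x, f x ∂μ := integral_nonneg hf0
    have h3 : ∫ x, ‖fderiv ℝ f x‖ ∂μ ≤
        1 / (ε - 3 * δ) * (μ.real (Metric.thickening ε A) - μ.real A) := by
      have hm : MeasurableSet (Metric.thickening ε A \ A) := hTm.diff hA
      have : 1 / (ε - 3 * δ) * (μ.real (Metric.thickening ε A) - μ.real A) =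
          ∫ x, (Metric.thickening ε A \ A).indicator (fun _ => 1 / (ε - 3 * δ)) x ∂μ := by
        rw [integral_indicator_const _ hm, hdiff, smul_eq_mul, mul_comm]
      rw [this]
      refine integral_mono_ae hdi ((integrable_const _).indicator hm) ?_
      filter_upwards [haeK] with x hx
      by_cases hxA : x ∈ A
      · rw [(hfA x hx hxA).2, norm_zero]
        exact indicator_nonneg (fun _ _ => by positivity) x
      · by_cases hxT : x ∈ Metric.thickening ε A
        · rw [indicator_of_mem (show x ∈ Metric.thickening ε A \ A from ⟨hxT, hxA⟩)]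
          exact hfd x hx
        · rw [(hfT x hx hxT).2, norm_zero]
          exact indicator_nonneg (fun _ _ => by positivity) x
    have h4 := h f hf hfc hf0 hf1
    have h5 : (∫ x, f x ∂μ) ^ 2 ≤ μ.real (Metric.thickening ε A) ^ 2 :=
      pow_le_pow_left₀ h20 h2 2
    have h6 : B * ∫ x, ‖fderiv ℝ f x‖ ∂μ ≤
        B * (1 / (ε - 3 * δ) * (μ.real (Metric.thickening ε A) - μ.real A)) :=
      mul_le_mul_of_nonneg_left h3 hB
    have h7 : B * (1 / (ε - 3 * δ) * (μ.real (Metric.thickening ε A) - μ.real A)) =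
        B / (ε - 3 * δ) * (μ.real (Metric.thickening ε A) - μ.real A) := by
      rw [← mul_assoc, mul_one_div]
    linarith
  have hlim : Tendsto (fun δ : ℝ => B / (ε - 3 * δ) *
      (μ.real (Metric.thickening ε A) - μ.real A)) (𝓝[>] 0)
      (𝓝 (B / ε * (μ.real (Metric.thickening ε A) - μ.real A))) := by
    have hc : ContinuousAt (fun δ : ℝ => B / (ε - 3 * δ) *
        (μ.real (Metric.thickening ε A) - μ.real A)) 0 := by
      refine ContinuousAt.mul (ContinuousAt.div continuousAt_const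
        (by fun_prop) (by simpa using hε.ne')) continuousAt_const
    have := hc.tendsto
    simp only [mul_zero, sub_zero] at this
    exact this.mono_left nhdsWithin_le_nhds
  refine ge_of_tendsto hlim ?_
  have hmem : Set.Ioc (0 : ℝ) (ε / 4) ∈ 𝓝[>] (0 : ℝ) := Ioc_mem_nhdsGT (by positivity)
  filter_upwards [hmem] with δ hδ
  exact key δ hδ.1 (by have := hδ.2; linarith)

end Pool.Agent.Lib.MP_8d00da_gt.h42k.ZZ
end

section

/-!
# The Minkowski content inequality
-/

namespace Pool.Agent.Lib.MP_8d00da_gt.h42k.ZZ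

open MeasureTheory Set Filter
open scoped Topology NNReal ENNReal ContDiff

set_option linter.unusedSectionVars false
set_option linter.unusedVariables false

variable {n : ℕ}

/-- From the integrated form to the lower Minkowski content: if the liminf is finite then
`μ(A_ε) → μ(A)` and `a - a² ≤ B liminf`; `a(1-a) ≥ min(a,1-a)/2`. -/
theorem liminf_ge {X : Type*} [PseudoMetricSpace X] [MeasurableSpace X] {μ : Measure X}
    [IsProbabilityMeasure μ] {B : ℝ} (hB : 0 < B) {A : Set X}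
    (h : ∀ ε : ℝ, 0 < ε → μ.real A - μ.real (Metric.thickening ε A) ^ 2 ≤
      B / ε * (μ.real (Metric.thickening ε A) - μ.real A)) :
    ENNReal.ofReal (1 / (2 * B)) * min (μ A) (1 - μ A) ≤
      Filter.liminf (fun ε : ℝ => (μ (Metric.thickening ε A) - μ A) / ENNReal.ofReal ε)
        (nhdsWithin 0 (Set.Ioi 0)) := by
  by_contra hlt
  rw [not_le] at hlt
  obtain ⟨c, hc1, hc2⟩ := exists_between hlt
  have hfr := Filter.frequently_lt_of_liminf_lt (by isBoundedDefault) hc1
  set a : ℝ := μ.real A with ha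
  have ha0 : 0 ≤ a := measureReal_nonneg
  have ha1 : a ≤ 1 := measureReal_le_one
  have hμA : μ A = ENNReal.ofReal a := by
    rw [ha, ofReal_measureReal]
  have hmin : min (μ A) (1 - μ A) = ENNReal.ofReal (min a (1 - a)) := by
    rw [hμA, ← ENNReal.ofReal_one, ← ENNReal.ofReal_sub _ ha0, ENNReal.ofReal_min]
  have hR : ENNReal.ofReal (1 / (2 * B)) * min (μ A) (1 - μ A) =
      ENNReal.ofReal (1 / (2 * B) * min a (1 - a)) := by
    rw [hmin, ← ENNReal.ofReal_mul (by positivity)]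
  rw [hR] at hc2
  have hctop : c ≠ ⊤ := (hc2.trans ENNReal.ofReal_lt_top).ne
  set r : ℝ := c.toReal with hr
  have hr0 : 0 ≤ r := ENNReal.toReal_nonneg
  have hcr : c = ENNReal.ofReal r := (ENNReal.ofReal_toReal hctop).symm
  have hr1 : r < 1 / (2 * B) * min a (1 - a) := by
    rw [hcr] at hc2
    exact (ENNReal.ofReal_lt_ofReal_iff_of_nonneg hr0).1 hc2
  have htend : Tendsto (fun ε : ℝ => a - (a + r * ε) ^ 2) (nhdsWithin 0 (Set.Ioi 0))
      (nhds (a - (a + r * 0) ^ 2)) := by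
    have hcont : Continuous (fun ε : ℝ => a - (a + r * ε) ^ 2) := by fun_prop
    exact (hcont.tendsto 0).mono_left nhdsWithin_le_nhds
  have hfr2 : ∃ᶠ ε in nhdsWithin (0 : ℝ) (Set.Ioi 0), a - (a + r * ε) ^ 2 ≤ B * r := by
    refine (hfr.and_eventually self_mem_nhdsWithin).mono ?_
    rintro ε ⟨h1, h2⟩
    have hε : (0 : ℝ) < ε := h2
    have hε' : ENNReal.ofReal ε ≠ 0 := (ENNReal.ofReal_pos.2 hε).ne'
    rw [ENNReal.div_lt_iff (Or.inl hε') (Or.inl ENNReal.ofReal_ne_top), hcr,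
      ← ENNReal.ofReal_mul hr0] at h1
    have hsub : A ⊆ Metric.thickening ε A := Metric.self_subset_thickening hε A
    have h3 : μ A ≤ μ (Metric.thickening ε A) := measure_mono hsub
    have h4 : μ.real (Metric.thickening ε A) - a < r * ε := by
      have h5 : μ (Metric.thickening ε A) - μ A =
          ENNReal.ofReal (μ.real (Metric.thickening ε A) - a) := by
        rw [ENNReal.ofReal_sub _ ha0, ← hμA, ofReal_measureReal]
      rw [h5] at h1
      exact (ENNReal.ofReal_lt_ofReal_iff_of_nonneg (by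
        rw [ha]
        exact sub_nonneg.2 (measureReal_mono hsub))).1 h1
    have h6 : 0 ≤ μ.real (Metric.thickening ε A) := measureReal_nonneg
    have h7 := h ε hε
    have h8 : B / ε * (μ.real (Metric.thickening ε A) - a) ≤ B / ε * (r * ε) :=
      mul_le_mul_of_nonneg_left h4.le (by positivity)
    have h9 : B / ε * (r * ε) = B * r := by
      field_simp
    have h10 : μ.real (Metric.thickening ε A) ^ 2 ≤ (a + r * ε) ^ 2 := by
      apply pow_le_pow_left₀ h6
      linarith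
    linarith
  have hfin := le_of_tendsto_of_frequently htend hfr2
  rw [mul_zero, add_zero] at hfin
  have hm : min a (1 - a) / 2 ≤ a - a ^ 2 := by
    rcases le_total a (1 - a) with h1 | h1
    · rw [min_eq_left h1]
      nlinarith
    · rw [min_eq_right h1]
      nlinarith
  have hlast : B * r < B * (1 / (2 * B) * min a (1 - a)) := mul_lt_mul_of_pos_left hr1 hB
  have e : B * (1 / (2 * B) * min a (1 - a)) = min a (1 - a) / 2 := by
    field_simp
  linarith

end Pool.Agent.Lib.MP_8d00da_gt.h42k.ZZ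
end
end

section

section

/-!
# The trace inequality: the endpoint (paper 336, R.4 (ii)): covariances
-/

namespace Pool.Agent.Lib.MP_8d00da_gt.h42k

open MeasureTheory Set Filter
open scoped Topology NNReal ENNReal ContDiff

set_option linter.unusedSectionVars false
set_option linter.unusedVariables false

variable {ι : Type*} [Fintype ι] [DecidableEq ι]

variable {κ M : ℝ} {V : (ι → ℝ) → ℝ} {F : ι → (ι → ℝ) → ℝ}

private theorem RC4b_t0 {φ : (ι → ℝ) → ℝ} (hφ : Cc φ) : T0 φ :=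
  ⟨hφ.smooth.continuous.measurable, PG.of_compact hφ.smooth.continuous hφ.supp⟩

/-- `Cov(φ, x_l) = ∑_m E[∂_m φ] A_ml + O(E|x~|³ + E|x~| E|x~|²)`, with a constant which depends only
on `φ` and `κ ≥ 1` does not matter: all potentials with `D²W ≥ ρ`. (Insert `a = mean` in
`taylor_cc`; `cm1_le`, `cm2_le`, `cm3_le`.) -/
theorem cov_taylor {φ : (ι → ℝ) → ℝ} (hφ : Cc φ) : ∃ C : ℝ, 0 ≤ C ∧
    ∀ (ρ M : ℝ) (W : (ι → ℝ) → ℝ), Nice ρ M W → ∀ l,
      |cov W φ (fun x => x l) - ∑ m, ex W (pd m φ) * CM W m l| ≤ C / (ρ * √ρ) := by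
  obtain ⟨C0, hC0, hT⟩ := taylor_cc hφ
  obtain ⟨n, hn⟩ : ∃ n : ℝ, n = Fintype.card ι := ⟨_, rfl⟩
  have hn0 : 0 ≤ n := by
    rw [hn]
    exact Nat.cast_nonneg _
  refine ⟨C0 * (2 * n + n ^ 2) + n * (C0 * √n * n), by positivity, ?_⟩
  intro ρ M W H l
  have hρ := H.kpos
  have tφ : T0 φ := RC4b_t0 hφ
  have tp : ∀ m, T0 (pd m φ) := fun m => RC4b_t0 (hφ.pdc m)
  have tc : ∀ i, T0 (fun x => ctr W x i) := S6b_ctr W
  have tsq : T0 (fun x => sq (ctr W x)) := T0.sum Finset.univ fun i _ => (tc i).pow 2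
  have tsr : T0 (fun x => √(sq (ctr W x))) := tsq.sqrt
  have h2 := cm2_le H
  have h3 := cm3_le H
  have h1 := cm1_le H
  rw [← hn] at h1 h2 h3
  have hR : ∀ x, |φ x - φ (mn W) - ∑ m, pd m φ (mn W) * ctr W x m| ≤ C0 * sq (ctr W x) :=
    fun x => (hT (mn W) x).1
  have hr : ∀ x m, |pd m φ x - pd m φ (mn W)| ≤ C0 * √(sq (ctr W x)) :=
    fun x m => (hT (mn W) x).2 m
  have tS : T0 (fun x => ∑ m, pd m φ (mn W) * ctr W x m) :=
    T0.sum Finset.univ fun m _ => (tc m).cmul _
  have tR : T0 (fun x => φ x - φ (mn W) - ∑ m, pd m φ (mn W) * ctr W x m) :=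
    (tφ.sub (T0.const _)).sub tS
  have e0 : ex W (fun x => ctr W x l) = 0 := by
    unfold ctr
    rw [ex_sub H (T0.coord l) (T0.const _), ex_const H]
    unfold mn
    ring
  have e1 : cov W φ (fun x => x l) = ex W (fun x => φ x * ctr W x l) := by
    rw [cov_comm, cov_eq_left H (T0.coord l) tφ]
    congr 1
    funext x
    unfold ctr mn
    ring
  have e2 : ∀ m, CM W m l = ex W (fun x => ctr W x m * ctr W x l) := by
    intro m
    exact cov_eq H (T0.coord m) (T0.coord l)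
  have e3 : ex W (fun x => φ x * ctr W x l) =
      ex W (fun x => (φ x - φ (mn W) - ∑ m, pd m φ (mn W) * ctr W x m) * ctr W x l) +
        ∑ m, pd m φ (mn W) * CM W m l := by
    have e4 : (fun x => φ x * ctr W x l) = fun x =>
        ((φ x - φ (mn W) - ∑ m, pd m φ (mn W) * ctr W x m) * ctr W x l +
          ∑ m, pd m φ (mn W) * (ctr W x m * ctr W x l)) + φ (mn W) * ctr W x l := by
      funext x
      have e5 : ∑ m, pd m φ (mn W) * (ctr W x m * ctr W x l) =
          (∑ m, pd m φ (mn W) * ctr W x m) * ctr W x l := by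
        rw [Finset.sum_mul]
        exact Finset.sum_congr rfl fun m _ => by ring
      rw [e5]
      ring
    have t1 : T0 (fun x => (φ x - φ (mn W) - ∑ m, pd m φ (mn W) * ctr W x m) * ctr W x l) :=
      tR.mul (tc l)
    have t2 : ∀ m ∈ Finset.univ, T0 (fun x => pd m φ (mn W) * (ctr W x m * ctr W x l)) :=
      fun m _ => ((tc m).mul (tc l)).cmul _
    rw [e4, ex_add H (t1.add (T0.sum Finset.univ t2)) ((tc l).cmul _),
      ex_add H t1 (T0.sum Finset.univ t2), ex_cmul, e0, mul_zero, add_zero,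
      ex_sum H Finset.univ (F := fun m x => pd m φ (mn W) * (ctr W x m * ctr W x l)) t2]
    congr 1
    exact Finset.sum_congr rfl fun m _ => by rw [ex_cmul, e2]
  -- first bound
  have b1 : |ex W (fun x => (φ x - φ (mn W) - ∑ m, pd m φ (mn W) * ctr W x m) * ctr W x l)| ≤
      C0 * ((2 * n + n ^ 2) / (ρ * √ρ)) := by
    refine (ex_abs_le H (tR.mul (tc l))).trans ?_
    have b2 : ex W (fun x => |(φ x - φ (mn W) - ∑ m, pd m φ (mn W) * ctr W x m) * ctr W x l|) ≤
        ex W (fun x => C0 * (sq (ctr W x) * √(sq (ctr W x)))) := by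
      refine ex_mono H (tR.mul (tc l)).abs ((tsq.mul tsr).cmul _) fun x => ?_
      rw [abs_mul, ← mul_assoc]
      refine mul_le_mul (hR x) ?_ (abs_nonneg _) (mul_nonneg hC0 (sq_nn _))
      rw [← Real.sqrt_sq_eq_abs]
      exact Real.sqrt_le_sqrt (coord_sq_le (ctr W x) l)
    refine b2.trans ?_
    rw [ex_cmul]
    exact mul_le_mul_of_nonneg_left h3 hC0
  -- second bound
  have b3 : ∀ m, |ex W (pd m φ) - pd m φ (mn W)| ≤ C0 * (√n / √ρ) := by
    intro m
    have e6 : ex W (pd m φ) - pd m φ (mn W) = ex W (fun x => pd m φ x - pd m φ (mn W)) := by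
      rw [ex_sub H (tp m) (T0.const _), ex_const H]
    rw [e6]
    refine (ex_abs_le H ((tp m).sub (T0.const _))).trans ?_
    have b4 : ex W (fun x => |pd m φ x - pd m φ (mn W)|) ≤
        ex W (fun x => C0 * √(sq (ctr W x))) :=
      ex_mono H ((tp m).sub (T0.const _)).abs (tsr.cmul _) fun x => hr x m
    refine b4.trans ?_
    rw [ex_cmul]
    exact mul_le_mul_of_nonneg_left h1 hC0
  have b5 : ∀ m, |CM W m l| ≤ n / ρ := by
    intro m
    rw [e2 m]
    refine (ex_abs_le H ((tc m).mul (tc l))).trans ?_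
    refine le_trans (ex_mono H ((tc m).mul (tc l)).abs tsq fun x => ?_) h2
    rw [abs_mul]
    have h4 := coord_sq_le (ctr W x) m
    have h5 := coord_sq_le (ctr W x) l
    have h6 : |ctr W x m| ^ 2 = ctr W x m ^ 2 := sq_abs _
    have h7 : |ctr W x l| ^ 2 = ctr W x l ^ 2 := sq_abs _
    nlinarith [_root_.sq_nonneg (|ctr W x m| - |ctr W x l|)]
  have e7 : cov W φ (fun x => x l) - ∑ m, ex W (pd m φ) * CM W m l =
      ex W (fun x => (φ x - φ (mn W) - ∑ m, pd m φ (mn W) * ctr W x m) * ctr W x l) -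
        ∑ m, (ex W (pd m φ) - pd m φ (mn W)) * CM W m l := by
    rw [e1, e3]
    simp only [sub_mul, Finset.sum_sub_distrib]
    ring
  have hsρ : 0 < √ρ := Real.sqrt_pos.2 hρ
  have b6 : |∑ m, (ex W (pd m φ) - pd m φ (mn W)) * CM W m l| ≤
      n * (C0 * √n * n / (ρ * √ρ)) := by
    refine (Finset.abs_sum_le_sum_abs _ _).trans ?_
    have b7 : ∀ m ∈ Finset.univ, |(ex W (pd m φ) - pd m φ (mn W)) * CM W m l| ≤
        C0 * √n * n / (ρ * √ρ) := by
      intro m _
      rw [abs_mul]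
      refine (mul_le_mul (b3 m) (b5 m) (abs_nonneg _) (by positivity)).trans (le_of_eq ?_)
      field_simp
    refine (Finset.sum_le_sum b7).trans (le_of_eq ?_)
    rw [Finset.sum_const, Finset.card_univ, nsmul_eq_mul, hn]
  rw [e7]
  refine (abs_sub _ _).trans ((add_le_add b1 b6).trans (le_of_eq ?_))
  field_simp

end Pool.Agent.Lib.MP_8d00da_gt.h42k
end

section

/-!
# Log-sum-exp of functions of the posterior: generator (paper 336, R.4): the generator theorem
-/

namespace Pool.Agent.Lib.MP_8d00da_gt.h42k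

open MeasureTheory Set Filter
open scoped Topology NNReal ENNReal ContDiff

set_option linter.unusedSectionVars false
set_option linter.unusedVariables false

variable {ι : Type*} [Fintype ι] [DecidableEq ι]

variable {κ M : ℝ} {V : (ι → ℝ) → ℝ}

variable {α : Type*} [Fintype α] [Nonempty α] {β : ℝ} {L : α → ℝ → (ι → ℝ) → ℝ}

private theorem RB3c_c2 (H : Nice κ M V) (hL : ∀ a, AL V (L a)) (β : ℝ) :
    ∀ t, 0 < t → ∀ y : ι → ℝ,
      ContDiffAt ℝ 2 (fun p : ℝ × (ι → ℝ) => (fun s y => lse β fun a => L a s y) p.1 p.2) (t, y) := by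
  intro t ht y
  have hκ := H.kpos
  exact (lse_smooth H β hL (by linarith) y).of_le (WithTop.coe_le_coe.2 (le_top : (2 : ℕ∞) ≤ ⊤))

/-- `generator` for `lse`. -/
theorem lse_generator (H : Nice κ M V) (hβ : 0 < β) (hL : ∀ a, AL V (L a)) {t : ℝ} (t0 : 0 < t) :
    HasDerivAt (fun s => GE V s (fun y => lse β fun a => L a s y))
      (GE V t (Gn V t (fun s y => lse β fun a => L a s y))) t :=
  Pool.Agent.Lib.MP_8d00da_gt.h42k.generator (T := t + 1)
    (Φ := fun s y => lse β fun a => L a s y) H (RB3c_c2 H hL β) (lse_pgu H hβ hL _)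
    (lse_dt_pgu H hβ hL _) (fun i => lse_pd_pgu H hβ hL i _) (fun i j => lse_pd2_pgu H hβ hL i j _)
    t0 (by linarith)

theorem lse_continuousOn (H : Nice κ M V) (hβ : 0 < β) (hL : ∀ a, AL V (L a)) (T : ℝ) :
    ContinuousOn (fun s => GE V s (fun y => lse β fun a => L a s y)) (Set.Icc 0 T) := by
  have hκ := H.kpos
  refine Pool.Agent.Lib.MP_8d00da_gt.h42k.GE_continuousOn
    (Φ := fun s y => lse β fun a => L a s y) H ?_ (lse_pgu H hβ hL T)
  rintro ⟨s, y⟩ ⟨hs, -⟩
  have hs1 : (0 : ℝ) ≤ s := hs.1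
  exact (lse_smooth H β hL (by linarith) y).continuousAt.continuousWithinAt

theorem lse_Gn_t0 (H : Nice κ M V) (hβ : 0 < β) (hL : ∀ a, AL V (L a)) {t : ℝ} (ht : 0 < t) :
    T0 (Gn V t (fun s y => lse β fun a => L a s y)) := by
  have hκ := H.kpos
  obtain ⟨hT1, hTi⟩ := slice_t1 (Φ := fun s y => lse β fun a => L a s y) (RB3c_c2 H hL β)
    (lse_pgu H hβ hL t) (fun i => lse_pd_pgu H hβ hL i t) (fun i j => lse_pd2_pgu H hβ hL i j t)
    ht le_rfl
  have hdt0 : T0 (fun y => deriv (fun s => lse β fun a => L a s y) t) :=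
    ⟨(slice_dt (Φ := fun s y => lse β fun a => L a s y) (RB3c_c2 H hL β) ht).measurable,
      (lse_dt_pgu H hβ hL t).pg ⟨ht.le, le_rfl⟩⟩
  have t1 : ∀ i : ι, T0 (fun y => EP V t (fun x => x i) y *
      pd i (fun y => lse β fun a => L a t y) y) := fun i =>
    (EP_t0 H (T0.coord i) (by linarith)).mul (hTi i).t0
  have t2 : ∀ i : ι, T0 (pd i (pd i (fun y => lse β fun a => L a t y))) := fun i => (hTi i).pdt0 i
  have t3 := T0.sum Finset.univ fun i (_ : i ∈ Finset.univ) => t1 i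
  have t4 := T0.sum Finset.univ fun i (_ : i ∈ Finset.univ) => t2 i
  exact (hdt0.add t3).add (t4.cmul _)

end Pool.Agent.Lib.MP_8d00da_gt.h42k
end

section

/-!
# The trace inequality: the endpoint (paper 336, R.4 (ii)): conclusion
-/

namespace Pool.Agent.Lib.MP_8d00da_gt.h42k

open MeasureTheory Set Filter
open scoped Topology NNReal ENNReal ContDiff

set_option linter.unusedSectionVars false
set_option linter.unusedVariables false

variable {ι : Type*} [Fintype ι] [DecidableEq ι]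

variable {κ M : ℝ} {V : (ι → ℝ) → ℝ} {F : ι → (ι → ℝ) → ℝ}

/-- Entries of contractions. -/
private theorem RC4c_abs_le {B : Matrix ι ι ℝ} (hB : Ctr B) (k l : ι) : |B k l| ≤ 1 := by
  have h1 := hB (Pi.single l 1)
  have h2 : B.mulVec (Pi.single l 1) = fun i => B i l := by
    funext i
    simp [Matrix.mulVec, dotProduct, Pi.single_apply]
  have h3 : sq (Pi.single l (1 : ℝ) : ι → ℝ) = 1 := by
    unfold sq
    rw [Finset.sum_eq_single l]
    · simp
    · intro i _ hi
      simp [hi]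
    · simp
  rw [h2, h3] at h1
  have h4 : B k l ^ 2 ≤ sq (fun i => B i l) := by
    unfold sq
    exact Finset.single_le_sum (f := fun i => B i l ^ 2) (fun i _ => _root_.sq_nonneg _)
      (Finset.mem_univ k)
  rw [← sq_le_one_iff_abs_le_one]
  exact h4.trans h1

/-- The endpoint estimate. `mp B (NF V F s y) = mp B (E_{s,y}[DF] A) + O((κ+s)^{-3/2})`
(`cov_taylor` for `W = pt V s y`, `ρ = κ + s`, finitely many indices, `|B_kl| ≤ 1`), and
`mp B (E[DF] A) = E[mp (B A) DF] = (κ+s)⁻¹ E[mp ((κ+s) B A) DF] ≤ (κ+s)⁻¹ E g` (`NF_ctr`). -/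
theorem trace_end (H : Nice κ M V) (hF : ∀ k, Cc (F k)) {g : (ι → ℝ) → ℝ} (hg : T0 g)
    (h : ∀ x B, Ctr B → mp B (DF F x) ≤ g x) :
    ∃ C : ℝ, 0 ≤ C ∧ ∀ s, 0 ≤ s → ∀ y B, Ctr B →
      (κ + s) * mp B (NF V F s y) ≤ EP V s g y + C / √(κ + s) := by
  have h1 : ∀ k, ∃ C : ℝ, 0 ≤ C ∧
    ∀ (ρ M : ℝ) (W : (ι → ℝ) → ℝ), Nice ρ M W → ∀ l,
      |cov W (F k) (fun x => x l) - ∑ m, ex W (pd m (F k)) * CM W m l| ≤ C / (ρ * √ρ) :=
    fun k => cov_taylor (hF k)
  choose C hC0 hC using h1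
  refine ⟨∑ k : ι, ∑ _l : ι, C k, Finset.sum_nonneg fun k _ => Finset.sum_nonneg fun l _ => hC0 k,
    ?_⟩
  intro s hs y B hB
  have hκ := H.kpos
  have hs' : -κ < s := by linarith
  have hρ : 0 < κ + s := by linarith
  have Hp : Nice (κ + s) (M + s) (pt V s y) := H.ptn hs' y
  obtain ⟨W, hW⟩ : ∃ W, W = pt V s y := ⟨_, rfl⟩
  obtain ⟨ρ, hρd⟩ : ∃ ρ, ρ = κ + s := ⟨_, rfl⟩
  rw [← hW] at Hp
  rw [← hρd] at Hp hρ
  rw [← hρd]
  have hsq : 0 < √ρ := Real.sqrt_pos.2 hρ
  -- the main part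
  have hmain : ρ * ∑ k, ∑ l, B k l * ∑ m, ex W (pd m (F k)) * CM W m l ≤ EP V s g y := by
    have e1 : ρ * ∑ k, ∑ l, B k l * ∑ m, ex W (pd m (F k)) * CM W m l =
        ex W (fun x => mp (ρ • (B * CM W)) (DF F x)) := by
      have e2 : ∀ x, mp (ρ • (B * CM W)) (DF F x) =
          ∑ k, ∑ m, (ρ * ∑ l, B k l * CM W m l) * pd m (F k) x := by
        intro x
        unfold mp
        refine Finset.sum_congr rfl fun k _ => Finset.sum_congr rfl fun m _ => ?_
        rw [Matrix.smul_apply, smul_eq_mul, Matrix.mul_apply, DF, Matrix.of_apply]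
        congr 2
        exact Finset.sum_congr rfl fun l _ => by rw [CM_symm W l m]
      simp only [e2]
      rw [ex_sum Hp _ (fun k _ => T0.sum _ fun m _ => T0.cmul _ ((hF k).pdc m).t1.t0)]
      rw [Finset.mul_sum]
      refine Finset.sum_congr rfl fun k _ => ?_
      rw [ex_sum Hp _ (fun m _ => T0.cmul _ ((hF k).pdc m).t1.t0)]
      simp only [ex_cmul]
      simp only [Finset.mul_sum, Finset.sum_mul]
      rw [Finset.sum_comm]
      exact Finset.sum_congr rfl fun m _ => Finset.sum_congr rfl fun l _ => by ring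
    rw [e1]
    have hctr : Ctr (ρ • (B * CM W)) := by
      rw [hρd, hW]
      exact NF_ctr H hs' y hB
    have hT : T0 (fun x => mp (ρ • (B * CM W)) (DF F x)) := by
      unfold mp
      exact T0.sum _ fun k _ => T0.sum _ fun m _ => T0.cmul _ ((hF k).pdc m).t1.t0
    have e3 := ex_mono Hp hT hg (fun x => h x _ hctr)
    rw [EP, ← hW]
    exact e3
  -- the error
  have herr : mp B (NF V F s y) - ∑ k, ∑ l, B k l * ∑ m, ex W (pd m (F k)) * CM W m l ≤
      (∑ k : ι, ∑ _l : ι, C k) / (ρ * √ρ) := by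
    rw [mp, ← Finset.sum_sub_distrib, Finset.sum_div]
    refine Finset.sum_le_sum fun k _ => ?_
    rw [← Finset.sum_sub_distrib, Finset.sum_div]
    refine Finset.sum_le_sum fun l _ => ?_
    have e1 := hC k ρ (M + s) W Hp l
    have e2 := RC4c_abs_le hB k l
    have e3 : NF V F s y k l = cov W (F k) (fun x => x l) := by
      rw [NF, Matrix.of_apply, CP, hW]
    rw [e3, ← mul_sub]
    refine (le_abs_self _).trans ?_
    rw [abs_mul]
    have e4 : 0 ≤ C k / (ρ * √ρ) := div_nonneg (hC0 k) (mul_pos hρ hsq).le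
    calc |B k l| * |cov W (F k) (fun x => x l) - ∑ m, ex W (pd m (F k)) * CM W m l|
        ≤ 1 * (C k / (ρ * √ρ)) := mul_le_mul e2 e1 (abs_nonneg _) zero_le_one
      _ = C k / (ρ * √ρ) := one_mul _
  have h2 := mul_le_mul_of_nonneg_left herr hρ.le
  rw [mul_sub] at h2
  have h3 : ρ * ((∑ k : ι, ∑ _l : ι, C k) / (ρ * √ρ)) = (∑ k : ι, ∑ _l : ι, C k) / √ρ := by
    field_simp
  rw [h3] at h2
  linarith

end Pool.Agent.Lib.MP_8d00da_gt.h42k
end

section

/-!
# The trace inequality: from time 0 to time T (paper 336, R.4): derivative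
-/

namespace Pool.Agent.Lib.MP_8d00da_gt.h42k

open MeasureTheory Set Filter
open scoped Topology NNReal ENNReal ContDiff

set_option linter.unusedSectionVars false
set_option linter.unusedVariables false

variable {ι : Type*} [Fintype ι] [DecidableEq ι]

variable {κ M : ℝ} {V : (ι → ℝ) → ℝ} {F : ι → (ι → ℝ) → ℝ}

/-- One net, one `β`. Let `S` be a net as in `ctr_net` (index type `α = S`),
`L_B(s,y) = mp B (NF V F s y)`, `Φ = lse β L`. `NF_Gn`, `NF_ctr`, the net property and `le_lse`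
give `Gn L_B = - mp (B A) N = -(κ+s)⁻¹ mp ((κ+s) B A) N ≥ -(κ+s)⁻¹ (1+θ) mp B' N ≥
-(1+θ) (κ+s)⁻¹ Φ`, hence (`lse_Gn`, `smx_sum`) `Gn Φ ≥ -(1+θ)(κ+s)⁻¹ Φ`, and
`h(s) = (κ+s) GE_s Φ_s` has `h'(s) ≥ -θ GE_s Φ_s`. -/
theorem trace_deriv (H : Nice κ M V) (hF : ∀ k, T0 (F k)) {θ : ℝ} (hθ : 0 < θ)
    {S : Finset (Matrix ι ι ℝ)} [Nonempty S] (hS1 : ∀ B ∈ S, Ctr B)
    (hS : ∀ N B, Ctr B → ∃ B' ∈ S, mp B N ≤ (1 + θ) * mp B' N) {β : ℝ} (hβ : 0 < β) {s : ℝ}
    (hs : 0 < s) :
    ∃ d : ℝ, HasDerivAt (fun s => (κ + s) *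
        GE V s (fun y => lse β fun B : S => mp B.1 (NF V F s y))) d s ∧
      -(θ * GE V s (fun y => lse β fun B : S => mp B.1 (NF V F s y))) ≤ d := by
  have hκ : 0 < κ := H.kpos
  have hts : -κ < s := by linarith
  have hks : 0 < κ + s := by linarith
  have hL : ∀ B : S, AL V ((fun (B : S) (s : ℝ) (y : ι → ℝ) => mp B.1 (NF V F s y)) B) :=
    fun B => NF_al V hF B.1
  have hgen := lse_generator (β := β) H hβ hL hs
  have hid : HasDerivAt (fun s : ℝ => κ + s) 1 s := by
    simpa using (hasDerivAt_id s).const_add κ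
  refine ⟨_, hid.mul hgen, ?_⟩
  have hpt : ∀ y : ι → ℝ, -((1 + θ) * (κ + s)⁻¹) * (lse β fun B : S => mp B.1 (NF V F s y)) ≤
      Gn V s (fun s y => lse β fun B : S => mp B.1 (NF V F s y)) y := by
    intro y
    have h1 := lse_Gn (β := β) H hβ hL hts y
    refine le_trans ?_ h1
    obtain ⟨Λ, hΛ⟩ : ∃ Λ : ℝ, Λ = lse β fun B : S => mp B.1 (NF V F s y) := ⟨_, rfl⟩
    rw [← hΛ]
    have h2 : ∀ B : S, -((1 + θ) * (κ + s)⁻¹) * Λ ≤
        Gn V s (fun s y => mp B.1 (NF V F s y)) y := by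
      intro B
      rw [NF_Gn H hF B.1 hts y]
      obtain ⟨B', hB', h3⟩ := hS (NF V F s y) _ (NF_ctr H hts y (hS1 B.1 B.2))
      have h4 : mp B' (NF V F s y) ≤ Λ := by
        rw [hΛ]
        exact le_lse hβ (fun B : S => mp B.1 (NF V F s y)) ⟨B', hB'⟩
      rw [mp_smul] at h3
      have h5 : (κ + s) * mp (B.1 * CM (pt V s y)) (NF V F s y) ≤ (1 + θ) * Λ :=
        h3.trans (mul_le_mul_of_nonneg_left h4 (by linarith))
      have h6 : mp (B.1 * CM (pt V s y)) (NF V F s y) ≤ (1 + θ) * (κ + s)⁻¹ * Λ := by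
        have h7 : mp (B.1 * CM (pt V s y)) (NF V F s y) =
            (κ + s)⁻¹ * ((κ + s) * mp (B.1 * CM (pt V s y)) (NF V F s y)) := by
          rw [inv_mul_cancel_left₀ hks.ne']
        rw [h7]
        calc (κ + s)⁻¹ * ((κ + s) * mp (B.1 * CM (pt V s y)) (NF V F s y))
            ≤ (κ + s)⁻¹ * ((1 + θ) * Λ) := mul_le_mul_of_nonneg_left h5 (inv_nonneg.2 hks.le)
          _ = (1 + θ) * (κ + s)⁻¹ * Λ := by ring
      linarith
    calc -((1 + θ) * (κ + s)⁻¹) * Λ
        = ∑ B : S, smx β (fun B : S => mp B.1 (NF V F s y)) B * (-((1 + θ) * (κ + s)⁻¹) * Λ) := by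
          rw [← Finset.sum_mul, smx_sum, one_mul]
      _ ≤ ∑ B : S, smx β (fun B : S => mp B.1 (NF V F s y)) B *
            Gn V s (fun s y => mp B.1 (NF V F s y)) y :=
          Finset.sum_le_sum fun B _ => mul_le_mul_of_nonneg_left (h2 B) (smx_nonneg _ _ _)
  have hT := lse_t0 (β := β) H hβ hL hts
  have hG := lse_Gn_t0 (β := β) H hβ hL hs
  have h8 := GE_mono H (hT.cmul (-((1 + θ) * (κ + s)⁻¹))) hG s hpt
  rw [GE_cmul] at h8
  obtain ⟨Γ, hΓ⟩ : ∃ Γ : ℝ, Γ = GE V s (fun y => lse β fun B : S => mp B.1 (NF V F s y)) := ⟨_, rfl⟩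
  obtain ⟨D, hD⟩ : ∃ D : ℝ, D = GE V s (Gn V s (fun s y => lse β fun B : S => mp B.1 (NF V F s y))) :=
    ⟨_, rfl⟩
  have h9 : -((1 + θ) * (κ + s)⁻¹) * Γ ≤ D := by
    rw [hΓ, hD]
    exact h8
  have h10 : -((1 + θ) * Γ) ≤ (κ + s) * D := by
    have h11 := mul_le_mul_of_nonneg_left h9 hks.le
    have h12 : (κ + s) * (-((1 + θ) * (κ + s)⁻¹) * Γ) = -((1 + θ) * Γ) := by
      field_simp
    linarith
  change -(θ * GE V s (fun y => lse β fun B : S => mp B.1 (NF V F s y))) ≤
    1 * GE V s (fun y => lse β fun B : S => mp B.1 (NF V F s y)) +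
      (κ + s) * GE V s (Gn V s (fun s y => lse β fun B : S => mp B.1 (NF V F s y)))
  rw [← hΓ, ← hD]
  linarith

end Pool.Agent.Lib.MP_8d00da_gt.h42k
end

section

/-!
# The trace inequality: from time 0 to time T (paper 336, R.4): integration
-/

namespace Pool.Agent.Lib.MP_8d00da_gt.h42k

open MeasureTheory Set Filter
open scoped Topology NNReal ENNReal ContDiff

set_option linter.unusedSectionVars false
set_option linter.unusedVariables false

variable {ι : Type*} [Fintype ι] [DecidableEq ι]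

variable {κ M : ℝ} {V : (ι → ℝ) → ℝ} {F : ι → (ι → ℝ) → ℝ}

private theorem RC2b_pt0 (V : (ι → ℝ) → ℝ) : pt V 0 0 = V := by
  funext x
  simp [pt, dt]

/-- One `θ`. -/
private theorem RC2b_step (H : Nice κ M V) (hF : ∀ k, T0 (F k)) {T : ℝ} (hT : 0 < T)
    {G : (ι → ℝ) → ℝ} (hG : T0 G) {c : ℝ}
    (hend : ∀ y, ∀ B, Ctr B → (κ + T) * mp B (NF V F T y) ≤ G y + c) {CT : ℝ}
    (hCT0 : 0 ≤ CT) (hCT : ∀ s ∈ Set.Icc 0 T, ∀ Φ : (ι → ℝ) → ℝ, T0 Φ → ∀ θ : ℝ,
      (∀ y, ∀ b : ℝ, (∀ B, Ctr B → mp B (NF V F s y) ≤ b) → Φ y ≤ b + θ) →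
        GE V s Φ ≤ CT + θ) {θ : ℝ} (hθ : 0 < θ) :
    κ * ∑ k, cov V (F k) (fun x => x k) ≤ GE V T G + c + θ * (κ + T + (CT + θ) * T) := by
  classical
  have hκ : 0 < κ := H.kpos
  obtain ⟨S, h1S, hS1, hS⟩ := ctr_net (ι := ι) hθ
  have : Nonempty S := ⟨⟨1, h1S⟩⟩
  have hcard : (1 : ℝ) ≤ Fintype.card S := by exact_mod_cast Fintype.card_pos (α := S)
  have hlog : 0 ≤ Real.log (Fintype.card S) := Real.log_nonneg hcard
  set β : ℝ := (Real.log (Fintype.card S) + 1) / θ with hβd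
  have hβ : 0 < β := by rw [hβd]; positivity
  have hlb : Real.log (Fintype.card S) / β ≤ θ := by
    rw [div_le_iff₀ hβ, hβd, mul_div_cancel₀ _ hθ.ne']
    linarith
  set Φ : ℝ → (ι → ℝ) → ℝ := fun s y => lse β fun B : S => mp B.1 (NF V F s y) with hΦ
  have hL : ∀ B : S, AL V ((fun (B : S) (s : ℝ) (y : ι → ℝ) => mp B.1 (NF V F s y)) B) :=
    fun B => NF_al V hF B.1
  have hΦT0 : ∀ s, 0 ≤ s → T0 (Φ s) := fun s hs => lse_t0 (β := β) H hβ hL (by linarith)
  have hub : ∀ s, ∀ y, ∀ b : ℝ, (∀ B, Ctr B → mp B (NF V F s y) ≤ b) → Φ s y ≤ b + θ := by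
    intro s y b hb
    have h1 := lse_le hβ (fun B : S => mp B.1 (NF V F s y)) (c := b) fun B => hb B.1 (hS1 B.1 B.2)
    exact h1.trans (by linarith)
  have hGE : ∀ s ∈ Set.Icc 0 T, GE V s (Φ s) ≤ CT + θ := fun s hs =>
    hCT s hs (Φ s) (hΦT0 s hs.1) θ (hub s)
  -- the monotone function
  have hcont : ContinuousOn (fun s => (κ + s) * GE V s (Φ s)) (Set.Icc 0 T) :=
    (continuous_const.add continuous_id).continuousOn.mul (lse_continuousOn (β := β) H hβ hL T)
  have hder : ∀ s, 0 < s → ∃ d : ℝ, HasDerivAt (fun s => (κ + s) * GE V s (Φ s)) d s ∧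
      -(θ * GE V s (Φ s)) ≤ d := fun s hs => trace_deriv H hF hθ hS1 hS hβ hs
  have hmono : MonotoneOn (fun s => (κ + s) * GE V s (Φ s) + θ * (CT + θ) * s) (Set.Icc 0 T) := by
    apply monotoneOn_of_deriv_nonneg (convex_Icc 0 T)
    · exact hcont.add (continuous_const.mul continuous_id).continuousOn
    · intro s hs
      rw [interior_Icc] at hs
      obtain ⟨d, hd, -⟩ := hder s hs.1
      exact (hd.add (((hasDerivAt_id s).const_mul (θ * (CT + θ))))).differentiableAt.differentiableWithinAt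
    · intro s hs
      rw [interior_Icc] at hs
      obtain ⟨d, hd, hd2⟩ := hder s hs.1
      have h1 : HasDerivAt (fun s => (κ + s) * GE V s (Φ s) + θ * (CT + θ) * s)
          (d + θ * (CT + θ) * 1) s := hd.add ((hasDerivAt_id s).const_mul (θ * (CT + θ)))
      rw [h1.deriv]
      have h2 := hGE s ⟨hs.1.le, hs.2.le⟩
      have h3 := mul_le_mul_of_nonneg_left h2 hθ.le
      linarith
  have h4 := hmono ⟨le_rfl, hT.le⟩ ⟨hT.le, le_rfl⟩ hT.le
  simp only [add_zero, mul_zero] at h4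
  rw [GE_zero H] at h4
  -- time 0
  have h5 : ∑ k, cov V (F k) (fun x => x k) ≤ Φ 0 0 := by
    have h6 := le_lse hβ (fun B : S => mp B.1 (NF V F 0 0)) ⟨1, h1S⟩
    refine le_trans (le_of_eq ?_) h6
    rw [mp_one]
    refine Finset.sum_congr rfl fun k _ => ?_
    simp only [NF, Matrix.of_apply, CP, RC2b_pt0]
  -- time T
  have h7 : (κ + T) * GE V T (Φ T) ≤ GE V T G + c + (κ + T) * θ := by
    rw [← GE_cmul]
    have h8 : ∀ y, (κ + T) * Φ T y ≤ G y + (c + (κ + T) * θ) := by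
      intro y
      have h9 := hub T y ((G y + c) / (κ + T)) (fun B hB => by
        rw [le_div_iff₀ (by linarith), mul_comm]
        exact hend y B hB)
      have h10 := mul_le_mul_of_nonneg_left h9 (show 0 ≤ κ + T by linarith)
      have h11 : (κ + T) * ((G y + c) / (κ + T) + θ) = G y + (c + (κ + T) * θ) := by
        field_simp
        ring
      linarith
    have h12 := GE_mono H ((hΦT0 T hT.le).cmul (κ + T)) (hG.add (T0.const (c + (κ + T) * θ))) T h8
    rw [GE_add H hG (T0.const _), GE_const H] at h12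
    linarith
  have h13 := mul_le_mul_of_nonneg_left h5 hκ.le
  have h14 : θ * (κ + T + (CT + θ) * T) = (κ + T) * θ + θ * (CT + θ) * T := by ring
  rw [h14]
  linarith

/-- Let `θ → 0` in `trace_deriv`: with `β ≥ log |S| / θ` (and `β > 0`) one has
`Φ_s ≤ max_B mp B N + θ ≤ C (1+|y|²)^k + θ` for all `s ≤ T` (`lse_le`, `NF_bound`), so
`GE_s Φ_s ≤ C_T + θ` (`GE_poly_bound`); by the mean value theorem on `[0,T]` (continuity:
`lse_continuousOn`) `κ Φ_0(0) ≤ (κ+T) GE_T Φ_T + θ T (C_T + θ)`; `Φ_0(0) ≥ mp 1 N(0,0)` and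
`(κ+T) Φ_T ≤ G + c + (κ+T) θ`. -/
theorem trace_time (H : Nice κ M V) (hF : ∀ k, T0 (F k)) {T : ℝ} (hT : 0 < T)
    {G : (ι → ℝ) → ℝ} (hG : T0 G) {c : ℝ}
    (hend : ∀ y, ∀ B, Ctr B → (κ + T) * mp B (NF V F T y) ≤ G y + c) :
    κ * ∑ k, cov V (F k) (fun x => x k) ≤ GE V T G + c := by
  have hκ : 0 < κ := H.kpos
  obtain ⟨C, k, hC, hb⟩ := NF_bound H hF T
  obtain ⟨C', hC', hb'⟩ := GE_poly_bound H k T
  have hCT : ∀ s ∈ Set.Icc 0 T, ∀ Φ : (ι → ℝ) → ℝ, T0 Φ → ∀ θ : ℝ,
      (∀ y, ∀ b : ℝ, (∀ B, Ctr B → mp B (NF V F s y) ≤ b) → Φ y ≤ b + θ) →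
        GE V s Φ ≤ C * C' + θ := by
    intro s hs Φ hΦ θ h
    have hp : T0 (fun y : ι → ℝ => (1 + sq y) ^ k) := ((T0.const 1).add T0.sqf).pow k
    have h1 : ∀ y, Φ y ≤ C * (1 + sq y) ^ k + θ := fun y => h y _ fun B hB => hb s hs y B hB
    have h2 := GE_mono H hΦ ((hp.cmul C).add (T0.const θ)) s h1
    rw [GE_add H (hp.cmul C) (T0.const θ), GE_const H, GE_cmul] at h2
    have h3 := mul_le_mul_of_nonneg_left (hb' s hs) hC
    linarith
  have hmain : ∀ θ : ℝ, 0 < θ → κ * ∑ k, cov V (F k) (fun x => x k) ≤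
      GE V T G + c + θ * (κ + T + (C * C' + θ) * T) := fun θ hθ =>
    RC2b_step H hF hT hG hend (mul_nonneg hC hC') hCT hθ
  apply le_of_forall_pos_le_add
  intro ε hε
  obtain ⟨D, hD⟩ : ∃ D : ℝ, D = κ + T + (C * C' + 1) * T := ⟨_, rfl⟩
  have hD0 : 0 < D := by
    rw [hD]
    have : 0 ≤ C * C' := mul_nonneg hC hC'
    positivity
  obtain ⟨θ, hθ0, hθ1, hθ2⟩ : ∃ θ : ℝ, 0 < θ ∧ θ ≤ 1 ∧ θ * D ≤ ε := by
    refine ⟨min 1 (ε / D), lt_min one_pos (div_pos hε hD0), min_le_left _ _, ?_⟩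
    calc min 1 (ε / D) * D ≤ ε / D * D := mul_le_mul_of_nonneg_right (min_le_right _ _) hD0.le
      _ = ε := div_mul_cancel₀ _ hD0.ne'
  have h4 := hmain θ hθ0
  have h5 : θ * (κ + T + (C * C' + θ) * T) ≤ θ * D := by
    rw [hD]
    apply mul_le_mul_of_nonneg_left _ hθ0.le
    have := mul_le_mul_of_nonneg_right hθ1 hT.le
    nlinarith
  linarith

end Pool.Agent.Lib.MP_8d00da_gt.h42k
end

section

/-!
# The trace inequality (paper 336, R.4)
-/

namespace Pool.Agent.Lib.MP_8d00da_gt.h42k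

open MeasureTheory Set Filter
open scoped Topology NNReal ENNReal ContDiff

set_option linter.unusedSectionVars false
set_option linter.unusedVariables false

variable {ι : Type*} [Fintype ι] [DecidableEq ι]

variable {κ M : ℝ} {V : (ι → ℝ) → ℝ} {F : ι → (ι → ℝ) → ℝ}

/-- The trace inequality: if `tr (Bᵀ DF(x)) ≤ g(x)` for all contractions `B`, then
`κ E⟨x~, F⟩ ≤ E g`. (`trace_time` with `G = EP V T g`, `GE_EP`, `trace_end`; `T → ∞`.) -/
theorem trace_ineq (H : Nice κ M V) (hF : ∀ k, Cc (F k)) {g : (ι → ℝ) → ℝ} (hg : T0 g)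
    (h : ∀ x B, Ctr B → mp B (DF F x) ≤ g x) :
    κ * ∑ k, cov V (F k) (fun x => x k) ≤ ex V g := by
  obtain ⟨C, hC, hend⟩ := trace_end H hF hg h
  have kp := H.kpos
  have key : ∀ T : ℝ, 0 < T →
      κ * ∑ k, cov V (F k) (fun x => x k) ≤ ex V g + C / √(κ + T) := by
    intro T hT
    have h1 := trace_time H (fun k => (hF k).t1.t0) hT
      (EP_t0 H hg (by linarith : -κ < T)) (c := C / √(κ + T)) (hend T hT.le)
    rwa [show GE V T (EP V T g) = ex V g from GE_EP H hg hT.le] at h1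
  have lim : Tendsto (fun T : ℝ => ex V g + C / √(κ + T)) atTop (𝓝 (ex V g + 0)) := by
    refine tendsto_const_nhds.add ?_
    refine Tendsto.const_div_atTop ?_ C
    exact Real.tendsto_sqrt_atTop.comp (tendsto_atTop_add_const_left _ κ tendsto_id)
  rw [add_zero] at lim
  exact ge_of_tendsto lim ((eventually_gt_atTop 0).mono key)

end Pool.Agent.Lib.MP_8d00da_gt.h42k
end

section

/-!
# First order bounds
-/

namespace Pool.Agent.Lib.MP_8d00da_gt.h42k.ZZ

open MeasureTheory Set Filter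
open scoped Topology NNReal ENNReal ContDiff

set_option linter.unusedSectionVars false
set_option linter.unusedVariables false

variable {ι : Type*} [Fintype ι] [DecidableEq ι]

variable {κ M : ℝ} {V : (ι → ℝ) → ℝ}

private theorem ZB1_cov_dt (H : Nice κ M V) {f : (ι → ℝ) → ℝ} (hf : T0 f) (θ : ι → ℝ) :
    cov V f (dt θ) = ∑ i, θ i * cov V f (fun x => x i) := by
  rw [cov_comm]
  have e : dt θ = fun x => ∑ i ∈ Finset.univ, (fun (i : ι) (x : ι → ℝ) => θ i * x i) i x := by
    funext x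
    rfl
  rw [e, cov_sum H Finset.univ (fun i _ => (T0.coord i).cmul (θ i)) hf]
  refine Finset.sum_congr rfl fun i _ => ?_
  show cov V (fun x => θ i * x i) f = _
  rw [cov_cmul V (fun x => x i) f (θ i), cov_comm V (fun x => x i) f]

/-- `κ |Cov_V(f,⟨θ,x⟩)| ≤ |θ| E|∇f|`: `trace_ineq` for `F_k = θ_k f`
(`mp B (DF F x) = ⟨Bᵀθ, ∇f⟩ ≤ |θ||∇f|` for contractions `B`). -/
theorem cov_lin_le (H : Nice κ M V) {f : (ι → ℝ) → ℝ} (hf : Cc f) (θ : ι → ℝ) :
    κ * cov V f (dt θ) ≤ √(sq θ) * ex V (fun x => √(gs f x)) := by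
  have hfd : Differentiable ℝ f := hf.smooth.differentiable (by simp)
  have hF : ∀ k, Cc ((fun (k : ι) (x : ι → ℝ) => θ k * f x) k) := fun k =>
    ⟨contDiff_const.mul hf.smooth, hf.supp.mul_left⟩
  have hg : T0 (fun x => √(sq θ) * √(gs f x)) := (hf.t1.gst0.sqrt).cmul _
  have key : ∀ (x : ι → ℝ) (B : Matrix ι ι ℝ), Ctr B →
      mp B (DF (fun (k : ι) (x : ι → ℝ) => θ k * f x) x) ≤ √(sq θ) * √(gs f x) := by
    intro x B hB
    have h1 : mp B (DF (fun (k : ι) (x : ι → ℝ) => θ k * f x) x) =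
        dt (B.transpose.mulVec θ) (fun j => pd j f x) := by
      unfold mp DF dt
      rw [Finset.sum_comm]
      refine Finset.sum_congr rfl fun j _ => ?_
      simp only [Matrix.mulVec, dotProduct, Matrix.transpose_apply, Matrix.of_apply,
        Finset.sum_mul]
      refine Finset.sum_congr rfl fun i _ => ?_
      rw [pd_cmul hfd (θ i) j x]
      ring
    have h2 : sq (B.transpose.mulVec θ) ≤ sq θ := hB.tr θ
    have h3 := dt_sq_le (B.transpose.mulVec θ) (fun j => pd j f x)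
    have h4 : sq (fun j => pd j f x) = gs f x := rfl
    rw [h1]
    rw [h4] at h3
    have h5 : dt (B.transpose.mulVec θ) (fun j => pd j f x) ^ 2 ≤ sq θ * gs f x :=
      h3.trans (mul_le_mul_of_nonneg_right h2 (Finset.sum_nonneg fun i _ => sq_nonneg _))
    rw [← Real.sqrt_mul (sq_nn θ)]
    exact (le_abs_self _).trans (Real.abs_le_sqrt h5)
  have h := trace_ineq H hF hg key
  have h6 : ∑ k, cov V (fun x => θ k * f x) (fun x => x k) = cov V f (dt θ) := by
    rw [ZB1_cov_dt H hf.t1.t0 θ]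
    exact Finset.sum_congr rfl fun k _ => cov_cmul V f (fun x => x k) (θ k)
  rw [ex_cmul] at h
  calc κ * cov V f (dt θ) = κ * ∑ k, cov V (fun x => θ k * f x) (fun x => x k) := by rw [h6]
    _ ≤ _ := h

/-- `∑ Cov_V(g,x_i)² ≤ 1/κ` for `|g| ≤ 1` (duality, `cov_cs`, `CLe_kappa`). -/
theorem cov_coord_le (H : Nice κ M V) {g : (ι → ℝ) → ℝ} (hg : T0 g) (h1 : ∀ x, |g x| ≤ 1) :
    ∑ i, cov V g (fun x => x i) ^ 2 ≤ 1 / κ := by
  have kp := H.kpos
  set c : ι → ℝ := fun i => cov V g (fun x => x i) with hc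
  have hS : ∑ i, cov V g (fun x => x i) ^ 2 = sq c := rfl
  rw [hS]
  have e1 : cov V g (dt c) = sq c := by
    rw [ZB1_cov_dt H hg c]
    unfold sq
    exact Finset.sum_congr rfl fun i _ => by rw [hc]; ring
  have e2 : cov V g (dt c) ^ 2 ≤ var V g * var V (dt c) := cov_cs H hg (T0.dtf c)
  have e3 : var V (dt c) ≤ 1 / κ * sq c := s6_CLe_kappa H c
  have e4 : var V g ≤ 1 := by
    have h2 := var_le H hg 0
    have h3 : ex V (fun x => (g x - 0) ^ 2) ≤ ex V (fun _ => 1) := by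
      refine ex_mono H ((hg.sub (T0.const 0)).pow 2) (T0.const 1) fun x => ?_
      have := h1 x
      rw [sub_zero, ← sq_abs]
      nlinarith [abs_nonneg (g x)]
    rw [ex_const H] at h3
    linarith
  have e5 : 0 ≤ sq c := sq_nn c
  have e6 : 0 ≤ var V (dt c) := var_nonneg H (T0.dtf c)
  rw [e1] at e2
  have e7 : sq c ^ 2 ≤ 1 / κ * sq c := by
    calc sq c ^ 2 ≤ var V g * var V (dt c) := e2
      _ ≤ 1 * var V (dt c) := mul_le_mul_of_nonneg_right e4 e6
      _ ≤ 1 / κ * sq c := by rw [one_mul]; exact e3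
  rcases e5.eq_or_lt with h0 | h0
  · rw [← h0]
    positivity
  · have e8 : sq c * sq c ≤ 1 / κ * sq c := by rw [← pow_two]; exact e7
    exact le_of_mul_le_mul_right e8 h0

/-- `|∑ Cov_{t,y}(f,x_i) Cov_{t,y}(g,x_i)| ≤ (κ+t)^{-3/2} E_{t,y}|∇f|` for `|g| ≤ 1`: apply
`cov_lin_le` with `θ_i = ± Cov_{t,y}(g,x_i)` to `pt V t y` (`Nice.ptn`). -/
theorem pair_le (H : Nice κ M V) {f g : (ι → ℝ) → ℝ} (hf : Cc f) (hg : T0 g)
    (h1 : ∀ x, |g x| ≤ 1) {t : ℝ} (ht : 0 ≤ t) (y : ι → ℝ) :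
    ∑ i, CP V t f (fun x => x i) y * CP V t g (fun x => x i) y ≤
      1 / ((κ + t) * √(κ + t)) * EP V t (fun x => √(gs f x)) y := by
  have kp := H.kpos
  have Hp := H.ptn (t := t) (by linarith) y
  have kt : 0 < κ + t := by linarith
  set θ : ι → ℝ := fun i => CP V t g (fun x => x i) y with hθ
  have e1 := cov_lin_le Hp hf θ
  have e2 : cov (pt V t y) f (dt θ) =
      ∑ i, CP V t f (fun x => x i) y * CP V t g (fun x => x i) y := by
    rw [ZB1_cov_dt Hp hf.t1.t0 θ]
    exact Finset.sum_congr rfl fun i _ => mul_comm _ _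
  have e3 : sq θ ≤ 1 / (κ + t) := cov_coord_le Hp hg h1
  have e4 : 0 ≤ EP V t (fun x => √(gs f x)) y := ex_nonneg _ fun x => Real.sqrt_nonneg _
  rw [e2] at e1
  have e5 : √(sq θ) ≤ 1 / √(κ + t) := by
    have := Real.sqrt_le_sqrt e3
    rwa [Real.sqrt_div' _ kt.le, Real.sqrt_one] at this
  have e6 : (κ + t) * ∑ i, CP V t f (fun x => x i) y * CP V t g (fun x => x i) y ≤
      1 / √(κ + t) * EP V t (fun x => √(gs f x)) y :=
    e1.trans (mul_le_mul_of_nonneg_right e5 e4)
  have hs : 0 < √(κ + t) := Real.sqrt_pos.2 kt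
  have e7 : 1 / ((κ + t) * √(κ + t)) * EP V t (fun x => √(gs f x)) y =
      (1 / √(κ + t) * EP V t (fun x => √(gs f x)) y) / (κ + t) := by
    field_simp
  rw [e7, le_div_iff₀ kt]
  linarith

end Pool.Agent.Lib.MP_8d00da_gt.h42k.ZZ
end

section

/-!
# The L1 Poincare inequality for strongly log-concave measures
-/

namespace Pool.Agent.Lib.MP_8d00da_gt.h42k.ZZ

open MeasureTheory Set Filter
open scoped Topology NNReal ENNReal ContDiff

set_option linter.unusedSectionVars false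
set_option linter.unusedVariables false

variable {ι : Type*} [Fintype ι] [DecidableEq ι]

variable {κ M : ℝ} {V : (ι → ℝ) → ℝ}

private theorem ZB2_CP_sq_le (H : Nice κ M V) {f g : (ι → ℝ) → ℝ} (hf : Cc f) (hg : T0 g)
    (h1 : ∀ x, |g x| ≤ 1) {t : ℝ} (ht : 0 ≤ t) (y : ι → ℝ) :
    CP V t f g y ^ 2 ≤ 1 * (1 / (κ + t) * EP V t (gs f) y) := by
  have hk : -κ < t := by linarith [H.kpos]
  have Hn := H.ptn hk y
  have hcs : cov (pt V t y) f g ^ 2 ≤ var (pt V t y) f * var (pt V t y) g :=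
    cov_cs Hn hf.t1.t0 hg
  have hv1 : var (pt V t y) f ≤ 1 / (κ + t) * ex (pt V t y) (gs f) := Hn.pi f hf.t1
  have hv2 : var (pt V t y) g ≤ 1 := by
    have e1 : var (pt V t y) g ≤ ex (pt V t y) (fun x => (g x - 0) ^ 2) := var_le Hn hg 0
    have e2 : ex (pt V t y) (fun x => (g x - 0) ^ 2) ≤ ex (pt V t y) (fun _ => (1 : ℝ)) := by
      refine ex_mono Hn ((hg.sub (T0.const 0)).pow 2) (T0.const 1) fun x => ?_
      rw [sub_zero]
      have := h1 x
      rw [← sq_abs]
      nlinarith [abs_nonneg (g x)]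
    rw [ex_const Hn] at e2
    linarith
  have hv0 : 0 ≤ var (pt V t y) f := var_nonneg Hn hf.t1.t0
  show cov (pt V t y) f g ^ 2 ≤ 1 * (1 / (κ + t) * ex (pt V t y) (gs f))
  calc cov (pt V t y) f g ^ 2 ≤ var (pt V t y) f * var (pt V t y) g := hcs
    _ ≤ var (pt V t y) f * 1 := mul_le_mul_of_nonneg_left hv2 hv0
    _ ≤ 1 * (1 / (κ + t) * ex (pt V t y) (gs f)) := by rw [mul_one, one_mul]; exact hv1

/-- `|E Cov_{t,Y_t}(f,g)| ≤ (κ+t)^{-1/2} (E|∇f|²)^{1/2}` for `|g| ≤ 1` (`cov_cs` for `pt V t y`,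
`Var_{t,y} f ≤ E_{t,y}|∇f|²/(κ+t)` by `BL` or the Poincare inequality of `Nice`, `GE_cs`/Jensen,
`GE_EP`). -/
theorem GE_CP_le (H : Nice κ M V) {f g : (ι → ℝ) → ℝ} (hf : Cc f) (hg : T0 g)
    (h1 : ∀ x, |g x| ≤ 1) {t : ℝ} (ht : 0 ≤ t) :
    GE V t (fun y => CP V t f g y) ≤ √(ex V (gs f) / (κ + t)) := by
  have hk : -κ < t := by linarith [H.kpos]
  have hkt : 0 < κ + t := by linarith
  have hgs0 : ∀ x, 0 ≤ gs f x := fun x => Finset.sum_nonneg fun i _ => sq_nonneg _
  have hq : T0 (fun y => 1 / (κ + t) * EP V t (gs f) y) :=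
    (EP_t0 H hf.t1.gst0 hk).cmul (1 / (κ + t))
  have h := GE_cs_pt H (CP_t0 H hf.t1.t0 hg hk) (T0.const 1) hq t (fun _ => zero_le_one)
    (fun y => mul_nonneg (by positivity) (ex_nonneg _ hgs0))
    (fun y => ZB2_CP_sq_le H hf hg h1 ht y)
  rw [GE_const H, GE_cmul, GE_EP H hf.t1.gst0 ht, one_mul] at h
  have h' : GE V t (fun y => CP V t f g y) ^ 2 ≤ ex V (gs f) / (κ + t) := by
    refine h.trans (le_of_eq ?_)
    ring
  exact Real.le_sqrt_of_sq_le h'

/-- `Cov_V(f,g) ≤ 2 κ^{-1/2} E|∇f|` for `|g| ≤ 1`. The function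
`ψ(s) = GE_s Cov_{s,y}(f,g) - 2 (κ+s)^{-1/2} E|∇f|` has derivative
`-GE_s ∑ Cov(f,x_i)Cov(g,x_i) + (κ+s)^{-3/2} E|∇f| ≥ 0` for `s > 0` (`GE_CP_hasDerivAt`, `pair_le`,
`GE_EP`) and is continuous on `[0,T]` (`AL.GE_continuousOn`), `ψ(0) = Cov_V(f,g) - 2κ^{-1/2}E|∇f|`
(`GE_zero`), `ψ(T) ≤ √(E|∇f|²/(κ+T))` (`GE_CP_le`); let `T → ∞`. -/
theorem cov_bdd_le (H : Nice κ M V) {f g : (ι → ℝ) → ℝ} (hf : Cc f) (hg : T0 g)
    (h1 : ∀ x, |g x| ≤ 1) :
    cov V f g ≤ 2 / √κ * ex V (fun x => √(gs f x)) := by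
  set A : ℝ := ex V (fun x => √(gs f x)) with hA
  have hA0 : 0 ≤ A := ex_nonneg _ fun x => Real.sqrt_nonneg _
  have hκ := H.kpos
  have hTs : T0 (fun x => √(gs f x)) := hf.t1.gst0.sqrt
  have hcp : AL V (fun t y => CP V t f g y) := AL.cp V hf.t1.t0 hg
  have hder : ∀ s : ℝ, 0 < s → HasDerivAt
      (fun s => GE V s (fun y => CP V s f g y) - 2 / √(κ + s) * A)
      (- GE V s (fun y => ∑ i, CP V s f (fun x => x i) y * CP V s g (fun x => x i) y) +
        1 / ((κ + s) * √(κ + s)) * A) s := by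
    intro s hs
    have hks : 0 < κ + s := by linarith
    have hsq : 0 < √(κ + s) := Real.sqrt_pos.2 hks
    have e1 := GE_CP_hasDerivAt H hf.t1.t0 hg hs
    have e2 : HasDerivAt (fun s : ℝ => √(κ + s)) (1 / (2 * √(κ + s))) s := by
      have := (((hasDerivAt_id s).const_add κ).sqrt hks.ne')
      simpa using this
    have e3 : HasDerivAt (fun s : ℝ => 2 / √(κ + s) * A)
        (-(1 / ((κ + s) * √(κ + s)) * A)) s := by
      have := ((e2.inv hsq.ne').const_mul 2).mul_const A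
      refine (this.congr_deriv ?_).congr_of_eventuallyEq ?_
      · rw [Real.sq_sqrt hks.le]
        field_simp
      · exact Filter.Eventually.of_forall fun r => by simp [div_eq_mul_inv]
    exact (e1.sub e3).congr_deriv (by ring)
  have hmono : ∀ T : ℝ, 0 < T → cov V f g - 2 / √κ * A ≤
      √(ex V (gs f) / (κ + T)) := by
    intro T hT
    have hm : MonotoneOn (fun s => GE V s (fun y => CP V s f g y) - 2 / √(κ + s) * A)
        (Set.Icc 0 T) := by
      refine monotoneOn_of_deriv_nonneg (convex_Icc 0 T) ?_ ?_ ?_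
      · refine ContinuousOn.sub ((hcp.GE_continuousOn H).mono Set.Icc_subset_Ici_self) ?_
        refine ContinuousOn.mul (ContinuousOn.div continuousOn_const ?_ ?_) continuousOn_const
        · exact (Real.continuous_sqrt.comp (continuous_const.add continuous_id)).continuousOn
        · intro s hs
          exact (Real.sqrt_pos.2 (by linarith [hs.1])).ne'
      · rw [interior_Icc]
        exact fun s hs => (hder s hs.1).differentiableAt.differentiableWithinAt
      · rw [interior_Icc]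
        intro s hs
        rw [(hder s hs.1).deriv]
        have hk : -κ < s := by linarith [hs.1]
        have hle : GE V s (fun y => ∑ i, CP V s f (fun x => x i) y * CP V s g (fun x => x i) y) ≤
            GE V s (fun y => 1 / ((κ + s) * √(κ + s)) * EP V s (fun x => √(gs f x)) y) := by
          refine GE_mono H ?_ ((EP_t0 H hTs hk).cmul _) s
            (fun y => pair_le H hf hg h1 hs.1.le y)
          exact T0.sum _ fun i _ => (CP_t0 H hf.t1.t0 (T0.coord i) hk).mul
            (CP_t0 H hg (T0.coord i) hk)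
        rw [GE_cmul, GE_EP H hTs hs.1.le] at hle
        linarith
    have h0 := hm (Set.left_mem_Icc.2 hT.le) (Set.right_mem_Icc.2 hT.le) hT.le
    simp only at h0
    have hV0 : pt V 0 (0 : ι → ℝ) = V := by
      funext x
      simp [pt, dt]
    have hz : GE V 0 (fun y => CP V 0 f g y) = cov V f g := by
      rw [GE_zero H]
      show cov (pt V 0 (0 : ι → ℝ)) f g = cov V f g
      rw [hV0]
    rw [hz, add_zero] at h0
    have h3 := GE_CP_le H hf hg h1 hT.le
    have h4 : 0 ≤ 2 / √(κ + T) * A := by positivity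
    linarith
  have hlim : Tendsto (fun T : ℝ => √(ex V (gs f) / (κ + T))) atTop (𝓝 0) := by
    have e1 : Tendsto (fun T : ℝ => ex V (gs f) / (κ + T)) atTop (𝓝 0) :=
      Tendsto.const_div_atTop (tendsto_atTop_add_const_left _ κ tendsto_id) _
    have e2 := (Real.continuous_sqrt.tendsto 0).comp e1
    rw [Real.sqrt_zero] at e2
    exact e2
  have hfin : cov V f g - 2 / √κ * A ≤ 0 :=
    ge_of_tendsto hlim ((eventually_gt_atTop 0).mono fun T hT => hmono T hT)
  linarith

/-- The `L¹` Poincare (Cheeger) inequality: `E|f - Ef| ≤ 2 κ^{-1/2} E|∇f|`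
(`cov_bdd_le` with `g = sign (f - Ef)`). -/
theorem l1_poincare (H : Nice κ M V) {f : (ι → ℝ) → ℝ} (hf : Cc f) :
    ex V (fun x => |f x - ex V f|) ≤ 2 / √κ * ex V (fun x => √(gs f x)) := by
  classical
  set m : ℝ := ex V f with hm
  have hS : MeasurableSet {x : ι → ℝ | m ≤ f x} :=
    measurableSet_le measurable_const hf.t1.t0.meas
  set g : (ι → ℝ) → ℝ := fun x => if m ≤ f x then 1 else -1 with hg
  have h1 : ∀ x, |g x| ≤ 1 := by
    intro x
    simp only [hg]
    split_ifs <;> simp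
  have hg0 : T0 g := by
    refine ⟨Measurable.ite hS measurable_const measurable_const, ?_⟩
    exact (PG.const (ι := ι) 1).mono fun x => by rw [abs_one]; exact h1 x
  have h := cov_bdd_le H hf hg0 h1
  rw [cov_eq_left H hf.t1.t0 hg0] at h
  have e : (fun x => (f x - ex V f) * g x) = fun x => |f x - ex V f| := by
    funext x
    simp only [hg]
    split_ifs with hx
    · rw [mul_one, abs_of_nonneg (by linarith)]
    · rw [abs_of_neg (by linarith [not_le.1 hx])]
      ring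
  rw [e] at h
  exact h

end Pool.Agent.Lib.MP_8d00da_gt.h42k.ZZ
end

section

/-!
# Buser type inequality for nice potentials
-/

namespace Pool.Agent.Lib.MP_8d00da_gt.h42k.ZZ

open MeasureTheory Set Filter
open scoped Topology NNReal ENNReal ContDiff

set_option linter.unusedSectionVars false
set_option linter.unusedVariables false

variable {ι : Type*} [Fintype ι] [DecidableEq ι]

variable {κ M : ℝ} {V : (ι → ℝ) → ℝ}

/-- Buser-Ledoux inequality: a Poincare inequality with constant `C` implies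
`Var_V f ≤ 4 √C E|∇f|` for test functions with values in `[0,1]`. With `t = 1/C`:
`Var_V f ≤ 2 GE_t Var_{t,y} f` (`max_corr`), `Var_{t,y} f ≤ E_{t,y}|f - E_{t,y}f|`
(as `|f - E f| ≤ 1`) `≤ 2 (κ+t)^{-1/2} E_{t,y}|∇f|` (`l1_poincare` for `pt V t y`), `GE_EP`. -/
theorem buser (H : Nice κ M V) {C : ℝ} (hC : 0 < C) (hP : PI V C) {f : (ι → ℝ) → ℝ} (hf : Cc f)
    (h0 : ∀ x, 0 ≤ f x) (h1 : ∀ x, f x ≤ 1) :
    var V f ≤ 4 * √C * ex V (fun x => √(gs f x)) := by
  have hf0 : T0 f := hf.t1.t0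
  have hg0 : T0 (fun x => √(gs f x)) := hf.t1.gst0.sqrt
  have t0 : 0 < 1 / C := by positivity
  have kp := H.kpos
  have key : ∀ y, CP V (1 / C) f f y ≤ 2 * √C * EP V (1 / C) (fun x => √(gs f x)) y := by
    intro y
    have Hp := H.ptn (t := 1 / C) (by linarith) y
    have e1 : CP V (1 / C) f f y = ex (pt V (1 / C) y) (fun x => (f x - ex (pt V (1 / C) y) f) ^ 2) :=
      var_eq Hp hf0
    have m0 : 0 ≤ ex (pt V (1 / C) y) f := ex_nonneg _ h0
    have m1 : ex (pt V (1 / C) y) f ≤ 1 := by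
      have := ex_mono Hp hf0 (T0.const (ι := ι) 1) h1
      rwa [ex_const Hp] at this
    have e2 : ex (pt V (1 / C) y) (fun x => (f x - ex (pt V (1 / C) y) f) ^ 2) ≤
        ex (pt V (1 / C) y) (fun x => |f x - ex (pt V (1 / C) y) f|) := by
      refine ex_mono Hp ((hf0.sub (T0.const _)).pow 2) (hf0.sub (T0.const _)).abs fun x => ?_
      have a1 : |f x - ex (pt V (1 / C) y) f| ≤ 1 := by
        rw [abs_le]; constructor <;> linarith [h0 x, h1 x]
      calc (f x - ex (pt V (1 / C) y) f) ^ 2 = |f x - ex (pt V (1 / C) y) f| ^ 2 := (sq_abs _).symm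
        _ ≤ |f x - ex (pt V (1 / C) y) f| := by
          nlinarith [abs_nonneg (f x - ex (pt V (1 / C) y) f)]
    have e3 := l1_poincare Hp hf
    have e4 : 2 / √(κ + 1 / C) ≤ 2 * √C := by
      rw [div_le_iff₀ (by positivity), mul_assoc, ← Real.sqrt_mul hC.le]
      have : (1 : ℝ) ≤ √(C * (κ + 1 / C)) := by
        rw [Real.one_le_sqrt]
        have : C * (κ + 1 / C) = C * κ + 1 := by field_simp
        rw [this]; nlinarith [mul_pos hC kp]
      linarith
    have e5 : 0 ≤ ex (pt V (1 / C) y) (fun x => √(gs f x)) := ex_nonneg _ fun x => Real.sqrt_nonneg _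
    rw [e1]
    refine e2.trans (e3.trans ?_)
    exact mul_le_mul_of_nonneg_right e4 e5
  have h2 := max_corr H hC.le hP hf0 (t := 1 / C) t0.le
  have h3 : 1 + 1 / C * C = 2 := by field_simp; norm_num
  rw [h3] at h2
  have h4 := GE_mono H (CP_t0 H hf0 hf0 (by linarith : -κ < 1 / C))
    ((EP_t0 H hg0 (by linarith : -κ < 1 / C)).cmul (2 * √C)) (1 / C) key
  rw [GE_cmul, GE_EP H hg0 t0.le] at h4
  have h5 : GE V (1 / C) (fun y => CP V (1 / C) f f y) = GE V (1 / C) (CP V (1 / C) f f) := rfl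
  rw [h5] at h2
  linarith

end Pool.Agent.Lib.MP_8d00da_gt.h42k.ZZ
end

section

/-!
# Passage to the limit: log-concave densities
-/

namespace Pool.Agent.Lib.MP_8d00da_gt.h42k.ZZ

open MeasureTheory Set Filter
open scoped Topology NNReal ENNReal ContDiff

set_option linter.unusedSectionVars false
set_option linter.unusedVariables false

variable {n : ℕ}

/-- Dominated convergence along the sequence of `reg'`. -/
theorem ex_lim {V : ℕ → (Fin n → ℝ) → ℝ} {κ M : ℕ → ℝ} {C a : ℝ} (hC : 0 < C) (ha : 0 < a)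
    (hV : ∀ k, Nice (κ k) (M k) (V k))
    (hb : ∀ k x, Real.exp (-(V k x)) ≤ C * Real.exp (-(a * √(sq x)))) {h : (Fin n → ℝ) → ℝ}
    (hpos : 0 < ∫ x, h x) (hl : ∀ᵐ x, Tendsto (fun k => Real.exp (-(V k x))) atTop (𝓝 (h x)))
    {f : (Fin n → ℝ) → ℝ} (hf : T0 f) :
    Tendsto (fun k => ex (V k) f) atTop (𝓝 ((∫ x, f x * h x) / ∫ x, h x)) := by
  have key : ∀ {φ : (Fin n → ℝ) → ℝ} (hφ : T0 φ),
      Tendsto (fun k => ∫ x, φ x * Real.exp (-(V k x))) atTop (𝓝 (∫ x, φ x * h x)) := by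
    intro φ hφ
    obtain ⟨C', m, hC', hφb⟩ := hφ.pg.bound
    refine tendsto_integral_of_dominated_convergence
      (fun x => C' * C * ((1 + sq x) ^ m * Real.exp (-(a * √(sq x)))))
      (fun k => (hφ.meas.mul (Real.measurable_exp.comp
        (hV k).c2.continuous.measurable.neg)).aestronglyMeasurable)
      ((poly_exp_int ha m).const_mul _) (fun k => Eventually.of_forall fun x => ?_) ?_
    · rw [Real.norm_eq_abs, abs_mul, abs_of_pos (Real.exp_pos _)]
      calc |φ x| * Real.exp (-(V k x)) ≤ (C' * (1 + sq x) ^ m) * (C * Real.exp (-(a * √(sq x)))) :=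
            mul_le_mul (hφb x) (hb k x) (Real.exp_pos _).le ((abs_nonneg _).trans (hφb x))
        _ = _ := by ring
    · filter_upwards [hl] with x hx
      exact hx.const_mul (φ x)
  have h1 := key hf
  have h2 := key (φ := fun _ => 1) (T0.const 1)
  simp only [one_mul] at h2
  exact h1.div h2 hpos.ne'

/-- `Cov (V k) ≤ b` for large `k` if the limit has covariance `≤ a' < b` (`ex_lim` for `x_i x_j`
and `x_i`; `var (dt θ) = ∑ θ_iθ_j CM_ij`, `|∑ θ_iθ_j Δ_ij| ≤ n max|Δ_ij| sq θ`). -/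
theorem cle_lim {V : ℕ → (Fin n → ℝ) → ℝ} {κ M : ℕ → ℝ} {C a : ℝ} (hC : 0 < C) (ha : 0 < a)
    (hV : ∀ k, Nice (κ k) (M k) (V k))
    (hb : ∀ k x, Real.exp (-(V k x)) ≤ C * Real.exp (-(a * √(sq x)))) {h : (Fin n → ℝ) → ℝ}
    (hpos : 0 < ∫ x, h x) (hl : ∀ᵐ x, Tendsto (fun k => Real.exp (-(V k x))) atTop (𝓝 (h x)))
    {a' b : ℝ} (hab : a' < b)
    (hcov : ∀ θ : Fin n → ℝ, (∫ x, dt θ x ^ 2 * h x) / (∫ x, h x) -
      ((∫ x, dt θ x * h x) / ∫ x, h x) ^ 2 ≤ a' * sq θ) :
    ∀ᶠ k in atTop, CLe (V k) b := by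
  set L : Fin n → Fin n → ℝ := fun i j => (∫ x, (x i * x j) * h x) / (∫ x, h x) -
    ((∫ x, x i * h x) / ∫ x, h x) * ((∫ x, x j * h x) / ∫ x, h x) with hL
  have hLij : ∀ i j, Tendsto (fun k => CM (V k) i j) atTop (𝓝 (L i j)) := by
    intro i j
    have e1 := ex_lim hC ha hV hb hpos hl (f := fun x => x i * x j)
      ((T0.coord i).mul (T0.coord j))
    have e2 := ex_lim hC ha hV hb hpos hl (f := fun x => x i) (T0.coord i)
    have e3 := ex_lim hC ha hV hb hpos hl (f := fun x => x j) (T0.coord j)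
    exact e1.sub (e2.mul e3)
  have hq : ∀ θ : Fin n → ℝ, ∑ i, ∑ j, θ i * θ j * L i j ≤ a' * sq θ := by
    intro θ
    have e1 : Tendsto (fun k => var (V k) (fun x => dt θ x)) atTop
        (𝓝 ((∫ x, dt θ x ^ 2 * h x) / (∫ x, h x) - ((∫ x, dt θ x * h x) / ∫ x, h x) ^ 2)) := by
      have f1 := ex_lim hC ha hV hb hpos hl (f := fun x => dt θ x ^ 2) ((T0.dtf θ).pow 2)
      have f2 := ex_lim hC ha hV hb hpos hl (f := fun x => dt θ x) (T0.dtf θ)
      have f3 := f1.sub (f2.pow 2)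
      refine f3.congr fun k => ?_
      rw [var_eq']
    have e2 : Tendsto (fun k => var (V k) (fun x => dt θ x)) atTop
        (𝓝 (∑ i, ∑ j, θ i * θ j * L i j)) := by
      have f1 : Tendsto (fun k => ∑ i, ∑ j, θ i * θ j * CM (V k) i j) atTop
          (𝓝 (∑ i, ∑ j, θ i * θ j * L i j)) :=
        tendsto_finsetSum _ fun i _ => tendsto_finsetSum _ fun j _ => (hLij i j).const_mul _
      exact f1.congr fun k => (var_dt (hV k) θ).symm
    rw [tendsto_nhds_unique e2 e1]
    exact hcov θ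
  set δ : ℝ := (b - a') / (n + 1) with hδ
  have hδ0 : 0 < δ := div_pos (by linarith) (by positivity)
  have hev : ∀ᶠ k in atTop, ∀ i j, |CM (V k) i j - L i j| < δ := by
    refine eventually_all.2 fun i => eventually_all.2 fun j => ?_
    have := (hLij i j).eventually (Metric.ball_mem_nhds (L i j) hδ0)
    refine this.mono fun k hk => ?_
    rwa [Real.dist_eq] at hk
  refine hev.mono fun k hk θ => ?_
  rw [var_dt (hV k)]
  have h1 : ∑ i, ∑ j, θ i * θ j * CM (V k) i j ≤
      ∑ i, ∑ j, (θ i * θ j * L i j + δ * (|θ i| * |θ j|)) := by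
    refine Finset.sum_le_sum fun i _ => Finset.sum_le_sum fun j _ => ?_
    have e1 : θ i * θ j * (CM (V k) i j - L i j) ≤ |θ i| * |θ j| * δ := by
      refine (le_abs_self _).trans ?_
      rw [abs_mul, abs_mul]
      exact mul_le_mul_of_nonneg_left (hk i j).le (by positivity)
    linarith
  have h2 : ∑ i, ∑ j, (θ i * θ j * L i j + δ * (|θ i| * |θ j|)) =
      ∑ i, ∑ j, θ i * θ j * L i j + δ * (∑ i, |θ i|) ^ 2 := by
    simp only [Finset.sum_add_distrib]
    congr 1
    rw [pow_two (∑ i, |θ i|), Finset.sum_mul_sum, Finset.mul_sum]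
    exact Finset.sum_congr rfl fun i _ => by rw [Finset.mul_sum]
  have h3 : (∑ i, |θ i|) ^ 2 ≤ n * sq θ := by
    have := sq_sum_le_card_mul_sum_sq (s := (Finset.univ : Finset (Fin n))) (f := fun i => |θ i|)
    simp only [sq_abs, Finset.card_univ, Fintype.card_fin] at this
    exact this
  have h4 : δ * (∑ i, |θ i|) ^ 2 ≤ (b - a') * sq θ := by
    have e1 : δ * (n + 1) = b - a' := by rw [hδ]; field_simp
    have e2 := sq_nn θ
    calc δ * (∑ i, |θ i|) ^ 2 ≤ δ * (n * sq θ) := mul_le_mul_of_nonneg_left h3 hδ0.le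
      _ ≤ δ * ((n + 1) * sq θ) := by
          refine mul_le_mul_of_nonneg_left ?_ hδ0.le
          nlinarith
      _ = (b - a') * sq θ := by rw [← mul_assoc, e1]
  have h5 := hq θ
  linarith

/-- The functional inequality for log-concave densities on `Fin n → ℝ`. -/
theorem fi_density {C : ℝ} (hC : 0 < C)
    (hP : ∀ (κ M : ℝ) (V : (Fin n → ℝ) → ℝ), Nice κ M V → CLe V 1 → PI V C)
    {h : (Fin n → ℝ) → ℝ} (h0 : ∀ x, 0 ≤ h x) (hm : Measurable h)
    (hlc : ∀ (x y : Fin n → ℝ) (a b : ℝ), 0 ≤ a → 0 ≤ b → a + b = 1 →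
      h x ^ a * h y ^ b ≤ h (a • x + b • y)) (hi : Integrable h) (hpos : 0 < ∫ x, h x)
    {a' : ℝ} (ha' : 0 ≤ a')
    (hcov : ∀ θ : Fin n → ℝ, (∫ x, dt θ x ^ 2 * h x) / (∫ x, h x) -
      ((∫ x, dt θ x * h x) / ∫ x, h x) ^ 2 ≤ a' * sq θ)
    {f : (Fin n → ℝ) → ℝ} (hf : Cc f) (hf0 : ∀ x, 0 ≤ f x) (hf1 : ∀ x, f x ≤ 1) :
    (∫ x, f x ^ 2 * h x) / (∫ x, h x) - ((∫ x, f x * h x) / ∫ x, h x) ^ 2 ≤
      4 * √(C * a') * ((∫ x, √(gs f x) * h x) / ∫ x, h x) := by
  obtain ⟨V, κ, M, C₀, a, hC₀, ha, hV, hb, hl⟩ := reg' h0 hm hlc hi hpos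
  have hT : T0 f := hf.t1.t0
  have e1 := ex_lim hC₀ ha hV hb hpos hl (f := fun x => f x ^ 2) (hT.pow 2)
  have e2 := ex_lim hC₀ ha hV hb hpos hl hT
  have e3 := ex_lim hC₀ ha hV hb hpos hl (f := fun x => √(gs f x)) hf.t1.gst0.sqrt
  have e4 : Tendsto (fun k => var (V k) f) atTop
      (𝓝 ((∫ x, f x ^ 2 * h x) / (∫ x, h x) - ((∫ x, f x * h x) / ∫ x, h x) ^ 2)) :=
    (e1.sub (e2.pow 2)).congr fun k => by rw [var_eq']
  have key : ∀ b : ℝ, a' < b →
      (∫ x, f x ^ 2 * h x) / (∫ x, h x) - ((∫ x, f x * h x) / ∫ x, h x) ^ 2 ≤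
      4 * √(C * b) * ((∫ x, √(gs f x) * h x) / ∫ x, h x) := by
    intro b hab
    have hb0 : 0 < b := lt_of_le_of_lt ha' hab
    have hcle := cle_lim hC₀ ha hV hb hpos hl hab hcov
    refine le_of_tendsto_of_tendsto e4 (e3.const_mul (4 * √(C * b))) ?_
    refine hcle.mono fun k hk => ?_
    exact buser (hV k) (mul_pos hC hb0) (PI_scale hP (hV k) hb0 hk) hf hf0 hf1
  have hlim : Tendsto (fun b : ℝ => 4 * √(C * b) * ((∫ x, √(gs f x) * h x) / ∫ x, h x))
      (𝓝[>] a') (𝓝 (4 * √(C * a') * ((∫ x, √(gs f x) * h x) / ∫ x, h x))) := by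
    have hc : Continuous fun b : ℝ => 4 * √(C * b) * ((∫ x, √(gs f x) * h x) / ∫ x, h x) :=
      (continuous_const.mul (Real.continuous_sqrt.comp (continuous_const.mul continuous_id))).mul
        continuous_const
    exact (hc.tendsto a').mono_left nhdsWithin_le_nhds
  exact ge_of_tendsto hlim (eventually_nhdsWithin_of_forall fun b hb' => key b hb')

end Pool.Agent.Lib.MP_8d00da_gt.h42k.ZZ
end

section

/-!
# The functional inequality for convex bodies
-/

namespace Pool.Agent.Lib.MP_8d00da_gt.h42k.ZZ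

open MeasureTheory Set Filter
open scoped Topology NNReal ENNReal ContDiff

set_option linter.unusedSectionVars false
set_option linter.unusedVariables false

variable {n : ℕ}

open Pool.Agent.Lib.MP_8d00da_gt.h42s (Vn)

/-- The indicator function of the body in coordinates. -/
private noncomputable def zd3h (K : Set (EuclideanSpace ℝ (Fin n))) : (Fin n → ℝ) → ℝ :=
  indicator {y | (eN n).symm y ∈ K} fun _ => 1

private theorem zd3h_mem {K : Set (EuclideanSpace ℝ (Fin n))} {y : Fin n → ℝ}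
    (h : (eN n).symm y ∈ K) : zd3h K y = 1 := indicator_of_mem (s := {y | (eN n).symm y ∈ K}) h _

private theorem zd3h_notMem {K : Set (EuclideanSpace ℝ (Fin n))} {y : Fin n → ℝ}
    (h : (eN n).symm y ∉ K) : zd3h K y = 0 :=
  indicator_of_notMem (s := {y | (eN n).symm y ∈ K}) h _

private theorem zd3h_nonneg (K : Set (EuclideanSpace ℝ (Fin n))) (y : Fin n → ℝ) :
    0 ≤ zd3h K y := by
  by_cases h : (eN n).symm y ∈ K
  · rw [zd3h_mem h]
    exact zero_le_one
  · rw [zd3h_notMem h]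

private theorem zd3h_le (K : Set (EuclideanSpace ℝ (Fin n))) (y : Fin n → ℝ) :
    zd3h K y ≤ 1 := by
  by_cases h : (eN n).symm y ∈ K
  · rw [zd3h_mem h]
  · rw [zd3h_notMem h]
    exact zero_le_one

private theorem zd3h_eN (K : Set (EuclideanSpace ℝ (Fin n))) (x : EuclideanSpace ℝ (Fin n)) :
    zd3h K (eN n x) = K.indicator (fun _ => 1) x := by
  by_cases h : x ∈ K
  · rw [zd3h_mem (by rwa [ContinuousLinearEquiv.symm_apply_apply]), indicator_of_mem h]
  · rw [zd3h_notMem (by rwa [ContinuousLinearEquiv.symm_apply_apply]), indicator_of_notMem h]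

private theorem zd3_int (K : Set (EuclideanSpace ℝ (Fin n))) (hm : MeasurableSet K)
    (g : EuclideanSpace ℝ (Fin n) → ℝ) :
    ∫ y, g ((eN n).symm y) * zd3h K y = ∫ x in K, g x := by
  rw [← integral_eN, ← integral_indicator hm]
  refine integral_congr_ae (Eventually.of_forall fun x => ?_)
  simp only [ContinuousLinearEquiv.symm_apply_apply]
  rw [zd3h_eN]
  by_cases h : x ∈ K
  · rw [indicator_of_mem h, indicator_of_mem h, mul_one]
  · rw [indicator_of_notMem h, indicator_of_notMem h, mul_zero]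

private theorem zd3_mass (K : Set (EuclideanSpace ℝ (Fin n))) (hm : MeasurableSet K) :
    ∫ y, zd3h K y = (volume K).toReal := by
  have h1 := zd3_int K hm fun _ => 1
  simp only [one_mul] at h1
  rw [h1, setIntegral_const, smul_eq_mul, mul_one]
  rfl

private theorem zd3_key {K : Set (EuclideanSpace ℝ (Fin n))} (hm : MeasurableSet K)
    {μ : Measure (EuclideanSpace ℝ (Fin n))} (hμ : μ = (volume K)⁻¹ • volume.restrict K)
    (g : EuclideanSpace ℝ (Fin n) → ℝ) :
    (∫ y, g ((eN n).symm y) * zd3h K y) / (∫ y, zd3h K y) = ∫ x, g x ∂μ := by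
  rw [zd3_int K hm, zd3_mass K hm, hμ, integral_smul_measure, ENNReal.toReal_inv, smul_eq_mul,
    div_eq_inv_mul]

private theorem zd3_lc {K : Set (EuclideanSpace ℝ (Fin n))} (hK : Convex ℝ K) (x y : Fin n → ℝ)
    (a b : ℝ) (ha : 0 ≤ a) (hb : 0 ≤ b) (hab : a + b = 1) :
    zd3h K x ^ a * zd3h K y ^ b ≤ zd3h K (a • x + b • y) := by
  have e : (eN n).symm (a • x + b • y) = a • (eN n).symm x + b • (eN n).symm y := by
    rw [map_add, map_smul, map_smul]
  by_cases hz : (eN n).symm (a • x + b • y) ∈ K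
  · rw [zd3h_mem hz]
    exact mul_le_one₀ (Real.rpow_le_one (zd3h_nonneg K x) (zd3h_le K x) ha)
      (Real.rpow_nonneg (zd3h_nonneg K y) b) (Real.rpow_le_one (zd3h_nonneg K y) (zd3h_le K y) hb)
  · rw [zd3h_notMem hz]
    by_cases hx : (eN n).symm x ∈ K
    · by_cases hy : (eN n).symm y ∈ K
      · exact absurd (by rw [e]; exact hK hx hy ha hb hab) hz
      · have hb0 : b ≠ 0 := by
          rintro rfl
          have ha1 : a = 1 := by linarith
          rw [e, ha1, one_smul, zero_smul, add_zero] at hz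
          exact hz hx
        rw [zd3h_notMem hy, Real.zero_rpow hb0, mul_zero]
    · have ha0 : a ≠ 0 ∨ (eN n).symm y ∉ K := by
        by_contra hcon
        push Not at hcon
        obtain ⟨rfl, hy⟩ := hcon
        have hb1 : b = 1 := by linarith
        rw [e, hb1, one_smul, zero_smul, zero_add] at hz
        exact hz hy
      rcases ha0 with ha0 | hy
      · rw [zd3h_notMem hx, Real.zero_rpow ha0, zero_mul]
      · rcases eq_or_ne a 0 with rfl | ha0
        · have hb1 : b = 1 := by linarith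
          rw [zd3h_notMem hy, hb1, Real.rpow_one, mul_zero]
        · rw [zd3h_notMem hx, Real.zero_rpow ha0, zero_mul]

/-- The functional inequality for the uniform measure of a convex body (`fi_density` for the
indicator function of `eN n '' K`, `integral_eN`, `gs_eN`, `dt_eN`). -/
theorem fi_body {C : ℝ} (hC : 0 < C)
    (hP : ∀ (κ M : ℝ) (V : (Fin n → ℝ) → ℝ), Nice κ M V → CLe V 1 → PI V C)
    {K : Set (EuclideanSpace ℝ (Fin n))} (hK : Convex ℝ K) (hc : IsCompact K)
    (hi : (interior K).Nonempty) {μ : Measure (EuclideanSpace ℝ (Fin n))}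
    (hμ : μ = (volume K)⁻¹ • volume.restrict K) {a : ℝ} (ha : 0 ≤ a)
    (hcov : ∀ θ : EuclideanSpace ℝ (Fin n), (∫ x, inner ℝ θ x ^ 2 ∂μ) -
      (∫ x, inner ℝ θ x ∂μ) ^ 2 ≤ a * ‖θ‖ ^ 2)
    {f : EuclideanSpace ℝ (Fin n) → ℝ} (hf : ContDiff ℝ ∞ f) (hfc : HasCompactSupport f)
    (hf0 : ∀ x, 0 ≤ f x) (hf1 : ∀ x, f x ≤ 1) :
    (∫ x, f x ^ 2 ∂μ) - (∫ x, f x ∂μ) ^ 2 ≤ 4 * √(C * a) * ∫ x, ‖fderiv ℝ f x‖ ∂μ := by
  have hm : MeasurableSet K := hc.isClosed.measurableSet
  have hmK : MeasurableSet {y : Fin n → ℝ | (eN n).symm y ∈ K} :=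
    (eN n).symm.continuous.measurable hm
  have hfin : volume K ≠ ⊤ := hc.measure_lt_top.ne
  have hvol : 0 < (volume K).toReal := by
    refine ENNReal.toReal_pos ?_ hfin
    exact ((isOpen_interior.measure_pos volume hi).trans_le (measure_mono interior_subset)).ne'
  have hpos : 0 < ∫ y, zd3h K y := by
    rw [zd3_mass K hm]
    exact hvol
  have hint : Integrable (zd3h K) := by
    by_contra hcon
    rw [integral_undef hcon] at hpos
    exact lt_irrefl _ hpos
  have key := zd3_key hm hμ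
  have hcov' : ∀ θ : Fin n → ℝ, (∫ x, dt θ x ^ 2 * zd3h K x) / (∫ x, zd3h K x) -
      ((∫ x, dt θ x * zd3h K x) / ∫ x, zd3h K x) ^ 2 ≤ a * sq θ := by
    intro θ
    have h1 := hcov ((eN n).symm θ)
    have e : ∀ y, dt θ y = inner ℝ ((eN n).symm θ) ((eN n).symm y) := by
      intro y
      rw [← dt_eN, ContinuousLinearEquiv.apply_symm_apply, ContinuousLinearEquiv.apply_symm_apply]
    rw [← sq_eN, ContinuousLinearEquiv.apply_symm_apply, ← key, ← key] at h1
    simp only [e]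
    exact h1
  have hcc : Cc fun y => f ((eN n).symm y) :=
    ⟨hf.comp (eN n).symm.contDiff, hfc.comp_homeomorph (eN n).symm.toHomeomorph⟩
  have h2 := fi_density hC hP (zd3h_nonneg K) (measurable_const.indicator hmK) (zd3_lc hK) hint
    hpos ha hcov' hcc (fun y => hf0 _) (fun y => hf1 _)
  have hd : Differentiable ℝ f := hf.differentiable (by simp)
  have e2 : ∀ y, √(gs (fun y => f ((eN n).symm y)) y) = ‖fderiv ℝ f ((eN n).symm y)‖ := by
    intro y
    have h3 := gs_eN hd ((eN n).symm y)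
    rw [ContinuousLinearEquiv.apply_symm_apply] at h3
    rw [h3, Real.sqrt_sq (norm_nonneg _)]
  simp only [e2] at h2
  rw [← key (fun x => f x ^ 2), ← key f, ← key fun x => ‖fderiv ℝ f x‖]
  exact h2

end Pool.Agent.Lib.MP_8d00da_gt.h42k.ZZ
end

section

/-!
# From the Poincare form for nice potentials to the frozen statement
-/

namespace Pool.Agent.Lib.MP_8d00da_gt.h42k.ZZ

open MeasureTheory Set Filter
open scoped Topology NNReal ENNReal ContDiff

set_option linter.unusedSectionVars false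
set_option linter.unusedVariables false

variable {n : ℕ}

/-- The final inequality for real `T`. -/
theorem final_real {C : ℝ} (hC : 0 < C)
    (hP : ∀ (n : ℕ) (κ M : ℝ) (V : (Fin n → ℝ) → ℝ), Nice κ M V → CLe V 1 → PI V C)
    {K : Set (EuclideanSpace ℝ (Fin n))} (hK : Convex ℝ K) (hc : IsCompact K)
    (hi : (interior K).Nonempty) {μ : Measure (EuclideanSpace ℝ (Fin n))}
    (hμ : μ = (volume K)⁻¹ • volume.restrict K) {T : ℝ} (hT : 0 < T)
    (h : ∀ (u : EuclideanSpace ℝ (Fin n)) (b : ℝ), u ≠ 0 →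
      ENNReal.ofReal T * min (μ {x : EuclideanSpace ℝ (Fin n) | inner ℝ u x ≤ b})
          (1 - μ {x : EuclideanSpace ℝ (Fin n) | inner ℝ u x ≤ b}) ≤
        Filter.liminf
          (fun ε : ℝ =>
            (μ (Metric.thickening ε {x : EuclideanSpace ℝ (Fin n) | inner ℝ u x ≤ b})
              - μ {x : EuclideanSpace ℝ (Fin n) | inner ℝ u x ≤ b})
              / ENNReal.ofReal ε)
          (nhdsWithin 0 (Set.Ioi 0)))
    {A : Set (EuclideanSpace ℝ (Fin n))} (hA : MeasurableSet A) :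
    ENNReal.ofReal (1 / (8 * √(2 * C))) * ENNReal.ofReal T * min (μ A) (1 - μ A) ≤
      Filter.liminf (fun ε : ℝ => (μ (Metric.thickening ε A) - μ A) / ENNReal.ofReal ε)
        (nhdsWithin 0 (Set.Ioi 0)) := by
  rcases A.eq_empty_or_nonempty with rfl | hne
  · simp
  have hv0 : volume K ≠ 0 := by
    have : 0 < volume (interior K) := isOpen_interior.measure_pos volume hi
    exact (this.trans_le (measure_mono interior_subset)).ne'
  have hvt : volume K ≠ ⊤ := hc.measure_lt_top.ne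
  have hprob : IsProbabilityMeasure μ := by
    refine ⟨?_⟩
    rw [hμ, Measure.smul_apply, Measure.restrict_apply_univ, smul_eq_mul,
      ENNReal.inv_mul_cancel hv0 hvt]
  have hKc : μ Kᶜ = 0 := by
    rw [hμ, Measure.smul_apply, Measure.restrict_apply hc.measurableSet.compl]
    simp
  have hcov := cov_of_half hK hc hi hμ hT h
  have hB : 0 < 4 * √(C * (2 / T ^ 2)) := by positivity
  have hfi := fun (f : EuclideanSpace ℝ (Fin n) → ℝ) (hf : ContDiff ℝ ∞ f)
    (hfc : HasCompactSupport f) (hf0 : ∀ x, 0 ≤ f x) (hf1 : ∀ x, f x ≤ 1) =>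
    fi_body hC (hP n) hK hc hi hμ (by positivity : (0 : ℝ) ≤ 2 / T ^ 2) hcov hf hfc hf0 hf1
  have h1 := liminf_ge (μ := μ) hB (A := A)
    fun ε hε => content_ineq hc hKc hB.le hfi hA hne hε
  have e : 1 / (2 * (4 * √(C * (2 / T ^ 2)))) = 1 / (8 * √(2 * C)) * T := by
    have : √(C * (2 / T ^ 2)) = √(2 * C) / T := by
      rw [show C * (2 / T ^ 2) = 2 * C / T ^ 2 by ring, Real.sqrt_div (by positivity),
        Real.sqrt_sq hT.le]
    rw [this]
    have : 0 < √(2 * C) := by positivity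
    field_simp
    norm_num
  rw [e, ENNReal.ofReal_mul (by positivity)] at h1
  exact h1

/-- The KLS conjecture for convex bodies (the frozen statement S13545) from the universal Poincare
inequality for nice potentials. For real `T > 0` with `T ≤ t`: `cov_of_half`, `fi_body` with
`a = 2/T²`, `content_ineq`, `liminf_ge` with `B = 4 √(2C) / T`, i.e. `c = 1/(8√(2C))`; `t = 0`
and `t = ⊤` separately (supremum over `T`); `A = ∅` separately. -/
theorem frozen_of_PI {C : ℝ} (hC : 0 < C)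
    (hP : ∀ (n : ℕ) (κ M : ℝ) (V : (Fin n → ℝ) → ℝ), Nice κ M V → CLe V 1 → PI V C) :
    ∃ c : ℝ, 0 < c ∧
      ∀ (n : ℕ) (K : Set (EuclideanSpace ℝ (Fin n))),
        Convex ℝ K → IsCompact K → (interior K).Nonempty →
        ∀ μ : Measure (EuclideanSpace ℝ (Fin n)),
          μ = (volume K)⁻¹ • volume.restrict K →
          ∀ t : ENNReal,
            (∀ (u : EuclideanSpace ℝ (Fin n)) (b : ℝ), u ≠ 0 →
              t * min (μ {x : EuclideanSpace ℝ (Fin n) | inner ℝ u x ≤ b})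
                  (1 - μ {x : EuclideanSpace ℝ (Fin n) | inner ℝ u x ≤ b}) ≤
                Filter.liminf
                  (fun ε : ℝ =>
                    (μ (Metric.thickening ε {x : EuclideanSpace ℝ (Fin n) | inner ℝ u x ≤ b})
                      - μ {x : EuclideanSpace ℝ (Fin n) | inner ℝ u x ≤ b})
                      / ENNReal.ofReal ε)
                  (nhdsWithin 0 (Set.Ioi 0))) →
            ∀ A : Set (EuclideanSpace ℝ (Fin n)), MeasurableSet A →
              ENNReal.ofReal c * t * min (μ A) (1 - μ A) ≤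
                Filter.liminf
                  (fun ε : ℝ => (μ (Metric.thickening ε A) - μ A) / ENNReal.ofReal ε)
                  (nhdsWithin 0 (Set.Ioi 0)) := by
  refine ⟨1 / (8 * √(2 * C)), by positivity, ?_⟩
  intro n K hK hc hi μ hμ t h A hA
  have key : ∀ T : ℝ, 0 < T → ENNReal.ofReal T ≤ t →
      ENNReal.ofReal (1 / (8 * √(2 * C))) * ENNReal.ofReal T * min (μ A) (1 - μ A) ≤
      Filter.liminf (fun ε : ℝ => (μ (Metric.thickening ε A) - μ A) / ENNReal.ofReal ε)
        (nhdsWithin 0 (Set.Ioi 0)) := by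
    intro T hT hTt
    refine final_real hC hP hK hc hi hμ hT (fun u b hu => ?_) hA
    exact (mul_le_mul_left hTt _).trans (h u b hu)
  rcases eq_or_ne t ⊤ with rfl | htop
  · rcases eq_or_ne (min (μ A) (1 - μ A)) 0 with h0 | h0
    · rw [h0]; simp
    · have hl : Filter.liminf (fun ε : ℝ => (μ (Metric.thickening ε A) - μ A) / ENNReal.ofReal ε)
        (nhdsWithin 0 (Set.Ioi 0)) = ⊤ := by
        by_contra hne
        set L := Filter.liminf (fun ε : ℝ => (μ (Metric.thickening ε A) - μ A) / ENNReal.ofReal ε)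
          (nhdsWithin 0 (Set.Ioi 0)) with hL
        have c0 : ENNReal.ofReal (1 / (8 * √(2 * C))) ≠ 0 := by
          rw [Ne, ENNReal.ofReal_eq_zero, not_le]; positivity
        have hm0 : ENNReal.ofReal (1 / (8 * √(2 * C))) * min (μ A) (1 - μ A) ≠ 0 :=
          mul_ne_zero c0 h0
        have hfin : L / (ENNReal.ofReal (1 / (8 * √(2 * C))) * min (μ A) (1 - μ A)) ≠ ⊤ :=
          ENNReal.div_ne_top hne hm0
        set q := L / (ENNReal.ofReal (1 / (8 * √(2 * C))) * min (μ A) (1 - μ A)) with hq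
        have h2 := key (q.toReal + 1) (by positivity) le_top
        have h3 : ENNReal.ofReal (q.toReal + 1) ≤ q := by
          rw [hq, ENNReal.le_div_iff_mul_le (Or.inl hm0) (Or.inr hne)]
          calc _ = ENNReal.ofReal (1 / (8 * √(2 * C))) * ENNReal.ofReal (q.toReal + 1) *
              min (μ A) (1 - μ A) := by ring
            _ ≤ L := h2
        have h4 : q.toReal + 1 ≤ q.toReal := (ENNReal.ofReal_le_iff_le_toReal hfin).1 h3
        linarith
      rw [hl]; exact le_top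
  · rcases eq_or_ne t 0 with rfl | ht0
    · simp
    · have h1 := key t.toReal (ENNReal.toReal_pos ht0 htop) (ENNReal.ofReal_toReal htop).le
      rwa [ENNReal.ofReal_toReal htop] at h1

end Pool.Agent.Lib.MP_8d00da_gt.h42k.ZZ
end
end
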